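import Mathlib
import Pool.Agent.P.MP_dea669_nt.Rankin

-- part Pool.Agent.P.MP_b0ea37_nt.WDefs
section

namespace Pool.Agent.VW

open Polynomial

/-- every finite set of objects with property `P` has at most `B` elements -/
def Cnt {α : Type} (P : α → Prop) (B : ℝ) : Prop :=
  ∀ S : Finset α, (∀ x ∈ S, P x) → (S.card : ℝ) ≤ B

/-- monic of degree `n` and of dyadic height `H` -/
def Box (n : ℕ) (H : ℝ) (f : ℤ[X]) : Prop :=
  f.Monic ∧ f.natDegree = n ∧ H / 2 < f.supNorm ∧ f.supNorm ≤ H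

/-- power saving against `H ^ (n - 1)` in the dyadic box -/
def PS (n : ℕ) (P : ℝ → ℤ[X] → Prop) : Prop :=
  ∃ c : ℝ, 0 < c ∧ ∃ C H₀ : ℝ, ∀ H : ℝ, H₀ ≤ H →
    Cnt (fun f => Box n H f ∧ P H f) (C * H ^ ((n : ℝ) - 1 - c))

/-- an integer polynomial seen over a commutative ring -/
noncomputable abbrev up (R : Type) [CommRing R] (f : ℤ[X]) : R[X] := f.map (Int.castRingHom R)

/-- irreducible over the rationals -/
def Irr (f : ℤ[X]) : Prop := Irreducible (up ℚ f)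

/-- the symmetric function of the roots behind `Phi` -/
noncomputable def phiS (n k : ℕ) : MvPolynomial (Fin n) ℤ :=
  ∑ i : Fin n, MvPolynomial.X i ^ k * ∏ j ∈ Finset.univ.erase i,
    ∏ l ∈ (Finset.univ.erase i).erase j, (MvPolynomial.X j - MvPolynomial.X l)

/-- `phiS` written in the coefficients of the monic polynomial -/
noncomputable def phiP (n k : ℕ) : MvPolynomial (Fin n) ℤ :=
  Classical.epsilon fun P => MvPolynomial.eval₂ (Int.castRingHom (MvPolynomial (Fin n) ℤ))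
    (fun i : Fin n => (∏ j : Fin n, (X - C (MvPolynomial.X j)) :
      (MvPolynomial (Fin n) ℤ)[X]).coeff i) P = phiS n k

noncomputable def Phi (n k : ℕ) {R : Type} [CommRing R] (f : R[X]) : R :=
  MvPolynomial.eval₂ (Int.castRingHom R) (fun i : Fin n => f.coeff i) (phiP n k)

/-- the product of all differences of roots over ordered pairs -/
noncomputable def Dv (n : ℕ) {R : Type} [CommRing R] (f : R[X]) : R :=
  resultant f (derivative f) n (n - 1)

/-- the square of the ideal `(M, x - r)` for squarefree `M` -/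
def Wk (M : ℕ) (r : ℤ) (g : ℤ[X]) : Prop :=
  (M : ℤ) ^ 2 ∣ g.eval r ∧ (M : ℤ) ∣ (derivative g).eval r

def Weak (p : ℕ) (f : ℤ[X]) : Prop := ∃ r : ℤ, Wk p r f

/-- every weak prime divides `m` -/
def WkIn (m : ℕ) (f : ℤ[X]) : Prop := ∀ p : ℕ, p.Prime → Weak p f → p ∣ m

/-- no intermediate field: a nonconstant reduced polynomial separates the roots -/
def Prim (f : ℤ[X]) : Prop :=
  ∀ q : ℚ[X], 0 < q.natDegree → q.natDegree < f.natDegree → ∀ z w : ℂ,
    aeval z f = 0 → aeval w f = 0 → aeval z q = aeval w q → z = w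

def Bad (n : ℕ) (f : ℤ[X]) : Prop :=
  f.Monic ∧ f.natDegree = n ∧ Irr f ∧ Prim f ∧
    ∀ p : ℕ, p.Prime → (p : ℤ) ∣ Dv n f → ¬ (p : ℤ) ∣ Phi n 0 f →
      Weak p f ∧ Even (padicValInt p (Dv n f))

def Indep (g₁ g₂ : ℤ[X]) : Prop :=
  ∀ a b : ℤ, C a * g₁ + C b * g₂ = 0 → a = 0 ∧ b = 0

/-- the line through `f` in direction `g` has a member with exactly one double root -/
def Good (n : ℕ) (f g : ℤ[X]) : Prop :=
  ∃ τ : ℂ, Dv n (up ℂ f + C τ * up ℂ g) = 0 ∧ Phi n 0 (up ℂ f + C τ * up ℂ g) ≠ 0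

/-- `θ` lists the roots of `f` in `K` -/
def Roots {K : Type} [CommRing K] {n : ℕ} (f : K[X]) (θ : Fin n → K) : Prop :=
  f = ∏ i, (X - C (θ i))

/-- upper end of the lattice range -/
noncomputable def muL (n : ℕ) : ℝ := n * (n - 2) / (2 * (n - 1)) - 1 / 1000

/-- width of the field counting range -/
noncomputable def cF (n : ℕ) : ℝ := if n = 5 then 1 / 2 else 26 / 25

/-- all weak primes divide a number of size at most `H ^ δ` -/
def Tiny (δ H : ℝ) (f : ℤ[X]) : Prop := ∃ m : ℕ, 1 ≤ m ∧ (m : ℝ) ≤ H ^ δ ∧ WkIn m f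

end Pool.Agent.VW
end

-- part Pool.Agent.P.MP_b0ea37_nt.WHt
section

namespace Pool.Agent.VW

open Polynomial

section general
variable {A : Type} [NormedCommRing A]

theorem sup_le_iff {g : A[X]} {B : ℝ} : g.supNorm ≤ B ↔ ∀ i, ‖g.coeff i‖ ≤ B :=
  ⟨fun h i => (g.le_supNorm i).trans h, fun h => by
    obtain ⟨i, hi⟩ := g.exists_eq_supNorm
    rw [hi]; exact h i⟩

theorem sup_neg (g : A[X]) : (-g).supNorm = g.supNorm :=
  le_antisymm (sup_le_iff.2 fun i => by simpa using g.le_supNorm i)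
    (sup_le_iff.2 fun i => by simpa using (-g).le_supNorm i)

theorem sup_add_le (g h : A[X]) : (g + h).supNorm ≤ g.supNorm + h.supNorm :=
  sup_le_iff.2 fun i => by
    rw [coeff_add]; exact (norm_add_le _ _).trans (add_le_add (g.le_supNorm i) (h.le_supNorm i))

theorem sup_sub_le (g h : A[X]) : (g - h).supNorm ≤ g.supNorm + h.supNorm :=
  sup_le_iff.2 fun i => by
    rw [coeff_sub]; exact (norm_sub_le _ _).trans (add_le_add (g.le_supNorm i) (h.le_supNorm i))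

theorem sup_sum_le {ι : Type} (s : Finset ι) (g : ι → A[X]) :
    (∑ i ∈ s, g i).supNorm ≤ ∑ i ∈ s, (g i).supNorm :=
  sup_le_iff.2 fun i => by
    rw [finsetSum_coeff]
    exact (norm_sum_le _ _).trans (Finset.sum_le_sum fun j _ => (g j).le_supNorm i)

theorem sup_C_mul_le (a : A) (g : A[X]) : (C a * g).supNorm ≤ ‖a‖ * g.supNorm :=
  sup_le_iff.2 fun i => by
    rw [coeff_C_mul]
    exact (norm_mul_le _ _).trans (mul_le_mul_of_nonneg_left (g.le_supNorm i) (norm_nonneg _))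

theorem wht_X_pow (h : A[X]) (i : ℕ) : (h * X ^ i).supNorm ≤ h.supNorm :=
  sup_le_iff.2 fun j => by
    rw [coeff_mul_X_pow']
    split_ifs
    exacts [h.le_supNorm _, by simpa using h.supNorm_nonneg]

theorem wht_lin (t : A) (h : A[X]) : ((X - C t) * h).supNorm ≤ (1 + ‖t‖) * h.supNorm := by
  have e : (X - C t) * h = h * X ^ 1 - C t * h := by ring
  rw [e, add_mul, one_mul]
  exact (sup_sub_le _ _).trans (add_le_add (wht_X_pow h 1) (sup_C_mul_le t h))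

theorem wht_map {A' : Type} [NormedCommRing A'] (φ : A →+* A') (hφ : ∀ a, ‖φ a‖ = ‖a‖)
    (g : A[X]) : (g.map φ).supNorm = g.supNorm :=
  le_antisymm (sup_le_iff.2 fun i => by rw [coeff_map, hφ]; exact g.le_supNorm i)
    (sup_le_iff.2 fun i => by rw [← hφ, ← coeff_map]; exact (g.map φ).le_supNorm i)

theorem sup_mul_le (g h : A[X]) {m : ℕ} (hm : g.natDegree ≤ m) :
    (g * h).supNorm ≤ (m + 1) * (g.supNorm * h.supNorm) := by
  have hg : g = ∑ i ∈ Finset.range (m + 1), C (g.coeff i) * X ^ i := by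
    conv_lhs => rw [g.as_sum_range' (m + 1) (by omega)]
    simp only [C_mul_X_pow_eq_monomial]
  have e : g * h = ∑ i ∈ Finset.range (m + 1), C (g.coeff i) * (h * X ^ i) := by
    conv_lhs => rw [hg, Finset.sum_mul]
    exact Finset.sum_congr rfl fun i _ => by ring
  rw [e]
  refine (sup_sum_le _ _).trans ((Finset.sum_le_card_nsmul _ _ (g.supNorm * h.supNorm)
    fun i _ => ?_).trans (by simp))
  exact (sup_C_mul_le _ _).trans (mul_le_mul (g.le_supNorm i) (wht_X_pow h i)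
    (supNorm_nonneg _) (supNorm_nonneg _))

theorem sup_derivative_le [NormOneClass A] (g : A[X]) {m : ℕ} (hm : g.natDegree ≤ m) :
    (derivative g).supNorm ≤ m * g.supNorm :=
  sup_le_iff.2 fun i => by
    rw [coeff_derivative]
    by_cases hi : i + 1 ≤ m
    · refine (norm_mul_le _ _).trans ?_
      rw [mul_comm]
      refine mul_le_mul ?_ (g.le_supNorm _) (norm_nonneg _) (Nat.cast_nonneg _)
      rw [← Nat.cast_succ]
      exact (Nat.norm_cast_le _).trans (by rw [norm_one, mul_one]; exact_mod_cast hi)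
    · rw [coeff_eq_zero_of_natDegree_lt (by omega), zero_mul, norm_zero]
      exact mul_nonneg (Nat.cast_nonneg _) g.supNorm_nonneg

theorem norm_eval_le [NormOneClass A] (g : A[X]) {m : ℕ} (hm : g.natDegree ≤ m) (z : A) :
    ‖g.eval z‖ ≤ (m + 1) * g.supNorm * (max 1 ‖z‖) ^ m := by
  rw [eval_eq_sum_range' (n := m + 1) (by omega)]
  refine (norm_sum_le _ _).trans ((Finset.sum_le_card_nsmul _ _ (g.supNorm * max 1 ‖z‖ ^ m)
    fun i hi => ?_).trans (by simp [mul_assoc]))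
  refine (norm_mul_le _ _).trans (mul_le_mul (g.le_supNorm i) ?_ (norm_nonneg _) g.supNorm_nonneg)
  exact (norm_pow_le z i).trans ((pow_le_pow_left₀ (norm_nonneg _) (le_max_right 1 _) i).trans
    (pow_le_pow_right₀ (le_max_left _ _) (by rw [Finset.mem_range] at hi; omega)))

theorem norm_resultant_le [NormOneClass A] (f g : A[X]) (m n : ℕ) :
    ‖resultant f g m n‖ ≤ (m + n).factorial * f.supNorm ^ n * g.supNorm ^ m := by
  rw [resultant, Matrix.det_apply', mul_assoc]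
  refine (norm_sum_le _ _).trans ((Finset.sum_le_card_nsmul _ _ (f.supNorm ^ n * g.supNorm ^ m)
    fun σ _ => ?_).trans (by simp [Fintype.card_perm]))
  have h1 : ‖((Equiv.Perm.sign σ : ℤ) : A)‖ = 1 := by
    rcases Int.units_eq_one_or (Equiv.Perm.sign σ) with h | h <;> simp [h]
  refine (norm_mul_le _ _).trans ?_
  rw [h1, one_mul]
  refine (Finset.norm_prod_le _ _).trans ?_
  rw [Fin.prod_univ_add, mul_comm]
  refine mul_le_mul ((Finset.prod_le_prod (g := fun _ => f.supNorm) (fun _ _ => norm_nonneg _)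
    fun j _ => ?_).trans (by simp)) ((Finset.prod_le_prod (g := fun _ => g.supNorm)
    (fun _ _ => norm_nonneg _) fun j _ => ?_).trans (by simp))
    (Finset.prod_nonneg fun _ _ => norm_nonneg _) (pow_nonneg f.supNorm_nonneg _)
  · simp only [sylvester, Matrix.of_apply, Fin.addCases_right]
    split_ifs
    exacts [f.le_supNorm _, by simpa using f.supNorm_nonneg]
  · simp only [sylvester, Matrix.of_apply, Fin.addCases_left]
    split_ifs
    exacts [g.le_supNorm _, by simpa using g.supNorm_nonneg]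

theorem sup_prod_X_sub_C [NormOneClass A] {ι : Type} (s : Finset ι) (θ : ι → A) :
    (∏ i ∈ s, (X - C (θ i))).supNorm ≤ 2 ^ s.card * ∏ i ∈ s, max 1 ‖θ i‖ := by
  classical
  induction s using Finset.induction_on with
  | empty => rw [Finset.prod_empty, ← C_1, supNorm_C]; simp
  | insert a s ha ih =>
    rw [Finset.prod_insert ha, Finset.prod_insert ha, Finset.card_insert_of_notMem ha]
    refine (wht_lin _ _).trans ?_
    have h0 := (∏ i ∈ s, (X - C (θ i))).supNorm_nonneg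
    have h1 : 1 + ‖θ a‖ ≤ 2 * max 1 ‖θ a‖ := by
      linarith [le_max_left 1 ‖θ a‖, le_max_right 1 ‖θ a‖]
    refine (mul_le_mul h1 ih h0 (by positivity)).trans (le_of_eq (by ring))

/-- coefficient `card - k` of a monic product with roots of size at most `R` -/
theorem norm_coeff_prod_le [NormOneClass A] {n : ℕ} (θ : Fin n → A) (R : ℝ) (hR : ∀ i, ‖θ i‖ ≤ R)
    (k : ℕ) (hk : k ≤ n) : ‖(∏ i, (X - C (θ i))).coeff (n - k)‖ ≤ 2 ^ n * R ^ k := by
  classical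
  have e : (∏ i, (X - C (θ i))) = ∏ i, (X + C (-θ i)) := by simp [sub_eq_add_neg]
  rw [e, Finset.prod_X_add_C_coeff _ _ (by simp), Finset.card_univ, Fintype.card_fin,
    Nat.sub_sub_self hk]
  rcases Nat.eq_zero_or_pos k with rfl | hk0
  · simpa using one_le_pow₀ (by norm_num)
  have hR0 : 0 ≤ R := (norm_nonneg _).trans (hR ⟨0, by omega⟩)
  refine (norm_sum_le _ _).trans ((Finset.sum_le_card_nsmul _ _ (R ^ k) fun t ht => ?_).trans ?_)
  · refine (Finset.norm_prod_le _ _).trans ((Finset.prod_le_prod (g := fun _ => R)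
      (fun _ _ => norm_nonneg _) fun j _ => by simpa using hR j).trans ?_)
    rw [Finset.prod_const, (Finset.mem_powersetCard.1 ht).2]
  · rw [nsmul_eq_mul, Finset.card_powersetCard, Finset.card_univ, Fintype.card_fin]
    gcongr
    exact_mod_cast Nat.choose_le_two_pow n k

theorem sup_prod_sub_prod [NormOneClass A] {n : ℕ} (θ θ' : Fin n → A) (l : ℝ) (hl0 : 0 ≤ l)
    (hl : l ≤ 1) (h : ∀ i, ‖θ i - θ' i‖ ≤ l * max 1 ‖θ i‖) :
    (∏ i, (X - C (θ i)) - ∏ i, (X - C (θ' i))).supNorm ≤ n * 4 ^ n * l * ∏ i, max 1 ‖θ i‖ := by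
  classical
  have key : ∀ s : Finset (Fin n), (∏ i ∈ s, (X - C (θ i)) - ∏ i ∈ s, (X - C (θ' i))).supNorm ≤
      s.card * 4 ^ s.card * l * ∏ i ∈ s, max 1 ‖θ i‖ := by
    intro s
    induction s using Finset.induction_on with
    | empty => simp
    | insert a s ha ih =>
      rw [Finset.prod_insert ha, Finset.prod_insert ha, Finset.prod_insert ha,
        Finset.card_insert_of_notMem ha]
      have e : (X - C (θ a)) * ∏ i ∈ s, (X - C (θ i)) - (X - C (θ' a)) * ∏ i ∈ s, (X - C (θ' i)) =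
          (X - C (θ' a)) * (∏ i ∈ s, (X - C (θ i)) - ∏ i ∈ s, (X - C (θ' i))) -
            C (θ a - θ' a) * ∏ i ∈ s, (X - C (θ i)) := by
        rw [C_sub]; ring
      have m1 := le_max_left 1 ‖θ a‖
      have m2 := le_max_right 1 ‖θ a‖
      have h1 : 1 + ‖θ' a‖ ≤ 4 * max 1 ‖θ a‖ := by
        have := norm_sub_norm_le (θ' a) (θ a)
        rw [norm_sub_rev] at this
        nlinarith [h a]
      have h2 := (wht_lin (θ' a) _).trans (mul_le_mul h1 ih (supNorm_nonneg _) (by positivity))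
      have hp : 0 ≤ ∏ i ∈ s, max 1 ‖θ i‖ := Finset.prod_nonneg fun _ _ => by positivity
      have h3 := (sup_C_mul_le (θ a - θ' a) _).trans (mul_le_mul (h a) (sup_prod_X_sub_C s θ)
        (supNorm_nonneg _) (by positivity))
      have h4 : (2 : ℝ) ^ s.card ≤ 4 ^ (s.card + 1) :=
        (pow_le_pow_left₀ (by norm_num) (by norm_num) _).trans
          (pow_le_pow_right₀ (by norm_num) (Nat.le_succ _))
      have h5 := mul_le_mul_of_nonneg_right h4 (show 0 ≤ l * max 1 ‖θ a‖ * ∏ i ∈ s, max 1 ‖θ i‖ by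
        positivity)
      rw [e]
      refine (sup_sub_le _ _).trans ?_
      push_cast
      rw [pow_succ] at h5 ⊢
      nlinarith
  simpa using key Finset.univ

end general

theorem sup_up_complex (g : ℤ[X]) : (up ℂ g).supNorm = g.supNorm :=
  wht_map _ (fun a => by simp [Int.norm_eq_abs]) g

theorem sup_up_rat (g : ℤ[X]) : (up ℚ g).supNorm = g.supNorm :=
  wht_map _ Int.norm_cast_rat g

theorem sup_map_rat (g : ℚ[X]) : (g.map (algebraMap ℚ ℂ)).supNorm = g.supNorm :=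
  wht_map _ (fun a => by rw [eq_ratCast, Complex.norm_ratCast, ← Rat.norm_cast_real]; rfl) g

theorem one_le_sup {g : ℤ[X]} (hg : g ≠ 0) : 1 ≤ g.supNorm :=
  le_trans (by
    rw [Int.norm_eq_abs]
    exact_mod_cast Int.one_le_abs (leadingCoeff_ne_zero.2 hg)) (g.le_supNorm g.natDegree)

theorem sup_C_mul_int (a : ℤ) (g : ℤ[X]) : (C a * g).supNorm = |(a : ℝ)| * g.supNorm := by
  refine le_antisymm (sup_C_mul_le a g) ?_
  obtain ⟨i, hi⟩ := g.exists_eq_supNorm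
  have := (C a * g).le_supNorm i
  rwa [coeff_C_mul, norm_mul, ← hi] at this

/-- the height of a nonzero integer polynomial is a natural number -/
theorem sup_eq_nat (g : ℤ[X]) : ∃ k : ℕ, g.supNorm = k := by
  obtain ⟨i, hi⟩ := g.exists_eq_supNorm
  exact ⟨(g.coeff i).natAbs, by rw [hi, Int.norm_eq_abs, Nat.cast_natAbs, Int.cast_abs]⟩

theorem wht_mahler (p : ℂ[X]) {m : ℕ} (hm : p.natDegree ≤ m) :
    p.mahlerMeasure ≤ (m + 1) * p.supNorm := by
  refine p.mahlerMeasure_le_sqrt_natDegree_add_one_mul_supNorm.trans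
    (mul_le_mul_of_nonneg_right ?_ p.supNorm_nonneg)
  have h1 : (p.natDegree : ℝ) ≤ m := by exact_mod_cast hm
  have h2 : (0 : ℝ) ≤ p.natDegree := Nat.cast_nonneg _
  exact Real.sqrt_le_iff.2 ⟨by positivity, by nlinarith⟩

theorem gelfond_complex (g h : ℂ[X]) {m : ℕ} (hm : (g * h).natDegree ≤ m) :
    g.supNorm * h.supNorm ≤ 4 ^ m * (g * h).supNorm := by
  by_cases hg : g = 0
  · simp [hg]
  by_cases hh : h = 0
  · simp [hh]
  have key : ∀ p : ℂ[X], p.supNorm ≤ 2 ^ p.natDegree * p.mahlerMeasure := fun p =>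
    p.supNorm_le_choose_natDegree_div_two_mul_mahlerMeasure.trans
      (mul_le_mul_of_nonneg_right (by exact_mod_cast Nat.choose_le_two_pow _ _)
        p.mahlerMeasure_nonneg)
  have h1 := mul_le_mul (key g) (key h) h.supNorm_nonneg
    (mul_nonneg (by positivity) g.mahlerMeasure_nonneg)
  have h2 := wht_mahler (g * h) hm
  have h3 : (m + 1 : ℝ) ≤ 2 ^ m := by exact_mod_cast Nat.lt_two_pow_self
  have h4 : (2 : ℝ) ^ g.natDegree * 2 ^ h.natDegree ≤ 2 ^ m := by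
    rw [← pow_add, ← natDegree_mul hg hh]; exact pow_le_pow_right₀ (by norm_num) hm
  have h0 := (g * h).supNorm_nonneg
  calc _ ≤ (2 ^ g.natDegree * 2 ^ h.natDegree) * (g * h).mahlerMeasure := by
        rw [mahlerMeasure_mul]; linarith
    _ ≤ 2 ^ m * (2 ^ m * (g * h).supNorm) :=
        mul_le_mul h4 (h2.trans (by gcongr)) (mahlerMeasure_nonneg _) (by positivity)
    _ = _ := by rw [← mul_assoc, ← mul_pow]; norm_num

theorem gelfond_rat (g h : ℚ[X]) {m : ℕ} (hm : (g * h).natDegree ≤ m) :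
    g.supNorm * h.supNorm ≤ 4 ^ m * (g * h).supNorm := by
  have := gelfond_complex (g.map (algebraMap ℚ ℂ)) (h.map (algebraMap ℚ ℂ)) (m := m) (by
    rw [← Polynomial.map_mul]; exact natDegree_map_le.trans hm)
  rwa [← Polynomial.map_mul, sup_map_rat, sup_map_rat, sup_map_rat] at this

theorem gelfond (g h : ℤ[X]) {m : ℕ} (hm : (g * h).natDegree ≤ m) :
    g.supNorm * h.supNorm ≤ 4 ^ m * (g * h).supNorm := by
  have := gelfond_complex (up ℂ g) (up ℂ h) (m := m) (by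
    rw [← Polynomial.map_mul]; exact natDegree_map_le.trans hm)
  rwa [← Polynomial.map_mul, sup_up_complex, sup_up_complex, sup_up_complex] at this

theorem sup_le_of_dvd {g h : ℤ[X]} (hh : h ≠ 0) (hd : g ∣ h) {m : ℕ} (hm : h.natDegree ≤ m) :
    g.supNorm ≤ 4 ^ m * h.supNorm := by
  obtain ⟨v, rfl⟩ := hd
  exact (le_mul_of_one_le_right g.supNorm_nonneg (one_le_sup (right_ne_zero_of_mul hh))).trans
    (gelfond g v hm)

theorem wht_roots {K : Type} [Field K] [IsAlgClosed K] {n : ℕ} (f : K[X])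
    (hn : f.natDegree = n) : ∃ θ : Fin n → K, f = C f.leadingCoeff * ∏ i, (X - C (θ i)) := by
  have hs := IsAlgClosed.splits f
  have hc : f.roots.toList.length = n := by
    rw [Multiset.length_toList, ← hn, hs.natDegree_eq_card_roots]
  subst hc
  refine ⟨f.roots.toList.get, ?_⟩
  conv_lhs => rw [hs.eq_prod_roots, ← Multiset.coe_toList f.roots]
  rw [Multiset.map_coe, Multiset.prod_coe, ← Fin.prod_univ_fun_getElem]
  rfl

theorem exists_roots {K : Type} [Field K] [IsAlgClosed K] {n : ℕ} (f : K[X]) (hf : f.Monic)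
    (hn : f.natDegree = n) : ∃ θ : Fin n → K, Roots f θ := by
  obtain ⟨θ, h⟩ := wht_roots f hn
  exact ⟨θ, by rwa [hf.leadingCoeff, C_1, one_mul] at h⟩

/-- roots of a polynomial that need not be monic -/
theorem exists_roots' {K : Type} [Field K] [IsAlgClosed K] {n : ℕ} (f : K[X])
    (hn : f.natDegree = n) : ∃ θ : Fin n → K, f = C f.leadingCoeff * ∏ i, (X - C (θ i)) :=
  wht_roots f hn

theorem Roots.eval_eq_zero_iff {K : Type} [CommRing K] [IsDomain K] {n : ℕ} {f : K[X]}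
    {θ : Fin n → K} (h : Roots f θ) (z : K) : f.eval z = 0 ↔ ∃ i, z = θ i := by
  rw [show f = _ from h, eval_prod, Finset.prod_eq_zero_iff]
  simp [sub_eq_zero]

theorem Roots.injective {K : Type} [Field K] [CharZero K] {n : ℕ} {f : ℤ[X]} {θ : Fin n → K}
    (h : Roots (up K f) θ) (hf : Irr f) : Function.Injective θ := by
  have h1 := (Irreducible.separable hf).map (f := algebraMap ℚ K)
  rw [Polynomial.map_map, RingHom.ext_int ((algebraMap ℚ K).comp _) (Int.castRingHom K)] at h1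
  exact separable_prod_X_sub_C_iff.1 (by rw [← show up K f = _ from h]; exact h1)

theorem prod_max_le {n : ℕ} (c : ℂ) (θ : Fin n → ℂ) :
    ‖c‖ * ∏ i, max 1 ‖θ i‖ ≤ (n + 1) * (C c * ∏ i, (X - C (θ i))).supNorm := by
  have h1 : (C c * ∏ i, (X - C (θ i))).mahlerMeasure = ‖c‖ * ∏ i, max 1 ‖θ i‖ := by
    rw [mahlerMeasure_mul, mahlerMeasure_const, Finset.prod_eq_multiset_prod,
      prod_mahlerMeasure_eq_mahlerMeasure_prod, Multiset.map_map, Finset.prod_eq_multiset_prod]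
    simp
  rw [← h1]
  refine wht_mahler _ ((natDegree_C_mul_le _ _).trans ?_)
  rw [natDegree_prod_of_monic _ _ fun i _ => monic_X_sub_C _]
  simp

theorem Roots.prod_max_le {n : ℕ} {f : ℤ[X]} {θ : Fin n → ℂ} (h : Roots (up ℂ f) θ) :
    ∏ i, max 1 ‖θ i‖ ≤ (n + 1) * f.supNorm := by
  have := Pool.Agent.VW.prod_max_le 1 θ
  rwa [norm_one, one_mul, C_1, one_mul, ← show up ℂ f = _ from h, sup_up_complex] at this

theorem resultant_roots {K : Type} [Field K] {n : ℕ} (c : K) (hc : c ≠ 0) (θ : Fin n → K) (g : K[X])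
    (m : ℕ) (hm : g.natDegree ≤ m) :
    resultant (C c * ∏ i, (X - C (θ i))) g n m = c ^ m * ∏ i, g.eval (θ i) := by
  have hmon : (∏ i, (X - C (θ i))).Monic := monic_prod_of_monic _ _ fun i _ => monic_X_sub_C _
  have hd : (∏ i, (X - C (θ i))).natDegree = n := by
    rw [natDegree_prod_of_monic _ _ fun i _ => monic_X_sub_C _]; simp
  have := resultant_prod_left Finset.univ (fun i => X - C (θ i)) g m (by simp) hm
  rw [hd] at this
  rw [resultant_C_mul_left, this]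
  congr 1
  exact Finset.prod_congr rfl fun i _ => by rw [natDegree_X_sub_C, resultant_X_sub_C_left _ _ _ hm]

/-- complex conjugation permutes the roots of a real separable polynomial -/
theorem exists_conj {n : ℕ} (θ : Fin n → ℂ) (hθ : Function.Injective θ)
    (h : (∏ i, (X - C (θ i))).map (starRingEnd ℂ) = ∏ i, (X - C (θ i))) :
    ∃ s : Equiv.Perm (Fin n), (∀ i, s (s i) = i) ∧ ∀ i, θ (s i) = starRingEnd ℂ (θ i) := by
  have h1 : ∀ i, ∃ j, θ j = starRingEnd ℂ (θ i) := by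
    intro i
    have : (∏ j, (X - C (θ j))).eval (starRingEnd ℂ (θ i)) = 0 := by
      rw [← h, eval_map, eval₂_hom, (Roots.eval_eq_zero_iff rfl _).2 ⟨i, rfl⟩, map_zero]
    obtain ⟨j, hj⟩ := (Roots.eval_eq_zero_iff rfl _).1 this
    exact ⟨j, hj.symm⟩
  choose s hs using h1
  have h2 : ∀ i, s (s i) = i := fun i => hθ (by rw [hs, hs, Complex.conj_conj])
  exact ⟨Function.Involutive.toPerm s h2, h2, hs⟩

/-- an irreducible polynomial divides every rational polynomial vanishing at one of its roots -/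
theorem Irr.dvd_of_root {f : ℤ[X]} (hf : Irr f) {K : Type} [Field K] [Algebra ℚ K] {z : K}
    (hz : aeval z (up ℚ f) = 0) {q : ℚ[X]} (hq : aeval z q = 0) : up ℚ f ∣ q := by
  by_contra hd
  obtain ⟨a, b, hab⟩ := (Irreducible.coprime_iff_not_dvd hf).2 hd
  have := congrArg (aeval z) hab
  simp [hz, hq] at this

theorem Irr.resultant_ne_zero {f : ℤ[X]} (hf : Irr f) {g : ℤ[X]} (hg : g ≠ 0)
    (hlt : g.natDegree < f.natDegree) : resultant g f ≠ 0 := by
  have hi := (Int.castRingHom ℚ).injective_int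
  have hc : IsCoprime (up ℚ f) (up ℚ g) := (Irreducible.coprime_iff_not_dvd hf).2 fun hd => by
    have := natDegree_le_of_dvd hd ((Polynomial.map_ne_zero_iff hi).2 hg)
    rw [natDegree_map_eq_of_injective hi, natDegree_map_eq_of_injective hi] at this
    omega
  have := Polynomial.resultant_ne_zero _ _ hc.symm
  rw [natDegree_map_eq_of_injective hi, natDegree_map_eq_of_injective hi, resultant_map_map] at this
  exact fun h => this (by rw [h, map_zero])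

end Pool.Agent.VW
end

-- part Pool.Agent.P.MP_b0ea37_nt.WSym
section

namespace Pool.Agent.VW

open Polynomial

/-- the product of the differences over ordered pairs inside `s` -/
def Es {R ι : Type} [CommRing R] [DecidableEq ι] (s : Finset ι) (θ : ι → R) : R :=
  ∏ j ∈ s, ∏ l ∈ s.erase j, (θ j - θ l)

section Es

variable {R ι : Type} [CommRing R] [DecidableEq ι]

theorem Es_insert {s : Finset ι} {a : ι} (ha : a ∉ s) (θ : ι → R) :
    Es (insert a s) θ = (∏ l ∈ s, (θ a - θ l)) * ((∏ j ∈ s, (θ j - θ a)) * Es s θ) := by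
  have h : ∀ j ∈ s, ∏ l ∈ (insert a s).erase j, (θ j - θ l) =
      (θ j - θ a) * ∏ l ∈ s.erase j, (θ j - θ l) := fun j hj => by
    have hja : a ≠ j := fun h => ha (h ▸ hj)
    rw [Finset.erase_insert_of_ne hja, Finset.prod_insert (fun h => ha (Finset.mem_of_mem_erase h))]
  unfold Es
  rw [Finset.prod_insert ha, Finset.erase_insert ha, Finset.prod_congr rfl h,
    Finset.prod_mul_distrib]

theorem Es_map {κ : Type} [DecidableEq κ] (e : κ ↪ ι) (s : Finset κ) (θ : ι → R) :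
    Es (s.map e) θ = Es s fun i => θ (e i) := by
  unfold Es
  rw [Finset.prod_map]
  exact Finset.prod_congr rfl fun j _ => by rw [← Finset.map_erase, Finset.prod_map]

theorem Es_eq_zero_iff [IsDomain R] (s : Finset ι) (θ : ι → R) :
    Es s θ = 0 ↔ ¬ Set.InjOn θ s := by
  unfold Es
  simp only [Finset.prod_eq_zero_iff, Finset.mem_erase, sub_eq_zero, Set.InjOn, Finset.mem_coe]
  constructor
  · rintro ⟨j, hj, l, ⟨hl, hl'⟩, h⟩ hi
    exact hl (hi hj hl' h).symm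
  · intro h
    by_contra hc
    refine h fun j hj l hl e => ?_
    by_contra hne
    exact hc ⟨j, hj, l, ⟨fun e' => hne e'.symm, hl⟩, e⟩

theorem norm_Es_le (s : Finset ι) (θ : ι → ℂ) :
    ‖Es s θ‖ * (∏ i ∈ s, max 1 ‖θ i‖) ^ 2 ≤
      4 ^ (s.card ^ 2) * (∏ i ∈ s, max 1 ‖θ i‖) ^ (2 * s.card) := by
  induction s using Finset.induction_on with
  | empty => simp [Es]
  | insert a s ha ih =>
    have key : ∀ i j, ‖θ i - θ j‖ ≤ 2 * max 1 ‖θ i‖ * max 1 ‖θ j‖ := fun i j => by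
      have := norm_sub_le (θ i) (θ j)
      have h1 := le_max_left 1 ‖θ i‖
      have h2 := le_max_right 1 ‖θ i‖
      have h3 := le_max_left 1 ‖θ j‖
      have h4 := le_max_right 1 ‖θ j‖
      nlinarith
    set P := ∏ i ∈ s, max 1 ‖θ i‖ with hP
    set m := max 1 ‖θ a‖ with hm
    have hP0 : 0 ≤ P := Finset.prod_nonneg fun i _ => by positivity
    have hm0 : 0 ≤ m := by positivity
    have h1 : ‖∏ l ∈ s, (θ a - θ l)‖ ≤ (2 * m) ^ s.card * P := by
      rw [norm_prod, hP, ← Finset.prod_const, ← Finset.prod_mul_distrib]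
      exact Finset.prod_le_prod (fun _ _ => norm_nonneg _) fun l _ => key a l
    have h2 : ‖∏ l ∈ s, (θ l - θ a)‖ ≤ (2 * m) ^ s.card * P := by
      refine le_trans (le_of_eq ?_) h1
      rw [norm_prod, norm_prod]
      exact Finset.prod_congr rfl fun l _ => norm_sub_rev _ _
    rw [Es_insert ha, Finset.prod_insert ha, Finset.card_insert_of_notMem ha, norm_mul, norm_mul,
      ← hP, ← hm]
    calc _ ≤ ((2 * m) ^ s.card * P) * (((2 * m) ^ s.card * P) * ‖Es s θ‖) * (m * P) ^ 2 := by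
          gcongr
      _ = 4 ^ s.card * m ^ (2 * (s.card + 1)) * P ^ 2 * (‖Es s θ‖ * P ^ 2) := by
          have e4 : (4 : ℝ) ^ s.card = 2 ^ s.card * 2 ^ s.card := by rw [← mul_pow]; norm_num
          rw [e4]; ring
      _ ≤ 4 ^ s.card * m ^ (2 * (s.card + 1)) * P ^ 2 *
          (4 ^ (s.card ^ 2) * P ^ (2 * s.card)) := by gcongr
      _ = 4 ^ (s.card ^ 2 + s.card) * (m * P) ^ (2 * (s.card + 1)) := by ring
      _ ≤ _ := by
          gcongr
          · norm_num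
          · nlinarith

theorem norm_Es_le' (s : Finset ι) (θ : ι → ℂ) :
    ‖Es s θ‖ ≤ 4 ^ (s.card ^ 2) * (∏ i ∈ s, max 1 ‖θ i‖) ^ (2 * s.card - 2) := by
  rcases s.eq_empty_or_nonempty with rfl | hs
  · simp [Es]
  have h := norm_Es_le s θ
  have hP : 0 < ∏ i ∈ s, max 1 ‖θ i‖ := Finset.prod_pos fun i _ => by positivity
  have hc := hs.card_pos
  rw [show 2 * s.card = (2 * s.card - 2) + 2 by omega, pow_add, ← mul_assoc] at h
  exact le_of_mul_le_mul_right h (by positivity)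

end Es

theorem exists_univ {n : ℕ} (Q : MvPolynomial (Fin n) ℤ) (hQ : Q.IsSymmetric) :
    ∃ P : MvPolynomial (Fin n) ℤ, MvPolynomial.eval₂ (Int.castRingHom (MvPolynomial (Fin n) ℤ))
      (fun i : Fin n => (∏ j : Fin n, (X - C (MvPolynomial.X j)) :
        (MvPolynomial (Fin n) ℤ)[X]).coeff i) P = Q := by
  obtain ⟨p, hp⟩ := MvPolynomial.esymmAlgHom_surjective (σ := Fin n) (n := n) ℤ (by simp) ⟨Q, hQ⟩
  have hp' : MvPolynomial.aeval (fun i : Fin n => MvPolynomial.esymm (Fin n) ℤ (i + 1)) p = Q := by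
    rw [← MvPolynomial.esymmAlgHom_apply, hp]
  refine ⟨MvPolynomial.aeval
    (fun i : Fin n => (-1) ^ ((i : ℕ) + 1) * MvPolynomial.X (Fin.rev i)) p, ?_⟩
  rw [← hp', ← algebraMap_int_eq, ← MvPolynomial.aeval_def, ← AlgHom.comp_apply,
    MvPolynomial.comp_aeval]
  congr 2
  funext i
  have hi := i.2
  have h1 := Multiset.prod_X_sub_C_coeff
    (Finset.univ.val.map (MvPolynomial.X : Fin n → MvPolynomial (Fin n) ℤ)) (k := n - (i + 1))
    (by simp)
  rw [Multiset.map_map] at h1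
  have h2 : (∏ j : Fin n, (X - C (MvPolynomial.X j)) :
      (MvPolynomial (Fin n) ℤ)[X]).coeff (n - (i + 1)) = _ := h1
  have h3 : n - (n - (i + 1)) = i + 1 := by omega
  simp only [map_mul, map_pow, map_neg, map_one, MvPolynomial.aeval_X, Fin.val_rev, h2,
    Multiset.card_map, Finset.card_val, Finset.card_univ, Fintype.card_fin, h3]
  rw [← mul_assoc, ← pow_add, ← two_mul, pow_mul, MvPolynomial.esymm_eq_multiset_esymm]
  simp

theorem phiS_symm (n k : ℕ) : (phiS n k).IsSymmetric := by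
  intro e
  simp only [phiS, map_sum, map_mul, map_pow, map_prod, map_sub, MvPolynomial.rename_X]
  refine Fintype.sum_equiv e _ _ fun i => ?_
  congr 1
  refine Finset.prod_equiv e (by simp) fun j _ => ?_
  exact Finset.prod_equiv e (by simp) fun l _ => rfl

theorem Phi_map {R S : Type} [CommRing R] [CommRing S] (φ : R →+* S) (n k : ℕ) (f : R[X]) :
    Phi n k (f.map φ) = φ (Phi n k f) := by
  unfold Phi
  rw [MvPolynomial.eval₂_comp_left, RingHom.ext_int (φ.comp _) (Int.castRingHom S)]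
  simp only [coeff_map]
  rfl

theorem Dv_map {R S : Type} [CommRing R] [CommRing S] (φ : R →+* S) (n : ℕ) (f : R[X]) :
    Dv n (f.map φ) = φ (Dv n f) := by
  unfold Dv
  rw [derivative_map, resultant_map_map]

theorem Phi_roots {R : Type} [CommRing R] {n : ℕ} (k : ℕ) (θ : Fin n → R) :
    Phi n k (∏ i, (X - C (θ i))) = ∑ i, θ i ^ k * ∏ j ∈ Finset.univ.erase i,
      ∏ l ∈ (Finset.univ.erase i).erase j, (θ j - θ l) := by
  have h : Phi n k (∏ j : Fin n, (X - C (MvPolynomial.X j)) : (MvPolynomial (Fin n) ℤ)[X]) =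
      phiS n k := Classical.epsilon_spec (exists_univ _ (phiS_symm n k))
  have h2 := Phi_map (MvPolynomial.eval₂Hom (Int.castRingHom R) θ) n k
    (∏ j : Fin n, (X - C (MvPolynomial.X j)))
  rw [h, Polynomial.map_prod] at h2
  simpa [phiS, map_sum, map_prod] using h2

theorem Dv_roots' {R : Type} [CommRing R] {n : ℕ} (θ : Fin n → R) :
    Dv n (∏ i, (X - C (θ i))) = ∏ i, (derivative (∏ i, (X - C (θ i)))).eval (θ i) := by
  nontriviality R
  have hd : (∏ j, (X - C (θ j))).natDegree = n := by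
    rw [natDegree_prod_of_monic _ _ fun j _ => monic_X_sub_C _]; simp
  have hd' : (derivative (∏ j, (X - C (θ j)))).natDegree ≤ n - 1 := by
    have := natDegree_derivative_le (∏ j, (X - C (θ j))); omega
  have := resultant_prod_left Finset.univ (fun j => X - C (θ j)) _ (n - 1) (by simp) hd'
  unfold Dv
  rw [hd] at this
  rw [this]
  exact Finset.prod_congr rfl fun i _ => by simp [hd']

theorem Dv_roots {R : Type} [CommRing R] {n : ℕ} (θ : Fin n → R) :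
    Dv n (∏ i, (X - C (θ i))) = ∏ i, ∏ j ∈ Finset.univ.erase i, (θ i - θ j) := by
  rw [Dv_roots']
  refine Finset.prod_congr rfl fun i _ => ?_
  rw [← Finset.mul_prod_erase Finset.univ _ (Finset.mem_univ i), derivative_mul]
  simp [eval_prod]

theorem Dv_eq_zero_iff {K : Type} [Field K] {n : ℕ} (θ : Fin n → K) :
    Dv n (∏ i, (X - C (θ i))) = 0 ↔ ¬ Function.Injective θ := by
  rw [Dv_roots, ← Set.injOn_univ, ← Finset.coe_univ]
  exact Es_eq_zero_iff Finset.univ θ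

/-- at most `n - 2` distinct roots -/
theorem Phi_eq_zero {K : Type} [Field K] [DecidableEq K] {n : ℕ} (k : ℕ) (θ : Fin n → K)
    (h : (Finset.univ.image θ).card + 2 ≤ n) : Phi n k (∏ i, (X - C (θ i))) = 0 := by
  rw [Phi_roots]
  refine Finset.sum_eq_zero fun i _ => mul_eq_zero_of_right _ ?_
  refine (Es_eq_zero_iff (Finset.univ.erase i) θ).2 fun hi => ?_
  have h1 := Finset.card_image_of_injOn hi
  have h2 := Finset.card_le_card (Finset.image_subset_image (f := θ)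
    (Finset.erase_subset i Finset.univ))
  rw [Finset.card_erase_of_mem (Finset.mem_univ i), Finset.card_univ, Fintype.card_fin] at h1
  omega

theorem Phi_pair {K : Type} [Field K] {n : ℕ} (k : ℕ) (θ : Fin n → K) {a b : Fin n} (hab : a ≠ b)
    (h : θ a = θ b) :
    Phi n k (∏ i, (X - C (θ i))) = 2 * θ a ^ k * Es (Finset.univ.erase a) θ := by
  rw [Phi_roots, Finset.sum_eq_add a b hab]
  · have e1 : Finset.univ.erase b = (Finset.univ.erase a).map (Equiv.swap a b).toEmbedding := by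
      rw [Finset.map_erase]; simp
    have e2 : Es (Finset.univ.erase b) θ = Es (Finset.univ.erase a) θ := by
      rw [e1, Es_map]
      congr 1
      funext i
      exact Equiv.apply_swap_eq_self h i
    change θ a ^ k * Es _ θ + θ b ^ k * Es _ θ = _
    rw [e2, ← h]; ring
  · rintro c - ⟨hca, hcb⟩
    refine mul_eq_zero_of_right _ ((Es_eq_zero_iff (Finset.univ.erase c) θ).2 fun hi => ?_)
    exact hab (hi (by simpa using hca.symm) (by simpa using hcb.symm) h)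
  · simp
  · simp

/-- exactly `n - 1` distinct roots -/
theorem Phi_ne_zero {K : Type} [Field K] [DecidableEq K] (h2 : (2 : K) ≠ 0) {n : ℕ} (θ : Fin n → K)
    (h : (Finset.univ.image θ).card + 1 = n) : Phi n 0 (∏ i, (X - C (θ i))) ≠ 0 := by
  have hni : ¬ Function.Injective θ := fun hi => by
    rw [Finset.card_image_of_injective _ hi, Finset.card_univ, Fintype.card_fin] at h
    omega
  obtain ⟨a, b, hab, hne⟩ := Function.not_injective_iff.1 hni
  rw [Phi_pair 0 θ hne hab, pow_zero, mul_one]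
  refine mul_ne_zero h2 fun h0 => (Es_eq_zero_iff _ θ).1 h0 (Finset.card_image_iff.1 ?_)
  have e : (Finset.univ.erase a).image θ = Finset.univ.image θ := by
    refine (Finset.image_subset_image (Finset.erase_subset _ _)).antisymm fun z hz => ?_
    obtain ⟨i, -, rfl⟩ := Finset.mem_image.1 hz
    by_cases hi : i = a
    · exact Finset.mem_image.2 ⟨b, by simpa using hne.symm, by rw [hi, hab]⟩
    · exact Finset.mem_image.2 ⟨i, by simpa using hi, rfl⟩
  rw [e, Finset.card_erase_of_mem (Finset.mem_univ a), Finset.card_univ, Fintype.card_fin]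
  omega

/-- value at a polynomial with a double root -/
theorem Phi_double {K : Type} [Field K] {m : ℕ} (k : ℕ) (r : K) (G : K[X]) (hG : G.Monic)
    (hm : G.natDegree = m) :
    Phi (m + 2) k ((X - C r) ^ 2 * G) = 2 * (-1) ^ m * r ^ k * (G.eval r) ^ 2 * Dv m G := by
  let φ := algebraMap K (AlgebraicClosure K)
  apply φ.injective
  obtain ⟨γ, hγ⟩ := exists_roots (n := m) (G.map φ) (hG.map φ) (by rw [hG.natDegree_map, hm])
  have hγ' : G.map φ = ∏ i, (X - C (γ i)) := hγ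
  let θ : Fin (m + 2) → AlgebraicClosure K := Fin.cons (φ r) (Fin.cons (φ r) γ)
  have e1 : ((X - C r) ^ 2 * G).map φ = ∏ i, (X - C (θ i)) := by
    rw [Fin.prod_univ_succ, Fin.prod_univ_succ, Polynomial.map_mul, hγ']
    simp [θ, sq, mul_assoc]
  have e2 : (Finset.univ : Finset (Fin (m + 2))).erase 0 = Finset.univ.map (Fin.succEmb _) := by
    ext i
    rcases Fin.eq_zero_or_eq_succ i with rfl | ⟨j, rfl⟩ <;> simp
  have e3 : (Finset.univ : Finset (Fin (m + 1))) = insert 0 (Finset.univ.map (Fin.succEmb _)) := by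
    ext i
    rcases Fin.eq_zero_or_eq_succ i with rfl | ⟨j, rfl⟩ <;> simp
  have e4 : φ (G.eval r) = ∏ i, (φ r - γ i) := by
    rw [← eval₂_at_apply, ← eval_map, hγ']; simp [eval_prod]
  have e5 : ∏ i, (γ i - φ r) = (-1) ^ m * ∏ i, (φ r - γ i) := by
    rw [show ((-1 : AlgebraicClosure K)) ^ m = ∏ _i : Fin m, (-1) by simp,
      ← Finset.prod_mul_distrib]
    exact Finset.prod_congr rfl fun i _ => by ring
  rw [← Phi_map, e1, Phi_pair k θ (a := 0) (b := 1) (by simp) rfl, e2, Es_map, e3,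
    Es_insert (by simp), Es_map, Finset.prod_map, Finset.prod_map]
  simp only [map_mul, map_pow, map_neg, map_one, map_ofNat, ← Dv_map, hγ', Dv_roots, e4]
  change 2 * φ r ^ k * ((∏ i, (φ r - γ i)) * ((∏ i, (γ i - φ r)) * Es Finset.univ γ)) =
    _ * Es Finset.univ γ
  rw [e5]; ring

theorem Dv_eq_zero_iff_double {K : Type} [Field K] [IsAlgClosed K] {n : ℕ} (f : K[X]) (hf : f.Monic)
    (hn : f.natDegree = n) :
    Dv n f = 0 ↔ ∃ r : K, f.eval r = 0 ∧ (derivative f).eval r = 0 := by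
  obtain ⟨θ, hθ⟩ := exists_roots f hf hn
  have h : Dv n f = ∏ i, (derivative f).eval (θ i) := by
    have := Dv_roots' θ
    rwa [← show f = _ from hθ] at this
  rw [h, Finset.prod_eq_zero_iff]
  constructor
  · rintro ⟨i, -, hi⟩
    exact ⟨θ i, (hθ.eval_eq_zero_iff _).2 ⟨i, rfl⟩, hi⟩
  · rintro ⟨r, h1, h2⟩
    obtain ⟨i, rfl⟩ := (hθ.eval_eq_zero_iff _).1 h1
    exact ⟨i, Finset.mem_univ _, h2⟩

theorem exists_roots_up {n : ℕ} {f : ℤ[X]} (hm : f.Monic) (hn : f.natDegree = n) :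
    ∃ θ : Fin n → ℂ, Roots (up ℂ f) θ :=
  exists_roots _ (hm.map _) (by rw [hm.natDegree_map, hn])

theorem Irr.Dv_ne_zero {n : ℕ} {f : ℤ[X]} (hm : f.Monic) (hn : f.natDegree = n) (hf : Irr f) :
    Dv n f ≠ 0 := by
  obtain ⟨θ, hθ⟩ := exists_roots_up hm hn
  intro h
  have h1 : Dv n (up ℂ f) = 0 := by rw [Dv_map, h, map_zero]
  rw [show up ℂ f = _ from hθ, Dv_eq_zero_iff] at h1
  exact h1 (hθ.injective hf)

theorem abs_Dv_le (n : ℕ) : ∃ C : ℝ, 1 ≤ C ∧ ∀ f : ℤ[X], f.Monic → f.natDegree = n →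
    |((Dv n f : ℤ) : ℝ)| ≤ C * f.supNorm ^ (2 * n - 2) := by
  refine ⟨4 ^ (n ^ 2) * ((n : ℝ) + 1) ^ (2 * n - 2), one_le_mul_of_one_le_of_one_le
    (one_le_pow₀ (by norm_num)) (one_le_pow₀ (by linarith [Nat.cast_nonneg (α := ℝ) n])),
    fun f hm hn => ?_⟩
  obtain ⟨θ, hθ⟩ := exists_roots_up hm hn
  have h1 : ((Dv n f : ℤ) : ℂ) = Es Finset.univ θ := by
    rw [← eq_intCast (Int.castRingHom ℂ), ← Dv_map, show f.map _ = _ from hθ, Dv_roots]; rfl
  have h2 := norm_Es_le' Finset.univ θ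
  rw [← h1, Complex.norm_intCast, Finset.card_univ, Fintype.card_fin] at h2
  rw [mul_assoc, ← mul_pow]
  refine h2.trans ?_
  have := hθ.prod_max_le
  gcongr

theorem abs_Phi_le (n : ℕ) : ∃ C : ℝ, 1 ≤ C ∧ ∀ k : ℕ, k ≤ 2 * n - 4 → ∀ f : ℤ[X], f.Monic →
    f.natDegree = n → |((Phi n k f : ℤ) : ℝ)| ≤ C * f.supNorm ^ (2 * n - 4) := by
  have hn1 : (1 : ℝ) ≤ n + 1 := by linarith [Nat.cast_nonneg (α := ℝ) n]
  refine ⟨((n : ℝ) + 1) * (4 ^ ((n - 1) ^ 2) * ((n : ℝ) + 1) ^ (2 * n - 4)),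
    one_le_mul_of_one_le_of_one_le hn1 (one_le_mul_of_one_le_of_one_le
    (one_le_pow₀ (by norm_num)) (one_le_pow₀ hn1)), fun k hk f hm hn => ?_⟩
  obtain ⟨θ, hθ⟩ := exists_roots_up hm hn
  have h1 : ((Phi n k f : ℤ) : ℂ) = ∑ i, θ i ^ k * Es (Finset.univ.erase i) θ := by
    rw [← eq_intCast (Int.castRingHom ℂ), ← Phi_map, show f.map _ = _ from hθ, Phi_roots]; rfl
  have h2 : ∀ i, ‖θ i ^ k * Es (Finset.univ.erase i) θ‖ ≤
      4 ^ ((n - 1) ^ 2) * (((n : ℝ) + 1) * f.supNorm) ^ (2 * n - 4) := fun i => by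
    have h3 := norm_Es_le' (Finset.univ.erase i) θ
    rw [Finset.card_erase_of_mem (Finset.mem_univ i), Finset.card_univ, Fintype.card_fin,
      show 2 * (n - 1) - 2 = 2 * n - 4 by omega] at h3
    have h4 : ‖θ i‖ ^ k ≤ (max 1 ‖θ i‖) ^ (2 * n - 4) :=
      (pow_le_pow_left₀ (norm_nonneg _) (le_max_right _ _) k).trans
        (pow_le_pow_right₀ (le_max_left _ _) hk)
    have h5 := hθ.prod_max_le
    rw [← Finset.mul_prod_erase _ _ (Finset.mem_univ i)] at h5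
    rw [norm_mul, norm_pow]
    calc _ ≤ (max 1 ‖θ i‖) ^ (2 * n - 4) * (4 ^ ((n - 1) ^ 2) *
          (∏ j ∈ Finset.univ.erase i, max 1 ‖θ j‖) ^ (2 * n - 4)) := by gcongr
      _ = 4 ^ ((n - 1) ^ 2) *
          (max 1 ‖θ i‖ * ∏ j ∈ Finset.univ.erase i, max 1 ‖θ j‖) ^ (2 * n - 4) := by ring
      _ ≤ _ := by gcongr
  rw [← Complex.norm_intCast, h1]
  refine (norm_sum_le _ _).trans ((Finset.sum_le_sum fun i _ => h2 i).trans ?_)
  have := f.supNorm_nonneg
  rw [Finset.sum_const, Finset.card_univ, Fintype.card_fin, nsmul_eq_mul, mul_pow, mul_assoc,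
    mul_assoc]
  gcongr
  linarith

theorem Wk.add {M : ℕ} {r : ℤ} {g h : ℤ[X]} (hg : Wk M r g) (hh : Wk M r h) : Wk M r (g + h) :=
  ⟨by rw [eval_add]; exact hg.1.add hh.1, by rw [derivative_add, eval_add]; exact hg.2.add hh.2⟩

theorem Wk.sub {M : ℕ} {r : ℤ} {g h : ℤ[X]} (hg : Wk M r g) (hh : Wk M r h) : Wk M r (g - h) :=
  ⟨by rw [eval_sub]; exact hg.1.sub hh.1, by rw [derivative_sub, eval_sub]; exact hg.2.sub hh.2⟩

theorem Wk.mul_left {M : ℕ} {r : ℤ} {g : ℤ[X]} (hg : Wk M r g) (h : ℤ[X]) : Wk M r (h * g) :=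
  ⟨by rw [eval_mul]; exact hg.1.mul_left _, by
    rw [derivative_mul, eval_add, eval_mul, eval_mul]
    exact (((dvd_pow_self _ two_ne_zero).trans hg.1).mul_left _).add (hg.2.mul_left _)⟩

theorem Wk.of_dvd {M M' : ℕ} {r : ℤ} {g : ℤ[X]} (hg : Wk M r g) (h : M' ∣ M) : Wk M' r g :=
  ⟨(pow_dvd_pow_of_dvd (Int.natCast_dvd_natCast.2 h) 2).trans hg.1,
    (Int.natCast_dvd_natCast.2 h).trans hg.2⟩

theorem Wk.congr {M : ℕ} {r r' : ℤ} {g : ℤ[X]} (hg : Wk M r g) (h : (M : ℤ) ∣ r - r') :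
    Wk M r' g := by
  have h' : (M : ℤ) ∣ r' - r := dvd_sub_comm.1 h
  constructor
  · obtain ⟨c, hc⟩ := binomExpansion g r (r' - r)
    rw [add_sub_cancel] at hc
    rw [hc]
    exact (hg.1.add (by rw [sq]; exact mul_dvd_mul hg.2 h')).add
      ((pow_dvd_pow_of_dvd h' 2).mul_left _)
  · have := (h'.trans (sub_dvd_eval_sub r' r (derivative g))).add hg.2
    rwa [sub_add_cancel] at this

theorem Wk.reduce {M : ℕ} (hM : 1 ≤ M) {r : ℤ} {g : ℤ[X]} (hg : Wk M r g) :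
    ∃ r' : ℤ, 0 ≤ r' ∧ r' < M ∧ (M : ℤ) ∣ r - r' ∧ Wk M r' g :=
  ⟨r % M, Int.emod_nonneg _ (by omega), Int.emod_lt_of_pos _ (by omega), Int.dvd_self_sub_emod,
    hg.congr Int.dvd_self_sub_emod⟩

theorem Wk.crt (T : Finset ℕ) (hT : ∀ p ∈ T, p.Prime) {g : ℤ[X]} (hg : ∀ p ∈ T, Weak p g) :
    ∃ r : ℤ, Wk (∏ p ∈ T, p) r g := by
  induction T using Finset.induction_on with
  | empty => exact ⟨0, by simp [Wk]⟩
  | insert a s ha ih =>
    obtain ⟨r, hr⟩ := ih (fun p hp => hT p (Finset.mem_insert_of_mem hp))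
      fun p hp => hg p (Finset.mem_insert_of_mem hp)
    obtain ⟨r', hr'⟩ := hg a (Finset.mem_insert_self _ _)
    have hc : Nat.Coprime a (∏ p ∈ s, p) := Nat.Coprime.prod_right fun p hp =>
      (Nat.coprime_primes (hT a (Finset.mem_insert_self _ _))
        (hT p (Finset.mem_insert_of_mem hp))).2 fun e => ha (e ▸ hp)
    have hc' : IsCoprime (a : ℤ) ((∏ p ∈ s, p : ℕ) : ℤ) := Nat.isCoprime_iff_coprime.2 hc
    obtain ⟨u, v, huv⟩ := id hc'
    have h1 := hr'.congr (r' := r' + u * a * (r - r')) ⟨-(u * (r - r')), by ring⟩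
    have h2 := hr.congr (r' := r' + u * a * (r - r'))
      ⟨v * (r - r'), by linear_combination (r' - r) * huv⟩
    refine ⟨r' + u * a * (r - r'), ?_⟩
    rw [Finset.prod_insert ha, Wk, Nat.cast_mul, mul_pow]
    exact ⟨hc'.pow.mul_dvd h1.1 h2.1, hc'.mul_dvd h1.2 h2.2⟩

theorem Weak.dvd_Dv {n p : ℕ} (hp : p.Prime) {f : ℤ[X]} (hm : f.Monic) (hn : f.natDegree = n)
    (h : Weak p f) : (p : ℤ) ∣ Dv n f := by
  obtain ⟨r, h1, h2⟩ := h
  have h1' : (p : ℤ) ∣ f.eval r := (dvd_pow_self _ two_ne_zero).trans h1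
  rcases Nat.eq_zero_or_pos n with rfl | h0
  · rw [eq_one_of_monic_natDegree_zero hm hn, eval_one] at h1'
    exact absurd (Int.natCast_dvd_natCast.1 h1') hp.not_dvd_one
  obtain ⟨a, b, -, -, e⟩ := exists_mul_add_mul_eq_C_resultant f (derivative f) hn.le
    (show _ ≤ n - 1 from hn ▸ natDegree_derivative_le f) (Or.inl h0.ne')
  have := congrArg (eval r) e
  rw [eval_C, eval_add, eval_mul, eval_mul] at this
  rw [Dv, ← this]
  exact (h1'.mul_right _).add (h2.mul_right _)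

end Pool.Agent.VW
end

-- part Pool.Agent.P.MP_b0ea37_nt.WGVal
section

namespace Pool.Agent.VW

open Polynomial Finset

/-- valuation of an integer at a prime ideal that contains `p` exactly once -/
theorem gal_val {O : Type} [CommRing O] [IsDedekindDomain O] (Q : Ideal O) [hQ : Q.IsPrime]
    (hne : Q ≠ ⊥) {p : ℕ} (hp : p.Prime) (hmem : ∀ m : ℤ, (m : O) ∈ Q ↔ (p : ℤ) ∣ m)
    (h2 : (p : O) ∉ Q ^ 2) {m : ℤ} (hm : m ≠ 0) :
    emultiplicity Q (Ideal.span {(m : O)}) = padicValInt p m := by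
  have : Fact p.Prime := ⟨hp⟩
  have hP : Prime Q := Ideal.prime_of_isPrime hne hQ
  have h1 : emultiplicity Q (Ideal.span {(p : O)}) = (1 : ℕ) := by
    rw [emultiplicity_eq_coe]
    refine ⟨?_, ?_⟩
    · rw [pow_one, Ideal.dvd_span_singleton]
      simpa using (hmem p).2 dvd_rfl
    · rw [Ideal.dvd_span_singleton]
      exact h2
  have hfin : FiniteMultiplicity (p : ℤ) m :=
    Int.finiteMultiplicity_iff.2 ⟨by simpa using hp.ne_one, hm⟩
  obtain ⟨c, hc, hpc⟩ := hfin.exists_eq_pow_mul_and_not_dvd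
  rw [← padicValInt.of_ne_one_ne_zero hp.ne_one hm] at hc
  have h0 : emultiplicity Q (Ideal.span {(c : O)}) = 0 := by
    rw [emultiplicity_eq_zero, Ideal.dvd_span_singleton, hmem]
    exact hpc
  have h3 : (m : O) = (p : O) ^ padicValInt p m * (c : O) := by
    have := congrArg (Int.cast : ℤ → O) hc
    simpa using this
  rw [h3, ← Ideal.span_singleton_mul_span_singleton, ← Ideal.span_singleton_pow,
    emultiplicity_mul hP, emultiplicity_pow hP, h1, h0]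
  simp

/-- the double root of an integer polynomial in characteristic `p` is an integer class -/
theorem gal_int_root {k : Type} [Field k] {p : ℕ} [Fact p.Prime] [CharP k p] {n : ℕ} {f : ℤ[X]}
    {u : Fin n → k} (hf : up k f = ∏ i, (X - C (u i))) {a b : Fin n} (hab : a ≠ b)
    (hu : u a = u b) (hinj : ∀ j l, j ≠ a → l ≠ a → u j = u l → j = l) :
    (derivative (up k f)).eval (u a) = 0 ∧ ∃ r : ℤ, (r : k) = u a := by
  have hder : ∀ j, (derivative (up k f)).eval (u j) = ∏ l ∈ univ.erase j, (u j - u l) := by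
    intro j
    rw [hf, ← Lagrange.nodal_eq, Lagrange.eval_nodal_derivative_eval_node_eq (mem_univ j),
      Lagrange.eval_nodal]
  have hda : (derivative (up k f)).eval (u a) = 0 := by
    rw [hder]
    exact prod_eq_zero (mem_erase.2 ⟨hab.symm, mem_univ b⟩) (sub_eq_zero.2 hu)
  refine ⟨hda, ?_⟩
  have hfr : ∀ (g : ℤ[X]) (x : k), (up k g).eval (x ^ p) = ((up k g).eval x) ^ p := by
    intro g x
    have h1 := Polynomial.hom_eval₂ g (Int.castRingHom k) (frobenius k p) x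
    rw [RingHom.ext_int ((frobenius k p).comp (Int.castRingHom k)) (Int.castRingHom k),
      frobenius_def, frobenius_def] at h1
    rw [eval_map, eval_map, h1]
  have hp0 : p ≠ 0 := (Fact.out : p.Prime).ne_zero
  have h1 : (up k f).eval (u a ^ p) = 0 := by
    rw [hfr, hf, eval_prod, prod_eq_zero (mem_univ a) (by simp), zero_pow hp0]
  have h2 : (derivative (up k f)).eval (u a ^ p) = 0 := by
    rw [derivative_map] at hda ⊢
    rw [hfr, hda, zero_pow hp0]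
  rw [hf, eval_prod, prod_eq_zero_iff] at h1
  obtain ⟨j, -, hj⟩ := h1
  have hj' : u a ^ p = u j := by simpa [sub_eq_zero] using hj
  have h3 : u a ^ p = u a := by
    by_cases hja : j = a
    · rw [hj', hja]
    by_cases hjb : j = b
    · rw [hj', hjb, hu]
    rw [hj', hder, prod_eq_zero_iff] at h2
    obtain ⟨l, hl, h4⟩ := h2
    have h5 : u j = u l := sub_eq_zero.1 h4
    by_cases hla : l = a
    · rw [hla, hu] at h5
      exact absurd (hinj j b hja hab.symm h5) hjb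
    · exact absurd (hinj j l hja hla h5).symm (mem_erase.1 hl).1
  exact (mem_bot_iff_intCast p k).1 ((Subfield.mem_bot_iff_pow_eq_self k p).2 h3)

/-- one collision of roots -/
theorem gal_pair {k : Type} [Field k] {n : ℕ} {u : Fin n → k}
    (hD : Dv n (∏ i, (X - C (u i))) = 0) (hP : Phi n 0 (∏ i, (X - C (u i))) ≠ 0) :
    ∃ a b, a ≠ b ∧ u a = u b ∧ ∀ j l, j ≠ a → l ≠ a → u j = u l → j = l := by
  rw [Dv_eq_zero_iff] at hD
  rw [Phi_roots] at hP
  obtain ⟨i, -, hi⟩ := exists_ne_zero_of_sum_ne_zero hP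
  have hinj : ∀ j l, j ≠ i → l ≠ i → u j = u l → j = l := by
    intro j l hj hl h
    by_contra hjl
    apply hi
    rw [prod_eq_zero (mem_erase.2 ⟨hj, mem_univ j⟩), mul_zero]
    exact prod_eq_zero (mem_erase.2 ⟨fun e => hjl e.symm, mem_erase.2 ⟨hl, mem_univ l⟩⟩)
      (sub_eq_zero.2 h)
  obtain ⟨a, b, hab, hne⟩ := Function.not_injective_iff.1 hD
  by_cases ha : a = i
  · exact ⟨a, b, hne, hab, ha ▸ hinj⟩
  by_cases hb : b = i
  · exact ⟨b, a, fun e => hne e.symm, hab.symm, hb ▸ hinj⟩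
  exact absurd (hinj a b ha hb hab) hne

/-- the conclusion from a prime ideal that contains `p` exactly once -/
theorem gal_weak {O : Type} [CommRing O] [IsDedekindDomain O] [CharZero O] (Q : Ideal O)
    [hQ : Q.IsMaximal] (hne : Q ≠ ⊥) {p : ℕ} (hp : p.Prime)
    (hmem : ∀ m : ℤ, (m : O) ∈ Q ↔ (p : ℤ) ∣ m) (h2 : (p : O) ∉ Q ^ 2) {n : ℕ} {f : ℤ[X]}
    {ρ : Fin n → O} (hf : up O f = ∏ i, (X - C (ρ i))) (hD : Dv n f ≠ 0) {a b : Fin n}
    (hab : a ≠ b) (hu : ρ a - ρ b ∈ Q)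
    (hinj : ∀ j l, j ≠ a → l ≠ a → ρ j - ρ l ∈ Q → j = l) :
    Weak p f ∧ Even (padicValInt p (Dv n f)) := by
  have : Fact p.Prime := ⟨hp⟩
  have hP : Prime Q := Ideal.prime_of_isPrime hne hQ.isPrime
  let : Field (O ⧸ Q) := Ideal.Quotient.field Q
  have : CharP (O ⧸ Q) p := by
    refine (CharP.charP_iff_prime_eq_zero hp).2 ?_
    rw [← map_natCast (Ideal.Quotient.mk Q)]
    exact Ideal.Quotient.eq_zero_iff_mem.2 (by simpa using (hmem p).2 dvd_rfl)
  have hk : up (O ⧸ Q) f = ∏ i, (X - C (Ideal.Quotient.mk Q (ρ i))) := by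
    have h1 : Int.castRingHom (O ⧸ Q) = (Ideal.Quotient.mk Q).comp (Int.castRingHom O) :=
      RingHom.ext_int _ _
    rw [up, h1, ← Polynomial.map_map, show f.map (Int.castRingHom O) = _ from hf,
      Polynomial.map_prod]
    refine prod_congr rfl fun i _ => ?_
    rw [Polynomial.map_sub, map_X, map_C]
  obtain ⟨hd, r, hr⟩ := gal_int_root (p := p) hk hab (Ideal.Quotient.eq.2 hu)
    fun j l hj hl h => hinj j l hj hl (Ideal.Quotient.eq.1 h)
  have hra : (r : O) - ρ a ∈ Q := Ideal.Quotient.eq.1 (by rw [← hr, map_intCast])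
  have hrb : (r : O) - ρ b ∈ Q := by simpa using Q.add_mem hra hu
  have hev : ∀ (R : Type) [CommRing R] (g : ℤ[X]), (up R g).eval (r : R) = ((g.eval r : ℤ) : R) :=
    fun R _ g => eval_intCast_map (Int.castRingHom R) g r
  have hba : b ∈ univ.erase a := mem_erase.2 ⟨hab.symm, mem_univ b⟩
  refine ⟨⟨r, ?_, ?_⟩, ?_⟩
  · by_cases h0 : f.eval r = 0
    · rw [h0]; exact dvd_zero _
    have h3 : ((f.eval r : ℤ) : O) ∈ Q ^ 2 := by
      rw [← hev, hf, eval_prod, ← mul_prod_erase _ _ (mem_univ a), ← mul_prod_erase _ _ hba,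
        ← mul_assoc, sq]
      exact Ideal.mul_mem_right _ _ (Ideal.mul_mem_mul (by simpa using hra) (by simpa using hrb))
    have h4 := (pow_dvd_iff_le_emultiplicity).1 (Ideal.dvd_span_singleton.2 h3)
    rw [gal_val Q hne hp hmem h2 h0] at h4
    exact (padicValInt_dvd_iff 2 _).2 (Or.inr (by exact_mod_cast h4))
  · rw [← hr, derivative_map, hev] at hd
    exact (CharP.intCast_eq_zero_iff _ p _).1 hd
  · have hnot : ∀ j l, j ≠ l → ¬ (j = a ∧ l = b) → ¬ (j = b ∧ l = a) → ρ j - ρ l ∉ Q := by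
      intro j l hjl h3 h4 h
      by_cases hj : j = a
      · have hl : l ≠ a := fun e => hjl (hj.trans e.symm)
        have h5 : ρ b - ρ l ∈ Q := by simpa [hj] using Q.sub_mem h hu
        exact h3 ⟨hj, (hinj b l hab.symm hl h5).symm⟩
      by_cases hl : l = a
      · have h5 : ρ j - ρ b ∈ Q := by simpa [hl] using Q.add_mem h hu
        exact h4 ⟨hinj j b hj hab.symm h5, hl⟩
      exact hjl (hinj j l hj hl h)
    have hab' : a ∈ univ.erase b := mem_erase.2 ⟨hab, mem_univ a⟩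
    have h5 : ((Dv n f : ℤ) : O) = (ρ a - ρ b) * (ρ a - ρ b) *
        (-((∏ l ∈ (univ.erase a).erase b, (ρ a - ρ l)) *
          ((∏ l ∈ (univ.erase b).erase a, (ρ b - ρ l)) *
            ∏ j ∈ (univ.erase a).erase b, ∏ l ∈ univ.erase j, (ρ j - ρ l)))) := by
      have h6 := Dv_map (Int.castRingHom O) n f
      rw [show f.map (Int.castRingHom O) = _ from hf, Dv_roots,
        ← mul_prod_erase _ _ (mem_univ a), ← mul_prod_erase _ _ hba,
        ← mul_prod_erase _ _ hba, ← mul_prod_erase _ _ hab'] at h6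
      rw [show ((Dv n f : ℤ) : O) = _ from h6.symm]
      ring
    have h7 := gal_val Q hne hp hmem h2 hD
    rw [h5, ← Ideal.span_singleton_mul_span_singleton, ← Ideal.span_singleton_mul_span_singleton,
      emultiplicity_mul hP, emultiplicity_mul hP] at h7
    rw [(emultiplicity_eq_zero (b := Ideal.span {-_})).2, add_zero] at h7
    · have h8 : emultiplicity Q (Ideal.span {ρ a - ρ b}) ≠ ⊤ := by
        intro h
        rw [h] at h7
        simp at h7
      obtain ⟨e, he⟩ := ENat.ne_top_iff_exists.1 h8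
      rw [← he] at h7
      exact ⟨e, by exact_mod_cast h7.symm⟩
    · rw [Ideal.dvd_span_singleton, Q.neg_mem_iff]
      intro h
      rcases hQ.isPrime.mem_or_mem h with h | h
      · obtain ⟨l, hl, h⟩ := (Ideal.IsPrime.prod_mem_iff (hp := hQ.isPrime)).1 h
        simp only [mem_erase] at hl
        exact hnot a l (fun e => hl.2.1 e.symm) (fun e => hl.1 e.2) (fun e => hab e.1) h
      rcases hQ.isPrime.mem_or_mem h with h | h
      · obtain ⟨l, hl, h⟩ := (Ideal.IsPrime.prod_mem_iff (hp := hQ.isPrime)).1 h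
        simp only [mem_erase] at hl
        exact hnot b l (fun e => hl.2.1 e.symm) (fun e => hab e.1.symm) (fun e => hl.1 e.2) h
      · obtain ⟨j, hj, h⟩ := (Ideal.IsPrime.prod_mem_iff (hp := hQ.isPrime)).1 h
        obtain ⟨l, hl, h⟩ := (Ideal.IsPrime.prod_mem_iff (hp := hQ.isPrime)).1 h
        simp only [mem_erase] at hl hj
        exact hnot j l (fun e => hl.1 e.symm) (fun e => hj.2.1 e.1) (fun e => hj.1 e.1) h

end Pool.Agent.VW
end

-- part Pool.Agent.P.MP_b0ea37_nt.WGPrim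
section

namespace Pool.Agent.VW

open Polynomial Finset

/-- the Galois group acting on the numbered roots -/
theorem gal_roots {F : Type} [Field F] {n : ℕ} (f : F[X]) (hirr : Irreducible f)
    (hsep : f.Separable) (hdeg : f.natDegree = n) :
    ∃ (r : Fin n → f.SplittingField) (φ : f.Gal →* Equiv.Perm (Fin n)),
      Function.Injective r ∧ (∀ i, aeval (r i) f = 0) ∧ Function.Injective φ ∧
      (∀ (g : f.Gal) (i : Fin n), r (φ g i) = g (r i)) ∧ (∀ x y, ∃ g, φ g x = y) ∧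
      IsGalois F f.SplittingField ∧ FiniteDimensional F f.SplittingField := by
  classical
  have hcard : Fintype.card (f.rootSet f.SplittingField) = n := by
    rw [card_rootSet_eq_natDegree hsep (SplittingField.splits f), hdeg]
  let ε : f.rootSet f.SplittingField ≃ Fin n := Fintype.equivFinOfCardEq hcard
  let r : Fin n → f.SplittingField := fun i => (ε.symm i).1
  have hr : Function.Injective r := fun i j h => ε.symm.injective (Subtype.ext h)
  let φ0 : f.Gal →* Equiv.Perm (f.rootSet f.SplittingField) :=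
    @MulAction.toPermHom _ _ _ (Gal.galActionAux f)
  have hφ0 : ∀ (g : f.Gal) (x : f.rootSet f.SplittingField), (φ0 g x).1 = g x.1 :=
    fun g x => rfl
  let φ : f.Gal →* Equiv.Perm (Fin n) := (ε.permCongrHom.toMonoidHom).comp φ0
  have hφ : ∀ (g : f.Gal) (i : Fin n), r (φ g i) = g (r i) := by
    intro g i
    have h1 : φ g i = ε (φ0 g (ε.symm i)) := rfl
    simp only [r, h1, Equiv.symm_apply_apply, hφ0]
  have hinj : Function.Injective φ := by
    intro g h hgh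
    refine Gal.ext f fun x hx => ?_
    have h1 := hφ g (ε ⟨x, hx⟩)
    have h2 := hφ h (ε ⟨x, hx⟩)
    rw [hgh, h2] at h1
    simpa only [r, Equiv.symm_apply_apply] using h1.symm
  have hroot : ∀ i, aeval (r i) f = 0 := fun i => (mem_rootSet.mp (ε.symm i).2).2
  refine ⟨r, φ, hr, hroot, hinj, hφ, fun x y => ?_,
    IsGalois.of_separable_splitting_field hsep, inferInstance⟩
  have hx := minpoly.eq_of_irreducible hirr (hroot x)
  have hy := minpoly.eq_of_irreducible hirr (hroot y)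
  obtain ⟨g, hg⟩ := (Normal.minpoly_eq_iff_mem_orbit f.SplittingField).mp (hy.symm.trans hx)
  exact ⟨g, hr ((hφ g x).trans hg)⟩

/-- no intermediate field gives a primitive action -/
theorem gal_prim {F K : Type} [Field F] [Field K] [Algebra F K] [FiniteDimensional F K]
    [IsGalois F K] {n : ℕ} (r : Fin n → K) (hr : Function.Injective r)
    (φ : (K ≃ₐ[F] K) →* Equiv.Perm (Fin n)) (hφ : ∀ g i, r (φ g i) = g (r i))
    (htr : ∀ x y, ∃ g, φ g x = y) (hdeg : ∀ i, (minpoly F (r i)).natDegree ≤ n)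
    (hp : ∀ q : F[X], 0 < q.natDegree → q.natDegree < n → ∀ i j,
      aeval (r i) q = aeval (r j) q → i = j) :
    MulAction.IsPreprimitive φ.range (Fin n) := by
  have : MulAction.IsPretransitive φ.range (Fin n) := ⟨fun x y => by
    obtain ⟨g, hg⟩ := htr x y
    exact ⟨⟨φ g, g, rfl⟩, hg⟩⟩
  refine ⟨fun {B} hB => ?_⟩
  rw [MulAction.IsTrivialBlock, or_iff_not_imp_left]
  intro hB2
  obtain ⟨a, ha, b, hb, hab⟩ := Set.not_subsingleton_iff.1 hB2
  have key : ∀ g : K ≃ₐ[F] K, φ g a ∈ B → ∀ i, i ∈ B → φ g i ∈ B := by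
    intro g hg i hi
    have h1 := hB.smul_eq_of_mem (g := (⟨φ g, g, rfl⟩ : φ.range)) ha hg
    rw [← h1]
    exact Set.smul_mem_smul_set hi
  let H : Subgroup (K ≃ₐ[F] K) :=
    { carrier := {g | φ g a ∈ B}
      one_mem' := by simpa using ha
      mul_mem' := fun {g h} hg hh => by
        simpa using key g hg _ hh
      inv_mem' := fun {g} hg => by
        have h1 := hB.smul_eq_of_mem (g := (⟨φ g, g, rfl⟩ : φ.range)) ha hg
        have h2 := ha
        rw [← h1] at h2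
        obtain ⟨c, hc, h3⟩ := h2
        have h4 : φ g c = a := h3
        have h5 : φ g⁻¹ a = c := by rw [← h4, map_inv]; simp
        show φ g⁻¹ a ∈ B
        rwa [h5] }
  have hH : IntermediateField.fixedField H = ⊥ := by
    rw [eq_bot_iff]
    intro β hβ
    rw [IntermediateField.mem_fixedField_iff] at hβ
    have h1 : β ∈ IntermediateField.adjoin F {r a} := by
      rw [← IsGalois.fixedField_fixingSubgroup (IntermediateField.adjoin F {r a}),
        IntermediateField.mem_fixedField_iff]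
      intro g hg
      apply hβ
      have h2 := (IntermediateField.mem_fixingSubgroup_iff _ _).1 hg _
        (IntermediateField.mem_adjoin_simple_self F (r a))
      have h3 : φ g a = a := hr ((hφ g a).trans h2)
      show φ g a ∈ B
      rwa [h3]
    have hint : IsIntegral F (r a) := IsIntegral.of_finite F _
    have h2 : β ∈ (IntermediateField.adjoin F {r a}).toSubalgebra := h1
    rw [IntermediateField.adjoin_simple_toSubalgebra_of_isAlgebraic hint.isAlgebraic,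
      Algebra.adjoin_singleton_eq_range_aeval] at h2
    obtain ⟨q0, hq0⟩ := h2
    have h3 : aeval (r a) (q0 %ₘ minpoly F (r a)) = β := by
      rw [aeval_modByMonic_eq_self_of_root (minpoly.aeval F _)]
      exact hq0
    have h4 : (q0 %ₘ minpoly F (r a)).natDegree < n :=
      (natDegree_modByMonic_lt q0 (minpoly.monic hint) (minpoly.ne_one F _)).trans_le (hdeg a)
    obtain ⟨g, hg⟩ := htr a b
    have h5 : g β = β := hβ g (show φ g a ∈ B by rwa [hg])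
    by_cases h0 : 0 < (q0 %ₘ minpoly F (r a)).natDegree
    · refine absurd (hp _ h0 h4 a b ?_) hab
      rw [← hg, hφ, aeval_algHom_apply, h3, h5]
    · rw [eq_C_of_natDegree_eq_zero (Nat.eq_zero_of_not_pos h0), aeval_C] at h3
      exact IntermediateField.mem_bot.2 ⟨_, h3⟩
  have hT : H = ⊤ := by
    rw [← IntermediateField.fixingSubgroup_fixedField H, hH, IntermediateField.fixingSubgroup_bot]
  rw [Set.eq_univ_iff_forall]
  intro i
  obtain ⟨g, hg⟩ := htr a i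
  have h1 : g ∈ H := hT ▸ Subgroup.mem_top g
  rw [← hg]
  exact h1

end Pool.Agent.VW
end

-- part Pool.Agent.P.MP_b0ea37_nt.WGal
section

namespace Pool.Agent.VW

open Polynomial

open NumberField in
/-- without transpositions the inertia group at a single collision is trivial -/
theorem gal_inertia {K : Type} [Field K] [NumberField K] [IsGalois ℚ K] {n : ℕ} {f : ℤ[X]}
    (hm : f.Monic) (hn : f.natDegree = n) (hD : Dv n f ≠ 0) (r : Fin n → K)
    (hr : Function.Injective r) (h0 : ∀ i, aeval (r i) f = 0)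
    (φ : (K ≃ₐ[ℚ] K) →* Equiv.Perm (Fin n)) (hinj : Function.Injective φ)
    (hφ : ∀ g i, r (φ g i) = g (r i)) (hsw : ∀ g, ¬ (φ g).IsSwap) {p : ℕ} (hp : p.Prime)
    (h1 : (p : ℤ) ∣ Dv n f) (h2 : ¬ (p : ℤ) ∣ Phi n 0 f) :
    Weak p f ∧ Even (padicValInt p (Dv n f)) := by
  classical
  have : Fact p.Prime := ⟨hp⟩
  have hint : ∀ i, IsIntegral ℤ (r i) := fun i => ⟨f, hm, by rw [← aeval_def]; exact h0 i⟩
  let ρ : Fin n → 𝓞 K := fun i => ⟨r i, hint i⟩
  have hK : f.map (algebraMap ℤ K) = ∏ i, (X - C (r i)) := by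
    have hd : (∏ i, (X - C (r i))) ∣ f.map (algebraMap ℤ K) :=
      Finset.prod_dvd_of_coprime (fun i _ j _ hij => pairwise_coprime_X_sub_C hr hij)
        fun i _ => dvd_iff_isRoot.2 (by rw [IsRoot.def, eval_map_algebraMap]; exact h0 i)
    have hm' : (∏ i, (X - C (r i))).Monic := monic_prod_of_monic _ _ fun i _ => monic_X_sub_C _
    refine eq_of_monic_of_dvd_of_natDegree_le hm' (hm.map _) hd ?_
    rw [natDegree_prod_of_monic _ _ fun i _ => monic_X_sub_C _, hm.natDegree_map, hn]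
    simp
  have hO : up (𝓞 K) f = ∏ i, (X - C (ρ i)) := by
    apply Polynomial.map_injective (algebraMap (𝓞 K) K) (RingOfIntegers.coe_injective)
    rw [Polynomial.map_map, RingHom.ext_int (RingHom.comp _ _) (algebraMap ℤ K), hK,
      Polynomial.map_prod]
    refine Finset.prod_congr rfl fun i _ => ?_
    rw [Polynomial.map_sub, map_X, map_C]
    rfl
  have hpZ : Prime (p : ℤ) := Nat.prime_iff_prime_int.mp hp
  have hne : Ideal.span {(p : ℤ)} ≠ ⊥ := by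
    rw [Ne, Ideal.span_singleton_eq_bot]; exact hpZ.ne_zero
  have hPp : (Ideal.span {(p : ℤ)}).IsPrime := (Ideal.span_singleton_prime hpZ.ne_zero).2 hpZ
  have hPmax : (Ideal.span {(p : ℤ)}).IsMaximal := hPp.isMaximal hne
  obtain ⟨Q, hQmax, hQ⟩ := Ideal.exists_ideal_over_maximal_of_isIntegral
    (S := 𝓞 K) (Ideal.span {(p : ℤ)})
    (by
      rw [(RingHom.injective_iff_ker_eq_bot _).1 (algebraMap ℤ (𝓞 K)).injective_int]
      exact bot_le)
  have hmem : ∀ m : ℤ, (m : 𝓞 K) ∈ Q ↔ (p : ℤ) ∣ m := by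
    intro m
    rw [← Ideal.mem_span_singleton, ← hQ, Ideal.mem_comap]
    simp
  have hpQ : (p : 𝓞 K) ∈ Q := by simpa using (hmem p).2 dvd_rfl
  have hQne : Q ≠ ⊥ := by
    intro h
    rw [h, Ideal.mem_bot] at hpQ
    exact hp.ne_zero (by exact_mod_cast hpQ)
  let : Field (𝓞 K ⧸ Q) := Ideal.Quotient.field Q
  have hk : up (𝓞 K ⧸ Q) f = ∏ i, (X - C (Ideal.Quotient.mk Q (ρ i))) := by
    have h1 : Int.castRingHom (𝓞 K ⧸ Q) = (Ideal.Quotient.mk Q).comp (Int.castRingHom (𝓞 K)) :=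
      RingHom.ext_int _ _
    rw [up, h1, ← Polynomial.map_map, show f.map (Int.castRingHom (𝓞 K)) = _ from hO,
      Polynomial.map_prod]
    refine Finset.prod_congr rfl fun i _ => ?_
    rw [Polynomial.map_sub, map_X, map_C]
  have hz : ∀ m : ℤ, (m : 𝓞 K ⧸ Q) = 0 ↔ (p : ℤ) ∣ m := by
    intro m
    rw [← hmem, ← Ideal.Quotient.eq_zero_iff_mem, map_intCast]
  obtain ⟨a, b, hab, hu, hi⟩ := gal_pair (u := fun i => Ideal.Quotient.mk Q (ρ i))
    (by rw [← hk, Dv_map]; exact (hz _).2 h1) (by rw [← hk, Phi_map]; exact mt (hz _).1 h2)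
  have hI : Q.inertia (K ≃ₐ[ℚ] K) = ⊥ := by
    rw [eq_bot_iff]
    intro g hg
    have h3 : ∀ j, Ideal.Quotient.mk Q (ρ (φ g j)) = Ideal.Quotient.mk Q (ρ j) := by
      intro j
      have h4 : ρ (φ g j) = g • ρ j := RingOfIntegers.coe_injective (hφ g j)
      rw [h4]
      exact Ideal.Quotient.eq.2 (hg (ρ j))
    have h5 : ∀ j, j ≠ a → j ≠ b → φ g j = j := by
      intro j hja hjb
      by_cases h : φ g j = a
      · have h6 := h3 j
        rw [h, hu] at h6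
        exact absurd (hi b j hab.symm hja h6).symm hjb
      · exact hi _ _ h hja (h3 j)
    rw [Subgroup.mem_bot]
    by_cases ha : φ g a = a
    · apply hinj
      rw [map_one]
      refine Equiv.ext fun j => ?_
      by_cases hja : j = a
      · rw [hja, ha]; rfl
      · exact hi _ _ (fun h => hja ((φ g).injective (h.trans ha.symm))) hja (h3 j)
    · have hb : φ g a = b := hi _ _ ha hab.symm ((h3 a).trans hu)
      refine absurd ⟨a, b, hab, Equiv.ext fun j => ?_⟩ (hsw g)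
      by_cases hja : j = a
      · rw [hja, hb, Equiv.swap_apply_left]
      by_cases hjb : j = b
      · rw [hjb, Equiv.swap_apply_right]
        by_contra h
        have h6 := hi _ _ h hab.symm (h3 b)
        exact hab ((φ g).injective (hb.trans h6.symm))
      · rw [h5 j hja hjb, Equiv.swap_apply_of_ne_of_ne hja hjb]
  have hlo : Q.LiesOver (Ideal.span {(p : ℤ)}) := ⟨hQ.symm⟩
  have hGG := IsGaloisGroup.of_isFractionRing (K ≃ₐ[ℚ] K) ℤ (𝓞 K) ℚ K
  have he := Ideal.card_inertia_eq_ramificationIdxIn (G := K ≃ₐ[ℚ] K) (Ideal.span {(p : ℤ)}) Q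
  rw [hI, Subgroup.card_bot, Ideal.ramificationIdxIn_eq_ramificationIdx _ Q (K ≃ₐ[ℚ] K),
    ← Ideal.ramificationIdx'_eq_ramificationIdx (Ideal.span {(p : ℤ)}) Q hne] at he
  have hQ2 : (p : 𝓞 K) ∉ Q ^ 2 := by
    intro h
    refine (Ideal.ramificationIdx'_ne_one_iff (p := Ideal.span {(p : ℤ)}) (P := Q) ?_).2 ?_ he.symm
    · rw [Ideal.map_span, Set.image_singleton, Ideal.span_singleton_le_iff_mem]
      simpa using hpQ
    · rw [Ideal.map_span, Set.image_singleton, Ideal.span_singleton_le_iff_mem]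
      simpa using h
  exact gal_weak Q hQne hp hmem hQ2 hO hD hab (Ideal.Quotient.eq.1 hu)
    fun j l hj hl h => hi j l hj hl (Ideal.Quotient.eq.2 h)

theorem gal_main {K : Type} [Field K] [CharZero K] [inst : Algebra ℚ K] [FiniteDimensional ℚ K]
    [IsGalois ℚ K] {n : ℕ} {f : ℤ[X]} (hm : f.Monic) (hn : f.natDegree = n) (hi : Irr f)
    (hp : Prim f) (r : Fin n → K) (hr : Function.Injective r) (h0 : ∀ i, aeval (r i) (up ℚ f) = 0)
    (φ : (K ≃ₐ[ℚ] K) →* Equiv.Perm (Fin n)) (hinj : Function.Injective φ)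
    (hφ : ∀ g i, r (φ g i) = g (r i)) (htr : ∀ x y, ∃ g, φ g x = y) (hG : φ.range ≠ ⊤) :
    Bad n f := by
  obtain rfl : inst = DivisionRing.toRatAlgebra := Subsingleton.elim _ _
  have : NumberField K := ⟨⟩
  have h0' : ∀ i, aeval (r i) f = 0 := fun i => by
    have h1 := h0 i
    rwa [up, ← algebraMap_int_eq, aeval_map_algebraMap] at h1
  let ι : K →ₐ[ℚ] ℂ := IsAlgClosed.lift
  have hprim : MulAction.IsPreprimitive φ.range (Fin n) := by
    refine gal_prim r hr φ hφ htr (fun i => ?_) fun q h1 h2 i j h => ?_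
    · rw [← minpoly.eq_of_irreducible_of_monic hi (h0 i) (hm.map _), hm.natDegree_map, hn]
    · have h3 : ∀ i, aeval (ι (r i)) f = 0 := fun i => by
        rw [show ι (r i) = ι.toRingHom.toIntAlgHom (r i) from rfl, aeval_algHom_apply, h0', map_zero]
      have h4 : aeval (ι (r i)) q = aeval (ι (r j)) q := by
        rw [aeval_algHom_apply, aeval_algHom_apply, h]
      exact hr (ι.injective (hp q h1 (hn ▸ h2) _ _ (h3 i) (h3 j) h4))
  refine ⟨hm, hn, hi, hp, fun p hpp h1 h2 => ?_⟩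
  refine gal_inertia hm hn (hi.Dv_ne_zero hm hn) r hr h0' φ hinj hφ (fun g hg => hG ?_) hpp h1 h2
  exact Equiv.Perm.subgroup_eq_top_of_isPreprimitive_of_isSwap_mem hprim _ hg ⟨g, rfl⟩

/-- 0.1 -/
theorem bad_of_gal {n : ℕ} (hn : 5 ≤ n) {f : ℤ[X]} (hm : f.Monic) (hf : f.natDegree = n)
    (hi : Irr f) (hp : Prim f) (hG : ¬ Nonempty ((up ℚ f).Gal ≃* Equiv.Perm (Fin n))) :
    Bad n f := by
  obtain ⟨r, φ, hr, h0, hinj, hφ, htr, hgal, hfd⟩ :=
    gal_roots (n := n) (up ℚ f) hi hi.separable (by rw [hm.natDegree_map, hf])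
  refine @gal_main _ _ _ (_) hfd hgal n f hm hf hi hp r hr h0 φ hinj hφ htr fun h => hG ?_
  exact ⟨MulEquiv.ofBijective φ ⟨hinj, MonoidHom.range_eq_top.1 h⟩⟩

end Pool.Agent.VW
end

-- part Pool.Agent.P.MP_b0ea37_nt.WCnt
section

namespace Pool.Agent.VW

open Polynomial

variable {α β : Type}

theorem Cnt.nonneg {P : α → Prop} {B : ℝ} (h : Cnt P B) : 0 ≤ B := by
  simpa using h ∅ (by simp)

theorem Cnt.mono {P Q : α → Prop} {B B' : ℝ} (h : Cnt Q B) (hPQ : ∀ x, P x → Q x) (hB : B ≤ B') :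
    Cnt P B' := fun S hS => (h S fun x hx => hPQ x (hS x hx)).trans hB

theorem Cnt.empty {P : α → Prop} {B : ℝ} (h : ∀ x, ¬ P x) (hB : 0 ≤ B) : Cnt P B := by
  intro S hS
  have : S = ∅ := Finset.eq_empty_of_forall_notMem fun x hx => h x (hS x hx)
  simpa [this] using hB

theorem Cnt.one {P : α → Prop} (h : ∀ x y, P x → P y → x = y) : Cnt P 1 := by
  intro S hS
  exact_mod_cast Finset.card_le_one.2 fun x hx y hy => h x y (hS x hx) (hS y hy)

theorem Cnt.finset (T : Finset α) : Cnt (fun x => x ∈ T) T.card := fun _ hS =>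
  Nat.cast_le.2 (Finset.card_le_card hS)

theorem Cnt.fintype [Fintype α] (P : α → Prop) : Cnt P (Fintype.card α) := fun S _ =>
  Nat.cast_le.2 S.card_le_univ

theorem Cnt.or {P Q : α → Prop} {B B' : ℝ} (h : Cnt P B) (h' : Cnt Q B') :
    Cnt (fun x => P x ∨ Q x) (B + B') := by
  classical
  intro S hS
  have e := Finset.card_filter_add_card_filter_not (s := S) P
  have h1 := h (S.filter P) fun x hx => (Finset.mem_filter.1 hx).2
  have h2 := h' (S.filter fun x => ¬ P x) fun x hx =>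
    (hS x (Finset.mem_filter.1 hx).1).resolve_left (Finset.mem_filter.1 hx).2
  rw [← e]; push_cast; linarith

/-- if the set is nonempty one may use an element of it -/
theorem Cnt.of_mem {P : α → Prop} {B : ℝ} (hB : 0 ≤ B) (h : ∀ a, P a → Cnt P B) : Cnt P B := by
  intro S hS
  rcases S.eq_empty_or_nonempty with rfl | ⟨a, ha⟩
  · simpa using hB
  · exact h a (hS a ha) S hS

theorem Cnt.inj {P : α → Prop} {Q : β → Prop} {B : ℝ} (h : Cnt Q B) (φ : α → β)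
    (hφ : ∀ x, P x → Q (φ x)) (hinj : ∀ x y, P x → P y → φ x = φ y → x = y) : Cnt P B := by
  classical
  intro S hS
  have := h (S.image φ) (by
    intro y hy
    obtain ⟨x, hx, rfl⟩ := Finset.mem_image.1 hy
    exact hφ x (hS x hx))
  rwa [Finset.card_image_of_injOn fun x hx y hy e => hinj x y (hS x hx) (hS y hy) e] at this

/-- objects determined by a datum -/
theorem Cnt.rel {P : α → Prop} {Q : β → Prop} {B : ℝ} (h : Cnt Q B) (R : α → β → Prop)
    (hex : ∀ x, P x → ∃ y, Q y ∧ R x y) (huniq : ∀ x x' y, P x → P x' → R x y → R x' y → x = x') :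
    Cnt P B := by
  have h1 : Cnt (fun _ : {x // P x} => True) B := by
    choose φ hφ using fun x : {x // P x} => hex x.1 x.2
    exact h.inj φ (fun x _ => (hφ x).1) fun x y _ _ e =>
      Subtype.ext (huniq x.1 y.1 (φ x) x.2 y.2 (hφ x).2 (e ▸ (hφ y).2))
  intro S hS
  have := h1 (S.attach.map ⟨fun x => ⟨x.1, hS x.1 x.2⟩, fun x y e =>
    Subtype.ext (by simpa using e)⟩) (fun _ _ => trivial)
  simpa using this

theorem Cnt.image {P : α → Prop} {B : ℝ} (h : Cnt P B) (φ : α → β) :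
    Cnt (fun y => ∃ x, P x ∧ φ x = y) B := h.rel (fun y x => φ x = y) (fun _ hy => hy)
    fun _ _ _ _ _ e e' => e.symm.trans e'

theorem Cnt.sum (T : Finset β) {P : β → α → Prop} {B : β → ℝ} (h : ∀ y ∈ T, Cnt (P y) (B y)) :
    Cnt (fun x => ∃ y ∈ T, P y x) (∑ y ∈ T, B y) := by
  classical
  intro S hS
  have h1 : S ⊆ T.biUnion fun y => S.filter (P y) := by
    intro x hx
    obtain ⟨y, hy, hp⟩ := hS x hx
    exact Finset.mem_biUnion.2 ⟨y, hy, Finset.mem_filter.2 ⟨hx, hp⟩⟩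
  have h2 := (Finset.card_le_card h1).trans Finset.card_biUnion_le
  calc (S.card : ℝ) ≤ ((∑ y ∈ T, (S.filter (P y)).card : ℕ) : ℝ) := Nat.cast_le.2 h2
    _ ≤ _ := by
      push_cast
      exact Finset.sum_le_sum fun y hy => h y hy _ fun x hx => (Finset.mem_filter.1 hx).2

theorem Cnt.fibre {Q : β → Prop} {P : β → α → Prop} {B B' : ℝ} (h : Cnt Q B) (hB' : 0 ≤ B')
    (h' : ∀ y, Q y → Cnt (P y) B') : Cnt (fun x => ∃ y, Q y ∧ P y x) (B * B') := by
  classical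
  intro S hS
  choose φ hφ using fun x : {x // x ∈ S} => hS x.1 x.2
  have hT := h (S.attach.image φ) (by
    intro y hy
    obtain ⟨x, _, rfl⟩ := Finset.mem_image.1 hy
    exact (hφ x).1)
  have h1 := Cnt.sum (S.attach.image φ) (P := P) (B := fun _ => B') (by
    intro y hy
    obtain ⟨x, _, rfl⟩ := Finset.mem_image.1 hy
    exact h' _ (hφ x).1) S fun x hx =>
      ⟨φ ⟨x, hx⟩, Finset.mem_image_of_mem _ (Finset.mem_attach _ _), (hφ ⟨x, hx⟩).2⟩
  rw [Finset.sum_const, nsmul_eq_mul] at h1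
  exact h1.trans (mul_le_mul_of_nonneg_right hT hB')

theorem Cnt.prod {P : α → Prop} {Q : α → β → Prop} {B B' : ℝ} (h : Cnt P B) (hB' : 0 ≤ B')
    (h' : ∀ x, P x → Cnt (Q x) B') : Cnt (fun z : α × β => P z.1 ∧ Q z.1 z.2) (B * B') := by
  have h1 := Cnt.fibre (P := fun (x : α) (z : α × β) => z.1 = x ∧ Q x z.2) h hB' fun x hx =>
    (h' x hx).inj Prod.snd (fun z hz => hz.2) fun z w hz hw e =>
      Prod.ext (hz.1.trans hw.1.symm) e
  exact h1.mono (fun z hz => ⟨z.1, hz.1, rfl, hz.2⟩) le_rfl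

theorem Cnt.pi {ι : Type} [Fintype ι] {P : ι → α → Prop} {B : ι → ℝ} (h : ∀ i, Cnt (P i) (B i)) :
    Cnt (fun z : ι → α => ∀ i, P i (z i)) (∏ i, B i) := by
  classical
  intro S hS
  have h1 : S ⊆ Fintype.piFinset fun i => S.image fun z => z i := fun z hz =>
    Fintype.mem_piFinset.2 fun i => Finset.mem_image_of_mem _ hz
  have h2 := Finset.card_le_card h1
  rw [Fintype.card_piFinset] at h2
  calc (S.card : ℝ) ≤ ((∏ i, (S.image fun z => z i).card : ℕ) : ℝ) := Nat.cast_le.2 h2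
    _ ≤ _ := by
      push_cast
      refine Finset.prod_le_prod (fun _ _ => Nat.cast_nonneg _) fun i _ => h i _ ?_
      intro y hy
      obtain ⟨z, hz, rfl⟩ := Finset.mem_image.1 hy
      exact hS z hz i

/-- few pairwise unrelated points, few points related to a given one -/
theorem Cnt.greedy {P : α → Prop} (R : α → α → Prop) (hrefl : ∀ x, P x → R x x)
    (hsymm : ∀ x y, P x → P y → R x y → R y x) {B B' : ℝ} (hB' : 0 ≤ B')
    (h : ∀ S : Finset α, (∀ x ∈ S, P x) → (∀ x ∈ S, ∀ y ∈ S, x ≠ y → ¬ R x y) → (S.card : ℝ) ≤ B)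
    (h' : ∀ a, P a → Cnt (fun x => P x ∧ R a x) B') : Cnt P (B * B') := by
  classical
  intro S hS
  obtain ⟨A, hA⟩ : ∃ A : Finset (Finset α), ∀ T, T ∈ A ↔
      T ∈ S.powerset ∧ ∀ x ∈ T, ∀ y ∈ T, x ≠ y → ¬ R x y := ⟨_, fun _ => Finset.mem_filter⟩
  obtain ⟨T, hT, hmax⟩ := Finset.exists_max_image A Finset.card ⟨∅, (hA _).2 (by simp)⟩
  obtain ⟨hTS, hTa⟩ := (hA _).1 hT
  rw [Finset.mem_powerset] at hTS
  have h1 := Cnt.sum T (P := fun a x => P x ∧ R a x) (B := fun _ => B')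
    (fun a ha => h' a (hS a (hTS ha))) S (by
      intro x hx
      by_contra hno
      have hxT : x ∉ T := fun hxT => hno ⟨x, hxT, hS x hx, hrefl x (hS x hx)⟩
      have := hmax (insert x T) ((hA _).2 ⟨Finset.mem_powerset.2
        (Finset.insert_subset hx hTS), by
          intro a ha b hb hab hR
          rcases Finset.mem_insert.1 ha with ha' | ha' <;>
            rcases Finset.mem_insert.1 hb with hb' | hb'
          · exact hab (ha'.trans hb'.symm)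
          · exact hno ⟨b, hb', hS x hx, ha' ▸ hsymm a b (ha' ▸ hS x hx) (hS b (hTS hb')) hR⟩
          · exact hno ⟨a, ha', hS x hx, hb' ▸ hR⟩
          · exact hTa a ha' b hb' hab hR⟩)
      rw [Finset.card_insert_of_notMem hxT] at this
      omega)
  rw [Finset.sum_const, nsmul_eq_mul] at h1
  exact h1.trans (mul_le_mul_of_nonneg_right (h T (fun x hx => hS x (hTS hx)) hTa) hB')

/-- double counting: every point of `P` has `L` neighbours in `Q`, every point of `Q` at most `B'` -/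
theorem Cnt.double {P : α → Prop} {Q : β → Prop} (R : α → β → Prop) {L B B' : ℝ} (hL : 0 < L)
    (hB' : 0 ≤ B') (hQ : Cnt Q B)
    (hP : ∀ x, P x → ∃ T : Finset β, L ≤ T.card ∧ ∀ y ∈ T, Q y ∧ R x y)
    (hR : ∀ y, Q y → Cnt (fun x => P x ∧ R x y) B') : Cnt P (B * B' / L) := by
  classical
  intro S hS
  choose T hT using fun x : {x // x ∈ S} => hP x.1 (hS x.1 x.2)
  have h1 := Cnt.prod (Q := fun y x => P x ∧ R x y) hQ hB' hR
    (S.attach.biUnion fun x => (T x).image fun y => (y, x.1)) (by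
      intro z hz
      obtain ⟨x, _, hz⟩ := Finset.mem_biUnion.1 hz
      obtain ⟨y, hy, rfl⟩ := Finset.mem_image.1 hz
      exact ⟨((hT x).2 y hy).1, hS x.1 x.2, ((hT x).2 y hy).2⟩)
  rw [Finset.card_biUnion (by
    intro x _ x' _ hne
    refine Finset.disjoint_left.2 fun z hz hz' => hne ?_
    obtain ⟨y, _, rfl⟩ := Finset.mem_image.1 hz
    obtain ⟨y', _, e⟩ := Finset.mem_image.1 hz'
    exact Subtype.ext (congrArg Prod.snd e).symm)] at h1
  rw [le_div_iff₀ hL]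
  refine le_trans ?_ h1
  push_cast
  calc (S.card : ℝ) * L = ∑ _x ∈ S.attach, L := by simp
    _ ≤ _ := Finset.sum_le_sum fun x _ => by
      rw [Finset.card_image_of_injective _ fun y y' e => congrArg Prod.fst e]
      exact (hT x).1

/-- pigeonhole: more than `K * B` points, at most `B` values -/
theorem pigeon (S : Finset α) (φ : α → β) {Q : β → Prop} {B K : ℝ} (hQ : Cnt Q B)
    (hφ : ∀ x ∈ S, Q (φ x)) (hK : 0 ≤ K) (h : B * K < S.card) :
    ∃ T ⊆ S, K < T.card ∧ ∀ x ∈ T, ∀ y ∈ T, φ x = φ y := by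
  classical
  by_contra hno
  have h1 := Cnt.fibre (P := fun y x => x ∈ S ∧ φ x = y) hQ hK (by
    intro y _ T hT
    by_contra hlt
    exact hno ⟨T, fun x hx => (hT x hx).1, not_le.1 hlt,
      fun x hx x' hx' => (hT x hx).2.trans (hT x' hx').2.symm⟩) S
    fun x hx => ⟨φ x, hφ x hx, hx, rfl⟩
  linarith

theorem Cnt.finite {P : α → Prop} {B : ℝ} (h : Cnt P B) : {x | P x}.Finite := by
  by_contra hinf
  obtain ⟨T, hT, hc⟩ := Set.Infinite.exists_subset_card_eq hinf (⌈B⌉₊ + 1)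
  have := h T fun x hx => hT hx
  rw [hc] at this
  push_cast at this
  linarith [Nat.le_ceil B]

theorem Cnt.ncard_le {P : α → Prop} {B : ℝ} (h : Cnt P B) : ({x | P x}.ncard : ℝ) ≤ B := by
  rw [Set.ncard_eq_toFinset_card _ h.finite]
  exact h _ fun x hx => by simpa using hx

theorem cnt_int_near (c R : ℝ) (hR : 0 ≤ R) : Cnt (fun t : ℤ => |(t : ℝ) - c| ≤ R) (2 * R + 1) :=
  by
  intro S hS
  have h1 : S ⊆ Finset.Icc ⌈c - R⌉ ⌊c + R⌋ := by
    intro t ht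
    have := abs_le.1 (hS t ht)
    exact Finset.mem_Icc.2 ⟨Int.ceil_le.2 (by linarith), Int.le_floor.2 (by linarith)⟩
  have h2 := Finset.card_le_card h1
  rw [Int.card_Icc] at h2
  have h3 : ((⌊c + R⌋ + 1 - ⌈c - R⌉).toNat : ℝ) ≤ 2 * R + 1 := by
    rcases le_total 0 (⌊c + R⌋ + 1 - ⌈c - R⌉) with h0 | h0
    · have : (((⌊c + R⌋ + 1 - ⌈c - R⌉).toNat : ℤ) : ℝ) = ((⌊c + R⌋ + 1 - ⌈c - R⌉ : ℤ) : ℝ) := by
        rw [Int.toNat_of_nonneg h0]
      push_cast at this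
      rw [this]
      linarith [Int.floor_le (c + R), Int.le_ceil (c - R)]
    · rw [Int.toNat_eq_zero.2 h0]; push_cast; linarith
  exact (Nat.cast_le.2 h2).trans h3

theorem cnt_int_abs (R : ℝ) (hR : 0 ≤ R) : Cnt (fun t : ℤ => |(t : ℝ)| ≤ R) (2 * R + 1) := by
  simpa using cnt_int_near 0 R hR

theorem cnt_nat_le (R : ℝ) (hR : 0 ≤ R) : Cnt (fun t : ℕ => (t : ℝ) ≤ R) (R + 1) := by
  intro S hS
  have h1 : S ⊆ Finset.range (⌊R⌋₊ + 1) := fun t ht =>
    Finset.mem_range.2 (Nat.lt_succ_of_le (Nat.le_floor (hS t ht)))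
  have h2 : (S.card : ℝ) ≤ ((⌊R⌋₊ + 1 : ℕ) : ℝ) := by
    exact_mod_cast (Finset.card_le_card h1).trans (Finset.card_range _).le
  push_cast at h2
  linarith [Nat.floor_le hR]

theorem cnt_nat_pos (R : ℝ) (hR : 0 ≤ R) : Cnt (fun t : ℕ => 1 ≤ t ∧ (t : ℝ) ≤ R) R := by
  intro S hS
  have h1 : S ⊆ Finset.Icc 1 ⌊R⌋₊ := fun t ht =>
    Finset.mem_Icc.2 ⟨(hS t ht).1, Nat.le_floor (hS t ht).2⟩
  have h2 : S.card ≤ ⌊R⌋₊ := by simpa using Finset.card_le_card h1
  exact (Nat.cast_le.2 h2).trans (Nat.floor_le hR)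

theorem cnt_res (M : ℕ) : Cnt (fun r : ℤ => 0 ≤ r ∧ r < M) M := by
  intro S hS
  have h1 : S ⊆ Finset.Ico (0 : ℤ) M := fun t ht => Finset.mem_Ico.2 (hS t ht)
  have h2 := Finset.card_le_card h1
  rw [Int.card_Ico] at h2
  exact_mod_cast (by simpa using h2 : S.card ≤ M)

/-- a residue class in an interval -/
theorem cnt_class (M : ℕ) (hM : 1 ≤ M) (a : ℤ) (c R : ℝ) (hR : 0 ≤ R) :
    Cnt (fun t : ℤ => |(t : ℝ) - c| ≤ R ∧ (M : ℤ) ∣ t - a) (2 * R / M + 1) := by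
  have hM' : (0 : ℝ) < M := by exact_mod_cast hM
  refine ((cnt_int_near ((c - a) / M) (R / M) (by positivity)).rel (fun t k => t - a = M * k) ?_
    ?_).mono (fun _ h => h) (by rw [mul_div_assoc])
  · rintro t ⟨h1, k, hk⟩
    refine ⟨k, ?_, hk⟩
    have e : (t : ℝ) - a = M * k := by exact_mod_cast hk
    have : (k : ℝ) - (c - a) / M = (t - c) / M := by field_simp; linarith
    rw [this, abs_div, abs_of_pos hM']
    gcongr
  · intro t t' k _ _ e e'
    linarith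

theorem cnt_roots {K : Type} [CommRing K] [IsDomain K] (g : K[X]) (hg : g ≠ 0) :
    Cnt (fun z : K => g.eval z = 0) g.natDegree := by
  classical
  intro S hS
  have h1 : S ⊆ g.roots.toFinset := fun z hz =>
    Multiset.mem_toFinset.2 ((mem_roots hg).2 (hS z hz))
  exact_mod_cast (Finset.card_le_card h1).trans
    ((Multiset.toFinset_card_le _).trans (card_roots' g))

theorem cnt_poly_coeff (m : ℕ) {P : ℕ → ℤ → Prop} {B : ℕ → ℝ} (h : ∀ i, Cnt (P i) (B i)) :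
    Cnt (fun g : ℤ[X] => g.degree < m ∧ ∀ i < m, P i (g.coeff i)) (∏ i ∈ Finset.range m, B i) :=
  by
  rw [← Fin.prod_univ_eq_prod_range]
  refine (Cnt.pi (ι := Fin m) (P := fun i => P i) fun i => h i).inj (fun g i => g.coeff i)
    (fun g hg i => hg.2 i i.2) fun g g' hg hg' e => ?_
  ext i
  by_cases hi : i < m
  · exact congrFun e ⟨i, hi⟩
  · have hi' : (m : WithBot ℕ) ≤ i := by exact_mod_cast not_lt.1 hi
    rw [coeff_eq_zero_of_degree_lt (hg.1.trans_le hi'),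
      coeff_eq_zero_of_degree_lt (hg'.1.trans_le hi')]

theorem cnt_poly (m : ℕ) (T : ℝ) (hT : 0 ≤ T) :
    Cnt (fun g : ℤ[X] => g.degree < m ∧ g.supNorm ≤ T) ((2 * T + 1) ^ m) := by
  refine (cnt_poly_coeff m (P := fun _ t => |(t : ℝ)| ≤ T) (B := fun _ => 2 * T + 1)
    fun _ => cnt_int_abs T hT).mono (fun g hg => ⟨hg.1, fun i _ => ?_⟩) (by simp)
  exact (g.le_supNorm i).trans hg.2

theorem cnt_monic (m : ℕ) (T : ℝ) (hT : 0 ≤ T) :
    Cnt (fun g : ℤ[X] => g.Monic ∧ g.natDegree = m ∧ g.supNorm ≤ T) ((2 * T + 1) ^ m) := by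
  refine (cnt_poly_coeff m (P := fun _ t => |(t : ℝ)| ≤ T) (B := fun _ => 2 * T + 1)
    fun _ => cnt_int_abs T hT).inj (fun g => g - X ^ m) (fun g hg => ⟨?_, fun i hi => ?_⟩)
    (fun g g' _ _ e => sub_left_injective e) |>.mono (fun _ h => h) (by simp)
  · have e : g.degree = (m : ℕ) := by rw [degree_eq_natDegree hg.1.ne_zero, hg.2.1]
    rw [← e]
    exact degree_sub_lt (by rw [e, degree_X_pow]) hg.1.ne_zero (by rw [hg.1, leadingCoeff_X_pow])
  · rw [coeff_sub, coeff_X_pow, if_neg hi.ne, sub_zero]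
    exact (g.le_supNorm i).trans hg.2.2

theorem exists_dyadic (x : ℝ) (hx : 1 ≤ x) : ∃ k : ℕ, (2 : ℝ) ^ k ≤ x ∧ x < 2 * 2 ^ k := by
  obtain ⟨k, h1, h2⟩ := exists_nat_pow_near hx (one_lt_two (α := ℝ))
  exact ⟨k, h1, by rwa [pow_succ'] at h2⟩

theorem cnt_dyadic (ε : ℝ) (hε : 0 < ε) : ∃ C : ℝ, 1 ≤ C ∧ ∀ Z : ℝ, 1 ≤ Z →
    Cnt (fun k : ℕ => (2 : ℝ) ^ k ≤ Z) (C * Z ^ ε) := by
  have hl : 0 < Real.log 2 := Real.log_pos one_lt_two
  refine ⟨1 / (ε * Real.log 2) + 1, le_add_of_nonneg_left (by positivity), fun Z hZ => ?_⟩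
  have h1 : 1 ≤ Z ^ ε := Real.one_le_rpow hZ hε.le
  refine (cnt_nat_le (Z ^ ε / (ε * Real.log 2)) (by positivity)).mono (fun k hk => ?_) ?_
  · have h2 : (k : ℝ) * Real.log 2 ≤ Real.log Z := by
      rw [← Real.log_pow]; exact Real.log_le_log (by positivity) hk
    have h3 := Real.log_le_rpow_div (by linarith : 0 ≤ Z) hε
    rw [le_div_iff₀ (by positivity)]
    rw [le_div_iff₀ hε] at h3
    nlinarith
  · rw [add_mul, one_div, ← div_eq_inv_mul]; linarith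

theorem PS.mono {n : ℕ} {P Q : ℝ → ℤ[X] → Prop} (h : PS n Q) (H₁ : ℝ)
    (hPQ : ∀ H, H₁ ≤ H → ∀ f, Box n H f → P H f → Q H f) : PS n P := by
  obtain ⟨c, hc, C, H₀, h⟩ := h
  exact ⟨c, hc, C, max H₀ H₁, fun H hH => (h H ((le_max_left _ _).trans hH)).mono
    (fun f hf => ⟨hf.1, hPQ H ((le_max_right _ _).trans hH) f hf.1 hf.2⟩) le_rfl⟩

theorem PS.or {n : ℕ} {P Q : ℝ → ℤ[X] → Prop} (h : PS n P) (h' : PS n Q) :
    PS n (fun H f => P H f ∨ Q H f) := by
  obtain ⟨c, hc, C, H₀, h⟩ := h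
  obtain ⟨c', hc', C', H₀', h'⟩ := h'
  refine ⟨min c c', lt_min hc hc', |C| + |C'|, max 1 (max H₀ H₀'), fun H hH => ?_⟩
  have h1 : 1 ≤ H := (le_max_left _ _).trans hH
  have h2 := (le_max_right _ _).trans hH
  refine ((h H ((le_max_left _ _).trans h2)).or (h' H ((le_max_right _ _).trans h2))).mono
    (fun f hf => hf.2.imp (fun a => ⟨hf.1, a⟩) fun a => ⟨hf.1, a⟩) ?_
  rw [add_mul]
  have := min_le_left c c'
  have := min_le_right c c'
  refine add_le_add ?_ ?_ <;>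
    exact mul_le_mul (le_abs_self _) (Real.rpow_le_rpow_of_exponent_le h1 (by linarith))
      (by positivity) (abs_nonneg _)

theorem PS.fin {n : ℕ} {ι : Type} (T : Finset ι) {P : ι → ℝ → ℤ[X] → Prop}
    (h : ∀ i ∈ T, PS n (P i)) : PS n (fun H f => ∃ i ∈ T, P i H f) := by
  classical
  induction T using Finset.induction_on with
  | empty => exact ⟨1, one_pos, 0, 0, fun H _ => Cnt.empty (by simp) (by simp)⟩
  | insert a T _ ih =>
    refine ((h a (Finset.mem_insert_self _ _)).or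
      (ih fun i hi => h i (Finset.mem_insert_of_mem hi))).mono 0 ?_
    rintro H - f - ⟨i, hi, hp⟩
    rcases Finset.mem_insert.1 hi with rfl | hi
    · exact Or.inl hp
    · exact Or.inr ⟨i, hi, hp⟩

/-- any exponent below `n - 1` will do -/
theorem PS.of_lt {n : ℕ} {P : ℝ → ℤ[X] → Prop} (e C H₀ : ℝ) (he : e < (n : ℝ) - 1)
    (h : ∀ H : ℝ, H₀ ≤ H → Cnt (fun f => Box n H f ∧ P H f) (C * H ^ e)) : PS n P := ⟨n - 1 - e, by linarith, C, H₀, fun H hH => by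
    rw [sub_sub_cancel]; exact h H hH⟩

/-- a constant is absorbed by a power -/
theorem exists_pow_ge (C c : ℝ) (hc : 0 < c) : ∃ H₀ : ℝ, 1 ≤ H₀ ∧ ∀ H : ℝ, H₀ ≤ H → C ≤ H ^ c := by
  obtain ⟨H₀, h⟩ := Filter.eventually_atTop.1 ((tendsto_rpow_atTop hc).eventually_ge_atTop C)
  exact ⟨max 1 H₀, le_max_left _ _, fun H hH => h H ((le_max_right _ _).trans hH)⟩

end Pool.Agent.VW
end

-- part Pool.Agent.P.MP_b0ea37_nt.WPack
section

namespace Pool.Agent.VW

open Polynomial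

open MeasureTheory Metric in
theorem wpack_idx {α E : Type} [NormedAddCommGroup E] [NormedSpace ℝ E] (V : Submodule ℝ E) (k : ℕ)
    [Module.Finite ℝ V] (hk : Module.finrank ℝ V ≤ k) (R ρ : ℝ) (hR : 0 ≤ R) (hρ : 0 < ρ)
    (S : Finset α) (φ : α → E) (hV : ∀ x ∈ S, ∀ y ∈ S, φ x - φ y ∈ V)
    (hS : ∀ x ∈ S, ∀ y ∈ S, ‖φ x - φ y‖ ≤ R)
    (hsep : ∀ x ∈ S, ∀ y ∈ S, x ≠ y → ρ ≤ ‖φ x - φ y‖) : (S.card : ℝ) ≤ (1 + 2 * R / ρ) ^ k := by
  classical
  rcases S.eq_empty_or_nonempty with rfl | ⟨x₀, hx₀⟩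
  · simpa using pow_nonneg (by positivity) k
  borelize ↥V
  let μ : Measure V := Measure.addHaar
  let ψ : α → V := fun x => if hx : x ∈ S then ⟨φ x - φ x₀, hV x hx x₀ hx₀⟩ else 0
  have hψ : ∀ x ∈ S, (ψ x : E) = φ x - φ x₀ := fun x hx => by simp only [ψ, dif_pos hx]
  have hd : (S : Set α).PairwiseDisjoint fun x => ball (ψ x) (ρ / 2) := by
    intro x hx y hy hxy
    refine ball_disjoint_ball ?_
    rw [Subtype.dist_eq, dist_eq_norm, hψ x hx, hψ y hy, sub_sub_sub_cancel_right, add_halves]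
    exact hsep x hx y hy hxy
  have hsub : ⋃ x ∈ S, ball (ψ x) (ρ / 2) ⊆ ball 0 (R + ρ / 2) := by
    refine Set.iUnion₂_subset fun x hx => ball_subset_ball' ?_
    rw [Subtype.dist_eq, dist_eq_norm, hψ x hx, Submodule.coe_zero, sub_zero]
    linarith [hS x hx x₀ hx₀]
  have h1 := measure_mono (μ := μ) hsub
  rw [measure_biUnion_finset hd fun _ _ => measurableSet_ball,
    Finset.sum_congr rfl fun x _ => μ.addHaar_ball_of_pos (ψ x) (half_pos hρ),
    μ.addHaar_ball_of_pos _ (show 0 < R + ρ / 2 by positivity), Finset.sum_const, nsmul_eq_mul,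
    ← mul_assoc, ENNReal.mul_le_mul_iff_left (measure_ball_pos μ _ one_pos).ne'
      measure_ball_lt_top.ne, ← ENNReal.ofReal_natCast, ← ENNReal.ofReal_mul (Nat.cast_nonneg _),
    ENNReal.ofReal_le_ofReal_iff (by positivity), ← le_div_iff₀ (by positivity), ← div_pow] at h1
  have e : (R + ρ / 2) / (ρ / 2) = 1 + 2 * R / ρ := by field_simp; ring
  rw [e] at h1
  exact h1.trans (pow_le_pow_right₀ (le_add_of_nonneg_right (by positivity)) hk)

/-- packing in a subspace of dimension at most `k` -/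
theorem pack {E : Type} [NormedAddCommGroup E] [NormedSpace ℝ E] (V : Submodule ℝ E) (k : ℕ)
    [Module.Finite ℝ V] (hk : Module.finrank ℝ V ≤ k) (R ρ : ℝ) (hR : 0 ≤ R) (hρ : 0 < ρ)
    (S : Finset E) (hV : ∀ x ∈ S, ∀ y ∈ S, x - y ∈ V) (hS : ∀ x ∈ S, ∀ y ∈ S, ‖x - y‖ ≤ R)
    (hsep : ∀ x ∈ S, ∀ y ∈ S, x ≠ y → ρ ≤ ‖x - y‖) : (S.card : ℝ) ≤ (1 + 2 * R / ρ) ^ k :=
  wpack_idx V k hk R ρ hR hρ S id hV hS hsep

/-- the same for an indexed family and a seminorm -/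
theorem pack_semi {α E : Type} [AddCommGroup E] [Module ℝ E] (p : Seminorm ℝ E)
    (V : Submodule ℝ E) (k : ℕ) [Module.Finite ℝ V] (hk : Module.finrank ℝ V ≤ k) (R ρ : ℝ)
    (hR : 0 ≤ R) (hρ : 0 < ρ) (S : Finset α) (φ : α → E)
    (hV : ∀ x ∈ S, ∀ y ∈ S, φ x - φ y ∈ V) (hS : ∀ x ∈ S, ∀ y ∈ S, p (φ x - φ y) ≤ R)
    (hsep : ∀ x ∈ S, ∀ y ∈ S, x ≠ y → ρ ≤ p (φ x - φ y)) :
    (S.card : ℝ) ≤ (1 + 2 * R / ρ) ^ k := by
  let q : Seminorm ℝ V := p.comp V.subtype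
  let K : Submodule ℝ V :=
    { carrier := {v | q v = 0}
      add_mem' := fun {a b} ha hb => le_antisymm
        ((map_add_le_add q a b).trans (by rw [ha, hb, add_zero])) (apply_nonneg q _)
      zero_mem' := map_zero q
      smul_mem' := fun c v hv => by
        change q (c • v) = 0
        rw [map_smul_eq_mul, hv, mul_zero] }
  obtain ⟨W, hW⟩ := K.exists_isCompl
  rcases S.eq_empty_or_nonempty with rfl | ⟨x₀, hx₀⟩
  · simpa using pow_nonneg (by positivity) k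
  let π : V →ₗ[ℝ] W := W.projectionOnto K hW.symm
  have hπ : ∀ v : V, q (π v) = q v := by
    intro v
    have h1 : v - π v ∈ K := by
      rw [← Submodule.projectionOnto_apply_eq_zero_iff hW.symm, map_sub,
        Submodule.projectionOnto_apply_left, sub_self]
    have h2 : q (v - π v) = 0 := h1
    refine le_antisymm ?_ ?_
    · have := map_sub_le_add q v (v - π v)
      rwa [sub_sub_cancel, h2, add_zero] at this
    · have := map_add_le_add q (π v : V) (v - π v)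
      rwa [add_sub_cancel, h2, add_zero] at this
  let r : Seminorm ℝ W := q.comp W.subtype
  let _ : NormedAddCommGroup W := AddGroupNorm.toNormedAddCommGroup
    { r.toAddGroupSeminorm with
      eq_zero_of_map_eq_zero' := fun w hw => Subtype.ext
        ((Submodule.disjoint_def.1 hW.disjoint) w hw w.2) }
  let _ : NormedSpace ℝ W := ⟨fun c w => (map_smul_eq_mul r c w).le⟩
  classical
  let ψ : α → W := fun x => if hx : x ∈ S then π ⟨φ x - φ x₀, hV x hx x₀ hx₀⟩ else 0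
  have hψ : ∀ x ∈ S, ∀ y ∈ S, ‖ψ x - ψ y‖ = p (φ x - φ y) := by
    intro x hx y hy
    simp only [ψ, dif_pos hx, dif_pos hy, ← map_sub]
    refine (hπ _).trans ?_
    simp [q]
  refine wpack_idx (E := W) ⊤ k ?_ R ρ hR hρ S ψ (fun _ _ _ _ => trivial)
    (fun x hx y hy => by rw [hψ x hx y hy]; exact hS x hx y hy)
    (fun x hx y hy h => by rw [hψ x hx y hy]; exact hsep x hx y hy h)
  rw [finrank_top]
  exact W.finrank_le.trans hk

/-- cells for tuples with a conjugation symmetry -/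
theorem grid {n : ℕ} (s : Equiv.Perm (Fin n)) (hs : ∀ i, s (s i) = i) (m e : Fin n → ℝ)
    (hm : ∀ i, 0 ≤ m i) (he : ∀ i, 0 < e i) (hes : ∀ i, e (s i) = e i) :
    ∃ (cell : (Fin n → ℂ) → (Fin n → ℤ)) (Q : (Fin n → ℤ) → Prop),
      Cnt Q (∏ i, (3 + 8 * m i / e i)) ∧
      (∀ β : Fin n → ℂ, (∀ i, ‖β i‖ ≤ m i) → Q (cell β)) ∧
      ∀ β β' : Fin n → ℂ, (∀ i, β (s i) = starRingEnd ℂ (β i)) →
        (∀ i, β' (s i) = starRingEnd ℂ (β' i)) → cell β = cell β' → ∀ i, ‖β i - β' i‖ ≤ e i := by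
  refine ⟨fun β i => ⌊((β i).re + (β i).im) / e i⌋,
    fun z => ∀ i, |(z i : ℝ)| ≤ 2 * m i / e i + 1, ?_, ?_, ?_⟩
  · refine (Cnt.pi fun i => cnt_int_abs (2 * m i / e i + 1)
      (by have := hm i; have := he i; positivity)).mono (fun _ h => h) ?_
    refine Finset.prod_le_prod (fun i _ => by have := hm i; have := he i; positivity)
      fun i _ => ?_
    have : 0 ≤ m i / e i := div_nonneg (hm i) (he i).le
    rw [mul_div_assoc, mul_div_assoc]
    linarith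
  · intro β hβ i
    have h1 := abs_le.1 ((Complex.abs_re_le_norm (β i)).trans (hβ i))
    have h2 := abs_le.1 ((Complex.abs_im_le_norm (β i)).trans (hβ i))
    have h3 : ((β i).re + (β i).im) / e i ≤ 2 * m i / e i :=
      div_le_div_of_nonneg_right (by linarith) (he i).le
    have h4 : -(2 * m i / e i) ≤ ((β i).re + (β i).im) / e i := by
      rw [← neg_div]; exact div_le_div_of_nonneg_right (by linarith) (he i).le
    have h5 := Int.floor_le (((β i).re + (β i).im) / e i)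
    have h6 := Int.lt_floor_add_one (((β i).re + (β i).im) / e i)
    exact abs_le.2 ⟨by linarith, by linarith⟩
  · intro β β' hβ hβ' hc i
    have key : ∀ j, (((β j).re + (β j).im) - ((β' j).re + (β' j).im)) ^ 2 ≤ e j ^ 2 := by
      intro j
      have h1 := Int.abs_sub_lt_one_of_floor_eq_floor (congrFun hc j)
      rw [← sub_div, abs_div, abs_of_pos (he j), div_lt_one (he j)] at h1
      exact sq_le_sq' (by linarith [(abs_lt.1 h1).1]) (abs_lt.1 h1).2.le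
    have h1 := key i
    have h2 := key (s i)
    rw [hβ, hβ', hes] at h2
    simp only [Complex.conj_re, Complex.conj_im] at h2
    refine abs_le_of_sq_le_sq' ?_ (he i).le |>.2
    rw [Complex.sq_norm, Complex.normSq_apply, Complex.sub_re, Complex.sub_im]
    nlinarith

/-- a basis chosen from a finite set, in which all its points have coordinates at most one -/
theorem maxdet {α E : Type} [AddCommGroup E] [Module ℚ E] (S : Finset α) (φ : α → E) :
    ∃ (ρ : ℕ) (b : Fin ρ → α), (∀ i, b i ∈ S) ∧ LinearIndependent ℚ (fun i => φ (b i)) ∧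
      ∀ a ∈ S, ∃ c : Fin ρ → ℚ, (∀ i, |c i| ≤ 1) ∧ φ a = ∑ i, c i • φ (b i) := by
  classical
  let V := Submodule.span ℚ (φ '' S)
  have : Module.Finite ℚ V := Module.Finite.span_of_finite ℚ (S.finite_toSet.image φ)
  let ρ := Module.finrank ℚ V
  let e := Module.finBasis ℚ V
  let ψ : S → V := fun a => ⟨φ a, Submodule.subset_span ⟨a, a.2, rfl⟩⟩
  have hsp : Submodule.span ℚ (Set.range ψ) = ⊤ := by
    apply Submodule.map_injective_of_injective V.injective_subtype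
    rw [Submodule.map_span, Submodule.map_top, Submodule.range_subtype, ← Set.range_comp]
    congr 1
    ext y
    simp [ψ]
  obtain ⟨b₀, hb₀, hli₀, hsp₀⟩ := Submodule.exists_fun_fin_finrank_span_eq ℚ (Set.range ψ)
  have hρ : Module.finrank ℚ (Submodule.span ℚ (Set.range ψ)) = ρ := by rw [hsp, finrank_top]
  have h0 : ∃ b : Fin ρ → S, e.det (fun i => ψ (b i)) ≠ 0 := by
    revert b₀
    rw [hρ]
    intro b₀ hb₀ hli₀ hsp₀
    choose b hb using hb₀
    refine ⟨b, ?_⟩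
    simp only [hb]
    exact ((e.is_basis_iff_det).1 ⟨hsp₀, hli₀.trans hsp⟩).ne_zero
  obtain ⟨b₁, hb₁⟩ := h0
  obtain ⟨b, -, hb⟩ := Finset.exists_max_image Finset.univ
    (fun b : Fin ρ → S => |e.det (fun i => ψ (b i))|) ⟨b₁, Finset.mem_univ _⟩
  have hpos : 0 < |e.det (fun i => ψ (b i))| := (abs_pos.2 hb₁).trans_le (hb b₁ (Finset.mem_univ _))
  obtain ⟨hli, hspan⟩ := (e.is_basis_iff_det (v := fun i => ψ (b i))).2
    (abs_pos.1 hpos).isUnit
  let B := Module.Basis.mk hli hspan.ge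
  refine ⟨ρ, fun i => b i, fun i => (b i).2, hli.map' V.subtype V.ker_subtype, fun a ha => ?_⟩
  refine ⟨fun i => B.repr (ψ ⟨a, ha⟩) i, fun i => ?_, ?_⟩
  · have h1 := congrArg (fun L => L (ψ ⟨a, ha⟩)) (e.det_smul_mk_coord_eq_det_update hli hspan.ge i)
    have h2 := hb (Function.update b i ⟨a, ha⟩) (Finset.mem_univ _)
    have h3 : (fun j => ψ (Function.update b i ⟨a, ha⟩ j)) =
        Function.update (fun j => ψ (b j)) i (ψ ⟨a, ha⟩) := Function.comp_update ψ b i _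
    simp only [LinearMap.smul_apply, smul_eq_mul, MultilinearMap.toLinearMap_apply,
      AlternatingMap.coe_multilinearMap] at h1
    rw [h3, ← h1, abs_mul] at h2
    exact (mul_le_iff_le_one_right hpos).1 h2
  · have := congrArg V.subtype (B.sum_repr (ψ ⟨a, ha⟩))
    rw [map_sum] at this
    refine this.symm.trans (Finset.sum_congr rfl fun i _ => ?_)
    simp [B, ψ]

end Pool.Agent.VW
end

-- part Pool.Agent.P.MP_b0ea37_nt.WFCj
section

namespace Pool.Agent.VW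

open Polynomial Finset

/-- `α` lists the roots of an irreducible rational polynomial -/
def Cj {b : ℕ} (α : Fin b → ℂ) : Prop :=
  ∃ c : ℚ[X], Irreducible c ∧ c.map (algebraMap ℚ ℂ) = ∏ j, (X - C (α j))

/-- `β` lists the conjugates of an element of the field given by `α` -/
def InK {b : ℕ} (α β : Fin b → ℂ) : Prop := ∃ u : ℚ[X], ∀ j, β j = aeval (α j) u

def Intg {b : ℕ} (β : Fin b → ℂ) : Prop := ∀ j, IsIntegral ℤ (β j)

variable {b : ℕ} {α β γ : Fin b → ℂ}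

theorem prodX_monic (α : Fin b → ℂ) : (∏ j, (X - C (α j))).Monic :=
  monic_prod_of_monic _ _ fun _ _ => monic_X_sub_C _

theorem prodX_deg (α : Fin b → ℂ) : (∏ j, (X - C (α j))).natDegree = b := by
  rw [natDegree_prod_of_monic _ _ fun i _ => monic_X_sub_C _]
  simp

theorem root_of_map {c : ℚ[X]} (h : c.map (algebraMap ℚ ℂ) = ∏ j, (X - C (α j))) (j : Fin b) :
    aeval (α j) c = 0 := by
  rw [← eval_map_algebraMap, h, eval_prod]
  exact prod_eq_zero (mem_univ j) (by simp)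

theorem monic_of_map {c : ℚ[X]} (h : c.map (algebraMap ℚ ℂ) = ∏ j, (X - C (α j))) :
    c.Monic ∧ c.natDegree = b := by
  refine ⟨monic_of_injective (algebraMap ℚ ℂ).injective (h ▸ prodX_monic α), ?_⟩
  rw [← natDegree_map (algebraMap ℚ ℂ), h, prodX_deg]

theorem Cj.minpoly_map (h : Cj α) (i : Fin b) :
    (minpoly ℚ (α i)).map (algebraMap ℚ ℂ) = ∏ j, (X - C (α j)) := by
  obtain ⟨c, hc, h⟩ := h
  rw [← minpoly.eq_of_irreducible_of_monic hc (root_of_map h i) (monic_of_map h).1, h]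

theorem Cj.isIntegral (h : Cj α) (i : Fin b) : IsIntegral ℚ (α i) := by
  obtain ⟨c, -, h⟩ := h
  exact ⟨c, (monic_of_map h).1, by rw [← aeval_def]; exact root_of_map h i⟩

theorem Cj.all_zero (h : Cj α) {i : Fin b} {u : ℚ[X]} (hu : aeval (α i) u = 0) (j : Fin b) :
    aeval (α j) u = 0 := by
  obtain ⟨w, hw⟩ := minpoly.dvd ℚ (α i) hu
  rw [hw, map_mul, root_of_map (h.minpoly_map i) j, zero_mul]

theorem Cj.all_eq (h : Cj α) {i : Fin b} {u w : ℚ[X]} (hu : aeval (α i) u = aeval (α i) w)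
    (j : Fin b) : aeval (α j) u = aeval (α j) w := by
  have := h.all_zero (u := u - w) (i := i) (by rw [map_sub, hu, sub_self]) j
  rwa [map_sub, sub_eq_zero] at this

theorem Cj.inj (h : Cj α) : Function.Injective α := by
  obtain ⟨c, hc, h⟩ := h
  have h1 := hc.separable.map (f := algebraMap ℚ ℂ)
  rw [h] at h1
  exact separable_prod_X_sub_C_iff.1 h1

theorem Irr.cj {f : ℤ[X]} (hf : Irr f) (h : Roots (up ℂ f) α) : Cj α :=
  ⟨up ℚ f, hf, by
    rw [up, Polynomial.map_map, RingHom.ext_int (RingHom.comp _ _) (Int.castRingHom ℂ)]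
    exact h⟩

theorem InK.refl (α : Fin b → ℂ) : InK α α := ⟨X, fun _ => by simp⟩

theorem InK.trans (h : InK α β) (h' : InK β γ) : InK α γ := by
  obtain ⟨u, hu⟩ := h
  obtain ⟨w, hw⟩ := h'
  exact ⟨w.comp u, fun j => by rw [aeval_comp, ← hu, hw]⟩

theorem InK.sub (h : InK α β) (h' : InK α γ) : InK α fun j => β j - γ j := by
  obtain ⟨u, hu⟩ := h
  obtain ⟨w, hw⟩ := h'
  exact ⟨u - w, fun j => by rw [map_sub, ← hu, ← hw]⟩

theorem InK.const (α : Fin b → ℂ) (t : ℤ) : InK α fun _ => (t : ℂ) :=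
  ⟨C (t : ℚ), fun j => by simp⟩

theorem Intg.sub (h : Intg β) (h' : Intg γ) : Intg fun j => β j - γ j :=
  fun j => (h j).sub (h' j)

theorem Intg.const (b : ℕ) (t : ℤ) : Intg fun _ : Fin b => (t : ℂ) :=
  fun _ => isIntegral_algebraMap (R := ℤ) (x := t)

theorem Roots.intg {f : ℤ[X]} (hm : f.Monic) (h : Roots (up ℂ f) α) : Intg α := fun j =>
  ⟨f, hm, by
    rw [← eval_map, algebraMap_int_eq]
    exact (h.eval_eq_zero_iff _).2 ⟨j, rfl⟩⟩

/-- the characteristic polynomial is rational -/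
theorem Cj.char (h : Cj α) (hβ : InK α β) :
    ∃ g : ℚ[X], g.map (algebraMap ℚ ℂ) = ∏ j, (X - C (β j)) := by
  obtain ⟨c, -, hc⟩ := h
  obtain ⟨u, hu⟩ := hβ
  refine ⟨resultant (c.map C) (C X - u.map C) b u.natDegree, Polynomial.funext fun y => ?_⟩
  have h1 := resultant_map_map (f := c.map C) (g := C X - u.map C) (m := b) (n := u.natDegree)
    (eval₂RingHom (algebraMap ℚ ℂ) y)
  have h2 : (eval₂RingHom (algebraMap ℚ ℂ) y).comp C = algebraMap ℚ ℂ := by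
    ext; simp
  rw [Polynomial.map_sub, Polynomial.map_map, Polynomial.map_map, h2, map_C, hc, coe_eval₂RingHom,
    eval₂_X] at h1
  have h3 := resultant_roots (1 : ℂ) one_ne_zero α (C y - u.map (algebraMap ℚ ℂ)) u.natDegree
    ((natDegree_sub_le _ _).trans (max_le (by simp) natDegree_map_le))
  rw [C_1, one_mul, one_pow, one_mul] at h3
  rw [eval_map, ← h1, h3, eval_prod]
  refine prod_congr rfl fun j _ => ?_
  rw [eval_sub, eval_C, eval_map_algebraMap, ← hu]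
  simp

theorem Cj.char_int (h : Cj α) (hβ : InK α β) (hi : Intg β) :
    ∃ g : ℤ[X], g.Monic ∧ g.natDegree = b ∧ Roots (up ℂ g) β := by
  obtain ⟨g, hg⟩ := h.char hβ
  have h1 : ∀ k, IsIntegral ℤ ((∏ j, (X - C (β j))).coeff k) := by
    intro k
    have h2 : (∏ j, (X - C (β j))) ∈ lifts (algebraMap (integralClosure ℤ ℂ) ℂ) :=
      ⟨∏ j, (X - C (⟨β j, hi j⟩ : integralClosure ℤ ℂ)), by
        simp⟩
    obtain ⟨x, hx⟩ := (lifts_iff_coeff_lifts _).1 h2 k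
    rw [← hx]
    exact x.2
  have h3 : (∏ j, (X - C (β j))) ∈ lifts (Int.castRingHom ℂ) := by
    rw [lifts_iff_coeff_lifts]
    intro k
    have h4 := h1 k
    rw [← hg, coeff_map] at h4 ⊢
    obtain ⟨z, hz⟩ := IsIntegrallyClosed.isIntegral_iff.1
      ((isIntegral_algebraMap_iff (algebraMap ℚ ℂ).injective).1 h4)
    exact ⟨z, by rw [← hz]; simp⟩
  obtain ⟨q, h5, h6, h7⟩ := lifts_and_natDegree_eq_and_monic h3 (prodX_monic β)
  exact ⟨q, h7, h6.trans (prodX_deg β), h5⟩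

/-- a nonzero integer has a conjugate of size at least one -/
theorem Cj.one_le (h : Cj α) (hβ : InK α β) (hi : Intg β) {i : Fin b} (h0 : β i ≠ 0) :
    ∃ j, 1 ≤ ‖β j‖ := by
  obtain ⟨g, -, -, hg⟩ := h.char_int hβ hi
  obtain ⟨u, hu⟩ := hβ
  have h1 : ∀ j, β j ≠ 0 := fun j hj =>
    h0 (by rw [hu]; exact h.all_zero (by rw [← hu]; exact hj) i)
  have h2 : ((g.eval 0 : ℤ) : ℂ) = ∏ j, (-β j) := by
    have h3 := eval_intCast_map (Int.castRingHom ℂ) g 0
    rw [show g.map (Int.castRingHom ℂ) = _ from hg, eval_prod] at h3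
    simpa using h3.symm
  have h4 : g.eval 0 ≠ 0 := by
    intro h5
    rw [h5, Int.cast_zero] at h2
    exact prod_ne_zero_iff.2 (fun j _ => neg_ne_zero.2 (h1 j)) h2.symm
  have h6 : (1 : ℝ) ≤ ∏ j, ‖β j‖ := by
    have h7 := congrArg norm h2
    rw [norm_prod, Complex.norm_intCast] at h7
    simp only [norm_neg] at h7
    rw [← h7]
    exact_mod_cast Int.one_le_abs h4
  by_contra hc
  push Not at hc
  have h8 : ∏ j, ‖β j‖ < ∏ _j : Fin b, (1 : ℝ) :=
    prod_lt_prod_of_nonempty (fun j _ => norm_pos_iff.2 (h1 j)) (fun j _ => hc j) ⟨i, mem_univ i⟩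
  rw [prod_const_one] at h8
  linarith

theorem Cj.conj (h : Cj α) : ∃ s : Equiv.Perm (Fin b), (∀ i, s (s i) = i) ∧
    ∀ β, InK α β → ∀ i, β (s i) = starRingEnd ℂ (β i) := by
  have h0 := h.inj
  obtain ⟨c, -, hc⟩ := h
  have h1 : (starRingEnd ℂ).comp (algebraMap ℚ ℂ) = algebraMap ℚ ℂ := RingHom.ext_rat _ _
  obtain ⟨s, h2, h3⟩ := exists_conj α h0 (by rw [← hc, Polynomial.map_map, h1])
  refine ⟨s, h2, fun β ⟨u, hu⟩ i => ?_⟩
  rw [hu, hu, h3, aeval_def, aeval_def, hom_eval₂, h1]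

/-- an element of full degree generates the field -/
theorem Cj.gen (h : Cj α) (hβ : InK α β) (i : Fin b) (hd : b ≤ (minpoly ℚ (β i)).natDegree) :
    Cj β ∧ InK β α := by
  obtain ⟨g, hg⟩ := h.char hβ
  obtain ⟨hgm, hgd⟩ := monic_of_map hg
  have hint : IsIntegral ℚ (β i) := ⟨g, hgm, by rw [← aeval_def]; exact root_of_map hg i⟩
  have h1 : g = minpoly ℚ (β i) := eq_of_monic_of_dvd_of_natDegree_le (minpoly.monic hint) hgm
    (minpoly.dvd ℚ _ (root_of_map hg i)) (hgd ▸ hd)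
  refine ⟨⟨g, h1 ▸ minpoly.irreducible hint, hg⟩, ?_⟩
  obtain ⟨u, hu⟩ := hβ
  have hle : IntermediateField.adjoin ℚ {β i} ≤ IntermediateField.adjoin ℚ {α i} := by
    rw [IntermediateField.adjoin_simple_le_iff, hu]
    exact IntermediateField.algebra_adjoin_le_adjoin ℚ _ (aeval_mem_adjoin_singleton ℚ _)
  have := IntermediateField.adjoin.finiteDimensional (h.isIntegral i)
  have h2 := IntermediateField.eq_of_le_of_finrank_eq hle (by
    rw [IntermediateField.adjoin.finrank hint, IntermediateField.adjoin.finrank (h.isIntegral i),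
      ← h1, hgd, (monic_of_map (h.minpoly_map i)).2])
  have h3 : α i ∈ (IntermediateField.adjoin ℚ {β i}).toSubalgebra :=
    h2 ▸ IntermediateField.mem_adjoin_simple_self ℚ (α i)
  rw [IntermediateField.adjoin_simple_toSubalgebra_of_isAlgebraic hint.isAlgebraic,
    Algebra.adjoin_singleton_eq_range_aeval] at h3
  obtain ⟨w, hw⟩ := h3
  refine ⟨w, fun j => ?_⟩
  have h4 := h.all_eq (i := i) (u := X) (w := w.comp u)
    (by rw [aeval_comp, ← hu, aeval_X]; exact hw.symm) j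
  rwa [aeval_comp, ← hu, aeval_X] at h4

theorem Cj.gen_of_inj (h : Cj α) (hβ : InK α β) (hb : 0 < b) (hinj : Function.Injective β) :
    Cj β ∧ InK β α := by
  refine h.gen hβ ⟨0, hb⟩ ?_
  obtain ⟨g, hg⟩ := h.char hβ
  have hint : IsIntegral ℚ (β ⟨0, hb⟩) :=
    ⟨g, (monic_of_map hg).1, by rw [← aeval_def]; exact root_of_map hg _⟩
  obtain ⟨u, hu⟩ := hβ
  have h1 : (∏ j, (X - C (β j))) ∣ (minpoly ℚ (β ⟨0, hb⟩)).map (algebraMap ℚ ℂ) := by
    refine prod_dvd_of_coprime (fun i _ j _ hij => pairwise_coprime_X_sub_C hinj hij)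
      fun j _ => dvd_iff_isRoot.2 ?_
    rw [IsRoot.def, eval_map_algebraMap, hu j, ← aeval_comp]
    exact h.all_zero (i := ⟨0, hb⟩) (by rw [aeval_comp, ← hu, minpoly.aeval]) j
  have h2 := natDegree_le_of_dvd h1 ((minpoly.monic hint).map _).ne_zero
  rwa [prodX_deg, natDegree_map] at h2

/-- integers of a fixed field in a box -/
theorem Cj.cnt_box (h : Cj α) (m : Fin b → ℝ) (hm : ∀ j, 0 ≤ m j) :
    Cnt (fun β => InK α β ∧ Intg β ∧ ∀ j, ‖β j‖ ≤ m j) (∏ j, (3 + 16 * m j)) := by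
  obtain ⟨s, hs, hc⟩ := h.conj
  obtain ⟨cell, Q, h1, h2, h3⟩ := grid s hs m (fun _ => 1 / 2) hm (fun _ => by norm_num)
    fun _ => rfl
  refine (h1.inj cell (fun β hβ => h2 β hβ.2.2) fun β γ hβ hγ e => ?_).mono (fun _ h => h)
    (le_of_eq (prod_congr rfl fun j _ => by ring))
  funext i
  by_contra hne
  obtain ⟨j, hj⟩ := h.one_le (hβ.1.sub hγ.1) (hβ.2.1.sub hγ.2.1) (i := i) (sub_ne_zero.2 hne)
  have := h3 β γ (hc β hβ.1) (hc γ hγ.1) e j
  linarith

/-- numberings of the roots -/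
theorem cnt_numberings (g : ℂ[X]) : Cnt (fun α : Fin b → ℂ => Roots g α) ((b : ℝ) ^ b) := by
  refine Cnt.of_mem (by positivity) fun a ha => ?_
  have h1 : g ≠ 0 := by rw [show g = _ from ha]; exact (prodX_monic a).ne_zero
  have h2 : g.natDegree = b := by rw [show g = _ from ha, prodX_deg]
  refine (Cnt.pi fun _ : Fin b => cnt_roots g h1).mono
    (fun α hα i => (hα.eval_eq_zero_iff _).2 ⟨i, rfl⟩) (le_of_eq ?_)
  rw [h2]
  simp

/-- dyadic size vectors -/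
theorem cnt_dyadic_vec (b : ℕ) (ε : ℝ) (hε : 0 < ε) : ∃ C : ℝ, 1 ≤ C ∧ ∀ Z : ℝ, 1 ≤ Z →
    Cnt (fun k : Fin b → ℕ => ∏ j, (2 : ℝ) ^ k j ≤ Z) (C * Z ^ ε) := by
  obtain ⟨C, hC, h⟩ := cnt_dyadic (ε / (b + 1)) (by positivity)
  refine ⟨C ^ b, one_le_pow₀ hC, fun Z hZ => ?_⟩
  refine (Cnt.pi fun _ : Fin b => h Z hZ).mono (fun k hk j => le_trans ?_ hk) ?_
  · rw [prod_pow_eq_pow_sum]
    exact pow_le_pow_right₀ one_le_two (single_le_sum (fun _ _ => Nat.zero_le _) (mem_univ j))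
  · rw [prod_const, card_univ, Fintype.card_fin, mul_pow, ← Real.rpow_natCast (Z ^ _),
      ← Real.rpow_mul (by linarith)]
    refine mul_le_mul_of_nonneg_left (Real.rpow_le_rpow_of_exponent_le hZ ?_) (by positivity)
    rw [div_mul_eq_mul_div, div_le_iff₀ (by positivity)]
    nlinarith

end Pool.Agent.VW
end

-- part Pool.Agent.P.MP_b0ea37_nt.WIStr
section

namespace Pool.Agent.VW

open Polynomial Finset

theorem mem_adjoin_poly {x y : ℂ} (hx : IsIntegral ℚ x) (h : y ∈ IntermediateField.adjoin ℚ {x}) :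
    ∃ w : ℚ[X], aeval x w = y := by
  have h3 : y ∈ (IntermediateField.adjoin ℚ {x}).toSubalgebra := h
  rw [IntermediateField.adjoin_simple_toSubalgebra_of_isAlgebraic hx.isAlgebraic,
    Algebra.adjoin_singleton_eq_range_aeval] at h3
  exact h3

theorem adjoin_aeval_le (z : ℂ) (u : ℚ[X]) :
    IntermediateField.adjoin ℚ {aeval z u} ≤ IntermediateField.adjoin ℚ {z} := by
  rw [IntermediateField.adjoin_simple_le_iff]
  exact IntermediateField.algebra_adjoin_le_adjoin ℚ _ (aeval_mem_adjoin_singleton ℚ _)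

theorem isIntegral_aeval {z : ℂ} (hz : IsIntegral ℚ z) (u : ℚ[X]) : IsIntegral ℚ (aeval z u) :=
  IsIntegral.of_mem_of_fg _ hz.fg_adjoin_singleton _ (aeval_mem_adjoin_singleton ℚ _)

/-- the minimal polynomial over a subfield, written in two variables -/
theorem imp_rel {z : ℂ} (hz : IsIntegral ℚ z) (u : ℚ[X]) : ∃ PP : ℚ[X][X], PP.Monic ∧
    (minpoly ℚ (aeval z u)).natDegree * PP.natDegree = (minpoly ℚ z).natDegree ∧
    PP.eval₂ (aeval (aeval z u) : ℚ[X] →ₐ[ℚ] ℂ).toRingHom z = 0 := by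
  have hγ := isIntegral_aeval hz u
  set γ := aeval z u with hγd
  let L := IntermediateField.adjoin ℚ {γ}
  have hzL : IsIntegral L z := hz.tower_top
  let ψ : ℚ[X] →+* L := (aeval (IntermediateField.AdjoinSimple.gen ℚ γ) : ℚ[X] →ₐ[ℚ] L).toRingHom
  have hψ : (algebraMap L ℂ).comp ψ = (aeval γ : ℚ[X] →ₐ[ℚ] ℂ).toRingHom := by
    refine RingHom.ext fun w => ?_
    have := aeval_algebraMap_apply ℂ (IntermediateField.AdjoinSimple.gen ℚ γ) w
    rw [IntermediateField.AdjoinSimple.algebraMap_gen] at this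
    exact this.symm
  have hsurj : Function.Surjective ψ := by
    intro y
    obtain ⟨w, hw⟩ := mem_adjoin_poly hγ y.2
    refine ⟨w, (algebraMap L ℂ).injective ?_⟩
    exact (congrArg (fun F : ℚ[X] →+* ℂ => F w) hψ).trans hw
  obtain ⟨PP, h1, h2, h3⟩ := lifts_and_natDegree_eq_and_monic
    (map_surjective ψ hsurj (minpoly L z)) (minpoly.monic hzL)
  refine ⟨PP, h3, ?_, ?_⟩
  · rw [h2, ← IntermediateField.adjoin.finrank hγ, ← IntermediateField.adjoin.finrank hzL,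
      Module.finrank_mul_finrank, ← IntermediateField.adjoin.finrank hz]
    have h4 : (IntermediateField.adjoin L {z}).restrictScalars ℚ =
        IntermediateField.adjoin ℚ {z} := by
      refine (IntermediateField.adjoin_simple_adjoin_simple ℚ γ z).trans ?_
      refine le_antisymm ?_ (IntermediateField.adjoin.mono _ _ _ (by simp))
      rw [IntermediateField.adjoin_le_iff]
      rintro x (rfl | rfl)
      · exact adjoin_aeval_le z u (IntermediateField.mem_adjoin_simple_self ℚ _)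
      · exact IntermediateField.mem_adjoin_simple_self ℚ _
    rw [← h4]
    rfl
  · rw [← hψ, ← eval₂_map, h1, ← aeval_def, minpoly.aeval]

/-- the block structure of an imprimitive polynomial -/
theorem imp_struct {n : ℕ} {f : ℤ[X]} (hm : f.Monic) (hn : f.natDegree = n) (hi : Irr f)
    (hp : ¬ Prim f) : ∃ b m : ℕ, 2 ≤ b ∧ 2 ≤ m ∧ b * m = n ∧ ∃ (P : Fin b → ℂ[X]) (k₀ : Fin m),
      (∀ j, (P j).Monic ∧ (P j).natDegree = m) ∧ up ℂ f = ∏ j, P j ∧
      Cj (fun j => (P j).coeff k₀) ∧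
      ∀ k, InK (fun j => (P j).coeff k₀) fun j => (P j).coeff k := by
  classical
  simp only [Prim, not_forall] at hp
  obtain ⟨q, hq0, hqn, z, w, hz, hw, hq, hzw⟩ := hp
  have hup : ∀ x : ℂ, aeval x f = 0 → aeval x (up ℚ f) = 0 := fun x hx => by
    rwa [up, ← algebraMap_int_eq, aeval_map_algebraMap]
  have hmin : minpoly ℚ z = up ℚ f :=
    (minpoly.eq_of_irreducible_of_monic hi (hup z hz) (hm.map _)).symm
  have hdeg : (minpoly ℚ z).natDegree = n := by rw [hmin, hm.natDegree_map, hn]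
  have hzi : IsIntegral ℚ z := ⟨up ℚ f, hm.map _, by rw [← aeval_def]; exact hup z hz⟩
  have hlow : ∀ g : ℚ[X], g ≠ 0 → aeval z g = 0 → n ≤ g.natDegree := fun g h0 hg =>
    hdeg ▸ natDegree_le_of_dvd (minpoly.dvd ℚ z hg) h0
  have hall : ∀ (x : ℂ) (g : ℚ[X]), aeval x (up ℚ f) = 0 → aeval z g = 0 → aeval x g = 0 := by
    intro x g hx hg
    obtain ⟨c, hc⟩ := minpoly.dvd ℚ z hg
    rw [hc, hmin, map_mul, hx, zero_mul]
  have hq1 : ∀ t : ℚ, aeval z q ≠ algebraMap ℚ ℂ t := by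
    intro t ht
    have h1 : (q - C t).natDegree = q.natDegree := natDegree_sub_C
    have := hlow (q - C t) (fun h => by rw [h] at h1; simp at h1; omega)
      (by rw [map_sub, aeval_C, ht, sub_self])
    omega
  have hq2 : (minpoly ℚ (aeval z q)).natDegree < n := by
    by_contra hc
    have := IntermediateField.adjoin.finiteDimensional hzi
    have h1 := IntermediateField.eq_of_le_of_finrank_le (adjoin_aeval_le z q) (by
      rw [IntermediateField.adjoin.finrank (isIntegral_aeval hzi q),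
        IntermediateField.adjoin.finrank hzi, hdeg]; omega)
    obtain ⟨v, hv⟩ := mem_adjoin_poly (isIntegral_aeval hzi q)
      (h1 ▸ IntermediateField.mem_adjoin_simple_self ℚ z)
    have h2 := hall w (X - v.comp q) (hup w hw) (by rw [map_sub, aeval_comp, hv, aeval_X, sub_self])
    rw [map_sub, aeval_comp, ← hq, hv, aeval_X, sub_eq_zero] at h2
    exact hzw h2.symm
  have hex : ∃ d, ∃ u : ℚ[X], (∀ t : ℚ, aeval z u ≠ algebraMap ℚ ℂ t) ∧
      (minpoly ℚ (aeval z u)).natDegree = d := ⟨_, q, hq1, rfl⟩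
  obtain ⟨u, hu1, hu2⟩ := Nat.find_spec hex
  have hfind : ∀ v : ℚ[X], (∀ t : ℚ, aeval z v ≠ algebraMap ℚ ℂ t) →
      Nat.find hex ≤ (minpoly ℚ (aeval z v)).natDegree := fun v hv => Nat.find_min' hex ⟨v, hv, rfl⟩
  generalize Nat.find hex = b at hu2 hfind
  have hbn : b < n := (hfind q hq1).trans_lt hq2
  have hγ := isIntegral_aeval hzi u
  have hb2 : 2 ≤ b := by
    rw [← hu2, minpoly.two_le_natDegree_iff hγ]
    rintro ⟨t, ht⟩
    exact hu1 t ht.symm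
  obtain ⟨PP, hP1, hP2, hP3⟩ := imp_rel hzi u
  rw [hu2, hdeg] at hP2
  obtain ⟨γ, hγr⟩ := exists_roots (n := b) ((minpoly ℚ (aeval z u)).map (algebraMap ℚ ℂ))
    ((minpoly.monic hγ).map _) (by rw [natDegree_map, hu2])
  have hcj : Cj γ := ⟨_, minpoly.irreducible hγ, hγr⟩
  have hroot : ∀ x : ℂ, aeval x (up ℚ f) = 0 → ∃ j, aeval x u = γ j := by
    intro x hx
    rw [← hγr.eval_eq_zero_iff, eval_map_algebraMap, ← aeval_comp]
    exact hall x _ hx (by rw [aeval_comp, minpoly.aeval])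
  let P : Fin b → ℂ[X] := fun j => PP.map (aeval (γ j) : ℚ[X] →ₐ[ℚ] ℂ).toRingHom
  have hPm : ∀ j, (P j).Monic ∧ (P j).natDegree = PP.natDegree :=
    fun j => ⟨hP1.map _, hP1.natDegree_map _⟩
  have hPc : ∀ j k, (P j).coeff k = aeval (γ j) (PP.coeff k) := fun j k => coeff_map _ _
  have hT : ∀ x : ℂ, aeval x (PP.eval₂ (compRingHom u) X) =
      PP.eval₂ (aeval (aeval x u) : ℚ[X] →ₐ[ℚ] ℂ).toRingHom x := by
    intro x
    have h1 := hom_eval₂ PP (compRingHom u) (aeval x : ℚ[X] →ₐ[ℚ] ℂ).toRingHom X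
    have h2 : (aeval x : ℚ[X] →ₐ[ℚ] ℂ).toRingHom.comp (compRingHom u) =
        (aeval (aeval x u) : ℚ[X] →ₐ[ℚ] ℂ).toRingHom := RingHom.ext fun g => aeval_comp x
    rw [h2] at h1
    simpa using h1
  have hPz : ∀ x : ℂ, aeval x (up ℚ f) = 0 → ∀ j, aeval x u = γ j → (P j).eval x = 0 := by
    intro x hx j hj
    rw [eval_map, ← hj, ← hT]
    exact hall x _ hx (by rw [hT, hP3])
  obtain ⟨θ, hθ⟩ := exists_roots (n := n) (up ℂ f) (hm.map _) (by rw [hm.natDegree_map, hn])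
  have hθ0 : ∀ i, aeval (θ i) (up ℚ f) = 0 := fun i => by
    obtain ⟨c, -, hc⟩ := hi.cj hθ
    refine root_of_map ?_ i
    rw [up, Polynomial.map_map, RingHom.ext_int (RingHom.comp _ _) (Int.castRingHom ℂ)]
    exact hθ
  have hprod : up ℂ f = ∏ j, P j := by
    symm
    refine eq_of_monic_of_dvd_of_natDegree_le (hm.map _)
      (monic_prod_of_monic _ _ fun j _ => (hPm j).1) ?_ ?_
    · rw [show up ℂ f = _ from hθ]
      refine prod_dvd_of_coprime
        (fun i _ j _ hij => pairwise_coprime_X_sub_C (hθ.injective hi) hij)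
        fun i _ => dvd_iff_isRoot.2 ?_
      obtain ⟨j, hj⟩ := hroot _ (hθ0 i)
      rw [IsRoot.def, eval_prod]
      exact prod_eq_zero (mem_univ j) (hPz _ (hθ0 i) j hj)
    · rw [natDegree_prod_of_monic _ _ fun j _ => (hPm j).1, hm.natDegree_map, hn, ← hP2]
      simp [(hPm _).2]
  have hm2 : 2 ≤ PP.natDegree := by
    by_contra hc
    have : b * PP.natDegree ≤ b * 1 := Nat.mul_le_mul_left b (by omega)
    omega
  have hmn : PP.natDegree < n := by nlinarith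
  obtain ⟨j₀, hj₀⟩ := hroot z (hup z hz)
  have hk : ∃ k, ∀ t : ℚ, (P j₀).coeff k ≠ algebraMap ℚ ℂ t := by
    by_contra hc
    push Not at hc
    obtain ⟨g, h1, h2, h3⟩ := lifts_and_natDegree_eq_and_monic (f := algebraMap ℚ ℂ)
      ((lifts_iff_coeff_lifts _).2 fun k => (hc k).imp fun t ht => ht.symm) (hPm j₀).1
    have := hlow g h3.ne_zero
      (by rw [← eval_map_algebraMap, h1]; exact hPz z (hup z hz) j₀ hj₀)
    rw [h2, (hPm j₀).2] at this
    omega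
  obtain ⟨k, hk⟩ := hk
  have hkm : k < PP.natDegree := by
    by_contra hc
    rcases (not_lt.1 hc).eq_or_lt with h | h
    · exact hk 1 (by rw [← h, ← (hPm j₀).2, (hPm j₀).1.coeff_natDegree, map_one])
    · exact hk 0 (by rw [coeff_eq_zero_of_natDegree_lt ((hPm j₀).2 ▸ h), map_zero])
  have hin : ∀ l, InK γ fun j => (P j).coeff l := fun l => ⟨PP.coeff l, fun j => hPc j l⟩
  have he : (P j₀).coeff k = aeval z ((PP.coeff k).comp u) := by rw [aeval_comp, hj₀, hPc]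
  obtain ⟨h1, h2⟩ := hcj.gen (hin k) j₀ (by
    show b ≤ (minpoly ℚ ((P j₀).coeff k)).natDegree
    rw [he]
    exact hfind _ (he ▸ hk))
  exact ⟨b, PP.natDegree, hb2, hm2, hP2, P, ⟨k, hkm⟩, hPm, hprod, h1, fun l => h2.trans (hin l)⟩

end Pool.Agent.VW
end

-- part Pool.Agent.P.MP_b0ea37_nt.WImp
section

namespace Pool.Agent.VW

open Polynomial

theorem up_inj {f g : ℤ[X]} (h : up ℂ f = up ℂ g) : f = g :=
  map_injective _ (Int.castRingHom ℂ).injective_int h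

/-- counting polynomials with a given block shape -/
theorem cnt_imp (b m : ℕ) (k₀ : Fin m) : ∃ C : ℝ, 0 ≤ C ∧ ∀ Z : ℝ, 1 ≤ Z →
    Cnt (fun f : ℤ[X] => f.Monic ∧ (up ℂ f).mahlerMeasure ≤ Z ∧ ∃ P : Fin b → ℂ[X],
      (∀ j, (P j).Monic ∧ (P j).natDegree = m) ∧ up ℂ f = ∏ j, P j ∧
      Cj (fun j => (P j).coeff k₀) ∧ ∀ k, InK (fun j => (P j).coeff k₀) fun j => (P j).coeff k)
      (C * (Z ^ (b + (m - 1)) * Z ^ (1 / 2 : ℝ))) := by
  classical
  obtain ⟨C, hC, hd⟩ := cnt_dyadic_vec b (1 / 2) (by norm_num)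
  set A : ℝ := (19 * 2 ^ (m + 1)) ^ b with hA
  have hA1 : 1 ≤ A := one_le_pow₀ (by have := one_le_pow₀ (n := m + 1) (one_le_two (α := ℝ)); linarith)
  refine ⟨C * ((3 * 2 ^ b * A) ^ b * ((b : ℝ) ^ b * A ^ (m - 1))), by positivity, fun Z hZ => ?_⟩
  have hM1 : ∀ k : ℕ, (1 : ℝ) ≤ 2 ^ (m + 1) * 2 ^ k := fun k =>
    one_le_mul_of_one_le_of_one_le (one_le_pow₀ one_le_two) (one_le_pow₀ one_le_two)
  have hprod : ∀ k : Fin b → ℕ, ∏ j, (2 : ℝ) ^ k j ≤ Z →
      ∏ j, (3 + 16 * (2 ^ (m + 1) * (2 : ℝ) ^ k j)) ≤ A * Z := by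
    intro k hk
    calc ∏ j, (3 + 16 * (2 ^ (m + 1) * (2 : ℝ) ^ k j))
        ≤ ∏ j, (19 * 2 ^ (m + 1) * (2 : ℝ) ^ k j) :=
          Finset.prod_le_prod (fun j _ => by positivity) fun j _ => by nlinarith [hM1 (k j)]
      _ = A * ∏ j, (2 : ℝ) ^ k j := by rw [Finset.prod_mul_distrib]; simp [hA]
      _ ≤ A * Z := mul_le_mul_of_nonneg_left hk (by positivity)
  have h4 : ∀ k : Fin b → ℕ, ∏ j, (2 : ℝ) ^ k j ≤ Z → ∀ α : Fin b → ℂ,
      Cnt (fun s : Fin m → Fin b → ℂ => ∀ i, if i = k₀ then s i = α else Cj α ∧ InK α (s i) ∧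
        Intg (s i) ∧ ∀ j, ‖s i j‖ ≤ 2 ^ (m + 1) * 2 ^ k j) ((A * Z) ^ (m - 1)) := by
    intro k hk α
    refine (Cnt.pi (P := fun i β => if i = k₀ then β = α else Cj α ∧ InK α β ∧ Intg β ∧
      ∀ j, ‖β j‖ ≤ 2 ^ (m + 1) * 2 ^ k j) (B := fun i => if i = k₀ then 1 else A * Z)
      fun i => ?_).mono (fun _ h => h) (le_of_eq ?_)
    · by_cases hi : i = k₀
      · simp only [if_pos hi]
        exact Cnt.one fun x y hx hy => hx.trans hy.symm
      · simp only [if_neg hi]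
        by_cases hc : Cj α
        · exact (hc.cnt_box _ fun j => by positivity).mono (fun _ h => h.2) (hprod k hk)
        · exact Cnt.empty (fun _ h => hc h.1) (by positivity)
    · rw [← Finset.mul_prod_erase _ _ (Finset.mem_univ k₀), if_pos rfl, one_mul,
        Finset.prod_congr rfl fun i hi => if_neg (Finset.mem_erase.1 hi).1, Finset.prod_const,
        Finset.card_erase_of_mem (Finset.mem_univ _)]
      simp
  have h5 := (hd Z hZ).fibre (by positivity) fun k hk =>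
    (cnt_monic b (2 ^ b * (A * Z)) (by positivity)).fibre (by positivity) fun c _ =>
      (cnt_numberings (b := b) (up ℂ c)).fibre (by positivity) fun α _ => h4 k hk α
  refine (h5.rel (fun f s => up ℂ f = ∏ j, (X ^ m + ∑ i : Fin m, Polynomial.C (s i j) * X ^ (i : ℕ)))
    ?_ fun f g s _ _ h h' => up_inj (h.trans h'.symm)).mono (fun _ h => h) ?_
  · rintro f ⟨hm, hZf, P, hP, hf, hcj, hin⟩
    have hμ : ∀ j, 1 ≤ (P j).mahlerMeasure := fun j =>
      one_le_mahlerMeasure_of_one_le_norm_leadingCoeff (by rw [(hP j).1.leadingCoeff]; simp)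
    choose k hk1 hk2 using fun j => exists_dyadic _ (hμ j)
    have hk : ∏ j, (2 : ℝ) ^ k j ≤ Z := by
      refine le_trans (Finset.prod_le_prod (fun j _ => by positivity) fun j _ => hk1 j) ?_
      refine le_trans (le_of_eq ?_) hZf
      rw [hf, Finset.prod_eq_multiset_prod _ P, prod_mahlerMeasure_eq_mahlerMeasure_prod,
        Multiset.map_map]
      rfl
    have hco : ∀ i j, ‖(P j).coeff i‖ ≤ 2 ^ (m + 1) * 2 ^ k j := by
      intro i j
      refine (norm_coeff_le_choose_mul_mahlerMeasure i (P j)).trans ?_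
      have h1 : (((P j).natDegree.choose i : ℕ) : ℝ) ≤ 2 ^ m := by
        rw [(hP j).2]; exact_mod_cast Nat.choose_le_two_pow m i
      calc _ ≤ 2 ^ m * (2 * 2 ^ k j : ℝ) :=
            mul_le_mul h1 (hk2 j).le (by linarith [hμ j]) (by positivity)
        _ = _ := by ring
    have hint : ∀ i, Intg fun j => (P j).coeff i := fun i j =>
      isIntegral_coeff_of_dvd f (P j) hm (hP j).1
        (by rw [algebraMap_int_eq, show f.map (Int.castRingHom ℂ) = _ from hf]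
            exact Finset.dvd_prod_of_mem P (Finset.mem_univ j)) i
    obtain ⟨c, hc1, hc2, hc3⟩ := hcj.char_int (InK.refl _) (hint k₀)
    refine ⟨fun i j => (P j).coeff i, ⟨k, hk, c, ⟨hc1, hc2, ?_⟩, _, hc3, fun i => ?_⟩, ?_⟩
    · rw [← sup_up_complex, show up ℂ c = _ from hc3]
      refine (sup_prod_X_sub_C _ _).trans ?_
      rw [Finset.card_univ, Fintype.card_fin]
      refine mul_le_mul_of_nonneg_left (le_trans ?_ (hprod k hk)) (by positivity)
      refine Finset.prod_le_prod (fun j _ => by positivity) fun j _ => max_le ?_ ?_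
      · linarith [hM1 (k j)]
      · linarith [hM1 (k j), hco k₀ j]
    · split_ifs with hi
      · rw [hi]
      · exact ⟨hcj, hin i, hint i, hco i⟩
    · rw [hf]
      refine Finset.prod_congr rfl fun j _ => ?_
      rw [Fin.sum_univ_eq_sum_range (fun i => Polynomial.C ((P j).coeff i) * X ^ i), ← (hP j).2]
      exact (hP j).1.as_sum
  · have h6 : 2 * (2 ^ b * (A * Z)) + 1 ≤ 3 * 2 ^ b * A * Z := by
      have : (1 : ℝ) ≤ 2 ^ b * (A * Z) := one_le_mul_of_one_le_of_one_le (one_le_pow₀ one_le_two)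
        (one_le_mul_of_one_le_of_one_le hA1 hZ)
      linarith
    calc _ ≤ C * Z ^ (1 / 2 : ℝ) * ((3 * 2 ^ b * A * Z) ^ b * ((b : ℝ) ^ b * (A * Z) ^ (m - 1))) := by
          gcongr
      _ = _ := by rw [mul_pow _ Z, mul_pow A Z, pow_add]; ring

theorem Box.mahler_le {n : ℕ} {H : ℝ} {f : ℤ[X]} (h : Box n H f) :
    (up ℂ f).mahlerMeasure ≤ (n + 1) * H := by
  obtain ⟨hm, hn, -, hH⟩ := h
  refine (mahlerMeasure_le_sqrt_natDegree_add_one_mul_supNorm _).trans ?_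
  rw [hm.natDegree_map, hn, sup_up_complex]
  refine mul_le_mul ?_ hH (supNorm_nonneg _) (by positivity)
  rw [Real.sqrt_le_left (by positivity)]
  nlinarith [(Nat.cast_nonneg n : (0 : ℝ) ≤ n)]

/-- 0.2 -/
theorem ps_imprim (n : ℕ) (hn : 5 ≤ n) : PS n fun _ f => Irr f ∧ ¬ Prim f := by
  have key : ∀ b m : ℕ, 2 ≤ b → 2 ≤ m → b * m = n → ∀ k₀ : Fin m, PS n fun _ f =>
      ∃ P : Fin b → ℂ[X], (∀ j, (P j).Monic ∧ (P j).natDegree = m) ∧ up ℂ f = ∏ j, P j ∧
      Cj (fun j => (P j).coeff k₀) ∧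
      ∀ k, InK (fun j => (P j).coeff k₀) fun j => (P j).coeff k := by
    intro b m hb hm hbm k₀
    obtain ⟨C, hC, h⟩ := cnt_imp b m k₀
    have he : b + (m - 1) ≤ n - 2 := by
      obtain ⟨b, rfl⟩ := Nat.exists_eq_add_of_le hb
      obtain ⟨m, rfl⟩ := Nat.exists_eq_add_of_le hm
      have h1 : (2 + b) * (2 + m) = 4 + 2 * b + 2 * m + b * m := by ring
      have h2 : b = 0 → m = 0 → b * m = 0 := fun h _ => by rw [h, zero_mul]
      omega
    refine PS.of_lt ((n : ℝ) - 3 / 2) (C * ((n : ℝ) + 1) ^ ((n : ℝ) - 3 / 2)) 1 (by linarith)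
      fun H hH => ?_
    have hZ : 1 ≤ ((n : ℝ) + 1) * H :=
      one_le_mul_of_one_le_of_one_le (by linarith [(Nat.cast_nonneg n : (0 : ℝ) ≤ n)]) hH
    refine (h _ hZ).mono (fun f hf => ⟨hf.1.1, hf.1.mahler_le, hf.2⟩) ?_
    rw [mul_assoc, ← Real.mul_rpow (by positivity) (by linarith), ← Real.rpow_natCast,
      ← Real.rpow_add (by linarith)]
    refine mul_le_mul_of_nonneg_left (Real.rpow_le_rpow_of_exponent_le hZ ?_) hC
    have h3 : ((b + (m - 1) : ℕ) : ℝ) + 2 ≤ n := by exact_mod_cast (by omega : b + (m - 1) + 2 ≤ n)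
    linarith
  have h := PS.fin (n := n) (Finset.Icc 2 n) fun b hb =>
    PS.fin (n := n) ((Finset.Icc 2 n).filter fun m => b * m = n) fun m hm =>
      PS.fin (n := n) (Finset.univ : Finset (Fin m)) fun k₀ _ =>
        key b m (Finset.mem_Icc.1 hb).1 (Finset.mem_Icc.1 (Finset.mem_filter.1 hm).1).1
          (Finset.mem_filter.1 hm).2 k₀
  refine h.mono 1 fun H _ f hf hi => ?_
  obtain ⟨b, m, hb, hm, hbm, P, k₀, hP⟩ := imp_struct hf.1 hf.2.1 hi.1 hi.2
  refine ⟨b, Finset.mem_Icc.2 ⟨hb, by nlinarith⟩, m, Finset.mem_filter.2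
    ⟨Finset.mem_Icc.2 ⟨hm, by nlinarith⟩, hbm⟩, k₀, Finset.mem_univ _, P, hP⟩

end Pool.Agent.VW
end

-- part Pool.Agent.P.MP_b0ea37_nt.WHerm
section

namespace Pool.Agent.VW

open Polynomial

open Matrix

/-- the value of the form at an integer vector -/
def whermQ {d : ℕ} (G : Matrix (Fin d) (Fin d) ℝ) (x : Fin d → ℤ) : ℝ :=
  (fun j => (x j : ℝ)) ⬝ᵥ G *ᵥ fun j => (x j : ℝ)

section
variable {d : ℕ} {G : Matrix (Fin d) (Fin d) ℝ}

theorem wherm_conj (U : Matrix (Fin d) (Fin d) ℝ) (x : Fin d → ℝ) :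
    x ⬝ᵥ (U * G * Uᵀ) *ᵥ x = (x ᵥ* U) ⬝ᵥ G *ᵥ (x ᵥ* U) := by
  rw [← mulVec_mulVec, ← mulVec_mulVec, dotProduct_mulVec, mulVec_transpose]

theorem wherm_diag (U : Matrix (Fin d) (Fin d) ℤ) (i : Fin d) :
    (U.map (Int.cast : ℤ → ℝ) * G * (U.map (Int.cast : ℤ → ℝ))ᵀ) i i = whermQ G (U i) := by
  rw [Matrix.mul_assoc]
  simp [whermQ, mul_apply, dotProduct, mulVec]

theorem wherm_mul (U V : Matrix (Fin d) (Fin d) ℤ) (i : Fin d) :
    whermQ (V.map (Int.cast : ℤ → ℝ) * G * (V.map (Int.cast : ℤ → ℝ))ᵀ) (U i) =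
      whermQ G ((U * V) i) := by
  have e : (fun j => (U i j : ℝ)) ᵥ* V.map (Int.cast : ℤ → ℝ) = fun j => ((U * V) i j : ℝ) := by
    ext j
    simp [vecMul, dotProduct, mul_apply]
  rw [whermQ, wherm_conj, e, whermQ]

theorem wherm_perm {U : Matrix (Fin d) (Fin d) ℤ} (hU : IsUnit U.det) (σ : Equiv.Perm (Fin d)) :
    IsUnit (U.submatrix σ id).det := by
  rw [det_permute]
  exact (Units.isUnit _).mul hU

theorem wherm_det {U : Matrix (Fin d) (Fin d) ℤ} (hU : IsUnit U.det) :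
    (U.map (Int.cast : ℤ → ℝ)).det ^ 2 = 1 := by
  have e : (U.map (Int.cast : ℤ → ℝ)).det = (U.det : ℝ) :=
    ((Int.castRingHom ℝ).map_det U).symm
  rw [e]
  rcases Int.isUnit_iff.1 hU with h | h <;> simp [h]

theorem wherm_pos (hG : G.PosDef) {x : Fin d → ℝ} (hx : x ≠ 0) : 0 < x ⬝ᵥ G *ᵥ x := by
  simpa using hG.dotProduct_mulVec_pos hx

theorem wherm_low (hG : G.PosDef) : ∃ c : ℝ, 0 < c ∧ ∀ x : Fin d → ℤ, x ≠ 0 → c ≤ whermQ G x := by
  obtain ⟨c, hc, h⟩ := (isCompact_sphere (0 : Fin d → ℝ) 1).exists_forall_le'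
    (f := fun x => x ⬝ᵥ G *ᵥ x) (a := 0) (by fun_prop) (fun x hx => wherm_pos hG (by
      rintro rfl
      simp at hx))
  refine ⟨c, hc, fun x hx => ?_⟩
  obtain ⟨i, hi⟩ := Function.ne_iff.1 hx
  set y : Fin d → ℝ := fun j => (x j : ℝ) with hy
  have h1 : 1 ≤ ‖y‖ := le_trans (by
    simp only [hy, Real.norm_eq_abs]
    exact_mod_cast Int.one_le_abs hi) (norm_le_pi_norm y i)
  have h0 : 0 < ‖y‖ := by linarith
  have h2 := h (‖y‖⁻¹ • y) (by
    rw [mem_sphere_zero_iff_norm, norm_smul, norm_inv, norm_norm, inv_mul_cancel₀ h0.ne'])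
  simp only [mulVec_smul, dotProduct_smul, smul_dotProduct, smul_eq_mul] at h2
  rw [le_inv_mul_iff₀ h0, le_inv_mul_iff₀ h0] at h2
  refine le_trans ?_ h2
  nlinarith [mul_le_mul_of_nonneg_right h1 hc.le]

end

theorem wherm_step {d : ℕ} {G : Matrix (Fin (d + 1)) (Fin (d + 1)) ℝ} (hG : G.PosDef) :
    ∃ (G' : Matrix (Fin d) (Fin d) ℝ) (μ : (Fin d → ℝ) → ℝ), G'.PosDef ∧ G.det = G 0 0 * G'.det ∧
      ∀ (t : ℝ) (y : Fin d → ℝ), (Fin.cons t y : Fin (d + 1) → ℝ) ⬝ᵥ G *ᵥ Fin.cons t y =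
        G 0 0 * (t + μ y) ^ 2 + y ⬝ᵥ G' *ᵥ y := by
  have h0 : 0 < G 0 0 := hG.diag_pos
  have hs : ∀ i j, G i j = G j i := fun i j => by simpa using (hG.isHermitian.apply i j).symm
  let G' : Matrix (Fin d) (Fin d) ℝ :=
    Matrix.of fun i j => G i.succ j.succ - G 0 i.succ / G 0 0 * G 0 j.succ
  let μ : (Fin d → ℝ) → ℝ := fun y => (∑ j, G 0 j.succ * y j) / G 0 0
  have key : ∀ (t : ℝ) (y : Fin d → ℝ), (Fin.cons t y : Fin (d + 1) → ℝ) ⬝ᵥ G *ᵥ Fin.cons t y =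
      G 0 0 * (t + μ y) ^ 2 + y ⬝ᵥ G' *ᵥ y := by
    intro t y
    have e1 : y ⬝ᵥ G' *ᵥ y = ∑ i, y i * ∑ j, G i.succ j.succ * y j -
        (∑ j, G 0 j.succ * y j) * (∑ j, G 0 j.succ * y j) / G 0 0 := by
      rw [Finset.sum_mul_sum]
      simp only [dotProduct, mulVec, G', of_apply, sub_mul, Finset.sum_sub_distrib, mul_sub,
        Finset.sum_div, Finset.mul_sum]
      congr 1
      exact Finset.sum_congr rfl fun i _ => Finset.sum_congr rfl fun j _ => by ring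
    have e2 : ∑ i, y i * (G i.succ 0 * t) = t * ∑ j, G 0 j.succ * y j := by
      rw [Finset.mul_sum]
      exact Finset.sum_congr rfl fun i _ => by rw [hs i.succ 0]; ring
    rw [e1]
    simp only [dotProduct, mulVec, Fin.sum_univ_succ, Fin.cons_zero, Fin.cons_succ, mul_add,
      Finset.sum_add_distrib, e2, μ]
    field_simp
    ring
  refine ⟨G', μ, PosDef.of_dotProduct_mulVec_pos ?_ fun y hy => ?_, ?_, key⟩
  · ext i j
    simp only [G', conjTranspose_apply, of_apply, star_trivial, hs j.succ i.succ]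
    ring
  · have := wherm_pos hG (x := Fin.cons (-μ y) y) fun h => hy (funext fun j => congrFun h j.succ)
    rw [key] at this
    simpa using this
  · let B : Matrix (Fin (d + 1)) (Fin (d + 1)) ℝ :=
      Matrix.of (Fin.cons (G 0) fun i j => G i.succ j - G 0 i.succ / G 0 0 * G 0 j)
    have e : G.det = B.det := by
      refine det_eq_of_forall_row_eq_smul_add_const
        (Fin.cons 0 fun i => G 0 i.succ / G 0 0) 0 rfl fun i j => ?_
      induction i using Fin.cases <;> simp [B]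
    rw [e, det_succ_column_zero, Fin.sum_univ_succ, Finset.sum_eq_zero fun i _ => by
      simp [B, hs i.succ 0, h0.ne']]
    simp only [Fin.val_zero, pow_zero, one_mul, add_zero, Fin.succAbove_zero]
    rfl

theorem wherm_main (d : ℕ) : ∃ C : ℝ, 1 ≤ C ∧ ∀ G : Matrix (Fin d) (Fin d) ℝ, G.PosDef →
    ∃ U : Matrix (Fin d) (Fin d) ℤ, IsUnit U.det ∧ ∏ i, whermQ G (U i) ≤ C * G.det := by
  induction d with
  | zero => exact ⟨1, le_rfl, fun G _ => ⟨1, by simp, by simp⟩⟩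
  | succ d ih =>
    obtain ⟨C, hC, ih⟩ := ih
    refine ⟨2 ^ d * C, one_le_mul_of_one_le_of_one_le (one_le_pow₀ (by norm_num)) hC,
      fun G hG => ?_⟩
    obtain ⟨c, hc, hlow⟩ := wherm_low hG
    let A : Set ℝ := {t | ∃ U : Matrix (Fin (d + 1)) (Fin (d + 1)) ℤ, IsUnit U.det ∧
      t = whermQ G (U 0)}
    have hA : ∀ t ∈ A, c ≤ t := by
      rintro t ⟨U, hU, rfl⟩
      exact hlow _ fun h => hU.ne_zero (det_eq_zero_of_row_eq_zero 0 (congrFun h))
    have hne : A.Nonempty := ⟨_, 1, by simp, rfl⟩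
    have hinf : c ≤ sInf A := le_csInf hne hA
    obtain ⟨_, ⟨V, hV, rfl⟩, hlt⟩ := exists_lt_of_csInf_lt hne
      (show sInf A < 2 * sInf A by linarith)
    set G₀ := V.map (Int.cast : ℤ → ℝ) * G * (V.map (Int.cast : ℤ → ℝ))ᵀ with hG₀
    have hV2 := wherm_det hV
    have hdet : G₀.det = G.det := by
      rw [hG₀, det_mul, det_mul, det_transpose]
      linear_combination G.det * hV2
    have hpd : G₀.PosDef := by
      have := hG.mul_mul_conjTranspose_same (B := V.map (Int.cast : ℤ → ℝ))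
        (vecMul_injective_iff_isUnit.2 ((isUnit_iff_isUnit_det _).2
          (IsUnit.of_pow_eq_one hV2 two_ne_zero)))
      rwa [conjTranspose_eq_transpose_of_trivial] at this
    have hmin : ∀ U : Matrix (Fin (d + 1)) (Fin (d + 1)) ℤ, IsUnit U.det → ∀ i,
        G₀ 0 0 ≤ 2 * whermQ G₀ (U i) := by
      intro U hU i
      have h1 : sInf A ≤ whermQ G ((U * V) i) := csInf_le ⟨c, hA⟩
        ⟨(U * V).submatrix (Equiv.swap 0 i) id,
          wherm_perm (by rw [det_mul]; exact hU.mul hV) _, by congr 1⟩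
      rw [hG₀, wherm_diag, wherm_mul]
      linarith
    obtain ⟨G', μ, hG', hd', key⟩ := wherm_step hpd
    obtain ⟨U', hU', hp⟩ := ih G' hG'
    let U : Matrix (Fin (d + 1)) (Fin (d + 1)) ℤ := Matrix.of (Fin.cons (Fin.cons 1 0)
      fun i => Fin.cons (-round (μ fun j => (U' i j : ℝ))) (U' i))
    have hU : IsUnit U.det := by
      rw [det_succ_row_zero, Fin.sum_univ_succ, Finset.sum_eq_zero fun i _ => by simp [U]]
      simp only [Fin.val_zero, pow_zero, one_mul, add_zero, Fin.succAbove_zero]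
      exact isUnit_one.mul hU'
    have h00 : 0 < G₀ 0 0 := hpd.diag_pos
    have e0 : whermQ G₀ (U 0) = G₀ 0 0 := by
      simp [whermQ, U, dotProduct, mulVec, Fin.sum_univ_succ]
    have e1 : ∀ i : Fin d, 0 ≤ whermQ G₀ (U i.succ) ∧
        whermQ G₀ (U i.succ) ≤ 2 * whermQ G' (U' i) := by
      intro i
      have h1 := hmin U hU i.succ
      have h2 : (fun j => (U i.succ j : ℝ)) = Fin.cons
          (-(round (μ fun j => (U' i j : ℝ)) : ℝ)) fun j => (U' i j : ℝ) := by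
        ext j
        induction j using Fin.cases <;> simp [U]
      have h3 := key (-(round (μ fun j => (U' i j : ℝ)) : ℝ)) fun j => (U' i j : ℝ)
      rw [← h2, ← whermQ, ← whermQ] at h3
      have h4 := abs_le.1 (abs_sub_round (μ fun j => (U' i j : ℝ)))
      have h5 : (-(round (μ fun j => (U' i j : ℝ)) : ℝ) + μ fun j => (U' i j : ℝ)) ^ 2 ≤ 1 / 4 := by
        nlinarith [h4.1, h4.2]
      have h6 := mul_le_mul_of_nonneg_left h5 h00.le
      exact ⟨by linarith, by linarith⟩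
    refine ⟨U * V, by rw [det_mul]; exact hU.mul hV, ?_⟩
    simp only [← wherm_mul, ← hG₀]
    rw [Fin.prod_univ_succ, e0, ← hdet, hd']
    have h7 : ∏ i : Fin d, whermQ G₀ (U i.succ) ≤ 2 ^ d * (C * G'.det) := by
      refine (Finset.prod_le_prod (fun i _ => (e1 i).1) fun i _ => (e1 i).2).trans ?_
      rw [Finset.prod_mul_distrib, Finset.prod_const, Finset.card_univ, Fintype.card_fin]
      gcongr
    exact (mul_le_mul_of_nonneg_left h7 h00.le).trans (le_of_eq (by ring))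

/-- Hermite reduction -/
theorem hermite (d : ℕ) : ∃ C : ℝ, 1 ≤ C ∧ ∀ G : Matrix (Fin d) (Fin d) ℝ, G.PosDef →
    ∃ U : Matrix (Fin d) (Fin d) ℤ, IsUnit U.det ∧
      (∏ i, (U.map (Int.cast : ℤ → ℝ) * G * (U.map (Int.cast : ℤ → ℝ))ᵀ) i i ≤ C * G.det) ∧
      Monotone fun i => (U.map (Int.cast : ℤ → ℝ) * G * (U.map (Int.cast : ℤ → ℝ))ᵀ) i i := by
  obtain ⟨C, hC, h⟩ := wherm_main d
  refine ⟨C, hC, fun G hG => ?_⟩
  obtain ⟨U, hU, hp⟩ := h G hG
  let σ := Tuple.sort fun i => whermQ G (U i)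
  refine ⟨U.submatrix σ id, wherm_perm hU σ, ?_, ?_⟩
  · simp only [wherm_diag]
    exact (Equiv.prod_comp σ fun i => whermQ G (U i)).le.trans hp
  · simp only [wherm_diag]
    exact Tuple.monotone_sort fun i => whermQ G (U i)

end Pool.Agent.VW
end

-- part Pool.Agent.P.MP_b0ea37_nt.WFMin
section

namespace Pool.Agent.VW

open Polynomial Finset

open MeasureTheory in
/-- Minkowski's theorem on linear forms -/
theorem mink {n : ℕ} (M : Matrix (Fin n) (Fin n) ℝ) (hM : M.det ≠ 0) (ρ : Fin n → ℝ)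
    (hρ : ∀ i, 0 < ρ i) (h : |M.det| < ∏ i, ρ i) :
    ∃ x : Fin n → ℤ, x ≠ 0 ∧ ∀ i, |∑ a, (x a : ℝ) * M a i| < ρ i := by
  classical
  have hli : LinearIndependent ℝ M.row := Matrix.linearIndependent_rows_of_det_ne_zero hM
  let b := basisOfPiSpaceOfLinearIndependent hli
  have hb : (b : Fin n → Fin n → ℝ) = M.row := coe_basisOfPiSpaceOfLinearIndependent hli
  have hc : Countable (Submodule.span ℤ (Set.range b)).toAddSubgroup :=
    inferInstanceAs (Countable (Submodule.span ℤ (Set.range b)))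
  obtain ⟨x, hx0, hx⟩ := exists_ne_zero_mem_lattice_of_measure_mul_two_pow_lt_measure
    (ZSpan.isAddFundamentalDomain' b volume) (s := Set.pi Set.univ fun i => Set.Ioo (-ρ i) (ρ i))
    (fun x hx i _ => ⟨by simpa using (hx i trivial).2, by
      have := (hx i trivial).1
      simp only [Pi.neg_apply]
      linarith⟩)
    (convex_pi fun i _ => convex_Ioo _ _) (by
      rw [ZSpan.volume_fundamentalDomain, Real.volume_pi_Ioo, hb, Module.finrank_fin_fun,
        ← ENNReal.ofReal_prod_of_nonneg fun i _ => by linarith [hρ i],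
        ← ENNReal.ofReal_ofNat, ← ENNReal.ofReal_pow (by norm_num),
        ← ENNReal.ofReal_mul (abs_nonneg _),
        ENNReal.ofReal_lt_ofReal_iff (prod_pos fun i _ => by linarith [hρ i])]
      have h1 : ∏ i, (ρ i - -ρ i) = (∏ i, ρ i) * 2 ^ n := by
        rw [prod_congr rfl fun i _ => (by ring : ρ i - -ρ i = ρ i * 2), prod_mul_distrib]
        simp
      rw [h1]
      exact mul_lt_mul_of_pos_right h (by positivity))
  obtain ⟨c, hc⟩ := (Submodule.mem_span_range_iff_exists_fun ℤ).1 x.2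
  refine ⟨c, fun h0 => hx0 (Subtype.ext ?_), fun i => ?_⟩
  · rw [← hc, h0]; simp
  · have h1 := hx i trivial
    rw [← hc, hb] at h1
    rw [abs_lt]
    simpa [Matrix.row] using h1

/-- real coordinates keep the size of the determinant -/
theorem det_real {n : ℕ} (s : Equiv.Perm (Fin n)) (E : Matrix (Fin n) (Fin n) ℂ)
    (hE : ∀ a i, E a (s i) = starRingEnd ℂ (E a i)) :
    (Matrix.of fun a i => (E a i).re + (E a i).im).det ^ 2 = ‖E.det‖ ^ 2 := by
  have hx : ∀ a c, ∑ i, (E a i).re * (E c i).im = 0 := by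
    intro a c
    have h1 := Equiv.sum_comp s fun i => (E a i).re * (E c i).im
    simp only [hE, Complex.conj_re, Complex.conj_im, mul_neg, sum_neg_distrib] at h1
    linarith
  set Ξ : Matrix (Fin n) (Fin n) ℝ := Matrix.of fun a i => (E a i).re + (E a i).im with hΞ
  have h2 : (Ξ * Ξ.transpose).map Complex.ofRealHom = E * E.conjTranspose := by
    ext a c
    have h3 := hx a c
    have h4 := hx c a
    simp only [Matrix.map_apply, Matrix.mul_apply, Matrix.transpose_apply, hΞ, Matrix.of_apply,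
      Matrix.conjTranspose_apply, Complex.ofRealHom_eq_coe]
    apply Complex.ext
    · simp only [Complex.ofReal_re, Complex.re_sum, Complex.mul_re, Complex.star_def,
        Complex.conj_re, Complex.conj_im]
      have h5 : ∀ i, ((E a i).re + (E a i).im) * ((E c i).re + (E c i).im) =
          ((E a i).re * (E c i).re - (E a i).im * -(E c i).im) +
            ((E a i).re * (E c i).im + (E c i).re * (E a i).im) := fun i => by ring
      simp only [h5, sum_add_distrib, h3, h4, add_zero]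
    · simp only [Complex.ofReal_im, Complex.im_sum, Complex.mul_im, Complex.star_def,
        Complex.conj_re, Complex.conj_im]
      have h5 : ∀ i, (E a i).re * -(E c i).im + (E a i).im * (E c i).re =
          (E c i).re * (E a i).im - (E a i).re * (E c i).im := fun i => by ring
      simp only [h5, sum_sub_distrib, h3, h4, sub_zero]
  have h6 := congrArg Matrix.det h2
  rw [← RingHom.mapMatrix_apply, ← RingHom.map_det, Matrix.det_mul, Matrix.det_mul,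
    Matrix.det_transpose, Matrix.det_conjTranspose, Complex.star_def, Complex.mul_conj,
    Complex.normSq_eq_norm_sq] at h6
  rw [sq]
  exact Complex.ofReal_injective h6

theorem norm_vandermonde {n : ℕ} (θ : Fin n → ℂ) :
    ‖(Matrix.vandermonde θ).det‖ ^ 2 = ‖Dv n (∏ i, (X - C (θ i)))‖ := by
  rw [Dv_roots, Matrix.det_vandermonde]
  have h1 := prod_prod_Ioi_mul_eq_prod_prod_off_diag fun j i => ‖θ i - θ j‖
  simp only [norm_prod]
  rw [← prod_pow, prod_congr rfl fun i _ => (by rw [compl_eq_univ_sdiff, sdiff_singleton_eq_erase] :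
    ∏ j ∈ {i}ᶜ, ‖θ i - θ j‖ = ∏ j ∈ univ.erase i, ‖θ i - θ j‖)] at *
  rw [← h1]
  refine prod_congr rfl fun i _ => ?_
  rw [← prod_pow]
  exact prod_congr rfl fun j _ => by rw [norm_sub_rev (θ i), sq]

theorem wk_integral {f f₁ : ℤ[X]} {P : ℕ} (hP : 0 < P) {r : ℤ} (hw : Wk P r f)
    (h1 : f - C (f.eval r) = (X - C r) * f₁) {z : ℂ} (hz : aeval z f = 0) (hi : IsIntegral ℤ z) :
    IsIntegral ℤ (2 / P * aeval z f₁) := by
  obtain ⟨⟨c, hc⟩, d, hd⟩ := hw
  have h2 : f₁.eval r = P * d := by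
    have := congrArg (fun g => (derivative g).eval r) h1
    simp at this
    rw [← this, hd]
  obtain ⟨h, hh⟩ : X - C r ∣ f₁ - C (f₁.eval r) := X_sub_C_dvd_sub_C_eval
  have e1 := congrArg (aeval z) h1
  have e2 := congrArg (aeval z) hh
  rw [hc] at e1
  rw [h2] at e2
  simp only [map_sub, map_mul, hz, aeval_X, eq_intCast, map_pow, map_natCast,
    map_intCast, zero_sub] at e1 e2
  have hP' : (P : ℂ) ≠ 0 := by exact_mod_cast hP.ne'
  have hint : IsIntegral ℤ (aeval z h) :=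
    IsIntegral.of_mem_of_fg _ hi.fg_adjoin_singleton _ (aeval_mem_adjoin_singleton ℤ _)
  have hZ : ∀ t : ℤ, IsIntegral ℤ (t : ℂ) := fun t => isIntegral_algebraMap (R := ℤ) (x := t)
  have e3 : (2 / P * aeval z f₁ - d) ^ 2 = d ^ 2 - (4 : ℤ) * c * aeval z h := by
    field_simp
    push_cast
    linear_combination 4 * aeval z f₁ * e2 - 4 * aeval z h * e1
  have h3 : IsIntegral ℤ (2 / P * aeval z f₁ - d) := IsIntegral.of_pow two_pos (by
    rw [e3]
    exact ((hZ d).pow 2).sub (((hZ 4).mul (hZ c)).mul hint))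
  simpa using h3.add (hZ d)

/-- a large weak modulus gives a small irrational integer -/
theorem fld_small {l : ℕ} (hl : 1 ≤ l) {f : ℤ[X]} (hm : f.Monic) (hd : f.natDegree = l + 1)
    (hi : Irr f) {θ : Fin (l + 1) → ℂ} (hθ : Roots (up ℂ f) θ) {P : ℕ} (hP : 0 < P) {r : ℤ}
    (hw : Wk P r f) (ρ : ℝ) (h1 : 1 ≤ ρ)
    (hρ : 4 * |((Dv (l + 1) f : ℤ) : ℝ)| < (P * ρ ^ l) ^ 2) :
    ∃ β, InK θ β ∧ Intg β ∧ (¬ ∃ t : ℤ, ∀ j, β j = t) ∧ ∀ j, ‖β j‖ ≤ ρ := by
  obtain ⟨f₁, hf₁⟩ : X - C r ∣ f - C (f.eval r) := X_sub_C_dvd_sub_C_eval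
  have hm0 : (f - C (f.eval r)).Monic := hm.sub_of_left (degree_C_le.trans_lt
    (natDegree_pos_iff_degree_pos.1 (by omega)))
  have hm1 : f₁.Monic := (monic_X_sub_C r).of_mul_monic_left (hf₁ ▸ hm0)
  have hd1 : f₁.natDegree = l := by
    have := congrArg natDegree hf₁
    rw [natDegree_sub_C, (monic_X_sub_C r).natDegree_mul hm1, natDegree_X_sub_C, hd] at this
    omega
  have hcj := hi.cj hθ
  have hint := hθ.intg hm
  have hz : ∀ i, aeval (θ i) f = 0 := fun i => by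
    rw [← eval_map_algebraMap, algebraMap_int_eq]
    exact (hθ.eval_eq_zero_iff _).2 ⟨i, rfl⟩
  let q : Fin (l + 1) → ℤ[X] := fun a => if a = Fin.last l then f₁ else X ^ (a : ℕ)
  let w : Fin (l + 1) → ℚ := fun a => if a = Fin.last l then 2 / P else 1
  let E : Matrix (Fin (l + 1)) (Fin (l + 1)) ℂ := Matrix.of fun a i => (w a : ℂ) * aeval (θ i) (q a)
  have hEa : ∀ a i, E a i = aeval (θ i) (C (w a) * up ℚ (q a)) := fun a i => by
    rw [map_mul, aeval_C, up, ← algebraMap_int_eq, aeval_map_algebraMap]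
    rfl
  have hEi : ∀ a i, IsIntegral ℤ (E a i) := by
    intro a i
    by_cases ha : a = Fin.last l
    · have := wk_integral hP hw hf₁ (hz i) (hint i)
      simpa [E, w, q, ha] using this
    · simpa [E, w, q, ha] using (hint i).pow a
  have hdet : E.det = 2 / P * (Matrix.vandermonde θ).det := by
    rw [Matrix.det_eval_matrixOfPolynomials_eq_det_vandermonde θ (fun a => up ℂ (q a))
      (fun a => ?_) (fun a => ?_)]
    · have h2 := Matrix.det_mul_column (fun a => (w a : ℂ))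
        (Matrix.of fun i j => (up ℂ (q j)).eval (θ i)).transpose
      have h3 : ∏ a, (w a : ℂ) = 2 / P := by
        rw [prod_eq_single (Fin.last l) (fun a _ ha => by simp [w, ha]) (by simp)]
        simp [w]
      rw [Matrix.det_transpose] at h2
      rw [← h3, ← h2]
      refine congrArg Matrix.det (Matrix.ext fun a i => ?_)
      simp only [E, Matrix.of_apply, Matrix.transpose_apply]
      rw [← eval_map_algebraMap, algebraMap_int_eq]
    · by_cases ha : a = Fin.last l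
      · simp only [q, if_pos ha]
        rw [hm1.natDegree_map, hd1, ha, Fin.val_last]
      · simp [q, ha]
    · by_cases ha : a = Fin.last l
      · simp only [q, if_pos ha]
        exact hm1.map _
      · simp only [q, if_neg ha]
        exact (monic_X_pow _).map _
  obtain ⟨s, -, hs⟩ := hcj.conj
  have h4 := det_real s E fun a i => hs (E a) ⟨_, hEa a⟩ i
  have h5 := norm_vandermonde θ
  rw [← show up ℂ f = _ from hθ, Dv_map, eq_intCast, Complex.norm_intCast] at h5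
  have hP' : (0 : ℝ) < P := by exact_mod_cast hP
  rw [hdet, norm_mul, mul_pow, h5, norm_div, Complex.norm_natCast, Complex.norm_ofNat] at h4
  set Ξ : Matrix (Fin (l + 1)) (Fin (l + 1)) ℝ := Matrix.of fun a i => (E a i).re + (E a i).im
    with hΞ
  have hD : (0 : ℝ) < |((Dv (l + 1) f : ℤ) : ℝ)| :=
    abs_pos.2 (by exact_mod_cast hi.Dv_ne_zero hm hd)
  have h6 : Ξ.det ≠ 0 := by
    intro h
    rw [h] at h4
    have : 0 < (2 / (P : ℝ)) ^ 2 * |((Dv (l + 1) f : ℤ) : ℝ)| := by positivity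
    linarith
  obtain ⟨x, hx0, hx⟩ := mink Ξ h6 (fun i => if i = 0 then 1 else ρ)
    (fun i => by split_ifs <;> linarith) (by
      rw [Fin.prod_univ_succ, if_pos rfl, one_mul, prod_congr rfl fun i _ => if_neg (Fin.succ_ne_zero i),
        prod_const, card_univ, Fintype.card_fin]
      refine abs_lt_of_sq_lt_sq ?_ (by positivity)
      rw [h4, div_pow, div_mul_eq_mul_div, div_lt_iff₀ (by positivity)]
      nlinarith)
  have hβ : InK θ fun i => ∑ a, (x a : ℂ) * E a i :=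
    ⟨∑ a, C (x a : ℚ) * (C (w a) * up ℚ (q a)), fun i => by
      rw [map_sum]
      exact sum_congr rfl fun a _ => by rw [hEa, map_mul (aeval _) (C (x a : ℚ)), aeval_C]; simp⟩
  have h7 : ∀ i, ∑ a, (x a : ℝ) * Ξ a i =
      (∑ a, (x a : ℂ) * E a i).re + (∑ a, (x a : ℂ) * E a i).im := fun i => by
    simp [hΞ, mul_add, sum_add_distrib]
  refine ⟨_, hβ, fun i => IsIntegral.sum _ fun a _ =>
    (isIntegral_algebraMap (R := ℤ) (x := x a)).mul (hEi a i), ?_, fun i => ?_⟩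
  · rintro ⟨t, ht⟩
    have h8 : ∀ i, ∑ a, (x a : ℝ) * Ξ a i = t := fun i => by
      rw [h7, show ∑ a, (x a : ℂ) * E a i = t from ht i]; simp
    have h9 := hx 0
    rw [h8, if_pos rfl] at h9
    have h10 : t = 0 := Int.abs_lt_one_iff.1 (by exact_mod_cast h9)
    have h11 := Matrix.eq_zero_of_vecMul_eq_zero h6 (v := fun a => (x a : ℝ))
      (funext fun i => by rw [Pi.zero_apply, ← Int.cast_zero, ← h10, ← h8 i]; rfl)
    exact hx0 (funext fun a => Int.cast_eq_zero.1 (congrFun h11 a))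
  · have h8 : ∀ i, |∑ a, (x a : ℝ) * Ξ a i| ≤ ρ := fun i =>
      (hx i).le.trans (by split_ifs <;> linarith)
    have h9 := h8 i
    have h10 := h8 (s i)
    rw [h7] at h9 h10
    rw [show ∑ a, (x a : ℂ) * E a (s i) = _ from hs _ hβ i, Complex.conj_re, Complex.conj_im] at h10
    refine (abs_le_of_sq_le_sq' ?_ (by linarith)).2
    rw [Complex.sq_norm, Complex.normSq_apply]
    have h11 := sq_le_sq' (abs_le.1 h9).1 (abs_le.1 h9).2
    have h12 := sq_le_sq' (abs_le.1 h10).1 (abs_le.1 h10).2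
    nlinarith

end Pool.Agent.VW
end

-- part Pool.Agent.P.MP_b0ea37_nt.WFCnt
section

namespace Pool.Agent.VW

open Polynomial Finset

theorem fld_ineq {n : ℕ} (hn : 2 ≤ n) (m : Fin n → ℝ) (hm : ∀ i, 1 ≤ m i) (R : ℝ) (hR : 1 ≤ R) :
    ∃ i₀, (∏ i, (3 + 8 * m i / (R / 2))) * (2 * min (R / 2) (2 * m i₀) + 1) ≤
      95 ^ n * (2 * R + (∏ i, m i) / R) := by
  have hR0 : 0 < R := by linarith
  have hF : ∀ i, 3 + 8 * m i / (R / 2) = 3 + 16 * (m i / R) := fun i => by field_simp; ring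
  simp only [hF]
  have hq : ∀ i, 0 ≤ m i / R := fun i => div_nonneg (by linarith [hm i]) hR0.le
  have hP : 0 ≤ (∏ i, m i) / R :=
    div_nonneg (prod_nonneg fun i _ => by linarith [hm i]) hR0.le
  have hG : ∀ i, 0 ≤ 2 * min (R / 2) (2 * m i) + 1 := fun i => by
    have : 0 ≤ min (R / 2) (2 * m i) := le_min (by linarith) (by linarith [hm i])
    linarith
  by_cases hA : ∀ i, m i ≤ R
  · refine ⟨⟨0, by omega⟩, mul_le_mul ?_ ?_ (hG _) (by positivity)⟩
    · refine (prod_le_prod (g := fun _ => (95 : ℝ)) (fun i _ => by linarith [hq i])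
        fun i _ => ?_).trans (by simp)
      have := (div_le_one hR0).2 (hA i)
      linarith
    · linarith [min_le_left (R / 2) (2 * m ⟨0, by omega⟩)]
  push Not at hA
  obtain ⟨i₁, h1⟩ := hA
  have : Nontrivial (Fin n) := Fin.nontrivial_iff_two_le.2 hn
  obtain ⟨i₀, h0⟩ := exists_ne i₁
  refine ⟨i₀, ?_⟩
  have h2 : i₀ ∈ univ.erase i₁ := mem_erase.2 ⟨h0, mem_univ _⟩
  have e1 : (95 : ℝ) ^ n * ((∏ i, m i) / R) =
      95 * (m i₁ / R) * (95 * m i₀ * ∏ i ∈ (univ.erase i₁).erase i₀, 95 * m i) := by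
    rw [mul_prod_erase _ (fun i => 95 * m i) h2]
    have h3 := mul_prod_erase univ (fun i => 95 * m i) (mem_univ i₁)
    rw [prod_mul_distrib (s := univ), prod_const, card_univ, Fintype.card_fin] at h3
    rw [← mul_div_assoc, ← h3]
    ring
  have b1 : 3 + 16 * (m i₁ / R) ≤ 95 * (m i₁ / R) := by
    have := (one_le_div hR0).2 h1.le
    linarith
  have b0 : (3 + 16 * (m i₀ / R)) * (2 * min (R / 2) (2 * m i₀) + 1) ≤ 95 * m i₀ := by
    by_cases h : m i₀ ≤ R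
    · have h4 := (div_le_one hR0).2 h
      have h5 := min_le_right (R / 2) (2 * m i₀)
      calc _ ≤ 19 * (5 * m i₀) :=
            mul_le_mul (by linarith) (by linarith [hm i₀]) (hG _) (by norm_num)
        _ = _ := by ring
    · have h4 := (one_le_div hR0).2 (not_le.1 h).le
      have h5 := min_le_left (R / 2) (2 * m i₀)
      calc _ ≤ 19 * (m i₀ / R) * (5 * R) :=
            mul_le_mul (by linarith) (by linarith) (hG _) (by linarith)
        _ = _ := by field_simp; ring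
  have b2 : ∏ i ∈ (univ.erase i₁).erase i₀, (3 + 16 * (m i / R)) ≤
      ∏ i ∈ (univ.erase i₁).erase i₀, 95 * m i :=
    prod_le_prod (fun i _ => by linarith [hq i]) fun i _ => by
      have := div_le_self (by linarith [hm i] : 0 ≤ m i) hR
      linarith [hm i]
  rw [← mul_prod_erase _ _ (mem_univ i₁), ← mul_prod_erase _ _ h2, mul_add ((95 : ℝ) ^ n), e1]
  have b3 : 0 ≤ ∏ i ∈ (univ.erase i₁).erase i₀, (3 + 16 * (m i / R)) :=
    prod_nonneg fun i _ => by linarith [hq i]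
  calc _ = (3 + 16 * (m i₁ / R)) * ((3 + 16 * (m i₀ / R)) * (2 * min (R / 2) (2 * m i₀) + 1) *
        ∏ i ∈ (univ.erase i₁).erase i₀, (3 + 16 * (m i / R))) := by ring
    _ ≤ 95 * (m i₁ / R) * (95 * m i₀ * ∏ i ∈ (univ.erase i₁).erase i₀, 95 * m i) :=
        mul_le_mul b1 (mul_le_mul b0 b2 b3 (by linarith [hm i₀]))
          (mul_nonneg (mul_nonneg (by linarith [hq i₀]) (hG _)) b3) (by linarith [hq i₁])
    _ ≤ _ := le_add_of_nonneg_left (by positivity)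

/-- no irrational integer of size at most `R / 2` -/
def NoSmall {n : ℕ} (α : Fin n → ℂ) (R : ℝ) : Prop :=
  ∀ β, InK α β → Intg β → (∀ j, ‖β j‖ ≤ R / 2) → ∃ t : ℤ, ∀ j, β j = t

/-- integers of bounded measure in a field without small irrational integers -/
theorem cnt_fld (n : ℕ) (hn : 2 ≤ n) (ε : ℝ) (hε : 0 < ε) : ∃ C : ℝ, 0 ≤ C ∧ ∀ Z R : ℝ, 1 ≤ Z →
    1 ≤ R → ∀ α : Fin n → ℂ, Cnt (fun θ => Cj α ∧ NoSmall α R ∧ InK α θ ∧ Intg θ ∧
      ∏ i, max 1 ‖θ i‖ ≤ Z) (C * Z ^ ε * (R + Z / R)) := by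
  obtain ⟨C, hC, hd⟩ := cnt_dyadic_vec n ε hε
  refine ⟨C * (95 ^ n * 2 ^ (n + 1)), by positivity, fun Z R hZ hR α => ?_⟩
  have hR0 : 0 < R := by linarith
  by_cases hc : Cj α ∧ NoSmall α R
  swap
  · exact Cnt.empty (fun θ h => hc ⟨h.1, h.2.1⟩) (by positivity)
  obtain ⟨s, hs, hcs⟩ := hc.1.conj
  have key : ∀ k : Fin n → ℕ, ∏ j, (2 : ℝ) ^ k j ≤ Z →
      Cnt (fun θ => InK α θ ∧ Intg θ ∧ ∀ j, ‖θ j‖ ≤ 2 * 2 ^ k j)
        (95 ^ n * 2 ^ (n + 1) * (R + Z / R)) := by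
    intro k hk
    have h1 : ∀ j, (1 : ℝ) ≤ 2 * 2 ^ k j := fun j => by
      linarith [one_le_pow₀ (n := k j) (one_le_two (α := ℝ))]
    obtain ⟨i₀, hi⟩ := fld_ineq hn (fun j => 2 * 2 ^ k j) h1 R hR
    obtain ⟨cell, Q, h2, h3, h4⟩ := grid s hs (fun j => 2 * 2 ^ k j) (fun _ => R / 2)
      (fun j => by positivity) (fun _ => by positivity) fun _ => rfl
    have h0 : 0 ≤ min (R / 2) (2 * (2 * (2 : ℝ) ^ k i₀)) := by positivity
    refine (h2.fibre (P := fun c θ => (InK α θ ∧ Intg θ ∧ ∀ j, ‖θ j‖ ≤ 2 * 2 ^ k j) ∧ cell θ = c)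
      (by linarith) fun c _ => Cnt.of_mem (by linarith) fun θ₀ h5 => ?_).mono
      (fun θ h => ⟨_, h3 θ h.2.2, h, rfl⟩) (hi.trans ?_)
    · refine (cnt_int_abs _ h0).rel (fun θ t => ∀ j, θ j - θ₀ j = t) (fun θ h => ?_)
        fun θ θ' t _ _ h h' => funext fun j => sub_left_inj.1 ((h j).trans (h' j).symm)
      have h6 := h4 θ θ₀ (hcs θ h.1.1) (hcs θ₀ h5.1.1) (h.2.trans h5.2.symm)
      obtain ⟨t, ht⟩ := hc.2 _ (h.1.1.sub h5.1.1) (h.1.2.1.sub h5.1.2.1) h6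
      refine ⟨t, ?_, ht⟩
      rw [← Complex.norm_intCast, ← show θ i₀ - θ₀ i₀ = t from ht i₀]
      refine le_min (h6 i₀) ((norm_sub_le _ _).trans ?_)
      linarith [h.1.2.2 i₀, h5.1.2.2 i₀]
    · rw [mul_assoc]
      refine mul_le_mul_of_nonneg_left ?_ (by positivity)
      have h7 : ∏ j, (2 * (2 : ℝ) ^ k j) ≤ 2 ^ n * Z := by
        rw [prod_mul_distrib, prod_const, card_univ, Fintype.card_fin]
        exact mul_le_mul_of_nonneg_left hk (by positivity)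
      have h8 := div_le_div_of_nonneg_right h7 hR0.le
      have h9 : (1 : ℝ) ≤ 2 ^ n := one_le_pow₀ one_le_two
      have h10 : 0 ≤ 2 ^ n * Z / R := by positivity
      rw [pow_succ]
      calc _ ≤ 2 ^ n * (2 * R) + 2 * (2 ^ n * Z / R) := by nlinarith
        _ = _ := by ring
  refine ((hd Z hZ).fibre (by positivity) key).mono (fun θ h => ?_) (le_of_eq (by ring))
  choose k hk1 hk2 using fun j => exists_dyadic _ (le_max_left 1 ‖θ j‖)
  exact ⟨k, (prod_le_prod (fun j _ => by positivity) fun j _ => hk1 j).trans h.2.2.2.2, h.2.2.1,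
    h.2.2.2.1, fun j => (le_max_right _ _).trans (hk2 j).le⟩

theorem sum_exp (l : ℕ) : 2 * ∑ i ∈ range l, (l + 1 - i) = l * (l + 3) := by
  induction l with
  | zero => simp
  | succ l ih =>
    rw [sum_range_succ', sum_congr rfl fun i _ => (by omega : l + 1 + 1 - (i + 1) = l + 1 - i),
      mul_add, ih]
    simp
    ring

/-- characteristic polynomials of small integers with reduced trace -/
theorem cnt_char (l : ℕ) : ∃ C : ℝ, 0 ≤ C ∧ ∀ R : ℝ, 1 ≤ R →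
    Cnt (fun α : Fin (l + 1) → ℂ => Cj α ∧ Intg α ∧ (∀ j, ‖α j‖ ≤ R) ∧ ‖∑ j, α j‖ ≤ l + 1)
      (C * R ^ (∑ i ∈ range l, (l + 1 - i))) := by
  refine ⟨(3 * 2 ^ (l + 1)) ^ l * (2 * (l + 1) + 1) * ((l + 1 : ℕ) : ℝ) ^ (l + 1), by positivity,
    fun R hR => ?_⟩
  let B : ℕ → ℝ := fun i => if i = l then l + 1 else 2 ^ (l + 1) * R ^ (l + 1 - i)
  have hB : ∀ i, 0 ≤ B i := fun i => by
    simp only [B]
    split_ifs <;> positivity
  refine ((cnt_poly_coeff (l + 1) fun i => cnt_int_abs (B i) (hB i)).fibre (by positivity)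
    fun g _ => cnt_numberings (b := l + 1) (up ℂ (X ^ (l + 1) + g))).mono ?_ ?_
  · rintro α ⟨h1, h2, h3, h4⟩
    obtain ⟨g, hm, hd, hr⟩ := h1.char_int (InK.refl α) h2
    refine ⟨g - X ^ (l + 1), ⟨?_, fun i hi => ?_⟩, by rwa [add_sub_cancel]⟩
    · have h5 := degree_sub_lt_left (p := g) (q := X ^ (l + 1))
        (by rw [degree_eq_natDegree hm.ne_zero, hd, degree_X_pow]) hm.ne_zero
        (by rw [hm.leadingCoeff, leadingCoeff_X_pow])
      rwa [degree_eq_natDegree hm.ne_zero, hd] at h5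
    · rw [coeff_sub, coeff_X_pow, if_neg hi.ne, sub_zero, ← Complex.norm_intCast]
      have h6 : ((g.coeff i : ℤ) : ℂ) = (∏ j, (X - C (α j))).coeff i := by
        rw [← show up ℂ g = _ from hr, coeff_map, eq_intCast]
      rw [h6]
      simp only [B]
      split_ifs with h
      · have h7 := prod_X_sub_C_coeff_card_pred univ α (by simp)
        rw [card_univ, Fintype.card_fin, Nat.add_sub_cancel] at h7
        rwa [h, h7, norm_neg]
      · have h7 := norm_coeff_prod_le α R h3 (l + 1 - i) (by omega)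
        rwa [show l + 1 - (l + 1 - i) = i by omega] at h7
  · rw [prod_range_succ, ← prod_pow_eq_pow_sum]
    have h8 : ∏ i ∈ range l, (2 * B i + 1) ≤
        ∏ i ∈ range l, (3 * 2 ^ (l + 1) * R ^ (l + 1 - i)) :=
      prod_le_prod (fun i _ => by linarith [hB i]) fun i hi => by
        have h9 : (1 : ℝ) ≤ 2 ^ (l + 1) * R ^ (l + 1 - i) :=
          one_le_mul_of_one_le_of_one_le (one_le_pow₀ one_le_two) (one_le_pow₀ hR)
        simp only [B, if_neg (mem_range.1 hi).ne]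
        linarith
    rw [prod_mul_distrib, prod_const, card_range] at h8
    simp only [B, if_true] at h8 ⊢
    calc _ ≤ (3 * 2 ^ (l + 1)) ^ l * (∏ i ∈ range l, R ^ (l + 1 - i)) * (2 * (l + 1) + 1) *
          ((l + 1 : ℕ) : ℝ) ^ (l + 1) := by gcongr
      _ = _ := by ring

end Pool.Agent.VW
end

-- part Pool.Agent.P.MP_b0ea37_nt.WFld
section

namespace Pool.Agent.VW

open Polynomial

/-- an irrational integer of a primitive field has distinct conjugates -/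
theorem Prim.inj {n : ℕ} (hn : 0 < n) {f : ℤ[X]} (hm : f.Monic) (hd : f.natDegree = n) (hi : Irr f)
    (hp : Prim f) {θ α : Fin n → ℂ} (hθ : Roots (up ℂ f) θ) (h1 : InK θ α) (h2 : Intg α)
    (h3 : ¬ ∃ t : ℤ, ∀ j, α j = t) : Function.Injective α := by
  obtain ⟨u, hu⟩ := h1
  have hz : ∀ i, aeval (θ i) f = 0 := fun i => by
    rw [← eval_map_algebraMap, algebraMap_int_eq]
    exact (hθ.eval_eq_zero_iff _).2 ⟨i, rfl⟩
  have hz' : ∀ i, aeval (θ i) (up ℚ f) = 0 := fun i => by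
    rw [up, ← algebraMap_int_eq, aeval_map_algebraMap, hz]
  have h4 : ∀ i, aeval (θ i) (u %ₘ up ℚ f) = α i := fun i => by
    rw [aeval_modByMonic_eq_self_of_root (hz' i), hu]
  have h5 : (u %ₘ up ℚ f).natDegree < f.natDegree := by
    have := natDegree_modByMonic_lt u (hm.map (Int.castRingHom ℚ)) hi.ne_one
    rwa [hm.natDegree_map] at this
  have h6 : 0 < (u %ₘ up ℚ f).natDegree := by
    by_contra h0
    rw [eq_C_of_natDegree_eq_zero (Nat.eq_zero_of_not_pos h0)] at h4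
    simp only [aeval_C] at h4
    have h7 := h2 ⟨0, hn⟩
    rw [← h4] at h7
    obtain ⟨z, hz⟩ := IsIntegrallyClosed.isIntegral_iff.1
      ((isIntegral_algebraMap_iff (algebraMap ℚ ℂ).injective).1 h7)
    exact h3 ⟨z, fun j => by rw [← h4, ← hz]; simp⟩
  exact fun i j h => hθ.injective hi (hp _ h6 h5 _ _ (hz i) (hz j) (by rw [h4, h4, h]))

/-- a generator of least size with reduced trace -/
theorem fld_gen {l : ℕ} {f : ℤ[X]} (hm : f.Monic) (hd : f.natDegree = l + 1) (hi : Irr f)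
    (hp : Prim f) {θ : Fin (l + 1) → ℂ} (hθ : Roots (up ℂ f) θ) {ρ : ℝ} (h1 : 1 ≤ ρ)
    (h : ∃ β, InK θ β ∧ Intg β ∧ (¬ ∃ t : ℤ, ∀ j, β j = t) ∧ ∀ j, ‖β j‖ ≤ ρ) :
    ∃ k : ℕ, (2 : ℝ) ^ k ≤ 2 * ρ ∧ ∃ α : Fin (l + 1) → ℂ,
      (Cj α ∧ Intg α ∧ (∀ j, ‖α j‖ ≤ 3 * 2 ^ k) ∧ ‖∑ j, α j‖ ≤ l + 1) ∧
      NoSmall α (2 ^ k) ∧ InK α θ := by
  classical
  have hcj := hi.cj hθ
  obtain ⟨k₀, h2, h3⟩ := exists_dyadic ρ h1
  have h4 : ∃ β, InK θ β ∧ Intg β ∧ (¬ ∃ t : ℤ, ∀ j, β j = t) ∧ ∀ j, ‖β j‖ ≤ 2 ^ (k₀ + 1) := by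
    obtain ⟨β, a, b, c, d⟩ := h
    exact ⟨β, a, b, c, fun j => (d j).trans (by rw [pow_succ]; linarith)⟩
  have hex : ∃ k : ℕ, ∃ β, InK θ β ∧ Intg β ∧ (¬ ∃ t : ℤ, ∀ j, β j = t) ∧ ∀ j, ‖β j‖ ≤ 2 ^ k :=
    ⟨_, h4⟩
  have h5 := Nat.find_min' hex h4
  obtain ⟨β, hb1, hb2, hb3, hb4⟩ := Nat.find_spec hex
  have h6 := fun m => Nat.find_min hex (m := m)
  generalize Nat.find hex = k at h5 hb4 h6
  have hR : (1 : ℝ) ≤ 2 ^ k := one_le_pow₀ one_le_two
  have hno : NoSmall θ (2 ^ k) := by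
    intro γ g1 g2 g3
    by_contra g4
    rcases k with _ | k
    · refine g4 ⟨0, fun i => ?_⟩
      by_contra g5
      obtain ⟨j, hj⟩ := hcj.one_le g1 g2 (i := i) (by simpa using g5)
      have := g3 j
      norm_num at this
      linarith
    · exact h6 k (by omega) ⟨γ, g1, g2, g4, fun j => (g3 j).trans (by rw [pow_succ]; linarith)⟩
  obtain ⟨g, -, -, hg⟩ := hcj.char_int hb1 hb2
  obtain ⟨T, hT⟩ : ∃ T : ℤ, (T : ℂ) = ∑ j, β j := by
    have h7 := prod_X_sub_C_coeff_card_pred Finset.univ β (by simp)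
    rw [← show up ℂ g = _ from hg, coeff_map, eq_intCast] at h7
    exact ⟨-_, by rw [Int.cast_neg, h7, neg_neg]⟩
  have hl : (0 : ℤ) < l + 1 := by positivity
  have hT1 : |(T : ℝ)| ≤ (l + 1) * 2 ^ k := by
    rw [← Complex.norm_intCast, hT]
    exact (norm_sum_le _ _).trans ((Finset.sum_le_sum fun j _ => hb4 j).trans (by simp))
  have e1 : ((T % (l + 1) : ℤ) : ℝ) + (l + 1) * ((T / (l + 1) : ℤ) : ℝ) = T := by
    exact_mod_cast Int.emod_add_mul_ediv T (l + 1)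
  have e2 : (0 : ℝ) ≤ ((T % (l + 1) : ℤ) : ℝ) := by exact_mod_cast Int.emod_nonneg T hl.ne'
  have e3 : ((T % (l + 1) : ℤ) : ℝ) ≤ l + 1 := by exact_mod_cast (Int.emod_lt_of_pos T hl).le
  have e4 : |((T / (l + 1) : ℤ) : ℝ)| ≤ 2 * 2 ^ k := by
    have hl' : (0 : ℝ) < l + 1 := by positivity
    obtain ⟨a, b⟩ := abs_le.1 hT1
    rw [abs_le]
    constructor <;> refine le_of_mul_le_mul_left ?_ hl' <;> nlinarith
  have a1 := hb1.sub (InK.const θ (T / (l + 1)))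
  have a2 := hb2.sub (Intg.const _ (T / (l + 1)))
  obtain ⟨a3, a4⟩ := hcj.gen_of_inj a1 (by omega) (hp.inj (by omega) hm hd hi hθ a1 a2
    fun ⟨t, ht⟩ => hb3 ⟨t + T / (l + 1), fun j => by rw [Int.cast_add, ← ht j]; simp⟩)
  refine ⟨k, ?_, _, ⟨a3, a2, fun j => ?_, ?_⟩, fun γ g1 => hno γ (a1.trans g1), a4⟩
  · refine (pow_le_pow_right₀ one_le_two h5).trans ?_
    rw [pow_succ]
    linarith
  · refine (norm_sub_le _ _).trans ?_
    rw [Complex.norm_intCast]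
    linarith [hb4 j]
  · have e5 : ∑ j, (β j - ((T / (l + 1) : ℤ) : ℂ)) = ((T % (l + 1) : ℤ) : ℂ) := by
      rw [Finset.sum_sub_distrib, ← hT, Int.emod_def]
      simp
    rw [e5, Complex.norm_intCast, abs_of_nonneg e2]
    exact e3

theorem fld_exp {l : ℕ} (hl : 4 ≤ l) {E : ℕ} (hE : 2 * (E + 1) = l * (l + 3)) :
    0 < cF (l + 1) / l ∧ cF (l + 1) / l ≤ 1 ∧ cF (l + 1) / l * (E + 2) ≤ l - 1 / 25 ∧
      1 + cF (l + 1) / l * E ≤ l - 1 / 25 := by
  have h1 : (2 : ℝ) * (E + 1) = l * (l + 3) := by exact_mod_cast hE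
  have h2 : (4 : ℝ) ≤ l := by exact_mod_cast hl
  have h3 : (0 : ℝ) < l := by linarith
  rw [div_mul_eq_mul_div, div_mul_eq_mul_div, div_le_iff₀ h3, div_le_iff₀ h3, ← le_sub_iff_add_le',
    div_le_iff₀ h3]
  unfold cF
  split_ifs with h
  · obtain rfl : l = 4 := by omega
    obtain rfl : E = 13 := by omega
    norm_num
  · have h4 : (5 : ℝ) ≤ l := by exact_mod_cast (by omega : 5 ≤ l)
    refine ⟨by positivity, by linarith, by nlinarith, by nlinarith⟩

/-- section 4 -/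
theorem ps_field (n : ℕ) (hn : 5 ≤ n) : PS n fun H f => Irr f ∧ Prim f ∧
    ∃ (P : ℕ) (r : ℤ), H ^ ((n : ℝ) - 1 - cF n) ≤ P ∧ Wk P r f := by
  obtain ⟨l, rfl⟩ : ∃ l, n = l + 1 := ⟨n - 1, by omega⟩
  have hl : 4 ≤ l := by omega
  obtain ⟨E, hE⟩ : ∃ E, ∑ i ∈ Finset.range l, (l + 1 - i) = E + 1 := by
    have := sum_exp l
    exact Nat.exists_eq_succ_of_ne_zero fun h => by rw [h] at this; nlinarith
  obtain ⟨x0, x1, x2, x3⟩ := fld_exp hl (hE ▸ sum_exp l)
  set x := cF (l + 1) / l with hx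
  obtain ⟨D, hD, hDv⟩ := abs_Dv_le (l + 1)
  obtain ⟨C₁, hC₁, h₁⟩ := cnt_dyadic (1 / 100) (by norm_num)
  obtain ⟨C₂, hC₂, h₂⟩ := cnt_char l
  obtain ⟨C₃, hC₃, h₃⟩ := cnt_fld (l + 1) (by omega) (1 / 100) (by norm_num)
  rw [hE] at h₂
  refine PS.of_lt ((l : ℝ) - 1 / 50) (C₁ * (10 * D) * (C₂ * 3 ^ (E + 1) * (C₃ * (l + 2)) *
    ((10 * D) ^ (E + 2) + (l + 2) * (10 * D) ^ E))) 1 (by push_cast; linarith) fun H hH => ?_
  have hH0 : 0 < H := by linarith
  have hHx : 1 ≤ H ^ x := Real.one_le_rpow hH x0.le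
  have hρ : 1 ≤ 5 * D * H ^ x := one_le_mul_of_one_le_of_one_le (by linarith) hHx
  have hl0 : (0 : ℝ) ≤ l := Nat.cast_nonneg l
  have hZ : 1 ≤ ((l : ℝ) + 2) * H := one_le_mul_of_one_le_of_one_le (by linarith) hH
  have hs : ∀ a y : ℝ, 1 ≤ a → 0 ≤ y → y ≤ H → (a * y) ^ (1 / 100 : ℝ) ≤ a * H ^ (1 / 100 : ℝ) := by
    intro a y ha hy hyH
    rw [Real.mul_rpow (by linarith) hy]
    refine mul_le_mul ?_ (Real.rpow_le_rpow hy hyH (by norm_num)) (by positivity) (by linarith)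
    simpa using Real.rpow_le_rpow_of_exponent_le ha (by norm_num : (1 / 100 : ℝ) ≤ 1)
  have hxH : H ^ x ≤ H := by simpa using Real.rpow_le_rpow_of_exponent_le hH x1
  have key : ∀ k : ℕ, (2 : ℝ) ^ k ≤ 10 * D * H ^ x → Cnt (fun θ : Fin (l + 1) → ℂ =>
      ∃ α : Fin (l + 1) → ℂ, (Cj α ∧ Intg α ∧ (∀ j, ‖α j‖ ≤ 3 * 2 ^ k) ∧ ‖∑ j, α j‖ ≤ l + 1) ∧
        Cj α ∧ NoSmall α (2 ^ k) ∧ InK α θ ∧ Intg θ ∧ ∏ i, max 1 ‖θ i‖ ≤ (l + 2) * H)
      (C₂ * 3 ^ (E + 1) * (C₃ * (l + 2)) * ((10 * D) ^ (E + 2) + (l + 2) * (10 * D) ^ E) *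
        (H ^ (1 / 100 : ℝ) * H ^ ((l : ℝ) - 1 / 25))) := by
    intro k hk
    have hR : (1 : ℝ) ≤ 2 ^ k := one_le_pow₀ one_le_two
    refine ((h₂ (3 * 2 ^ k) (by linarith)).fibre (by positivity) fun α _ =>
      h₃ _ (2 ^ k) hZ hR α).mono (fun _ h => h) ?_
    generalize (2 : ℝ) ^ k = R at hk hR
    have b1 : R ^ (E + 2) ≤ (10 * D) ^ (E + 2) * H ^ ((l : ℝ) - 1 / 25) := by
      refine (pow_le_pow_left₀ (by linarith) hk _).trans ?_
      rw [mul_pow _ (H ^ x), ← Real.rpow_natCast (H ^ x), ← Real.rpow_mul hH0.le]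
      exact mul_le_mul_of_nonneg_left
        (Real.rpow_le_rpow_of_exponent_le hH (by push_cast; exact x2)) (by positivity)
    have b2 : H * R ^ E ≤ (10 * D) ^ E * H ^ ((l : ℝ) - 1 / 25) := by
      refine (mul_le_mul_of_nonneg_left (pow_le_pow_left₀ (by linarith) hk _) hH0.le).trans ?_
      rw [mul_pow _ (H ^ x), ← Real.rpow_natCast (H ^ x), ← Real.rpow_mul hH0.le, mul_left_comm]
      refine mul_le_mul_of_nonneg_left ?_ (by positivity)
      refine le_trans (le_of_eq ?_) (Real.rpow_le_rpow_of_exponent_le hH x3)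
      rw [Real.rpow_add hH0, Real.rpow_one]
    have b3 := hs (l + 2) H (by linarith) hH0.le le_rfl
    calc _ = C₂ * 3 ^ (E + 1) * (C₃ * ((l + 2) * H) ^ (1 / 100 : ℝ)) *
          (R ^ (E + 2) + (l + 2) * (H * R ^ E)) := by
          have : R ≠ 0 := by linarith
          field_simp
          ring
      _ ≤ C₂ * 3 ^ (E + 1) * (C₃ * ((l + 2) * H ^ (1 / 100 : ℝ))) *
          ((10 * D) ^ (E + 2) * H ^ ((l : ℝ) - 1 / 25) +
            (l + 2) * ((10 * D) ^ E * H ^ ((l : ℝ) - 1 / 25))) := by gcongr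
      _ = _ := by ring
  refine (((h₁ (10 * D * H ^ x) (by linarith)).fibre (by positivity) key).rel
    (fun f θ => Roots (up ℂ f) θ) ?_ fun f g θ _ _ h h' =>
      map_injective _ (Int.castRingHom ℂ).injective_int (Eq.trans h (Eq.symm h'))).mono
    (fun _ h => h) ?_
  · rintro f ⟨⟨hm, hd, -, hf⟩, hi, hp, P, r, hP, hw⟩
    obtain ⟨θ, hθ⟩ := exists_roots (n := l + 1) (up ℂ f) (hm.map _) (by rw [hm.natDegree_map, hd])
    have hP0 : (0 : ℝ) < P := (Real.rpow_pos_of_pos hH0 _).trans_le hP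
    obtain ⟨k, hk, α, a1, a2, a3⟩ := fld_gen hm hd hi hp hθ hρ
      (fld_small (by omega) hm hd hi hθ (by exact_mod_cast hP0) hw _ hρ (by
        have c1 : |((Dv (l + 1) f : ℤ) : ℝ)| ≤ D * (H ^ l) ^ 2 := by
          refine (hDv f hm hd).trans (mul_le_mul_of_nonneg_left ?_ (by linarith))
          rw [← pow_mul, show 2 * (l + 1) - 2 = l * 2 by omega]
          exact pow_le_pow_left₀ (supNorm_nonneg _) hf _
        have c2 : 5 * D * H ^ l ≤ P * (5 * D * H ^ x) ^ l := by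
          have c3 : H ^ l = H ^ (((l + 1 : ℕ) : ℝ) - 1 - cF (l + 1)) * (H ^ x) ^ l := by
            rw [← Real.rpow_natCast (H ^ x), ← Real.rpow_mul hH0.le, ← Real.rpow_add hH0, hx,
              div_mul_cancel₀ _ (by positivity : (l : ℝ) ≠ 0), ← Real.rpow_natCast]
            push_cast
            ring_nf
          have c4 : 5 * D ≤ (5 * D) ^ l := le_self_pow₀ (by linarith) (by omega)
          rw [c3, mul_pow _ (H ^ x), mul_left_comm]
          gcongr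
        have c5 : 0 < H ^ l := by positivity
        have c6 := pow_le_pow_left₀ (by positivity) c2 2
        have c7 : 0 < (H ^ l) ^ 2 := by positivity
        nlinarith [mul_pos (by nlinarith : 0 < 25 * D ^ 2 - 4 * D) c7]))
    refine ⟨θ, ⟨k, by linarith, α, a1, a1.1, a2, a3, hθ.intg hm, hθ.prod_max_le.trans ?_⟩, hθ⟩
    push_cast
    rw [add_assoc, one_add_one_eq_two]
    exact mul_le_mul_of_nonneg_left hf (by linarith)
  · have b1 := hs (10 * D) (H ^ x) (by linarith) (by linarith) hxH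
    have b2 : H ^ ((l : ℝ) - 1 / 50) =
        H ^ (1 / 100 : ℝ) * (H ^ (1 / 100 : ℝ) * H ^ ((l : ℝ) - 1 / 25)) := by
      rw [← Real.rpow_add hH0, ← Real.rpow_add hH0]
      ring_nf
    calc _ ≤ C₁ * (10 * D * H ^ (1 / 100 : ℝ)) * _ := by gcongr
      _ = _ := by rw [b2]; ring

end Pool.Agent.VW
end

-- part Pool.Agent.P.MP_b0ea37_nt.WLDefs
section

namespace Pool.Agent.VW.Lat

open Polynomial

/-- the lattice of a pair -/
def Lam (n M : ℕ) (r : ℤ) (g : ℤ[X]) : Prop := g.natDegree < n ∧ Wk M r g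

/-- the monic coset in a box -/
def Plus (n : ℕ) (R : ℝ) (M : ℕ) (r : ℤ) (f : ℤ[X]) : Prop :=
  f.Monic ∧ f.natDegree = n ∧ f.supNorm ≤ R ∧ Wk M r f

/-- the first two successive minima are attained at `g₁`, `g₂` -/
def Min12 (n M : ℕ) (r : ℤ) (g₁ g₂ : ℤ[X]) : Prop :=
  Lam n M r g₁ ∧ Lam n M r g₂ ∧ Indep g₁ g₂ ∧
    (∀ g, Lam n M r g → g ≠ 0 → g₁.supNorm ≤ g.supNorm) ∧
    ∀ g, Lam n M r g → Indep g₁ g → g₂.supNorm ≤ g.supNorm

/-- the coefficient vector -/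
def vec (n : ℕ) (g : ℤ[X]) : Fin n → ℝ := fun i => (g.coeff i : ℝ)

/-- small degree or not irreducible -/
def Spec (n : ℕ) (g : ℤ[X]) : Prop := g.natDegree + 1 < n ∨ ¬ Irr g

/-- the line lemma for the set `S` of one pair -/
def LLp (n : ℕ) (R H E c : ℝ) (M : ℕ) (r : ℤ) (S : ℤ[X] → Prop) : Prop :=
  ∀ (T B : ℝ) (g₁ g₂ : ℤ[X]), Lam n M r g₁ → Lam n M r g₂ → Indep g₁ g₂ → g₁.supNorm ≤ T →
    g₂.supNorm ≤ T → Cnt (Plus n R M r) B → Cnt S (E * B * (T / H) ^ c)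

noncomputable def tau (n : ℕ) : ℝ := ((n : ℝ) - 2) / ((n : ℝ) - 1) - 1 / 1000

/-- `k` is the product of the repeated factors of `g`, `N` holds the exceptional primes -/
def Ker (k : ℤ[X]) (N : ℕ) (g : ℤ[X]) : Prop :=
  k.IsPrimitive ∧ Squarefree k ∧ k ^ 2 ∣ g ∧ N ≠ 0 ∧
    ∀ (p : ℕ) (r : ℤ), p.Prime → ¬ p ∣ N → Wk p r g →
      (p : ℤ) ∣ k.eval r ∧ ¬ (p : ℤ) ∣ (derivative k).eval r

/-- a pair together with a lattice vector that fixes the modulus up to a factor at most `Y` -/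
def Tri (V Y : ℝ) (N : ℤ[X] → ℕ) (M : ℕ) (r : ℤ) (g : ℤ[X]) : Prop :=
  Squarefree M ∧ (M : ℝ) ≤ V ∧ 0 ≤ r ∧ r < M ∧ Wk M r g ∧ N g ≠ 0 ∧ (N g : ℝ) ≤ V ∧
    ∃ M' : ℕ, 1 ≤ M' ∧ (M' : ℝ) ≤ Y ∧ M ∣ N g * M'

/-- a family of nonzero polynomials, stable under division by constants, with a power count -/
def Fam (n : ℕ) (A a : ℝ) (G : ℤ[X] → Prop) : Prop :=
  (∀ g, G g → g ≠ 0 ∧ g.natDegree < n) ∧ (∀ (c : ℤ) (g : ℤ[X]), c ≠ 0 → G (C c * g) → G g) ∧
    ∀ U : ℝ, 1 ≤ U → Cnt (fun g => G g ∧ g.supNorm ≤ U) (A * U ^ a)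

/-- divisible by the square of a primitive polynomial of degree `e` and dyadic height `η` -/
def Sq (n e : ℕ) (η : ℝ) (g : ℤ[X]) : Prop :=
  g ≠ 0 ∧ g.natDegree < n ∧ ∃ k : ℤ[X], k.IsPrimitive ∧ k.natDegree = e ∧ η ≤ k.supNorm ∧
    k.supNorm ≤ 2 * η ∧ k ^ 2 ∣ g

end Pool.Agent.VW.Lat
end

-- part Pool.Agent.P.MP_b0ea37_nt.WLWk
section

namespace Pool.Agent.VW.Lat

open Polynomial

variable {M : ℕ} {r : ℤ} {g h : ℤ[X]}

theorem wk_zero (M : ℕ) (r : ℤ) : Wk M r 0 := by simp [Wk]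

theorem wk_add (hg : Wk M r g) (hh : Wk M r h) : Wk M r (g + h) := by
  refine ⟨?_, ?_⟩
  · rw [eval_add]; exact dvd_add hg.1 hh.1
  · rw [derivative_add, eval_add]; exact dvd_add hg.2 hh.2

theorem wk_mul (u : ℤ[X]) (hg : Wk M r g) : Wk M r (u * g) := by
  refine ⟨?_, ?_⟩
  · rw [eval_mul]; exact hg.1.mul_left _
  · rw [derivative_mul, eval_add, eval_mul, eval_mul]
    exact dvd_add (((dvd_pow_self _ two_ne_zero).trans hg.1).mul_left _) (hg.2.mul_left _)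

theorem wk_neg (hg : Wk M r g) : Wk M r (-g) := by
  have := wk_mul (-1) hg
  rwa [neg_one_mul] at this

theorem wk_sub (hg : Wk M r g) (hh : Wk M r h) : Wk M r (g - h) := by
  rw [sub_eq_add_neg]; exact wk_add hg (wk_neg hh)

theorem wk_sum {ι : Type} (s : Finset ι) (u : ι → ℤ[X]) (hu : ∀ i ∈ s, Wk M r (u i)) :
    Wk M r (∑ i ∈ s, u i) :=
  Finset.sum_induction u (Wk M r) (fun _ _ => wk_add) (wk_zero M r) hu

theorem wk_of_dvd {M' : ℕ} (hM : M' ∣ M) (hg : Wk M r g) : Wk M' r g :=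
  ⟨(pow_dvd_pow_of_dvd (Int.natCast_dvd_natCast.2 hM) 2).trans hg.1,
    (Int.natCast_dvd_natCast.2 hM).trans hg.2⟩

theorem dvd_eval_of_mod {r' : ℤ} {q : ℤ} (hr : q ∣ r - r') (hg : q ∣ g.eval r) : q ∣ g.eval r' := by
  have h1 : q ∣ g.eval r - g.eval r' := hr.trans (sub_dvd_eval_sub r r' g)
  have := dvd_sub hg h1
  simpa using this

theorem wk_of_mod {r' : ℤ} (hr : (M : ℤ) ∣ r - r') (hg : Wk M r g) : Wk M r' g := by
  refine ⟨?_, dvd_eval_of_mod hr hg.2⟩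
  obtain ⟨t, ht⟩ := hr
  obtain ⟨k, hk⟩ := binomExpansion g r (-(M * t))
  have e : r + -(M * t) = r' := by linarith
  rw [e] at hk
  rw [hk]
  obtain ⟨b, hb⟩ := hg.2
  refine dvd_add (dvd_add hg.1 ⟨-(b * t), ?_⟩) ⟨k * t ^ 2, ?_⟩
  · rw [hb]; ring
  · ring

theorem exists_res (M : ℕ) (hM : 1 ≤ M) (r : ℤ) : ∃ r' : ℤ, 0 ≤ r' ∧ r' < M ∧ (M : ℤ) ∣ r - r' := by
  have h0 : (0 : ℤ) < M := by exact_mod_cast hM
  exact ⟨r % M, Int.emod_nonneg _ h0.ne', Int.emod_lt_of_pos _ h0, Int.dvd_self_sub_of_emod_eq rfl⟩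

theorem natDegree_sub_lt_of_monic {n : ℕ} (hn : 1 ≤ n) {f f' : ℤ[X]} (hf : f.Monic)
    (hd : f.natDegree = n) (hf' : f'.Monic) (hd' : f'.natDegree = n) : (f - f').natDegree < n := by
  by_cases h0 : f - f' = 0
  · rw [h0, natDegree_zero]; omega
  · have h1 : (f - f').degree < f.degree := by
      refine degree_sub_lt_left ?_ hf.ne_zero (by rw [hf.leadingCoeff, hf'.leadingCoeff])
      rw [degree_eq_natDegree hf.ne_zero, degree_eq_natDegree hf'.ne_zero, hd, hd']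
    rw [degree_eq_natDegree hf.ne_zero, hd] at h1
    exact (natDegree_lt_iff_degree_lt h0).2 h1

theorem monic_add_of_lt {n : ℕ} {f u : ℤ[X]} (hf : f.Monic) (hd : f.natDegree = n)
    (hu : u.natDegree < n) : (f + u).Monic ∧ (f + u).natDegree = n := by
  have h1 : u.natDegree < f.natDegree := hd ▸ hu
  exact ⟨hf.add_of_left (degree_lt_degree h1), by rw [natDegree_add_eq_left_of_natDegree_lt h1, hd]⟩

theorem Plus.sub {n : ℕ} (hn : 1 ≤ n) {R : ℝ} {f f' : ℤ[X]} (hf : Plus n R M r f)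
    (hf' : Plus n R M r f') : Lam n M r (f - f') ∧ (f - f').supNorm ≤ 2 * R := by
  refine ⟨⟨natDegree_sub_lt_of_monic hn hf.1 hf.2.1 hf'.1 hf'.2.1, wk_sub hf.2.2.2 hf'.2.2.2⟩, ?_⟩
  have := sup_sub_le f f'
  linarith [hf.2.2.1, hf'.2.2.1]

theorem Plus.mono {n : ℕ} {R R' : ℝ} (hR : R ≤ R') {f : ℤ[X]} (hf : Plus n R M r f) :
    Plus n R' M r f := ⟨hf.1, hf.2.1, hf.2.2.1.trans hR, hf.2.2.2⟩

theorem Lam.add {n : ℕ} (hg : Lam n M r g) (hh : Lam n M r h) : Lam n M r (g + h) :=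
  ⟨(natDegree_add_le _ _).trans_lt (max_lt hg.1 hh.1), wk_add hg.2 hh.2⟩

theorem Lam.C_mul {n : ℕ} (c : ℤ) (hg : Lam n M r g) : Lam n M r (C c * g) :=
  ⟨(natDegree_C_mul_le _ _).trans_lt hg.1, wk_mul _ hg.2⟩

theorem Lam.sub {n : ℕ} (hg : Lam n M r g) (hh : Lam n M r h) : Lam n M r (g - h) :=
  ⟨(natDegree_sub_le _ _).trans_lt (max_lt hg.1 hh.1), wk_sub hg.2 hh.2⟩

theorem indep_ne_left (hi : Indep g h) : g ≠ 0 := by
  rintro rfl
  exact one_ne_zero (hi 1 0 (by simp)).1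

theorem indep_ne_right (hi : Indep g h) : h ≠ 0 := by
  rintro rfl
  exact one_ne_zero (hi 0 1 (by simp)).2

theorem indep_X_mul (hg : g ≠ 0) : Indep g (X * g) := by
  intro a b hab
  have h1 : (C a + C b * X) * g = 0 := by rw [← hab]; ring
  have h2 : (C a + C b * X : ℤ[X]) = 0 := (mul_eq_zero.1 h1).resolve_right hg
  have h3 := congrArg (fun p => coeff p 0) h2
  have h4 := congrArg (fun p => coeff p 1) h2
  simp [coeff_C, coeff_X, -eq_intCast] at h3 h4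
  exact ⟨h3, h4⟩

theorem not_indep_iff (hg : g ≠ 0) : ¬ Indep g h ↔ ∃ a b : ℤ, b ≠ 0 ∧ C b * h = C a * g := by
  constructor
  · intro hi
    simp only [Indep, not_forall] at hi
    obtain ⟨a, b, hab, hne⟩ := hi
    refine ⟨-a, b, ?_, ?_⟩
    · rintro rfl
      apply hne
      rw [C_0, zero_mul, add_zero] at hab
      exact ⟨C_eq_zero.1 ((mul_eq_zero.1 hab).resolve_right hg), rfl⟩
    · rw [C_neg]; linear_combination hab
  · rintro ⟨a, b, hb, hab⟩ hi
    exact hb (hi (-a) b (by rw [C_neg]; linear_combination hab)).2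

theorem indep_or {u v : ℤ[X]} (hg : g ≠ 0) (huv : Indep u v) : Indep g u ∨ Indep g v := by
  by_contra hc
  rw [not_or, not_indep_iff hg, not_indep_iff hg] at hc
  obtain ⟨⟨a, b, hb, hab⟩, a', b', hb', hab'⟩ := hc
  have h1 := huv (a' * b) (-(a * b')) (by
    rw [C_neg, C_mul, C_mul]; linear_combination C a' * hab - C a * hab')
  have ha : a = 0 := (mul_eq_zero.1 (neg_eq_zero.1 h1.2)).resolve_right hb'
  rw [ha, C_0, zero_mul] at hab
  exact indep_ne_left huv ((mul_eq_zero.1 hab).resolve_left (by rwa [C_eq_zero]))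

theorem indep_sub_C_mul (hi : Indep g h) (t : ℤ) : Indep g (h - C t * g) := by
  intro a b hab
  have h1 := hi (a - b * t) b (by rw [C_sub, C_mul]; linear_combination hab)
  obtain ⟨h2, h3⟩ := h1
  rw [h3] at h2
  exact ⟨by simpa using h2, h3⟩

theorem indep_neg_right (hi : Indep g h) : Indep g (-h) := by
  intro a b hab
  have h1 := hi a (-b) (by rw [C_neg]; linear_combination hab)
  exact ⟨h1.1, neg_eq_zero.1 h1.2⟩

theorem norm_vec {n : ℕ} (hg : g.natDegree < n) : ‖vec n g‖ = g.supNorm := by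
  apply le_antisymm
  · refine (pi_norm_le_iff_of_nonneg g.supNorm_nonneg).2 fun i => ?_
    have := g.le_supNorm i
    simpa [vec, Int.norm_eq_abs] using this
  · refine sup_le_iff.2 fun i => ?_
    by_cases hi : i < n
    · have := norm_le_pi_norm (vec n g) ⟨i, hi⟩
      simpa [vec, Int.norm_eq_abs] using this
    · rw [coeff_eq_zero_of_natDegree_lt (by omega), norm_zero]
      exact norm_nonneg _

theorem vec_add (n : ℕ) (g h : ℤ[X]) : vec n (g + h) = vec n g + vec n h := by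
  ext i; simp [vec]

theorem vec_sub (n : ℕ) (g h : ℤ[X]) : vec n (g - h) = vec n g - vec n h := by
  ext i; simp [vec]

theorem vec_C_mul (n : ℕ) (c : ℤ) (g : ℤ[X]) : vec n (C c * g) = (c : ℝ) • vec n g := by
  ext i; simp [vec, coeff_C_mul, -eq_intCast]

/-- the height of a square factor -/
theorem sq_sup_le {n : ℕ} {k u : ℤ[X]} (hd : (k ^ 2 * u).natDegree ≤ n) (hu : u ≠ 0) (hk : k ≠ 0) :
    k.supNorm ^ 2 * u.supNorm ≤ 16 ^ n * (k ^ 2 * u).supNorm := by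
  have h1 := gelfond (k ^ 2) u hd
  have hd2 : (k * k).natDegree ≤ n := by
    rw [natDegree_mul (pow_ne_zero 2 hk) hu, sq] at hd
    omega
  have h2 := gelfond k k hd2
  rw [← sq, ← sq] at h2
  have h3 : (16 : ℝ) ^ n = 4 ^ n * 4 ^ n := by rw [← mul_pow]; norm_num
  have h4 := u.supNorm_nonneg
  have h5 : (0 : ℝ) ≤ 4 ^ n := by positivity
  calc k.supNorm ^ 2 * u.supNorm ≤ 4 ^ n * (k ^ 2).supNorm * u.supNorm := by gcongr
    _ = 4 ^ n * ((k ^ 2).supNorm * u.supNorm) := by ring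
    _ ≤ 4 ^ n * (4 ^ n * (k ^ 2 * u).supNorm) := by gcongr
    _ = _ := by rw [h3]; ring

theorem sq_sup_le_of_dvd {n : ℕ} {k : ℤ[X]} (hg : g ≠ 0) (hd : g.natDegree ≤ n) (hk : k ^ 2 ∣ g) :
    k.supNorm ^ 2 ≤ 16 ^ n * g.supNorm := by
  obtain ⟨u, rfl⟩ := hk
  have hu : u ≠ 0 := right_ne_zero_of_mul hg
  have hk : k ≠ 0 := by rintro rfl; simp at hg
  have h1 := sq_sup_le hd hu hk
  have h2 := one_le_sup hu
  nlinarith [sq_nonneg k.supNorm]

end Pool.Agent.VW.Lat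
end

-- part Pool.Agent.P.MP_b0ea37_nt.WLMin
section

namespace Pool.Agent.VW.Lat

open Polynomial

theorem exists_short (n : ℕ) (hn : 2 ≤ n) (M : ℕ) (hM : 1 ≤ M) (r : ℤ) : ∃ g₁ g₂ : ℤ[X],
    Lam n M r g₁ ∧ Lam n M r g₂ ∧ Indep g₁ g₂ ∧
    g₁.supNorm ≤ (M : ℝ) ^ (3 / ((n : ℝ) - 1)) ∧ g₂.supNorm ≤ (M : ℝ) ^ (3 / ((n : ℝ) - 1)) := by
  obtain ⟨m, rfl⟩ : ∃ m, n = m + 2 := ⟨n - 2, by omega⟩
  have e : ((m + 2 : ℕ) : ℝ) - 1 = (m + 1 : ℕ) := by push_cast; ring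
  rw [e]
  set T : ℝ := (M : ℝ) ^ (3 / ((m + 1 : ℕ) : ℝ)) with hT
  have hT0 : 0 ≤ T := by positivity
  have hT3 : T ^ (m + 1) = (M : ℝ) ^ 3 := by
    rw [hT, ← Real.rpow_natCast, ← Real.rpow_mul (Nat.cast_nonneg _),
      div_mul_cancel₀ _ (by positivity)]
    exact_mod_cast Real.rpow_natCast (M : ℝ) 3
  have hlt : M ^ 3 < (⌊T⌋₊ + 1) ^ (m + 1) := by
    have : T ^ (m + 1) < ((⌊T⌋₊ : ℝ) + 1) ^ (m + 1) :=
      pow_lt_pow_left₀ (Nat.lt_floor_add_one T) hT0 (Nat.succ_ne_zero _)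
    rw [hT3] at this
    exact_mod_cast this
  have : NeZero M := ⟨by omega⟩
  let p : (Fin (m + 1) → Fin (⌊T⌋₊ + 1)) → ℤ[X] := fun a =>
    ofFn (m + 1) fun i => ((a i : ℕ) : ℤ)
  obtain ⟨a, b, hab, h⟩ := Fintype.exists_ne_map_eq_of_card_lt
    (fun a => ((((p a).eval r : ℤ) : ZMod (M ^ 2)), (((derivative (p a)).eval r : ℤ) : ZMod M)))
    (by
      simp only [Fintype.card_prod, ZMod.card, Fintype.card_fun, Fintype.card_fin]
      rwa [← pow_succ])
  have hw : Wk M r (p b - p a) := by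
    refine ⟨?_, ?_⟩
    · rw [eval_sub, ← Nat.cast_pow]
      exact (ZMod.intCast_eq_intCast_iff_dvd_sub _ _ _).1 (congrArg Prod.fst h)
    · rw [derivative_sub, eval_sub]
      exact (ZMod.intCast_eq_intCast_iff_dvd_sub _ _ _).1 (congrArg Prod.snd h)
  have hne : p b - p a ≠ 0 := fun h0 => hab (funext fun i => Fin.ext (by
    exact_mod_cast congrFun (injective_ofFn _ (sub_eq_zero.1 h0).symm) i))
  have hd : (p b - p a).natDegree < m + 1 := (natDegree_sub_le _ _).trans_lt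
    (max_lt (ofFn_natDegree_lt (by omega) _) (ofFn_natDegree_lt (by omega) _))
  have hs : (p b - p a).supNorm ≤ T := by
    refine sup_le_iff.2 fun i => ?_
    by_cases hi : i < m + 1
    · rw [coeff_sub, ofFn_coeff_eq_val_of_lt _ hi, ofFn_coeff_eq_val_of_lt _ hi, Int.norm_eq_abs]
      have h1 : ∀ c : Fin (⌊T⌋₊ + 1), ((c : ℕ) : ℝ) ≤ T := fun c =>
        le_trans (by exact_mod_cast Nat.lt_succ_iff.1 c.2) (Nat.floor_le hT0)
      have h2 := h1 (a ⟨i, hi⟩)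
      have h3 := h1 (b ⟨i, hi⟩)
      have h4 : (0 : ℝ) ≤ (a ⟨i, hi⟩ : ℕ) := Nat.cast_nonneg _
      have h5 : (0 : ℝ) ≤ (b ⟨i, hi⟩ : ℕ) := Nat.cast_nonneg _
      push_cast
      exact abs_le.2 ⟨by linarith, by linarith⟩
    · rw [coeff_eq_zero_of_natDegree_lt (by omega), norm_zero]
      exact hT0
  refine ⟨p b - p a, X * (p b - p a), ⟨by omega, hw⟩, ⟨?_, wk_mul _ hw⟩, indep_X_mul hne, hs, ?_⟩
  · rw [natDegree_X_mul hne]
    omega
  · refine sup_le_iff.2 fun i => ?_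
    cases i with
    | zero => simpa using hT0
    | succ i => rw [coeff_X_mul]; exact (le_supNorm _ _).trans hs

theorem wlmin_min (P : ℤ[X] → Prop) (h : ∃ g, P g) :
    ∃ g, P g ∧ ∀ g', P g' → g.supNorm ≤ g'.supNorm := by
  classical
  have hex : ∃ k : ℕ, ∃ g, P g ∧ g.supNorm = k := by
    obtain ⟨g, hg⟩ := h
    obtain ⟨k, hk⟩ := sup_eq_nat g
    exact ⟨k, g, hg, hk⟩
  obtain ⟨g, hg, hk⟩ := Nat.find_spec hex
  refine ⟨g, hg, fun g' hg' => ?_⟩
  obtain ⟨k, hk'⟩ := sup_eq_nat g'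
  rw [hk, hk']
  exact_mod_cast Nat.find_min' hex ⟨g', hg', hk'⟩

theorem exists_min (n : ℕ) (hn : 2 ≤ n) (M : ℕ) (hM : 1 ≤ M) (r : ℤ) : ∃ g₁ g₂ : ℤ[X],
    Min12 n M r g₁ g₂ ∧ g₁.supNorm ≤ g₂.supNorm ∧
    g₂.supNorm ≤ (M : ℝ) ^ (3 / ((n : ℝ) - 1)) := by
  obtain ⟨u, v, hu, hv, huv, hus, hvs⟩ := exists_short n hn M hM r
  obtain ⟨g₁, ⟨h1, h0⟩, hm1⟩ := wlmin_min (fun g => Lam n M r g ∧ g ≠ 0) ⟨u, hu, indep_ne_left huv⟩
  have hex : ∃ w, (Lam n M r w ∧ Indep g₁ w) ∧ w.supNorm ≤ (M : ℝ) ^ (3 / ((n : ℝ) - 1)) := by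
    rcases indep_or h0 huv with h | h
    exacts [⟨u, ⟨hu, h⟩, hus⟩, ⟨v, ⟨hv, h⟩, hvs⟩]
  obtain ⟨w, hw, hws⟩ := hex
  obtain ⟨g₂, ⟨h2, hi⟩, hm2⟩ := wlmin_min (fun g => Lam n M r g ∧ Indep g₁ g) ⟨w, hw⟩
  exact ⟨g₁, g₂, ⟨h1, h2, hi, fun g hg hg0 => hm1 g ⟨hg, hg0⟩, fun g hg hgi => hm2 g ⟨hg, hgi⟩⟩,
    hm1 g₂ ⟨h2, indep_ne_right hi⟩, (hm2 w hw).trans hws⟩

end Pool.Agent.VW.Lat
end

-- part Pool.Agent.P.MP_b0ea37_nt.WLFull
section

namespace Pool.Agent.VW.Lat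

open Polynomial

theorem wlfull_vec_sum {ι : Type} (n : ℕ) (s : Finset ι) (g : ι → ℤ[X]) :
    vec n (∑ i ∈ s, g i) = ∑ i ∈ s, vec n (g i) := by
  classical
  induction s using Finset.induction_on with
  | empty => ext i; simp [vec]
  | insert a s ha ih => rw [Finset.sum_insert ha, Finset.sum_insert ha, vec_add, ih]

theorem wlfull_rep {n : ℕ} (hn : 2 ≤ n) {R' : ℝ} (hR' : 0 ≤ R') {M : ℕ} {r : ℤ}
    (h : Submodule.span ℝ (vec n '' {g | Lam n M r g ∧ g.supNorm ≤ R'}) = ⊤) (u : ℤ[X])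
    (hu : u.natDegree < n) :
    ∃ v : ℤ[X], v.natDegree < n ∧ v.supNorm ≤ n * R' ∧ Wk M r (u - v) := by
  obtain ⟨m, hm, f, hf, hsp⟩ : ∃ m : ℕ, m ≤ n ∧ ∃ f : Fin m → Fin n → ℝ,
      (∀ i, f i ∈ vec n '' {g | Lam n M r g ∧ g.supNorm ≤ R'}) ∧
        Submodule.span ℝ (Set.range f) = ⊤ := by
    obtain ⟨f, h1, h2, -⟩ := Submodule.exists_fun_fin_finrank_span_eq ℝ
      (vec n '' {g | Lam n M r g ∧ g.supNorm ≤ R'})
    exact ⟨_, (Submodule.finrank_le _).trans (Module.finrank_fin_fun ℝ).le, f, h1, h2.trans h⟩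
  choose g hg hgf using hf
  obtain ⟨c, hc⟩ := (Submodule.mem_span_range_iff_exists_fun ℝ).1
    (hsp ▸ Submodule.mem_top : vec n u ∈ Submodule.span ℝ (Set.range f))
  have hw : Lam n M r (∑ i, C ⌊c i⌋ * g i) :=
    Finset.sum_induction _ (Lam n M r) (fun _ _ => Lam.add) ⟨by simp; omega, wk_zero M r⟩
      fun i _ => Lam.C_mul _ (hg i).1
  have hv : (u - ∑ i, C ⌊c i⌋ * g i).natDegree < n :=
    (natDegree_sub_le _ _).trans_lt (max_lt hu hw.1)
  refine ⟨u - ∑ i, C ⌊c i⌋ * g i, hv, ?_, by rw [sub_sub_cancel]; exact hw.2⟩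
  rw [← norm_vec hv, vec_sub, wlfull_vec_sum, ← hc, ← Finset.sum_sub_distrib]
  refine (norm_sum_le _ _).trans ?_
  have h1 : ∀ i ∈ (Finset.univ : Finset (Fin m)), ‖c i • f i - vec n (C ⌊c i⌋ * g i)‖ ≤ R' := by
    intro i _
    rw [vec_C_mul, ← hgf i, ← sub_smul, norm_smul, norm_vec (hg i).1.1, Real.norm_eq_abs,
      abs_of_nonneg (sub_nonneg.2 (Int.floor_le _))]
    have h2 : c i - ⌊c i⌋ ≤ 1 := by linarith [Int.lt_floor_add_one (c i)]
    exact (mul_le_mul h2 (hg i).2 (g i).supNorm_nonneg zero_le_one).trans_eq (one_mul _)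
  refine (Finset.sum_le_card_nsmul _ _ _ h1).trans ?_
  rw [Finset.card_univ, Fintype.card_fin, nsmul_eq_mul]
  exact mul_le_mul_of_nonneg_right (by exact_mod_cast hm) hR'

theorem wlfull_eq {q a b : ℤ} (ha : a ∈ Finset.Ico 0 q) (hb : b ∈ Finset.Ico 0 q)
    (h : q ∣ a - b) : a = b := by
  rw [Finset.mem_Ico] at ha hb
  exact sub_eq_zero.1 (Int.eq_zero_of_abs_lt_dvd h (abs_lt.2 ⟨by linarith, by linarith⟩))

/-- the lattice has full rank in the box `R'` -/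
theorem cnt_full (n : ℕ) (hn : 2 ≤ n) (R R' : ℝ) (hR : 0 ≤ R) (hR' : 0 ≤ R') (M : ℕ) (hM : 1 ≤ M)
    (r : ℤ) (h : Submodule.span ℝ (vec n '' {g | Lam n M r g ∧ g.supNorm ≤ R'}) = ⊤) :
    Cnt (Plus n R M r) ((2 * (R + n * R') + 1) ^ n / (M : ℝ) ^ 3) := by
  classical
  have h1 : ∀ z : ℤ × ℤ, ∃ v : ℤ[X], v.natDegree < n ∧ v.supNorm ≤ n * R' ∧
      Wk M r (C z.1 + C z.2 * (X - C r) - v) := fun z =>
    wlfull_rep hn hR' h _ (lt_of_le_of_lt (by compute_degree) (by omega : 1 < n))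
  choose rep hd hs hw using h1
  obtain ⟨S, hS⟩ : ∃ S : Finset (ℤ × ℤ), S = Finset.Ico 0 ((M : ℤ) ^ 2) ×ˢ Finset.Ico 0 (M : ℤ) :=
    ⟨_, rfl⟩
  have hinj : ∀ z ∈ S, ∀ z' ∈ S, Wk M r (rep z - rep z') → z = z' := by
    intro z hz z' hz' hk
    rw [hS, Finset.mem_product] at hz hz'
    have h2 := wk_add (wk_sub (hw z) (hw z')) hk
    have e : C z.1 + C z.2 * (X - C r) - rep z - (C z'.1 + C z'.2 * (X - C r) - rep z') +
        (rep z - rep z') = C (z.1 - z'.1) + C (z.2 - z'.2) * (X - C r) := by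
      rw [C_sub, C_sub]
      ring
    rw [e] at h2
    refine Prod.ext (wlfull_eq hz.1 hz'.1 ?_) (wlfull_eq hz.2 hz'.2 ?_)
    · simpa [-eq_intCast] using h2.1
    · simpa [-eq_intCast, -map_sub, derivative_sub] using h2.2
  have hcard : (S.card : ℝ) = (M : ℝ) ^ 3 := by
    have e : ((M : ℤ) ^ 2).toNat = M ^ 2 := by rw [← Nat.cast_pow, Int.toNat_natCast]
    rw [hS, Finset.card_product, Int.card_Ico, Int.card_Ico, sub_zero, sub_zero, e,
      Int.toNat_natCast]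
    push_cast
    ring
  have hM0 : (0 : ℝ) < M := by exact_mod_cast hM
  refine (Cnt.double (P := Plus n R M r) (fun f y => ∃ z ∈ S, y = f + rep z) (L := (M : ℝ) ^ 3)
    (by positivity) zero_le_one (cnt_monic n (R + n * R') (by positivity)) ?_ ?_).mono
    (fun _ h => h) (by rw [mul_one])
  · intro f hf
    refine ⟨S.image fun z => f + rep z, ?_, ?_⟩
    · rw [Finset.card_image_of_injOn, hcard]
      intro z hz z' hz' e
      refine hinj z hz z' hz' ?_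
      rw [add_left_cancel e, sub_self]
      exact wk_zero M r
    · intro y hy
      obtain ⟨z, hz, rfl⟩ := Finset.mem_image.1 hy
      obtain ⟨h2, h3⟩ := monic_add_of_lt hf.1 hf.2.1 (hd z)
      exact ⟨⟨h2, h3, (sup_add_le _ _).trans (add_le_add hf.2.2.1 (hs z))⟩, z, hz, rfl⟩
  · intro y _
    refine Cnt.one ?_
    rintro f f' ⟨hf, z, hz, e⟩ ⟨hf', z', hz', e'⟩
    have h2 : rep z - rep z' = f' - f := by linear_combination e' - e
    have h3 := hinj z hz z' hz' (h2 ▸ wk_sub hf'.2.2.2 hf.2.2.2)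
    rw [h3, sub_self] at h2
    exact (sub_eq_zero.1 h2.symm).symm

end Pool.Agent.VW.Lat
end

-- part Pool.Agent.P.MP_b0ea37_nt.WLDef
section

namespace Pool.Agent.VW.Lat

open Polynomial

theorem wldef_idx {n : ℕ} (hn : 1 ≤ n) {g : ℤ[X]} (hg : g.natDegree < n) :
    ∃ i : Fin n, |vec n g i| = g.supNorm := by
  have : Nonempty (Fin n) := ⟨⟨0, hn⟩⟩
  obtain ⟨i, -, hi⟩ := Finset.exists_max_image Finset.univ (fun i : Fin n => |vec n g i|)
    Finset.univ_nonempty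
  refine ⟨i, le_antisymm ?_ ?_⟩
  · rw [← norm_vec hg]; exact norm_le_pi_norm (vec n g) i
  · rw [← norm_vec hg]
    exact (pi_norm_le_iff_of_nonneg (abs_nonneg _)).2 fun j => hi j (Finset.mem_univ j)

/-- distance from the line of the shortest vector -/
theorem wldef_sep {n M : ℕ} {r : ℤ} {g₁ g₂ u : ℤ[X]} (hmin : Min12 n M r g₁ g₂)
    (hu : Lam n M r u) (hi : Indep g₁ u) (t : ℝ) :
    g₂.supNorm / 2 ≤ ‖vec n u - t • vec n g₁‖ := by
  obtain ⟨h1, h2, h12, hm1, hm2⟩ := hmin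
  have hT : g₁.supNorm ≤ g₂.supNorm := hm1 g₂ h2 (indep_ne_right h12)
  have hL : Lam n M r (u - C (round t) * g₁) := hu.sub (h1.C_mul _)
  have h3 := hm2 _ hL (indep_sub_C_mul hi _)
  rw [← norm_vec hL.1, vec_sub, vec_C_mul] at h3
  have e : vec n u - ((round t : ℤ) : ℝ) • vec n g₁ =
      (vec n u - t • vec n g₁) + (t - round t) • vec n g₁ := by
    rw [sub_smul]; abel
  have h4 := norm_add_le (vec n u - t • vec n g₁) ((t - round t) • vec n g₁)
  rw [← e, norm_smul, norm_vec h1.1, Real.norm_eq_abs] at h4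
  have h5 := mul_le_mul_of_nonneg_right (abs_sub_round t) g₁.supNorm_nonneg
  linarith

/-- two points related to a third one differ by a multiple of `g₁` -/
theorem wldef_line {n : ℕ} {g₁ a x y : ℤ[X]} (hg : g₁ ≠ 0) (i : Fin n)
    (hi : |vec n g₁ i| = g₁.supNorm) (hx : ¬ Indep g₁ (a - x)) (hy : ¬ Indep g₁ (a - y)) :
    |vec n x i - vec n y i| = (x - y).supNorm := by
  obtain ⟨c, b, hb, hcb⟩ := (not_indep_iff hg).1 hx
  obtain ⟨c', b', hb', hcb'⟩ := (not_indep_iff hg).1 hy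
  have e : C (b * b') * (x - y) = C (b * c' - b' * c) * g₁ := by
    rw [C_sub, C_mul, C_mul, C_mul]
    linear_combination C b * hcb' - C b' * hcb
  have h1 := congrArg supNorm e
  rw [sup_C_mul_int, sup_C_mul_int] at h1
  have h2 := congrArg (fun g => |vec n g i|) e
  simp only [vec_C_mul, vec_sub, Pi.smul_apply, Pi.sub_apply, smul_eq_mul] at h2
  rw [abs_mul, abs_mul, hi, ← h1] at h2
  have h3 : |((b * b' : ℤ) : ℝ)| ≠ 0 := abs_ne_zero.2 (Int.cast_ne_zero.2 (mul_ne_zero hb hb'))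
  exact mul_left_cancel₀ h3 h2

/-- the lattice has deficient rank in the box `2 * R` -/
theorem cnt_def (n : ℕ) (hn : 2 ≤ n) (R : ℝ) (hR : 0 ≤ R) (M : ℕ) (r : ℤ) (g₁ g₂ : ℤ[X])
    (hmin : Min12 n M r g₁ g₂)
    (h : Submodule.span ℝ (vec n '' {g | Lam n M r g ∧ g.supNorm ≤ 2 * R}) ≠ ⊤) :
    Cnt (Plus n R M r) ((1 + 16 * R / g₂.supNorm) ^ (n - 2) * (1 + 4 * R / g₁.supNorm)) := by
  have hn1 : 1 ≤ n := by omega
  have hg : g₁ ≠ 0 := indep_ne_left hmin.2.2.1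
  have hT1 : 0 < g₁.supNorm := one_pos.trans_le (one_le_sup hg)
  have hT2 : 0 < g₂.supNorm := one_pos.trans_le (one_le_sup (indep_ne_right hmin.2.2.1))
  by_cases hc : 2 * R < g₁.supNorm
  · refine (Cnt.one fun x y hx hy => ?_).mono (fun _ hx => hx) ?_
    · by_contra hne
      have h1 := hx.sub hn1 hy
      have h2 := hmin.2.2.2.1 _ h1.1 (sub_ne_zero.2 hne)
      linarith [h1.2]
    · refine one_le_mul_of_one_le_of_one_le (one_le_pow₀ ?_) ?_
      · exact le_add_of_nonneg_right (by positivity)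
      · exact le_add_of_nonneg_right (by positivity)
  obtain ⟨V, hV⟩ : ∃ V, V = Submodule.span ℝ (vec n '' {g | Lam n M r g ∧ g.supNorm ≤ 2 * R}) :=
    ⟨_, rfl⟩
  have hmem : ∀ g, Lam n M r g → g.supNorm ≤ 2 * R → vec n g ∈ V := fun g h1 h2 =>
    hV ▸ Submodule.subset_span ⟨g, ⟨h1, h2⟩, rfl⟩
  have hV1 : Module.finrank ℝ V < n := by
    have := Submodule.finrank_lt (hV ▸ h : V ≠ ⊤)
    rwa [Module.finrank_fin_fun] at this
  obtain ⟨i, hi⟩ := wldef_idx hn1 hmin.1.1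
  have hi0 : vec n g₁ i ≠ 0 := abs_pos.1 (hi ▸ hT1)
  have hg1V : vec n g₁ ∈ V := hmem g₁ hmin.1 (not_lt.1 hc)
  obtain ⟨V', hV'⟩ : ∃ V' : Submodule ℝ (Fin n → ℝ), ∀ v, v ∈ V' ↔ v ∈ V ∧ v i = 0 :=
    ⟨V ⊓ LinearMap.ker (LinearMap.proj i), fun _ => Iff.rfl⟩
  have hV2 : Module.finrank ℝ V' ≤ n - 2 := by
    have h1 : V' < V := by
      refine lt_of_le_of_ne (fun v hv => ((hV' v).1 hv).1) fun e => hi0 ?_
      exact ((hV' _).1 (e ▸ hg1V)).2
    have := Submodule.finrank_lt_finrank_of_lt h1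
    omega
  refine Cnt.greedy (fun f f' => ¬ Indep g₁ (f - f')) (fun x _ hx => ?_)
    (fun x y _ _ hxy hyx => ?_) (by positivity) (fun S hS hsep => ?_) (fun a ha S hS => ?_)
  · exact indep_ne_right hx (sub_self x)
  · have := indep_neg_right hyx
    rw [neg_sub] at this
    exact hxy this
  · have e : ∀ x y : ℤ[X], (vec n x - (vec n x i / vec n g₁ i) • vec n g₁) -
        (vec n y - (vec n y i / vec n g₁ i) • vec n g₁) =
        vec n (x - y) - (vec n (x - y) i / vec n g₁ i) • vec n g₁ := by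
      intro x y
      rw [vec_sub, Pi.sub_apply, sub_div, sub_smul]
      abel
    have h1 := pack_semi (normSeminorm ℝ (Fin n → ℝ)) V' (n - 2) hV2 (4 * R) (g₂.supNorm / 2)
      (by positivity) (by positivity) S
      (fun x => vec n x - (vec n x i / vec n g₁ i) • vec n g₁) (fun x hx y hy => ?_)
      (fun x hx y hy => ?_) (fun x hx y hy hne => ?_)
    · refine h1.trans (le_of_eq ?_)
      congr 2
      field_simp
      ring
    · have h2 := (hS x hx).sub hn1 (hS y hy)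
      rw [e, hV']
      refine ⟨V.sub_mem (hmem _ h2.1 h2.2) (V.smul_mem _ hg1V), ?_⟩
      rw [Pi.sub_apply, Pi.smul_apply, smul_eq_mul, div_mul_cancel₀ _ hi0, sub_self]
    · have h2 := (hS x hx).sub hn1 (hS y hy)
      rw [e, coe_normSeminorm]
      refine (norm_sub_le _ _).trans ?_
      have h3 : |vec n (x - y) i| ≤ ‖vec n (x - y)‖ := norm_le_pi_norm (vec n (x - y)) i
      rw [norm_smul, norm_vec hmin.1.1, Real.norm_eq_abs, abs_div, hi, div_mul_cancel₀ _ hT1.ne']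
      rw [norm_vec h2.1.1] at h3 ⊢
      linarith [h2.2]
    · have h2 := (hS x hx).sub hn1 (hS y hy)
      rw [e, coe_normSeminorm]
      exact wldef_sep hmin h2.1 (not_not.1 (hsep x hx y hy hne)) _
  · have h1 := pack_semi (normSeminorm ℝ ℝ) ⊤ 1 (by simp) (2 * R) g₁.supNorm (by positivity) hT1 S
      (fun x => vec n x i) (fun _ _ _ _ => Submodule.mem_top) (fun x hx y hy => ?_)
      (fun x hx y hy hne => ?_)
    · refine h1.trans (le_of_eq ?_)
      rw [pow_one]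
      ring
    · rw [coe_normSeminorm, Real.norm_eq_abs, wldef_line hg i hi (hS x hx).2 (hS y hy).2]
      exact ((hS x hx).1.sub hn1 (hS y hy).1).2
    · rw [coe_normSeminorm, Real.norm_eq_abs, wldef_line hg i hi (hS x hx).2 (hS y hy).2]
      exact hmin.2.2.2.1 _ ((hS x hx).1.sub hn1 (hS y hy).1).1 (sub_ne_zero.2 hne)

end Pool.Agent.VW.Lat
end

-- part Pool.Agent.P.MP_b0ea37_nt.WRed
section

namespace Pool.Agent.VW

open Polynomial

theorem red_prod (e : ℕ) (K : ℝ) (hK : 1 ≤ K) (Q : ℤ[X] → Prop)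
    (hQ : ∀ A : ℝ, 1 ≤ A → Cnt (fun u => Q u ∧ u.supNorm ≤ A) (K * A ^ e))
    (W : ℝ) (hW : 1 ≤ W) (ε : ℝ) (hε : 0 < ε) : ∃ C : ℝ, 1 ≤ C ∧ ∀ T : ℝ, 1 ≤ T →
    Cnt (fun g : ℤ[X] => ∃ u v : ℤ[X], Q u ∧ Q v ∧ u ≠ 0 ∧ v ≠ 0 ∧
      u.supNorm * v.supNorm ≤ W * T ∧ g = u * v) (C * T ^ ((e : ℝ) + ε)) := by
  obtain ⟨C, hC, hd⟩ := cnt_dyadic ε hε
  have hWe : 1 ≤ W ^ ε := Real.one_le_rpow hW hε.le
  have hW2 : 1 ≤ (2 * W) ^ e := one_le_pow₀ (by linarith)
  refine ⟨C * W ^ ε * (K * K * (2 * W) ^ e), ?_, fun T hT => ?_⟩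
  · have h1 : 1 ≤ C * W ^ ε := one_le_mul_of_one_le_of_one_le hC hWe
    have h2 : 1 ≤ K * K := one_le_mul_of_one_le_of_one_le hK hK
    exact one_le_mul_of_one_le_of_one_le h1 (one_le_mul_of_one_le_of_one_le h2 hW2)
  have hZ : 1 ≤ W * T := one_le_mul_of_one_le_of_one_le hW hT
  have hT0 : 0 < T := by linarith
  have hW0 : 0 < W := by linarith
  have key : ∀ k : ℕ, (2 : ℝ) ^ k ≤ W * T → Cnt (fun g : ℤ[X] => ∃ z : ℤ[X] × ℤ[X],
      ((Q z.1 ∧ z.1.supNorm ≤ 2 * 2 ^ k) ∧ (Q z.2 ∧ z.2.supNorm ≤ W * T / 2 ^ k)) ∧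
        z.1 * z.2 = g) (K * K * (2 * W) ^ e * T ^ e) := by
    intro k hk
    have hp : (0 : ℝ) < 2 ^ k := by positivity
    have hp1 : (1 : ℝ) ≤ 2 ^ k := one_le_pow₀ (by norm_num)
    have h1 := hQ (2 * 2 ^ k) (by linarith)
    have h2 := hQ (W * T / 2 ^ k) (by rw [le_div_iff₀ hp]; linarith)
    have h3 := (Cnt.prod (Q := fun _ v => Q v ∧ v.supNorm ≤ W * T / 2 ^ k) h1 h2.nonneg
      (fun _ _ => h2)).image (fun z => z.1 * z.2)
    refine h3.mono (fun g hg => hg) (le_of_eq ?_)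
    have : (2 * 2 ^ k : ℝ) ^ e * (W * T / 2 ^ k) ^ e = (2 * W) ^ e * T ^ e := by
      rw [← mul_pow, ← mul_pow]
      congr 1
      field_simp
    calc K * (2 * 2 ^ k) ^ e * (K * (W * T / 2 ^ k) ^ e)
        = K * K * ((2 * 2 ^ k : ℝ) ^ e * (W * T / 2 ^ k) ^ e) := by ring
      _ = _ := by rw [this]; ring
  have h := Cnt.fibre (hd (W * T) hZ) (by positivity) key
  refine h.mono ?_ (le_of_eq ?_)
  · rintro g ⟨u, v, hu, hv, hu0, hv0, huv, rfl⟩
    obtain ⟨k, hk1, hk2⟩ := exists_dyadic u.supNorm (one_le_sup hu0)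
    have hv1 := one_le_sup hv0
    have hp : (0 : ℝ) < 2 ^ k := by positivity
    refine ⟨k, by nlinarith, (u, v), ⟨⟨hu, hk2.le⟩, hv, ?_⟩, rfl⟩
    rw [le_div_iff₀ hp]
    show v.supNorm * 2 ^ k ≤ W * T
    nlinarith
  · rw [Real.mul_rpow hW0.le hT0.le, Real.rpow_add hT0, Real.rpow_natCast]
    ring

/-- products of two nonconstant polynomials -/
theorem cnt_reducible (m : ℕ) (ε : ℝ) (hε : 0 < ε) : ∃ C : ℝ, 1 ≤ C ∧ ∀ T : ℝ, 1 ≤ T →
    Cnt (fun g : ℤ[X] => g.natDegree ≤ m ∧ g.supNorm ≤ T ∧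
      ∃ u v : ℤ[X], 0 < u.natDegree ∧ 0 < v.natDegree ∧ g = u * v) (C * T ^ ((m : ℝ) + ε)) := by
  obtain ⟨C, hC, h⟩ := red_prod m (3 ^ m) (one_le_pow₀ (by norm_num))
    (fun u => u.degree < m) (fun A hA => (cnt_poly m A (by linarith)).mono (fun _ h => h) (by
      rw [← mul_pow]
      exact pow_le_pow_left₀ (by linarith) (by linarith) m))
    (4 ^ m) (one_le_pow₀ (by norm_num)) ε hε
  refine ⟨C, hC, fun T hT => (h T hT).mono ?_ le_rfl⟩
  rintro g ⟨hm, hg, u, v, hu, hv, rfl⟩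
  have hu0 : u ≠ 0 := by rintro rfl; simp at hu
  have hv0 : v ≠ 0 := by rintro rfl; simp at hv
  have hd := natDegree_mul hu0 hv0
  refine ⟨u, v, ?_, ?_, hu0, hv0, ?_, rfl⟩
  · exact (natDegree_lt_iff_degree_lt hu0).1 (by omega)
  · exact (natDegree_lt_iff_degree_lt hv0).1 (by omega)
  · exact (gelfond u v hm).trans (mul_le_mul_of_nonneg_left hg (by positivity))

theorem red_lead (m : ℕ) (c A : ℝ) (hc : 0 ≤ c) (hA : 1 ≤ A) :
    Cnt (fun u : ℤ[X] => (u.natDegree ≤ m ∧ |(u.leadingCoeff : ℝ)| ≤ c) ∧ u.supNorm ≤ A)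
      (((m : ℝ) + 1) * ((2 * c + 1) * 3 ^ m) * A ^ m) := by
  have h1 := cnt_nat_le (m : ℝ) (Nat.cast_nonneg m)
  have h2 := cnt_int_abs c hc
  have h3 := cnt_poly m A (by linarith)
  have h4 := Cnt.prod (Q := fun (_ : ℤ) (g : ℤ[X]) => g.degree < m ∧ g.supNorm ≤ A) h2 h3.nonneg
    (fun _ _ => h3)
  have h5 := Cnt.prod (Q := fun (_ : ℕ) (z : ℤ × ℤ[X]) =>
    |(z.1 : ℝ)| ≤ c ∧ (z.2.degree < m ∧ z.2.supNorm ≤ A)) h1 h4.nonneg (fun _ _ => h4)
  have h6 := h5.inj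
    (P := fun u : ℤ[X] => (u.natDegree ≤ m ∧ |(u.leadingCoeff : ℝ)| ≤ c) ∧ u.supNorm ≤ A)
    (fun u => (u.natDegree, u.leadingCoeff, u.eraseLead)) ?_ ?_
  · refine h6.mono (fun _ h => h) ?_
    have : (2 * A + 1) ^ m ≤ 3 ^ m * A ^ m := by
      rw [← mul_pow]
      exact pow_le_pow_left₀ (by linarith) (by linarith) m
    calc ((m : ℝ) + 1) * ((2 * c + 1) * (2 * A + 1) ^ m)
        ≤ ((m : ℝ) + 1) * ((2 * c + 1) * (3 ^ m * A ^ m)) := by gcongr
      _ = _ := by ring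
  · rintro u ⟨⟨hm, hl⟩, hs⟩
    refine ⟨by exact_mod_cast hm, hl, ?_, ?_⟩
    · by_cases hu : u = 0
      · subst hu
        simp
      · exact (degree_eraseLead_lt hu).trans_le (natDegree_le_iff_degree_le.1 hm)
    · show u.eraseLead.supNorm ≤ A
      rw [sup_le_iff] at hs ⊢
      intro i
      rw [eraseLead_coeff]
      split_ifs
      · simp only [norm_zero]
        linarith
      · exact hs i
  · intro u v _ _ h
    simp only [Prod.mk.injEq] at h
    rw [← eraseLead_add_monomial_natDegree_leadingCoeff u,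
      ← eraseLead_add_monomial_natDegree_leadingCoeff v, h.2.2]
    congr 1
    rw [h.1, h.2.1]

/-- the same with a prescribed leading coefficient -/
theorem cnt_reducible_lead (m : ℕ) (c : ℤ) (hc : c ≠ 0) (ε : ℝ) (hε : 0 < ε) : ∃ C : ℝ, 1 ≤ C ∧
    ∀ T : ℝ, 1 ≤ T → Cnt (fun g : ℤ[X] => g.natDegree = m ∧ g.leadingCoeff = c ∧ g.supNorm ≤ T ∧
      ∃ u v : ℤ[X], 0 < u.natDegree ∧ 0 < v.natDegree ∧ g = u * v)
      (C * T ^ ((m : ℝ) - 1 + ε)) := by
  rcases m with _ | m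
  · refine ⟨1, le_rfl, fun T hT => Cnt.empty ?_ (by positivity)⟩
    rintro g ⟨hm, -, -, u, v, hu, hv, rfl⟩
    have hu0 : u ≠ 0 := by rintro rfl; simp at hu
    have hv0 : v ≠ 0 := by rintro rfl; simp at hv
    have hd := natDegree_mul hu0 hv0
    omega
  have hK : (1 : ℝ) ≤ ((m : ℝ) + 1) * ((2 * |(c : ℝ)| + 1) * 3 ^ m) := by
    have h1 : (1 : ℝ) ≤ (m : ℝ) + 1 := by linarith [Nat.cast_nonneg (α := ℝ) m]
    have h2 : (1 : ℝ) ≤ 2 * |(c : ℝ)| + 1 := by linarith [abs_nonneg (c : ℝ)]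
    exact one_le_mul_of_one_le_of_one_le h1
      (one_le_mul_of_one_le_of_one_le h2 (one_le_pow₀ (by norm_num)))
  obtain ⟨C, hC, h⟩ := red_prod m _ hK
    (fun u => u.natDegree ≤ m ∧ |(u.leadingCoeff : ℝ)| ≤ |(c : ℝ)|)
    (fun A hA => red_lead m _ A (abs_nonneg _) hA)
    (4 ^ (m + 1)) (one_le_pow₀ (by norm_num)) ε hε
  refine ⟨C, hC, fun T hT => (h T hT).mono ?_ (le_of_eq (by congr 2; push_cast; ring))⟩
  rintro g ⟨hm, hl, hg, u, v, hu, hv, rfl⟩
  have hu0 : u ≠ 0 := by rintro rfl; simp at hu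
  have hv0 : v ≠ 0 := by rintro rfl; simp at hv
  have hd := natDegree_mul hu0 hv0
  rw [leadingCoeff_mul] at hl
  have hb : ∀ a : ℤ, a ∣ c → |(a : ℝ)| ≤ |(c : ℝ)| := fun a ha => by
    have : |a| ≤ |c| := Int.le_of_dvd (abs_pos.2 hc) ((abs_dvd_abs a c).2 ha)
    exact_mod_cast this
  refine ⟨u, v, ⟨by omega, hb _ ⟨_, hl.symm⟩⟩, ⟨by omega, hb _ (Dvd.intro_left _ hl)⟩,
    hu0, hv0, ?_, rfl⟩
  exact (gelfond u v hm.le).trans (mul_le_mul_of_nonneg_left hg (by positivity))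

theorem irr_or_reducible (g : ℤ[X]) (hg : 0 < g.natDegree) :
    Irr g ∨ ∃ u v : ℤ[X], 0 < u.natDegree ∧ 0 < v.natDegree ∧ g = u * v := by
  have hg0 : g ≠ 0 := by rintro rfl; simp at hg
  have hc : g.content ≠ 0 := fun h => hg0 (content_eq_zero_iff.1 h)
  have hp := g.isPrimitive_primPart
  have he := g.eq_C_content_mul_primPart
  by_cases hi : Irreducible g.primPart
  · left
    have h1 := (IsPrimitive.Int.irreducible_iff_irreducible_map_cast hp).1 hi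
    have h2 : IsUnit (C (g.content : ℚ)) :=
      isUnit_C.2 (IsUnit.mk0 _ (by exact_mod_cast hc))
    have h3 : up ℚ g = C (g.content : ℚ) * g.primPart.map (Int.castRingHom ℚ) := by
      conv_lhs => rw [he]
      simp [up]
    unfold Irr
    rw [h3]
    exact (irreducible_isUnit_mul h2).2 h1
  · right
    have hnu : ¬ IsUnit g.primPart := fun h => by
      have := natDegree_eq_zero_of_isUnit h
      rw [natDegree_primPart] at this
      omega
    rw [irreducible_iff] at hi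
    push Not at hi
    obtain ⟨a, b, hab, ha, hb⟩ := hi hnu
    have hpos : ∀ w : ℤ[X], w ∣ g.primPart → ¬ IsUnit w → 0 < w.natDegree := by
      intro w hw hn
      by_contra h0
      have h1 : w = C (w.coeff 0) := eq_C_of_natDegree_eq_zero (by omega)
      rw [h1] at hw hn
      exact hn (isUnit_C.2 (hp _ hw))
    refine ⟨C g.content * a, b, ?_, hpos b (Dvd.intro_left _ hab.symm) hb, ?_⟩
    · rw [natDegree_C_mul hc]
      exact hpos a ⟨b, hab⟩ ha
    · rw [mul_assoc, ← hab]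
      exact he

/-- integer points of a progression box on a hypersurface -/
theorem cnt_hyper {k : ℕ} (G : MvPolynomial (Fin k) ℚ) (hG : G ≠ 0) (l : ℕ) (hl : 1 ≤ l)
    (a : Fin k → ℤ) (H : ℝ) (hH : 0 ≤ H) :
    Cnt (fun x : Fin k → ℤ => (∀ i, |(x i : ℝ)| ≤ H ∧ (l : ℤ) ∣ x i - a i) ∧
      MvPolynomial.eval (fun i => (x i : ℚ)) G = 0)
      (G.totalDegree * (2 * H / l + 1) ^ (k - 1)) := by
  classical
  intro S hS
  have hB : (1 : ℝ) ≤ 2 * H / l + 1 := by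
    have : 0 ≤ 2 * H / l := by positivity
    linarith
  obtain ⟨N, hN⟩ : ∃ N : ℕ, N = ⌊2 * H / l + 1⌋₊ := ⟨_, rfl⟩
  have hN1 : 1 ≤ N := by rw [hN]; exact Nat.le_floor (by exact_mod_cast hB)
  have hNB : (N : ℝ) ≤ 2 * H / l + 1 := by rw [hN]; exact Nat.floor_le (by linarith)
  have hT : ∀ i : Fin k, ∃ T : Finset ℚ, (∀ x ∈ S, ((x i : ℤ) : ℚ) ∈ T) ∧ T.card = N := by
    intro i
    have h1 := cnt_class l hl (a i) 0 H hH (S.image fun x => x i) (by
      intro t ht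
      obtain ⟨x, hx, rfl⟩ := Finset.mem_image.1 ht
      simpa using (hS x hx).1 i)
    have h2 : ((S.image fun x => x i).image (Int.cast : ℤ → ℚ)).card ≤ N :=
      Finset.card_image_le.trans (by rw [hN]; exact Nat.le_floor h1)
    obtain ⟨T, hT1, hT2⟩ := Infinite.exists_superset_card_eq _ N h2
    exact ⟨T, fun x hx => hT1 (Finset.mem_image_of_mem _ (Finset.mem_image_of_mem _ hx)), hT2⟩
  choose T hT1 hT2 using hT
  have h1 := MvPolynomial.schwartz_zippel_sup_sum hG T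
  have hN0 : (0 : ℚ≥0) < N := by exact_mod_cast hN1
  have h2 : (G.support.sup fun s => ∑ i, (s i / (T i).card : ℚ≥0)) ≤ G.totalDegree / N := by
    refine Finset.sup_le fun s hs => ?_
    simp only [hT2]
    rw [← Finset.sum_div]
    gcongr
    have := MvPolynomial.le_totalDegree hs
    rw [Finsupp.sum_fintype _ _ (fun _ => rfl)] at this
    exact_mod_cast this
  have h3 := h1.trans h2
  simp only [hT2, Finset.prod_const, Finset.card_univ, Fintype.card_fin] at h3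
  rw [div_le_div_iff₀ (by positivity) hN0] at h3
  have h4 : S.card ≤ ((Fintype.piFinset T).filter fun x => MvPolynomial.eval x G = 0).card := by
    refine Finset.card_le_card_of_injOn (fun x i => ((x i : ℤ) : ℚ)) (fun x hx => ?_) ?_
    · simp only [Finset.coe_filter, Fintype.mem_piFinset, Set.mem_ofPred_eq]
      exact ⟨fun i => hT1 i x hx, (hS x hx).2⟩
    · intro x _ y _ h
      funext i
      have h' : ((x i : ℤ) : ℚ) = ((y i : ℤ) : ℚ) := congrFun h i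
      exact_mod_cast h'
  have h5 : ((Fintype.piFinset T).filter fun x => MvPolynomial.eval x G = 0).card * N ≤
      G.totalDegree * N ^ k := by exact_mod_cast h3
  have h6 : N ^ k ≤ N ^ (k - 1) * N := by
    rw [← pow_succ]
    exact Nat.pow_le_pow_right hN1 (by omega)
  have h7 : S.card ≤ G.totalDegree * N ^ (k - 1) := by
    refine Nat.le_of_mul_le_mul_right (c := N) ?_ hN1
    calc S.card * N ≤ _ := Nat.mul_le_mul_right N h4
      _ ≤ _ := h5
      _ ≤ G.totalDegree * (N ^ (k - 1) * N) := Nat.mul_le_mul_left _ h6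
      _ = _ := by ring
  calc (S.card : ℝ) ≤ G.totalDegree * (N : ℝ) ^ (k - 1) := by exact_mod_cast h7
    _ ≤ _ := by gcongr

end Pool.Agent.VW
end

-- part Pool.Agent.P.MP_b0ea37_nt.WRes
section

namespace Pool.Agent.VW

open Polynomial

theorem wres_coeff (h : ℤ[X]) (r : ℤ) {n : ℕ} (hn : h.natDegree ≤ n) :
    (taylor r h).coeff n = h.coeff n := by
  rcases hn.eq_or_lt with rfl | hn
  · have e := leadingCoeff_taylor r h
    rwa [leadingCoeff, natDegree_taylor] at e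
  · rw [coeff_eq_zero_of_natDegree_lt hn, coeff_eq_zero_of_natDegree_lt (by rwa [natDegree_taylor])]

theorem wres_det {ι : Type} [Fintype ι] [DecidableEq ι] (M : ℤ) (A : Matrix ι ι ℤ) (w u : ι → ℕ)
    (k : ℕ) (hA : ∀ i j, M ^ (w i - u j) ∣ A i j) (hk : k + ∑ j, u j ≤ ∑ i, w i) :
    M ^ k ∣ A.det := by
  rw [Matrix.det_apply']
  refine Finset.dvd_sum fun σ _ => Dvd.dvd.mul_left ?_ _
  refine (pow_dvd_pow M ?_).trans ((Finset.prod_pow_eq_pow_sum Finset.univ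
    (fun j => w (σ j) - u j) M).symm.dvd.trans (Finset.prod_dvd_prod_of_dvd _ _ fun j _ => hA _ j))
  have h1 : ∑ j, w (σ j) ≤ ∑ j, (w (σ j) - u j + u j) := Finset.sum_le_sum fun j _ => by omega
  rw [Equiv.sum_comp σ w, Finset.sum_add_distrib] at h1
  omega

theorem wres_sum_eq {n N : ℕ} (h : n ≤ N + 1) :
    (∑ i ∈ Finset.range N, (n - 1 - i)) * 2 = n * (n - 1) := by
  have e1 : ∑ i ∈ Finset.range n, (n - 1 - i) = ∑ i ∈ Finset.range (N + 1), (n - 1 - i) :=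
    Finset.sum_subset (Finset.range_subset_range.2 h) fun i _ hi => by
      rw [Finset.mem_range] at hi
      omega
  rw [Finset.sum_range_succ, show n - 1 - N = 0 by omega, add_zero] at e1
  rw [← e1, Finset.sum_range_reflect (fun i => i) n, Finset.sum_range_id_mul_two]

theorem wres_sum_le (n N : ℕ) : (∑ i ∈ Finset.range N, (n - 1 - i)) * 2 ≤ n * (n - 1) := by
  rw [← wres_sum_eq (n := n) (N := N + n) (by omega)]
  exact Nat.mul_le_mul_right 2
    (Finset.sum_le_sum_of_subset (Finset.range_subset_range.2 (Nat.le_add_right _ _)))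

theorem resultant_taylor' (g h : ℤ[X]) (r : ℤ) (m m' : ℕ) (hm : g.natDegree ≤ m)
    (hm' : h.natDegree ≤ m') :
    resultant (taylor r g) (taylor r h) m m' = resultant g h m m' := by
  obtain ⟨k, rfl⟩ := Nat.exists_eq_add_of_le hm
  obtain ⟨l, rfl⟩ := Nat.exists_eq_add_of_le hm'
  have e := resultant_taylor g h r
  rw [natDegree_taylor, natDegree_taylor] at e
  rw [resultant_add_left_deg _ _ _ _ _ (natDegree_taylor g r).le,
    resultant_add_left_deg _ _ _ _ _ le_rfl,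
    resultant_add_right_deg _ _ _ _ _ (natDegree_taylor h r).le,
    resultant_add_right_deg _ _ _ _ _ le_rfl, e, wres_coeff h r hm', wres_coeff g r le_rfl]

theorem pow_dvd_resultant (M r : ℤ) (hM : M ≠ 0) (a b m m' : ℕ) (g h : ℤ[X]) (hm : g.natDegree ≤ m)
    (hm' : h.natDegree ≤ m') (hab : a + b ≤ m + m' + 1)
    (hg : ∀ l < a, M ^ (a - l) ∣ (taylor r g).coeff l)
    (hh : ∀ l < b, M ^ (b - l) ∣ (taylor r h).coeff l) :
    M ^ (a * b) ∣ resultant g h m m' := by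
  rw [← resultant_taylor' g h r m m' hm hm']
  rcases Nat.eq_zero_or_pos a with rfl | ha
  · simp
  rcases Nat.eq_zero_or_pos b with rfl | hb
  · simp
  have key : ∀ (f : ℤ[X]) (c e l : ℕ), (∀ l < c, M ^ (c - l) ∣ f.coeff l) → e ≤ c - l →
      M ^ e ∣ f.coeff l := by
    intro f c e l hf he
    rcases lt_or_ge l c with h1 | h1
    · exact (pow_dvd_pow M he).trans (hf l h1)
    · rw [show e = 0 by omega, pow_zero]
      exact one_dvd _
  refine wres_det (ι := Fin (m + m')) M _ (fun i => a + b - 1 - i)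
    (Fin.addCases (motive := fun _ => ℕ) (fun j => a - 1 - j) (fun j => b - 1 - j)) _
    (fun i j => ?_) ?_
  · induction j using Fin.addCases with
    | left j =>
      simp only [sylvester, Matrix.of_apply, Fin.addCases_left]
      split_ifs with h1
      · have h2 := h1.1
        exact key _ b _ _ hh (by omega)
      · exact dvd_zero _
    | right j =>
      simp only [sylvester, Matrix.of_apply, Fin.addCases_right]
      split_ifs with h1
      · have h2 := h1.1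
        exact key _ a _ _ hg (by omega)
      · exact dvd_zero _
  · rw [Fin.sum_univ_add]
    simp only [Fin.addCases_left, Fin.addCases_right]
    rw [Fin.sum_univ_eq_sum_range (fun j => a - 1 - j) m,
      Fin.sum_univ_eq_sum_range (fun j => b - 1 - j) m',
      Fin.sum_univ_eq_sum_range (fun j => a + b - 1 - j) (m + m')]
    have h1 := wres_sum_eq hab
    have h2 := wres_sum_le a m
    have h3 := wres_sum_le b m'
    have e : (a + b) * (a + b - 1) = a * (a - 1) + b * (b - 1) + a * b * 2 := by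
      obtain ⟨a, rfl⟩ : ∃ c, a = c + 1 := ⟨a - 1, by omega⟩
      obtain ⟨b, rfl⟩ : ∃ c, b = c + 1 := ⟨b - 1, by omega⟩
      rw [show a + 1 + (b + 1) - 1 = a + b + 1 by omega, Nat.add_sub_cancel, Nat.add_sub_cancel]
      ring
    omega

theorem wres_one {M r : ℤ} {g : ℤ[X]} (hg : M ∣ g.eval r) :
    ∀ l < 1, M ^ (1 - l) ∣ (taylor r g).coeff l := by
  intro l hl
  obtain rfl : l = 0 := by omega
  simpa using hg

theorem wres_two {M : ℕ} {r : ℤ} {g : ℤ[X]} (hg : Wk M r g) :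
    ∀ l < 2, (M : ℤ) ^ (2 - l) ∣ (taylor r g).coeff l := by
  intro l hl
  obtain rfl | rfl : l = 0 ∨ l = 1 := by omega
  · simpa using hg.1
  · simpa using hg.2

theorem res_one_one {M : ℕ} (hM : 1 ≤ M) {r : ℤ} {g h : ℤ[X]} {m m' : ℕ} (hm : g.natDegree ≤ m)
    (hm' : h.natDegree ≤ m') (h1 : 1 ≤ m + m') (hg : (M : ℤ) ∣ g.eval r) (hh : (M : ℤ) ∣ h.eval r) :
    (M : ℤ) ∣ resultant g h m m' := by
  have := pow_dvd_resultant M r (by omega) 1 1 m m' g h hm hm' (by omega) (wres_one hg)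
    (wres_one hh)
  simpa using this

theorem res_one_two {M : ℕ} (hM : 1 ≤ M) {r : ℤ} {g h : ℤ[X]} {m m' : ℕ} (hm : g.natDegree ≤ m)
    (hm' : h.natDegree ≤ m') (h1 : 2 ≤ m + m') (hg : (M : ℤ) ∣ g.eval r) (hh : Wk M r h) :
    (M : ℤ) ^ 2 ∣ resultant g h m m' :=
  pow_dvd_resultant M r (by omega) 1 2 m m' g h hm hm' (by omega) (wres_one hg) (wres_two hh)

theorem res_two_two {M : ℕ} (hM : 1 ≤ M) {r : ℤ} {g h : ℤ[X]} {m m' : ℕ} (hm : g.natDegree ≤ m)
    (hm' : h.natDegree ≤ m') (h1 : 3 ≤ m + m') (hg : Wk M r g) (hh : Wk M r h) :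
    (M : ℤ) ^ 4 ∣ resultant g h m m' :=
  pow_dvd_resultant M r (by omega) 2 2 m m' g h hm hm' (by omega) (wres_two hg) (wres_two hh)

/-- a common root in characteristic `p` -/
theorem dvd_resultant_of_root {p : ℕ} {K : Type} [Field K] [CharP K p] {g h : ℤ[X]} {m m' : ℕ}
    (hm : g.natDegree ≤ m) (hm' : h.natDegree ≤ m') (h1 : 1 ≤ m + m') {z : K}
    (hg : (up K g).eval z = 0) (hh : (up K h).eval z = 0) : (p : ℤ) ∣ resultant g h m m' := by
  obtain ⟨u, v, -, -, e⟩ := exists_mul_add_mul_eq_C_resultant g h hm hm' (by omega)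
  have e1 := congrArg (fun f => (up K f).eval z) e
  simp only [up, Polynomial.map_add, Polynomial.map_mul, eval_add, eval_mul, map_C, eval_C] at e1
  rw [hg, hh, zero_mul, zero_mul, add_zero] at e1
  exact (CharP.intCast_eq_zero_iff K p _).1 e1.symm

theorem resultant_ne_zero_of_coprime {g h : ℤ[X]} (H : IsCoprime (up ℚ g) (up ℚ h)) :
    resultant g h ≠ 0 := by
  intro h0
  refine resultant_ne_zero _ _ H ?_
  rw [natDegree_map_eq_of_injective (Int.castRingHom ℚ).injective_int,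
    natDegree_map_eq_of_injective (Int.castRingHom ℚ).injective_int, resultant_map_map, h0,
    map_zero]

theorem natDegree_resultant_le {R : Type} [CommRing R] (g h : R[X][X]) (m m' b : ℕ)
    (hg : ∀ i, (g.coeff i).natDegree ≤ b) (hh : ∀ i, (h.coeff i).natDegree ≤ b) :
    (resultant g h m m').natDegree ≤ (m + m') * b := by
  rw [resultant, Matrix.det_apply']
  refine natDegree_sum_le_of_forall_le _ _ fun σ _ => natDegree_mul_le.trans ?_
  rw [natDegree_intCast, zero_add]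
  refine (natDegree_prod_le _ _).trans ((Finset.sum_le_card_nsmul _ _ b fun j _ => ?_).trans ?_)
  · induction j using Fin.addCases with
    | left j =>
      simp only [sylvester, Matrix.of_apply, Fin.addCases_left]
      split_ifs
      · exact hh _
      · simp
    | right j =>
      simp only [sylvester, Matrix.of_apply, Fin.addCases_right]
      split_ifs
      · exact hg _
      · simp
  · simp

end Pool.Agent.VW
end

-- part Pool.Agent.P.MP_b0ea37_nt.WLSpec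
section

namespace Pool.Agent.VW.Lat

open Polynomial

theorem wlspec_not_dvd {g₁ g₂ : ℤ[X]} (hi : Indep g₁ g₂) (hd : g₂.natDegree ≤ g₁.natDegree) :
    ¬ up ℚ g₁ ∣ up ℚ g₂ := by
  rintro ⟨q, hq⟩
  have hinj : Function.Injective (Int.castRingHom ℚ) := Int.cast_injective
  have h1 : up ℚ g₁ ≠ 0 := (Polynomial.map_ne_zero_iff hinj).2 (indep_ne_left hi)
  have h2 : up ℚ g₂ ≠ 0 := (Polynomial.map_ne_zero_iff hinj).2 (indep_ne_right hi)
  have h3 : q ≠ 0 := by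
    rintro rfl
    exact h2 (by rw [hq, mul_zero])
  have h4 := congrArg natDegree hq
  rw [natDegree_mul h1 h3, natDegree_map_eq_of_injective hinj,
    natDegree_map_eq_of_injective hinj] at h4
  obtain ⟨c, rfl⟩ := natDegree_eq_zero.1 (by omega : q.natDegree = 0)
  refine (not_indep_iff (indep_ne_left hi)).2 ⟨c.num, c.den, by exact_mod_cast c.den_ne_zero,
    Polynomial.map_injective _ hinj ?_⟩ hi
  rw [Polynomial.map_mul, Polynomial.map_mul, map_C, map_C]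
  change C ((c.den : ℤ) : ℚ) * up ℚ g₂ = C ((c.num : ℤ) : ℚ) * up ℚ g₁
  rw [hq, ← Rat.mul_den_eq_num, C_mul, Int.cast_natCast]
  ring

theorem res_bound (n : ℕ) (hn : 3 ≤ n) (M : ℕ) (hM : 1 ≤ M) (r : ℤ) (g₁ g₂ : ℤ[X])
    (h₁ : Lam n M r g₁) (h₂ : Lam n M r g₂) (hi : Indep g₁ g₂) (hs : ¬ Spec n g₁) :
    (M : ℝ) ^ 4 ≤ (2 * n).factorial * (g₁.supNorm * g₂.supNorm) ^ (n - 1) := by
  obtain ⟨m, rfl⟩ : ∃ m, n = m + 1 := ⟨n - 1, by omega⟩
  rw [Spec, not_or, not_not] at hs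
  have d1 : g₁.natDegree = m := by have := h₁.1; omega
  have d2 : g₂.natDegree ≤ m := by have := h₂.1; omega
  have hc : IsCoprime (up ℚ g₁) (up ℚ g₂) :=
    (Irreducible.coprime_iff_not_dvd hs.2).2 (wlspec_not_dvd hi (by omega))
  have h0 := resultant_ne_zero_of_coprime hc
  have hne : resultant g₁ g₂ m m ≠ 0 := by
    obtain ⟨k, hk⟩ := Nat.exists_eq_add_of_le d2
    have e := resultant_add_right_deg g₁ g₂ m g₂.natDegree k le_rfl
    rw [← hk] at e
    rw [e]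
    refine mul_ne_zero (pow_ne_zero _ ?_) (by rwa [d1] at h0)
    rw [← d1]
    exact leadingCoeff_ne_zero.2 (indep_ne_left hi)
  have hd := res_two_two hM d1.le d2 (by omega) h₁.2 h₂.2
  have h3 : (M : ℤ) ^ 4 ≤ |resultant g₁ g₂ m m| :=
    Int.le_of_dvd (abs_pos.2 hne) ((dvd_abs _ _).2 hd)
  have h4 : (M : ℝ) ^ 4 ≤ ‖resultant g₁ g₂ m m‖ := by
    rw [Int.norm_eq_abs]
    exact_mod_cast h3
  have h5 : ((m + m).factorial : ℝ) ≤ (2 * (m + 1)).factorial := by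
    exact_mod_cast Nat.factorial_le (by omega)
  refine h4.trans ((norm_resultant_le g₁ g₂ m m).trans ?_)
  rw [Nat.add_sub_cancel, mul_pow, mul_assoc]
  exact mul_le_mul_of_nonneg_right h5
    (mul_nonneg (pow_nonneg g₁.supNorm_nonneg _) (pow_nonneg g₂.supNorm_nonneg _))

theorem wlspec_cnt (m : ℕ) (U : ℝ) (hU : 1 ≤ U) :
    Cnt (fun g : ℤ[X] => g.natDegree < m ∧ g.supNorm ≤ U) ((3 * U) ^ m) :=
  (cnt_poly m U (by linarith)).mono
    (fun g hg => ⟨degree_le_natDegree.trans_lt (by exact_mod_cast hg.1), hg.2⟩)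
    (pow_le_pow_left₀ (by linarith) (by linarith) _)

theorem fam_all (n : ℕ) : Fam n (3 ^ n) n fun g => g ≠ 0 ∧ g.natDegree < n := by
  refine ⟨fun g hg => hg, fun c g hc hg => ⟨right_ne_zero_of_mul hg.1, ?_⟩, fun U hU => ?_⟩
  · rw [← natDegree_C_mul hc (p := g)]
    exact hg.2
  · exact (wlspec_cnt n U hU).mono (fun g hg => ⟨hg.1.2, hg.2⟩)
      (by rw [Real.rpow_natCast, mul_pow])

theorem wlspec_irr {c : ℤ} (hc : c ≠ 0) {g : ℤ[X]} (hg : Irr g) : Irr (C c * g) := by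
  unfold Irr up
  rw [Polynomial.map_mul, map_C]
  refine (irreducible_isUnit_mul (isUnit_C.2 (IsUnit.mk0 _ ?_))).2 hg
  simpa using hc

theorem fam_spec (n : ℕ) (hn : 3 ≤ n) (ε : ℝ) (hε : 0 < ε) : ∃ A : ℝ, 0 ≤ A ∧
    Fam n A ((n : ℝ) - 1 + ε) fun g => g ≠ 0 ∧ g.natDegree < n ∧ Spec n g := by
  obtain ⟨m, rfl⟩ : ∃ m, n = m + 1 := ⟨n - 1, by omega⟩
  obtain ⟨A, hA, h⟩ := cnt_reducible m ε hε
  refine ⟨3 ^ m + A, by positivity, fun g hg => ⟨hg.1, hg.2.1⟩, fun c g hc hg => ?_,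
    fun U hU => ?_⟩
  · obtain ⟨h1, h2, h3⟩ := hg
    rw [Spec, natDegree_C_mul hc] at h3
    rw [natDegree_C_mul hc] at h2
    exact ⟨right_ne_zero_of_mul h1, h2, h3.imp_right fun h4 h5 => h4 (wlspec_irr hc h5)⟩
  · refine ((wlspec_cnt m U hU).or (h U hU)).mono ?_ ?_
    · rintro g ⟨⟨-, h2, h3⟩, h4⟩
      by_cases h5 : g.natDegree < m
      · exact Or.inl ⟨h5, h4⟩
      · refine Or.inr ⟨by omega, h4, (irr_or_reducible g (by omega)).resolve_left ?_⟩
        exact h3.resolve_left (by omega)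
    · have e : ((m + 1 : ℕ) : ℝ) - 1 + ε = m + ε := by push_cast; ring
      have h1 : U ^ m ≤ U ^ ((m : ℝ) + ε) := by
        rw [← Real.rpow_natCast]
        exact Real.rpow_le_rpow_of_exponent_le hU (by linarith)
      rw [e, add_mul, mul_pow]
      exact add_le_add (mul_le_mul_of_nonneg_left h1 (by positivity)) le_rfl

theorem wlspec_dvd {k g : ℤ[X]} {c : ℤ} (hk : k.IsPrimitive) (h0 : C c * g ≠ 0)
    (h : k ^ 2 ∣ C c * g) : k ^ 2 ∣ g := by
  have h2 : (k ^ 2).IsPrimitive := by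
    rw [sq]
    exact hk.mul hk
  rw [← h2.dvd_primPart_iff_dvd h0, primPart_mul h0] at h
  exact (((isUnit_primPart_C c).dvd_mul_left).1 h).trans (primPart_dvd g)

theorem wlspec_fibre (e j : ℕ) (η U : ℝ) (hη : 1 ≤ η) (hU : 1 ≤ U) (k : ℤ[X])
    (hd : k.natDegree = e) (hk : η ≤ k.supNorm) :
    Cnt (fun g : ℤ[X] => g ≠ 0 ∧ g.natDegree < 2 * e + j ∧ k ^ 2 ∣ g ∧ g.supNorm ≤ U)
      ((3 * (16 ^ (2 * e + j) * U / η ^ 2)) ^ j) := by
  have hk0 : k ≠ 0 := by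
    rintro rfl
    rw [supNorm_zero] at hk
    linarith
  have key : ∀ g : ℤ[X], (g ≠ 0 ∧ g.natDegree < 2 * e + j ∧ k ^ 2 ∣ g ∧ g.supNorm ≤ U) →
      ∃ u : ℤ[X], (u ≠ 0 ∧ u.natDegree < j ∧ u.supNorm ≤ 16 ^ (2 * e + j) * U / η ^ 2) ∧
        g = k ^ 2 * u := by
    rintro g ⟨h1, h2, ⟨u, rfl⟩, h4⟩
    have hu : u ≠ 0 := right_ne_zero_of_mul h1
    refine ⟨u, ⟨hu, ?_, ?_⟩, rfl⟩
    · rw [natDegree_mul (pow_ne_zero 2 hk0) hu, natDegree_pow, hd] at h2
      omega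
    · rw [le_div_iff₀ (by positivity), mul_comm]
      exact (mul_le_mul_of_nonneg_right (pow_le_pow_left₀ (by linarith) hk 2)
        u.supNorm_nonneg).trans ((sq_sup_le h2.le hu hk0).trans
          (mul_le_mul_of_nonneg_left h4 (by positivity)))
  refine Cnt.of_mem (by positivity) fun g₀ hg₀ => ?_
  obtain ⟨u₀, ⟨h1, -, h2⟩, -⟩ := key g₀ hg₀
  refine (wlspec_cnt j _ ((one_le_sup h1).trans h2)).rel (fun g u => g = k ^ 2 * u)
    (fun g hg => ?_) fun g g' u _ _ h3 h4 => h3.trans h4.symm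
  obtain ⟨u, hu, h3⟩ := key g hg
  exact ⟨u, hu.2, h3⟩

theorem fam_sq (n : ℕ) : ∃ C₀ : ℝ, 1 ≤ C₀ ∧ ∀ (e : ℕ) (η : ℝ), 1 ≤ η → 2 * e < n →
    Fam n (C₀ * η ^ (5 * (e : ℝ) + 1 - 2 * n)) ((n : ℝ) - 2 * e) (Sq n e η) := by
  have h16 : (1 : ℝ) ≤ 3 * 16 ^ n := by
    have : (1 : ℝ) ≤ 16 ^ n := one_le_pow₀ (by norm_num)
    linarith
  refine ⟨5 ^ (n + 1) * (3 * 16 ^ n) ^ n,
    one_le_mul_of_one_le_of_one_le (one_le_pow₀ (by norm_num)) (one_le_pow₀ h16),
    fun e η hη he => ⟨fun g hg => ⟨hg.1, hg.2.1⟩, ?_, fun U hU => ?_⟩⟩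
  · rintro c g hc ⟨h1, h2, k, h3, h4, h5, h6, h7⟩
    rw [natDegree_C_mul hc] at h2
    exact ⟨right_ne_zero_of_mul h1, h2, k, h3, h4, h5, h6, wlspec_dvd h3 h1 h7⟩
  · obtain ⟨j, rfl⟩ := Nat.exists_eq_add_of_le he.le
    have hη0 : 0 < η := by linarith
    have hQ : Cnt (fun k : ℤ[X] => k.natDegree = e ∧ η ≤ k.supNorm ∧ k.supNorm ≤ 2 * η)
        ((5 * η) ^ (e + 1)) :=
      (cnt_poly (e + 1) (2 * η) (by linarith)).mono
        (fun k hk => ⟨degree_le_natDegree.trans_lt (by exact_mod_cast (by omega)), hk.2.2⟩)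
        (pow_le_pow_left₀ (by linarith) (by linarith) _)
    refine (hQ.fibre (by positivity) fun k hk =>
      wlspec_fibre e j η U hη hU k hk.1 hk.2.1).mono ?_ ?_
    · rintro g ⟨⟨h1, h2, k, -, h4, h5, h6, h7⟩, h8⟩
      exact ⟨k, ⟨h4, h5, h6⟩, h1, h2, h7, h8⟩
    · have e1 : 5 * (e : ℝ) + 1 - 2 * ((2 * e + j : ℕ) : ℝ) =
          ((e + 1 : ℕ) : ℝ) - ((2 * j : ℕ) : ℝ) := by push_cast; ring
      have e2 : ((2 * e + j : ℕ) : ℝ) - 2 * e = j := by push_cast; ring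
      rw [e1, e2, Real.rpow_sub hη0, Real.rpow_natCast, Real.rpow_natCast, Real.rpow_natCast]
      have e3 : (5 * η) ^ (e + 1) * (3 * (16 ^ (2 * e + j) * U / η ^ 2)) ^ j =
          5 ^ (e + 1) * (3 * 16 ^ (2 * e + j)) ^ j * (η ^ (e + 1) / η ^ (2 * j)) * U ^ j := by
        rw [pow_mul η 2 j]
        simp only [mul_pow, div_pow]
        ring
      rw [e3]
      refine mul_le_mul_of_nonneg_right (mul_le_mul_of_nonneg_right ?_ (by positivity))
        (by positivity)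
      exact mul_le_mul (pow_le_pow_right₀ (by norm_num) (by omega))
        (pow_le_pow_right₀ h16 (by omega)) (by positivity) (by positivity)

end Pool.Agent.VW.Lat
end

-- part Pool.Agent.P.MP_b0ea37_nt.WLNum
section

namespace Pool.Agent.VW.Lat

open Polynomial

/-- full rank -/
theorem num_full (n K : ℕ) (hn : 5 ≤ n) (H E c M : ℝ) (hH : 1 ≤ H) (hE : 0 ≤ E) (hM : 1 ≤ M) :
    E * ((2 * (K * H + n * (2 * (K * H))) + 1) ^ n / M ^ 3) * (M ^ (3 / ((n : ℝ) - 1)) / H) ^ c ≤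
      (2 * K * (1 + 2 * n) + 1) ^ n * E * H ^ ((n : ℝ) - c) * M ^ (3 * c / ((n : ℝ) - 1) - 3) := by
  have hH0 : 0 < H := by linarith
  have hM0 : 0 < M := by linarith
  have hK : (0 : ℝ) ≤ K := Nat.cast_nonneg K
  have hn0 : (0 : ℝ) ≤ n := Nat.cast_nonneg n
  have h1 : 2 * (K * H + n * (2 * (K * H))) + 1 ≤ (2 * K * (1 + 2 * n) + 1) * H := by nlinarith
  have h2 : (2 * (K * H + n * (2 * (K * H))) + 1) ^ n ≤ (2 * K * (1 + 2 * n) + 1) ^ n * H ^ n := by
    rw [← mul_pow]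
    exact pow_le_pow_left₀ (by positivity) h1 n
  have h3 : (M ^ (3 / ((n : ℝ) - 1)) / H) ^ c = M ^ (3 * c / ((n : ℝ) - 1)) / H ^ c := by
    rw [Real.div_rpow (by positivity) hH0.le, ← Real.rpow_mul hM0.le]
    congr 2
    ring
  have h4 : H ^ ((n : ℝ) - c) = H ^ n / H ^ c := by
    rw [Real.rpow_sub hH0, Real.rpow_natCast]
  have h5 : M ^ (3 * c / ((n : ℝ) - 1) - 3) = M ^ (3 * c / ((n : ℝ) - 1)) / M ^ 3 := by
    rw [Real.rpow_sub hM0, Real.rpow_ofNat]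
  rw [h3, h4, h5]
  calc _ ≤ E * (((2 * K * (1 + 2 * n) + 1) ^ n * H ^ n) / M ^ 3) *
        (M ^ (3 * c / ((n : ℝ) - 1)) / H ^ c) := by gcongr
    _ = _ := by ring

/-- second minimum above `H` -/
theorem num_line (n K : ℕ) (H T₁ T₂ U : ℝ) (hU : 0 < U) (hUH : U ≤ H) (hT : U ≤ T₁)
    (h₂ : H ≤ T₂) : (1 + 16 * (K * H) / T₂) ^ (n - 2) * (1 + 4 * (K * H) / T₁) ≤
      (1 + 16 * K) ^ (n - 2) * (1 + 4 * K) * H / U := by
  have hH0 : 0 < H := hU.trans_le hUH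
  have hT1 : 0 < T₁ := hU.trans_le hT
  have hT2 : 0 < T₂ := hH0.trans_le h₂
  have hK : (0 : ℝ) ≤ K := Nat.cast_nonneg K
  have h1 : 1 + 16 * (K * H) / T₂ ≤ 1 + 16 * K := by
    have : 16 * (K * H) / T₂ ≤ 16 * K := by
      rw [div_le_iff₀ hT2]
      nlinarith [mul_le_mul_of_nonneg_left h₂ hK]
    linarith
  have h2 : 1 + 4 * (K * H) / T₁ ≤ (1 + 4 * K) * H / U := by
    have a1 : 1 ≤ H / U := (one_le_div hU).2 hUH
    have a2 : 4 * (K * H) / T₁ ≤ 4 * (K * H) / U := by gcongr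
    calc _ ≤ H / U + 4 * (K * H) / U := add_le_add a1 a2
      _ = _ := by ring
  calc _ ≤ (1 + 16 * (K : ℝ)) ^ (n - 2) * ((1 + 4 * K) * H / U) := by gcongr
    _ = _ := by ring

/-- second minimum below `H` -/
theorem num_def (n K : ℕ) (hn : 5 ≤ n) (H E c T₁ T₂ w : ℝ) (hE : 0 ≤ E) (hc : 1 / 2 ≤ c)
    (h₁ : 0 < T₁) (h₁₂ : T₁ ≤ T₂) (h₂ : T₂ ≤ H) (hw : 0 < w) (hT : w ^ 2 ≤ T₁ * T₂) :
    E * ((1 + 16 * (K * H) / T₂) ^ (n - 2) * (1 + 4 * (K * H) / T₁)) * (T₂ / H) ^ c ≤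
      (1 + 16 * K) ^ (n - 2) * (1 + 4 * K) * E * H ^ ((n : ℝ) - 3 / 2) / w ^ ((n : ℝ) - 3 / 2) := by
  have hT2 : 0 < T₂ := h₁.trans_le h₁₂
  have hH0 : 0 < H := hT2.trans_le h₂
  have hK : (0 : ℝ) ≤ K := Nat.cast_nonneg K
  have hn5 : (5 : ℝ) ≤ n := by exact_mod_cast hn
  have h1 : 1 + 16 * (K * H) / T₂ ≤ (1 + 16 * K) * (H / T₂) := by
    have a1 : 1 ≤ H / T₂ := (one_le_div hT2).2 h₂
    calc _ ≤ H / T₂ + 16 * (K * H) / T₂ := by linarith
      _ = _ := by ring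
  have h2 : 1 + 4 * (K * H) / T₁ ≤ (1 + 4 * K) * (H / T₁) := by
    have a1 : 1 ≤ H / T₁ := (one_le_div h₁).2 (h₁₂.trans h₂)
    calc _ ≤ H / T₁ + 4 * (K * H) / T₁ := by linarith
      _ = _ := by ring
  have h3 : (T₂ / H) ^ c ≤ (T₂ / H) ^ (1 / 2 : ℝ) :=
    Real.rpow_le_rpow_of_exponent_ge (by positivity) ((div_le_one hH0).2 h₂) hc
  have hwT : w ≤ T₂ := by
    have : w ^ 2 ≤ T₂ ^ 2 := by nlinarith
    exact (pow_le_pow_iff_left₀ hw.le hT2.le two_ne_zero).1 this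
  have e1 : ((n - 2 : ℕ) : ℝ) = (n : ℝ) - 2 := by
    rw [Nat.cast_sub (by omega)]
    norm_num
  have h4 : w ^ ((n : ℝ) - 3 / 2) ≤ T₁ * T₂ * T₂ ^ ((n : ℝ) - 7 / 2) := by
    have : w ^ ((n : ℝ) - 3 / 2) = w ^ 2 * w ^ ((n : ℝ) - 7 / 2) := by
      rw [← Real.rpow_natCast, ← Real.rpow_add hw]
      congr 1
      push_cast
      ring
    rw [this]
    exact mul_le_mul hT (Real.rpow_le_rpow hw.le hwT (by linarith)) (by positivity) (by positivity)
  have e2 : H ^ (n - 2) * H = H ^ ((n : ℝ) - 3 / 2) * H ^ (1 / 2 : ℝ) := by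
    rw [← Real.rpow_natCast, e1, ← Real.rpow_add hH0, ← Real.rpow_add_one hH0.ne']
    congr 1
    ring
  have e3 : T₂ ^ (n - 2) = T₂ * T₂ ^ ((n : ℝ) - 7 / 2) * T₂ ^ (1 / 2 : ℝ) := by
    rw [← Real.rpow_natCast, e1, mul_assoc, ← Real.rpow_add hT2, mul_comm,
      ← Real.rpow_add_one hT2.ne']
    congr 1
    ring
  have h5 : (H / T₂) ^ (n - 2) * (H / T₁) * (T₂ / H) ^ (1 / 2 : ℝ) =
      H ^ ((n : ℝ) - 3 / 2) / (T₁ * T₂ * T₂ ^ ((n : ℝ) - 7 / 2)) := by
    have p1 : 0 < H ^ (1 / 2 : ℝ) := by positivity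
    have p2 : 0 < T₂ ^ (1 / 2 : ℝ) := by positivity
    have p3 : 0 < T₂ ^ ((n : ℝ) - 7 / 2) := by positivity
    rw [div_pow, Real.div_rpow hT2.le hH0.le, div_mul_div_comm, e2, e3]
    field_simp
  calc _ ≤ E * (((1 + 16 * K) * (H / T₂)) ^ (n - 2) * ((1 + 4 * K) * (H / T₁))) *
        (T₂ / H) ^ (1 / 2 : ℝ) := by gcongr
    _ = (1 + 16 * K) ^ (n - 2) * (1 + 4 * K) * E *
        ((H / T₂) ^ (n - 2) * (H / T₁) * (T₂ / H) ^ (1 / 2 : ℝ)) := by rw [mul_pow]; ring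
    _ = (1 + 16 * K) ^ (n - 2) * (1 + 4 * K) * E * H ^ ((n : ℝ) - 3 / 2) /
        (T₁ * T₂ * T₂ ^ ((n : ℝ) - 7 / 2)) := by rw [h5]; ring
    _ ≤ _ := by gcongr

/-- the resultant bound turned round -/
theorem num_res (n : ℕ) (hn : 5 ≤ n) (F M W : ℝ) (hF : 1 ≤ F) (hM : 1 ≤ M) (hW : 0 ≤ W)
    (h : M ^ 4 ≤ F * W ^ (n - 1)) : (M ^ (2 / ((n : ℝ) - 1)) / F) ^ 2 ≤ W := by
  have hM0 : 0 < M := by linarith
  have hF0 : 0 < F := by linarith
  have hn5 : (5 : ℝ) ≤ n := by exact_mod_cast hn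
  have e1 : ((n - 1 : ℕ) : ℝ) = (n : ℝ) - 1 := by
    rw [Nat.cast_sub (by omega)]
    norm_num
  have hne : (n : ℝ) - 1 ≠ 0 := by linarith
  refine (pow_le_pow_iff_left₀ (by positivity) hW (show n - 1 ≠ 0 by omega)).1 ?_
  have e2 : ((M ^ (2 / ((n : ℝ) - 1))) ^ 2) ^ (n - 1) = M ^ 4 := by
    rw [← pow_mul, ← Real.rpow_natCast, ← Real.rpow_mul hM0.le, ← Real.rpow_natCast]
    congr 1
    push_cast [e1]
    field_simp
    norm_num
  have h3 : F ≤ (F ^ 2) ^ (n - 1) := by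
    rw [← pow_mul]
    exact le_self_pow₀ hF (by omega)
  rw [div_pow, div_pow, e2, div_le_iff₀ (by positivity)]
  calc _ ≤ F * W ^ (n - 1) := h
    _ ≤ (F ^ 2) ^ (n - 1) * W ^ (n - 1) := by gcongr
    _ = _ := mul_comm _ _

theorem num_b (n : ℕ) (hn : 5 ≤ n) (F M : ℝ) (hF : 1 ≤ F) (hM : 1 ≤ M) :
    1 / (M ^ (2 / ((n : ℝ) - 1)) / F) ^ ((n : ℝ) - 3 / 2) ≤
      F ^ n * M ^ (1 / ((n : ℝ) - 1) - 2) := by
  have hM0 : 0 < M := by linarith
  have hF0 : 0 < F := by linarith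
  have hn5 : (5 : ℝ) ≤ n := by exact_mod_cast hn
  have hne : (n : ℝ) - 1 ≠ 0 := by linarith
  have e2 : (M ^ (2 / ((n : ℝ) - 1))) ^ ((n : ℝ) - 3 / 2) = (M ^ (1 / ((n : ℝ) - 1) - 2))⁻¹ := by
    rw [← Real.rpow_mul hM0.le, ← Real.rpow_neg hM0.le]
    congr 1
    field_simp
    ring
  have h3 : F ^ ((n : ℝ) - 3 / 2) ≤ F ^ n := by
    rw [← Real.rpow_natCast]
    exact Real.rpow_le_rpow_of_exponent_le hF (by linarith)
  rw [Real.div_rpow (by positivity) hF0.le, e2, one_div_div, div_inv_eq_mul]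
  gcongr

/-- from a power of the modulus to the shape of `ps_pow` -/
theorem num_up (H M a b μ : ℝ) (hH : 1 ≤ H) (hM : 1 ≤ M) (hb : 0 ≤ b) (h : M ≤ H ^ μ) :
    H ^ a * M ^ (b - 2) ≤ H ^ (a + b * μ) / M ^ 2 := by
  have hM0 : 0 < M := by linarith
  have hH0 : 0 < H := by linarith
  have h1 : M ^ b ≤ H ^ (b * μ) := by
    rw [mul_comm, Real.rpow_mul hH0.le]
    exact Real.rpow_le_rpow hM0.le h hb
  rw [Real.rpow_sub hM0, Real.rpow_add hH0, Real.rpow_ofNat, ← mul_div_assoc]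
  gcongr

theorem num_down (H M a b μ : ℝ) (hH : 1 ≤ H) (hM : 1 ≤ M) (hb : 0 ≤ b) (h : H ^ μ ≤ M) :
    H ^ a * M ^ (-b - 2) ≤ H ^ (a - b * μ) / M ^ 2 := by
  have hM0 : 0 < M := by linarith
  have hH0 : 0 < H := by linarith
  have h1 : M ^ (-b) ≤ H ^ (-(b * μ)) := by
    rw [show -(b * μ) = μ * -b by ring, Real.rpow_mul hH0.le]
    exact Real.rpow_le_rpow_of_nonpos (by positivity) h (by linarith)
  rw [Real.rpow_sub hM0, sub_eq_add_neg a, Real.rpow_add hH0, Real.rpow_ofNat, ← mul_div_assoc]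
  gcongr

end Pool.Agent.VW.Lat
end

-- part Pool.Agent.P.MP_b0ea37_nt.WLPair
section

namespace Pool.Agent.VW.Lat

open Polynomial

theorem pair_cases (n : ℕ) (hn : 5 ≤ n) (K : ℕ) : ∃ C₀ : ℝ, 1 ≤ C₀ ∧
    ∀ (H E c : ℝ) (M : ℕ) (r : ℤ) (S : ℤ[X] → Prop), 1 ≤ H → 1 ≤ E → 1 / 2 ≤ c → 1 ≤ M →
    (∀ f, S f → Plus n (K * H) M r f) → LLp n (K * H) H E c M r S →
    Cnt S (C₀ * E * H ^ ((n : ℝ) - c) * (M : ℝ) ^ (3 * c / ((n : ℝ) - 1) - 3)) ∨
    Cnt S (C₀ * E * H ^ ((n : ℝ) - 3 / 2) * (M : ℝ) ^ (1 / ((n : ℝ) - 1) - 2)) ∨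
    Cnt S (C₀ * H ^ (1 - tau n)) ∨
    ∃ g : ℤ[X], g ≠ 0 ∧ Lam n M r g ∧ g.supNorm ≤ H ∧
      ((g.supNorm ≤ H ^ tau n ∧ Cnt S (C₀ * H / g.supNorm)) ∨
        (Spec n g ∧ g.supNorm ≤ (M : ℝ) ^ (2 / ((n : ℝ) - 1)) ∧
          Cnt S (C₀ * E * H ^ ((n : ℝ) - 3 / 2) / g.supNorm ^ ((n : ℝ) - 3 / 2)))) := by
  obtain ⟨F, hF⟩ : ∃ F : ℝ, F = ((2 * n).factorial : ℕ) := ⟨_, rfl⟩
  have hF1 : 1 ≤ F := by
    rw [hF]
    exact_mod_cast Nat.factorial_pos (2 * n)
  have hK0 : (0 : ℝ) ≤ K := Nat.cast_nonneg K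
  obtain ⟨c₁, hc₁⟩ : ∃ c₁ : ℝ, c₁ = (2 * K * (1 + 2 * n) + 1) ^ n := ⟨_, rfl⟩
  obtain ⟨c₂, hc₂⟩ : ∃ c₂ : ℝ, c₂ = (1 + 16 * K) ^ (n - 2) * (1 + 4 * K) := ⟨_, rfl⟩
  have h₁ : 1 ≤ c₁ := hc₁ ▸ one_le_pow₀ (le_add_of_nonneg_left (by positivity))
  have h₂ : 0 ≤ c₂ := by
    rw [hc₂]
    positivity
  have h₃ : c₂ ≤ c₂ * F ^ n := le_mul_of_one_le_right h₂ (one_le_pow₀ hF1)
  have h₄ : c₁ ≤ c₁ + c₂ * F ^ n := by linarith
  have h₅ : c₂ * F ^ n ≤ c₁ + c₂ * F ^ n := by linarith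
  have h₆ : c₂ ≤ c₁ + c₂ * F ^ n := h₃.trans h₅
  refine ⟨c₁ + c₂ * F ^ n, h₁.trans h₄, fun H E c M r S hH hE hc hM hS hL => ?_⟩
  generalize c₁ + c₂ * F ^ n = C₀ at h₄ h₅ h₆
  have hH0 : 0 < H := by linarith
  have hE0 : 0 ≤ E := by linarith
  have hM1 : (1 : ℝ) ≤ M := by exact_mod_cast hM
  have hR : 0 ≤ (K : ℝ) * H := by positivity
  obtain ⟨g₁, g₂, hmin, h12, h2M⟩ := exists_min n (by omega) M hM r
  have hg₁ : g₁ ≠ 0 := fun h => one_ne_zero (hmin.2.2.1 1 0 (by rw [h]; simp)).1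
  have hT₁ : 1 ≤ g₁.supNorm := one_le_sup hg₁
  have hT₁' : 0 < g₁.supNorm := by linarith
  by_cases hsp : Submodule.span ℝ (vec n '' {g | Lam n M r g ∧ g.supNorm ≤ 2 * (K * H)}) = ⊤
  · refine Or.inl ((hL _ _ g₁ g₂ hmin.1 hmin.2.1 hmin.2.2.1 (h12.trans h2M) h2M
      (cnt_full n (by omega) _ _ hR (by positivity) M hM r hsp)).mono (fun _ h => h) ?_)
    refine (num_full n K hn H E c M hH hE0 hM1).trans ?_
    rw [← hc₁]
    gcongr
  have hB := cnt_def n (by omega) _ hR M r g₁ g₂ hmin hsp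
  refine Or.inr ?_
  rcases le_total H g₂.supNorm with h2 | h2
  · have hτ : H ^ tau n ≤ H := by
      have h5 : (5 : ℝ) ≤ n := by exact_mod_cast hn
      have h6 : ((n : ℝ) - 2) / ((n : ℝ) - 1) ≤ 1 := (div_le_one (by linarith)).2 (by linarith)
      refine (Real.rpow_le_rpow_of_exponent_le hH ?_).trans_eq (Real.rpow_one H)
      unfold tau
      linarith
    have hτ0 : 0 < H ^ tau n := by positivity
    rcases le_total g₁.supNorm (H ^ tau n) with h1 | h1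
    · refine Or.inr (Or.inr ⟨g₁, hg₁, hmin.1, h1.trans hτ, Or.inl ⟨h1, hB.mono hS ?_⟩⟩)
      refine (num_line n K H _ _ _ hT₁' (h1.trans hτ) le_rfl h2).trans ?_
      rw [← hc₂]
      gcongr
    · refine Or.inr (Or.inl (hB.mono hS ?_))
      refine (num_line n K H _ _ _ hτ0 hτ h1 h2).trans ?_
      rw [← hc₂, Real.rpow_sub hH0, Real.rpow_one, mul_div_assoc]
      gcongr
  have hS' := hL _ _ g₁ g₂ hmin.1 hmin.2.1 hmin.2.2.1 h12 le_rfl hB
  have hw : 0 < (M : ℝ) ^ (2 / ((n : ℝ) - 1)) / F := by positivity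
  by_cases hw2 : ((M : ℝ) ^ (2 / ((n : ℝ) - 1)) / F) ^ 2 ≤ g₁.supNorm * g₂.supNorm
  · refine Or.inl (hS'.mono (fun _ h => h) ?_)
    refine (num_def n K hn H E c _ _ _ hE0 hc hT₁' h12 h2 hw hw2).trans ?_
    have hb := num_b n hn F M hF1 hM1
    rw [← hc₂, div_eq_mul_one_div]
    calc _ ≤ c₂ * E * H ^ ((n : ℝ) - 3 / 2) * (F ^ n * (M : ℝ) ^ (1 / ((n : ℝ) - 1) - 2)) :=
          mul_le_mul_of_nonneg_left hb (by positivity)
      _ = c₂ * F ^ n * E * H ^ ((n : ℝ) - 3 / 2) * (M : ℝ) ^ (1 / ((n : ℝ) - 1) - 2) := by ring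
      _ ≤ _ := by gcongr
  · have hspec : Spec n g₁ := by
      by_contra hs
      refine hw2 (num_res n hn F M _ hF1 hM1 (mul_nonneg hT₁'.le (hT₁'.le.trans h12)) ?_)
      rw [hF]
      exact res_bound n (by omega) M hM r g₁ g₂ hmin.1 hmin.2.1 hmin.2.2.1 hs
    have hsq : g₁.supNorm ^ 2 ≤ g₁.supNorm * g₂.supNorm := by
      rw [sq]
      exact mul_le_mul_of_nonneg_left h12 hT₁'.le
    have hle : g₁.supNorm ≤ (M : ℝ) ^ (2 / ((n : ℝ) - 1)) :=
      (abs_le_of_sq_le_sq' (hsq.trans (not_le.1 hw2).le) hw.le).2.trans (div_le_self (by positivity) hF1)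
    refine Or.inr (Or.inr ⟨g₁, hg₁, hmin.1, h12.trans h2, Or.inr ⟨hspec, hle,
      hS'.mono (fun _ h => h) ?_⟩⟩)
    refine (num_def n K hn H E c _ _ _ hE0 hc hT₁' h12 h2 hT₁' hsq).trans ?_
    rw [← hc₂]
    gcongr

end Pool.Agent.VW.Lat
end

-- part Pool.Agent.P.MP_b0ea37_nt.WLStr
section

namespace Pool.Agent.VW.Lat

open Polynomial

theorem exists_sq_split {R : Type} [CommRing R] [IsDomain R] [UniqueFactorizationMonoid R] (x : R)
    (hx : x ≠ 0) : ∃ s k w : R, x = s * k ^ 2 * w ∧ Squarefree (s * k) ∧ ∃ j : ℕ, w ∣ k ^ j := by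
  induction x using UniqueFactorizationMonoid.induction_on_prime with
  | h₁ => exact absurd rfl hx
  | h₂ x hu => exact ⟨x, 1, 1, by ring, by rw [mul_one]; exact hu.squarefree, 0, by simp⟩
  | h₃ a p ha hp ih =>
    obtain ⟨s, k, w, h1, h2, j, h3⟩ := ih ha
    by_cases hk : p ∣ k
    · exact ⟨s, k, p * w, by rw [h1]; ring, h2, j + 1, by
        rw [pow_succ, mul_comm p w]; exact mul_dvd_mul h3 hk⟩
    · by_cases hs : p ∣ s
      · obtain ⟨s', rfl⟩ := hs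
        refine ⟨s', p * k, w, by rw [h1]; ring, ?_, j, h3.trans ?_⟩
        · have e : s' * (p * k) = p * s' * k := by ring
          rw [e]; exact h2
        · exact pow_dvd_pow_of_dvd (Dvd.intro_left p rfl) j
      · refine ⟨p * s, k, w, by rw [h1]; ring, ?_, j, h3⟩
        rw [mul_assoc]
        exact squarefree_mul_iff.2 ⟨hp.irreducible.isRelPrime_iff_not_dvd.2
          fun h => (hp.dvd_or_dvd h).elim hs hk, hp.irreducible.squarefree, h2⟩

theorem separable_up {g : ℤ[X]} (hp : g.IsPrimitive) (hs : Squarefree g) :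
    (up ℚ g).Separable := by
  rw [PerfectField.separable_iff_squarefree]
  intro q hq
  have hg0 : up ℚ g ≠ 0 :=
    (Polynomial.map_ne_zero_iff (f := Int.castRingHom ℚ) Int.cast_injective).2 hp.ne_zero
  have hq0 : q ≠ 0 := by
    rintro rfl
    exact hg0 (by simpa using hq)
  refine isUnit_or_eq_zero_of_isUnit_integerNormalization_primPart (R := ℤ) hq0 (hs _ ?_)
  obtain ⟨b, hb, hbq⟩ := IsLocalization.integerNormalization_spec (nonZeroDivisors ℤ) q
  obtain ⟨q₁, hq₁⟩ : ∃ q₁, q₁ = IsLocalization.integerNormalization (nonZeroDivisors ℤ) q :=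
    ⟨_, rfl⟩
  rw [← hq₁] at hbq ⊢
  have hb0 : (b : ℚ) ≠ 0 := Int.cast_ne_zero.2 (nonZeroDivisors.ne_zero hb)
  have h1 : q₁.primPart.map (Int.castRingHom ℚ) ∣ q := by
    have h2 : q₁.primPart.map (Int.castRingHom ℚ) ∣ q₁.map (algebraMap ℤ ℚ) :=
      Polynomial.map_dvd _ (primPart_dvd q₁)
    rw [hbq] at h2
    have e : q = C (b : ℚ)⁻¹ * (b • q) := by
      rw [zsmul_eq_mul, ← mul_assoc, ← map_intCast (C : ℚ →+* ℚ[X]) b, ← C_mul,
        inv_mul_cancel₀ hb0, C_1, one_mul]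
    rw [e]
    exact h2.mul_left _
  rw [IsPrimitive.Int.dvd_iff_map_cast_dvd_map_cast _ _
    ((isPrimitive_primPart q₁).mul (isPrimitive_primPart q₁)), Polynomial.map_mul]
  exact (mul_dvd_mul h1 h1).trans hq

theorem wlstr_local {c : ℤ} {s k w : ℤ[X]} {j : ℕ} (hw : w ∣ k ^ j) (hprim : (s * k).IsPrimitive)
    {p : ℕ} {r : ℤ} (hp : p.Prime) (hc : ¬ (p : ℤ) ∣ c)
    (hres : ¬ (p : ℤ) ∣ resultant (s * k) (derivative (s * k)))
    (hg : Wk p r (C c * (s * k ^ 2 * w))) :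
    (p : ℤ) ∣ k.eval r ∧ ¬ (p : ℤ) ∣ (derivative k).eval r := by
  have hP : Prime (p : ℤ) := Nat.prime_iff_prime_int.1 hp
  have hwk : (p : ℤ) ∣ w.eval r → (p : ℤ) ∣ k.eval r := fun h => by
    have h1 := h.trans (eval_dvd (x := r) hw)
    rw [eval_pow] at h1
    exact hP.dvd_of_dvd_pow h1
  have h0 : (p : ℤ) ∣ s.eval r ∨ (p : ℤ) ∣ k.eval r := by
    have h1 := (dvd_pow_self _ two_ne_zero).trans hg.1
    rw [eval_mul, eval_C, eval_mul, eval_mul, eval_pow] at h1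
    rcases hP.dvd_or_dvd ((hP.dvd_or_dvd h1).resolve_left hc) with h2 | h2
    · exact (hP.dvd_or_dvd h2).imp_right hP.dvd_of_dvd_pow
    · exact Or.inr (hwk h2)
  have h1 : (p : ℤ) ∣ (s * k).eval r := by
    rw [eval_mul]
    exact h0.elim (fun h => h.mul_right _) fun h => h.mul_left _
  have hdeg : 1 ≤ (s * k).natDegree := by
    by_contra hlt
    have h2 : (s * k).natDegree = 0 := by omega
    rw [eq_C_of_natDegree_eq_zero h2, eval_C] at h1
    refine hP.not_isUnit (hprim (p : ℤ) ?_)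
    rw [eq_C_of_natDegree_eq_zero h2]
    exact map_dvd C h1
  have h2 : ¬ (p : ℤ) ∣ (derivative s).eval r * k.eval r + s.eval r * (derivative k).eval r :=
    fun h => hres (res_one_one hp.one_le le_rfl le_rfl (by omega) h1 (by
      rw [derivative_mul, eval_add, eval_mul, eval_mul]; exact h))
  have h3 : (p : ℤ) ∣ k.eval r := by
    by_contra hk
    have hs : (p : ℤ) ∣ s.eval r := h0.resolve_right hk
    have h4 := hg.2
    have e : (derivative (C c * (s * k ^ 2 * w))).eval r =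
        c * ((derivative s).eval r * (k.eval r ^ 2 * w.eval r)) +
          s.eval r * (c * (derivative (k ^ 2 * w)).eval r) := by
      rw [derivative_C_mul, mul_assoc s, derivative_mul]
      simp only [eval_mul, eval_add, eval_C, eval_pow]
      ring
    rw [e] at h4
    have h5 := (dvd_add_left (hs.mul_right _)).1 h4
    rcases hP.dvd_or_dvd ((hP.dvd_or_dvd h5).resolve_left hc) with h6 | h6
    · exact h2 (dvd_add (h6.mul_right _) (hs.mul_right _))
    · rcases hP.dvd_or_dvd h6 with h7 | h7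
      · exact hk (hP.dvd_of_dvd_pow h7)
      · exact hk (hwk h7)
  exact ⟨h3, fun h => h2 (dvd_add (h3.mul_left _) (h.mul_left _))⟩

theorem exists_ker (n : ℕ) : ∃ C₀ : ℝ, 1 ≤ C₀ ∧ ∀ g : ℤ[X], g ≠ 0 → g.natDegree < n →
    ∃ (k : ℤ[X]) (N : ℕ), Ker k N g ∧ (N : ℝ) ≤ C₀ * g.supNorm ^ (2 * n) := by
  have hA : (1 : ℝ) ≤ (n + 1) * 4 ^ n :=
    one_le_mul_of_one_le_of_one_le (by simp) (one_le_pow₀ (by norm_num))
  have hF : (1 : ℝ) ≤ (2 * n).factorial := by exact_mod_cast Nat.factorial_pos _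
  refine ⟨(2 * n).factorial * ((n + 1) * 4 ^ n) ^ (2 * n),
    one_le_mul_of_one_le_of_one_le hF (one_le_pow₀ hA), fun g hg hn => ?_⟩
  obtain ⟨s, k, w, h1, h2, j, h3⟩ := exists_sq_split g.primPart (primPart_ne_zero g)
  have hg0 : g = C g.content * (s * k ^ 2 * w) := by
    rw [← h1]; exact g.eq_C_content_mul_primPart
  have hd0 : s * k ∣ g.primPart := ⟨k * w, by rw [h1]; ring⟩
  have hprim : (s * k).IsPrimitive := isPrimitive_of_dvd g.isPrimitive_primPart hd0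
  have hc0 : g.content ≠ 0 := fun h => hg (content_eq_zero_iff.1 h)
  have hres : resultant (s * k) (derivative (s * k)) ≠ 0 := by
    refine resultant_ne_zero_of_coprime ?_
    have h4 := separable_up hprim h2
    rw [Polynomial.separable_def, derivative_map] at h4
    exact h4
  refine ⟨k, (g.content * resultant (s * k) (derivative (s * k))).natAbs,
    ⟨isPrimitive_of_dvd hprim (Dvd.intro_left s rfl), h2.of_mul_right, ?_,
      Int.natAbs_ne_zero.2 (mul_ne_zero hc0 hres), fun p r hp hN hw => ?_⟩, ?_⟩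
  · exact ⟨C g.content * s * w, by rw [mul_assoc, ← mul_left_comm]; exact hg0.trans (by ring)⟩
  · rw [← Int.natCast_dvd] at hN
    exact wlstr_local h3 hprim hp (fun h => hN (h.mul_right _)) (fun h => hN (h.mul_left _))
      (hg0 ▸ hw)
  · obtain ⟨u, hu⟩ : ∃ u, u = s * k := ⟨_, rfl⟩
    rw [← hu] at hd0 ⊢
    have hug : u ∣ g := hd0.trans (primPart_dvd g)
    have hg1 := one_le_sup hg
    have h4 : (1 : ℝ) ≤ 4 ^ n := one_le_pow₀ (by norm_num)
    have hn0 : (0 : ℝ) ≤ n := Nat.cast_nonneg n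
    obtain ⟨A, hAe⟩ : ∃ A : ℝ, A = (n + 1) * 4 ^ n * g.supNorm := ⟨_, rfl⟩
    have hgA : g.supNorm ≤ A := by rw [hAe]; nlinarith
    have hA1 : 1 ≤ A := hg1.trans hgA
    have hu1 := sup_le_of_dvd hg hug hn.le
    have hud : u.natDegree < n := (natDegree_le_of_dvd hug hg).trans_lt hn
    have h5 : (0 : ℝ) ≤ 4 ^ n * g.supNorm := by positivity
    have huA : u.supNorm ≤ A := by rw [hAe]; nlinarith
    have hu'A : (derivative u).supNorm ≤ A := by
      have h6 := sup_derivative_le u hud.le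
      rw [hAe]; nlinarith
    have hcA : |(g.content : ℝ)| ≤ A := by
      have h6 := sup_C_mul_int g.content g.primPart
      rw [← g.eq_C_content_mul_primPart] at h6
      have h7 := one_le_sup (primPart_ne_zero g)
      have h8 := abs_nonneg (g.content : ℝ)
      nlinarith
    have hd' : (derivative u).natDegree ≤ u.natDegree :=
      (natDegree_derivative_le u).trans (Nat.sub_le _ _)
    have h6 := norm_resultant_le u (derivative u) u.natDegree (derivative u).natDegree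
    rw [Int.norm_eq_abs] at h6
    have h7 : (((u.natDegree + (derivative u).natDegree).factorial : ℕ) : ℝ) ≤
        (2 * n).factorial := by exact_mod_cast Nat.factorial_le (by omega)
    have h8 : |((resultant u (derivative u) : ℤ) : ℝ)| ≤
        (2 * n).factorial * A ^ (derivative u).natDegree * A ^ u.natDegree := by
      refine h6.trans ?_
      have := u.supNorm_nonneg
      have := (derivative u).supNorm_nonneg
      gcongr
    rw [Nat.cast_natAbs, Int.cast_abs, Int.cast_mul, abs_mul]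
    calc |(g.content : ℝ)| * |((resultant u (derivative u) : ℤ) : ℝ)|
        ≤ A * ((2 * n).factorial * A ^ (derivative u).natDegree * A ^ u.natDegree) := by gcongr
      _ = (2 * n).factorial * A ^ ((derivative u).natDegree + u.natDegree + 1) := by ring
      _ ≤ (2 * n).factorial * A ^ (2 * n) := by
          have := pow_le_pow_right₀ hA1
            (show (derivative u).natDegree + u.natDegree + 1 ≤ 2 * n by omega)
          gcongr
      _ = _ := by rw [hAe, mul_pow, mul_assoc]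

theorem ker_split {k g : ℤ[X]} {N M : ℕ} {r : ℤ} (hk : Ker k N g) (hM : Squarefree M)
    (hg : Wk M r g) : ∃ (M' : ℕ) (r' : ℤ), 1 ≤ M' ∧ M' ∣ M ∧ M ∣ N * M' ∧ 0 ≤ r' ∧ r' < M' ∧
      (M' : ℤ) ∣ r - r' ∧ (M' : ℤ) ∣ k.eval r' ∧ IsCoprime (M' : ℤ) ((derivative k).eval r') := by
  obtain ⟨M', hM'⟩ := Nat.gcd_dvd_left M N
  have hsq := hM
  rw [hM', Nat.squarefree_mul_iff] at hsq
  have hd : M' ∣ M := ⟨M.gcd N, by rw [mul_comm]; exact hM'⟩
  have h1 : 1 ≤ M' := Nat.pos_of_ne_zero hsq.2.2.ne_zero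
  obtain ⟨r', hr0, hr1, hr2⟩ := exists_res M' h1 r
  have hw : Wk M' r' g := wk_of_mod hr2 (wk_of_dvd hd hg)
  have hp : ∀ p : ℕ, p.Prime → p ∣ M' →
      (p : ℤ) ∣ k.eval r' ∧ ¬ (p : ℤ) ∣ (derivative k).eval r' := fun p hp hpM =>
    hk.2.2.2.2 p r' hp (fun hN => hp.one_lt.ne' (Nat.eq_one_of_dvd_coprimes hsq.1
      (Nat.dvd_gcd (hpM.trans hd) hN) hpM)) (wk_of_dvd hpM hw)
  refine ⟨M', r', h1, hd, ?_, hr0, hr1, hr2, ?_, ?_⟩
  · have h2 := Nat.mul_dvd_mul_right (Nat.gcd_dvd_right M N) M'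
    rwa [← hM'] at h2
  · rw [Int.natCast_dvd, ← Nat.prod_primeFactors_of_squarefree hsq.2.2]
    exact Finset.prod_primes_dvd _ (fun p hp' => (Nat.prime_of_mem_primeFactors hp').prime)
      fun p hp' => Int.natCast_dvd.1
        (hp p (Nat.prime_of_mem_primeFactors hp') (Nat.dvd_of_mem_primeFactors hp')).1
  · rw [Int.isCoprime_iff_nat_coprime, Int.natAbs_natCast]
    exact Nat.coprime_of_dvd fun p hp' hpM h => (hp p hp' hpM).2 (Int.natCast_dvd.2 h)

end Pool.Agent.VW.Lat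
end

-- part Pool.Agent.P.MP_b0ea37_nt.WDiv
section

namespace Pool.Agent.VW

open Polynomial

/-- numbers built from the primes of `N` -/
theorem cnt_smooth (ε : ℝ) (hε : 0 < ε) : ∃ C : ℝ, 1 ≤ C ∧ ∀ Z : ℝ, 1 ≤ Z → ∀ N : ℕ, N ≠ 0 →
    (N : ℝ) ≤ Z → Cnt (fun m : ℕ => m ≠ 0 ∧ (m : ℝ) ≤ Z ∧ ∀ p : ℕ, p.Prime → p ∣ m → p ∣ N)
      (C * Z ^ ε) := by
  obtain ⟨C, hC, h⟩ := Pool.Agent.P.MP_dea669_nt.rankin (ε / 2) (by linarith)
  refine ⟨C, hC, fun Z hZ N hN hNZ S hS => ?_⟩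
  have h1 := h N ⌊Z⌋₊ hN S (fun m hm => ⟨(hS m hm).1, Nat.le_floor (hS m hm).2.1, fun p hp => by
    rw [Nat.mem_primeFactors] at hp ⊢
    exact ⟨hp.1, (hS m hm).2.2 p hp.1 hp.2.1, hN⟩⟩)
  have h2 : (N : ℝ) ^ (ε / 2) ≤ Z ^ (ε / 2) :=
    Real.rpow_le_rpow (by positivity) hNZ (by linarith)
  have h3 : ((⌊Z⌋₊ : ℕ) : ℝ) ^ (ε / 2) ≤ Z ^ (ε / 2) :=
    Real.rpow_le_rpow (by positivity) (Nat.floor_le (by linarith)) (by linarith)
  have h4 : Z ^ ε = Z ^ (ε / 2) * Z ^ (ε / 2) := by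
    rw [← Real.rpow_add (by linarith)]; ring_nf
  rw [h4, ← mul_assoc]
  refine h1.trans ?_
  have hC0 : 0 ≤ C := by linarith
  gcongr

theorem cnt_divisors (ε : ℝ) (hε : 0 < ε) : ∃ C : ℝ, 1 ≤ C ∧ ∀ N : ℕ, N ≠ 0 →
    Cnt (fun m : ℕ => m ∣ N) (C * (N : ℝ) ^ ε) := by
  obtain ⟨C, hC, h⟩ := cnt_smooth ε hε
  refine ⟨C, hC, fun N hN => ?_⟩
  have h1 : (1 : ℝ) ≤ N := by exact_mod_cast Nat.one_le_iff_ne_zero.2 hN
  refine (h N h1 N hN le_rfl).mono (fun m hm => ⟨?_, ?_, fun p _ hp => hp.trans hm⟩) le_rfl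
  · rintro rfl
    exact hN (Nat.eq_zero_of_zero_dvd hm)
  · exact_mod_cast Nat.le_of_dvd (Nat.pos_of_ne_zero hN) hm

theorem prod_fact_aux (A k : ℕ) (ε : ℝ) (hε : 0 < ε) : ∃ C : ℝ, 1 ≤ C ∧ ∀ N : ℕ, N ≠ 0 →
    ∏ p ∈ N.primeFactors, ((A : ℝ) * N.factorization p + 1) ^ k ≤ C * (N : ℝ) ^ ε := by
  obtain ⟨C, hC, h⟩ := cnt_divisors (ε / (A * k + 1 : ℕ)) (by positivity)
  refine ⟨C ^ (A * k + 1), one_le_pow₀ hC, fun N hN => ?_⟩
  have h1 := h N hN N.divisors (fun m hm => Nat.dvd_of_mem_divisors hm)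
  rw [Nat.card_divisors hN] at h1
  push_cast at h1
  have h2 : ∏ p ∈ N.primeFactors, ((A : ℝ) * N.factorization p + 1) ^ k ≤
      (∏ p ∈ N.primeFactors, ((N.factorization p : ℝ) + 1)) ^ (A * k + 1) := by
    rw [← Finset.prod_pow]
    refine Finset.prod_le_prod (fun _ _ => by positivity) (fun p _ => ?_)
    have h0 : (0 : ℝ) ≤ N.factorization p := by positivity
    have h3 : (A : ℝ) * N.factorization p + 1 ≤ ((N.factorization p : ℝ) + 1) ^ A := by
      have := one_add_mul_le_pow (a := (N.factorization p : ℝ)) (by linarith) A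
      rwa [add_comm, add_comm 1] at this
    calc ((A : ℝ) * N.factorization p + 1) ^ k ≤ (((N.factorization p : ℝ) + 1) ^ A) ^ k := by
          gcongr
      _ ≤ _ := by
          rw [← pow_mul]
          exact pow_le_pow_right₀ (by linarith) (Nat.le_succ _)
  refine h2.trans ((pow_le_pow_left₀ (by positivity) h1 _).trans (le_of_eq ?_))
  rw [mul_pow, ← Real.rpow_natCast ((N : ℝ) ^ _), ← Real.rpow_mul (by positivity)]
  push_cast
  rw [div_mul_cancel₀ _ (by positivity)]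

theorem pow_omega_le (A : ℝ) (hA : 1 ≤ A) (ε : ℝ) (hε : 0 < ε) : ∃ C : ℝ, 1 ≤ C ∧ ∀ N : ℕ, N ≠ 0 →
    A ^ N.primeFactors.card ≤ C * (N : ℝ) ^ ε := by
  obtain ⟨C, hC, h⟩ := prod_fact_aux ⌈A⌉₊ 1 ε hε
  refine ⟨C, hC, fun N hN => le_trans ?_ (h N hN)⟩
  rw [← Finset.prod_const]
  refine Finset.prod_le_prod (fun _ _ => by linarith) (fun p hp => ?_)
  have h1 : 1 ≤ N.factorization p :=
    (Nat.prime_of_mem_primeFactors hp).factorization_pos_of_dvd hN (Nat.dvd_of_mem_primeFactors hp)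
  have h2 : (1 : ℝ) ≤ N.factorization p := by exact_mod_cast h1
  have h3 : A ≤ (⌈A⌉₊ : ℝ) := Nat.le_ceil A
  rw [pow_one]
  nlinarith

theorem prod_fact_le (A k : ℕ) (ε : ℝ) (hε : 0 < ε) : ∃ C : ℝ, 1 ≤ C ∧ ∀ N : ℕ, N ≠ 0 →
    ∏ p ∈ N.primeFactors, ((A : ℝ) * N.factorization p + 1) ^ k ≤ C * (N : ℝ) ^ ε :=
  prod_fact_aux A k ε hε

/-- numbers with a small radical -/
theorem cnt_small_rad (ε : ℝ) (hε : 0 < ε) : ∃ C : ℝ, 1 ≤ C ∧ ∀ Z Y : ℝ, 1 ≤ Y → Y ≤ Z →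
    Cnt (fun m : ℕ => m ≠ 0 ∧ (m : ℝ) ≤ Z ∧ ((∏ p ∈ m.primeFactors, p : ℕ) : ℝ) ≤ Y)
      (C * Z ^ ε * Y) := by
  obtain ⟨C, hC, h⟩ := cnt_smooth ε hε
  refine ⟨C, hC, fun Z Y hY hYZ => ?_⟩
  have hZ : 1 ≤ Z := hY.trans hYZ
  have h0 : 0 ≤ C * Z ^ ε := mul_nonneg (by linarith) (Real.rpow_nonneg (by linarith) _)
  have h1 := (cnt_nat_pos Y (by linarith)).fibre
    (P := fun R m : ℕ => m ≠ 0 ∧ (m : ℝ) ≤ Z ∧ ∀ p : ℕ, p.Prime → p ∣ m → p ∣ R) h0
    (fun R hR => h Z hZ R (by omega) (hR.2.trans hYZ))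
  refine h1.mono (fun m hm => ⟨∏ p ∈ m.primeFactors, p, ⟨?_, hm.2.2⟩, hm.1, hm.2.1, ?_⟩)
    (le_of_eq (mul_comm _ _))
  · exact Finset.prod_pos fun p hp => (Nat.prime_of_mem_primeFactors hp).pos
  · exact fun p hp hpm => Finset.dvd_prod_of_mem _ (Nat.mem_primeFactors.2 ⟨hp, hpm, hm.1⟩)

theorem cnt_roots_prime (p : ℕ) (hp : p.Prime) (g : ℤ[X]) (m : ℕ) (hm : g.natDegree ≤ m)
    (hg : ¬ C (p : ℤ) ∣ g) : Cnt (fun r : ℤ => 0 ≤ r ∧ r < p ∧ (p : ℤ) ∣ g.eval r) (m : ℝ) := by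
  have := Fact.mk hp
  have h0 : up (ZMod p) g ≠ 0 := by
    intro h
    refine hg ((C_dvd_iff_dvd_coeff _ _).2 fun i => ?_)
    have h1 := congrArg (fun q => coeff q i) h
    simp only [coeff_map, coeff_zero, eq_intCast] at h1
    exact (ZMod.intCast_zmod_eq_zero_iff_dvd _ _).1 h1
  have h1 : Cnt (fun z : ZMod p => (up (ZMod p) g).eval z = 0) (m : ℝ) :=
    (cnt_roots _ h0).mono (fun _ h => h) (by exact_mod_cast natDegree_map_le.trans hm)
  refine h1.inj (fun r : ℤ => (r : ZMod p)) (fun r hr => ?_) (fun r r' hr hr' h => ?_)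
  · have h2 := eval_intCast_map (Int.castRingHom (ZMod p)) g r
    rw [h2]
    exact (ZMod.intCast_zmod_eq_zero_iff_dvd _ _).2 hr.2.2
  · have h2 := (ZMod.intCast_eq_intCast_iff_dvd_sub r r' p).1 h
    have h3 := Int.eq_zero_of_abs_lt_dvd h2 (by rw [abs_lt]; constructor <;> omega)
    omega

/-- roots modulo a squarefree number of a polynomial that vanishes modulo none of its primes -/
theorem cnt_roots_mod (M : ℕ) (hM : Squarefree M) (g : ℤ[X]) (m : ℕ) (hm : g.natDegree ≤ m)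
    (hg : ∀ p : ℕ, p.Prime → p ∣ M → ¬ C (p : ℤ) ∣ g) :
    Cnt (fun r : ℤ => 0 ≤ r ∧ r < M ∧ (M : ℤ) ∣ g.eval r) ((m : ℝ) ^ M.primeFactors.card) := by
  have h1 : ∀ p : M.primeFactors,
      Cnt (fun r : ℤ => 0 ≤ r ∧ r < (p : ℕ) ∧ ((p : ℕ) : ℤ) ∣ g.eval r) (m : ℝ) := fun p =>
    cnt_roots_prime p (Nat.prime_of_mem_primeFactors p.2) g m hm
      (hg p (Nat.prime_of_mem_primeFactors p.2) (Nat.dvd_of_mem_primeFactors p.2))
  have h2 := Cnt.pi h1
  rw [Finset.prod_const, Finset.card_univ, Fintype.card_coe] at h2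
  refine h2.inj (fun r p => r % ((p : ℕ) : ℤ)) (fun r hr p => ?_) (fun r r' hr hr' h => ?_)
  · have hp : (0 : ℤ) < (p : ℕ) := by exact_mod_cast (Nat.prime_of_mem_primeFactors p.2).pos
    refine ⟨Int.emod_nonneg _ hp.ne', Int.emod_lt_of_pos _ hp, ?_⟩
    have h3 : ((p : ℕ) : ℤ) ∣ g.eval r :=
      (Int.natCast_dvd_natCast.2 (Nat.dvd_of_mem_primeFactors p.2)).trans hr.2.2
    have h4 : ((p : ℕ) : ℤ) ∣ g.eval r - g.eval (r % ((p : ℕ) : ℤ)) :=
      (Int.dvd_self_sub_emod).trans (sub_dvd_eval_sub _ _ g)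
    exact (dvd_sub_right h3).1 h4
  · have h3 : M ∣ (r - r').natAbs := by
      rw [← Nat.prod_primeFactors_of_squarefree hM]
      refine Finset.prod_primes_dvd _ (fun p hp => (Nat.prime_of_mem_primeFactors hp).prime)
        (fun p hp => ?_)
      have h4 : r % (p : ℤ) = r' % (p : ℤ) := congrFun h ⟨p, hp⟩
      exact Int.natCast_dvd.1 (Int.ModEq.dvd (Eq.symm h4))
    have h4 : (M : ℤ) ∣ r - r' := Int.natCast_dvd.2 h3
    have h5 := Int.eq_zero_of_abs_lt_dvd h4 (by rw [abs_lt]; constructor <;> omega)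
    omega

/-- large prime divisors of a number of size `H ^ A` -/
theorem cnt_large_primes (N : ℤ) (hN : N ≠ 0) (H : ℝ) (hH : 1 < H) (A : ℕ)
    (h : |(N : ℝ)| ≤ H ^ A) : Cnt (fun p : ℕ => p.Prime ∧ H ≤ p ∧ (p : ℤ) ∣ N) A := by
  intro S hS
  have h1 : ∏ p ∈ S, p ∣ N.natAbs :=
    Finset.prod_primes_dvd _ (fun p hp => (hS p hp).1.prime)
      (fun p hp => Int.natCast_dvd.1 (hS p hp).2.2)
  have h2 : ((∏ p ∈ S, p : ℕ) : ℝ) ≤ |(N : ℝ)| := by
    have := Nat.le_of_dvd (Int.natAbs_pos.2 hN) h1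
    rw [← Int.cast_abs, ← Int.natCast_natAbs, Int.cast_natCast]
    exact_mod_cast this
  have h3 : H ^ S.card ≤ ((∏ p ∈ S, p : ℕ) : ℝ) := by
    rw [← Finset.prod_const, Nat.cast_prod]
    exact Finset.prod_le_prod (fun _ _ => by linarith) (fun p hp => (hS p hp).2.1)
  exact_mod_cast (pow_le_pow_iff_right₀ hH).1 (h3.trans (h2.trans h))

theorem exists_primes_aux (J : ℕ) (Z : ℝ) (hZ : 1 ≤ Z) : ∃ T : Finset ℕ, T.card = J ∧
    ∀ l ∈ T, l.Prime ∧ Z < l ∧ (l : ℝ) ≤ 2 ^ (J + 1) * Z := by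
  induction J with
  | zero => exact ⟨∅, rfl, by simp⟩
  | succ J ih =>
    obtain ⟨T, hT, h⟩ := ih
    have h1 : (1 : ℝ) ≤ 2 ^ (J + 1) := one_le_pow₀ (by norm_num)
    have h2 : Z ≤ 2 ^ (J + 1) * Z := by nlinarith
    obtain ⟨p, hp, h3, h4⟩ := Nat.exists_prime_lt_and_le_two_mul ⌊2 ^ (J + 1) * Z⌋₊
      (Nat.floor_pos.2 (hZ.trans h2)).ne'
    have h5 : 2 ^ (J + 1) * Z < p := (Nat.floor_lt (by linarith)).1 h3
    have h6 : (p : ℝ) ≤ 2 ^ (J + 1 + 1) * Z := by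
      have h7 : (p : ℝ) ≤ 2 * (⌊2 ^ (J + 1) * Z⌋₊ : ℝ) := by exact_mod_cast h4
      have h8 : (⌊2 ^ (J + 1) * Z⌋₊ : ℝ) ≤ 2 ^ (J + 1) * Z := Nat.floor_le (by linarith)
      rw [pow_succ 2 (J + 1)]
      linarith
    have h7 : p ∉ T := fun hpT => absurd (h p hpT).2.2 (not_le.2 h5)
    refine ⟨insert p T, by rw [Finset.card_insert_of_notMem h7, hT], fun l hl => ?_⟩
    rcases Finset.mem_insert.1 hl with rfl | hl
    · exact ⟨hp, h2.trans_lt h5, h6⟩
    · exact ⟨(h l hl).1, (h l hl).2.1, (h l hl).2.2.trans (h5.le.trans h6)⟩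

/-- auxiliary primes -/
theorem exists_primes (J : ℕ) (Z : ℝ) (hZ : 1 ≤ Z) : ∃ T : Finset ℕ, T.card = J ∧
    (∀ l ∈ T, l.Prime ∧ Z < l ∧ (l : ℝ) ≤ 2 ^ (J + 1) * Z) ∧
    ∀ N : ℤ, N ≠ 0 → |(N : ℝ)| ≤ Z ^ J → J ≠ 0 → ∃ l ∈ T, ¬ (l : ℤ) ∣ N := by
  obtain ⟨T, hT, h⟩ := exists_primes_aux J Z hZ
  refine ⟨T, hT, h, fun N hN hNZ hJ => ?_⟩
  by_contra hc
  push Not at hc
  have h1 : ∏ p ∈ T, p ∣ N.natAbs :=
    Finset.prod_primes_dvd _ (fun p hp => (h p hp).1.prime)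
      (fun p hp => Int.natCast_dvd.1 (hc p hp))
  have h2 : ((∏ p ∈ T, p : ℕ) : ℝ) ≤ |(N : ℝ)| := by
    have := Nat.le_of_dvd (Int.natAbs_pos.2 hN) h1
    rw [← Int.cast_abs, ← Int.natCast_natAbs, Int.cast_natCast]
    exact_mod_cast this
  have h3 : Z ^ T.card < ((∏ p ∈ T, p : ℕ) : ℝ) := by
    rw [← Finset.prod_const, Nat.cast_prod]
    exact Finset.prod_lt_prod_of_nonempty (fun _ _ => by linarith) (fun p hp => (h p hp).2.1)
      (Finset.card_pos.1 (by omega))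
  rw [hT] at h3
  linarith

/-- a subproduct in a given range -/
theorem exists_subprod (s : Multiset ℕ) (Y B : ℝ) (hY : 1 ≤ Y) (hB : 1 ≤ B)
    (hs : ∀ p ∈ s, 1 ≤ p ∧ (p : ℝ) ≤ B) (h : Y < (s.prod : ℕ)) :
    ∃ t ≤ s, Y < (t.prod : ℕ) ∧ ((t.prod : ℕ) : ℝ) ≤ Y * B := by
  induction s using Multiset.induction_on with
  | empty =>
    simp at h
    linarith
  | cons a s ih =>
    by_cases h1 : Y < (s.prod : ℕ)
    · obtain ⟨t, ht, h2⟩ := ih (fun p hp => hs p (Multiset.mem_cons_of_mem hp)) h1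
      exact ⟨t, ht.trans (Multiset.le_cons_self s a), h2⟩
    · refine ⟨a ::ₘ s, le_rfl, h, ?_⟩
      rw [Multiset.prod_cons, Nat.cast_mul, mul_comm Y B]
      exact mul_le_mul (hs a (Multiset.mem_cons_self a s)).2 (not_lt.1 h1) (by positivity)
        (by linarith)

theorem cnt_two_class (m d : ℕ) (c : ℤ) (hm : m ≠ 0) (hc : c ≠ 0) (hd : d ∣ m) :
    Cnt (fun Y : ℤ => 0 ≤ Y ∧ Y < m ∧ (d : ℤ) ∣ Y - c ∧ ((m / d : ℕ) : ℤ) ∣ Y + c)
      (3 * |(c : ℝ)|) := by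
  refine Cnt.of_mem (by positivity) fun Y₀ h₀ => ?_
  obtain ⟨e, rfl⟩ := hd
  have hd0 : d ≠ 0 := left_ne_zero_of_mul hm
  have he0 : e ≠ 0 := right_ne_zero_of_mul hm
  rw [Nat.mul_div_cancel_left _ (Nat.pos_of_ne_zero hd0)] at h₀ ⊢
  have hL : 1 ≤ Nat.lcm d e := Nat.pos_of_ne_zero (Nat.lcm_ne_zero hd0 he0)
  have hg : ((Nat.gcd d e : ℕ) : ℤ) ∣ 2 * c := by
    have h1 := (Int.natCast_dvd_natCast.2 (Nat.gcd_dvd_left d e)).trans h₀.2.2.1
    have h2 := (Int.natCast_dvd_natCast.2 (Nat.gcd_dvd_right d e)).trans h₀.2.2.2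
    have h3 : 2 * c = (Y₀ + c) - (Y₀ - c) := by ring
    rw [h3]
    exact dvd_sub h2 h1
  have hg1 : ((Nat.gcd d e : ℕ) : ℤ) ≤ 2 * |c| := by
    have := Int.le_of_dvd (abs_pos.2 (mul_ne_zero two_ne_zero hc)) ((dvd_abs _ _).2 hg)
    rwa [abs_mul, abs_two] at this
  have hg2 : ((Nat.gcd d e : ℕ) : ℝ) ≤ 2 * |(c : ℝ)| := by exact_mod_cast hg1
  have hc1 : (1 : ℝ) ≤ |(c : ℝ)| := by exact_mod_cast Int.one_le_abs hc
  refine (cnt_class (Nat.lcm d e) hL Y₀ (((d * e : ℕ) : ℝ) / 2) (((d * e : ℕ) : ℝ) / 2)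
    (by positivity)).mono (fun Y hY => ⟨?_, ?_⟩) ?_
  · have h1 : (0 : ℝ) ≤ Y := by exact_mod_cast hY.1
    have h2 : (Y : ℝ) < ((d * e : ℕ) : ℝ) := by exact_mod_cast hY.2.1
    rw [abs_le]
    constructor <;> linarith
  · refine Int.natCast_dvd.2 (Nat.lcm_dvd (Int.natCast_dvd.1 ?_) (Int.natCast_dvd.1 ?_))
    · have h3 : Y - Y₀ = (Y - c) - (Y₀ - c) := by ring
      rw [h3]
      exact dvd_sub hY.2.2.1 h₀.2.2.1
    · have h3 : Y - Y₀ = (Y + c) - (Y₀ + c) := by ring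
      rw [h3]
      exact dvd_sub hY.2.2.2 h₀.2.2.2
  · have h1 : ((Nat.lcm d e : ℕ) : ℝ) ≠ 0 := by exact_mod_cast (by omega : Nat.lcm d e ≠ 0)
    rw [← Nat.gcd_mul_lcm d e, Nat.cast_mul]
    have h2 : 2 * (((Nat.gcd d e : ℕ) : ℝ) * (Nat.lcm d e : ℕ) / 2) / (Nat.lcm d e : ℕ) =
        (Nat.gcd d e : ℕ) := by field_simp
    rw [h2]
    linarith

theorem cnt_sq_mod (ε : ℝ) (hε : 0 < ε) : ∃ C : ℝ, 1 ≤ C ∧ ∀ (m : ℕ) (c : ℤ), m ≠ 0 → c ≠ 0 →
    Cnt (fun Y : ℤ => 0 ≤ Y ∧ Y < m ∧ (m : ℤ) ∣ Y ^ 2 - c ^ 2) (C * |(c : ℝ)| * (m : ℝ) ^ ε) := by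
  obtain ⟨C, hC, h⟩ := cnt_divisors ε hε
  refine ⟨3 * C, by linarith, fun m c hm hc => ?_⟩
  have h1 := (h m hm).fibre
    (P := fun (d : ℕ) (Y : ℤ) => 0 ≤ Y ∧ Y < m ∧ (d : ℤ) ∣ Y - c ∧ ((m / d : ℕ) : ℤ) ∣ Y + c)
    (B' := 3 * |(c : ℝ)|) (by positivity) (fun d hd => cnt_two_class m d c hm hc hd)
  refine h1.mono (fun Y hY => ⟨Int.gcd m (Y - c), ?_, hY.1, hY.2.1, Int.gcd_dvd_right _ _, ?_⟩)
    (le_of_eq (by ring))
  · exact Int.natCast_dvd_natCast.1 (Int.gcd_dvd_left _ _)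
  · have hm' : (m : ℤ) ≠ 0 := by exact_mod_cast hm
    have hg : 0 < Int.gcd (m : ℤ) (Y - c) := Int.gcd_pos_of_ne_zero_left _ hm'
    obtain ⟨a, b, hab, ha, hb⟩ := Int.exists_gcd_one hg
    have hg' : ((Int.gcd (m : ℤ) (Y - c) : ℕ) : ℤ) ≠ 0 := by exact_mod_cast hg.ne'
    have h2 : ((m / Int.gcd (m : ℤ) (Y - c) : ℕ) : ℤ) = a := by
      rw [Int.natCast_div]
      exact Int.ediv_eq_of_eq_mul_left hg' ha
    rw [h2]
    have h3 : a * (Int.gcd (m : ℤ) (Y - c) : ℕ) ∣ (b * (Y + c)) * (Int.gcd (m : ℤ) (Y - c) : ℕ) := by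
      have h4 : (b * (Y + c)) * (Int.gcd (m : ℤ) (Y - c) : ℕ) = Y ^ 2 - c ^ 2 := by
        linear_combination (-(Y + c)) * hb
      rw [h4, ← ha]
      exact hY.2.2
    exact (Int.isCoprime_iff_gcd_eq_one.2 hab).dvd_of_dvd_mul_left
      ((mul_dvd_mul_iff_right hg').1 h3)

theorem sum_inv_le (ε : ℝ) (hε : 0 < ε) : ∃ C : ℝ, 1 ≤ C ∧ ∀ N : ℕ,
    ∑ m ∈ Finset.Icc 1 N, (1 : ℝ) / m ≤ C * (N : ℝ) ^ ε := by
  refine ⟨1 + 1 / ε, by have := one_div_pos.2 hε; linarith, fun N => ?_⟩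
  rcases Nat.eq_zero_or_pos N with rfl | hN
  · simp only [Nat.cast_zero, Real.zero_rpow hε.ne']
    simp
  have h1 : (1 : ℝ) ≤ N := by exact_mod_cast hN
  have h2 : ∑ m ∈ Finset.Icc 1 N, (1 : ℝ) / m = (harmonic N : ℝ) := by
    rw [harmonic_eq_sum_Icc]
    simp
  have h3 := harmonic_le_one_add_log N
  have h4 := Real.log_le_rpow_div (x := (N : ℝ)) (by linarith) hε
  have h5 : (1 : ℝ) ≤ (N : ℝ) ^ ε := Real.one_le_rpow h1 hε.le
  have h6 : (1 + 1 / ε) * (N : ℝ) ^ ε = (N : ℝ) ^ ε + (N : ℝ) ^ ε / ε := by ring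
  rw [h2, h6]
  linarith

end Pool.Agent.VW
end

-- part Pool.Agent.P.MP_b0ea37_nt.WLRoot
section

namespace Pool.Agent.VW.Lat

open Polynomial

theorem alpha_split {M : ℕ} (hM : Squarefree M) {r : ℤ} {g : ℤ[X]} (h : Wk M r g) :
    ∃ (m M₂ : ℕ) (g' : ℤ[X]), 1 ≤ m ∧ M = m * M₂ ∧ g = C ((m : ℤ) ^ 2) * g' ∧
      (M₂ : ℤ) ∣ g.primPart.eval r := by
  obtain ⟨m, hm⟩ := Nat.gcd_dvd_left M (g.primPart.eval r).natAbs
  have hM2 := Nat.gcd_dvd_right M (g.primPart.eval r).natAbs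
  have hg : ∀ d : ℕ, d ∣ M → d ∣ (g.primPart.eval r).natAbs →
      d ∣ Nat.gcd M (g.primPart.eval r).natAbs := fun d h1 h2 => Nat.dvd_gcd h1 h2
  generalize Nat.gcd M (g.primPart.eval r).natAbs = M₂ at hm hM2 hg
  rw [mul_comm] at hm
  have hm0 : m ≠ 0 := by
    rintro rfl
    exact hM.ne_zero (by simpa using hm)
  have hco : m.Coprime M₂ := Nat.coprime_of_squarefree_mul (hm ▸ hM)
  have hco2 : m.Coprime (g.primPart.eval r).natAbs :=
    Nat.eq_one_of_dvd_coprimes hco (Nat.gcd_dvd_left _ _)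
      (hg _ ((Nat.gcd_dvd_left _ _).trans ⟨M₂, hm⟩) (Nat.gcd_dvd_right _ _))
  have hco3 : IsCoprime (m : ℤ) (g.primPart.eval r) := by
    rw [Int.isCoprime_iff_gcd_eq_one]
    simpa [Int.gcd] using hco2
  have h1 : (m : ℤ) ^ 2 ∣ g.content * g.primPart.eval r := by
    have e : g.eval r = g.content * g.primPart.eval r := by
      conv_lhs => rw [g.eq_C_content_mul_primPart]
      rw [eval_mul, eval_C]
    rw [← e]
    exact (wk_of_dvd ⟨M₂, hm⟩ h).1
  obtain ⟨c, hc⟩ := hco3.pow_left.dvd_of_dvd_mul_right h1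
  refine ⟨m, M₂, C c * g.primPart, Nat.one_le_iff_ne_zero.2 hm0, hm, ?_, Int.natCast_dvd.2 hM2⟩
  rw [← mul_assoc, ← C_mul, ← hc]
  exact g.eq_C_content_mul_primPart

/-- roots of a primitive polynomial modulo a squarefree number -/
theorem cnt_roots_prim (n : ℕ) (ε : ℝ) (hε : 0 < ε) : ∃ C₀ : ℝ, 1 ≤ C₀ ∧
    ∀ (g : ℤ[X]) (m M₂ : ℕ), g.IsPrimitive → g.natDegree ≤ n → 1 ≤ m → Squarefree M₂ →
    Cnt (fun r : ℤ => 0 ≤ r ∧ r < (m * M₂ : ℕ) ∧ (M₂ : ℤ) ∣ g.eval r)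
      (C₀ * (M₂ : ℝ) ^ ε * m) := by
  obtain ⟨C₀, hC₀, h0⟩ := pow_omega_le (max 1 (n : ℝ)) (le_max_left _ _) ε hε
  refine ⟨C₀, hC₀, fun g m M₂ hg hn hm hM => ?_⟩
  have hM0 : (0 : ℤ) < M₂ := by exact_mod_cast Nat.pos_of_ne_zero hM.ne_zero
  have h1 := cnt_roots_mod M₂ hM g n hn fun p hp _ hd =>
    (Nat.prime_iff_prime_int.1 hp).not_isUnit (hg _ hd)
  have h2 := Cnt.prod (Q := fun (_ : ℤ) (t : ℤ) => 0 ≤ t ∧ t < m) h1 (Nat.cast_nonneg m)
    fun _ _ => cnt_res m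
  refine (h2.inj (fun r => (r % M₂, r / M₂)) ?_ ?_).mono (fun _ h => h) ?_
  · rintro r ⟨hr0, hr1, hr2⟩
    refine ⟨⟨Int.emod_nonneg _ hM0.ne', Int.emod_lt_of_pos _ hM0,
      dvd_eval_of_mod (Int.dvd_self_sub_of_emod_eq rfl) hr2⟩, Int.ediv_nonneg hr0 hM0.le, ?_⟩
    refine Int.ediv_lt_of_lt_mul hM0 ?_
    exact_mod_cast hr1
  · intro r r' _ _ e
    have e1 : r % M₂ = r' % M₂ := congrArg Prod.fst e
    have e2 : r / M₂ = r' / M₂ := congrArg Prod.snd e
    rw [← Int.emod_add_mul_ediv r M₂, ← Int.emod_add_mul_ediv r' M₂, e1, e2]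
  · refine mul_le_mul_of_nonneg_right (le_trans ?_ (h0 M₂ hM.ne_zero)) (Nat.cast_nonneg m)
    exact pow_le_pow_left₀ (Nat.cast_nonneg n) (le_max_right _ _) _

/-- moduli that divide `N` up to a factor at most `Y` -/
theorem cnt_almost_dvd (ε : ℝ) (hε : 0 < ε) : ∃ C₀ : ℝ, 1 ≤ C₀ ∧ ∀ (N : ℕ) (Y : ℝ), N ≠ 0 →
    0 ≤ Y → Cnt (fun M : ℕ => ∃ M' : ℕ, 1 ≤ M' ∧ (M' : ℝ) ≤ Y ∧ M ∣ N * M')
      (C₀ * (N : ℝ) ^ ε * Y) := by
  obtain ⟨C₀, hC₀, h0⟩ := cnt_divisors ε hε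
  refine ⟨C₀, hC₀, fun N Y hN hY => ?_⟩
  have h1 := Cnt.prod (Q := fun (_ : ℕ) (t : ℕ) => 1 ≤ t ∧ (t : ℝ) ≤ Y) (h0 N hN) hY
    fun _ _ => cnt_nat_pos Y hY
  refine (h1.image fun z => z.1 * z.2).mono ?_ le_rfl
  rintro M ⟨M', h2, h3, h4⟩
  obtain ⟨d, e, hd, he, rfl⟩ := exists_dvd_and_dvd_of_dvd_mul h4
  refine ⟨(d, e), ⟨hd, Nat.pos_of_dvd_of_pos he h2, le_trans ?_ h3⟩, rfl⟩
  exact_mod_cast Nat.le_of_dvd h2 he

/-- the pairs that share a polynomial -/
theorem cnt_share (n : ℕ) (ε : ℝ) (hε : 0 < ε) : ∃ C₀ : ℝ, 1 ≤ C₀ ∧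
    ∀ (V Y : ℝ) (g : ℤ[X]) (N m : ℕ), 1 ≤ V → 0 ≤ Y → g.IsPrimitive → g.natDegree ≤ n → N ≠ 0 →
    (N : ℝ) ≤ V → 1 ≤ m →
    Cnt (fun z : ℕ × ℤ => Squarefree z.1 ∧ (z.1 : ℝ) ≤ V ∧ 0 ≤ z.2 ∧ z.2 < z.1 ∧
      (∃ M' : ℕ, 1 ≤ M' ∧ (M' : ℝ) ≤ Y ∧ z.1 ∣ N * M') ∧
      ∃ M₂ : ℕ, z.1 = m * M₂ ∧ (M₂ : ℤ) ∣ g.eval z.2) (C₀ * V ^ ε * Y * m) := by
  obtain ⟨C₁, hC₁, h1⟩ := cnt_almost_dvd (ε / 2) (by linarith)
  obtain ⟨C₂, hC₂, h2⟩ := cnt_roots_prim n (ε / 2) (by linarith)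
  refine ⟨C₁ * C₂, one_le_mul_of_one_le_of_one_le hC₁ hC₂, ?_⟩
  intro V Y g N m hV hY hg hn hN hNV hm
  have hV0 : 0 < V := by linarith
  have hC₁0 : 0 ≤ C₁ := by linarith
  have hC₂0 : 0 ≤ C₂ := by linarith
  have hε2 : 0 ≤ ε / 2 := by linarith
  have hP : Cnt (fun M : ℕ => Squarefree M ∧ (M : ℝ) ≤ V ∧
      ∃ M' : ℕ, 1 ≤ M' ∧ (M' : ℝ) ≤ Y ∧ M ∣ N * M') (C₁ * V ^ (ε / 2) * Y) :=
    (h1 N Y hN hY).mono (fun M hM => hM.2.2) (by gcongr)
  have hB : 0 ≤ C₂ * V ^ (ε / 2) * m := by positivity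
  have h3 := Cnt.prod (Q := fun (M : ℕ) (r : ℤ) => 0 ≤ r ∧ r < M ∧
      ∃ M₂ : ℕ, M = m * M₂ ∧ (M₂ : ℤ) ∣ g.eval r) hP hB (by
    rintro M ⟨hs, hMV, -⟩
    refine Cnt.of_mem hB ?_
    rintro r₀ ⟨-, -, M₂, rfl, -⟩
    have hle : (M₂ : ℝ) ≤ V := by
      refine le_trans ?_ hMV
      exact_mod_cast Nat.le_mul_of_pos_left M₂ hm
    refine (h2 g m M₂ hg hn hm hs.of_mul_right).mono ?_ (by gcongr)
    rintro r ⟨hr0, hr1, M₃, e, hd⟩
    rw [← Nat.eq_of_mul_eq_mul_left hm e] at hd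
    exact ⟨hr0, hr1, hd⟩)
  refine h3.mono (fun z hz => ⟨⟨hz.1, hz.2.1, hz.2.2.2.2.1⟩, hz.2.2.1, hz.2.2.2.1,
    hz.2.2.2.2.2⟩) (le_of_eq ?_)
  have e : V ^ ε = V ^ (ε / 2) * V ^ (ε / 2) := by
    rw [← Real.rpow_add hV0, add_halves]
  rw [e]
  ring

end Pool.Agent.VW.Lat
end

-- part Pool.Agent.P.MP_b0ea37_nt.WLCnt
section

namespace Pool.Agent.VW.Lat

open Polynomial

/-- harmonic sum over a modulus -/
theorem cnt_harm (ε : ℝ) (hε : 0 < ε) : ∃ C₀ : ℝ, 1 ≤ C₀ ∧ ∀ {α : Type} (Z B : ℝ)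
    (P : ℕ → α → Prop), 1 ≤ Z → 0 ≤ B → (∀ M : ℕ, 1 ≤ M → (M : ℝ) ≤ Z → Cnt (P M) (B / M)) →
    Cnt (fun x => ∃ M : ℕ, 1 ≤ M ∧ (M : ℝ) ≤ Z ∧ P M x) (C₀ * Z ^ ε * B) := by
  obtain ⟨C₀, hC, h⟩ := sum_inv_le ε hε
  refine ⟨C₀, hC, fun Z B P hZ hB hP => ?_⟩
  have hf : (⌊Z⌋₊ : ℝ) ≤ Z := Nat.floor_le (by linarith)
  have h1 := Cnt.sum (Finset.Icc 1 ⌊Z⌋₊) (P := P) (B := fun M => B / M) fun M hM =>
    hP M (Finset.mem_Icc.1 hM).1 ((Nat.cast_le.2 (Finset.mem_Icc.1 hM).2).trans hf)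
  refine h1.mono ?_ ?_
  · rintro x ⟨M, h2, h3, h4⟩
    exact ⟨M, Finset.mem_Icc.2 ⟨h2, Nat.le_floor h3⟩, h4⟩
  · have h2 : ∑ M ∈ Finset.Icc 1 ⌊Z⌋₊, B / (M : ℝ) =
        (∑ M ∈ Finset.Icc 1 ⌊Z⌋₊, (1 : ℝ) / M) * B := by
      rw [Finset.sum_mul]
      exact Finset.sum_congr rfl fun M _ => by ring
    rw [h2]
    refine mul_le_mul_of_nonneg_right ((h _).trans ?_) hB
    exact mul_le_mul_of_nonneg_left (Real.rpow_le_rpow (Nat.cast_nonneg _) hf hε.le) (by linarith)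

/-- dyadic sum over a size -/
theorem cnt_dy (ε : ℝ) (hε : 0 < ε) : ∃ C₀ : ℝ, 1 ≤ C₀ ∧ ∀ {α : Type} (Z B : ℝ)
    (P : ℝ → α → Prop), 1 ≤ Z → 0 ≤ B →
    (∀ T : ℝ, 1 ≤ T → T ≤ Z → Cnt (fun x => ∃ t : ℝ, T ≤ t ∧ t ≤ 2 * T ∧ P t x) B) →
    Cnt (fun x => ∃ t : ℝ, 1 ≤ t ∧ t ≤ Z ∧ P t x) (C₀ * Z ^ ε * B) := by
  obtain ⟨C₀, hC, h⟩ := cnt_dyadic ε hε
  refine ⟨C₀, hC, fun Z B P hZ hB hP => ?_⟩
  refine ((h Z hZ).fibre hB fun k hk => hP _ (one_le_pow₀ one_le_two) hk).mono ?_ le_rfl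
  rintro x ⟨t, h1, h2, h3⟩
  obtain ⟨k, k1, k2⟩ := exists_dyadic t h1
  exact ⟨k, k1.trans h2, t, k1, k2.le, h3⟩

/-- data times fibres, the size of the fibre being part of the property -/
theorem cnt_fib {α β : Type} {Q : β → Prop} {S : β → α → Prop} {A B : ℝ} (h : Cnt Q A)
    (hB : 0 ≤ B) : Cnt (fun x => ∃ y, Q y ∧ S y x ∧ Cnt (S y) B) (A * B) := by
  have h1 : Cnt (fun y => Q y ∧ Cnt (S y) B) A := h.mono (fun _ hy => hy.1) le_rfl
  refine (h1.fibre (P := S) hB fun y hy => hy.2).mono ?_ le_rfl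
  rintro x ⟨y, h2, h3, h4⟩
  exact ⟨y, ⟨h2, h4⟩, h3⟩

/-- all pairs, fibres of size `H ^ e / M ^ 2` -/
theorem ps_pow (n D : ℕ) (e C₁ : ℝ) (he : e < (n : ℝ) - 1) (hC : 0 ≤ C₁)
    (S : ℝ → ℕ → ℤ → ℤ[X] → Prop) : PS n fun H f => ∃ (M : ℕ) (r : ℤ), 1 ≤ M ∧
      (M : ℝ) ≤ H ^ D ∧ 0 ≤ r ∧ r < M ∧ S H M r f ∧
      Cnt (S H M r) (C₁ * H ^ e / (M : ℝ) ^ 2) := by
  obtain ⟨ε, hεd⟩ : ∃ ε : ℝ, ε = ((n : ℝ) - 1 - e) / (2 * (D + 1)) := ⟨_, rfl⟩
  have hD : (0 : ℝ) ≤ D := Nat.cast_nonneg D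
  have hε : 0 < ε := hεd ▸ div_pos (by linarith) (by linarith)
  have hε2 : ε * (2 * (D + 1)) = (n : ℝ) - 1 - e := by
    rw [hεd, div_mul_cancel₀ _ (by positivity)]
  obtain ⟨C₀, _, h⟩ := cnt_harm ε hε
  refine PS.of_lt (D * ε + e) (C₀ * C₁) 1 (by nlinarith) fun H hH => ?_
  have hH0 : 0 < H := by linarith
  have h1 := h (H ^ D) (C₁ * H ^ e) (fun (M : ℕ) (f : ℤ[X]) => ∃ r : ℤ, (0 ≤ r ∧ r < M) ∧
    S H M r f ∧ Cnt (S H M r) (C₁ * H ^ e / (M : ℝ) ^ 2)) (one_le_pow₀ hH) (by positivity)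
    fun M hM _ => (cnt_fib (cnt_res M) (by positivity)).mono (fun _ hx => hx) (le_of_eq (by
      have : (M : ℝ) ≠ 0 := by positivity
      field_simp))
  refine h1.mono ?_ (le_of_eq ?_)
  · rintro f ⟨_, M, r, h2, h3, h4, h5, h6⟩
    exact ⟨M, h2, h3, r, ⟨h4, h5⟩, h6⟩
  · rw [Real.rpow_add hH0, Real.rpow_natCast_mul hH0.le]
    ring

end Pool.Agent.VW.Lat
end

-- part Pool.Agent.P.MP_b0ea37_nt.WLAlpha
section

namespace Pool.Agent.VW.Lat

open Polynomial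

theorem wlalpha_half {V ε : ℝ} (hV : 1 ≤ V) : V ^ ε = V ^ (ε / 2) * V ^ (ε / 2) := by
  rw [← Real.rpow_add (by linarith), add_halves]

theorem wlalpha_div {T m a : ℝ} (hT : 0 ≤ T) (hm : 1 ≤ m) (ha : 1 ≤ a) :
    (T / m ^ 2) ^ a * m ≤ T ^ a / m := by
  have h0 : 0 < m := by linarith
  have h1 : m ^ 2 ≤ (m ^ 2) ^ a := Real.self_le_rpow_of_one_le (one_le_pow₀ hm) ha
  have h2 : 0 ≤ T ^ a := Real.rpow_nonneg hT a
  rw [Real.div_rpow hT (by positivity)]
  calc T ^ a / (m ^ 2) ^ a * m ≤ T ^ a / m ^ 2 * m := by gcongr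
    _ = T ^ a / m := by field_simp

theorem wlalpha_dy {n : ℕ} {U T t a b W : ℝ} (hU : 0 ≤ U) (hU' : U ≤ 2 * T) (hT : 1 ≤ T)
    (h1 : T ≤ t) (h2 : t ≤ 2 * T) (ha : 0 ≤ a) (ha' : a ≤ n) (hb : 0 ≤ b) (hb' : b ≤ n)
    (hW : t ^ (a - b) ≤ W) : U ^ a / T ^ b ≤ 4 ^ n * W := by
  have t0 : 0 < t := by linarith
  have T0 : 0 < T ^ b := Real.rpow_pos_of_pos (by linarith) b
  have p2 : ∀ c : ℝ, c ≤ n → (2 : ℝ) ^ c ≤ 2 ^ n := fun c hc => by
    rw [← Real.rpow_natCast]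
    exact Real.rpow_le_rpow_of_exponent_le one_le_two hc
  have e1 : U ^ a ≤ 2 ^ n * t ^ a := by
    refine (Real.rpow_le_rpow hU (show U ≤ 2 * t by linarith) ha).trans ?_
    rw [Real.mul_rpow zero_le_two t0.le]
    exact mul_le_mul_of_nonneg_right (p2 a ha') (Real.rpow_nonneg t0.le a)
  have e2 : t ^ b ≤ 2 ^ n * T ^ b := by
    refine (Real.rpow_le_rpow t0.le h2 hb).trans ?_
    rw [Real.mul_rpow zero_le_two (by linarith)]
    exact mul_le_mul_of_nonneg_right (p2 b hb') T0.le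
  have e3 : t ^ a = t ^ (a - b) * t ^ b := by rw [← Real.rpow_add t0, sub_add_cancel]
  have e4 : 0 ≤ t ^ (a - b) := Real.rpow_nonneg t0.le _
  have e5 : 0 ≤ t ^ b := Real.rpow_nonneg t0.le _
  have e6 : (4 : ℝ) ^ n = 2 ^ n * 2 ^ n := by
    rw [← mul_pow]
    norm_num
  rw [div_le_iff₀ T0, e6]
  calc U ^ a ≤ 2 ^ n * (t ^ (a - b) * t ^ b) := e3 ▸ e1
    _ ≤ 2 ^ n * (W * (2 ^ n * T ^ b)) := by
        have := e4.trans hW
        gcongr
    _ = 2 ^ n * 2 ^ n * W * T ^ b := by ring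

theorem cnt_alpha (n : ℕ) (ε : ℝ) (hε : 0 < ε) : ∃ C₀ : ℝ, 1 ≤ C₀ ∧
    ∀ (V T Y A a : ℝ) (G : ℤ[X] → Prop) (N : ℤ[X] → ℕ), 1 ≤ T → T ≤ V → 0 ≤ Y → 0 ≤ A → 1 ≤ a →
    Fam n A a G → Cnt (fun z : ℕ × ℤ => ∃ g, G g ∧ g.supNorm ≤ T ∧ Tri V Y N z.1 z.2 g)
      (C₀ * V ^ ε * (A * T ^ a * Y)) := by
  obtain ⟨C₁, c1, h1⟩ := cnt_harm (ε / 2) (half_pos hε)
  obtain ⟨C₂, c2, h2⟩ := cnt_share n (ε / 2) (half_pos hε)
  refine ⟨C₁ * C₂, one_le_mul_of_one_le_of_one_le c1 c2,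
    fun V T Y A a G N hT hTV hY hA ha hF => ?_⟩
  have hV : 1 ≤ V := hT.trans hTV
  have v0 : 0 ≤ V ^ (ε / 2) := Real.rpow_nonneg (by linarith) _
  have t0 : 0 ≤ T ^ a := Real.rpow_nonneg (by linarith) _
  have c0 : 0 ≤ C₂ := by linarith
  refine (h1 V (C₂ * V ^ (ε / 2) * (A * T ^ a * Y)) (fun m (z : ℕ × ℤ) => ∃ g' : ℤ[X],
    (G g' ∧ g'.supNorm ≤ T / (m : ℝ) ^ 2) ∧
      (N (C ((m : ℤ) ^ 2) * g') ≠ 0 ∧ (N (C ((m : ℤ) ^ 2) * g') : ℝ) ≤ V) ∧
      Squarefree z.1 ∧ (z.1 : ℝ) ≤ V ∧ 0 ≤ z.2 ∧ z.2 < z.1 ∧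
      (∃ M' : ℕ, 1 ≤ M' ∧ (M' : ℝ) ≤ Y ∧ z.1 ∣ N (C ((m : ℤ) ^ 2) * g') * M') ∧
      ∃ M₂ : ℕ, z.1 = m * M₂ ∧ (M₂ : ℤ) ∣ (C ((m : ℤ) ^ 2) * g').primPart.eval z.2)
    hV (by positivity) fun m hm _ => ?_).mono ?_ (le_of_eq ?_)
  · have m1 : (1 : ℝ) ≤ m := by exact_mod_cast hm
    have b0 : 0 ≤ C₂ * V ^ (ε / 2) * Y * m := by positivity
    rcases lt_or_ge (T / (m : ℝ) ^ 2) 1 with hU | hU
    · refine Cnt.empty ?_ (by positivity)
      rintro z ⟨g', ⟨a1, a2⟩, -⟩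
      linarith [one_le_sup (hF.1 g' a1).1]
    refine (Cnt.fibre (hF.2.2 _ hU) b0 fun g' hg' => Cnt.of_mem b0 fun z hz => ?_).mono
      (fun _ h => h) ?_
    · refine (h2 V Y _ _ m hV hY (isPrimitive_primPart _) ?_ hz.1.1 hz.1.2 hm).mono
        (fun _ h => h.2) le_rfl
      rw [natDegree_primPart]
      exact (natDegree_C_mul_le _ _).trans (hF.1 g' hg'.1).2.le
    · calc A * (T / (m : ℝ) ^ 2) ^ a * (C₂ * V ^ (ε / 2) * Y * m)
          = C₂ * V ^ (ε / 2) * (A * Y) * ((T / (m : ℝ) ^ 2) ^ a * m) := by ring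
        _ ≤ C₂ * V ^ (ε / 2) * (A * Y) * (T ^ a / m) :=
            mul_le_mul_of_nonneg_left (wlalpha_div (by linarith) m1 ha) (by positivity)
        _ = _ := by ring
  · rintro ⟨M, r⟩ ⟨g, a1, a2, b1, b2, b3, b4, b5, b6, b7, b8⟩
    obtain ⟨m, M₂, g', d1, d2, rfl, d4⟩ := alpha_split b1 b5
    have m1 : (1 : ℝ) ≤ m := by exact_mod_cast d1
    have m2 : m ≤ M := Nat.le_of_dvd (Nat.pos_of_ne_zero b1.ne_zero) ⟨M₂, d2⟩
    refine ⟨m, d1, (Nat.cast_le.2 m2).trans b2, g', ⟨hF.2.1 _ g' (by positivity) a1, ?_⟩,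
      ⟨b6, b7⟩, b1, b2, b3, b4, b8, M₂, d2, d4⟩
    rw [sup_C_mul_int] at a2
    push_cast at a2
    rw [abs_of_nonneg (by positivity)] at a2
    rw [le_div_iff₀ (by positivity)]
    linarith
  · rw [wlalpha_half (ε := ε) hV]
    ring

theorem cnt_alpha_fib (n : ℕ) (ε : ℝ) (hε : 0 < ε) : ∃ C₀ : ℝ, 1 ≤ C₀ ∧
    ∀ (V Y A a b B W : ℝ) (G : ℤ[X] → Prop) (N : ℤ[X] → ℕ) (S : ℕ → ℤ → ℤ[X] → Prop),
    1 ≤ V → 0 ≤ Y → 0 ≤ A → 1 ≤ a → a ≤ n → 0 ≤ b → b ≤ n → 0 ≤ B → 0 ≤ W → Fam n A a G →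
    Cnt (fun f => ∃ (M : ℕ) (r : ℤ) (g : ℤ[X]), G g ∧ g.supNorm ≤ V ∧ g.supNorm ^ (a - b) ≤ W ∧
      Tri V Y N M r g ∧ S M r f ∧ Cnt (S M r) (B / g.supNorm ^ b))
      (C₀ * V ^ ε * (A * Y * B * W)) := by
  obtain ⟨C₁, c1, h1⟩ := cnt_dy (ε / 2) (half_pos hε)
  obtain ⟨C₂, c2, h2⟩ := cnt_alpha n (ε / 2) (half_pos hε)
  refine ⟨C₁ * (C₂ * 4 ^ n), one_le_mul_of_one_le_of_one_le c1
    (one_le_mul_of_one_le_of_one_le c2 (one_le_pow₀ (by norm_num))),
    fun V Y A a b B W G N S hV hY hA ha ha' hb hb' hB hW hF => ?_⟩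
  have v0 : 0 ≤ V ^ (ε / 2) := Real.rpow_nonneg (by linarith) _
  have c0 : 0 ≤ C₂ := by linarith
  have b0 : 0 ≤ C₂ * 4 ^ n * V ^ (ε / 2) * (A * Y * B * W) := by positivity
  refine (h1 V _ (fun t f => ∃ (M : ℕ) (r : ℤ) (g : ℤ[X]), g.supNorm = t ∧ G g ∧ t ≤ V ∧
    t ^ (a - b) ≤ W ∧ Tri V Y N M r g ∧ S M r f ∧ Cnt (S M r) (B / t ^ b)) hV b0
    fun T hT hTV => Cnt.of_mem b0 ?_).mono ?_ (le_of_eq ?_)
  · rintro - ⟨t₀, k1, k2, -, -, -, -, -, -, k3, -⟩
    have T0 : 0 < T ^ b := Real.rpow_pos_of_pos (by linarith) b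
    have u1 : 1 ≤ min (2 * T) V := le_min (by linarith) hV
    refine (cnt_fib (S := fun (z : ℕ × ℤ) f => S z.1 z.2 f) (B := B / T ^ b)
      (h2 V _ Y A a G N u1 (min_le_right _ _) hY hA ha hF) (by positivity)).mono ?_ ?_
    · rintro f ⟨t, a1, a2, M, r, g, rfl, a3, a4, -, a5, a6, a7⟩
      refine ⟨(M, r), ⟨g, a3, le_min a2 a4, a5⟩, a6, a7.mono (fun _ h => h) ?_⟩
      exact div_le_div_of_nonneg_left hB T0 (Real.rpow_le_rpow (by linarith) a1 hb)
    · calc C₂ * V ^ (ε / 2) * (A * min (2 * T) V ^ a * Y) * (B / T ^ b)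
          = C₂ * V ^ (ε / 2) * (A * Y * B) * (min (2 * T) V ^ a / T ^ b) := by ring
        _ ≤ C₂ * V ^ (ε / 2) * (A * Y * B) * (4 ^ n * W) :=
            mul_le_mul_of_nonneg_left (wlalpha_dy (by linarith) (min_le_left _ _) hT k1 k2
              (by linarith) ha' hb hb' k3) (by positivity)
        _ = _ := by ring
  · rintro f ⟨M, r, g, a1, a2, a3⟩
    exact ⟨_, one_le_sup (hF.1 g a1).1, a2, M, r, g, rfl, a1, a2, a3⟩
  · rw [wlalpha_half (ε := ε) hV]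
    ring

end Pool.Agent.VW.Lat
end

-- part Pool.Agent.P.MP_b0ea37_nt.WLZero
section

namespace Pool.Agent.VW.Lat

open Polynomial

theorem wlzero_gen (n D : ℕ) (hD : 1 ≤ D) (A a b β τ C₁ : ℝ) (G : ℤ[X] → Prop) (hA : 0 ≤ A)
    (ha : 1 ≤ a) (han : a ≤ n) (hb : 0 ≤ b) (hba : b ≤ a) (hC : 0 ≤ C₁) (hτ : τ ≤ 1)
    (hF : Fam n A a G) (hlt : β + τ * (a - b) < n - 1) (N : ℤ[X] → ℕ)
    (S : ℝ → ℕ → ℤ → ℤ[X] → Prop) : PS n fun H f => ∃ (M : ℕ) (r : ℤ) (g : ℤ[X]), G g ∧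
      g.supNorm ≤ H ^ τ ∧ Tri (H ^ D) 1 N M r g ∧ S H M r f ∧
      Cnt (S H M r) (C₁ * H ^ β / g.supNorm ^ b) := by
  have hD' : (1 : ℝ) ≤ D := by exact_mod_cast hD
  obtain ⟨ε, hε, he⟩ : ∃ ε : ℝ, 0 < ε ∧ D * ε + β + τ * (a - b) < n - 1 := by
    refine ⟨(n - 1 - (β + τ * (a - b))) / (2 * D), div_pos (by linarith) (by linarith), ?_⟩
    have : D * ((n - 1 - (β + τ * (a - b))) / (2 * D)) = (n - 1 - (β + τ * (a - b))) / 2 := by
      field_simp
    linarith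
  obtain ⟨C₀, -, h⟩ := cnt_alpha_fib n ε hε
  refine PS.of_lt _ (C₀ * A * C₁) 1 he fun H hH => ?_
  have hH0 : 0 < H := by linarith
  refine (h (H ^ D) 1 A a b (C₁ * H ^ β) (H ^ (τ * (a - b))) G N (S H) (one_le_pow₀ hH) zero_le_one
    hA ha han hb (hba.trans han) (by positivity) (by positivity) hF).mono ?_ (le_of_eq ?_)
  · rintro f ⟨-, M, r, g, h1, h2, h3, h4, h5⟩
    refine ⟨M, r, g, h1, h2.trans ?_, ?_, h3, h4, h5⟩
    · rw [← Real.rpow_natCast]
      exact Real.rpow_le_rpow_of_exponent_le hH (hτ.trans hD')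
    · rw [Real.rpow_mul hH0.le]
      exact Real.rpow_le_rpow (supNorm_nonneg g) h2 (sub_nonneg.2 hba)
  · rw [Real.rpow_add hH0, Real.rpow_add hH0, Real.rpow_mul hH0.le D, Real.rpow_natCast]
    ring

theorem ps_gen (n D : ℕ) (hn : 5 ≤ n) (hD : 1 ≤ D) (C₁ : ℝ) (hC : 0 ≤ C₁) (N : ℤ[X] → ℕ)
    (S : ℝ → ℕ → ℤ → ℤ[X] → Prop) : PS n fun H f => ∃ (M : ℕ) (r : ℤ) (g : ℤ[X]), g ≠ 0 ∧
      g.natDegree < n ∧ g.supNorm ≤ H ^ tau n ∧ Tri (H ^ D) 1 N M r g ∧ S H M r f ∧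
      Cnt (S H M r) (C₁ * H / g.supNorm) := by
  have hn' : (5 : ℝ) ≤ n := by exact_mod_cast hn
  have e : tau n * (n - 1) = n - 2 - (n - 1) / 1000 := by
    have : (n : ℝ) - 1 ≠ 0 := by linarith
    unfold tau
    field_simp
  have ht : tau n ≤ 1 := le_of_mul_le_mul_right (a := (n : ℝ) - 1) (by linarith) (by linarith)
  refine (wlzero_gen n D hD (3 ^ n) n 1 1 (tau n) C₁ _ (by positivity) (by linarith) le_rfl
    zero_le_one (by linarith) hC ht (fam_all n) (by linarith) N S).mono 1 ?_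
  rintro H - f - ⟨M, r, g, h0, h1, h2, h3, h4, h5⟩
  exact ⟨M, r, g, ⟨h0, h1⟩, h2, h3, h4, by rwa [Real.rpow_one, Real.rpow_one]⟩

theorem ps_spec (n D : ℕ) (hn : 5 ≤ n) (hD : 1 ≤ D) (C₁ ε τ : ℝ) (hC : 0 ≤ C₁) (hε : 0 ≤ ε)
    (hτ : 0 ≤ τ) (h : ε + τ / 2 < 1 / 2) (N : ℤ[X] → ℕ) (S : ℝ → ℕ → ℤ → ℤ[X] → Prop) :
    PS n fun H f => ∃ (M : ℕ) (r : ℤ) (g : ℤ[X]), g ≠ 0 ∧ g.natDegree < n ∧ Spec n g ∧
      g.supNorm ≤ H ^ τ ∧ Tri (H ^ D) 1 N M r g ∧ S H M r f ∧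
      Cnt (S H M r) (C₁ * H ^ ((n : ℝ) - 3 / 2 + ε) / g.supNorm ^ ((n : ℝ) - 3 / 2)) := by
  have hn' : (5 : ℝ) ≤ n := by exact_mod_cast hn
  obtain ⟨A, hA, hF⟩ := fam_spec n (by omega) ((1 / 2 - (ε + τ / 2)) / 2) (by linarith)
  refine (wlzero_gen n D hD A _ (n - 3 / 2) (n - 3 / 2 + ε) τ C₁ _ hA (by linarith) (by linarith)
    (by linarith) (by linarith) hC (by linarith) hF (by nlinarith) N S).mono 1 ?_
  rintro H - f - ⟨M, r, g, h0, h1, hs, h2, h3, h4, h5⟩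
  exact ⟨M, r, g, ⟨h0, h1, hs⟩, h2, h3, h4, h5⟩

end Pool.Agent.VW.Lat
end

-- part Pool.Agent.P.MP_b0ea37_nt.WLFirst
section

namespace Pool.Agent.VW.Lat

open Polynomial

theorem wlfirst_tri {V Y Y' : ℝ} {N : ℤ[X] → ℕ} {M : ℕ} {r : ℤ} {g : ℤ[X]} (h : Tri V Y N M r g)
    (hY : Y ≤ Y') : Tri V Y' N M r g := by
  obtain ⟨h1, h2, h3, h4, h5, h6, h7, M', h8, h9, h10⟩ := h
  exact ⟨h1, h2, h3, h4, h5, h6, h7, M', h8, h9.trans hY, h10⟩

theorem wlfirst_W {n e : ℕ} (he : 1 ≤ e) (hen : 2 * e < n) {η x : ℝ} (hη : 1 ≤ η)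
    (hx : η ^ 2 ≤ 16 ^ n * x) :
    x ^ (((n : ℝ) - 2 * e) - ((n : ℝ) - 3 / 2)) ≤ 16 ^ (n * n) * η ^ (3 - 4 * (e : ℝ)) := by
  have h0 : 0 < η := one_pos.trans_le hη
  have he' : (1 : ℝ) ≤ e := by exact_mod_cast he
  have hen' : 2 * (e : ℝ) ≤ n := by exact_mod_cast hen.le
  have hq : (0 : ℝ) < 16 ^ n := by positivity
  have h1 : η ^ 2 / 16 ^ n ≤ x := by rwa [div_le_iff₀' hq]
  have e1 : ((n : ℝ) - 2 * e) - ((n : ℝ) - 3 / 2) = -(2 * (e : ℝ) - 3 / 2) := by ring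
  have e2 : (η ^ 2) ^ (-(2 * (e : ℝ) - 3 / 2)) = η ^ (3 - 4 * (e : ℝ)) := by
    rw [← Real.rpow_natCast, ← Real.rpow_mul h0.le]
    congr 1
    push_cast
    ring
  rw [e1]
  refine (Real.rpow_le_rpow_of_nonpos (by positivity) h1 (by linarith)).trans ?_
  rw [Real.div_rpow (by positivity) hq.le, e2, Real.rpow_neg hq.le, div_inv_eq_mul, mul_comm,
    pow_mul]
  refine mul_le_mul_of_nonneg_right ?_ (by positivity)
  rw [← Real.rpow_natCast ((16 : ℝ) ^ n) n]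
  exact Real.rpow_le_rpow_of_exponent_le (one_le_pow₀ (by norm_num)) (by linarith)

theorem wlfirst_deg (n D e : ℕ) (hn : 5 ≤ n) (hD : 1 ≤ D) (he : 1 ≤ e) (hen : 2 * e < n) (C₁ : ℝ)
    (hC : 0 ≤ C₁) (N : ℤ[X] → ℕ) (S : ℝ → ℕ → ℤ → ℤ[X] → Prop) :
    PS n fun H f => ∃ (M : ℕ) (r : ℤ) (g k : ℤ[X]), g ≠ 0 ∧
      g.natDegree < n ∧ g.supNorm ≤ H ∧ k.IsPrimitive ∧ k.natDegree = e ∧ k ^ 2 ∣ g ∧
      Tri (H ^ D) (H ^ (12 / 25 : ℝ) * k.supNorm ^ (2 * n - 4 - e)) N M r g ∧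
      S H M r f ∧
      Cnt (S H M r) (C₁ * H ^ ((n : ℝ) - 3 / 2 + 1 / 100) / g.supNorm ^ ((n : ℝ) - 3 / 2)) := by
  obtain ⟨ε, hε, hεD⟩ : ∃ ε : ℝ, 0 < ε ∧ (D + 1) * ε = 1 / 200 :=
    ⟨1 / (200 * (D + 1)), by positivity, by field_simp⟩
  obtain ⟨C₀, hC₀, hF⟩ := fam_sq n
  obtain ⟨C₂, hC₂, hA⟩ := cnt_alpha_fib n ε hε
  obtain ⟨C₃, hC₃, hY⟩ := cnt_dy ε hε
  obtain ⟨p, hp⟩ : ∃ p, p = 2 * n - 4 - e := ⟨_, rfl⟩
  have hp' : (p : ℝ) = 2 * n - 4 - e := by
    have : p + e + 4 = 2 * n := by omega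
    have : (p : ℝ) + e + 4 = 2 * n := by exact_mod_cast this
    linarith
  have hn' : (5 : ℝ) ≤ n := by exact_mod_cast hn
  have he' : (1 : ℝ) ≤ e := by exact_mod_cast he
  have hen' : 2 * (e : ℝ) + 1 ≤ n := by exact_mod_cast hen
  rw [← hp]
  refine PS.of_lt (ε + (D * ε + (12 / 25 + ((n : ℝ) - 3 / 2 + 1 / 100))))
    (C₃ * (C₂ * (C₀ * 2 ^ p * C₁ * 16 ^ (n * n)))) (16 ^ n) (by linarith) fun H hH => ?_
  have h1 : 1 ≤ H := (one_le_pow₀ (by norm_num)).trans hH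
  have h0 : 0 < H := one_pos.trans_le h1
  have hV : H ≤ H ^ D := le_self_pow₀ h1 (by omega)
  refine (hY H (C₂ * (H ^ D) ^ ε * (C₀ * 2 ^ p * C₁ * 16 ^ (n * n) *
      (H ^ (12 / 25 : ℝ) * H ^ ((n : ℝ) - 3 / 2 + 1 / 100))))
    (fun t f => ∃ (M : ℕ) (r : ℤ) (g k : ℤ[X]), k.supNorm = t ∧ g ≠ 0 ∧
      g.natDegree < n ∧ g.supNorm ≤ H ∧ k.IsPrimitive ∧ k.natDegree = e ∧ k ^ 2 ∣ g ∧
      Tri (H ^ D) (H ^ (12 / 25 : ℝ) * k.supNorm ^ p) N M r g ∧ S H M r f ∧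
      Cnt (S H M r) (C₁ * H ^ ((n : ℝ) - 3 / 2 + 1 / 100) / g.supNorm ^ ((n : ℝ) - 3 / 2)))
    h1 (by positivity) fun η hη _ => ?_).mono ?_ (le_of_eq ?_)
  · have hη0 : 0 < η := one_pos.trans_le hη
    refine (hA (H ^ D) (H ^ (12 / 25 : ℝ) * (2 * η) ^ p) _ _ ((n : ℝ) - 3 / 2)
      (C₁ * H ^ ((n : ℝ) - 3 / 2 + 1 / 100)) (16 ^ (n * n) * η ^ (3 - 4 * (e : ℝ))) _ N (S H)
      (h1.trans hV) (by positivity) (by positivity) (by linarith) (by linarith) (by linarith)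
      (by linarith) (by positivity) (by positivity) (hF e η hη hen)).mono ?_ (le_of_eq ?_)
    · rintro f ⟨t, ht1, ht2, M, r, g, k, rfl, hg, hd, hgH, hk, hke, hkg, hT, hS, hcnt⟩
      refine ⟨M, r, g, ⟨hg, hd, k, hk, hke, ht1, ht2, hkg⟩, hgH.trans hV, wlfirst_W he hen hη ?_,
        wlfirst_tri hT ?_, hS, hcnt⟩
      · exact (pow_le_pow_left₀ hη0.le ht1 2).trans (sq_sup_le_of_dvd hg hd.le hkg)
      · exact mul_le_mul_of_nonneg_left (pow_le_pow_left₀ k.supNorm_nonneg ht2 p) (by positivity)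
    · have e1 : η ^ (5 * (e : ℝ) + 1 - 2 * n) * η ^ p * η ^ (3 - 4 * (e : ℝ)) = 1 := by
        rw [← Real.rpow_natCast η p, ← Real.rpow_add hη0, ← Real.rpow_add hη0, hp']
        have : 5 * (e : ℝ) + 1 - 2 * n + (2 * n - 4 - e) + (3 - 4 * (e : ℝ)) = 0 := by ring
        rw [this, Real.rpow_zero]
      rw [mul_pow]
      linear_combination (C₂ * (H ^ D) ^ ε * (C₀ * 2 ^ p * C₁ * 16 ^ (n * n) *
        (H ^ (12 / 25 : ℝ) * H ^ ((n : ℝ) - 3 / 2 + 1 / 100)))) * e1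
  · rintro f ⟨-, M, r, g, k, hg, hd, hgH, hk, hke, hkg, h⟩
    refine ⟨k.supNorm, one_le_sup hk.ne_zero, ?_, M, r, g, k, rfl, hg, hd, hgH, hk, hke, hkg, h⟩
    refine (pow_le_pow_iff_left₀ k.supNorm_nonneg h0.le two_ne_zero).1
      ((sq_sup_le_of_dvd hg hd.le hkg).trans ?_)
    rw [sq]
    exact mul_le_mul hH hgH g.supNorm_nonneg h0.le
  · rw [Real.rpow_add h0 ε, Real.rpow_add h0 (D * ε), Real.rpow_add h0 (12 / 25),
      Real.rpow_natCast_mul h0.le]
    ring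

theorem ps_first (n D : ℕ) (hn : 5 ≤ n) (hD : 1 ≤ D) (C₁ : ℝ) (hC : 0 ≤ C₁) (N : ℤ[X] → ℕ)
    (S : ℝ → ℕ → ℤ → ℤ[X] → Prop) : PS n fun H f => ∃ (M : ℕ) (r : ℤ) (g k : ℤ[X]), g ≠ 0 ∧
      g.natDegree < n ∧ g.supNorm ≤ H ∧ k.IsPrimitive ∧ 1 ≤ k.natDegree ∧ k ^ 2 ∣ g ∧
      Tri (H ^ D) (H ^ (12 / 25 : ℝ) * k.supNorm ^ (2 * n - 4 - k.natDegree)) N M r g ∧
      S H M r f ∧
      Cnt (S H M r) (C₁ * H ^ ((n : ℝ) - 3 / 2 + 1 / 100) / g.supNorm ^ ((n : ℝ) - 3 / 2)) := by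
  refine (PS.fin ((Finset.Icc 1 n).filter fun e => 2 * e < n) fun e he =>
    wlfirst_deg n D e hn hD (Finset.mem_Icc.1 (Finset.mem_filter.1 he).1).1
      (Finset.mem_filter.1 he).2 C₁ hC N S).mono 0 ?_
  rintro H - f - ⟨M, r, g, k, hg, hd, hgH, hk, hke, hkg, h⟩
  have h1 := natDegree_le_of_dvd hkg hg
  rw [natDegree_pow] at h1
  exact ⟨k.natDegree, Finset.mem_filter.2 ⟨Finset.mem_Icc.2 ⟨hke, by omega⟩, by omega⟩,
    M, r, g, k, hg, hd, hgH, hk, rfl, hkg, h⟩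

end Pool.Agent.VW.Lat
end

-- part Pool.Agent.P.MP_b0ea37_nt.WLF
section

namespace Pool.Agent.VW.Lat

open Polynomial

theorem wlf_pos {h : ℤ[X]} (hi : Irr h) : h ≠ 0 ∧ 0 < h.natDegree := by
  refine ⟨fun e => hi.ne_zero (by rw [e, up, Polynomial.map_zero]), ?_⟩
  have := hi.natDegree_pos
  rwa [natDegree_map_eq_of_injective (f := Int.castRingHom ℚ) Int.cast_injective] at this

/-- weighted values at the points `θ` -/
noncomputable def wlfMap {e : ℕ} (θ : Fin e → ℂ) (w : Fin e → ℂ) : ℝ[X] →ₗ[ℝ] (Fin e → ℂ) :=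
  LinearMap.pi fun i => (LinearMap.mulRight ℝ (w i)).comp (aeval (θ i)).toLinearMap

theorem wlf_apply {e : ℕ} (θ w : Fin e → ℂ) (g : ℤ[X]) (i : Fin e) :
    wlfMap θ w (up ℝ g) i = (up ℂ g).eval (θ i) * w i := by
  simp only [wlfMap, LinearMap.pi_apply, LinearMap.comp_apply, LinearMap.mulRight_apply,
    AlgHom.toLinearMap_apply, aeval_def, eval₂_map, eval_map]
  rw [RingHom.ext_int ((algebraMap ℝ ℂ).comp (Int.castRingHom ℝ)) (Int.castRingHom ℂ)]

theorem wlf_rank {e : ℕ} (θ w : Fin e → ℂ) (h : ℤ[X]) (h0 : h ≠ 0) (he : h.natDegree = e)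
    (hθ : ∀ i, (up ℂ h).eval (θ i) = 0) :
    Module.finrank ℝ ((degreeLT ℝ e).map (wlfMap θ w)) ≤ e ∧
      ∀ g : ℝ[X], wlfMap θ w g ∈ (degreeLT ℝ e).map (wlfMap θ w) := by
  have hinj : Function.Injective (Int.castRingHom ℝ) := Int.cast_injective
  have h1 : up ℝ h ≠ 0 := (Polynomial.map_ne_zero_iff hinj).2 h0
  constructor
  · refine (Submodule.finrank_map_le _ _).trans ?_
    rw [(degreeLTEquiv ℝ e).finrank_eq]
    simp
  · intro g
    refine ⟨g % up ℝ h, mem_degreeLT.2 ?_, ?_⟩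
    · have := degree_mod_lt g h1
      rwa [degree_map_eq_of_injective hinj, degree_eq_natDegree h0, he] at this
    · have h2 : wlfMap θ w (up ℝ h * (g / up ℝ h)) = 0 := by
        funext i
        have h3 : aeval (θ i) (up ℝ h) = 0 := by
          rw [← hθ i, aeval_def, eval₂_map, eval_map,
            RingHom.ext_int ((algebraMap ℝ ℂ).comp (Int.castRingHom ℝ)) (Int.castRingHom ℂ)]
        simp [wlfMap, h3]
      conv_rhs => rw [← EuclideanDomain.div_add_mod g (up ℝ h), map_add, h2, zero_add]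

theorem wlf_res {e m : ℕ} {h g : ℤ[X]} (h0 : h ≠ 0) {θ : Fin e → ℂ}
    (hθ : up ℂ h = C (up ℂ h).leadingCoeff * ∏ i, (X - C (θ i))) (hg : g.natDegree ≤ m) :
    ((resultant h g e m : ℤ) : ℂ) = (up ℂ h).leadingCoeff ^ m * ∏ i, (up ℂ g).eval (θ i) := by
  have hinj : Function.Injective (Int.castRingHom ℂ) := Int.cast_injective
  have h1 : up ℂ h ≠ 0 := (Polynomial.map_ne_zero_iff hinj).2 h0
  rw [← resultant_roots _ (leadingCoeff_ne_zero.2 h1) θ _ m (natDegree_map_le.trans hg), ← hθ,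
    resultant_map_map]
  rfl

/-- packing bound for polynomials that are pairwise incongruent modulo `h` -/
theorem wlf_pack (m : ℕ) (h : ℤ[X]) (hi : Irr h) (h0 : h ≠ 0) (he : 0 < h.natDegree)
    (B q : ℝ) (hB : 0 ≤ B) (hq : 0 < q) (S : Finset ℤ[X])
    (hd : ∀ u ∈ S, ∀ v ∈ S, (u - v).natDegree ≤ m ∧ (u - v).supNorm ≤ B)
    (hS : ∀ u ∈ S, ∀ v ∈ S, u ≠ v → ¬ up ℚ h ∣ up ℚ (u - v))
    (hR : ∀ u ∈ S, ∀ v ∈ S, resultant h (u - v) h.natDegree m ≠ 0 →
      q ≤ |((resultant h (u - v) h.natDegree m : ℤ) : ℝ)|) :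
    (S.card : ℝ) ≤ 2 ^ h.natDegree * (1 + (2 * (m + 1) * B) ^ h.natDegree *
      ((h.natDegree + 1) * h.supNorm) ^ m / q) := by
  set e := h.natDegree with hedef
  have hinj : Function.Injective (Int.castRingHom ℂ) := Int.cast_injective
  obtain ⟨θ, hθ⟩ := exists_roots' (n := e) (up ℂ h) (natDegree_map_eq_of_injective hinj h)
  have hz : ∀ i, (up ℂ h).eval (θ i) = 0 := fun i => by
    rw [hθ, eval_mul, eval_prod, Finset.prod_eq_zero (Finset.mem_univ i) (by simp), mul_zero]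
  have hm : ∀ i, (0 : ℝ) < max 1 ‖θ i‖ ^ m := fun i =>
    pow_pos (lt_of_lt_of_le one_pos (le_max_left _ _)) m
  set w : Fin e → ℂ := fun i => (((max 1 ‖θ i‖ ^ m)⁻¹ : ℝ) : ℂ) with hw
  have hn : ∀ (g : ℤ[X]) i, ‖wlfMap θ w (up ℝ g) i‖ =
      ‖(up ℂ g).eval (θ i)‖ * (max 1 ‖θ i‖ ^ m)⁻¹ := fun g i => by
    rw [wlf_apply, norm_mul, hw, Complex.norm_real, Real.norm_of_nonneg (inv_pos.2 (hm i)).le]
  obtain ⟨hr, hV⟩ := wlf_rank θ w h h0 rfl hz
  set μ : ℝ := (e + 1) * h.supNorm with hμ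
  have hμ0 : 0 < μ := mul_pos (by positivity) (lt_of_lt_of_le one_pos (one_le_sup h0))
  have hμ1 : ‖(up ℂ h).leadingCoeff‖ * ∏ i, max 1 ‖θ i‖ ≤ μ := by
    have := prod_max_le (up ℂ h).leadingCoeff θ
    rwa [← hθ, sup_up_complex] at this
  have hQ : 0 < q / μ ^ m := by positivity
  set ρ : ℝ := (q / μ ^ m) ^ ((e : ℝ)⁻¹) with hρ
  have hρ0 : 0 < ρ := Real.rpow_pos_of_pos hQ _
  have hρe : ρ ^ e = q / μ ^ m := Real.rpow_inv_natCast_pow hQ.le he.ne'
  have hsub : ∀ u v : ℤ[X], wlfMap θ w (up ℝ u) - wlfMap θ w (up ℝ v) =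
      wlfMap θ w (up ℝ (u - v)) := fun u v => by rw [← map_sub, up, up, up, Polynomial.map_sub]
  have key := wpack_idx ((degreeLT ℝ e).map (wlfMap θ w)) e hr ((m + 1) * B) ρ (by positivity)
    hρ0 S (fun u => wlfMap θ w (up ℝ u)) (fun u _ v _ => by rw [hsub]; exact hV _)
    (fun u hu v hv => by
      rw [hsub]
      refine (pi_norm_le_iff_of_nonneg (by positivity)).2 fun i => ?_
      rw [hn, ← div_eq_mul_inv, div_le_iff₀ (hm i)]
      refine (norm_eval_le _ (natDegree_map_le.trans (hd u hu v hv).1) _).trans ?_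
      rw [sup_up_complex]
      gcongr
      exact (hd u hu v hv).2)
    (fun u hu v hv huv => by
      rw [hsub]
      have h1 := wlf_res (m := m) h0 hθ (hd u hu v hv).1
      have h2 : resultant h (u - v) e m ≠ 0 := fun h2 => by
        rw [h2, Int.cast_zero, eq_comm, mul_eq_zero] at h1
        rcases h1 with h1 | h1
        · exact (Polynomial.map_ne_zero_iff hinj).2 h0 (leadingCoeff_eq_zero.1 (pow_eq_zero_iff'.1 h1).1)
        · obtain ⟨i, -, h3⟩ := Finset.prod_eq_zero_iff.1 h1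
          have h4 : ∀ g : ℤ[X], aeval (θ i) (up ℚ g) = (up ℂ g).eval (θ i) := fun g => by
            rw [aeval_def, eval₂_map, eval_map,
              RingHom.ext_int ((algebraMap ℚ ℂ).comp (Int.castRingHom ℚ)) (Int.castRingHom ℂ)]
          exact hS u hu v hv huv (hi.dvd_of_root ((h4 h).trans (hz i)) ((h4 _).trans h3))
      refine le_of_pow_le_pow_left₀ he.ne' (norm_nonneg _) ?_
      rw [hρe, div_le_iff₀ (pow_pos hμ0 m)]
      refine (hR u hu v hv h2).trans ?_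
      rw [← Complex.norm_intCast, h1, norm_mul, norm_pow, norm_prod]
      have h5 : ∏ i, ‖(up ℂ (u - v)).eval (θ i)‖ ≤
          ‖wlfMap θ w (up ℝ (u - v))‖ ^ e * (∏ i, max 1 ‖θ i‖) ^ m := by
        rw [← Finset.prod_pow, ← Fin.prod_const, ← Finset.prod_mul_distrib]
        refine Finset.prod_le_prod (fun i _ => norm_nonneg _) fun i _ => ?_
        rw [← div_le_iff₀ (hm i), div_eq_mul_inv, ← hn]
        exact norm_le_pi_norm _ i
      calc _ ≤ ‖(up ℂ h).leadingCoeff‖ ^ m *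
            (‖wlfMap θ w (up ℝ (u - v))‖ ^ e * (∏ i, max 1 ‖θ i‖) ^ m) := by gcongr
        _ = ‖wlfMap θ w (up ℝ (u - v))‖ ^ e *
            (‖(up ℂ h).leadingCoeff‖ * ∏ i, max 1 ‖θ i‖) ^ m := by ring
        _ ≤ _ := by gcongr)
  refine key.trans ?_
  have h6 : (2 * ((m + 1) * B) / ρ) ^ e = (2 * (m + 1) * B) ^ e * μ ^ m / q := by
    rw [div_pow, hρe, mul_assoc]
    field_simp
  rw [← h6]
  have h7 : 0 ≤ 2 * ((m + 1) * B) / ρ := by positivity
  generalize 2 * ((m + 1) * B) / ρ = x at h7 ⊢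
  rcases le_total x 1 with hx | hx
  · calc (1 + x) ^ e ≤ 2 ^ e := by gcongr; linarith
      _ ≤ _ := le_mul_of_one_le_right (by positivity) (by linarith [pow_nonneg h7 e])
  · calc (1 + x) ^ e ≤ (2 * x) ^ e := by gcongr; linarith
      _ ≤ _ := by rw [mul_pow]; gcongr; linarith

/-- classes modulo an irreducible polynomial -/
theorem f_lemma (d : ℕ) : ∃ C₀ : ℝ, 1 ≤ C₀ ∧ ∀ (h : ℤ[X]) (m q : ℕ) (B : ℝ) (S : Finset ℤ[X]),
    Irr h → h.natDegree ≤ d → m ≤ d → 1 ≤ q → 0 ≤ B →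
    (∀ u ∈ S, ∀ v ∈ S, (u - v).natDegree ≤ m ∧ (u - v).supNorm ≤ B ∧
      (q : ℤ) ∣ resultant h (u - v) h.natDegree m) →
    (∀ u ∈ S, ∀ v ∈ S, u ≠ v → ¬ up ℚ h ∣ up ℚ (u - v)) →
    (S.card : ℝ) ≤ C₀ * (1 + B ^ h.natDegree * h.supNorm ^ m / q) := by
  refine ⟨2 ^ d * ((2 * (d + 1)) ^ d * (d + 1) ^ d), ?_, fun h m q B S hi hd hm hq hB h1 h2 => ?_⟩
  · have : (0 : ℝ) ≤ d := Nat.cast_nonneg d
    exact one_le_mul_of_one_le_of_one_le (one_le_pow₀ one_le_two)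
      (one_le_mul_of_one_le_of_one_le (one_le_pow₀ (by linarith)) (one_le_pow₀ (by linarith)))
  obtain ⟨h0, he⟩ := wlf_pos hi
  have hq' : (0 : ℝ) < q := Nat.cast_pos.2 hq
  refine (wlf_pack m h hi h0 he B q hB hq' S (fun u hu v hv => ⟨(h1 u hu v hv).1, (h1 u hu v hv).2.1⟩)
    h2 fun u hu v hv hne => ?_).trans ?_
  · have := Int.le_of_dvd (abs_pos.2 hne) ((dvd_abs _ _).2 (h1 u hu v hv).2.2)
    exact_mod_cast this
  have hd0 : (0 : ℝ) ≤ d := Nat.cast_nonneg d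
  have hm' : (m : ℝ) ≤ d := Nat.cast_le.2 hm
  have hd' : (h.natDegree : ℝ) ≤ d := Nat.cast_le.2 hd
  have hs := h.supNorm_nonneg
  have a1 : (2 * ((m : ℝ) + 1)) ^ h.natDegree ≤ (2 * (d + 1)) ^ d :=
    (pow_le_pow_left₀ (by positivity) (by linarith) _).trans (pow_le_pow_right₀ (by linarith) hd)
  have a2 : ((h.natDegree : ℝ) + 1) ^ m ≤ (d + 1) ^ d :=
    (pow_le_pow_left₀ (by positivity) (by linarith) _).trans (pow_le_pow_right₀ (by linarith) hm)
  have a3 : (1 : ℝ) ≤ (2 * (d + 1)) ^ d * (d + 1) ^ d :=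
    one_le_mul_of_one_le_of_one_le (one_le_pow₀ (by linarith)) (one_le_pow₀ (by linarith))
  rw [mul_assoc ((2 : ℝ) ^ d), mul_add (_ * ((d : ℝ) + 1) ^ d) (1 : ℝ), mul_one]
  refine mul_le_mul (pow_le_pow_right₀ one_le_two hd) (add_le_add a3 ?_) (by positivity)
    (by positivity)
  calc _ = (2 * ((m : ℝ) + 1)) ^ h.natDegree * ((h.natDegree : ℝ) + 1) ^ m *
        (B ^ h.natDegree * h.supNorm ^ m / q) := by
        rw [mul_pow _ B, mul_pow _ h.supNorm]; ring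
    _ ≤ _ := by gcongr

end Pool.Agent.VW.Lat
end

-- part Pool.Agent.P.MP_b0ea37_nt.WLCl
section

namespace Pool.Agent.VW.Lat

open Polynomial

theorem wlcl_aux (d j : ℕ) (C₁ : ℝ) (hC : 0 ≤ C₁) : ∃ c : ℝ, 1 ≤ c ∧ ∀ (m : ℕ) (r : ℤ) (B B' : ℝ),
    m ≤ d → 0 ≤ B → 0 ≤ B' → ∀ (e : ℕ) (k : ℤ[X]) (M : ℕ) (P : ℤ[X] → Prop), k.natDegree = e →
    k.IsPrimitive → Squarefree k → k.natDegree ≤ d → 1 ≤ M → (M : ℤ) ∣ k.eval r →
    (∀ u v, P u → P v → (u - v).natDegree ≤ m ∧ (u - v).supNorm ≤ B) →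
    (∀ (h : ℤ[X]) (M' : ℕ), Irr h → h ∣ k → M' ∣ M → (M' : ℤ) ∣ h.eval r →
      (M' : ℝ) ^ j ≤ C₁ * B ^ h.natDegree * h.supNorm ^ (m + 1) ∧
      ∀ u v, P u → P v → (M' : ℤ) ^ j ∣ resultant h (u - v) h.natDegree m) →
    (∀ a, P a → Cnt (fun u => P u ∧ k ∣ u - a) B') →
    Cnt P (c ^ e * B ^ e * k.supNorm ^ (m + 1) / (M : ℝ) ^ j * B') := by
  obtain ⟨F, hF, hf⟩ := f_lemma d
  obtain ⟨c, hc⟩ : ∃ c : ℝ, c = F * (C₁ + 1) * (4 ^ d) ^ (d + 1) := ⟨_, rfl⟩
  have h4 : (1 : ℝ) ≤ 4 ^ d := one_le_pow₀ (by norm_num)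
  have hc1 : 1 ≤ c := by
    rw [hc]
    exact one_le_mul_of_one_le_of_one_le (one_le_mul_of_one_le_of_one_le hF (by linarith))
      (one_le_pow₀ h4)
  refine ⟨c, hc1, fun m r B B' hm hB hB' e => ?_⟩
  induction e using Nat.strong_induction_on with
  | _ e ih =>
  intro k M P he hp hs hd hM hr h1 h2 h3
  have hk0 : k ≠ 0 := hp.ne_zero
  by_cases hu : IsUnit k
  · have h0 : e = 0 := by rw [← he]; exact natDegree_eq_zero_of_isUnit hu
    have hM1 : M = 1 := by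
      have := isUnit_of_dvd_unit hr (hu.map (evalRingHom r))
      rw [Int.isUnit_iff_natAbs_eq] at this
      simpa using this
    have hk1 := one_le_sup hk0
    have hk2 : 1 ≤ k.supNorm ^ (m + 1) := one_le_pow₀ hk1
    subst h0 hM1
    refine Cnt.of_mem (by positivity) fun a ha => (h3 a ha).mono (fun u h => ⟨h, hu.dvd⟩) ?_
    simp only [pow_zero, Nat.cast_one, one_pow, div_one, one_mul]
    nlinarith
  obtain ⟨h, hi, k₁, hk⟩ := WfDvdMonoid.exists_irreducible_factor hu hk0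
  have hhp : h.IsPrimitive := isPrimitive_of_dvd hp ⟨k₁, hk⟩
  have hkp : k₁.IsPrimitive := isPrimitive_of_dvd hp (Dvd.intro_left _ hk.symm)
  have hI : Irr h := (IsPrimitive.Int.irreducible_iff_irreducible_map_cast hhp).1 hi
  have hpos : 0 < h.natDegree := by
    have := Irreducible.natDegree_pos hI
    rwa [natDegree_map_eq_of_injective (RingHom.injective_int _)] at this
  have hdeg : e = h.natDegree + k₁.natDegree := by
    rw [← he, hk, natDegree_mul hhp.ne_zero hkp.ne_zero]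
  have hsq := squarefree_mul_iff.1 (hk ▸ hs)
  have hr' : M ∣ (h.eval r).natAbs * (k₁.eval r).natAbs := by
    rw [← Int.natAbs_mul, ← eval_mul, ← hk]
    exact Int.natCast_dvd.1 hr
  obtain ⟨M₁, M₂, hM₁, hM₂, hMM⟩ := exists_dvd_and_dvd_of_dvd_mul hr'
  have hM₁0 : 1 ≤ M₁ := Nat.pos_of_ne_zero (by rintro rfl; simp at hMM; omega)
  have hM₂0 : 1 ≤ M₂ := Nat.pos_of_ne_zero (by rintro rfl; simp at hMM; omega)
  obtain ⟨b1, b2⟩ := h2 h M₁ hI ⟨k₁, hk⟩ ⟨M₂, hMM⟩ (Int.natCast_dvd.2 hM₁)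
  have q1 : (0 : ℝ) < (M₁ : ℝ) ^ j := by positivity
  have q2 : (0 : ℝ) < (M₂ : ℝ) ^ j := by positivity
  have s1 := one_le_sup hhp.ne_zero
  have s2 := one_le_sup hkp.ne_zero
  have s3 := one_le_sup hk0
  have G := Cnt.greedy (P := P) (fun u v => h ∣ u - v) (fun x _ => by simp)
    (fun x y _ _ hxy => dvd_sub_comm.1 hxy)
    (B := F * (C₁ + 1) * (B ^ h.natDegree * h.supNorm ^ (m + 1) / (M₁ : ℝ) ^ j))
    (B' := c ^ k₁.natDegree * B ^ k₁.natDegree * k₁.supNorm ^ (m + 1) / (M₂ : ℝ) ^ j * B')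
    (by positivity) ?_ ?_
  · refine G.mono (fun _ h => h) ?_
    have g1 : h.supNorm * k₁.supNorm ≤ 4 ^ d * k.supNorm := by
      have := gelfond h k₁ (m := d) (by rwa [← hk])
      rwa [← hk] at this
    have g2 : (h.supNorm * k₁.supNorm) ^ (m + 1) ≤ (4 ^ d) ^ (d + 1) * k.supNorm ^ (m + 1) := by
      calc _ ≤ (4 ^ d * k.supNorm) ^ (m + 1) := by gcongr
        _ = (4 ^ d) ^ (m + 1) * k.supNorm ^ (m + 1) := mul_pow _ _ _
        _ ≤ _ := by gcongr
    have g3 : c * c ^ k₁.natDegree ≤ c ^ e := by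
      rw [← pow_succ']
      exact pow_le_pow_right₀ hc1 (by omega)
    calc _ = F * (C₁ + 1) * (h.supNorm * k₁.supNorm) ^ (m + 1) * c ^ k₁.natDegree *
          (B ^ e / (M : ℝ) ^ j * B') := by
          rw [hdeg, hMM, pow_add B, Nat.cast_mul, mul_pow (M₁ : ℝ), mul_pow h.supNorm]
          field_simp
      _ ≤ F * (C₁ + 1) * ((4 ^ d) ^ (d + 1) * k.supNorm ^ (m + 1)) * c ^ k₁.natDegree *
          (B ^ e / (M : ℝ) ^ j * B') := by gcongr
      _ = c * c ^ k₁.natDegree * (k.supNorm ^ (m + 1) * (B ^ e / (M : ℝ) ^ j * B')) := by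
          rw [hc]; ring
      _ ≤ c ^ e * (k.supNorm ^ (m + 1) * (B ^ e / (M : ℝ) ^ j * B')) := by gcongr
      _ = _ := by ring
  · intro S hS hS'
    have := hf h m (M₁ ^ j) B S hI (by omega) hm (Nat.one_le_pow _ _ hM₁0) hB
      (fun u hu v hv => ⟨(h1 u v (hS u hu) (hS v hv)).1, (h1 u v (hS u hu) (hS v hv)).2, by
        exact_mod_cast b2 u v (hS u hu) (hS v hv)⟩)
      (fun u hu v hv huv hd => hS' u hu v hv huv
        ((IsPrimitive.Int.dvd_iff_map_cast_dvd_map_cast _ _ hhp).2 hd))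
    refine this.trans ?_
    rw [mul_assoc F, Nat.cast_pow]
    refine mul_le_mul_of_nonneg_left ?_ (by linarith)
    have g1 : 1 ≤ C₁ * (B ^ h.natDegree * h.supNorm ^ (m + 1) / (M₁ : ℝ) ^ j) := by
      rw [← mul_div_assoc, le_div_iff₀ q1, one_mul, ← mul_assoc]
      exact b1
    have g2 : B ^ h.natDegree * h.supNorm ^ m / (M₁ : ℝ) ^ j ≤
        B ^ h.natDegree * h.supNorm ^ (m + 1) / (M₁ : ℝ) ^ j := by
      gcongr
      omega
    linarith
  · intro a _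
    refine ih k₁.natDegree (by omega) k₁ M₂ (fun x => P x ∧ h ∣ a - x) rfl hkp hsq.2.2 (by omega)
      hM₂0 (Int.natCast_dvd.2 hM₂) (fun u v hu hv => h1 u v hu.1 hv.1) ?_ ?_
    · intro h' M' hI' hd' hM' hr''
      obtain ⟨b3, b4⟩ := h2 h' M' hI' (hd'.trans (Dvd.intro_left _ hk.symm))
        (hM'.trans (Dvd.intro_left _ hMM.symm)) hr''
      exact ⟨b3, fun u v hu hv => b4 u v hu.1 hv.1⟩
    · intro a' ha'
      refine (h3 a' ha'.1).mono (fun u hu => ⟨hu.1.1, ?_⟩) le_rfl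
      rw [hk]
      refine hsq.1.mul_dvd ?_ hu.2
      have := dvd_sub ha'.2 hu.1.2
      rwa [show a - a' - (a - u) = u - a' by ring] at this

/-- classes modulo a squarefree polynomial -/
theorem class_lemma (d j : ℕ) (C₁ : ℝ) (hC : 0 ≤ C₁) : ∃ C₀ : ℝ, 1 ≤ C₀ ∧
    ∀ (k : ℤ[X]) (M m : ℕ) (r : ℤ) (B B' : ℝ) (P : ℤ[X] → Prop), k.IsPrimitive → Squarefree k →
    k.natDegree ≤ d → m ≤ d → 1 ≤ M → 0 ≤ B → 0 ≤ B' → (M : ℤ) ∣ k.eval r →
    (∀ u v, P u → P v → (u - v).natDegree ≤ m ∧ (u - v).supNorm ≤ B) →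
    (∀ (h : ℤ[X]) (M' : ℕ), Irr h → h ∣ k → M' ∣ M → (M' : ℤ) ∣ h.eval r →
      (M' : ℝ) ^ j ≤ C₁ * B ^ h.natDegree * h.supNorm ^ (m + 1) ∧
      ∀ u v, P u → P v → (M' : ℤ) ^ j ∣ resultant h (u - v) h.natDegree m) →
    (∀ a, P a → Cnt (fun u => P u ∧ k ∣ u - a) B') →
    Cnt P (C₀ * B ^ k.natDegree * k.supNorm ^ (m + 1) / (M : ℝ) ^ j * B') := by
  obtain ⟨c, hc, h⟩ := wlcl_aux d j C₁ hC
  refine ⟨c ^ d, one_le_pow₀ hc, fun k M m r B B' P hp hs hd hm hM hB hB' hr h1 h2 h3 => ?_⟩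
  refine (h m r B B' hm hB hB' _ k M P rfl hp hs hd hM hr h1 h2 h3).mono (fun _ h => h) ?_
  have := supNorm_nonneg k
  gcongr

end Pool.Agent.VW.Lat
end

-- part Pool.Agent.P.MP_b0ea37_nt.WLFil
section

namespace Pool.Agent.VW.Lat

open Polynomial

/-- an irreducible point bounds the modulus -/
theorem sq_le_of_plus {n M : ℕ} {r : ℤ} {R : ℝ} {f₀ h : ℤ[X]} (hn : 2 ≤ n) (hM : 1 ≤ M)
    (hf : Plus n R M r f₀) (hi : Irr f₀) (hh : h ≠ 0) (hd : h.natDegree < n)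
    (hr : (M : ℤ) ∣ h.eval r) :
    (M : ℝ) ^ 2 ≤ (2 * n).factorial * R ^ h.natDegree * h.supNorm ^ n := by
  obtain ⟨-, hdeg, hR, hw⟩ := hf
  have h0 : resultant h f₀ h.natDegree f₀.natDegree ≠ 0 :=
    hi.resultant_ne_zero hh (by omega)
  rw [hdeg] at h0
  have h1 : (M : ℤ) ^ 2 ∣ resultant h f₀ h.natDegree n :=
    res_one_two hM le_rfl hdeg.le (by omega) hr hw
  have h2 : (M : ℤ) ^ 2 ≤ |resultant h f₀ h.natDegree n| :=
    Int.le_of_dvd (abs_pos.2 h0) ((dvd_abs _ _).2 h1)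
  have h3 : (M : ℝ) ^ 2 ≤ ‖resultant h f₀ h.natDegree n‖ := by
    rw [Int.norm_eq_abs]
    exact_mod_cast h2
  have h4 := norm_resultant_le h f₀ h.natDegree n
  have h5 : ((h.natDegree + n).factorial : ℝ) ≤ (2 * n).factorial := by
    exact_mod_cast Nat.factorial_le (by omega)
  have h6 := f₀.supNorm_nonneg
  have h7 := h.supNorm_nonneg
  calc (M : ℝ) ^ 2 ≤ (h.natDegree + n).factorial * h.supNorm ^ n * f₀.supNorm ^ h.natDegree :=
        h3.trans h4
    _ ≤ (2 * n).factorial * h.supNorm ^ n * R ^ h.natDegree := by gcongr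
    _ = _ := by ring

theorem wlfil_irr_ne {h : ℤ[X]} (hi : Irr h) : h ≠ 0 := by
  rintro rfl
  exact hi.ne_zero (by simp)

theorem wlfil_fact (n : ℕ) : (1 : ℝ) ≤ n.factorial := by
  exact_mod_cast n.factorial_pos

theorem wlfil_quot {n : ℕ} {k v : ℤ[X]} {B : ℝ} (hk : k ≠ 0) (hd : (k * v).natDegree ≤ n)
    (hB : (k * v).supNorm ≤ B) : v.supNorm ≤ 4 ^ n * B / k.supNorm := by
  have h1 := one_le_sup hk
  rw [le_div_iff₀ (by linarith)]
  calc v.supNorm * k.supNorm = k.supNorm * v.supNorm := mul_comm _ _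
    _ ≤ 4 ^ n * (k * v).supNorm := gelfond k v hd
    _ ≤ 4 ^ n * B := by gcongr

theorem wlfil_root {M F C₁ R B x : ℝ} {n a b : ℕ} (hF : 1 ≤ F) (hC : 1 ≤ C₁) (hR0 : 0 ≤ R)
    (hB : 0 ≤ B) (hx : 1 ≤ x) (hR : R ≤ C₁ * B ^ 2) (ha : a ≤ n) (hb : n ≤ 2 * b)
    (h : M ^ 2 ≤ F * R ^ a * x ^ n) : M ^ 1 ≤ F * C₁ ^ n * B ^ a * x ^ b := by
  have h1 : (1 : ℝ) ≤ C₁ ^ n := one_le_pow₀ hC
  have h2 : 1 ≤ F * C₁ ^ n := one_le_mul_of_one_le_of_one_le hF h1
  rw [pow_one]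
  refine le_of_sq_le_sq ?_ (by positivity)
  have h3 : R ^ a ≤ C₁ ^ n * (B ^ a) ^ 2 := by
    calc R ^ a ≤ (C₁ * B ^ 2) ^ a := by gcongr
      _ = C₁ ^ a * (B ^ a) ^ 2 := by rw [mul_pow, ← pow_mul, ← pow_mul, mul_comm 2 a]
      _ ≤ C₁ ^ n * (B ^ a) ^ 2 := by gcongr
  have h4 : x ^ n ≤ (x ^ b) ^ 2 := by
    rw [← pow_mul]
    exact pow_le_pow_right₀ hx (by omega)
  have h5 : F * C₁ ^ n ≤ (F * C₁ ^ n) ^ 2 := by nlinarith
  calc M ^ 2 ≤ F * R ^ a * x ^ n := h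
    _ ≤ F * (C₁ ^ n * (B ^ a) ^ 2) * (x ^ b) ^ 2 := by gcongr
    _ = (F * C₁ ^ n) * ((B ^ a) ^ 2 * (x ^ b) ^ 2) := by ring
    _ ≤ (F * C₁ ^ n) ^ 2 * ((B ^ a) ^ 2 * (x ^ b) ^ 2) := by gcongr
    _ = _ := by ring

theorem wlfil_num {C b c R η M y : ℝ} {e t : ℕ} (hC : 0 ≤ C) (hb : 1 ≤ b) (hc : 1 ≤ c)
    (hR : 0 ≤ R) (hη : 0 < η) (hM : 0 < M) (hy0 : 0 ≤ y) (hy : y ≤ c * R / η ^ 2) :
    C * (b * R / η) ^ e * η ^ (e + t + 1) / M ^ 1 * y ^ (t + 1) ≤
      C * b ^ (2 * e + t + 1) * c ^ (2 * e + t + 1) * R ^ (e + t + 1) * η ^ (2 * e) /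
        η ^ (2 * e + t + 1) / M := by
  have h1 : b ^ e ≤ b ^ (2 * e + t + 1) := pow_le_pow_right₀ hb (by omega)
  have h2 : c ^ (t + 1) ≤ c ^ (2 * e + t + 1) := pow_le_pow_right₀ hc (by omega)
  calc C * (b * R / η) ^ e * η ^ (e + t + 1) / M ^ 1 * y ^ (t + 1)
      ≤ C * (b * R / η) ^ e * η ^ (e + t + 1) / M ^ 1 * (c * R / η ^ 2) ^ (t + 1) := by gcongr
    _ = C * b ^ e * c ^ (t + 1) * R ^ (e + t + 1) * η ^ (2 * e) / η ^ (2 * e + t + 1) / M := by
        rw [div_pow, div_pow, mul_pow, mul_pow]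
        field_simp
        ring
    _ ≤ _ := by gcongr

/-- second layer: cofactors that vanish at `r` -/
theorem fil_two (n : ℕ) (C₁ : ℝ) (hC : 1 ≤ C₁) : ∃ C₀ : ℝ, 1 ≤ C₀ ∧
    ∀ (k f₀ : ℤ[X]) (M : ℕ) (r : ℤ) (R : ℝ), 1 ≤ R → k.IsPrimitive → Squarefree k →
    1 ≤ k.natDegree → 2 * k.natDegree < n → k.supNorm ^ 2 ≤ C₁ * R → 1 ≤ M →
    (M : ℤ) ∣ k.eval r → Plus n R M r f₀ → Irr f₀ →
    Cnt (fun u : ℤ[X] => u.natDegree + k.natDegree < n ∧ u.supNorm ≤ 2 * 4 ^ n * R / k.supNorm ∧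
      (M : ℤ) ∣ u.eval r)
      (C₀ * R ^ (n - k.natDegree) * k.supNorm ^ (2 * k.natDegree) / k.supNorm ^ n / M) := by
  have hF := wlfil_fact (2 * n)
  obtain ⟨C, hC1, hcl⟩ := class_lemma n 1 ((2 * n).factorial * C₁ ^ n) (by positivity)
  have h4 : (1 : ℝ) ≤ 4 ^ n := one_le_pow₀ (by norm_num)
  obtain ⟨b, hb⟩ : ∃ b : ℝ, b = 4 * 4 ^ n := ⟨_, rfl⟩
  have hb1 : 1 ≤ b := by rw [hb]; linarith
  obtain ⟨c, hc⟩ : ∃ c : ℝ, c = 2 * 4 ^ n * b + C₁ := ⟨_, rfl⟩
  have hc1 : 1 ≤ c := by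
    have : (0 : ℝ) ≤ 2 * 4 ^ n * b := by positivity
    rw [hc]; linarith
  refine ⟨C * b ^ n * c ^ n, one_le_mul_of_one_le_of_one_le
    (one_le_mul_of_one_le_of_one_le hC1 (one_le_pow₀ hb1)) (one_le_pow₀ hc1), ?_⟩
  intro k f₀ M r R hR hp hs he1 he2 hη hM hkr hf hi
  have hk : k ≠ 0 := hp.ne_zero
  have hη1 := one_le_sup hk
  have hM0 : (0 : ℝ) < M := by exact_mod_cast hM
  obtain ⟨t, ht⟩ : ∃ t, n = 2 * k.natDegree + t + 1 := ⟨n - 2 * k.natDegree - 1, by omega⟩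
  have hB0 : 0 ≤ b * R / k.supNorm := by positivity
  have hdiff : ∀ u v : ℤ[X], (u.natDegree + k.natDegree < n ∧
      u.supNorm ≤ 2 * 4 ^ n * R / k.supNorm ∧ (M : ℤ) ∣ u.eval r) →
      (v.natDegree + k.natDegree < n ∧ v.supNorm ≤ 2 * 4 ^ n * R / k.supNorm ∧
        (M : ℤ) ∣ v.eval r) →
      (u - v).natDegree ≤ k.natDegree + t ∧ (u - v).supNorm ≤ b * R / k.supNorm := by
    intro u v hu hv
    refine ⟨(natDegree_sub_le _ _).trans (max_le (by omega) (by omega)), ?_⟩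
    have e : b * R / k.supNorm = 2 * 4 ^ n * R / k.supNorm + 2 * 4 ^ n * R / k.supNorm := by
      rw [hb]; ring
    have := sup_sub_le u v
    linarith [hu.2.1, hv.2.1]
  have hRB : R ≤ C₁ * (b * R / k.supNorm) ^ 2 := by
    rw [div_pow, ← mul_div_assoc, le_div_iff₀ (by positivity)]
    have h5 : R ^ 2 ≤ (b * R) ^ 2 := by
      gcongr
      nlinarith
    calc R * k.supNorm ^ 2 ≤ R * (C₁ * R) := by gcongr
      _ = C₁ * R ^ 2 := by ring
      _ ≤ C₁ * (b * R) ^ 2 := by gcongr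
  have key := hcl k M (k.natDegree + t) r (b * R / k.supNorm)
    ((2 * (4 ^ n * (b * R / k.supNorm) / k.supNorm) + 1) ^ (t + 1)) _ hp hs (by omega) (by omega)
    hM hB0 (by positivity) hkr hdiff ?_ ?_
  · refine key.mono (fun _ h => h) ?_
    have e1 : n - k.natDegree = k.natDegree + t + 1 := by omega
    have hy : 2 * (4 ^ n * (b * R / k.supNorm) / k.supNorm) + 1 ≤ c * R / k.supNorm ^ 2 := by
      have h6 : 1 ≤ C₁ * R / k.supNorm ^ 2 := by
        rw [le_div_iff₀ (by positivity)]; linarith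
      have e2 : c * R / k.supNorm ^ 2 =
          2 * (4 ^ n * (b * R / k.supNorm) / k.supNorm) + C₁ * R / k.supNorm ^ 2 := by
        rw [hc]; field_simp
      linarith
    have h7 := wlfil_num (C := C) (e := k.natDegree) (t := t) (by linarith) hb1 hc1
      (by linarith : 0 ≤ R) (by linarith : 0 < k.supNorm) hM0 (by positivity) hy
    rw [← ht] at h7
    rw [e1]
    exact h7
  · intro h M' hh hk' hM' hr'
    have hh0 := wlfil_irr_ne hh
    have hM1 : 1 ≤ M' := Nat.pos_of_dvd_of_pos hM' hM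
    have hdh : h.natDegree ≤ k.natDegree := natDegree_le_of_dvd hk' hk
    have hMM : (M' : ℤ) ∣ M := Int.natCast_dvd_natCast.2 hM'
    refine ⟨wlfil_root hF hC (by linarith) hB0 (one_le_sup hh0) hRB (by omega) (by omega)
      (sq_le_of_plus (by omega) hM1 ⟨hf.1, hf.2.1, hf.2.2.1, wk_of_dvd hM' hf.2.2.2⟩ hi hh0
        (by omega) hr'), fun u v hu hv => ?_⟩
    rw [pow_one]
    refine res_one_one hM1 le_rfl (hdiff u v hu hv).1 (by omega) hr' ?_
    rw [eval_sub]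
    exact hMM.trans (dvd_sub hu.2.2 hv.2.2)
  · intro a ha
    refine (cnt_poly (t + 1) (4 ^ n * (b * R / k.supNorm) / k.supNorm) (by positivity)).rel
      (fun u v => u - a = k * v) ?_ ?_
    · rintro u ⟨hu, v, hv⟩
      obtain ⟨h1, h2⟩ := hdiff u a hu ha
      rw [hv] at h1 h2
      refine ⟨v, ⟨?_, wlfil_quot hk (by omega) h2⟩, hv⟩
      by_cases hv0 : v = 0
      · rw [hv0, degree_zero]
        exact WithBot.bot_lt_coe _
      · rw [natDegree_mul hk hv0] at h1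
        exact (natDegree_lt_iff_degree_lt hv0).1 (by omega)
    · intro u u' v _ _ h1 h2
      exact sub_left_injective (h1.trans h2.symm)

theorem fil (n : ℕ) (C₁ : ℝ) (hC : 1 ≤ C₁) : ∃ C₀ : ℝ, 1 ≤ C₀ ∧
    ∀ (k f₀ : ℤ[X]) (M : ℕ) (r : ℤ) (R : ℝ), 1 ≤ R → k.IsPrimitive → Squarefree k →
    1 ≤ k.natDegree → 2 * k.natDegree < n → k.supNorm ^ 2 ≤ C₁ * R → 1 ≤ M →
    (M : ℤ) ∣ k.eval r → IsCoprime (M : ℤ) ((derivative k).eval r) → Plus n R M r f₀ → Irr f₀ →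
    Cnt (Plus n R M r) (C₀ * R ^ n * k.supNorm ^ (2 * k.natDegree) / (M : ℝ) ^ 3) := by
  have hF := wlfil_fact (2 * n)
  obtain ⟨C, hC1, hcl⟩ := class_lemma n 2 ((2 * n).factorial) (by positivity)
  obtain ⟨C₂, hC2, h2⟩ := fil_two n C₁ hC
  refine ⟨C * C₂ * 2 ^ n, one_le_mul_of_one_le_of_one_le
    (one_le_mul_of_one_le_of_one_le hC1 hC2) (one_le_pow₀ (by norm_num)), ?_⟩
  intro k f₀ M r R hR hp hs he1 he2 hη hM hkr hco hf hi
  have hk : k ≠ 0 := hp.ne_zero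
  have hη1 := one_le_sup hk
  have hM0 : (0 : ℝ) < M := by exact_mod_cast hM
  have hn1 : 1 ≤ n := by omega
  have e0 : n - 1 + 1 = n := by omega
  have h3 := h2 k f₀ M r R hR hp hs he1 he2 hη hM hkr hf hi
  have key := hcl k M (n - 1) r (2 * R) _ (Plus n R M r) hp hs (by omega) (by omega) hM
    (by positivity) h3.nonneg hkr
    (fun u v hu hv => ⟨by have := (hu.sub hn1 hv).1.1; omega, (hu.sub hn1 hv).2⟩) ?_ ?_
  · refine key.mono (fun _ h => h) ?_
    rw [e0]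
    obtain ⟨t, ht⟩ : ∃ t, n = k.natDegree + t := ⟨n - k.natDegree, by omega⟩
    have e1 : n - k.natDegree = t := by omega
    have e2 : R ^ n = R ^ k.natDegree * R ^ t := by rw [← pow_add, ← ht]
    have h5 : (2 : ℝ) ^ k.natDegree ≤ 2 ^ n := pow_le_pow_right₀ (by norm_num) (by omega)
    rw [e1, e2]
    calc C * (2 * R) ^ k.natDegree * k.supNorm ^ n / (M : ℝ) ^ 2 *
          (C₂ * R ^ t * k.supNorm ^ (2 * k.natDegree) / k.supNorm ^ n / M)
        = C * C₂ * 2 ^ k.natDegree * (R ^ k.natDegree * R ^ t) * k.supNorm ^ (2 * k.natDegree) /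
          (M : ℝ) ^ 3 := by
          rw [mul_pow]
          field_simp
      _ ≤ _ := by gcongr
  · intro h M' hh hk' hM' hr'
    have hh0 := wlfil_irr_ne hh
    have hM1 : 1 ≤ M' := Nat.pos_of_dvd_of_pos hM' hM
    have hdh : h.natDegree ≤ k.natDegree := natDegree_le_of_dvd hk' hk
    refine ⟨?_, fun u v hu hv => ?_⟩
    · have h6 := sq_le_of_plus (by omega) hM1 ⟨hf.1, hf.2.1, hf.2.2.1, wk_of_dvd hM' hf.2.2.2⟩ hi
        hh0 (by omega) hr'
      have h7 := h.supNorm_nonneg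
      rw [e0]
      refine h6.trans ?_
      gcongr
      linarith
    · have h6 := (hu.sub hn1 hv).1
      exact res_one_two hM1 le_rfl (by have := h6.1; omega) (by omega) hr' (wk_of_dvd hM' h6.2)
  · intro a ha
    refine h3.rel (fun u v => u - a = k * v) ?_ ?_
    · rintro u ⟨hu, v, hv⟩
      obtain ⟨⟨h5, h6⟩, h7⟩ := hu.sub hn1 ha
      rw [hv] at h5 h6 h7
      refine ⟨v, ⟨?_, ?_, ?_⟩, hv⟩
      · by_cases hv0 : v = 0
        · rw [hv0, natDegree_zero]; omega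
        · rw [natDegree_mul hk hv0] at h5; omega
      · refine (wlfil_quot hk h5.le h7).trans (le_of_eq ?_)
        ring
      · have h8 := h6.2
        rw [derivative_mul, eval_add, eval_mul, eval_mul] at h8
        exact hco.dvd_of_dvd_mul_left ((dvd_add_left (hkr.mul_right _)).1 h8)
    · intro u u' v _ _ h1 h2
      exact sub_left_injective (h1.trans h2.symm)

end Pool.Agent.VW.Lat
end

-- part Pool.Agent.P.MP_b0ea37_nt.VTDet
section

/-! Approximable functions and the determinant method. -/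

open Finset

namespace Pool.Agent.VT

/-- `F` is `l`-adically approximable by integer polynomials in the coordinates `x`. -/
def Apx {ι σ : Type} (l : ℕ) (x : ι → σ → ℤ) (F : ι → ℤ) : Prop :=
  ∀ K : ℕ, ∃ P : MvPolynomial σ ℤ, ∀ j, (l : ℤ) ^ K ∣ F j - MvPolynomial.eval (x j) P

variable {ι σ : Type} {l : ℕ} {x : ι → σ → ℤ} {F G y : ι → ℤ}

theorem Apx.poly (P : MvPolynomial σ ℤ) : Apx l x fun j => MvPolynomial.eval (x j) P :=
  fun _ => ⟨P, fun _ => by simp⟩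

theorem Apx.const (c : ℤ) : Apx l x fun _ => c :=
  fun _ => ⟨MvPolynomial.C c, fun _ => by simp⟩

theorem Apx.coord (i : σ) : Apx l x fun j => x j i :=
  fun _ => ⟨MvPolynomial.X i, fun _ => by simp⟩

theorem Apx.add (hF : Apx l x F) (hG : Apx l x G) : Apx l x fun j => F j + G j := fun K => by
  obtain ⟨P, hP⟩ := hF K
  obtain ⟨Q, hQ⟩ := hG K
  refine ⟨P + Q, fun j => ?_⟩
  have := dvd_add (hP j) (hQ j)
  rw [map_add]
  exact this.trans (dvd_of_eq (by ring))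

theorem Apx.sub (hF : Apx l x F) (hG : Apx l x G) : Apx l x fun j => F j - G j := fun K => by
  obtain ⟨P, hP⟩ := hF K
  obtain ⟨Q, hQ⟩ := hG K
  refine ⟨P - Q, fun j => ?_⟩
  have := dvd_sub (hP j) (hQ j)
  rw [map_sub]
  exact this.trans (dvd_of_eq (by ring))

theorem Apx.mul (hF : Apx l x F) (hG : Apx l x G) : Apx l x fun j => F j * G j := fun K => by
  obtain ⟨P, hP⟩ := hF K
  obtain ⟨Q, hQ⟩ := hG K
  refine ⟨P * Q, fun j => ?_⟩
  have := dvd_add ((hP j).mul_right (G j)) ((hQ j).mul_left (MvPolynomial.eval (x j) P))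
  rw [map_mul]
  exact this.trans (dvd_of_eq (by ring))

theorem Apx.pow (hF : Apx l x F) (n : ℕ) : Apx l x fun j => F j ^ n := by
  induction n with
  | zero => simpa using Apx.const 1
  | succ n ih => simpa [pow_succ] using ih.mul hF

theorem Apx.sum {κ : Type} (s : Finset κ) {F : κ → ι → ℤ} (hF : ∀ i ∈ s, Apx l x (F i)) :
    Apx l x fun j => ∑ i ∈ s, F i j := by
  classical
  induction s using Finset.induction_on with
  | empty => simpa using Apx.const 0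
  | insert a s ha ih =>
    simp only [sum_insert ha]
    exact (hF a (mem_insert_self _ _)).add (ih fun i hi => hF i (mem_insert_of_mem hi))

theorem Apx.prod {κ : Type} (s : Finset κ) {F : κ → ι → ℤ} (hF : ∀ i ∈ s, Apx l x (F i)) :
    Apx l x fun j => ∏ i ∈ s, F i j := by
  classical
  induction s using Finset.induction_on with
  | empty => simpa using Apx.const 1
  | insert a s ha ih =>
    simp only [prod_insert ha]
    exact (hF a (mem_insert_self _ _)).mul (ih fun i hi => hF i (mem_insert_of_mem hi))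

theorem eval_modEq {m : ℤ} {a b : σ → ℤ} (h : ∀ i, a i ≡ b i [ZMOD m]) (P : MvPolynomial σ ℤ) :
    MvPolynomial.eval a P ≡ MvPolynomial.eval b P [ZMOD m] := by
  induction P using MvPolynomial.induction_on with
  | C c => simp
  | add p q hp hq => simpa using hp.add hq
  | mul_X p i hp => simpa using hp.mul (h i)

theorem Apx.modEq (hx : ∀ j j' i, x j i ≡ x j' i [ZMOD l]) (hF : Apx l x F) (j j' : ι) :
    F j ≡ F j' [ZMOD l] := by
  obtain ⟨P, hP⟩ := hF 1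
  have h : ∀ j, MvPolynomial.eval (x j) P ≡ F j [ZMOD l] := fun j =>
    (Int.modEq_iff_dvd).2 (by simpa using hP j)
  exact (h j).symm.trans ((eval_modEq (hx j j') P).trans (h j'))

theorem det_dvd {κ A : Type} [Fintype κ] [DecidableEq κ] (s : Finset A) (C : κ → A → ℤ)
    (V : A → κ → ℤ) (wt : A → ℕ) (m : ℤ) (hV : ∀ a ∈ s, ∀ j, m ^ wt a ∣ V a j) (ν : ℕ)
    (hν : ∀ φ : κ → A, Function.Injective φ → (∀ i, φ i ∈ s) → ν ≤ ∑ i, wt (φ i)) :
    m ^ ν ∣ (Matrix.of fun i j => ∑ a ∈ s, C i a * V a j).det := by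
  classical
  have e : (Matrix.of fun i j => ∑ a ∈ s, C i a * V a j).det =
      (Matrix.detRowAlternating (n := κ) (R := ℤ)).toMultilinearMap
        fun i => ∑ a ∈ s, C i a • V a := by
    change Matrix.detRowAlternating _ = Matrix.detRowAlternating _
    congr 1
    ext i j
    simp [Finset.sum_apply]
  rw [e, MultilinearMap.map_sum_finset]
  refine dvd_sum fun φ hφ => ?_
  have hs : ∀ i, φ i ∈ s := Fintype.mem_piFinset.1 hφ
  rw [MultilinearMap.map_smul_univ, smul_eq_mul]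
  refine Dvd.dvd.mul_left ?_ _
  by_cases hi : Function.Injective φ
  · choose W hW using fun i j => hV _ (hs i) j
    have : (fun i => V (φ i)) = fun i => m ^ wt (φ i) • W i := by
      ext i j
      simp [hW]
    rw [this, MultilinearMap.map_smul_univ, smul_eq_mul, prod_pow_eq_pow_sum]
    exact (pow_dvd_pow _ (hν φ hi hs)).mul_right _
  · have : (Matrix.detRowAlternating (n := κ) (R := ℤ)) (fun i => V (φ i)) = 0 :=
      AlternatingMap.map_eq_zero_of_not_injective _ _ fun h => hi (Function.Injective.of_comp h)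
    rw [AlternatingMap.coe_multilinearMap, this]
    exact dvd_zero _

theorem wt_sum {κ : Type} [Fintype κ] (w : κ → ℕ) (K : ℕ) (n : ℕ → ℕ)
    (hn : ∀ t < K, #{i | w i ≤ t} ≤ n t) :
    ∑ t ∈ range K, (Fintype.card κ - n t) ≤ ∑ i, w i := by
  classical
  calc ∑ t ∈ range K, (Fintype.card κ - n t) ≤ ∑ t ∈ range K, ∑ i, if t < w i then 1 else 0 := by
        refine sum_le_sum fun t ht => ?_
        have h1 := hn t (mem_range.1 ht)
        have h2 := card_filter_add_card_filter_not (s := (univ : Finset κ)) (fun i => w i ≤ t)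
        rw [← card_filter]
        simp only [not_le, card_univ] at h2
        omega
    _ ≤ ∑ i, w i := by
        rw [sum_comm]
        refine sum_le_sum fun i _ => ?_
        rw [← card_filter]
        calc _ ≤ #(range (w i)) := card_le_card fun t ht => mem_range.2 (mem_filter.1 ht).2
          _ = w i := card_range _

theorem card_deg_le {k t : ℕ} (s : Finset (Fin k →₀ ℕ)) (hs : ∀ a ∈ s, ∑ i, a i ≤ t) :
    #s ≤ (t + k).choose k := by
  classical
  rw [← Nat.sum_range_multichoose]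
  calc #s ≤ #((range (t + 1)).biUnion fun d => (univ : Finset (Fin k)).finsuppAntidiag d) := by
        refine card_le_card fun a ha => mem_biUnion.2 ⟨∑ i, a i, ?_, ?_⟩
        · exact mem_range.2 (Nat.lt_succ_of_le (hs a ha))
        · simp [mem_finsuppAntidiag]
    _ ≤ _ := card_biUnion_le.trans (sum_le_sum fun d _ => by
        rw [card_finsuppAntidiag_nat_eq_multichoose]
        simp)

theorem det_apx {k : ℕ} {κ : Type} [Fintype κ] [DecidableEq κ] (K : ℕ) {x : κ → Fin k → ℤ}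
    (hx : ∀ j j' i, x j i ≡ x j' i [ZMOD l]) {F : κ → κ → ℤ} (hF : ∀ i, Apx l x (F i)) :
    (l : ℤ) ^ (∑ t ∈ range K, (Fintype.card κ - (t + k).choose k)) ∣ (Matrix.of F).det := by
  classical
  rcases isEmpty_or_nonempty κ with h | ⟨⟨j0⟩⟩
  · simp
  choose P hP using fun i => hF i K
  choose e he using hP
  let Q : κ → MvPolynomial (Fin k) ℤ := fun i =>
    MvPolynomial.bind₁ (fun a => MvPolynomial.X a + MvPolynomial.C (x j0 a)) (P i)
  have hQ : ∀ i j, MvPolynomial.eval (fun a => x j a - x j0 a) (Q i) =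
      MvPolynomial.eval (x j) (P i) := fun i j => by
    simp only [Q]
    induction P i using MvPolynomial.induction_on with
    | C c => simp
    | add p q hp hq => simp only [map_add, hp, hq]
    | mul_X p i hp =>
      simp only [map_mul, hp]
      simp
  let T : Finset (Fin k →₀ ℕ) := univ.biUnion fun i => (Q i).support
  let C : κ → (Fin k →₀ ℕ) ⊕ κ → ℤ := fun i => Sum.elim (fun a => (Q i).coeff a) (e i)
  let V : (Fin k →₀ ℕ) ⊕ κ → κ → ℤ := Sum.elim (fun a j => ∏ i, (x j i - x j0 i) ^ a i)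
    fun j' j => if j' = j then (l : ℤ) ^ K else 0
  let wt : (Fin k →₀ ℕ) ⊕ κ → ℕ := Sum.elim (fun a => ∑ i, a i) fun _ => K
  have hM : Matrix.of F = Matrix.of fun i j => ∑ a ∈ T.disjSum univ, C i a * V a j := by
    ext i j
    have h1 : MvPolynomial.eval (x j) (P i) =
        ∑ a ∈ T, (Q i).coeff a * ∏ b, (x j b - x j0 b) ^ a b := by
      rw [← hQ, MvPolynomial.eval_eq']
      refine sum_subset (subset_biUnion_of_mem (fun i => (Q i).support) (mem_univ i))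
        fun a _ ha => ?_
      rw [MvPolynomial.notMem_support_iff.1 ha, zero_mul]
    have h2 := he i j
    simp only [Matrix.of_apply, sum_disjSum, C, V, Sum.elim_inl, Sum.elim_inr, mul_ite, mul_zero,
      sum_ite_eq', mem_univ, if_true, ← h1]
    linarith
  rw [hM]
  refine det_dvd _ C V wt _ ?_ _ fun φ hφ _ => wt_sum _ K _ fun t ht => ?_
  · rintro (a | j') _ j
    · simp only [wt, V, Sum.elim_inl, ← prod_pow_eq_pow_sum]
      exact prod_dvd_prod_of_dvd _ _ fun i _ => pow_dvd_pow_of_dvd (hx j0 j i).dvd _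
    · simp only [wt, V, Sum.elim_inr]
      split_ifs <;> simp
  · have h1 : ∀ i, wt (φ i) ≤ t → ∃ a, φ i = Sum.inl a ∧ ∑ b, a b ≤ t := fun i hi => by
      rcases h : φ i with a | j
      · exact ⟨a, rfl, by simpa [h, wt] using hi⟩
      · simp only [h, wt, Sum.elim_inr] at hi
        omega
    let g : κ → (Fin k →₀ ℕ) := fun i => Sum.elim id (fun _ => 0) (φ i)
    rw [← card_image_of_injOn (f := g)]
    · refine card_deg_le _ fun a ha => ?_
      obtain ⟨i, hi, rfl⟩ := mem_image.1 ha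
      obtain ⟨a, h, h'⟩ := h1 i (mem_filter.1 hi).2
      simpa [g, h] using h'
    · intro i hi i' hi' h
      obtain ⟨a, ha, -⟩ := h1 i (mem_filter.1 hi).2
      obtain ⟨a', ha', -⟩ := h1 i' (mem_filter.1 hi').2
      apply hφ
      simp only [g, ha, ha', Sum.elim_inl, id] at h
      rw [ha, ha', h]

theorem int_of_rat {κ : Type} [Fintype κ] (v : κ → ℚ) :
    ∃ (d : ℤ) (w : κ → ℤ), d ≠ 0 ∧ ∀ i, (w i : ℚ) = d * v i := by
  obtain ⟨b, hb⟩ := IsLocalization.exist_integer_multiples_of_finite (nonZeroDivisors ℤ) v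
  choose w hw using hb
  exact ⟨b, w, nonZeroDivisors.coe_ne_zero b, fun i => by simpa using hw i⟩

theorem rel_of_det {κ : Type} [Fintype κ] [DecidableEq κ] (F : κ → ι → ℤ)
    (h : ∀ p : κ → ι, (Matrix.of fun i j => F i (p j)).det = 0) :
    ∃ c : κ → ℤ, c ≠ 0 ∧ ∀ j, ∑ i, c i * F i j = 0 := by
  classical
  let v : ι → κ → ℚ := fun j i => F i j
  obtain ⟨κ', a, -, hs, hi⟩ := exists_linearIndependent' ℚ v
  by_cases ht : Submodule.span ℚ (Set.range v) = ⊤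
  · exfalso
    let b := Module.Basis.mk hi (hs.trans ht).ge
    let e : κ ≃ κ' := (Pi.basisFun ℚ κ).indexEquiv b
    have h1 : LinearIndependent ℚ (Matrix.of fun j i => v (a (e j)) i).row := hi.comp e e.injective
    have h2 := (Matrix.isUnit_iff_isUnit_det _).1 (Matrix.linearIndependent_rows_iff_isUnit.1 h1)
    refine h2.ne_zero ?_
    have h3 := congrArg (Int.castRingHom ℚ) (h fun j => a (e j))
    rw [RingHom.map_det, map_zero, ← Matrix.det_transpose] at h3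
    exact h3
  · obtain ⟨f, hf, hk⟩ := Submodule.exists_le_ker_of_lt_top _ (lt_top_iff_ne_top.2 ht)
    obtain ⟨d, w, hd, hw⟩ := int_of_rat fun i => f (Pi.single i 1)
    have hf' : ∀ u : κ → ℚ, f u = ∑ i, u i * f (Pi.single i 1) := fun u => by
      rw [LinearMap.pi_apply_eq_sum_univ]
      refine sum_congr rfl fun i _ => ?_
      rw [smul_eq_mul]
      congr 2
      ext j
      simp [Pi.single_apply, eq_comm]
    refine ⟨w, fun h0 => hf ?_, fun j => ?_⟩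
    · ext1 u
      refine LinearMap.ext fun r => ?_
      have h1 := hw u
      rw [h0] at h1
      have h2 : f (Pi.single u 1) = 0 := by simpa [hd] using h1.symm
      have h3 : (Pi.single u r : κ → ℚ) = r • Pi.single u 1 := by
        rw [← Pi.single_smul, smul_eq_mul, mul_one]
      simp [h3, h2]
    · have h1 : f (v j) = 0 := hk (Submodule.subset_span ⟨j, rfl⟩)
      rw [hf'] at h1
      have h2 : ((∑ i, w i * F i j : ℤ) : ℚ) = d * ∑ i, v j i * f (Pi.single i 1) := by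
        push_cast
        rw [mul_sum]
        exact sum_congr rfl fun i _ => by rw [hw]; simp only [v]; ring
      rw [h1, mul_zero] at h2
      exact_mod_cast h2

/-- The determinant method: a linear relation on a residue class. -/
theorem rel {k : ℕ} {κ : Type} [Fintype κ] (K : ℕ) {x : ι → Fin k → ℤ}
    (hx : ∀ j j' i, x j i ≡ x j' i [ZMOD l]) {F : κ → ι → ℤ} (hF : ∀ i, Apx l x (F i))
    (B : κ → ℝ) (hB : ∀ i j, |(F i j : ℝ)| ≤ B i)
    (hlt : ((Fintype.card κ).factorial : ℝ) * ∏ i, B i <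
      (l : ℝ) ^ (∑ t ∈ range K, (Fintype.card κ - (t + k).choose k))) :
    ∃ c : κ → ℤ, c ≠ 0 ∧ ∀ j, ∑ i, c i * F i j = 0 := by
  classical
  refine rel_of_det F fun p => ?_
  have h1 := det_apx (l := l) K (x := fun j => x (p j)) (fun j j' => hx _ _)
    (F := fun i j => F i (p j)) fun i K => (hF i K).imp fun P hP j => hP (p j)
  refine Int.eq_zero_of_abs_lt_dvd h1 ?_
  have h2 : |(((Matrix.of fun i j => F i (p j)).det : ℤ) : ℝ)| ≤
      (Fintype.card κ).factorial * ∏ i, B i := by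
    rw [← Matrix.det_transpose, Matrix.det_apply']
    push_cast
    refine (abs_sum_le_sum_abs _ _).trans ?_
    rw [← Fintype.card_perm, ← nsmul_eq_mul, ← card_univ]
    refine sum_le_card_nsmul _ _ _ fun s _ => ?_
    have : |(((Equiv.Perm.sign s : ℤˣ) : ℤ) : ℝ)| = 1 := by
      rcases Int.units_eq_one_or (Equiv.Perm.sign s) with h | h <;> simp [h]
    rw [abs_mul, this, one_mul, abs_prod]
    exact prod_le_prod (fun _ _ => abs_nonneg _) fun i _ => hB i _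
  exact_mod_cast h2.trans_lt hlt

end Pool.Agent.VT
end

-- part Pool.Agent.P.MP_b0ea37_nt.VTHens
section

/-! Simple roots and quotients of approximable functions. -/

open Polynomial Finset

namespace Pool.Agent.VT

variable {ι σ : Type} {l : ℕ} {x : ι → σ → ℤ} {F G y : ι → ℤ}

theorem Apx.congr (hF : Apx l x F) (h : ∀ j, F j = G j) : Apx l x G :=
  (funext h : F = G) ▸ hF

theorem Apx.neg (hF : Apx l x F) : Apx l x fun j => -F j :=
  ((Apx.const 0).sub hF).congr fun _ => zero_sub _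

theorem Apx.comp {ι' : Type} (hF : Apx l x F) (e : ι' → ι) :
    Apx l (fun j => x (e j)) fun j => F (e j) :=
  fun K => (hF K).imp fun _ hP j => hP (e j)

theorem Apx.limit (h : ∀ K : ℕ, ∃ G, Apx l x G ∧ ∀ j, (l : ℤ) ^ K ∣ G j - F j) : Apx l x F :=
  fun K => by
  obtain ⟨G, hG, h1⟩ := h K
  obtain ⟨P, hP⟩ := hG K
  exact ⟨P, fun j => (dvd_sub (hP j) (h1 j)).trans (dvd_of_eq (by ring))⟩

/-- fixed points of a contraction -/
theorem Apx.fix {κ : Type} {y : ι → κ → ℤ} (hy : ∀ j j' i, y j i ≡ y j' i [ZMOD l])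
    (Φ : ι → (κ → ℤ) → κ → ℤ)
    (hΦ : ∀ ψ : ι → κ → ℤ, (∀ i, Apx l x fun j => ψ j i) → ∀ i, Apx l x fun j => Φ j (ψ j) i)
    (hc : ∀ j (n : ℕ) (v : κ → ℤ), (∀ i, (l : ℤ) ^ (n + 1) ∣ v i - y j i) →
      ∀ i, (l : ℤ) ^ (n + 2) ∣ Φ j v i - y j i) (i : κ) : Apx l x fun j => y j i := by
  rcases isEmpty_or_nonempty ι with h | ⟨⟨j0⟩⟩
  · exact fun _ => ⟨0, fun j => h.elim j⟩
  have key : ∀ n : ℕ, ∃ ψ : ι → κ → ℤ, (∀ i, Apx l x fun j => ψ j i) ∧
      ∀ j i, (l : ℤ) ^ (n + 1) ∣ ψ j i - y j i := fun n => by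
    induction n with
    | zero => exact ⟨fun _ => y j0, fun i => Apx.const _, fun j i => by simpa using (hy j j0 i).dvd⟩
    | succ n ih =>
      obtain ⟨ψ, h1, h2⟩ := ih
      exact ⟨fun j => Φ j (ψ j), hΦ ψ h1, fun j => hc j n _ (h2 j)⟩
  refine Apx.limit fun K => ?_
  obtain ⟨ψ, h1, h2⟩ := key K
  exact ⟨_, h1 i, fun j => (pow_dvd_pow _ K.le_succ).trans (h2 j i)⟩

theorem Apx.eval {D : ℕ} {c : ι → ℤ[X]} (hD : ∀ j, (c j).natDegree ≤ D)
    (hc : ∀ n, Apx l x fun j => (c j).coeff n) (hy : Apx l x y) :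
    Apx l x fun j => (c j).eval (y j) :=
  (Apx.sum (range (D + 1)) fun n _ => (hc n).mul (hy.pow n)).congr fun j =>
    (eval_eq_sum_range' (Nat.lt_succ_of_le (hD j)) _).symm

theorem exists_inv (hl : l.Prime) {a : ℤ} (h : ¬ (l : ℤ) ∣ a) : ∃ b : ℤ, (l : ℤ) ∣ 1 - b * a := by
  obtain ⟨u, v, e⟩ := ((Nat.prime_iff_prime_int.1 hl).coprime_iff_not_dvd).2 h
  exact ⟨v, u, by linear_combination -e⟩

theorem eval_modEq_of_coeff {m : ℤ} {p q : ℤ[X]} (h : ∀ n, p.coeff n ≡ q.coeff n [ZMOD m])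
    {a b : ℤ} (hab : a ≡ b [ZMOD m]) : p.eval a ≡ q.eval b [ZMOD m] := by
  have h1 : C m ∣ q - p := (C_dvd_iff_dvd_coeff _ _).2 fun n => by simpa using (h n).dvd
  have h2 := eval_dvd (x := a) h1
  rw [eval_C, eval_sub] at h2
  exact ((Int.modEq_iff_dvd).2 h2).trans ((Int.modEq_iff_dvd).2
    (hab.dvd.trans (sub_dvd_eval_sub b a q)))

/-- simple roots -/
theorem Apx.hensel (hl : l.Prime) (hx : ∀ j j' i, x j i ≡ x j' i [ZMOD l]) {D : ℕ}
    {c : ι → ℤ[X]} (hD : ∀ j, (c j).natDegree ≤ D) (hc : ∀ n, Apx l x fun j => (c j).coeff n)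
    (hy : ∀ j, (c j).eval (y j) = 0) (hy' : ∀ j j', y j ≡ y j' [ZMOD l])
    (hd : ∀ j, ¬ (l : ℤ) ∣ (derivative (c j)).eval (y j)) : Apx l x y := by
  rcases isEmpty_or_nonempty ι with h | ⟨⟨j0⟩⟩
  · exact fun _ => ⟨0, fun j => h.elim j⟩
  obtain ⟨b, hb⟩ := exists_inv hl (hd j0)
  refine Apx.fix (κ := Unit) (y := fun j _ => y j) (fun j j' _ => hy' j j')
    (fun j v _ => v () - b * (c j).eval (v ()))
    (fun ψ h _ => (h ()).sub ((Apx.const b).mul (Apx.eval hD hc (h ())))) (fun j n v hv _ => ?_) ()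
  obtain ⟨δ, hδ⟩ := hv ()
  obtain ⟨k, hk⟩ := binomExpansion (c j) (y j) ((l : ℤ) ^ (n + 1) * δ)
  have h1 : (derivative (c j0)).eval (y j0) ≡ (derivative (c j)).eval (y j) [ZMOD l] :=
    eval_modEq_of_coeff (fun n => by
      rw [coeff_derivative, coeff_derivative]
      exact ((hc _).modEq hx j0 j).mul_right _) (hy' j0 j)
  obtain ⟨s, hs⟩ := h1.dvd
  obtain ⟨t, ht⟩ := hb
  have hv : v () = y j + (l : ℤ) ^ (n + 1) * δ := by linarith
  rw [hv, hk, hy]
  refine ⟨δ * (t - b * s) - b * k * l ^ n * δ ^ 2, ?_⟩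
  linear_combination (l : ℤ) ^ (n + 1) * δ * (ht - b * hs)

/-- division by an approximable unit -/
theorem Apx.div (hl : l.Prime) (hx : ∀ j j' i, x j i ≡ x j' i [ZMOD l]) (hy : Apx l x y)
    (hu : ∀ j, ¬ (l : ℤ) ∣ y j) (hG : Apx l x fun j => y j * G j) : Apx l x G := by
  refine Apx.hensel hl hx (D := 1) (c := fun j => C (y j) * X - C (y j * G j))
    (fun j => by compute_degree) (fun n => ?_) (fun j => by simp) (fun j j' => ?_)
    fun j => by simpa using hu j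
  · rcases n with _ | _ | n
    · simpa using hG.neg
    · simpa [coeff_X, coeff_C, -eq_intCast, -map_mul] using hy
    · simpa [coeff_X, coeff_C, -eq_intCast, -map_mul] using Apx.const 0
  · have h1 := (hy.modEq hx j j').dvd
    have h2 := (hG.modEq hx j j').dvd
    have h3 : (l : ℤ) ∣ y j * (G j' - G j) :=
      (dvd_sub h2 (h1.mul_right (G j'))).trans (dvd_of_eq (by ring))
    exact (Int.modEq_iff_dvd).2
      (((Nat.prime_iff_prime_int.1 hl).dvd_or_dvd h3).resolve_left (hu j))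

/-- the determinant method in one variable -/
theorem rel_one {κ : Type} [Fintype κ] {t : ι → ℤ} (ht : ∀ j j', t j ≡ t j' [ZMOD l])
    {F : κ → ι → ℤ} (hF : ∀ i, Apx l (fun j (_ : Fin 1) => t j) (F i))
    (B : κ → ℝ) (hB : ∀ i j, |(F i j : ℝ)| ≤ B i) {ν : ℕ}
    (hν : ν * 2 = Fintype.card κ * (Fintype.card κ - 1))
    (hlt : ((Fintype.card κ).factorial : ℝ) * ∏ i, B i < (l : ℝ) ^ ν) :
    ∃ c : κ → ℤ, c ≠ 0 ∧ ∀ j, ∑ i, c i * F i j = 0 := by
  refine rel (Fintype.card κ) (fun j j' _ => ht j j') hF B hB (hlt.trans_eq ?_)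
  have h1 := sum_range_id_mul_two (Fintype.card κ)
  rw [← sum_range_reflect (fun i => i)] at h1
  have h2 : ∑ t ∈ range (Fintype.card κ), (Fintype.card κ - (t + 1).choose 1) =
      ∑ t ∈ range (Fintype.card κ), (Fintype.card κ - 1 - t) :=
    sum_congr rfl fun t _ => by rw [Nat.choose_one_right]; omega
  rw [h2, show ν = ∑ t ∈ range (Fintype.card κ), (Fintype.card κ - 1 - t) by omega]

end Pool.Agent.VT
end

-- part Pool.Agent.P.MP_b0ea37_nt.WSqv
section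

namespace Pool.Agent.VW

open Polynomial Finset

theorem sqv_not_sq {b : ℚ[X]} (hb : Irreducible b) {c : ℚ} (hc : c ≠ 0) (v : ℚ[X]) :
    ∀ u : ℚ[X], C c * u ^ 2 = b * v ^ 2 → u = 0 ∧ v = 0 := by
  induction hn : v.natDegree using Nat.strong_induction_on generalizing v with
  | _ n ih =>
    intro u h
    have hp := hb.prime
    have hu : IsUnit (C c) := isUnit_C.2 hc.isUnit
    by_cases hv : v = 0
    · refine ⟨?_, hv⟩
      simpa [hv, hc] using h
    obtain ⟨u1, rfl⟩ := hp.dvd_of_dvd_pow (hu.dvd_mul_left.1 ⟨_, h⟩)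
    have h1 : v ^ 2 = b * (C c * u1 ^ 2) := mul_left_cancel₀ hp.ne_zero (by linear_combination -h)
    obtain ⟨v1, rfl⟩ := hp.dvd_of_dvd_pow ⟨_, h1⟩
    have h2 : C c * u1 ^ 2 = b * v1 ^ 2 := mul_left_cancel₀ hp.ne_zero (by linear_combination -h1)
    have h3 := natDegree_mul hp.ne_zero (right_ne_zero_of_mul hv)
    have h4 := hb.natDegree_pos
    exact absurd (ih v1.natDegree (by omega) v1 rfl u1 h2).2 (right_ne_zero_of_mul hv)

theorem sqv_poly {W : ℕ} (a : Fin W → ℤ) : ∃ p : ℤ[X], p.natDegree ≤ W ∧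
    (∀ i : Fin W, p.coeff i = a i) ∧ ∀ t, p.eval t = ∑ i, a i * t ^ (i : ℕ) :=
  ⟨∑ i : Fin W, monomial i (a i),
    natDegree_sum_le_of_forall_le _ _ fun i _ => (natDegree_monomial_le _).trans i.2.le,
    fun i => by simp [coeff_monomial, Fin.val_inj], fun t => by simp [eval_finsetSum]⟩

theorem sqv_class {E V l : ℕ} (hl : l.Prime) {L Y : ℝ} {B : ℤ[X]} {c : ℤ} (hB : Irr B)
    (hE : B.natDegree ≤ E) (hc : c ≠ 0) (hL : 1 ≤ L)
    (hY : ∀ t : ℤ, |(t : ℝ)| ≤ L → |((B.eval t : ℤ) : ℝ)| ≤ Y)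
    (hlt : ((2 * V + 2).factorial : ℝ) * L ^ V * Y < (l : ℝ) ^ (2 * V + 1)) (r : ℤ) :
    Cnt (fun t : ℤ => |(t : ℝ)| ≤ L ∧ t ≡ r [ZMOD l] ∧ ∃ z : ℤ, B.eval t = c * z ^ 2 ∧
      ¬ (l : ℤ) ∣ 2 * c * B.eval t) ((E + 2 * (V + 1) : ℕ) : ℝ) := by
  refine Cnt.of_mem (Nat.cast_nonneg _) ?_
  rintro t0 ⟨h0, h1, z0, h2, h3⟩
  have hp := Nat.prime_iff_prime_int.1 hl
  let ι := {p : ℤ × ℤ // |(p.1 : ℝ)| ≤ L ∧ p.1 ≡ r [ZMOD l] ∧ B.eval p.1 = c * p.2 ^ 2 ∧
    ¬ (l : ℤ) ∣ 2 * c * B.eval p.1 ∧ p.2 ≡ z0 [ZMOD l]}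
  have hx : ∀ j j' : ι, j.1.1 ≡ j'.1.1 [ZMOD l] := fun j j' => j.2.2.1.trans j'.2.2.1.symm
  have ht : VT.Apx l (fun (j : ι) (_ : Fin 1) => j.1.1) fun j => j.1.1 := VT.Apx.coord 0
  have hz : VT.Apx l (fun (j : ι) (_ : Fin 1) => j.1.1) fun j => j.1.2 := by
    refine VT.Apx.hensel hl (fun j j' _ => hx j j') (D := 2)
      (c := fun j => C c * X ^ 2 - C (B.eval j.1.1)) (fun j => by compute_degree) (fun n => ?_)
      (fun j => by simp [j.2.2.2.1]) (fun j j' => j.2.2.2.2.2.trans j'.2.2.2.2.2.symm)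
      fun j h => j.2.2.2.2.1 ?_
    · simp only [coeff_sub, coeff_C]
      refine (VT.Apx.const _).sub ?_
      split_ifs
      · exact VT.Apx.eval (fun _ => hE) (fun _ => VT.Apx.const _) ht
      · exact VT.Apx.const _
    · rw [j.2.2.2.1]
      refine h.trans ⟨c * j.1.2, ?_⟩
      simp [-eq_intCast]
      ring
  have hY0 : 0 ≤ Y := (abs_nonneg _).trans (hY t0 h0)
  obtain ⟨a, ha, hr⟩ := VT.rel_one (κ := Fin (V + 1) ⊕ Fin (V + 1)) hx
    (F := Sum.elim (fun i j => j.1.1 ^ (i : ℕ)) fun i j => j.1.1 ^ (i : ℕ) * j.1.2)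
    (by
      rintro (i | i)
      exacts [ht.pow _, (ht.pow _).mul hz])
    (Sum.elim (fun i => L ^ (i : ℕ)) fun i => L ^ (i : ℕ) * Y)
    (by
      have h4 : ∀ (i : ℕ) (j : ι), |(j.1.1 : ℝ) ^ i| ≤ L ^ i := fun i j => by
        rw [abs_pow]
        exact pow_le_pow_left₀ (abs_nonneg _) j.2.1 _
      rintro (i | i) j
      · simpa using h4 i j
      · have h5 := hY _ j.2.1
        rw [j.2.2.2.1] at h5
        have h6 : |j.1.2| ≤ |c * j.1.2 ^ 2| := by
          rw [abs_mul, abs_pow]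
          nlinarith [Int.one_le_abs hc, Int.le_self_sq |j.1.2|, sq_nonneg |j.1.2|]
        simp only [Sum.elim_inr, Int.cast_mul, Int.cast_pow, abs_mul]
        exact mul_le_mul (h4 i j) (le_trans (by exact_mod_cast h6) h5) (abs_nonneg _)
          (by positivity))
    (ν := (2 * V + 1) * (V + 1))
    (by
      simp only [Fintype.card_sum, Fintype.card_fin]
      rw [show V + 1 + (V + 1) - 1 = 2 * V + 1 by omega]
      ring)
    (by
      have h4 : ∑ i : Fin (V + 1), (i : ℕ) + ∑ i : Fin (V + 1), (i : ℕ) = V * (V + 1) := by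
        have := sum_range_id_mul_two (V + 1)
        rw [Fin.sum_univ_eq_sum_range (fun i => i)]
        rw [Nat.add_sub_cancel] at this
        linarith
      have h5 : (1 : ℝ) ≤ (2 * V + 2).factorial := by exact_mod_cast Nat.factorial_pos _
      simp only [Fintype.card_sum, Fintype.card_fin, Fintype.prod_sum_type, Sum.elim_inl,
        Sum.elim_inr, prod_mul_distrib, prod_pow_eq_pow_sum, prod_const, card_univ]
      rw [← mul_assoc (L ^ _), ← pow_add, h4, show V + 1 + (V + 1) = 2 * V + 2 by omega, pow_mul,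
        pow_mul]
      refine lt_of_le_of_lt ?_ (pow_lt_pow_left₀ hlt (by positivity) V.succ_ne_zero)
      rw [mul_pow, mul_pow, mul_assoc]
      gcongr
      exact le_self_pow₀ h5 V.succ_ne_zero)
  obtain ⟨u, u1, u2, u3⟩ := sqv_poly fun i => a (Sum.inl i)
  obtain ⟨v, v1, v2, v3⟩ := sqv_poly fun i => a (Sum.inr i)
  have hR : C c * u ^ 2 - B * v ^ 2 ≠ 0 := fun h => by
    have h4 := congrArg (Polynomial.map (Int.castRingHom ℚ)) (sub_eq_zero.1 h)
    simp only [Polynomial.map_mul, Polynomial.map_pow, map_C] at h4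
    obtain ⟨h5, h6⟩ := sqv_not_sq hB (by simpa using hc) _ _ h4
    rw [Polynomial.map_eq_zero_iff (RingHom.injective_int _)] at h5 h6
    refine ha (funext ?_)
    rintro (i | i)
    · rw [← u2, h5, coeff_zero, Pi.zero_apply]
    · rw [← v2, h6, coeff_zero, Pi.zero_apply]
  refine (cnt_roots _ hR).mono ?_ ?_
  · rintro t ⟨k0, k1, z, k2, k3⟩
    have h4 : ∃ z : ℤ, B.eval t = c * z ^ 2 ∧ z ≡ z0 [ZMOD l] := by
      have h5 : (l : ℤ) ∣ c * ((z0 - z) * (z0 - -z)) :=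
        ((k1.trans h1.symm).dvd.trans (sub_dvd_eval_sub _ _ B)).trans
          (dvd_of_eq (by rw [h2, k2]; ring))
      rcases hp.dvd_or_dvd ((hp.dvd_or_dvd h5).resolve_left
        fun h => h3 ((h.mul_left 2).mul_right _)) with h | h
      · exact ⟨z, k2, (Int.modEq_iff_dvd).2 h⟩
      · exact ⟨-z, by rw [k2]; ring, (Int.modEq_iff_dvd).2 h⟩
    obtain ⟨z, k2, k4⟩ := h4
    have h5 := hr ⟨(t, z), k0, k1, k2, k3, k4⟩
    simp only [Fintype.sum_sum_type, Sum.elim_inl, Sum.elim_inr, ← mul_assoc, ← sum_mul, ← u3,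
      ← v3] at h5
    simp only [eval_sub, eval_mul, eval_pow, eval_C, k2]
    linear_combination c * (u.eval t - v.eval t * z) * h5
  · have h4 : (C c * u ^ 2 - B * v ^ 2).natDegree ≤ E + 2 * (V + 1) :=
      (natDegree_sub_le _ _).trans (max_le
        ((natDegree_C_mul_le _ _).trans (natDegree_pow_le.trans (by omega)))
        (natDegree_mul_le.trans (add_le_add hE (natDegree_pow_le.trans (by omega)))))
    exact_mod_cast h4

/-- square values -/
theorem sqv (E : ℕ) (ε : ℝ) (hε : 0 < ε) : ∃ C : ℝ, 1 ≤ C ∧ ∀ (Z L : ℝ) (B : ℤ[X]) (c : ℤ),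
    1 ≤ L → L ≤ Z → Irr B → B.natDegree ≤ E → B.supNorm ≤ Z → c ≠ 0 → |(c : ℝ)| ≤ Z →
    Cnt (fun t : ℤ => |(t : ℝ)| ≤ L ∧ ∃ z : ℤ, B.eval t = c * z ^ 2) (C * Z ^ ε * √L) := by
  obtain ⟨V, hV⟩ := exists_nat_ge (((E : ℝ) + 2) / ε)
  rw [div_le_iff₀ hε] at hV
  obtain ⟨K, hK⟩ : ∃ K : ℝ, K = (2 * V + 2).factorial * (E + 1) := ⟨_, rfl⟩
  have f2 : (2 : ℝ) ≤ (2 * V + 2).factorial := by
    exact_mod_cast (by omega : 2 ≤ 2 * V + 2).trans (Nat.self_le_factorial _)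
  have hK1 : 1 ≤ K := by rw [hK]; nlinarith [Nat.cast_nonneg (α := ℝ) E]
  obtain ⟨M, hM⟩ : ∃ M : ℝ, M = (2 * V + 1 : ℕ) * (2 ^ (2 * V + 1 + 1) * K *
    ((E + 2 * (V + 1) : ℕ) : ℝ)) := ⟨_, rfl⟩
  have hM0 : 0 ≤ M := by rw [hM]; positivity
  refine ⟨1 + E + M, by linarith [Nat.cast_nonneg (α := ℝ) E], ?_⟩
  intro Z L B c hL hZ hB hE hs hc hcZ
  have hZ1 : 1 ≤ Z := hL.trans hZ
  have e1 : 1 ≤ Z ^ ε := Real.one_le_rpow hZ1 hε.le
  have e2 : 1 ≤ √L := Real.one_le_sqrt.2 hL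
  have e3 : 1 ≤ Z ^ ε * √L := one_le_mul_of_one_le_of_one_le e1 e2
  have hY : ∀ t : ℤ, |(t : ℝ)| ≤ L → |((B.eval t : ℤ) : ℝ)| ≤ (E + 1) * Z ^ (E + 1) := fun t ht => by
    have h1 : max 1 ‖t‖ ≤ Z := max_le hZ1 (ht.trans hZ)
    refine (norm_eval_le B hE t).trans ?_
    rw [pow_succ', ← mul_assoc]
    gcongr
  have hQ : K * L ^ V * Z ^ (E + 2) ≤ (K * (Z ^ ε * √L)) ^ (2 * V + 1) := by
    rw [mul_pow, mul_pow, mul_assoc, mul_comm (L ^ V)]
    gcongr
    · exact le_self_pow₀ hK1 (by omega)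
    · rw [← Real.rpow_natCast, ← Real.rpow_mul_natCast (by linarith)]
      refine Real.rpow_le_rpow_of_exponent_le hZ1 ?_
      push_cast
      nlinarith [Nat.cast_nonneg (α := ℝ) V]
    · rw [pow_succ, pow_mul, Real.sq_sqrt (by linarith)]
      exact le_mul_of_one_le_right (by positivity) e2
  obtain ⟨T, t1, t2, t3⟩ := exists_primes (2 * V + 1) (K * (Z ^ ε * √L))
    (one_le_mul_of_one_le_of_one_le hK1 e3)
  have hB0 : B ≠ 0 := fun h => hB.ne_zero (by simp [h])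
  have hLV : 1 ≤ L ^ V := one_le_pow₀ hL
  have hcl : ∀ l ∈ T, Cnt (fun t : ℤ => ∃ r : ℤ, (0 ≤ r ∧ r < l) ∧ |(t : ℝ)| ≤ L ∧ t ≡ r [ZMOD l] ∧
      ∃ z : ℤ, B.eval t = c * z ^ 2 ∧ ¬ (l : ℤ) ∣ 2 * c * B.eval t)
      (2 ^ (2 * V + 1 + 1) * (K * (Z ^ ε * √L)) * ((E + 2 * (V + 1) : ℕ) : ℝ)) := fun l hl => by
    obtain ⟨p1, p2, p3⟩ := t2 l hl
    refine ((cnt_res l).fibre (Nat.cast_nonneg _) fun r _ =>
      sqv_class (V := V) p1 hB hE hc hL hY ?_ r).mono (fun _ h => h) (by gcongr)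
    refine lt_of_le_of_lt (le_trans ?_ hQ) (pow_lt_pow_left₀ p2 (by positivity) (by omega))
    calc _ = K * L ^ V * Z ^ (E + 1) := by rw [hK]; ring
      _ ≤ _ := by gcongr; omega
  refine ((cnt_roots B hB0).or (Cnt.sum T hcl)).mono ?_ ?_
  · rintro t ⟨k0, z, k1⟩
    refine or_iff_not_imp_left.2 fun h => ?_
    obtain ⟨l, hl, h1⟩ := t3 (2 * c * B.eval t) (by simp [hc, h]) (le_trans (by
      push_cast
      rw [abs_mul, abs_mul, abs_two]
      calc _ ≤ (2 * V + 2).factorial * Z * ((E + 1) * Z ^ (E + 1)) := by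
            have := hY t k0
            gcongr
        _ = K * 1 * Z ^ (E + 2) := by rw [hK]; ring
        _ ≤ _ := by gcongr) hQ) (by omega)
    have h2 : (0 : ℤ) < l := by exact_mod_cast (t2 l hl).1.pos
    exact ⟨l, hl, t % l, ⟨Int.emod_nonneg _ h2.ne', Int.emod_lt_of_pos _ h2⟩, k0,
      (Int.mod_modEq _ _).symm, z, k1, h1⟩
  · have h1 : (B.natDegree : ℝ) ≤ E := by exact_mod_cast hE
    rw [sum_const, t1, nsmul_eq_mul, mul_assoc (1 + E + M)]
    have h2 : ((2 * V + 1 : ℕ) : ℝ) * (2 ^ (2 * V + 1 + 1) * (K * (Z ^ ε * √L)) *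
      ((E + 2 * (V + 1) : ℕ) : ℝ)) = M * (Z ^ ε * √L) := by rw [hM]; ring
    rw [h2]
    nlinarith [Nat.cast_nonneg (α := ℝ) E]

end Pool.Agent.VW
end

-- part Pool.Agent.P.MP_b0ea37_nt.WEenv
section

namespace Pool.Agent.VW

open Polynomial

/-- derivative in the coefficient variable -/
noncomputable def dr : Derivation ℤ ℂ[X][X] ℂ[X][X] :=
  letI : Differential ℂ[X] := ⟨(Polynomial.derivative' (R := ℂ)).restrictScalars ℤ⟩
  Differential.mapCoeffs

theorem dr_coeff (P : ℂ[X][X]) (i : ℕ) : (dr P).coeff i = derivative (P.coeff i) := rfl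

theorem dr_C_mul_map (w a : ℂ[X]) : dr (C w * a.map C) = C (derivative w) * a.map C := by
  ext1 i
  rw [dr_coeff, coeff_C_mul, coeff_C_mul, coeff_map, derivative_mul, derivative_C, mul_zero,
    add_zero]

/-- a multiple root of a family is a root of the derivative in the parameter -/
theorem env {L : Type} [Field L] (φ : ℂ[X] →+* L) (hφ : Function.Injective φ) (ξ : L)
    (P : ℂ[X][X]) (hP : P ≠ 0) (h0 : P.eval₂ φ ξ = 0) (h1 : (derivative P).eval₂ φ ξ = 0) :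
    (dr P).eval₂ φ ξ = 0 := by
  classical
  have hex : ∃ d : ℕ, ∃ π : ℂ[X][X], π ≠ 0 ∧ π.eval₂ φ ξ = 0 ∧ π.natDegree = d :=
    ⟨_, P, hP, h0, rfl⟩
  obtain ⟨π, hπ, hπ0, hd⟩ := Nat.find_spec hex
  have hmin : ∀ Q : ℂ[X][X], Q.eval₂ φ ξ = 0 → Q.natDegree < π.natDegree → Q = 0 := by
    intro Q hQ hlt
    by_contra hne
    exact Nat.find_min hex (hd ▸ hlt) ⟨Q, hne, hQ, rfl⟩
  have hφ0 : ∀ a : ℂ[X], a ≠ 0 → φ a ≠ 0 := fun a ha h => ha (hφ (h.trans φ.map_zero.symm))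
  have hpos : 0 < π.natDegree := by
    by_contra h
    have e := eq_C_of_natDegree_eq_zero (Nat.eq_zero_of_not_pos h)
    rw [e, eval₂_C] at hπ0
    exact hφ0 _ (fun h' => hπ (by rw [e, h', C_0])) hπ0
  have hdiv : ∀ (m : ℕ) (Q : ℂ[X][X]), Q.natDegree = m → Q.eval₂ φ ξ = 0 →
      ∃ a : ℂ[X], a ≠ 0 ∧ ∃ h, C a * Q = π * h := by
    intro m
    induction m using Nat.strong_induction_on with
    | _ m ih =>
      intro Q hm hQ
      by_cases hlt : Q.natDegree < π.natDegree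
      · exact ⟨1, one_ne_zero, 0, by rw [hmin Q hQ hlt]; simp⟩
      have hle := not_lt.1 hlt
      obtain ⟨a, ha, h, e⟩ := ih _
        (hm ▸ natDegree_cancelLeads_lt_of_natDegree_le_natDegree hle (hpos.trans_le hle)) _ rfl
        (by simp only [cancelLeads, eval₂_sub, eval₂_mul, hQ, hπ0, mul_zero, sub_zero])
      rw [cancelLeads, Nat.sub_eq_zero_of_le hle, pow_zero, mul_one] at e
      refine ⟨a * π.leadingCoeff, mul_ne_zero ha (leadingCoeff_ne_zero.2 hπ),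
        h + C a * (C Q.leadingCoeff * X ^ (Q.natDegree - π.natDegree)), ?_⟩
      rw [C_mul]
      linear_combination e
  obtain ⟨a, ha, h, e⟩ := hdiv _ P rfl h0
  have hπ1 : (derivative π).eval₂ φ ξ ≠ 0 := fun h' =>
    hpos.ne' (derivative_eq_zero.1 (hmin _ h' (natDegree_derivative_lt hpos.ne')))
  have e1 := congrArg (fun Q => (derivative Q).eval₂ φ ξ) e
  simp only [derivative_mul, derivative_C, zero_mul, zero_add, eval₂_mul, eval₂_add, h1, hπ0,
    mul_zero, add_zero] at e1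
  have hh : h.eval₂ φ ξ = 0 := (mul_eq_zero.1 e1.symm).resolve_left hπ1
  have e2 := congrArg (fun Q => (dr Q).eval₂ φ ξ) e
  simp only [Derivation.leibniz, smul_eq_mul, eval₂_add, eval₂_mul, h0, hπ0, hh, zero_mul,
    add_zero, eval₂_C] at e2
  exact (mul_eq_zero.1 e2).resolve_left (hφ0 a ha)

/-- vanishing Wronskian of two polynomials -/
theorem exists_C_mul_of_wr {a b : ℂ[X]} (hb : b ≠ 0) (h : a * derivative b = derivative a * b) :
    ∃ c : ℂ, a = C c * b := by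
  classical
  obtain ⟨a', b', ha', hb', hu⟩ := extract_gcd a b
  have hc : IsCoprime a' b' := (gcd_isUnit_iff a' b').1 hu
  generalize gcd a b = g at ha' hb'
  subst ha' hb'
  have hg : g ≠ 0 := left_ne_zero_of_mul hb
  have hw : wronskian a' b' = 0 := by
    have : g ^ 2 * wronskian a' b' = 0 := by
      rw [derivative_mul, derivative_mul] at h
      rw [wronskian]
      linear_combination h
    exact (mul_eq_zero.1 this).resolve_left (pow_ne_zero _ hg)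
  obtain ⟨h1, h2⟩ := hc.wronskian_eq_zero_iff.1 hw
  obtain ⟨x, rfl⟩ : ∃ x, a' = C x := ⟨_, eq_C_of_derivative_eq_zero h1⟩
  obtain ⟨y, rfl⟩ : ∃ y, b' = C y := ⟨_, eq_C_of_derivative_eq_zero h2⟩
  have hb0 : y ≠ 0 := fun h0 => hb (by rw [h0, C_0, mul_zero])
  refine ⟨x / y, ?_⟩
  rw [mul_left_comm, ← C_mul, div_mul_cancel₀ _ hb0]

/-- clearing denominators with a degree bound -/
theorem clear_den {σ : Type} (P : MvPolynomial σ ℤ) : ∃ N : ℕ, ∀ (b : ℕ) (w : ℂ[X])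
    (v : σ → ℂ[X]), w.natDegree ≤ b → (∀ i, (v i).natDegree ≤ b) →
    ∃ T : ℂ[X], T.natDegree ≤ N * b ∧ ∀ (F : Type) [Field F] (φ : ℂ[X] →+* F), φ w ≠ 0 →
      φ T = φ w ^ N * MvPolynomial.eval₂ (Int.castRingHom F) (fun i => (φ w)⁻¹ * φ (v i)) P := by
  induction P using MvPolynomial.induction_on with
  | C a =>
    exact ⟨0, fun b w v _ _ =>
      ⟨a, by simp, fun F _ φ _ => by rw [MvPolynomial.eval₂_C]; simp⟩⟩
  | add p q hp hq =>
    obtain ⟨N, hN⟩ := hp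
    obtain ⟨M, hM⟩ := hq
    refine ⟨N + M, fun b w v hw hv => ?_⟩
    obtain ⟨T, hT, eT⟩ := hN b w v hw hv
    obtain ⟨U, hU, eU⟩ := hM b w v hw hv
    have hpow : ∀ k : ℕ, (w ^ k).natDegree ≤ k * b := fun k =>
      natDegree_pow_le.trans (Nat.mul_le_mul_left _ hw)
    refine ⟨T * w ^ M + U * w ^ N, (natDegree_add_le _ _).trans (max_le ?_ ?_), fun F _ φ h => ?_⟩
    · exact natDegree_mul_le.trans (by rw [add_mul]; exact add_le_add hT (hpow M))
    · exact natDegree_mul_le.trans (by rw [add_comm N, add_mul]; exact add_le_add hU (hpow N))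
    · rw [map_add, map_mul, map_mul, map_pow, map_pow, eT F φ h, eU F φ h, MvPolynomial.eval₂_add]
      ring
  | mul_X p i hp =>
    obtain ⟨N, hN⟩ := hp
    refine ⟨N + 1, fun b w v hw hv => ?_⟩
    obtain ⟨T, hT, eT⟩ := hN b w v hw hv
    refine ⟨T * v i, natDegree_mul_le.trans (by rw [add_mul, one_mul]; exact add_le_add hT (hv i)),
      fun F _ φ h => ?_⟩
    rw [map_mul, eT F φ h, MvPolynomial.eval₂_mul, MvPolynomial.eval₂_X]
    field_simp
    ring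

/-- a member of a pencil has a root outside a given finite set -/
theorem pencil {A₁ A₂ B : ℂ[X]} (hA : ∀ a b : ℂ, C a * A₁ + C b * A₂ = 0 → a = 0 ∧ b = 0)
    (hB : B ≠ 0) {K : ℕ} (hK : B.natDegree ≤ K) :
    ∃ c : ℕ, c ≤ K + 1 ∧ ∃ r : ℂ, A₁.eval r + c * A₂.eval r = 0 ∧ B.eval r ≠ 0 := by
  classical
  obtain ⟨a₁, a₂, h1, h2, hu⟩ := extract_gcd A₁ A₂
  have hcop : IsCoprime a₁ a₂ := (gcd_isUnit_iff a₁ a₂).1 hu
  generalize gcd A₁ A₂ = g at h1 h2
  subst h1 h2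
  have hroot : ∀ c c' : ℕ, c ≠ c' → (∃ r : ℂ, a₁.eval r + c * a₂.eval r = 0) ∨
      ∃ r : ℂ, a₁.eval r + c' * a₂.eval r = 0 := by
    intro c c' hcc
    have key : ∀ c : ℕ, (¬ ∃ r : ℂ, a₁.eval r + c * a₂.eval r = 0) →
        ∃ u : ℂ, a₁ + C (c : ℂ) * a₂ = C u := fun c hc => by
      refine ⟨_, eq_C_of_degree_le_zero (not_lt.1 fun hlt => hc ?_)⟩
      obtain ⟨r, hr⟩ := IsAlgClosed.exists_root _ hlt.ne'
      exact ⟨r, by simpa using hr⟩
    by_contra hn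
    obtain ⟨u, hu⟩ := key c fun h => hn (Or.inl h)
    obtain ⟨u', hu'⟩ := key c' fun h => hn (Or.inr h)
    have h0 := hA (u' - u) (u' * c - u * c') (by
      simp only [C_sub, C_mul]
      linear_combination g * C u' * hu - g * C u * hu')
    have huu : u' = u := sub_eq_zero.1 h0.1
    have hu0 : u = 0 := by
      have : u * ((c : ℂ) - c') = 0 := by rw [← h0.2, huu]; ring
      exact (mul_eq_zero.1 this).resolve_right (sub_ne_zero.2 (Nat.cast_injective.ne hcc))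
    have := hA 1 c (by rw [hu0, C_0] at hu; rw [C_1]; linear_combination g * hu)
    exact one_ne_zero this.1
  by_contra hn
  push Not at hn
  let S := (Finset.range (K + 2)).filter fun c : ℕ => ∃ r : ℂ, a₁.eval r + c * a₂.eval r = 0
  have hS : K + 1 ≤ S.card := by
    have h3 := Finset.card_filter_add_card_filter_not (s := Finset.range (K + 2))
      fun c : ℕ => ∃ r : ℂ, a₁.eval r + c * a₂.eval r = 0
    have h4 : ((Finset.range (K + 2)).filter
        fun c : ℕ => ¬ ∃ r : ℂ, a₁.eval r + c * a₂.eval r = 0).card ≤ 1 :=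
      Finset.card_le_one.2 fun c hc c' hc' => by
        by_contra hne
        exact (hroot c c' hne).elim (Finset.mem_filter.1 hc).2 (Finset.mem_filter.1 hc').2
    rw [Finset.card_range] at h3
    change K + 1 ≤ (Finset.filter _ _).card
    omega
  have hch : ∀ c : ℕ, ∃ r : ℂ, c ∈ S → a₁.eval r + c * a₂.eval r = 0 := fun c => by
    by_cases h : c ∈ S
    · obtain ⟨r, hr⟩ := (Finset.mem_filter.1 h).2
      exact ⟨r, fun _ => hr⟩
    · exact ⟨0, fun h' => absurd h' h⟩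
  choose ρ hρ using hch
  have hle : S.card ≤ B.roots.toFinset.card := by
    refine Finset.card_le_card_of_injOn ρ (fun c hc => ?_) fun c hc c' hc' e => ?_
    · have hc1 := Finset.mem_range.1 (Finset.mem_filter.1 hc).1
      refine Multiset.mem_toFinset.2 ((mem_roots hB).2 (hn c (by omega) _ ?_))
      rw [eval_mul, eval_mul]
      linear_combination g.eval (ρ c) * hρ c hc
    · by_contra hne
      have e1 := hρ c hc
      have e2 := hρ c' hc'
      rw [← e] at e2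
      have h5 : a₂.eval (ρ c) = 0 := by
        have : ((c : ℂ) - c') * a₂.eval (ρ c) = 0 := by linear_combination e1 - e2
        exact (mul_eq_zero.1 this).resolve_left (sub_ne_zero.2 (Nat.cast_injective.ne hne))
      have h6 : a₁.eval (ρ c) = 0 := by rwa [h5, mul_zero, add_zero] at e1
      obtain ⟨u, v, huv⟩ := hcop
      have := congrArg (eval (ρ c)) huv
      simp [h5, h6] at this
  have := (Multiset.toFinset_card_le _).trans (card_roots' B)
  omega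

theorem Indep.complex {g₁ g₂ : ℤ[X]} (h : Indep g₁ g₂) (a b : ℂ)
    (e : C a * up ℂ g₁ + C b * up ℂ g₂ = 0) : a = 0 ∧ b = 0 := by
  have hc : ∀ j, a * g₁.coeff j + b * g₂.coeff j = 0 := fun j => by
    simpa using congrArg (fun p => p.coeff j) e
  have h2 : g₂ ≠ 0 := fun h0 => one_ne_zero (h 0 1 (by simp [h0])).2
  have hi : g₂.coeff g₂.natDegree ≠ 0 := leadingCoeff_ne_zero.2 h2
  have ha : a = 0 := by
    by_contra ha
    refine hi (h _ (-g₁.coeff g₂.natDegree) ?_).1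
    ext j
    rw [coeff_add, coeff_C_mul, coeff_C_mul, coeff_zero]
    have : a * ((g₂.coeff g₂.natDegree * g₁.coeff j + -g₁.coeff g₂.natDegree * g₂.coeff j : ℤ) : ℂ)
        = 0 := by
      push_cast
      linear_combination (g₂.coeff g₂.natDegree : ℂ) * hc j - (g₂.coeff j : ℂ) * hc g₂.natDegree
    exact_mod_cast (mul_eq_zero.1 this).resolve_left ha
  refine ⟨ha, ?_⟩
  have := hc g₂.natDegree
  rw [ha, zero_mul, zero_add] at this
  exact (mul_eq_zero.1 this).resolve_right (by exact_mod_cast hi)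

end Pool.Agent.VW
end

-- part Pool.Agent.P.MP_b0ea37_nt.WEgood
section

namespace Pool.Agent.VW

open Polynomial

/-- the Wronskian of two polynomials -/
noncomputable def wrE (a b : ℂ[X]) : ℂ[X] := a * derivative b - derivative a * b

/-- the member of the plane with a double root at the parameter, up to a factor -/
noncomputable def Del (F G₁ G₂ : ℂ[X]) : ℂ[X][X] :=
  C (wrE G₁ G₂) * F.map C + C (wrE G₂ F) * G₁.map C + C (wrE F G₁) * G₂.map C

theorem natDegree_wr_le {a b : ℂ[X]} {n : ℕ} (ha : a.natDegree ≤ n) (hb : b.natDegree ≤ n) :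
    (wrE a b).natDegree ≤ 2 * n := by
  have h1 := natDegree_derivative_le a
  have h2 := natDegree_derivative_le b
  refine (natDegree_sub_le _ _).trans (max_le ?_ ?_) <;> refine natDegree_mul_le.trans ?_ <;> omega

theorem eval₂_map_C_X {K : Type} [Field K] (φ : ℂ[X] →+* K) (a : ℂ[X]) :
    (a.map C).eval₂ φ (φ X) = φ a := by
  rw [eval₂_at_apply, eval_map, eval₂_C_X]

section Gen

variable {n : ℕ} {F G₁ G₂ : ℂ[X]}

theorem gd_wr_ne (hi : ∀ a b : ℂ, C a * G₁ + C b * G₂ = 0 → a = 0 ∧ b = 0) : wrE G₁ G₂ ≠ 0 := by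
  intro h
  have h2 : G₂ ≠ 0 := fun h0 => one_ne_zero (hi 0 1 (by simp [h0])).2
  obtain ⟨c, hc⟩ := exists_C_mul_of_wr h2 (sub_eq_zero.1 h)
  exact one_ne_zero (hi 1 (-c) (by rw [hc]; simp)).1

theorem gd_not_comb (hm : F.Monic) (hF : F.natDegree = n) (h1 : G₁.natDegree < n)
    (h2 : G₂.natDegree < n) {a b c : ℂ} (h : C c * F = C a * G₁ + C b * G₂) : c = 0 := by
  have := congrArg (fun p => p.coeff n) h
  simp only [coeff_add, coeff_C_mul, coeff_eq_zero_of_natDegree_lt h1,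
    coeff_eq_zero_of_natDegree_lt h2] at this
  rw [← hF, hm.coeff_natDegree] at this
  simpa using this

theorem gd_wr3_ne (hm : F.Monic) (hF : F.natDegree = n) (h1 : G₁.natDegree < n)
    (h2 : G₂.natDegree < n) (hi : ∀ a b : ℂ, C a * G₁ + C b * G₂ = 0 → a = 0 ∧ b = 0) :
    wrE G₁ G₂ * derivative (derivative F) + wrE G₂ F * derivative (derivative G₁) +
      wrE F G₁ * derivative (derivative G₂) ≠ 0 := by
  intro h
  have hw := gd_wr_ne hi
  obtain ⟨c₁, e₁⟩ := exists_C_mul_of_wr (a := wrE G₂ F) hw (by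
    simp only [wrE, derivative_sub, derivative_mul] at h ⊢
    linear_combination -G₂ * h)
  obtain ⟨c₂, e₂⟩ := exists_C_mul_of_wr (a := wrE F G₁) hw (by
    simp only [wrE, derivative_sub, derivative_mul] at h ⊢
    linear_combination G₁ * h)
  have e : wrE G₁ G₂ * (F + C c₁ * G₁ + C c₂ * G₂) = 0 := by
    have : wrE G₁ G₂ * F + wrE G₂ F * G₁ + wrE F G₁ * G₂ = 0 := by simp only [wrE]; ring
    rw [e₁, e₂] at this
    linear_combination this
  have e' := (mul_eq_zero.1 e).resolve_left hw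
  refine one_ne_zero (gd_not_comb hm hF h1 h2 (a := -c₁) (b := -c₂) ?_)
  simp only [C_neg, C_1]
  linear_combination e'

theorem gd_pencil (hm : F.Monic) (hF : F.natDegree = n) (h1 : G₁.natDegree < n)
    (h2 : G₂.natDegree < n) (hi : ∀ a b : ℂ, C a * G₁ + C b * G₂ = 0 → a = 0 ∧ b = 0) (a b : ℂ)
    (h : C a * (-wrE F G₁) + C b * wrE G₂ F = 0) : a = 0 ∧ b = 0 := by
  obtain ⟨c, e⟩ := exists_C_mul_of_wr (a := C a * G₁ + C b * G₂) hm.ne_zero (by
    simp only [wrE, derivative_add, derivative_C_mul] at h ⊢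
    linear_combination h)
  rw [gd_not_comb hm hF h1 h2 e.symm, C_0, zero_mul] at e
  exact hi a b e

variable {K : Type} [Field K]

theorem Del_eval (φ : ℂ[X] →+* K) (ξ : K) : (Del F G₁ G₂).eval₂ φ ξ =
    φ (wrE G₁ G₂) * (F.map C).eval₂ φ ξ + φ (wrE G₂ F) * (G₁.map C).eval₂ φ ξ +
      φ (wrE F G₁) * (G₂.map C).eval₂ φ ξ := by
  simp only [Del, eval₂_add, eval₂_mul, eval₂_C]

theorem Del_root (φ : ℂ[X] →+* K) : (Del F G₁ G₂).eval₂ φ (φ X) = 0 ∧
    (derivative (Del F G₁ G₂)).eval₂ φ (φ X) = 0 ∧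
    (derivative (derivative (Del F G₁ G₂))).eval₂ φ (φ X) =
      φ (wrE G₁ G₂ * derivative (derivative F) + wrE G₂ F * derivative (derivative G₁) +
        wrE F G₁ * derivative (derivative G₂)) := by
  simp only [Del, derivative_add, derivative_C_mul, derivative_map, eval₂_add, eval₂_mul, eval₂_C,
    eval₂_map_C_X]
  simp only [wrE, map_add, map_sub, map_mul]
  exact ⟨by ring, by ring, trivial⟩

theorem Del_monic (hm : F.Monic) (hF : F.natDegree = n) (h1 : G₁.natDegree < n)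
    (h2 : G₂.natDegree < n) (φ : ℂ[X] →+* K) (hw : φ (wrE G₁ G₂) ≠ 0) :
    (C (φ (wrE G₁ G₂))⁻¹ * (Del F G₁ G₂).map φ).Monic ∧
      (C (φ (wrE G₁ G₂))⁻¹ * (Del F G₁ G₂).map φ).natDegree = n := by
  have hd : (Del F G₁ G₂).natDegree ≤ n := by
    refine (natDegree_add_le _ _).trans (max_le ((natDegree_add_le _ _).trans (max_le ?_ ?_)) ?_) <;>
      refine (natDegree_C_mul_le _ _).trans (natDegree_map_le.trans ?_) <;> omega
  have hd' := (natDegree_C_mul_le (φ (wrE G₁ G₂))⁻¹ _).trans ((natDegree_map_le (f := φ)).trans hd)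
  have hc : (C (φ (wrE G₁ G₂))⁻¹ * (Del F G₁ G₂).map φ).coeff n = 1 := by
    have : F.coeff n = 1 := hF ▸ hm.coeff_natDegree
    simp [Del, coeff_eq_zero_of_natDegree_lt h1, coeff_eq_zero_of_natDegree_lt h2, this, hw]
  exact ⟨monic_of_natDegree_le_of_coeff_eq_one n hd' hc,
    natDegree_eq_of_le_of_coeff_ne_zero hd' (by rw [hc]; exact one_ne_zero)⟩

/-- a common root over the function field survives at a root of `F` -/
theorem gd_special (hn : 2 ≤ n) (hm : F.Monic) (hF : F.natDegree = n) (h1 : G₁.natDegree < n)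
    (h2 : G₂.natDegree < n) (φ : ℂ[X] →+* K) (hφ : Function.Injective φ) {ξ : K} (hξ : ξ ≠ φ X)
    (e1 : φ G₁ * (F.map C).eval₂ φ ξ = φ F * (G₁.map C).eval₂ φ ξ)
    (e2 : φ G₂ * (G₁.map C).eval₂ φ ξ = φ G₁ * (G₂.map C).eval₂ φ ξ)
    {θ : ℂ} (hθ : F.eval θ = 0) (hθ' : (derivative F).eval θ ≠ 0) (hG : G₁.eval θ ≠ 0) :
    ∃ z : ℂ, z ≠ θ ∧ F.eval z = 0 ∧ G₂.eval θ * G₁.eval z = G₁.eval θ * G₂.eval z := by
  have hdvd : X - C X ∣ (C G₁ * F.map C - C F * G₁.map C : ℂ[X][X]) := by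
    rw [dvd_iff_isRoot, IsRoot.def]
    simp only [eval_sub, eval_mul, eval_C, eval_map, eval₂_C_X]
    ring
  obtain ⟨U, hU⟩ := hdvd
  set V : ℂ[X][X] := C G₂ * G₁.map C - C G₁ * G₂.map C with hV
  have hVd : V.natDegree ≤ n - 1 := by
    refine (natDegree_sub_le _ _).trans (max_le ?_ ?_) <;>
      refine (natDegree_C_mul_le _ _).trans (natDegree_map_le.trans ?_) <;> omega
  have hUd : U.natDegree ≤ n - 1 := by
    rcases eq_or_ne U 0 with rfl | hU0
    · simp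
    have h3 : ((X - C X) * U).natDegree ≤ n := by
      rw [← hU]
      refine (natDegree_sub_le _ _).trans (max_le ?_ ?_) <;>
        refine (natDegree_C_mul_le _ _).trans (natDegree_map_le.trans ?_) <;> omega
    rw [(monic_X_sub_C _).natDegree_mul' hU0, natDegree_X_sub_C] at h3
    omega
  have hU0 : U.eval₂ φ ξ = 0 := by
    have := congrArg (eval₂ φ ξ) hU
    simp only [eval₂_sub, eval₂_mul, eval₂_C, eval₂_X, e1, sub_self] at this
    exact (mul_eq_zero.1 this.symm).resolve_left (sub_ne_zero.2 hξ)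
  have hV0 : V.eval₂ φ ξ = 0 := by
    simp only [hV, eval₂_sub, eval₂_mul, eval₂_C, e2, sub_self]
  obtain ⟨p, q, -, -, e⟩ := exists_mul_add_mul_eq_C_resultant U V hUd hVd (Or.inl (by omega))
  have hR : resultant U V (n - 1) (n - 1) = 0 := by
    have := congrArg (eval₂ φ ξ) e
    simp only [eval₂_add, eval₂_mul, hU0, hV0, zero_mul, add_zero, eval₂_C] at this
    exact hφ (this.symm.trans φ.map_zero.symm)
  have hmap : ∀ a : ℂ[X], (a.map C).map (evalRingHom θ) = a := fun a => by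
    ext i; simp
  have hUθ : (X - C θ) * U.map (evalRingHom θ) = C (G₁.eval θ) * F := by
    have := congrArg (map (evalRingHom θ)) hU
    simp only [Polynomial.map_sub, Polynomial.map_mul, map_C, hmap, map_X, coe_evalRingHom, hθ,
      eval_X, C_0, zero_mul, sub_zero] at this
    exact this.symm
  have hVθ : V.map (evalRingHom θ) = C (G₂.eval θ) * G₁ - C (G₁.eval θ) * G₂ := by
    simp only [hV, Polynomial.map_sub, Polynomial.map_mul, map_C, hmap, coe_evalRingHom]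
  set u := U.map (evalRingHom θ) with hu
  have hu0 : u ≠ 0 := fun h => by
    rw [h, mul_zero] at hUθ
    exact mul_ne_zero (C_ne_zero.2 hG) hm.ne_zero hUθ.symm
  have hud : u.natDegree = n - 1 := by
    have := congrArg natDegree hUθ
    rw [(monic_X_sub_C _).natDegree_mul' hu0, natDegree_X_sub_C, natDegree_C_mul hG, hF] at this
    omega
  have hR' := resultant_eq_prod_eval u (V.map (evalRingHom θ)) (n - 1)
    (natDegree_map_le.trans hVd) (IsAlgClosed.splits u)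
  rw [hud, hu, resultant_map_map, hR, map_zero, ← hu] at hR'
  have hz := (mul_eq_zero.1 hR'.symm).resolve_left (pow_ne_zero _ (leadingCoeff_ne_zero.2 hu0))
  obtain ⟨z, hz1, hz2⟩ := Multiset.mem_map.1 (Multiset.prod_eq_zero_iff.1 hz)
  have hz3 : u.eval z = 0 := (mem_roots hu0).1 hz1
  refine ⟨z, ?_, ?_, ?_⟩
  · rintro rfl
    have := congrArg (fun p => (derivative p).eval z) hUθ
    simp [hz3, hG, hθ'] at this
  · have := congrArg (eval z) hUθ
    simpa [hz3, hG] using this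
  · rw [hVθ] at hz2
    simpa [sub_eq_zero] using hz2

theorem gd_generic [IsAlgClosed K] [CharZero K] (hn : 2 ≤ n) (hm : F.Monic) (hF : F.natDegree = n)
    (h1 : G₁.natDegree < n) (h2 : G₂.natDegree < n)
    (hi : ∀ a b : ℂ, C a * G₁ + C b * G₂ = 0 → a = 0 ∧ b = 0)
    (φ : ℂ[X] →+* K) (hφ : Function.Injective φ)
    {θ : ℂ} (hθ : F.eval θ = 0) (hθ' : (derivative F).eval θ ≠ 0) (hG : G₁.eval θ ≠ 0)
    (hsep : ∀ z : ℂ, F.eval z = 0 → G₂.eval θ * G₁.eval z = G₁.eval θ * G₂.eval z → z = θ) :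
    Phi n 0 (C (φ (wrE G₁ G₂))⁻¹ * (Del F G₁ G₂).map φ) ≠ 0 := by
  have hφ0 : ∀ a : ℂ[X], a ≠ 0 → φ a ≠ 0 := fun a ha h => ha (hφ (h.trans φ.map_zero.symm))
  have hw := hφ0 _ (gd_wr_ne hi)
  have hw3 := hφ0 _ (gd_wr3_ne hm hF h1 h2 hi)
  obtain ⟨hM, hd⟩ := Del_monic hm hF h1 h2 φ hw
  obtain ⟨r0, r1, r2⟩ := Del_root (F := F) (G₁ := G₁) (G₂ := G₂) φ
  set P := C (φ (wrE G₁ G₂))⁻¹ * (Del F G₁ G₂).map φ with hP
  have hi0 : (φ (wrE G₁ G₂))⁻¹ ≠ 0 := inv_ne_zero hw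
  have v0 : ∀ ξ, P.eval ξ = (φ (wrE G₁ G₂))⁻¹ * (Del F G₁ G₂).eval₂ φ ξ := fun ξ => by
    rw [hP, eval_mul, eval_C, eval_map]
  have v1 : ∀ ξ, (derivative P).eval ξ =
      (φ (wrE G₁ G₂))⁻¹ * (derivative (Del F G₁ G₂)).eval₂ φ ξ := fun ξ => by
    rw [hP, derivative_C_mul, derivative_map, eval_mul, eval_C, eval_map]
  have v2 : (derivative (derivative P)).eval (φ X) ≠ 0 := by
    rw [hP, derivative_C_mul, derivative_C_mul, derivative_map, derivative_map, eval_mul, eval_C,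
      eval_map, r2]
    exact mul_ne_zero hi0 hw3
  obtain ⟨Q, hQ⟩ : X - C (φ X) ∣ P := dvd_iff_isRoot.2 (by rw [IsRoot.def, v0, r0, mul_zero])
  obtain ⟨G, hG'⟩ : X - C (φ X) ∣ Q := dvd_iff_isRoot.2 (by
    have := v1 (φ X)
    rw [r1, mul_zero, hQ] at this
    simpa using this)
  have hPG : P = (X - C (φ X)) ^ 2 * G := by rw [hQ, hG']; ring
  have hGm : G.Monic := ((monic_X_sub_C _).pow 2).of_mul_monic_left (hPG ▸ hM)
  have hGd : n = G.natDegree + 2 := by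
    rw [← hd, hPG, ((monic_X_sub_C _).pow 2).natDegree_mul hGm, natDegree_pow, natDegree_X_sub_C]
    omega
  have hGr : G.eval (φ X) ≠ 0 := fun h => v2 (by rw [hPG]; simp [derivative_pow, h])
  rw [hPG, hGd, Phi_double 0 _ G hGm rfl]
  refine mul_ne_zero (mul_ne_zero (by simp) (pow_ne_zero _ hGr)) fun hD => ?_
  obtain ⟨ξ, x0, x1⟩ := (Dv_eq_zero_iff_double G hGm rfl).1 hD
  have hξ : ξ ≠ φ X := fun h => hGr (h ▸ x0)
  have y0 : (Del F G₁ G₂).eval₂ φ ξ = 0 := by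
    have := v0 ξ
    rw [hPG, eval_mul, x0, mul_zero] at this
    exact (mul_eq_zero.1 this.symm).resolve_left hi0
  have y1 : (derivative (Del F G₁ G₂)).eval₂ φ ξ = 0 := by
    have := v1 ξ
    rw [hPG, derivative_mul, eval_add, eval_mul, eval_mul, x0, x1, mul_zero, mul_zero,
      add_zero] at this
    exact (mul_eq_zero.1 this.symm).resolve_left hi0
  have y2 := env φ hφ ξ _ (fun h => hM.ne_zero (by rw [hP, h]; simp)) y0 y1
  rw [Del_eval] at y0
  rw [Del, map_add, map_add, dr_C_mul_map, dr_C_mul_map, dr_C_mul_map] at y2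
  simp only [eval₂_add, eval₂_mul, eval₂_C] at y2
  simp only [wrE, derivative_mul, map_add, map_sub, map_mul] at y0 y2 hw3
  obtain ⟨z, hz, z0, z1⟩ := gd_special hn hm hF h1 h2 φ hφ hξ
    (mul_left_cancel₀ hw3 (by
      linear_combination (φ F * φ (derivative (derivative G₁)) -
        φ (derivative (derivative F)) * φ G₁) * (-y0) +
        (φ F * φ (derivative G₁) - φ (derivative F) * φ G₁) * y2))
    (mul_left_cancel₀ hw3 (by
      linear_combination (φ G₁ * φ (derivative (derivative G₂)) -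
        φ (derivative (derivative G₁)) * φ G₂) * (-y0) +
        (φ G₁ * φ (derivative G₂) - φ (derivative G₁) * φ G₂) * y2)) hθ hθ' hG
  exact hz (hsep z z0 z1)

end Gen

theorem prim_sep {f g₁ g₂ : ℤ[X]} (hi : Irr f) (hp : Prim f) (h1 : g₁.natDegree < f.natDegree)
    (h2 : g₂.natDegree < f.natDegree) (hm : f.Monic) (hI : Indep g₁ g₂) {θ : ℂ}
    (hθ : (up ℂ f).eval θ = 0) : (up ℂ g₁).eval θ ≠ 0 ∧ ∀ z : ℂ, (up ℂ f).eval z = 0 →
      (up ℂ g₂).eval θ * (up ℂ g₁).eval z = (up ℂ g₁).eval θ * (up ℂ g₂).eval z → z = θ := by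
  have ev' : ∀ (g : ℤ[X]) (z : ℂ), aeval z g = (up ℂ g).eval z := fun g z =>
    (eval_map_algebraMap g z).symm
  have ev : ∀ (g : ℤ[X]) (z : ℂ), aeval z (up ℚ g) = (up ℂ g).eval z := fun g z =>
    (aeval_map_algebraMap ℚ z g).trans (ev' g z)
  have hinj : Function.Injective (Int.castRingHom ℚ) := Int.cast_injective
  have hdeg : ∀ g : ℤ[X], (up ℚ g).natDegree = g.natDegree := natDegree_map_eq_of_injective hinj
  have hg1 : g₁ ≠ 0 := fun h0 => one_ne_zero (hI 1 0 (by simp [h0])).1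
  have hnd : ¬ up ℚ f ∣ up ℚ g₁ := fun h => by
    have := natDegree_le_of_dvd h ((Polynomial.map_ne_zero_iff hinj).2 hg1)
    rw [hdeg, hdeg] at this
    omega
  obtain ⟨a, b, hab⟩ := (Irreducible.coprime_iff_not_dvd hi).2 hnd
  have hb : ∀ z : ℂ, (up ℂ f).eval z = 0 → aeval z b * (up ℂ g₁).eval z = 1 := fun z hz => by
    have := congrArg (aeval z) hab
    rwa [map_add, map_mul, map_mul, ev, ev, hz, mul_zero, zero_add, map_one] at this
  refine ⟨right_ne_zero_of_mul_eq_one (hb θ hθ), fun z hz e => ?_⟩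
  have hM : (up ℚ f).Monic := hm.map _
  set q := (b * up ℚ g₂) %ₘ up ℚ f with hq
  have hqz : ∀ z : ℂ, (up ℂ f).eval z = 0 → aeval z q = aeval z b * (up ℂ g₂).eval z :=
    fun z hz => by rw [hq, aeval_modByMonic_eq_self_of_root (by rw [ev, hz]), map_mul, ev]
  have hq1 : q.natDegree < f.natDegree := by
    rw [← hdeg f]
    exact natDegree_modByMonic_lt _ hM fun h => hi.not_isUnit (h ▸ isUnit_one)
  by_cases hq0 : 0 < q.natDegree
  · refine hp q hq0 hq1 z θ (by rw [ev', hz]) (by rw [ev', hθ]) ?_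
    rw [hqz z hz, hqz θ hθ]
    linear_combination (aeval θ b * (up ℂ g₂).eval θ) * hb z hz -
      (aeval z b * (up ℂ g₂).eval z) * hb θ hθ - aeval z b * aeval θ b * e
  exfalso
  obtain ⟨c, hc⟩ : ∃ c, q = C c := ⟨_, eq_C_of_natDegree_eq_zero (Nat.eq_zero_of_not_pos hq0)⟩
  have hroot : aeval θ (C c * up ℚ g₁ - up ℚ g₂) = 0 := by
    rw [← hc, map_sub, map_mul, hqz θ hθ, ev, ev]
    linear_combination (up ℂ g₂).eval θ * hb θ hθ
  have h0 : C c * up ℚ g₁ - up ℚ g₂ = 0 := by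
    refine eq_zero_of_dvd_of_natDegree_lt (hi.dvd_of_root (by rw [ev, hθ]) hroot) ?_
    refine (natDegree_sub_le _ _).trans_lt (max_lt ((natDegree_C_mul_le _ _).trans_lt ?_) ?_) <;>
      rw [hdeg, hdeg] <;> assumption
  have h3 := congrArg (map (algebraMap ℚ ℂ)) h0
  have hup : ∀ g : ℤ[X], (up ℚ g).map (algebraMap ℚ ℂ) = up ℂ g := fun g => by
    rw [map_map, RingHom.ext_int (RingHom.comp _ _) (Int.castRingHom ℂ)]
  rw [Polynomial.map_sub, Polynomial.map_mul, map_C, hup, hup, Polynomial.map_zero] at h3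
  exact one_ne_zero (neg_eq_zero.1 (hI.complex (algebraMap ℚ ℂ c) (-1)
    (by rw [← h3]; simp [sub_eq_add_neg])).2)

/-- ED -/
theorem exists_good' (n : ℕ) (hn : 5 ≤ n) : ∃ K : ℕ, ∀ f g₁ g₂ : ℤ[X], f.Monic → f.natDegree = n →
    Irr f → Prim f → g₁.natDegree < n → g₂.natDegree < n → Indep g₁ g₂ →
    ∃ c : ℕ, c ≤ K ∧ Good n f (g₁ + C (c : ℤ) * g₂) := by
  obtain ⟨N, hN⟩ := clear_den (phiP n 0)
  refine ⟨N * (2 * n) + 2 * n + 1, fun f g₁ g₂ hm hf hi hp h1 h2 hI => ?_⟩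
  have hM : (up ℂ f).Monic := hm.map _
  have hF : (up ℂ f).natDegree = n := by rw [hm.natDegree_map, hf]
  have d1 : (up ℂ g₁).natDegree < n := natDegree_map_le.trans_lt h1
  have d2 : (up ℂ g₂).natDegree < n := natDegree_map_le.trans_lt h2
  obtain ⟨θ, hθ⟩ := IsAlgClosed.exists_root (up ℂ f) (by
    rw [degree_eq_natDegree hM.ne_zero, hF]; exact_mod_cast (by omega : n ≠ 0))
  have hθ' : (derivative (up ℂ f)).eval θ ≠ 0 := fun h => hi.Dv_ne_zero hm hf (by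
    have := (Dv_eq_zero_iff_double _ hM hF).2 ⟨θ, hθ, h⟩
    rw [Dv_map] at this
    exact Int.cast_eq_zero.1 this)
  obtain ⟨hG, hsep⟩ := prim_sep hi hp (hf ▸ h1) (hf ▸ h2) hm hI hθ
  have hIc := hI.complex
  generalize hF' : up ℂ f = F at *
  generalize hG₁ : up ℂ g₁ = G₁ at *
  generalize hG₂ : up ℂ g₂ = G₂ at *
  have hwd := natDegree_wr_le d1.le d2.le
  obtain ⟨T, hT, eT⟩ := hN (2 * n) (wrE G₁ G₂) (fun i : Fin n => (Del F G₁ G₂).coeff i) hwd
    fun i => by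
      simp only [Del, coeff_add, coeff_C_mul, coeff_map]
      refine (natDegree_add_le _ _).trans (max_le ((natDegree_add_le _ _).trans
        (max_le ?_ ?_)) ?_) <;> refine (natDegree_mul_C_le _ _).trans ?_
      exacts [hwd, natDegree_wr_le d2.le hF.le, natDegree_wr_le hF.le d1.le]
  have eT' : ∀ (K : Type) [Field K] (φ : ℂ[X] →+* K), φ (wrE G₁ G₂) ≠ 0 →
      φ T = φ (wrE G₁ G₂) ^ N * Phi n 0 (C (φ (wrE G₁ G₂))⁻¹ * (Del F G₁ G₂).map φ) :=
    fun K _ φ h => by rw [eT K φ h, Phi]; simp only [coeff_C_mul, coeff_map]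
  have hT0 : T ≠ 0 := by
    let φ := (algebraMap (FractionRing ℂ[X]) (AlgebraicClosure (FractionRing ℂ[X]))).comp
      (algebraMap ℂ[X] (FractionRing ℂ[X]))
    have hφ : Function.Injective φ := fun x y h =>
      IsFractionRing.injective ℂ[X] (FractionRing ℂ[X]) ((algebraMap (FractionRing ℂ[X])
        (AlgebraicClosure (FractionRing ℂ[X]))).injective h)
    have hw : φ (wrE G₁ G₂) ≠ 0 := fun h => gd_wr_ne hIc (hφ (h.trans φ.map_zero.symm))
    intro h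
    have := eT' _ φ hw
    rw [h, map_zero] at this
    exact mul_ne_zero (pow_ne_zero _ hw)
      (gd_generic (by omega) hM hF d1 d2 hIc φ hφ hθ hθ' hG hsep) this.symm
  obtain ⟨c, hc, r, e, hr⟩ := pencil (gd_pencil hM hF d1 d2 hIc) (mul_ne_zero hT0 (gd_wr_ne hIc))
    (natDegree_mul_le.trans (add_le_add hT hwd))
  rw [eval_mul] at hr
  have hw : evalRingHom r (wrE G₁ G₂) ≠ 0 := right_ne_zero_of_mul hr
  have hPhi : Phi n 0 (C (evalRingHom r (wrE G₁ G₂))⁻¹ * (Del F G₁ G₂).map (evalRingHom r)) ≠ 0 :=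
    fun h => left_ne_zero_of_mul hr ((eT' _ _ hw).trans (by rw [h, mul_zero]))
  obtain ⟨m1, m2⟩ := Del_monic hM hF d1 d2 _ hw
  obtain ⟨r0, r1, -⟩ := Del_root (F := F) (G₁ := G₁) (G₂ := G₂) (evalRingHom r)
  have hDv := (Dv_eq_zero_iff_double _ m1 m2).2 ⟨evalRingHom r X,
    by rw [eval_mul, eval_map, r0, mul_zero],
    by rw [derivative_C_mul, derivative_map, eval_mul, eval_map, r1, mul_zero]⟩
  have hmap : ∀ a : ℂ[X], (a.map C).map (evalRingHom r) = a := fun a => by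
    ext i; simp
  have key : C (evalRingHom r (wrE G₁ G₂))⁻¹ * (Del F G₁ G₂).map (evalRingHom r) =
      up ℂ f + C (((wrE G₁ G₂).eval r)⁻¹ * (wrE G₂ F).eval r) * up ℂ (g₁ + C (c : ℤ) * g₂) := by
    have e' : (wrE F G₁).eval r = c * (wrE G₂ F).eval r := by
      rw [eval_neg] at e; linear_combination -e
    have e2 : C ((wrE G₁ G₂).eval r)⁻¹ * C ((wrE G₁ G₂).eval r) = 1 := by
      rw [← C_mul, inv_mul_cancel₀ (right_ne_zero_of_mul hr), C_1]
    simp only [Del, Polynomial.map_add, Polynomial.map_mul, map_C, hmap, coe_evalRingHom, e',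
      C_mul, hF', hG₁, hG₂, map_natCast, Polynomial.map_natCast]
    linear_combination F * e2
  rw [key] at hDv hPhi
  exact ⟨c, hc, _, hDv, hPhi⟩

end Pool.Agent.VW
end

-- part Pool.Agent.P.MP_b0ea37_nt.WEsim
section

namespace Pool.Agent.VW

open Polynomial

theorem wesim_prod {R : Type} [CommRing R] [Nontrivial R] {m : ℕ} (hm : 1 ≤ m) (ρ e : R)
    (B : R[X]) (hd : B.natDegree = m) :
    Dv (m + 2) (((X - C ρ) ^ 2 + C e) * B) =
      4 * e * resultant ((X - C ρ) ^ 2 + C e) B 2 m *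
        resultant B (derivative (((X - C ρ) ^ 2 + C e) * B)) m (m + 1) := by
  set A : R[X] := (X - C ρ) ^ 2 + C e with hA
  have hA2 : A.natDegree = 2 := by
    rw [hA, natDegree_add_C, (monic_X_sub_C ρ).natDegree_pow, natDegree_X_sub_C]
  have hAB : (A * B).natDegree ≤ m + 2 := by
    refine natDegree_mul_le.trans ?_
    rw [hA2, hd]; omega
  have hH : (derivative (A * B)).natDegree ≤ m + 1 := by
    have := natDegree_derivative_le (A * B)
    omega
  have h1 := resultant_mul_left A B (derivative (A * B)) (m + 1) hH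
  rw [hA2, hd, add_comm 2 m] at h1
  have hB' : (derivative B).natDegree + 2 ≤ m + 1 := by
    have := natDegree_derivative_le B
    omega
  have hder : derivative (A * B) = C 2 * ((X - C ρ) * B) + A * derivative B := by
    rw [derivative_mul, hA]
    simp only [derivative_add, derivative_C, derivative_X_sub_C_sq, add_zero]
    rw [mul_assoc]
  have h2 : resultant A (derivative (A * B)) 2 (m + 1) = 4 * e * resultant A B 2 m := by
    rw [hder, resultant_add_mul_right _ _ _ _ _ hB' hA2.le, resultant_C_mul_right]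
    have h3 := resultant_mul_right A (X - C ρ) B 2 hA2.le
    rw [natDegree_X_sub_C, hd, add_comm 1 m] at h3
    rw [h3, resultant_X_sub_C_right _ _ _ hA2.le]
    have h4 : eval ρ A = e := by simp [hA]
    rw [h4]; ring
  show resultant (A * B) (derivative (A * B)) (m + 2) (m + 1) = _
  rw [h1, h2]

theorem wesim_res {m : ℕ} (hm : 1 ≤ m) (r : ℂ) (G : ℂ[X]) (hd : G.natDegree = m) :
    resultant G (derivative ((X - C r) ^ 2 * G)) m (m + 1) = G.eval r ^ 2 * Dv m G := by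
  have hder : derivative ((X - C r) ^ 2 * G) =
      (X - C r) ^ 2 * derivative G + G * (C 2 * (X - C r)) := by
    rw [derivative_mul, derivative_X_sub_C_sq]; ring
  have hp : (C 2 * (X - C r) : ℂ[X]).natDegree + m ≤ m + 1 := by
    have := natDegree_C_mul_le (2 : ℂ) (X - C r)
    rw [natDegree_X_sub_C] at this
    omega
  rw [hder, resultant_add_mul_right _ _ _ _ _ hp hd.le]
  have h3 := resultant_mul_right G ((X - C r) ^ 2) (derivative G) m hd.le
  rw [(monic_X_sub_C r).natDegree_pow, natDegree_X_sub_C, natDegree_derivative, hd,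
    show 2 * 1 + (m - 1) = m + 1 by omega, mul_one] at h3
  rw [h3, resultant_X_sub_C_pow_right _ _ _ _ hd.le, mul_comm m 2, pow_mul]
  simp [Dv]

/-- first order splitting of a perturbation -/
theorem wesim_split {m : ℕ} (hm : 1 ≤ m) (r : ℂ) (G g : ℂ[X]) (hd : G.natDegree = m)
    (hr : G.eval r ≠ 0) (hg : g.natDegree < m + 2) :
    ∃ (s : ℂ) (c : ℂ[X]), c.natDegree < m ∧
      g = (C (g.eval r / G.eval r) - C 2 * C s * (X - C r)) * G + (X - C r) ^ 2 * c := by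
  set b := g.eval r / G.eval r with hb
  obtain ⟨h, hh⟩ : (X - C r) ∣ g - C b * G := by
    rw [dvd_iff_isRoot]
    simp only [IsRoot, eval_sub, eval_mul, eval_C, hb]
    field_simp
    ring
  obtain ⟨c, hc⟩ : (X - C r) ∣ h + C 2 * C (-(h.eval r / G.eval r) / 2) * G := by
    rw [dvd_iff_isRoot]
    simp only [IsRoot, eval_add, eval_mul, eval_C]
    field_simp
    ring
  set s := -(h.eval r / G.eval r) / 2 with hs
  have key : (X - C r) ^ 2 * c = g - (C b - C 2 * C s * (X - C r)) * G := by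
    have : g = C b * G + (X - C r) * h := by rw [← hh]; ring
    rw [this, pow_two, mul_assoc, ← hc]; ring
  refine ⟨s, c, ?_, by rw [key]; ring⟩
  by_cases hc0 : c = 0
  · rw [hc0, natDegree_zero]; omega
  have h1 : ((X - C r) ^ 2 * c).natDegree = 2 + c.natDegree := by
    rw [((monic_X_sub_C r).pow 2).natDegree_mul' hc0, (monic_X_sub_C r).natDegree_pow,
      natDegree_X_sub_C]
  have h2 : (C b - C 2 * C s * (X - C r) : ℂ[X]).natDegree ≤ 1 := by compute_degree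
  have h3 : ((C b - C 2 * C s * (X - C r)) * G).natDegree ≤ m + 1 := by
    refine natDegree_mul_le.trans ?_
    omega
  have h4 : (g - (C b - C 2 * C s * (X - C r)) * G).natDegree ≤ m + 1 :=
    (natDegree_sub_le _ _).trans (max_le (by omega) h3)
  rw [← key, h1] at h4
  omega

theorem wesim_dual {R : Type} [CommRing R] [Nontrivial R] (ι : ℂ →+* R) (π : R →+* ℂ) (e : R)
    (he : e * e = 0) (hπ : ∀ z, π (ι z) = z) (hπe : π e = 0) (hx : ∀ x, e * x = 0 → π x = 0)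
    {m : ℕ} (hm : 1 ≤ m) (r : ℂ) (G g : ℂ[X]) (hG : G.Monic) (hd : G.natDegree = m)
    (hr : G.eval r ≠ 0) (hD : Dv m G ≠ 0) (hg : g.natDegree < m + 2) (hgr : g.eval r ≠ 0) :
    Dv (m + 2) (((X - C r) ^ 2 * G).map ι + C e * g.map ι) ≠ 0 := by
  obtain ⟨s, c, hc, hsp⟩ := wesim_split hm r G g hd hr hg
  set b := g.eval r / G.eval r with hb
  have hb0 : b ≠ 0 := div_ne_zero hgr hr
  have hd' : (G.map ι).natDegree = m := by rw [hG.natDegree_map, hd]
  have hlt : (C e * c.map ι).natDegree < (G.map ι).natDegree := by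
    rw [hd']
    exact lt_of_le_of_lt ((natDegree_C_mul_le _ _).trans natDegree_map_le) hc
  have hBd : (G.map ι + C e * c.map ι).natDegree = m := by
    rw [natDegree_add_eq_left_of_natDegree_lt hlt, hd']
  have hCe : (C e * C e : R[X]) = 0 := by rw [← C_mul, he, C_0]
  have hfac : ((X - C r) ^ 2 * G).map ι + C e * g.map ι =
      ((X - C (ι r + e * ι s)) ^ 2 + C (e * ι b)) * (G.map ι + C e * c.map ι) := by
    have h2 : (C (ι 2) : R[X]) = 2 := by rw [map_ofNat, map_ofNat]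
    conv_lhs => rw [hsp]
    simp only [Polynomial.map_add, Polynomial.map_mul, Polynomial.map_pow, Polynomial.map_sub,
      map_X, map_C, C_add, C_mul, h2]
    linear_combination (-(C (ι s) ^ 2 * (map ι G + C e * map ι c)) -
      (C (ι b) - 2 * C (ι s) * (X - C (ι r))) * map ι c) * hCe
  have hcomp : π.comp ι = RingHom.id ℂ := RingHom.ext hπ
  have hA : ((X - C (ι r + e * ι s)) ^ 2 + C (e * ι b) : R[X]).map π = (X - C r) ^ 2 := by
    simp [hπ, hπe]
  have hBm : (G.map ι + C e * c.map ι).map π = G := by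
    simp [Polynomial.map_map, hcomp, hπe]
  rw [hfac, wesim_prod hm _ _ _ hBd]
  intro h0
  have h1 := hx (4 * ι b * resultant ((X - C (ι r + e * ι s)) ^ 2 + C (e * ι b))
      (G.map ι + C e * c.map ι) 2 m * resultant (G.map ι + C e * c.map ι)
      (derivative (((X - C (ι r + e * ι s)) ^ 2 + C (e * ι b)) * (G.map ι + C e * c.map ι)))
      m (m + 1)) (by rw [← h0]; ring)
  rw [map_mul, map_mul, map_mul, ← resultant_map_map, ← resultant_map_map, ← derivative_map,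
    Polynomial.map_mul, hA, hBm, wesim_res hm r G hd,
    resultant_X_sub_C_pow_left _ _ _ _ hd.le, hπ, map_ofNat] at h1
  exact mul_ne_zero (mul_ne_zero (mul_ne_zero (by norm_num) hb0) (pow_ne_zero 2 hr))
    (mul_ne_zero (pow_ne_zero 2 hr) hD) h1

theorem wesim_mult {n : ℕ} (F g : ℂ[X]) (τ : ℂ) (h0 : Dv n (F + C τ * g) = 0)
    (h1 : Dv n ((F + C τ * g).map (algebraMap ℂ (DualNumber ℂ)) +
      C DualNumber.eps * g.map (algebraMap ℂ (DualNumber ℂ))) ≠ 0) :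
    rootMultiplicity τ (Dv n (F.map C + C X * g.map C)) = 1 := by
  set P : ℂ[X] := Dv n (F.map C + C X * g.map C) with hP
  have e0 : P.eval τ = 0 := by
    have := Dv_map (evalRingHom τ) n (F.map C + C X * g.map C)
    rw [← hP, coe_evalRingHom] at this
    rw [← this, ← h0]
    have hc : (evalRingHom τ).comp C = RingHom.id ℂ := RingHom.ext fun z => by simp
    simp [Polynomial.map_map, hc]
  have e1 : (derivative P).eval τ ≠ 0 := by
    intro hd
    apply h1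
    have := Dv_map (aeval (algebraMap ℂ (DualNumber ℂ) τ + DualNumber.eps)).toRingHom n
      (F.map C + C X * g.map C)
    rw [← hP] at this
    have hc : (aeval (algebraMap ℂ (DualNumber ℂ) τ + DualNumber.eps)).toRingHom.comp C =
        algebraMap ℂ (DualNumber ℂ) := RingHom.ext fun z => by simp
    have h2 : (F.map C + C X * g.map C).map
        (aeval (algebraMap ℂ (DualNumber ℂ) τ + DualNumber.eps)).toRingHom =
        (F + C τ * g).map (algebraMap ℂ (DualNumber ℂ)) +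
          C DualNumber.eps * g.map (algebraMap ℂ (DualNumber ℂ)) := by
      rw [Polynomial.map_add, Polynomial.map_mul, Polynomial.map_map, Polynomial.map_map, hc,
        map_C, Polynomial.map_add, Polynomial.map_mul, map_C]
      simp only [AlgHom.toRingHom_eq_coe, RingHom.coe_coe, aeval_X, C_add]
      ring
    rw [← h2, this]
    simp only [AlgHom.toRingHom_eq_coe, RingHom.coe_coe]
    rw [aeval_add_of_sq_eq_zero _ _ _ DualNumber.eps_pow_two, aeval_algebraMap_apply,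
      aeval_algebraMap_apply, coe_aeval_eq_eval, e0, hd]
    simp
  have hP0 : P ≠ 0 := by
    intro h
    rw [h] at e1
    simp at e1
  have a1 : 0 < rootMultiplicity τ P := (rootMultiplicity_pos hP0).2 e0
  have a2 : ¬ 1 < rootMultiplicity τ P := fun h =>
    e1 ((one_lt_rootMultiplicity_iff_isRoot hP0).1 h).2
  omega

/-- SIMPLE: the discriminant along a good line has a simple zero -/
theorem good_simple {n : ℕ} (hn : 5 ≤ n) {f g : ℤ[X]} (hm : f.Monic) (hf : f.natDegree = n)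
    (hi : Irr f) (hg : g.natDegree < n) (h : Good n f g) :
    ∃ τ : ℂ, rootMultiplicity τ (Dv n ((up ℂ f).map C + C X * (up ℂ g).map C)) = 1 ∧
      Phi n 0 (up ℂ f + C τ * up ℂ g) ≠ 0 := by
  obtain ⟨τ, hD, hP⟩ := h
  refine ⟨τ, ?_, hP⟩
  obtain ⟨m, rfl⟩ : ∃ m, n = m + 2 := ⟨n - 2, by omega⟩
  have hF : (up ℂ f).Monic := hm.map _
  have hFd : (up ℂ f).natDegree = m + 2 := by rw [hm.natDegree_map, hf]
  have hgd : (up ℂ g).natDegree < m + 2 := lt_of_le_of_lt natDegree_map_le hg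
  have hlt : (C τ * up ℂ g).natDegree < (up ℂ f).natDegree := by
    rw [hFd]; exact lt_of_le_of_lt (natDegree_C_mul_le _ _) hgd
  have hT : (up ℂ f + C τ * up ℂ g).Monic := hF.add_of_left (degree_lt_degree hlt)
  have hTd : (up ℂ f + C τ * up ℂ g).natDegree = m + 2 := by
    rw [natDegree_add_eq_left_of_natDegree_lt hlt, hFd]
  obtain ⟨r, hr0, hr1⟩ := (Dv_eq_zero_iff_double _ hT hTd).1 hD
  obtain ⟨G, hG⟩ : (X - C r) ^ 2 ∣ up ℂ f + C τ * up ℂ g :=
    (pow_dvd_pow _ ((one_lt_rootMultiplicity_iff_isRoot hT.ne_zero).2 ⟨hr0, hr1⟩)).trans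
      (pow_rootMultiplicity_dvd _ r)
  have hGm : G.Monic := ((monic_X_sub_C r).pow 2).of_mul_monic_left (hG ▸ hT)
  have hGd : G.natDegree = m := by
    rw [hG, ((monic_X_sub_C r).pow 2).natDegree_mul hGm, (monic_X_sub_C r).natDegree_pow,
      natDegree_X_sub_C] at hTd
    omega
  have hP' := hP
  rw [hG, Phi_double 0 r G hGm hGd] at hP'
  have hr : G.eval r ≠ 0 := fun h0 => hP' (by rw [h0]; ring)
  have hDG : Dv m G ≠ 0 := fun h0 => hP' (by rw [h0]; ring)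
  have hq : ∀ p : ℤ[X], aeval r (up ℚ p) = (up ℂ p).eval r := fun p => by
    rw [up, up, eval_map, aeval_def, eval₂_map]
    exact congrArg (fun φ => eval₂ φ r p) (RingHom.ext_int _ _)
  have hgr : (up ℂ g).eval r ≠ 0 := by
    intro h0
    have hf0 : (up ℂ f).eval r = 0 := by
      simpa only [eval_add, eval_mul, h0, mul_zero, add_zero] using hr0
    have hdvd := hi.dvd_of_root (z := r) (by rw [hq, hf0]) (q := up ℚ g) (by rw [hq, h0])
    have hg0 : up ℚ g = 0 := by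
      refine eq_zero_of_dvd_of_natDegree_lt hdvd ?_
      rw [hm.natDegree_map, hf]
      exact lt_of_le_of_lt natDegree_map_le hg
    have hg1 : g = 0 := by
      rwa [up, Polynomial.map_eq_zero_iff (RingHom.injective_int _)] at hg0
    rw [hg1, up, up, Polynomial.map_zero, mul_zero, add_zero, Dv_map] at hD
    exact hi.Dv_ne_zero hm hf (by simpa using hD)
  refine wesim_mult _ _ τ hD ?_
  rw [hG]
  refine wesim_dual (algebraMap ℂ (DualNumber ℂ)) (TrivSqZeroExt.fstHom ℂ ℂ ℂ).toRingHom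
    DualNumber.eps DualNumber.eps_mul_eps (fun z => by simp) (by simp) (fun x hx => ?_)
    (by omega) r G _ hGm hGd hr hDG hgd hgr
  have := congrArg TrivSqZeroExt.snd hx
  simpa using this

end Pool.Agent.VW
end

-- part Pool.Agent.P.MP_b0ea37_nt.WEdat
section

namespace Pool.Agent.VW

open Polynomial

/-- the discriminant as a polynomial in the coefficients -/
theorem exists_Dv_univ (n : ℕ) : ∃ P : MvPolynomial (Fin n) ℤ, ∀ (R : Type) [CommRing R]
    (F : R[X]), F.Monic → F.natDegree = n →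
    Dv n F = MvPolynomial.eval₂ (Int.castRingHom R) (fun i : Fin n => F.coeff i) P := by
  refine ⟨Dv n (X ^ n + ∑ i : Fin n, C (MvPolynomial.X i) * X ^ (i : ℕ)), fun R _ F hm hn => ?_⟩
  have h := Dv_map (MvPolynomial.eval₂Hom (Int.castRingHom R) fun i : Fin n => F.coeff i) n
    (X ^ n + ∑ i : Fin n, C (MvPolynomial.X i) * X ^ (i : ℕ))
  rw [MvPolynomial.coe_eval₂Hom] at h
  rw [← h]
  congr 1
  rw [Polynomial.map_add, Polynomial.map_pow, map_X, Polynomial.map_sum]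
  simp only [Polynomial.map_mul, Polynomial.map_pow, map_X, map_C, MvPolynomial.eval₂Hom_X']
  rw [Fin.sum_univ_eq_sum_range (fun i => C (F.coeff i) * X ^ i) n, ← hn]
  exact hm.as_sum

/-- degree and height of a fixed polynomial evaluated at linear polynomials -/
theorem sup_eval₂_le {σ : Type} (P : MvPolynomial σ ℤ) : ∃ (N : ℕ) (C₀ : ℝ), 1 ≤ C₀ ∧
    ∀ (Z : ℝ) (v : σ → ℤ[X]), 1 ≤ Z → (∀ i, (v i).natDegree ≤ 1 ∧ (v i).supNorm ≤ Z) →
    (MvPolynomial.eval₂ (Int.castRingHom ℤ[X]) v P).natDegree ≤ N ∧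
      (MvPolynomial.eval₂ (Int.castRingHom ℤ[X]) v P).supNorm ≤ C₀ * Z ^ N := by
  induction P using MvPolynomial.induction_on with
  | C a =>
    refine ⟨0, max 1 ‖a‖, le_max_left _ _, fun Z v _ _ => ?_⟩
    have e : MvPolynomial.eval₂ (Int.castRingHom ℤ[X]) v (MvPolynomial.C a) = C a := by
      rw [MvPolynomial.eval₂_C]; simp
    rw [e, natDegree_C, supNorm_C, pow_zero, mul_one]
    exact ⟨le_rfl, le_max_right _ _⟩
  | add p q hp hq =>
    obtain ⟨N, C₁, h1, hp⟩ := hp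
    obtain ⟨M, C₂, h2, hq⟩ := hq
    refine ⟨N + M, C₁ + C₂, by linarith, fun Z v hZ hv => ?_⟩
    obtain ⟨a1, a2⟩ := hp Z v hZ hv
    obtain ⟨b1, b2⟩ := hq Z v hZ hv
    rw [MvPolynomial.eval₂_add]
    refine ⟨(natDegree_add_le _ _).trans (max_le (by omega) (by omega)), ?_⟩
    have e1 : Z ^ N ≤ Z ^ (N + M) := pow_le_pow_right₀ hZ (by omega)
    have e2 : Z ^ M ≤ Z ^ (N + M) := pow_le_pow_right₀ hZ (by omega)
    have e3 : C₁ * Z ^ N ≤ C₁ * Z ^ (N + M) := mul_le_mul_of_nonneg_left e1 (by linarith)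
    have e4 : C₂ * Z ^ M ≤ C₂ * Z ^ (N + M) := mul_le_mul_of_nonneg_left e2 (by linarith)
    have := sup_add_le (MvPolynomial.eval₂ (Int.castRingHom ℤ[X]) v p)
      (MvPolynomial.eval₂ (Int.castRingHom ℤ[X]) v q)
    linarith
  | mul_X p i hp =>
    obtain ⟨N, C₁, h1, hp⟩ := hp
    have hN : (0 : ℝ) ≤ N := Nat.cast_nonneg N
    refine ⟨N + 1, (N + 1) * C₁, by nlinarith, fun Z v hZ hv => ?_⟩
    obtain ⟨a1, a2⟩ := hp Z v hZ hv
    rw [MvPolynomial.eval₂_mul, MvPolynomial.eval₂_X]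
    refine ⟨natDegree_mul_le.trans (add_le_add a1 (hv i).1), (sup_mul_le _ _ a1).trans ?_⟩
    have := mul_le_mul a2 (hv i).2 (supNorm_nonneg _) (by positivity)
    calc _ ≤ ((N : ℝ) + 1) * (C₁ * Z ^ N * Z) := mul_le_mul_of_nonneg_left this (by positivity)
      _ = _ := by ring

theorem edat_irr (φ : ℤ[X] →+* ℂ) (D : ℤ[X]) :
    D ≠ 0 → φ D = 0 → ∃ B : ℤ[X], Irreducible B ∧ B ∣ D ∧ φ B = 0 := by
  induction D using WfDvdMonoid.induction_on_irreducible with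
  | zero => exact fun h => absurd rfl h
  | unit u hu => exact fun _ h => absurd h (hu.map φ).ne_zero
  | mul a i ha hi ih =>
    intro _ h
    rw [map_mul] at h
    rcases mul_eq_zero.1 h with h | h
    · exact ⟨i, hi, dvd_mul_right _ _, h⟩
    · obtain ⟨B, h1, h2, h3⟩ := ih ha h
      exact ⟨B, h1, h2.mul_left _, h3⟩

theorem edat_map {S : Type} [CommRing S] (φ : ℤ[X] →+* S) (f g : ℤ[X]) :
    (f.map C + C X * g.map C : ℤ[X][X]).map φ = up S f + C (φ X) * up S g := by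
  have e : φ.comp C = Int.castRingHom S := RingHom.ext_int _ _
  rw [Polynomial.map_add, Polynomial.map_mul, map_C, Polynomial.map_map, Polynomial.map_map, e]

theorem edat_coeff (f g : ℤ[X]) (Z : ℝ) (hf : f.supNorm ≤ Z) (hg : g.supNorm ≤ Z) (i : ℕ) :
    ((f.map C + C X * g.map C : ℤ[X][X]).coeff i).natDegree ≤ 1 ∧
      ((f.map C + C X * g.map C : ℤ[X][X]).coeff i).supNorm ≤ Z := by
  have e : (f.map C + C X * g.map C : ℤ[X][X]).coeff i = C (g.coeff i) * X + C (f.coeff i) := by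
    rw [coeff_add, coeff_C_mul, coeff_map, coeff_map]; ring
  rw [e]
  refine ⟨natDegree_linear_le, sup_le_iff.2 fun j => ?_⟩
  have hZ : 0 ≤ Z := (supNorm_nonneg _).trans hf
  rcases j with _ | _ | j
  · simpa using (f.le_supNorm i).trans hf
  · rw [coeff_add, coeff_mul_X, coeff_C_zero, coeff_C_succ, add_zero]
    exact (g.le_supNorm i).trans hg
  · rw [coeff_add, coeff_mul_X, coeff_C_succ, coeff_C_succ, add_zero, norm_zero]
    exact hZ

theorem edat_monic {n : ℕ} {f g : ℤ[X]} (hm : f.Monic) (hf : f.natDegree = n)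
    (hg : g.natDegree < n) : (f.map C + C X * g.map C : ℤ[X][X]).Monic ∧
      (f.map C + C X * g.map C : ℤ[X][X]).natDegree = n := by
  have h1 : (f.map C : ℤ[X][X]).natDegree = n := by rw [hm.natDegree_map, hf]
  have h2 : (C X * g.map C : ℤ[X][X]).natDegree < (f.map C : ℤ[X][X]).natDegree := by
    rw [h1]
    exact ((natDegree_C_mul_le _ _).trans natDegree_map_le).trans_lt hg
  exact ⟨(hm.map C).add_of_left (degree_lt_degree h2),
    by rw [natDegree_add_eq_left_of_natDegree_lt h2, h1]⟩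

theorem edat_res (B G : ℤ[X]) (M : ℕ) (T : ℝ) (hT : 1 ≤ T) (hB : B.natDegree ≤ M)
    (hG : G.natDegree ≤ M) (sB : B.supNorm ≤ T) (sG : G.supNorm ≤ T) :
    (((resultant B G).natAbs : ℕ) : ℝ) ≤ (2 * M).factorial * T ^ (2 * M + 1) := by
  have h := norm_resultant_le B G B.natDegree G.natDegree
  have e : (((resultant B G).natAbs : ℕ) : ℝ) = ‖resultant B G B.natDegree G.natDegree‖ := by
    rw [Int.norm_eq_abs, Nat.cast_natAbs, Int.cast_abs]
  rw [e]
  refine h.trans ?_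
  have h1 : (((B.natDegree + G.natDegree).factorial : ℕ) : ℝ) ≤ (2 * M).factorial :=
    Nat.cast_le.2 (Nat.factorial_le (by omega))
  have h2 : B.supNorm ^ G.natDegree ≤ T ^ M :=
    (pow_le_pow_left₀ (supNorm_nonneg _) sB _).trans (pow_le_pow_right₀ hT hG)
  have h3 : G.supNorm ^ B.natDegree ≤ T ^ (M + 1) :=
    (pow_le_pow_left₀ (supNorm_nonneg _) sG _).trans (pow_le_pow_right₀ hT (by omega))
  have h4 : 0 ≤ B.supNorm := supNorm_nonneg _
  have h5 : 0 ≤ G.supNorm := supNorm_nonneg _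
  calc _ ≤ ((2 * M).factorial : ℝ) * T ^ M * T ^ (M + 1) := by gcongr
    _ = _ := by ring

/-- the factor of the discriminant along a good line -/
theorem line_data (n : ℕ) (hn : 5 ≤ n) : ∃ (E A : ℕ) (C₀ : ℝ), 1 ≤ C₀ ∧
    ∀ (Z : ℝ) (f g : ℤ[X]), 1 ≤ Z → f.Monic → f.natDegree = n → Irr f → g.natDegree < n →
    f.supNorm ≤ Z → g.supNorm ≤ Z → Good n f g →
    ∃ (B : ℤ[X]) (N : ℕ), Irr B ∧ B.natDegree ≤ E ∧ B.supNorm ≤ C₀ * Z ^ A ∧ N ≠ 0 ∧
      (N : ℝ) ≤ C₀ * Z ^ A ∧ ∀ t : ℤ, Bad n (f + C t * g) → B.eval t ≠ 0 ∧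
        ∀ p : ℕ, p.Prime → (p : ℤ) ∣ B.eval t → ¬ p ∣ N →
          Weak p (f + C t * g) ∧ Even (padicValInt p (B.eval t)) := by
  obtain ⟨P, hP⟩ := exists_Dv_univ n
  obtain ⟨N₁, C₁, h1, hD⟩ := sup_eval₂_le P
  obtain ⟨N₂, C₂, h2, hPh⟩ := sup_eval₂_le (phiP n 0)
  obtain ⟨M, hM⟩ : ∃ M, M = N₁ + N₂ := ⟨_, rfl⟩
  obtain ⟨S, hS⟩ : ∃ S : ℝ, S = (N₁ + 1) * (4 ^ N₁ * C₁ * C₂) := ⟨_, rfl⟩
  have hN : (1 : ℝ) ≤ N₁ + 1 := le_add_of_nonneg_left (Nat.cast_nonneg N₁)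
  have h4 : (1 : ℝ) ≤ 4 ^ N₁ := one_le_pow₀ (by norm_num)
  have hS1 : 1 ≤ S := by
    rw [hS]
    exact one_le_mul_of_one_le_of_one_le hN
      (one_le_mul_of_one_le_of_one_le (one_le_mul_of_one_le_of_one_le h4 h1) h2)
  have hF1 : (1 : ℝ) ≤ (2 * M).factorial := by exact_mod_cast Nat.factorial_pos (2 * M)
  refine ⟨M, M * (2 * M + 1), (2 * M).factorial * S ^ (2 * M + 1),
    one_le_mul_of_one_le_of_one_le hF1 (one_le_pow₀ hS1), ?_⟩
  intro Z f g hZ hm hf hi hg sf sg hgood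
  obtain ⟨τ, hτ, hΦ⟩ := good_simple hn hm hf hi hg hgood
  obtain ⟨F, hF⟩ : ∃ F : ℤ[X][X], F = f.map C + C X * g.map C := ⟨_, rfl⟩
  have hc : ∀ i : Fin n, (F.coeff i).natDegree ≤ 1 ∧ (F.coeff i).supNorm ≤ Z := fun i =>
    hF ▸ edat_coeff f g Z sf sg i
  have hFm : F.Monic ∧ F.natDegree = n := hF ▸ edat_monic hm hf hg
  have hD' := hD Z _ hZ hc
  rw [← hP _ F hFm.1 hFm.2] at hD'
  have hP' : (Phi n 0 F).natDegree ≤ N₂ ∧ (Phi n 0 F).supNorm ≤ C₂ * Z ^ N₂ := hPh Z _ hZ hc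
  -- the values along the line
  have hline : ∀ t : ℤ, F.map (evalRingHom t) = f + C t * g := fun t => by
    have e : Int.castRingHom ℤ = RingHom.id ℤ := RingHom.ext_int _ _
    rw [hF, edat_map, coe_evalRingHom, eval_X, up, up, e, Polynomial.map_id, Polynomial.map_id]
  have hDt : ∀ t : ℤ, (Dv n F).eval t = Dv n (f + C t * g) := fun t => by
    rw [← hline, Dv_map, coe_evalRingHom]
  have hPt : ∀ t : ℤ, (Phi n 0 F).eval t = Phi n 0 (f + C t * g) := fun t => by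
    rw [← hline, Phi_map, coe_evalRingHom]
  have hup : up ℂ (Dv n F) = Dv n ((up ℂ f).map C + C X * (up ℂ g).map C) := by
    have e : (C : ℂ →+* ℂ[X]).comp (Int.castRingHom ℂ) = Int.castRingHom ℂ[X] :=
      RingHom.ext_int _ _
    have := Dv_map (mapRingHom (Int.castRingHom ℂ)) n F
    rw [coe_mapRingHom] at this
    rw [up, ← this, hF, edat_map, coe_mapRingHom, map_X, up, up, up, up, Polynomial.map_map,
      Polynomial.map_map, e]
  rw [← hup] at hτ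
  obtain ⟨φ, hφ⟩ : ∃ φ : ℤ[X] →+* ℂ, ∀ q : ℤ[X], φ q = (up ℂ q).eval τ :=
    ⟨eval₂RingHom (Int.castRingHom ℂ) τ, fun q => by rw [coe_eval₂RingHom, eval_map]⟩
  have hφP : φ (Phi n 0 F) ≠ 0 := by
    have e : φ X = τ := by rw [hφ, up, map_X, eval_X]
    rw [← Phi_map, hF, edat_map, e]
    exact hΦ
  have hpos := rootMultiplicity_pos'.1 (hτ ▸ Nat.one_pos : 0 < rootMultiplicity τ (up ℂ (Dv n F)))
  have hD0 : Dv n F ≠ 0 := fun h => hpos.1 (by rw [h, up, Polynomial.map_zero])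
  obtain ⟨B, hBi, ⟨E₀, hE⟩, hB0⟩ := edat_irr φ (Dv n F) hD0 (by rw [hφ]; exact hpos.2)
  have hBd : B.natDegree ≠ 0 := by
    intro h
    rw [eq_C_of_natDegree_eq_zero h, hφ, up, map_C, eval_C, eq_intCast, Int.cast_eq_zero] at hB0
    exact hBi.ne_zero (by rw [eq_C_of_natDegree_eq_zero h, hB0, C_0])
  have hIrr : Irr B :=
    (IsPrimitive.Int.irreducible_iff_irreducible_map_cast (hBi.isPrimitive hBd)).1 hBi
  have hφE : φ E₀ ≠ 0 := by
    intro h
    rw [hφ] at h hB0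
    have h3 : (X - C τ) ^ 2 ∣ up ℂ (Dv n F) := by
      rw [hE, up, Polynomial.map_mul, sq]
      exact mul_dvd_mul (dvd_iff_isRoot.2 hB0) (dvd_iff_isRoot.2 h)
    have := (le_rootMultiplicity_iff hpos.1).2 h3
    omega
  have hcop : IsCoprime (up ℚ B) (up ℚ (E₀ * Phi n 0 F)) := by
    refine (Irreducible.coprime_iff_not_dvd hIrr).2 fun hd => mul_ne_zero hφE hφP ?_
    have e : (algebraMap ℚ ℂ).comp (Int.castRingHom ℚ) = Int.castRingHom ℂ := RingHom.ext_int _ _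
    have h3 := eval_dvd (x := τ) (Polynomial.map_dvd (algebraMap ℚ ℂ) hd)
    rw [up, up, Polynomial.map_map, Polynomial.map_map, e] at h3
    rw [← map_mul, hφ]
    rw [hφ] at hB0
    exact zero_dvd_iff.1 (hB0 ▸ h3)
  have hZ1 : 1 ≤ Z ^ N₁ := one_le_pow₀ hZ
  have hZ2 : 1 ≤ Z ^ N₂ := one_le_pow₀ hZ
  have hdiv : ∀ q : ℤ[X], q ∣ Dv n F → q.natDegree ≤ N₁ ∧ q.supNorm ≤ 4 ^ N₁ * (C₁ * Z ^ N₁) :=
    fun q hq => ⟨(natDegree_le_of_dvd hq hD0).trans hD'.1,
      (sup_le_of_dvd hD0 hq hD'.1).trans (mul_le_mul_of_nonneg_left hD'.2 (by positivity))⟩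
  have hB := hdiv B ⟨E₀, hE⟩
  have hE₀ := hdiv E₀ ⟨B, by rw [hE, mul_comm]⟩
  have hT : S * Z ^ M = (N₁ + 1) * (4 ^ N₁ * (C₁ * Z ^ N₁) * (C₂ * Z ^ N₂)) := by
    rw [hS, hM]; ring
  have hT1 : 1 ≤ S * Z ^ M := one_le_mul_of_one_le_of_one_le hS1 (one_le_pow₀ hZ)
  have sB : B.supNorm ≤ S * Z ^ M := by
    rw [hT]
    refine hB.2.trans ((le_mul_of_one_le_right (by positivity)
      (one_le_mul_of_one_le_of_one_le h2 hZ2)).trans (le_mul_of_one_le_left (by positivity) hN))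
  have sG : (E₀ * Phi n 0 F).supNorm ≤ S * Z ^ M := by
    rw [hT]
    exact (sup_mul_le _ _ hE₀.1).trans (mul_le_mul_of_nonneg_left
      (mul_le_mul hE₀.2 hP'.2 (supNorm_nonneg _) (by positivity)) (by positivity))
  have hfin : ((2 * M).factorial : ℝ) * (S * Z ^ M) ^ (2 * M + 1) =
      (2 * M).factorial * S ^ (2 * M + 1) * Z ^ (M * (2 * M + 1)) := by
    rw [mul_pow, ← pow_mul, mul_assoc]
  refine ⟨B, (resultant B (E₀ * Phi n 0 F)).natAbs, hIrr, by omega, ?_,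
    Int.natAbs_ne_zero.2 (resultant_ne_zero_of_coprime hcop), ?_, fun t ht => ?_⟩
  · rw [← hfin]
    exact sB.trans ((le_self_pow₀ hT1 (by omega)).trans
      (le_mul_of_one_le_left (by positivity) hF1))
  · rw [← hfin]
    exact edat_res _ _ M _ hT1 (by omega)
      (natDegree_mul_le.trans (by have := hE₀.1; have := hP'.1; omega)) sB sG
  · have hv : Dv n (f + C t * g) = B.eval t * E₀.eval t := by rw [← hDt, hE, eval_mul]
    have hne := Irr.Dv_ne_zero ht.1 ht.2.1 ht.2.2.1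
    rw [hv] at hne
    refine ⟨left_ne_zero_of_mul hne, fun p hp hpB hpN => ?_⟩
    have hG : ¬ (p : ℤ) ∣ (E₀ * Phi n 0 F).eval t := fun h => hpN (Int.natCast_dvd.1
      (res_one_one hp.one_le le_rfl le_rfl (by omega) hpB h))
    rw [eval_mul, hPt] at hG
    obtain ⟨hw, hev⟩ := ht.2.2.2.2 p hp (hv ▸ hpB.mul_right _) fun h => hG (h.mul_left _)
    have := Fact.mk hp
    rw [hv, padicValInt.mul (left_ne_zero_of_mul hne) (right_ne_zero_of_mul hne),
      padicValInt.eq_zero_of_not_dvd (fun h => hG (h.mul_right _)), add_zero] at hev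
    exact ⟨hw, hev⟩

end Pool.Agent.VW
end

-- part Pool.Agent.P.MP_b0ea37_nt.WEpl
section

namespace Pool.Agent.VW

open Polynomial

theorem epl_deg {B : ℤ[X]} (h : Irr B) : 0 < B.natDegree :=
  lt_of_lt_of_le (Irreducible.natDegree_pos h) natDegree_map_le

theorem epl_val {B : ℤ[X]} (h : Irr B) {E : ℕ} (hE : B.natDegree ≤ E) (c : ℤ) :
    Cnt (fun t : ℤ => B.eval t = c) E := by
  have h0 := epl_deg h
  have h1 : (B - C c).natDegree = B.natDegree := natDegree_sub_C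
  have h2 : B - C c ≠ 0 := by
    intro e
    rw [e, natDegree_zero] at h1
    omega
  refine (cnt_roots _ h2).mono (fun t ht => by simp [ht]) ?_
  rw [h1]
  exact_mod_cast hE

/-- one size parameter for all the data -/
theorem epl_size (E A : ℕ) (C₀ Z : ℝ) (hC : 1 ≤ C₀) (hZ : 1 ≤ Z) :
    Z ≤ (E + 1) * C₀ * Z ^ (A + E + 1) ∧ C₀ * Z ^ A * Z ≤ (E + 1) * C₀ * Z ^ (A + E + 1) ∧
    ∀ B : ℤ[X], B.natDegree ≤ E → B.supNorm ≤ C₀ * Z ^ A → ∀ t : ℤ, |(t : ℝ)| ≤ Z →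
      (((B.eval t).natAbs : ℕ) : ℝ) ≤ (E + 1) * C₀ * Z ^ (A + E + 1) := by
  have hA : 1 ≤ Z ^ A := one_le_pow₀ hZ
  have hE : 1 ≤ Z ^ E := one_le_pow₀ hZ
  have hE1 : (1 : ℝ) ≤ E + 1 := by linarith [Nat.cast_nonneg (α := ℝ) E]
  have h2 : C₀ * Z ^ A * Z ≤ (E + 1) * C₀ * Z ^ (A + E + 1) := by
    calc C₀ * Z ^ A * Z = 1 * C₀ * (Z ^ A * 1 * Z) := by ring
      _ ≤ (E + 1) * C₀ * (Z ^ A * Z ^ E * Z) := by gcongr
      _ = _ := by ring
  refine ⟨le_trans ?_ h2, h2, fun B hB hs t ht => ?_⟩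
  · calc Z = 1 * 1 * Z := by ring
      _ ≤ C₀ * Z ^ A * Z := by gcongr
  · have h3 := norm_eval_le B hB t
    have h4 : max 1 ‖t‖ ≤ Z := max_le hZ ht
    have h5 : (0 : ℝ) ≤ max 1 ‖t‖ := le_trans zero_le_one (le_max_left _ _)
    rw [Nat.cast_natAbs, Int.cast_abs]
    calc |((B.eval t : ℤ) : ℝ)| ≤ (E + 1) * B.supNorm * (max 1 ‖t‖) ^ E := h3
      _ ≤ (E + 1) * (C₀ * Z ^ A) * (Z ^ E * Z) := by
        have : (max 1 ‖t‖) ^ E ≤ Z ^ E * Z :=
          (pow_le_pow_left₀ h5 h4 E).trans (le_mul_of_one_le_right (by positivity) hZ)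
        gcongr
      _ = _ := by ring

theorem epl_rpow (K Z ε : ℝ) (hK : 0 ≤ K) (hZ : 0 ≤ Z) (A : ℕ) :
    (K * Z ^ (A + 1)) ^ (ε / (A + 1 : ℕ)) = K ^ (ε / (A + 1 : ℕ)) * Z ^ ε := by
  rw [Real.mul_rpow hK (by positivity), ← Real.rpow_natCast, ← Real.rpow_mul hZ,
    mul_div_cancel₀ _ (by positivity)]

/-- PL -/
theorem pl_zero (n : ℕ) (hn : 5 ≤ n) (ε : ℝ) (hε : 0 < ε) : ∃ C₀ : ℝ, 1 ≤ C₀ ∧
    ∀ (Z : ℝ) (m : ℕ) (f g : ℤ[X]), 1 ≤ m → (m : ℝ) ≤ Z → f.Monic → f.natDegree = n → Irr f →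
    g.natDegree < n → f.supNorm ≤ Z → g.supNorm ≤ Z → Good n f g →
    Cnt (fun t : ℤ => |(t : ℝ)| ≤ Z ∧ Bad n (f + C t * g) ∧ WkIn m (f + C t * g))
      (C₀ * Z ^ ε) := by
  obtain ⟨E, A, C₀, hC, hd⟩ := line_data n hn
  have hε' : 0 < ε / (A + E + 1 : ℕ) := by positivity
  obtain ⟨C₁, hC₁, hs⟩ := cnt_smooth _ hε'
  have hE1 : (1 : ℝ) ≤ E + 1 := by linarith [Nat.cast_nonneg (α := ℝ) E]
  have hK : (1 : ℝ) ≤ (E + 1) * C₀ := one_le_mul_of_one_le_of_one_le hE1 hC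
  have hKe := Real.one_le_rpow hK hε'.le
  refine ⟨C₁ * ((E + 1) * C₀) ^ (ε / (A + E + 1 : ℕ)) * (2 * (E + 1)),
    one_le_mul_of_one_le_of_one_le (one_le_mul_of_one_le_of_one_le hC₁ hKe) (by linarith), ?_⟩
  intro Z m f g hm hmZ hf hfd hi hg hfZ hgZ hG
  have hZ : 1 ≤ Z := le_trans (by exact_mod_cast hm) hmZ
  obtain ⟨B, N, hB, hBE, hBs, hN, hNs, hp⟩ := hd Z f g hZ hf hfd hi hg hfZ hgZ hG
  obtain ⟨s1, s2, s3⟩ := epl_size E A C₀ Z hC hZ
  have hNm : ((N * m : ℕ) : ℝ) ≤ (E + 1) * C₀ * Z ^ (A + E + 1) := by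
    refine le_trans ?_ s2
    push_cast
    gcongr
  have h1 := (hs _ (hZ.trans s1) (N * m) (Nat.mul_ne_zero hN (by omega)) hNm).fibre
    (P := fun (v : ℕ) (t : ℤ) => B.eval t = v ∨ B.eval t = -v) (B' := E + E) (by positivity)
    fun v _ => (epl_val hB hBE v).or (epl_val hB hBE (-v))
  refine h1.mono ?_ ?_
  · rintro t ⟨ht, hb, hw⟩
    obtain ⟨h2, h3⟩ := hp t hb
    refine ⟨(B.eval t).natAbs, ⟨Int.natAbs_ne_zero.2 h2, s3 B hBE hBs t ht, fun p hpp hpv => ?_⟩,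
      Int.natAbs_eq _⟩
    by_cases c : p ∣ N
    · exact c.mul_right m
    · exact (hw p hpp (h3 p hpp (Int.natCast_dvd.2 hpv) c).1).mul_left N
  · rw [epl_rpow _ Z ε (by linarith) (by linarith) (A + E)]
    have h2 : 0 ≤ Z ^ ε := by positivity
    calc C₁ * (((E + 1) * C₀) ^ (ε / (A + E + 1 : ℕ)) * Z ^ ε) * (E + E)
        ≤ C₁ * (((E + 1) * C₀) ^ (ε / (A + E + 1 : ℕ)) * Z ^ ε) * (2 * (E + 1)) := by
          gcongr
          linarith
      _ = _ := by ring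

theorem epl_odd {p a b : ℕ} (hp : p.Prime) (ha : Squarefree a) (hb : b ≠ 0) (h : p ∣ a) :
    ¬ Even (padicValNat p (b ^ 2 * a)) := by
  have := Fact.mk hp
  have h1 : padicValNat p a = 1 := by
    have h2 := ha.natFactorization_le_one p
    have h3 := hp.factorization_pos_of_dvd ha.ne_zero h
    rw [Nat.factorization_def a hp] at h2 h3
    omega
  rw [padicValNat.mul (pow_ne_zero 2 hb) ha.ne_zero, sq, padicValNat.mul hb hb, h1,
    Nat.even_iff]
  omega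

/-- PL2 -/
theorem pl_half (n : ℕ) (hn : 5 ≤ n) (ε : ℝ) (hε : 0 < ε) : ∃ C₀ : ℝ, 1 ≤ C₀ ∧
    ∀ (Z L : ℝ) (f g : ℤ[X]), 1 ≤ L → L ≤ Z → f.Monic → f.natDegree = n → Irr f →
    g.natDegree < n → f.supNorm ≤ Z → g.supNorm ≤ Z → Good n f g →
    Cnt (fun t : ℤ => |(t : ℝ)| ≤ L ∧ Bad n (f + C t * g)) (C₀ * Z ^ ε * √L) := by
  obtain ⟨E, A, C₀, hC, hd⟩ := line_data n hn
  have hε' : 0 < ε / 2 / (A + E + 1 : ℕ) := by positivity
  obtain ⟨C₁, hC₁, hs⟩ := cnt_smooth _ hε'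
  obtain ⟨C₂, hC₂, hq⟩ := sqv E _ hε'
  have hE1 : (1 : ℝ) ≤ E + 1 := by linarith [Nat.cast_nonneg (α := ℝ) E]
  have hK : (1 : ℝ) ≤ (E + 1) * C₀ := one_le_mul_of_one_le_of_one_le hE1 hC
  have hKe := Real.one_le_rpow hK hε'.le
  obtain ⟨K, hKd⟩ : ∃ K : ℝ, K = ((E + 1) * C₀) ^ (ε / 2 / (A + E + 1 : ℕ)) := ⟨_, rfl⟩
  rw [← hKd] at hKe
  have k1 := one_le_mul_of_one_le_of_one_le hC₁ hKe
  have k2 := one_le_mul_of_one_le_of_one_le hC₂ hKe
  refine ⟨C₁ * K * (2 * (C₂ * K)), one_le_mul_of_one_le_of_one_le k1 (by linarith), ?_⟩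
  intro Z L f g hL hLZ hf hfd hi hg hfZ hgZ hG
  have hZ : 1 ≤ Z := hL.trans hLZ
  obtain ⟨B, N, hB, hBE, hBs, hN, hNs, hp⟩ := hd Z f g hZ hf hfd hi hg hfZ hgZ hG
  obtain ⟨s1, s2, s3⟩ := epl_size E A C₀ Z hC hZ
  have hr := epl_rpow ((E + 1) * C₀) Z (ε / 2) (by linarith) (by linarith) (A + E)
  rw [← hKd] at hr
  obtain ⟨Y, hY⟩ : ∃ Y : ℝ, Y = (E + 1) * C₀ * Z ^ (A + E + 1) := ⟨_, rfl⟩
  rw [← hY] at s1 s2 s3 hr
  have s4 : C₀ * Z ^ A ≤ Y := le_trans (le_mul_of_one_le_right (by positivity) hZ) s2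
  have hY0 : 0 ≤ Y := by linarith
  have h1 := (hs Y (hZ.trans s1) N hN (hNs.trans s4)).fibre
    (P := fun (a : ℕ) (t : ℤ) => (|(t : ℝ)| ≤ L ∧ ∃ z : ℤ, B.eval t = a * z ^ 2) ∨
      (|(t : ℝ)| ≤ L ∧ ∃ z : ℤ, B.eval t = (-a) * z ^ 2)) (by positivity)
    fun a ha => (hq Y L B a hL (hLZ.trans s1) hB hBE (hBs.trans s4) (by exact_mod_cast ha.1)
      (by simpa using ha.2.1)).or (hq Y L B (-a) hL (hLZ.trans s1) hB hBE (hBs.trans s4)
      (neg_ne_zero.2 (by exact_mod_cast ha.1)) (by simpa using ha.2.1))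
  refine h1.mono ?_ ?_
  · rintro t ⟨ht, hb⟩
    obtain ⟨h2, h3⟩ := hp t hb
    obtain ⟨a, b, hab, ha⟩ := Nat.sq_mul_squarefree (B.eval t).natAbs
    have hv : (B.eval t).natAbs ≠ 0 := Int.natAbs_ne_zero.2 h2
    have hb0 : b ≠ 0 := by
      rintro rfl
      exact hv (by simpa using hab.symm)
    have hav : a ∣ (B.eval t).natAbs := hab ▸ dvd_mul_left a _
    refine ⟨a, ⟨ha.ne_zero, le_trans ?_ (s3 B hBE hBs t (ht.trans hLZ)), fun p hpp hpa => ?_⟩, ?_⟩
    · exact_mod_cast Nat.le_of_dvd (Nat.pos_of_ne_zero hv) hav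
    · by_contra c
      have h4 := (h3 p hpp (Int.natCast_dvd.2 (hpa.trans hav)) c).2
      rw [padicValInt, ← hab] at h4
      exact epl_odd hpp ha hb0 hpa h4
    · rcases Int.natAbs_eq (B.eval t) with e | e
      · exact Or.inl ⟨ht, b, by rw [e, ← hab]; push_cast; ring⟩
      · exact Or.inr ⟨ht, b, by rw [e, ← hab]; push_cast; ring⟩
  · rw [hr]
    have h2 : Z ^ ε = Z ^ (ε / 2) * Z ^ (ε / 2) := by
      rw [← Real.rpow_add (by linarith), add_halves]
    rw [h2]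
    exact le_of_eq (by ring)

end Pool.Agent.VW
end
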