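import Pool.Agent.K.MP_b0ea37_nt.C0
import Mathlib

-- part Pool.Agent.P.MP_b0ea37_nt.WLine
section

namespace Pool.Agent.VW

open Polynomial

/-- ED -/
theorem exists_good (n : ℕ) (hn : 5 ≤ n) : ∃ K : ℕ, ∀ f g₁ g₂ : ℤ[X], f.Monic → f.natDegree = n →
    Irr f → Prim f → g₁.natDegree < n → g₂.natDegree < n → Indep g₁ g₂ →
    ∃ c : ℕ, c ≤ K ∧ Good n f (g₁ + C (c : ℤ) * g₂) := exists_good' n hn

/-- SIMPLE: the discriminant along a good line has a simple zero -/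
theorem Good.simple {n : ℕ} (hn : 5 ≤ n) {f g : ℤ[X]} (hm : f.Monic) (hf : f.natDegree = n)
    (hi : Irr f) (hg : g.natDegree < n) (h : Good n f g) :
    ∃ τ : ℂ, rootMultiplicity τ (Dv n ((up ℂ f).map C + C X * (up ℂ g).map C)) = 1 ∧
      Phi n 0 (up ℂ f + C τ * up ℂ g) ≠ 0 := good_simple hn hm hf hi hg h

/-- LL for an abstract family with a bound on every good line -/
theorem ll_abs (n : ℕ) (hn : 5 ≤ n) : ∃ K : ℕ, ∀ (B b : ℝ) (L : ℕ) (g₁ g₂ : ℤ[X])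
    (P Q : ℤ[X] → Prop), 0 ≤ b → 1 ≤ L → g₁.natDegree < n → g₂.natDegree < n → Indep g₁ g₂ →
    (∀ f, P f → Bad n f) →
    (∀ f, P f → ∀ c : ℕ, c ≤ K → Good n f (g₁ + C (c : ℤ) * g₂) →
      Cnt (fun t : ℤ => |(t : ℝ)| ≤ L ∧ P (f + C t * (g₁ + C (c : ℤ) * g₂))) b) →
    (∀ f, P f → ∀ s t : ℤ, |s| ≤ L → |t| ≤ K * L → Q (f + C s * g₁ + C t * g₂)) → Cnt Q B →
    Cnt P ((K + 1) * (B * b / L)) := by
  obtain ⟨K, hK⟩ := exists_good n hn
  refine ⟨K, fun B b L g₁ g₂ P Q hb hL h1 h2 hI hP hline hQ hB => ?_⟩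
  have hL' : (0 : ℝ) < L := by exact_mod_cast hL
  have key : ∀ c ∈ Finset.range (K + 1),
      Cnt (fun f => P f ∧ Good n f (g₁ + C (c : ℤ) * g₂)) (B * b / L) := by
    intro c hc
    have hcK : c ≤ K := Nat.lt_succ_iff.1 (Finset.mem_range.1 hc)
    set g := g₁ + C (c : ℤ) * g₂ with hg
    have hg0 : g ≠ 0 := fun h => one_ne_zero (hI 1 c (by rw [C_1, one_mul]; exact h)).1
    have hinj : ∀ (f : ℤ[X]) (s t : ℤ), f + C s * g = f + C t * g → s = t := fun f s t h =>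
      C_injective (mul_right_cancel₀ hg0 (add_left_cancel h))
    refine Cnt.double (fun f h => ∃ t : ℕ, t < L ∧ h = f + C (t : ℤ) * g) hL' hb hB ?_ ?_
    · classical
      rintro f ⟨hf, -⟩
      refine ⟨(Finset.range L).image fun t : ℕ => f + C (t : ℤ) * g, ?_, fun h hh => ?_⟩
      · rw [Finset.card_image_of_injective _ fun s t h => Nat.cast_injective (hinj f _ _ h),
          Finset.card_range]
      · obtain ⟨t, ht, rfl⟩ := Finset.mem_image.1 hh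
        have ht' := Finset.mem_range.1 ht
        refine ⟨?_, t, ht', rfl⟩
        have e : f + C (t : ℤ) * g = f + C (t : ℤ) * g₁ + C ((c : ℤ) * t) * g₂ := by
          rw [hg, C_mul]; ring
        rw [e]
        refine hQ f hf _ _ (by rw [Nat.abs_cast]; exact_mod_cast ht'.le) ?_
        rw [← Nat.cast_mul, Nat.abs_cast]
        exact_mod_cast Nat.mul_le_mul hcK ht'.le
    · intro h _
      refine Cnt.of_mem hb ?_
      rintro f₀ ⟨⟨hf₀, hg₀⟩, t₀, ht₀, e₀⟩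
      refine (hline f₀ hf₀ c hcK hg₀).rel (fun f t => f = f₀ + C t * g) ?_ ?_
      · rintro f ⟨⟨hf, -⟩, t, ht, e⟩
        have e' : f = f₀ + C ((t₀ : ℤ) - t) * g := by
          rw [C_sub]; linear_combination e₀ - e
        refine ⟨(t₀ : ℤ) - t, ⟨?_, e' ▸ hf⟩, e'⟩
        have a1 : (t₀ : ℝ) < L := by exact_mod_cast ht₀
        have a2 : (t : ℝ) < L := by exact_mod_cast ht
        have a3 : (0 : ℝ) ≤ t₀ := Nat.cast_nonneg _
        have a4 : (0 : ℝ) ≤ t := Nat.cast_nonneg _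
        push_cast
        exact abs_le.2 ⟨by linarith, by linarith⟩
      · rintro f f' t - - rfl rfl
        rfl
  refine (Cnt.sum _ key).mono (fun f hf => ?_) (by simp)
  obtain ⟨hm, hd, hi, hp, -⟩ := hP f hf
  obtain ⟨c, hc, hgood⟩ := hK f g₁ g₂ hm hd hi hp h1 h2 hI
  exact ⟨c, Finset.mem_range.2 (Nat.lt_succ_of_le hc), hf, hgood⟩

theorem ll_dir {n K c : ℕ} {Z : ℝ} {g₁ g₂ : ℤ[X]} (hc : c ≤ K) (h1 : g₁.natDegree < n)
    (h2 : g₂.natDegree < n) (s1 : g₁.supNorm ≤ Z) (s2 : g₂.supNorm ≤ Z) :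
    (g₁ + C (c : ℤ) * g₂).natDegree < n ∧ (g₁ + C (c : ℤ) * g₂).supNorm ≤ (K + 1) * Z := by
  refine ⟨(natDegree_add_le _ _).trans_lt (max_lt h1 ((natDegree_C_mul_le _ _).trans_lt h2)),
    (sup_add_le _ _).trans ?_⟩
  rw [sup_C_mul_int, Int.cast_natCast, Nat.abs_cast]
  have h3 : (c : ℝ) ≤ K := by exact_mod_cast hc
  have h4 := mul_le_mul h3 s2 g₂.supNorm_nonneg (Nat.cast_nonneg K)
  linarith

/-- LL with all weak primes known -/
theorem ll_zero (n : ℕ) (hn : 5 ≤ n) : ∃ K : ℕ, ∀ ε : ℝ, 0 < ε → ∃ C₀ : ℝ, 1 ≤ C₀ ∧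
    ∀ (Z B : ℝ) (m L : ℕ) (g₁ g₂ : ℤ[X]) (P Q : ℤ[X] → Prop), 1 ≤ m → (m : ℝ) ≤ Z → 1 ≤ L →
    (L : ℝ) ≤ Z → g₁.natDegree < n → g₂.natDegree < n → Indep g₁ g₂ → g₁.supNorm ≤ Z →
    g₂.supNorm ≤ Z → (∀ f, P f → Bad n f ∧ f.supNorm ≤ Z ∧ WkIn m f) →
    (∀ f, P f → ∀ s t : ℤ, |s| ≤ L → |t| ≤ K * L → Q (f + C s * g₁ + C t * g₂)) → Cnt Q B →
    Cnt P (C₀ * Z ^ ε * B / L) := by
  obtain ⟨K, hK⟩ := ll_abs n hn
  refine ⟨K, fun ε hε => ?_⟩
  obtain ⟨C₁, hC₁, h⟩ := pl_zero n hn ε hε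
  have hK1 : (1 : ℝ) ≤ K + 1 := by linarith [Nat.cast_nonneg (α := ℝ) K]
  refine ⟨(K + 1) * (C₁ * (K + 1) ^ ε), one_le_mul_of_one_le_of_one_le hK1
    (one_le_mul_of_one_le_of_one_le hC₁ (Real.one_le_rpow hK1 hε.le)),
    fun Z B m L g₁ g₂ P Q hm hmZ hL hLZ h1 h2 hI s1 s2 hP hQ hB => ?_⟩
  have hZ : 0 ≤ Z := (Nat.cast_nonneg L).trans hLZ
  have hZZ : Z ≤ (K + 1) * Z := le_mul_of_one_le_left hZ hK1
  refine (hK B (C₁ * ((K + 1) * Z) ^ ε) L g₁ g₂ P Q (by positivity) hL h1 h2 hI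
    (fun f hf => (hP f hf).1) (fun f hf c hc hg => ?_) hQ hB).mono (fun _ h => h) (le_of_eq ?_)
  · obtain ⟨⟨a1, a2, a3, -⟩, a4, -⟩ := hP f hf
    obtain ⟨d1, d2⟩ := ll_dir hc h1 h2 s1 s2
    exact (h _ m f _ hm (hmZ.trans hZZ) a1 a2 a3 d1 (a4.trans hZZ) d2 hg).mono
      (fun t ht => ⟨ht.1.trans (hLZ.trans hZZ), (hP _ ht.2).1, (hP _ ht.2).2.2⟩) le_rfl
  · rw [Real.mul_rpow (by positivity) hZ]; ring

/-- LL0: weak primes divide some number up to `Y` -/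
theorem ll_tiny (n : ℕ) (hn : 5 ≤ n) : ∃ K : ℕ, ∀ ε : ℝ, 0 < ε → ∃ C₀ : ℝ, 1 ≤ C₀ ∧
    ∀ (Z Y B : ℝ) (L : ℕ) (g₁ g₂ : ℤ[X]) (P Q : ℤ[X] → Prop), 1 ≤ Y → Y ≤ Z → 1 ≤ L →
    (L : ℝ) ≤ Z → g₁.natDegree < n → g₂.natDegree < n → Indep g₁ g₂ → g₁.supNorm ≤ Z →
    g₂.supNorm ≤ Z →
    (∀ f, P f → Bad n f ∧ f.supNorm ≤ Z ∧ ∃ m : ℕ, 1 ≤ m ∧ (m : ℝ) ≤ Y ∧ WkIn m f) →
    (∀ f, P f → ∀ s t : ℤ, |s| ≤ L → |t| ≤ K * L → Q (f + C s * g₁ + C t * g₂)) → Cnt Q B →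
    Cnt P (C₀ * Z ^ ε * Y * B / L) := by
  obtain ⟨K, hK⟩ := ll_zero n hn
  refine ⟨K, fun ε hε => ?_⟩
  obtain ⟨C₁, hC₁, h⟩ := hK ε hε
  refine ⟨C₁, hC₁, fun Z Y B L g₁ g₂ P Q hY hYZ hL hLZ h1 h2 hI s1 s2 hP hQ hB => ?_⟩
  have hZ : 0 ≤ Z := (Nat.cast_nonneg L).trans hLZ
  have hB0 := hB.nonneg
  refine ((cnt_nat_pos Y (by linarith)).fibre (P := fun m f => P f ∧ WkIn m f)
    (B' := C₁ * Z ^ ε * B / L) (by positivity) fun m hm => ?_).mono (fun f hf => ?_) (le_of_eq ?_)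
  · exact h Z B m L g₁ g₂ _ Q hm.1 (hm.2.trans hYZ) hL hLZ h1 h2 hI s1 s2
      (fun f hf => ⟨(hP f hf.1).1, (hP f hf.1).2.1, hf.2⟩) (fun f hf => hQ f hf.1) hB
  · obtain ⟨-, -, m, a1, a2, a3⟩ := hP f hf
    exact ⟨m, ⟨a1, a2⟩, hf, a3⟩
  · ring

/-- LL without knowledge of the weak primes -/
theorem ll_half (n : ℕ) (hn : 5 ≤ n) : ∃ K : ℕ, ∀ ε : ℝ, 0 < ε → ∃ C₀ : ℝ, 1 ≤ C₀ ∧
    ∀ (Z B : ℝ) (L : ℕ) (g₁ g₂ : ℤ[X]) (P Q : ℤ[X] → Prop), 1 ≤ L →
    (L : ℝ) ≤ Z → g₁.natDegree < n → g₂.natDegree < n → Indep g₁ g₂ → g₁.supNorm ≤ Z →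
    g₂.supNorm ≤ Z → (∀ f, P f → Bad n f ∧ f.supNorm ≤ Z) →
    (∀ f, P f → ∀ s t : ℤ, |s| ≤ L → |t| ≤ K * L → Q (f + C s * g₁ + C t * g₂)) → Cnt Q B →
    Cnt P (C₀ * Z ^ ε * B / √L) := by
  obtain ⟨K, hK⟩ := ll_abs n hn
  refine ⟨K, fun ε hε => ?_⟩
  obtain ⟨C₁, hC₁, h⟩ := pl_half n hn ε hε
  have hK1 : (1 : ℝ) ≤ K + 1 := by linarith [Nat.cast_nonneg (α := ℝ) K]
  refine ⟨(K + 1) * (C₁ * (K + 1) ^ ε), one_le_mul_of_one_le_of_one_le hK1
    (one_le_mul_of_one_le_of_one_le hC₁ (Real.one_le_rpow hK1 hε.le)),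
    fun Z B L g₁ g₂ P Q hL hLZ h1 h2 hI s1 s2 hP hQ hB => ?_⟩
  have hZ : 0 ≤ Z := (Nat.cast_nonneg L).trans hLZ
  have hZZ : Z ≤ (K + 1) * Z := le_mul_of_one_le_left hZ hK1
  have hL1 : (1 : ℝ) ≤ L := by exact_mod_cast hL
  refine (hK B (C₁ * ((K + 1) * Z) ^ ε * √L) L g₁ g₂ P Q (by positivity) hL h1 h2 hI
    (fun f hf => (hP f hf).1) (fun f hf c hc hg => ?_) hQ hB).mono (fun _ h => h) (le_of_eq ?_)
  · obtain ⟨⟨a1, a2, a3, -⟩, a4⟩ := hP f hf
    obtain ⟨d1, d2⟩ := ll_dir hc h1 h2 s1 s2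
    exact (h _ L f _ hL1 (hLZ.trans hZZ) a1 a2 a3 d1 (a4.trans hZZ) d2 hg).mono
      (fun t ht => ⟨ht.1, (hP _ ht.2).1⟩) le_rfl
  · have hs : 0 < √(L : ℝ) := Real.sqrt_pos.2 (by linarith)
    have e := Real.mul_self_sqrt (show (0 : ℝ) ≤ L by linarith)
    rw [Real.mul_rpow (by positivity) hZ]
    generalize √(L : ℝ) = y at *
    rw [← e]
    field_simp

end Pool.Agent.VW
end

-- part Pool.Agent.P.MP_b0ea37_nt.WLBox
section

namespace Pool.Agent.VW.Lat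

open Polynomial

theorem wlbox_len {T H : ℝ} (hT : 1 ≤ T) (hTH : T ≤ H) : ∃ L : ℕ, 1 ≤ L ∧ (L : ℝ) ≤ H ∧
    L * T ≤ H ∧ 1 / (L : ℝ) ≤ 2 * (T / H) := by
  have hT0 : 0 < T := by linarith
  have hH0 : 0 < H := by linarith
  have h1 : 1 ≤ H / T := by rw [le_div_iff₀ hT0]; linarith
  have h2 : 1 ≤ ⌊H / T⌋₊ := Nat.le_floor (by simpa using h1)
  have h3 : (⌊H / T⌋₊ : ℝ) ≤ H / T := Nat.floor_le (by positivity)
  have h4 : H / T < ⌊H / T⌋₊ + 1 := Nat.lt_floor_add_one _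
  have h5 : (1 : ℝ) ≤ ⌊H / T⌋₊ := by exact_mod_cast h2
  have h6 : (⌊H / T⌋₊ : ℝ) * T ≤ H := by rwa [le_div_iff₀ hT0] at h3
  refine ⟨_, h2, by nlinarith, h6, ?_⟩
  rw [div_lt_iff₀ hT0] at h4
  rw [← mul_div_assoc, div_le_div_iff₀ (by linarith) hH0]
  nlinarith

theorem wlbox_plus {n K L M : ℕ} {r : ℤ} {T H : ℝ} {f g₁ g₂ : ℤ[X]} (hLT : L * T ≤ H)
    (h₁ : Lam n M r g₁) (h₂ : Lam n M r g₂) (hT₁ : g₁.supNorm ≤ T) (hT₂ : g₂.supNorm ≤ T)
    (hf : Bad n f) (hH : f.supNorm ≤ H) (hw : Wk M r f) (s t : ℤ) (hs : |s| ≤ L)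
    (ht : |t| ≤ K * L) : Plus n (((K + 2 : ℕ) : ℝ) * H) M r (f + C s * g₁ + C t * g₂) := by
  have e : f + C s * g₁ + C t * g₂ = f + (C s * g₁ + C t * g₂) := add_assoc _ _ _
  have hl := (h₁.C_mul s).add (h₂.C_mul t)
  have hm := monic_add_of_lt hf.1 hf.2.1 hl.1
  rw [e]
  refine ⟨hm.1, hm.2, ?_, wk_add hw hl.2⟩
  have a1 := sup_add_le f (C s * g₁ + C t * g₂)
  have a2 := sup_add_le (C s * g₁) (C t * g₂)
  rw [sup_C_mul_int, sup_C_mul_int] at a2
  have hs' : |(s : ℝ)| ≤ L := by exact_mod_cast hs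
  have ht' : |(t : ℝ)| ≤ K * L := by exact_mod_cast ht
  have b1 : |(s : ℝ)| * g₁.supNorm ≤ L * T :=
    mul_le_mul hs' hT₁ g₁.supNorm_nonneg (by positivity)
  have b2 : |(t : ℝ)| * g₂.supNorm ≤ K * L * T :=
    mul_le_mul ht' hT₂ g₂.supNorm_nonneg (by positivity)
  have b3 : (K : ℝ) * L * T ≤ K * H := by
    rw [mul_assoc]; exact mul_le_mul_of_nonneg_left hLT (by positivity)
  push_cast
  linarith

theorem wlbox_big {n K M : ℕ} {r : ℤ} {T H B E c : ℝ} {S : ℤ[X] → Prop} (hH : 1 ≤ H)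
    (hHT : H ≤ T) (hE : 1 ≤ E) (hc : 0 ≤ c)
    (hS : ∀ f, S f → Bad n f ∧ f.supNorm ≤ H ∧ Wk M r f)
    (hB : Cnt (Plus n (((K + 2 : ℕ) : ℝ) * H) M r) B) : Cnt S (E * B * (T / H) ^ c) := by
  have hB0 := hB.nonneg
  have h1 : 1 ≤ (T / H) ^ c :=
    Real.one_le_rpow (by rw [le_div_iff₀ (by linarith)]; linarith) hc
  refine hB.mono (fun f hf => ?_) ?_
  · obtain ⟨a, b, d⟩ := hS f hf
    refine ⟨a.1, a.2.1, b.trans ?_, d⟩
    have : (0 : ℝ) ≤ K := by positivity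
    push_cast
    nlinarith
  · calc B = 1 * B * 1 := by ring
      _ ≤ E * B * (T / H) ^ c := by gcongr

theorem llp_half (n : ℕ) (hn : 5 ≤ n) : ∃ K : ℕ, 1 ≤ K ∧ ∀ ε : ℝ, 0 < ε → ∃ C₀ : ℝ, 1 ≤ C₀ ∧
    ∀ (H : ℝ) (M : ℕ) (r : ℤ), 1 ≤ H → LLp n (K * H) H (C₀ * H ^ ε) (1 / 2) M r
      (fun f => Bad n f ∧ f.supNorm ≤ H ∧ Wk M r f) := by
  obtain ⟨K, hK⟩ := ll_half n hn
  refine ⟨K + 2, by omega, fun ε hε => ?_⟩
  obtain ⟨C₀, hC, h⟩ := hK ε hε
  refine ⟨2 * C₀, by linarith, fun H M r hH T B g₁ g₂ h₁ h₂ hi hT₁ hT₂ hB => ?_⟩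
  have hB0 := hB.nonneg
  have hε1 : 1 ≤ H ^ ε := Real.one_le_rpow hH hε.le
  have hT : 1 ≤ T := (one_le_sup (indep_ne_left hi)).trans hT₁
  rcases le_total H T with hHT | hTH
  · exact wlbox_big hH hHT (by nlinarith) (by norm_num) (fun f hf => hf) hB
  obtain ⟨L, hL1, hLH, hLT, hL⟩ := wlbox_len hT hTH
  refine (h H B L g₁ g₂ (fun f => Bad n f ∧ f.supNorm ≤ H ∧ Wk M r f) _ hL1 hLH h₁.1 h₂.1 hi
    (hT₁.trans hTH) (hT₂.trans hTH) (fun f hf => ⟨hf.1, hf.2.1⟩)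
    (fun f hf s t hs ht => wlbox_plus hLT h₁ h₂ hT₁ hT₂ hf.1 hf.2.1 hf.2.2 s t hs ht) hB).mono
    (fun f hf => hf) ?_
  have hq : 0 ≤ T / H := by positivity
  have a1 : 1 / √(L : ℝ) ≤ 2 * (T / H) ^ (1 / 2 : ℝ) := by
    rw [← Real.sqrt_eq_rpow, ← Real.sqrt_one, ← Real.sqrt_div zero_le_one]
    calc √(1 / (L : ℝ)) ≤ √(2 ^ 2 * (T / H)) := Real.sqrt_le_sqrt (by linarith)
      _ = 2 * √(T / H) := by rw [Real.sqrt_mul (by norm_num), Real.sqrt_sq (by norm_num)]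
  calc C₀ * H ^ ε * B / √(L : ℝ) = C₀ * H ^ ε * B * (1 / √(L : ℝ)) := by ring
    _ ≤ C₀ * H ^ ε * B * (2 * (T / H) ^ (1 / 2 : ℝ)) := by gcongr
    _ = _ := by ring

theorem llp_zero (n : ℕ) (hn : 5 ≤ n) : ∃ K : ℕ, 1 ≤ K ∧ ∀ ε : ℝ, 0 < ε → ∃ C₀ : ℝ, 1 ≤ C₀ ∧
    ∀ (H : ℝ) (M : ℕ) (r : ℤ), 1 ≤ H → 1 ≤ M → (M : ℝ) ≤ H →
      LLp n (K * H) H (C₀ * H ^ ε) 1 M r
      (fun f => Bad n f ∧ f.supNorm ≤ H ∧ Wk M r f ∧ WkIn M f) := by
  obtain ⟨K, hK⟩ := ll_zero n hn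
  refine ⟨K + 2, by omega, fun ε hε => ?_⟩
  obtain ⟨C₀, hC, h⟩ := hK ε hε
  refine ⟨2 * C₀, by linarith, fun H M r hH hM hMH T B g₁ g₂ h₁ h₂ hi hT₁ hT₂ hB => ?_⟩
  have hB0 := hB.nonneg
  have hε1 : 1 ≤ H ^ ε := Real.one_le_rpow hH hε.le
  have hT : 1 ≤ T := (one_le_sup (indep_ne_left hi)).trans hT₁
  rcases le_total H T with hHT | hTH
  · exact wlbox_big hH hHT (by nlinarith) zero_le_one (fun f hf => ⟨hf.1, hf.2.1, hf.2.2.1⟩) hB
  obtain ⟨L, hL1, hLH, hLT, hL⟩ := wlbox_len hT hTH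
  refine (h H B M L g₁ g₂ (fun f => Bad n f ∧ f.supNorm ≤ H ∧ Wk M r f ∧ WkIn M f) _ hM hMH hL1
    hLH h₁.1 h₂.1 hi (hT₁.trans hTH) (hT₂.trans hTH) (fun f hf => ⟨hf.1, hf.2.1, hf.2.2.2⟩)
    (fun f hf s t hs ht => wlbox_plus hLT h₁ h₂ hT₁ hT₂ hf.1 hf.2.1 hf.2.2.1 s t hs ht) hB).mono
    (fun f hf => hf) ?_
  rw [Real.rpow_one]
  calc C₀ * H ^ ε * B / (L : ℝ) = C₀ * H ^ ε * B * (1 / (L : ℝ)) := by ring
    _ ≤ C₀ * H ^ ε * B * (2 * (T / H)) := by gcongr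
    _ = _ := by ring

end Pool.Agent.VW.Lat
end

-- part Pool.Agent.P.MP_b0ea37_nt.WLSec
section

namespace Pool.Agent.VW.Lat

open Polynomial

theorem sec_fibre (n : ℕ) (hn : 5 ≤ n) (C₁ : ℝ) (hC : 1 ≤ C₁) (ε : ℝ) (hε : 0 < ε) :
    ∃ C₀ : ℝ, 1 ≤ C₀ ∧ ∀ (k : ℤ[X]) (M : ℕ) (r : ℤ) (H : ℝ), 1 ≤ H → k.IsPrimitive →
    Squarefree k → 1 ≤ k.natDegree → 2 * k.natDegree < n → k.supNorm ^ 2 ≤ C₁ * H → 1 ≤ M →
    (M : ℤ) ∣ k.eval r → IsCoprime (M : ℤ) ((derivative k).eval r) →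
    Cnt (fun f => Bad n f ∧ f.supNorm ≤ H ∧ Wk M r f)
      (C₀ * H ^ ((n : ℝ) - 1 / 2 + ε) * k.supNorm ^ (2 * k.natDegree) /
        (M : ℝ) ^ (13 / 8 : ℝ) / M) := by
  obtain ⟨K, hK, hL⟩ := llp_half n hn
  obtain ⟨CL, hCL, hL⟩ := hL ε hε
  obtain ⟨CF, hCF, hF⟩ := fil n C₁ hC
  have hK' : (1 : ℝ) ≤ K := by exact_mod_cast hK
  refine ⟨CL * CF * K ^ n, one_le_mul_of_one_le_of_one_le (one_le_mul_of_one_le_of_one_le hCL hCF)
    (one_le_pow₀ hK'), fun k M r H hH h1 h2 h3 h4 h5 hM h6 h7 => ?_⟩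
  have hM' : (1 : ℝ) ≤ M := by exact_mod_cast hM
  have hη := k.supNorm_nonneg
  refine Cnt.of_mem (by positivity) fun f₀ hf => ?_
  have hR : H ≤ K * H := le_mul_of_one_le_left (by linarith) hK'
  have hB := hF k f₀ M r (K * H) (hH.trans hR) h1 h2 h3 h4
    (h5.trans (mul_le_mul_of_nonneg_left hR (by linarith))) hM h6 h7
    ⟨hf.1.1, hf.1.2.1, hf.2.1.trans hR, hf.2.2⟩ hf.1.2.2.1
  obtain ⟨g₁, g₂, l1, l2, hi, s1, s2⟩ := exists_short n (by omega) M hM r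
  have hn' : (5 : ℝ) ≤ n := by exact_mod_cast hn
  have hT : (M : ℝ) ^ (3 / ((n : ℝ) - 1)) ≤ (M : ℝ) ^ (3 / 4 : ℝ) :=
    Real.rpow_le_rpow_of_exponent_le hM'
      (div_le_div_of_nonneg_left (by norm_num) (by norm_num) (by linarith))
  refine (hL H M r hH _ _ g₁ g₂ l1 l2 hi (s1.trans hT) (s2.trans hT) hB).mono (fun _ h => h)
    (le_of_eq ?_)
  have hM0 : (0 : ℝ) < M := by linarith
  have hH0 : 0 < H := by linarith
  have e1 : (M : ℝ) ^ 3 = (M : ℝ) ^ (13 / 8 : ℝ) * M * ((M : ℝ) ^ (3 / 4 : ℝ)) ^ (1 / 2 : ℝ) := by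
    rw [← Real.rpow_mul hM0.le, ← Real.rpow_add_one hM0.ne', ← Real.rpow_add hM0,
      ← Real.rpow_natCast]
    norm_num
  rw [Real.div_rpow (by positivity) hH0.le, Real.rpow_add hH0, Real.rpow_sub hH0,
    Real.rpow_natCast, e1, mul_pow]
  field_simp

theorem wlsec_num {η T H C₁ M : ℝ} {a e : ℕ} (hT : 1 ≤ T) (hη : T ≤ η) (hH : 1 ≤ H)
    (hk : η ^ 2 ≤ C₁ * H) (ha : 24 * e + 4 ≤ 13 * a) (hM : H ^ (12 / 25 : ℝ) * η ^ a ≤ M) :
    η ^ (2 * e) / M ^ (13 / 8 : ℝ) ≤ (C₁ * H) ^ (1 / 4 : ℝ) / H ^ (39 / 50 : ℝ) / T ^ (e + 1) := by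
  have h1 : 1 ≤ η := hT.trans hη
  have h0 : 0 < η := by linarith
  have hM0 : 0 < M := lt_of_lt_of_le (by positivity) hM
  have ha' : (24 : ℝ) * e + 4 ≤ 13 * a := by exact_mod_cast ha
  have e1 : H ^ (39 / 50 : ℝ) * η ^ ((a : ℝ) * (13 / 8)) ≤ M ^ (13 / 8 : ℝ) := by
    have := Real.rpow_le_rpow (by positivity) hM (by norm_num : (0 : ℝ) ≤ 13 / 8)
    rwa [Real.mul_rpow (by positivity) (by positivity), ← Real.rpow_mul (by linarith),
      ← Real.rpow_natCast, ← Real.rpow_mul h0.le,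
      show (12 / 25 * (13 / 8) : ℝ) = 39 / 50 by norm_num] at this
  have e2 : η ^ (2 * e) * T ^ (e + 1) ≤ (C₁ * H) ^ (1 / 4 : ℝ) * η ^ ((a : ℝ) * (13 / 8)) :=
    calc η ^ (2 * e) * T ^ (e + 1) ≤ η ^ (2 * e) * η ^ (e + 1) := by gcongr
      _ = η ^ ((2 * e + (e + 1) : ℕ) : ℝ) := by rw [Real.rpow_natCast, pow_add η (2 * e)]
      _ ≤ η ^ ((2 : ℕ) * (1 / 4) + (a : ℝ) * (13 / 8)) :=
        Real.rpow_le_rpow_of_exponent_le h1 (by push_cast; linarith)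
      _ = (η ^ 2) ^ (1 / 4 : ℝ) * η ^ ((a : ℝ) * (13 / 8)) := by
        rw [Real.rpow_add h0, Real.rpow_mul h0.le, Real.rpow_natCast]
      _ ≤ _ := by gcongr
  have hC : 0 ≤ (C₁ * H) ^ (1 / 4 : ℝ) := Real.rpow_nonneg ((sq_nonneg η).trans hk) _
  rw [div_div, div_le_div_iff₀ (by positivity) (by positivity)]
  calc η ^ (2 * e) * (H ^ (39 / 50 : ℝ) * T ^ (e + 1))
      = H ^ (39 / 50 : ℝ) * (η ^ (2 * e) * T ^ (e + 1)) := by ring
    _ ≤ H ^ (39 / 50 : ℝ) * ((C₁ * H) ^ (1 / 4 : ℝ) * η ^ ((a : ℝ) * (13 / 8))) := by gcongr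
    _ = (C₁ * H) ^ (1 / 4 : ℝ) * (H ^ (39 / 50 : ℝ) * η ^ ((a : ℝ) * (13 / 8))) := by ring
    _ ≤ _ := by gcongr

/-- the count for one polynomial `k` -/
theorem wlsec_one (n : ℕ) (hn : 5 ≤ n) (C₁ : ℝ) (hC : 1 ≤ C₁) (ε : ℝ) (hε : 0 < ε) :
    ∃ C₀ : ℝ, 1 ≤ C₀ ∧ ∀ (k : ℤ[X]) (H T Z : ℝ), 1 ≤ H → 1 ≤ T → 1 ≤ Z →
    Cnt (fun f => T ≤ k.supNorm ∧ f.supNorm ≤ H ∧ Bad n f ∧ ∃ (M : ℕ) (r : ℤ), k.IsPrimitive ∧
      Squarefree k ∧ 1 ≤ k.natDegree ∧ 2 * k.natDegree < n ∧ k.supNorm ^ 2 ≤ C₁ * H ∧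
      Squarefree M ∧ (M : ℝ) ≤ Z ∧ 0 ≤ r ∧ r < M ∧ (M : ℤ) ∣ k.eval r ∧
      IsCoprime (M : ℤ) ((derivative k).eval r) ∧
      H ^ (12 / 25 : ℝ) * k.supNorm ^ (2 * n - 4 - k.natDegree) ≤ M ∧ Wk M r f)
      (C₀ * (Z ^ ε * Z ^ ε * H ^ ((n : ℝ) - 1 / 2 + ε) * (C₁ * H) ^ (1 / 4 : ℝ) /
        H ^ (39 / 50 : ℝ)) / T ^ (k.natDegree + 1)) := by
  obtain ⟨Cs, hs1, hs⟩ := sec_fibre n hn C₁ hC ε hε
  obtain ⟨Cr, hr1, hr⟩ := cnt_roots_prim n ε hε
  obtain ⟨Ch, hh1, hh⟩ := cnt_harm ε hε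
  refine ⟨Ch * Cr * Cs, one_le_mul_of_one_le_of_one_le (one_le_mul_of_one_le_of_one_le hh1 hr1) hs1,
    fun k H T Z hH hT hZ => Cnt.of_mem (by positivity) ?_⟩
  rintro - ⟨hη, -, -, -, -, k1, k2, k3, k4, k5, -⟩
  have hη0 := k.supNorm_nonneg
  refine (hh Z (Cr * Z ^ ε * (Cs * H ^ ((n : ℝ) - 1 / 2 + ε) *
      ((C₁ * H) ^ (1 / 4 : ℝ) / H ^ (39 / 50 : ℝ) / T ^ (k.natDegree + 1))))
    (fun M f => (Squarefree M ∧
      H ^ (12 / 25 : ℝ) * k.supNorm ^ (2 * n - 4 - k.natDegree) ≤ M) ∧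
      ∃ r : ℤ, (0 ≤ r ∧ r < (1 * M : ℕ) ∧ (M : ℤ) ∣ k.eval r) ∧
        IsCoprime (M : ℤ) ((derivative k).eval r) ∧ Bad n f ∧ f.supNorm ≤ H ∧ Wk M r f)
    hZ (by positivity) fun M hM hMZ => Cnt.of_mem (by positivity) ?_).mono ?_ (le_of_eq (by ring))
  · rintro - ⟨⟨m1, m2⟩, -⟩
    have hM0 : (0 : ℝ) < M := by exact_mod_cast hM
    refine ((hr k 1 M k1 (by omega) le_rfl m1).fibre (by positivity) fun r hr' =>
      Cnt.of_mem (by positivity) fun _ h => (hs k M r H hH k1 k2 k3 k4 k5 hM hr'.2.2 h.1).mono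
        (fun _ h => h.2) le_rfl).mono (fun _ h => h.2) ?_
    have := wlsec_num (e := k.natDegree) hT hη hH k5 (by omega) m2
    rw [Nat.cast_one, mul_one, mul_div_assoc (Cr * Z ^ ε), mul_div_assoc (Cs * _)]
    gcongr
  · rintro f ⟨-, f1, f2, M, r, -, -, -, -, -, m1, m2, r1, r2, r3, r4, m3, w⟩
    exact ⟨M, Nat.pos_of_ne_zero m1.ne_zero, m2, ⟨m1, m3⟩, r, ⟨r1, by rwa [one_mul], r3⟩, r4, f2,
      f1, w⟩

theorem ps_second (n D : ℕ) (hn : 5 ≤ n) (hD : 1 ≤ D) (C₁ : ℝ) (hC : 1 ≤ C₁) :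
    PS n fun H f => Bad n f ∧ ∃ (k : ℤ[X]) (M : ℕ) (r : ℤ), k.IsPrimitive ∧ Squarefree k ∧
      1 ≤ k.natDegree ∧ 2 * k.natDegree < n ∧ k.supNorm ^ 2 ≤ C₁ * H ∧ Squarefree M ∧
      (M : ℝ) ≤ H ^ D ∧ 0 ≤ r ∧ r < M ∧ (M : ℤ) ∣ k.eval r ∧
      IsCoprime (M : ℤ) ((derivative k).eval r) ∧
      H ^ (12 / 25 : ℝ) * k.supNorm ^ (2 * n - 4 - k.natDegree) ≤ M ∧ Wk M r f := by
  obtain ⟨ε, hε⟩ : ∃ ε : ℝ, ε = 1 / (100 * (2 * D + 2)) := ⟨_, rfl⟩
  have hε0 : 0 < ε := by rw [hε]; positivity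
  have hε1 : ε * (2 * D + 2) = 1 / 100 := by rw [hε]; field_simp
  obtain ⟨Co, ho1, ho⟩ := wlsec_one n hn C₁ hC ε hε0
  obtain ⟨Cd, hd1, hd⟩ := cnt_dy ε hε0
  refine (PS.fin (Finset.range n) (P := fun e H f => ∃ t : ℝ, 1 ≤ t ∧ t ≤ H ∧ ∃ k : ℤ[X],
    k.supNorm = t ∧ k.natDegree = e ∧ Bad n f ∧ ∃ (M : ℕ) (r : ℤ), k.IsPrimitive ∧
      Squarefree k ∧ 1 ≤ k.natDegree ∧ 2 * k.natDegree < n ∧ k.supNorm ^ 2 ≤ C₁ * H ∧
      Squarefree M ∧ (M : ℝ) ≤ H ^ D ∧ 0 ≤ r ∧ r < M ∧ (M : ℤ) ∣ k.eval r ∧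
      IsCoprime (M : ℤ) ((derivative k).eval r) ∧
      H ^ (12 / 25 : ℝ) * k.supNorm ^ (2 * n - 4 - k.natDegree) ≤ M ∧ Wk M r f)
    fun e _ => PS.of_lt ((n : ℝ) - 51 / 50) (Cd * 5 ^ (e + 1) * Co * C₁ ^ (1 / 4 : ℝ)) 1
      (by linarith) fun H hH => ?_).mono C₁ ?_
  · have hH0 : 0 < H := by linarith
    refine (hd H (5 ^ (e + 1) * (Co * ((H ^ D) ^ ε * (H ^ D) ^ ε * H ^ ((n : ℝ) - 1 / 2 + ε) *
        (C₁ * H) ^ (1 / 4 : ℝ) / H ^ (39 / 50 : ℝ))))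
      (fun t f => f.supNorm ≤ H ∧ ∃ k : ℤ[X],
        k.supNorm = t ∧ k.natDegree = e ∧ Bad n f ∧ ∃ (M : ℕ) (r : ℤ), k.IsPrimitive ∧
        Squarefree k ∧ 1 ≤ k.natDegree ∧ 2 * k.natDegree < n ∧ k.supNorm ^ 2 ≤ C₁ * H ∧
        Squarefree M ∧ (M : ℝ) ≤ H ^ D ∧ 0 ≤ r ∧ r < M ∧ (M : ℤ) ∣ k.eval r ∧
        IsCoprime (M : ℤ) ((derivative k).eval r) ∧
        H ^ (12 / 25 : ℝ) * k.supNorm ^ (2 * n - 4 - k.natDegree) ≤ M ∧ Wk M r f)
      hH (by positivity) fun T hT _ => ?_).mono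
      (fun f ⟨h, t, t1, t2, h'⟩ => ⟨t, t1, t2, h.2.2.2, h'⟩) (le_of_eq ?_)
    · refine (((cnt_poly (e + 1) (2 * T) (by linarith)).mono
        (P := fun k => k.natDegree = e ∧ k.supNorm ≤ 2 * T)
        (B' := (5 * T) ^ (e + 1)) (fun k h => ⟨?_, h.2⟩) ?_).fibre (by positivity)
        fun k hk => hk.1 ▸ ho k H T (H ^ D) hH hT (one_le_pow₀ hH)).mono ?_ (le_of_eq ?_)
      · exact degree_le_natDegree.trans_lt (by rw [h.1]; exact_mod_cast Nat.lt_succ_self e)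
      · gcongr
        linarith
      · rintro f ⟨t, t1, t2, f1, k, rfl, h1, h2⟩
        exact ⟨k, ⟨h1, t2⟩, t1, f1, h1 ▸ h2⟩
      · rw [mul_pow]
        field_simp
    · have e1 : (n : ℝ) - 51 / 50 = ε + D * ε + D * ε + (n - 1 / 2 + ε) + 1 / 4 - 39 / 50 := by
        linarith
      rw [e1, Real.rpow_sub hH0, Real.rpow_add hH0 _ (1 / 4), Real.rpow_add hH0 _ (n - 1 / 2 + ε),
        Real.rpow_add hH0 _ (D * ε), Real.rpow_add hH0 _ (D * ε), Real.rpow_natCast_mul hH0.le,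
        Real.mul_rpow (by linarith) hH0.le]
      ring
  · rintro H hH f - ⟨hf, k, M, r, h⟩
    have h1 := h.2.2.2.1
    have h2 := h.2.2.2.2.1
    refine ⟨k.natDegree, Finset.mem_range.2 (by omega), _, one_le_sup h.1.ne_zero, ?_, k, rfl, rfl,
      hf, M, r, h⟩
    exact le_of_sq_le_sq (by nlinarith) (by linarith)

end Pool.Agent.VW.Lat
end

-- part Pool.Agent.P.MP_b0ea37_nt.WLThm
section

namespace Pool.Agent.VW.Lat

open Polynomial

theorem wlthm_muL (n : ℕ) (hn : 5 ≤ n) : 9 / 5 ≤ muL n ∧ muL n ≤ n ∧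
    muL n / ((n : ℝ) - 1) < 1 / 2 ∧ 1 - tau n + 2 * muL n < (n : ℝ) - 1 := by
  have h5 : (5 : ℝ) ≤ n := by exact_mod_cast hn
  have h1 : (0 : ℝ) < (n : ℝ) - 1 := by linarith
  have e1 : (n : ℝ) * (n - 2) / (2 * (n - 1)) = ((n : ℝ) - 1) / 2 - 1 / (2 * (n - 1)) := by
    field_simp; ring
  have e2 : ((n : ℝ) - 2) / (n - 1) = 1 - 2 * (1 / (2 * (n - 1))) := by field_simp; ring
  have h2 : (0 : ℝ) < 1 / (2 * (n - 1)) := by positivity
  have h3 : (1 : ℝ) / (2 * (n - 1)) ≤ 1 / 8 := by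
    apply one_div_le_one_div_of_le <;> linarith
  unfold muL tau
  rw [e1, e2]
  refine ⟨by linarith, by linarith, ?_, by linarith⟩
  rw [div_lt_iff₀ h1]
  linarith

theorem wlthm_line (n : ℕ) (hn : 5 ≤ n) (A E H T : ℝ) (hA : 0 ≤ A) (hE : 1 ≤ E) (hT : 1 ≤ T)
    (hH : T ≤ H) : A * H / T ≤
      A * E * H ^ ((n : ℝ) - 3 / 2 + 1 / 100) / T ^ ((n : ℝ) - 3 / 2) := by
  have h5 : (5 : ℝ) ≤ n := by exact_mod_cast hn
  have hT0 : 0 < T := by linarith
  have hH1 : 1 ≤ H := hT.trans hH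
  have hH0 : 0 < H := by linarith
  have h1 : 1 ≤ H / T := (one_le_div hT0).2 hH
  have h2 : H / T ≤ (H / T) ^ ((n : ℝ) - 3 / 2) := by
    conv_lhs => rw [← Real.rpow_one (H / T)]
    exact Real.rpow_le_rpow_of_exponent_le h1 (by linarith)
  have h3 : H ^ ((n : ℝ) - 3 / 2) ≤ H ^ ((n : ℝ) - 3 / 2 + 1 / 100) :=
    Real.rpow_le_rpow_of_exponent_le hH1 (by linarith)
  rw [Real.div_rpow hH0.le hT0.le] at h2
  have h4 : 0 < T ^ ((n : ℝ) - 3 / 2) := Real.rpow_pos_of_pos hT0 _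
  calc A * H / T = A * 1 * (H / T) := by ring
    _ ≤ A * E * (H ^ ((n : ℝ) - 3 / 2) / T ^ ((n : ℝ) - 3 / 2)) := by gcongr
    _ ≤ A * E * (H ^ ((n : ℝ) - 3 / 2 + 1 / 100) / T ^ ((n : ℝ) - 3 / 2)) := by gcongr
    _ = _ := by ring

theorem wlthm_unit {k : ℤ[X]} (hk : k.IsPrimitive) (h0 : k.natDegree = 0) {M : ℕ} {r : ℤ}
    (h : (M : ℤ) ∣ k.eval r) : M = 1 := by
  obtain ⟨a, rfl⟩ := natDegree_eq_zero.1 h0
  rw [eval_C] at h
  have hu : IsUnit (M : ℤ) := hk _ (map_dvd C h)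
  have := Int.isUnit_iff_natAbs_eq.1 hu
  simpa using this

theorem thm_L (n : ℕ) (hn : 5 ≤ n) (K : ℕ) (hK : 1 ≤ K) (c μ₀ μ₁ : ℝ) (hc : 1 / 2 ≤ c) (hc1 : c ≤ 1)
    (hμ₁ : μ₁ ≤ muL n) (hμ : 1 - c < (1 - 3 * c / ((n : ℝ) - 1)) * μ₀)
    (S : ℝ → ℕ → ℤ → ℤ[X] → Prop)
    (hS : ∀ H M r f, S H M r f → Bad n f ∧ f.supNorm ≤ H ∧ Wk M r f)
    (hL : ∀ ε : ℝ, 0 < ε → ∃ C₀ : ℝ, 1 ≤ C₀ ∧ ∀ (H : ℝ) (M : ℕ) (r : ℤ), 1 ≤ H → 1 ≤ M →
      (M : ℝ) ≤ H ^ μ₁ → LLp n (K * H) H (C₀ * H ^ ε) c M r (S H M r)) :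
    PS n fun H f => ∃ (M : ℕ) (r : ℤ), Squarefree M ∧ H ^ μ₀ ≤ M ∧ (M : ℝ) ≤ H ^ μ₁ ∧ 0 ≤ r ∧
      r < M ∧ S H M r f := by
  have h5 : (5 : ℝ) ≤ n := by exact_mod_cast hn
  have hn1 : (0 : ℝ) < (n : ℝ) - 1 := by linarith
  obtain ⟨hm1, hm2, hm3, hm4⟩ := wlthm_muL n hn
  obtain ⟨ε, hε, hε1, hε2, hε3⟩ : ∃ ε : ℝ, 0 < ε ∧ ε ≤ 1 / 100 ∧
      ε + muL n / ((n : ℝ) - 1) < 1 / 2 ∧ ε + (1 - c) < (1 - 3 * c / ((n : ℝ) - 1)) * μ₀ := by
    set a := 1 / 2 - muL n / ((n : ℝ) - 1) with ha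
    set b := (1 - 3 * c / ((n : ℝ) - 1)) * μ₀ - (1 - c) with hb
    have ha0 : 0 < a := by linarith
    have hb0 : 0 < b := by linarith
    have l1 := min_le_left (1 / 100 : ℝ) (min (a / 2) (b / 2))
    have l2 := (min_le_right (1 / 100 : ℝ) (min (a / 2) (b / 2))).trans (min_le_left _ _)
    have l3 := (min_le_right (1 / 100 : ℝ) (min (a / 2) (b / 2))).trans (min_le_right _ _)
    exact ⟨min (1 / 100) (min (a / 2) (b / 2)), by positivity, l1, by linarith, by linarith⟩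
  obtain ⟨C₀, hC₀, hLL⟩ := hL ε hε
  obtain ⟨A, hA, hP⟩ := pair_cases n hn K
  obtain ⟨Ck, hCk, hk⟩ := exists_ker n
  choose! kf Nf hk using hk
  have hb0 : 0 ≤ 1 - 3 * c / ((n : ℝ) - 1) := by
    rw [sub_nonneg, div_le_one hn1]; linarith
  have hAC : 0 ≤ A * C₀ := by positivity
  have hA0 : 0 ≤ A := by linarith
  have hD : 1 ≤ 2 * n + 1 := by omega
  have eτ : muL n * (2 / ((n : ℝ) - 1)) / 2 = muL n / ((n : ℝ) - 1) := by ring
  have p1 := ps_pow n (2 * n + 1) ((n : ℝ) - c + ε - (1 - 3 * c / ((n : ℝ) - 1)) * μ₀) (A * C₀)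
    (by linarith) hAC S
  have p2 := ps_pow n (2 * n + 1) ((n : ℝ) - 3 / 2 + ε + 1 / ((n : ℝ) - 1) * muL n) (A * C₀)
    (by rw [one_div_mul_eq_div]; linarith) hAC S
  have p3 := ps_pow n (2 * n + 1) (1 - tau n + 2 * muL n) A hm4 hA0 S
  have p4 := ps_gen n (2 * n + 1) hn hD A hA0 Nf S
  have p5 := ps_spec n (2 * n + 1) hn hD (A * C₀) ε (muL n * (2 / ((n : ℝ) - 1))) hAC hε.le
    (by have : 0 ≤ muL n := by linarith
        positivity) (by rw [eτ]; exact hε2) Nf S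
  have p6 := ps_first n (2 * n + 1) hn hD (A * C₀) hAC Nf S
  have p7 := ps_second n (2 * n + 1) hn hD (16 ^ n) (one_le_pow₀ (by norm_num))
  refine (p1.or (p2.or (p3.or (p4.or (p5.or (p6.or p7)))))).mono Ck ?_
  rintro H hH f - ⟨M, r, hsq, hM0, hM1, hr0, hr1, hf⟩
  have hH1 : 1 ≤ H := hCk.trans hH
  have hH0 : 0 < H := by linarith
  have hM : 1 ≤ M := Nat.pos_of_ne_zero hsq.ne_zero
  have hM' : (1 : ℝ) ≤ M := by exact_mod_cast hM
  have hML : (M : ℝ) ≤ H ^ muL n := hM1.trans (Real.rpow_le_rpow_of_exponent_le hH1 hμ₁)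
  have hMD : (M : ℝ) ≤ H ^ (2 * n + 1) := by
    refine hML.trans ?_
    rw [← Real.rpow_natCast]
    refine Real.rpow_le_rpow_of_exponent_le hH1 ?_
    push_cast; linarith
  have hE : 1 ≤ C₀ * H ^ ε := one_le_mul_of_one_le_of_one_le hC₀ (Real.one_le_rpow hH1 hε.le)
  have hK' : (1 : ℝ) ≤ K := by exact_mod_cast hK
  have hpl : ∀ f, S H M r f → Plus n (K * H) M r f := fun f hf => by
    obtain ⟨h1, h2, h3⟩ := hS _ _ _ _ hf
    exact ⟨h1.1, h1.2.1, h2.trans (le_mul_of_one_le_left hH0.le hK'), h3⟩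
  have eH : ∀ a : ℝ, A * (C₀ * H ^ ε) * H ^ a = A * C₀ * H ^ (a + ε) := fun a => by
    rw [Real.rpow_add hH0]; ring
  rcases hP H _ c M r (S H M r) hH1 hE hc hM hpl (hLL H M r hH1 hM hM1) with
    h | h | h | ⟨g, hg0, hg, hgH, h⟩
  · refine Or.inl ⟨M, r, hM, hMD, hr0, hr1, hf, h.mono (fun _ h => h) ?_⟩
    have := num_down H M ((n : ℝ) - c + ε) _ μ₀ hH1 hM' hb0 hM0
    have e : 3 * c / ((n : ℝ) - 1) - 3 = -(1 - 3 * c / ((n : ℝ) - 1)) - 2 := by ring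
    rw [eH, e, mul_assoc, mul_div_assoc (A * C₀)]
    exact mul_le_mul_of_nonneg_left this hAC
  · refine Or.inr (Or.inl ⟨M, r, hM, hMD, hr0, hr1, hf, h.mono (fun _ h => h) ?_⟩)
    have := num_up H M ((n : ℝ) - 3 / 2 + ε) (1 / ((n : ℝ) - 1)) _ hH1 hM' (by positivity) hML
    rw [eH, mul_assoc, mul_div_assoc]
    exact mul_le_mul_of_nonneg_left this hAC
  · refine Or.inr (Or.inr (Or.inl ⟨M, r, hM, hMD, hr0, hr1, hf, h.mono (fun _ h => h) ?_⟩))
    have := num_up H M (1 - tau n) 2 _ hH1 hM' (by norm_num) hML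
    rw [sub_self, Real.rpow_zero, mul_one] at this
    rw [mul_div_assoc]
    exact mul_le_mul_of_nonneg_left this hA0
  · refine Or.inr (Or.inr (Or.inr ?_))
    obtain ⟨hker, hN⟩ := hk g hg0 hg.1
    have hg1 := one_le_sup hg0
    have hND : (Nf g : ℝ) ≤ H ^ (2 * n + 1) := by
      refine hN.trans ?_
      rw [pow_succ, mul_comm]
      gcongr
    obtain ⟨M', r', h1, h2, h3, h4, h5', h6, h7, h8⟩ := ker_split hker hsq hg.2
    have tri : ∀ Y : ℝ, (M' : ℝ) ≤ Y → Tri (H ^ (2 * n + 1)) Y Nf M r g := fun Y hY =>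
      ⟨hsq, hMD, hr0, hr1, hg.2, hker.2.2.2.1, hND, M', h1, hY, h3⟩
    rcases Nat.eq_zero_or_pos (kf g).natDegree with h0 | h0
    · have hY : (M' : ℝ) ≤ 1 := by rw [wlthm_unit hker.1 h0 h7, Nat.cast_one]
      rcases h with ⟨ha, hb⟩ | ⟨ha, hb, hc'⟩
      · exact Or.inl ⟨M, r, g, hg0, hg.1, ha, tri 1 hY, hf, hb⟩
      · refine Or.inr (Or.inl ⟨M, r, g, hg0, hg.1, ha, hb.trans ?_, tri 1 hY, hf, ?_⟩)
        · rw [Real.rpow_mul hH0.le]
          exact Real.rpow_le_rpow (by linarith) hML (by positivity)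
        · rwa [eH] at hc'
    · refine Or.inr (Or.inr ?_)
      by_cases hY : (M' : ℝ) ≤
          H ^ (12 / 25 : ℝ) * (kf g).supNorm ^ (2 * n - 4 - (kf g).natDegree)
      · refine Or.inl ⟨M, r, g, kf g, hg0, hg.1, hgH, hker.1, h0, hker.2.2.1, tri _ hY, hf, ?_⟩
        rcases h with ⟨-, hb⟩ | ⟨-, -, hc'⟩
        · exact hb.mono (fun _ h => h) (wlthm_line n hn A C₀ H _ hA0 hC₀ hg1 hgH)
        · refine hc'.mono (fun _ h => h) ?_
          rw [eH]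
          have : H ^ ((n : ℝ) - 3 / 2 + ε) ≤ H ^ ((n : ℝ) - 3 / 2 + 1 / 100) :=
            Real.rpow_le_rpow_of_exponent_le hH1 (by linarith)
          gcongr
      · obtain ⟨hbad, -, hw⟩ := hS _ _ _ _ hf
        have hdeg := natDegree_le_of_dvd hker.2.2.1 hg0
        rw [natDegree_pow] at hdeg
        refine Or.inr ⟨hbad, kf g, M', r', hker.1, hker.2.1, h0, by have := hg.1; omega, ?_,
          hsq.squarefree_of_dvd h2, ?_, h4, h5', h7, h8, (not_le.1 hY).le,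
          wk_of_mod h6 (wk_of_dvd h2 hw)⟩
        · refine (sq_sup_le_of_dvd hg0 hg.1.le hker.2.2.1).trans ?_
          gcongr
        · exact le_trans (by exact_mod_cast Nat.le_of_dvd hM h2) hMD

theorem lat_A (n : ℕ) (hn : 5 ≤ n) (δ : ℝ) (hδ : 0 < δ) : PS n fun H f => Bad n f ∧
    ∃ (M : ℕ) (r : ℤ), Squarefree M ∧ H ^ δ < M ∧ (M : ℝ) ≤ H ^ (9 / 10 : ℝ) ∧ WkIn M f ∧
      Wk M r f := by
  have h5 : (5 : ℝ) ≤ n := by exact_mod_cast hn
  have hn1 : (0 : ℝ) < (n : ℝ) - 1 := by linarith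
  obtain ⟨K, hK, hL⟩ := llp_zero n hn
  have hb : 0 < 1 - 3 * 1 / ((n : ℝ) - 1) := by
    rw [sub_pos, div_lt_one hn1]; linarith
  refine (thm_L n hn K hK 1 δ (9 / 10) (by norm_num) le_rfl
    (by linarith [(wlthm_muL n hn).1]) (by rw [sub_self]; positivity)
    (fun H M r f => Bad n f ∧ f.supNorm ≤ H ∧ Wk M r f ∧ WkIn M f)
    (fun _ _ _ _ h => ⟨h.1, h.2.1, h.2.2.1⟩) fun ε hε => ?_).mono 1 ?_
  · obtain ⟨C₀, hC, h⟩ := hL ε hε
    refine ⟨C₀, hC, fun H M r hH hM hM1 => h H M r hH hM (hM1.trans ?_)⟩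
    conv_rhs => rw [← Real.rpow_one H]
    exact Real.rpow_le_rpow_of_exponent_le hH (by norm_num)
  · rintro H - f hf ⟨hbad, M, r, hsq, h1, h2, h3, h4⟩
    obtain ⟨r', hr0, hr1, hr⟩ := exists_res M (Nat.pos_of_ne_zero hsq.ne_zero) r
    exact ⟨M, r', hsq, h1.le, h2, hr0, hr1, hbad, hf.2.2.2, wk_of_mod hr h4, h3⟩

theorem lat_B (n : ℕ) (hn : 5 ≤ n) : PS n fun H f => Bad n f ∧
    ∃ (M : ℕ) (r : ℤ), Squarefree M ∧ H ^ (9 / 10 : ℝ) < M ∧ (M : ℝ) ≤ H ^ muL n ∧ Wk M r f := by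
  have h5 : (5 : ℝ) ≤ n := by exact_mod_cast hn
  have hn1 : (0 : ℝ) < (n : ℝ) - 1 := by linarith
  obtain ⟨K, hK, hL⟩ := llp_half n hn
  have hb : 3 * (1 / 2) / ((n : ℝ) - 1) ≤ 3 / 8 := by
    rw [div_le_iff₀ hn1]; linarith
  refine (thm_L n hn K hK (1 / 2) (9 / 10) (muL n) le_rfl (by norm_num) le_rfl (by linarith)
    (fun H M r f => Bad n f ∧ f.supNorm ≤ H ∧ Wk M r f) (fun _ _ _ _ h => h)
    fun ε hε => ?_).mono 1 ?_
  · obtain ⟨C₀, hC, h⟩ := hL ε hε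
    exact ⟨C₀, hC, fun H M r hH _ _ => h H M r hH⟩
  · rintro H - f hf ⟨hbad, M, r, hsq, h1, h2, h4⟩
    obtain ⟨r', hr0, hr1, hr⟩ := exists_res M (Nat.pos_of_ne_zero hsq.ne_zero) r
    exact ⟨M, r', hsq, h1.le, h2, hr0, hr1, hbad, hf.2.2.2, wk_of_mod hr h4⟩

end Pool.Agent.VW.Lat
end

-- part Pool.Agent.P.MP_b0ea37_nt.WLat
section

namespace Pool.Agent.VW

open Polynomial

/-- section 3, range A -/
theorem ps_latA (n : ℕ) (hn : 5 ≤ n) (δ : ℝ) (hδ : 0 < δ) : PS n fun H f => Bad n f ∧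
    ∃ (M : ℕ) (r : ℤ), Squarefree M ∧ H ^ δ < M ∧ (M : ℝ) ≤ H ^ (9 / 10 : ℝ) ∧ WkIn M f ∧
      Wk M r f := Lat.lat_A n hn δ hδ

/-- section 3, range B -/
theorem ps_latB (n : ℕ) (hn : 5 ≤ n) : PS n fun H f => Bad n f ∧
    ∃ (M : ℕ) (r : ℤ), Squarefree M ∧ H ^ (9 / 10 : ℝ) < M ∧ (M : ℝ) ≤ H ^ muL n ∧ Wk M r f :=
  Lat.lat_B n hn

end Pool.Agent.VW
end

-- part Pool.Agent.P.MP_b0ea37_nt.WMDefs
section

namespace Pool.Agent.VW

open Polynomial

/-- `-c` is a square modulo `f` for a small squarefree `c` of degree one or two -/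
def CC (om : ℝ) (f : ℤ[X]) : Prop :=
  ∃ c : ℤ[X], (c.natDegree = 1 ∨ c.natDegree = 2) ∧ Squarefree (up ℚ c) ∧ c.supNorm ≤ om ∧
    ∃ q : ℚ[X], up ℚ f ∣ q ^ 2 + up ℚ c

/-- the window equation with its four size bounds -/
def CW (n : ℕ) (Tw Xm Tk E0 : ℝ) (f : ℤ[X]) : Prop :=
  ∃ E k v w : ℤ[X], f * E = k ^ 2 + v ^ 2 * w ∧ v ≠ 0 ∧ E.natDegree + 2 ≤ n ∧ k.natDegree < n ∧
    v.natDegree < n ∧ (w.natDegree = 1 ∨ w.natDegree = 2) ∧ Squarefree (up ℚ w) ∧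
    w.supNorm ≤ Tw ∧ v.supNorm ≤ Xm ∧ k.supNorm ≤ Tk ∧ E.supNorm ≤ E0

/-- pairs of integral forms that are diagonal in the same complex coordinates -/
def Adm {d : ℕ} (Y : ℝ) (A B : Matrix (Fin d) (Fin d) ℤ) : Prop :=
  ∃ (E : Matrix (Fin d) (Fin d) ℂ) (al η : Fin d → ℂ) (s : Equiv.Perm (Fin d)),
    Function.Injective η ∧ A.det ≠ 0 ∧
    (∀ k, η (s k) = starRingEnd ℂ (η k) ∧ al (s k) = starRingEnd ℂ (al k) ∧
      ∀ a, E a (s k) = starRingEnd ℂ (E a k)) ∧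
    (∀ a b, (A a b : ℂ) = ∑ k, al k * E a k * E b k) ∧
    (∀ a b, (B a b : ℂ) = ∑ k, al k * η k * E a k * E b k) ∧
    |(A.det : ℝ)| * ∏ k, max 1 ‖η k‖ ≤ Y

/-- a square root of a rational number in the field of `f` is rational -/
def NQ (f : ℤ[X]) : Prop :=
  ∀ (g : ℚ[X]) (a : ℚ), up ℚ f ∣ g ^ 2 - C a → ∃ b : ℚ, up ℚ f ∣ g - C b

/-- `G / c` is the square root of `f * f'` modulo `v ^ 2` that is close to `f` at the roots
of `v` -/
def NR (v : ℤ[X]) (c : ℤ) (f f' G : ℤ[X]) : Prop :=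
  v ^ 2 ∣ G ^ 2 - C (c ^ 2) * f * f' ∧
    ∀ z : ℂ, aeval z v = 0 → ‖aeval z G - c * aeval z f‖ ≤ c * ‖aeval z f‖ / 10

/-- `f'` is close to `f` at the roots of `v` -/
def Cl (v f f' : ℤ[X]) : Prop :=
  ∀ z : ℂ, aeval z v = 0 → aeval z f ≠ 0 ∧ ‖aeval z f' - aeval z f‖ ≤ ‖aeval z f‖ / 100

/-- the two archimedean bounds for `f + f' - 2 √(f f')` modulo `v ^ 2` -/
def ArchZ (n d : ℕ) (v f f' : ℤ[X]) (a L : ℝ) : Prop :=
  ∀ (c : ℤ) (G E : ℤ[X]), 0 < c → NR v c f f' G → v ^ 2 ∣ C c * (f + f') - 2 * G - E →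
    (n - 1 ≤ E.natDegree → E.natDegree < 2 * d →
      |(E.leadingCoeff : ℝ)| ≤ c * a * (v.leadingCoeff : ℝ) ^ 2) ∧
    (E.natDegree + 2 ≤ n → E.supNorm ≤ c * L)

end Pool.Agent.VW
end

-- part Pool.Agent.P.MP_b0ea37_nt.WMD2
section

namespace Pool.Agent.VW

open Polynomial

/-- `Y ^ k * g (t + c / Y)` -/
noncomputable def Tw (k : ℕ) (t c : ℤ) (g : ℤ[X]) : ℤ[X] :=
  ∑ i ∈ Finset.range (k + 1), C ((taylor t g).coeff i * c ^ i) * X ^ (k - i)

/-- the monic polynomial `Y ^ d * v (t + c / Y) / c` with `c = v t` -/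
noncomputable def VV (d : ℕ) (t : ℤ) (v : ℤ[X]) : ℤ[X] :=
  X ^ d + ∑ i ∈ Finset.range d, C ((taylor t v).coeff (i + 1) * v.eval t ^ i) * X ^ (d - 1 - i)

/-- `v t` divides `d!` in the localisation at `p` -/
def GoodT (d p : ℕ) (v : ℤ[X]) (t : ℤ) : Prop :=
  0 ≤ t ∧ t ≤ d ∧ ∃ N : ℤ, ¬ (p : ℤ) ∣ N ∧ v.eval t ∣ N * d.factorial

noncomputable def tt (d p : ℕ) (v : ℤ[X]) : ℤ := Classical.epsilon (GoodT d p v)

noncomputable def cc (d p : ℕ) (v : ℤ[X]) : ℤ := v.eval (tt d p v)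

noncomputable def Vp (d p : ℕ) (v : ℤ[X]) : ℤ[X] := VV d (tt d p v) v

/-- the local generator at a root `z` of `v` -/
noncomputable def zt (d p : ℕ) (v : ℤ[X]) (z : ℂ) : ℂ := (cc d p v : ℂ) / (z - (tt d p v : ℂ))

/-- a function on the roots of `v` that lies in the local ring at `p` -/
def InR (d p : ℕ) (v : ℤ[X]) (φ : ℂ → ℂ) : Prop :=
  ∃ (N : ℤ) (g : ℤ[X]), ¬ (p : ℤ) ∣ N ∧
    ∀ z : ℂ, aeval z v = 0 → (N : ℂ) * φ z = aeval (zt d p v z) g

def VOk (d : ℕ) (v : ℤ[X]) : Prop :=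
  v.natDegree = d ∧ v.IsPrimitive ∧ 0 < v.leadingCoeff ∧ (up ℂ v).Separable

structure Dat where
  f : ℤ[X]
  v : ℤ[X]
  P : ℕ
  r : ℤ

def Ok (n d : ℕ) (D : Dat) : Prop :=
  VOk d D.v ∧ D.f.Monic ∧ D.f.natDegree = n ∧ D.P.Prime ∧ d < D.P ∧ (D.P : ℤ) ∣ D.v.eval D.r ∧
    ¬ (D.P : ℤ) ^ 2 ∣ D.v.eval D.r ∧ Wk D.P D.r D.f ∧
    ∀ z : ℂ, aeval z D.v = 0 → aeval z D.f ≠ 0

noncomputable def piP (d p : ℕ) (D : Dat) : ℤ[X] :=
  if p = D.P then C (cc d p D.v) + C (tt d p D.v - D.r) * X else 1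

noncomputable def pz (d p : ℕ) (D : Dat) (z : ℂ) : ℂ := aeval (zt d p D.v z) (piP d p D)

noncomputable def FF (n d p : ℕ) (D : Dat) : ℤ[X] := Tw n (tt d p D.v) (cc d p D.v) D.f

/-- same preclass -/
def Pre (d : ℕ) (D D' : Dat) : Prop :=
  D.v = D'.v ∧ ∀ p : ℕ, p.Prime →
    InR d p D.v (fun z => aeval z D.f * pz d p D' z ^ 2 / (aeval z D'.f * pz d p D z ^ 2)) ∧
    InR d p D.v (fun z => aeval z D'.f * pz d p D z ^ 2 / (aeval z D.f * pz d p D' z ^ 2))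

/-- same square class -/
def Sq (d : ℕ) (D D' : Dat) (κ : ℂ → ℂ) : Prop :=
  D.v = D'.v ∧ (∀ z : ℂ, aeval z D.v = 0 → aeval z D'.f = κ z ^ 2 * aeval z D.f) ∧
    ∀ p : ℕ, p.Prime → InR d p D.v (fun z => κ z * pz d p D z / pz d p D' z) ∧
      InR d p D.v (fun z => pz d p D' z / (κ z * pz d p D z))

/-- same square class, with a square root close to one -/
def Sq1 (d : ℕ) (D D' : Dat) : Prop :=
  ∃ κ : ℂ → ℂ, Sq d D D' κ ∧ ∀ z : ℂ, aeval z D.v = 0 → ‖κ z - 1‖ ≤ 1 / 10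

/-- associated in the localisation at `p` of `ℤ[Y] / (V)` -/
def Asc (p : ℕ) (V u u' : ℤ[X]) : Prop :=
  (∃ (N : ℤ) (w : ℤ[X]), ¬ (p : ℤ) ∣ N ∧ V ∣ C N * u' - w * u) ∧
    ∃ (N : ℤ) (w : ℤ[X]), ¬ (p : ℤ) ∣ N ∧ V ∣ C N * u - w * u'

/-- a multiple of all the discriminants that occur -/
noncomputable def Nv (d : ℕ) (v : ℤ[X]) : ℕ :=
  ∏ t ∈ (Finset.range (d + 1)).filter (fun t : ℕ => v.eval (t : ℤ) ≠ 0),
    (resultant (VV d t v) (derivative (VV d t v)) d (d - 1)).natAbs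

/-- bound for the number of preclasses -/
noncomputable def wtM (K : ℝ) (A k N b : ℕ) : ℝ :=
  ∏ p ∈ b.primeFactors,
    if p ∣ N then K * (p : ℝ) ^ b.factorization p else ((A : ℝ) * b.factorization p + 1) ^ k

/-- `η` lists the roots of `v` -/
def Lst {d : ℕ} (v : ℤ[X]) (η : Fin d → ℂ) : Prop :=
  up ℂ v = C (v.leadingCoeff : ℂ) * ∏ k, (X - C (η k))

/-- the local basis -/
noncomputable def Eloc (d g p : ℕ) (D₀ D : Dat) (η : Fin d → ℂ) : Matrix (Fin d) (Fin d) ℂ :=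
  Matrix.of fun a k => pz d p D₀ (η k) / pz d p D (η k) * zt d p D.v (η k) ^ (a : ℕ) /
    zt d p D.v (η k) ^ g

/-- the rows of `E` span the lattice with the given localisations -/
def Glued {d : ℕ} (Ep : ℕ → Matrix (Fin d) (Fin d) ℂ) (E : Matrix (Fin d) (Fin d) ℂ) : Prop :=
  ∀ p : ℕ, p.Prime → ∃ (N : ℤ) (U U' : Matrix (Fin d) (Fin d) ℤ), ¬ (p : ℤ) ∣ N ∧
    (N : ℂ) • E = U.map (Int.cast : ℤ → ℂ) * Ep p ∧ (N : ℂ) • Ep p = U'.map (Int.cast : ℤ → ℂ) * E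

noncomputable def alf {d : ℕ} (D₀ D : Dat) (η : Fin d → ℂ) (k : Fin d) : ℂ :=
  aeval (η k) D.f / (aeval (η k) D₀.f * aeval (η k) (derivative D.v))

/-- `A`, `B` are diagonal in the coordinates `E` -/
def Gr {d : ℕ} (E : Matrix (Fin d) (Fin d) ℂ) (al η : Fin d → ℂ)
    (A B : Matrix (Fin d) (Fin d) ℤ) : Prop :=
  (∀ a b, (A a b : ℂ) = ∑ k, al k * E a k * E b k) ∧
    ∀ a b, (B a b : ℂ) = ∑ k, al k * η k * E a k * E b k

/-- the type of the roots of `f` with respect to `v` -/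
def Ty {n : ℕ} (d : ℕ) (T : ℝ) (s : Equiv.Perm (Fin n)) (a b : Fin n → ℕ) (f v : ℤ[X])
    (θ : Fin n → ℂ) : Prop :=
  Roots (up ℂ f) θ ∧ ∀ i, θ (s i) = starRingEnd ℂ (θ i) ∧ (2 : ℝ) ^ a i ≤ max 1 ‖θ i‖ ∧
    ‖θ i‖ ≤ 2 * 2 ^ a i ∧ T * (2 ^ a i) ^ d / 2 ^ b i ≤ ‖aeval (θ i) v‖ ∧
    ‖aeval (θ i) v‖ ≤ (d + 1) * 2 ^ (d + 1) * (T * (2 ^ a i) ^ d / 2 ^ b i)

end Pool.Agent.VW
end

-- part Pool.Agent.P.MP_b0ea37_nt.WMD3
section

namespace Pool.Agent.VW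

open Polynomial

/-- bound for one part -/
noncomputable def mu (j : ℕ) (H Sg om : ℝ) : ℝ :=
  1 + Sg ^ j / √om + if j = 2 then Sg + Sg ^ 4 / H else 0

/-- the exceptional case of the multiplicity bound -/
def Exc (n j : ℕ) (K H T om : ℝ) (f : ℤ[X]) : Prop :=
  CC (K * om) f ∧ (j = 1 → CW n (K * om) (2 * T) (K * √om * T) (K * om * T ^ 2 / H) f)

/-- the data that are counted -/
def Fam (n d j : ℕ) (K H T P₀ om : ℝ) (D : Dat) : Prop :=
  Ok n d D ∧ Irr D.f ∧ NQ D.f ∧ Box n H D.f ∧ T ≤ D.v.supNorm ∧ D.v.supNorm ≤ 2 * T ∧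
    P₀ ≤ D.P ∧ ¬ Exc n j K H T om D.f

/-- the exceptional polynomials -/
def Exq (n : ℕ) (δ A H : ℝ) (f : ℤ[X]) : Prop :=
  CC (A * H ^ δ) f ∨ (Irr f ∧ ∃ G Xm : ℝ, 1 ≤ G ∧ G ≤ A * H ^ (((n : ℝ) - 1) / 2 - muL n) ∧
    0 ≤ Xm ∧ Xm ^ (n - 1) * G ≤ A * H ^ (((n : ℝ) - 1) / 2) ∧
    CW n (A * (H ^ δ * G ^ 2)) Xm (A * (H ^ (δ / 2) * G) * Xm)
      (A * (H ^ δ * G ^ 2) * Xm ^ 2 / H) f)

theorem CC.mono {om om' : ℝ} {f : ℤ[X]} (h : CC om f) (e : om ≤ om') : CC om' f := by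
  obtain ⟨c, h1, h2, h3, h4⟩ := h
  exact ⟨c, h1, h2, h3.trans e, h4⟩

theorem CW.mono' {n : ℕ} {a b c e a' b' c' e' : ℝ} {f : ℤ[X]} (h : CW n a b c e f) (ha : a ≤ a')
    (hb : b ≤ b') (hc : c ≤ c') (he : e ≤ e') : CW n a' b' c' e' f := by
  obtain ⟨E, k, v, w, h1, h2, h3, h4, h5, h6, h7, h8, h9, h10, h11⟩ := h
  exact ⟨E, k, v, w, h1, h2, h3, h4, h5, h6, h7, h8.trans ha, h9.trans hb, h10.trans hc,
    h11.trans he⟩

theorem Exc.mono {n j : ℕ} {K K' H T om : ℝ} {f : ℤ[X]} (h : Exc n j K H T om f) (hK : K ≤ K')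
    (hH : 0 ≤ H) (hT : 0 ≤ T) (hom : 0 ≤ om) : Exc n j K' H T om f :=
  ⟨h.1.mono (by gcongr), fun hj => (h.2 hj).mono' (by gcongr) le_rfl (by gcongr) (by gcongr)⟩

theorem Fam.mono {n d j : ℕ} {K K' H T P₀ om : ℝ} {D : Dat} (h : Fam n d j K' H T P₀ om D)
    (hK : K ≤ K') (hH : 0 ≤ H) (hT : 0 ≤ T) (hom : 0 ≤ om) : Fam n d j K H T P₀ om D := by
  obtain ⟨h1, h2, h3, h4, h5, h6, h7, h8⟩ := h
  exact ⟨h1, h2, h3, h4, h5, h6, h7, fun h => h8 (h.mono hK hH hT hom)⟩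

theorem ArchZ.mono {n d : ℕ} {v f f' : ℤ[X]} {a L a' L' : ℝ} (h : ArchZ n d v f f' a L)
    (ha : a ≤ a') (hL : L ≤ L') : ArchZ n d v f f' a' L' := by
  intro c G E hc h1 h2
  have hc' : (0 : ℝ) ≤ c := by exact_mod_cast hc.le
  obtain ⟨h3, h4⟩ := h c G E hc h1 h2
  exact ⟨fun a b => (h3 a b).trans (by gcongr), fun a => (h4 a).trans (by gcongr)⟩

theorem one_le_mu (j : ℕ) {H Sg om : ℝ} (hH : 0 ≤ H) (hS : 0 ≤ Sg) : 1 ≤ mu j H Sg om := by
  unfold mu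
  have h1 : 0 ≤ Sg ^ j / √om := by positivity
  have h2 : 0 ≤ Sg + Sg ^ 4 / H := by positivity
  split_ifs <;> linarith

theorem mu_mul_le {j : ℕ} (hj : j ≤ 4) {H Sg om A : ℝ} (hH : 0 ≤ H) (hS : 0 ≤ Sg) (hA : 1 ≤ A) :
    mu j H (A * Sg) om ≤ A ^ 4 * mu j H Sg om := by
  unfold mu
  have h0 : 1 ≤ A ^ 4 := one_le_pow₀ hA
  have h1 : A ^ j ≤ A ^ 4 := pow_le_pow_right₀ hA hj
  have h2 : A ≤ A ^ 4 := by simpa using pow_le_pow_right₀ hA (show 1 ≤ 4 by norm_num)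
  have h3 : (A * Sg) ^ j / √om ≤ A ^ 4 * (Sg ^ j / √om) := by
    rw [mul_pow, mul_div_assoc]; gcongr
  have h4 : A * Sg ≤ A ^ 4 * Sg := by gcongr
  have h5 : (A * Sg) ^ 4 / H = A ^ 4 * (Sg ^ 4 / H) := by rw [mul_pow, mul_div_assoc]
  split_ifs <;> nlinarith

end Pool.Agent.VW
end

-- part Pool.Agent.P.MP_b0ea37_nt.WMloc
section

namespace Pool.Agent.VW

open Polynomial

theorem dvd_of_up_dvd {v g : ℤ[X]} (hv : v.IsPrimitive) (h : up ℚ v ∣ up ℚ g) : v ∣ g :=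
  (IsPrimitive.Int.dvd_iff_map_cast_dvd_map_cast v g hv).2 h

theorem dvd_of_upC_dvd {v g : ℤ[X]} (hv : v.IsPrimitive) (h : up ℂ v ∣ up ℂ g) : v ∣ g := by
  refine dvd_of_up_dvd hv ((map_dvd_map' (algebraMap ℚ ℂ)).1 ?_)
  have e : (algebraMap ℚ ℂ).comp (Int.castRingHom ℚ) = Int.castRingHom ℂ := RingHom.ext_int _ _
  rwa [Polynomial.map_map, Polynomial.map_map, e]

/-- local to global -/
theorem mem_of_loc {E : Type} [AddCommGroup E] (M : AddSubgroup E) (x : E)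
    (h : ∀ p : ℕ, p.Prime → ∃ N : ℤ, ¬ (p : ℤ) ∣ N ∧ N • x ∈ M) : x ∈ M := by
  obtain ⟨a, ha⟩ := Int.subgroup_cyclic (M.comap (zmultiplesHom E x))
  have hm : ∀ N : ℤ, N • x ∈ M ↔ a ∣ N := fun N => by
    have : N ∈ M.comap (zmultiplesHom E x) ↔ N • x ∈ M := Iff.rfl
    rw [← this, ha, ← AddSubgroup.zmultiples_eq_closure, Int.mem_zmultiples_iff]
  by_cases h1 : a.natAbs = 1
  · rw [← one_zsmul x, hm, ← Int.natAbs_dvd, h1]
    exact dvd_rfl
  · obtain ⟨p, hp, hd⟩ := Nat.exists_prime_and_dvd h1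
    obtain ⟨N, hN, hx⟩ := h p hp
    exact absurd ((Int.natCast_dvd.2 hd).trans ((hm N).1 hx)) hN

theorem int_of_loc (x : ℂ)
    (h : ∀ p : ℕ, p.Prime → ∃ N z : ℤ, ¬ (p : ℤ) ∣ N ∧ (N : ℂ) * x = z) : ∃ z : ℤ, x = z := by
  obtain ⟨z, hz⟩ := mem_of_loc (Int.castAddHom ℂ).range x fun p hp => by
    obtain ⟨N, z, hN, e⟩ := h p hp
    exact ⟨N, hN, z, by rw [zsmul_eq_mul, e]; rfl⟩
  exact ⟨z, hz.symm⟩

theorem dvd_of_loc (a b : ℤ) (h : ∀ p : ℕ, p.Prime → ∃ N : ℤ, ¬ (p : ℤ) ∣ N ∧ a ∣ N * b) :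
    a ∣ b :=
  Int.mem_zmultiples_iff.1 (mem_of_loc (AddSubgroup.zmultiples a) b fun p hp => by
    obtain ⟨N, hN, e⟩ := h p hp
    exact ⟨N, hN, Int.mem_zmultiples_iff.2 e⟩)

theorem aeval_Tw {S : Type} [CommRing S] {k : ℕ} {t c : ℤ} {g : ℤ[X]} (hg : g.natDegree ≤ k)
    {x y : S} (h : (x - t) * y = c) : aeval y (Tw k t c g) = y ^ k * aeval x g := by
  have e : aeval x g = aeval (x - t) (taylor t g) := by
    rw [taylor_apply, aeval_comp]
    simp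
  rw [e, aeval_eq_sum_range' (n := k + 1) (p := taylor t g)
    (by rw [natDegree_taylor]; omega), Tw, map_sum, Finset.mul_sum]
  refine Finset.sum_congr rfl fun i hi => ?_
  obtain ⟨j, rfl⟩ := Nat.exists_eq_add_of_le (Nat.lt_succ_iff.1 (Finset.mem_range.1 hi))
  rw [map_mul, map_pow, aeval_X, aeval_C, Nat.add_sub_cancel_left, zsmul_eq_mul]
  simp only [eq_intCast, Int.cast_mul, Int.cast_pow]
  rw [← h, mul_pow, pow_add]
  ring

theorem WMloc_deg (d : ℕ) (a : ℕ → ℤ) :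
    (∑ i ∈ Finset.range d, C (a i) * X ^ (d - 1 - i)).degree < (d : WithBot ℕ) :=
  (degree_sum_le _ _).trans_lt ((Finset.sup_lt_iff (WithBot.bot_lt_coe _)).2 fun i hi =>
    (degree_C_mul_X_pow_le _ _).trans_lt (by
      have := Finset.mem_range.1 hi
      exact_mod_cast (by omega : d - 1 - i < d)))

theorem VV_monic (d : ℕ) (t : ℤ) (v : ℤ[X]) : (VV d t v).Monic :=
  monic_X_pow_add (WMloc_deg d _)

theorem VV_natDegree (d : ℕ) (t : ℤ) (v : ℤ[X]) : (VV d t v).natDegree = d := by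
  refine natDegree_eq_of_degree_eq_some ?_
  rw [VV, degree_add_eq_left_of_degree_lt, degree_X_pow]
  rw [degree_X_pow]
  exact WMloc_deg d _

theorem C_mul_VV (d : ℕ) (t : ℤ) (v : ℤ[X]) :
    C (v.eval t) * VV d t v = Tw d t (v.eval t) v := by
  rw [VV, Tw, Finset.sum_range_succ', mul_add, add_comm, Finset.mul_sum, taylor_coeff_zero,
    pow_zero, mul_one, Nat.sub_zero]
  congr 1
  refine Finset.sum_congr rfl fun i _ => ?_
  rw [← mul_assoc, ← C_mul, Nat.sub_sub, add_comm 1 i]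
  congr 2
  ring

theorem WMloc_fact (M : ℤ) (d : ℕ) (v : ℤ[X]) (hd : v.natDegree ≤ d)
    (h : ∀ t : ℕ, t ≤ d → M ∣ v.eval (t : ℤ)) :
    (∀ s : ℕ, M ∣ v.eval (s : ℤ)) ∧ ∀ i, M ∣ d.factorial * v.coeff i := by
  induction d generalizing v with
  | zero =>
    rw [eq_C_of_natDegree_le_zero hd] at h ⊢
    have h0 := h 0 le_rfl
    rw [eval_C] at h0
    refine ⟨fun s => by rwa [eval_C], fun i => Dvd.dvd.mul_left ?_ _⟩
    rw [coeff_C]
    split_ifs
    · exact h0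
    · exact dvd_zero _
  | succ d ih =>
    set P := descPochhammer ℤ (d + 1) with hP
    have hPd : P.natDegree = d + 1 := descPochhammer_natDegree _ _
    have hP1 : P.coeff (d + 1) = 1 := by
      rw [← hPd]
      exact (monic_descPochhammer ℤ (d + 1)).coeff_natDegree
    have hPe : ∀ s : ℕ, P.eval (s : ℤ) = (s.descFactorial (d + 1) : ℕ) := fun s =>
      descPochhammer_eval_eq_descFactorial ℤ s (d + 1)
    set c := v.coeff (d + 1) with hc
    have hw : (v - C c * P).natDegree ≤ d := by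
      rw [natDegree_le_iff_coeff_eq_zero]
      intro N hN
      rw [coeff_sub, coeff_C_mul]
      rcases (Nat.succ_le_of_lt hN).eq_or_lt with e | e
      · rw [← e, hP1, mul_one, sub_self]
      · rw [coeff_eq_zero_of_natDegree_lt (hd.trans_lt e),
          coeff_eq_zero_of_natDegree_lt (hPd.trans_lt e), mul_zero, sub_zero]
    have he : ∀ s : ℕ, v.eval (s : ℤ)
        = (v - C c * P).eval (s : ℤ) + c * (s.descFactorial (d + 1) : ℕ) := fun s => by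
      rw [eval_sub, eval_mul, eval_C, hPe, sub_add_cancel]
    obtain ⟨h1, h2⟩ := ih (v - C c * P) hw fun t ht => by
      have := h t (by omega)
      rwa [he, Nat.descFactorial_of_lt (by omega), Nat.cast_zero, mul_zero, add_zero] at this
    have h3 : M ∣ c * ((d + 1).factorial : ℕ) := by
      have := h (d + 1) le_rfl
      rw [he, Nat.descFactorial_self] at this
      exact (dvd_add_right (h1 _)).1 this
    refine ⟨fun s => ?_, fun i => ?_⟩
    · rw [he]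
      exact dvd_add (h1 s) (h3.trans (mul_dvd_mul_left c
        (Int.natCast_dvd_natCast.2 (Nat.factorial_dvd_descFactorial s (d + 1)))))
    · have e : (((d + 1).factorial : ℕ) : ℤ) * v.coeff i
          = (d + 1) * (d.factorial * (v - C c * P).coeff i)
            + c * ((d + 1).factorial : ℕ) * P.coeff i := by
        rw [coeff_sub, coeff_C_mul, Nat.factorial_succ]
        push_cast
        ring
      rw [e]
      exact dvd_add ((h2 i).mul_left _) (h3.mul_right _)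

theorem goodT_tt {d p : ℕ} {v : ℤ[X]} (hv : VOk d v) (hp : p.Prime) : GoodT d p v (tt d p v) := by
  refine Classical.epsilon_spec (p := GoodT d p v) ?_
  obtain ⟨a, u, hu, e⟩ := Nat.exists_eq_pow_mul_and_not_dvd d.factorial_ne_zero p hp.ne_one
  have hp' : Prime (p : ℤ) := Nat.prime_iff_prime_int.1 hp
  by_cases h : ∀ t : ℕ, t ≤ d → (p : ℤ) ^ (a + 1) ∣ v.eval (t : ℤ)
  · exfalso
    have h2 := (WMloc_fact _ d v hv.1.le h).2
    refine hp'.not_isUnit (hv.2.1 p ((C_dvd_iff_dvd_coeff _ _).2 fun i => ?_))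
    have h3 := h2 i
    rw [e, Nat.cast_mul, Nat.cast_pow, pow_succ, mul_assoc,
      mul_dvd_mul_iff_left (pow_ne_zero a hp'.ne_zero)] at h3
    exact (hp'.dvd_or_dvd h3).resolve_left fun h4 => hu (Int.natCast_dvd_natCast.1 h4)
  · push Not at h
    obtain ⟨t, ht, h⟩ := h
    have h0 : (v.eval (t : ℤ)).natAbs ≠ 0 := fun h0 => h (by
      rw [Int.natAbs_eq_zero.1 h0]
      exact dvd_zero _)
    obtain ⟨b, w, hw, e2⟩ := Nat.exists_eq_pow_mul_and_not_dvd h0 p hp.ne_one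
    have hb : b ≤ a := by
      by_contra hb
      refine h ?_
      rw [← Int.dvd_natAbs, e2, Nat.cast_mul, Nat.cast_pow]
      exact (pow_dvd_pow _ (by omega)).mul_right _
    refine ⟨t, Int.natCast_nonneg t, by exact_mod_cast ht, w,
      fun h4 => hw (Int.natCast_dvd_natCast.1 h4), ?_⟩
    rw [← Int.natAbs_dvd, e2, e, ← Nat.cast_mul, Int.natCast_dvd_natCast, mul_comm]
    exact mul_dvd_mul_left w ((pow_dvd_pow p hb).mul_right u)

theorem cc_ne_zero {d p : ℕ} {v : ℤ[X]} (hv : VOk d v) (hp : p.Prime) : cc d p v ≠ 0 := by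
  obtain ⟨-, -, N, hN, h⟩ := goodT_tt hv hp
  intro h0
  rw [show v.eval (tt d p v) = 0 from h0, zero_dvd_iff, mul_eq_zero] at h
  rcases h with h | h
  · exact hN (h ▸ dvd_zero _)
  · exact d.factorial_ne_zero (Nat.cast_eq_zero.1 h)

theorem not_dvd_cc {d p : ℕ} {v : ℤ[X]} (hv : VOk d v) (hp : p.Prime) (hd : d < p) :
    ¬ (p : ℤ) ∣ cc d p v := by
  obtain ⟨-, -, N, hN, h⟩ := goodT_tt hv hp
  intro h0
  rcases (Nat.prime_iff_prime_int.1 hp).dvd_or_dvd (h0.trans h) with h1 | h1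
  · exact hN h1
  · exact absurd (hp.dvd_factorial.1 (Int.natCast_dvd_natCast.1 h1)) (not_le.2 hd)


theorem wmloc_ev (z : ℂ) (g : ℤ[X]) : (up ℂ g).eval z = aeval z g := by
  rw [eval_map, aeval_def, algebraMap_int_eq]

theorem wmloc_int (t : ℤ) (g : ℤ[X]) : aeval (t : ℂ) g = ((g.eval t : ℤ) : ℂ) := by
  simpa using aeval_algebraMap_apply_eq_algebraMap_eval (A := ℂ) t g

theorem wmloc_cc {d p : ℕ} {v : ℤ[X]} (hv : VOk d v) (hp : p.Prime) : (cc d p v : ℂ) ≠ 0 :=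
  Int.cast_ne_zero.2 (cc_ne_zero hv hp)

theorem wmloc_ne {d : ℕ} {v : ℤ[X]} (hv : VOk d v) : v ≠ 0 :=
  leadingCoeff_ne_zero.1 hv.2.2.1.ne'

theorem zt_mul {d p : ℕ} {v : ℤ[X]} (hv : VOk d v) (hp : p.Prime) {z : ℂ} (hz : aeval z v = 0) :
    (z - (tt d p v : ℂ)) * zt d p v z = cc d p v := by
  have h : z - (tt d p v : ℂ) ≠ 0 := by
    intro e
    rw [sub_eq_zero.1 e, wmloc_int] at hz
    exact wmloc_cc hv hp hz
  exact mul_div_cancel₀ _ h

theorem zt_ne_zero {d p : ℕ} {v : ℤ[X]} (hv : VOk d v) (hp : p.Prime) {z : ℂ}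
    (hz : aeval z v = 0) : zt d p v z ≠ 0 := by
  intro e
  have h := zt_mul hv hp hz
  rw [e, mul_zero] at h
  exact wmloc_cc hv hp h.symm

theorem zt_inj {d p : ℕ} {v : ℤ[X]} (hv : VOk d v) (hp : p.Prime) {z w : ℂ} (hz : aeval z v = 0)
    (hw : aeval w v = 0) (h : zt d p v z = zt d p v w) : z = w := by
  have h1 := zt_mul hv hp hz
  have h2 := zt_mul hv hp hw
  rw [h, ← h2] at h1
  exact sub_left_injective (mul_right_cancel₀ (zt_ne_zero hv hp hw) h1)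

theorem aeval_zt_Vp {d p : ℕ} {v : ℤ[X]} (hv : VOk d v) (hp : p.Prime) {z : ℂ}
    (hz : aeval z v = 0) : aeval (zt d p v z) (Vp d p v) = 0 := by
  have h1 := aeval_Tw (k := d) hv.1.le (zt_mul hv hp hz)
  have h2 := congrArg (aeval (zt d p v z)) (C_mul_VV d (tt d p v) v)
  rw [map_mul, aeval_C, algebraMap_int_eq, eq_intCast] at h2
  rw [hz, mul_zero] at h1
  exact (mul_eq_zero.1 (h2.trans h1)).resolve_left (wmloc_cc hv hp)

theorem exists_lst {d : ℕ} {v : ℤ[X]} (hv : v.natDegree = d) : ∃ η : Fin d → ℂ, Lst v η := by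
  have hi : Function.Injective (Int.castRingHom ℂ) := Int.cast_injective
  obtain ⟨η, hη⟩ := exists_roots' (up ℂ v) ((natDegree_map_eq_of_injective hi v).trans hv)
  rw [leadingCoeff_map_of_injective hi, eq_intCast] at hη
  exact ⟨η, hη⟩

theorem Lst.root_iff {d : ℕ} {v : ℤ[X]} {η : Fin d → ℂ} (h : Lst v η) (hv : v ≠ 0) (z : ℂ) :
    aeval z v = 0 ↔ ∃ k, z = η k := by
  have hl : (v.leadingCoeff : ℂ) ≠ 0 := Int.cast_ne_zero.2 (leadingCoeff_ne_zero.2 hv)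
  rw [← wmloc_ev, h, eval_mul, eval_C, mul_eq_zero, or_iff_right hl, eval_prod,
    Finset.prod_eq_zero_iff]
  simp [sub_eq_zero]

theorem Lst.injective {d : ℕ} {v : ℤ[X]} {η : Fin d → ℂ} (h : Lst v η) (hv : VOk d v) :
    Function.Injective η := by
  have hs := hv.2.2.2
  rw [h] at hs
  exact hs.of_mul_right.injective_of_prod_X_sub_C

theorem Lst.roots_Vp {d p : ℕ} {v : ℤ[X]} {η : Fin d → ℂ} (h : Lst v η) (hv : VOk d v)
    (hp : p.Prime) : Roots (up ℂ (Vp d p v)) (fun k => zt d p v (η k)) := by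
  have hr : ∀ k, aeval (η k) v = 0 := fun k => (h.root_iff (wmloc_ne hv) _).2 ⟨k, rfl⟩
  have hm : (up ℂ (Vp d p v)).Monic := (VV_monic _ _ _).map _
  have hd : (up ℂ (Vp d p v)).degree = d := by
    rw [degree_eq_natDegree hm.ne_zero, Vp, (VV_monic _ _ _).natDegree_map, VV_natDegree]
  have hm' : (∏ k, (X - C (zt d p v (η k))) : ℂ[X]).Monic := monic_prod_of_monic _ _ fun _ _ =>
    monic_X_sub_C _
  have hd' : (∏ k, (X - C (zt d p v (η k))) : ℂ[X]).degree = (d : ℕ) := by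
    rw [degree_eq_natDegree hm'.ne_zero, natDegree_finsetProd_X_sub_C_eq_card]
    simp
  unfold Roots
  refine eq_of_degree_sub_lt_of_eval_index_eq (v := fun k => zt d p v (η k)) Finset.univ
    (fun k _ j _ e => h.injective hv (zt_inj hv hp (hr k) (hr j) e)) ?_ fun k _ => ?_
  · have := degree_sub_lt_left (hd.trans hd'.symm) hm.ne_zero
      (hm.leadingCoeff.trans hm'.leadingCoeff.symm)
    rw [hd] at this
    simpa using this
  · rw [wmloc_ev, aeval_zt_Vp hv hp (hr k), eval_prod]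
    exact (Finset.prod_eq_zero (Finset.mem_univ k) (by simp)).symm

theorem Vp_dvd {d p : ℕ} {v : ℤ[X]} (hv : VOk d v) (hp : p.Prime) {g : ℤ[X]}
    (h : ∀ z : ℂ, aeval z v = 0 → aeval (zt d p v z) g = 0) : Vp d p v ∣ g := by
  obtain ⟨η, hη⟩ := exists_lst hv.1
  have hr : ∀ k, aeval (η k) v = 0 := fun k => (hη.root_iff (wmloc_ne hv) _).2 ⟨k, rfl⟩
  have hi : Function.Injective (Int.castRingHom ℂ) := Int.cast_injective
  refine (map_dvd_map _ hi (VV_monic _ _ _)).1 ?_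
  have e : (VV d (tt d p v) v).map (Int.castRingHom ℂ) = _ := hη.roots_Vp hv hp
  rw [e]
  refine Fintype.prod_dvd_of_coprime (pairwise_coprime_X_sub_C (s := fun k => zt d p v (η k))
    fun k j e => hη.injective hv (zt_inj hv hp (hr k) (hr j) e)) fun k => ?_
  rw [dvd_iff_isRoot, IsRoot, wmloc_ev]
  exact h _ (hr k)

theorem Lst.prod_zt {d p : ℕ} {v : ℤ[X]} {η : Fin d → ℂ} (h : Lst v η) (hv : VOk d v)
    (hp : p.Prime) (hd : 1 ≤ d) :
    ∏ k, zt d p v (η k) = (-1) ^ d * (cc d p v : ℂ) ^ (d - 1) * (v.leadingCoeff : ℂ) := by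
  have hr : ∀ k, aeval (η k) v = 0 := fun k => (h.root_iff (wmloc_ne hv) _).2 ⟨k, rfl⟩
  have h1 : (cc d p v : ℂ) = v.leadingCoeff * ∏ k, ((tt d p v : ℂ) - η k) := by
    rw [cc, ← wmloc_int, ← wmloc_ev, h, eval_mul, eval_C, eval_prod]
    simp
  have h2 : (∏ k, ((tt d p v : ℂ) - η k)) * ∏ k, zt d p v (η k) =
      (-1) ^ d * (cc d p v : ℂ) ^ d := by
    rw [← Finset.prod_mul_distrib, ← mul_pow,
      Finset.prod_congr rfl (g := fun _ => -1 * (cc d p v : ℂ)) fun k _ => by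
        rw [← zt_mul hv hp (hr k)]; ring]
    simp
  refine mul_left_cancel₀ (wmloc_cc hv hp) ?_
  obtain ⟨e, rfl⟩ : ∃ e, d = e + 1 := ⟨d - 1, by omega⟩
  rw [Nat.add_sub_cancel]
  nth_rw 1 [h1]
  rw [mul_assoc, h2]
  ring

theorem pz_eq {n d : ℕ} {D : Dat} (h : Ok n d D) {z : ℂ} (hz : aeval z D.v = 0) :
    pz d D.P D z = zt d D.P D.v z * (z - D.r) := by
  have h1 := zt_mul h.1 h.2.2.2.1 hz
  rw [pz, piP, if_pos rfl, map_add, map_mul, aeval_C, aeval_C, aeval_X, algebraMap_int_eq,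
    eq_intCast, eq_intCast, ← h1]
  push_cast
  ring

theorem pz_of_ne {d p : ℕ} {D : Dat} (h : p ≠ D.P) (z : ℂ) : pz d p D z = 1 := by
  rw [pz, piP, if_neg h, map_one]

theorem pz_ne_zero {n d p : ℕ} {D : Dat} (h : Ok n d D) {z : ℂ} (hz : aeval z D.v = 0) :
    pz d p D z ≠ 0 := by
  by_cases hp : p = D.P
  · rw [hp, pz_eq h hz]
    refine mul_ne_zero (zt_ne_zero h.1 h.2.2.2.1 hz) fun e => h.2.2.2.2.2.2.1 ?_
    rw [sub_eq_zero.1 e, wmloc_int, Int.cast_eq_zero] at hz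
    rw [hz]
    exact dvd_zero _
  · rw [pz_of_ne hp]
    exact one_ne_zero

theorem aeval_FF {n d p : ℕ} {D : Dat} (h : Ok n d D) (hp : p.Prime) {z : ℂ}
    (hz : aeval z D.v = 0) :
    aeval (zt d p D.v z) (FF n d p D) = zt d p D.v z ^ n * aeval z D.f := 
  aeval_Tw h.2.2.1.le (zt_mul h.1 hp hz)

end Pool.Agent.VW
end

-- part Pool.Agent.P.MP_b0ea37_nt.WMlocA
section

namespace Pool.Agent.VW

open Polynomial

theorem wmlocA_ext {g h : ℤ[X]} (e : ∀ y : ℂ, y ≠ 0 → aeval y g = aeval y h) : g = h := by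
  refine Polynomial.map_injective (algebraMap ℤ ℂ) (RingHom.injective_int _) ?_
  refine eq_of_infinite_eval_eq _ _ ((Set.finite_singleton (0 : ℂ)).infinite_compl.mono ?_)
  intro y hy
  rw [Set.mem_ofPred_eq, eval_map_algebraMap, eval_map_algebraMap]
  exact e y hy

theorem wmlocA_step {k : ℕ} (t c r : ℤ) {g : ℤ[X]} (hg : g.natDegree ≤ k + 1) :
    ∃ g₁ : ℤ[X], g₁.natDegree ≤ k ∧ g₁.eval r = (derivative g).eval r ∧
      Tw (k + 1) t c g = (C c + C (t - r) * X) * Tw k t c g₁ + C (g.eval r) * X ^ (k + 1) := by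
  have e : g = C (g.eval r) + (X - C r) * (g /ₘ (X - C r)) := by
    rw [← modByMonic_X_sub_C_eq_C_eval, modByMonic_add_div]
  have hd : (g /ₘ (X - C r)).natDegree ≤ k := by
    rw [natDegree_divByMonic _ (monic_X_sub_C r), natDegree_X_sub_C]
    omega
  generalize g /ₘ (X - C r) = g₁ at e hd
  refine ⟨g₁, hd, ?_, wmlocA_ext fun y hy => ?_⟩
  · have h := congrArg (fun q => (derivative q).eval r) e
    simp only [derivative_add, derivative_C, derivative_mul, derivative_X_sub_C, eval_add,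
      eval_mul, eval_sub, eval_X, eval_C, sub_self, zero_mul, one_mul,
      add_zero, zero_add] at h
    exact h.symm
  · have hx : ((t : ℂ) + c / y - t) * y = c := by
      field_simp
      ring
    have h := congrArg (aeval ((t : ℂ) + c / y)) e
    rw [map_add, map_mul, aeval_Tw hg hx, aeval_Tw hd hx, h]
    simp only [map_add, map_mul, map_sub, map_pow, aeval_X, eq_intCast, map_intCast]
    field_simp
    ring

/-- the local shape of `f` modulo the square of `V` -/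
theorem loc_dec {n d p : ℕ} (hn : 2 ≤ n) {D : Dat} (h : Ok n d D) (hp : p.Prime) :
    ∃ (N : ℤ) (u₀ u₁ : ℤ[X]), ¬ (p : ℤ) ∣ N ∧ Vp d p D.v ^ 2 ∣
      C (N ^ 2) * FF n d p D - piP d p D ^ 2 * u₀ - piP d p D * Vp d p D.v * u₁ := by
  by_cases hP : p = D.P
  swap
  · refine ⟨1, FF n d p D, 0, fun h1 => hp.one_lt.ne' ?_, ?_⟩
    · exact_mod_cast Int.eq_one_of_dvd_one (Int.natCast_nonneg p) h1
    · simp [piP, hP]
  obtain ⟨hv, -, hf, -, hd, ⟨a, ha⟩, hna, ⟨⟨b₀, hb₀⟩, b₁, hb₁⟩, -⟩ := h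
  rw [← hP] at hd ha hna hb₀ hb₁
  have hpi : Prime (p : ℤ) := Nat.prime_iff_prime_int.1 hp
  have hd0 : d ≠ 0 := by
    intro h0
    have e := eq_C_of_natDegree_eq_zero (hv.1.trans h0)
    rw [e, eval_C] at ha
    refine hpi.not_isUnit (hv.2.1 _ ⟨C a, ?_⟩)
    rw [e, ha, C_mul]
  obtain ⟨e, rfl⟩ : ∃ e, d = e + 1 := ⟨d - 1, by omega⟩
  obtain ⟨m, rfl⟩ : ∃ m, n = m + 1 + 1 := ⟨n - 2, by omega⟩
  have hc := not_dvd_cc hv hp hd
  have hV := C_mul_VV (e + 1) (tt (e + 1) p D.v) D.v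
  unfold piP FF Vp
  rw [if_pos hP]
  unfold cc at hc ⊢
  generalize tt (e + 1) p D.v = t at hc hV ⊢
  generalize D.v.eval t = c at hc hV ⊢
  generalize VV (e + 1) t D.v = V at hV ⊢
  obtain ⟨f₁, d1, e1, t1⟩ := wmlocA_step t c D.r hf.le
  obtain ⟨f₂, -, -, t2⟩ := wmlocA_step t c D.r d1
  obtain ⟨v₁, -, -, t3⟩ := wmlocA_step t c D.r hv.1.le
  obtain ⟨s, hs⟩ := sub_dvd_pow_sub_pow (C c) (C (D.r - t) * X : ℤ[X]) (e + 1)
  have hπ : (C c - C (D.r - t) * X : ℤ[X]) = C c + C (t - D.r) * X := by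
    rw [C_sub, C_sub]
    ring
  rw [hπ, mul_pow] at hs
  rw [t1, t2, e1, hb₀, hb₁]
  rw [t3, ha] at hV
  generalize (C c + C (t - D.r) * X : ℤ[X]) = π at hs hV ⊢
  generalize (C (D.r - t) : ℤ[X]) ^ (e + 1) = q at hs
  generalize Tw m t c f₂ = T₂
  generalize Tw e t c v₁ = V₁ at hV
  have key : C (a * c ^ (e + 1)) * C (p : ℤ) =
      π * (C (p : ℤ) * C a * s - q * V₁) + V * (q * C c) := by
    rw [C_mul] at hV
    rw [C_mul, C_pow]
    linear_combination (C (p : ℤ) * C a) * hs - q * hV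
  generalize C (p : ℤ) * C a * s - q * V₁ = al at key
  generalize q * C c = ga at key
  refine ⟨a * c ^ (e + 1), C b₀ * X ^ (m + 1 + 1) * al ^ 2 +
    C (a * c ^ (e + 1)) * C b₁ * X ^ (m + 1) * al + C (a * c ^ (e + 1)) ^ 2 * T₂,
    2 * C b₀ * X ^ (m + 1 + 1) * al * ga + C (a * c ^ (e + 1)) * C b₁ * X ^ (m + 1) * ga,
    fun h1 => ?_, C b₀ * X ^ (m + 1 + 1) * ga ^ 2, ?_⟩
  · rcases hpi.dvd_or_dvd h1 with h2 | h2
    · exact hna (by rw [ha, sq]; exact mul_dvd_mul_left _ h2)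
    · exact hc (hpi.dvd_of_dvd_pow h2)
  · rw [C_pow]
    generalize C (a * c ^ (e + 1)) = N at key ⊢
    rw [C_mul, C_mul, C_pow]
    generalize (X : ℤ[X]) ^ (m + 1 + 1) = Y₂
    generalize (X : ℤ[X]) ^ (m + 1) = Y₁
    linear_combination (C b₀ * Y₂ * (N * C (p : ℤ) + (π * al + V * ga)) +
      N * C b₁ * Y₁ * π) * key

end Pool.Agent.VW
end

-- part Pool.Agent.P.MP_b0ea37_nt.WMintB
section

namespace Pool.Agent.VW

open Polynomial

theorem WMintB_ring {R : Type} [CommRing R] {V F F' q q' u₀ u₁ u₀' u₁' w w' m m' N N' : R}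
    (h1 : V ^ 2 ∣ N ^ 2 * F - q ^ 2 * u₀ - q * V * u₁)
    (h2 : V ^ 2 ∣ N' ^ 2 * F' - q' ^ 2 * u₀' - q' * V * u₁')
    (h3 : V ∣ m ^ 2 * N ^ 2 * u₀' - N' ^ 2 * w ^ 2 * u₀) (h4 : V ∣ w * w' - m * m') :
    ∃ s : R, V ^ 2 ∣ (2 * m * m' * N' ^ 2 * w * q * q' * u₀ + V * s) ^ 2 -
      (2 * (m ^ 2 * m' * N ^ 2 * N' ^ 2)) ^ 2 * F * F' := by
  obtain ⟨a, h1⟩ := h1
  obtain ⟨a', h2⟩ := h2
  obtain ⟨b, h3⟩ := h3
  obtain ⟨g, h4⟩ := h4
  obtain ⟨S, hS⟩ : ∃ S, S = q * q' * b + q * u₁' * m ^ 2 * N ^ 2 + q' * u₁ * N' ^ 2 * w ^ 2 :=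
    ⟨_, rfl⟩
  obtain ⟨B, hB⟩ : ∃ B, B = q' ^ 2 * b + m ^ 2 * N ^ 2 * q' * u₁' := ⟨_, rfl⟩
  have e : m ^ 2 * N ^ 2 * N' ^ 2 * F' =
      q' ^ 2 * N' ^ 2 * w ^ 2 * u₀ + V * B + V ^ 2 * (m ^ 2 * N ^ 2 * a') := by
    rw [hB]
    linear_combination m ^ 2 * N ^ 2 * h2 + q' ^ 2 * h3
  refine ⟨w' * S, 4 * m * m' * N' ^ 2 * q * q' * u₀ * S * g + w' ^ 2 * S ^ 2 -
    4 * m ^ 2 * m' ^ 2 * N' ^ 2 * (q ^ 2 * u₀ * (m ^ 2 * N ^ 2 * a') + q * u₁ * B +
      a * (q' ^ 2 * N' ^ 2 * w ^ 2 * u₀) + V * (q * u₁ * (m ^ 2 * N ^ 2 * a') + a * B) +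
      V ^ 2 * (a * (m ^ 2 * N ^ 2 * a'))), ?_⟩
  have e' : q * q' * u₀ * S = q ^ 2 * u₀ * B + q * u₁ * (q' ^ 2 * N' ^ 2 * w ^ 2 * u₀) := by
    rw [hS, hB]
    ring
  linear_combination 4 * m * m' * N' ^ 2 * q * q' * u₀ * V * S * h4 -
    4 * m ^ 2 * m' ^ 2 * N' ^ 2 * ((q' ^ 2 * N' ^ 2 * w ^ 2 * u₀ + V * B +
      V ^ 2 * (m ^ 2 * N ^ 2 * a')) * h1 + N ^ 2 * F * e - V * e')

theorem WMintB_root {n d p : ℕ} {D : Dat} (h : Ok n d D) (hp : p.Prime) {N : ℤ} {u₀ u₁ : ℤ[X]}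
    (e : Vp d p D.v ^ 2 ∣ C (N ^ 2) * FF n d p D - piP d p D ^ 2 * u₀ - piP d p D * Vp d p D.v * u₁)
    {z : ℂ} (hz : aeval z D.v = 0) :
    (N : ℂ) ^ 2 * aeval (zt d p D.v z) (FF n d p D) = pz d p D z ^ 2 * aeval (zt d p D.v z) u₀ := by
  have h1 := map_dvd (aeval (zt d p D.v z)) e
  simp only [map_pow, map_sub, map_mul, aeval_zt_Vp h.1 hp hz, eq_intCast, map_intCast] at h1
  have h2 := zero_dvd_iff.1 ((zero_pow two_ne_zero).symm.dvd.trans h1)
  rw [pz]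
  linear_combination h2

/-- the square root in the local coordinate -/
theorem loc_root {n d p : ℕ} (hn : 2 ≤ n) {D D' : Dat} {κ : ℂ → ℂ} (h : Ok n d D)
    (h' : Ok n d D') (hs : Sq d D D' κ) (hp : p.Prime) : ∃ (M : ℤ) (Γ : ℤ[X]), ¬ (p : ℤ) ∣ M ∧
      Vp d p D.v ^ 2 ∣ Γ ^ 2 - C ((2 * M) ^ 2) * FF n d p D * FF n d p D' ∧
      ∀ z : ℂ, aeval z D.v = 0 → aeval (zt d p D.v z) Γ =
        2 * M * (κ z * aeval (zt d p D.v z) (FF n d p D)) := by
  obtain ⟨N, u₀, u₁, hN, e⟩ := loc_dec hn h hp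
  obtain ⟨N', u₀', u₁', hN', e'⟩ := loc_dec hn h' hp
  obtain ⟨hv, hκ, hR⟩ := hs
  obtain ⟨⟨m, w, hm, hw⟩, m', w', hm', hw'⟩ := hR p hp
  have r := fun z hz => WMintB_root h hp e (z := z) hz
  have r' := fun z (hz : aeval z D.v = 0) => WMintB_root h' hp e' (z := z) (hv ▸ hz)
  have q := fun z hz => pz_ne_zero (p := p) h (z := z) hz
  have q' := fun z (hz : aeval z D.v = 0) => pz_ne_zero (p := p) h' (z := z) (hv ▸ hz)
  have k0 : ∀ z, aeval z D.v = 0 → κ z ≠ 0 := fun z hz h0 =>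
    h'.2.2.2.2.2.2.2.2 z (hv ▸ hz) (by rw [hκ z hz, h0]; ring)
  have hF : ∀ z, aeval z D.v = 0 → aeval (zt d p D.v z) (FF n d p D') =
      κ z ^ 2 * aeval (zt d p D.v z) (FF n d p D) := fun z hz => by
    have := aeval_FF h' hp (hv ▸ hz)
    rw [← hv] at this
    rw [this, aeval_FF h hp hz, hκ z hz]
    ring
  have w1 : ∀ z, aeval z D.v = 0 →
      aeval (zt d p D.v z) w * pz d p D' z = m * (κ z * pz d p D z) := fun z hz => by
    rw [← hw z hz, mul_assoc, div_mul_cancel₀ _ (q' z hz)]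
  rw [← hv] at e' r'
  rw [C_pow] at e e'
  obtain ⟨s, hs⟩ := WMintB_ring (w := w) (w' := w') (m := C m) (m' := C m') e e'
    (Vp_dvd h.1 hp fun z hz => mul_left_cancel₀ (pow_ne_zero 2 (q' z hz)) (by
      simp only [map_pow, map_sub, map_mul, eq_intCast, map_intCast]
      linear_combination (-(m : ℂ) ^ 2 * N ^ 2) * r' z hz + (m : ℂ) ^ 2 * N ^ 2 * N' ^ 2 * hF z hz +
        (m : ℂ) ^ 2 * N' ^ 2 * κ z ^ 2 * r z hz - (N' : ℂ) ^ 2 * aeval (zt d p D.v z) u₀ *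
        (aeval (zt d p D.v z) w * pz d p D' z + m * (κ z * pz d p D z)) * w1 z hz))
    (Vp_dvd h.1 hp fun z hz => by
      have a1 := q z hz
      have a2 := q' z hz
      have a3 := k0 z hz
      simp only [map_sub, map_mul, eq_intCast, map_intCast]
      rw [← hw z hz, ← hw' z hz]
      field_simp
      ring)
  have hp' := Nat.prime_iff_prime_int.1 hp
  refine ⟨m ^ 2 * m' * N ^ 2 * N' ^ 2, 2 * C m * C m' * C N' ^ 2 * w * piP d p D * piP d p D' * u₀ +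
    Vp d p D.v * s, fun hd => ?_, hs.trans (dvd_of_eq ?_), fun z hz => ?_⟩
  · simp only [hp'.dvd_mul, hp'.dvd_pow_iff_dvd two_ne_zero] at hd
    tauto
  · simp only [map_pow, map_mul, map_ofNat]
  · have a1 : aeval (zt d p D.v z) (piP d p D') = pz d p D' z := by rw [pz, hv]
    have a2 : aeval (zt d p D.v z) (piP d p D) = pz d p D z := rfl
    simp only [map_add, map_pow, map_mul, map_ofNat, eq_intCast, map_intCast, aeval_zt_Vp h.1 hp hz,
      a1, a2]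
    push_cast
    linear_combination 2 * (m : ℂ) * m' * N' ^ 2 * pz d p D z * aeval (zt d p D.v z) u₀ * w1 z hz -
      2 * (m : ℂ) ^ 2 * m' * N' ^ 2 * κ z * r z hz

end Pool.Agent.VW
end

-- part Pool.Agent.P.MP_b0ea37_nt.WMuniq
section

namespace Pool.Agent.VW

open Polynomial

theorem WMuniq_aeval_up (g : ℤ[X]) (z : ℂ) : aeval z (up ℚ g) = aeval z g :=
  aeval_map_algebraMap ℚ z g

theorem WMuniq_up_up (g : ℤ[X]) : (up ℚ g).map (algebraMap ℚ ℂ) = up ℂ g := by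
  rw [Polynomial.map_map]
  congr 1

theorem WMuniq_eval_map (g : ℚ[X]) (z : ℂ) : (g.map (algebraMap ℚ ℂ)).eval z = aeval z g := by
  rw [eval_map, aeval_def]

theorem WMuniq_aeval_C (c : ℤ) (z : ℂ) : aeval z (C c : ℤ[X]) = (c : ℂ) := by
  rw [aeval_C, algebraMap_int_eq, eq_intCast]

theorem WMuniq_ne {u a b c d : ℂ} (hu : u ≠ 0) (ha : ‖a - u‖ ≤ ‖u‖ / 5) (hb : ‖b - u‖ ≤ ‖u‖ / 5)
    (hc : ‖c - u‖ ≤ ‖u‖ / 5) (hd : ‖d - u‖ ≤ ‖u‖ / 5) : a * b + c * d ≠ 0 := by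
  intro h
  have hm : 0 < ‖u‖ := norm_pos_iff.2 hu
  have e : 2 * (u * u) = -(u * ((a - u) + (b - u) + (c - u) + (d - u)) +
      ((a - u) * (b - u) + (c - u) * (d - u))) := by linear_combination h
  have h1 : ‖(2 : ℂ) * (u * u)‖ = 2 * (‖u‖ * ‖u‖) := by
    rw [norm_mul, norm_mul]; simp
  have h2 : ‖(a - u) + (b - u) + (c - u) + (d - u)‖ ≤ 4 * (‖u‖ / 5) := by
    have t1 := norm_add_le ((a - u) + (b - u) + (c - u)) (d - u)
    have t2 := norm_add_le ((a - u) + (b - u)) (c - u)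
    have t3 := norm_add_le (a - u) (b - u)
    linarith
  have h3 : ‖(a - u) * (b - u)‖ ≤ ‖u‖ / 5 * (‖u‖ / 5) := by
    rw [norm_mul]; exact mul_le_mul ha hb (norm_nonneg _) (by positivity)
  have h4 : ‖(c - u) * (d - u)‖ ≤ ‖u‖ / 5 * (‖u‖ / 5) := by
    rw [norm_mul]; exact mul_le_mul hc hd (norm_nonneg _) (by positivity)
  have h5 : ‖u * ((a - u) + (b - u) + (c - u) + (d - u))‖ ≤ ‖u‖ * (4 * (‖u‖ / 5)) := by
    rw [norm_mul]; exact mul_le_mul_of_nonneg_left h2 hm.le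
  have h6 := norm_add_le (u * ((a - u) + (b - u) + (c - u) + (d - u)))
    ((a - u) * (b - u) + (c - u) * (d - u))
  have h7 := norm_add_le ((a - u) * (b - u)) ((c - u) * (d - u))
  rw [e, norm_neg] at h1
  nlinarith [mul_pos hm hm]

/-- uniqueness of square roots modulo a square -/
theorem sq_dvd_sub {v g g' : ℚ[X]} (h : v ^ 2 ∣ g ^ 2 - g' ^ 2)
    (hz : ∀ z : ℂ, aeval z v = 0 → aeval z g + aeval z g' ≠ 0) : v ^ 2 ∣ g - g' := by
  have hc : IsCoprime v (g + g') := by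
    rw [Polynomial.isCoprime_iff_aeval_ne_zero_of_isAlgClosed (k := ℚ) ℂ]
    intro z
    by_cases h0 : aeval z v = 0
    · right; rw [map_add]; exact hz z h0
    · left; exact h0
  have e : g ^ 2 - g' ^ 2 = (g - g') * (g + g') := by ring
  rw [e] at h
  exact (hc.pow_left (m := 2)).dvd_of_dvd_mul_right h

theorem sq_dvd_sub_int {v g g' : ℤ[X]} (hv : v.IsPrimitive) (h : v ^ 2 ∣ g ^ 2 - g' ^ 2)
    (hz : ∀ z : ℂ, aeval z v = 0 → aeval z g + aeval z g' ≠ 0) : v ^ 2 ∣ g - g' := by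
  have hv2 : (v ^ 2).IsPrimitive := by rw [pow_two]; exact hv.mul hv
  apply dvd_of_up_dvd hv2
  have h1 : up ℚ v ^ 2 ∣ up ℚ g ^ 2 - up ℚ g' ^ 2 := by
    have := Polynomial.map_dvd (Int.castRingHom ℚ) h
    simpa only [Polynomial.map_sub, Polynomial.map_pow] using this
  have h2 := sq_dvd_sub h1 (fun z h0 => by
    rw [WMuniq_aeval_up] at h0
    rw [WMuniq_aeval_up, WMuniq_aeval_up]
    exact hz z h0)
  simpa only [Polynomial.map_sub, Polynomial.map_pow] using h2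

theorem NR.triple {v f f' a G₁ G₂ G₃ : ℤ[X]} {c : ℤ} (hv : v.IsPrimitive) (hc : 0 < c)
    (h₁ : NR v c f a G₁) (h₂ : NR v c f' a G₂) (h₃ : NR v c f f' G₃) (k₁ : Cl v f f')
    (k₂ : Cl v f a) : v ^ 2 ∣ G₁ * G₂ - C c * a * G₃ := by
  apply sq_dvd_sub_int hv
  · obtain ⟨x₁, e₁⟩ := h₁.1
    obtain ⟨x₂, e₂⟩ := h₂.1
    obtain ⟨x₃, e₃⟩ := h₃.1
    rw [C_pow] at e₁ e₂ e₃
    refine ⟨x₁ * G₂ ^ 2 + C c ^ 2 * f * a * x₂ - C c ^ 2 * a ^ 2 * x₃, ?_⟩
    linear_combination G₂ ^ 2 * e₁ + C c ^ 2 * f * a * e₂ - C c ^ 2 * a ^ 2 * e₃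
  · intro z hz
    obtain ⟨hf, hf'⟩ := k₁ z hz
    obtain ⟨-, ha⟩ := k₂ z hz
    have b₁ := h₁.2 z hz
    have b₂ := h₂.2 z hz
    have b₃ := h₃.2 z hz
    have hcR : (0 : ℝ) < c := by exact_mod_cast hc
    have hcC : (c : ℂ) ≠ 0 := by exact_mod_cast hc.ne'
    have hn : ‖(c : ℂ)‖ = c := by rw [Complex.norm_intCast, abs_of_pos hcR]
    have hu : ‖(c : ℂ) * aeval z f‖ = c * ‖aeval z f‖ := by rw [norm_mul, hn]
    have hF : 0 ≤ ‖aeval z f‖ := norm_nonneg _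
    have hcF : 0 ≤ (c : ℝ) * ‖aeval z f‖ := mul_nonneg hcR.le hF
    have e : aeval z (G₁ * G₂) + aeval z (C c * a * G₃) =
        aeval z G₁ * aeval z G₂ + ((c : ℂ) * aeval z a) * aeval z G₃ := by
      simp only [map_mul, WMuniq_aeval_C]
    rw [e]
    apply WMuniq_ne (mul_ne_zero hcC hf)
    · rw [hu]; linarith
    · rw [hu]
      have t1 : ‖aeval z f'‖ ≤ ‖aeval z f‖ + ‖aeval z f‖ / 100 := by
        have := norm_add_le (aeval z f) (aeval z f' - aeval z f)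
        rw [add_sub_cancel] at this
        linarith
      have t2 : ‖(c : ℂ) * (aeval z f' - aeval z f)‖ ≤ c * (‖aeval z f‖ / 100) := by
        rw [norm_mul, hn]; exact mul_le_mul_of_nonneg_left hf' hcR.le
      have t3 := norm_add_le (aeval z G₂ - c * aeval z f') ((c : ℂ) * (aeval z f' - aeval z f))
      have t4 : aeval z G₂ - c * aeval z f' + (c : ℂ) * (aeval z f' - aeval z f) =
          aeval z G₂ - c * aeval z f := by ring
      rw [t4] at t3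
      have t5 := mul_le_mul_of_nonneg_left t1 hcR.le
      nlinarith
    · rw [hu, ← mul_sub, norm_mul, hn]
      have := mul_le_mul_of_nonneg_left ha hcR.le
      nlinarith
    · rw [hu]; linarith

theorem NR.smul {v f f' G : ℤ[X]} {c : ℤ} (h : NR v c f f' G) {e : ℤ} (he : 0 < e) (w : ℤ[X]) :
    NR v (e * c) f f' (C e * G + v ^ 2 * w) := by
  refine ⟨?_, fun z hz => ?_⟩
  · obtain ⟨x, hx⟩ := h.1
    rw [C_pow] at hx
    rw [C_pow, C_mul]
    refine ⟨C e ^ 2 * x + 2 * C e * G * w + v ^ 2 * w ^ 2, ?_⟩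
    linear_combination C e ^ 2 * hx
  · have heR : (0 : ℝ) < e := by exact_mod_cast he
    have hn : ‖(e : ℂ)‖ = e := by rw [Complex.norm_intCast, abs_of_pos heR]
    have e1 : aeval z (C e * G + v ^ 2 * w) - ((e * c : ℤ) : ℂ) * aeval z f =
        (e : ℂ) * (aeval z G - c * aeval z f) := by
      simp only [map_add, map_mul, map_pow, WMuniq_aeval_C, hz]
      push_cast
      ring
    rw [e1, norm_mul, hn]
    have := mul_le_mul_of_nonneg_left (h.2 z hz) heR.le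
    push_cast
    linarith

/-- a square root at the roots of `v` lifts modulo `v ^ 2` -/
theorem exists_rat_root {v f f' : ℤ[X]} (hv : (up ℂ v).Separable) (g₀ : ℚ[X])
    (h : ∀ z : ℂ, aeval z v = 0 → aeval z g₀ ≠ 0 ∧ aeval z g₀ ^ 2 = aeval z f * aeval z f') :
    ∃ g : ℚ[X], up ℚ v ^ 2 ∣ g ^ 2 - up ℚ f * up ℚ f' ∧
      ∀ z : ℂ, aeval z v = 0 → aeval z g = aeval z g₀ := by
  classical
  have hd : up ℚ v ∣ g₀ ^ 2 - up ℚ f * up ℚ f' := by
    rw [← Polynomial.map_dvd_map' (algebraMap ℚ ℂ), WMuniq_up_up]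
    by_cases h0 : (g₀ ^ 2 - up ℚ f * up ℚ f').map (algebraMap ℚ ℂ) = 0
    · rw [h0]; exact dvd_zero _
    apply (IsAlgClosed.splits _).dvd_of_roots_le_roots hv.ne_zero
    rw [Multiset.le_iff_subset (nodup_roots hv)]
    intro z hz
    rw [mem_roots hv.ne_zero, IsRoot, ← WMuniq_up_up, WMuniq_eval_map, WMuniq_aeval_up] at hz
    rw [mem_roots h0, IsRoot, WMuniq_eval_map, map_sub, map_mul, map_pow, WMuniq_aeval_up,
      WMuniq_aeval_up, (h z hz).2, sub_self]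
  have hc : IsCoprime (up ℚ v) (2 * g₀) := by
    rw [Polynomial.isCoprime_iff_aeval_ne_zero_of_isAlgClosed (k := ℚ) ℂ]
    intro z
    by_cases h0 : aeval z (up ℚ v) = 0
    · right
      rw [WMuniq_aeval_up] at h0
      rw [two_mul, map_add, ← two_mul]
      exact mul_ne_zero two_ne_zero (h z h0).1
    · left; exact h0
  obtain ⟨a, s, hs⟩ := hc
  obtain ⟨k, hk⟩ := hd
  refine ⟨g₀ - up ℚ v * k * s, ⟨k * a + k ^ 2 * s ^ 2, ?_⟩, fun z hz => ?_⟩
  · linear_combination hk - up ℚ v * k * hs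
  · rw [map_sub, map_mul, map_mul, WMuniq_aeval_up, hz, zero_mul, zero_mul, sub_zero]

theorem WMuniq_zt {d p : ℕ} {v : ℤ[X]} (hv : VOk d v) (hp : p.Prime) {z : ℂ}
    (hz : aeval z v = 0) : aeval z (-(v /ₘ (X - C (tt d p v)))) = zt d p v z := by
  have h1 := zt_mul hv hp hz
  have h2 := congrArg (aeval z) (modByMonic_add_div v (X - C (tt d p v)))
  rw [modByMonic_X_sub_C_eq_C_eval, hz] at h2
  simp only [map_add, map_mul, map_sub, WMuniq_aeval_C, aeval_X] at h2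
  have hc : ((cc d p v : ℤ) : ℂ) ≠ 0 := by exact_mod_cast cc_ne_zero hv hp
  have ht : z - (tt d p v : ℂ) ≠ 0 := by
    intro h0
    rw [h0, zero_mul] at h1
    exact hc h1.symm
  apply mul_left_cancel₀ ht
  rw [h1, map_neg]
  unfold cc
  linear_combination -h2

theorem Sq.exists_rat {n d : ℕ} {D D' : Dat} {κ : ℂ → ℂ} (h : Ok n d D) (h' : Ok n d D')
    (hs : Sq d D D' κ) : ∃ g : ℚ[X], up ℚ D.v ^ 2 ∣ g ^ 2 - up ℚ D.f * up ℚ D'.f ∧
      ∀ z : ℂ, aeval z D.v = 0 → aeval z g = κ z * aeval z D.f := by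
  obtain ⟨p, hp1, hp⟩ := Nat.exists_infinite_primes (D.P + D'.P + 1)
  have hP : p ≠ D.P := by omega
  have hP' : p ≠ D'.P := by omega
  obtain ⟨N, w, hN, hw⟩ := (hs.2.2 p hp).1
  have hN0 : (N : ℂ) ≠ 0 := by
    have : N ≠ 0 := by rintro rfl; exact hN (dvd_zero _)
    exact_mod_cast this
  have hval : ∀ z : ℂ, aeval z D.v = 0 →
      aeval z (C ((N : ℚ)⁻¹) * up ℚ (D.f * w.comp (-(D.v /ₘ (X - C (tt d p D.v)))))) =
        κ z * aeval z D.f := by
    intro z hz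
    have h1 := hw z hz
    simp only [pz_of_ne hP, pz_of_ne hP', mul_one, div_one] at h1
    rw [map_mul, WMuniq_aeval_up, map_mul, aeval_comp, WMuniq_zt h.1 hp hz, ← h1, aeval_C]
    simp only [map_inv₀, map_intCast]
    field_simp
  obtain ⟨g, hg1, hg2⟩ := exists_rat_root (f := D.f) (f' := D'.f) h.1.2.2.2
    (C ((N : ℚ)⁻¹) * up ℚ (D.f * w.comp (-(D.v /ₘ (X - C (tt d p D.v)))))) (fun z hz => by
      have hf := h.2.2.2.2.2.2.2.2 z hz
      have hf' := h'.2.2.2.2.2.2.2.2 z (hs.1 ▸ hz)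
      have e := hs.2.1 z hz
      rw [hval z hz]
      refine ⟨mul_ne_zero ?_ hf, ?_⟩
      · rintro h0
        rw [h0] at e
        exact hf' (by rw [e]; ring)
      · rw [e]; ring)
  exact ⟨g, hg1, fun z hz => by rw [hg2 z hz, hval z hz]⟩

end Pool.Agent.VW
end

-- part Pool.Agent.P.MP_b0ea37_nt.WMintC
section

namespace Pool.Agent.VW

open Polynomial

theorem WMintC_comp {S : Type} [CommRing S] (φ : ℚ[X] →+* S) (y : ℚ[X]) (g : ℤ[X]) :
    φ ((up ℚ g).comp y) = aeval (φ y) g := by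
  rw [comp, hom_eval₂, up, eval₂_map, aeval_def]
  congr 1
  exact RingHom.ext_int _ _

theorem WMintC_mk {S : Type} [CommRing S] (φ : ℚ[X] →+* S) (g : ℤ[X]) :
    aeval (φ X) g = φ (up ℚ g) := by
  rw [← WMintC_comp, comp_X]

theorem WMintC_ev (z : ℂ) (g : ℤ[X]) : aeval z (up ℚ g) = aeval z g := by
  rw [up, ← algebraMap_int_eq, aeval_map_algebraMap]

theorem WMintC_deg (k : ℕ) (t c : ℤ) (g : ℤ[X]) : (Tw k t c g).natDegree ≤ k :=
  natDegree_sum_le_of_forall_le _ _ fun i _ =>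
    (natDegree_C_mul_X_pow_le _ _).trans (Nat.sub_le k i)

theorem WMintC_mod (G V : ℤ[X]) (hV : V.Monic) {m : ℕ} (h : V.natDegree ≤ m + 1) :
    (G %ₘ V).natDegree ≤ m := by
  by_cases h1 : V = 1
  · simp [h1]
  · exact Nat.le_of_lt_succ ((natDegree_modByMonic_lt G hV h1).trans_le h)

/-- the local coordinate as a polynomial modulo `v ^ 2` -/
theorem WMintC_y (v : ℤ[X]) (t : ℤ) (hc : v.eval t ≠ 0) :
    ∃ y r : ℚ[X], (X - C (t : ℚ)) * y = C ((v.eval t : ℤ) : ℚ) + up ℚ v ^ 2 * r := by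
  have e := modByMonic_add_div v (X - C t)
  rw [modByMonic_X_sub_C_eq_C_eval] at e
  have e1 := congrArg (up ℚ) e
  simp only [up, Polynomial.map_add, Polynomial.map_mul, Polynomial.map_sub, map_X,
    eq_intCast] at e1
  have hc' : ((v.eval t : ℤ) : ℚ) ≠ 0 := by exact_mod_cast hc
  have e2 : C ((v.eval t : ℤ) : ℚ) * C ((v.eval t : ℤ) : ℚ)⁻¹ = 1 := by
    rw [← C_mul, mul_inv_cancel₀ hc', C_1]
  refine ⟨-(up ℚ (v /ₘ (X - C t))) * (C ((v.eval t : ℤ) : ℚ) + up ℚ v) * C ((v.eval t : ℤ) : ℚ)⁻¹,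
    -C ((v.eval t : ℤ) : ℚ)⁻¹, ?_⟩
  simp only [up, eq_intCast, map_intCast, Polynomial.map_intCast] at e1 e2 ⊢
  linear_combination (-(((v.eval t : ℤ) : ℚ[X]) + v.map (Int.castRingHom ℚ)) *
    C ((v.eval t : ℤ) : ℚ)⁻¹) * e1 + ((v.eval t : ℤ) : ℚ[X]) * e2

/-- back from the local coordinate -/
theorem loc_back {n d m p : ℕ} (hm : 2 * d ≤ m + 1) {v f f' : ℤ[X]} (hv : VOk d v) (hp : p.Prime)
    (hf : f.natDegree ≤ n) (hf' : f'.natDegree ≤ n) {g : ℚ[X]}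
    (hg : up ℚ v ^ 2 ∣ g ^ 2 - up ℚ f * up ℚ f') (hg' : ∀ z : ℂ, aeval z v = 0 → aeval z g ≠ 0)
    {M : ℤ} {Γ : ℤ[X]} (hM : ¬ (p : ℤ) ∣ M)
    (hΓ : Vp d p v ^ 2 ∣ Γ ^ 2 - C ((2 * M) ^ 2) * Tw n (tt d p v) (cc d p v) f *
      Tw n (tt d p v) (cc d p v) f')
    (hval : ∀ z : ℂ, aeval z v = 0 →
      aeval (zt d p v z) Γ = 2 * M * (zt d p v z ^ n * aeval z g)) (i : ℕ) (hi : i + n ≤ m) :
    ∃ (N : ℤ) (U : ℤ[X]), ¬ (p : ℤ) ∣ N ∧ U.natDegree ≤ m ∧
      up ℚ v ^ 2 ∣ C ((N * (2 * (d.factorial : ℤ) ^ m) : ℤ) : ℚ) * X ^ i * g - up ℚ U := by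
  obtain ⟨-, -, N₀, hN₀, e, he⟩ := goodT_tt hv hp
  have hc : cc d p v ≠ 0 := cc_ne_zero hv hp
  have hzt := fun z hz => zt_mul (z := z) hv hp hz
  have hVm : (Vp d p v).Monic := VV_monic _ _ _
  have hVd : (Vp d p v).natDegree = d := VV_natDegree _ _ _
  have hCV : C (cc d p v) * Vp d p v = Tw d (tt d p v) (cc d p v) v := C_mul_VV _ _ _
  obtain ⟨y₀, r, hy₀⟩ := WMintC_y v (tt d p v) hc
  change (X - C (tt d p v : ℚ)) * y₀ = C (cc d p v : ℚ) + _ at hy₀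
  change N₀ * _ = cc d p v * e at he
  generalize cc d p v = c at *
  generalize tt d p v = t at *
  generalize Vp d p v = V at *
  have hM0 : M ≠ 0 := by
    rintro rfl
    exact hM (dvd_zero _)
  have hcQ : (c : ℚ) ≠ 0 := by exact_mod_cast hc
  have hcC : (c : ℂ) ≠ 0 := by exact_mod_cast hc
  have hMC : (M : ℂ) ≠ 0 := by exact_mod_cast hM0
  obtain ⟨S, _, φ, hφ⟩ : ∃ (S : Type) (_ : CommRing S) (φ : ℚ[X] →+* S),
      ∀ a b, φ a = φ b ↔ up ℚ v ^ 2 ∣ a - b :=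
    ⟨AdjoinRoot (up ℚ v ^ 2), inferInstance, AdjoinRoot.mk _, fun _ _ => AdjoinRoot.mk_eq_mk⟩
  obtain ⟨x, hx⟩ : ∃ x, x = φ X := ⟨_, rfl⟩
  obtain ⟨y, hy⟩ : ∃ y, y = φ y₀ := ⟨_, rfl⟩
  have hq0 : φ (up ℚ v ^ 2) = 0 := by
    rw [← map_zero φ, hφ, sub_zero]
  have hxy : (x - t) * y = c := by
    have := congrArg φ hy₀
    rw [map_add, map_mul φ (up ℚ v ^ 2), hq0] at this
    simpa [hx, hy] using this
  have hv2 : aeval x v ^ 2 = 0 := by
    rw [hx, WMintC_mk, ← map_pow, hq0]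
  have hV2 : aeval y (V ^ 2) = 0 := by
    have e1 := congrArg (aeval y) hCV
    rw [aeval_Tw hv.1.le hxy, map_mul, aeval_C, eq_intCast] at e1
    have hu : IsUnit (c : S) := by simpa using (Ne.isUnit hcQ).map (φ.comp C)
    refine (hu.pow 2).mul_right_eq_zero.1 ?_
    rw [map_pow, ← mul_pow, e1, mul_pow, hv2, mul_zero]
  have hcomp : φ ((up ℚ Γ).comp y₀) = aeval y Γ := hy ▸ WMintC_comp φ y₀ Γ
  have hG : aeval y Γ ^ 2 = (2 * M) ^ 2 * (y ^ n * aeval x f) * (y ^ n * aeval x f') := by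
    obtain ⟨w, hw⟩ := hΓ
    have e1 := congrArg (aeval y) hw
    rw [map_mul _ (V ^ 2), hV2, zero_mul, map_sub, map_mul, map_mul, aeval_Tw hf hxy,
      aeval_Tw hf' hxy, map_pow, aeval_C, eq_intCast, sub_eq_zero] at e1
    rw [e1]
    push_cast
    ring
  have hg2 : φ g ^ 2 = aeval x f * aeval x f' := by
    rw [hx, WMintC_mk, WMintC_mk, ← map_pow, ← map_mul]
    exact (hφ _ _).2 hg
  have hkey : (x - t) ^ n * aeval y Γ = 2 * M * c ^ n * φ g := by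
    have h1 : up ℚ v ^ 2 ∣
        (X - C (t : ℚ)) ^ n * (up ℚ Γ).comp y₀ - C ((2 * M * c ^ n : ℤ) : ℚ) * g := by
      refine sq_dvd_sub ((hφ _ _).1 ?_) fun z hz => ?_
      · rw [map_pow, map_pow, map_mul, map_mul, hcomp, mul_pow, mul_pow, hG, hg2]
        simp only [map_pow, map_sub, map_intCast, ← hx]
        push_cast
        rw [← hxy, mul_pow (x - t)]
        ring
      · have hz' := (WMintC_ev z v).symm.trans hz
        have e1 := congrArg (aeval z) hy₀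
        simp only [map_mul, map_sub, map_add, map_pow, aeval_X, map_intCast, hz] at e1
        have e2 := hzt z hz'
        have hzt0 : z - t ≠ 0 := fun h0 => hcC (by rw [← e2, h0, zero_mul])
        have e3 : aeval z y₀ = zt d p v z := mul_left_cancel₀ hzt0 (by rw [e1, e2]; simp)
        rw [map_mul, map_mul, aeval_comp, WMintC_ev, e3, hval z hz']
        simp only [map_pow, map_sub, map_intCast, aeval_X]
        have e4 : (z - t) ^ n * zt d p v z ^ n = c ^ n := by rw [← mul_pow, e2]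
        have e5 : (z - t) ^ n * (2 * M * (zt d p v z ^ n * aeval z g)) +
            ((2 * M * c ^ n : ℤ) : ℂ) * aeval z g = 4 * M * c ^ n * aeval z g := by
          push_cast
          linear_combination 2 * M * aeval z g * e4
        rw [e5]
        exact mul_ne_zero (mul_ne_zero (mul_ne_zero (by norm_num) hMC) (pow_ne_zero _ hcC))
          (hg' z hz')
    have h2 := (hφ _ _).2 h1
    rw [map_mul, map_mul, hcomp] at h2
    simp only [map_pow, map_sub, map_intCast, ← hx] at h2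
    rw [h2]
    push_cast
    ring
  obtain ⟨k, rfl⟩ := Nat.exists_eq_add_of_le hi
  set G := (Γ * X ^ k * (C t * X + C c) ^ i) %ₘ V ^ 2 with hGd
  have hGdeg : G.natDegree ≤ i + n + k :=
    WMintC_mod _ _ (hVm.pow 2) (by rw [natDegree_pow, hVd]; exact hm)
  have hGy : aeval y G = aeval y Γ * y ^ k * (x * y) ^ i := by
    have e1 := congrArg (aeval y) (modByMonic_add_div (Γ * X ^ k * (C t * X + C c) ^ i) (V ^ 2))
    rw [map_add, map_mul, hV2, zero_mul, add_zero] at e1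
    rw [e1]
    simp only [map_mul, map_pow, map_add, aeval_X, eq_intCast, map_intCast]
    rw [← hxy]
    ring
  refine ⟨M * N₀ ^ (i + n + k), C (e ^ (i + n + k)) * (Tw (i + n + k) 0 c G).comp (X - C t),
    fun hd => ?_, ?_, (hφ _ _).1 ?_⟩
  · have hp' : Prime (p : ℤ) := Nat.prime_iff_prime_int.1 hp
    exact (hp'.dvd_or_dvd hd).elim hM fun h => hN₀ (hp'.dvd_of_dvd_pow h)
  · refine (natDegree_C_mul_le _ _).trans (natDegree_comp_le.trans ?_)
    rw [natDegree_X_sub_C, mul_one]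
    exact WMintC_deg _ _ _ _
  · have e1 : (M * N₀ ^ (i + n + k) * (2 * (d.factorial : ℤ) ^ (i + n + k)) : ℤ) =
        e ^ (i + n + k) * (2 * M * c ^ (i + n + k)) := by
      rw [mul_mul_mul_comm, ← mul_pow, he, mul_pow]
      ring
    rw [← WMintC_mk, ← hx, map_mul (aeval x), aeval_comp, map_sub, aeval_X, aeval_C, aeval_C, eq_intCast,
      eq_intCast, aeval_Tw (x := y) hGdeg (by push_cast; linear_combination hxy), hGy, e1]
    simp only [map_mul, map_pow, map_intCast, ← hx]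
    push_cast
    have e2 : (c : S) ^ (i + n + k) = c ^ n * ((x - t) ^ (i + k) * y ^ (i + k)) := by
      rw [← mul_pow, hxy]
      ring
    rw [e2]
    linear_combination
      (-((e : S) ^ (i + n + k) * x ^ i * ((x - t) ^ (i + k) * y ^ (i + k)))) * hkey

end Pool.Agent.VW
end

-- part Pool.Agent.P.MP_b0ea37_nt.WMint
section

namespace Pool.Agent.VW

open Polynomial

/-- rational polynomials that are congruent to an integer polynomial of degree at most `m` -/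
def WMintSub (w : ℚ[X]) (m : ℕ) : AddSubgroup ℚ[X] where
  carrier := {h | ∃ U : ℤ[X], U.natDegree ≤ m ∧ w ∣ h - up ℚ U}
  zero_mem' := ⟨0, by simp, by simp [up]⟩
  add_mem' := by
    rintro a b ⟨U, hU, ha⟩ ⟨U', hU', hb⟩
    refine ⟨U + U', (natDegree_add_le _ _).trans (max_le hU hU'), ?_⟩
    have e : a + b - up ℚ (U + U') = (a - up ℚ U) + (b - up ℚ U') := by
      simp only [up, Polynomial.map_add]; ring
    rw [e]; exact dvd_add ha hb
  neg_mem' := by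
    rintro a ⟨U, hU, ha⟩
    refine ⟨-U, by rwa [natDegree_neg], ?_⟩
    have e : -a - up ℚ (-U) = -(a - up ℚ U) := by
      simp only [up, Polynomial.map_neg]; ring
    rw [e]; exact (dvd_neg).2 ha

theorem WMint_aeval_up (z : ℂ) (U : ℤ[X]) : aeval z (up ℚ U) = aeval z U := by
  have e : (Int.castRingHom ℚ) = algebraMap ℤ ℚ := Subsingleton.elim _ _
  rw [up, e, aeval_map_algebraMap]

theorem WMint_up_C (c : ℤ) : up ℚ (C c) = C (c : ℚ) := by
  rw [up, map_C]; rfl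

theorem WMint_prim_sq {v : ℤ[X]} (hv : v.IsPrimitive) : (v ^ 2).IsPrimitive := by
  rw [pow_two]; exact hv.mul hv

theorem WMint_dvd {v g : ℤ[X]} (hv : v.IsPrimitive) (h : up ℚ v ^ 2 ∣ up ℚ g) : v ^ 2 ∣ g := by
  refine dvd_of_up_dvd (WMint_prim_sq hv) ?_
  rwa [up, Polynomial.map_pow]

/-- integrality of the square root -/
theorem int_root {n d m : ℕ} (hn : 2 ≤ n) (hnm : n ≤ m) (hm : 2 * d ≤ m + 1) {D D' : Dat}
    (h : Ok n d D) (h' : Ok n d D') (hs : Sq1 d D D') : ∃ U : ℤ[X], U.natDegree ≤ m ∧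
      NR D.v (2 * (d.factorial : ℤ) ^ m) D.f D'.f U ∧
      ∀ i : ℕ, i + n ≤ m → ∃ U' : ℤ[X], U'.natDegree ≤ m ∧ D.v ^ 2 ∣ X ^ i * U - U' := by
  obtain ⟨κ, hq, hκ⟩ := hs
  obtain ⟨g, hg, hgz⟩ := hq.exists_rat h h'
  have hvv : D.v = D'.v := hq.1
  have hv : VOk d D.v := h.1
  have hf : D.f.natDegree ≤ n := h.2.2.1.le
  have hf' : D'.f.natDegree ≤ n := h'.2.2.1.le
  have hg' : ∀ z : ℂ, aeval z D.v = 0 → aeval z g ≠ 0 := by
    intro z hz
    rw [hgz z hz]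
    refine mul_ne_zero ?_ (h.2.2.2.2.2.2.2.2 z hz)
    intro h0
    have := hκ z hz
    rw [h0] at this
    norm_num at this
  set c : ℤ := 2 * (d.factorial : ℤ) ^ m with hc
  have hc0 : 0 < c := by positivity
  have key : ∀ i : ℕ, i + n ≤ m → ∃ U : ℤ[X], U.natDegree ≤ m ∧
      up ℚ D.v ^ 2 ∣ C (c : ℚ) * X ^ i * g - up ℚ U := by
    intro i hi
    refine mem_of_loc (WMintSub (up ℚ D.v ^ 2) m) (C (c : ℚ) * X ^ i * g) ?_
    intro p hp
    obtain ⟨M, Γ, hM, hΓ, hval⟩ := loc_root hn h h' hq hp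
    have hΓ' : Vp d p D.v ^ 2 ∣ Γ ^ 2 - C ((2 * M) ^ 2) * Tw n (tt d p D.v) (cc d p D.v) D.f *
        Tw n (tt d p D.v) (cc d p D.v) D'.f := by
      have e : FF n d p D' = Tw n (tt d p D.v) (cc d p D.v) D'.f := by rw [FF, ← hvv]
      rw [← e]; exact hΓ
    have hval' : ∀ z : ℂ, aeval z D.v = 0 →
        aeval (zt d p D.v z) Γ = 2 * M * (zt d p D.v z ^ n * aeval z g) := by
      intro z hz
      rw [hval z hz, aeval_FF h hp hz, hgz z hz]; ring
    obtain ⟨N, U, hN, hU, hd⟩ := loc_back hm hv hp hf hf' hg hg' hM hΓ' hval' i hi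
    refine ⟨N, hN, U, hU, ?_⟩
    have e : N • (C (c : ℚ) * X ^ i * g) = C (((N * c : ℤ)) : ℚ) * X ^ i * g := by
      have e1 : C (((N * c : ℤ)) : ℚ) = (N : ℚ[X]) * C (c : ℚ) := by
        rw [Int.cast_mul N c, C_mul, C_eq_intCast N]
      rw [e1, zsmul_eq_mul]; ring
    rw [e]; exact hd
  obtain ⟨U, hU, hd⟩ := key 0 (by omega)
  rw [pow_zero, mul_one] at hd
  refine ⟨U, hU, ⟨?_, ?_⟩, ?_⟩
  · refine WMint_dvd hv.2.1 ?_
    have e : up ℚ (U ^ 2 - C (c ^ 2) * D.f * D'.f) =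
        C (c : ℚ) ^ 2 * (g ^ 2 - up ℚ D.f * up ℚ D'.f) -
          (C (c : ℚ) * g - up ℚ U) * (C (c : ℚ) * g + up ℚ U) := by
      rw [← WMint_up_C]
      simp only [up, Polynomial.map_sub, Polynomial.map_mul, Polynomial.map_pow, C_pow]
      ring
    rw [e]
    exact dvd_sub (hg.mul_left _) (hd.mul_right _)
  · intro z hz
    obtain ⟨w, hw⟩ := hd
    have h0 := congrArg (aeval z) hw
    rw [map_sub, map_mul, map_mul, map_pow, WMint_aeval_up, WMint_aeval_up, hz, hgz z hz,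
      aeval_C] at h0
    have h1 : aeval z U - (c : ℂ) * aeval z D.f = (c : ℂ) * aeval z D.f * (κ z - 1) := by
      have e : (algebraMap ℚ ℂ) (c : ℚ) = (c : ℂ) := by simp
      rw [e] at h0
      linear_combination -h0
    have hcr : (0 : ℝ) ≤ (c : ℝ) := by exact_mod_cast hc0.le
    rw [h1, norm_mul, norm_mul, Complex.norm_intCast, abs_of_nonneg hcr]
    have h2 := mul_le_mul_of_nonneg_left (hκ z hz) (mul_nonneg hcr (norm_nonneg (aeval z D.f)))
    linarith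
  · intro i hi
    obtain ⟨U', hU', hd'⟩ := key i hi
    refine ⟨U', hU', WMint_dvd hv.2.1 ?_⟩
    have e : up ℚ (X ^ i * U - U') =
        (C (c : ℚ) * X ^ i * g - up ℚ U') - X ^ i * (C (c : ℚ) * g - up ℚ U) := by
      simp only [up, Polynomial.map_sub, Polynomial.map_mul, Polynomial.map_pow, map_X]
      ring
    rw [e]
    exact dvd_sub hd' (hd.mul_left _)

end Pool.Agent.VW
end

-- part Pool.Agent.P.MP_b0ea37_nt.WMdeg
section

namespace Pool.Agent.VW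

open Polynomial

/-- the top coefficient of a multiple of `v ^ 2` -/
theorem WMdeg_top {v W : ℤ[X]} {m : ℕ} (h : v ^ 2 ∣ W) (hm : W.natDegree ≤ m) :
    v.leadingCoeff ^ 2 ∣ W.coeff m := by
  rcases hm.lt_or_eq with hm | hm
  · rw [coeff_eq_zero_of_natDegree_lt hm]; exact dvd_zero _
  · rw [← hm, ← leadingCoeff_pow]; exact leadingCoeff_dvd_leadingCoeff h

/-- a small multiple vanishes -/
theorem WMdeg_small {M y : ℤ} {s : ℝ} (hM : 0 < M) (h : M ∣ y) (hy : |(y : ℝ)| ≤ s * M)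
    (hs : s < 1) : y = 0 := by
  have hM' : (0 : ℝ) < M := by exact_mod_cast hM
  have h1 : |(y : ℝ)| < M := hy.trans_lt (by nlinarith)
  exact Int.eq_zero_of_abs_lt_dvd h (by exact_mod_cast h1)

theorem WMdeg_deg {n : ℕ} {f f' G : ℤ[X]} (c : ℤ) (hf : f.natDegree ≤ n) (hf' : f'.natDegree ≤ n)
    (hG : G.natDegree ≤ n) : (C c * (f + f') - 2 * G).natDegree ≤ n := by
  refine (natDegree_sub_le _ _).trans (max_le ?_ ?_)
  · exact (natDegree_C_mul_le _ _).trans ((natDegree_add_le _ _).trans (max_le hf hf'))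
  · exact (natDegree_C_mul_le (2 : ℤ) G).trans hG

theorem WMdeg_coeff (f f' G : ℤ[X]) (c : ℤ) (i : ℕ) :
    (C c * (f + f') - 2 * G).coeff i = c * (f.coeff i + f'.coeff i) - 2 * G.coeff i := by
  have e : (2 : ℤ[X]) = C 2 := rfl
  rw [coeff_sub, coeff_C_mul, coeff_add, e, coeff_C_mul]

/-- the first archimedean bound kills a top coefficient -/
theorem WMdeg_kill {n d e : ℕ} {v f f' G : ℤ[X]} {c y : ℤ} {a L : ℝ} (hv : VOk d v) (hc : 0 < c)
    (hG : NR v c f f' G) (hA : ArchZ n d v f f' a L)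
    (he : (C c * (f + f') - 2 * G).natDegree ≤ e) (h1 : n - 1 ≤ e) (h2 : e < 2 * d)
    (hy : 0 < y) (ha : y * (c * a) < 1)
    (hdvd : v.leadingCoeff ^ 2 ∣ y * (C c * (f + f') - 2 * G).coeff e) :
    (C c * (f + f') - 2 * G).coeff e = 0 := by
  by_contra hne
  have hd := natDegree_eq_of_le_of_coeff_ne_zero he hne
  have h3 := (hA c G _ hc hG (by rw [sub_self]; exact dvd_zero _)).1 (by rwa [hd]) (by rwa [hd])
  rw [leadingCoeff, hd] at h3
  have hy' : (0 : ℝ) < y := by exact_mod_cast hy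
  refine mul_ne_zero hy.ne' hne (WMdeg_small (pow_pos hv.2.2.1 2) hdvd ?_ ha)
  rw [Int.cast_mul, abs_mul, abs_of_pos hy', Int.cast_pow, mul_assoc]
  exact mul_le_mul_of_nonneg_left h3 hy'.le

theorem root_deg_le {n d : ℕ} {v f f' U : ℤ[X]} {c : ℤ} {a L : ℝ} (hv : VOk d v) (hc : 0 < c)
    (hf : f.natDegree ≤ n) (hf' : f'.natDegree ≤ n) (hU : NR v c f f' U)
    (hd : U.natDegree ≤ max n (2 * d - 1))
    (hi : ∀ i : ℕ, i + n ≤ max n (2 * d - 1) →
      ∃ U' : ℤ[X], U'.natDegree ≤ max n (2 * d - 1) ∧ v ^ 2 ∣ X ^ i * U - U')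
    (hA : ArchZ n d v f f' a L) (ha : c * a < 1) : U.natDegree ≤ n := by
  by_contra hlt
  have hlt : n < U.natDegree := not_le.1 hlt
  have hU0 : U ≠ 0 := by
    rintro rfl
    simp at hlt
  obtain ⟨U', hU', hdv⟩ := hi (2 * d - U.natDegree) (by omega)
  have hdeg : (X ^ (2 * d - U.natDegree) * U - U').natDegree ≤ 2 * d := by
    refine (natDegree_sub_le _ _).trans (max_le ?_ (by omega))
    refine natDegree_mul_le.trans ?_
    rw [natDegree_X_pow]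
    omega
  have h1 := WMdeg_top hdv hdeg
  have e : 2 * d = U.natDegree + (2 * d - U.natDegree) := by omega
  have h2 : (X ^ (2 * d - U.natDegree) * U - U').coeff (2 * d) = U.coeff U.natDegree := by
    rw [coeff_sub, coeff_eq_zero_of_natDegree_lt (p := U') (by omega), sub_zero]
    conv_lhs => arg 2; rw [e]
    exact coeff_X_pow_mul _ _ _
  rw [h2] at h1
  have h3 : (C c * (f + f') - 2 * U).coeff U.natDegree = -2 * U.coeff U.natDegree := by
    rw [WMdeg_coeff, coeff_eq_zero_of_natDegree_lt (hf.trans_lt hlt),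
      coeff_eq_zero_of_natDegree_lt (hf'.trans_lt hlt)]
    ring
  have h4 := WMdeg_kill (y := 1) hv hc hU hA (WMdeg_deg c (hf.trans hlt.le) (hf'.trans hlt.le) le_rfl)
    (by omega) (by omega) one_pos (by simpa using ha) (by
      rw [one_mul, h3]; exact h1.mul_left _)
  rw [h3] at h4
  exact mul_ne_zero (by norm_num) (leadingCoeff_ne_zero.2 hU0) h4

/-- a good square root: top coefficient `c`, small defect -/
def Gd (n : ℕ) (v : ℤ[X]) (c : ℤ) (L : ℝ) (f f' G : ℤ[X]) : Prop :=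
  NR v c f f' G ∧ G.natDegree ≤ n ∧ G.coeff n = c ∧ (C c * (f + f') - 2 * G).natDegree + 2 ≤ n ∧
    (C c * (f + f') - 2 * G).supNorm ≤ c * L

/-- two square roots of `c ^ 2` modulo `M` of the same type -/
theorem WMdeg_same {M c Y₁ Y₂ : ℤ} (hM : 0 < M) (h₁ : M ∣ Y₁ * Y₁ - c ^ 2)
    (h₂ : M ∣ Y₂ * Y₂ - c ^ 2) (hg : Int.gcd (Y₁ - c) M = Int.gcd (Y₂ - c) M) :
    M ∣ 2 * c * (Y₁ - Y₂) := by
  have key : ∀ Y : ℤ, M ∣ Y * Y - c ^ 2 → ∀ M' : ℤ, M = (Int.gcd (Y - c) M : ℤ) * M' →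
      M' ∣ Y + c := by
    intro Y hY M' hM'
    have hpos : 0 < Int.gcd (Y - c) M := Int.gcd_pos_of_ne_zero_right _ hM.ne'
    have hne : (Int.gcd (Y - c) M : ℤ) ≠ 0 := by exact_mod_cast hpos.ne'
    have hb := Int.gcd_eq_gcd_ab (Y - c) M
    obtain ⟨k, hk⟩ := hY
    have h1 : M ∣ (Int.gcd (Y - c) M : ℤ) * (Y + c) :=
      ⟨k * Int.gcdA (Y - c) M + Int.gcdB (Y - c) M * (Y + c), by
        rw [hb]; linear_combination Int.gcdA (Y - c) M * hk⟩
    obtain ⟨g, hgd⟩ : ∃ g : ℤ, g = (Int.gcd (Y - c) M : ℤ) := ⟨_, rfl⟩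
    rw [← hgd] at h1 hM' hne
    rw [hM'] at h1
    exact (mul_dvd_mul_iff_left hne).1 h1
  obtain ⟨M', hM'⟩ : (Int.gcd (Y₁ - c) M : ℤ) ∣ M := Int.gcd_dvd_right _ _
  obtain ⟨s₁, hs₁⟩ := key Y₁ h₁ M' hM'
  obtain ⟨s₂, hs₂⟩ := key Y₂ h₂ M' (by rw [← hg]; exact hM')
  obtain ⟨u₁, hu₁⟩ : (Int.gcd (Y₁ - c) M : ℤ) ∣ Y₁ - c := Int.gcd_dvd_left _ _
  obtain ⟨u₂, hu₂⟩ : (Int.gcd (Y₂ - c) M : ℤ) ∣ Y₂ - c := Int.gcd_dvd_left _ _
  rw [← hg] at hu₂
  obtain ⟨g, hgd⟩ : ∃ g : ℤ, g = (Int.gcd (Y₁ - c) M : ℤ) := ⟨_, rfl⟩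
  rw [← hgd] at hM' hu₁ hu₂
  refine ⟨s₁ * (u₁ - u₂) - u₁ * (s₁ - s₂), ?_⟩
  have e1 : Y₁ - Y₂ = g * (u₁ - u₂) := by linear_combination hu₁ - hu₂
  have e2 : Y₁ - Y₂ = M' * (s₁ - s₂) := by linear_combination hs₁ - hs₂
  calc 2 * c * (Y₁ - Y₂) = (Y₁ + c) * (Y₁ - Y₂) - (Y₁ - c) * (Y₁ - Y₂) := by ring
    _ = M' * s₁ * (g * (u₁ - u₂)) - g * u₁ * (M' * (s₁ - s₂)) := by
      rw [← hs₁, ← hu₁, ← e1, ← e2]
    _ = _ := by rw [hM']; ring

/-- the top coefficient of a difference of two products -/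
theorem WMdeg_two {n : ℕ} {v A B A' B' : ℤ[X]} {c : ℤ} (h : v ^ 2 ∣ A * B - C c * A' * B')
    (hA : A.natDegree ≤ n) (hB : B.natDegree ≤ n) (hA' : A'.natDegree ≤ n)
    (hB' : B'.natDegree ≤ n) :
    v.leadingCoeff ^ 2 ∣ A.coeff n * B.coeff n - c * (A'.coeff n * B'.coeff n) := by
  have h1 := WMdeg_top (m := n + n) h (by
    refine (natDegree_sub_le _ _).trans (max_le (natDegree_mul_le.trans (add_le_add hA hB)) ?_)
    exact natDegree_mul_le.trans (add_le_add ((natDegree_C_mul_le _ _).trans hA') hB'))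
  rwa [coeff_sub, mul_assoc, coeff_C_mul, coeff_mul_add_eq_of_natDegree_le hA hB,
    coeff_mul_add_eq_of_natDegree_le hA' hB'] at h1

/-- from the right top coefficient to a small defect -/
theorem WMdeg_gd {n d : ℕ} (hn : 2 ≤ n) (hnd : n ≤ 2 * d) {v f f' G : ℤ[X]} {c : ℤ} {a L : ℝ}
    (hv : VOk d v) (hc : 0 < c) (hf : f.Monic ∧ f.natDegree = n)
    (hf' : f'.Monic ∧ f'.natDegree = n) (hG : NR v c f f' G) (hd : G.natDegree ≤ n)
    (hGc : G.coeff n = c) (hA : ArchZ n d v f f' a L) (ha : (c : ℝ) ^ 2 * a < 1) :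
    Gd n v c L f f' G := by
  have c1 : f.coeff n = 1 := by rw [← hf.2]; exact hf.1
  have c2 : f'.coeff n = 1 := by rw [← hf'.2]; exact hf'.1
  obtain ⟨m, rfl⟩ : ∃ m, n = m + 1 := ⟨n - 1, by omega⟩
  have hE : (C c * (f + f') - 2 * G).natDegree ≤ m :=
    natDegree_le_pred (WMdeg_deg c hf.2.le hf'.2.le hd) (by rw [WMdeg_coeff, c1, c2, hGc]; ring)
  have hD : (f - f').natDegree ≤ m :=
    natDegree_le_pred ((natDegree_sub_le _ _).trans (max_le hf.2.le hf'.2.le))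
      (by rw [coeff_sub, c1, c2, sub_self])
  have hS : (f + f').natDegree ≤ m + 1 := (natDegree_add_le _ _).trans (max_le hf.2.le hf'.2.le)
  have hz : (C c * (f + f') - 2 * G).coeff m = 0 := by
    refine WMdeg_kill (y := c) hv hc hG hA hE (by omega) (by omega) hc (by linarith) ?_
    obtain ⟨E, hEd⟩ : ∃ E, E = C c * (f + f') - 2 * G := ⟨_, rfl⟩
    rw [← hEd] at hE ⊢
    obtain ⟨W, hW⟩ : ∃ W, W = G ^ 2 - C (c ^ 2) * f * f' := ⟨_, rfl⟩
    have hid : C (4 : ℤ) * W =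
        (C (c ^ 2) * ((f - f') * (f - f')) + E * E) - C (2 * c) * ((f + f') * E) := by
      have e4 : C (4 : ℤ) = 4 := rfl
      have e2 : C (2 : ℤ) = 2 := rfl
      rw [hW, hEd, C_mul, C_pow, e4, e2]
      ring
    have d1 : (C (c ^ 2) * ((f - f') * (f - f')) + E * E).natDegree ≤ m + m :=
      (natDegree_add_le _ _).trans (max_le
        ((natDegree_C_mul_le _ _).trans (natDegree_mul_le.trans (add_le_add hD hD)))
        (natDegree_mul_le.trans (add_le_add hE hE)))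
    have d2 : W.natDegree ≤ m + 1 + m := by
      rw [← natDegree_C_mul (p := W) (by norm_num : (4 : ℤ) ≠ 0), hid]
      refine (natDegree_sub_le _ _).trans (max_le (d1.trans (by omega)) ?_)
      exact (natDegree_C_mul_le _ _).trans (natDegree_mul_le.trans (add_le_add hS hE))
    have h1 := WMdeg_top (hW ▸ hG.1) d2
    have h2 := congrArg (fun q : ℤ[X] => q.coeff (m + 1 + m)) hid
    simp only [coeff_sub, coeff_C_mul] at h2
    rw [coeff_eq_zero_of_natDegree_lt (d1.trans_lt (by omega)),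
      coeff_mul_add_eq_of_natDegree_le hS hE, coeff_add, c1, c2] at h2
    have h3 : c * E.coeff m = -W.coeff (m + 1 + m) := by linarith
    rw [h3]
    exact h1.neg_right
  have hE2 : (C c * (f + f') - 2 * G).natDegree + 2 ≤ m + 1 := by
    have := natDegree_le_pred hE hz
    omega
  exact ⟨hG, hd, hGc, hE2,
    (hA c G _ hc hG (by rw [sub_self]; exact dvd_zero _)).2 hE2⟩

theorem ysplit {n d : ℕ} (hn : 2 ≤ n) (hnd : n ≤ 2 * d) {v f f' f₀ G₁ G₂ G₃ : ℤ[X]} {c : ℤ}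
    {a L : ℝ} (hv : VOk d v) (hc : 0 < c) (hf : f.Monic ∧ f.natDegree = n)
    (hf' : f'.Monic ∧ f'.natDegree = n) (hf₀ : f₀.Monic ∧ f₀.natDegree = n)
    (h₁ : NR v c f f₀ G₁) (h₂ : NR v c f' f₀ G₂) (h₃ : NR v c f f' G₃) (d₁ : G₁.natDegree ≤ n)
    (d₂ : G₂.natDegree ≤ n) (d₃ : G₃.natDegree ≤ n) (k₁ : Cl v f f') (k₂ : Cl v f f₀)
    (hg : Int.gcd (G₁.coeff n - c) (v.leadingCoeff ^ 2) =
      Int.gcd (G₂.coeff n - c) (v.leadingCoeff ^ 2))
    (hA : ArchZ n d v f f' a L) (ha0 : 0 ≤ a) (ha : (2 * (c : ℝ) ^ 3) ^ 2 * a < 1) :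
    ∃ G, Gd n v (2 * c ^ 3) L f f' G := by
  have _ := ha0
  have c1 : f.coeff n = 1 := by rw [← hf.2]; exact hf.1
  have c2 : f'.coeff n = 1 := by rw [← hf'.2]; exact hf'.1
  have c0 : f₀.coeff n = 1 := by rw [← hf₀.2]; exact hf₀.1
  have hM : 0 < v.leadingCoeff ^ 2 := pow_pos hv.2.2.1 2
  have m1 := WMdeg_two (sq G₁ ▸ h₁.1) d₁ d₁ hf.2.le hf₀.2.le
  have m2 := WMdeg_two (sq G₂ ▸ h₂.1) d₂ d₂ hf'.2.le hf₀.2.le
  have m3 := WMdeg_two (NR.triple hv.2.1 hc h₁ h₂ h₃ k₁ k₂) d₁ d₂ hf₀.2.le d₃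
  rw [c1, c0, mul_one, mul_one] at m1
  rw [c2, c0, mul_one, mul_one] at m2
  rw [c0, one_mul] at m3
  have m4 := WMdeg_same hM m1 m2 hg
  obtain ⟨k, hk⟩ : v.leadingCoeff ^ 2 ∣ 2 * c ^ 2 * (G₃.coeff n - c) := by
    have e : 2 * c ^ 2 * (G₃.coeff n - c) =
        2 * c * (G₁.coeff n * G₁.coeff n - c ^ 2) - G₁.coeff n * (2 * c * (G₁.coeff n - G₂.coeff n))
          - 2 * c * (G₁.coeff n * G₂.coeff n - c * G₃.coeff n) := by ring
    rw [e]
    exact ((m1.mul_left _).sub (m4.mul_left _)).sub (m3.mul_left _)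
  have he : 0 < 2 * c ^ 2 := by positivity
  have hc3 : 0 < 2 * c ^ 3 := by positivity
  have e3 : 2 * c ^ 2 * c = 2 * c ^ 3 := by ring
  have ha' : ((2 * c ^ 3 : ℤ) : ℝ) ^ 2 * a < 1 := by push_cast; exact ha
  rcases hnd.lt_or_eq with hlt | heq
  · have hG := h₃.smul he 0
    rw [mul_zero, add_zero, e3] at hG
    have hd : (C (2 * c ^ 2) * G₃).natDegree ≤ n := (natDegree_C_mul_le _ _).trans d₃
    have h5 : (C (2 * c ^ 3) * (f + f') - 2 * (C (2 * c ^ 2) * G₃)).coeff n =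
        v.leadingCoeff ^ 2 * (-2 * k) := by
      rw [WMdeg_coeff, c1, c2, coeff_C_mul]
      linear_combination (-2) * hk
    have h6 := WMdeg_kill (y := 2 * c ^ 3) hv hc3 hG hA (WMdeg_deg _ hf.2.le hf'.2.le hd)
      (by omega) hlt hc3 (by linarith) (by rw [h5]; exact (dvd_mul_right _ _).mul_left _)
    refine ⟨_, WMdeg_gd hn hnd hv hc3 hf hf' hG hd ?_ hA ha'⟩
    rw [WMdeg_coeff, c1, c2] at h6
    linarith
  · have hG := h₃.smul he (C (-k))
    rw [e3] at hG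
    have hv2 : (v ^ 2).natDegree = n := by rw [natDegree_pow, hv.1, heq]
    refine ⟨_, WMdeg_gd hn hnd hv hc3 hf hf' hG ?_ ?_ hA ha'⟩
    · exact (natDegree_add_le _ _).trans (max_le ((natDegree_C_mul_le _ _).trans d₃)
        ((natDegree_mul_C_le _ _).trans hv2.le))
    · have h5 : (v ^ 2).coeff n = v.leadingCoeff ^ 2 := by
        rw [← leadingCoeff_pow, ← hv2]; rfl
      rw [coeff_add, coeff_C_mul, coeff_mul_C, h5]
      linear_combination hk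

end Pool.Agent.VW
end

-- part Pool.Agent.P.MP_b0ea37_nt.WMpart
section

namespace Pool.Agent.VW

open Polynomial

theorem wmpart_two (g : ℤ[X]) : (2 * g).supNorm = 2 * g.supNorm := by
  have h := sup_C_mul_int 2 g
  rw [show (C 2 : ℤ[X]) = 2 from rfl] at h
  rw [h]
  norm_num

theorem wmpart_two_deg (g : ℤ[X]) : (2 * g).natDegree = g.natDegree :=
  natDegree_C_mul (a := (2 : ℤ)) two_ne_zero

theorem wmpart_C {c : ℤ} (hc : 0 < c) (g : ℤ[X]) : (C c * g).supNorm = c * g.supNorm := by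
  rw [sup_C_mul_int, abs_of_pos (by exact_mod_cast hc)]

theorem part_size {n : ℕ} (hn : 1 ≤ n) {v f f₀ G : ℤ[X]} {c : ℤ} {L L' : ℝ} (hc : 0 < c)
    (hf : f.Monic ∧ f.natDegree = n) (hf₀ : f₀.Monic ∧ f₀.natDegree = n) (h : Gd n v c L f f₀ G)
    (hL : (f - f₀).supNorm ≤ L') : (G - C c * f₀).natDegree < n ∧
      (G - C c * f₀).supNorm ≤ c * (L + L') := by
  obtain ⟨-, h2, h3, -, h5⟩ := h
  constructor
  · have h6 : (G - C c * f₀).natDegree ≤ n :=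
      (natDegree_sub_le _ _).trans (max_le h2 ((natDegree_C_mul_le _ _).trans hf₀.2.le))
    have h7 : (G - C c * f₀).coeff n = 0 := by
      have h8 : f₀.coeff n = 1 := hf₀.2 ▸ hf₀.1.coeff_natDegree
      rw [coeff_sub, coeff_C_mul, h3, h8, mul_one, sub_self]
    refine lt_of_le_of_ne h6 fun e => ?_
    rw [← e, coeff_natDegree, leadingCoeff_eq_zero] at h7
    rw [h7, natDegree_zero] at e
    omega
  · have e : 2 * (G - C c * f₀) = C c * (f - f₀) - (C c * (f + f₀) - 2 * G) := by ring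
    have h6 := sup_sub_le (C c * (f - f₀)) (C c * (f + f₀) - 2 * G)
    rw [← e, wmpart_two, wmpart_C hc] at h6
    have h7 : (0 : ℝ) < c := by exact_mod_cast hc
    have h8 := mul_le_mul_of_nonneg_left hL h7.le
    have h9 := (G - C c * f₀).supNorm_nonneg
    linarith

theorem part_form (n d j : ℕ) (hn : n = d + 1 + j) : ∃ K : ℝ, 1 ≤ K ∧
    ∀ (v f f' f₀ G₁ G₂ G₃ : ℤ[X]) (c : ℤ) (l H T : ℝ), VOk d v → 0 < c → 0 < T → T ≤ v.supNorm →
      0 ≤ l → l ≤ 1 → f.Monic ∧ f.natDegree = n → f'.Monic ∧ f'.natDegree = n →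
      f₀.Monic ∧ f₀.natDegree = n → f₀.supNorm ≤ H → (f - f₀).supNorm ≤ l * H →
      (f' - f₀).supNorm ≤ l * H → Gd n v c (l ^ 2 * H) f f₀ G₁ → Gd n v c (l ^ 2 * H) f' f₀ G₂ →
      Gd n v c (l ^ 2 * H) f f' G₃ → Cl v f f' → Cl v f f₀ →
      ∃ W : ℤ[X], W.natDegree ≤ 2 * j ∧ W.supNorm ≤ (K * c * (l * H / T)) ^ 2 ∧
        f₀ ∣ v ^ 2 * W + (G₁ - C c * f₀) * (G₂ - C c * f₀) := by
  obtain ⟨K, hK⟩ : ∃ K : ℝ, K = 4 ^ (2 * n) * 4 ^ (2 * n) * (7 * (n + 1)) := ⟨_, rfl⟩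
  have hq : (1 : ℝ) ≤ 4 ^ (2 * n) := one_le_pow₀ (by norm_num)
  have hn0 : (0 : ℝ) ≤ n := Nat.cast_nonneg n
  have hK1 : 1 ≤ K := hK ▸ one_le_mul_of_one_le_of_one_le (one_le_mul_of_one_le_of_one_le hq hq)
    (by linarith)
  refine ⟨K, hK1, fun v f f' f₀ G₁ G₂ G₃ c l H T hv hc hT hTv hl0 hl1 hf hf' hf₀ hH d₁ d₂ g₁ g₂ g₃
    k₁ k₂ => ?_⟩
  obtain ⟨W, hW⟩ := NR.triple hv.2.1 hc g₁.1 g₂.1 g₃.1 k₁ k₂
  obtain ⟨a₁, b₁⟩ := part_size (by omega) hc hf hf₀ g₁ d₁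
  obtain ⟨a₂, b₂⟩ := part_size (by omega) hc hf' hf₀ g₂ d₂
  obtain ⟨E, hE⟩ : ∃ E, E = G₃ - G₁ - G₂ + C c * f₀ := ⟨_, rfl⟩
  have e1 : 2 * E = (C c * (f + f₀) - 2 * G₁) + (C c * (f' + f₀) - 2 * G₂) -
      (C c * (f + f') - 2 * G₃) := by rw [hE]; ring
  have e2 : v ^ 2 * -W = C c * (f₀ * E) - (G₁ - C c * f₀) * (G₂ - C c * f₀) := by
    rw [hE]; linear_combination hW
  have hc' : (0 : ℝ) < c := by exact_mod_cast hc
  have hH0 : 0 ≤ H := f₀.supNorm_nonneg.trans hH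
  have hv0 : v ≠ 0 := hv.2.1.ne_zero
  have dE : E.natDegree + 2 ≤ n := by
    have h1 := natDegree_sub_le ((C c * (f + f₀) - 2 * G₁) + (C c * (f' + f₀) - 2 * G₂))
      (C c * (f + f') - 2 * G₃)
    have h2 := natDegree_add_le (C c * (f + f₀) - 2 * G₁) (C c * (f' + f₀) - 2 * G₂)
    rw [← e1, wmpart_two_deg] at h1
    have h3 := g₁.2.2.2.1
    have h4 := g₂.2.2.2.1
    have h5 := g₃.2.2.2.1
    omega
  have sE : E.supNorm ≤ 3 * (c * (l ^ 2 * H)) := by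
    have h1 := sup_sub_le ((C c * (f + f₀) - 2 * G₁) + (C c * (f' + f₀) - 2 * G₂))
      (C c * (f + f') - 2 * G₃)
    have h2 := sup_add_le (C c * (f + f₀) - 2 * G₁) (C c * (f' + f₀) - 2 * G₂)
    rw [← e1, wmpart_two] at h1
    linarith [g₁.2.2.2.2, g₂.2.2.2.2, g₃.2.2.2.2, E.supNorm_nonneg]
  have dW : (v ^ 2 * -W).natDegree ≤ 2 * d + 2 * j := by
    have h1 := natDegree_C_mul_le c (f₀ * E)
    have h2 := natDegree_mul_le (p := f₀) (q := E)
    have h3 := natDegree_mul_le (p := G₁ - C c * f₀) (q := G₂ - C c * f₀)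
    have h4 := hf₀.2
    rw [e2]
    exact (natDegree_sub_le _ _).trans (max_le (by omega) (by omega))
  have sW : (v ^ 2 * -W).supNorm ≤ 7 * (n + 1) * (c * (l * H)) ^ 2 := by
    have h1 := sup_mul_le f₀ E hf₀.2.le
    have h2 := sup_mul_le (G₁ - C c * f₀) (G₂ - C c * f₀) a₁.le
    have h3 : c * (l ^ 2 * H + l * H) ≤ 2 * (c * (l * H)) := by
      have : l ^ 2 * H ≤ l * H := mul_le_mul_of_nonneg_right (by nlinarith) hH0
      nlinarith
    have h4 : f₀.supNorm * E.supNorm ≤ H * (3 * (c * (l ^ 2 * H))) :=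
      mul_le_mul hH sE E.supNorm_nonneg hH0
    have h5 : (G₁ - C c * f₀).supNorm * (G₂ - C c * f₀).supNorm ≤
        2 * (c * (l * H)) * (2 * (c * (l * H))) :=
      mul_le_mul (b₁.trans h3) (b₂.trans h3) (G₂ - C c * f₀).supNorm_nonneg (by positivity)
    rw [e2]
    refine (sup_sub_le _ _).trans ?_
    rw [wmpart_C hc]
    calc _ ≤ c * ((n + 1) * (H * (3 * (c * (l ^ 2 * H))))) +
          (n + 1) * (2 * (c * (l * H)) * (2 * (c * (l * H)))) :=
          add_le_add (mul_le_mul_of_nonneg_left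
            (h1.trans (mul_le_mul_of_nonneg_left h4 (by positivity))) hc'.le)
            (h2.trans (mul_le_mul_of_nonneg_left h5 (by positivity)))
      _ = _ := by ring
  refine ⟨-W, ?_, ?_, C c * E, by rw [e2]; ring⟩
  · by_cases h0 : -W = 0
    · rw [h0, natDegree_zero]
      omega
    · rw [natDegree_mul (pow_ne_zero 2 hv0) h0, natDegree_pow, hv.1] at dW
      omega
  · have h1 := gelfond (v ^ 2) (-W) (m := 2 * n) (by omega)
    have h2 := gelfond v v (m := 2 * n) (natDegree_mul_le.trans (by have := hv.1; omega))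
    rw [← sq v] at h2
    have h3 : T * T ≤ v.supNorm * v.supNorm := mul_le_mul hTv hTv hT.le v.supNorm_nonneg
    have h4 := (-W).supNorm_nonneg
    have h5 : T * T * (-W).supNorm ≤ K * (c * (l * H)) ^ 2 :=
      calc _ ≤ 4 ^ (2 * n) * (v ^ 2).supNorm * (-W).supNorm :=
            mul_le_mul_of_nonneg_right (h3.trans h2) h4
        _ ≤ 4 ^ (2 * n) * (4 ^ (2 * n) * (7 * (n + 1) * (c * (l * H)) ^ 2)) := by
            rw [mul_assoc]
            exact mul_le_mul_of_nonneg_left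
              (h1.trans (mul_le_mul_of_nonneg_left sW (by positivity))) (by positivity)
        _ = _ := by rw [hK]; ring
    have e3 : (K * c * (l * H / T)) ^ 2 = K * (K * (c * (l * H)) ^ 2) / (T * T) := by
      field_simp
    rw [e3, le_div_iff₀' (by positivity)]
    exact h5.trans (le_mul_of_one_le_left (by positivity) hK1)

theorem part_sep {v f f' f₀ G₁ G₂ : ℤ[X]} {c : ℤ} (hc : c ≠ 0) (hf₀ : Irr f₀) (hv : v ≠ 0)
    (hlt : v.natDegree < f₀.natDegree) (h₁ : NR v c f f₀ G₁) (h₂ : NR v c f' f₀ G₂)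
    (h : up ℚ v ∣ up ℚ ((G₁ - C c * f₀) - (G₂ - C c * f₀))) : up ℚ v ∣ up ℚ (f - f') := by
  have h1 : v ∣ G₁ ^ 2 - C (c ^ 2) * f * f₀ - (G₂ ^ 2 - C (c ^ 2) * f' * f₀) :=
    (dvd_pow_self v two_ne_zero).trans (dvd_sub h₁.1 h₂.1)
  have h2 := dvd_sub (h.mul_right (up ℚ (G₁ + G₂))) (map_dvd (mapRingHom (Int.castRingHom ℚ)) h1)
  have e : up ℚ ((G₁ - C c * f₀) - (G₂ - C c * f₀)) * up ℚ (G₁ + G₂) -
      mapRingHom (Int.castRingHom ℚ) (G₁ ^ 2 - C (c ^ 2) * f * f₀ - (G₂ ^ 2 - C (c ^ 2) * f' * f₀)) =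
      C ((c : ℚ) ^ 2) * (up ℚ (f - f') * up ℚ f₀) := by
    have e1 : up ℚ (C (c ^ 2)) = C ((c : ℚ) ^ 2) := by
      rw [up, map_C]
      simp
    rw [← e1, coe_mapRingHom, ← Polynomial.map_mul, ← Polynomial.map_sub, ← Polynomial.map_mul,
      ← Polynomial.map_mul]
    exact congrArg _ (by ring)
  have hi : Function.Injective (Int.castRingHom ℚ) := (Int.castRingHom ℚ).injective_int
  have h3 : IsCoprime (up ℚ f₀) (up ℚ v) := (Irreducible.coprime_iff_not_dvd hf₀).2 fun hd => by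
    have := natDegree_le_of_dvd hd ((Polynomial.map_ne_zero_iff hi).2 hv)
    rw [natDegree_map_eq_of_injective hi, natDegree_map_eq_of_injective hi] at this
    omega
  rw [e, (isUnit_C.2 (Ne.isUnit (pow_ne_zero 2 (Int.cast_ne_zero.2 hc)))).dvd_mul_left] at h2
  exact h3.symm.dvd_of_dvd_mul_right h2

end Pool.Agent.VW
end

-- part Pool.Agent.P.MP_b0ea37_nt.WMrel
section

namespace Pool.Agent.VW

open Polynomial

theorem wmrel_one {p : ℕ} (hp : p.Prime) : ¬ (p : ℤ) ∣ 1 :=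
  (Nat.prime_iff_prime_int.1 hp).not_dvd_one

theorem wmrel_mul {p : ℕ} (hp : p.Prime) {N N' : ℤ} (h : ¬ (p : ℤ) ∣ N) (h' : ¬ (p : ℤ) ∣ N') :
    ¬ (p : ℤ) ∣ N * N' := fun hd => ((Nat.prime_iff_prime_int.1 hp).dvd_or_dvd hd).elim h h'

theorem wmrel_half {p : ℕ} (hp : p.Prime) {V u u' u'' : ℤ[X]}
    (h : ∃ (N : ℤ) (w : ℤ[X]), ¬ (p : ℤ) ∣ N ∧ V ∣ C N * u' - w * u)
    (h' : ∃ (N : ℤ) (w : ℤ[X]), ¬ (p : ℤ) ∣ N ∧ V ∣ C N * u'' - w * u') :
    ∃ (N : ℤ) (w : ℤ[X]), ¬ (p : ℤ) ∣ N ∧ V ∣ C N * u'' - w * u := by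
  obtain ⟨N, w, hN, a, ha⟩ := h
  obtain ⟨N', w', hN', a', ha'⟩ := h'
  refine ⟨N * N', w * w', wmrel_mul hp hN hN', C N * a' + w' * a, ?_⟩
  rw [C_mul]
  linear_combination C N * ha' + w' * ha

theorem wmrel_unit {p : ℕ} {V u : ℤ[X]} (hV : V.natDegree ≠ 0) (h : ¬ (p : ℤ) ∣ resultant V u)
    (u' : ℤ[X]) : ∃ (N : ℤ) (w : ℤ[X]), ¬ (p : ℤ) ∣ N ∧ V ∣ C N * u' - w * u := by
  obtain ⟨a, b, -, -, hab⟩ := exists_mul_add_mul_eq_C_resultant V u le_rfl le_rfl (Or.inl hV)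
  exact ⟨resultant V u, b * u', h, a * u', by rw [← hab]; ring⟩

theorem InR.congr {d p : ℕ} {v : ℤ[X]} {φ ψ : ℂ → ℂ} (h : InR d p v φ)
    (e : ∀ z : ℂ, aeval z v = 0 → φ z = ψ z) : InR d p v ψ := by
  obtain ⟨N, g, hN, h⟩ := h
  exact ⟨N, g, hN, fun z hz => by rw [← e z hz]; exact h z hz⟩

theorem InR.one {d p : ℕ} {v : ℤ[X]} (hp : p.Prime) : InR d p v fun _ => 1 :=
  ⟨1, 1, wmrel_one hp, fun z _ => by simp⟩

theorem InR.mul {d p : ℕ} {v : ℤ[X]} (hp : p.Prime) {φ ψ : ℂ → ℂ} (h : InR d p v φ)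
    (h' : InR d p v ψ) : InR d p v fun z => φ z * ψ z := by
  obtain ⟨N, g, hN, h⟩ := h
  obtain ⟨N', g', hN', h'⟩ := h'
  refine ⟨N * N', g * g', wmrel_mul hp hN hN', fun z hz => ?_⟩
  rw [map_mul, ← h z hz, ← h' z hz]
  push_cast
  ring

theorem Pre.refl {n d : ℕ} {D : Dat} (h : Ok n d D) : Pre d D D := by
  have key : ∀ p : ℕ, p.Prime → InR d p D.v
      (fun z => aeval z D.f * pz d p D z ^ 2 / (aeval z D.f * pz d p D z ^ 2)) := fun p hp =>
    (InR.one hp).congr fun z hz => (div_self (mul_ne_zero (h.2.2.2.2.2.2.2.2 z hz)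
      (pow_ne_zero _ (pz_ne_zero h hz)))).symm
  exact ⟨rfl, fun p hp => ⟨key p hp, key p hp⟩⟩

theorem Pre.symm {d : ℕ} {D D' : Dat} (h : Pre d D D') : Pre d D' D :=
  ⟨h.1.symm, fun p hp => h.1 ▸ (h.2 p hp).symm⟩

theorem Pre.trans {n d : ℕ} {D D' D'' : Dat} (h' : Ok n d D') (h₁ : Pre d D D')
    (h₂ : Pre d D' D'') : Pre d D D'' := by
  refine ⟨h₁.1.trans h₂.1, fun p hp => ?_⟩
  have h3 := h₂.2 p hp
  rw [← h₁.1] at h3
  refine ⟨((h₁.2 p hp).1.mul hp h3.1).congr fun z hz => ?_,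
    ((h₁.2 p hp).2.mul hp h3.2).congr fun z hz => ?_⟩
  all_goals
    rw [h₁.1] at hz
    have a1 := h'.2.2.2.2.2.2.2.2 z hz
    have a2 := pz_ne_zero (p := p) h' hz
    field_simp

theorem Sq.refl {n d : ℕ} {D : Dat} (h : Ok n d D) : Sq d D D fun _ => 1 :=
  ⟨rfl, fun z _ => by simp, fun p hp =>
    ⟨(InR.one hp).congr fun z hz => by rw [one_mul, div_self (pz_ne_zero h hz)],
      (InR.one hp).congr fun z hz => by rw [one_mul, div_self (pz_ne_zero h hz)]⟩⟩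

theorem Sq.symm {n d : ℕ} {D D' : Dat} {κ : ℂ → ℂ} (h : Ok n d D) (h' : Ok n d D')
    (h₁ : Sq d D D' κ) : Sq d D' D fun z => (κ z)⁻¹ := by
  refine ⟨h₁.1.symm, fun z hz => ?_, fun p hp => ?_⟩
  · have a1 := h'.2.2.2.2.2.2.2.2 z hz
    rw [h₁.2.1 z (h₁.1 ▸ hz)] at a1 ⊢
    have a2 : κ z ≠ 0 := fun h0 => a1 (by simp [h0])
    field_simp
  · rw [← h₁.1]
    exact ⟨(h₁.2.2 p hp).2.congr fun z _ => by field_simp,
      (h₁.2.2 p hp).1.congr fun z _ => by field_simp⟩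

theorem Sq.trans {n d : ℕ} {D D' D'' : Dat} {κ κ' : ℂ → ℂ} (h' : Ok n d D') (h₁ : Sq d D D' κ)
    (h₂ : Sq d D' D'' κ') : Sq d D D'' fun z => κ z * κ' z := by
  refine ⟨h₁.1.trans h₂.1, fun z hz => ?_, fun p hp => ?_⟩
  · rw [h₂.2.1 z (h₁.1 ▸ hz), h₁.2.1 z hz]
    ring
  have h3 := h₂.2.2 p hp
  rw [← h₁.1] at h3
  refine ⟨((h₁.2.2 p hp).1.mul hp h3.1).congr fun z hz => ?_,
    ((h₁.2.2 p hp).2.mul hp h3.2).congr fun z hz => ?_⟩
  all_goals
    rw [h₁.1] at hz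
    have a2 := pz_ne_zero (p := p) h' hz
    field_simp

theorem Asc.refl {p : ℕ} (hp : p.Prime) (V u : ℤ[X]) : Asc p V u u :=
  ⟨⟨1, 1, wmrel_one hp, by simp⟩, ⟨1, 1, wmrel_one hp, by simp⟩⟩

theorem Asc.symm {p : ℕ} {V u u' : ℤ[X]} (h : Asc p V u u') : Asc p V u' u :=
  ⟨h.2, h.1⟩

theorem Asc.trans {p : ℕ} (hp : p.Prime) {V u u' u'' : ℤ[X]} (h : Asc p V u u')
    (h' : Asc p V u' u'') : Asc p V u u'' :=
  ⟨wmrel_half hp h.1 h'.1, wmrel_half hp h'.2 h.2⟩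

theorem Asc.of_unit {p : ℕ} {V u u' : ℤ[X]} (hV : V.natDegree ≠ 0)
    (h : ¬ (p : ℤ) ∣ resultant V u) (h' : ¬ (p : ℤ) ∣ resultant V u') : Asc p V u u' :=
  ⟨wmrel_unit hV h u', wmrel_unit hV h' u⟩

/-- the prime and the residue are determined by the local ideal -/
theorem eq_of_inR {n d : ℕ} {D D' : Dat} (h : Ok n d D) (h' : Ok n d D') (e : D.v = D'.v)
    (hR : InR d D.P D.v fun z => pz d D.P D' z / pz d D.P D z) :
    D.P = D'.P ∧ (D.P : ℤ) ∣ D.r - D'.r := by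
  obtain ⟨N, g, hN, hg⟩ := hR
  have hp : D.P.Prime := h.2.2.2.1
  have : Fact D.P.Prime := ⟨hp⟩
  have hV : Vp d D.P D.v ∣ C N * piP d D.P D' - g * piP d D.P D := by
    refine Vp_dvd h.1 hp fun z hz => ?_
    have a1 := hg z hz
    have a2 := pz_ne_zero (p := D.P) h hz
    beta_reduce at a1
    rw [← mul_div_assoc, div_eq_iff a2, pz, pz, ← e] at a1
    rw [map_sub, map_mul, map_mul, aeval_C, ← a1]
    simp
  have hc : (cc d D.P D.v : ZMod D.P) ≠ 0 := fun h0 =>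
    not_dvd_cc h.1 hp h.2.2.2.2.1 ((ZMod.intCast_zmod_eq_zero_iff_dvd _ _).1 h0)
  have hev : ∀ x : ℤ, aeval (x : ZMod D.P) D.v = ((D.v.eval x : ℤ) : ZMod D.P) := fun x =>
    aeval_algebraMap_apply_eq_algebraMap_eval x D.v
  have hr : aeval (D.r : ZMod D.P) D.v = 0 := by
    rw [hev]; exact (ZMod.intCast_zmod_eq_zero_iff_dvd _ _).2 h.2.2.2.2.2.1
  have hrt : (D.r : ZMod D.P) - (tt d D.P D.v : ℤ) ≠ 0 := fun h0 =>
    hc (by rw [cc, ← hev, ← sub_eq_zero.1 h0, hr])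
  set y : ZMod D.P := (cc d D.P D.v : ZMod D.P) / ((D.r : ZMod D.P) - (tt d D.P D.v : ℤ)) with hy
  have hxy : ((D.r : ZMod D.P) - (tt d D.P D.v : ℤ)) * y = (cc d D.P D.v : ℤ) := by
    rw [hy, mul_div_cancel₀ _ hrt]
  have hy0 : y ≠ 0 := div_ne_zero hc hrt
  have h1 : aeval y (Vp d D.P D.v) = 0 := by
    have a1 := aeval_Tw h.1.1.le hxy
    rw [hr, mul_zero, cc, ← C_mul_VV, map_mul, aeval_C] at a1
    exact (mul_eq_zero.1 a1).resolve_left hc
  have h2 : aeval y (piP d D.P D) = 0 := by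
    rw [piP, if_pos rfl]
    simp only [map_add, map_mul, aeval_X, eq_intCast, map_intCast, Int.cast_sub, map_sub]
    linear_combination -hxy
  have h3 : aeval y (piP d D.P D') = 0 := by
    obtain ⟨w, hw⟩ := hV
    have a1 := congrArg (aeval y) hw
    rw [map_sub, map_mul, map_mul, map_mul, h1, h2, aeval_C, mul_zero, zero_mul, sub_zero] at a1
    exact (mul_eq_zero.1 a1).resolve_left fun h0 =>
      hN ((ZMod.intCast_zmod_eq_zero_iff_dvd _ _).1 h0)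
  by_cases hP : D.P = D'.P
  · refine ⟨hP, (ZMod.intCast_zmod_eq_zero_iff_dvd _ _).1 ?_⟩
    rw [piP, if_pos hP, ← e] at h3
    simp only [map_add, map_mul, aeval_X, eq_intCast, map_intCast, Int.cast_sub, map_sub] at h3
    rw [Int.cast_sub]
    exact (mul_eq_zero.1 (show (_ - _) * y = 0 by linear_combination h3 + hxy)).resolve_right hy0
  · rw [piP, if_neg hP, map_one] at h3
    exact absurd h3 one_ne_zero

end Pool.Agent.VW
end

-- part Pool.Agent.P.MP_b0ea37_nt.WMnoc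
section

namespace Pool.Agent.VW

open Polynomial

lemma WMnoc_wk {P : ℕ} {r r' : ℤ} {g : ℤ[X]} (h : Wk P r' g) (e : (P : ℤ) ∣ r - r') : Wk P r g := by
  obtain ⟨h1, h2⟩ := h
  obtain ⟨k, hk⟩ := g.binomExpansion r' (r - r')
  rw [add_sub_cancel] at hk
  refine ⟨?_, ?_⟩
  · rw [hk]
    refine dvd_add (dvd_add h1 ?_) (Dvd.dvd.mul_left (pow_dvd_pow_of_dvd e 2) _)
    rw [sq]; exact mul_dvd_mul h2 e
  · have := (e.trans (sub_dvd_eval_sub r r' (derivative g))).add h2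
    rwa [sub_add_cancel] at this

/-- two members of a class are incongruent modulo `v` -/
theorem noc {n d j : ℕ} (hn : n = d + 1 + j) (hn2 : 2 ≤ n) {D D' : Dat} (h : Ok n d D)
    (h' : Ok n d D') (hs : Sq1 d D D') (hf : Irr D.f) (hdvd : up ℚ D.v ∣ up ℚ (D.f - D'.f)) :
    D.f = D'.f ∨ (D.P : ℝ) ^ 2 ≤ (j + n).factorial *
      (4 ^ n * (D.f - D'.f).supNorm / D.v.supNorm) ^ n * D.f.supNorm ^ j := by
  obtain ⟨κ, ⟨ev, hκ, hR⟩, hc⟩ := hs
  have H := h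
  have H' := h'
  obtain ⟨⟨hvd, hvp, hvl, -⟩, hm, hdeg, hP, -, hv1, hv2, hw, hz⟩ := H
  obtain ⟨-, hm', hdeg', -, -, -, -, hw', -⟩ := H'
  obtain ⟨g, hg⟩ := dvd_of_up_dvd hvp hdvd
  have hk1 : ∀ z : ℂ, aeval z D.v = 0 → κ z = 1 := fun z hz0 => by
    have e : aeval z (D.f - D'.f) = 0 := by rw [hg, map_mul, hz0, zero_mul]
    rw [map_sub, hκ z hz0] at e
    have e2 : (κ z - 1) * (κ z + 1) = 0 :=
      mul_right_cancel₀ (hz z hz0) (by linear_combination -e)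
    rcases mul_eq_zero.1 e2 with e3 | e3
    · exact sub_eq_zero.1 e3
    · have h3 := hc z hz0
      rw [eq_neg_of_add_eq_zero_left e3] at h3
      norm_num at h3
  obtain ⟨eP, er⟩ := eq_of_inR h h' ev ((hR D.P hP).2.congr fun z hz0 => by
    simp only [hk1 z hz0, one_mul])
  rw [← eP] at hw'
  have hw2 := WMnoc_wk hw' er
  by_cases hg0 : g = 0
  · left; rw [hg0, mul_zero] at hg; exact sub_eq_zero.1 hg
  right
  have hv0 : D.v ≠ 0 := fun e => by rw [e] at hvl; simp at hvl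
  have hPi : Prime (D.P : ℤ) := Nat.prime_iff_prime_int.1 hP
  have hPg : (D.P : ℤ) ∣ g.eval D.r := by
    have e : (D.P : ℤ) ^ 2 ∣ D.v.eval D.r * g.eval D.r := by
      rw [← eval_mul, ← hg, eval_sub]; exact dvd_sub hw.1 hw2.1
    obtain ⟨a, ha⟩ := hv1
    rw [ha, sq] at e hv2
    rw [mul_assoc] at e
    rcases hPi.dvd_or_dvd ((mul_dvd_mul_iff_left hPi.ne_zero).1 e) with e | e
    · exact absurd (mul_dvd_mul_left _ e) hv2
    · exact e
  have hlt : (D.v * g).natDegree < n := by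
    rw [← hg, ← hdeg]
    refine natDegree_lt_natDegree (by rw [hg]; exact mul_ne_zero hv0 hg0) ?_
    refine degree_sub_lt_left ?_ hm.ne_zero (by rw [hm.leadingCoeff, hm'.leadingCoeff])
    rw [degree_eq_natDegree hm.ne_zero, degree_eq_natDegree hm'.ne_zero, hdeg, hdeg']
  have hgj : g.natDegree ≤ j := by
    rw [natDegree_mul hv0 hg0, hvd] at hlt; omega
  have hres := res_one_two hP.one_le hgj hdeg.le (by omega) hPg hw
  have hne : resultant g D.f j n ≠ 0 := by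
    obtain ⟨k, hk⟩ := Nat.exists_eq_add_of_le hgj
    have hc1 : D.f.coeff n = 1 := by rw [← hdeg]; exact hm.coeff_natDegree
    rw [hk, resultant_add_left_deg _ _ _ _ _ le_rfl, hc1, ← hdeg]
    exact mul_ne_zero (by simp) (hf.resultant_ne_zero hg0 (by omega))
  have h1 : (D.P : ℝ) ^ 2 ≤ ‖resultant g D.f j n‖ := by
    rw [Int.norm_eq_abs]
    exact_mod_cast Int.le_of_dvd (abs_pos.2 hne) ((dvd_abs _ _).2 hres)
  have hvs : 0 < D.v.supNorm := lt_of_lt_of_le one_pos (one_le_sup hv0)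
  have h2 : g.supNorm ≤ 4 ^ n * (D.f - D'.f).supNorm / D.v.supNorm := by
    rw [le_div_iff₀ hvs, mul_comm, hg]; exact gelfond _ _ hlt.le
  refine h1.trans ((norm_resultant_le _ _ _ _).trans ?_)
  have := g.supNorm_nonneg
  have := D.f.supNorm_nonneg
  gcongr

lemma WMnoc_near {k : ℂ} (h : ‖k ^ 2 - 1‖ ≤ 1 / 100) :
    (0 < k.re → ‖k - 1‖ ≤ 1 / 100) ∧ (¬ 0 < k.re → ‖k + 1‖ ≤ 1 / 100) := by
  have e : ‖k - 1‖ * ‖k + 1‖ ≤ 1 / 100 := by
    rw [← norm_mul, show (k - 1) * (k + 1) = k ^ 2 - 1 by ring]; exact h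
  constructor
  · intro hk
    have h1 : 1 ≤ ‖k + 1‖ := le_trans (by simp; linarith) (Complex.re_le_norm (k + 1))
    nlinarith [norm_nonneg (k - 1)]
  · intro hk
    have h1 : 1 ≤ ‖k - 1‖ := by
      rw [norm_sub_rev]
      exact le_trans (by simp; linarith) (Complex.re_le_norm (1 - k))
    nlinarith [norm_nonneg (k + 1)]

lemma WMnoc_quot {a b s : ℂ} (hs : ‖s‖ = 1) (ha : ‖a - s‖ ≤ 1 / 100) (hb : ‖b - s‖ ≤ 1 / 100) :
    ‖a⁻¹ * b - 1‖ ≤ 1 / 10 := by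
  have h1 : 99 / 100 ≤ ‖a‖ := by
    have := norm_sub_norm_le s a
    rw [norm_sub_rev] at this; linarith
  have h0 : a ≠ 0 := norm_pos_iff.1 (by linarith)
  have h2 : ‖b - a‖ ≤ 2 / 100 := by
    have := norm_sub_le (b - s) (a - s)
    rw [sub_sub_sub_cancel_right] at this; linarith
  rw [show a⁻¹ * b - 1 = (b - a) / a by field_simp, norm_div, div_le_iff₀ (by linarith)]
  linarith

/-- splitting a square class by the signs at the complex roots -/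
theorem sign_split {n d : ℕ} {Q : Dat → Prop} {D₀ : Dat} {M : ℝ} (hM : 0 ≤ M) (h₀ : Ok n d D₀)
    (hQ : ∀ D, Q D → Ok n d D ∧ (∃ κ, Sq d D₀ D κ) ∧ Cl D₀.v D₀.f D.f)
    (h : ∀ Q' : Dat → Prop, (∀ D, Q' D → Q D) → (∀ D D', Q' D → Q' D' → Sq1 d D D') → Cnt Q' M) :
    Cnt Q (2 ^ d * M) := by
  obtain ⟨η, hη⟩ := exists_lst h₀.1.1
  have hv0 : D₀.v ≠ 0 := fun e => by
    have := h₀.1.2.2.1
    rw [e] at this; simp at this
  have near : ∀ D κ, Q D → Sq d D₀ D κ → ∀ z : ℂ, aeval z D₀.v = 0 → ‖κ z ^ 2 - 1‖ ≤ 1 / 100 := by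
    intro D κ hD hκ z hz
    obtain ⟨h1, h2⟩ := (hQ D hD).2.2 z hz
    rw [hκ.2.1 z hz, ← sub_one_mul, norm_mul] at h2
    exact le_of_mul_le_mul_right (by linarith) (norm_pos_iff.2 h1)
  have hc := Cnt.fibre (Cnt.fintype fun _ : Fin d → Bool => True) hM
    (P := fun s D => Q D ∧ ∃ κ, Sq d D₀ D κ ∧ ∀ k, s k = true ↔ 0 < (κ (η k)).re) fun s _ => by
      refine h _ (fun D hD => hD.1) ?_
      rintro D D' ⟨hD, κ, hκ, hs⟩ ⟨hD', κ', hκ', hs'⟩
      refine ⟨_, (hκ.symm h₀ (hQ D hD).1).trans h₀ hκ', fun z hz => ?_⟩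
      rw [← hκ.1] at hz
      obtain ⟨k, rfl⟩ := (hη.root_iff hv0 z).1 hz
      have a := WMnoc_near (near D κ hD hκ _ hz)
      have b := WMnoc_near (near D' κ' hD' hκ' _ hz)
      by_cases hk : s k = true
      · exact WMnoc_quot norm_one (a.1 ((hs k).1 hk)) (b.1 ((hs' k).1 hk))
      · refine WMnoc_quot (s := -1) (by simp) ?_ ?_ <;> rw [sub_neg_eq_add]
        · exact a.2 fun e => hk ((hs k).2 e)
        · exact b.2 fun e => hk ((hs' k).2 e)
  refine hc.mono (fun D hD => ?_) (by simp)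
  obtain ⟨κ, hκ⟩ := (hQ D hD).2.1
  exact ⟨fun k => decide (0 < (κ (η k)).re), trivial, hD, κ, hκ, fun k => by simp⟩

end Pool.Agent.VW
end

-- part Pool.Agent.P.MP_b0ea37_nt.WMuA
section

namespace Pool.Agent.VW

open Polynomial

theorem WMuA_up_inj {g h : ℤ[X]} (e : up ℚ g = up ℚ h) : g = h :=
  map_injective _ (Int.castRingHom ℚ).injective_int e

theorem WMuA_deg (g : ℤ[X]) : (up ℚ g).natDegree = g.natDegree :=
  natDegree_map_eq_of_injective (Int.castRingHom ℚ).injective_int g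

theorem WMuA_ne {g : ℤ[X]} (h : g ≠ 0) : up ℚ g ≠ 0 := fun e =>
  h (WMuA_up_inj (by simpa using e))

/-- a primitive integer polynomial proportional to a rational one -/
theorem WMuA_prim (q : ℚ[X]) (hq : q ≠ 0) :
    ∃ (p : ℤ[X]) (t : ℚ), p.IsPrimitive ∧ t ≠ 0 ∧ up ℚ p = C t * q := by
  obtain ⟨b, hb, e⟩ := IsLocalization.integerNormalization_spec (nonZeroDivisors ℤ) q
  set N := IsLocalization.integerNormalization (nonZeroDivisors ℤ) q
  have hb0 : (b : ℚ) ≠ 0 := by exact_mod_cast nonZeroDivisors.ne_zero hb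
  have e1 : up ℚ N = C (b : ℚ) * q := by
    rw [← smul_eq_C_mul, Int.cast_smul_eq_zsmul]
    exact e
  have hN : N ≠ 0 := by
    intro h0
    rw [h0] at e1
    exact mul_ne_zero (C_ne_zero.2 hb0) hq (by simpa using e1.symm)
  have hc : (N.content : ℚ) ≠ 0 := by exact_mod_cast fun h => hN (content_eq_zero_iff.1 h)
  refine ⟨N.primPart, (N.content : ℚ)⁻¹ * b, N.isPrimitive_primPart,
    mul_ne_zero (inv_ne_zero hc) hb0, ?_⟩
  have e2 : up ℚ N = C (N.content : ℚ) * up ℚ N.primPart := by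
    conv_lhs => rw [N.eq_C_content_mul_primPart]
    simp
  rw [C_mul, mul_assoc, ← e1, e2, ← mul_assoc, ← C_mul, inv_mul_cancel₀ hc, C_1, one_mul]

theorem WMuA_dvd {p g : ℤ[X]} (hp : p.IsPrimitive) (h : up ℚ p ∣ up ℚ g) : p ∣ g :=
  (IsPrimitive.Int.dvd_iff_map_cast_dvd_map_cast p g hp).2 h

/-- the squarefree part over the rationals inside the integer polynomials -/
theorem mu_sqfree (w : ℤ[X]) (hw : w ≠ 0) :
    ∃ c h : ℤ[X], w = c * h ^ 2 ∧ Squarefree (up ℚ c) := by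
  induction hd : w.natDegree using Nat.strong_induction_on generalizing w with
  | _ m ih =>
    by_cases hs : Squarefree (up ℚ w)
    · exact ⟨w, 1, by simp, hs⟩
    · simp only [Squarefree, not_forall] at hs
      obtain ⟨q, hq, hu⟩ := hs
      have hq0 : q ≠ 0 := by
        rintro rfl
        exact WMuA_ne hw (by simpa using hq)
      obtain ⟨p, t, hp, ht, e⟩ := WMuA_prim q hq0
      have h1 : up ℚ (p * p) ∣ up ℚ w := by
        obtain ⟨r, hr⟩ := hq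
        refine ⟨C (t⁻¹ * t⁻¹) * r, ?_⟩
        have : C t * C t * C (t⁻¹ * t⁻¹) = 1 := by
          rw [← C_mul, ← C_mul, ← C_1]
          congr 1
          field_simp
        rw [hr, up, Polynomial.map_mul]
        change _ = up ℚ p * up ℚ p * _
        rw [e]
        linear_combination (-(q * q * r)) * this
      obtain ⟨w', hw'⟩ := WMuA_dvd (hp.mul hp) h1
      have hw0 : w' ≠ 0 := by
        rintro rfl
        exact hw (by simpa using hw')
      have hp0 : p ≠ 0 := hp.ne_zero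
      have hpd : 0 < p.natDegree := by
        rw [← WMuA_deg, e, natDegree_C_mul ht]
        by_contra h0
        exact hu (isUnit_iff_degree_eq_zero.2 (by
          rw [degree_eq_natDegree hq0, Nat.eq_zero_of_not_pos h0]; rfl))
      have hlt : w'.natDegree < m := by
        rw [← hd, hw', natDegree_mul (mul_ne_zero hp0 hp0) hw0, natDegree_mul hp0 hp0]
        omega
      obtain ⟨c, h, e1, hc⟩ := ih _ hlt w' hw0 rfl
      exact ⟨c, p * h, by rw [hw', e1]; ring, hc⟩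

/-- a vanishing Gram determinant -/
theorem mu_line {c h₁ w₁ w₂ : ℚ[X]} (hc : Squarefree c) (h0 : h₁ ≠ 0)
    (e : c * h₁ ^ 2 * w₂ = w₁ ^ 2) : ∃ h : ℚ[X], w₁ = c * h₁ * h ∧ w₂ = c * h ^ 2 := by
  have h1 : h₁ ∣ w₁ := (UniqueFactorizationMonoid.pow_dvd_pow_iff_dvd two_ne_zero).1
    ⟨c * w₂, by rw [← e]; ring⟩
  obtain ⟨a, rfl⟩ := h1
  have e1 : c * w₂ = a ^ 2 := mul_left_cancel₀ (pow_ne_zero 2 h0) (by linear_combination e)
  obtain ⟨h, rfl⟩ := (hc.dvd_pow_iff_dvd two_ne_zero).1 ⟨w₂, e1.symm⟩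
  exact ⟨h, by ring, mul_left_cancel₀ hc.ne_zero (by linear_combination e1)⟩

/-- `z` is a root of the monic irreducible polynomial `F` of degree `n` -/
structure MuRoot (n : ℕ) (F : ℚ[X]) (z : ℂ) : Prop where
  monic : F.Monic
  deg : F.natDegree = n
  irr : Irreducible F
  root : aeval z F = 0

namespace MuRoot
variable {n : ℕ} {F : ℚ[X]} {z : ℂ}

theorem dvd_iff (h : MuRoot n F z) (q : ℚ[X]) : F ∣ q ↔ aeval z q = 0 := by
  constructor
  · rintro ⟨r, rfl⟩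
    simp [h.root]
  · intro hq
    rw [minpoly.eq_of_irreducible_of_monic h.irr h.root h.monic]
    exact minpoly.dvd ℚ z hq

theorem eq_zero (h : MuRoot n F z) {q : ℚ[X]} (hd : q.natDegree < n) (hq : aeval z q = 0) :
    q = 0 := eq_zero_of_dvd_of_natDegree_lt ((h.dvd_iff q).2 hq) (h.deg ▸ hd)

theorem eq_of (h : MuRoot n F z) {q r : ℚ[X]} (hq : q.natDegree < n) (hr : r.natDegree < n)
    (e : aeval z q = aeval z r) : q = r :=
  sub_eq_zero.1 (h.eq_zero ((natDegree_sub_le q r).trans_lt (max_lt hq hr)) (by simp [e]))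

theorem pos (h : MuRoot n F z) : 0 < n := h.deg ▸ h.irr.natDegree_pos

theorem red (h : MuRoot n F z) (q : ℚ[X]) : ∃ r : ℚ[X], r.natDegree < n ∧ aeval z r = aeval z q := by
  refine ⟨q %ₘ F, ?_, ?_⟩
  · rw [← h.deg]
    exact natDegree_modByMonic_lt q h.monic h.irr.ne_one
  · conv_rhs => rw [← modByMonic_add_div q F]
    simp [h.root]

/-- division in the field generated by the root -/
theorem div (h : MuRoot n F z) (q y : ℚ[X]) (hy : aeval z y ≠ 0) :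
    ∃ r : ℚ[X], r.natDegree < n ∧ aeval z r * aeval z y = aeval z q := by
  obtain ⟨a, b, e⟩ := (h.irr.coprime_iff_not_dvd).2 fun hd => hy ((h.dvd_iff y).1 hd)
  obtain ⟨r, hr, e1⟩ := h.red (q * b)
  refine ⟨r, hr, ?_⟩
  have e2 := congrArg (aeval z) e
  simp only [map_add, map_mul, h.root, mul_zero, zero_add, map_one] at e2
  rw [e1, map_mul, mul_assoc, e2, mul_one]

end MuRoot

theorem mu_root {n : ℕ} {f : ℤ[X]} (hm : f.Monic) (hn : f.natDegree = n) (hf : Irr f) :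
    ∃ z : ℂ, MuRoot n (up ℚ f) z := by
  obtain ⟨z, hz⟩ := IsAlgClosed.exists_aeval_eq_zero ℂ (up ℚ f)
    (degree_pos_of_irreducible hf).ne'
  exact ⟨z, hm.map _, (WMuA_deg f).trans hn, hf, hz⟩

/-- an element with rational square is rational -/
theorem mu_prim_sq {n : ℕ} {f : ℤ[X]} (hm : f.Monic) (hn : f.natDegree = n) (h3 : 3 ≤ n)
    (hf : Irr f) (hp : Prim f) {q : ℚ[X]} (hq : q.natDegree < n) {t : ℚ}
    (h : up ℚ f ∣ q ^ 2 - C t) : q.natDegree = 0 := by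
  by_contra h0
  obtain ⟨θ, hθ⟩ := exists_roots (up ℂ f) (hm.map _)
    ((natDegree_map_eq_of_injective (Int.castRingHom ℂ).injective_int f).trans hn)
  have hinj := hθ.injective hf
  have hr : ∀ i, aeval (θ i) f = 0 := fun i => by
    have := (hθ.eval_eq_zero_iff (θ i)).2 ⟨i, rfl⟩
    rwa [up, eval_map, ← algebraMap_int_eq, ← aeval_def] at this
  have hs : ∀ i, aeval (θ i) q ^ 2 = (t : ℂ) := fun i => by
    obtain ⟨r, e⟩ := h
    have e1 := congrArg (aeval (θ i)) e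
    have e2 : aeval (θ i) (up ℚ f) = 0 := by
      rw [up, ← algebraMap_int_eq, aeval_map_algebraMap]
      exact hr i
    simp only [map_sub, map_pow, map_mul, e2, zero_mul, aeval_C, eq_ratCast] at e1
    exact sub_eq_zero.1 e1
  have hne : ∀ i l, i ≠ l → aeval (θ i) q = - aeval (θ l) q := fun i l hil => by
    rcases sq_eq_sq_iff_eq_or_eq_neg.1 ((hs i).trans (hs l).symm) with e | e
    · exact absurd (hinj (hp q (Nat.pos_of_ne_zero h0) (hn ▸ hq) _ _ (hr i) (hr l) e)) hil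
    · exact e
  have e1 := hne ⟨1, by omega⟩ ⟨0, by omega⟩ (by simp)
  have e2 := hne ⟨2, by omega⟩ ⟨0, by omega⟩ (by simp)
  have := hinj (hp q (Nat.pos_of_ne_zero h0) (hn ▸ hq) _ _ (hr _) (hr _) (e1.trans e2.symm))
  simp at this

end Pool.Agent.VW
end

-- part Pool.Agent.P.MP_b0ea37_nt.WMuB
section

namespace Pool.Agent.VW

open Polynomial

theorem WMuB_li_le {ρ m : ℕ} (u : Fin ρ → ℚ[X]) (hu : LinearIndependent ℚ u)
    (hd : ∀ i, (u i).natDegree < m) : ρ ≤ m := by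
  have h1 : ∀ i, u i ∈ degreeLT ℚ m := fun i =>
    mem_degreeLT.2 (degree_le_natDegree.trans_lt (by exact_mod_cast hd i))
  have h2 : LinearIndependent ℚ fun i => (⟨u i, h1 i⟩ : degreeLT ℚ m) :=
    LinearIndependent.of_comp (degreeLT ℚ m).subtype hu
  have : Module.Finite ℚ (degreeLT ℚ m) := Module.Finite.of_basis (degreeLT.basis ℚ m)
  have h3 := h2.fintype_card_le_finrank
  rwa [Module.finrank_eq_card_basis (degreeLT.basis ℚ m), Fintype.card_fin, Fintype.card_fin] at h3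

theorem WMuB_deg_sum {ρ m : ℕ} (c : Fin ρ → ℚ) (u : Fin ρ → ℚ[X]) (hd : ∀ i, (u i).natDegree ≤ m) :
    (∑ i, c i • u i).natDegree ≤ m :=
  natDegree_sum_le_of_forall_le _ _ fun i _ => (natDegree_smul_le _ _).trans (hd i)

theorem WMuB_sup_sum {ρ : ℕ} (c : Fin ρ → ℚ) (u : Fin ρ → ℚ[X]) {N B : ℝ}
    (hc : ∀ i, |(c i : ℝ)| ≤ N) (hu : ∀ i, (u i).supNorm ≤ B) :
    (∑ i, c i • u i).supNorm ≤ ρ * (N * B) := by
  refine (sup_sum_le _ _).trans ?_
  have : ∀ i ∈ Finset.univ, (c i • u i).supNorm ≤ N * B := fun i _ => by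
    rw [smul_eq_C_mul]
    refine (sup_C_mul_le _ _).trans ?_
    rw [← Rat.norm_cast_real, Real.norm_eq_abs]
    exact mul_le_mul (hc i) (hu i) (supNorm_nonneg _) ((abs_nonneg _).trans (hc i))
  simpa using Finset.sum_le_card_nsmul _ _ _ this

/-- the form attached to two coordinate vectors -/
theorem WMuB_form {ρ : ℕ} {z V : ℂ} (u : Fin ρ → ℚ[X]) (W : Fin ρ → Fin ρ → ℚ[X])
    (h : ∀ i l, V ^ 2 * aeval z (W i l) + aeval z (u i) * aeval z (u l) = 0) (c c' : Fin ρ → ℚ) :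
    V ^ 2 * aeval z (∑ i, c i • ∑ l, c' l • W i l) +
      aeval z (∑ i, c i • u i) * aeval z (∑ l, c' l • u l) = 0 := by
  simp only [map_sum, map_smul, Finset.smul_sum]
  rw [Finset.sum_mul_sum]
  simp only [Finset.mul_sum, ← Finset.sum_add_distrib]
  refine Finset.sum_eq_zero fun i _ => Finset.sum_eq_zero fun l _ => ?_
  simp only [Rat.smul_def]
  linear_combination (c i : ℂ) * (c' l : ℂ) * h i l

/-- the span has dimension at most four when the products have degree at most four -/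
theorem mu_rank {n ρ : ℕ} {F : ℚ[X]} {z V : ℂ} (hz : MuRoot n F z) (hn : 6 ≤ n) (hV : V ≠ 0)
    (u : Fin ρ → ℚ[X]) (hu : LinearIndependent ℚ u) (hd : ∀ i, (u i).natDegree < n)
    (W : Fin ρ → Fin ρ → ℚ[X]) (hW : ∀ i l, (W i l).natDegree ≤ 4)
    (h : ∀ i l, V ^ 2 * aeval z (W i l) + aeval z (u i) * aeval z (u l) = 0) : ρ ≤ 4 := by
  by_contra hρ
  have i0 : Fin ρ := ⟨0, by omega⟩
  have hu0 : aeval z (u i0) ≠ 0 := fun e => hu.ne_zero i0 (hz.eq_zero (hd i0) e)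
  have hmem : ∀ q : ℚ[X], q.natDegree ≤ 4 → q ∈ degreeLT ℚ 5 := fun q hq =>
    mem_degreeLT.2 (degree_le_natDegree.trans_lt (by exact_mod_cast Nat.lt_succ_of_le hq))
  have hrow : ∀ c : Fin ρ → ℚ, V ^ 2 * aeval z (∑ l, c l • W i0 l) +
      aeval z (u i0) * aeval z (∑ l, c l • u l) = 0 := fun c => by
    simp only [map_sum, map_smul, Finset.mul_sum, ← Finset.sum_add_distrib]
    refine Finset.sum_eq_zero fun l _ => ?_
    simp only [Rat.smul_def]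
    linear_combination (c l : ℂ) * h i0 l
  have hli : LinearIndependent ℚ fun l => (⟨W i0 l, hmem _ (hW i0 l)⟩ : degreeLT ℚ 5) := by
    refine LinearIndependent.of_comp (degreeLT ℚ 5).subtype ?_
    rw [Fintype.linearIndependent_iff] at hu ⊢
    intro c hc
    have e := hrow c
    have hc' : ∑ l, c l • W i0 l = 0 := hc
    rw [hc', map_zero, mul_zero, zero_add] at e
    exact hu c (hz.eq_zero ((WMuB_deg_sum c u (m := n - 1) fun i =>
      Nat.le_sub_one_of_lt (hd i)).trans_lt (by omega)) ((mul_eq_zero.1 e).resolve_left hu0))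
  have : Module.Finite ℚ (degreeLT ℚ 5) := Module.Finite.of_basis (degreeLT.basis ℚ 5)
  have hfr : Module.finrank ℚ (degreeLT ℚ 5) = 5 := by
    rw [Module.finrank_eq_card_basis (degreeLT.basis ℚ 5), Fintype.card_fin]
  have hle := hli.fintype_card_le_finrank
  rw [hfr, Fintype.card_fin] at hle
  have : Nonempty (Fin ρ) := ⟨i0⟩
  have htop := hli.span_eq_top_of_card_eq_finrank (by rw [hfr, Fintype.card_fin]; omega)
  have hex : ∀ m : ℕ, ∃ c : Fin ρ → ℚ, m ≤ 4 →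
      aeval z (u i0) * aeval z (∑ l, c l • u l) = -(V ^ 2 * z ^ m) := fun m => by
    by_cases hm : m ≤ 4
    · have h1 : (⟨X ^ m, hmem _ (by simpa using hm)⟩ : degreeLT ℚ 5) ∈ Submodule.span ℚ
          (Set.range fun l => (⟨W i0 l, hmem _ (hW i0 l)⟩ : degreeLT ℚ 5)) := by
        rw [htop]; trivial
      obtain ⟨c, hc⟩ := (Submodule.mem_span_range_iff_exists_fun ℚ).1 h1
      have hc' : ∑ l, c l • W i0 l = X ^ m := by simpa using congrArg Subtype.val hc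
      have e := hrow c
      rw [hc', map_pow, aeval_X] at e
      exact ⟨c, fun _ => by linear_combination e⟩
    · exact ⟨0, fun h => absurd h hm⟩
  choose c hc using hex
  have hdeg : ∀ a b, (∑ i, c a i • ∑ l, c b l • W i l).natDegree ≤ 4 := fun a b =>
    WMuB_deg_sum _ _ fun i => WMuB_deg_sum _ _ (hW i)
  have hval : ∀ a b, a ≤ 4 → b ≤ 4 → aeval z (u i0) ^ 2 *
      aeval z (∑ i, c a i • ∑ l, c b l • W i l) = -(V ^ 2 * z ^ (a + b)) := fun a b ha hb => by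
    have e := WMuB_form u W h (c a) (c b)
    refine mul_left_cancel₀ (pow_ne_zero 2 hV) ?_
    have e1 := hc a ha
    have e2 := hc b hb
    rw [pow_add]
    linear_combination aeval z (u i0) ^ 2 * e -
      aeval z (u i0) * aeval z (∑ l, c b l • u l) * e1 + V ^ 2 * z ^ a * e2
  have hstep : ∀ a b a' b', a ≤ 4 → b ≤ 4 → a' ≤ 4 → b' ≤ 4 → a' + b' = a + b + 1 →
      (∑ i, c a' i • ∑ l, c b' l • W i l) = X * ∑ i, c a i • ∑ l, c b l • W i l :=
    fun a b a' b' ha hb ha' hb' e => by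
      refine hz.eq_of ((hdeg _ _).trans_lt (by omega)) (natDegree_mul_le.trans_lt ?_) ?_
      · have := hdeg a b
        rw [natDegree_X]
        omega
      · refine mul_left_cancel₀ (pow_ne_zero 2 hu0) ?_
        rw [hval a' b' ha' hb', map_mul, aeval_X, e, pow_succ]
        linear_combination (-z) * hval a b ha hb
  have e5 : (∑ i, c 1 i • ∑ l, c 4 l • W i l) = X ^ 5 * ∑ i, c 0 i • ∑ l, c 0 l • W i l := by
    rw [hstep 0 4 1 4 (by omega) (by omega) (by omega) (by omega) rfl,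
      hstep 0 3 0 4 (by omega) (by omega) (by omega) (by omega) rfl,
      hstep 0 2 0 3 (by omega) (by omega) (by omega) (by omega) rfl,
      hstep 0 1 0 2 (by omega) (by omega) (by omega) (by omega) rfl,
      hstep 0 0 0 1 (by omega) (by omega) (by omega) (by omega) rfl]
    ring
  have hne : (∑ i, c 0 i • ∑ l, c 0 l • W i l) ≠ 0 := fun e => by
    have := hval 0 0 (by omega) (by omega)
    rw [e, map_zero, mul_zero] at this
    exact hV (by simpa using this)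
  have := hdeg 1 4
  rw [e5, natDegree_X_pow_mul 5 hne] at this
  omega

theorem WMuB_ev (z : ℂ) (g : ℤ[X]) : aeval z (up ℚ g) = aeval z g := by
  rw [up, ← algebraMap_int_eq, aeval_map_algebraMap]

theorem MuRoot.int_dvd {n : ℕ} {f : ℤ[X]} {z : ℂ} (hz : MuRoot n (up ℚ f) z) (hm : f.Monic)
    (g : ℤ[X]) : f ∣ g ↔ aeval z g = 0 := by
  rw [← WMuB_ev, ← hz.dvd_iff]
  exact (map_dvd_map _ (Int.castRingHom ℚ).injective_int hm).symm

/-- coordinates in which the family is bounded and the form is bounded -/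
theorem mu_coord {n j : ℕ} {f v : ℤ[X]} {z : ℂ} (hz : MuRoot n (up ℚ f) z) (hV : aeval z v ≠ 0)
    (hj : 2 * j < n) (S : Finset ℤ[X]) {B Q : ℝ} (hB : 0 ≤ B) (hQ : 0 ≤ Q)
    (hk : ∀ k ∈ S, k.natDegree < n ∧ k.supNorm ≤ B)
    (hw : ∀ k ∈ S, ∀ k' ∈ S, ∃ W : ℤ[X], W.natDegree ≤ 2 * j ∧ W.supNorm ≤ Q ∧
      aeval z v ^ 2 * aeval z W + aeval z k * aeval z k' = 0) :
    ∃ (ρ : ℕ) (R : ℚ[X] →ₗ[ℚ] (Fin ρ → ℝ)), (j = 2 → 6 ≤ n → ρ ≤ 4) ∧
      (∀ a ∈ S, ‖R (up ℚ a)‖ ≤ 1) ∧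
      (∀ a ∈ S, ∀ b ∈ S, (a - b).supNorm ≤ n * (‖R (up ℚ (a - b))‖ * B)) ∧
      ∀ a ∈ S, ∀ b ∈ S, ∀ a' ∈ S, ∀ b' ∈ S, ∃ W : ℤ[X], W.natDegree ≤ 2 * j ∧
        W.supNorm ≤ n * (‖R (up ℚ (a - b))‖ * (n * (‖R (up ℚ (a' - b'))‖ * Q))) ∧
        aeval z v ^ 2 * aeval z W + aeval z (a - b) * aeval z (a' - b') = 0 := by
  obtain ⟨ρ, b, hbS, hli, hco⟩ := maxdet S fun k : ℤ[X] => up ℚ k
  choose! W hW using hw
  have hud : ∀ i, (up ℚ (b i)).natDegree < n := fun i => (WMuA_deg _).symm ▸ (hk _ (hbS i)).1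
  have hWd : ∀ i l, (up ℚ (W (b i) (b l))).natDegree ≤ 2 * j := fun i l =>
    (WMuA_deg _).symm ▸ (hW _ (hbS i) _ (hbS l)).1
  have hWe : ∀ i l, aeval z v ^ 2 * aeval z (up ℚ (W (b i) (b l))) +
      aeval z (up ℚ (b i)) * aeval z (up ℚ (b l)) = 0 := fun i l => by
    simpa only [WMuB_ev] using (hW _ (hbS i) _ (hbS l)).2.2
  have hρ : (ρ : ℝ) ≤ n := by exact_mod_cast WMuB_li_le _ hli hud
  obtain ⟨L, hL⟩ := (Fintype.linearCombination ℚ fun i => up ℚ (b i)).exists_leftInverse_of_injective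
    (LinearMap.ker_eq_bot.2 hli.fintypeLinearCombination_injective)
  have hL' : ∀ c : Fin ρ → ℚ, L (∑ i, c i • up ℚ (b i)) = c := fun c => by
    simpa [Fintype.linearCombination_apply] using LinearMap.congr_fun hL c
  let R : ℚ[X] →ₗ[ℚ] (Fin ρ → ℝ) :=
    (LinearMap.pi fun i => (Algebra.linearMap ℚ ℝ).comp (LinearMap.proj i)).comp L
  have hR : ∀ c : Fin ρ → ℚ, ∀ i, R (∑ i, c i • up ℚ (b i)) i = c i := fun c i => by
    change ((L (∑ i, c i • up ℚ (b i)) i : ℚ) : ℝ) = _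
    rw [hL']
  choose! c hc using hco
  have hdiff : ∀ a ∈ S, ∀ a' ∈ S, up ℚ (a - a') = ∑ i, (c a - c a') i • up ℚ (b i) :=
    fun a ha a' ha' => by
      simp only [Pi.sub_apply, sub_smul, Finset.sum_sub_distrib]
      rw [← (hc a ha).2, ← (hc a' ha').2]
      exact Polynomial.map_sub _
  have hco' : ∀ a ∈ S, ∀ a' ∈ S, ∀ i, |(((c a - c a') i : ℚ) : ℝ)| ≤ ‖R (up ℚ (a - a'))‖ :=
    fun a ha a' ha' i => by
      rw [← hR, ← hdiff a ha a' ha']
      exact norm_le_pi_norm (R (up ℚ (a - a'))) i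
  refine ⟨ρ, R, fun h2 h6 => mu_rank hz h6 hV _ hli hud _ (fun i l => ?_) hWe, fun a ha => ?_,
    fun a ha a' ha' => ?_, fun a ha a' ha' e he e' he' => ?_⟩
  · have := hWd i l
    omega
  · refine (pi_norm_le_iff_of_nonneg zero_le_one).2 fun i => ?_
    rw [(hc a ha).2, hR, Real.norm_eq_abs]
    exact_mod_cast (hc a ha).1 i
  · rw [← sup_up_rat]
    conv_lhs => rw [hdiff a ha a' ha']
    refine (WMuB_sup_sum _ _ (hco' a ha a' ha') fun i => ?_).trans (by gcongr)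
    rw [sup_up_rat]
    exact (hk _ (hbS i)).2
  · have hdg : (W a e - W a e' - W a' e + W a' e').natDegree ≤ 2 * j := by
      refine (natDegree_add_le _ _).trans (max_le ((natDegree_sub_le _ _).trans (max_le
        ((natDegree_sub_le _ _).trans (max_le ?_ ?_)) ?_)) ?_)
      exacts [(hW _ ha _ he).1, (hW _ ha _ he').1, (hW _ ha' _ he).1, (hW _ ha' _ he').1]
    have hev : aeval z v ^ 2 * aeval z (W a e - W a e' - W a' e + W a' e') +
        aeval z (a - a') * aeval z (e - e') = 0 := by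
      simp only [map_sub, map_add]
      linear_combination (hW _ ha _ he).2.2 - (hW _ ha _ he').2.2 - (hW _ ha' _ he).2.2 +
        (hW _ ha' _ he').2.2
    refine ⟨_, hdg, ?_, hev⟩
    have e1 := WMuB_form _ _ hWe (c a - c a') (c e - c e')
    rw [← hdiff a ha a' ha', ← hdiff e he e' he', WMuB_ev, WMuB_ev] at e1
    have e2 : up ℚ (W a e - W a e' - W a' e + W a' e') =
        ∑ i, (c a - c a') i • ∑ l, (c e - c e') l • up ℚ (W (b i) (b l)) := by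
      refine hz.eq_of (((WMuA_deg _).trans_le hdg).trans_lt hj)
        ((WMuB_deg_sum _ _ fun i => WMuB_deg_sum _ _ (hWd i)).trans_lt hj) ?_
      refine mul_left_cancel₀ (pow_ne_zero 2 hV) ?_
      rw [WMuB_ev]
      linear_combination hev - e1
    rw [← sup_up_rat, e2]
    refine (WMuB_sup_sum _ _ (B := n * (‖R (up ℚ (e - e'))‖ * Q))
      (hco' a ha a' ha') fun i => ?_).trans (by gcongr)
    refine (WMuB_sup_sum _ _ (hco' e he e' he') fun l => ?_).trans (by gcongr)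
    rw [sup_up_rat]
    exact (hW _ (hbS i) _ (hbS l)).2.1

end Pool.Agent.VW
end

-- part Pool.Agent.P.MP_b0ea37_nt.WMuC
section

namespace Pool.Agent.VW

open Polynomial

theorem WMuC_ev (z : ℂ) (g : ℤ[X]) : aeval z (up ℚ g) = aeval z g := by
  rw [up, ← algebraMap_int_eq, aeval_map_algebraMap]

theorem WMuC_up_mul (g h : ℤ[X]) : up ℚ (g * h) = up ℚ g * up ℚ h := Polynomial.map_mul _

theorem WMuC_up_pow (g : ℤ[X]) (m : ℕ) : up ℚ (g ^ m) = up ℚ g ^ m := Polynomial.map_pow _ _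

/-- the shape of the elements that are degenerate against a fixed one -/
theorem mu_struct {n j : ℕ} {f v u₁ w₁ : ℤ[X]} {z : ℂ} (hz : MuRoot n (up ℚ f) z) (hq : NQ f)
    (hj : j ≤ 2) (hv : v.natDegree + j < n) (hV : aeval z v ≠ 0) (hu : u₁.natDegree < n)
    (hnd : ¬ up ℚ v ∣ up ℚ u₁) (hw : w₁.natDegree ≤ 2 * j)
    (he : aeval z v ^ 2 * aeval z w₁ + aeval z u₁ * aeval z u₁ = 0) :
    ∃ c h₁ : ℤ[X], w₁ ≠ 0 ∧ w₁ = c * h₁ ^ 2 ∧ Squarefree (up ℚ c) ∧ 1 ≤ c.natDegree ∧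
      c.natDegree + 2 * h₁.natDegree = w₁.natDegree ∧ (∃ q : ℚ[X], up ℚ f ∣ q ^ 2 + up ℚ c) ∧
      ∃ g₀ g₁ : ℚ[X], ∀ u w w₂ : ℤ[X], u.natDegree < n → w₂.natDegree ≤ 2 * j →
        aeval z v ^ 2 * aeval z w + aeval z u₁ * aeval z u = 0 → w₁ * w₂ = w ^ 2 →
        ∃ s t : ℚ, up ℚ u = s • g₀ + t • g₁ ∧ (2 * j < c.natDegree + 2 → t = 0) := by
  have hu0 : aeval z u₁ ≠ 0 := fun e => hnd (by
    rw [hz.eq_zero (q := up ℚ u₁) ((WMuA_deg _).trans_lt hu) ((WMuC_ev z _).trans e)]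
    exact dvd_zero _)
  have hw0 : aeval z w₁ ≠ 0 := fun e => by
    rw [e, mul_zero, zero_add] at he
    exact hu0 (mul_self_eq_zero.1 he)
  have hw1 : w₁ ≠ 0 := fun e => hw0 (by rw [e, map_zero])
  obtain ⟨c, h₁, e, hc⟩ := mu_sqfree w₁ hw1
  have hc0 : c ≠ 0 := fun h => hw1 (by rw [e, h, zero_mul])
  have hh0 : h₁ ≠ 0 := fun h => hw1 (by rw [e, h]; simp)
  have hdeg : c.natDegree + 2 * h₁.natDegree = w₁.natDegree := by
    rw [e, natDegree_mul hc0 (pow_ne_zero 2 hh0), natDegree_pow]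
  have ev : aeval z w₁ = aeval z c * aeval z h₁ ^ 2 := by rw [e, map_mul, map_pow]
  have hh : aeval z h₁ ≠ 0 := fun h => hw0 (by rw [ev, h]; simp)
  obtain ⟨q, -, hqe⟩ := hz.div (up ℚ u₁) (up ℚ (v * h₁))
    (by rw [WMuC_ev, map_mul]; exact mul_ne_zero hV hh)
  rw [WMuC_ev, WMuC_ev, map_mul] at hqe
  have hqc : up ℚ f ∣ q ^ 2 + up ℚ c := by
    rw [hz.dvd_iff, map_add, map_pow, WMuC_ev]
    refine mul_left_cancel₀ (pow_ne_zero 2 (mul_ne_zero hV hh)) ?_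
    rw [ev] at he
    linear_combination he + (aeval z q * (aeval z v * aeval z h₁) + aeval z u₁) * hqe
  have hc1 : 1 ≤ c.natDegree := by
    by_contra h0
    obtain ⟨t, rfl⟩ := natDegree_eq_zero.1 (Nat.eq_zero_of_not_pos h0)
    obtain ⟨b, hb⟩ := hq q (-(t : ℚ)) (by simpa [up] using hqc)
    rw [hz.dvd_iff, map_sub, aeval_C, sub_eq_zero] at hb
    refine hnd ⟨C b * up ℚ h₁, hz.eq_of ((WMuA_deg _).trans_lt hu) ?_ ?_⟩
    · refine natDegree_mul_le.trans_lt ?_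
      have := natDegree_C_mul_le b (up ℚ h₁)
      rw [WMuA_deg] at this
      rw [WMuA_deg]
      omega
    · rw [map_mul, map_mul, aeval_C, ← hb, WMuC_ev, WMuC_ev, WMuC_ev, ← hqe]
      ring
  obtain ⟨g₀, hd₀, hg₀⟩ := hz.div (up ℚ u₁) (up ℚ h₁) (by rwa [WMuC_ev])
  obtain ⟨g₁, hd₁, hg₁⟩ := hz.div (X * up ℚ u₁) (up ℚ h₁) (by rwa [WMuC_ev])
  rw [WMuC_ev, WMuC_ev] at hg₀
  rw [map_mul, aeval_X, WMuC_ev, WMuC_ev] at hg₁
  refine ⟨c, h₁, hw1, e, hc, hc1, hdeg, ⟨q, hqc⟩, g₀, g₁, fun u w w₂ hud hwd h1 h2 => ?_⟩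
  obtain ⟨h, e1, e2⟩ := mu_line (h₁ := up ℚ h₁) (w₁ := up ℚ w) (w₂ := up ℚ w₂) hc (WMuA_ne hh0)
    (by rw [← WMuC_up_pow, ← WMuC_up_mul, ← WMuC_up_mul, ← e, h2, WMuC_up_pow])
  have hdh : c.natDegree + 2 * h.natDegree ≤ 2 * j := by
    by_cases h0 : h = 0
    · rw [h0, natDegree_zero]
      omega
    · rw [← WMuA_deg, e2, natDegree_mul hc.ne_zero (pow_ne_zero 2 h0), natDegree_pow,
        WMuA_deg] at hwd
      exact hwd
  have eh := eq_X_add_C_of_natDegree_le_one (p := h) (by omega)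
  refine ⟨h.coeff 0, h.coeff 1, hz.eq_of ((WMuA_deg _).trans_lt hud) ?_ ?_, fun hlt =>
    coeff_eq_zero_of_natDegree_lt (by omega)⟩
  · exact (natDegree_add_le _ _).trans_lt (max_lt ((natDegree_smul_le _ _).trans_lt hd₀)
      ((natDegree_smul_le _ _).trans_lt hd₁))
  · have e3 := congrArg (aeval z) e1
    have e4 := congrArg (aeval z) eh
    rw [map_mul, map_mul, WMuC_ev, WMuC_ev, WMuC_ev] at e3
    rw [map_add, map_mul, aeval_C, aeval_C, aeval_X, eq_ratCast, eq_ratCast] at e4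
    rw [map_add, map_smul, map_smul, Rat.smul_def, Rat.smul_def, WMuC_ev]
    refine mul_left_cancel₀ (mul_ne_zero hu0 hh) ?_
    rw [ev] at he
    rw [e3, e4] at h1
    linear_combination aeval z h₁ * h1 - ((h.coeff 1 : ℂ) * z + (h.coeff 0 : ℂ)) * he -
      aeval z u₁ * (h.coeff 0 : ℂ) * hg₀ - aeval z u₁ * (h.coeff 1 : ℂ) * hg₁

/-- packing along one or two rational directions -/
theorem mu_pack {ρ : ℕ} (R : ℚ[X] →ₗ[ℚ] (Fin ρ → ℝ)) (S : Finset ℤ[X]) (g₀ g₁ : ℚ[X]) (r : ℕ)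
    (hr : r = 1 ∨ r = 2) {D l : ℝ} (hD : 0 ≤ D) (hl : 0 < l)
    (h : ∀ a ∈ S, ∀ b ∈ S, ∃ s t : ℚ, up ℚ (a - b) = s • g₀ + t • g₁ ∧ (r = 1 → t = 0))
    (hd : ∀ a ∈ S, ∀ b ∈ S, ‖R (up ℚ (a - b))‖ ≤ D)
    (hs : ∀ a ∈ S, ∀ b ∈ S, a ≠ b → l ≤ ‖R (up ℚ (a - b))‖) :
    (S.card : ℝ) ≤ (1 + 2 * D / l) ^ r := by
  have hsub : ∀ a b : ℤ[X], R (up ℚ a) - R (up ℚ b) = R (up ℚ (a - b)) := fun a b => by
    rw [← map_sub, up, up, up, Polynomial.map_sub]
  let G : Fin r → (Fin ρ → ℝ) := fun i => if (i : ℕ) = 0 then R g₀ else R g₁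
  have : Module.Finite ℝ (Submodule.span ℝ (Set.range G)) :=
    Module.Finite.span_of_finite ℝ (Set.finite_range G)
  refine pack_semi (normSeminorm ℝ (Fin ρ → ℝ)) (Submodule.span ℝ (Set.range G)) r
    ((finrank_range_le_card (R := ℝ) G).trans (Fintype.card_fin r).le) D l hD hl S (fun a => R (up ℚ a))
    (fun a ha b hb => ?_) (fun a ha b hb => ?_) fun a ha b hb hab => ?_
  · obtain ⟨s, t, e, ht⟩ := h a ha b hb
    rw [hsub, e, map_add, map_smul, map_smul, ← Rat.cast_smul_eq_qsmul ℝ, ← Rat.cast_smul_eq_qsmul ℝ]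
    refine add_mem (Submodule.smul_mem _ _ (Submodule.subset_span ⟨⟨0, by omega⟩, rfl⟩)) ?_
    rcases hr with h1 | h2
    · simp [ht h1]
    · exact Submodule.smul_mem _ _ (Submodule.subset_span ⟨⟨1, by omega⟩, rfl⟩)
  · rw [hsub]
    exact hd a ha b hb
  · rw [hsub]
    exact hs a ha b hb hab

/-- packing in the whole space -/
theorem mu_pack_top {ρ : ℕ} (hρ : ρ ≤ 4) (R : ℚ[X] →ₗ[ℚ] (Fin ρ → ℝ)) (S : Finset ℤ[X])
    {l : ℝ} (hl : 0 < l) (hd : ∀ a ∈ S, ∀ b ∈ S, ‖R (up ℚ (a - b))‖ ≤ 2)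
    (hs : ∀ a ∈ S, ∀ b ∈ S, a ≠ b → l ≤ ‖R (up ℚ (a - b))‖) :
    (S.card : ℝ) ≤ (1 + 2 * 2 / l) ^ 4 := by
  have hsub : ∀ a b : ℤ[X], R (up ℚ a) - R (up ℚ b) = R (up ℚ (a - b)) := fun a b => by
    rw [← map_sub, up, up, up, Polynomial.map_sub]
  refine pack_semi (normSeminorm ℝ (Fin ρ → ℝ)) ⊤ 4 (by simpa using hρ) 2 l zero_le_two hl S
    (fun a => R (up ℚ a)) (fun _ _ _ _ => trivial) (fun a ha b hb => ?_) fun a ha b hb hab => ?_
  · rw [hsub]
    exact hd a ha b hb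
  · rw [hsub]
    exact hs a ha b hb hab

theorem mu_num {N l τ : ℝ} (hl : 0 < l) (hl2 : l ≤ 2) (hτ : 0 < τ) (hτ2 : τ ≤ 2)
    (h1 : N ≤ (1 + 2 * 2 / τ) ^ 4 * (1 + 2 * (2 * τ) / l) ^ 2) (h2 : N ≤ (1 + 2 * 2 / l) ^ 4) :
    N ≤ 32400 / (τ * l) ^ 2 := by
  have key : ∀ x : ℝ, 0 < x → x ≤ 2 → 1 + 2 * 2 / x ≤ 6 / x := fun x hx hx2 => by
    rw [le_div_iff₀ hx, add_mul, div_mul_cancel₀ _ hx.ne']
    linarith
  rcases le_total l τ with h | h
  · have e : 1 + 2 * (2 * τ) / l ≤ 5 * τ / l := by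
      rw [le_div_iff₀ hl, add_mul, div_mul_cancel₀ _ hl.ne']
      linarith
    calc N ≤ (6 / τ) ^ 4 * (5 * τ / l) ^ 2 := h1.trans (by gcongr; exact key τ hτ hτ2)
      _ = _ := by field_simp; norm_num
  · calc N ≤ (6 / l) ^ 4 := h2.trans (by gcongr; exact key l hl hl2)
      _ = 1296 / (l * l) ^ 2 := by field_simp; norm_num
      _ ≤ _ := by gcongr; norm_num

/-- the window equation from the shortest difference -/
theorem mu_cw {n : ℕ} (hn : 5 ≤ n) {K H T om : ℝ} (hK : 20 * (4 ^ (2 * n) * (n : ℝ) ^ 4) ≤ K)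
    (hH : 0 < H) (hT : 0 < T) (hom : 0 ≤ om) {f v k w : ℤ[X]} (hm : f.Monic) (hf : f.natDegree = n)
    (hfH : H / 2 < f.supNorm) (hv : v.natDegree = n - 1 - 1) (hvT : v.supNorm ≤ 2 * T)
    (hk : k.natDegree < n) (hkT : k.supNorm ≤ n * (√om * T))
    (hw : w.natDegree = 1 ∨ w.natDegree = 2) (hsq : Squarefree (up ℚ w))
    (hwT : w.supNorm ≤ n ^ 2 * om) (hd : f ∣ k ^ 2 + v ^ 2 * w) :
    CW n (K * om) (2 * T) (K * √om * T) (K * om * T ^ 2 / H) f := by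
  obtain ⟨E, hE⟩ := hd
  have hn1 : (1 : ℝ) ≤ n := by exact_mod_cast (by omega : 1 ≤ n)
  have h4 : (1 : ℝ) ≤ 4 ^ (2 * n) := one_le_pow₀ (by norm_num)
  have hn4 : (n : ℝ) ^ 4 ≤ K := by nlinarith [pow_pos (zero_lt_one.trans_le hn1) 4]
  have hdeg : (f * E).natDegree ≤ 2 * n - 2 := by
    rw [← hE]
    refine (natDegree_add_le _ _).trans (max_le ?_ (natDegree_mul_le.trans ?_))
    · rw [natDegree_pow]
      omega
    · rw [natDegree_pow]
      omega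
  refine ⟨E, k, v, w, hE.symm, ?_, ?_, hk, by omega, hw, hsq, hwT.trans ?_, hvT, hkT.trans ?_, ?_⟩
  · rintro rfl
    rw [natDegree_zero] at hv
    omega
  · by_cases h0 : E = 0
    · rw [h0, natDegree_zero]
      omega
    · rw [natDegree_mul hm.ne_zero h0] at hdeg
      omega
  · exact mul_le_mul_of_nonneg_right ((pow_le_pow_right₀ hn1 (by norm_num)).trans hn4) hom
  · rw [mul_assoc]
    exact mul_le_mul_of_nonneg_right ((le_self_pow₀ hn1 (by norm_num)).trans hn4) (by positivity)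
  · have e1 := gelfond f E (m := 2 * n) (by omega)
    have e2 : (k ^ 2).supNorm ≤ 2 * n * (n * (√om * T)) ^ 2 := by
      rw [sq k]
      refine (sup_mul_le k k hk.le).trans ?_
      rw [← sq]
      have := k.supNorm_nonneg
      gcongr
      linarith
    have e3 : (v ^ 2).supNorm ≤ 2 * n * (2 * T) ^ 2 := by
      rw [sq v]
      refine (sup_mul_le v v (m := n) (by omega)).trans ?_
      rw [← sq]
      have := v.supNorm_nonneg
      gcongr
      linarith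
    have e4 : (v ^ 2 * w).supNorm ≤ 3 * (n ^ 2 * om * (2 * n * (2 * T) ^ 2)) := by
      rw [mul_comm (v ^ 2)]
      refine (sup_mul_le w _ (m := 2) (by omega)).trans ?_
      exact mul_le_mul (by norm_num) (mul_le_mul hwT e3 (supNorm_nonneg _) (by positivity))
        (mul_nonneg (supNorm_nonneg _) (supNorm_nonneg _)) (by norm_num)
    have e5 : (f * E).supNorm ≤ 26 * (n ^ 3 * (om * T ^ 2)) := by
      rw [← hE]
      refine (sup_add_le _ _).trans ((add_le_add e2 e4).trans (le_of_eq ?_))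
      rw [mul_pow, mul_pow, Real.sq_sqrt hom]
      ring
    have hn5 : (5 : ℝ) ≤ n := by exact_mod_cast hn
    have hE0 := E.supNorm_nonneg
    rw [le_div_iff₀ hH]
    calc E.supNorm * H ≤ 2 * (f.supNorm * E.supNorm) := by nlinarith
      _ ≤ 2 * (4 ^ (2 * n) * (26 * (n ^ 3 * (om * T ^ 2)))) :=
        mul_le_mul_of_nonneg_left (e1.trans (by gcongr)) zero_le_two
      _ = 52 * (4 ^ (2 * n) * n ^ 3 * (om * T ^ 2)) := by ring
      _ ≤ 20 * n * (4 ^ (2 * n) * n ^ 3 * (om * T ^ 2)) := by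
        gcongr
        linarith
      _ = 20 * (4 ^ (2 * n) * (n : ℝ) ^ 4) * (om * T ^ 2) := by ring
      _ ≤ K * (om * T ^ 2) := by gcongr
      _ = _ := by ring

end Pool.Agent.VW
end

-- part Pool.Agent.P.MP_b0ea37_nt.WMmult
section

namespace Pool.Agent.VW

open Polynomial

theorem Prim.nq {f : ℤ[X]} (hm : f.Monic) (h3 : 3 ≤ f.natDegree) (hf : Irr f) (h : Prim f) :
    NQ f := by
  intro g a hg
  obtain ⟨z, hz⟩ := mu_root hm rfl hf
  obtain ⟨r, hr, e⟩ := hz.red g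
  have h1 : up ℚ f ∣ r ^ 2 - C a := by
    rw [hz.dvd_iff] at hg ⊢
    rwa [map_sub, map_pow, e, ← map_pow, ← map_sub]
  obtain ⟨b, rfl⟩ := natDegree_eq_zero.1 (mu_prim_sq hm rfl h3 hf h hr h1)
  exact ⟨b, by rw [hz.dvd_iff, map_sub, e, sub_self]⟩

/-- the Gram determinant of two short differences vanishes -/
theorem mu_gram {n j : ℕ} {f w₁ w w₂ : ℤ[X]} {z V u₁ u : ℂ} (hz : MuRoot n (up ℚ f) z)
    (hm : f.Monic) (hV : V ≠ 0) (hj : j ≤ 2) (h1 : w₁.natDegree ≤ 2 * j) (h : w.natDegree ≤ 2 * j)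
    (h2 : w₂.natDegree ≤ 2 * j) (e1 : V ^ 2 * aeval z w₁ + u₁ * u₁ = 0)
    (e : V ^ 2 * aeval z w + u₁ * u = 0) (e2 : V ^ 2 * aeval z w₂ + u * u = 0) {A : ℝ}
    (hA : w₁.supNorm * w₂.supNorm ≤ A) (hA' : w.supNorm * w.supNorm ≤ A)
    (hs : 4 * j < n ∨ 4 ^ 8 * (10 * A) < f.supNorm) : w₁ * w₂ = w ^ 2 := by
  have hd : (w₁ * w₂ - w ^ 2).natDegree ≤ 4 * j := by
    refine (natDegree_sub_le _ _).trans (max_le (natDegree_mul_le.trans (by omega)) ?_)
    rw [natDegree_pow]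
    omega
  have hdv : f ∣ w₁ * w₂ - w ^ 2 := by
    rw [hz.int_dvd hm, map_sub, map_mul, map_pow]
    refine mul_left_cancel₀ (pow_ne_zero 4 hV) ?_
    linear_combination V ^ 2 * aeval z w₂ * e1 - u₁ * u₁ * e2 -
      (V ^ 2 * aeval z w - u₁ * u) * e
  by_contra hne
  have hne' := sub_ne_zero.2 hne
  rcases hs with hs | hs
  · have := natDegree_le_of_dvd hdv hne'
    rw [← WMuA_deg, hz.deg] at this
    omega
  · have h3 := sup_le_of_dvd hne' hdv (m := 8) (by omega)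
    have h4 := sup_sub_le (w₁ * w₂) (w ^ 2)
    have h5 := sup_mul_le w₁ w₂ (m := 4) (by omega)
    have h6 := sup_mul_le w w (m := 4) (by omega)
    rw [← sq] at h6
    norm_num at h3 h5 h6 hs
    linarith

theorem mult (n j : ℕ) (hj : j = 1 ∨ j = 2) (hn : 5 ≤ n) (hn' : 2 * j + 2 ≤ n) :
    ∃ K : ℝ, 1 ≤ K ∧ ∀ (H T Sg om : ℝ) (f v : ℤ[X]) (S : Finset ℤ[X]), 1 ≤ H → 0 < T → 0 < Sg →
      1 ≤ om → f.Monic → f.natDegree = n → Irr f → NQ f → H / 2 < f.supNorm →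
      v.natDegree = n - 1 - j → v.supNorm ≤ 2 * T →
      (∀ k ∈ S, k.natDegree < n ∧ k.supNorm ≤ Sg * T) →
      (∀ k ∈ S, ∀ k' ∈ S, ∃ W : ℤ[X], W.natDegree ≤ 2 * j ∧ W.supNorm ≤ Sg ^ 2 ∧
        f ∣ v ^ 2 * W + k * k') →
      (∀ k ∈ S, ∀ k' ∈ S, up ℚ v ∣ up ℚ (k - k') → k = k') →
      (S.card : ℝ) ≤ K * (1 + Sg ^ j / √om + if j = 2 then Sg + Sg ^ 4 / H else 0) ∨
        (CC (K * om) f ∧
          (j = 1 → CW n (K * om) (2 * T) (K * √om * T) (K * om * T ^ 2 / H) f)) := by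
  classical
  have hn1 : (1 : ℝ) ≤ n := by exact_mod_cast (by omega : 1 ≤ n)
  have h4 : (1 : ℝ) ≤ 4 ^ (2 * n) := one_le_pow₀ (by norm_num)
  have hp4 : (1 : ℝ) ≤ (n : ℝ) ^ 4 := one_le_pow₀ hn1
  obtain ⟨K, hK1, hK2⟩ : ∃ K : ℝ, 20 * (4 ^ (2 * n) * (n : ℝ) ^ 4) ≤ K ∧
      32400 * (20 * 4 ^ 8 * (n : ℝ) ^ 4) ≤ K := ⟨max _ _, le_max_left _ _, le_max_right _ _⟩
  have hK3 : 256 * (n : ℝ) ^ 4 ≤ K := by linarith
  refine ⟨K, by linarith, fun H T Sg om f v S hH hT hSg hom hm hf hirr hq hfH hv hvT hk hw hsep =>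
    ?_⟩
  have hso : 1 ≤ √om := Real.one_le_sqrt.2 hom
  have hif : (0 : ℝ) ≤ if j = 2 then Sg + Sg ^ 4 / H else 0 := by
    split_ifs
    · positivity
    · exact le_rfl
  have hq0 : 0 ≤ Sg ^ j / √om := by positivity
  by_cases hS : S.card ≤ 1
  · left
    have : (S.card : ℝ) ≤ 1 := by exact_mod_cast hS
    nlinarith
  obtain ⟨z, hz⟩ := mu_root hm hf hirr
  have hV : aeval z v ≠ 0 := fun e => by
    have h0 := hz.eq_zero (q := up ℚ v) (by rw [WMuA_deg]; omega) ((WMuB_ev z v).trans e)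
    have h1 := WMuA_deg v
    rw [h0, natDegree_zero] at h1
    omega
  obtain ⟨ρ, R, hρ, hR1, hRk, hRw⟩ := mu_coord hz hV (j := j) (by omega) S (B := Sg * T)
    (Q := Sg ^ 2) (by positivity) (by positivity) hk fun k h k' h' => by
      obtain ⟨W, h1, h2, h3⟩ := hw k h k' h'
      refine ⟨W, h1, h2, ?_⟩
      rw [hz.int_dvd hm, map_add, map_mul, map_mul, map_pow] at h3
      exact h3
  have hsub : ∀ a b : ℤ[X], up ℚ (a - b) = up ℚ a - up ℚ b := fun a b => Polynomial.map_sub _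
  have hd2 : ∀ a ∈ S, ∀ b ∈ S, ‖R (up ℚ (a - b))‖ ≤ 2 := fun a ha b hb => by
    rw [hsub, map_sub]
    linarith [norm_sub_le (R (up ℚ a)) (R (up ℚ b)), hR1 a ha, hR1 b hb]
  obtain ⟨⟨a, b⟩, hab, hmin⟩ := S.offDiag.exists_min_image (fun p => ‖R (up ℚ (p.1 - p.2))‖) (by
    obtain ⟨a, ha, b, hb, hne⟩ := Finset.one_lt_card.1 (not_le.1 hS)
    exact ⟨(a, b), Finset.mem_offDiag.2 ⟨ha, hb, hne⟩⟩)
  obtain ⟨ha, hb, hne⟩ := Finset.mem_offDiag.1 hab
  dsimp only at ha hb hne hmin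
  obtain ⟨l, hl⟩ : ∃ l, l = ‖R (up ℚ (a - b))‖ := ⟨_, rfl⟩
  have hs : ∀ x ∈ S, ∀ y ∈ S, x ≠ y → l ≤ ‖R (up ℚ (x - y))‖ := fun x hx y hy hxy =>
    hl ▸ hmin (x, y) (Finset.mem_offDiag.2 ⟨hx, hy, hxy⟩)
  have hl2 : l ≤ 2 := hl ▸ hd2 a ha b hb
  have hdeg : ∀ x ∈ S, ∀ y ∈ S, (x - y).natDegree < n := fun x hx y hy =>
    (natDegree_sub_le _ _).trans_lt (max_lt (hk x hx).1 (hk y hy).1)
  obtain ⟨w₁, hw1, hw2, hw3⟩ := hRw a ha b hb a ha b hb
  obtain ⟨c, h₁, hw0, ew, hc, hc1, hcd, hcq, g₀, g₁, hg⟩ := mu_struct hz hq (j := j) (by omega)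
    (by omega) hV (hdeg a ha b hb) (fun h => hne (hsep a ha b hb h)) hw1 hw3
  rw [← hl] at hw2
  have hw4 : w₁.supNorm ≤ n ^ 2 * (Sg * l) ^ 2 := hw2.trans (le_of_eq (by ring))
  have hl0' : 0 ≤ l := hl ▸ norm_nonneg _
  have hl1 : 1 ≤ n * (Sg * l) := by
    have := (one_le_sup hw0).trans hw4
    rw [← mul_pow] at this
    exact (one_le_sq_iff₀ (by positivity)).1 this
  have hl0 : 0 < l := lt_of_le_of_ne hl0' fun e => by
    rw [← e] at hl1
    norm_num at hl1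
  by_cases hex : c.natDegree ≤ 2 ∧ Sg * l ≤ √om
  · right
    have h1 : (Sg * l) ^ 2 ≤ om := by
      rw [← Real.sq_sqrt (zero_le_one.trans hom)]
      gcongr
      exact hex.2
    have h2 : w₁.supNorm ≤ n ^ 2 * om := hw4.trans (by gcongr)
    refine ⟨⟨c, by omega, hc, ?_, hcq⟩, fun hj1 => ?_⟩
    · refine (sup_le_of_dvd hw0 ⟨_, ew⟩ (m := 4) (by omega)).trans ?_
      have h3 : (n : ℝ) ^ 2 ≤ n ^ 4 := pow_le_pow_right₀ hn1 (by norm_num)
      calc 4 ^ 4 * w₁.supNorm ≤ 4 ^ 4 * (n ^ 4 * om) := by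
            gcongr
            exact h2.trans (by gcongr)
        _ = 256 * n ^ 4 * om := by ring
        _ ≤ _ := by gcongr
    · subst hj1
      obtain ⟨t, rfl⟩ := natDegree_eq_zero.1 (by omega : h₁.natDegree = 0)
      have ht : (t : ℚ) ≠ 0 := by
        rintro ht
        have : t = 0 := by exact_mod_cast ht
        exact hw0 (by rw [ew, this]; simp)
      refine mu_cw hn hK1 (by linarith) hT (by linarith) hm hf hfH hv hvT (hdeg a ha b hb)
        ((hRk a ha b hb).trans ?_) (w := w₁) (by omega) ?_ h2 ?_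
      · rw [← hl, ← mul_assoc l, mul_comm l]
        gcongr
        exact hex.2
      · rw [ew, WMuC_up_mul, WMuC_up_pow]
        refine (Associated.squarefree_iff (associated_mul_unit_right _ _ ?_)).1 hc
        refine IsUnit.pow 2 ?_
        rw [up, map_C]
        exact isUnit_C.2 (Ne.isUnit ht)
      · rw [hz.int_dvd hm, map_add, map_mul, map_pow, map_pow]
        linear_combination hw3
  left
  obtain ⟨A, hA⟩ : ∃ A : ℝ, A = 20 * 4 ^ 8 * (n : ℝ) ^ 4 := ⟨_, rfl⟩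
  have hA0 : 0 < A := by rw [hA]; positivity
  obtain ⟨τ, hτ⟩ : ∃ τ, τ = √(H / A) / (Sg ^ 2 * l) := ⟨_, rfl⟩
  have hτ0 : 0 < τ := by rw [hτ]; positivity
  have hτ1 : (τ * l) ^ 2 = H / (A * Sg ^ 4) := by
    rw [mul_pow, hτ, div_pow, Real.sq_sqrt (by positivity)]
    field_simp
  have hnear : ∀ x ∈ S, ∀ y ∈ S, j = 1 ∨ ‖R (up ℚ (x - y))‖ ≤ τ → ∃ s t : ℚ,
      up ℚ (x - y) = s • g₀ + t • g₁ ∧ (2 * j < c.natDegree + 2 → t = 0) := fun x hx y hy h => by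
    obtain ⟨w, d1, s1, e1⟩ := hRw a ha b hb x hx y hy
    obtain ⟨w₂, d2, s2, e2⟩ := hRw x hx y hy x hx y hy
    rw [← hl] at s1
    have hN := norm_nonneg (R (up ℚ (x - y)))
    refine hg _ w w₂ (hdeg x hx y hy) d2 e1 (mu_gram hz hm hV (j := j) (by omega) hw1 d1 d2 hw3 e1
      e2 (A := n ^ 4 * Sg ^ 4 * (‖R (up ℚ (x - y))‖ * l) ^ 2) ?_ ?_ ?_)
    · exact (mul_le_mul hw2 s2 (supNorm_nonneg _) (by positivity)).trans (le_of_eq (by ring))
    · exact (mul_le_mul s1 s1 (supNorm_nonneg _) (by positivity)).trans (le_of_eq (by ring))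
    · rcases h with h | h
      · left
        omega
      · right
        refine lt_of_le_of_lt ?_ hfH
        calc 4 ^ 8 * (10 * (n ^ 4 * Sg ^ 4 * (‖R (up ℚ (x - y))‖ * l) ^ 2))
            ≤ 4 ^ 8 * (10 * (n ^ 4 * Sg ^ 4 * (τ * l) ^ 2)) := by gcongr
          _ = H / 2 := by
            rw [hτ1, hA]
            field_simp
            norm_num
  have hinv : ∀ y : ℝ, 0 < y → y ≤ Sg * l → 2 * 2 / l ≤ 4 * (Sg / y) := fun y hy h => by
    rw [div_le_iff₀ hl0, mul_assoc, div_mul_eq_mul_div]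
    have := (one_le_div hy).2 h
    linarith
  rcases hj with rfl | rfl
  · have h1 := mu_pack R S g₀ g₁ 1 (Or.inl rfl) zero_le_two hl0 (fun x hx y hy => by
      obtain ⟨s, t, e, ht⟩ := hnear x hx y hy (Or.inl rfl)
      exact ⟨s, t, e, fun _ => ht (by omega)⟩) hd2 hs
    have h2 := hinv _ (by linarith) (not_le.1 fun h => hex ⟨by omega, h⟩).le
    rw [pow_one] at h1 hq0 ⊢
    rw [if_neg (by omega), add_zero]
    nlinarith
  rw [if_pos rfl]
  have hpos : 0 ≤ Sg ^ 4 / H := by positivity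
  by_cases h2τ : 2 ≤ τ
  · by_cases hc2 : c.natDegree ≤ 2
    · have h1 := mu_pack R S g₀ g₁ 2 (Or.inr rfl) zero_le_two hl0 (fun x hx y hy => by
        obtain ⟨s, t, e, -⟩ := hnear x hx y hy (Or.inr ((hd2 x hx y hy).trans h2τ))
        exact ⟨s, t, e, fun h => absurd h (by omega)⟩) hd2 hs
      have h2 := hinv _ (by linarith) (not_le.1 fun h => hex ⟨hc2, h⟩).le
      have h3 : (Sg / √om) ^ 2 ≤ Sg ^ 2 / √om := by
        rw [div_pow]
        gcongr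
        exact le_self_pow₀ hso two_ne_zero
      have h5 : (S.card : ℝ) ≤ (1 + 4 * (Sg / √om)) ^ 2 := h1.trans (by gcongr)
      have h6 : (S.card : ℝ) ≤ 32 * (1 + Sg ^ 2 / √om) := by
        nlinarith [sq_nonneg (1 - 4 * (Sg / √om))]
      refine h6.trans (mul_le_mul (by linarith) (by linarith) (by positivity) (by linarith))
    · have h1 := mu_pack R S g₀ g₁ 1 (Or.inl rfl) zero_le_two hl0 (fun x hx y hy => by
        obtain ⟨s, t, e, ht⟩ := hnear x hx y hy (Or.inr ((hd2 x hx y hy).trans h2τ))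
        exact ⟨s, t, e, fun _ => ht (by omega)⟩) hd2 hs
      have h2 := hinv (1 / n) (by positivity) (by
        rw [div_le_iff₀ (by positivity)]
        linarith)
      rw [pow_one] at h1
      rw [div_div_eq_mul_div, div_one] at h2
      have h3 : (n : ℝ) ≤ n ^ 4 := le_self_pow₀ hn1 (by norm_num)
      have h6 : (S.card : ℝ) ≤ 4 * n * (1 + Sg) := by nlinarith
      refine h6.trans (mul_le_mul (by linarith) (by linarith) (by positivity) (by linarith))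
  · have hρ4 := hρ rfl (by omega)
    have h1 : Cnt (fun x => x ∈ S) ((1 + 2 * 2 / τ) ^ 4 * (1 + 2 * (2 * τ) / l) ^ 2) := by
      refine Cnt.greedy (fun x y => ‖R (up ℚ (x - y))‖ ≤ τ) (fun x _ => by simp [hτ0.le])
        (fun x y _ _ h => by rwa [hsub, map_sub, norm_sub_rev, ← map_sub, ← hsub]) (by positivity)
        (fun S' h1 h2 => mu_pack_top hρ4 R S' hτ0 (fun x hx y hy => hd2 x (h1 x hx) y (h1 y hy))
          fun x hx y hy hxy => (not_le.1 (h2 x hx y hy hxy)).le) fun e he S' hS' => ?_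
      have hsp : ∀ x y : ℤ[X], up ℚ (x - y) = up ℚ (e - y) - up ℚ (e - x) := fun x y => by
        rw [← hsub]
        congr 1
        ring
      refine mu_pack R S' g₀ g₁ 2 (Or.inr rfl) (by positivity) hl0 (fun x hx y hy => ?_)
        (fun x hx y hy => ?_) fun x hx y hy => hs x (hS' x hx).1 y (hS' y hy).1
      · obtain ⟨s, t, e1, -⟩ := hnear e he x (hS' x hx).1 (Or.inr (hS' x hx).2)
        obtain ⟨s', t', e2, -⟩ := hnear e he y (hS' y hy).1 (Or.inr (hS' y hy).2)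
        refine ⟨s' - s, t' - t, ?_, fun h => absurd h (by omega)⟩
        rw [hsp, e1, e2, sub_smul, sub_smul]
        ring
      · rw [hsp, map_sub]
        linarith [norm_sub_le (R (up ℚ (e - y))) (R (up ℚ (e - x))), (hS' x hx).2, (hS' y hy).2]
    have h2 := mu_num hl0 hl2 hτ0 (not_le.1 h2τ).le (h1 S fun _ h => h)
      (mu_pack_top hρ4 R S hl0 hd2 hs)
    have h3 : 32400 / (τ * l) ^ 2 = 32400 * A * (Sg ^ 4 / H) := by
      rw [hτ1]
      field_simp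
    rw [h3, hA] at h2
    exact h2.trans (mul_le_mul hK2 (by linarith) hpos (by linarith))

end Pool.Agent.VW
end

-- part Pool.Agent.P.MP_b0ea37_nt.WMprt
section

namespace Pool.Agent.VW

open Polynomial

/-- a class in which every pair has a good square root -/
theorem WMprt_cls (n d j : ℕ) (hn : n = d + 1 + j) (hj : j = 1 ∨ j = 2) (hn5 : 5 ≤ n)
    (hnd : n ≤ 2 * d) (c : ℤ) (hc : 0 < c) : ∃ K : ℝ, 1 ≤ K ∧
    ∀ (H T P₀ l om : ℝ) (v : ℤ[X]) (Q : Dat → Prop), 1 ≤ H → 1 ≤ T → 0 < l → l ≤ 1 → 1 ≤ om →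
      0 ≤ P₀ → K * (l * H / T) ^ n * H ^ j < P₀ ^ 2 →
      (∀ D, Q D → Fam n d j K H T P₀ om D ∧ D.v = v) →
      (∀ D D', Q D → Q D' → (D.f = D'.f → D = D') ∧ Sq1 d D D' ∧
        (D.f - D'.f).supNorm ≤ l * H ∧ Cl D.v D.f D'.f ∧
        ∃ G, Gd n v c (l ^ 2 * H) D.f D'.f G) →
      Cnt Q (K * mu j H (l * H / T) om) := by
  classical
  obtain ⟨K₁, hK₁, hform⟩ := part_form n d j hn
  obtain ⟨K₂, hK₂, hmult⟩ := mult n j hj hn5 (by omega)
  have hc1 : (1 : ℝ) ≤ c := by exact_mod_cast hc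
  obtain ⟨A, hA⟩ : ∃ A : ℝ, A = 2 * K₁ * c := ⟨_, rfl⟩
  have hA1 : 1 ≤ A := by rw [hA]; nlinarith
  obtain ⟨B, hB⟩ : ∃ B : ℝ, B = (j + n).factorial * (4 ^ n) ^ n := ⟨_, rfl⟩
  have hB1 : 1 ≤ B := by
    have h1 : (1 : ℝ) ≤ (j + n).factorial := by exact_mod_cast Nat.factorial_pos _
    rw [hB]
    exact one_le_mul_of_one_le_of_one_le h1 (one_le_pow₀ (one_le_pow₀ (by norm_num)))
  have hA4 : 1 ≤ A ^ 4 := one_le_pow₀ hA1
  have e1 : K₂ ≤ K₂ * A ^ 4 := le_mul_of_one_le_right (by linarith) hA4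
  have e2 : K₂ * A ^ 4 ≤ K₂ * A ^ 4 * B := le_mul_of_one_le_right (by linarith) hB1
  have e3 : B ≤ K₂ * A ^ 4 * B := le_mul_of_one_le_left (by linarith) (by linarith)
  refine ⟨K₂ * A ^ 4 * B, by linarith, ?_⟩
  intro H T P₀ l om v Q hH hT hl hl1 hom hP hK hQ hQQ
  have hT0 : 0 < T := by linarith
  have hS0 : 0 < l * H / T := by positivity
  have hmu := one_le_mu j (H := H) (om := om) (by linarith) hS0.le
  refine Cnt.of_mem (by positivity) fun D₀ h₀ => ?_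
  choose! G hG using fun D D' h h' => (hQQ D D' h h').2.2.2.2
  obtain ⟨⟨ok₀, irr₀, nq₀, box₀, t₀, t₀', -, exc₀⟩, hv₀⟩ := hQ D₀ h₀
  have hmon : ∀ D, Q D → D.f.Monic ∧ D.f.natDegree = n := fun D h =>
    ⟨(hQ D h).1.1.2.1, (hQ D h).1.1.2.2.1⟩
  have hvok : VOk d v := hv₀ ▸ ok₀.1
  have hv0 : v ≠ 0 := hvok.2.1.ne_zero
  obtain ⟨k, hk⟩ : ∃ k : Dat → ℤ[X], ∀ D, k D = G D D₀ - C c * D₀.f := ⟨_, fun _ => rfl⟩
  have hsep : ∀ D D', Q D → Q D' → up ℚ v ∣ up ℚ (k D - k D') → D = D' := by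
    intro D D' h h' hd
    rw [hk, hk] at hd
    have h1 := part_sep hc.ne' irr₀ hv0 (by rw [hvok.1, box₀.2.1]; omega) (hG D D₀ h h₀).1
      (hG D' D₀ h' h₀).1 hd
    obtain ⟨⟨ok, irr, -, box, t, -, p, -⟩, hv⟩ := hQ D h
    obtain ⟨a1, a2, a3, -⟩ := hQQ D D' h h'
    rcases noc hn (by omega) ok (hQ D' h').1.1 a2 irr (hv ▸ h1) with e | e
    · exact a1 e
    · exfalso
      have b1 : P₀ ^ 2 ≤ (D.P : ℝ) ^ 2 := by gcongr
      have b2 : ((j + n).factorial : ℝ) *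
          (4 ^ n * (D.f - D'.f).supNorm / D.v.supNorm) ^ n * D.f.supNorm ^ j ≤
          (j + n).factorial * (4 ^ n * (l * H) / T) ^ n * H ^ j := by
        have := (D.f - D'.f).supNorm_nonneg
        have := D.f.supNorm_nonneg
        have := D.v.supNorm_nonneg
        have := box.2.2.2
        gcongr
      have b3 : ((j + n).factorial : ℝ) * (4 ^ n * (l * H) / T) ^ n * H ^ j =
          B * (l * H / T) ^ n * H ^ j := by
        rw [hB, mul_div_assoc, mul_pow]; ring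
      have b4 : B * (l * H / T) ^ n * H ^ j ≤ K₂ * A ^ 4 * B * (l * H / T) ^ n * H ^ j := by
        gcongr
      linarith
  intro S hS
  have hcard : (S.image k).card = S.card := Finset.card_image_of_injOn fun x hx y hy e =>
    hsep x y (hS x hx) (hS y hy) (by rw [e, sub_self]; simp)
  have hm := hmult H T (A * (l * H / T)) om D₀.f v (S.image k) hH hT0 (by positivity) hom box₀.1
    box₀.2.1 irr₀ nq₀ box₀.2.2.1 (by rw [hvok.1]; omega) (hv₀ ▸ t₀') (by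
      intro x hx
      obtain ⟨D, hD, rfl⟩ := Finset.mem_image.1 hx
      obtain ⟨b1, b2⟩ := part_size (by omega) hc (hmon D (hS D hD)) (hmon D₀ h₀)
        (hG D D₀ (hS D hD) h₀) (hQQ D D₀ (hS D hD) h₀).2.2.1
      rw [hk]
      refine ⟨b1, b2.trans ?_⟩
      have b3 : A * (l * H / T) * T = K₁ * (2 * c * (l * H)) := by rw [hA]; field_simp
      have b4 : l ^ 2 * H ≤ l * H := by
        have : l ^ 2 ≤ l := by nlinarith
        gcongr
      have b5 : (c : ℝ) * (l ^ 2 * H + l * H) ≤ 2 * c * (l * H) := by nlinarith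
      rw [b3]
      exact b5.trans (le_mul_of_one_le_left (by positivity) hK₁)) (by
      intro x hx y hy
      obtain ⟨D, hD, rfl⟩ := Finset.mem_image.1 hx
      obtain ⟨D', hD', rfl⟩ := Finset.mem_image.1 hy
      have q := hS D hD
      have q' := hS D' hD'
      obtain ⟨W, b1, b2, b3⟩ := hform v D.f D'.f D₀.f _ _ _ c l H T hvok hc hT0 (hv₀ ▸ t₀) hl.le
        hl1 (hmon D q) (hmon D' q') (hmon D₀ h₀) box₀.2.2.2 (hQQ D D₀ q h₀).2.2.1
        (hQQ D' D₀ q' h₀).2.2.1 (hG D D₀ q h₀) (hG D' D₀ q' h₀) (hG D D' q q')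
        ((hQ D q).2 ▸ (hQQ D D' q q').2.2.2.1) ((hQ D q).2 ▸ (hQQ D D₀ q h₀).2.2.2.1)
      rw [hk, hk]
      refine ⟨W, b1, b2.trans ?_, b3⟩
      have : K₁ * c ≤ A := by rw [hA]; nlinarith
      gcongr) (by
      intro x hx y hy e
      obtain ⟨D, hD, rfl⟩ := Finset.mem_image.1 hx
      obtain ⟨D', hD', rfl⟩ := Finset.mem_image.1 hy
      rw [hsep D D' (hS D hD) (hS D' hD') e])
  rcases hm with hm | hm
  · rw [hcard] at hm
    have b1 := mu_mul_le (j := j) (H := H) (om := om) (by omega) (by linarith) hS0.le hA1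
    calc (S.card : ℝ) ≤ K₂ * mu j H (A * (l * H / T)) om := hm
      _ ≤ K₂ * (A ^ 4 * mu j H (l * H / T) om) := by gcongr
      _ = K₂ * A ^ 4 * mu j H (l * H / T) om := by ring
      _ ≤ _ := by gcongr
  · exact absurd (Exc.mono (n := n) (j := j) hm (e1.trans e2) (by linarith) hT0.le (by linarith))
      exc₀

/-- one square class in one cell with fixed signs -/
theorem prt (n d j : ℕ) (hn : n = d + 1 + j) (hj : j = 1 ∨ j = 2) (hn5 : 5 ≤ n) (hnd : n ≤ 2 * d)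
    (ε : ℝ) (hε : 0 < ε) : ∃ c₀ : ℝ, 0 < c₀ ∧ ∃ K : ℝ, 1 ≤ K ∧
    ∀ (Z H T P₀ l om : ℝ) (Q : Dat → Prop), 1 ≤ H → 1 ≤ T → T ≤ Z → 0 < l → l ≤ 1 → 1 ≤ om →
      l ^ 2 * H / T ^ 2 ≤ c₀ → 0 ≤ P₀ → K * (l * H / T) ^ n * H ^ j < P₀ ^ 2 →
      (∀ D, Q D → Fam n d j K H T P₀ om D) →
      (∀ D D', Q D → Q D' → (D.f = D'.f → D = D') ∧ Sq1 d D D' ∧
        (D.f - D'.f).supNorm ≤ l * H ∧ Cl D.v D.f D'.f ∧
        ArchZ n d D.v D.f D'.f (l ^ 2 * H / T ^ 2) (l ^ 2 * H)) →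
      Cnt Q (K * Z ^ ε * mu j H (l * H / T) om) := by
  obtain ⟨m, hm⟩ : ∃ m, m = max n (2 * d - 1) := ⟨_, rfl⟩
  obtain ⟨c, hc⟩ : ∃ c : ℤ, c = 2 * (d.factorial : ℤ) ^ m := ⟨_, rfl⟩
  have hc0 : 0 < c := by
    have := d.factorial_pos
    rw [hc]; positivity
  have hc1 : (1 : ℝ) ≤ c := by exact_mod_cast hc0
  obtain ⟨K₀, hK₀, hcls⟩ := WMprt_cls n d j hn hj hn5 hnd (2 * c ^ 3) (by positivity)
  obtain ⟨Cd, hCd, hdiv⟩ := cnt_divisors (ε / 2) (by positivity)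
  have h2 : (1 : ℝ) ≤ 2 ^ ε := Real.one_le_rpow (by norm_num) hε.le
  have h3 : 1 ≤ Cd * 2 ^ ε := one_le_mul_of_one_le_of_one_le hCd h2
  have h4 : K₀ ≤ K₀ * (Cd * 2 ^ ε) := le_mul_of_one_le_right (by linarith) h3
  refine ⟨1 / (2 * (2 * (c : ℝ) ^ 3) ^ 2), by positivity, K₀ * (Cd * 2 ^ ε), by linarith, ?_⟩
  intro Z H T P₀ l om Q hH hT hZ hl hl1 hom ha hP hK hQ hQQ
  have hT0 : 0 < T := by linarith
  have hZ0 : 0 < Z := by linarith
  have hS0 : 0 < l * H / T := by positivity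
  have hmu := one_le_mu j (H := H) (om := om) (by linarith) hS0.le
  refine Cnt.of_mem (by positivity) fun D₁ h₁ => ?_
  have ha0 : 0 ≤ l ^ 2 * H / T ^ 2 := by positivity
  have ha1 : (2 * (c : ℝ) ^ 3) ^ 2 * (l ^ 2 * H / T ^ 2) < 1 := by
    rw [le_div_iff₀ (by positivity)] at ha
    nlinarith
  have ha2 : (c : ℝ) * (l ^ 2 * H / T ^ 2) < 1 := by
    refine lt_of_le_of_lt (mul_le_mul_of_nonneg_right ?_ ha0) ha1
    have b1 : (c : ℝ) ≤ c ^ 3 := le_self_pow₀ hc1 (by norm_num)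
    have b2 : (2 * (c : ℝ) ^ 3) ≤ (2 * (c : ℝ) ^ 3) ^ 2 := le_self_pow₀ (by linarith) (by norm_num)
    linarith
  have hv : ∀ D, Q D → D.v = D₁.v := fun D h => by
    obtain ⟨κ, hκ, -⟩ := (hQQ D D₁ h h₁).2.1
    exact hκ.1
  have hmon : ∀ D, Q D → D.f.Monic ∧ D.f.natDegree = n := fun D h =>
    ⟨(hQ D h).1.2.1, (hQ D h).1.2.2.1⟩
  have hvok : VOk d D₁.v := (hQ D₁ h₁).1.1
  have hex : ∀ D D', Q D → Q D' → ∃ U, NR D₁.v c D.f D'.f U ∧ U.natDegree ≤ n := by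
    intro D D' h h'
    obtain ⟨-, a2, -, -, a5⟩ := hQQ D D' h h'
    obtain ⟨U, b1, b2, b3⟩ := int_root (m := m) (by omega) (by omega) (by omega) (hQ D h).1
      (hQ D' h').1 a2
    rw [← hc] at b2
    rw [hv D h] at b2 b3 a5
    subst hm
    exact ⟨U, b2, root_deg_le hvok hc0 (hmon D h).2.le (hmon D' h').2.le b2 b1 b3 a5 ha2⟩
  choose! G hG using hex
  have hN : (D₁.v.leadingCoeff ^ 2).natAbs ≠ 0 :=
    Int.natAbs_ne_zero.2 (pow_ne_zero _ hvok.2.2.1.ne')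
  have h5 := Cnt.fibre (P := fun (y : ℕ) (D : Dat) => Q D ∧
      Int.gcd ((G D D₁).coeff n - c) (D₁.v.leadingCoeff ^ 2) = y) (hdiv _ hN)
    (B' := K₀ * mu j H (l * H / T) om) (by positivity) fun y _ =>
      hcls H T P₀ l om D₁.v _ hH hT hl hl1 hom hP (lt_of_le_of_lt (by gcongr) hK)
        (fun D h => ⟨(hQ D h.1).mono h4 (by linarith) hT0.le (by linarith), hv D h.1⟩) (by
          rintro D D' ⟨h, e⟩ ⟨h', e'⟩
          obtain ⟨a1, a2, a3, a4, a5⟩ := hQQ D D' h h'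
          refine ⟨a1, a2, a3, a4, ?_⟩
          have a6 := (hQQ D D₁ h h₁).2.2.2.1
          rw [hv D h] at a4 a5 a6
          exact ysplit (by omega) hnd hvok hc0 (hmon D h) (hmon D' h') (hmon D₁ h₁)
            (hG D D₁ h h₁).1 (hG D' D₁ h' h₁).1 (hG D D' h h').1 (hG D D₁ h h₁).2
            (hG D' D₁ h' h₁).2 (hG D D' h h').2 a4 a6 (e.trans e'.symm) a5 ha0 ha1)
  refine h5.mono (fun D h => ⟨_, Nat.gcd_dvd_right _ _, h, rfl⟩) ?_
  have b1 : |(D₁.v.leadingCoeff : ℝ)| ≤ 2 * Z := by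
    have b2 := D₁.v.le_supNorm D₁.v.natDegree
    have b3 := (hQ D₁ h₁).2.2.2.2.2.1
    rw [Int.norm_eq_abs] at b2
    unfold leadingCoeff
    linarith
  have b2 : (((D₁.v.leadingCoeff ^ 2).natAbs : ℕ) : ℝ) ≤ (2 * Z) ^ 2 := by
    rw [Nat.cast_natAbs]
    push_cast
    rw [abs_pow]
    gcongr
  have b3 : (((D₁.v.leadingCoeff ^ 2).natAbs : ℕ) : ℝ) ^ (ε / 2) ≤ 2 ^ ε * Z ^ ε := by
    calc _ ≤ ((2 * Z) ^ 2) ^ (ε / 2) := Real.rpow_le_rpow (Nat.cast_nonneg _) b2 (by positivity)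
      _ = (2 * Z) ^ ε := by
        rw [← Real.rpow_natCast, ← Real.rpow_mul (by positivity)]
        congr 1
        push_cast
        ring
      _ = _ := Real.mul_rpow (by norm_num) hZ0.le
  calc _ ≤ Cd * (2 ^ ε * Z ^ ε) * (K₀ * mu j H (l * H / T) om) := by gcongr
    _ = _ := by ring

end Pool.Agent.VW
end

-- part Pool.Agent.P.MP_b0ea37_nt.WMlocB
section

namespace Pool.Agent.VW

open Polynomial

lemma WMlocB_eval (g : ℤ[X]) (z : ℂ) : (up ℂ g).eval z = aeval z g := by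
  rw [up, eval_map, aeval_def]; rfl

lemma WMlocB_res {n d : ℕ} {D : Dat} (h : Ok n d D) {η : Fin d → ℂ} (hη : Lst D.v η) :
    ((resultant D.v D.f d n : ℤ) : ℂ) = (D.v.leadingCoeff : ℂ) ^ n * ∏ k, aeval (η k) D.f := by
  have hl : (D.v.leadingCoeff : ℂ) ≠ 0 := by exact_mod_cast h.1.2.2.1.ne'
  have e := resultant_map_map D.v D.f d n (Int.castRingHom ℂ)
  have e2 := resultant_roots (D.v.leadingCoeff : ℂ) hl η (up ℂ D.f) n
    (natDegree_map_le.trans h.2.2.1.le)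
  rw [← hη] at e2
  simp only [WMlocB_eval] at e2
  rw [← e2]
  exact e.symm

lemma WMlocB_resV {d p : ℕ} {v : ℤ[X]} (hv : VOk d v) (hp : p.Prime) {η : Fin d → ℂ}
    (hη : Lst v η) (u : ℤ[X]) :
    ((resultant (Vp d p v) u : ℤ) : ℂ) = ∏ k, aeval (zt d p v (η k)) u := by
  have hd : (Vp d p v).natDegree = d := VV_natDegree _ _ _
  have e := resultant_map_map (Vp d p v) u d u.natDegree (Int.castRingHom ℂ)
  have e2 := resultant_roots (1 : ℂ) one_ne_zero (fun k => zt d p v (η k)) (up ℂ u) u.natDegree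
    natDegree_map_le
  have e3 : up ℂ (Vp d p v) = ∏ k, (X - C (zt d p v (η k))) := hη.roots_Vp hv hp
  rw [C_1, one_mul, ← e3, one_pow, one_mul] at e2
  simp only [WMlocB_eval] at e2
  rw [← e2, hd]
  exact e.symm

theorem Ok.exists_b {n d : ℕ} (hn : 2 ≤ n) {D : Dat} (h : Ok n d D) :
    ∃ b : ℤ, b ≠ 0 ∧ resultant D.v D.f d n = (D.P : ℤ) ^ 2 * b := by
  obtain ⟨b, hb⟩ := res_one_two (M := D.P) h.2.2.2.1.one_le (g := D.v) (h := D.f) (m := d)
    (m' := n) h.1.1.le h.2.2.1.le (by omega) h.2.2.2.2.2.1 h.2.2.2.2.2.2.2.1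
  refine ⟨b, ?_, hb⟩
  rintro rfl
  obtain ⟨η, hη⟩ := exists_lst h.1.1
  have e := WMlocB_res h hη
  have hl : D.v.leadingCoeff ≠ 0 := h.1.2.2.1.ne'
  have hl' : (D.v.leadingCoeff : ℂ) ≠ 0 := by exact_mod_cast hl
  rw [hb, mul_zero, Int.cast_zero] at e
  refine mul_ne_zero (pow_ne_zero _ hl') (Finset.prod_ne_zero_iff.mpr fun k _ => ?_) e.symm
  exact h.2.2.2.2.2.2.2.2 _ ((hη.root_iff (leadingCoeff_ne_zero.mp hl) _).mpr ⟨k, rfl⟩)

theorem loc_norm {n d p : ℕ} (hd : 1 ≤ d) {D : Dat} (h : Ok n d D) (hp : p.Prime) {b N : ℤ}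
    {u : ℤ[X]} (hb : resultant D.v D.f d n = (D.P : ℤ) ^ 2 * b) (hN : ¬ (p : ℤ) ∣ N)
    (hu : Vp d p D.v ∣ C (N ^ 2) * FF n d p D - piP d p D ^ 2 * u) :
    ∃ M : ℤ, ¬ (p : ℤ) ∣ M ∧
      resultant (Vp d p D.v) u ∣ M * (b * (d.factorial : ℤ) ^ (n * d)) := by
  obtain ⟨η, hη⟩ := exists_lst h.1.1
  have hl : D.v.leadingCoeff ≠ 0 := h.1.2.2.1.ne'
  have hz : ∀ k, aeval (η k) D.v = 0 := fun k =>
    (hη.root_iff (leadingCoeff_ne_zero.mp hl) _).mpr ⟨k, rfl⟩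
  have hpp : Prime (p : ℤ) := Nat.prime_iff_prime_int.mp hp
  have k1 : ∀ k, (N : ℂ) ^ 2 * (zt d p D.v (η k) ^ n * aeval (η k) D.f) =
      pz d p D (η k) ^ 2 * aeval (zt d p D.v (η k)) u := by
    intro k
    obtain ⟨w, hw⟩ := hu
    have := congrArg (aeval (zt d p D.v (η k))) hw
    rw [map_mul, aeval_zt_Vp h.1 hp (hz k), zero_mul, map_sub, map_mul, map_mul, aeval_C, map_pow,
      map_pow, aeval_FF h hp (hz k)] at this
    simp only [algebraMap_int_eq, eq_intCast] at this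
    exact sub_eq_zero.mp this
  have k2 := Finset.prod_congr (s₁ := Finset.univ) rfl fun k _ => k1 k
  simp only [Finset.prod_mul_distrib, Finset.prod_pow, Finset.prod_const, Finset.card_univ,
    Fintype.card_fin] at k2
  rw [← WMlocB_resV h.1 hp hη u, hη.prod_zt h.1 hp hd] at k2
  have k3 := WMlocB_res h hη
  rw [hb] at k3
  push_cast at k3
  have k4 : ((N : ℂ) ^ 2) ^ d * (((-1) ^ d * (cc d p D.v : ℂ) ^ (d - 1)) ^ n * ((D.P : ℂ) ^ 2 * b)) =
      (∏ k, pz d p D (η k)) ^ 2 * (resultant (Vp d p D.v) u : ℤ) := by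
    rw [← k2, k3, mul_pow _ (D.v.leadingCoeff : ℂ)]
    ring
  by_cases hP : p = D.P
  · have k5 : ∏ k, pz d p D (η k) = (cc d p D.v : ℂ) ^ (d - 1) * (D.v.eval D.r : ℤ) := by
      have e1 : ∀ k, pz d p D (η k) = zt d p D.v (η k) * (η k - D.r) := fun k => by
        rw [hP]; exact pz_eq h (hz k)
      have e2 : ((D.v.eval D.r : ℤ) : ℂ) = (D.v.leadingCoeff : ℂ) * ∏ k, ((D.r : ℂ) - η k) := by
        have := congrArg (eval (D.r : ℂ)) hη
        rw [eval_mul, eval_C, eval_prod] at this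
        simp only [eval_sub, eval_X, eval_C] at this
        rw [← this, up, eval_intCast_map]
        simp
      have e3 : ∏ k, (η k - D.r) = (-1) ^ d * ∏ k, ((D.r : ℂ) - η k) := by
        have := Finset.prod_neg (s := Finset.univ) fun k => (D.r : ℂ) - η k
        simp only [neg_sub, Finset.card_univ, Fintype.card_fin] at this
        exact this
      have e4 : ((-1 : ℂ)) ^ d * (-1) ^ d = 1 := by rw [← mul_pow]; simp
      simp only [e1]
      rw [Finset.prod_mul_distrib, hη.prod_zt h.1 hp hd, e2, e3]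
      linear_combination ((cc d p D.v : ℂ) ^ (d - 1) * (D.v.leadingCoeff : ℂ) *
        ∏ k, ((D.r : ℂ) - η k)) * e4
    obtain ⟨a, ha⟩ := h.2.2.2.2.2.1
    rw [k5, ha] at k4
    have k6 : (N ^ 2) ^ d * (((-1) ^ d * cc d p D.v ^ (d - 1)) ^ n * ((D.P : ℤ) ^ 2 * b)) =
        (cc d p D.v ^ (d - 1) * (D.P * a)) ^ 2 * resultant (Vp d p D.v) u := by
      exact_mod_cast k4
    have hP0 : (D.P : ℤ) ^ 2 ≠ 0 := pow_ne_zero _ (by exact_mod_cast h.2.2.2.1.ne_zero)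
    have k7 : (N ^ 2) ^ d * (((-1) ^ d * cc d p D.v ^ (d - 1)) ^ n * b) =
        (cc d p D.v ^ (d - 1) * a) ^ 2 * resultant (Vp d p D.v) u :=
      mul_left_cancel₀ hP0 (by linear_combination k6)
    have hc := not_dvd_cc h.1 hp (hP ▸ h.2.2.2.2.1)
    refine ⟨(N ^ 2) ^ d * ((-1) ^ d * cc d p D.v ^ (d - 1)) ^ n, fun hM => ?_, ?_⟩
    · rcases hpp.dvd_or_dvd hM with h1 | h1
      · exact hN (hpp.dvd_of_dvd_pow (hpp.dvd_of_dvd_pow h1))
      · rcases hpp.dvd_or_dvd (hpp.dvd_of_dvd_pow h1) with h2 | h2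
        · exact hpp.not_isUnit (isUnit_of_dvd_unit (hpp.dvd_of_dvd_pow h2) isUnit_one.neg)
        · exact hc (hpp.dvd_of_dvd_pow h2)
    · exact ⟨(cc d p D.v ^ (d - 1) * a) ^ 2 * (d.factorial : ℤ) ^ (n * d), by
        linear_combination (d.factorial : ℤ) ^ (n * d) * k7⟩
  · simp only [pz_of_ne hP, Finset.prod_const_one, one_pow, one_mul] at k4
    have k6 : (N ^ 2) ^ d * (((-1) ^ d * cc d p D.v ^ (d - 1)) ^ n * ((D.P : ℤ) ^ 2 * b)) =
        resultant (Vp d p D.v) u := by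
      exact_mod_cast k4
    obtain ⟨-, -, N0, hN0, hc⟩ := goodT_tt h.1 hp
    change cc d p D.v ∣ _ at hc
    refine ⟨(N ^ 2) ^ d * ((D.P : ℤ) ^ 2 * (N0 ^ (d - 1)) ^ n), fun hM => ?_, ?_⟩
    · rcases hpp.dvd_or_dvd hM with h1 | h1
      · exact hN (hpp.dvd_of_dvd_pow (hpp.dvd_of_dvd_pow h1))
      · rcases hpp.dvd_or_dvd h1 with h2 | h2
        · have := Int.natCast_dvd_natCast.mp (hpp.dvd_of_dvd_pow h2)
          exact hP ((Nat.prime_dvd_prime_iff_eq hp h.2.2.2.1).mp this)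
        · exact hN0 (hpp.dvd_of_dvd_pow (hpp.dvd_of_dvd_pow h2))
    · have d1 : ((-1) ^ d * cc d p D.v ^ (d - 1)) ^ n ∣
          (N0 ^ (d - 1)) ^ n * (d.factorial : ℤ) ^ (n * d) := by
        rw [mul_comm n d, pow_mul, ← mul_pow]
        refine pow_dvd_pow_of_dvd ?_ n
        rw [(isUnit_one.neg.pow d).mul_left_dvd]
        refine (pow_dvd_pow_of_dvd hc _).trans ?_
        rw [mul_pow]
        exact mul_dvd_mul_left _ (pow_dvd_pow _ (by omega))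
      obtain ⟨e, he⟩ := d1
      exact ⟨e, by rw [← k6]; linear_combination (N ^ 2) ^ d * (D.P : ℤ) ^ 2 * b * he⟩

end Pool.Agent.VW
end

-- part Pool.Agent.P.MP_b0ea37_nt.WMpreB
section

namespace Pool.Agent.VW

open Polynomial

/-- the quotient of `ℤ[X]` by `V` and `q` -/
abbrev WMpreBR (q : ℕ) (V : ℤ[X]) : Type := AdjoinRoot (up (ZMod q) V)

noncomputable def wmpreBph (q : ℕ) (V : ℤ[X]) : ℤ[X] →+* WMpreBR q V :=
  (AdjoinRoot.mk (up (ZMod q) V)).comp (mapRingHom (Int.castRingHom (ZMod q)))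

theorem wmpreB_up_surj (q : ℕ) (c : (ZMod q)[X]) : ∃ a : ℤ[X], up (ZMod q) a = c :=
  map_surjective _ (ZMod.ringHom_surjective _) c

theorem wmpreB_surj (q : ℕ) (V : ℤ[X]) (x : WMpreBR q V) : ∃ g, wmpreBph q V g = x := by
  obtain ⟨c, rfl⟩ := AdjoinRoot.mk_surjective x
  obtain ⟨a, rfl⟩ := wmpreB_up_surj q c
  exact ⟨a, rfl⟩

theorem wmpreB_self (q : ℕ) (V : ℤ[X]) : wmpreBph q V V = 0 := AdjoinRoot.mk_self

theorem wmpreB_ker {q : ℕ} {V g : ℤ[X]} (h : wmpreBph q V g = 0) :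
    ∃ a z : ℤ[X], g = V * a + C (q : ℤ) * z := by
  obtain ⟨c, hc⟩ : up (ZMod q) V ∣ up (ZMod q) g := AdjoinRoot.mk_eq_zero.1 h
  obtain ⟨a, rfl⟩ := wmpreB_up_surj q c
  have h1 : up (ZMod q) (g - V * a) = 0 := by
    rw [up, Polynomial.map_sub, Polynomial.map_mul]
    exact sub_eq_zero.2 hc
  obtain ⟨z, hz⟩ : C (q : ℤ) ∣ g - V * a := by
    refine (C_dvd_iff_dvd_coeff _ _).2 fun i => ?_
    have h2 := congrArg (fun r => coeff r i) h1
    simp only [coeff_map, coeff_zero, eq_intCast] at h2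
    exact (ZMod.intCast_zmod_eq_zero_iff_dvd _ _).1 h2
  exact ⟨a, z, by rw [← hz]; ring⟩

theorem wmpreB_card (q : ℕ) {V : ℤ[X]} (hV : V.Monic) :
    Nat.card (WMpreBR q V) = q ^ (up (ZMod q) V).natDegree := by
  have e := (AdjoinRoot.powerBasisAux' (hV.map (Int.castRingHom (ZMod q)))).equivFun
  rw [Nat.card_congr e.toEquiv, Nat.card_fun, Nat.card_zmod, Nat.card_eq_fintype_card,
    Fintype.card_fin]

theorem wmpreB_finite {q : ℕ} (hq : q ≠ 0) {V : ℤ[X]} (hV : V.Monic) : Finite (WMpreBR q V) :=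
  Nat.finite_of_card_ne_zero (by rw [wmpreB_card q hV]; exact pow_ne_zero _ hq)

theorem wmpreB_nil (p β : ℕ) (V : ℤ[X]) (z : WMpreBR (p ^ (β + 1)) V) :
    IsUnit (1 + (p : WMpreBR (p ^ (β + 1)) V) * z) := by
  refine IsNilpotent.isUnit_one_add ⟨β + 1, ?_⟩
  have h1 : ((p ^ (β + 1) : ℕ) : WMpreBR (p ^ (β + 1)) V) = 0 := by
    rw [← map_natCast (algebraMap (ZMod (p ^ (β + 1))) (WMpreBR (p ^ (β + 1)) V)),
      ZMod.natCast_self, map_zero]
  rw [mul_pow, ← Nat.cast_pow, h1, zero_mul]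

theorem wmpreB_C (q p : ℕ) (V : ℤ[X]) : wmpreBph q V (C (p : ℤ)) = p := by
  rw [← map_natCast (wmpreBph q V) p, map_natCast C p]

theorem wmpreB_index {M M' ι : Type} [AddCommGroup M] [AddCommGroup M'] [Fintype ι]
    [DecidableEq ι] (b : Module.Basis ι ℤ M) (b' : Module.Basis ι ℤ M') (f : M' →ₗ[ℤ] M)
    (hf : Function.Injective f) :
    (LinearMap.range f).toAddSubgroup.index = (LinearMap.toMatrix b' b f).det.natAbs := by
  rw [AddSubgroup.index_eq_natAbs_det b _ (b'.map (LinearEquiv.ofInjective f hf)),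
    Module.Basis.det_apply]
  refine congrArg (fun A : Matrix ι ι ℤ => A.det.natAbs) ?_
  ext i j
  rw [Module.Basis.toMatrix_apply, LinearMap.toMatrix_apply]
  rfl

/-- the annihilator is small -/
theorem wmpreB_ann {p β : ℕ} (hp : p.Prime) {V u : ℤ[X]} (hV : V.Monic)
    (hu : ¬ (p : ℤ) ^ (β + 1) ∣ resultant V u) :
    Cnt (fun x : WMpreBR (p ^ (β + 1)) V => x * wmpreBph _ V u = 0) ((p : ℝ) ^ β) := by
  have := wmpreB_finite (pow_ne_zero (β + 1) hp.ne_zero) hV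
  have hR : resultant V u ≠ 0 := fun h => hu (h ▸ dvd_zero _)
  let μ : WMpreBR (p ^ (β + 1)) V →+ WMpreBR (p ^ (β + 1)) V :=
    AddMonoidHom.mulRight (wmpreBph _ V u)
  let s := sylvesterMap V u (le_refl V.natDegree) (le_refl u.natDegree)
  have hs : Function.Injective s := by
    intro x y hxy
    have h1 := adjSylvester_comp_sylveserMap V u (le_refl V.natDegree) (le_refl u.natDegree)
    have h2 := LinearMap.congr_fun h1 x
    have h3 := LinearMap.congr_fun h1 y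
    simp only [LinearMap.comp_apply, LinearMap.smul_apply, LinearMap.id_apply] at h2 h3
    have h4 : resultant V u • x = resultant V u • y := by
      rw [← h2, ← h3]
      exact congrArg _ hxy
    exact smul_right_injective _ hR h4
  have h1 : (LinearMap.range s).toAddSubgroup.index = (resultant V u).natAbs := by
    rw [wmpreB_index (degreeLT.basis ℤ _)
      (((degreeLT.basis ℤ _).prod (degreeLT.basis ℤ _)).reindex finSumFinEquiv) s hs,
      toMatrix_sylvesterMap']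
    rfl
  let ψ : degreeLT ℤ (V.natDegree + u.natDegree) →+ WMpreBR (p ^ (β + 1)) V :=
    (wmpreBph _ V).toAddMonoidHom.comp (degreeLT ℤ _).subtype.toAddMonoidHom
  have hψ : Function.Surjective ψ := by
    intro x
    obtain ⟨g, rfl⟩ := wmpreB_surj _ V x
    refine ⟨⟨g %ₘ V, mem_degreeLT.2 ((degree_modByMonic_lt g hV).trans_le ?_)⟩, ?_⟩
    · rw [degree_eq_natDegree hV.ne_zero]
      exact_mod_cast Nat.le_add_right _ _
    · change wmpreBph _ V (g %ₘ V) = _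
      conv_rhs => rw [← modByMonic_add_div g V, map_add, map_mul, wmpreB_self, zero_mul, add_zero]
  have h2 : (LinearMap.range s).toAddSubgroup ≤ μ.range.comap ψ := by
    rintro _ ⟨x, rfl⟩
    refine ⟨wmpreBph _ V x.1, ?_⟩
    change wmpreBph (p ^ (β + 1)) V x.1 * wmpreBph (p ^ (β + 1)) V u =
      wmpreBph (p ^ (β + 1)) V (V * x.2 + u * x.1)
    rw [map_add, map_mul, map_mul, wmpreB_self, zero_mul, zero_add, mul_comm]
  have h3 : μ.range.index ∣ (resultant V u).natAbs := by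
    rw [← h1, ← AddSubgroup.index_comap_of_surjective μ.range hψ]
    exact AddSubgroup.index_dvd_of_le h2
  have h4 : Nat.card μ.ker = μ.range.index := by
    have e1 := μ.ker.card_mul_index
    have e2 := μ.range.card_mul_index
    rw [AddSubgroup.index_ker, ← e2, mul_comm] at e1
    exact Nat.eq_of_mul_eq_mul_left Nat.card_pos e1
  have h5 : Nat.card μ.ker ∣ p ^ ((β + 1) * (up (ZMod (p ^ (β + 1))) V).natDegree) := by
    rw [pow_mul, ← wmpreB_card _ hV]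
    exact ⟨_, μ.ker.card_mul_index.symm⟩
  obtain ⟨k, -, hk⟩ := (Nat.dvd_prime_pow hp).1 h5
  have h6 : k ≤ β := by
    by_contra hc
    refine hu ((pow_dvd_pow _ (show β + 1 ≤ k by omega)).trans ?_)
    rw [← h4, hk] at h3
    exact_mod_cast Int.natCast_dvd.2 h3
  intro S hS
  have h7 : S.card ≤ Nat.card μ.ker := by
    rw [← Nat.card_eq_finsetCard]
    exact Nat.card_le_card_of_injective (fun x : S => (⟨x.1, hS x.1 x.2⟩ : μ.ker))
      fun x y e => Subtype.ext (congrArg (fun z : μ.ker => z.1) e)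
  rw [hk] at h7
  exact_mod_cast h7.trans (Nat.pow_le_pow_right hp.pos h6)

/-- a multiple in the finite ring is a multiple in the localisation -/
theorem wmpreB_lift {p β : ℕ} (hp : p.Prime) {V u u' : ℤ[X]} (hV : V.Monic)
    (hu : ¬ (p : ℤ) ^ (β + 1) ∣ resultant V u) (x : WMpreBR (p ^ (β + 1)) V)
    (h : wmpreBph _ V u' = x * wmpreBph _ V u) :
    ∃ (N : ℤ) (w : ℤ[X]), ¬ (p : ℤ) ∣ N ∧ V ∣ C N * u' - w * u := by
  have hp' : Prime (p : ℤ) := Nat.prime_iff_prime_int.1 hp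
  by_cases hd : V.natDegree = 0
  · rw [eq_one_of_monic_natDegree_zero hV hd]
    exact ⟨1, 0, hp'.not_dvd_one, one_dvd _⟩
  have hR : resultant V u ≠ 0 := fun h => hu (h ▸ dvd_zero _)
  obtain ⟨g, rfl⟩ := wmpreB_surj _ V x
  obtain ⟨a, z, hz⟩ := wmpreB_ker (q := p ^ (β + 1)) (V := V) (g := u' - g * u)
    (by rw [map_sub, map_mul, h, sub_self])
  obtain ⟨e, m, hm, hem⟩ := WfDvdMonoid.max_power_factor hR hp'.irreducible
  have he : e ≤ β + 1 := by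
    by_contra hc
    exact hu (hem ▸ (pow_dvd_pow _ (by omega)).mul_right m)
  obtain ⟨j, hj⟩ := Nat.exists_eq_add_of_le he
  obtain ⟨s, t, -, -, hst⟩ := exists_mul_add_mul_eq_C_resultant V u le_rfl le_rfl (Or.inl hd)
  rw [hem, C_mul, C_pow] at hst
  rw [Nat.cast_pow, C_pow, hj, pow_add] at hz
  exact ⟨m, C m * g + C (p : ℤ) ^ j * z * t, hm, C m * a + C (p : ℤ) ^ j * z * s, by
    linear_combination C m * hz - C (p : ℤ) ^ j * z * hst⟩

/-- small primes -/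
theorem wmpreB_small {p β : ℕ} (hp : p.Prime) {V : ℤ[X]} (hV : V.Monic) {U : ℝ}
    (hU : Cnt (fun x : WMpreBR (p ^ (β + 1)) V => IsUnit x) U) :
    Cnt (fun _ : WMpreBR (p ^ (β + 1)) V => True) ((p : ℝ) ^ V.natDegree * U) := by
  have := wmpreB_finite hp.ne_zero hV
  have := Fintype.ofFinite (WMpreBR p V)
  choose σ hσ using wmpreB_surj (p ^ (β + 1)) V
  have h1 : Cnt (fun _ : WMpreBR p V => True) ((p : ℝ) ^ V.natDegree) := by
    refine (Cnt.fintype _).mono (fun _ h => h) ?_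
    rw [← Nat.card_eq_fintype_card, wmpreB_card p hV]
    exact_mod_cast Nat.pow_le_pow_right hp.pos natDegree_map_le
  refine (Cnt.fibre (P := fun y x => wmpreBph p V (σ x) = y) h1 hU.nonneg fun y _ => ?_).mono
    (fun x _ => ⟨_, trivial, rfl⟩) le_rfl
  refine Cnt.of_mem hU.nonneg fun x₀ h₀ => hU.inj (fun x => 1 + (x - x₀)) (fun x hx => ?_)
    fun x x' _ _ e => sub_left_injective (add_left_cancel e)
  obtain ⟨a, z, hz⟩ := wmpreB_ker (q := p) (V := V) (g := σ x - σ x₀)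
    (by rw [map_sub, hx, h₀, sub_self])
  have h2 := congrArg (wmpreBph (p ^ (β + 1)) V) hz
  rw [map_sub, hσ, hσ, map_add, map_mul, map_mul, wmpreB_self, zero_mul, zero_add, wmpreB_C] at h2
  show IsUnit (1 + (x - x₀))
  rw [h2]
  exact wmpreB_nil p β V _

theorem wmpreB_unit {p β : ℕ} {V g : ℤ[X]}
    (h : IsCoprime (up (ZMod p) V) (up (ZMod p) g)) : IsUnit (wmpreBph (p ^ (β + 1)) V g) := by
  obtain ⟨s, t, hst⟩ := h
  obtain ⟨t, rfl⟩ := wmpreB_up_surj p t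
  obtain ⟨a, z, hz⟩ := wmpreB_ker (q := p) (V := V) (g := t * g - 1) (by
    refine AdjoinRoot.mk_eq_zero.2 ⟨-s, ?_⟩
    rw [coe_mapRingHom, Polynomial.map_sub, Polynomial.map_mul, Polynomial.map_one]
    linear_combination hst)
  have h2 := congrArg (wmpreBph (p ^ (β + 1)) V) hz
  rw [map_sub, map_mul, map_one, map_add, map_mul, map_mul, wmpreB_self, zero_mul, zero_add,
    wmpreB_C, sub_eq_iff_eq_add'] at h2
  exact isUnit_of_mul_isUnit_right (h2 ▸ wmpreB_nil p β V _)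

theorem wmpreB_shift {p β : ℕ} (hp : p.Prime) {V : ℤ[X]} (hV : V.Monic)
    (x : WMpreBR (p ^ (β + 1)) V) :
    Cnt (fun a : ℕ => a < p ∧ ¬ IsUnit (x + a)) V.natDegree := by
  have := Fact.mk hp
  obtain ⟨g, rfl⟩ := wmpreB_surj _ V x
  let K := AlgebraicClosure (ZMod p)
  have hm : ((up (ZMod p) V).map (algebraMap (ZMod p) K)).Monic := (hV.map _).map _
  refine ((cnt_roots _ hm.ne_zero).rel (fun (a : ℕ) (z : K) => aeval z (up (ZMod p) g) + a = 0)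
    ?_ ?_).mono (fun _ h => h) ?_
  · rintro a ⟨-, ha⟩
    have h1 : ¬ IsCoprime (up (ZMod p) V) (up (ZMod p) (g + C (a : ℤ))) := fun hc => ha (by
      have := wmpreB_unit (β := β) hc
      rwa [map_add, wmpreB_C] at this)
    rw [isCoprime_iff_aeval_ne_zero_of_isAlgClosed (ZMod p) K] at h1
    push Not at h1
    obtain ⟨z, hz1, hz2⟩ := h1
    refine ⟨z, by rwa [eval_map_algebraMap], ?_⟩
    simpa using hz2
  · intro a a' z ha ha' e e'
    exact CharP.natCast_injOn_Iio K p ha.1 ha'.1 (add_left_cancel (e.trans e'.symm))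
  · exact_mod_cast natDegree_map_le.trans natDegree_map_le

/-- large primes -/
theorem wmpreB_large {p β : ℕ} (hp : p.Prime) {V : ℤ[X]} (hV : V.Monic)
    (hd : 2 * V.natDegree < p) {U : ℝ}
    (hU : Cnt (fun x : WMpreBR (p ^ (β + 1)) V => IsUnit x) U) :
    Cnt (fun _ : WMpreBR (p ^ (β + 1)) V => True) (2 * U) := by
  classical
  have hp0 : (0 : ℝ) < p := by exact_mod_cast hp.pos
  have h1 : Cnt (fun a : ℕ => a < p) p :=
    (Cnt.finset (Finset.range p)).mono (fun a ha => Finset.mem_range.2 ha) (by simp)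
  have h2 := Cnt.prod (Q := fun _ (a : ℕ) => a < p) hU hp0.le fun _ _ => h1
  refine (Cnt.double (fun x (y : WMpreBR (p ^ (β + 1)) V × ℕ) => y.1 = x + (y.2 : ℕ))
    (L := p / 2) (B' := 1) (by linarith) zero_le_one h2
    (fun x _ => ?_) fun y _ => Cnt.one fun x x' hx hx' =>
      add_right_cancel (hx.2.symm.trans hx'.2)).mono (fun _ h => h) (le_of_eq (by field_simp))
  refine ⟨((Finset.range p).filter fun a : ℕ => IsUnit (x + a)).image fun a : ℕ => (x + a, a),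
    ?_, ?_⟩
  · rw [Finset.card_image_of_injective _ fun a a' e => congrArg Prod.snd e]
    have e := Finset.card_filter_add_card_filter_not (s := Finset.range p)
      fun a : ℕ => IsUnit (x + a)
    have h3 := wmpreB_shift hp hV x ((Finset.range p).filter fun a : ℕ => ¬ IsUnit (x + a))
      fun a ha => ⟨Finset.mem_range.1 (Finset.mem_filter.1 ha).1, (Finset.mem_filter.1 ha).2⟩
    rw [Finset.card_range] at e
    have e' := congrArg (Nat.cast : ℕ → ℝ) e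
    have hd' : 2 * (V.natDegree : ℝ) < p := by exact_mod_cast hd
    push_cast at e'
    linarith
  · intro y hy
    obtain ⟨a, ha, rfl⟩ := Finset.mem_image.1 hy
    exact ⟨⟨(Finset.mem_filter.1 ha).2, Finset.mem_range.1 (Finset.mem_filter.1 ha).1⟩, rfl⟩

/-- principal ideals of bounded index, any prime -/
theorem pre_bad (d : ℕ) : ∃ K : ℝ, 1 ≤ K ∧ ∀ (p : ℕ) (V : ℤ[X]) (β : ℕ) (S : Finset ℤ[X]),
    p.Prime → V.Monic → V.natDegree = d → (∀ u ∈ S, ¬ (p : ℤ) ^ (β + 1) ∣ resultant V u) →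
    (∀ u ∈ S, ∀ u' ∈ S, Asc p V u u' → u = u') → (S.card : ℝ) ≤ K * (p : ℝ) ^ β := by
  classical
  have hK : (0 : ℝ) ≤ (2 * d) ^ d := by positivity
  refine ⟨2 + (2 * d) ^ d, by linarith, fun p V β S hp hV hd hS hA => ?_⟩
  have := wmpreB_finite (pow_ne_zero (β + 1) hp.ne_zero) hV
  have := Fintype.ofFinite (WMpreBR (p ^ (β + 1)) V)
  obtain ⟨Un, hUn⟩ : ∃ Un : Finset (WMpreBR (p ^ (β + 1)) V), ∀ x, x ∈ Un ↔ IsUnit x :=
    ⟨Finset.univ.filter IsUnit, by simp⟩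
  have hU : Cnt (fun x : WMpreBR (p ^ (β + 1)) V => IsUnit x) Un.card :=
    (Cnt.finset Un).mono (fun x hx => (hUn x).2 hx) le_rfl
  have hU0 : (0 : ℝ) < Un.card := by
    exact_mod_cast Finset.card_pos.2 ⟨1, (hUn 1).2 isUnit_one⟩
  have hp0 : (0 : ℝ) < p := by exact_mod_cast hp.pos
  have hpβ : (0 : ℝ) < (p : ℝ) ^ β := by positivity
  have hall : Cnt (fun _ : WMpreBR (p ^ (β + 1)) V => True) ((2 + (2 * d) ^ d) * Un.card) := by
    rcases Nat.lt_or_ge (2 * d) p with hlt | hge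
    · exact (wmpreB_large hp hV (hd ▸ hlt) hU).mono (fun _ h => h)
        (mul_le_mul_of_nonneg_right (by linarith) hU0.le)
    · refine (wmpreB_small hp hV hU).mono (fun _ h => h) (mul_le_mul_of_nonneg_right ?_ hU0.le)
      have h1 : (p : ℝ) ≤ 2 * d := by exact_mod_cast hge
      have h2 := pow_le_pow_left₀ hp0.le h1 d
      rw [hd]
      linarith
  have key := Cnt.double (P := fun u => u ∈ S)
    (fun u y => ∃ w, IsUnit w ∧ y = w * wmpreBph (p ^ (β + 1)) V u) (L := Un.card / (p : ℝ) ^ β)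
    (B' := 1) (by positivity) zero_le_one hall (fun u hu => ?_) fun y _ => Cnt.one ?_
  · exact (key S fun _ h => h).trans (le_of_eq (by field_simp))
  · refine ⟨Un.image fun w => w * wmpreBph _ V u, ?_, fun y hy => ?_⟩
    · rw [div_le_iff₀ hpβ]
      refine Cnt.fibre (P := fun y w => w * wmpreBph _ V u = y)
        (Cnt.finset (Un.image fun w => w * wmpreBph _ V u)) hpβ.le (fun y _ => ?_) Un
        fun w hw => ⟨_, Finset.mem_image_of_mem _ hw, rfl⟩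
      exact Cnt.of_mem hpβ.le fun w₀ h₀ => (wmpreB_ann hp hV (hS u hu)).inj (fun w => w - w₀)
        (fun w hw => by rw [sub_mul, hw, h₀, sub_self]) fun w w' _ _ e => sub_left_injective e
    · obtain ⟨w, hw, rfl⟩ := Finset.mem_image.1 hy
      exact ⟨trivial, w, (hUn w).1 hw, rfl⟩
  · rintro u u' ⟨hu, w, ⟨w, rfl⟩, e⟩ ⟨hu', w', ⟨w', rfl⟩, e'⟩
    refine hA u hu u' hu' ⟨wmpreB_lift hp hV (hS u hu) (↑w'⁻¹ * ↑w) ?_,
      wmpreB_lift hp hV (hS u' hu') (↑w⁻¹ * ↑w') ?_⟩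
    · rw [mul_assoc, ← e, e', Units.inv_mul_cancel_left]
    · rw [mul_assoc, ← e', e, Units.inv_mul_cancel_left]

end Pool.Agent.VW
end

-- part Pool.Agent.P.MP_b0ea37_nt.WPad
section

namespace Pool.Agent.VW

open Polynomial

variable {p : ℕ} [Fact p.Prime]

theorem WPad_int (z : ℤ) : ‖(z : PadicAlgCl p)‖ = ‖(z : ℚ_[p])‖ := by
  rw [← PadicAlgCl.norm_extends p (z : ℚ_[p])]
  exact congrArg _ (map_intCast (algebraMap ℚ_[p] (PadicAlgCl p)) z).symm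

theorem WPad_rat (q : ℚ) : ‖(q : PadicAlgCl p)‖ = ‖(q : ℚ_[p])‖ := by
  rw [← PadicAlgCl.norm_extends p (q : ℚ_[p])]
  exact congrArg _ (map_ratCast (algebraMap ℚ_[p] (PadicAlgCl p)) q).symm

theorem pn_int_le (z : ℤ) : ‖(z : PadicAlgCl p)‖ ≤ 1 := by
  rw [WPad_int]; exact Padic.norm_int_le_one z

theorem pn_p : ‖(p : PadicAlgCl p)‖ = (p : ℝ)⁻¹ := by
  have h := WPad_int (p := p) (p : ℤ)
  rw [Int.cast_natCast, Int.cast_natCast, Padic.norm_p] at h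
  exact h

theorem pn_int_le_iff (z : ℤ) (k : ℕ) : ‖(z : PadicAlgCl p)‖ ≤ (p : ℝ)⁻¹ ^ k ↔ (p : ℤ) ^ k ∣ z := by
  rw [WPad_int, ← Padic.norm_int_le_pow_iff_dvd, zpow_neg, zpow_natCast, inv_pow]

theorem pn_int_lt_iff (z : ℤ) : ‖(z : PadicAlgCl p)‖ < 1 ↔ (p : ℤ) ∣ z := by
  rw [WPad_int]; exact Padic.norm_intCast_lt_one_iff

theorem pn_int_eq_one (z : ℤ) : ‖(z : PadicAlgCl p)‖ = 1 ↔ ¬ (p : ℤ) ∣ z := by
  rw [← pn_int_lt_iff, not_lt]
  exact ⟨fun h => h.ge, fun h => le_antisymm (pn_int_le z) h⟩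

theorem pn_int_eq {z : ℤ} (hz : z ≠ 0) :
    ‖(z : PadicAlgCl p)‖ = (p : ℝ)⁻¹ ^ padicValInt p z := by
  have h0 : (z : ℚ_[p]) ≠ 0 := Int.cast_ne_zero.2 hz
  rw [WPad_int, Padic.norm_eq_zpow_neg_valuation h0, Padic.valuation_intCast, zpow_neg,
    zpow_natCast, inv_pow]

theorem pn_rat_le_iff (q : ℚ) : ‖(q : PadicAlgCl p)‖ ≤ 1 ↔ ¬ p ∣ q.den := by
  refine ⟨fun h hd => ?_, fun h => by rw [WPad_rat]; exact Padic.norm_rat_le_one h⟩
  have hp : p.Prime := Fact.out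
  have h1 : ‖((q.den : ℤ) : PadicAlgCl p)‖ < 1 :=
    (pn_int_lt_iff _).2 (Int.natCast_dvd_natCast.2 hd)
  have h2 : (q.num : PadicAlgCl p) = (q : PadicAlgCl p) * ((q.den : ℤ) : PadicAlgCl p) := by
    have h3 : (q : PadicAlgCl p) * ((q.den : ℚ) : PadicAlgCl p) = ((q.num : ℚ) : PadicAlgCl p) := by
      rw [← Rat.cast_mul, Rat.mul_den_eq_num]
    rw [Rat.cast_natCast, Rat.cast_intCast] at h3
    rw [Int.cast_natCast, h3]
  have h4 : ‖(q.num : PadicAlgCl p)‖ < 1 := by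
    rw [h2, norm_mul]
    exact mul_lt_one_of_nonneg_of_lt_one_right h (norm_nonneg _) h1
  have h5 : p ∣ q.num.natAbs := Int.natCast_dvd.1 ((pn_int_lt_iff _).1 h4)
  have h6 : p ∣ 1 := by
    have := Nat.dvd_gcd h5 hd
    rwa [q.reduced] at this
  exact hp.one_lt.ne' (Nat.dvd_one.1 h6)

/-- a rational number that is integral at every prime is an integer -/
theorem rat_int_of_den (q : ℚ) (h : ∀ l : ℕ, l.Prime → ¬ l ∣ q.den) : ∃ z : ℤ, q = z := by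
  have h1 : q.den = 1 := by
    by_contra hne
    obtain ⟨l, hl, hd⟩ := Nat.exists_prime_and_dvd hne
    exact h l hl hd
  exact ⟨q.num, (Rat.coe_int_num_of_den_eq_one h1).symm⟩

theorem WPad_sum {ι : Type} (s : Finset ι) (F : ι → PadicAlgCl p) {B : ℝ} (hB : 0 ≤ B)
    (h : ∀ i ∈ s, ‖F i‖ ≤ B) : ‖∑ i ∈ s, F i‖ ≤ B :=
  IsUltrametricDist.norm_sum_le_of_forall_le_of_nonneg hB h

theorem WPad_add {x y : PadicAlgCl p} {B : ℝ} (hx : ‖x‖ ≤ B) (hy : ‖y‖ ≤ B) : ‖x + y‖ ≤ B :=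
  (IsUltrametricDist.norm_add_le_max x y).trans (max_le hx hy)

theorem WPad_mul {x y : PadicAlgCl p} {B : ℝ} (hx : ‖x‖ ≤ 1) (hy : ‖y‖ ≤ B) : ‖x * y‖ ≤ B := by
  rw [norm_mul]
  exact (mul_le_of_le_one_left (norm_nonneg _) hx).trans hy

theorem WPad_pow {x : PadicAlgCl p} (hx : ‖x‖ ≤ 1) (k : ℕ) : ‖x ^ k‖ ≤ 1 := by
  rw [norm_pow]; exact pow_le_one₀ (norm_nonneg _) hx

theorem pn_eval_le (g : (PadicAlgCl p)[X]) (hg : ∀ i, ‖g.coeff i‖ ≤ 1) {z : PadicAlgCl p}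
    (hz : ‖z‖ ≤ 1) : ‖g.eval z‖ ≤ 1 := by
  rw [eval_eq_sum_range]
  exact WPad_sum _ _ zero_le_one fun i _ => WPad_mul (hg i) (WPad_pow hz i)

theorem WPad_pow_sub {z w : PadicAlgCl p} (hz : ‖z‖ ≤ 1) (hw : ‖w‖ ≤ 1) (k : ℕ) :
    ‖z ^ k - w ^ k‖ ≤ ‖z - w‖ := by
  induction k with
  | zero => simp
  | succ k ih =>
    have e : z ^ (k + 1) - w ^ (k + 1) = z * (z ^ k - w ^ k) + w ^ k * (z - w) := by ring
    rw [e]
    exact WPad_add (WPad_mul hz ih) (WPad_mul (WPad_pow hw k) le_rfl)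

theorem pn_eval_sub_le (g : (PadicAlgCl p)[X]) (hg : ∀ i, ‖g.coeff i‖ ≤ 1) {z w : PadicAlgCl p}
    (hz : ‖z‖ ≤ 1) (hw : ‖w‖ ≤ 1) : ‖g.eval z - g.eval w‖ ≤ ‖z - w‖ := by
  rw [eval_eq_sum_range, eval_eq_sum_range, ← Finset.sum_sub_distrib]
  refine WPad_sum _ _ (norm_nonneg _) fun i _ => ?_
  rw [← mul_sub]
  exact WPad_mul (hg i) (WPad_pow_sub hz hw i)

theorem pn_root_le (g : (PadicAlgCl p)[X]) (hg : ∀ i, ‖g.coeff i‖ ≤ 1) (hl : ‖g.leadingCoeff‖ = 1)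
    {z : PadicAlgCl p} (hz : g.eval z = 0) : ‖z‖ ≤ 1 := by
  by_contra hlt
  have h1 : 1 < ‖z‖ := not_le.1 hlt
  have h0 : 0 < ‖z‖ := zero_lt_one.trans h1
  rw [eval_eq_sum_range, Finset.sum_range_succ] at hz
  have e : g.coeff g.natDegree * z ^ g.natDegree =
      -∑ i ∈ Finset.range g.natDegree, g.coeff i * z ^ i := eq_neg_of_add_eq_zero_right hz
  have h2 : ‖∑ i ∈ Finset.range g.natDegree, g.coeff i * z ^ i‖ ≤ ‖z‖ ^ g.natDegree / ‖z‖ := by
    refine WPad_sum _ _ (by positivity) fun i hi => WPad_mul (hg i) ?_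
    rw [norm_pow, le_div_iff₀ h0, ← pow_succ]
    exact pow_le_pow_right₀ h1.le (Finset.mem_range.1 hi)
  have h3 : ‖g.coeff g.natDegree * z ^ g.natDegree‖ = ‖z‖ ^ g.natDegree := by
    rw [norm_mul, norm_pow, coeff_natDegree, hl, one_mul]
  rw [e, norm_neg] at h3
  rw [h3] at h2
  exact absurd h2 (not_le.2 (div_lt_self (by positivity) h1))

theorem WPad_coeff_mul {g h : (PadicAlgCl p)[X]} (hg : ∀ i, ‖g.coeff i‖ ≤ 1)
    (hh : ∀ i, ‖h.coeff i‖ ≤ 1) (k : ℕ) : ‖(g * h).coeff k‖ ≤ 1 := by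
  rw [coeff_mul]
  exact WPad_sum _ _ zero_le_one fun i _ => WPad_mul (hg _) (hh _)

theorem pn_coeff_prod_le {ι : Type} (s : Finset ι) (θ : ι → PadicAlgCl p) (h : ∀ i ∈ s, ‖θ i‖ ≤ 1)
    (k : ℕ) : ‖(∏ i ∈ s, (X - C (θ i))).coeff k‖ ≤ 1 := by
  revert k
  refine Finset.prod_induction (fun i => X - C (θ i)) (fun g => ∀ k, ‖g.coeff k‖ ≤ 1)
    (fun a b ha hb => WPad_coeff_mul ha hb) (fun k => ?_) fun i hi k => ?_
  · rw [coeff_one]; split_ifs <;> simp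
  · rw [coeff_sub, sub_eq_add_neg]
    refine WPad_add ?_ ?_
    · rw [coeff_X]; split_ifs <;> simp
    · rw [norm_neg, coeff_C]
      split_ifs
      · exact h i hi
      · simp

theorem WPad_up_coeff (f : ℤ[X]) (i : ℕ) : ‖(up (PadicAlgCl p) f).coeff i‖ ≤ 1 := by
  rw [coeff_map]; exact pn_int_le _

theorem WPad_up_eval (f : ℤ[X]) (r : ℤ) :
    (up (PadicAlgCl p) f).eval (r : PadicAlgCl p) = ((f.eval r : ℤ) : PadicAlgCl p) :=
  eval_intCast_map (Int.castRingHom (PadicAlgCl p)) f r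

/-- second order vanishing near a weak point -/
theorem pn_eval_wk {r : ℤ} {f : ℤ[X]} (hf : Wk p r f) {z : PadicAlgCl p}
    (hz : ‖z - r‖ ≤ (p : ℝ)⁻¹) : ‖(up (PadicAlgCl p) f).eval z‖ ≤ (p : ℝ)⁻¹ ^ 2 ∧
      ‖(derivative (up (PadicAlgCl p) f)).eval z‖ ≤ (p : ℝ)⁻¹ := by
  have hp : p.Prime := Fact.out
  have hp1 : (p : ℝ)⁻¹ ≤ 1 := inv_le_one_of_one_le₀ (by exact_mod_cast hp.one_le)
  have hp0 : (0 : ℝ) ≤ (p : ℝ)⁻¹ := by positivity
  have hz1 : ‖z‖ ≤ 1 := by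
    have e : z = (z - r) + r := by ring
    rw [e]; exact WPad_add (hz.trans hp1) (pn_int_le r)
  have near : ∀ g : ℤ[X], (p : ℤ) ∣ g.eval r → ‖(up (PadicAlgCl p) g).eval z‖ ≤ (p : ℝ)⁻¹ := by
    intro g hg
    have e : (up (PadicAlgCl p) g).eval z = ((up (PadicAlgCl p) g).eval z -
        (up (PadicAlgCl p) g).eval (r : PadicAlgCl p)) + ((g.eval r : ℤ) : PadicAlgCl p) := by
      rw [WPad_up_eval]; ring
    rw [e]
    refine WPad_add ((pn_eval_sub_le _ (WPad_up_coeff g) hz1 (pn_int_le r)).trans hz) ?_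
    have := (pn_int_le_iff (p := p) (g.eval r) 1).2 (by rwa [pow_one])
    rwa [pow_one] at this
  refine ⟨?_, ?_⟩
  · obtain ⟨g, hg⟩ : X - C r ∣ f - C (f.eval r) := X_sub_C_dvd_sub_C_eval
    have hf' : f = C (f.eval r) + (X - C r) * g := by rw [← hg]; ring
    have hd : (derivative f).eval r = g.eval r := by
      have h1 : derivative f = g + (X - C r) * derivative g := by
        have h2 := congrArg derivative hg
        simpa using h2
      rw [h1]; simp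
    have e : (up (PadicAlgCl p) f).eval z =
        ((f.eval r : ℤ) : PadicAlgCl p) + (z - r) * (up (PadicAlgCl p) g).eval z := by
      have h3 := congrArg (fun u => (up (PadicAlgCl p) u).eval z) hf'
      simpa using h3
    rw [e]
    refine WPad_add ((pn_int_le_iff _ 2).2 hf.1) ?_
    rw [norm_mul, pow_two]
    exact mul_le_mul hz (near g (hd ▸ hf.2)) (norm_nonneg _) hp0
  · rw [derivative_map]
    exact near _ hf.2

theorem pn_gal (σ : PadicAlgCl p ≃ₐ[ℚ_[p]] PadicAlgCl p) (x : PadicAlgCl p) : ‖σ x‖ = ‖x‖ :=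
  (spectralNorm_eq_of_equiv σ x).symm

theorem exists_padic_of_fixed {x : PadicAlgCl p}
    (h : ∀ σ : PadicAlgCl p ≃ₐ[ℚ_[p]] PadicAlgCl p, σ x = x) :
    ∃ y : ℚ_[p], algebraMap ℚ_[p] (PadicAlgCl p) y = x :=
  (InfiniteGalois.mem_range_algebraMap_iff_fixed x).2 h

theorem exists_int_near {x : PadicAlgCl p} (h : ∀ σ : PadicAlgCl p ≃ₐ[ℚ_[p]] PadicAlgCl p, σ x = x)
    (hx : ‖x‖ ≤ 1) (k : ℕ) : ∃ r : ℤ, ‖x - r‖ ≤ (p : ℝ)⁻¹ ^ k := by
  obtain ⟨y, rfl⟩ := exists_padic_of_fixed h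
  rw [PadicAlgCl.norm_extends] at hx
  obtain ⟨w, rfl⟩ : ∃ w : ℤ_[p], (w : ℚ_[p]) = y := ⟨⟨y, hx⟩, rfl⟩
  refine ⟨PadicInt.appr w k, ?_⟩
  have h1 := (PadicInt.norm_le_pow_iff_mem_span_pow _ k).2 (PadicInt.appr_spec k w)
  rw [zpow_neg, zpow_natCast, ← inv_pow, PadicInt.norm_def, PadicInt.coe_sub,
    PadicInt.coe_natCast] at h1
  rwa [Int.cast_natCast, ← map_natCast (algebraMap ℚ_[p] (PadicAlgCl p)), ← map_sub,
    PadicAlgCl.norm_extends]

theorem pn_fixed {x : PadicAlgCl p} (h : ∀ σ : PadicAlgCl p ≃ₐ[ℚ_[p]] PadicAlgCl p, σ x = x)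
    (hx : x ≠ 0) : ∃ k : ℤ, ‖x‖ = (p : ℝ) ^ k := by
  obtain ⟨y, rfl⟩ := exists_padic_of_fixed h
  rw [PadicAlgCl.norm_extends]
  exact ⟨_, Padic.norm_eq_zpow_neg_valuation fun e => hx (by rw [e, map_zero])⟩

theorem gal_perm {n : ℕ} {f : ℤ[X]} {θ : Fin n → PadicAlgCl p} (h : Roots (up (PadicAlgCl p) f) θ)
    (hθ : Function.Injective θ) (σ : PadicAlgCl p ≃ₐ[ℚ_[p]] PadicAlgCl p) :
    ∃ π : Equiv.Perm (Fin n), ∀ i, σ (θ i) = θ (π i) := by
  have h1 : ∀ z : PadicAlgCl p, f.eval₂ (Int.castRingHom _) z = 0 ↔ ∃ j, z = θ j := fun z => by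
    have e : f.map (Int.castRingHom _) = ∏ i, (X - C (θ i)) := h
    rw [eval₂_eq_eval_map, e, eval_prod, Finset.prod_eq_zero_iff]
    simp only [Finset.mem_univ, true_and, eval_sub, eval_X, eval_C, sub_eq_zero]
  have h2 : ∀ i, ∃ j, σ (θ i) = θ j := fun i => (h1 _).1 (by
    have := hom_eval₂ f (Int.castRingHom _) (σ : PadicAlgCl p →+* PadicAlgCl p) (θ i)
    rw [(h1 _).2 ⟨i, rfl⟩, map_zero, RingHom.ext_int (RingHom.comp _ _) (Int.castRingHom _)] at this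
    exact this.symm)
  choose π hπ using h2
  have h3 : Function.Injective π := fun i j e =>
    hθ (σ.injective (by rw [hπ, hπ, e]))
  exact ⟨Equiv.ofBijective π (Finite.injective_iff_bijective.1 h3), hπ⟩

/-- values at a root of a polynomial of degree `d` have norm in `p ^ (ℤ / d!)` -/
theorem pn_value {v : ℚ[X]} (hv : v ≠ 0) {d : ℕ} (hd : v.natDegree ≤ d) {z : PadicAlgCl p}
    (hz : aeval z v = 0) (y : ℚ[X]) (hy : aeval z y ≠ 0) :
    ∃ k : ℤ, ‖aeval z y‖ ^ d.factorial = (p : ℝ) ^ k := by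
  have hi : ∀ x : PadicAlgCl p, IsIntegral ℚ_[p] x := fun x =>
    (Algebra.IsAlgebraic.isAlgebraic x).isIntegral
  have h1 : aeval z y ∈ IntermediateField.adjoin ℚ_[p] {z} := by
    rw [← aeval_map_algebraMap ℚ_[p] z y]
    exact IntermediateField.algebra_adjoin_le_adjoin _ _ (aeval_mem_adjoin_singleton _ _)
  generalize aeval z y = x at hy h1
  have := IntermediateField.adjoin.finiteDimensional (hi z)
  have h2 : (minpoly ℚ_[p] z).natDegree ≤ d := by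
    refine le_trans (natDegree_le_of_dvd (minpoly.dvd ℚ_[p] z (p := v.map (algebraMap ℚ ℚ_[p]))
      (by rw [aeval_map_algebraMap, hz])) (Polynomial.map_ne_zero hv)) ?_
    rwa [natDegree_map]
  have h3 : (minpoly ℚ_[p] x).natDegree ≤ d := by
    have h4 := minpoly.natDegree_le (A := ℚ_[p]) (⟨x, h1⟩ : IntermediateField.adjoin ℚ_[p] {z})
    rw [IntermediateField.minpoly_eq, IntermediateField.adjoin.finrank (hi z)] at h4
    exact h4.trans h2
  have h4 := minpoly.natDegree_pos (hi x)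
  obtain ⟨m, hm⟩ := Nat.dvd_factorial h4 h3
  refine ⟨-((minpoly ℚ_[p] x).coeff 0).valuation * m, ?_⟩
  rw [hm, pow_mul, ← PadicAlgCl.spectralNorm_eq,
    spectralNorm.spectralNorm_eq_norm_coeff_zero_rpow, one_div,
    Real.rpow_inv_natCast_pow (norm_nonneg _) h4.ne',
    Padic.norm_eq_zpow_neg_valuation (minpoly.coeff_zero_ne_zero (hi x) hy), zpow_mul,
    zpow_natCast]

/-- reduction to the residue field -/
theorem exists_residue (p : ℕ) [Fact p.Prime] : ∃ (O : Subring (PadicAlgCl p)) (k : Type)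
    (_ : Field k) (_ : CharP k p) (φ : O →+* k), (∀ x, x ∈ O ↔ ‖x‖ ≤ 1) ∧
      ∀ x : O, φ x = 0 ↔ ‖(x : PadicAlgCl p)‖ < 1 := by
  let v : Valuation (PadicAlgCl p) NNReal := Valued.v
  have h1 : ∀ x : v.integer, IsLocalRing.residue v.integer x = 0 ↔ ‖(x : PadicAlgCl p)‖ < 1 :=
    fun x => (IsLocalRing.residue_eq_zero_iff x).trans
      Valuation.Integer.not_isUnit_iff_valuation_lt_one
  refine ⟨v.integer, IsLocalRing.ResidueField v.integer, inferInstance, ?_,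
    IsLocalRing.residue _, fun x => Iff.rfl, h1⟩
  rw [CharP.charP_iff_prime_eq_zero (Fact.out : p.Prime), ← map_natCast (IsLocalRing.residue _),
    h1, SubringClass.coe_natCast, ← map_natCast (algebraMap ℚ_[p] (PadicAlgCl p)),
    PadicAlgCl.norm_extends]
  exact Padic.norm_p_lt_one

end Pool.Agent.VW
end

-- part Pool.Agent.P.MP_b0ea37_nt.WMpreG
section

namespace Pool.Agent.VW

open Polynomial

section aux

variable {p : ℕ} [Fact p.Prime] {d : ℕ} {V : ℤ[X]} {θ : Fin d → PadicAlgCl p}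

theorem wmpreg_coeff (u : ℤ[X]) (i : ℕ) : ‖(up (PadicAlgCl p) u).coeff i‖ ≤ 1 := by
  rw [up, coeff_map]
  exact pn_int_le _

theorem wmpreg_root (hV : V.Monic) (hθ : Roots (up (PadicAlgCl p) V) θ) (k : Fin d) :
    ‖θ k‖ ≤ 1 :=
  pn_root_le _ (wmpreg_coeff V) (by rw [(hV.map _).leadingCoeff, norm_one])
    ((hθ.eval_eq_zero_iff _).2 ⟨k, rfl⟩)

theorem wmpreg_res (hθ : Roots (up (PadicAlgCl p) V) θ) (u : ℤ[X]) (m : ℕ)
    (hm : u.natDegree ≤ m) :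
    ((resultant V u d m : ℤ) : PadicAlgCl p) = ∏ k, (up (PadicAlgCl p) u).eval (θ k) := by
  have h1 := resultant_map_map V u d m (Int.castRingHom (PadicAlgCl p))
  have h2 := resultant_roots (1 : PadicAlgCl p) one_ne_zero θ (up (PadicAlgCl p) u) m
    (natDegree_map_le.trans hm)
  rw [C_1, one_mul, one_pow, one_mul, ← hθ] at h2
  rw [← h2]
  exact h1.symm

theorem wmpreg_le (hV : V.Monic) (hθ : Roots (up (PadicAlgCl p) V) θ) (u : ℤ[X]) (m : ℕ)
    (hm : u.natDegree ≤ m) (k : Fin d) :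
    ‖((resultant V u d m : ℤ) : PadicAlgCl p)‖ ≤ ‖(up (PadicAlgCl p) u).eval (θ k)‖ := by
  rw [wmpreg_res hθ u m hm, norm_prod]
  have := Finset.prod_le_prod_of_subset_of_le_one (s := {k}) (t := Finset.univ)
    (f := fun k => ‖(up (PadicAlgCl p) u).eval (θ k)‖) (Finset.subset_univ _)
    (fun _ _ => norm_nonneg _) fun i _ _ => pn_eval_le _ (wmpreg_coeff u) (wmpreg_root hV hθ i)
  rwa [Finset.prod_singleton] at this

theorem wmpreg_sep (hV : V.Monic) (hd : V.natDegree = d) (hθ : Roots (up (PadicAlgCl p) V) θ)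
    (hg : ¬ (p : ℤ) ∣ resultant V (derivative V) d (d - 1)) (k : Fin d) :
    1 ≤ ‖∏ j ∈ Finset.univ.erase k, (θ k - θ j)‖ := by
  have h1 := wmpreg_le hV hθ (derivative V) (d - 1) (hd ▸ natDegree_derivative_le V) k
  rw [(pn_int_eq_one _).2 hg] at h1
  have h2 : up (PadicAlgCl p) (derivative V) = derivative (Lagrange.nodal Finset.univ θ) := by
    rw [up, ← derivative_map]
    exact congrArg derivative hθ
  rwa [h2, Lagrange.eval_nodal_derivative_eval_node_eq (Finset.mem_univ k),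
    Lagrange.eval_nodal] at h1

theorem wmpreg_lag (h1 : ∀ k, ‖θ k‖ ≤ 1)
    (h2 : ∀ k, 1 ≤ ‖∏ j ∈ Finset.univ.erase k, (θ k - θ j)‖) (w : (PadicAlgCl p)[X])
    (hw : w.degree < d) {ρ : ℝ} (hρ : 0 ≤ ρ) (h : ∀ k, ‖w.eval (θ k)‖ ≤ ρ) (i : ℕ) :
    ‖w.coeff i‖ ≤ ρ := by
  have hinj : Set.InjOn θ (Finset.univ : Finset (Fin d)) := by
    intro k _ j _ e
    by_contra hne
    have := h2 k
    rw [Finset.prod_eq_zero (i := j) (Finset.mem_erase.2 ⟨Ne.symm hne, Finset.mem_univ j⟩)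
      (sub_eq_zero.2 e), norm_zero] at this
    linarith
  rw [Lagrange.eq_interpolate hinj (f := w) (by simpa using hw), Lagrange.interpolate_eq_sum,
    finsetSum_coeff]
  refine IsUltrametricDist.norm_sum_le_of_forall_le_of_nonneg hρ fun k _ => ?_
  rw [coeff_C_mul, norm_mul, norm_div]
  exact (mul_le_of_le_one_right (by positivity) (pn_coeff_prod_le _ _ (fun j _ => h1 j) i)).trans
    ((div_le_self (norm_nonneg _) (h2 k)).trans (h k))

theorem wmpreg_asc (hV : V.Monic) (hd : V.natDegree = d) (hθ : Roots (up (PadicAlgCl p) V) θ)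
    (hg : ¬ (p : ℤ) ∣ resultant V (derivative V) d (d - 1)) {u u' : ℤ[X]}
    (hu : resultant V u ≠ 0)
    (h : ∀ k, ‖(up (PadicAlgCl p) u').eval (θ k)‖ ≤ ‖(up (PadicAlgCl p) u).eval (θ k)‖) :
    ∃ (N : ℤ) (w : ℤ[X]), ¬ (p : ℤ) ∣ N ∧ V ∣ C N * u' - w * u := by
  have hp : p.Prime := Fact.out
  by_cases h0 : V.natDegree = 0
  · rw [eq_one_of_monic_natDegree_zero hV h0]
    exact ⟨1, 0, fun e => hp.one_lt.ne' (by exact_mod_cast Int.eq_one_of_dvd_one (by positivity) e),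
      one_dvd _⟩
  obtain ⟨a, b, -, -, hab⟩ := exists_mul_add_mul_eq_C_resultant V u le_rfl le_rfl (Or.inl h0)
  set R := resultant V u with hR
  have hdv : V ∣ C R * u' - ((b * u') %ₘ V) * u := by
    refine ⟨a * u' + ((b * u') /ₘ V) * u, ?_⟩
    have := modByMonic_add_div (b * u') V
    linear_combination (-u') * hab - u * this
  have hR0 : 0 < ‖(R : PadicAlgCl p)‖ := norm_pos_iff.2 (by exact_mod_cast hu)
  have hw : ∀ k, ‖(up (PadicAlgCl p) ((b * u') %ₘ V)).eval (θ k)‖ ≤ ‖(R : PadicAlgCl p)‖ := by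
    intro k
    have h1 : ‖(R : PadicAlgCl p)‖ ≤ ‖(up (PadicAlgCl p) u).eval (θ k)‖ := by
      have := wmpreg_le hV hθ u u.natDegree le_rfl k
      rwa [← hd] at this
    obtain ⟨c, hc⟩ := hdv
    have h2 := congrArg (fun g => (up (PadicAlgCl p) g).eval (θ k)) hc
    simp only [up, Polynomial.map_sub, Polynomial.map_mul, map_C, eval_sub, eval_mul,
      eval_C] at h2
    rw [eq_intCast] at h2
    have h3 : (map (Int.castRingHom (PadicAlgCl p)) V).eval (θ k) = 0 :=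
      (hθ.eval_eq_zero_iff _).2 ⟨k, rfl⟩
    rw [h3, zero_mul, sub_eq_zero] at h2
    have h4 := congrArg norm h2
    rw [norm_mul, norm_mul] at h4
    refine le_of_mul_le_mul_right ?_ (hR0.trans_le h1)
    rw [← h4]
    exact mul_le_mul_of_nonneg_left (h k) hR0.le
  have hdeg : (up (PadicAlgCl p) ((b * u') %ₘ V)).degree < d := by
    refine degree_map_le.trans_lt ?_
    rw [← hd, ← degree_eq_natDegree hV.ne_zero]
    exact degree_modByMonic_lt _ hV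
  have hco : C ((p : ℤ) ^ padicValInt p R) ∣ (b * u') %ₘ V := by
    refine (C_dvd_iff_dvd_coeff _ _).2 fun i => ?_
    have := wmpreg_lag (wmpreg_root hV hθ) (wmpreg_sep hV hd hθ hg) _ hdeg hR0.le hw i
    rw [pn_int_eq hu, up, coeff_map, eq_intCast] at this
    exact (pn_int_le_iff _ _).1 this
  obtain ⟨w, hw'⟩ := hco
  obtain ⟨N, hN⟩ := padicValInt_dvd (p := p) R
  refine ⟨N, w, fun e => ?_, ?_⟩
  · have h1 : (p : ℤ) ^ (padicValInt p R + 1) ∣ R := by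
      rw [pow_succ]
      exact (mul_dvd_mul_left _ e).trans (dvd_of_eq hN.symm)
    rcases (padicValInt_dvd_iff _ _).1 h1 with h2 | h2
    · exact hu h2
    · omega
  · have h1 : V ∣ ((p : ℤ) ^ padicValInt p R) • (C N * u' - w * u) := by
      refine hdv.trans (dvd_of_eq ?_)
      rw [hw', ← C_mul']
      nth_rewrite 1 [hN]
      rw [C_mul]
      ring
    rw [← modByMonic_eq_zero_iff_dvd hV, smul_modByMonic, smul_eq_zero] at h1
    rw [← modByMonic_eq_zero_iff_dvd hV]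
    exact h1.resolve_left (pow_ne_zero _ (by exact_mod_cast hp.ne_zero))

theorem wmpreg_val (hV : V.Monic) (hd : V.natDegree = d) (hθ : Roots (up (PadicAlgCl p) V) θ)
    {β : ℕ} {u : ℤ[X]} (hu : ¬ (p : ℤ) ^ (β + 1) ∣ resultant V u) (k : Fin d) :
    ∃ a : ℕ, a ≤ d.factorial * β ∧
      ‖(up (PadicAlgCl p) u).eval (θ k)‖ ^ d.factorial = (p : ℝ)⁻¹ ^ a := by
  have hp : p.Prime := Fact.out
  have hp1 : (1 : ℝ) < p := by exact_mod_cast hp.one_lt
  have hR : resultant V u ≠ 0 := fun e => hu (e ▸ dvd_zero _)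
  have h1 : ‖((resultant V u : ℤ) : PadicAlgCl p)‖ ≤ ‖(up (PadicAlgCl p) u).eval (θ k)‖ := by
    have := wmpreg_le hV hθ u u.natDegree le_rfl k
    rwa [← hd] at this
  have h2 : padicValInt p (resultant V u) ≤ β := by
    by_contra hlt
    exact hu ((pow_dvd_pow _ (by omega)).trans (padicValInt_dvd _))
  have h3 : (p : ℝ)⁻¹ ^ β ≤ ‖(up (PadicAlgCl p) u).eval (θ k)‖ := by
    refine le_trans ?_ h1
    rw [pn_int_eq hR]
    exact pow_le_pow_of_le_one (by positivity) (inv_le_one_of_one_le₀ hp1.le) h2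
  have hq : ∀ g : ℤ[X], aeval (θ k) (up ℚ g) = (up (PadicAlgCl p) g).eval (θ k) := fun g => by
    rw [up, up, eval_map, aeval_def, eval₂_map]
    exact congrArg (fun φ => eval₂ φ (θ k) g) (RingHom.ext_int _ _)
  obtain ⟨e, he⟩ := pn_value (p := p) (v := up ℚ V) (hV.map _).ne_zero (d := d)
    (natDegree_map_le.trans hd.le) (z := θ k)
    (by rw [hq]; exact (hθ.eval_eq_zero_iff _).2 ⟨k, rfl⟩) (up ℚ u) (by
      rw [hq, ← norm_pos_iff]
      exact lt_of_lt_of_le (by positivity) h3)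
  rw [hq] at he
  have h4 : (p : ℝ) ^ e ≤ (p : ℝ) ^ (0 : ℤ) := by
    rw [← he, zpow_zero]
    exact pow_le_one₀ (norm_nonneg _) (pn_eval_le _ (wmpreg_coeff u) (wmpreg_root hV hθ k))
  have h5 : (p : ℝ) ^ (-((d.factorial * β : ℕ) : ℤ)) ≤ (p : ℝ) ^ e := by
    rw [← he, zpow_neg, zpow_natCast, ← inv_pow, mul_comm, pow_mul]
    exact pow_le_pow_left₀ (by positivity) h3 _
  rw [zpow_le_zpow_iff_right₀ hp1] at h4 h5
  refine ⟨(-e).toNat, by omega, ?_⟩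
  rw [he, inv_pow, ← zpow_natCast, ← zpow_neg, Int.toNat_of_nonneg (by omega), neg_neg]

end aux

/-- principal ideals of bounded index, unramified prime -/
theorem pre_good (d p : ℕ) (V : ℤ[X]) (β : ℕ) (S : Finset ℤ[X]) (hp : p.Prime) (hV : V.Monic)
    (hd : V.natDegree = d) (hg : ¬ (p : ℤ) ∣ resultant V (derivative V) d (d - 1))
    (hS : ∀ u ∈ S, ¬ (p : ℤ) ^ (β + 1) ∣ resultant V u)
    (h : ∀ u ∈ S, ∀ u' ∈ S, Asc p V u u' → u = u') :
    (S.card : ℝ) ≤ ((d.factorial : ℝ) * β + 1) ^ d := by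
  have : Fact p.Prime := ⟨hp⟩
  obtain ⟨θ, hθ⟩ := exists_roots (n := d) (up (PadicAlgCl p) V) (hV.map _)
    (by rw [hV.natDegree_map, hd])
  have h1 := Cnt.pi (ι := Fin d) (P := fun _ (a : ℕ) => (a : ℝ) ≤ (d.factorial : ℝ) * β)
    fun _ => cnt_nat_le _ (by positivity)
  rw [Finset.prod_const, Finset.card_univ, Fintype.card_fin] at h1
  refine h1.rel (P := fun u => u ∈ S) (fun u a => ∀ k,
    ‖(up (PadicAlgCl p) u).eval (θ k)‖ ^ d.factorial = (p : ℝ)⁻¹ ^ a k) (fun u hu => ?_)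
    (fun u u' a hu hu' e e' => ?_) S fun _ hx => hx
  · choose a ha ha' using wmpreg_val hV hd hθ (hS u hu)
    exact ⟨a, fun k => by exact_mod_cast ha k, ha'⟩
  · have h2 : ∀ k, ‖(up (PadicAlgCl p) u).eval (θ k)‖ = ‖(up (PadicAlgCl p) u').eval (θ k)‖ :=
      fun k => (pow_left_inj₀ (norm_nonneg _) (norm_nonneg _) d.factorial_ne_zero).1
        ((e k).trans (e' k).symm)
    exact h u hu u' hu'
      ⟨wmpreg_asc hV hd hθ hg (fun e => hS u hu (e ▸ dvd_zero _)) fun k => (h2 k).ge,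
        wmpreg_asc hV hd hθ hg (fun e => hS u' hu' (e ▸ dvd_zero _)) fun k => (h2 k).le⟩

end Pool.Agent.VW
end

-- part Pool.Agent.P.MP_b0ea37_nt.WMpreN
section

namespace Pool.Agent.VW

open Polynomial

theorem WMpreN_sep {d : ℕ} {v : ℤ[X]} (hv : VOk d v) (t : ℤ) (hc : v.eval t ≠ 0) :
    (up ℂ (VV d t v)).Separable := by
  obtain ⟨η, hη⟩ := exists_lst hv.1
  have hv0 : v ≠ 0 := hv.2.1.ne_zero
  have hinj := hη.injective hv
  have hc' : ((v.eval t : ℤ) : ℂ) ≠ 0 := Int.cast_ne_zero.2 hc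
  have hroot : ∀ k, aeval (η k) v = 0 := fun k => (hη.root_iff hv0 _).2 ⟨k, rfl⟩
  have hne : ∀ k, η k - (t : ℂ) ≠ 0 := by
    intro k h
    have h1 := hroot k
    rw [sub_eq_zero.1 h, ← eq_intCast (algebraMap ℤ ℂ), aeval_algebraMap_apply_eq_algebraMap_eval,
      eq_intCast] at h1
    exact hc' h1
  have hz : Function.Injective fun k => ((v.eval t : ℤ) : ℂ) / (η k - t) := by
    intro k j h
    have h1 := (div_eq_div_iff (hne k) (hne j)).1 h
    exact hinj (sub_left_injective (mul_left_cancel₀ hc' h1)).symm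
  have hm : (up ℂ (VV d t v)).Monic := (VV_monic d t v).map _
  have hd : (up ℂ (VV d t v)).natDegree = d := by
    rw [(VV_monic d t v).natDegree_map, VV_natDegree]
  have hm' : (∏ k, (X - C (((v.eval t : ℤ) : ℂ) / (η k - t)))).Monic :=
    monic_prod_of_monic _ _ fun k _ => monic_X_sub_C _
  have hd' : (∏ k, (X - C (((v.eval t : ℤ) : ℂ) / (η k - t)))).natDegree = d := by
    rw [natDegree_prod_of_monic _ _ fun k _ => monic_X_sub_C _]
    simp only [natDegree_X_sub_C, Finset.sum_const, Finset.card_univ, Fintype.card_fin,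
      smul_eq_mul, mul_one]
  have e : up ℂ (VV d t v) = ∏ k, (X - C (((v.eval t : ℤ) : ℂ) / (η k - t))) := by
    refine eq_of_degree_sub_lt_of_eval_index_eq Finset.univ hz.injOn ?_ fun k _ => ?_
    · have h1 : (up ℂ (VV d t v)).degree = d := by rw [degree_eq_natDegree hm.ne_zero, hd]
      rw [Finset.card_univ, Fintype.card_fin, ← h1]
      exact degree_sub_lt_left (by rw [h1, degree_eq_natDegree hm'.ne_zero, hd']) hm.ne_zero
        (by rw [hm.leadingCoeff, hm'.leadingCoeff])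
    · have h1 := aeval_Tw (S := ℂ) (k := d) (t := t) (c := v.eval t) (g := v) hv.1.le
        (x := η k) (y := ((v.eval t : ℤ) : ℂ) / (η k - t)) (mul_div_cancel₀ _ (hne k))
      rw [hroot, mul_zero, ← C_mul_VV, map_mul, aeval_C, eq_intCast] at h1
      have h2 := (mul_eq_zero.1 h1).resolve_left hc'
      rw [eval_prod, Finset.prod_eq_zero (Finset.mem_univ k) (by simp)]
      rw [eval_map]
      exact h2
  rw [e]
  exact separable_prod_X_sub_C_iff.2 hz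

theorem Nv_ne_zero {d : ℕ} (hd : 1 ≤ d) {v : ℤ[X]} (hv : VOk d v) : Nv d v ≠ 0 := by
  have _ := hd
  unfold Nv
  refine Finset.prod_ne_zero_iff.2 fun t ht => Int.natAbs_ne_zero.2 fun h0 => ?_
  have h1 := resultant_ne_zero _ _ (WMpreN_sep hv t (Finset.mem_filter.1 ht).2)
  have h2 : (up ℂ (VV d t v)).natDegree = d := by
    rw [(VV_monic d t v).natDegree_map, VV_natDegree]
  rw [natDegree_derivative, h2, derivative_map, resultant_map_map, h0, map_zero] at h1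
  exact h1 rfl

theorem WMpreN_taylor {d : ℕ} {v : ℤ[X]} (hv : v.natDegree = d) {t : ℕ} (ht : t < d + 1) (i : ℕ) :
    ‖(taylor (t : ℤ) v).coeff i‖ ≤ (d + 1) * 2 ^ d * (d + 1) ^ d * v.supNorm := by
  have h0 := v.supNorm_nonneg
  have h1 : (hasseDeriv i v).supNorm ≤ 2 ^ d * v.supNorm := by
    refine sup_le_iff.2 fun j => ?_
    rw [hasseDeriv_coeff]
    by_cases hj : j + i ≤ d
    · rw [norm_mul, Int.norm_natCast]
      refine mul_le_mul ?_ (v.le_supNorm _) (norm_nonneg _) (by positivity)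
      have h2 : (j + i).choose i ≤ 2 ^ d :=
        (Nat.choose_le_two_pow _ _).trans (Nat.pow_le_pow_right two_pos hj)
      exact_mod_cast h2
    · rw [coeff_eq_zero_of_natDegree_lt (by omega), mul_zero, norm_zero]
      positivity
  have h2 := norm_eval_le (hasseDeriv i v) (m := d)
    ((natDegree_hasseDeriv_le v i).trans (by omega)) (t : ℤ)
  have h3 : max 1 ‖(t : ℤ)‖ ≤ (d : ℝ) + 1 := by
    rw [Int.norm_natCast]
    refine max_le (by simp) ?_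
    exact_mod_cast ht.le
  rw [taylor_coeff]
  calc _ ≤ _ := h2
    _ ≤ (d + 1) * (2 ^ d * v.supNorm) * (d + 1) ^ d := by gcongr
    _ = _ := by ring

theorem WMpreN_VV {d : ℕ} {v : ℤ[X]} {t : ℤ} {Y : ℝ} (hY : 1 ≤ Y)
    (h : ∀ i, ‖(taylor t v).coeff i‖ ≤ Y) : (VV d t v).supNorm ≤ (d + 1) * Y ^ d := by
  have hX : ∀ k : ℕ, (X ^ k : ℤ[X]).supNorm = 1 := fun k => by
    rw [X_pow_eq_monomial, supNorm_monomial, norm_one]
  have h0 : ‖v.eval t‖ ≤ Y := by rw [← taylor_coeff_zero]; exact h 0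
  have h1 : ∀ i ∈ Finset.range d,
      (C ((taylor t v).coeff (i + 1) * v.eval t ^ i) * X ^ (d - 1 - i)).supNorm ≤ Y ^ d := by
    intro i hi
    refine (sup_C_mul_le _ _).trans ?_
    rw [hX, mul_one, norm_mul, norm_pow]
    calc _ ≤ Y * Y ^ i := by gcongr; exact h _
      _ = Y ^ (i + 1) := by ring
      _ ≤ Y ^ d := pow_le_pow_right₀ hY (Finset.mem_range.1 hi)
  have h2 := (sup_sum_le _ _).trans (Finset.sum_le_sum h1)
  rw [Finset.sum_const, Finset.card_range, nsmul_eq_mul] at h2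
  have h3 := one_le_pow₀ (n := d) hY
  unfold VV
  refine (sup_add_le _ _).trans ?_
  rw [hX]
  linarith

theorem Nv_le (d : ℕ) : ∃ (K : ℝ) (A : ℕ), 1 ≤ K ∧ 1 ≤ A ∧ ∀ (v : ℤ[X]) (Z : ℝ), v.natDegree = d →
    1 ≤ Z → v.supNorm ≤ Z → (Nv d v : ℝ) ≤ K * Z ^ A := by
  obtain ⟨K₀, hK₀⟩ : ∃ K₀ : ℝ, K₀ = (d + 1) * 2 ^ d * (d + 1) ^ d := ⟨_, rfl⟩
  have hd1 : (1 : ℝ) ≤ d + 1 := by simp
  have h1 : 1 ≤ K₀ := hK₀ ▸ one_le_mul_of_one_le_of_one_le
    (one_le_mul_of_one_le_of_one_le hd1 (one_le_pow₀ one_le_two)) (one_le_pow₀ hd1)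
  obtain ⟨K₁, hK₁⟩ : ∃ K₁ : ℝ, K₁ = (d + 1) * K₀ ^ d := ⟨_, rfl⟩
  have h2 : 1 ≤ K₁ := hK₁ ▸ one_le_mul_of_one_le_of_one_le hd1 (one_le_pow₀ h1)
  obtain ⟨K₂, hK₂⟩ : ∃ K₂ : ℝ,
    K₂ = (d + (d - 1)).factorial * K₁ ^ (d - 1) * ((d + 1) * K₁) ^ d := ⟨_, rfl⟩
  have h3 : 1 ≤ K₂ := hK₂ ▸ one_le_mul_of_one_le_of_one_le (one_le_mul_of_one_le_of_one_le
    (Nat.one_le_cast.2 (Nat.factorial_pos _)) (one_le_pow₀ h2))
    (one_le_pow₀ (one_le_mul_of_one_le_of_one_le hd1 h2))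
  refine ⟨K₂ ^ (d + 1), (d * (d - 1) + d * d) * (d + 1) + 1, one_le_pow₀ h3, by omega,
    fun v Z hv hZ hvZ => ?_⟩
  have hZ0 : 0 ≤ Z := zero_le_one.trans hZ
  have h4 : ∀ t ∈ (Finset.range (d + 1)).filter (fun t : ℕ => v.eval (t : ℤ) ≠ 0),
      (((resultant (VV d t v) (derivative (VV d t v)) d (d - 1)).natAbs : ℕ) : ℝ) ≤
        K₂ * Z ^ (d * (d - 1) + d * d) := by
    intro t ht
    have h5 : (VV d t v).supNorm ≤ K₁ * Z ^ d := by
      have := WMpreN_VV (d := d) (v := v) (t := t) (one_le_mul_of_one_le_of_one_le h1 hZ) fun i =>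
        (WMpreN_taylor hv (Finset.mem_range.1 (Finset.mem_filter.1 ht).1) i).trans
          (by rw [← hK₀]; gcongr)
      rw [hK₁, mul_assoc, ← mul_pow]
      exact this
    have h6 : (derivative (VV d t v)).supNorm ≤ (d + 1) * K₁ * Z ^ d := by
      refine (sup_derivative_le _ (VV_natDegree d t v).le).trans ?_
      rw [mul_assoc]
      exact mul_le_mul (by simp) h5 (supNorm_nonneg _) (by positivity)
    rw [Nat.cast_natAbs, Int.cast_abs, ← Int.norm_eq_abs]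
    have h7 := supNorm_nonneg (VV d t v)
    have h8 := supNorm_nonneg (derivative (VV d t v))
    calc _ ≤ _ := norm_resultant_le _ _ d (d - 1)
      _ ≤ (d + (d - 1)).factorial * (K₁ * Z ^ d) ^ (d - 1) * ((d + 1) * K₁ * Z ^ d) ^ d := by gcongr
      _ = _ := by rw [hK₂, mul_pow K₁, mul_pow ((d + 1) * K₁), ← pow_mul, ← pow_mul, pow_add Z]; ring
  have h5 : 1 ≤ K₂ * Z ^ (d * (d - 1) + d * d) :=
    one_le_mul_of_one_le_of_one_le h3 (one_le_pow₀ hZ)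
  have h6 : ((Finset.range (d + 1)).filter (fun t : ℕ => v.eval (t : ℤ) ≠ 0)).card ≤ d + 1 :=
    (Finset.card_filter_le _ _).trans (Finset.card_range _).le
  unfold Nv
  rw [Nat.cast_prod]
  calc _ ≤ _ := Finset.prod_le_prod (fun _ _ => Nat.cast_nonneg _) h4
    _ ≤ (K₂ * Z ^ (d * (d - 1) + d * d)) ^ (d + 1) := by
      rw [Finset.prod_const]; exact pow_le_pow_right₀ h5 h6
    _ ≤ _ := by
      rw [mul_pow, ← pow_mul]
      exact mul_le_mul_of_nonneg_left (pow_le_pow_right₀ hZ (Nat.le_succ _)) (by positivity)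

theorem not_dvd_res_of_Nv {d p : ℕ} {v : ℤ[X]} (hv : VOk d v) (hp : p.Prime) (h : ¬ p ∣ Nv d v) :
    ¬ (p : ℤ) ∣ resultant (Vp d p v) (derivative (Vp d p v)) d (d - 1) := by
  intro hd
  obtain ⟨h0, h1, -⟩ := goodT_tt hv hp
  have hc := cc_ne_zero hv hp
  unfold cc at hc
  unfold Vp at hd
  obtain ⟨t, ht⟩ := Int.eq_ofNat_of_zero_le h0
  rw [ht] at hc hd h1
  refine h ((Int.natCast_dvd.1 hd).trans ?_)
  unfold Nv
  exact Finset.dvd_prod_of_mem
    (fun t : ℕ => (resultant (VV d t v) (derivative (VV d t v)) d (d - 1)).natAbs)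
    (Finset.mem_filter.2 ⟨Finset.mem_range.2 (by omega), hc⟩)

end Pool.Agent.VW
end

-- part Pool.Agent.P.MP_b0ea37_nt.WMnumb
section

namespace Pool.Agent.VW

open Polynomial

/-- a maximal family of unrelated points -/
theorem exists_reps {α : Type} {P : α → Prop} (R : α → α → Prop) (hrefl : ∀ x, P x → R x x)
    (hsymm : ∀ x y, P x → P y → R x y → R y x) {B : ℝ}
    (h : ∀ S : Finset α, (∀ x ∈ S, P x) → (∀ x ∈ S, ∀ y ∈ S, R x y → x = y) → (S.card : ℝ) ≤ B) :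
    ∃ T : Finset α, (∀ y ∈ T, P y) ∧ (T.card : ℝ) ≤ B ∧ ∀ x, P x → ∃ y ∈ T, R y x := by
  classical
  let Q : ℕ → Prop := fun k => ∃ S : Finset α, (∀ x ∈ S, P x) ∧
    (∀ x ∈ S, ∀ y ∈ S, R x y → x = y) ∧ S.card = k
  have h0 : Q 0 := ⟨∅, by simp, by simp, rfl⟩
  obtain ⟨T, h1, h2, h3⟩ : Q (Nat.findGreatest Q ⌊B⌋₊) := Nat.findGreatest_spec (Nat.zero_le _) h0
  refine ⟨T, h1, h T h1 h2, fun x hx => ?_⟩
  by_contra hc
  push Not at hc
  have hxT : x ∉ T := fun e => hc x e (hrefl x hx)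
  have h4 : ∀ y ∈ insert x T, P y := by
    intro y hy
    rcases Finset.mem_insert.1 hy with rfl | hy
    · exact hx
    · exact h1 y hy
  have h5 : ∀ y ∈ insert x T, ∀ z ∈ insert x T, R y z → y = z := by
    intro y hy z hz e
    rcases Finset.mem_insert.1 hy with rfl | hy' <;> rcases Finset.mem_insert.1 hz with rfl | hz'
    · rfl
    · exact absurd (hsymm _ _ hx (h1 z hz') e) (hc z hz')
    · exact absurd e (hc y hy')
    · exact h2 y hy' z hz' e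
  have h6 := Nat.le_findGreatest (P := Q) (Nat.le_floor (h _ h4 h5)) ⟨_, h4, h5, rfl⟩
  rw [Finset.card_insert_of_notMem hxT, h3] at h6
  omega

/-- number the classes in every fibre of `v` and count one number at a time -/
theorem numb {α β : Type} [Nonempty β] (S : Finset α) (v : α → β) (R : α → α → Prop)
    (hrefl : ∀ x ∈ S, R x x) (hsymm : ∀ x ∈ S, ∀ y ∈ S, R x y → R y x) {K M : ℝ} (hM : 0 ≤ M)
    (hK : ∀ (b : β) (U : Finset α), U ⊆ S → (∀ x ∈ U, v x = b) →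
      (∀ x ∈ U, ∀ y ∈ U, R x y → x = y) → (U.card : ℝ) ≤ K)
    (hU : ∀ (U : Finset α) (rep : β → α), U ⊆ S →
      (∀ x ∈ U, rep (v x) ∈ S ∧ v (rep (v x)) = v x ∧ R (rep (v x)) x) → (U.card : ℝ) ≤ M) :
    (S.card : ℝ) ≤ K * M := by
  classical
  have hK0 : 0 ≤ K := by
    simpa using hK (Classical.arbitrary β) ∅ (by simp) (by simp) (by simp)
  rcases S.eq_empty_or_nonempty with rfl | ⟨x0, -⟩
  · simpa using mul_nonneg hK0 hM
  have h1 : ∀ b : β, ∃ T : Finset α, (∀ y ∈ T, y ∈ S ∧ v y = b) ∧ (T.card : ℝ) ≤ K ∧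
      ∀ x, x ∈ S ∧ v x = b → ∃ y ∈ T, R y x := fun b =>
    exists_reps R (fun x hx => hrefl x hx.1) (fun x y hx hy => hsymm x hx.1 y hy.1)
      fun U h1 h2 => hK b U (fun x hx => (h1 x hx).1) (fun x hx => (h1 x hx).2) h2
  choose T hT hc hcov using h1
  let rep : ℕ → β → α := fun k b => (T b).toList.getD k x0
  have h2 : Cnt (fun x => ∃ k ∈ Finset.range ⌊K⌋₊, x ∈ S ∧ rep k (v x) ∈ S ∧
      v (rep k (v x)) = v x ∧ R (rep k (v x)) x) (∑ _k ∈ Finset.range ⌊K⌋₊, M) :=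
    Cnt.sum _ fun k _ U hU' => hU U (rep k) (fun x hx => (hU' x hx).1) fun x hx => (hU' x hx).2
  refine (h2 S fun x hx => ?_).trans ?_
  · obtain ⟨y, hy, hR⟩ := hcov (v x) x ⟨hx, rfl⟩
    obtain ⟨k, hk, e⟩ := List.mem_iff_getElem.1 (Finset.mem_toList.2 hy)
    have e' : rep k (v x) = y := by
      simp only [rep]
      rw [List.getD_eq_getElem _ _ hk, e]
    refine ⟨k, Finset.mem_range.2 (hk.trans_le ?_), hx, ?_⟩
    · rw [Finset.length_toList]
      exact Nat.le_floor (hc _)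
    · rw [e']
      exact ⟨(hT _ y hy).1, (hT _ y hy).2, hR⟩
  · rw [Finset.sum_const, Finset.card_range, nsmul_eq_mul]
    exact mul_le_mul_of_nonneg_right (Nat.floor_le hK0) hM

end Pool.Agent.VW
end

-- part Pool.Agent.P.MP_b0ea37_nt.WMpreF
section

namespace Pool.Agent.VW

open Polynomial

/-- `u` is the local cofactor of the datum `D` -/
def wmpreF_loc (n d p : ℕ) (D : Dat) (u : ℤ[X]) : Prop :=
  ∃ N : ℤ, ¬ (p : ℤ) ∣ N ∧ Vp d p D.v ∣ C (N ^ 2) * FF n d p D - piP d p D ^ 2 * u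

theorem wmpreF_ex {n d p : ℕ} (hn : 2 ≤ n) {D : Dat} (h : Ok n d D) (hp : p.Prime) :
    ∃ u, wmpreF_loc n d p D u := by
  obtain ⟨N, u₀, u₁, hN, hd⟩ := loc_dec hn h hp
  refine ⟨u₀, N, hN, ?_⟩
  have h1 := (dvd_pow_self _ two_ne_zero).trans hd
  have h2 : Vp d p D.v ∣ piP d p D * Vp d p D.v * u₁ := (Dvd.intro_left _ rfl).mul_right _
  have h3 := dvd_add h1 h2
  rwa [sub_add_cancel] at h3

theorem wmpreF_zero {d p : ℕ} {v g : ℤ[X]} (hv : VOk d v) (hp : p.Prime) (h : Vp d p v ∣ g) {z : ℂ}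
    (hz : aeval z v = 0) : aeval (zt d p v z) g = 0 := by
  obtain ⟨k, rfl⟩ := h
  rw [map_mul, aeval_zt_Vp hv hp hz, zero_mul]

theorem wmpreF_val {n d p : ℕ} {D : Dat} (h : Ok n d D) (hp : p.Prime) {N : ℤ} {u : ℤ[X]}
    (hu : Vp d p D.v ∣ C (N ^ 2) * FF n d p D - piP d p D ^ 2 * u) {z : ℂ}
    (hz : aeval z D.v = 0) : (N : ℂ) ^ 2 * (zt d p D.v z ^ n * aeval z D.f) =
      pz d p D z ^ 2 * aeval (zt d p D.v z) u := by
  have h1 := wmpreF_zero h.1 hp hu hz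
  rw [map_sub, map_mul, map_mul, aeval_FF h hp hz, aeval_C, sub_eq_zero] at h1
  simpa [pz] using h1

theorem wmpreF_inR {n d p : ℕ} {D D' : Dat} (h : Ok n d D) (h' : Ok n d D') (e : D'.v = D.v)
    (hp : p.Prime) {u u' : ℤ[X]} (hu : wmpreF_loc n d p D u) (hu' : wmpreF_loc n d p D' u')
    (ha : ∃ (N : ℤ) (w : ℤ[X]), ¬ (p : ℤ) ∣ N ∧ Vp d p D.v ∣ C N * u - w * u') :
    InR d p D.v fun z => aeval z D.f * pz d p D' z ^ 2 / (aeval z D'.f * pz d p D z ^ 2) := by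
  have hP : Prime (p : ℤ) := Nat.prime_iff_prime_int.1 hp
  obtain ⟨N₁, hN₁, h₁⟩ := hu
  obtain ⟨N₂, _, h₂⟩ := hu'
  obtain ⟨N, w, hN, h₃⟩ := ha
  refine ⟨N₁ ^ 2 * N, C (N₂ ^ 2) * w, fun hd => ?_, fun z hz => ?_⟩
  · exact (hP.dvd_or_dvd hd).elim (fun h => hN₁ (hP.dvd_of_dvd_pow h)) hN
  · have hz' : aeval z D'.v = 0 := by rw [e]; exact hz
    have e₁ := wmpreF_val h hp h₁ hz
    have e₂ := wmpreF_val h' hp h₂ hz'
    rw [e] at e₂
    have e₃ := wmpreF_zero h.1 hp h₃ hz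
    rw [map_sub, map_mul, map_mul, aeval_C, sub_eq_zero, eq_intCast] at e₃
    have hζ := pow_ne_zero n (zt_ne_zero h.1 hp hz)
    have hf' := h'.2.2.2.2.2.2.2.2 z hz'
    have hpz : pz d p D z ≠ 0 := pz_ne_zero h hz
    rw [map_mul, aeval_C, eq_intCast, ← mul_div_assoc,
      div_eq_iff (mul_ne_zero hf' (pow_ne_zero 2 hpz))]
    refine mul_left_cancel₀ hζ ?_
    push_cast
    linear_combination (N * pz d p D' z ^ 2) * e₁ + (pz d p D z ^ 2 * pz d p D' z ^ 2) * e₃ -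
      (pz d p D z ^ 2 * aeval (zt d p D.v z) w) * e₂

/-- preclasses with a given norm -/
theorem pre_fix (n d : ℕ) (hn : 2 ≤ n) (hd : 1 ≤ d) : ∃ K : ℝ, 1 ≤ K ∧
    ∀ (v : ℤ[X]) (b : ℤ) (S : Finset Dat), b ≠ 0 →
      (∀ D ∈ S, Ok n d D ∧ D.v = v ∧ resultant D.v D.f d n = (D.P : ℤ) ^ 2 * b) →
      (∀ D ∈ S, ∀ D' ∈ S, Pre d D D' → D = D') →
      (S.card : ℝ) ≤ wtM K d.factorial d (Nv d v) (b.natAbs * d.factorial ^ (n * d)) := by
  obtain ⟨K, hK, hbad⟩ := pre_bad d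
  refine ⟨K, hK, fun v b S hb hS hinj => ?_⟩
  obtain ⟨b', hb'⟩ : ∃ b', b' = b.natAbs * d.factorial ^ (n * d) := ⟨_, rfl⟩
  have hb0 : b' ≠ 0 := by
    rw [hb']
    exact mul_ne_zero (Int.natAbs_ne_zero.2 hb) (pow_ne_zero _ (Nat.factorial_ne_zero d))
  rw [← hb']
  obtain ⟨B, hB⟩ : ∃ B : ℕ → ℝ, B = fun p => if p ∣ Nv d v then K * (p : ℝ) ^ b'.factorization p
    else (((d.factorial : ℕ) : ℝ) * b'.factorization p + 1) ^ d := ⟨_, rfl⟩
  have hwt : wtM K d.factorial d (Nv d v) b' = ∏ p : b'.primeFactors, B p := by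
    rw [Finset.prod_coe_sort b'.primeFactors B, hB]
    rfl
  rw [hwt]
  rcases S.eq_empty_or_nonempty with rfl | ⟨D₀, hD₀⟩
  · rw [Finset.card_empty, Nat.cast_zero]
    refine Finset.prod_nonneg fun p _ => ?_
    rw [hB]
    have : 0 ≤ K := zero_le_one.trans hK
    dsimp only
    split_ifs <;> positivity
  have hv : VOk d v := (hS D₀ hD₀).2.1 ▸ (hS D₀ hD₀).1.1
  have hex : ∀ (p : ℕ) (D : Dat), ∃ u, p.Prime → D ∈ S → wmpreF_loc n d p D u := fun p D => by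
    by_cases h : p.Prime ∧ D ∈ S
    · obtain ⟨u, hu⟩ := wmpreF_ex hn (hS D h.2).1 h.1
      exact ⟨u, fun _ _ => hu⟩
    · exact ⟨0, fun h1 h2 => absurd ⟨h1, h2⟩ h⟩
  choose u hu using hex
  have hnorm : ∀ p : ℕ, p.Prime → ∀ D ∈ S,
      ¬ (p : ℤ) ^ (b'.factorization p + 1) ∣ resultant (Vp d p v) (u p D) := by
    intro p hp D hD hdv
    obtain ⟨N, hN, h1⟩ := hu p D hp hD
    obtain ⟨M, hM, h2⟩ := loc_norm hd (hS D hD).1 hp (hS D hD).2.2 hN h1
    rw [(hS D hD).2.1] at h2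
    have h3 := (Nat.prime_iff_prime_int.1 hp).pow_dvd_of_dvd_mul_left _ hM (hdv.trans h2)
    refine Nat.pow_succ_factorization_not_dvd hb0 hp ?_
    have h4 := Int.natAbs_dvd_natAbs.2 h3
    rw [Int.natAbs_pow, Int.natAbs_natCast, Int.natAbs_mul, Int.natAbs_pow,
      Int.natAbs_natCast, ← hb'] at h4
    exact h4
  have hT : ∀ p : ℕ, ∃ T : Finset ℤ[X], p.Prime → (T.card : ℝ) ≤ B p ∧ ∀ x,
      ¬ (p : ℤ) ^ (b'.factorization p + 1) ∣ resultant (Vp d p v) x →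
        ∃ y ∈ T, Asc p (Vp d p v) y x := fun p => by
    by_cases hp : p.Prime
    · obtain ⟨T, _, h2, h3⟩ := exists_reps
        (P := fun x => ¬ (p : ℤ) ^ (b'.factorization p + 1) ∣ resultant (Vp d p v) x)
        (Asc p (Vp d p v)) (fun x _ => Asc.refl hp _ x) (fun _ _ _ _ h => h.symm) (B := B p)
        fun U hU hU' => by
          rw [hB]
          dsimp only
          split_ifs with hN
          · exact hbad p _ _ U hp (VV_monic _ _ _) (VV_natDegree _ _ _) hU hU'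
          · exact pre_good d p _ _ U hp (VV_monic _ _ _) (VV_natDegree _ _ _)
              (not_dvd_res_of_Nv hv hp hN) hU hU'
      exact ⟨T, fun _ => ⟨h2, h3⟩⟩
    · exact ⟨∅, fun h => absurd h hp⟩
  choose T hT using hT
  have hrep : ∀ (p : ℕ) (D : Dat), ∃ y, p.Prime → D ∈ S →
      y ∈ T p ∧ Asc p (Vp d p v) y (u p D) := fun p D => by
    by_cases h : p.Prime ∧ D ∈ S
    · obtain ⟨y, hy⟩ := (hT p h.1).2 _ (hnorm p h.1 D h.2)
      exact ⟨y, fun _ _ => hy⟩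
    · exact ⟨0, fun h1 h2 => absurd ⟨h1, h2⟩ h⟩
  choose rep hrep using hrep
  have hpi := Cnt.pi (ι := b'.primeFactors) (P := fun p y => y ∈ T p) (B := fun p => B p)
    fun p => (Cnt.finset (T p)).mono (fun _ h => h) (hT p (Nat.prime_of_mem_primeFactors p.2)).1
  refine hpi.inj (P := fun D => D ∈ S) (fun D p => rep p D)
    (fun D hD p => (hrep p D (Nat.prime_of_mem_primeFactors p.2) hD).1)
    (fun D D' hD hD' e => hinj D hD D' hD' ?_) S fun _ h => h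
  have hv1 := (hS D hD).2.1
  have hv2 := (hS D' hD').2.1
  have hasc : ∀ p : ℕ, p.Prime → Asc p (Vp d p v) (u p D) (u p D') := fun p hp => by
    by_cases hpb : p ∣ b'
    · have h1 : rep p D = rep p D' :=
        congrFun e ⟨p, Nat.mem_primeFactors.2 ⟨hp, hpb, hb0⟩⟩
      have h2 := (hrep p D hp hD).2
      rw [h1] at h2
      exact h2.symm.trans hp (hrep p D' hp hD').2
    · have h1 := hnorm p hp D hD
      have h2 := hnorm p hp D' hD'
      rw [Nat.factorization_eq_zero_of_not_dvd hpb, zero_add, pow_one] at h1 h2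
      refine Asc.of_unit ?_ h1 h2
      have h3 : (Vp d p v).natDegree = d := VV_natDegree _ _ _
      omega
  refine ⟨hv1.trans hv2.symm, fun p hp => ⟨?_, ?_⟩⟩
  · exact wmpreF_inR (hS D hD).1 (hS D' hD').1 (hv2.trans hv1.symm) hp (hu p D hp hD)
      (hu p D' hp hD') (by rw [hv1]; exact (hasc p hp).2)
  · rw [hv1.trans hv2.symm]
    exact wmpreF_inR (hS D' hD').1 (hS D hD).1 (hv1.trans hv2.symm) hp (hu p D' hp hD')
      (hu p D hp hD) (by rw [hv2]; exact (hasc p hp).1)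

end Pool.Agent.VW
end

-- part Pool.Agent.P.MP_b0ea37_nt.WMpreS
section

namespace Pool.Agent.VW

open Polynomial

/-- the part of `b` built from the primes of `N` -/
def WMpreS_pt (N b : ℕ) : ℕ := ∏ p ∈ b.primeFactors with p ∣ N, p ^ b.factorization p

theorem WMpreS_dvd (N : ℕ) {b : ℕ} (hb : b ≠ 0) : WMpreS_pt N b ∣ b := by
  conv_rhs => rw [← Nat.prod_factorization_pow_eq_self hb]
  exact Finset.prod_dvd_prod_of_subset _ _ _ (Finset.filter_subset _ _)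

theorem WMpreS_prime {N b p : ℕ} (hp : p.Prime) (h : p ∣ WMpreS_pt N b) : p ∣ N := by
  obtain ⟨q, hq, h⟩ := (Prime.dvd_finsetProd_iff hp.prime _).1 h
  obtain ⟨h1, h2⟩ := Finset.mem_filter.1 hq
  rwa [(Nat.prime_dvd_prime_iff_eq hp (Nat.prime_of_mem_primeFactors h1)).1
    (hp.dvd_of_dvd_pow h)]

theorem WMpreS_mul (N : ℕ) {b D : ℕ} (hb : b ≠ 0) (hD : D ≠ 0) :
    WMpreS_pt N (b * D) ≤ WMpreS_pt N b * D := by
  refine Nat.le_of_dvd (Nat.mul_pos (Nat.pos_of_dvd_of_pos (WMpreS_dvd N hb) (Nat.pos_of_ne_zero hb))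
    (Nat.pos_of_ne_zero hD)) ?_
  rw [WMpreS_pt, Nat.factorization_mul hb hD]
  simp only [Finsupp.add_apply, pow_add, Finset.prod_mul_distrib]
  have key : ∀ c : ℕ, ∏ p ∈ (b * D).primeFactors with p ∣ N, p ^ c.factorization p
      ∣ WMpreS_pt N c := fun c => by
    rw [← Finset.prod_filter_of_ne (p := fun p => p ∈ c.primeFactors) fun p _ h => by
      by_contra h'
      rw [← Nat.support_factorization, Finsupp.notMem_support_iff] at h'
      exact h (by rw [h', pow_zero])]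
    exact Finset.prod_dvd_prod_of_subset _ _ _ fun p hp => by
      simp only [Finset.mem_filter] at hp ⊢
      exact ⟨hp.2, hp.1.2⟩
  exact mul_dvd_mul (key b) ((key D).trans (WMpreS_dvd N hD))

theorem WMpreS_wt {K : ℝ} (hK : 1 ≤ K) (A k N b : ℕ) :
    wtM K A k N b ≤ K ^ b.primeFactors.card *
      (∏ p ∈ b.primeFactors, ((A : ℝ) * b.factorization p + 1) ^ k) * WMpreS_pt N b := by
  rw [wtM, WMpreS_pt, Finset.prod_filter, Nat.cast_prod, ← Finset.prod_const,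
    ← Finset.prod_mul_distrib, ← Finset.prod_mul_distrib]
  refine Finset.prod_le_prod (fun p _ => by split_ifs <;> positivity) fun p _ => ?_
  have h1 : (1 : ℝ) ≤ ((A : ℝ) * b.factorization p + 1) ^ k :=
    one_le_pow₀ (le_add_of_nonneg_left (by positivity))
  split_ifs
  · push_cast
    exact mul_le_mul_of_nonneg_right (le_mul_of_one_le_right (by linarith) h1) (by positivity)
  · rw [Nat.cast_one, mul_one]
    exact le_mul_of_one_le_left (by linarith) hK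

theorem WMpreS_sum (N n : ℕ) : ∑ b ∈ Finset.Icc 1 n, WMpreS_pt N b
    ≤ ((Finset.Icc 1 n).image (WMpreS_pt N)).card * n := by
  rw [← Finset.sum_fiberwise_of_maps_to fun b hb => Finset.mem_image_of_mem (WMpreS_pt N) hb,
    ← smul_eq_mul]
  refine Finset.sum_le_card_nsmul _ _ _ fun m _ => ?_
  rw [Finset.sum_congr rfl fun b hb => (Finset.mem_filter.1 hb).2, Finset.sum_const, smul_eq_mul]
  refine le_trans (Nat.mul_le_mul_right m ?_) (Nat.div_mul_le_self n m)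
  rw [← Nat.Ioc_filter_dvd_card_eq_div]
  refine Finset.card_le_card fun b hb => ?_
  obtain ⟨h1, h2⟩ := Finset.mem_filter.1 hb
  obtain ⟨h3, h4⟩ := Finset.mem_Icc.1 h1
  exact Finset.mem_filter.2 ⟨Finset.mem_Ioc.2 ⟨h3, h4⟩, h2 ▸ WMpreS_dvd N (by omega)⟩

theorem sum_wt_le (K : ℝ) (hK : 1 ≤ K) (A k D₀ : ℕ) (hD : D₀ ≠ 0) (ε : ℝ) (hε : 0 < ε) :
    ∃ C : ℝ, 1 ≤ C ∧ ∀ (Z B : ℝ) (N : ℕ), N ≠ 0 → (N : ℝ) ≤ Z → 1 ≤ B → B ≤ Z →
      ∑ b ∈ Finset.Icc 1 ⌊B⌋₊, wtM K A k N (b * D₀) ≤ C * Z ^ ε * B := by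
  obtain ⟨δ, rfl⟩ : ∃ δ, ε = δ + δ + δ := ⟨ε / 3, by ring⟩
  have hδ : 0 < δ := by linarith
  obtain ⟨C1, a1, h1⟩ := pow_omega_le K hK δ hδ
  obtain ⟨C2, a2, h2⟩ := prod_fact_le A k δ hδ
  obtain ⟨C3, a3, h3⟩ := cnt_smooth δ hδ
  have hD1 : (1 : ℝ) ≤ D₀ := by exact_mod_cast Nat.pos_of_ne_zero hD
  have hD2 : (1 : ℝ) ≤ (D₀ : ℝ) ^ δ := Real.one_le_rpow hD1 hδ.le
  refine ⟨C1 * (D₀ : ℝ) ^ δ * (C2 * (D₀ : ℝ) ^ δ) * D₀ * C3, by
    repeat' apply one_le_mul_of_one_le_of_one_le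
    all_goals assumption, fun Z B N hN hZ hB hBZ => ?_⟩
  have hZ1 : 1 ≤ Z := hB.trans hBZ
  have hfl : (⌊B⌋₊ : ℝ) ≤ B := Nat.floor_le (by linarith)
  have hb : ∀ b ∈ Finset.Icc 1 ⌊B⌋₊, b ≠ 0 ∧ (b : ℝ) ≤ Z := fun b hb => by
    obtain ⟨h3, h4⟩ := Finset.mem_Icc.1 hb
    exact ⟨by omega, ((Nat.cast_le.2 h4).trans hfl).trans hBZ⟩
  have e1 : ∀ b ∈ Finset.Icc 1 ⌊B⌋₊, wtM K A k N (b * D₀) ≤
      C1 * (Z ^ δ * (D₀ : ℝ) ^ δ) * (C2 * (Z ^ δ * (D₀ : ℝ) ^ δ)) * D₀ * WMpreS_pt N b := by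
    intro b hb'
    obtain ⟨b0, b1⟩ := hb b hb'
    have c1 : ((b * D₀ : ℕ) : ℝ) ^ δ ≤ Z ^ δ * (D₀ : ℝ) ^ δ := by
      rw [Nat.cast_mul, Real.mul_rpow (by positivity) (by positivity)]
      gcongr
    have c2 := (h1 _ (mul_ne_zero b0 hD)).trans (mul_le_mul_of_nonneg_left c1 (by linarith))
    have c3 := (h2 _ (mul_ne_zero b0 hD)).trans (mul_le_mul_of_nonneg_left c1 (by linarith))
    have c4 : (WMpreS_pt N (b * D₀) : ℝ) ≤ D₀ * WMpreS_pt N b := by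
      rw [mul_comm (D₀ : ℝ)]
      exact_mod_cast WMpreS_mul N b0 hD
    rw [mul_assoc _ (D₀ : ℝ)]
    refine (WMpreS_wt hK A k N _).trans ?_
    gcongr
  have e2 := h3 Z hZ1 N hN hZ ((Finset.Icc 1 ⌊B⌋₊).image (WMpreS_pt N)) fun m hm => by
    obtain ⟨b, hb', rfl⟩ := Finset.mem_image.1 hm
    obtain ⟨b0, b1⟩ := hb b hb'
    exact ⟨ne_zero_of_dvd_ne_zero b0 (WMpreS_dvd N b0), (Nat.cast_le.2 (Nat.le_of_dvd
      (Nat.pos_of_ne_zero b0) (WMpreS_dvd N b0))).trans b1, fun p hp => WMpreS_prime hp⟩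
  have e3 : ∑ b ∈ Finset.Icc 1 ⌊B⌋₊, (WMpreS_pt N b : ℝ) ≤ C3 * Z ^ δ * B := by
    have : ∑ b ∈ Finset.Icc 1 ⌊B⌋₊, (WMpreS_pt N b : ℝ)
        ≤ ((Finset.Icc 1 ⌊B⌋₊).image (WMpreS_pt N)).card * (⌊B⌋₊ : ℝ) := by
      exact_mod_cast WMpreS_sum N ⌊B⌋₊
    exact this.trans (by gcongr)
  refine (Finset.sum_le_sum e1).trans ?_
  rw [← Finset.mul_sum, Real.rpow_add (by linarith), Real.rpow_add (by linarith)]
  exact (mul_le_mul_of_nonneg_left e3 (by positivity)).trans (le_of_eq (by ring))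

end Pool.Agent.VW
end

-- part Pool.Agent.P.MP_b0ea37_nt.WMpreT
section

namespace Pool.Agent.VW

open Polynomial

/-- all preclasses of one `v` -/
theorem pre_tot (n d : ℕ) (hn : 2 ≤ n) (hd : 1 ≤ d) (ε : ℝ) (hε : 0 < ε) : ∃ K : ℝ, 1 ≤ K ∧
    ∀ (Z B : ℝ) (v : ℤ[X]) (S : Finset Dat), 1 ≤ B → B ≤ Z → v.supNorm ≤ Z →
      (∀ D ∈ S, Ok n d D ∧ D.v = v ∧ |((resultant D.v D.f d n : ℤ) : ℝ)| ≤ B * (D.P : ℝ) ^ 2) →
      (∀ D ∈ S, ∀ D' ∈ S, Pre d D D' → D = D') → (S.card : ℝ) ≤ K * Z ^ ε * B := by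
  obtain ⟨K₁, hK₁, h1⟩ := pre_fix n d hn hd
  obtain ⟨K₂, A, hK₂, hA, h2⟩ := Nv_le d
  have hA' : (0 : ℝ) < A := by exact_mod_cast hA
  obtain ⟨C₀, hC, h3⟩ := sum_wt_le K₁ hK₁ d.factorial d (d.factorial ^ (n * d))
    (pow_ne_zero _ d.factorial_ne_zero) (ε / A) (by positivity)
  have hK : 1 ≤ K₂ ^ (ε / A) := Real.one_le_rpow hK₂ (by positivity)
  refine ⟨2 * (C₀ * K₂ ^ (ε / A)), by nlinarith, fun Z B v S hB hBZ hv hS hP => ?_⟩
  have hZ : 1 ≤ Z := hB.trans hBZ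
  rcases S.eq_empty_or_nonempty with rfl | ⟨D₀, hD₀⟩
  · rw [Finset.card_empty, Nat.cast_zero]
    positivity
  have hV : VOk d v := (hS D₀ hD₀).2.1 ▸ (hS D₀ hD₀).1.1
  have hZA : Z ≤ K₂ * Z ^ A :=
    (le_self_pow₀ hZ (by omega)).trans (le_mul_of_one_le_left (by positivity) hK₂)
  have h4 := h3 (K₂ * Z ^ A) B (Nv d v) (Nv_ne_zero hd hV) (h2 v Z hV.1 hZ hv) hB (hBZ.trans hZA)
  have h5 : ∀ b : ℤ, b ≠ 0 → Cnt (fun D => D ∈ S ∧ resultant D.v D.f d n = (D.P : ℤ) ^ 2 * b)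
      (wtM K₁ d.factorial d (Nv d v) (b.natAbs * d.factorial ^ (n * d))) := fun b hb T hT =>
    h1 v b T hb (fun D hD => ⟨(hS D (hT D hD).1).1, (hS D (hT D hD).1).2.1, (hT D hD).2⟩)
      fun D hD D' hD' => hP D (hT D hD).1 D' (hT D' hD').1
  have h6 := Cnt.sum (Finset.Icc 1 ⌊B⌋₊) fun (m : ℕ) hm =>
    (h5 m (by have := (Finset.mem_Icc.1 hm).1; omega)).or
      (h5 (-m) (by have := (Finset.mem_Icc.1 hm).1; omega))
  refine (h6 S fun D hD => ?_).trans ?_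
  · obtain ⟨hO, -, hr⟩ := hS D hD
    obtain ⟨b, hb, e⟩ := hO.exists_b hn
    have hp : (0 : ℝ) < (D.P : ℝ) ^ 2 := pow_pos (Nat.cast_pos.2 hO.2.2.2.1.pos) 2
    refine ⟨b.natAbs, Finset.mem_Icc.2 ⟨Int.natAbs_pos.2 hb, Nat.le_floor ?_⟩, ?_⟩
    · rw [e] at hr
      push_cast at hr
      rw [abs_mul, abs_of_pos hp, mul_comm] at hr
      rw [Nat.cast_natAbs, Int.cast_abs]
      exact le_of_mul_le_mul_right hr hp
    · rcases Int.natAbs_eq b with h | h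
      · exact Or.inl ⟨hD, h ▸ e⟩
      · exact Or.inr ⟨hD, h ▸ e⟩
  · simp only [Int.natAbs_neg, Int.natAbs_natCast]
    rw [Finset.sum_add_distrib]
    rw [Real.mul_rpow (by positivity) (by positivity), ← Real.rpow_natCast,
      ← Real.rpow_mul (by positivity), mul_div_cancel₀ _ hA'.ne'] at h4
    linarith

end Pool.Agent.VW
end

-- part Pool.Agent.P.MP_b0ea37_nt.WMglue
section

namespace Pool.Agent.VW

open Polynomial Matrix

/-- the lattice spanned by the rows -/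
def glueL {d : ℕ} (F : Matrix (Fin d) (Fin d) ℂ) : Submodule ℤ (Fin d → ℂ) :=
  Submodule.span ℤ (Set.range fun a => F a)

theorem glue_row {d : ℕ} (F : Matrix (Fin d) (Fin d) ℂ) (a : Fin d) : F a ∈ glueL F :=
  Submodule.subset_span ⟨a, rfl⟩

theorem glue_ext {d : ℕ} {F G : Matrix (Fin d) (Fin d) ℂ} {N : ℤ} (h : ∀ a, N • F a ∈ glueL G)
    {x : Fin d → ℂ} (hx : x ∈ glueL F) : N • x ∈ glueL G := by
  have : glueL F ≤ (glueL G).comap (LinearMap.lsmul ℤ (Fin d → ℂ) N) :=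
    Submodule.span_le.2 (by rintro _ ⟨a, rfl⟩; exact h a)
  exact this hx

theorem glue_mat {d : ℕ} {F G : Matrix (Fin d) (Fin d) ℂ} {N : ℤ} (h : ∀ a, N • F a ∈ glueL G) :
    ∃ U : Matrix (Fin d) (Fin d) ℤ, (N : ℂ) • F = U.map (Int.cast : ℤ → ℂ) * G := by
  choose U hU using fun a => (Submodule.mem_span_range_iff_exists_fun ℤ).1 (h a)
  refine ⟨Matrix.of U, ?_⟩
  ext a k
  have := congrFun (hU a) k
  simp only [Finset.sum_apply, Pi.smul_apply, zsmul_eq_mul] at this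
  simp only [Matrix.smul_apply, smul_eq_mul, Matrix.mul_apply, Matrix.map_apply, Matrix.of_apply]
  exact this.symm

theorem glue_den {d : ℕ} (Q : Matrix (Fin d) (Fin d) ℚ) (G : Matrix (Fin d) (Fin d) ℂ) :
    ∃ N : ℤ, N ≠ 0 ∧ ∀ a, N • (Q.map (Rat.cast : ℚ → ℂ) * G) a ∈ glueL G := by
  refine ⟨Q.den, by exact_mod_cast Q.den_ne_zero, fun a => ?_⟩
  refine (Submodule.mem_span_range_iff_exists_fun ℤ).2 ⟨Q.num a, ?_⟩
  ext k
  rw [Finset.sum_apply, Pi.smul_apply]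
  simp only [Pi.smul_apply, Matrix.mul_apply, Matrix.map_apply, Finset.smul_sum]
  refine Finset.sum_congr rfl fun b _ => ?_
  have h0 : (Q.den : ℂ) ≠ 0 := by exact_mod_cast Q.den_ne_zero
  rw [← Q.num_div_den a b, zsmul_eq_mul, zsmul_eq_mul]
  push_cast
  field_simp

theorem glue_unif {α : Type} (S : Set α) (hS : S.Finite) (R : ℤ → α → Prop)
    (hmul : ∀ N N' a, R N a → R (N' * N) a) (h : ∀ a ∈ S, ∃ N, N ≠ 0 ∧ R N a) :
    ∃ N, N ≠ 0 ∧ ∀ a ∈ S, R N a := by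
  induction S, hS using Set.Finite.induction_on with
  | empty => exact ⟨1, one_ne_zero, fun a ha => absurd ha (Set.notMem_empty a)⟩
  | @insert a s _ _ ih =>
    obtain ⟨N, h0, h1⟩ := ih fun b hb => h b (Set.mem_insert_of_mem _ hb)
    obtain ⟨N', h2, h3⟩ := h a (Set.mem_insert _ _)
    refine ⟨N * N', mul_ne_zero h0 h2, fun b hb => ?_⟩
    rcases hb with rfl | hb
    · exact hmul _ _ _ h3
    · exact mul_comm N' N ▸ hmul _ _ _ (h1 b hb)

/-- the vectors that lie in all localisations -/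
def glueI {d : ℕ} (Ep : ℕ → Matrix (Fin d) (Fin d) ℂ) : Submodule ℤ (Fin d → ℂ) where
  carrier := {x | ∀ p : ℕ, p.Prime → ∃ N : ℤ, ¬ (p : ℤ) ∣ N ∧ N • x ∈ glueL (Ep p)}
  zero_mem' := fun p hp =>
    ⟨1, (Nat.prime_iff_prime_int.1 hp).not_dvd_one, by rw [smul_zero]; exact zero_mem _⟩
  add_mem' := by
    intro x y hx hy p hp
    obtain ⟨N, h1, h2⟩ := hx p hp
    obtain ⟨N', h3, h4⟩ := hy p hp
    refine ⟨N * N', fun h => ((Nat.prime_iff_prime_int.1 hp).dvd_or_dvd h).elim h1 h3, ?_⟩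
    rw [smul_add]
    refine add_mem ?_ ?_
    · rw [mul_comm, mul_smul]; exact Submodule.smul_mem _ _ h2
    · rw [mul_smul]; exact Submodule.smul_mem _ _ h4
  smul_mem' := by
    intro c x hx p hp
    obtain ⟨N, h1, h2⟩ := hx p hp
    exact ⟨N, h1, by rw [smul_comm]; exact Submodule.smul_mem _ _ h2⟩

/-- a module squeezed between two multiples of a lattice has `d` generators -/
theorem glue_gen {d : ℕ} (E₀ : Matrix (Fin d) (Fin d) ℂ) (I : Submodule ℤ (Fin d → ℂ)) (N : ℤ)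
    (hN : N ≠ 0) (h1 : ∀ x ∈ I, N • x ∈ glueL E₀) (h2 : ∀ x ∈ glueL E₀, N • x ∈ I) :
    ∃ E : Matrix (Fin d) (Fin d) ℂ, (∀ a, E a ∈ I) ∧ ∀ x ∈ I, x ∈ glueL E := by
  have hN' : (N : ℂ) ≠ 0 := Int.cast_ne_zero.2 hN
  obtain ⟨φ, hφ⟩ : ∃ φ : (Fin d → ℤ) →ₗ[ℤ] (Fin d → ℂ),
      ∀ c, N • φ c = ∑ a, c a • E₀ a := by
    refine ⟨Fintype.linearCombination ℤ fun a => (N : ℂ)⁻¹ • E₀ a, fun c => ?_⟩
    rw [Fintype.linearCombination_apply, Finset.smul_sum]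
    refine Finset.sum_congr rfl fun a _ => ?_
    rw [smul_comm, ← Int.cast_smul_eq_zsmul ℂ N, smul_inv_smul₀ hN']
  have hmem : ∀ c, N • N • c ∈ I.comap φ := fun c => by
    rw [Submodule.mem_comap, map_smul, map_smul, hφ]
    exact h2 _ ((Submodule.mem_span_range_iff_exists_fun ℤ).2 ⟨c, rfl⟩)
  have hr : Module.finrank ℤ (I.comap φ) = d := by
    refine le_antisymm ((Submodule.finrank_le _).trans (by simp)) ?_
    have := LinearMap.finrank_le_finrank_of_injective (f := LinearMap.codRestrict (I.comap φ)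
      ((LinearMap.lsmul ℤ (Fin d → ℤ) N).comp (LinearMap.lsmul ℤ (Fin d → ℤ) N)) hmem)
      fun c c' e => smul_right_injective _ hN (smul_right_injective _ hN (congrArg Subtype.val e))
    simpa using this
  obtain ⟨b⟩ : Nonempty (Module.Basis (Fin d) ℤ (I.comap φ)) :=
    ⟨Module.finBasisOfFinrankEq ℤ _ hr⟩
  refine ⟨Matrix.of fun a => φ (b a), fun a => (b a).2, fun x hx => ?_⟩
  obtain ⟨c, hc⟩ := (Submodule.mem_span_range_iff_exists_fun ℤ).1 (h1 x hx)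
  have e : φ c = x := smul_right_injective _ hN ((hφ c).trans hc)
  have hc' : c ∈ I.comap φ := by rw [Submodule.mem_comap, e]; exact hx
  refine (Submodule.mem_span_range_iff_exists_fun ℤ).2 ⟨b.repr ⟨c, hc'⟩, ?_⟩
  have e2 := congrArg (fun y : I.comap φ => φ y) (b.sum_repr ⟨c, hc'⟩)
  simp only [Submodule.coe_sum, Submodule.coe_smul, map_sum, map_smul] at e2
  exact e2.trans e

/-- a lattice with finitely many prescribed localisations -/
theorem glue {d : ℕ} (E₀ : Matrix (Fin d) (Fin d) ℂ) (Ep : ℕ → Matrix (Fin d) (Fin d) ℂ)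
    (hfin : (Ep '' {p | p.Prime}).Finite)
    (h : ∀ p : ℕ, p.Prime → (Ep p).det ≠ 0 ∧
      ∃ Q : Matrix (Fin d) (Fin d) ℚ, Ep p = Q.map (Rat.cast : ℚ → ℂ) * E₀) :
    ∃ E, Glued Ep E := by
  obtain ⟨N, hN, hR⟩ := glue_unif _ hfin
    (fun N F => (∀ a, N • F a ∈ glueL E₀) ∧ ∀ a, N • E₀ a ∈ glueL F)
    (fun N N' F hF => ⟨fun a => by rw [mul_smul]; exact Submodule.smul_mem _ _ (hF.1 a),
      fun a => by rw [mul_smul]; exact Submodule.smul_mem _ _ (hF.2 a)⟩) (by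
    rintro _ ⟨p, hp, rfl⟩
    obtain ⟨h0, Q, hQ⟩ := h p hp
    have hd : Q.det ≠ 0 := by
      intro e
      apply h0
      have e1 : (Q.map (Rat.cast : ℚ → ℂ)).det = (Q.det : ℂ) := ((Rat.castHom ℂ).map_det Q).symm
      rw [hQ, Matrix.det_mul, e1, e, Rat.cast_zero, zero_mul]
    have hinv : E₀ = (Q⁻¹).map (Rat.cast : ℚ → ℂ) * Ep p := by
      have e1 : (Q⁻¹).map (Rat.cast : ℚ → ℂ) * Q.map (Rat.cast : ℚ → ℂ) = 1 := by
        have := (Matrix.map_mul (L := Q⁻¹) (M := Q) (f := Rat.castHom ℂ)).symm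
        rw [Matrix.nonsing_inv_mul _ hd.isUnit, Matrix.map_one _ (map_zero _) (map_one _)] at this
        exact this
      rw [hQ, ← Matrix.mul_assoc, e1, Matrix.one_mul]
    obtain ⟨N₁, a1, a2⟩ := glue_den Q E₀
    obtain ⟨N₂, a3, a4⟩ := glue_den Q⁻¹ (Ep p)
    rw [← hQ] at a2
    rw [← hinv] at a4
    refine ⟨N₁ * N₂, mul_ne_zero a1 a3, fun a => ?_, fun a => ?_⟩
    · rw [mul_comm, mul_smul]; exact Submodule.smul_mem _ _ (a2 a)
    · rw [mul_smul]; exact Submodule.smul_mem _ _ (a4 a))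
  have hR' := fun (p : ℕ) (hp : p.Prime) => hR (Ep p) ⟨p, hp, rfl⟩
  obtain ⟨E, hE1, hE2⟩ := glue_gen E₀ (glueI Ep) N hN
    (fun x hx => mem_of_loc (glueL E₀).toAddSubgroup _ fun p hp => by
      obtain ⟨M, a1, a2⟩ := hx p hp
      exact ⟨M, a1, by rw [smul_comm]; exact glue_ext (hR' p hp).1 a2⟩)
    (fun x hx p hp => ⟨1, (Nat.prime_iff_prime_int.1 hp).not_dvd_one, by
      rw [one_smul]; exact glue_ext (hR' p hp).2 hx⟩)
  refine ⟨E, fun p hp => ?_⟩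
  have hp' := Nat.prime_iff_prime_int.1 hp
  obtain ⟨e, N₁, b1, b2⟩ := WfDvdMonoid.max_power_factor (mul_ne_zero hN hN) hp'.irreducible
  have hrow : ∀ a, N₁ • Ep p a ∈ glueI Ep := by
    intro a q hq
    have hq' := Nat.prime_iff_prime_int.1 hq
    by_cases hqp : q = p
    · exact ⟨1, hq'.not_dvd_one, by
        rw [one_smul, hqp]; exact Submodule.smul_mem _ _ (glue_row _ a)⟩
    · refine ⟨(p : ℤ) ^ e, fun hd => hqp ((Nat.prime_dvd_prime_iff_eq hq hp).1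
        (Int.natCast_dvd_natCast.1 (hq'.dvd_of_dvd_pow hd))), ?_⟩
      rw [← mul_smul, ← b2, mul_smul]
      exact glue_ext (hR' q hq).2 ((hR' p hp).1 a)
  choose M hM1 hM2 using fun a => hE1 a p hp
  have hnd : ¬ (p : ℤ) ∣ (∏ a, M a) * N₁ := fun hd => (hp'.dvd_or_dvd hd).elim (fun hd => by
    obtain ⟨a, _, ha⟩ := (hp'.dvd_finsetProd_iff M).1 hd
    exact hM1 a ha) b1
  obtain ⟨U, hU⟩ := glue_mat (F := E) (G := Ep p) (N := (∏ a, M a) * N₁) fun a => by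
    obtain ⟨k, hk⟩ := (Finset.dvd_prod_of_mem M (Finset.mem_univ a)).mul_right N₁
    rw [hk, mul_comm, mul_smul]
    exact Submodule.smul_mem _ _ (hM2 a)
  obtain ⟨U', hU'⟩ := glue_mat (F := Ep p) (G := E) (N := (∏ a, M a) * N₁) fun a => by
    rw [mul_smul]
    exact Submodule.smul_mem _ _ (hE2 _ (hrow a))
  exact ⟨_, U, U', hnd, hU, hU'⟩

end Pool.Agent.VW
end

-- part Pool.Agent.P.MP_b0ea37_nt.WMlat
section

namespace Pool.Agent.VW

open Polynomial Matrix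

theorem WMlat_fin {β γ : Type} (f : ℕ → γ) (key : ℕ → β) (s : Set ℕ) (h : (key '' s).Finite)
    (hf : ∀ a ∈ s, ∀ b ∈ s, key a = key b → f a = f b) : (f '' s).Finite := by
  refine (h.image fun κ => f (Function.invFunOn key s κ)).subset ?_
  rintro _ ⟨a, ha, rfl⟩
  exact ⟨key a, ⟨a, ha, rfl⟩, hf _ (Function.invFunOn_mem ⟨a, ha, rfl⟩) a ha
    (Function.invFunOn_eq ⟨a, ha, rfl⟩)⟩

theorem WMlat_root {d : ℕ} {v : ℤ[X]} (hv : VOk d v) {η : Fin d → ℂ} (hη : Lst v η) (k : Fin d) :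
    aeval (η k) v = 0 :=
  (hη.root_iff hv.2.1.ne_zero _).2 ⟨k, rfl⟩

theorem Eloc_finite (d g : ℕ) {D₀ D : Dat} (e : D₀.v = D.v) (hv : VOk d D.v) (η : Fin d → ℂ) :
    ((fun p => Eloc d g p D₀ D η) '' {p | p.Prime}).Finite := by
  refine WMlat_fin _ (fun p => (tt d p D.v, (p = D₀.P), (p = D.P))) _ ?_ ?_
  · refine ((Set.finite_Icc (0 : ℤ) d).prod Set.finite_univ).subset ?_
    rintro _ ⟨p, hp, rfl⟩
    exact ⟨⟨(goodT_tt hv hp).1, (goodT_tt hv hp).2.1⟩, trivial⟩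
  · intro p _ q _ h
    simp only [Prod.mk.injEq, eq_iff_iff] at h
    obtain ⟨h1, h2, h3⟩ := h
    have hz : ∀ z, zt d p D.v z = zt d q D.v z := fun z => by simp only [zt, cc, h1]
    have hp : ∀ D' : Dat, D'.v = D.v → (p = D'.P ↔ q = D'.P) → ∀ z, pz d p D' z = pz d q D' z :=
      fun D' e' h' z => by
        by_cases hq : q = D'.P
        · rw [h'.2 hq, hq]
        · rw [pz_of_ne hq, pz_of_ne fun h0 => hq (h'.1 h0)]
    ext a k
    simp only [Eloc, Matrix.of_apply, hz, hp D₀ e h2, hp D rfl h3]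

theorem Eloc_det_ne_zero {n d g p : ℕ} {D₀ D : Dat} (h₀ : Ok n d D₀) (h : Ok n d D)
    (e : D₀.v = D.v) {η : Fin d → ℂ} (hη : Lst D.v η) (hp : p.Prime) :
    (Eloc d g p D₀ D η).det ≠ 0 := by
  have hr := WMlat_root h.1 hη
  have e1 : Eloc d g p D₀ D η = (Matrix.vandermonde fun k => zt d p D.v (η k))ᵀ *
      Matrix.diagonal fun k => pz d p D₀ (η k) / pz d p D (η k) / zt d p D.v (η k) ^ g := by
    ext a k
    rw [Matrix.mul_diagonal, Matrix.transpose_apply, Matrix.vandermonde_apply, Eloc,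
      Matrix.of_apply]
    ring
  rw [e1, Matrix.det_mul, Matrix.det_transpose, Matrix.det_diagonal]
  refine mul_ne_zero (Matrix.det_vandermonde_ne_zero_iff.2 fun k j hkj => ?_)
    (Finset.prod_ne_zero_iff.2 fun k _ => ?_)
  · exact hη.injective h.1 (zt_inj h.1 hp (hr k) (hr j) hkj)
  · exact div_ne_zero (div_ne_zero (pz_ne_zero h₀ (e ▸ hr k)) (pz_ne_zero h (hr k)))
      (pow_ne_zero _ (zt_ne_zero h.1 hp (hr k)))

/-- a function that is a rational polynomial on the roots of `v` -/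
def WMlatR (v : ℤ[X]) (φ : ℂ → ℂ) : Prop :=
  ∃ q : ℚ[X], ∀ z : ℂ, aeval z v = 0 → φ z = aeval z q

theorem WMlatR.congr {v : ℤ[X]} {φ ψ : ℂ → ℂ} (h : WMlatR v φ)
    (e : ∀ z : ℂ, aeval z v = 0 → ψ z = φ z) : WMlatR v ψ := by
  obtain ⟨q, hq⟩ := h
  exact ⟨q, fun z hz => (e z hz).trans (hq z hz)⟩

theorem WMlatR.mul {v : ℤ[X]} {φ ψ : ℂ → ℂ} (h : WMlatR v φ) (h' : WMlatR v ψ) :
    WMlatR v fun z => φ z * ψ z := by
  obtain ⟨q, hq⟩ := h
  obtain ⟨q', hq'⟩ := h'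
  exact ⟨q * q', fun z hz => by rw [map_mul, ← hq z hz, ← hq' z hz]⟩

theorem WMlatR.pow {v : ℤ[X]} {φ : ℂ → ℂ} (h : WMlatR v φ) (m : ℕ) :
    WMlatR v fun z => φ z ^ m := by
  obtain ⟨q, hq⟩ := h
  exact ⟨q ^ m, fun z hz => by rw [map_pow, ← hq z hz]⟩

theorem WMlat_const (v : ℤ[X]) (c : ℚ) : WMlatR v fun _ => (c : ℂ) :=
  ⟨C c, fun z _ => by simp⟩

theorem WMlat_lin (v : ℤ[X]) (s : ℤ) : WMlatR v fun z => z - s :=
  ⟨X - C (s : ℚ), fun z _ => by simp⟩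

theorem WMlat_up (v : ℤ[X]) (z : ℂ) : aeval z (up ℚ v) = aeval z v :=
  aeval_map_algebraMap ℚ z v

theorem WMlat_inv {v : ℤ[X]} {s : ℤ} (hs : v.eval s ≠ 0) : WMlatR v fun z => (z - s)⁻¹ := by
  obtain ⟨w, hw⟩ := X_sub_C_dvd_sub_C_eval (p := v) (a := s)
  refine ⟨C (-((v.eval s : ℤ) : ℚ)⁻¹) * up ℚ w, fun z hz => ?_⟩
  have h1 := congrArg (aeval z) hw
  have h2 : ((v.eval s : ℤ) : ℂ) ≠ 0 := Int.cast_ne_zero.2 hs
  simp only [map_sub, map_mul, aeval_X, map_intCast, hz, eq_intCast, zero_sub] at h1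
  rw [map_mul, WMlat_up, aeval_C]
  refine inv_eq_of_mul_eq_one_right ?_
  simp only [eq_ratCast, Rat.cast_neg, Rat.cast_inv, Rat.cast_intCast]
  rw [mul_left_comm, ← h1, neg_mul_neg, inv_mul_cancel₀ h2]

theorem WMlat_zt {d p : ℕ} {v : ℤ[X]} (hv : VOk d v) (hp : p.Prime) :
    WMlatR v (zt d p v) ∧ WMlatR v fun z => (zt d p v z)⁻¹ := by
  constructor
  · refine ((WMlat_const v (cc d p v)).mul (WMlat_inv (cc_ne_zero hv hp))).congr fun z _ => ?_
    rw [zt, div_eq_mul_inv, Rat.cast_intCast]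
  · refine ((WMlat_lin v (tt d p v)).mul (WMlat_const v (cc d p v : ℚ)⁻¹)).congr fun z _ => ?_
    rw [zt, inv_div, div_eq_mul_inv, Rat.cast_inv, Rat.cast_intCast]

theorem WMlat_pz {n d p : ℕ} {D : Dat} (h : Ok n d D) (hp : p.Prime) :
    WMlatR D.v (pz d p D) ∧ WMlatR D.v fun z => (pz d p D z)⁻¹ := by
  by_cases e : p = D.P
  · subst e
    have hr : D.v.eval D.r ≠ 0 := fun h0 => h.2.2.2.2.2.2.1 (h0 ▸ dvd_zero _)
    refine ⟨((WMlat_zt h.1 hp).1.mul (WMlat_lin _ D.r)).congr fun z hz => pz_eq h hz,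
      ((WMlat_zt h.1 hp).2.mul (WMlat_inv hr)).congr fun z hz => ?_⟩
    rw [pz_eq h hz, mul_inv]
  · exact ⟨(WMlat_const _ 1).congr fun z _ => by rw [pz_of_ne e, Rat.cast_one],
      (WMlat_const _ 1).congr fun z _ => by rw [pz_of_ne e, Rat.cast_one, inv_one]⟩

theorem WMlatR.coeffs {d : ℕ} {v : ℤ[X]} (hv : VOk d v) {φ : ℂ → ℂ} (h : WMlatR v φ) :
    ∃ c : Fin d → ℚ, ∀ z : ℂ, aeval z v = 0 → φ z = ∑ i, (c i : ℂ) * z ^ (i : ℕ) := by
  obtain ⟨q, hq⟩ := h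
  have hi : Function.Injective (Int.castRingHom ℚ) := Int.cast_injective
  have h0 : up ℚ v ≠ 0 := (Polynomial.map_ne_zero_iff hi).2 hv.2.1.ne_zero
  have hd : (q % up ℚ v).degree < d := by
    have := degree_mod_lt q h0
    rwa [degree_eq_natDegree h0, natDegree_map_eq_of_injective hi, hv.1] at this
  refine ⟨fun i => (q % up ℚ v).coeff i, fun z hz => ?_⟩
  have e1 : aeval z q = aeval z (q % up ℚ v) := by
    conv_lhs => rw [← EuclideanDomain.div_add_mod q (up ℚ v)]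
    rw [map_add, map_mul, WMlat_up, hz, zero_mul, zero_add]
  rw [hq z hz, e1, aeval_def, eval₂_eq_sum,
    ← sum_fin (fun i a => algebraMap ℚ ℂ a * z ^ i) (fun i => by simp) hd]
  simp only [eq_ratCast]

theorem Eloc_rat {n d g p : ℕ} {D₀ D : Dat} (h₀ : Ok n d D₀) (h : Ok n d D)
    (e : D₀.v = D.v) {η : Fin d → ℂ} (hη : Lst D.v η) (hp : p.Prime) :
    ∃ Q : Matrix (Fin d) (Fin d) ℚ,
      Eloc d g p D₀ D η = Q.map (Rat.cast : ℚ → ℂ) * (Matrix.vandermonde η)ᵀ := by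
  have h1 : WMlatR D.v (pz d p D₀) := e ▸ (WMlat_pz h₀ hp).1
  have h2 : ∀ a : Fin d, WMlatR D.v fun z =>
      pz d p D₀ z / pz d p D z * zt d p D.v z ^ (a : ℕ) / zt d p D.v z ^ g := fun a =>
    (((h1.mul (WMlat_pz h hp).2).mul ((WMlat_zt h.1 hp).1.pow a)).mul
      ((WMlat_zt h.1 hp).2.pow g)).congr fun z _ => by
        rw [div_eq_mul_inv, div_eq_mul_inv, inv_pow]
  choose c hc using fun a => (h2 a).coeffs h.1
  refine ⟨Matrix.of c, ?_⟩
  ext a k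
  rw [Eloc, Matrix.of_apply, hc a _ (WMlat_root h.1 hη k), Matrix.mul_apply]
  simp only [Matrix.map_apply, Matrix.of_apply, Matrix.transpose_apply, Matrix.vandermonde_apply]

end Pool.Agent.VW
end

-- part Pool.Agent.P.MP_b0ea37_nt.WMgrI
section

namespace Pool.Agent.VW

open Polynomial Matrix

theorem wmgrI_aeval (z : ℂ) (g : ℤ[X]) : aeval z g = (up ℂ g).eval z := by
  rw [up, eval_map, aeval_def]; rfl

/-- the coefficient functional of a monic polynomial -/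
theorem trace_int {d : ℕ} {V : ℤ[X]} {ζ : Fin d → ℂ} (hV : Roots (up ℂ V) ζ)
    (hζ : Function.Injective ζ) (g : ℤ[X]) :
    ∃ z : ℤ, ∑ k, aeval (ζ k) g / aeval (ζ k) (derivative V) = z := by
  classical
  have hn : up ℂ V = Lagrange.nodal Finset.univ ζ := by rw [Lagrange.nodal_eq]; exact hV
  have hinj : Function.Injective (Int.castRingHom ℂ) := (Int.castRingHom ℂ).injective_int
  have hm : V.Monic := monic_of_injective hinj (by
    have : (up ℂ V).Monic := by rw [hn]; exact Lagrange.nodal_monic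
    exact this)
  have hdeg : (up ℂ (g %ₘ V)).degree < (Finset.univ : Finset (Fin d)).card := by
    rw [← Lagrange.degree_nodal (v := ζ), ← hn, up, up, degree_map_eq_of_injective hinj,
      degree_map_eq_of_injective hinj]
    exact degree_modByMonic_lt g hm
  have hc := Lagrange.coeff_eq_sum (s := Finset.univ) (v := ζ) hζ.injOn hdeg
  refine ⟨(g %ₘ V).coeff ((Finset.univ : Finset (Fin d)).card - 1), ?_⟩
  rw [up, coeff_map, eq_intCast] at hc
  rw [hc]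
  refine Finset.sum_congr rfl fun k _ => ?_
  have h0 : aeval (ζ k) V = 0 := by
    rw [wmgrI_aeval, hn]; exact Lagrange.eval_nodal_at_node (Finset.mem_univ k)
  have h1 : aeval (ζ k) g = aeval (ζ k) (g %ₘ V) := by
    conv_lhs => rw [← modByMonic_add_div g V]
    rw [map_add, map_mul, h0, zero_mul, add_zero]
  have h2 : aeval (ζ k) (derivative V) = ∏ j ∈ Finset.univ.erase k, (ζ k - ζ j) := by
    rw [wmgrI_aeval, up, ← derivative_map, ← up, hn,
      Lagrange.eval_nodal_derivative_eval_node_eq (Finset.mem_univ k), Lagrange.eval_nodal]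
  rw [h1, h2, wmgrI_aeval]

theorem deriv_Vp {d p : ℕ} (hd : 2 ≤ d) {v : ℤ[X]} (hv : VOk d v) (hp : p.Prime) {z : ℂ}
    (hz : aeval z v = 0) : aeval (zt d p v z) (derivative (Vp d p v)) =
      - zt d p v z ^ (d - 2) * aeval z (derivative v) := by
  have hc : (cc d p v : ℂ) ≠ 0 := Int.cast_ne_zero.2 (cc_ne_zero hv hp)
  have hy := zt_ne_zero hv hp hz
  have hm := zt_mul hv hp hz
  set y := zt d p v z
  set c : ℂ := ((cc d p v : ℤ) : ℂ) with hcd
  set t : ℂ := ((tt d p v : ℤ) : ℂ) with htd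
  have hzy : t + c / y = z := by rw [← hm]; field_simp; ring
  have h1 : HasDerivAt (fun w : ℂ => c * aeval w (Vp d p v))
      (c * aeval y (derivative (Vp d p v))) y := ((Vp d p v).hasDerivAt_aeval y).const_mul c
  have h2 : HasDerivAt (fun w : ℂ => t + c / w) (-c / y ^ 2) y := by
    have := (((hasDerivAt_const y c).div (hasDerivAt_id y) hy)).const_add t
    simpa using this
  have h3 : HasDerivAt (fun w : ℂ => aeval (t + c / w) v)
      (aeval z (derivative v) * (-c / y ^ 2)) y := by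
    have := (v.hasDerivAt_aeval (t + c / y)).comp y h2
    rw [hzy] at this
    exact this
  have h4 := (hasDerivAt_pow d y).mul h3
  have h5 : (fun w : ℂ => c * aeval w (Vp d p v)) =ᶠ[nhds y]
      (fun w : ℂ => w ^ d) * fun w : ℂ => aeval (t + c / w) v := by
    filter_upwards [isOpen_ne.mem_nhds hy] with w hw
    have e := aeval_Tw (k := d) (t := tt d p v) (c := cc d p v) (g := v) hv.1.le
      (x := t + c / w) (y := w) (by rw [← htd, ← hcd]; field_simp; ring)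
    have e2 := congrArg (aeval w) (C_mul_VV d (tt d p v) v)
    rw [map_mul, aeval_C, eq_intCast] at e2
    exact e2.trans e
  have h6 := h1.unique (h4.congr_of_eventuallyEq h5)
  rw [hzy, hz, mul_zero, zero_add] at h6
  obtain ⟨e, rfl⟩ := Nat.exists_eq_add_of_le hd
  rw [Nat.add_sub_cancel_left]
  apply mul_left_cancel₀ hc
  rw [h6]
  field_simp
  ring

theorem wmgrI_glue {d : ℕ} {E Ep : Matrix (Fin d) (Fin d) ℂ} {U : Matrix (Fin d) (Fin d) ℤ}
    {N M : ℤ} (β : Fin d → ℂ) (hE : (N : ℂ) • E = U.map (Int.cast : ℤ → ℂ) * Ep)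
    (h : ∀ a b, ∃ z : ℤ, (M : ℂ) * ∑ k, β k * Ep a k * Ep b k = z) (a b : Fin d) :
    ∃ z : ℤ, ((N * N * M : ℤ) : ℂ) * ∑ k, β k * E a k * E b k = z := by
  choose G hG using h
  have e : ∀ a k, (N : ℂ) * E a k = ∑ i, (U a i : ℂ) * Ep i k := fun a k => by
    have := congrFun (congrFun hE a) k
    simpa [Matrix.mul_apply] using this
  refine ⟨∑ i, ∑ j, U a i * U b j * G i j, ?_⟩
  push_cast
  calc (N : ℂ) * N * M * ∑ k, β k * E a k * E b k
      = ∑ k, M * (β k * (N * E a k) * (N * E b k)) := by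
        rw [Finset.mul_sum]; exact Finset.sum_congr rfl fun k _ => by ring
    _ = ∑ k, ∑ i, ∑ j, (U a i : ℂ) * U b j * (M * (β k * Ep i k * Ep j k)) := by
        refine Finset.sum_congr rfl fun k _ => ?_
        rw [e, e, mul_assoc, Finset.sum_mul_sum, Finset.mul_sum, Finset.mul_sum]
        refine Finset.sum_congr rfl fun i _ => ?_
        rw [Finset.mul_sum, Finset.mul_sum]
        exact Finset.sum_congr rfl fun j _ => by ring
    _ = _ := by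
        rw [Finset.sum_comm]
        refine Finset.sum_congr rfl fun i _ => ?_
        rw [Finset.sum_comm]
        refine Finset.sum_congr rfl fun j _ => ?_
        rw [← hG, Finset.mul_sum, Finset.mul_sum]

theorem wmgrI_term {g a b : ℕ} {f f₀ q q₀ y u s : ℂ} (hy : y ≠ 0) :
    f / (f₀ * u) * s * (q₀ / q * y ^ a / y ^ g) * (q₀ / q * y ^ b / y ^ g) =
      -(f * q₀ ^ 2 / (f₀ * q ^ 2) * (y ^ (a + b) * (s * y))) / (-y ^ (2 * g + 1) * u) := by
  have h1 : y * y⁻¹ = 1 := mul_inv_cancel₀ hy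
  simp only [neg_mul, div_eq_mul_inv, mul_inv, ← inv_pow]
  linear_combination
    (-(f * f₀⁻¹ * u⁻¹ * s * q₀ ^ 2 * q⁻¹ ^ 2 * y ^ (a + b) * y⁻¹ ^ (2 * g))) * h1

theorem wmgrI_loc {n d g p : ℕ} (hd : d = 2 * g + 3) {D₀ D : Dat} (h : Ok n d D)
    (hP : Pre d D D₀) {η : Fin d → ℂ} (hη : Lst D.v η) (hp : p.Prime) :
    ∃ M : ℤ, ¬ (p : ℤ) ∣ M ∧ ∀ (s : Fin d → ℂ) (σ : ℤ[X]),
      (∀ k, s k * zt d p D.v (η k) = aeval (zt d p D.v (η k)) σ) → ∀ a b, ∃ z : ℤ,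
        (M : ℂ) * ∑ k, alf D₀ D η k * s k * Eloc d g p D₀ D η a k * Eloc d g p D₀ D η b k = z := by
  obtain ⟨M, w, hM, hw⟩ := (hP.2 p hp).1
  refine ⟨M, hM, fun s σ hs a b => ?_⟩
  have hv := h.1
  have hr : ∀ k, aeval (η k) D.v = 0 := fun k => (hη.root_iff hv.2.1.ne_zero _).2 ⟨k, rfl⟩
  obtain ⟨z, hz⟩ := trace_int (hη.roots_Vp hv hp)
    (fun k j e => hη.injective hv (zt_inj hv hp (hr k) (hr j) e)) (-(w * (X ^ (a + b : ℕ) * σ)))
  refine ⟨z, ?_⟩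
  rw [← hz, Finset.mul_sum]
  refine Finset.sum_congr rfl fun k _ => ?_
  have e : d - 2 = 2 * g + 1 := by omega
  rw [deriv_Vp (by omega) hv hp (hr k), e, map_neg, map_mul, map_mul, map_pow, aeval_X,
    ← hw _ (hr k), ← hs k, alf, Eloc, Matrix.of_apply, Matrix.of_apply,
    wmgrI_term (zt_ne_zero hv hp (hr k))]
  ring

theorem gram_int {n d g : ℕ} (hd : d = 2 * g + 3) {D₀ D : Dat} (h₀ : Ok n d D₀) (h : Ok n d D)
    (hP : Pre d D D₀) {η : Fin d → ℂ} (hη : Lst D.v η) {E : Matrix (Fin d) (Fin d) ℂ}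
    (hE : Glued (fun p => Eloc d g p D₀ D η) E) : ∃ A B, Gr E (alf D₀ D η) η A B := by
  have _ := h₀
  have key : ∀ s : Fin d → ℂ, (∀ p : ℕ, p.Prime → ∃ σ : ℤ[X],
      ∀ k, s k * zt d p D.v (η k) = aeval (zt d p D.v (η k)) σ) → ∀ a b, ∃ z : ℤ,
        ∑ k, alf D₀ D η k * s k * E a k * E b k = z := by
    intro s hs a b
    refine int_of_loc _ fun p hp => ?_
    obtain ⟨N, U, U', hN, hU, -⟩ := hE p hp
    obtain ⟨M, hM, hl⟩ := wmgrI_loc hd h hP hη hp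
    obtain ⟨σ, hσ⟩ := hs p hp
    obtain ⟨z, hz⟩ := wmgrI_glue (fun k => alf D₀ D η k * s k) hU (hl s σ hσ) a b
    refine ⟨N * N * M, z, fun hdv => ?_, hz⟩
    have hpp := Nat.prime_iff_prime_int.1 hp
    rcases hpp.dvd_or_dvd hdv with h1 | h1
    · exact hN ((hpp.dvd_or_dvd h1).elim id id)
    · exact hM h1
  have hr : ∀ k, aeval (η k) D.v = 0 := fun k => (hη.root_iff h.1.2.1.ne_zero _).2 ⟨k, rfl⟩
  choose A hA using key (fun _ => 1) fun p _ => ⟨X, fun k => by rw [one_mul, aeval_X]⟩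
  choose B hB using key η fun p hp => ⟨C (tt d p D.v) * X + C (cc d p D.v), fun k => by
    have := zt_mul h.1 hp (hr k)
    rw [map_add, map_mul, aeval_C, aeval_C, aeval_X, eq_intCast, eq_intCast]
    linear_combination this⟩
  refine ⟨Matrix.of A, Matrix.of B, fun a b => ?_, fun a b => ?_⟩
  · rw [Matrix.of_apply, ← hA]; simp only [mul_one]
  · rw [Matrix.of_apply, ← hB]

end Pool.Agent.VW
end

-- part Pool.Agent.P.MP_b0ea37_nt.WMgrD
section

namespace Pool.Agent.VW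

open Polynomial Matrix

theorem WMgrD_aeval (z : ℂ) (g : ℤ[X]) : aeval z g = (up ℂ g).eval z := by
  rw [aeval_def, eval₂_eq_eval_map]
  rfl

theorem WMgrD_vdm {d : ℕ} {V : ℤ[X]} {ζ : Fin d → ℂ} (hV : Roots (up ℂ V) ζ) :
    ∃ s : ℤ, ∏ k, aeval (ζ k) (derivative V) = s * (vandermonde ζ).det ^ 2 := by
  refine ⟨∏ i : Fin d, ∏ _j ∈ Finset.Ioi i, (-1 : ℤ), ?_⟩
  have h1 : ∀ k, aeval (ζ k) (derivative V) = ∏ j ∈ ({k}ᶜ : Finset (Fin d)), (ζ k - ζ j) := by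
    intro k
    have e : up ℂ (derivative V) = derivative (Lagrange.nodal Finset.univ ζ) := by
      rw [Lagrange.nodal_eq, ← hV, derivative_map]
    rw [WMgrD_aeval, e, Lagrange.eval_nodal_derivative_eval_node_eq (Finset.mem_univ k),
      Lagrange.eval_nodal, Finset.compl_singleton]
  simp_rw [h1]
  rw [← Finset.prod_prod_Ioi_mul_eq_prod_prod_off_diag (fun j k => ζ k - ζ j), det_vandermonde]
  push_cast
  rw [← Finset.prod_pow, ← Finset.prod_mul_distrib]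
  refine Finset.prod_congr rfl fun i _ => ?_
  rw [← Finset.prod_pow, ← Finset.prod_mul_distrib]
  exact Finset.prod_congr rfl fun j _ => by ring

theorem WMgrD_norm {d : ℕ} {V : ℤ[X]} {ζ : Fin d → ℂ} (hV : Roots (up ℂ V) ζ) (w : ℤ[X]) :
    ∃ R : ℤ, ∏ k, aeval (ζ k) w = R := by
  refine ⟨resultant V w d w.natDegree, ?_⟩
  have h := resultant_roots (1 : ℂ) one_ne_zero ζ (up ℂ w) w.natDegree natDegree_map_le
  rw [C_1, one_mul, one_pow, one_mul, ← hV, resultant_map_map] at h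
  simp_rw [WMgrD_aeval]
  exact h.symm

theorem WMgrD_det {d : ℕ} {E : Matrix (Fin d) (Fin d) ℂ} {al : Fin d → ℂ}
    {A : Matrix (Fin d) (Fin d) ℤ} (h : ∀ a b, (A a b : ℂ) = ∑ k, al k * E a k * E b k) :
    (A.det : ℂ) = E.det ^ 2 * ∏ k, al k := by
  have e : A.map (Int.cast : ℤ → ℂ) = E * diagonal al * Eᵀ := by
    ext a b
    rw [map_apply, h, mul_apply]
    refine Finset.sum_congr rfl fun k _ => ?_
    rw [mul_diagonal, transpose_apply]
    ring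
  rw [Int.cast_det, e, det_mul, det_mul, det_transpose, det_diagonal]
  ring

theorem WMgrD_Eloc (d g p : ℕ) (D₀ D : Dat) (η : Fin d → ℂ) : (Eloc d g p D₀ D η).det =
    (vandermonde fun k => zt d p D.v (η k)).det *
      ∏ k, pz d p D₀ (η k) / pz d p D (η k) / zt d p D.v (η k) ^ g := by
  have e : Eloc d g p D₀ D η = (vandermonde fun k => zt d p D.v (η k))ᵀ *
      diagonal fun k => pz d p D₀ (η k) / pz d p D (η k) / zt d p D.v (η k) ^ g := by
    ext a k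
    rw [mul_diagonal, transpose_apply, vandermonde_apply, Eloc, of_apply]
    ring
  rw [e, det_mul, det_transpose, det_diagonal]

theorem WMgrD_loc {n d g : ℕ} (hd : d = 2 * g + 3) {D₀ D : Dat} (h₀ : Ok n d D₀) (h : Ok n d D)
    (hP : Pre d D D₀) {η : Fin d → ℂ} (hη : Lst D.v η) {E : Matrix (Fin d) (Fin d) ℂ}
    (hE : Glued (fun p => Eloc d g p D₀ D η) E) {A B : Matrix (Fin d) (Fin d) ℤ}
    (hG : Gr E (alf D₀ D η) η A B) {p : ℕ} (hp : p.Prime) :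
    ∃ N : ℤ, ¬ (p : ℤ) ∣ N ∧ A.det ∣ N * (cc d p D.v ^ (d - 1) * D.v.leadingCoeff) := by
  have hpi : Prime (p : ℤ) := Nat.prime_iff_prime_int.1 hp
  have hv := h.1
  have hv0 : D.v ≠ 0 := hv.2.1.ne_zero
  obtain ⟨N, U, U', hN, -, hU'⟩ := hE p hp
  obtain ⟨M, w, hM, hw⟩ := (hP.2 p hp).2
  have hr : ∀ k, aeval (η k) D.v = 0 := fun k => (hη.root_iff hv0 _).2 ⟨k, rfl⟩
  have hr₀ : ∀ k, aeval (η k) D₀.v = 0 := fun k => hP.1 ▸ hr k
  have hV := hη.roots_Vp hv hp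
  obtain ⟨s, hs⟩ := WMgrD_vdm hV
  obtain ⟨R, hR⟩ := WMgrD_norm hV w
  have h1 := WMgrD_det hG.1
  have h2 := congrArg det hU'
  rw [det_smul, det_mul, ← Int.cast_det, Fintype.card_fin, WMgrD_Eloc] at h2
  have h3 := hη.prod_zt hv hp (by omega)
  have h4 : ∀ k, (pz d p D₀ (η k) / pz d p D (η k) / zt d p D.v (η k) ^ g) ^ 2 * alf D₀ D η k *
      aeval (zt d p D.v (η k)) (derivative (Vp d p D.v)) * aeval (zt d p D.v (η k)) w =
      -(M : ℂ) * zt d p D.v (η k) := by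
    intro k
    have a1 := pz_ne_zero (p := p) h (hr k)
    have a2 := pz_ne_zero (p := p) h₀ (hr₀ k)
    have a3 := zt_ne_zero hv hp (hr k)
    have a4 := h.2.2.2.2.2.2.2.2 _ (hr k)
    have a5 := h₀.2.2.2.2.2.2.2.2 _ (hr₀ k)
    have a6 : aeval (η k) (derivative D.v) ≠ 0 := by
      have := hv.2.2.2.aeval_derivative_ne_zero (x := η k)
        (by rw [coe_aeval_eq_eval, ← WMgrD_aeval]; exact hr k)
      rwa [coe_aeval_eq_eval, derivative_map, ← WMgrD_aeval] at this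
    rw [← hw _ (hr k), deriv_Vp (by omega) hv hp (hr k), alf,
      (by omega : d - 2 = 2 * g + 1)]
    field_simp
    ring
  have h5 := Finset.prod_congr (s₁ := Finset.univ) rfl fun k _ => h4 k
  rw [Finset.prod_mul_distrib, Finset.prod_mul_distrib, Finset.prod_mul_distrib,
    Finset.prod_mul_distrib, Finset.prod_pow, hs, hR, h3, Finset.prod_const, Finset.card_univ,
    Fintype.card_fin] at h5
  refine ⟨N ^ (2 * d) * M ^ d, fun hdv => ?_, U'.det ^ 2 * s * R, ?_⟩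
  · exact (hpi.dvd_or_dvd hdv).elim (fun a => hN (hpi.dvd_of_dvd_pow a))
      fun a => hM (hpi.dvd_of_dvd_pow a)
  · have e : (-(M : ℂ)) ^ d * (-1) ^ d = (M : ℂ) ^ d := by
      rw [← mul_pow]
      congr 1
      ring
    apply Int.cast_injective (α := ℂ)
    simp only [Int.cast_mul, Int.cast_pow]
    rw [h1, ← e, pow_mul']
    have h6 := congrArg (· ^ 2) h2
    beta_reduce at h6
    generalize (N : ℂ) ^ d = x at h6 ⊢
    linear_combination (∏ k, alf D₀ D η k) * s * R * h6 - x ^ 2 * h5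

theorem gram_det {n d g : ℕ} (hd : d = 2 * g + 3) {D₀ D : Dat} (h₀ : Ok n d D₀) (h : Ok n d D)
    (hP : Pre d D D₀) {η : Fin d → ℂ} (hη : Lst D.v η) {E : Matrix (Fin d) (Fin d) ℂ}
    (hE : Glued (fun p => Eloc d g p D₀ D η) E) {A B : Matrix (Fin d) (Fin d) ℤ}
    (hG : Gr E (alf D₀ D η) η A B) :
    A.det ≠ 0 ∧ A.det ∣ D.v.leadingCoeff * (d.factorial : ℤ) ^ (d - 1) := by
  have h1 : A.det ∣ D.v.leadingCoeff * (d.factorial : ℤ) ^ (d - 1) := by
    refine dvd_of_loc _ _ fun p hp => ?_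
    have hpi : Prime (p : ℤ) := Nat.prime_iff_prime_int.1 hp
    obtain ⟨N, hN, hA⟩ := WMgrD_loc hd h₀ h hP hη hE hG hp
    obtain ⟨-, -, N₀, hN₀, e, he⟩ := goodT_tt h.1 hp
    refine ⟨N * N₀ ^ (d - 1), fun hdv => (hpi.dvd_or_dvd hdv).elim hN
      fun a => hN₀ (hpi.dvd_of_dvd_pow a), hA.trans ⟨e ^ (d - 1), ?_⟩⟩
    have h2 : N₀ ^ (d - 1) * (d.factorial : ℤ) ^ (d - 1) = cc d p D.v ^ (d - 1) * e ^ (d - 1) := by
      rw [← mul_pow, ← mul_pow, he, cc]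
    linear_combination N * D.v.leadingCoeff * h2
  refine ⟨fun h0 => ?_, h1⟩
  rw [h0, zero_dvd_iff] at h1
  exact mul_ne_zero h.1.2.2.1.ne' (pow_ne_zero _ (by exact_mod_cast d.factorial_ne_zero)) h1

end Pool.Agent.VW
end

-- part Pool.Agent.P.MP_b0ea37_nt.WMadm
section

namespace Pool.Agent.VW

open Polynomial Matrix

theorem wmadm_aeval (z : ℂ) (g : ℤ[X]) :
    aeval (starRingEnd ℂ z) g = starRingEnd ℂ (aeval z g) :=
  aeval_algHom_apply (starRingEnd ℂ).toIntAlgHom z g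

theorem wmadm_zt (d p : ℕ) (v : ℤ[X]) (z : ℂ) :
    zt d p v (starRingEnd ℂ z) = starRingEnd ℂ (zt d p v z) := by
  simp [zt]

theorem wmadm_pz (d p : ℕ) (D : Dat) (z : ℂ) :
    pz d p D (starRingEnd ℂ z) = starRingEnd ℂ (pz d p D z) := by
  rw [pz, pz, wmadm_zt, wmadm_aeval]

theorem gram_adm {n d g : ℕ} {D₀ D : Dat} (h₀ : Ok n d D₀) (h : Ok n d D) (e : D₀.v = D.v)
    {η : Fin d → ℂ} (hη : Lst D.v η) {E : Matrix (Fin d) (Fin d) ℂ}
    (hE : Glued (fun p => Eloc d g p D₀ D η) E) {A B : Matrix (Fin d) (Fin d) ℤ}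
    (hG : Gr E (alf D₀ D η) η A B) (hA : A.det ≠ 0)
    (hA' : A.det ∣ D.v.leadingCoeff * (d.factorial : ℤ) ^ (d - 1)) :
    Adm ((d.factorial : ℝ) ^ (d - 1) * (d + 1) * D.v.supNorm) A B := by
  have hv := h.1
  have hl : 0 < D.v.leadingCoeff := hv.2.2.1
  have hl' : (D.v.leadingCoeff : ℂ) ≠ 0 := by exact_mod_cast hl.ne'
  have hinj := hη.injective hv
  have hc : (∏ k, (X - C (η k))).map (starRingEnd ℂ) = ∏ k, (X - C (η k)) := by
    have h1 : (up ℂ D.v).map (starRingEnd ℂ) = up ℂ D.v := by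
      rw [Polynomial.map_map]
      congr 1
      exact RingHom.ext_int _ _
    rw [hη, Polynomial.map_mul, map_C, map_intCast] at h1
    exact mul_left_cancel₀ (C_ne_zero.2 hl') h1
  obtain ⟨s, -, hs⟩ := exists_conj η hinj hc
  obtain ⟨N, U, -, hN, hU, -⟩ := hE 2 Nat.prime_two
  have hN0 : (N : ℂ) ≠ 0 := by
    intro h0
    have : N = 0 := by exact_mod_cast h0
    exact hN (this ▸ dvd_zero _)
  have hU' : ∀ a k, (N : ℂ) * E a k = ∑ b, (U a b : ℂ) * Eloc d g 2 D₀ D η b k := fun a k => by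
    have := congrFun (congrFun hU a) k
    simpa [Matrix.mul_apply] using this
  have hL : ∀ b k, Eloc d g 2 D₀ D η b (s k) = starRingEnd ℂ (Eloc d g 2 D₀ D η b k) := by
    intro b k
    simp only [Eloc, Matrix.of_apply, hs, wmadm_pz, wmadm_zt, map_div₀, map_mul, map_pow]
  refine ⟨E, alf D₀ D η, η, s, hinj, hA, fun k => ⟨hs k, ?_, fun a => ?_⟩, hG.1, hG.2, ?_⟩
  · simp only [alf, hs, wmadm_aeval, map_div₀, map_mul]
  · apply mul_left_cancel₀ hN0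
    have := congrArg (starRingEnd ℂ) (hU' a k)
    rw [map_mul, map_intCast, map_sum] at this
    rw [this, hU']
    refine Finset.sum_congr rfl fun b _ => ?_
    rw [map_mul, map_intCast, hL]
  · have h1 : |A.det| ≤ D.v.leadingCoeff * (d.factorial : ℤ) ^ (d - 1) :=
      Int.le_of_dvd (by positivity) ((abs_dvd _ _).2 hA')
    have h2 : |(A.det : ℝ)| ≤ (D.v.leadingCoeff : ℝ) * (d.factorial : ℝ) ^ (d - 1) := by
      exact_mod_cast h1
    have h3 := prod_max_le (D.v.leadingCoeff : ℂ) η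
    rw [← hη, sup_up_complex, Complex.norm_intCast,
      abs_of_pos (show (0 : ℝ) < D.v.leadingCoeff by exact_mod_cast hl)] at h3
    have h4 : 0 ≤ ∏ k, max 1 ‖η k‖ :=
      Finset.prod_nonneg fun k _ => zero_le_one.trans (le_max_left _ _)
    calc _ ≤ (D.v.leadingCoeff : ℝ) * (d.factorial : ℝ) ^ (d - 1) * ∏ k, max 1 ‖η k‖ := by gcongr
      _ = (d.factorial : ℝ) ^ (d - 1) * ((D.v.leadingCoeff : ℝ) * ∏ k, max 1 ‖η k‖) := by ring
      _ ≤ (d.factorial : ℝ) ^ (d - 1) * ((d + 1) * D.v.supNorm) := by gcongr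
      _ = _ := by ring

theorem wmadm_det {d : ℕ} {η al : Fin d → ℂ} {E : Matrix (Fin d) (Fin d) ℂ}
    {A B : Matrix (Fin d) (Fin d) ℤ} (hG : Gr E al η A B) (x y : ℂ) :
    (x • A.map (Int.cast : ℤ → ℂ) - y • B.map (Int.cast : ℤ → ℂ)).det =
      E.det ^ 2 * (∏ k, al k) * ∏ k, (x - y * η k) := by
  have h1 : x • A.map (Int.cast : ℤ → ℂ) - y • B.map (Int.cast : ℤ → ℂ) =
      E * Matrix.diagonal (fun k => al k * (x - y * η k)) * Eᵀ := by
    ext a b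
    rw [Matrix.mul_apply]
    simp only [Matrix.sub_apply, Matrix.smul_apply, Matrix.map_apply, smul_eq_mul, hG.1, hG.2,
      Matrix.mul_diagonal, Matrix.transpose_apply, Finset.mul_sum, ← Finset.sum_sub_distrib]
    exact Finset.sum_congr rfl fun k _ => by ring
  rw [h1, Matrix.det_mul, Matrix.det_mul, Matrix.det_transpose, Matrix.det_diagonal,
    Finset.prod_mul_distrib]
  ring

/-- equivalent pairs have the same characteristic polynomial -/
theorem same_v {d : ℕ} {v v' : ℤ[X]} (hv : VOk d v) (hv' : VOk d v') {η η' al al' : Fin d → ℂ}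
    (hη : Lst v η) (hη' : Lst v' η') {E E' : Matrix (Fin d) (Fin d) ℂ}
    {A B A' B' U : Matrix (Fin d) (Fin d) ℤ} (hG : Gr E al η A B) (hG' : Gr E' al' η' A' B')
    (hA : A'.det ≠ 0) (h₁ : U * A * Uᵀ = A') (h₂ : U * B * Uᵀ = B') : v = v' := by
  have hm : ∀ M : Matrix (Fin d) (Fin d) ℤ, (U * M * Uᵀ).map (Int.cast : ℤ → ℂ) =
      U.map (Int.cast : ℤ → ℂ) * M.map (Int.cast : ℤ → ℂ) * (U.map (Int.cast : ℤ → ℂ))ᵀ := by
    intro M
    ext a b
    simp [Matrix.mul_apply]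
  have key : ∀ x y : ℂ, E'.det ^ 2 * (∏ k, al' k) * ∏ k, (x - y * η' k) =
      (U.map (Int.cast : ℤ → ℂ)).det ^ 2 * (E.det ^ 2 * (∏ k, al k)) * ∏ k, (x - y * η k) := by
    intro x y
    have e : ∀ P Q W : Matrix (Fin d) (Fin d) ℂ, x • (W * P * Wᵀ) - y • (W * Q * Wᵀ) =
        W * (x • P - y • Q) * Wᵀ := fun P Q W => by
      simp only [Matrix.mul_sub, Matrix.sub_mul, Matrix.mul_smul, Matrix.smul_mul]
    rw [← wmadm_det hG', ← h₁, ← h₂, hm, hm, e, Matrix.det_mul,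
      Matrix.det_mul, Matrix.det_transpose, wmadm_det hG]
    ring
  have h0 := key 1 0
  have h1 := wmadm_det hG' 1 0
  simp only [zero_mul, sub_zero, Finset.prod_const_one, mul_one, one_smul, zero_smul] at h0 h1
  have h2 : E'.det ^ 2 * ∏ k, al' k ≠ 0 := by
    rw [← h1]
    have := (Int.castRingHom ℂ).map_det A'
    rw [RingHom.mapMatrix_apply] at this
    have h3 : (A'.map (Int.cast : ℤ → ℂ)).det = (A'.det : ℂ) := this.symm
    rw [h3]
    exact_mod_cast hA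
  have h3 : (∏ k, (X - C (η' k)) : ℂ[X]) = ∏ k, (X - C (η k)) := by
    refine Polynomial.funext fun x => ?_
    have := key x 1
    rw [← h0] at this
    simpa [eval_prod] using mul_left_cancel₀ h2 this
  have h4 : C v'.leadingCoeff * v = C v.leadingCoeff * v' := by
    apply Polynomial.map_injective (Int.castRingHom ℂ) (RingHom.injective_int _)
    have e1 : v.map (Int.castRingHom ℂ) = _ := hη
    have e2 : v'.map (Int.castRingHom ℂ) = _ := hη'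
    rw [Polynomial.map_mul, Polynomial.map_mul, map_C, map_C, e1, e2, h3, eq_intCast, eq_intCast]
    ring
  have h5 := congrArg content h4
  rw [content_C_mul, content_C_mul, hv.2.1.content_eq_one, hv'.2.1.content_eq_one, mul_one, mul_one,
    Int.normalize_of_nonneg hv.2.2.1.le, Int.normalize_of_nonneg hv'.2.2.1.le] at h5
  rw [h5] at h4
  exact mul_left_cancel₀ (C_ne_zero.2 hv.2.2.1.ne') h4

end Pool.Agent.VW
end

-- part Pool.Agent.P.MP_b0ea37_nt.WMeqv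
section

namespace Pool.Agent.VW

open Polynomial Matrix

theorem wmeqv_mat {d : ℕ} {al : Fin d → ℂ} {E : Matrix (Fin d) (Fin d) ℂ}
    {A : Matrix (Fin d) (Fin d) ℤ} (h : ∀ a b, (A a b : ℂ) = ∑ k, al k * E a k * E b k) :
    A.map (Int.cast : ℤ → ℂ) = E * diagonal al * Eᵀ := by
  ext a b
  rw [map_apply, h, mul_apply]
  refine Finset.sum_congr rfl fun k _ => ?_
  rw [mul_diagonal, transpose_apply]
  ring

theorem wmeqv_map {d : ℕ} (U V : Matrix (Fin d) (Fin d) ℤ) : (U * V).map (Int.cast : ℤ → ℂ) =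
    U.map (Int.cast : ℤ → ℂ) * V.map (Int.cast : ℤ → ℂ) :=
  Matrix.map_mul (f := Int.castRingHom ℂ)

theorem wmeqv_conj {d : ℕ} {al al' : Fin d → ℂ} {E E' W : Matrix (Fin d) (Fin d) ℂ}
    {A A' U : Matrix (Fin d) (Fin d) ℤ} (h : ∀ a b, (A a b : ℂ) = ∑ k, al k * E a k * E b k)
    (h' : ∀ a b, (A' a b : ℂ) = ∑ k, al' k * E' a k * E' b k) (h₁ : U * A * Uᵀ = A')
    (hE : IsUnit E'.det) (hW : U.map (Int.cast : ℤ → ℂ) * E = E' * W) :
    W * diagonal al * Wᵀ = diagonal al' := by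
  have e := congrArg (fun M => M.map (Int.cast : ℤ → ℂ)) h₁
  simp only [wmeqv_map, wmeqv_mat h, wmeqv_mat h', transpose_map] at e
  have u1 : IsUnit E' := (isUnit_iff_isUnit_det _).2 hE
  have u2 : IsUnit E'ᵀ := (isUnit_iff_isUnit_det _).2 (by rwa [det_transpose])
  refine u1.mul_left_cancel (u2.mul_right_cancel ?_)
  rw [← e]
  calc E' * (W * diagonal al * Wᵀ) * E'ᵀ = (E' * W) * diagonal al * (E' * W)ᵀ := by
        simp only [transpose_mul, Matrix.mul_assoc]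
    _ = _ := by simp only [← hW, transpose_mul, Matrix.mul_assoc]

/-- a base change between two diagonal forms of the same pencil is diagonal -/
theorem eqv_diag {d : ℕ} {η al al' : Fin d → ℂ} (hη : Function.Injective η)
    {E E' : Matrix (Fin d) (Fin d) ℂ} {A B A' B' U : Matrix (Fin d) (Fin d) ℤ}
    (hG : Gr E al η A B) (hG' : Gr E' al' η A' B') (hA : A'.det ≠ 0) (h₁ : U * A * Uᵀ = A')
    (h₂ : U * B * Uᵀ = B') : ∃ κ : Fin d → ℂ, (∀ k, κ k ≠ 0 ∧ al' k = κ k ^ 2 * al k) ∧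
      U.map (Int.cast : ℤ → ℂ) * E = E' * Matrix.diagonal κ := by
  have d1 : (E' * diagonal al' * E'ᵀ).det ≠ 0 := by
    rw [← wmeqv_mat hG'.1]
    have e := (Int.castRingHom ℂ).map_det A'
    rw [RingHom.mapMatrix_apply] at e
    exact e ▸ Int.cast_ne_zero.2 hA
  rw [det_mul, det_mul] at d1
  have hE : IsUnit E'.det := (left_ne_zero_of_mul (left_ne_zero_of_mul d1)).isUnit
  have hD : (diagonal al').det ≠ 0 := right_ne_zero_of_mul (left_ne_zero_of_mul d1)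
  obtain ⟨W, hW⟩ : ∃ W, U.map (Int.cast : ℤ → ℂ) * E = E' * W :=
    ⟨E'⁻¹ * (U.map (Int.cast : ℤ → ℂ) * E), (mul_nonsing_inv_cancel_left _ _ hE).symm⟩
  have e1 := wmeqv_conj hG.1 hG'.1 h₁ hE hW
  have e2 := wmeqv_conj (al := fun k => al k * η k) (al' := fun k => al' k * η k) hG.2 hG'.2 h₂
    hE hW
  have u : IsUnit (diagonal al * Wᵀ) := by
    refine (isUnit_iff_isUnit_det _).2 (Ne.isUnit fun h0 => hD ?_)
    rw [← e1, Matrix.mul_assoc, det_mul, h0, mul_zero]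
  have e3 : W * diagonal η = diagonal η * W := by
    refine u.mul_right_cancel ?_
    calc W * diagonal η * (diagonal al * Wᵀ) = W * diagonal (fun k => al k * η k) * Wᵀ := by
          rw [Matrix.mul_assoc, Matrix.mul_assoc, ← Matrix.mul_assoc (diagonal η),
            diagonal_mul_diagonal]
          simp only [mul_comm]
      _ = diagonal η * diagonal al' := by
          rw [e2, diagonal_mul_diagonal]
          simp only [mul_comm]
      _ = _ := by rw [← e1]; simp only [Matrix.mul_assoc]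
  obtain ⟨κ, rfl⟩ : ∃ κ, W = diagonal κ := by
    refine ⟨fun k => W k k, Matrix.ext fun i j => ?_⟩
    by_cases hij : i = j
    · rw [hij, diagonal_apply_eq]
    · have e4 := congrFun (congrFun e3 i) j
      rw [mul_diagonal, diagonal_mul, mul_comm] at e4
      rw [diagonal_apply_ne _ hij]
      exact (mul_eq_mul_right_iff.1 e4).resolve_left fun e5 => hij (hη e5).symm
  rw [diagonal_transpose, diagonal_mul_diagonal, diagonal_mul_diagonal] at e1
  have e5 : ∀ k, al' k = κ k ^ 2 * al k := fun k => by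
    rw [← congrFun (diagonal_injective e1) k]
    ring
  refine ⟨κ, fun k => ⟨fun h0 => hD ?_, e5 k⟩, hW⟩
  rw [det_diagonal]
  exact Finset.prod_eq_zero (Finset.mem_univ k) (by rw [e5, h0]; ring)

theorem wmeqv_row {n d g : ℕ} (hd : 1 ≤ d) {v : ℤ[X]} {D₀ D D' : Dat} (h₀ : Ok n d D₀)
    (h : Ok n d D) (h' : Ok n d D') (e₀ : D₀.v = v) (e : D.v = v) (e' : D'.v = v)
    {η : Fin d → ℂ} (hη : Lst v η) {E E' : Matrix (Fin d) (Fin d) ℂ}
    (hE : Glued (fun p => Eloc d g p D₀ D η) E) (hE' : Glued (fun p => Eloc d g p D₀ D' η) E')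
    {U : Matrix (Fin d) (Fin d) ℤ} {κ : ℂ → ℂ}
    (hU : U.map (Int.cast : ℤ → ℂ) * E = E' * diagonal fun k => κ (η k)) {p : ℕ} (hp : p.Prime) :
    InR d p v fun z => κ z * pz d p D z / pz d p D' z := by
  have hv : VOk d v := e ▸ h.1
  have v0 : v ≠ 0 := leadingCoeff_ne_zero.1 hv.2.2.1.ne'
  obtain ⟨N, U₁, -, hN, a1, -⟩ := hE p hp
  obtain ⟨N', -, U₂, hN', -, a2⟩ := hE' p hp
  have key : ((N * N' : ℤ) : ℂ) • (Eloc d g p D₀ D' η * diagonal fun k => κ (η k)) =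
      (U₂ * U * U₁).map (Int.cast : ℤ → ℂ) * Eloc d g p D₀ D η := by
    rw [wmeqv_map, wmeqv_map, Matrix.mul_assoc, ← a1, Matrix.mul_smul, Matrix.mul_assoc, hU,
      ← Matrix.mul_assoc, ← a2, Matrix.smul_mul, smul_smul, Int.cast_mul]
  refine ⟨N * N', ∑ a : Fin d, C ((U₂ * U * U₁) ⟨0, hd⟩ a) * X ^ (a : ℕ), fun hdv => ?_,
    fun z hz => ?_⟩
  · exact ((Nat.prime_iff_prime_int.1 hp).dvd_or_dvd hdv).elim hN hN'
  obtain ⟨k, rfl⟩ := (hη.root_iff v0 z).1 hz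
  have p0 := pz_ne_zero (p := p) h₀ (e₀ ▸ hz)
  have p1 := pz_ne_zero (p := p) h (e ▸ hz)
  have p2 := pz_ne_zero (p := p) h' (e' ▸ hz)
  have z0 := pow_ne_zero g (zt_ne_zero hv hp hz)
  have k1 := congrFun (congrFun key ⟨0, hd⟩) k
  rw [Matrix.smul_apply, mul_diagonal, mul_apply] at k1
  simp only [Eloc, of_apply, e, e', map_apply, smul_eq_mul, pow_zero, mul_one] at k1
  simp only [map_sum, map_mul, map_pow, aeval_X, eq_intCast, map_intCast]
  refine mul_left_cancel₀ (div_ne_zero (div_ne_zero p0 p1) z0) ?_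
  rw [Finset.mul_sum]
  refine Eq.trans ?_ (k1.trans (Finset.sum_congr rfl fun a _ => by ring))
  field_simp

theorem eqv_sq {n d g : ℕ} (hd : 1 ≤ d) {D₀ D D' : Dat} (h₀ : Ok n d D₀) (h : Ok n d D)
    (h' : Ok n d D') (e : D₀.v = D.v) (e' : D.v = D'.v) {η : Fin d → ℂ} (hη : Lst D.v η)
    {E E' : Matrix (Fin d) (Fin d) ℂ} (hE : Glued (fun p => Eloc d g p D₀ D η) E)
    (hE' : Glued (fun p => Eloc d g p D₀ D' η) E') {A B A' B' U : Matrix (Fin d) (Fin d) ℤ}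
    (hG : Gr E (alf D₀ D η) η A B) (hG' : Gr E' (alf D₀ D' η) η A' B') (hA : A'.det ≠ 0)
    (hU : IsUnit U.det) (h₁ : U * A * Uᵀ = A') (h₂ : U * B * Uᵀ = B') :
    ∃ κ : ℂ → ℂ, Sq d D D' κ := by
  have hi := hη.injective h.1
  have v0 : D.v ≠ 0 := leadingCoeff_ne_zero.1 h.1.2.2.1.ne'
  obtain ⟨κ₀, k1, k2⟩ := eqv_diag hi hG hG' hA h₁ h₂
  obtain ⟨κ, hκ⟩ : ∃ κ : ℂ → ℂ, κ₀ = fun k => κ (η k) :=
    ⟨Function.extend η κ₀ 0, funext fun k => (hi.extend_apply _ _ k).symm⟩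
  subst hκ
  refine ⟨κ, e', fun z hz => ?_, fun p hp => ⟨wmeqv_row hd h₀ h h' e rfl e'.symm hη hE hE' k2 hp,
    ?_⟩⟩
  · obtain ⟨k, rfl⟩ := (hη.root_iff v0 z).1 hz
    have a1 := (k1 k).2
    have a2 : aeval (η k) D₀.f ≠ 0 := h₀.2.2.2.2.2.2.2.2 _ (e ▸ hz)
    have a3 : aeval (η k) (derivative D.v) ≠ 0 := by
      have := h.1.2.2.2.aeval_derivative_ne_zero (x := η k) (by simpa [up, aeval_def, eval_map] using hz)
      simpa [up, aeval_def, eval_map] using this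
    simp only [alf, ← e'] at a1
    field_simp at a1
    linear_combination a1
  · have k3 : U⁻¹.map (Int.cast : ℤ → ℂ) * E' = E * diagonal fun k => (κ (η k))⁻¹ := by
      have a1 : (diagonal fun k => κ (η k)) * (diagonal fun k => (κ (η k))⁻¹) = 1 := by
        rw [diagonal_mul_diagonal, ← diagonal_one]
        exact congrArg _ (funext fun k => mul_inv_cancel₀ (k1 k).1)
      rw [← Matrix.mul_one E', ← a1, ← Matrix.mul_assoc E', ← k2, ← Matrix.mul_assoc,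
        ← Matrix.mul_assoc, ← wmeqv_map, nonsing_inv_mul _ hU,
        Matrix.map_one _ Int.cast_zero Int.cast_one, Matrix.one_mul]
    obtain ⟨N, q, a1, a2⟩ := wmeqv_row (κ := fun z => (κ z)⁻¹) hd h₀ h' h e e'.symm rfl hη hE' hE
      k3 hp
    refine ⟨N, q, a1, fun z hz => Eq.trans ?_ (a2 z hz)⟩
    ring

end Pool.Agent.VW
end

-- part Pool.Agent.P.MP_b0ea37_nt.WMoA
section

namespace Pool.Agent.VW

open Matrix

variable {d : ℕ}

theorem wmoA_mat (E : Matrix (Fin d) (Fin d) ℂ) (c : Fin d → ℂ) (a b : Fin d) :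
    (E * diagonal c * Eᵀ) a b = ∑ k, c k * E a k * E b k := by
  rw [Matrix.mul_apply]
  refine Finset.sum_congr rfl fun k _ => ?_
  rw [Matrix.mul_diagonal, Matrix.transpose_apply]
  ring

/-- a unipotent stabiliser is trivial -/
theorem wmoA_rigid (E₁ E₂ : Matrix (Fin d) (Fin d) ℂ) (al η : Fin d → ℂ)
    (hη : Function.Injective η) (hal : ∀ k, al k ≠ 0) (h1 : E₁.det ≠ 0) (h12 : (E₁ + E₂).det ≠ 0)
    (hA : E₁ * diagonal al * E₁ᵀ = E₂ * diagonal al * E₂ᵀ)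
    (hB : E₁ * diagonal (fun k => η k * al k) * E₁ᵀ = E₂ * diagonal (fun k => η k * al k) * E₂ᵀ) :
    E₁ = E₂ := by
  have hu : IsUnit E₁.det := isUnit_iff_ne_zero.2 h1
  obtain ⟨F, rfl⟩ : ∃ F, E₂ = E₁ * F :=
    ⟨E₁⁻¹ * E₂, by rw [← Matrix.mul_assoc, Matrix.mul_nonsing_inv _ hu, Matrix.one_mul]⟩
  have hU : IsUnit E₁ := (Matrix.isUnit_iff_isUnit_det _).2 hu
  have hUt : IsUnit E₁ᵀ := (Matrix.isUnit_iff_isUnit_det _).2 (by rwa [Matrix.det_transpose])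
  have canc : ∀ X : Matrix (Fin d) (Fin d) ℂ, E₁ * X * E₁ᵀ = E₁ * F * X * (E₁ * F)ᵀ →
      X = F * X * Fᵀ := by
    intro X h
    apply hU.mul_left_cancel
    apply hUt.mul_right_cancel
    rw [h, Matrix.transpose_mul]
    simp only [Matrix.mul_assoc]
  have hA' := canc _ hA
  have hB' := canc _ hB
  have hD : (diagonal al).det ≠ 0 := by
    rw [Matrix.det_diagonal]
    exact Finset.prod_ne_zero_iff.2 fun k _ => hal k
  have hF : F.det ≠ 0 := by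
    intro h0
    apply hD
    rw [hA', Matrix.det_mul, Matrix.det_mul, h0, zero_mul, zero_mul]
  have hDF : IsUnit (diagonal al * Fᵀ) := by
    rw [Matrix.isUnit_iff_isUnit_det, Matrix.det_mul, Matrix.det_transpose]
    exact isUnit_iff_ne_zero.2 (mul_ne_zero hD hF)
  have hcomm : diagonal η * F = F * diagonal η := by
    apply hDF.mul_right_cancel
    have e : diagonal (fun k => η k * al k) = diagonal η * diagonal al :=
      (Matrix.diagonal_mul_diagonal _ _).symm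
    rw [e] at hB'
    calc diagonal η * F * (diagonal al * Fᵀ) = diagonal η * (F * diagonal al * Fᵀ) := by
          simp only [Matrix.mul_assoc]
      _ = diagonal η * diagonal al := by rw [← hA']
      _ = F * diagonal η * (diagonal al * Fᵀ) := by
          conv_lhs => rw [hB']
          simp only [Matrix.mul_assoc]
  have hdiag : F = diagonal fun k => F k k := by
    ext i j
    by_cases hij : i = j
    · subst hij
      simp
    · rw [Matrix.diagonal_apply_ne _ hij]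
      have := congrFun (congrFun hcomm i) j
      rw [Matrix.diagonal_mul, Matrix.mul_diagonal] at this
      have h2 : (η i - η j) * F i j = 0 := by linear_combination this
      exact (mul_eq_zero.1 h2).resolve_left (sub_ne_zero.2 fun h => hij (hη h))
  have hsq : F * F = 1 := by
    have h3 : ∀ k, F k k * F k k = 1 := by
      intro k
      have := congrFun (congrFun hA' k) k
      rw [hdiag, Matrix.diagonal_transpose, Matrix.diagonal_mul_diagonal,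
        Matrix.diagonal_mul_diagonal, Matrix.diagonal_apply_eq, Matrix.diagonal_apply_eq] at this
      apply mul_left_cancel₀ (hal k)
      linear_combination -this
    rw [hdiag, Matrix.diagonal_mul_diagonal, ← Matrix.diagonal_one]
    exact congrArg diagonal (funext h3)
  have hS : IsUnit (E₁ + E₁ * F) :=
    (Matrix.isUnit_iff_isUnit_det _).2 (isUnit_iff_ne_zero.2 h12)
  have hF1 : F = 1 := by
    apply hS.mul_left_cancel
    rw [Matrix.add_mul, Matrix.mul_assoc, hsq, Matrix.mul_one, Matrix.mul_one, add_comm]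
  rw [hF1, Matrix.mul_one]

/-- no large zero block -/
theorem wmoA_block (E : Matrix (Fin d) (Fin d) ℂ) (al η : Fin d → ℂ)
    (hη : Function.Injective η) (hal : ∀ k, al k ≠ 0) (hE : E.det ≠ 0) (i j : Fin d) (hij : i ≤ j)
    (hd : d ≤ i + j + 2) (hA : ∀ a ≤ i, ∀ b ≤ j, ∑ k, al k * E a k * E b k = 0)
    (hB : ∀ a ≤ i, ∀ b ≤ j, ∑ k, η k * al k * E a k * E b k = 0) : False := by
  have hU : IsUnit E := (Matrix.isUnit_iff_isUnit_det _).2 (isUnit_iff_ne_zero.2 hE)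
  have hli : LinearIndependent ℂ E.row := Matrix.linearIndependent_rows_iff_isUnit.2 hU
  let ψ : (Fin d → ℂ) →ₗ[ℂ] (Fin d → ℂ) := (E * diagonal al).mulVecLin
  have hψ : ∀ x b, ψ x b = ∑ k, al k * x k * E b k := by
    intro x b
    simp only [ψ, Matrix.mulVecLin_apply, Matrix.mulVec, dotProduct, Matrix.mul_diagonal]
    exact Finset.sum_congr rfl fun k _ => by ring
  have hinj : Function.Injective ψ := by
    apply Matrix.mulVec_injective_iff_isUnit.2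
    rw [Matrix.isUnit_iff_isUnit_det, Matrix.det_mul, Matrix.det_diagonal]
    exact isUnit_iff_ne_zero.2 (mul_ne_zero hE (Finset.prod_ne_zero_iff.2 fun k _ => hal k))
  let K : Submodule ℂ (Fin d → ℂ) :=
    { carrier := {x | ∀ b ≤ j, ψ x b = 0}
      add_mem' := fun {x y} hx hy b hb => by
        rw [map_add, Pi.add_apply, hx b hb, hy b hb, add_zero]
      zero_mem' := fun b _ => by simp
      smul_mem' := fun c x hx b hb => by rw [map_smul, Pi.smul_apply, hx b hb, smul_zero] }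
  have hK : ∀ x, x ∈ K ↔ ∀ b ≤ j, ψ x b = 0 := fun x => Iff.rfl
  let ρ : K →ₗ[ℂ] (Finset.Ioi j → ℂ) :=
    (LinearMap.funLeft ℂ ℂ (Subtype.val : Finset.Ioi j → Fin d)).comp (ψ.comp K.subtype)
  have hρ : Function.Injective ρ := by
    rw [injective_iff_map_eq_zero]
    intro x hx
    apply Subtype.ext
    apply hinj
    ext b
    rw [ZeroMemClass.coe_zero, map_zero, Pi.zero_apply]
    rcases le_or_gt b j with hb | hb
    · exact x.2 b hb
    · exact congrFun hx ⟨b, Finset.mem_Ioi.2 hb⟩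
  have hKd : Module.finrank ℂ K ≤ d - 1 - j := by
    have := LinearMap.finrank_le_finrank_of_injective hρ
    rwa [Module.finrank_fintype_fun_eq_card, Fintype.card_coe, Fin.card_Ioi] at this
  let U : Submodule ℂ (Fin d → ℂ) :=
    Submodule.span ℂ (Set.range fun a : Finset.Iic i => E.row a)
  have hUd : Module.finrank ℂ U = i + 1 := by
    have := finrank_span_eq_card (hli.comp (Subtype.val : Finset.Iic i → Fin d) Subtype.val_injective)
    rwa [Fintype.card_coe, Fin.card_Iic] at this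
  have hUK : U ≤ K := by
    rw [Submodule.span_le]
    rintro _ ⟨a, rfl⟩ b hb
    rw [hψ]
    exact hA a (Finset.mem_Iic.1 a.2) b hb
  have hUK' : U = K := Submodule.eq_of_le_of_finrank_le hUK (by omega)
  let T : (Fin d → ℂ) →ₗ[ℂ] (Fin d → ℂ) := (diagonal η).mulVecLin
  have hT : ∀ x k, T x k = η k * x k := fun x k => Matrix.mulVec_diagonal η x k
  have hTU : U ≤ K.comap T := by
    rw [Submodule.span_le]
    rintro _ ⟨a, rfl⟩ b hb
    rw [hψ, ← hB a (Finset.mem_Iic.1 a.2) b hb]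
    refine Finset.sum_congr rfl fun k _ => ?_
    rw [hT]
    change al k * (η k * E a k) * E b k = _
    ring
  have hpow : ∀ m : ℕ, (fun k => η k ^ m * E i k) ∈ U := by
    intro m
    induction m with
    | zero =>
      have : (fun k => η k ^ 0 * E i k) = E.row i := by
        ext k
        simp
      rw [this]
      exact Submodule.subset_span ⟨⟨i, Finset.mem_Iic.2 le_rfl⟩, rfl⟩
    | succ m ih =>
      have : (fun k => η k ^ (m + 1) * E i k) = T fun k => η k ^ m * E i k := by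
        ext k
        rw [hT]
        ring
      rw [this, hUK']
      exact hTU ih
  have hz : (fun k => al k * E i k * E i k) = 0 := by
    apply Matrix.eq_zero_of_forall_pow_sum_mul_pow_eq_zero hη
    intro m
    have := hUK (hpow m) i hij
    rw [hψ] at this
    rw [← this]
    exact Finset.sum_congr rfl fun k _ => by ring
  apply hli.ne_zero i
  ext k
  have := congrFun hz k
  simp only [Pi.zero_apply, mul_eq_zero, hal k, false_or, or_self] at this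
  exact this

end Pool.Agent.VW
end

-- part Pool.Agent.P.MP_b0ea37_nt.WMoB
section

namespace Pool.Agent.VW

open Matrix

variable {d : ℕ}

/-- symmetric, bounded, without unipotent stabiliser -/
def WMoRed (L : Fin d → ℝ) (A B : Matrix (Fin d) (Fin d) ℤ) : Prop :=
  Aᵀ = A ∧ Bᵀ = B ∧ (∀ a b, |(A a b : ℝ)| ≤ L a * L b) ∧ (∀ a b, |(B a b : ℝ)| ≤ L a * L b) ∧
    ∀ N N' : Matrix (Fin d) (Fin d) ℤ, N.det ≠ 0 → (N + N').det ≠ 0 →
      N * A * Nᵀ = N' * A * N'ᵀ → N * B * Nᵀ = N' * B * N'ᵀ → N = N'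

theorem wmoB_box (R : Fin d → Fin d → ℝ) (hR : ∀ a b, 0 ≤ R a b) :
    Cnt (fun p : Matrix (Fin d) (Fin d) ℤ × Matrix (Fin d) (Fin d) ℤ => p.1ᵀ = p.1 ∧ p.2ᵀ = p.2 ∧
      (∀ a b, |(p.1 a b : ℝ)| ≤ R a b) ∧ ∀ a b, |(p.2 a b : ℝ)| ≤ R a b)
      ((∏ a, ∏ b, (2 * R a b + 1)) * ∏ a, (2 * R a a + 1)) := by
  have h1 := Cnt.pi fun a => Cnt.pi fun b => cnt_int_abs (R a b) (hR a b)
  have h2 := Cnt.pi fun a => cnt_int_abs (R a a) (hR a a)
  refine (h1.prod h2.nonneg fun _ _ => h2).inj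
    (fun p => (fun a b => if a ≤ b then p.1 a b else p.2 a b, fun a => p.2 a a)) ?_ ?_
  · rintro p ⟨-, -, hA, hB⟩
    refine ⟨fun a b => ?_, fun a => hB a a⟩
    by_cases h : a ≤ b
    · simpa only [if_pos h] using hA a b
    · simpa only [if_neg h] using hB a b
  · rintro p q ⟨hp1, hp2, -⟩ ⟨hq1, hq2, -⟩ h
    have e1 := congrArg Prod.fst h
    have e2 := congrArg Prod.snd h
    have sp1 : ∀ a b, p.1 a b = p.1 b a := fun a b => (congrFun (congrFun hp1 a) b).symm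
    have sp2 : ∀ a b, p.2 a b = p.2 b a := fun a b => (congrFun (congrFun hp2 a) b).symm
    have sq1 : ∀ a b, q.1 a b = q.1 b a := fun a b => (congrFun (congrFun hq1 a) b).symm
    have sq2 : ∀ a b, q.2 a b = q.2 b a := fun a b => (congrFun (congrFun hq2 a) b).symm
    have k1 : ∀ a b, a ≤ b → p.1 a b = q.1 a b := fun a b hab => by
      simpa only [if_pos hab] using congrFun (congrFun e1 a) b
    have k2 : ∀ a b, ¬ a ≤ b → p.2 a b = q.2 a b := fun a b hab => by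
      simpa only [if_neg hab] using congrFun (congrFun e1 a) b
    refine Prod.ext ?_ ?_
    · ext a b
      rcases le_total a b with hab | hab
      · exact k1 a b hab
      · rw [sp1, sq1, k1 b a hab]
    · ext a b
      rcases lt_trichotomy a b with hab | hab | hab
      · rw [sp2, sq2, k2 b a (not_le.2 hab)]
      · subst hab
        exact congrFun e2 a
      · exact k2 a b (not_le.2 hab)

theorem wmoB_weight (L : Fin d → ℝ) (hpos : ∀ i, 0 < L i) (hmono : Monotone L)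
    (hL : ∀ i j : Fin d, d ≤ i + j + 2 → 1 ≤ L i * L j) :
    (∏ a, ∏ b, max 1 (L a * L b)) * ∏ a, max 1 (L a * L a) ≤
      (∏ a, L a) ^ (2 * d + 2) * ∏ h, ∏ j, if j < h then L h / L j else 1 := by
  have hP : (∏ a, L a) ^ (2 * d + 2) = (∏ a, ∏ b, L a * L b) * ∏ a, L a * L a := by
    simp only [Finset.prod_mul_distrib, Finset.prod_const, Finset.card_univ, Fintype.card_fin,
      Finset.prod_pow]
    ring
  rw [hP]
  have key : ∀ a b h : Fin d, d ≤ a + h + 2 →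
      max 1 (L a * L b) ≤ L a * L b * if b < h then L h / L b else 1 := by
    intro a b h hd
    by_cases hb : b < h
    · have e : L a * L b * (L h / L b) = L a * L h := by
        have := (hpos b).ne'
        field_simp
      rw [if_pos hb, e]
      exact max_le (hL a h hd) (mul_le_mul_of_nonneg_left (hmono hb.le) (hpos a).le)
    · rw [if_neg hb, mul_one]
      have : (h : ℕ) ≤ b := not_lt.1 hb
      exact max_le (hL a b (by omega)) le_rfl
  have h0 : ∀ a b, 0 ≤ max 1 (L a * L b) := fun a b => le_max_of_le_left zero_le_one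
  cases d with
  | zero => simp
  | succ e =>
    have h1 : ∏ a : Fin e, ∏ b, max 1 (L a.castSucc * L b) ≤
        (∏ a : Fin e, ∏ b, L a.castSucc * L b) *
          ∏ h : Fin e, ∏ j, if j < h.castSucc then L h.castSucc / L j else 1 := by
      rw [← Equiv.prod_comp Fin.revPerm
        (fun h : Fin e => ∏ j, if j < h.castSucc then L h.castSucc / L j else 1),
        ← Finset.prod_mul_distrib]
      refine Finset.prod_le_prod (fun a _ => Finset.prod_nonneg fun b _ => h0 _ _) fun a _ => ?_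
      rw [← Finset.prod_mul_distrib]
      refine Finset.prod_le_prod (fun b _ => h0 _ _) fun b _ => key _ _ _ ?_
      have := a.2
      simp only [Fin.revPerm_apply, Fin.val_castSucc, Fin.val_rev]
      omega
    have h2 : ∏ b, max 1 (L (Fin.last e) * L b) ≤ ∏ b, L (Fin.last e) * L b :=
      Finset.prod_le_prod (fun b _ => h0 _ _) fun b _ =>
        max_le (hL _ _ (by simp only [Fin.val_last]; omega)) le_rfl
    have h3 : ∏ a, max 1 (L a * L a) ≤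
        (∏ a, L a * L a) * ∏ j, if j < Fin.last e then L (Fin.last e) / L j else 1 := by
      rw [← Finset.prod_mul_distrib]
      exact Finset.prod_le_prod (fun b _ => h0 _ _) fun b _ =>
        key _ _ _ (by simp only [Fin.val_last]; omega)
    rw [Fin.prod_univ_castSucc (fun a => ∏ b, max 1 (L a * L b)),
      Fin.prod_univ_castSucc (fun a => ∏ b, L a * L b),
      Fin.prod_univ_castSucc (fun h => ∏ j, if j < h then L h / L j else 1)]
    have n1 : 0 ≤ ∏ a : Fin e, ∏ b, max 1 (L a.castSucc * L b) :=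
      Finset.prod_nonneg fun a _ => Finset.prod_nonneg fun b _ => h0 _ _
    have n2 : 0 ≤ ∏ b, max 1 (L (Fin.last e) * L b) := Finset.prod_nonneg fun b _ => h0 _ _
    have n3 : 0 ≤ ∏ a, max 1 (L a * L a) := Finset.prod_nonneg fun b _ => h0 _ _
    refine (mul_le_mul (mul_le_mul h1 h2 n2 (n1.trans h1)) h3 n3
      (mul_nonneg (n1.trans h1) (n2.trans h2))).trans (le_of_eq ?_)
    ring

theorem wmoB_entry (L : Fin d → ℝ) (hpos : ∀ i, 0 < L i) (N A : Matrix (Fin d) (Fin d) ℤ)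
    (hN : ∀ h j, |(N h j : ℝ)| ≤ L h / L j) (hA : ∀ a b, |(A a b : ℝ)| ≤ L a * L b) (i j : Fin d) :
    |((N * A * Nᵀ) i j : ℝ)| ≤ d ^ 2 * (L i * L j) := by
  simp only [Matrix.mul_apply, Matrix.transpose_apply, Finset.sum_mul]
  push_cast
  have h : ∀ b a, |(N i a : ℝ) * A a b * N j b| ≤ L i * L j := by
    intro b a
    rw [abs_mul, abs_mul]
    have ha := hpos a
    have hb := hpos b
    have hi := hpos i
    refine (mul_le_mul (mul_le_mul (hN i a) (hA a b) (abs_nonneg _) (by positivity)) (hN j b)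
      (abs_nonneg _) (by positivity)).trans (le_of_eq ?_)
    field_simp
  refine (Finset.abs_sum_le_sum_abs _ _).trans ?_
  refine (Finset.sum_le_sum fun b _ => (Finset.abs_sum_le_sum_abs _ _).trans
    (Finset.sum_le_sum fun a _ => h b a)).trans (le_of_eq ?_)
  simp only [Finset.sum_const, Finset.card_univ, Fintype.card_fin, nsmul_eq_mul]
  ring

theorem wmoB_trans (L : Fin d → ℝ) (hpos : ∀ i, 0 < L i) :
    ∃ T : Finset (Matrix (Fin d) (Fin d) ℤ),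
      (∏ h, ∏ j, if j < h then L h / L j else 1) ≤ (T.card : ℝ) ∧
      ∀ N ∈ T, (∀ h j, |(N h j : ℝ)| ≤ L h / L j) ∧ (∀ h j, h < j → N h j = 0) ∧ ∀ h, N h h = 1 := by
  let I : Fin d → Fin d → Finset ℤ := fun h j =>
    if j < h then Finset.Icc 0 ⌊L h / L j⌋ else if j = h then {1} else {0}
  have hq : ∀ h j, 0 < L h / L j := fun h j => div_pos (hpos h) (hpos j)
  refine ⟨Fintype.piFinset fun h => Fintype.piFinset fun j => I h j, ?_, ?_⟩
  · erw [Fintype.card_piFinset]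
    simp only [Fintype.card_piFinset]
    push_cast
    refine Finset.prod_le_prod (fun h _ => Finset.prod_nonneg fun j _ => ?_) fun h _ =>
      Finset.prod_le_prod (fun j _ => ?_) fun j _ => ?_
    · split_ifs
      exacts [(hq h j).le, zero_le_one]
    · split_ifs
      exacts [(hq h j).le, zero_le_one]
    · by_cases hj : j < h
      · simp only [I, if_pos hj, Int.card_Icc, sub_zero]
        have h1 : (0 : ℤ) ≤ ⌊L h / L j⌋ + 1 := by
          have := Int.floor_nonneg.2 (hq h j).le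
          omega
        have h2 : (((⌊L h / L j⌋ + 1).toNat : ℕ) : ℝ) = ((⌊L h / L j⌋ + 1 : ℤ) : ℝ) := by
          rw [← Int.cast_natCast, Int.toNat_of_nonneg h1]
        rw [h2]
        push_cast
        exact (Int.lt_floor_add_one _).le
      · simp only [I, if_neg hj]
        split_ifs <;> simp
  · intro N hN
    have hI : ∀ h j, N h j ∈ I h j := fun h j =>
      Fintype.mem_piFinset.1 (Fintype.mem_piFinset.1 hN h) j
    have hz : ∀ h j, h < j → N h j = 0 := by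
      intro h j hj
      simpa only [I, if_neg (not_lt.2 hj.le), if_neg hj.ne', Finset.mem_singleton] using hI h j
    have ho : ∀ h, N h h = 1 := by
      intro h
      simpa only [I, if_neg (lt_irrefl h), if_true, Finset.mem_singleton] using hI h h
    refine ⟨fun h j => ?_, hz, ho⟩
    rcases lt_trichotomy h j with hj | hj | hj
    · rw [hz h j hj]
      simpa using (hq h j).le
    · subst hj
      rw [ho, div_self (hpos h).ne']
      simp
    · have := hI h j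
      simp only [I, if_pos hj, Finset.mem_Icc] at this
      rw [abs_of_nonneg (by exact_mod_cast this.1)]
      exact Int.le_floor.1 this.2

theorem wmoB_det (N : Matrix (Fin d) (Fin d) ℤ) (h : ∀ h j, h < j → N h j = 0) :
    N.det = ∏ i, N i i :=
  Matrix.det_of_isLowerTriangular N fun i j hij => h i j hij

theorem wmoB_core (L : Fin d → ℝ) (hpos : ∀ i, 0 < L i) (hmono : Monotone L)
    (hL : ∀ i j : Fin d, d ≤ i + j + 2 → 1 ≤ L i * L j) {α : Type} (P : α → Prop)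
    (A B : α → Matrix (Fin d) (Fin d) ℤ) (hred : ∀ x, P x → WMoRed L (A x) (B x))
    (hin : ∀ x y, P x → P y → ∀ N N' : Matrix (Fin d) (Fin d) ℤ, N.det = 1 → N'.det = 1 →
      N * A x * Nᵀ = N' * A y * N'ᵀ → N * B x * Nᵀ = N' * B y * N'ᵀ → x = y) :
    Cnt P ((2 * (d : ℝ) ^ 2 + 1) ^ (d * d + d) * (∏ a, L a) ^ (2 * d + 2)) := by
  classical
  obtain ⟨T, hT, hTm⟩ := wmoB_trans L hpos
  have hdet : ∀ N ∈ T, N.det = 1 := fun N hN => by
    rw [wmoB_det N (hTm N hN).2.1]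
    exact Finset.prod_eq_one fun i _ => (hTm N hN).2.2 i
  have hw : 0 < ∏ h, ∏ j, if j < h then L h / L j else 1 := by
    refine Finset.prod_pos fun h _ => Finset.prod_pos fun j _ => ?_
    split_ifs
    exacts [div_pos (hpos h) (hpos j), zero_lt_one]
  have hLL : ∀ a b, 0 ≤ L a * L b := fun a b => (mul_pos (hpos a) (hpos b)).le
  have hQ := wmoB_box (fun a b => d ^ 2 * (L a * L b)) fun a b => mul_nonneg (by positivity) (hLL a b)
  refine (Cnt.double (P := P) (fun x p => ∃ N ∈ T, p = (N * A x * Nᵀ, N * B x * Nᵀ)) hw zero_le_one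
    hQ ?_ ?_).mono (fun _ h => h) ?_
  · intro x hx
    obtain ⟨sA, sB, bA, bB, hr⟩ := hred x hx
    refine ⟨T.image fun N => (N * A x * Nᵀ, N * B x * Nᵀ), ?_, ?_⟩
    · rw [Finset.card_image_of_injOn]
      · exact hT
      · intro N hN N' hN' h
        refine hr N N' (by rw [hdet N hN]; exact one_ne_zero) ?_ (congrArg Prod.fst h)
          (congrArg Prod.snd h)
        rw [wmoB_det]
        · refine Finset.prod_ne_zero_iff.2 fun i _ => ?_
          rw [Matrix.add_apply, (hTm N hN).2.2, (hTm N' hN').2.2]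
          exact two_ne_zero
        · intro i j hij
          rw [Matrix.add_apply, (hTm N hN).2.1 i j hij, (hTm N' hN').2.1 i j hij, add_zero]
    · intro p hp
      obtain ⟨N, hN, rfl⟩ := Finset.mem_image.1 hp
      refine ⟨⟨?_, ?_, wmoB_entry L hpos N _ (hTm N hN).1 bA, wmoB_entry L hpos N _ (hTm N hN).1 bB⟩,
        N, hN, rfl⟩
      · simp only [Matrix.transpose_mul, Matrix.transpose_transpose, sA, Matrix.mul_assoc]
      · simp only [Matrix.transpose_mul, Matrix.transpose_transpose, sB, Matrix.mul_assoc]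
  · intro p _
    refine Cnt.one ?_
    rintro x y ⟨hx, N, hN, e⟩ ⟨hy, N', hN', e'⟩
    have h := e.symm.trans e'
    exact hin x y hx hy N N' (hdet N hN) (hdet N' hN') (congrArg Prod.fst h) (congrArg Prod.snd h)
  · rw [mul_one, div_le_iff₀ hw, mul_assoc]
    have t : ∀ a b, 2 * ((d : ℝ) ^ 2 * (L a * L b)) + 1 ≤ (2 * (d : ℝ) ^ 2 + 1) * max 1 (L a * L b) := by
      intro a b
      have h1 := le_max_left 1 (L a * L b)
      have h2 := mul_le_mul_of_nonneg_left (le_max_right 1 (L a * L b)) (sq_nonneg (d : ℝ))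
      linarith
    have t0 : ∀ a b, 0 ≤ 2 * ((d : ℝ) ^ 2 * (L a * L b)) + 1 := fun a b => by
      have := hLL a b
      positivity
    have h1 : ∏ a, ∏ b, (2 * ((d : ℝ) ^ 2 * (L a * L b)) + 1) ≤
        ∏ a, ∏ b, (2 * (d : ℝ) ^ 2 + 1) * max 1 (L a * L b) :=
      Finset.prod_le_prod (fun a _ => Finset.prod_nonneg fun b _ => t0 a b) fun a _ =>
        Finset.prod_le_prod (fun b _ => t0 a b) fun b _ => t a b
    have h2 : ∏ a, (2 * ((d : ℝ) ^ 2 * (L a * L a)) + 1) ≤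
        ∏ a, (2 * (d : ℝ) ^ 2 + 1) * max 1 (L a * L a) :=
      Finset.prod_le_prod (fun a _ => t0 a a) fun a _ => t a a
    refine (mul_le_mul h1 h2 (Finset.prod_nonneg fun a _ => t0 a a)
      ((Finset.prod_nonneg fun a _ => Finset.prod_nonneg fun b _ => t0 a b).trans h1)).trans ?_
    refine le_trans (le_of_eq ?_) (mul_le_mul_of_nonneg_left (wmoB_weight L hpos hmono hL)
      (by positivity))
    simp only [Finset.prod_mul_distrib, Finset.prod_const, Finset.card_univ, Fintype.card_fin]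
    ring

end Pool.Agent.VW
end

-- part Pool.Agent.P.MP_b0ea37_nt.WMorb
section

namespace Pool.Agent.VW

open Matrix

variable {d : ℕ}

theorem wmorb_gram (E : Matrix (Fin d) (Fin d) ℂ) (q : Fin d → ℝ) (s : Equiv.Perm (Fin d))
    (hq : ∀ k, 0 < q k) (hqs : ∀ k, q (s k) = q k) (hs : ∀ k a, E a (s k) = starRingEnd ℂ (E a k))
    (hE : E.det ≠ 0) : ∃ G : Matrix (Fin d) (Fin d) ℝ, G.PosDef ∧ G.det = ‖E.det‖ ^ 2 * ∏ k, q k ∧
      ∀ x : Fin d → ℝ, x ⬝ᵥ G *ᵥ x = ∑ k, q k * ‖∑ a, (x a : ℂ) * E a k‖ ^ 2 := by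
  let G : Matrix (Fin d) (Fin d) ℝ :=
    Matrix.of fun a b => (∑ k, (q k : ℂ) * E a k * starRingEnd ℂ (E b k)).re
  have hc : ∀ a b, starRingEnd ℂ (∑ k, (q k : ℂ) * E a k * starRingEnd ℂ (E b k)) =
      ∑ k, (q k : ℂ) * E b k * starRingEnd ℂ (E a k) := by
    intro a b
    rw [map_sum]
    refine Finset.sum_congr rfl fun k _ => ?_
    rw [map_mul, map_mul, Complex.conj_ofReal, Complex.conj_conj]
    ring
  have hsym : ∀ a b, ∑ k, (q k : ℂ) * E b k * starRingEnd ℂ (E a k) =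
      ∑ k, (q k : ℂ) * E a k * starRingEnd ℂ (E b k) := by
    intro a b
    rw [← Equiv.sum_comp s]
    refine Finset.sum_congr rfl fun k _ => ?_
    rw [hqs, hs, hs, Complex.conj_conj]
    ring
  have hG : ∀ a b, (G a b : ℂ) = ∑ k, (q k : ℂ) * E a k * starRingEnd ℂ (E b k) := fun a b =>
    Complex.conj_eq_iff_re.1 ((hc a b).trans (hsym a b))
  have hquad : ∀ x : Fin d → ℝ, x ⬝ᵥ G *ᵥ x = ∑ k, q k * ‖∑ a, (x a : ℂ) * E a k‖ ^ 2 := by
    intro x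
    apply Complex.ofReal_injective
    simp only [dotProduct, Matrix.mulVec]
    push_cast
    simp only [hG, ← Complex.mul_conj', map_sum, map_mul, Complex.conj_ofReal, Finset.mul_sum,
      Finset.sum_mul]
    rw [Finset.sum_comm]
    conv_rhs => rw [Finset.sum_comm]
    refine Finset.sum_congr rfl fun b _ => ?_
    rw [Finset.sum_comm]
    refine Finset.sum_congr rfl fun k _ => Finset.sum_congr rfl fun a _ => ?_
    ring
  have hU : IsUnit E := (Matrix.isUnit_iff_isUnit_det _).2 (isUnit_iff_ne_zero.2 hE)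
  refine ⟨G, Matrix.PosDef.of_dotProduct_mulVec_pos ?_ fun x hx => ?_, ?_, hquad⟩
  · ext a b
    apply Complex.ofReal_injective
    rw [Matrix.conjTranspose_apply, star_trivial, hG, hG, hsym]
  · rw [star_trivial, hquad]
    have hne : (fun a => (x a : ℂ)) ᵥ* E ≠ 0 := by
      intro h
      apply hx
      have := Matrix.vecMul_injective_of_isUnit hU (h.trans (Matrix.zero_vecMul E).symm)
      ext a
      exact Complex.ofReal_eq_zero.1 (congrFun this a)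
    obtain ⟨k, hk⟩ := Function.ne_iff.1 hne
    refine Finset.sum_pos' (fun k _ => mul_nonneg (hq k).le (sq_nonneg _))
      ⟨k, Finset.mem_univ _, mul_pos (hq k) (pow_pos (norm_pos_iff.2 hk) 2)⟩
  · apply Complex.ofReal_injective
    have h1 : Complex.ofRealHom.mapMatrix G = E * diagonal (fun k => (q k : ℂ)) * Eᴴ := by
      ext a b
      rw [Matrix.mul_apply]
      refine (hG a b).trans (Finset.sum_congr rfl fun k _ => ?_)
      rw [Matrix.mul_diagonal, Matrix.conjTranspose_apply, mul_comm (E a k)]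
      rfl
    have h2 := Complex.ofRealHom.map_det G
    rw [h1, Matrix.det_mul, Matrix.det_mul, Matrix.det_diagonal, Matrix.det_conjTranspose] at h2
    refine h2.trans ?_
    push_cast
    rw [← Complex.mul_conj']
    change _ * starRingEnd ℂ E.det = _
    ring

theorem wmorb_cs (q : Fin d → ℝ) (c u v : Fin d → ℂ) (hq : ∀ k, ‖c k‖ ≤ q k) :
    ‖∑ k, c k * u k * v k‖ ≤ √(∑ k, q k * ‖u k‖ ^ 2) * √(∑ k, q k * ‖v k‖ ^ 2) := by
  have h0 : ∀ k, 0 ≤ q k := fun k => (norm_nonneg _).trans (hq k)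
  have h1 : ‖∑ k, c k * u k * v k‖ ≤ ∑ k, q k * ‖u k‖ * ‖v k‖ := by
    refine (norm_sum_le _ _).trans (Finset.sum_le_sum fun k _ => ?_)
    rw [norm_mul, norm_mul]
    exact mul_le_mul_of_nonneg_right (mul_le_mul_of_nonneg_right (hq k) (norm_nonneg _))
      (norm_nonneg _)
  refine h1.trans ?_
  rw [← Real.sqrt_mul (Finset.sum_nonneg fun k _ => mul_nonneg (h0 k) (sq_nonneg _))]
  refine Real.le_sqrt_of_sq_le (Finset.sum_sq_le_sum_mul_sum_of_sq_le_mul _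
    (fun k _ => mul_nonneg (h0 k) (sq_nonneg _)) (fun k _ => mul_nonneg (h0 k) (sq_nonneg _))
    fun k _ => le_of_eq ?_)
  ring

theorem wmorb_conj (U A : Matrix (Fin d) (Fin d) ℤ) (E : Matrix (Fin d) (Fin d) ℂ) (c : Fin d → ℂ)
    (h : (Int.castRingHom ℂ).mapMatrix A = E * diagonal c * Eᵀ) :
    (Int.castRingHom ℂ).mapMatrix (U * A * Uᵀ) = ((Int.castRingHom ℂ).mapMatrix U * E) *
      diagonal c * ((Int.castRingHom ℂ).mapMatrix U * E)ᵀ := by
  rw [map_mul, map_mul, h, Matrix.transpose_mul]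
  simp only [Matrix.mul_assoc]
  rfl

theorem wmorb_det (U : Matrix (Fin d) (Fin d) ℤ) (h : U.det ≠ 0) :
    ((Int.castRingHom ℂ).mapMatrix U).det ≠ 0 := by
  rw [← RingHom.map_det]
  exact Int.cast_ne_zero.2 h

theorem wmorb_red (d : ℕ) : ∃ C : ℝ, 1 ≤ C ∧ ∀ (Y : ℝ) (A B : Matrix (Fin d) (Fin d) ℤ),
    Adm Y A B → ∃ U : Matrix (Fin d) (Fin d) ℤ, IsUnit U.det ∧ ∃ lam : Fin d → ℝ,
      (∀ i, 0 < lam i) ∧ Monotone lam ∧ (∀ i j : Fin d, d ≤ i + j + 2 → 1 ≤ lam i * lam j) ∧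
      (∏ i, lam i) ^ 2 ≤ C * Y ∧ WMoRed lam (U * A * Uᵀ) (U * B * Uᵀ) := by
  obtain ⟨C, hC, hH⟩ := hermite d
  refine ⟨C, hC, ?_⟩
  rintro Y A B ⟨E, al, η, s, hη, hA0, hs, hA, hB, hY⟩
  have mA : (Int.castRingHom ℂ).mapMatrix A = E * diagonal al * Eᵀ := by
    ext a b
    rw [wmoA_mat]
    exact hA a b
  have mB : (Int.castRingHom ℂ).mapMatrix B = E * diagonal (fun k => η k * al k) * Eᵀ := by
    ext a b
    rw [wmoA_mat]
    exact (hB a b).trans (Finset.sum_congr rfl fun k _ => by ring)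
  have dA : ((A.det : ℤ) : ℂ) = E.det * (∏ k, al k) * E.det := by
    have := (Int.castRingHom ℂ).map_det A
    rwa [mA, Matrix.det_mul, Matrix.det_mul, Matrix.det_diagonal, Matrix.det_transpose] at this
  have dA0 : E.det * (∏ k, al k) * E.det ≠ 0 := dA ▸ Int.cast_ne_zero.2 hA0
  have hE : E.det ≠ 0 := right_ne_zero_of_mul dA0
  have hal : ∀ k, al k ≠ 0 := fun k => Finset.prod_ne_zero_iff.1
    (right_ne_zero_of_mul (left_ne_zero_of_mul dA0)) k (Finset.mem_univ _)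
  let q : Fin d → ℝ := fun k => max 1 ‖η k‖ * ‖al k‖
  have hq : ∀ k, 0 < q k := fun k =>
    mul_pos (lt_max_of_lt_left zero_lt_one) (norm_pos_iff.2 (hal k))
  obtain ⟨G, hG, hdet, hquad⟩ := wmorb_gram E q s hq
    (fun k => by simp only [q, (hs k).1, (hs k).2.1, Complex.norm_conj]) (fun k => (hs k).2.2) hE
  have hGY : G.det ≤ Y := by
    refine le_trans (le_of_eq ?_) hY
    rw [hdet, ← Complex.norm_intCast, dA, norm_mul, norm_mul, norm_prod]
    simp only [q, Finset.prod_mul_distrib]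
    ring
  obtain ⟨U, hU, hprod, hmono⟩ := hH G hG
  set E' := (Int.castRingHom ℂ).mapMatrix U * E with hE'
  have hdiag : ∀ i, (U.map (Int.cast : ℤ → ℝ) * G * (U.map (Int.cast : ℤ → ℝ))ᵀ) i i =
      ∑ k, q k * ‖E' i k‖ ^ 2 := by
    intro i
    have := hquad fun a => (U i a : ℝ)
    simp only [Complex.ofReal_intCast] at this
    rw [Matrix.mul_assoc]
    exact Eq.trans rfl (this.trans rfl)
  simp only [hdiag] at hprod hmono
  have hE0 : E'.det ≠ 0 := by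
    rw [hE', Matrix.det_mul]
    exact mul_ne_zero (wmorb_det U hU.ne_zero) hE
  have mA' := wmorb_conj U A E _ mA
  have mB' := wmorb_conj U B E _ mB
  rw [← hE'] at mA' mB'
  have eA : ∀ a b, (((U * A * Uᵀ) a b : ℤ) : ℂ) = ∑ k, al k * E' a k * E' b k := fun a b =>
    (congrFun (congrFun mA' a) b).trans (wmoA_mat _ _ a b)
  have eB : ∀ a b, (((U * B * Uᵀ) a b : ℤ) : ℂ) = ∑ k, η k * al k * E' a k * E' b k := fun a b =>
    (congrFun (congrFun mB' a) b).trans (wmoA_mat _ _ a b)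
  let lam : Fin d → ℝ := fun i => √(∑ k, q k * ‖E' i k‖ ^ 2)
  have l0 : ∀ i, 0 ≤ lam i := fun i => Real.sqrt_nonneg _
  have lm : Monotone lam := fun i j h => Real.sqrt_le_sqrt (hmono h)
  have bA : ∀ a b, |(((U * A * Uᵀ) a b : ℤ) : ℝ)| ≤ lam a * lam b := by
    intro a b
    rw [← Complex.norm_intCast, eA]
    exact wmorb_cs q al _ _ fun k => le_mul_of_one_le_left (norm_nonneg _) (le_max_left _ _)
  have bB : ∀ a b, |(((U * B * Uᵀ) a b : ℤ) : ℝ)| ≤ lam a * lam b := by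
    intro a b
    rw [← Complex.norm_intCast, eB]
    refine wmorb_cs q (fun k => η k * al k) _ _ fun k => ?_
    rw [norm_mul]
    exact mul_le_mul_of_nonneg_right (le_max_right _ _) (norm_nonneg _)
  have hz : ∀ z : ℤ, |(z : ℝ)| < 1 → (z : ℂ) = 0 := fun z h => by
    have : |z| < 1 := by exact_mod_cast h
    rw [Int.abs_lt_one_iff.1 this, Int.cast_zero]
  have hL' : ∀ i j : Fin d, i ≤ j → d ≤ i + j + 2 → 1 ≤ lam i * lam j := by
    intro i j hij hd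
    by_contra hlt
    have hs : ∀ a ≤ i, ∀ b ≤ j, lam a * lam b < 1 := fun a ha b hb =>
      (mul_le_mul (lm ha) (lm hb) (l0 b) (l0 i)).trans_lt (not_le.1 hlt)
    exact wmoA_block E' al η hη hal hE0 i j hij hd
      (fun a ha b hb => (eA a b).symm.trans (hz _ ((bA a b).trans_lt (hs a ha b hb))))
      fun a ha b hb => (eB a b).symm.trans (hz _ ((bB a b).trans_lt (hs a ha b hb)))
  have hL : ∀ i j : Fin d, d ≤ i + j + 2 → 1 ≤ lam i * lam j := by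
    intro i j hd
    rcases le_total i j with h | h
    · exact hL' i j h hd
    · rw [mul_comm]
      exact hL' j i h (by omega)
  refine ⟨U, hU, lam, fun i => ?_, lm, hL, ?_, ?_, ?_, bA, bB, ?_⟩
  · refine (l0 i).lt_of_ne fun h => ?_
    have hi := i.2
    have := hL i ⟨d - 1, by omega⟩ (by simp only; omega)
    rw [← h, zero_mul] at this
    exact absurd this (by norm_num)
  · rw [← Finset.prod_pow]
    refine le_trans (le_of_eq (Finset.prod_congr rfl fun i _ => Real.sq_sqrt ?_))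
      (hprod.trans (mul_le_mul_of_nonneg_left hGY (zero_le_one.trans hC)))
    exact Finset.sum_nonneg fun k _ => mul_nonneg (hq k).le (sq_nonneg _)
  · ext a b
    apply Int.cast_injective (α := ℂ)
    rw [Matrix.transpose_apply, eA, eA]
    exact Finset.sum_congr rfl fun k _ => by ring
  · ext a b
    apply Int.cast_injective (α := ℂ)
    rw [Matrix.transpose_apply, eB, eB]
    exact Finset.sum_congr rfl fun k _ => by ring
  · intro N N' hN hNN h1 h2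
    have k1 := congrArg (Int.castRingHom ℂ).mapMatrix h1
    have k2 := congrArg (Int.castRingHom ℂ).mapMatrix h2
    rw [wmorb_conj N _ _ _ mA', wmorb_conj N' _ _ _ mA'] at k1
    rw [wmorb_conj N _ _ _ mB', wmorb_conj N' _ _ _ mB'] at k2
    have := wmoA_rigid _ _ al η hη hal
      (by rw [Matrix.det_mul]; exact mul_ne_zero (wmorb_det N hN) hE0)
      (by rw [← Matrix.add_mul, ← map_add, Matrix.det_mul]
          exact mul_ne_zero (wmorb_det _ hNN) hE0) k1 k2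
    have hu : IsUnit E' := (Matrix.isUnit_iff_isUnit_det _).2 (isUnit_iff_ne_zero.2 hE0)
    have e := hu.mul_right_cancel this
    ext a b
    exact Int.cast_injective (α := ℂ) (congrFun (congrFun e a) b)

theorem wmorb_range (lam : Fin d → ℝ) (Z : ℝ) (hpos : ∀ i, 0 < lam i) (hm : Monotone lam)
    (hL : ∀ i j : Fin d, d ≤ i + j + 2 → 1 ≤ lam i * lam j) (hZ : (∏ i, lam i) ^ 2 ≤ Z)
    (i : Fin d) : lam i ≤ Z ∧ 1 ≤ lam i * Z := by
  cases d with
  | zero => exact i.elim0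
  | succ e =>
    have h1 : 1 ≤ (∏ a : Fin e, lam a.castSucc) ^ 2 := by
      rw [sq]
      nth_rewrite 2 [← Equiv.prod_comp Fin.revPerm]
      rw [← Finset.prod_mul_distrib]
      refine le_trans (le_of_eq Finset.prod_const_one.symm)
        (Finset.prod_le_prod (fun _ _ => zero_le_one) fun a _ => hL _ _ ?_)
      have := a.2
      simp only [Fin.revPerm_apply, Fin.val_castSucc, Fin.val_rev]
      omega
    have h2 := hL (Fin.last e) (Fin.last e) (by simp only [Fin.val_last]; omega)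
    have h3 := hL i (Fin.last e) (by simp only [Fin.val_last]; omega)
    rw [Fin.prod_univ_castSucc, mul_pow] at hZ
    have h4 := hpos (Fin.last e)
    have h5 : 1 ≤ lam (Fin.last e) := by nlinarith
    have h6 : lam (Fin.last e) ≤ Z := by nlinarith
    exact ⟨(hm (Fin.le_last i)).trans h6, h3.trans (mul_le_mul_of_nonneg_left h6 (hpos i).le)⟩

theorem wmorb_equiv (V V' A A' : Matrix (Fin d) (Fin d) ℤ) (hV' : IsUnit V'.det)
    (h : V * A * Vᵀ = V' * A' * V'ᵀ) : V'⁻¹ * V * A * (V'⁻¹ * V)ᵀ = A' := by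
  have e : V'⁻¹ * V * A * (V'⁻¹ * V)ᵀ = V'⁻¹ * (V * A * Vᵀ) * V'⁻¹ᵀ := by
    simp only [Matrix.transpose_mul, Matrix.mul_assoc]
  have e' : V'⁻¹ * (V' * A' * V'ᵀ) * V'⁻¹ᵀ = V'⁻¹ * V' * A' * (V'⁻¹ * V')ᵀ := by
    simp only [Matrix.transpose_mul, Matrix.mul_assoc]
  rw [e, h, e', Matrix.nonsing_inv_mul _ hV', Matrix.transpose_one, Matrix.one_mul, Matrix.mul_one]

theorem orb (d : ℕ) (ε : ℝ) (hε : 0 < ε) : ∃ C : ℝ, 1 ≤ C ∧ ∀ Y : ℝ, 1 ≤ Y →
    ∀ (α : Type) (S : Finset α) (A B : α → Matrix (Fin d) (Fin d) ℤ),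
      (∀ x ∈ S, Adm Y (A x) (B x)) →
      (∀ x ∈ S, ∀ y ∈ S, ∀ U : Matrix (Fin d) (Fin d) ℤ, IsUnit U.det →
        U * A x * Uᵀ = A y → U * B x * Uᵀ = B y → x = y) →
      (S.card : ℝ) ≤ C * Y ^ ((d : ℝ) + 1 + ε) := by
  obtain ⟨C, hC, hred⟩ := wmorb_red d
  obtain ⟨C', hC', hdy⟩ := cnt_dyadic (ε / (2 * d + 2)) (by positivity)
  have hK : (1 : ℝ) ≤ (2 * (d : ℝ) ^ 2 + 1) ^ (d * d + d) * (4 ^ d) ^ (d + 1) :=
    one_le_mul_of_one_le_of_one_le (one_le_pow₀ (by nlinarith [sq_nonneg (d : ℝ)]))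
      (one_le_pow₀ (one_le_pow₀ (by norm_num)))
  refine ⟨C' ^ d * ((2 * (d : ℝ) ^ 2 + 1) ^ (d * d + d) * (4 ^ d) ^ (d + 1)) * C ^ ((d : ℝ) + 1 + ε),
    one_le_mul_of_one_le_of_one_le (one_le_mul_of_one_le_of_one_le (one_le_pow₀ hC') hK)
      (Real.one_le_rpow hC (by positivity)), ?_⟩
  intro Y hY α S A B hA hin
  choose! U hU lam hpos hmono hL hZ hR using fun x hx => hred Y (A x) (B x) (hA x hx)
  set Z := C * Y with hZd
  have hZ1 : 1 ≤ Z := one_le_mul_of_one_le_of_one_le hC hY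
  have hZ0 : 0 < Z := zero_lt_one.trans_le hZ1
  let L : (Fin d → ℕ) → Fin d → ℝ := fun κ i => 2 * 2 ^ κ i / Z
  have hL0 : ∀ κ i, 0 < L κ i := fun κ i => by positivity
  have h1 : Cnt (fun κ : Fin d → ℕ => (∀ i, (2 : ℝ) ^ κ i ≤ Z ^ 2) ∧ Monotone (L κ) ∧
      (∀ i j : Fin d, d ≤ i + j + 2 → 1 ≤ L κ i * L κ j) ∧ (∏ i, L κ i) ^ 2 ≤ 4 ^ d * Z) _ :=
    (Cnt.pi fun _ : Fin d => hdy (Z ^ 2) (one_le_pow₀ hZ1)).mono (fun _ h => h.1) le_rfl
  have h2 := h1.fibre (P := fun κ x => x ∈ S ∧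
      WMoRed (L κ) (U x * A x * (U x)ᵀ) (U x * B x * (U x)ᵀ))
    (B' := (2 * (d : ℝ) ^ 2 + 1) ^ (d * d + d) * (4 ^ d * Z) ^ (d + 1)) (by positivity) (by
      rintro κ ⟨-, m, l, z⟩
      refine (wmoB_core (L κ) (hL0 κ) m l _ (fun x => U x * A x * (U x)ᵀ)
        (fun x => U x * B x * (U x)ᵀ) (fun x hx => hx.2) ?_).mono (fun _ h => h) ?_
      · intro x y hx hy N N' hN hN' e1 e2
        have u1 : IsUnit (N * U x).det := by
          rw [Matrix.det_mul, hN, one_mul]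
          exact hU x hx.1
        have u2 : IsUnit (N' * U y).det := by
          rw [Matrix.det_mul, hN', one_mul]
          exact hU y hy.1
        refine hin x hx.1 y hy.1 ((N' * U y)⁻¹ * (N * U x)) ?_ (wmorb_equiv _ _ _ _ u2 ?_)
          (wmorb_equiv _ _ _ _ u2 ?_)
        · rw [Matrix.det_mul]
          exact (Matrix.isUnit_nonsing_inv_det _ u2).mul u1
        · simpa only [Matrix.transpose_mul, Matrix.mul_assoc] using e1
        · simpa only [Matrix.transpose_mul, Matrix.mul_assoc] using e2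
      · refine mul_le_mul_of_nonneg_left ?_ (by positivity)
        rw [show 2 * d + 2 = 2 * (d + 1) by ring, pow_mul]
        exact pow_le_pow_left₀ (sq_nonneg _) z _)
  refine (h2 S fun x hx => ?_).trans ?_
  · have hr := wmorb_range (lam x) Z (hpos x hx) (hmono x hx) (hL x hx) (hZ x hx)
    choose κ k1 k2 using fun i => exists_dyadic (lam x i * Z) (hr i).2
    have a1 : ∀ i, lam x i ≤ L κ i := fun i => (le_div_iff₀ hZ0).2 (k2 i).le
    have a2 : ∀ i, L κ i ≤ 2 * lam x i := fun i => (div_le_iff₀ hZ0).2 (by linarith [k1 i])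
    have a3 : ∀ i j, lam x i * lam x j ≤ L κ i * L κ j := fun i j =>
      mul_le_mul (a1 i) (a1 j) (hpos x hx j).le (hL0 κ i).le
    obtain ⟨r1, r2, r3, r4, r5⟩ := hR x hx
    refine ⟨κ, ⟨fun i => (k1 i).trans ?_, fun i j hij => ?_,
      fun i j h => (hL x hx i j h).trans (a3 i j), ?_⟩, hx, r1, r2,
      fun a b => (r3 a b).trans (a3 a b), fun a b => (r4 a b).trans (a3 a b), r5⟩
    · rw [sq]
      exact mul_le_mul_of_nonneg_right (hr i).1 hZ0.le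
    · have b1 : (2 : ℝ) ^ κ i < 2 ^ (κ j + 1) := by
        rw [pow_succ']
        exact ((k1 i).trans (mul_le_mul_of_nonneg_right (hmono x hx hij) hZ0.le)).trans_lt (k2 j)
      have b2 : κ i ≤ κ j := Nat.lt_succ_iff.1 ((pow_lt_pow_iff_right₀ one_lt_two).1 b1)
      exact div_le_div_of_nonneg_right (mul_le_mul_of_nonneg_left
        (pow_le_pow_right₀ one_le_two b2) zero_le_two) hZ0.le
    · have b1 : ∏ i, L κ i ≤ ∏ i, 2 * lam x i :=
        Finset.prod_le_prod (fun i _ => (hL0 κ i).le) fun i _ => a2 i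
      refine (pow_le_pow_left₀ (Finset.prod_nonneg fun i _ => (hL0 κ i).le) b1 2).trans ?_
      rw [Finset.prod_mul_distrib, Finset.prod_const, Finset.card_univ, Fintype.card_fin, mul_pow,
        ← pow_mul, mul_comm d 2, pow_mul, show (2 : ℝ) ^ 2 = 4 by norm_num]
      exact mul_le_mul_of_nonneg_left (hZ x hx) (by positivity)
  · rw [Finset.prod_const, Finset.card_univ, Fintype.card_fin, mul_assoc _ (C ^ _),
      ← Real.mul_rpow (zero_le_one.trans hC) (zero_le_one.trans hY), ← hZd]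
    have b1 : ((Z ^ 2) ^ (ε / (2 * d + 2))) ^ d ≤ Z ^ ε := by
      rw [← Real.rpow_natCast Z 2, ← Real.rpow_mul hZ0.le, ← Real.rpow_natCast, ← Real.rpow_mul hZ0.le]
      refine Real.rpow_le_rpow_of_exponent_le hZ1 ?_
      have hd : (0 : ℝ) < 2 * d + 2 := by positivity
      rw [show ((2 : ℕ) : ℝ) * (ε / (2 * d + 2)) * d = ε * (2 * d) / (2 * d + 2) by push_cast; ring,
        div_le_iff₀ hd]
      nlinarith
    have b2 : Z ^ ((d : ℝ) + 1 + ε) = Z ^ (d + 1) * Z ^ ε := by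
      rw [Real.rpow_add hZ0, ← Real.rpow_natCast]
      push_cast
      rfl
    rw [b2, mul_pow C', mul_pow (4 ^ d : ℝ)]
    calc C' ^ d * ((Z ^ 2) ^ (ε / (2 * d + 2))) ^ d *
          ((2 * (d : ℝ) ^ 2 + 1) ^ (d * d + d) * ((4 ^ d) ^ (d + 1) * Z ^ (d + 1)))
        ≤ C' ^ d * Z ^ ε * ((2 * (d : ℝ) ^ 2 + 1) ^ (d * d + d) * ((4 ^ d) ^ (d + 1) * Z ^ (d + 1))) := by
          have := zero_le_one.trans hC'
          gcongr
      _ = _ := by ring

end Pool.Agent.VW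
end

-- part Pool.Agent.P.MP_b0ea37_nt.WMcls
section

namespace Pool.Agent.VW

open Polynomial Matrix

theorem WMcls_adm {d : ℕ} {Y Y' : ℝ} {A B : Matrix (Fin d) (Fin d) ℤ} (h : Adm Y A B)
    (hY : Y ≤ Y') : Adm Y' A B := by
  obtain ⟨E, al, η, s, h1, h2, h3, h4, h5, h6⟩ := h
  exact ⟨E, al, η, s, h1, h2, h3, h4, h5, h6.trans hY⟩

theorem WMcls_pair {n d g : ℕ} (hd : d = 2 * g + 3) {D₀ D : Dat} (h₀ : Ok n d D₀) (h : Ok n d D)
    (hP : Pre d D₀ D) {η : Fin d → ℂ} (hη : Lst D.v η) :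
    ∃ (E : Matrix (Fin d) (Fin d) ℂ) (A B : Matrix (Fin d) (Fin d) ℤ),
      Glued (fun p => Eloc d g p D₀ D η) E ∧ Gr E (alf D₀ D η) η A B ∧ A.det ≠ 0 ∧
        Adm ((d.factorial : ℝ) ^ (d - 1) * (d + 1) * D.v.supNorm) A B := by
  have e : D₀.v = D.v := hP.1
  obtain ⟨E, hE⟩ := glue (Matrix.vandermonde η)ᵀ (fun p => Eloc d g p D₀ D η)
    (Eloc_finite d g e h.1 η)
    fun p hp => ⟨Eloc_det_ne_zero h₀ h e hη hp, Eloc_rat h₀ h e hη hp⟩
  obtain ⟨A, B, hG⟩ := gram_int hd h₀ h hP.symm hη hE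
  obtain ⟨h1, h2⟩ := gram_det hd h₀ h hP.symm hη hE hG
  exact ⟨E, A, B, hE, hG, h1, gram_adm h₀ h e hη hE hG h1 h2⟩

/-- the number of square classes -/
theorem cls (n d g : ℕ) (hn : 2 ≤ n) (hd : d = 2 * g + 3) (ε : ℝ) (hε : 0 < ε) :
    ∃ K : ℝ, 1 ≤ K ∧ ∀ (Z T B : ℝ) (S : Finset Dat), 1 ≤ T → T ≤ Z → 1 ≤ B → B ≤ Z →
      (∀ D ∈ S, Ok n d D ∧ D.v.supNorm ≤ 2 * T ∧
        |((resultant D.v D.f d n : ℤ) : ℝ)| ≤ B * (D.P : ℝ) ^ 2) →
      (∀ D ∈ S, ∀ D' ∈ S, ∀ κ, Sq d D D' κ → D = D') →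
      (S.card : ℝ) ≤ K * Z ^ ε * (T ^ (d + 1) * B) := by
  classical
  obtain ⟨K₁, hK₁, H₁⟩ := pre_tot n d hn (by omega) (ε / 2) (half_pos hε)
  obtain ⟨C, hC, H₂⟩ := orb d (ε / 2) (half_pos hε)
  set c : ℝ := (d.factorial : ℝ) ^ (d - 1) * (d + 1) * 2 with hc
  have hc1 : 1 ≤ c := by
    have h1 : (1 : ℝ) ≤ (d.factorial : ℝ) ^ (d - 1) :=
      one_le_pow₀ (by exact_mod_cast Nat.factorial_pos d)
    have h2 : (0 : ℝ) ≤ d := Nat.cast_nonneg d
    nlinarith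
  have hce : 1 ≤ c ^ ((d : ℝ) + 1 + ε / 2) := Real.one_le_rpow hc1 (by positivity)
  have h2e : (1 : ℝ) ≤ 2 ^ (ε / 2) := Real.one_le_rpow one_le_two (by positivity)
  refine ⟨K₁ * 2 ^ (ε / 2) * (C * c ^ ((d : ℝ) + 1 + ε / 2)),
    one_le_mul_of_one_le_of_one_le (one_le_mul_of_one_le_of_one_le hK₁ h2e)
      (one_le_mul_of_one_le_of_one_le hC hce), fun Z T B S hT hTZ hB hBZ hS hinj => ?_⟩
  have hη : ∀ v : ℤ[X], ∃ η : Fin d → ℂ, v.natDegree = d → Lst v η := fun v => by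
    by_cases hv : v.natDegree = d
    · obtain ⟨η, h⟩ := exists_lst hv
      exact ⟨η, fun _ => h⟩
    · exact ⟨fun _ => 0, fun h => absurd h hv⟩
  choose η hη using hη
  have hZ : 1 ≤ Z := hT.trans hTZ
  have hcT : 1 ≤ c * T := one_le_mul_of_one_le_of_one_le hc1 hT
  have key := numb S Dat.v (Pre d) (fun x hx => Pre.refl (hS x hx).1) (fun x _ y _ h => h.symm)
    (K := K₁ * (2 * Z) ^ (ε / 2) * B) (M := C * (c * T) ^ ((d : ℝ) + 1 + ε / 2)) (by positivity)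
    (fun b U hU hb hR => ?_) (fun U rep hU hrep => ?_)
  · refine key.trans ?_
    have e1 : (c * T) ^ ((d : ℝ) + 1 + ε / 2) =
        c ^ ((d : ℝ) + 1 + ε / 2) * (T ^ (d + 1) * T ^ (ε / 2)) := by
      rw [Real.mul_rpow (by positivity) (by positivity), Real.rpow_add (by positivity : 0 < T),
        ← Real.rpow_natCast T (d + 1)]
      push_cast
      rfl
    have e2 : Z ^ ε = Z ^ (ε / 2) * Z ^ (ε / 2) := by
      rw [← Real.rpow_add (by positivity), add_halves]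
    have e3 : T ^ (ε / 2) ≤ Z ^ (ε / 2) := Real.rpow_le_rpow (by positivity) hTZ (by positivity)
    rw [e1, e2, Real.mul_rpow (by positivity) (by positivity)]
    calc _ = K₁ * 2 ^ (ε / 2) * (C * c ^ ((d : ℝ) + 1 + ε / 2)) * (Z ^ (ε / 2) * T ^ (ε / 2)) *
          (T ^ (d + 1) * B) := by ring
      _ ≤ _ := by gcongr
  · rcases U.eq_empty_or_nonempty with rfl | ⟨x, hx⟩
    · simp only [Finset.card_empty, Nat.cast_zero]
      positivity
    · refine H₁ (2 * Z) B b U hB (by linarith) ?_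
        (fun D hD => ⟨(hS D (hU hD)).1, hb D hD, (hS D (hU hD)).2.2⟩) hR
      rw [← hb x hx]
      exact (hS x (hU hx)).2.1.trans (by linarith)
  · have h1 : ∀ x : Dat, ∃ (E : Matrix (Fin d) (Fin d) ℂ) (A B : Matrix (Fin d) (Fin d) ℤ),
        x ∈ U → Glued (fun p => Eloc d g p (rep x.v) x (η x.v)) E ∧
          Gr E (alf (rep x.v) x (η x.v)) (η x.v) A B ∧ A.det ≠ 0 ∧
          Adm ((d.factorial : ℝ) ^ (d - 1) * (d + 1) * x.v.supNorm) A B := fun x => by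
      by_cases hx : x ∈ U
      · obtain ⟨E, A, B, h⟩ := WMcls_pair hd (hS _ (hrep x hx).1).1 (hS x (hU hx)).1
          (hrep x hx).2.2 (hη _ (hS x (hU hx)).1.1.1)
        exact ⟨E, A, B, fun _ => h⟩
      · exact ⟨0, 0, 0, fun h => absurd h hx⟩
    choose E A B' h1 using h1
    refine H₂ (c * T) hcT Dat U A B' (fun x hx => WMcls_adm (h1 x hx).2.2.2 ?_)
      fun x hx y hy W hW e₁ e₂ => ?_
    · have := (hS x (hU hx)).2.1
      calc _ ≤ (d.factorial : ℝ) ^ (d - 1) * (d + 1) * (2 * T) := by gcongr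
        _ = _ := by rw [hc]; ring
    · have ox := (hS x (hU hx)).1
      have oy := (hS y (hU hy)).1
      obtain ⟨gx, rx, -, -⟩ := h1 x hx
      obtain ⟨gy, ry, dy, -⟩ := h1 y hy
      have e : x.v = y.v := same_v ox.1 oy.1 (hη _ ox.1.1) (hη _ oy.1.1) rx ry dy e₁ e₂
      rw [← e] at gy ry
      obtain ⟨κ, hκ⟩ := eqv_sq (by omega) (hS _ (hrep x hx).1).1 ox oy (hrep x hx).2.1 e
        (hη _ ox.1.1) gx gy rx ry dy hW e₁ e₂
      exact hinj x (hU hx) y (hU hy) κ hκ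

end Pool.Agent.VW
end

-- part Pool.Agent.P.MP_b0ea37_nt.WMcell
section

namespace Pool.Agent.VW

open Polynomial

/-- one cell -/
theorem cell_cnt (n d j g : ℕ) (hd : d = 2 * g + 3) (hn : n = d + 1 + j) (hj : j = 1 ∨ j = 2)
    (hn5 : 5 ≤ n) (ε : ℝ) (hε : 0 < ε) : ∃ c₀ : ℝ, 0 < c₀ ∧ ∃ K : ℝ, 1 ≤ K ∧
    ∀ (Z H T P₀ B l om : ℝ) (Q : Dat → Prop), 1 ≤ H → 1 ≤ T → T ≤ Z → 1 ≤ B → B ≤ Z → 0 < l →
      l ≤ 1 → 1 ≤ om → l ^ 2 * H / T ^ 2 ≤ c₀ → 0 ≤ P₀ → K * (l * H / T) ^ n * H ^ j < P₀ ^ 2 →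
      (∀ D, Q D → Fam n d j K H T P₀ om D ∧
        |((resultant D.v D.f d n : ℤ) : ℝ)| ≤ B * (D.P : ℝ) ^ 2) →
      (∀ D D', Q D → Q D' → (D.f = D'.f → D = D') ∧ (D.f - D'.f).supNorm ≤ l * H ∧
        (D.v = D'.v → Cl D.v D.f D'.f ∧
          ArchZ n d D.v D.f D'.f (l ^ 2 * H / T ^ 2) (l ^ 2 * H))) →
      Cnt Q (K * Z ^ ε * (T ^ (d + 1) * B) * mu j H (l * H / T) om) := by
  obtain ⟨K₁, hK₁, h₁⟩ := cls n d g (by omega) hd (ε / 2) (by linarith)
  obtain ⟨c₀, hc₀, K₂, hK₂, h₂⟩ := prt n d j hn hj hn5 (by omega) (ε / 2) (by linarith)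
  have h2d : (1 : ℝ) ≤ 2 ^ d := one_le_pow₀ one_le_two
  have hK : K₂ ≤ K₁ * 2 ^ d * K₂ :=
    le_mul_of_one_le_left (by linarith) (one_le_mul_of_one_le_of_one_le hK₁ h2d)
  refine ⟨c₀, hc₀, K₁ * 2 ^ d * K₂, hK₂.trans hK,
    fun Z H T P₀ B l om Q hH hT hTZ hB hBZ hl hl1 hom hc hP hKP hF hQ => ?_⟩
  have hmu := one_le_mu j (H := H) (Sg := l * H / T) (om := om) (by linarith) (by positivity)
  have hZ : 0 < Z := by linarith
  have hM : 0 ≤ K₂ * Z ^ (ε / 2) * mu j H (l * H / T) om := by positivity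
  have hKP' : K₂ * (l * H / T) ^ n * H ^ j < P₀ ^ 2 := lt_of_le_of_lt (by gcongr) hKP
  refine (Cnt.greedy (fun D D' => ∃ κ, Sq d D D' κ) (B := K₁ * Z ^ (ε / 2) * (T ^ (d + 1) * B))
    (B' := 2 ^ d * (K₂ * Z ^ (ε / 2) * mu j H (l * H / T) om))
    (fun D hD => ⟨_, Sq.refl (hF D hD).1.1⟩)
    (fun D D' hD hD' ⟨_, h⟩ => ⟨_, Sq.symm (hF D hD).1.1 (hF D' hD').1.1 h⟩) (by positivity)
    (fun S hS hsep => h₁ Z T B S hT hTZ hB hBZ
      (fun D hD => ⟨(hF D (hS D hD)).1.1, (hF D (hS D hD)).1.2.2.2.2.2.1, (hF D (hS D hD)).2⟩)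
      fun D hD D' hD' κ h => by_contra fun hne => hsep D hD D' hD' hne ⟨κ, h⟩)
    fun D₀ hD₀ => ?_).mono (fun _ h => h) (le_of_eq ?_)
  · refine sign_split hM (hF D₀ hD₀).1.1 (fun D hD => ⟨(hF D hD.1).1.1, hD.2, ?_⟩)
      fun Q' hQ' hs => h₂ Z H T P₀ l om Q' hH hT hTZ hl hl1 hom hc hP hKP'
        (fun D hD => (hF D (hQ' D hD).1).1.mono hK (by linarith) (by linarith) (by linarith))
        fun D D' hD hD' => ?_
    · obtain ⟨κ, hκ⟩ := hD.2
      exact ((hQ D₀ D hD₀ hD.1).2.2 hκ.1).1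
    · obtain ⟨a1, a2, a3⟩ := hQ D D' (hQ' D hD).1 (hQ' D' hD').1
      obtain ⟨κ, hκ, hκ'⟩ := hs D D' hD hD'
      exact ⟨a1, ⟨κ, hκ, hκ'⟩, a2, a3 hκ.1⟩
  · have e : Z ^ ε = Z ^ (ε / 2) * Z ^ (ε / 2) := by rw [← Real.rpow_add hZ, add_halves]
    rw [e]
    ring

end Pool.Agent.VW
end

-- part Pool.Agent.P.MP_b0ea37_nt.WMtyA
section

namespace Pool.Agent.VW

open Polynomial

theorem WMtyA_eval (v : ℤ[X]) (z : ℂ) : (up ℂ v).eval z = aeval z v := by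
  rw [aeval_def, eval_map, algebraMap_int_eq]

theorem WMtyA_res {n d : ℕ} {f v : ℤ[X]} {θ : Fin n → ℂ} (h : Roots (up ℂ f) θ)
    (hv : v.natDegree ≤ d) : |((resultant v f d n : ℤ) : ℝ)| = ∏ i, ‖aeval (θ i) v‖ := by
  have h1 : ((resultant v f d n : ℤ) : ℂ) = resultant (up ℂ v) (up ℂ f) d n := by
    rw [resultant_map_map]; simp
  have h2 := resultant_roots (1 : ℂ) one_ne_zero θ (up ℂ v) d (natDegree_map_le.trans hv)
  rw [C_1, one_mul, one_pow, one_mul, ← h] at h2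
  rw [resultant_comm (up ℂ v), h2] at h1
  have h3 := congrArg (fun z : ℂ => ‖z‖) h1
  simp only [Complex.norm_intCast, norm_mul, norm_pow, norm_neg, norm_one, one_pow, one_mul,
    norm_prod, WMtyA_eval] at h3
  exact h3

theorem WMtyA_single {n : ℕ} (x : Fin n → ℝ) (hx : ∀ i, 1 ≤ x i) (i : Fin n) :
    x i ≤ ∏ k, x k := by
  classical
  rw [← Finset.mul_prod_erase Finset.univ x (Finset.mem_univ i)]
  exact le_mul_of_one_le_right (zero_le_one.trans (hx i))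
    (Finset.prod_induction _ (fun y : ℝ => 1 ≤ y)
      (fun _ _ => one_le_mul_of_one_le_of_one_le) le_rfl fun k _ => hx k)

theorem WMtyA_conj (v : ℤ[X]) (z : ℂ) : ‖aeval (starRingEnd ℂ z) v‖ = ‖aeval z v‖ := by
  have : aeval (starRingEnd ℂ z) v = starRingEnd ℂ (aeval z v) :=
    aeval_algHom_apply (starRingEnd ℂ).toIntAlgHom z v
  rw [this, RCLike.norm_conj]

theorem ty_exists (n d : ℕ) (hdn : d < n) : ∃ (K : ℝ) (A : ℕ), 1 ≤ K ∧ 1 ≤ A ∧
    ∀ (Z T : ℝ) (f v : ℤ[X]), 1 ≤ T → T ≤ Z → f.Monic → f.natDegree = n → Irr f →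
      f.supNorm ≤ Z → v.natDegree = d → T ≤ v.supNorm → v.supNorm ≤ 2 * T →
      ∃ (s : Equiv.Perm (Fin n)) (a b : Fin n → ℕ) (θ : Fin n → ℂ),
        (∀ i, s (s i) = i ∧ a (s i) = a i ∧ b (s i) = b i ∧ (2 : ℝ) ^ a i ≤ K * Z ^ A ∧
          (2 : ℝ) ^ b i ≤ K * Z ^ A) ∧ Ty d T s a b f v θ := by
  obtain ⟨c, hc⟩ : ∃ c : ℝ, c = (d + 1) * 2 ^ (d + 1) := ⟨_, rfl⟩
  have hc2 : 2 ≤ c := by
    rw [hc, pow_succ]
    have h1 : (1 : ℝ) ≤ 2 ^ d := one_le_pow₀ one_le_two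
    have h2 : (0 : ℝ) ≤ d := Nat.cast_nonneg d
    nlinarith
  have hn1 : (1 : ℝ) ≤ n + 1 := by have : (0 : ℝ) ≤ n := Nat.cast_nonneg n; linarith
  have hK1 : 1 ≤ c ^ n * ((n : ℝ) + 1) ^ d :=
    one_le_mul_of_one_le_of_one_le (one_le_pow₀ (by linarith)) (one_le_pow₀ hn1)
  refine ⟨c ^ n * (n + 1) ^ d * (n + 1), n + d, one_le_mul_of_one_le_of_one_le hK1 hn1,
    by omega, ?_⟩
  intro Z T f v hT hTZ hm hn hirr hf hv hv1 hv2
  have hZ : 1 ≤ Z := hT.trans hTZ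
  obtain ⟨θ, hθ⟩ := exists_roots (up ℂ f) (hm.map _) (by rw [hm.natDegree_map, hn])
  have hinj := hθ.injective hirr
  obtain ⟨s, hs1, hs2⟩ := exists_conj θ hinj (by
    rw [← hθ, up, map_map,
      Subsingleton.elim ((starRingEnd ℂ).comp (Int.castRingHom ℂ)) (Int.castRingHom ℂ)])
  have hdy : ∀ x : ℝ, ∃ k : ℕ, 1 ≤ x → (2 : ℝ) ^ k ≤ x ∧ x < 2 * 2 ^ k := by
    intro x
    by_cases hx : 1 ≤ x
    · obtain ⟨k, hk⟩ := exists_dyadic x hx
      exact ⟨k, fun _ => hk⟩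
    · exact ⟨0, fun h => absurd h hx⟩
  choose dy hdy using hdy
  obtain ⟨a, ha⟩ : ∃ a : Fin n → ℕ, ∀ i, a i = dy (max 1 ‖θ i‖) := ⟨_, fun _ => rfl⟩
  have ha1 : ∀ i, (2 : ℝ) ^ a i ≤ max 1 ‖θ i‖ := fun i => ha i ▸ (hdy _ (le_max_left _ _)).1
  have ha2 : ∀ i, max 1 ‖θ i‖ < 2 * 2 ^ a i := fun i => ha i ▸ (hdy _ (le_max_left _ _)).2
  have has : ∀ i, a (s i) = a i := fun i => by rw [ha, ha, hs2, RCLike.norm_conj]
  have hv0 : v ≠ 0 := by
    rintro rfl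
    rw [supNorm_zero] at hv1
    linarith
  have hres : 1 ≤ ∏ i, ‖aeval (θ i) v‖ := by
    rw [← WMtyA_res hθ hv.le]
    have h0 := hirr.resultant_ne_zero hv0 (by omega)
    rw [hv, hn] at h0
    exact_mod_cast Int.one_le_abs h0
  have hpos : ∀ i, 0 < ‖aeval (θ i) v‖ := by
    intro i
    rcases (norm_nonneg (aeval (θ i) v)).lt_or_eq with h | h
    · exact h
    · rw [Finset.prod_eq_zero (Finset.mem_univ i) h.symm] at hres
      linarith
  obtain ⟨x, hx⟩ : ∃ x : Fin n → ℝ, ∀ i, x i = c * (T * (2 ^ a i) ^ d) / ‖aeval (θ i) v‖ :=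
    ⟨_, fun _ => rfl⟩
  have hx1 : ∀ i, 1 ≤ x i := by
    intro i
    rw [hx, le_div_iff₀ (hpos i), one_mul, ← WMtyA_eval]
    refine (norm_eval_le _ (natDegree_map_le.trans hv.le) _).trans ?_
    rw [sup_up_complex]
    have h1 : (max 1 ‖θ i‖) ^ d ≤ (2 * 2 ^ a i) ^ d :=
      pow_le_pow_left₀ (by positivity) (ha2 i).le d
    calc ((d : ℝ) + 1) * v.supNorm * (max 1 ‖θ i‖) ^ d
        ≤ (d + 1) * (2 * T) * (2 * 2 ^ a i) ^ d := by gcongr
      _ = c * (T * (2 ^ a i) ^ d) := by rw [hc, mul_pow]; ring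
  have hxs : ∀ i, x (s i) = x i := fun i => by rw [hx, hx, has, hs2, WMtyA_conj]
  have hpa : ∏ i, (2 : ℝ) ^ a i ≤ (n + 1) * Z := by
    refine (Finset.prod_le_prod (fun i _ => by positivity) fun i _ => ha1 i).trans ?_
    exact hθ.prod_max_le.trans (by gcongr)
  have hpx : ∏ i, x i ≤ c ^ n * (n + 1) ^ d * Z ^ (n + d) := by
    simp only [hx]
    rw [Finset.prod_div_distrib, Finset.prod_mul_distrib, Finset.prod_mul_distrib,
      Finset.prod_pow, Finset.prod_const, Finset.prod_const, Finset.card_univ, Fintype.card_fin]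
    have hc0 : 0 ≤ c := by linarith
    have hT0 : 0 ≤ T := by linarith
    refine (div_le_self (by positivity) hres).trans ?_
    calc c ^ n * (T ^ n * (∏ i, (2 : ℝ) ^ a i) ^ d) ≤ c ^ n * (Z ^ n * ((n + 1) * Z) ^ d) := by
          gcongr
      _ = c ^ n * (n + 1) ^ d * Z ^ (n + d) := by rw [mul_pow, pow_add]; ring
  have hZA : Z ≤ Z ^ (n + d) := le_self_pow₀ hZ (by omega)
  refine ⟨s, a, fun i => dy (x i), θ, fun i => ⟨hs1 i, has i, congrArg dy (hxs i), ?_, ?_⟩, hθ,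
    fun i => ⟨hs2 i, ha1 i, (le_max_right _ _).trans (ha2 i).le, ?_, ?_⟩⟩
  · have h1 := WMtyA_single (fun i => (2 : ℝ) ^ a i) (fun i => one_le_pow₀ one_le_two) i
    refine h1.trans (hpa.trans ?_)
    calc ((n : ℝ) + 1) * Z ≤ (n + 1) * Z ^ (n + d) := by gcongr
      _ = 1 * (n + 1) * Z ^ (n + d) := by ring
      _ ≤ _ := by gcongr
  · refine (hdy _ (hx1 i)).1.trans ((WMtyA_single x hx1 i).trans (hpx.trans ?_))
    have h0 : 0 ≤ c ^ n * ((n : ℝ) + 1) ^ d := by linarith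
    exact mul_le_mul_of_nonneg_right (le_mul_of_one_le_right h0 hn1) (by positivity)
  · have h1 := (hdy _ (hx1 i)).2
    beta_reduce
    generalize dy (x i) = k at h1 ⊢
    rw [hx, div_lt_iff₀ (hpos i)] at h1
    rw [div_le_iff₀ (by positivity)]
    have h2 : 0 ≤ T * ((2 : ℝ) ^ a i) ^ d := by positivity
    nlinarith
  · have h1 := (hdy _ (hx1 i)).1
    beta_reduce
    generalize dy (x i) = k at h1 ⊢
    rw [hx, le_div_iff₀ (hpos i)] at h1
    rw [← hc, ← mul_div_assoc, le_div_iff₀ (by positivity)]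
    linarith

theorem Ty.prod_le {n d : ℕ} {T H : ℝ} {s : Equiv.Perm (Fin n)} {a b : Fin n → ℕ} {f v : ℤ[X]}
    {θ : Fin n → ℂ} (h : Ty d T s a b f v θ) (hf : f.supNorm ≤ H) :
    ∏ i, (2 : ℝ) ^ a i ≤ (n + 1) * H := by
  refine (Finset.prod_le_prod (fun i _ => by positivity) fun i _ => (h.2 i).2.1).trans ?_
  exact h.1.prod_max_le.trans (by gcongr)

theorem Ty.res_le {n d : ℕ} {T H : ℝ} {s : Equiv.Perm (Fin n)} {a b : Fin n → ℕ} {f v : ℤ[X]}
    {θ : Fin n → ℂ} (h : Ty d T s a b f v θ) (hT : 0 ≤ T) (hv : v.natDegree ≤ d)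
    (hf : f.supNorm ≤ H) : |((resultant v f d n : ℤ) : ℝ)| ≤
      ((d + 1) * 2 ^ (d + 1)) ^ n * T ^ n * ((n + 1) * H) ^ d / ∏ i, (2 : ℝ) ^ b i := by
  rw [WMtyA_res h.1 hv]
  refine (Finset.prod_le_prod (fun i _ => norm_nonneg _) fun i _ => (h.2 i).2.2.2.2).trans ?_
  generalize hc : ((d : ℝ) + 1) * 2 ^ (d + 1) = c
  have hc0 : 0 ≤ c := by rw [← hc]; positivity
  rw [Finset.prod_mul_distrib, Finset.prod_div_distrib, Finset.prod_mul_distrib,
    Finset.prod_pow, Finset.prod_const, Finset.prod_const, Finset.card_univ, Fintype.card_fin,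
    ← mul_div_assoc, ← mul_assoc]
  have h1 := h.prod_le hf
  gcongr

end Pool.Agent.VW
end

-- part Pool.Agent.P.MP_b0ea37_nt.WMaN
section

namespace Pool.Agent.VW

open Polynomial

/-- sum of the norms of the coefficients -/
noncomputable def n1 (p : ℂ[X]) : ℝ := ∑ i ∈ p.support, ‖p.coeff i‖

theorem n1_eq (p : ℂ[X]) (s : Finset ℕ) (h : p.support ⊆ s) : n1 p = ∑ i ∈ s, ‖p.coeff i‖ := by
  refine Finset.sum_subset h fun i _ hi => ?_
  rw [notMem_support_iff.1 hi, norm_zero]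

theorem n1_range (p : ℂ[X]) {N : ℕ} (h : p.natDegree < N) :
    n1 p = ∑ i ∈ Finset.range N, ‖p.coeff i‖ := n1_eq p _ (supp_subset_range h)

theorem n1_nonneg (p : ℂ[X]) : 0 ≤ n1 p := Finset.sum_nonneg fun _ _ => norm_nonneg _

theorem sum_le_n1 (p : ℂ[X]) (s : Finset ℕ) : ∑ i ∈ s, ‖p.coeff i‖ ≤ n1 p := by
  rw [n1_eq p (s ∪ p.support) Finset.subset_union_right]
  exact Finset.sum_le_sum_of_subset_of_nonneg Finset.subset_union_left fun _ _ _ => norm_nonneg _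

theorem coeff_le_n1 (p : ℂ[X]) (i : ℕ) : ‖p.coeff i‖ ≤ n1 p := by
  simpa using sum_le_n1 p {i}

theorem n1_zero : n1 0 = 0 := by simp [n1]

theorem n1_eq_zero {p : ℂ[X]} (h : n1 p = 0) : p = 0 := by
  ext i
  have := coeff_le_n1 p i
  rw [h] at this
  simpa using this

theorem n1_add_le (p q : ℂ[X]) : n1 (p + q) ≤ n1 p + n1 q := by
  calc n1 (p + q) ≤ ∑ i ∈ (p + q).support, (‖p.coeff i‖ + ‖q.coeff i‖) :=
        Finset.sum_le_sum fun i _ => by rw [coeff_add]; exact norm_add_le _ _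
    _ ≤ _ := by rw [Finset.sum_add_distrib]; exact add_le_add (sum_le_n1 _ _) (sum_le_n1 _ _)

theorem n1_C_mul (a : ℂ) (p : ℂ[X]) : n1 (C a * p) = ‖a‖ * n1 p := by
  rw [n1_eq (C a * p) p.support, n1, Finset.mul_sum]
  · simp
  · intro i hi
    rw [mem_support_iff] at hi ⊢
    intro h
    simp [h] at hi

theorem n1_smul (a : ℂ) (p : ℂ[X]) : n1 (a • p) = ‖a‖ * n1 p := by
  rw [smul_eq_C_mul, n1_C_mul]

theorem n1_neg (p : ℂ[X]) : n1 (-p) = n1 p := by simp [n1]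

theorem n1_sub_le (p q : ℂ[X]) : n1 (p - q) ≤ n1 p + n1 q := by
  rw [sub_eq_add_neg, ← n1_neg q]; exact n1_add_le _ _

theorem n1_sum_le {ι : Type} (s : Finset ι) (p : ι → ℂ[X]) :
    n1 (∑ i ∈ s, p i) ≤ ∑ i ∈ s, n1 (p i) :=
  Finset.le_sum_of_subadditive n1 n1_zero.le n1_add_le s p

theorem n1_X_mul (p : ℂ[X]) : n1 (X * p) = n1 p := by
  have h : (X * p).natDegree < p.natDegree + 1 + 1 :=
    lt_of_le_of_lt natDegree_mul_le (by have := natDegree_X_le (R := ℂ); omega)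
  rw [n1_range _ h, Finset.sum_range_succ', n1_range p (Nat.lt_succ_self _)]
  simp [coeff_X_mul]

theorem n1_X_pow_mul (k : ℕ) (p : ℂ[X]) : n1 (X ^ k * p) = n1 p := by
  induction k with
  | zero => simp
  | succ k ih => rw [pow_succ', mul_assoc, n1_X_mul, ih]

theorem n1_C (a : ℂ) : n1 (C a) = ‖a‖ := by
  rw [n1_range (C a) (N := 1) (by simp)]; simp

theorem n1_one : n1 1 = 1 := by rw [← C_1, n1_C, norm_one]

theorem n1_X_pow (k : ℕ) : n1 (X ^ k) = 1 := by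
  simpa [n1_one] using n1_X_pow_mul k 1

theorem n1_X : n1 X = 1 := by simpa using n1_X_pow 1

theorem n1_mul_le (p q : ℂ[X]) : n1 (p * q) ≤ n1 p * n1 q := by
  conv_lhs => rw [p.as_sum_support_C_mul_X_pow, Finset.sum_mul]
  refine (n1_sum_le _ _).trans (le_of_eq ?_)
  rw [n1, Finset.sum_mul]
  exact Finset.sum_congr rfl fun i _ => by rw [mul_assoc, n1_C_mul, n1_X_pow_mul]

theorem n1_mul_le' {p q : ℂ[X]} {a b : ℝ} (hp : n1 p ≤ a) (hq : n1 q ≤ b) : n1 (p * q) ≤ a * b :=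
  (n1_mul_le p q).trans (mul_le_mul hp hq (n1_nonneg _) ((n1_nonneg _).trans hp))

theorem n1_pow_le (p : ℂ[X]) (k : ℕ) : n1 (p ^ k) ≤ n1 p ^ k := by
  induction k with
  | zero => simp [n1_one]
  | succ k ih => rw [pow_succ, pow_succ]; exact n1_mul_le' ih le_rfl

theorem n1_lin (a b : ℂ) : n1 (C a + C b * X) ≤ ‖a‖ + ‖b‖ := by
  refine (n1_add_le _ _).trans ?_
  rw [n1_C, n1_C_mul, n1_X, mul_one]

theorem eval_le_n1 (p : ℂ[X]) {z : ℂ} (hz : ‖z‖ ≤ 1) : ‖p.eval z‖ ≤ n1 p := by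
  rw [eval_eq_sum, Polynomial.sum_def]
  refine (norm_sum_le _ _).trans (Finset.sum_le_sum fun i _ => ?_)
  rw [norm_mul, norm_pow]
  exact mul_le_of_le_one_right (norm_nonneg _) (pow_le_one₀ (norm_nonneg _) hz)

theorem n1_split (q r : ℂ[X]) (d : ℕ) (hr : r.degree < d) : n1 q + n1 r ≤ n1 (X ^ d * q + r) := by
  have h1 : n1 r = ∑ i ∈ Finset.range d, ‖(X ^ d * q + r).coeff i‖ := by
    rw [n1_eq r (Finset.range d)]
    · refine Finset.sum_congr rfl fun i hi => ?_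
      rw [coeff_add, coeff_X_pow_mul', if_neg (by simpa using hi), zero_add]
    · intro i hi
      rw [Finset.mem_range]
      by_contra h
      exact mem_support_iff.1 hi
        (coeff_eq_zero_of_degree_lt (hr.trans_le (by exact_mod_cast not_lt.1 h)))
  have h2 : n1 q = ∑ i ∈ q.support.map (addRightEmbedding d), ‖(X ^ d * q + r).coeff i‖ := by
    rw [Finset.sum_map, n1]
    refine Finset.sum_congr rfl fun i _ => ?_
    rw [addRightEmbedding_apply, coeff_add, coeff_X_pow_mul,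
      coeff_eq_zero_of_degree_lt (hr.trans_le (by exact_mod_cast Nat.le_add_left d i)), add_zero]
  rw [h1, h2, ← Finset.sum_union]
  · exact sum_le_n1 _ _
  · rw [Finset.disjoint_left]
    intro i hi hi'
    obtain ⟨j, -, rfl⟩ := Finset.mem_map.1 hi
    simp at hi'

theorem n1_reflect_le (N : ℕ) (p : ℂ[X]) : n1 (reflect N p) ≤ n1 p := by
  have : n1 (reflect N p) = ∑ i ∈ (reflect N p).support.map (revAt N), ‖p.coeff i‖ := by
    rw [Finset.sum_map, n1]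
    exact Finset.sum_congr rfl fun i _ => by rw [coeff_reflect]
  rw [this]; exact sum_le_n1 _ _

theorem n1_taylor_le (c : ℂ) (p : ℂ[X]) {N : ℕ} (h : p.natDegree ≤ N) :
    n1 (taylor c p) ≤ n1 p * (1 + ‖c‖) ^ N := by
  rw [taylor_apply, comp_eq_sum_left, Polynomial.sum_def]
  refine (n1_sum_le _ _).trans ?_
  rw [n1, Finset.sum_mul]
  refine Finset.sum_le_sum fun i hi => ?_
  rw [n1_C_mul]
  refine mul_le_mul_of_nonneg_left ((n1_pow_le _ _).trans ?_) (norm_nonneg _)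
  have h1 : n1 (X + C c) ≤ 1 + ‖c‖ := (n1_add_le _ _).trans (by rw [n1_X, n1_C])
  exact (pow_le_pow_left₀ (n1_nonneg _) h1 i).trans
    (pow_le_pow_right₀ (by simp) ((le_natDegree_of_mem_supp i hi).trans h))

theorem n1_near {ι : Type} (s : Finset ι) (ζ : ι → ℂ) (ρ : ℝ) (h0 : 0 ≤ ρ) (h : ∀ i, ‖ζ i‖ ≤ ρ)
    (hs : 2 * s.card * ρ ≤ 1) : n1 (∏ i ∈ s, (X - C (ζ i)) - X ^ s.card) ≤ 2 * s.card * ρ := by
  classical
  induction s using Finset.induction_on with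
  | empty => simp [n1_zero]
  | insert a s ha ih =>
    rw [Finset.card_insert_of_notMem ha] at hs ⊢
    push_cast at hs ⊢
    have hs' : 2 * s.card * ρ ≤ 1 := by nlinarith
    have ih := ih hs'
    rw [Finset.prod_insert ha]
    set U := ∏ i ∈ s, (X - C (ζ i)) - X ^ s.card with hU
    have e : (X - C (ζ a)) * ∏ i ∈ s, (X - C (ζ i)) - X ^ (s.card + 1)
        = X * U - C (ζ a) * U - C (ζ a) * X ^ s.card := by rw [hU]; ring
    rw [e]
    have h1 := n1_sub_le (X * U - C (ζ a) * U) (C (ζ a) * X ^ s.card)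
    have h2 := n1_sub_le (X * U) (C (ζ a) * U)
    rw [n1_C_mul, n1_X_pow] at h1
    rw [n1_C_mul, n1_X_mul] at h2
    have h3 : ‖ζ a‖ * n1 U ≤ ρ * 1 := mul_le_mul (h a) (ih.trans hs') (n1_nonneg _) h0
    have := h a
    linarith

/-- `V` is monic of degree `d` and close to `X ^ d` -/
structure Near (d : ℕ) (V : ℂ[X]) : Prop where
  monic : V.Monic
  deg : V.natDegree = d
  near : n1 (V - X ^ d) ≤ 1 / 2

theorem Near.n1_le {d : ℕ} {V : ℂ[X]} (h : Near d V) : n1 V ≤ 3 / 2 := by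
  have h1 := n1_add_le (V - X ^ d) (X ^ d)
  rw [sub_add_cancel, n1_X_pow] at h1
  linarith [h.near]

theorem Near.degree {d : ℕ} {V : ℂ[X]} (h : Near d V) : V.degree = d := by
  rw [degree_eq_natDegree h.monic.ne_zero, h.deg]

theorem Near.div {d : ℕ} {V : ℂ[X]} (h : Near d V) (q r : ℂ[X]) (hr : r.degree < d) :
    n1 r ≤ n1 (r + V * q) ∧ n1 q ≤ 2 * n1 (r + V * q) := by
  have h1 := n1_split q r d hr
  have e : X ^ d * q + r = (r + V * q) - (V - X ^ d) * q := by ring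
  have h2 := n1_sub_le (r + V * q) ((V - X ^ d) * q)
  have h3 := n1_mul_le' h.near (le_refl (n1 q))
  rw [e] at h1
  have := n1_nonneg q
  have := n1_nonneg r
  constructor <;> linarith

theorem Near.split {d : ℕ} {V : ℂ[X]} (h : Near d V) (p : ℂ[X]) :
    ∃ q r : ℂ[X], r.degree < d ∧ p = r + V * q :=
  ⟨p /ₘ V, p %ₘ V, h.degree ▸ degree_modByMonic_lt p h.monic, (modByMonic_add_div p V).symm⟩

/-- reduction modulo the square -/
theorem Near.two {d : ℕ} {V : ℂ[X]} (h : Near d V) (P Q : ℂ[X]) (hP : P.natDegree < 2 * d) :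
    n1 P ≤ 4 * n1 (P + V ^ 2 * Q) ∧ n1 Q ≤ 4 * n1 (P + V ^ 2 * Q) := by
  have hq : (P /ₘ V).degree < d := by
    refine degree_le_natDegree.trans_lt ?_
    rw [natDegree_divByMonic P h.monic, h.deg]
    exact_mod_cast (by omega : P.natDegree - d < d)
  have hr : (P %ₘ V).degree < d := h.degree ▸ degree_modByMonic_lt P h.monic
  have e := modByMonic_add_div P V
  have e' : P + V ^ 2 * Q = P %ₘ V + V * (P /ₘ V + V * Q) := by
    conv_lhs => rw [← e]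
    ring
  obtain ⟨a1, a2⟩ := h.div (P /ₘ V + V * Q) (P %ₘ V) hr
  obtain ⟨b1, b2⟩ := h.div Q (P /ₘ V) hq
  rw [← e'] at a1 a2
  have c1 := n1_add_le (P %ₘ V) (V * (P /ₘ V))
  rw [e] at c1
  have c2 := n1_mul_le' h.n1_le (le_refl (n1 (P /ₘ V)))
  constructor <;> linarith

theorem near_prod {d : ℕ} (hd : 1 ≤ d) (ζ : Fin d → ℂ) (h : ∀ i, ‖ζ i‖ ≤ 1 / (4 * d)) :
    Near d (∏ i, (X - C (ζ i))) := by
  have hd' : (0 : ℝ) < d := by exact_mod_cast hd
  have e : 2 * ((Finset.univ : Finset (Fin d)).card : ℝ) * (1 / (4 * d)) = 1 / 2 := by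
    simp only [Finset.card_univ, Fintype.card_fin]; field_simp; norm_num
  refine ⟨monic_prod_of_monic _ _ fun i _ => monic_X_sub_C _, ?_, ?_⟩
  · rw [natDegree_prod_of_monic _ _ fun i _ => monic_X_sub_C _]; simp
  · have := n1_near Finset.univ ζ (1 / (4 * d)) (by positivity) h (by rw [e]; norm_num)
    rw [e] at this
    simpa using this

end Pool.Agent.VW
end

-- part Pool.Agent.P.MP_b0ea37_nt.WMaF
section

namespace Pool.Agent.VW

open Polynomial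

/-- a small quadratic equation in a finite dimensional normed algebra -/
theorem fix_quad {A : Type} [CommRing A] [Algebra ℂ A] [Module.Finite ℂ A] (N : Seminorm ℂ A)
    (hN : ∀ a, N a = 0 → a = 0) (K : ℝ) (hK : 0 ≤ K) (hmul : ∀ a b, N (a * b) ≤ K * (N a * N b))
    (p q : A) (h : 8 * K ^ 2 * N p * N q ≤ 1) : ∃ k, k = p + q * k ^ 2 ∧ N k ≤ 2 * N p := by
  let _i : NormedAddCommGroup A := AddGroupNorm.toNormedAddCommGroup
    { N.toAddGroupSeminorm with eq_zero_of_map_eq_zero' := hN }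
  have hn : ∀ a : A, ‖a‖ = N a := fun _ => rfl
  let _j : NormedSpace ℂ A := ⟨fun c a => by rw [hn, hn, map_smul_eq_mul]⟩
  have : CompleteSpace A := FiniteDimensional.complete ℂ A
  have hp := apply_nonneg N p
  have hq := apply_nonneg N q
  have h3 : ∀ a b : A, N (q * (a * b)) ≤ K ^ 2 * N q * (N a * N b) := fun a b =>
    (hmul _ _).trans (by
      have := mul_le_mul_of_nonneg_left (hmul a b) (mul_nonneg hK hq)
      nlinarith)
  set s : Set A := Metric.closedBall 0 (2 * N p) with hs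
  have hmem : ∀ a, a ∈ s ↔ N a ≤ 2 * N p := fun a => by rw [hs, mem_closedBall_zero_iff, hn]
  have hKq : 0 ≤ K ^ 2 * N q := by positivity
  have hmap : Set.MapsTo (fun k => p + q * k ^ 2) s s := by
    intro k hk
    rw [hmem] at hk ⊢
    have h1 := map_add_le_add N p (q * k ^ 2)
    have h2 := h3 k k
    rw [← sq] at h2
    have h4 : N k * N k ≤ (2 * N p) * (2 * N p) :=
      mul_le_mul hk hk (apply_nonneg _ _) (by positivity)
    have h5 := mul_le_mul_of_nonneg_left h4 hKq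
    have h6 := mul_le_mul_of_nonneg_left h hp
    nlinarith
  have hc : ContractingWith (1 / 2) (hmap.restrict (fun k => p + q * k ^ 2) s s) := by
    refine ⟨by norm_num, LipschitzWith.of_dist_le_mul fun a b => ?_⟩
    have ha := (hmem _).1 a.2
    have hb := (hmem _).1 b.2
    rw [Subtype.dist_eq, Subtype.dist_eq, dist_eq_norm, dist_eq_norm, hn, hn]
    simp only [Set.MapsTo.val_restrict_apply]
    have e : p + q * (a : A) ^ 2 - (p + q * (b : A) ^ 2) = q * ((a + b) * (a - b)) := by ring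
    rw [e]
    refine (h3 _ _).trans ?_
    have h1 : N (a + b : A) ≤ 4 * N p := (map_add_le_add N _ _).trans (by linarith)
    have h2 := apply_nonneg N ((a : A) - b)
    have h4 := mul_le_mul_of_nonneg_left (mul_le_mul_of_nonneg_right h1 h2) hKq
    have h6 := mul_le_mul_of_nonneg_left h h2
    push_cast
    nlinarith
  obtain ⟨k, hk, hfix, -⟩ := ContractingWith.exists_fixedPoint' Metric.isClosed_closedBall.isComplete
    hmap hc (x := 0) ((hmem 0).2 (by rw [map_zero]; positivity)) (edist_ne_top _ _)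
  exact ⟨k, hfix.symm, (hmem k).1 hk⟩

theorem prod_lin {ι : Type} (s : Finset ι) (L : ℂ[X]) (l : ι → ℂ) (B : ℝ) (hB : 1 ≤ B)
    (hL : n1 L ≤ B) (hl : ∀ i, ‖l i‖ ≤ B) :
    ∃ J : ℂ[X], ∏ i ∈ s, (L - C (l i)) = L * J + C (∏ i ∈ s, -l i) ∧ n1 J ≤ (3 * B) ^ s.card := by
  classical
  induction s using Finset.induction_on with
  | empty => exact ⟨0, by simp, by simp [n1_zero]⟩
  | insert a s ha ih =>
    obtain ⟨J, e, hJ⟩ := ih
    refine ⟨J * (L - C (l a)) + C (∏ i ∈ s, -l i), ?_, ?_⟩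
    · rw [Finset.prod_insert ha, Finset.prod_insert ha, e, C_mul, C_neg]; ring
    · rw [Finset.card_insert_of_notMem ha, pow_succ]
      have h1 : n1 (L - C (l a)) ≤ 2 * B := (n1_sub_le _ _).trans (by rw [n1_C]; linarith [hl a])
      have h2 := n1_mul_le' hJ h1
      have h3 : n1 (C (∏ i ∈ s, -l i)) ≤ (3 * B) ^ s.card := by
        rw [n1_C, norm_prod, ← Finset.prod_const]
        exact Finset.prod_le_prod (fun _ _ => norm_nonneg _) fun i _ => by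
          rw [norm_neg]; linarith [hl i]
      have h4 := n1_add_le (J * (L - C (l a))) (C (∏ i ∈ s, -l i))
      have h5 : (0 : ℝ) ≤ (3 * B) ^ s.card := by positivity
      nlinarith

/-- the two level norm on the quotient by `V ^ 2` -/
theorem Near.norm {d : ℕ} {V : ℂ[X]} (h : Near d V) (e : ℝ) (he0 : 0 < e) (he : e ≤ 1) :
    ∃ N : Seminorm ℂ (AdjoinRoot (V ^ 2)), (∀ a, N a = 0 → a = 0) ∧
      (∀ p q, N (AdjoinRoot.mk _ (p + V * q)) ≤ 3 * n1 p + e * n1 q) ∧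
      ∀ a, ∃ p q, a = AdjoinRoot.mk _ (p + V * q) ∧ N a = n1 p + e * n1 q := by
  have h2 : (V ^ 2).Monic := h.monic.pow 2
  let R := AdjoinRoot.modByMonicHom h2
  have huniq : ∀ p q : ℂ[X], p.degree < d → (p + V * q) /ₘ V = q ∧ (p + V * q) %ₘ V = p :=
    fun p q hp => div_modByMonic_unique q p h.monic ⟨rfl, h.degree ▸ hp⟩
  have hdm : ∀ p : ℂ[X], (p %ₘ V).degree < d := fun p => h.degree ▸ degree_modByMonic_lt p h.monic
  have hadd : ∀ p q : ℂ[X], (p + q) /ₘ V = p /ₘ V + q /ₘ V := fun p q => by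
    have e1 : p + q = (p %ₘ V + q %ₘ V) + V * (p /ₘ V + q /ₘ V) := by
      conv_lhs => rw [← modByMonic_add_div p V, ← modByMonic_add_div q V]
      ring
    rw [e1]
    exact (huniq _ _ ((degree_add_le _ _).trans_lt (max_lt (hdm p) (hdm q)))).1
  have hsm : ∀ (c : ℂ) (p : ℂ[X]), (c • p) /ₘ V = c • (p /ₘ V) := fun c p => by
    have e1 : c • p = c • (p %ₘ V) + V * (c • (p /ₘ V)) := by
      conv_lhs => rw [← modByMonic_add_div p V]
      rw [smul_add, mul_smul_comm]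
    rw [e1]
    exact (huniq _ _ ((degree_smul_le _ _).trans_lt (hdm p))).1
  let N : Seminorm ℂ (AdjoinRoot (V ^ 2)) :=
    Seminorm.of (fun a => n1 (R a %ₘ V) + e * n1 (R a /ₘ V))
      (fun a b => by
        rw [map_add, add_modByMonic, hadd]
        have h1 := n1_add_le (R a %ₘ V) (R b %ₘ V)
        have h3 := mul_le_mul_of_nonneg_left (n1_add_le (R a /ₘ V) (R b /ₘ V)) he0.le
        linarith)
      (fun c a => by rw [map_smul, smul_modByMonic, hsm, n1_smul, n1_smul]; ring)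
  have hN : ∀ a, N a = n1 (R a %ₘ V) + e * n1 (R a /ₘ V) := fun _ => rfl
  have hrep : ∀ a, a = AdjoinRoot.mk _ (R a %ₘ V + V * (R a /ₘ V)) := fun a => by
    rw [modByMonic_add_div]; exact (AdjoinRoot.mk_leftInverse h2 a).symm
  refine ⟨N, fun a ha => ?_, fun p q => ?_, fun a => ⟨_, _, hrep a, hN a⟩⟩
  · rw [hN] at ha
    have h1 := n1_nonneg (R a %ₘ V)
    have h3 := n1_nonneg (R a /ₘ V)
    have h4 := mul_nonneg he0.le h3
    have h5 : n1 (R a /ₘ V) = 0 := (mul_eq_zero.1 (by linarith)).resolve_left he0.ne'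
    rw [hrep a, n1_eq_zero h5, n1_eq_zero (by linarith : n1 (R a %ₘ V) = 0)]
    simp
  · obtain ⟨q0, r0, hr0, rfl⟩ := h.split p
    obtain ⟨q1, r1, hr1, e1⟩ := h.split (q0 + q)
    have hR : R (AdjoinRoot.mk _ (r0 + V * q0 + V * q)) = r0 + V * r1 := by
      rw [AdjoinRoot.modByMonicHom_mk]
      refine (div_modByMonic_unique q1 _ h2 ⟨?_, ?_⟩).2
      · linear_combination (-V) * e1
      · rw [degree_pow, h.degree]
        refine (degree_add_le _ _).trans_lt (max_lt (hr0.trans_le ?_) ?_)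
        · rw [two_nsmul]; exact_mod_cast Nat.le_add_right d d
        · rw [degree_mul, h.degree, two_nsmul]
          exact WithBot.add_lt_add_left (WithBot.natCast_ne_bot d) hr1
    rw [hN, hR, (huniq r0 r1 hr0).1, (huniq r0 r1 hr0).2]
    obtain ⟨a1, a2⟩ := h.div q0 r0 hr0
    obtain ⟨b1, -⟩ := h.div q1 r1 hr1
    rw [← e1] at b1
    have b2 := n1_add_le q0 q
    have b3 := mul_le_mul_of_nonneg_left (b1.trans b2) he0.le
    have b4 := mul_le_mul_of_nonneg_right he (n1_nonneg q0)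
    linarith

/-- the square root of one factor modulo `V ^ 2` -/
theorem fac {d : ℕ} (hd : 1 ≤ d) (B : ℝ) (hB : 1 ≤ B) : ∃ T : ℝ, 1 ≤ T ∧
    ∀ (ζ : Fin d → ℂ) (a b δ : ℂ) (e l : ℝ), (∀ i, ‖ζ i‖ ≤ 1 / (4 * d)) → ‖a‖ + ‖b‖ ≤ B →
      0 < e → e ≤ 1 → e ≤ ‖∏ i, (a + b * ζ i)‖ → ‖δ‖ ≤ l * e → 0 ≤ l → 5 * T * l ≤ 1 →
      (∀ j, e ≤ T * ‖a + b * ζ j‖) ∧ ∃ k : ℂ[X], (∏ i, (X - C (ζ i))) ^ 2 ∣
          (C a + C b * X - X ^ 2 * k) ^ 2 - (C a + C b * X - C δ * X) * (C a + C b * X + C δ * X) ∧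
        n1 k ≤ 3 * T * l ^ 2 ∧ ∀ j, ‖k.eval (ζ j)‖ ≤ T * l ^ 2 * e := by
  have hBd : 1 ≤ B ^ d := one_le_pow₀ hB
  have h3B : 1 ≤ (3 * B) ^ d := one_le_pow₀ (by linarith)
  refine ⟨(3 * B) ^ d * (3 + B ^ d), by nlinarith, ?_⟩
  intro ζ a b δ e l hζ hab he0 he1 hN hδ hl0 hl
  set T := (3 * B) ^ d * (3 + B ^ d) with hT
  have hT1 : 1 ≤ T := by nlinarith
  have hd' : (1 : ℝ) ≤ d := by exact_mod_cast hd
  have hζ1 : ∀ i, ‖ζ i‖ ≤ 1 := fun i => (hζ i).trans (by rw [div_le_one] <;> linarith)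
  have hV := near_prod hd ζ hζ
  set V := ∏ i, (X - C (ζ i)) with hVd
  set L := C a + C b * X with hL
  have hLn : n1 L ≤ B := (n1_lin a b).trans hab
  have hl1 : ∀ i, ‖a + b * ζ i‖ ≤ B := fun i => by
    have := eval_le_n1 L (hζ1 i)
    simp only [hL, eval_add, eval_C, eval_mul, eval_X] at this
    exact this.trans hLn
  constructor
  · intro j
    rw [norm_prod, ← Finset.mul_prod_erase _ _ (Finset.mem_univ j)] at hN
    have h1 : ∏ i ∈ Finset.univ.erase j, ‖a + b * ζ i‖ ≤ B ^ d :=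
      (Finset.prod_le_prod (fun _ _ => norm_nonneg _) fun i _ => hl1 i).trans (by
        rw [Finset.prod_const]
        exact pow_le_pow_right₀ hB ((Finset.card_le_univ _).trans (by simp)))
    have h2 : B ^ d ≤ T := by nlinarith
    have := mul_le_mul_of_nonneg_left (h1.trans h2) (norm_nonneg (a + b * ζ j))
    linarith
  obtain ⟨J, hJ, hJn⟩ := prod_lin Finset.univ L (fun i => a + b * ζ i) B hB hLn hl1
  rw [Finset.card_univ, Fintype.card_fin] at hJn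
  set N0 := ∏ i, -(a + b * ζ i) with hN0
  have hN0e : e ≤ ‖N0‖ := by
    rw [hN0, norm_prod]; rw [norm_prod] at hN; simpa only [norm_neg] using hN
  have hN00 : N0 ≠ 0 := norm_pos_iff.1 (he0.trans_le hN0e)
  have hW : C (b ^ d) * V = L * J + C N0 := by
    rw [← hJ, hVd, show C (b ^ d) = ∏ _i : Fin d, C b by simp, ← Finset.prod_mul_distrib]
    exact Finset.prod_congr rfl fun i _ => by rw [hL, C_add, C_mul]; ring
  have hV0 : ∀ j, V.eval (ζ j) = 0 := fun j => by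
    rw [hVd, eval_prod]; exact Finset.prod_eq_zero (Finset.mem_univ j) (by simp)
  obtain ⟨N, hN1, hN2, hN3⟩ := hV.norm e he0 he1
  have : Module.Finite ℂ (AdjoinRoot (V ^ 2)) := (hV.monic.pow 2).finite_adjoinRoot
  have hmul : ∀ x y, N (x * y) ≤ 3 * (N x * N y) := fun x y => by
    obtain ⟨p, q, rfl, e1⟩ := hN3 x
    obtain ⟨p', q', rfl, e2⟩ := hN3 y
    have e3 : AdjoinRoot.mk (V ^ 2) (p + V * q) * AdjoinRoot.mk (V ^ 2) (p' + V * q')
        = AdjoinRoot.mk (V ^ 2) (p * p' + V * (p * q' + q * p')) := by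
      rw [← map_mul, AdjoinRoot.mk_eq_mk]
      exact ⟨q * q', by ring⟩
    rw [e3, e1, e2]
    refine (hN2 _ _).trans ?_
    have h1 := n1_mul_le p p'
    have h2 := (n1_add_le _ _).trans (add_le_add (n1_mul_le p q') (n1_mul_le q p'))
    have h3 := mul_le_mul_of_nonneg_left h2 he0.le
    have h4 := mul_nonneg he0.le (mul_nonneg (n1_nonneg p) (n1_nonneg q'))
    have h5 := mul_nonneg he0.le (mul_nonneg (n1_nonneg q) (n1_nonneg p'))
    have h6 := mul_nonneg (mul_nonneg he0.le he0.le) (mul_nonneg (n1_nonneg q) (n1_nonneg q'))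
    nlinarith
  set p0 := C (-N0⁻¹) * J with hp0
  set p1 := C (-N0⁻¹ * N0⁻¹ * b ^ d) * J with hp1
  have hi : ‖N0⁻¹‖ ≤ e⁻¹ := by rw [norm_inv]; exact inv_anti₀ he0 hN0e
  have hei : 0 < e⁻¹ := inv_pos.2 he0
  have hb : ‖b‖ ^ d ≤ B ^ d := pow_le_pow_left₀ (norm_nonneg _) (by linarith [norm_nonneg a]) d
  have hI : 3 * n1 p0 + e * n1 p1 ≤ T * e⁻¹ := by
    rw [hp0, hp1, n1_C_mul, n1_C_mul, norm_mul, norm_mul, norm_neg, norm_pow]
    have h1 : ‖N0⁻¹‖ * n1 J ≤ e⁻¹ * (3 * B) ^ d := mul_le_mul hi hJn (n1_nonneg _) hei.le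
    have h2 : ‖N0⁻¹‖ * ‖N0⁻¹‖ * ‖b‖ ^ d * n1 J ≤ e⁻¹ * e⁻¹ * B ^ d * (3 * B) ^ d := by
      have := n1_nonneg J
      gcongr
    have h3 := mul_le_mul_of_nonneg_left h2 he0.le
    have h4 : e * (e⁻¹ * e⁻¹ * B ^ d * (3 * B) ^ d) = e⁻¹ * B ^ d * (3 * B) ^ d := by field_simp
    rw [hT]; nlinarith
  have hinv : V ^ 2 ∣ L * (p0 + V * p1) - 1 := by
    refine ⟨-C (N0⁻¹ * N0⁻¹ * b ^ d * b ^ d), ?_⟩
    have h1 : C N0 * C N0⁻¹ = (1 : ℂ[X]) := by rw [← C_mul, mul_inv_cancel₀ hN00, C_1]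
    simp only [hp0, hp1, C_mul, C_neg]
    linear_combination (C N0⁻¹ + C N0⁻¹ * C N0⁻¹ * C (b ^ d) * V) * hW
      + (1 + C N0⁻¹ * C (b ^ d) * V) * h1
  clear hp0 hp1 hT hVd hW hJ hL
  clear_value p0 p1 T
  have hp : N (AdjoinRoot.mk _ (C (δ ^ 2 / 2) * p0 + V * (C (δ ^ 2 / 2) * p1)))
      ≤ T * l ^ 2 * e / 2 := by
    refine (hN2 _ _).trans ?_
    rw [n1_C_mul, n1_C_mul, norm_div, norm_pow, Complex.norm_two]
    have h1 : ‖δ‖ ^ 2 ≤ (l * e) ^ 2 := pow_le_pow_left₀ (norm_nonneg _) hδ 2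
    have h2 := mul_le_mul h1 hI (by have := n1_nonneg p0; have := n1_nonneg p1; positivity)
      (by positivity)
    have h3 : (l * e) ^ 2 * (T * e⁻¹) = T * l ^ 2 * e := by field_simp
    linarith
  have hq : N (AdjoinRoot.mk _ (C (1 / 2) * (X ^ 2 * p0) + V * (C (1 / 2) * (X ^ 2 * p1))))
      ≤ T * e⁻¹ / 2 := by
    refine (hN2 _ _).trans ?_
    rw [n1_C_mul, n1_C_mul, n1_X_pow_mul, n1_X_pow_mul, norm_div, norm_one, Complex.norm_two]
    linarith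
  obtain ⟨k, hk, hkn⟩ := fix_quad N hN1 3 (by norm_num) hmul
    (AdjoinRoot.mk _ (C (δ ^ 2 / 2) * p0 + V * (C (δ ^ 2 / 2) * p1)))
    (AdjoinRoot.mk _ (C (1 / 2) * (X ^ 2 * p0) + V * (C (1 / 2) * (X ^ 2 * p1)))) (by
    have h1 := mul_le_mul hp hq (apply_nonneg _ _) (by positivity)
    have h2 : T * l ^ 2 * e / 2 * (T * e⁻¹ / 2) = (T * l) ^ 2 / 4 := by field_simp; norm_num
    have h3 : 0 ≤ T * l := by positivity
    have h4 : (T * l) ^ 2 ≤ (1 / 5) ^ 2 := pow_le_pow_left₀ h3 (by linarith) 2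
    rw [mul_assoc]
    linarith)
  obtain ⟨k0, k1, rfl, hk2⟩ := hN3 k
  have hk3 : n1 k0 + e * n1 k1 ≤ T * l ^ 2 * e := by linarith
  have hk0 := n1_nonneg k0
  have hk1 := mul_nonneg he0.le (n1_nonneg k1)
  refine ⟨k0 + V * k1, ?_, ?_, fun j => ?_⟩
  · rw [← map_pow, ← map_mul, ← map_add, AdjoinRoot.mk_eq_mk] at hk
    obtain ⟨w, hw⟩ := hk
    obtain ⟨u, hu⟩ := hinv
    generalize k0 + V * k1 = k at hw ⊢
    refine ⟨-(X ^ 2 * (2 * L * w + u * (C δ ^ 2 + X ^ 2 * k ^ 2))), ?_⟩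
    have h1 : C (δ ^ 2 / 2) * 2 = (C δ ^ 2 : ℂ[X]) := by
      rw [← C_pow, ← C_ofNat, ← C_mul]; congr 1; ring
    have h2 : C (1 / 2 : ℂ) * 2 = (1 : ℂ[X]) := by
      rw [← C_1, ← C_ofNat, ← C_mul]; congr 1; ring
    linear_combination (-2 * L * X ^ 2) * hw - X ^ 2 * (C δ ^ 2 + X ^ 2 * k ^ 2) * hu
      - L * X ^ 2 * (p0 + V * p1) * h1 - L * X ^ 4 * k ^ 2 * (p0 + V * p1) * h2
  · have h1 : n1 k1 ≤ T * l ^ 2 := le_of_mul_le_mul_left (by linarith) he0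
    have h2 := n1_mul_le' hV.n1_le h1
    have h3 := n1_add_le k0 (V * k1)
    have h4 : T * l ^ 2 * e ≤ T * l ^ 2 * 1 := mul_le_mul_of_nonneg_left he1 (by positivity)
    have h5 : 0 ≤ T * l ^ 2 := by positivity
    linarith
  · rw [eval_add, eval_mul, hV0 j, zero_mul, add_zero]
    exact (eval_le_n1 k0 (hζ1 j)).trans (by linarith)

end Pool.Agent.VW
end

-- part Pool.Agent.P.MP_b0ea37_nt.WMaP
section

namespace Pool.Agent.VW

open Polynomial

theorem prod_three {ι : Type} (s : Finset ι) (L k : ι → ℂ[X]) (δ : ι → ℂ) (B κ l : ℝ) (hB : 0 ≤ B)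
    (hκ : 0 ≤ κ) (hl0 : 0 ≤ l) (hl : l ≤ 1) (hL : ∀ i, n1 (L i) ≤ B) (hδ : ∀ i, ‖δ i‖ ≤ l)
    (hk : ∀ i, n1 (k i) ≤ κ * l ^ 2) : ∃ D S T : ℂ[X],
      ∏ i ∈ s, (L i + C (δ i) * X) = ∏ i ∈ s, L i + X * D + X ^ 2 * S ∧
      ∏ i ∈ s, (L i - C (δ i) * X) = ∏ i ∈ s, L i - X * D + X ^ 2 * S ∧
      ∏ i ∈ s, (L i - X ^ 2 * k i) = ∏ i ∈ s, L i + X ^ 2 * T ∧
      n1 (∏ i ∈ s, L i) ≤ (B + 2 + 2 * κ) ^ s.card ∧ n1 D ≤ (B + 2 + 2 * κ) ^ s.card * l ∧
      n1 S ≤ (B + 2 + 2 * κ) ^ s.card * l ^ 2 ∧ n1 T ≤ (B + 2 + 2 * κ) ^ s.card * l ^ 2 := by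
  classical
  induction s using Finset.induction_on with
  | empty => exact ⟨0, 0, 0, by simp, by simp, by simp, by simp [n1_one],
      by simp [n1_zero, hl0], by simp [n1_zero, sq_nonneg], by simp [n1_zero, sq_nonneg]⟩
  | insert a s ha ih =>
    obtain ⟨D, S, T, e1, e2, e3, h0, h1, h2, h3⟩ := ih
    simp only [Finset.prod_insert ha, Finset.card_insert_of_notMem ha, pow_succ _ s.card]
    rw [e1, e2, e3]
    have hR : 0 ≤ (B + 2 + 2 * κ) ^ s.card := by positivity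
    generalize (B + 2 + 2 * κ) ^ s.card = R at *
    generalize ∏ i ∈ s, L i = P at *
    have hl2 : l ^ 2 ≤ 1 := pow_le_one₀ hl0 hl
    have hl3 : 0 ≤ l ^ 2 := sq_nonneg l
    have hd : n1 (C (δ a)) ≤ l := by rw [n1_C]; exact hδ a
    have hRl := mul_nonneg hR hl0
    have hRl2 := mul_nonneg hR hl3
    refine ⟨D * L a + C (δ a) * P + X ^ 2 * (C (δ a) * S), S * L a + C (δ a) * D,
      T * L a - P * k a - X ^ 2 * (T * k a), by ring, by ring, by ring, ?_, ?_, ?_, ?_⟩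
    · have := n1_mul_le' (hL a) h0
      nlinarith [mul_nonneg hR hκ]
    · have a1 := n1_add_le (D * L a + C (δ a) * P) (X ^ 2 * (C (δ a) * S))
      have a2 := n1_add_le (D * L a) (C (δ a) * P)
      rw [n1_X_pow_mul] at a1
      have a3 := n1_mul_le' h1 (hL a)
      have a4 := n1_mul_le' hd h0
      have a5 := n1_mul_le' hd h2
      have a6 := mul_le_mul_of_nonneg_left hl2 hRl
      nlinarith [mul_nonneg hRl hκ]
    · have a2 := n1_add_le (S * L a) (C (δ a) * D)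
      have a3 := n1_mul_le' h2 (hL a)
      have a4 := n1_mul_le' hd h1
      nlinarith [mul_nonneg hRl2 hκ]
    · have a1 := n1_sub_le (T * L a - P * k a) (X ^ 2 * (T * k a))
      have a2 := n1_sub_le (T * L a) (P * k a)
      rw [n1_X_pow_mul] at a1
      have a3 := n1_mul_le' h3 (hL a)
      have a4 := n1_mul_le' h0 (hk a)
      have a5 := n1_mul_le' h3 (hk a)
      have a6 := mul_le_mul_of_nonneg_left hl2 (mul_nonneg hRl2 hκ)
      nlinarith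

theorem prod_near {n : ℕ} (w : Fin n → ℂ) (t : ℝ) (h : ∀ i, ‖w i‖ ≤ t) (ht0 : 0 ≤ t)
    (ht : n * t ≤ 1) : ‖∏ i, (1 + w i) - 1‖ ≤ 2 * (n * t) := by
  refine (Finset.norm_prod_one_add_sub_one_le _ _).trans ?_
  have h1 : ∑ i, ‖w i‖ ≤ n * t :=
    (Finset.sum_le_sum fun i _ => h i).trans (by simp)
  have h2 : 0 ≤ n * t := by positivity
  have h3 := Real.abs_exp_sub_one_le (x := n * t) (by rwa [abs_of_nonneg h2])
  rw [abs_of_nonneg h2] at h3
  have h4 := Real.exp_le_exp.2 h1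
  linarith [le_abs_self (Real.exp (n * t) - 1)]

theorem exists_far {d : ℕ} (η : Fin d → ℂ) (R : ℝ) (hR : 0 ≤ R) :
    ∃ t : ℂ, ‖t‖ ≤ 2 * R * d ∧ ∀ k, R ≤ ‖η k - t‖ := by
  by_contra h
  have h' : ∀ j : Fin (d + 1), ∃ k, ‖η k - ((2 * R * j : ℝ) : ℂ)‖ < R := fun j => by
    by_contra hc
    refine h ⟨((2 * R * j : ℝ) : ℂ), ?_, fun k => not_lt.1 fun hk => hc ⟨k, hk⟩⟩
    rw [Complex.norm_real, Real.norm_of_nonneg (by positivity)]
    have : ((j : ℕ) : ℝ) ≤ d := by exact_mod_cast Nat.lt_succ_iff.1 j.2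
    gcongr
  choose φ hφ using h'
  obtain ⟨i, j, hij, e⟩ := Fintype.exists_ne_map_eq_of_card_lt φ (by simp)
  have h1 := hφ i
  have h2 := hφ j
  rw [← e] at h2
  have h3 := norm_sub_le (η (φ i) - ((2 * R * j : ℝ) : ℂ)) (η (φ i) - ((2 * R * i : ℝ) : ℂ))
  rw [sub_sub_sub_cancel_left, ← Complex.ofReal_sub, Complex.norm_real, Real.norm_eq_abs,
    ← mul_sub, abs_mul, abs_of_nonneg (by positivity : 0 ≤ 2 * R)] at h3
  have h4 : (1 : ℝ) ≤ |((i : ℕ) : ℝ) - (j : ℕ)| := by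
    have : (1 : ℤ) ≤ |((i : ℕ) : ℤ) - (j : ℕ)| :=
      Int.one_le_abs (sub_ne_zero.2 (by exact_mod_cast Fin.val_ne_of_ne hij))
    exact_mod_cast this
  nlinarith

theorem eval_lip (v : ℂ[X]) {d : ℕ} (hd : 1 ≤ d) (hv : v.natDegree = d) (R : ℝ) (hR : 1 ≤ R)
    (z w : ℂ) (hz : ‖z‖ ≤ R) (hw : ‖w‖ ≤ R) :
    ‖v.eval z - v.eval w‖ * R ≤ d ^ 2 * v.supNorm * R ^ d * ‖z - w‖ := by
  have h1 : ∀ u ∈ Metric.closedBall (0 : ℂ) R,
      ‖deriv (fun x => v.eval x) u‖ ≤ d ^ 2 * v.supNorm * R ^ (d - 1) := fun u hu => by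
    rw [Polynomial.deriv]
    have h2 := norm_eval_le (derivative v) (m := d - 1) (hv ▸ natDegree_derivative_le v) u
    have h3 := sup_derivative_le v hv.le
    have h4 : (max 1 ‖u‖) ^ (d - 1) ≤ R ^ (d - 1) :=
      pow_le_pow_left₀ (by positivity) (max_le hR (mem_closedBall_zero_iff.1 hu)) _
    have h5 : ((d - 1 : ℕ) : ℝ) + 1 = d := by rw [Nat.cast_sub hd]; simp
    rw [h5] at h2
    have := v.supNorm_nonneg
    calc _ ≤ _ := h2
      _ ≤ d * (d * v.supNorm) * R ^ (d - 1) := by gcongr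
      _ = _ := by ring
  have h2 := Convex.norm_image_sub_le_of_norm_deriv_le (fun x _ => v.differentiableAt) h1
    (convex_closedBall _ _) (mem_closedBall_zero_iff.2 hw) (mem_closedBall_zero_iff.2 hz)
  have h3 : R ^ d = R ^ (d - 1) * R := by rw [← pow_succ, Nat.sub_add_cancel hd]
  rw [h3]
  have := mul_le_mul_of_nonneg_right h2 (by linarith : 0 ≤ R)
  linarith

theorem sup_pos {v : ℂ[X]} (hv : v ≠ 0) : 0 < v.supNorm :=
  (norm_pos_iff.2 (leadingCoeff_ne_zero.2 hv)).trans_le (v.le_supNorm _)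

/-- two polynomials of one cell are close at every root of `v` -/
theorem arch_ratio (n d : ℕ) (hd : 1 ≤ d) : ∃ c K : ℝ, 0 < c ∧ 0 < K ∧
    ∀ (v : ℂ[X]) (θ θ' : Fin n → ℂ) (m ε : Fin n → ℝ) (l : ℝ), v.natDegree = d →
      (∀ i, 1 ≤ m i) → (∀ i, ‖θ i‖ ≤ m i) → (∀ i, 0 < ε i) → (∀ i, ε i ≤ 1) →
      (∀ i, ε i * v.supNorm * m i ^ d ≤ ‖v.eval (θ i)‖) → 0 ≤ l → l ≤ c →
      (∀ i, ‖θ i - θ' i‖ ≤ l * ε i * m i) → ∀ η, v.eval η = 0 →
      (∏ i, (X - C (θ i))).eval η ≠ 0 ∧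
        ‖(∏ i, (X - C (θ' i))).eval η / (∏ i, (X - C (θ i))).eval η - 1‖ ≤ K * l := by
  have hd' : (1 : ℝ) ≤ d := by exact_mod_cast hd
  obtain ⟨κ, hκ, hκ1⟩ : ∃ κ : ℝ, κ = d ^ 2 * 2 ^ d ∧ 1 ≤ κ :=
    ⟨_, rfl, one_le_mul_of_one_le_of_one_le (one_le_pow₀ hd') (one_le_pow₀ one_le_two)⟩
  refine ⟨1 / ((n + 1) * κ), 2 * (n + 1) * κ, by positivity, by positivity, ?_⟩
  intro v θ θ' m ε l hv hm hθ hε0 hε1 hvθ hl0 hl hθ' η hη
  have hX := sup_pos (v := v) (by rintro rfl; simp at hv; omega)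
  have hsep : ∀ i, ε i * m i ≤ κ * ‖η - θ i‖ := fun i => by
    have hm0 : 0 < m i := by linarith [hm i]
    by_cases hc : ‖η - θ i‖ ≤ m i
    · have h1 : ‖η‖ ≤ 2 * m i := by linarith [norm_sub_norm_le η (θ i), hθ i]
      have h2 := eval_lip v hd hv (2 * m i) (by linarith [hm i]) η (θ i) h1 (by linarith [hθ i])
      rw [hη, zero_sub, norm_neg, mul_pow] at h2
      have h3 := mul_le_mul_of_nonneg_right (hvθ i) (by positivity : 0 ≤ 2 * m i)
      have h4 : 0 < v.supNorm * m i ^ d := by positivity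
      have h5 := mul_pos h4 (mul_pos (hε0 i) hm0)
      refine le_of_mul_le_mul_left ?_ h4
      rw [hκ]; nlinarith
    · have h1 := mul_le_mul_of_nonneg_right (hε1 i) hm0.le
      have h2 := mul_le_mul_of_nonneg_right hκ1 (norm_nonneg (η - θ i))
      linarith
  have hne : ∀ i, η - θ i ≠ 0 := fun i h0 => by
    have := hsep i
    rw [h0, norm_zero, mul_zero] at this
    linarith [mul_pos (hε0 i) (by linarith [hm i] : 0 < m i)]
  simp only [eval_prod, eval_sub, eval_X, eval_C]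
  refine ⟨Finset.prod_ne_zero_iff.2 fun i _ => hne i, ?_⟩
  rw [← Finset.prod_div_distrib, Finset.prod_congr rfl (g := fun i => 1 + (θ i - θ' i) / (η - θ i))
    fun i _ => by have := hne i; field_simp; ring]
  rw [le_div_iff₀ (by positivity)] at hl
  have hlκ : 0 ≤ l * κ := by positivity
  refine (prod_near _ (l * κ) (fun i => ?_) hlκ (by linarith)).trans (by nlinarith)
  rw [norm_div, div_le_iff₀ (norm_pos_iff.2 (hne i))]
  have := mul_le_mul_of_nonneg_left (hsep i) hl0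
  linarith [hθ' i]

/-- square roots of numbers near one with the same sign of the real part -/
theorem arch_sign (a b : ℂ) (ha : ‖a ^ 2 - 1‖ ≤ 1 / 2) (hb : ‖b ^ 2 - 1‖ ≤ 1 / 2)
    (h : 0 < a.re ↔ 0 < b.re) : 0 < (b / a).re := by
  have key : ∀ z : ℂ, ‖z ^ 2 - 1‖ ≤ 1 / 2 → z.im ^ 2 < z.re ^ 2 := fun z hz => by
    have h1 := (abs_le.1 ((Complex.abs_re_le_norm _).trans hz)).1
    simp only [sq, Complex.sub_re, Complex.mul_re, Complex.one_re] at h1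
    nlinarith
  have h1 := key a ha
  have h2 := key b hb
  have ha0 : a.re ≠ 0 := fun h0 => by rw [h0] at h1; nlinarith [sq_nonneg a.im]
  have hb0 : b.re ≠ 0 := fun h0 => by rw [h0] at h2; nlinarith [sq_nonneg b.im]
  have h3 : 0 < a.re * b.re := by
    rcases lt_or_gt_of_ne ha0 with h4 | h4
    · exact mul_pos_of_neg_of_neg h4 (lt_of_le_of_ne (not_lt.1 fun h5 => h4.not_gt (h.2 h5)) hb0)
    · exact mul_pos h4 (h.1 h4)
  have h4 : (a.im * b.im) ^ 2 < (a.re * b.re) ^ 2 := by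
    rw [mul_pow, mul_pow]; exact mul_lt_mul'' h1 h2 (sq_nonneg _) (sq_nonneg _)
  have h5 := (abs_lt_of_sq_lt_sq' h4 h3.le).1
  rw [Complex.div_re, ← add_div]
  exact div_pos (by linarith) (Complex.normSq_pos.2 fun h0 => ha0 (by rw [h0]; simp))

/-- an element that vanishes at no root is a unit -/
theorem unit_of_eval {d : ℕ} (ζ : Fin d → ℂ) (p : ℂ[X]) (h : ∀ j, p.eval (ζ j) ≠ 0) :
    IsUnit (AdjoinRoot.mk ((∏ j, (X - C (ζ j))) ^ 2) p) := by
  have h1 : IsCoprime p ((∏ j, (X - C (ζ j))) ^ 2) :=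
    (IsCoprime.prod_right fun j _ => ((irreducible_X_sub_C (ζ j)).coprime_iff_not_dvd.2
      fun hd => h j (dvd_iff_isRoot.1 hd)).symm).pow_right
  obtain ⟨a, b, e⟩ := h1
  refine IsUnit.of_mul_eq_one (AdjoinRoot.mk _ a) ?_
  rw [← map_mul, ← map_one (AdjoinRoot.mk _), AdjoinRoot.mk_eq_mk]
  exact ⟨-b, by linear_combination e⟩

end Pool.Agent.VW
end

-- part Pool.Agent.P.MP_b0ea37_nt.WMaC
section

namespace Pool.Agent.VW

open Polynomial

/-- passage to the coordinate `1 / (x - t)` -/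
theorem arch_alg {n d : ℕ} (hd : 1 ≤ d) (hn : n ≤ 2 * d) (t v0 : ℂ) (η : Fin d → ℂ)
    (hη : ∀ k, η k - t ≠ 0) (θ θ' : Fin n → ℂ) (g E G Ξ : ℂ[X])
    (hG : (∏ k, (X - C (η k - t)⁻¹)) ^ 2 ∣
      G ^ 2 - (∏ i, (1 + C (t - θ i) * X)) * ∏ i, (1 + C (t - θ' i) * X))
    (hU : ∀ k, 0 < (G.eval (η k - t)⁻¹ / (∏ i, (1 + C (t - θ i) * X)).eval (η k - t)⁻¹).re)
    (hΞ : (∏ i, (1 + C (t - θ i) * X)) + (∏ i, (1 + C (t - θ' i) * X)) - 2 * G = X ^ 2 * Ξ)
    (hg : (C v0 * ∏ k, (X - C (η k))) ^ 2 ∣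
      g ^ 2 - (∏ i, (X - C (θ i))) * ∏ i, (X - C (θ' i)))
    (hs : ∀ k, 0 < (g.eval (η k) / (∏ i, (X - C (θ i))).eval (η k)).re)
    (hE : (C v0 * ∏ k, (X - C (η k))) ^ 2 ∣
      E - ((∏ i, (X - C (θ i))) + (∏ i, (X - C (θ' i))) - 2 * g))
    (hdeg : E.natDegree < 2 * d) :
    (∏ k, (X - C (η k - t)⁻¹)) ^ 2 ∣
      X ^ (2 * d + 1 - n) * Ξ - reflect (2 * d - 1) (taylor t E) := by
  set ζ : Fin d → ℂ := fun k => (η k - t)⁻¹ with hζ
  have hζ0 : ∀ k, ζ k ≠ 0 := fun k => inv_ne_zero (hη k)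
  have hunit := unit_of_eval ζ
  set W := (∏ k, (X - C (ζ k))) ^ 2 with hW
  have hy : IsUnit (AdjoinRoot.mk W X) := hunit X (by simpa using hζ0)
  obtain ⟨u, hu⟩ := hy.exists_right_inv
  set y := AdjoinRoot.mk W X with hyd
  let σ : ℂ[X] →ₐ[ℂ] AdjoinRoot W := aeval (u + algebraMap ℂ _ t)
  have hC : ∀ a : ℂ, AdjoinRoot.mk W (C a) = algebraMap ℂ _ a := fun _ => rfl
  have hF : ∀ {N : ℕ} (a : Fin N → ℂ), y ^ N * σ (∏ i, (X - C (a i)))
      = AdjoinRoot.mk W (∏ i, (1 + C (t - a i) * X)) := fun {N} a => by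
    rw [map_prod, map_prod, show y ^ N = ∏ _i : Fin N, y by simp, ← Finset.prod_mul_distrib]
    refine Finset.prod_congr rfl fun i _ => ?_
    simp only [σ, map_sub, aeval_X, aeval_C, map_add, map_one, map_mul, hC, ← hyd]
    linear_combination hu
  have hv : σ ((C v0 * ∏ k, (X - C (η k))) ^ 2) = 0 := by
    have h1 : ∏ k, (1 + C (t - η k) * X) = (∏ k, C (t - η k)) * ∏ k, (X - C (ζ k)) := by
      rw [← Finset.prod_mul_distrib]
      refine Finset.prod_congr rfl fun k _ => ?_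
      have : C (η k - t) * C (ζ k) = (1 : ℂ[X]) := by
        rw [← C_mul, hζ, mul_inv_cancel₀ (hη k), C_1]
      simp only [C_sub] at this ⊢
      linear_combination -this
    have h2 : (y ^ d) ^ 2 * σ (∏ k, (X - C (η k))) ^ 2 = 0 := by
      rw [← mul_pow, hF, h1, ← map_pow, mul_pow, ← hW, map_mul, AdjoinRoot.mk_self, mul_zero]
    have h3 := ((hy.pow d).pow 2).mul_right_eq_zero.1 h2
    rw [map_pow, map_mul, mul_pow, h3, mul_zero]
  have hz : ∀ p : ℂ[X], (C v0 * ∏ k, (X - C (η k))) ^ 2 ∣ p → σ p = 0 := by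
    rintro _ ⟨q, rfl⟩
    rw [map_mul, hv, zero_mul]
  have hg' := hz _ hg
  have hE' := hz _ hE
  rw [map_sub, map_pow, map_mul] at hg'
  rw [map_sub, map_sub, map_add, map_mul, map_ofNat] at hE'
  have hG' := AdjoinRoot.mk_eq_zero.2 hG
  rw [map_sub, map_pow, map_mul, ← hF, ← hF] at hG'
  obtain ⟨G', hG1⟩ := AdjoinRoot.mk_surjective (y ^ n * σ g)
  have hplus : IsUnit (AdjoinRoot.mk W (G + G')) := hunit _ fun k => by
    have h0 : W.eval₂ (Algebra.ofId ℂ ℂ) (ζ k) = 0 := by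
      change W.eval₂ (RingHom.id ℂ) (ζ k) = 0
      rw [eval₂_id, hW, eval_pow, eval_prod,
        Finset.prod_eq_zero (Finset.mem_univ k) (by simp), zero_pow two_ne_zero]
    let φ := AdjoinRoot.liftAlgHom W (Algebra.ofId ℂ ℂ) (ζ k) h0
    have hφ : ∀ p, φ (AdjoinRoot.mk W p) = p.eval (ζ k) := fun p => rfl
    have hφy : φ y = ζ k := by rw [hyd, hφ, eval_X]
    have hφu : φ u = η k - t := by
      have := congrArg φ hu
      rw [map_mul, map_one, hφy] at this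
      rw [eq_inv_of_mul_eq_one_right this, hζ, inv_inv]
    have hφσ : ∀ p, φ (σ p) = p.eval (η k) := fun p => by
      rw [← aeval_algHom_apply, map_add, hφu, AlgHom.commutes]; simp
    have e1 := congrArg φ hG1
    have e2 := congrArg φ (hF θ)
    rw [hφ, map_mul, map_pow, hφy, hφσ] at e1
    rw [hφ, map_mul, map_pow, hφy, hφσ] at e2
    have h1 := hU k
    have h2 := hs k
    rw [← mul_div_mul_left _ _ (pow_ne_zero n (hζ0 k)), ← e1, e2] at h2
    intro h3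
    have h4 := add_pos h1 h2
    rw [← Complex.add_re, ← add_div, ← eval_add, h3, zero_div] at h4
    simp at h4
  have hGG : AdjoinRoot.mk W G = y ^ n * σ g := by
    rw [map_add, hG1] at hplus
    refine sub_eq_zero.1 (hplus.mul_right_eq_zero.1 ?_)
    linear_combination hG' - (y ^ n) ^ 2 * hg'
  have hΞ' := congrArg (AdjoinRoot.mk W) hΞ
  rw [map_sub, map_add, map_mul, map_ofNat, ← hF, ← hF, hGG, map_mul, map_pow, ← hyd] at hΞ'
  have hP : AdjoinRoot.mk W (reflect (2 * d - 1) (taylor t E)) = y ^ (2 * d - 1) * σ E := by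
    let _i : Invertible u := ⟨y, hu, by rw [mul_comm, hu]⟩
    have h1 := eval₂_reflect_mul_pow (algebraMap ℂ (AdjoinRoot W)) u (2 * d - 1) (taylor t E)
      (by rw [natDegree_taylor]; omega)
    have h2 : eval₂ (algebraMap ℂ (AdjoinRoot W)) u (taylor t E) = σ E := by
      rw [← aeval_def, taylor_apply, aeval_comp]; simp [σ]
    have h3 : eval₂ (algebraMap ℂ (AdjoinRoot W)) (⅟u) (reflect (2 * d - 1) (taylor t E))
        = AdjoinRoot.mk W (reflect (2 * d - 1) (taylor t E)) := by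
      rw [← aeval_def, ← AdjoinRoot.aeval_eq]; rfl
    rw [h2, h3] at h1
    rw [← h1, mul_left_comm, ← mul_pow, hu, one_pow, mul_one]
  rw [← AdjoinRoot.mk_eq_mk, hP, map_mul, map_pow, ← hyd]
  refine (hy.pow n).mul_left_cancel ?_
  have e3 : y ^ n * y ^ (2 * d + 1 - n) = y ^ (2 * d - 1) * y ^ 2 := by
    rw [← pow_add, ← pow_add]; congr 1; omega
  linear_combination AdjoinRoot.mk W Ξ * e3 - y ^ (2 * d - 1) * hΞ'
    - y ^ (2 * d - 1) * y ^ n * hE'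

/-- sizes read off from the congruence -/
theorem arch_end {n d : ℕ} (hn : n ≤ 2 * d) {V : ℂ[X]} (hV : Near d V) (h0 : V.coeff 0 ≠ 0)
    (T Ξ : ℂ[X]) (hT : T.natDegree < 2 * d)
    (h : V ^ 2 ∣ X ^ (2 * d + 1 - n) * Ξ - reflect (2 * d - 1) T) :
    n1 T ≤ 4 * n1 Ξ ∧
      (n ≤ T.natDegree + 1 → ‖T.leadingCoeff‖ ≤ 4 * n1 Ξ * ‖V.coeff 0‖ ^ 2) := by
  obtain ⟨Q, hQ⟩ := h
  have hP : (reflect (2 * d - 1) T).natDegree < 2 * d :=
    natDegree_reflect_le.trans_lt (max_lt (by omega) hT)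
  obtain ⟨h1, h2⟩ := hV.two _ Q hP
  rw [← hQ, add_sub_cancel, n1_X_pow_mul] at h1 h2
  refine ⟨le_trans ?_ h1, fun he => ?_⟩
  · simpa using n1_reflect_le (2 * d - 1) (reflect (2 * d - 1) T)
  set j := 2 * d - 1 - T.natDegree with hj
  have a1 : X ^ j ∣ reflect (2 * d - 1) T := X_pow_dvd_iff.2 fun i hi => by
    rw [coeff_reflect, revAt_le (by omega)]
    exact coeff_eq_zero_of_natDegree_lt (by omega)
  have a2 : X ^ j ∣ V ^ 2 * Q :=
    hQ ▸ dvd_sub ((pow_dvd_pow X (by omega)).mul_right _) a1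
  have a3 : IsCoprime (X ^ j : ℂ[X]) (V ^ 2) :=
    (irreducible_X.coprime_iff_not_dvd.2 fun hx => h0 (X_dvd_iff.1 hx)).pow
  obtain ⟨Q1, rfl⟩ := a3.dvd_of_dvd_mul_left a2
  have a4 := congrArg (fun p => p.coeff j) hQ
  simp only [coeff_sub] at a4
  rw [coeff_X_pow_mul', if_neg (by omega), coeff_reflect, revAt_le (by omega),
    show 2 * d - 1 - j = T.natDegree by omega, mul_left_comm, coeff_X_pow_mul', if_pos le_rfl,
    Nat.sub_self, mul_coeff_zero, sq, mul_coeff_zero, zero_sub, coeff_natDegree] at a4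
  rw [n1_X_pow_mul] at h2
  rw [← norm_neg, a4, norm_mul, norm_mul, ← sq, mul_comm]
  exact mul_le_mul_of_nonneg_right ((coeff_le_n1 _ _).trans h2) (by positivity)

end Pool.Agent.VW
end
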