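import Pool.Agent.K.MP_b0ea37_nt.C1
import Pool.Agent.K.MP_b0ea37_nt.C0
import Mathlib

-- part Pool.Agent.P.MP_b0ea37_nt.WMaArch
section

namespace Pool.Agent.VW

open Polynomial

theorem natDegree_C_prod {d : ℕ} {v0 : ℂ} (h : v0 ≠ 0) (η : Fin d → ℂ) :
    (C v0 * ∏ k, (X - C (η k))).natDegree = d := by
  rw [natDegree_C_mul h, natDegree_prod_of_monic _ _ fun i _ => monic_X_sub_C _]; simp

theorem norm_eval_C_prod {d : ℕ} (v0 : ℂ) (η : Fin d → ℂ) (z : ℂ) :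
    ‖(C v0 * ∏ k, (X - C (η k))).eval z‖ = ‖v0‖ * ∏ k, ‖η k - z‖ := by
  simp [eval_prod, norm_sub_rev]

theorem arch_w (z ℓ δ k : ℂ) (T l e : ℝ) (hT : 1 ≤ T) (hl0 : 0 ≤ l) (he0 : 0 < e)
    (hl5 : 5 * T * l ≤ 1) (h7 : ‖z‖ ≤ 1) (hδ : ‖δ‖ ≤ l * e) (h5 : e ≤ T * ‖ℓ‖)
    (h6 : ‖k‖ ≤ T * l ^ 2 * e) : ‖(ℓ - z ^ 2 * k) / (ℓ - δ * z) - 1‖ ≤ 4 * T * l := by
  have hle : 0 ≤ l * e := by positivity
  have a1 : ‖δ * z‖ ≤ l * e := by
    rw [norm_mul]; exact (mul_le_of_le_one_right (norm_nonneg _) h7).trans hδ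
  have a2 : ‖z ^ 2 * k‖ ≤ l * e := by
    rw [norm_mul, norm_pow]
    refine (mul_le_of_le_one_left (norm_nonneg _) (pow_le_one₀ (norm_nonneg _) h7)).trans
      (h6.trans ?_)
    have := mul_le_mul_of_nonneg_left hl5 hle
    linarith
  have a3 : e ≤ 2 * T * ‖ℓ - δ * z‖ := by
    have b1 := mul_le_mul_of_nonneg_left (norm_sub_norm_le ℓ (δ * z)) (by linarith : 0 ≤ T)
    have b2 := mul_le_mul_of_nonneg_left a1 (by linarith : 0 ≤ T)
    have b3 := mul_le_mul_of_nonneg_left hl5 he0.le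
    linarith
  have a4 : 0 < ‖ℓ - δ * z‖ := by
    by_contra hc
    rw [le_antisymm (not_lt.1 hc) (norm_nonneg _)] at a3
    linarith
  rw [div_sub_one (norm_pos_iff.1 a4), norm_div, div_le_iff₀ a4,
    show ℓ - z ^ 2 * k - (ℓ - δ * z) = δ * z - z ^ 2 * k by ring]
  have a5 := norm_sub_le (δ * z) (z ^ 2 * k)
  have a6 := mul_le_mul_of_nonneg_left a3 hl0
  linarith

theorem arch_mid (v : ℂ[X]) {d : ℕ} (hd : 1 ≤ d) (hdeg : v.natDegree = d) (θ μ : ℂ) (m ε l : ℝ)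
    (hm : 1 ≤ m) (hθ : ‖θ‖ ≤ m) (hμn : ‖μ‖ ≤ 2 * m) (hε0 : 0 < ε)
    (hvθ : ε * v.supNorm * m ^ d ≤ ‖v.eval θ‖) (hl2 : l * (d ^ 2 * 2 ^ d) ≤ 1)
    (hθμ : ‖θ - μ‖ ≤ l * ε * m / 2) : ε * v.supNorm * m ^ d / 2 ≤ ‖v.eval μ‖ := by
  have hX := v.supNorm_nonneg
  have h1 := eval_lip v hd hdeg (2 * m) (by linarith) θ μ (by linarith) hμn
  have h2 : (0 : ℝ) ≤ d ^ 2 * v.supNorm * (2 * m) ^ d := by positivity
  have h3 := mul_le_mul_of_nonneg_left hθμ h2
  have h4 : 0 ≤ ε * v.supNorm * m ^ d * m := by positivity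
  have h5 := mul_le_mul_of_nonneg_left hl2 h4
  have h6 : ‖v.eval θ - v.eval μ‖ ≤ ε * v.supNorm * m ^ d / 2 := by
    refine le_of_mul_le_mul_right ?_ (by positivity : 0 < 2 * m)
    rw [mul_pow] at h1 h3
    linarith
  linarith [norm_sub_norm_le (v.eval θ) (v.eval μ)]

theorem arch_low {d : ℕ} (v0 t μ : ℂ) (η : Fin d → ℂ) (m ε τ S : ℝ) (hv0 : v0 ≠ 0) (hm0 : 0 < m)
    (hε0 : 0 < ε) (hτ : 0 ≤ τ) (hηp : ∀ k, 0 < ‖η k - t‖)
    (hvμ : ε * S * m ^ d / 2 ≤ ‖v0‖ * ∏ k, ‖η k - μ‖)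
    (hvt : ‖v0‖ * ∏ k, ‖η k - t‖ ≤ (d + 1) * S * (1 + τ) ^ d) :
    ε / (2 * (d + 1) * (1 + τ) ^ d) ≤ ‖∏ k, ((m : ℂ)⁻¹ + (t - μ) / m * (η k - t)⁻¹)‖ := by
  have hmC : (m : ℂ) ≠ 0 := by exact_mod_cast hm0.ne'
  have hmn : ‖(m : ℂ)‖ = m := by rw [Complex.norm_real, Real.norm_of_nonneg hm0.le]
  rw [Finset.prod_congr rfl (g := fun k => (η k - μ) / ((η k - t) * m)) fun k _ => by
    have := norm_pos_iff.1 (hηp k); field_simp; ring]
  rw [norm_prod]
  simp only [norm_div, norm_mul, hmn, Finset.prod_div_distrib, Finset.prod_mul_distrib,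
    Finset.prod_const, Finset.card_univ, Fintype.card_fin]
  have h0 : 0 < ∏ k, ‖η k - t‖ := Finset.prod_pos fun k _ => hηp k
  rw [div_le_div_iff₀ (by positivity) (by positivity)]
  refine le_of_mul_le_mul_left ?_ (norm_pos_iff.2 hv0)
  have h1 := mul_le_mul_of_nonneg_left hvt (by positivity : 0 ≤ ε * m ^ d)
  have h2 := mul_le_mul_of_nonneg_left hvμ
    (by positivity : (0 : ℝ) ≤ 2 * (d + 1) * (1 + τ) ^ d)
  linarith

theorem arch_factor (d : ℕ) (hd : 1 ≤ d) : ∃ c κ : ℝ, 0 < c ∧ c ≤ 1 ∧ 1 ≤ κ ∧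
    ∀ (v0 t θ θ' : ℂ) (η : Fin d → ℂ) (m ε l : ℝ), v0 ≠ 0 → ‖t‖ ≤ 2 * (4 * d) * d →
      (∀ k, 4 * (d : ℝ) ≤ ‖η k - t‖) → 1 ≤ m → ‖θ‖ ≤ m → 0 < ε → ε ≤ 1 →
      ε * (C v0 * ∏ k, (X - C (η k))).supNorm * m ^ d ≤ ‖(C v0 * ∏ k, (X - C (η k))).eval θ‖ →
      0 ≤ l → l ≤ c → ‖θ - θ'‖ ≤ l * ε * m → ∃ (L k : ℂ[X]) (δ : ℂ),
        1 + C (t - θ) * X = C (m : ℂ) * (L - C δ * X) ∧
        1 + C (t - θ') * X = C (m : ℂ) * (L + C δ * X) ∧
        (∏ j, (X - C (η j - t)⁻¹)) ^ 2 ∣ (L - X ^ 2 * k) ^ 2 - (L - C δ * X) * (L + C δ * X) ∧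
        n1 L ≤ κ ∧ ‖δ‖ ≤ l ∧ n1 k ≤ κ * l ^ 2 ∧ ∀ j,
          ‖(L - X ^ 2 * k).eval (η j - t)⁻¹ / (L - C δ * X).eval (η j - t)⁻¹ - 1‖ ≤ κ * l := by
  have hd' : (1 : ℝ) ≤ d := by exact_mod_cast hd
  obtain ⟨τ, hτ, hτ0⟩ : ∃ τ : ℝ, τ = 2 * (4 * d) * d ∧ 0 ≤ τ := ⟨_, rfl, by positivity⟩
  obtain ⟨T, hT, hfac⟩ := fac hd (3 + τ) (by linarith)
  obtain ⟨c1, hc1, hc11⟩ : ∃ c1 : ℝ, c1 = 2 * (d + 1) * (1 + τ) ^ d ∧ 1 ≤ c1 :=
    ⟨_, rfl, one_le_mul_of_one_le_of_one_le (by linarith) (one_le_pow₀ (by linarith))⟩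
  obtain ⟨c2, hc2, hc21⟩ : ∃ c2 : ℝ, c2 = d ^ 2 * 2 ^ d ∧ 1 ≤ c2 :=
    ⟨_, rfl, one_le_mul_of_one_le_of_one_le (one_le_pow₀ hd') (one_le_pow₀ one_le_two)⟩
  have hTc : 1 ≤ T * c1 := one_le_mul_of_one_le_of_one_le hT hc11
  have hTc2 : T * c1 ≤ T * c1 ^ 2 := by nlinarith
  have hc0 : 0 < 5 * (T * c1) + c2 := by linarith
  refine ⟨1 / (5 * (T * c1) + c2), 3 + τ + 4 * (T * c1 ^ 2), one_div_pos.2 hc0,
    by rw [div_le_one hc0]; linarith, by linarith, ?_⟩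
  intro v0 t θ θ' η m ε l hv0 ht hη hm hθ hε0 hε1 hvθ hl0 hl hθ'
  rw [← hτ] at ht
  rw [le_div_iff₀ hc0] at hl
  have hlc := mul_le_mul_of_nonneg_left hc21 hl0
  have hlT := mul_le_mul_of_nonneg_left hTc hl0
  have hl5 : 5 * T * (c1 * l) ≤ 1 := by linarith
  have hl2 : l * c2 ≤ 1 := by linarith
  have hl1 : l ≤ 1 := by linarith
  have hm0 : 0 < m := by linarith
  have hc10 : 0 < c1 := by linarith
  have hmC : (m : ℂ) ≠ 0 := by exact_mod_cast hm0.ne'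
  have hmn : ‖(m : ℂ)‖ = m := by rw [Complex.norm_real, Real.norm_of_nonneg hm0.le]
  have hηp : ∀ k, 0 < ‖η k - t‖ := fun k => lt_of_lt_of_le (by linarith) (hη k)
  have hζ : ∀ k, ‖(η k - t)⁻¹‖ ≤ 1 / (4 * d) := fun k => by
    rw [norm_inv, one_div]; exact inv_anti₀ (by linarith) (hη k)
  have hdeg := natDegree_C_prod hv0 η
  have hlε : l * ε ≤ l := mul_le_of_le_one_right hl0 hε1
  have hεm : l * ε * m ≤ m := mul_le_of_le_one_left hm0.le (hlε.trans hl1)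
  obtain ⟨μ, hμ⟩ : ∃ μ, μ = (θ + θ') / 2 := ⟨_, rfl⟩
  have hθμ : ‖θ - μ‖ = ‖θ - θ'‖ / 2 := by
    rw [show θ - μ = (θ - θ') / 2 by rw [hμ]; ring, norm_div, Complex.norm_two]
  have hμn : ‖μ‖ ≤ 2 * m := by
    linarith [norm_sub_norm_le μ θ, norm_sub_rev μ θ]
  have hvμ := arch_mid _ hd hdeg θ μ m ε l hm hθ hμn hε0 hvθ (hc2 ▸ hl2) (by linarith)
  have hvt := (norm_eval_le _ hdeg.le t).trans (mul_le_mul_of_nonneg_left
    (pow_le_pow_left₀ (le_max_of_le_left zero_le_one)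
      (max_le (by linarith) (by linarith) : max 1 ‖t‖ ≤ 1 + τ) d)
    (mul_nonneg (by linarith) (supNorm_nonneg _)))
  rw [norm_eval_C_prod] at hvμ hvt
  have he := arch_low v0 t μ η m ε τ _ hv0 hm0 hε0 hτ0 hηp hvμ hvt
  rw [← hc1] at he
  have hab : ‖(m : ℂ)⁻¹‖ + ‖(t - μ) / m‖ ≤ 3 + τ := by
    rw [norm_inv, norm_div, hmn]
    have h1 : m⁻¹ ≤ 1 := inv_le_one_of_one_le₀ hm
    have h2 : ‖t - μ‖ / m ≤ 2 + τ := by
      rw [div_le_iff₀ hm0]; linarith [norm_sub_le t μ, mul_le_mul_of_nonneg_left hm hτ0]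
    linarith
  have hδ0 : ‖(θ - θ') / (2 * m)‖ ≤ l * ε := by
    rw [norm_div, norm_mul, hmn, Complex.norm_two, div_le_iff₀ (by linarith)]
    linarith [norm_nonneg (θ - θ')]
  have he0 : 0 < ε / c1 := div_pos hε0 hc10
  have hδ : ‖(θ - θ') / (2 * m)‖ ≤ c1 * l * (ε / c1) := hδ0.trans (le_of_eq (by
    rw [mul_comm c1, mul_assoc, mul_div_cancel₀ _ hc10.ne']))
  have hcl := mul_nonneg hc10.le hl0
  obtain ⟨h1, k, h2, h3, h4⟩ := hfac (fun k => (η k - t)⁻¹) _ _ _ (ε / c1) (c1 * l) hζ hab he0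
    (by rw [div_le_one hc10]; linarith) he hδ hcl hl5
  have b1 := mul_nonneg hτ0 (sq_nonneg l)
  have b2 := mul_nonneg (by linarith : 0 ≤ T * c1 ^ 2) (sq_nonneg l)
  have b3 := mul_le_mul_of_nonneg_right hTc2 hl0
  have b4 := mul_nonneg hτ0 hl0
  refine ⟨_, k, _, ?_, ?_, h2, ((n1_lin _ _).trans hab).trans (by linarith),
    hδ0.trans hlε, h3.trans (by linarith [sq_nonneg l]), fun j => ?_⟩
  · rw [add_sub_assoc, ← sub_mul, ← C_sub, mul_add, ← mul_assoc, ← C_mul, ← C_mul,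
      mul_inv_cancel₀ hmC, C_1]
    congr 3; rw [hμ]; field_simp; ring
  · rw [add_assoc, ← add_mul, ← C_add, mul_add, ← mul_assoc, ← C_mul, ← C_mul,
      mul_inv_cancel₀ hmC, C_1]
    congr 3; rw [hμ]; field_simp; ring
  simp only [eval_sub, eval_add, eval_mul, eval_C, eval_X, eval_pow]
  exact (arch_w _ _ _ _ T _ _ hT hcl he0 hl5
    ((hζ j).trans (by rw [div_le_one] <;> linarith)) hδ (h1 j) (h4 j)).trans (by linarith)

/-- ARCH of 5.5; `v` need not be squarefree, the first bound holds in every degree below `2 d` -/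
theorem archC (n d : ℕ) (hd : 1 ≤ d) (hn : n ≤ 2 * d) : ∃ c K : ℝ, 0 < c ∧ 0 < K ∧
    ∀ (v g E : ℂ[X]) (θ θ' : Fin n → ℂ) (m ε : Fin n → ℝ) (l : ℝ), v.natDegree = d →
      (∀ i, 1 ≤ m i) → (∀ i, ‖θ i‖ ≤ m i) → (∀ i, 0 < ε i) → (∀ i, ε i ≤ 1) →
      (∀ i, ε i * v.supNorm * m i ^ d ≤ ‖v.eval (θ i)‖) → 0 ≤ l → l ≤ c →
      (∀ i, ‖θ i - θ' i‖ ≤ l * ε i * m i) →
      v ^ 2 ∣ g ^ 2 - (∏ i, (X - C (θ i))) * ∏ i, (X - C (θ' i)) →
      (∀ η, v.eval η = 0 → 0 < (g.eval η / (∏ i, (X - C (θ i))).eval η).re) →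
      v ^ 2 ∣ E - ((∏ i, (X - C (θ i))) + (∏ i, (X - C (θ' i))) - 2 * g) →
      E.natDegree < 2 * d →
      E.supNorm ≤ K * l ^ 2 * ∏ i, m i ∧
        (n ≤ E.natDegree + 1 →
          ‖E.leadingCoeff‖ * v.supNorm ^ 2 ≤ K * l ^ 2 * (∏ i, m i) * ‖v.leadingCoeff‖ ^ 2) := by
  have hd' : (1 : ℝ) ≤ d := by exact_mod_cast hd
  obtain ⟨c, κ, hc0, hc1, hκ, hfac⟩ := arch_factor d hd
  obtain ⟨τ, hτ, hτ0⟩ : ∃ τ : ℝ, τ = 2 * (4 * d) * d ∧ 0 ≤ τ := ⟨_, rfl, by positivity⟩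
  obtain ⟨R, hR, hR0⟩ : ∃ R : ℝ, R = (κ + 2 + 2 * κ) ^ n ∧ 0 < R := ⟨_, rfl, by positivity⟩
  refine ⟨min c (1 / (4 * (n + 1) * κ)), 16 * R * (2 ^ d * (1 + τ) ^ d) ^ 2, by positivity,
    by positivity, ?_⟩
  intro v g E θ θ' m ε l hv hm hθ hε0 hε1 hvθ hl0 hl hθ' hg hs hE hdeg
  obtain ⟨hlc, hln⟩ := le_min_iff.1 hl
  rw [le_div_iff₀ (by positivity)] at hln
  have hκl : 0 ≤ κ * l := by positivity
  have hnl : n * (κ * l) ≤ 1 / 4 := by linarith
  have hRl : 0 ≤ R * l ^ 2 := by positivity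
  have hτ1 : 0 ≤ 2 ^ d * (1 + τ) ^ d := by positivity
  have hv0 : v.leadingCoeff ≠ 0 := leadingCoeff_ne_zero.2 (by rintro rfl; simp at hv; omega)
  obtain ⟨η, hη⟩ := exists_roots' v hv
  generalize v.leadingCoeff = v0 at hv0 hη ⊢
  subst hη
  obtain ⟨t, ht, hfar⟩ := exists_far η (4 * d) (by positivity)
  choose L k δ e1 e2 e3 h1 h2 h3 h4 using fun i => hfac v0 t (θ i) (θ' i) η (m i) (ε i) l hv0 ht
    hfar (hm i) (hθ i) (hε0 i) (hε1 i) (hvθ i) hl0 hlc (hθ' i)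
  clear hfac hvθ hθ' hθ hε0 hε1
  rw [← hτ] at ht
  obtain ⟨D, S, T, f1, f2, f3, -, -, g2, g3⟩ := prod_three Finset.univ L k δ κ κ l (by linarith)
    (by linarith) hl0 (hlc.trans hc1) h1 h2 h3
  rw [Finset.card_univ, Fintype.card_fin, ← hR] at g2 g3
  have hηp : ∀ k, 0 < ‖η k - t‖ := fun k => lt_of_lt_of_le (by linarith) (hfar k)
  have hM : 0 < ∏ i, m i := Finset.prod_pos fun i _ => by linarith [hm i]
  obtain ⟨M, hMd⟩ : ∃ M : ℂ, M = ∏ i, (m i : ℂ) := ⟨_, rfl⟩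
  have hMn : ‖M‖ = ∏ i, m i := by
    rw [hMd, ← Complex.ofReal_prod, Complex.norm_real, Real.norm_of_nonneg hM.le]
  have hM0 : M ≠ 0 := norm_pos_iff.1 (hMn ▸ hM)
  have F1 : ∏ i, (1 + C (t - θ i) * X) = C M * ∏ i, (L i - C (δ i) * X) := by
    rw [hMd, map_prod, ← Finset.prod_mul_distrib]; exact Finset.prod_congr rfl fun i _ => e1 i
  have F2 : ∏ i, (1 + C (t - θ' i) * X) = C M * ∏ i, (L i + C (δ i) * X) := by
    rw [hMd, map_prod, ← Finset.prod_mul_distrib]; exact Finset.prod_congr rfl fun i _ => e2 i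
  have key := arch_alg hd hn t v0 η (fun k => norm_pos_iff.1 (hηp k)) θ θ' g E
    (C M * ∏ i, (L i - X ^ 2 * k i)) (C M * (C 2 * (S - T))) ?_ (fun j => ?_) ?_ hg
    (fun j => hs _ (norm_eq_zero.1 (by
      rw [norm_eval_C_prod, Finset.prod_eq_zero (Finset.mem_univ j) (by simp), mul_zero]))) hE hdeg
  · have hV := near_prod hd (fun k => (η k - t)⁻¹) fun k => by
      rw [norm_inv, one_div]; exact inv_anti₀ (by linarith) (hfar k)
    have hP : 0 < ∏ k, ‖η k - t‖ := Finset.prod_pos fun k _ => hηp k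
    have hV0 : ‖(∏ k, (X - C (η k - t)⁻¹)).coeff 0‖ = (∏ k, ‖η k - t‖)⁻¹ := by
      simp [coeff_zero_eq_eval_zero, eval_prod]
    obtain ⟨a1, a2⟩ := arch_end hn hV (norm_pos_iff.1 (by rw [hV0]; exact inv_pos.2 hP)) _ _
      (by rwa [natDegree_taylor]) key
    have a3 : n1 (C M * (C 2 * (S - T))) ≤ (∏ i, m i) * (2 * (2 * (R * l ^ 2))) := by
      rw [n1_C_mul, n1_C_mul, hMn, Complex.norm_two]
      exact mul_le_mul_of_nonneg_left (by linarith [n1_sub_le S T]) hM.le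
    have a4 : 0 ≤ 16 * R * l ^ 2 * ∏ i, m i := mul_nonneg (by linarith) hM.le
    constructor
    · refine sup_le_iff.2 fun i => (coeff_le_n1 E i).trans ?_
      have b1 := n1_taylor_le (-t) (taylor t E) (N := 2 * d) (by rw [natDegree_taylor]; omega)
      rw [taylor_taylor, neg_add_cancel, taylor_zero, norm_neg] at b1
      have b2 : (1 + ‖t‖) ^ (2 * d) ≤ (2 ^ d * (1 + τ) ^ d) ^ 2 := by
        rw [← mul_pow, ← pow_mul, mul_comm d 2]
        exact pow_le_pow_left₀ (by linarith [norm_nonneg t]) (by linarith) _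
      have b3 := mul_le_mul (a1.trans (by linarith : _ ≤ 16 * R * l ^ 2 * ∏ i, m i)) b2
        (pow_nonneg (by linarith [norm_nonneg t]) _) a4
      linarith
    · intro he
      have b1 := a2 (by rwa [natDegree_taylor])
      rw [leadingCoeff_taylor, hV0] at b1
      have b2 : (C v0 * ∏ k, (X - C (η k))).supNorm
          ≤ 2 ^ d * (1 + τ) ^ d * ‖v0‖ * ∏ k, ‖η k - t‖ := by
        have c1 := sup_prod_X_sub_C Finset.univ η
        have c2 : ∏ k, max 1 ‖η k‖ ≤ ∏ k, ((1 + τ) * ‖η k - t‖) :=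
          Finset.prod_le_prod (fun _ _ => le_max_of_le_left zero_le_one) fun k _ => by
            have c3 : 1 ≤ ‖η k - t‖ := le_trans (by linarith) (hfar k)
            have c4 := mul_le_mul_of_nonneg_left c3 hτ0
            exact max_le (by linarith) (by linarith [norm_sub_norm_le (η k) t])
        rw [Finset.prod_mul_distrib, Finset.prod_const] at c2
        rw [Finset.card_univ, Fintype.card_fin] at c1 c2
        refine (sup_C_mul_le _ _).trans ?_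
        have := mul_le_mul_of_nonneg_left (c1.trans (mul_le_mul_of_nonneg_left c2
          (pow_nonneg two_pos.le d)))
          (norm_nonneg v0)
        linarith
      have b3 := pow_le_pow_left₀ (supNorm_nonneg _) b2 2
      have b4 : ‖E.leadingCoeff‖ ≤ 16 * R * l ^ 2 * (∏ i, m i) * (∏ k, ‖η k - t‖)⁻¹ ^ 2 :=
        b1.trans (mul_le_mul_of_nonneg_right (by linarith) (sq_nonneg _))
      refine (mul_le_mul b4 b3 (sq_nonneg _) (mul_nonneg a4 (sq_nonneg _))).trans (le_of_eq ?_)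
      have b5 := mul_inv_cancel₀ hP.ne'
      linear_combination 16 * R * l ^ 2 * (∏ i, m i) * (2 ^ d * (1 + τ) ^ d * ‖v0‖) ^ 2
        * ((∏ k, ‖η k - t‖) * (∏ k, ‖η k - t‖)⁻¹ + 1) * b5
  · rw [F1, F2, mul_pow, mul_mul_mul_comm, ← sq, ← mul_sub]
    refine Dvd.dvd.mul_left ?_ _
    rw [← Finset.prod_pow _ _ fun i => L i - X ^ 2 * k i, ← Finset.prod_mul_distrib,
      ← AdjoinRoot.mk_eq_mk, map_prod, map_prod]
    exact Finset.prod_congr rfl fun i _ => AdjoinRoot.mk_eq_mk.2 (e3 i)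
  · rw [F1, eval_mul, eval_mul, eval_C, mul_div_mul_left _ _ hM0, eval_prod, eval_prod,
      ← Finset.prod_div_distrib]
    have b1 := prod_near _ (κ * l) (fun i => h4 i j) hκl (by linarith)
    simp only [add_sub_cancel] at b1
    have b2 := (abs_le.1 ((Complex.abs_re_le_norm _).trans b1)).1
    rw [Complex.sub_re, Complex.one_re] at b2
    linarith
  · rw [F1, F2, f1, f2, f3, C_ofNat]; ring

end Pool.Agent.VW
end

-- part Pool.Agent.P.MP_b0ea37_nt.WMarch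
section

namespace Pool.Agent.VW

open Polynomial

theorem arch (n d : ℕ) (hd : 1 ≤ d) (hn2 : 2 ≤ n) (hn : n ≤ 2 * d) :
    ∃ c₀ : ℝ, 0 < c₀ ∧ ∃ K : ℝ, 1 ≤ K ∧ ∀ (v f f' : ℤ[X]) (θ θ' : Fin n → ℂ) (m e : Fin n → ℝ)
      (T lam : ℝ), v.natDegree = d → 0 < T → T ≤ v.supNorm → v.supNorm ≤ 2 * T →
      Roots (up ℂ f) θ → Roots (up ℂ f') θ' →
      (∀ i, 1 ≤ m i ∧ ‖θ i‖ ≤ 2 * m i ∧ 0 < e i ∧ e i ≤ 1 ∧
        e i * T * m i ^ d ≤ ‖aeval (θ i) v‖ ∧ ‖θ i - θ' i‖ ≤ lam * e i * m i) →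
      0 ≤ lam → lam ≤ c₀ →
      Cl v f f' ∧ ArchZ n d v f f' (K * lam ^ 2 * (∏ i, m i) / T ^ 2) (K * lam ^ 2 * ∏ i, m i) := by
  obtain ⟨c1, K1, hc1, hK1, h1⟩ := archC n d hd hn
  obtain ⟨c2, K2, hc2, hK2, h2⟩ := arch_ratio n d hd
  have hp : (1 : ℝ) ≤ 2 ^ d := one_le_pow₀ one_le_two
  have hK : 0 < K1 * (2 ^ d) ^ 2 * 2 ^ n := by positivity
  refine ⟨min c1 (min c2 (1 / (100 * K2))) / 2 ^ d, by positivity, 1 + K1 * (2 ^ d) ^ 2 * 2 ^ n,
    by linarith, ?_⟩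
  intro v f f' θ θ' m e T lam hv hT hT1 hT2 hf hf' hm hl0 hl
  rw [le_div_iff₀ (by linarith), le_min_iff, le_min_iff, le_div_iff₀ (by linarith)] at hl
  obtain ⟨hl1, hl2, hl3⟩ := hl
  have hae : ∀ (p : ℤ[X]) (z : ℂ), aeval z p = (up ℂ p).eval z := fun p z => by
    rw [aeval_def, eval₂_eq_eval_map, algebraMap_int_eq]
  have hinj := RingHom.injective_int (Int.castRingHom ℂ)
  have hdeg : ∀ p : ℤ[X], (up ℂ p).natDegree = p.natDegree := fun p =>
    natDegree_map_eq_of_injective hinj p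
  have hlc : ∀ p : ℤ[X], ‖(up ℂ p).leadingCoeff‖ = |(p.leadingCoeff : ℝ)| := fun p => by
    rw [leadingCoeff_map_of_injective hinj]; simp
  have a1 : ∀ i, 1 ≤ 2 * m i := fun i => by linarith [(hm i).1]
  have a3 : ∀ i, 0 < e i / (2 * 2 ^ d) := fun i => div_pos (hm i).2.2.1 (by linarith)
  have a4 : ∀ i, e i / (2 * 2 ^ d) ≤ 1 := fun i => by
    rw [div_le_one (by linarith)]; linarith [(hm i).2.2.2.1]
  have a5 : ∀ i, e i / (2 * 2 ^ d) * (up ℂ v).supNorm * (2 * m i) ^ d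
      ≤ ‖(up ℂ v).eval (θ i)‖ := fun i => by
    rw [← hae, sup_up_complex]
    refine le_trans ?_ (hm i).2.2.2.2.1
    have := (a3 i).le
    have := a1 i
    calc _ ≤ e i / (2 * 2 ^ d) * (2 * T) * (2 * m i) ^ d := by gcongr
      _ = _ := by rw [mul_pow]; field_simp
  have a6 : 0 ≤ lam * 2 ^ d := by positivity
  have a7 : ∀ i, ‖θ i - θ' i‖ ≤ lam * 2 ^ d * (e i / (2 * 2 ^ d)) * (2 * m i) := fun i =>
    (hm i).2.2.2.2.2.trans (le_of_eq (by field_simp))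
  have h1 := fun g E => h1 (up ℂ v) g E θ θ' _ _ _ ((hdeg v).trans hv) a1 (fun i => (hm i).2.1)
    a3 a4 a5 a6 hl1 a7
  have h2 := h2 (up ℂ v) θ θ' _ _ _ ((hdeg v).trans hv) a1 (fun i => (hm i).2.1) a3 a4 a5 a6 hl2 a7
  unfold Roots at hf hf'
  rw [← hf, ← hf'] at h1 h2
  have hM : 0 < ∏ i, m i := Finset.prod_pos fun i _ => by linarith [(hm i).1]
  have hb : K1 * (lam * 2 ^ d) ^ 2 * ∏ i, 2 * m i
      ≤ (1 + K1 * (2 ^ d) ^ 2 * 2 ^ n) * lam ^ 2 * ∏ i, m i := by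
    rw [Finset.prod_mul_distrib, Finset.prod_const, Finset.card_univ, Fintype.card_fin]
    linarith [mul_nonneg (sq_nonneg lam) hM.le]
  generalize (1 + K1 * (2 ^ d) ^ 2 * 2 ^ n) * lam ^ 2 * ∏ i, m i = B at hb ⊢
  refine ⟨fun z hz => ?_, fun c G E hc hG hE => ?_⟩
  · rw [hae] at hz
    obtain ⟨b1, b2⟩ := h2 z hz
    rw [hae, hae]
    rw [div_sub_one b1, norm_div, div_le_iff₀ (norm_pos_iff.2 b1)] at b2
    refine ⟨b1, b2.trans ?_⟩
    linarith [mul_le_mul_of_nonneg_right hl3 (norm_nonneg ((up ℂ f).eval z))]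
  have hcR : (0 : ℝ) < c := by exact_mod_cast hc
  have hcC : (c : ℂ) ≠ 0 := by exact_mod_cast hc.ne'
  have hcn : ‖(c : ℂ)‖ = c := by rw [Complex.norm_intCast, abs_of_pos hcR]
  have hcc : C (c : ℂ) * C (c : ℂ)⁻¹ = (1 : ℂ[X]) := by rw [← C_mul, mul_inv_cancel₀ hcC, C_1]
  have hdE : (C (c : ℂ)⁻¹ * up ℂ E).natDegree = E.natDegree := by
    rw [natDegree_C_mul (inv_ne_zero hcC), hdeg]
  have key := h1 (C (c : ℂ)⁻¹ * up ℂ G) (C (c : ℂ)⁻¹ * up ℂ E) ?_ (fun z hz => ?_) ?_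
  · rw [hdE] at key
    refine ⟨fun b1 b2 => ?_, fun b1 => ?_⟩
    · have b3 := (key b2).2 (by omega)
      rw [leadingCoeff_mul, leadingCoeff_C, norm_mul, norm_inv, hcn, hlc, hlc, sq_abs,
        sup_up_complex] at b3
      have b4 := b3.trans (mul_le_mul_of_nonneg_right hb (sq_nonneg _))
      have b5 : T ^ 2 ≤ v.supNorm ^ 2 := pow_le_pow_left₀ hT.le hT1 2
      have b6 := (mul_le_mul_of_nonneg_left b5
        (mul_nonneg (inv_pos.2 hcR).le (abs_nonneg _))).trans b4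
      rw [mul_assoc, inv_mul_le_iff₀ hcR, ← le_div_iff₀ (by positivity)] at b6
      exact b6.trans (le_of_eq (by ring))
    · have b3 := (key (by omega)).1.trans hb
      have b4 := sup_C_mul_le (c : ℂ) (C (c : ℂ)⁻¹ * up ℂ E)
      rw [← mul_assoc, hcc, one_mul, sup_up_complex, hcn] at b4
      exact b4.trans (mul_le_mul_of_nonneg_left b3 hcR.le)
  · obtain ⟨q, hq⟩ := hG.1
    have := congrArg (up ℂ) hq
    simp only [up, Polynomial.map_sub, Polynomial.map_mul, Polynomial.map_pow, map_C, map_pow,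
      eq_intCast (Int.castRingHom ℂ)] at this
    refine ⟨C (c : ℂ)⁻¹ ^ 2 * up ℂ q, ?_⟩
    simp only [up]
    linear_combination C (c : ℂ)⁻¹ ^ 2 * this + (C (c : ℂ) * C (c : ℂ)⁻¹ + 1)
      * map (Int.castRingHom ℂ) f * map (Int.castRingHom ℂ) f' * hcc
  · have b1 := hG.2 z (by rwa [hae])
    have b2 := (h2 z hz).1
    rw [hae, hae] at b1
    have b3 : ‖(C (c : ℂ)⁻¹ * up ℂ G).eval z / (up ℂ f).eval z - 1‖ ≤ 1 / 10 := by
      rw [eval_mul, eval_C, show (c : ℂ)⁻¹ * (up ℂ G).eval z / (up ℂ f).eval z - 1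
        = ((up ℂ G).eval z - c * (up ℂ f).eval z) / (c * (up ℂ f).eval z) by field_simp,
        norm_div, norm_mul, hcn, div_le_iff₀ (mul_pos hcR (norm_pos_iff.2 b2))]
      linarith
    have b4 := (abs_le.1 ((Complex.abs_re_le_norm _).trans b3)).1
    rw [Complex.sub_re, Complex.one_re] at b4
    linarith
  · obtain ⟨q, hq⟩ := hE
    have := congrArg (up ℂ) hq
    simp only [up, Polynomial.map_sub, Polynomial.map_mul, Polynomial.map_pow, map_C,
      Polynomial.map_add, Polynomial.map_ofNat, eq_intCast (Int.castRingHom ℂ)] at this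
    refine ⟨-C (c : ℂ)⁻¹ * up ℂ q, ?_⟩
    simp only [up]
    linear_combination -C (c : ℂ)⁻¹ * this
      + (map (Int.castRingHom ℂ) f + map (Int.castRingHom ℂ) f') * hcc

end Pool.Agent.VW
end

-- part Pool.Agent.P.MP_b0ea37_nt.WMtyB
section

namespace Pool.Agent.VW

open Polynomial

theorem wmtyB_cells {n : ℕ} (a b : Fin n → ℕ) {lam : ℝ} (h0 : 0 < lam) (h1 : lam ≤ 1) :
    ∏ i, (3 + 8 * (2 * (2 : ℝ) ^ a i) / (lam * 2 ^ a i / 2 ^ b i)) ≤
      19 ^ n / lam ^ n * ∏ i, (2 : ℝ) ^ b i := by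
  have e : (19 : ℝ) ^ n / lam ^ n * ∏ i, (2 : ℝ) ^ b i = ∏ i, (19 / lam * 2 ^ b i) := by
    rw [Finset.prod_mul_distrib, Finset.prod_const, Finset.card_univ, Fintype.card_fin, div_pow]
  rw [e]
  refine Finset.prod_le_prod (fun i _ => by positivity) fun i _ => ?_
  have e2 : 8 * (2 * (2 : ℝ) ^ a i) / (lam * 2 ^ a i / 2 ^ b i) = 16 * (2 ^ b i / lam) := by
    field_simp; norm_num
  have h2 : (1 : ℝ) ≤ 2 ^ b i := one_le_pow₀ one_le_two
  have h3 : (1 : ℝ) ≤ 2 ^ b i / lam := by rw [le_div_iff₀ h0]; linarith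
  have e3 : 19 / lam * (2 : ℝ) ^ b i = 19 * (2 ^ b i / lam) := by ring
  rw [e2, e3]
  linarith

theorem wmtyB_close {n d : ℕ} {T H lam : ℝ} {s : Equiv.Perm (Fin n)} {a b : Fin n → ℕ}
    {f v f' v' : ℤ[X]} {θ θ' : Fin n → ℂ} (h : Ty d T s a b f v θ) (h' : Ty d T s a b f' v' θ')
    (h0 : 0 < lam) (h1 : lam ≤ 1) (hf : f.supNorm ≤ H)
    (hc : ∀ i, ‖θ i - θ' i‖ ≤ lam * 2 ^ a i / 2 ^ b i) :
    (f - f').supNorm ≤ n * 4 ^ n * (n + 1) * lam * H := by
  have e : up ℂ (f - f') = ∏ i, (X - C (θ i)) - ∏ i, (X - C (θ' i)) := by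
    rw [up, Polynomial.map_sub]
    exact congrArg₂ (· - ·) h.1 h'.1
  have h2 := sup_prod_sub_prod θ θ' lam h0.le h1 fun i => (hc i).trans (by
    have h3 : (1 : ℝ) ≤ 2 ^ b i := one_le_pow₀ one_le_two
    have h4 := (h.2 i).2.1
    calc lam * 2 ^ a i / 2 ^ b i ≤ lam * 2 ^ a i := div_le_self (by positivity) h3
      _ ≤ _ := by gcongr)
  have h3 := h.1.prod_max_le
  rw [← sup_up_complex, e]
  calc _ ≤ _ := h2
    _ ≤ n * 4 ^ n * lam * ((n + 1) * H) := by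
        refine mul_le_mul_of_nonneg_left (h3.trans ?_) (by positivity)
        gcongr
    _ = _ := by ring

/-- one type -/
theorem ty_fix (n d j g : ℕ) (hd : d = 2 * g + 3) (hn : n = d + 1 + j) (hj : j = 1 ∨ j = 2)
    (hn5 : 5 ≤ n) (ε : ℝ) (hε : 0 < ε) : ∃ c₁ : ℝ, 0 < c₁ ∧ c₁ ≤ 1 ∧ ∃ K : ℝ, 1 ≤ K ∧
    ∀ (Z H T P₀ lam om : ℝ) (s : Equiv.Perm (Fin n)) (a b : Fin n → ℕ) (Q : Dat → Prop),
      1 ≤ H → H ≤ Z → 1 ≤ T → T ≤ Z → 1 ≤ P₀ → 0 < lam → lam ≤ c₁ → 1 ≤ om →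
      lam ^ 2 * H / T ^ 2 ≤ c₁ ^ 2 → K * (lam * H / T) ^ n * H ^ j < P₀ ^ 2 →
      (∀ i, s (s i) = i ∧ a (s i) = a i ∧ b (s i) = b i) →
      (∀ D, Q D → Fam n d j K H T P₀ om D ∧ ∃ θ, Ty d T s a b D.f D.v θ) →
      (∀ D D', Q D → Q D' → D.f = D'.f → D = D') →
      Cnt Q (K * Z ^ ε * (T ^ (n + d + 1) * H ^ d / (lam ^ n * P₀ ^ 2)) *
        mu j H (lam * H / T) om) := by
  have hnd : (0 : ℝ) < (n + d : ℕ) := by exact_mod_cast (by omega : 0 < n + d)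
  obtain ⟨ca, hca, Ka, hKa, harch⟩ := arch n d (by omega) (by omega) (by omega)
  obtain ⟨cc, hcc, Kc, hKc, hcell⟩ := cell_cnt n d j g hd hn hj hn5 (ε / (n + d : ℕ))
    (div_pos hε hnd)
  obtain ⟨C₁, hC₁⟩ : ∃ C₁ : ℝ, C₁ = ((d + 1) * 2 ^ (d + 1)) ^ n * (n + 1) ^ d := ⟨_, rfl⟩
  obtain ⟨K₁, hK₁⟩ : ∃ K₁ : ℝ, K₁ = n * 4 ^ n := ⟨_, rfl⟩
  obtain ⟨K₂, hK₂⟩ : ∃ K₂ : ℝ, K₂ = K₁ * (n + 1) * Ka := ⟨_, rfl⟩
  obtain ⟨c, hc⟩ : ∃ c : ℝ, c = min ca (min 1 cc) := ⟨_, rfl⟩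
  have hn1 : (1 : ℝ) ≤ n := by exact_mod_cast (by omega : 1 ≤ n)
  have hd0 : (0 : ℝ) ≤ d := by positivity
  have hC1 : 1 ≤ C₁ := by
    rw [hC₁]
    exact one_le_mul_of_one_le_of_one_le (one_le_pow₀ (one_le_mul_of_one_le_of_one_le
      (by linarith) (one_le_pow₀ one_le_two))) (one_le_pow₀ (by linarith))
  have hK1 : 1 ≤ K₁ := by
    rw [hK₁]; exact one_le_mul_of_one_le_of_one_le hn1 (one_le_pow₀ (by norm_num))
  have hKa' : K₁ * (n + 1) ≤ K₂ := by
    rw [hK₂]; exact le_mul_of_one_le_right (by positivity) hKa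
  have hKb' : (n + 1) * Ka ≤ K₂ := by
    rw [hK₂, mul_assoc]; exact le_mul_of_one_le_left (by positivity) hK1
  have hK2 : 1 ≤ K₂ := (one_le_mul_of_one_le_of_one_le hK1 (by linarith)).trans hKa'
  have hc0 : 0 < c := by rw [hc]; exact lt_min hca (lt_min one_pos hcc)
  have hca' : c ≤ ca := by rw [hc]; exact min_le_left _ _
  have hc1 : c ≤ 1 := by rw [hc]; exact (min_le_right _ _).trans (min_le_left _ _)
  have hcc' : c ≤ cc := by rw [hc]; exact (min_le_right _ _).trans (min_le_right _ _)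
  have hcK : c / K₂ ≤ c := div_le_self hc0.le hK2
  have hCe : 1 ≤ C₁ ^ (ε / (n + d : ℕ)) := Real.one_le_rpow hC1 (div_pos hε hnd).le
  obtain ⟨K₃, hK₃⟩ : ∃ K₃ : ℝ, K₃ = 19 ^ n * C₁ ^ (ε / (n + d : ℕ)) * C₁ * K₂ ^ 4 := ⟨_, rfl⟩
  have hK3 : 1 ≤ K₃ := by
    rw [hK₃]
    exact one_le_mul_of_one_le_of_one_le (one_le_mul_of_one_le_of_one_le
      (one_le_mul_of_one_le_of_one_le (one_le_pow₀ (by norm_num)) hCe) hC1) (one_le_pow₀ hK2)
  have hKn : 1 ≤ K₂ ^ n := one_le_pow₀ hK2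
  have hKK : Kc * K₂ ^ n ≤ K₃ * (Kc * K₂ ^ n) := le_mul_of_one_le_left (by positivity) hK3
  have hKc' : Kc ≤ Kc * K₂ ^ n := le_mul_of_one_le_right (by positivity) hKn
  refine ⟨c / K₂, by positivity, hcK.trans hc1, K₃ * (Kc * K₂ ^ n), hKc.trans (hKc'.trans hKK), ?_⟩
  intro Z H T P₀ lam om s a b Q hH hHZ hT hTZ hP hlam hlc hom hsm hK hs hQ hinj
  have hZ : 1 ≤ Z := hH.trans hHZ
  have hl1 : lam ≤ 1 := hlc.trans (hcK.trans hc1)
  have hmu : 1 ≤ mu j H (lam * H / T) om := one_le_mu j (by positivity) (by positivity)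
  refine Cnt.of_mem (by positivity) fun D₀ hD₀ => ?_
  have hθ : ∀ D : Dat, ∃ θ : Fin n → ℂ, Q D → Ty d T s a b D.f D.v θ := fun D => by
    by_cases hD : Q D
    · exact (hQ D hD).2.imp fun θ h _ => h
    · exact ⟨0, fun h => absurd h hD⟩
  choose θ hθ using hθ
  obtain ⟨Pb, hPb⟩ : ∃ Pb : ℝ, Pb = ∏ i, (2 : ℝ) ^ b i := ⟨_, rfl⟩
  have hPb1 : 1 ≤ Pb := by
    rw [hPb, Finset.prod_pow_eq_pow_sum]; exact one_le_pow₀ one_le_two
  obtain ⟨B, hB⟩ : ∃ B : ℝ, B = C₁ * (T ^ n * H ^ d) / (Pb * P₀ ^ 2) := ⟨_, rfl⟩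
  have hres : ∀ D, Q D → |((resultant D.v D.f d n : ℤ) : ℝ)| ≤ B * P₀ ^ 2 := fun D hD => by
    obtain ⟨h1, -, -, h4, -⟩ := (hQ D hD).1
    refine ((hθ D hD).res_le (by positivity) h1.1.1.le h4.2.2.2).trans (le_of_eq ?_)
    rw [← hPb, hB, hC₁, mul_pow ((n : ℝ) + 1)]
    field_simp
  have hB1 : 1 ≤ B := by
    obtain ⟨h1, -, -, -, -, -, h7, -⟩ := (hQ D₀ hD₀).1
    obtain ⟨b₀, hb0, hb⟩ := h1.exists_b (by omega)
    have h2 := hres D₀ hD₀
    rw [hb] at h2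
    push_cast at h2
    rw [abs_mul, abs_of_nonneg (by positivity)] at h2
    have h3 : (1 : ℝ) ≤ |(b₀ : ℝ)| := by exact_mod_cast Int.one_le_abs hb0
    have h4 : P₀ ^ 2 ≤ (D₀.P : ℝ) ^ 2 := by gcongr
    have h5 : 1 * P₀ ^ 2 ≤ B * P₀ ^ 2 := by nlinarith [sq_nonneg (D₀.P : ℝ)]
    exact le_of_mul_le_mul_right h5 (by positivity)
  have hZn : Z ≤ Z ^ (n + d) := le_self_pow₀ hZ (by omega)
  have hZC : Z ^ (n + d) ≤ C₁ * Z ^ (n + d) := le_mul_of_one_le_left (by positivity) hC1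
  have hBZ : B ≤ C₁ * Z ^ (n + d) := by
    rw [hB, pow_add]
    refine (div_le_self (by positivity)
      (one_le_mul_of_one_le_of_one_le hPb1 (one_le_pow₀ hP))).trans ?_
    gcongr
  have hlK : K₂ * lam ≤ c := by rwa [le_div_iff₀' (by positivity)] at hlc
  have e1 : K₂ * lam * H / T = K₂ * (lam * H / T) := by ring
  obtain ⟨cell, Qc, hQc, hin, hnear⟩ := grid s (fun i => (hs i).1) (fun i => 2 * (2 : ℝ) ^ a i)
    (fun i => lam * 2 ^ a i / 2 ^ b i) (fun i => by positivity) (fun i => by positivity)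
    (fun i => by rw [(hs i).2.1, (hs i).2.2])
  have hone : ∀ y, Qc y → Cnt (fun D => Q D ∧ cell (θ D) = y)
      (Kc * (C₁ * Z ^ (n + d)) ^ (ε / (n + d : ℕ)) * (T ^ (d + 1) * B) *
        mu j H (K₂ * lam * H / T) om) := fun y _ => by
    refine hcell _ H T P₀ B (K₂ * lam) om _ hH hT (hTZ.trans (hZn.trans hZC)) hB1 hBZ
      (by positivity) (hlK.trans hc1) hom ?_ (by positivity) ?_ (fun D hD => ⟨?_, ?_⟩) ?_
    · have h1 : K₂ ^ 2 * (lam ^ 2 * H / T ^ 2) ≤ K₂ ^ 2 * (c / K₂) ^ 2 := by gcongr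
      have h2 : K₂ ^ 2 * (c / K₂) ^ 2 = c * c := by field_simp
      have h3 : (K₂ * lam) ^ 2 * H / T ^ 2 = K₂ ^ 2 * (lam ^ 2 * H / T ^ 2) := by ring
      rw [h3]
      nlinarith
    · refine lt_of_le_of_lt ?_ hK
      rw [e1, mul_pow, ← mul_assoc]
      gcongr
    · exact (hQ D hD.1).1.mono (hKc'.trans hKK) (by positivity) (by positivity) (by positivity)
    · obtain ⟨-, -, -, -, -, -, h7, -⟩ := (hQ D hD.1).1
      refine (hres D hD.1).trans ?_
      gcongr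
    · intro D D' hD hD'
      obtain ⟨h1, -, -, h4, h5, h6, -⟩ := (hQ D hD.1).1
      have t1 := hθ D hD.1
      have t2 := hθ D' hD'.1
      have hcl := hnear (θ D) (θ D') (fun i => (t1.2 i).1) (fun i => (t2.2 i).1)
        (hD.2.trans hD'.2.symm)
      refine ⟨hinj D D' hD.1 hD'.1, (wmtyB_close t1 t2 hlam hl1 h4.2.2.2 hcl).trans ?_, fun _ => ?_⟩
      · rw [← hK₁]; gcongr
      · obtain ⟨k1, k2⟩ := harch D.v D.f D'.f (θ D) (θ D') (fun i => 2 ^ a i)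
          (fun i => 1 / 2 ^ b i) T lam h1.1.1 (by positivity) h5 h6 t1.1 t2.1
          (fun i => ⟨one_le_pow₀ one_le_two, (t1.2 i).2.2.1, by positivity,
            (div_le_one (by positivity)).2 (one_le_pow₀ one_le_two),
            le_trans (le_of_eq (by ring)) (t1.2 i).2.2.2.1,
            (hcl i).trans (le_of_eq (by ring))⟩) hlam.le (hlc.trans (hcK.trans hca'))
        have k3 : Ka * lam ^ 2 * ∏ i, (2 : ℝ) ^ a i ≤ (K₂ * lam) ^ 2 * H := by
          have k4 := t1.prod_le h4.2.2.2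
          have k5 : K₂ ≤ K₂ ^ 2 := le_self_pow₀ hK2 two_ne_zero
          calc Ka * lam ^ 2 * ∏ i, (2 : ℝ) ^ a i ≤ Ka * lam ^ 2 * ((n + 1) * H) := by gcongr
            _ = (n + 1) * Ka * (lam ^ 2 * H) := by ring
            _ ≤ K₂ ^ 2 * (lam ^ 2 * H) := by gcongr; exact hKb'.trans k5
            _ = _ := by ring
        exact ⟨k1, k2.mono (by gcongr) k3⟩
  have hmu2 : mu j H (K₂ * lam * H / T) om ≤ K₂ ^ 4 * mu j H (lam * H / T) om := by
    rw [e1]; exact mu_mul_le (by omega) (by positivity) (by positivity) hK2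
  have hmu3 : 1 ≤ mu j H (K₂ * lam * H / T) om := one_le_mu j (by positivity) (by positivity)
  refine (Cnt.fibre hQc (by positivity) hone).mono
    (fun D hD => ⟨_, hin (θ D) fun i => ((hθ D hD).2 i).2.2.1, hD, rfl⟩) ?_
  have e2 : (C₁ * Z ^ (n + d)) ^ (ε / (n + d : ℕ)) = C₁ ^ (ε / (n + d : ℕ)) * Z ^ ε := by
    rw [Real.mul_rpow (by positivity) (by positivity), ← Real.rpow_natCast Z,
      ← Real.rpow_mul (by positivity), mul_div_cancel₀ _ hnd.ne']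
  have h9 := wmtyB_cells a b hlam hl1
  rw [← hPb] at h9
  rw [e2]
  calc _ ≤ 19 ^ n / lam ^ n * Pb * (Kc * (C₁ ^ (ε / (n + d : ℕ)) * Z ^ ε) * (T ^ (d + 1) * B) *
        (K₂ ^ 4 * mu j H (lam * H / T) om)) := by gcongr
    _ = K₃ * Kc * Z ^ ε * (T ^ (n + d + 1) * H ^ d / (lam ^ n * P₀ ^ 2)) *
        mu j H (lam * H / T) om := by
        rw [hK₃, hB]
        field_simp
        ring
    _ ≤ _ := by gcongr

end Pool.Agent.VW
end

-- part Pool.Agent.P.MP_b0ea37_nt.WMtyC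
section

namespace Pool.Agent.VW

open Polynomial

/-- number of exponent vectors -/
theorem WMtyC_vec (n A : ℕ) (hn : 1 ≤ n) (hA : 1 ≤ A) (K : ℝ) (hK : 1 ≤ K) (ε : ℝ) (hε : 0 < ε) :
    ∃ C : ℝ, 1 ≤ C ∧ ∀ Z : ℝ, 1 ≤ Z →
      Cnt (fun a : Fin n → ℕ => ∀ i, (2 : ℝ) ^ a i ≤ K * Z ^ A) (C * Z ^ ε) := by
  have hn' : (0 : ℝ) < n := by exact_mod_cast hn
  have hA' : (0 : ℝ) < A := by exact_mod_cast hA
  obtain ⟨C, hC, h⟩ := cnt_dyadic (ε / (n * A)) (by positivity)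
  have hK1 : 1 ≤ K ^ (ε / (n * A)) := Real.one_le_rpow hK (by positivity)
  refine ⟨(C * K ^ (ε / (n * A))) ^ n, one_le_pow₀ (one_le_mul_of_one_le_of_one_le hC hK1),
    fun Z hZ => ?_⟩
  have hZ0 : 0 ≤ Z := by linarith
  have hZA : 1 ≤ K * Z ^ A := one_le_mul_of_one_le_of_one_le hK (one_le_pow₀ hZ)
  have h1 := Cnt.pi (ι := Fin n) (P := fun _ (k : ℕ) => (2 : ℝ) ^ k ≤ K * Z ^ A)
    (B := fun _ => C * (K * Z ^ A) ^ (ε / (n * A))) fun _ => h _ hZA
  refine h1.mono (fun _ ha => ha) (le_of_eq ?_)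
  rw [Finset.prod_const, Finset.card_univ, Fintype.card_fin,
    Real.mul_rpow (by linarith) (by positivity), ← mul_assoc, mul_pow]
  congr 1
  rw [← Real.rpow_natCast Z A, ← Real.rpow_mul hZ0, ← Real.rpow_natCast, ← Real.rpow_mul hZ0]
  congr 1
  field_simp

/-- all types of roots -/
theorem ty_all (n d j g : ℕ) (hd : d = 2 * g + 3) (hn : n = d + 1 + j) (hj : j = 1 ∨ j = 2)
    (hn5 : 5 ≤ n) (ε : ℝ) (hε : 0 < ε) : ∃ c₁ : ℝ, 0 < c₁ ∧ c₁ ≤ 1 ∧ ∃ K : ℝ, 1 ≤ K ∧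
    ∀ (Z H T P₀ lam om : ℝ) (Q : Dat → Prop),
      1 ≤ H → H ≤ Z → 1 ≤ T → T ≤ Z → 1 ≤ P₀ → 0 < lam → lam ≤ c₁ → 1 ≤ om →
      lam ^ 2 * H / T ^ 2 ≤ c₁ ^ 2 → K * (lam * H / T) ^ n * H ^ j < P₀ ^ 2 →
      (∀ D, Q D → Fam n d j K H T P₀ om D) → (∀ D D', Q D → Q D' → D.f = D'.f → D = D') →
      Cnt Q (K * Z ^ ε * (T ^ (n + d + 1) * H ^ d / (lam ^ n * P₀ ^ 2)) *
        mu j H (lam * H / T) om) := by
  obtain ⟨K₁, A, hK₁, hA, hex⟩ := ty_exists n d (by omega)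
  obtain ⟨c₁, hc0, hc1, K₂, hK₂, hfix⟩ := ty_fix n d j g hd hn hj hn5 (ε / 2) (by positivity)
  obtain ⟨C, hC, hvec⟩ := WMtyC_vec n A (by omega) hA K₁ hK₁ (ε / 4) (by positivity)
  obtain ⟨N, hN⟩ : ∃ N : ℝ, N = Fintype.card (Equiv.Perm (Fin n)) := ⟨_, rfl⟩
  have hN1 : 1 ≤ N := by
    rw [hN]
    exact_mod_cast Fintype.card_pos
  have hM : 1 ≤ N * C * C :=
    one_le_mul_of_one_le_of_one_le (one_le_mul_of_one_le_of_one_le hN1 hC) hC
  have hKK : K₂ ≤ N * C * C * K₂ := le_mul_of_one_le_left (by linarith) hM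
  refine ⟨c₁, hc0, hc1, N * C * C * K₂, hK₂.trans hKK, ?_⟩
  intro Z H T P₀ lam om Q hH hHZ hT hTZ hP hl hlc hom h1 h2 hQ hinj
  have hZ : 1 ≤ Z := hH.trans hHZ
  have hZ0 : 0 < Z := by linarith
  have hH0 : 0 < H := by linarith
  have hT0 : 0 < T := by linarith
  have hP0 : 0 < P₀ := by linarith
  have hC0 : 0 < C := by linarith
  have hmu : 0 ≤ mu j H (lam * H / T) om :=
    zero_le_one.trans (one_le_mu j hH0.le (by positivity))
  have h2' : K₂ * (lam * H / T) ^ n * H ^ j < P₀ ^ 2 := by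
    refine lt_of_le_of_lt ?_ h2
    gcongr
  have hs : Cnt (fun s : Equiv.Perm (Fin n) => True) N := hN ▸ Cnt.fintype _
  have hab := Cnt.prod (Q := fun (_ : Fin n → ℕ) (b : Fin n → ℕ) =>
    ∀ i, (2 : ℝ) ^ b i ≤ K₁ * Z ^ A) (hvec Z hZ) (by positivity) fun _ _ => hvec Z hZ
  have hty := Cnt.prod (Q := fun (_ : Equiv.Perm (Fin n)) (z : (Fin n → ℕ) × (Fin n → ℕ)) =>
    (∀ i, (2 : ℝ) ^ z.1 i ≤ K₁ * Z ^ A) ∧ ∀ i, (2 : ℝ) ^ z.2 i ≤ K₁ * Z ^ A) hs
    (by positivity) fun _ _ => hab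
  have hty' : Cnt (fun y : Equiv.Perm (Fin n) × (Fin n → ℕ) × (Fin n → ℕ) =>
      ((∀ i, (2 : ℝ) ^ y.2.1 i ≤ K₁ * Z ^ A) ∧ ∀ i, (2 : ℝ) ^ y.2.2 i ≤ K₁ * Z ^ A) ∧
        ∀ i, y.1 (y.1 i) = i ∧ y.2.1 (y.1 i) = y.2.1 i ∧ y.2.2 (y.1 i) = y.2.2 i)
      (N * (C * Z ^ (ε / 4) * (C * Z ^ (ε / 4)))) :=
    hty.mono (fun y hy => ⟨trivial, hy.1⟩) le_rfl
  have hall := Cnt.fibre (P := fun y (D : Dat) => Q D ∧ ∃ θ, Ty d T y.1 y.2.1 y.2.2 D.f D.v θ)
    (B' := K₂ * Z ^ (ε / 2) * (T ^ (n + d + 1) * H ^ d / (lam ^ n * P₀ ^ 2)) *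
      mu j H (lam * H / T) om) hty' (by positivity) fun y hy =>
      hfix Z H T P₀ lam om y.1 y.2.1 y.2.2 _ hH hHZ hT hTZ hP hl hlc hom h1 h2' hy.2
        (fun D hD => ⟨(hQ D hD.1).mono hKK hH0.le hT0.le (by linarith), hD.2⟩)
        fun D D' hD hD' e => hinj D D' hD.1 hD'.1 e
  refine hall.mono (fun D hD => ?_) (le_of_eq ?_)
  · obtain ⟨o1, o2, -, o4, o5, o6, -⟩ := hQ D hD
    obtain ⟨s, a, b, θ, e1, e2⟩ := hex Z T D.f D.v hT hTZ o4.1 o4.2.1 o2 (o4.2.2.2.trans hHZ)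
      o1.1.1 o5 o6
    exact ⟨(s, a, b), ⟨⟨fun i => (e1 i).2.2.2.1, fun i => (e1 i).2.2.2.2⟩,
      fun i => ⟨(e1 i).1, (e1 i).2.1, (e1 i).2.2.1⟩⟩, hD, θ, e2⟩
  · have e : Z ^ ε = Z ^ (ε / 4) * Z ^ (ε / 4) * Z ^ (ε / 2) := by
      rw [← Real.rpow_add hZ0, ← Real.rpow_add hZ0]
      congr 1
      ring
    rw [e]
    ring

end Pool.Agent.VW
end

-- part Pool.Agent.P.MP_b0ea37_nt.WMv
section

namespace Pool.Agent.VW

open Polynomial

theorem v_pigeon (d P : ℕ) (hP : P.Prime) (r : ℤ) : ∃ (L : ℕ) (g : ℤ[X]), L ^ (d + 1) ≤ P ∧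
    P < (L + 1) ^ (d + 1) ∧ g ≠ 0 ∧ g.natDegree ≤ d ∧ (∀ i, |g.coeff i| ≤ L) ∧
    (P : ℤ) ∣ g.eval r := by
  classical
  have hex : ∃ L : ℕ, P < (L + 1) ^ (d + 1) :=
    ⟨P, lt_of_lt_of_le (Nat.lt_succ_self P) (Nat.le_self_pow (by omega) _)⟩
  have h1 := Nat.find_spec hex
  set L := Nat.find hex with hL
  have h2 : L ^ (d + 1) ≤ P := by
    rcases Nat.eq_zero_or_pos L with h | h
    · rw [h]; simp
    · have := Nat.find_min hex (show L - 1 < Nat.find hex by omega)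
      rw [show L - 1 + 1 = L by omega] at this
      omega
  have : NeZero P := ⟨hP.ne_zero⟩
  obtain ⟨a, b, hab, he⟩ := Fintype.exists_ne_map_eq_of_card_lt
    (fun a : Fin (d + 1) → Fin (L + 1) => ((∑ i, ((a i : ℕ) : ℤ) * r ^ (i : ℕ) : ℤ) : ZMod P))
    (by simpa [ZMod.card] using h1)
  set g : ℤ[X] := ∑ i : Fin (d + 1), C (((a i : ℕ) : ℤ) - ((b i : ℕ) : ℤ)) * X ^ (i : ℕ) with hg
  have hc : ∀ j : ℕ, g.coeff j =
      if h : j < d + 1 then ((a ⟨j, h⟩ : ℕ) : ℤ) - ((b ⟨j, h⟩ : ℕ) : ℤ) else 0 := by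
    intro j
    simp only [hg, finsetSum_coeff, coeff_C_mul, coeff_X_pow]
    split_ifs with h
    · rw [Finset.sum_eq_single ⟨j, h⟩]
      · simp
      · intro i _ hi
        rw [if_neg fun e => hi (Fin.ext e.symm), mul_zero]
      · simp
    · refine Finset.sum_eq_zero fun i _ => ?_
      rw [if_neg (by have := i.2; omega), mul_zero]
  refine ⟨L, g, h2, h1, fun h0 => hab ?_, ?_, fun j => ?_, ?_⟩
  · funext i
    have := hc i
    rw [h0, coeff_zero, dif_pos i.2] at this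
    apply Fin.ext
    have e : ((a i : ℕ) : ℤ) = ((b i : ℕ) : ℤ) := by
      simp only [Fin.eta] at this
      linarith
    exact_mod_cast e
  · rw [natDegree_le_iff_coeff_eq_zero]
    intro j hj
    rw [hc, dif_neg (by omega)]
  · rw [hc]
    split_ifs with h
    · have := (a ⟨j, h⟩).2
      have := (b ⟨j, h⟩).2
      rw [abs_le]
      constructor <;> omega
    · simp
  · have := (ZMod.intCast_eq_intCast_iff_dvd_sub _ _ P).1 he.symm
    rw [← Finset.sum_sub_distrib] at this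
    simpa [hg, eval_finsetSum, sub_mul] using this

theorem v_factor {P : ℕ} (hP : P.Prime) {r : ℤ} {g : ℤ[X]} (hg : ¬ C (P : ℤ) ∣ g)
    (hr : (P : ℤ) ∣ g.eval r) :
    ∃ h : ℤ[X], h ∣ g ∧ h.IsPrimitive ∧ Irr h ∧ (P : ℤ) ∣ h.eval r := by
  have hP' : Prime (P : ℤ) := Nat.prime_iff_prime_int.1 hP
  have g0 : g ≠ 0 := by rintro rfl; exact hg (dvd_zero _)
  have key : ∀ (k : ℕ) (u : ℤ[X]), u.natDegree ≤ k → u ∣ g → (P : ℤ) ∣ u.eval r →
      ∃ h : ℤ[X], h ∣ g ∧ Irr h ∧ (P : ℤ) ∣ h.eval r := by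
    intro k
    induction k with
    | zero =>
      intro u hu hd he
      rw [eq_C_of_natDegree_le_zero hu] at hd he
      rw [eval_C] at he
      exact absurd ((map_dvd C he).trans hd) hg
    | succ k ih =>
      intro u hu hd he
      rcases Nat.lt_or_ge u.natDegree (k + 1) with h | h
      · exact ih u (by omega) hd he
      rcases irr_or_reducible u (by omega) with h1 | ⟨a, b, ha, hb, rfl⟩
      · exact ⟨u, hd, h1, he⟩
      have a0 : a ≠ 0 := by rintro rfl; simp at ha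
      have b0 : b ≠ 0 := by rintro rfl; simp at hb
      rw [natDegree_mul a0 b0] at hu
      rw [eval_mul] at he
      rcases hP'.dvd_or_dvd he with h2 | h2
      · exact ih a (by omega) ((dvd_mul_right _ _).trans hd) h2
      · exact ih b (by omega) ((dvd_mul_left _ _).trans hd) h2
  obtain ⟨h, hd, hi, he⟩ := key _ g le_rfl dvd_rfl hr
  have e := h.eq_C_content_mul_primPart
  have h0 : h ≠ 0 := by rintro rfl; exact g0 (zero_dvd_iff.1 hd)
  refine ⟨h.primPart, h.primPart_dvd.trans hd, h.isPrimitive_primPart, ?_, ?_⟩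
  · have e2 : up ℚ h = C ((h.content : ℤ) : ℚ) * up ℚ h.primPart := by
      conv_lhs => rw [e]
      simp [up]
    have hu : IsUnit (C ((h.content : ℤ) : ℚ)) :=
      isUnit_C.2 (Ne.isUnit (by exact_mod_cast content_eq_zero_iff.not.2 h0))
    unfold Irr at hi ⊢
    rw [e2] at hi
    exact (irreducible_isUnit_mul hu).1 hi
  · rw [e, eval_mul, eval_C] at he
    rcases hP'.dvd_or_dvd he with h2 | h2
    · exact absurd ((map_dvd C h2).trans ((C_content_dvd h).trans hd)) hg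
    · exact h2

theorem v_fill (d : ℕ) {h : ℤ[X]} (hp : h.IsPrimitive) (hi : Irr h) (hd : h.natDegree ≤ d) :
    ∃ v : ℤ[X], VOk d v ∧ h ∣ v ∧ v.supNorm ≤ (d + 1) * (2 ^ d * (d + 1) ^ d) * h.supNorm := by
  classical
  have h0 : h ≠ 0 := hp.ne_zero
  set T := (Finset.range (d + 1)).filter fun c : ℕ => h.eval (c : ℤ) ≠ 0 with hT
  have hcard : d - h.natDegree ≤ T.card := by
    have h1 := Finset.card_filter_add_card_filter_not (s := Finset.range (d + 1))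
      (fun c : ℕ => h.eval (c : ℤ) ≠ 0)
    have h2 : ((Finset.range (d + 1)).filter fun c : ℕ => ¬ h.eval (c : ℤ) ≠ 0).card ≤
        h.roots.toFinset.card := by
      refine Finset.card_le_card_of_injOn (fun c : ℕ => (c : ℤ)) (fun c hc => ?_)
        fun a _ b _ e => Nat.cast_injective (R := ℤ) e
      simp only [Finset.coe_filter, Set.mem_ofPred_eq, not_not] at hc
      simp [h0, hc.2]
    have h3 := (Multiset.toFinset_card_le h.roots).trans (card_roots' h)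
    rw [Finset.card_range, ← hT] at h1
    omega
  obtain ⟨A, hA, hAc⟩ := Finset.exists_subset_card_eq hcard
  set q : ℤ[X] := ∏ c ∈ A, (X - C (c : ℤ)) with hq
  have qm : q.Monic := monic_prod_of_monic _ _ fun c _ => monic_X_sub_C _
  have qd : q.natDegree = d - h.natDegree := by
    rw [hq, natDegree_prod_of_monic _ _ (fun c _ => monic_X_sub_C _)]
    simp only [natDegree_X_sub_C, Finset.sum_const, smul_eq_mul, mul_one, hAc]
  have qs : q.supNorm ≤ 2 ^ d * (d + 1) ^ d := by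
    refine (sup_prod_X_sub_C A fun c : ℕ => (c : ℤ)).trans ?_
    have c1 : A.card ≤ d := by omega
    have d1 : (1 : ℝ) ≤ d + 1 := by linarith [Nat.cast_nonneg (α := ℝ) d]
    refine mul_le_mul (pow_le_pow_right₀ (by norm_num) c1) ?_ (by positivity) (by positivity)
    refine le_trans (Finset.prod_le_prod (g := fun _ => (d : ℝ) + 1) (fun c _ => by positivity)
      fun c hc => ?_) ?_
    · have := Finset.mem_range.1 (Finset.mem_filter.1 (hA hc)).1
      refine max_le d1 ?_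
      rw [Int.norm_natCast]
      exact_mod_cast this.le
    · rw [Finset.prod_const]
      exact pow_le_pow_right₀ d1 c1
  have hsep : (up ℂ (h * q)).Separable := by
    have s1 : (up ℂ h).Separable := by
      have : up ℂ h = (up ℚ h).map (algebraMap ℚ ℂ) := by
        simp only [up, Polynomial.map_map]; congr 1
      rw [this]
      exact (Irreducible.separable hi).map
    have e : up ℂ q = ∏ c ∈ A, (X - C (c : ℂ)) := by
      simp [up, hq, Polynomial.map_prod]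
    rw [up, Polynomial.map_mul]
    refine s1.mul ?_ ?_
    · show (up ℂ q).Separable
      rw [e, separable_prod_X_sub_C_iff']
      intro a _ b _ hab
      exact_mod_cast hab
    · show IsCoprime (up ℂ h) (up ℂ q)
      rw [e]
      refine IsCoprime.prod_right fun c hc => ?_
      refine ((irreducible_X_sub_C (c : ℂ)).coprime_iff_not_dvd.2 ?_).symm
      rw [dvd_iff_isRoot, IsRoot.def]
      have := (Finset.mem_filter.1 (hA hc)).2
      have e2 : (up ℂ h).eval (c : ℂ) = ((h.eval (c : ℤ) : ℤ) : ℂ) := by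
        rw [up, eval_map, ← Int.cast_natCast, ← eq_intCast (Int.castRingHom ℂ), eval₂_hom]
        simp
      rw [e2]
      exact_mod_cast this
  have hdeg : (h * q).natDegree = d := by rw [natDegree_mul h0 qm.ne_zero, qd]; omega
  have hprim : (h * q).IsPrimitive := hp.mul qm.isPrimitive
  have hsup : (h * q).supNorm ≤ (d + 1) * (2 ^ d * (d + 1) ^ d) * h.supNorm := by
    refine (sup_mul_le h q hd).trans ?_
    rw [mul_assoc, mul_comm h.supNorm]
    have := h.supNorm_nonneg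
    gcongr
  rcases lt_or_gt_of_ne (leadingCoeff_ne_zero.2 hprim.ne_zero) with hl | hl
  · refine ⟨-(h * q), ⟨by rw [natDegree_neg, hdeg], ?_, by rw [leadingCoeff_neg]; linarith, ?_⟩,
      (dvd_mul_right _ _).neg_right, by rw [sup_neg]; exact hsup⟩
    · intro a ha
      exact hprim a (dvd_neg.1 ha)
    · rw [up, Polynomial.map_neg]
      exact hsep.of_dvd (neg_dvd.2 dvd_rfl)
  · exact ⟨h * q, ⟨hdeg, hprim, hl, hsep⟩, dvd_mul_right _ _, hsup⟩

theorem v_short (d : ℕ) (hd : 1 ≤ d) (P : ℕ) (r : ℤ) (hP : P.Prime) : ∃ (L : ℕ) (v : ℤ[X]),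
    L ^ (d + 1) ≤ P ∧ P < (L + 1) ^ (d + 1) ∧ VOk d v ∧ (P : ℤ) ∣ v.eval r ∧
      v.supNorm ≤ (d + 1) * (2 ^ d * (d + 1) ^ d) * 4 ^ d * L := by
  obtain ⟨L, g, hL1, hL2, g0, gd, gc, gr⟩ := v_pigeon d P hP r
  have hLP : L < P := by
    rcases Nat.lt_or_ge L 2 with h | h
    · have := hP.two_le; omega
    · exact lt_of_lt_of_le (lt_self_pow₀ (by omega) (by omega)) hL1
  have hg : ¬ C (P : ℤ) ∣ g := by
    intro h
    apply g0
    ext i
    have h1 := (C_dvd_iff_dvd_coeff _ _).1 h i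
    exact Int.eq_zero_of_abs_lt_dvd h1 (lt_of_le_of_lt (gc i) (by exact_mod_cast hLP))
  obtain ⟨h, hdvd, hprim, hirr, hr⟩ := v_factor hP hg gr
  obtain ⟨v, hv, hhv, hs⟩ := v_fill d hprim hirr ((natDegree_le_of_dvd hdvd g0).trans gd)
  have gs : g.supNorm ≤ L := by
    rw [sup_le_iff]
    intro i
    rw [Int.norm_eq_abs]
    exact_mod_cast gc i
  refine ⟨L, v, hL1, hL2, hv, hr.trans (eval_dvd hhv), hs.trans ?_⟩
  rw [mul_assoc _ ((4 : ℝ) ^ d)]
  refine mul_le_mul_of_nonneg_left ((sup_le_of_dvd g0 hdvd gd).trans ?_) (by positivity)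
  gcongr

theorem v_const (d : ℕ) : (1 : ℝ) ≤ (d + 1) * (2 ^ d * (d + 1) ^ d) * 4 ^ d := by
  have d1 : (1 : ℝ) ≤ d + 1 := by linarith [Nat.cast_nonneg (α := ℝ) d]
  exact one_le_mul_of_one_le_of_one_le (one_le_mul_of_one_le_of_one_le d1
    (one_le_mul_of_one_le_of_one_le (one_le_pow₀ (by norm_num)) (one_le_pow₀ d1)))
    (one_le_pow₀ (by norm_num))

theorem exists_v (d : ℕ) (hd : 1 ≤ d) : ∃ A : ℝ, 1 ≤ A ∧ ∀ (P : ℕ) (r : ℤ), P.Prime → 4 < P →
    ∃ v : ℤ[X], VOk d v ∧ (P : ℤ) ∣ v.eval r ∧ v.supNorm ^ (d + 1) ≤ A * P := by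
  have k1 := v_const d
  refine ⟨_, one_le_pow₀ (n := d + 1) k1, fun P r hP _ => ?_⟩
  obtain ⟨L, v, hL1, -, hv, hr, vs⟩ := v_short d hd P r hP
  refine ⟨v, hv, hr, (pow_le_pow_left₀ v.supNorm_nonneg vs _).trans ?_⟩
  rw [mul_pow _ (L : ℝ)]
  exact mul_le_mul_of_nonneg_left (by exact_mod_cast hL1) (by positivity)

theorem exists_dat (n d : ℕ) (hd : 1 ≤ d) (hdn : d < n) : ∃ (A : ℝ) (P₁ : ℕ), 1 ≤ A ∧
    ∀ (f : ℤ[X]) (P : ℕ) (r : ℤ), f.Monic → f.natDegree = n → Irr f → P.Prime → P₁ ≤ P →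
      Wk P r f → ∃ D : Dat, D.f = f ∧ D.P = P ∧ Ok n d D ∧ D.v.supNorm ^ (d + 1) ≤ A * P := by
  have k1 := v_const d
  set K₀ : ℝ := (d + 1) * (2 ^ d * (d + 1) ^ d) * 4 ^ d with hK₀
  set K₁ : ℝ := (2 * d + 1).factorial * d ^ (d + 1) * K₀ ^ (2 * d + 1) with hK₁
  have k1' : 0 ≤ K₁ := by positivity
  refine ⟨K₀ ^ (d + 1), ⌈(K₁ + 2) ^ (d + 1)⌉₊ + d + 1, one_le_pow₀ k1,
    fun f P r hm hn hi hP hK hf => ?_⟩
  obtain ⟨L, v, hL1, hL2, hv, vr, vs⟩ := v_short d hd P r hP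
  have v0 := v.supNorm_nonneg
  have v1 : 1 ≤ v.supNorm := one_le_sup hv.2.1.ne_zero
  have hL1' : (L : ℝ) ^ (d + 1) ≤ P := by exact_mod_cast hL1
  have hsz : v.supNorm ^ (d + 1) ≤ K₀ ^ (d + 1) * P := by
    refine (pow_le_pow_left₀ v0 vs _).trans ?_
    rw [mul_pow _ (L : ℝ)]
    gcongr
  have hnw : ¬ Wk P r v := by
    intro hw
    have dd : (derivative v).natDegree ≤ d - 1 := hv.1 ▸ natDegree_derivative_le v
    have hne : resultant (derivative v) v ≠ 0 := by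
      refine resultant_ne_zero_of_coprime ?_
      have e : up ℂ v = (up ℚ v).map (algebraMap ℚ ℂ) := by
        simp only [up, Polynomial.map_map]; congr 1
      have s1 : (up ℚ v).Separable := (separable_map (algebraMap ℚ ℂ)).1 (e ▸ hv.2.2.2)
      have := (separable_def _).1 s1
      rw [up, derivative_map] at this
      exact this.symm
    obtain ⟨e, he⟩ := Nat.exists_eq_add_of_le (show (derivative v).natDegree ≤ d by omega)
    have hne' : resultant (derivative v) v d d ≠ 0 := by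
      have := resultant_add_left_deg (derivative v) v (derivative v).natDegree v.natDegree e le_rfl
      rw [← he, coeff_natDegree] at this
      conv_lhs at this => rw [hv.1]
      rw [this]
      exact mul_ne_zero (mul_ne_zero (pow_ne_zero _ (by norm_num))
        (pow_ne_zero _ hv.2.2.1.ne')) hne
    have h2 := res_one_two hP.one_le (g := derivative v) (h := v) (m := d) (m' := d) (by omega)
      hv.1.le (by omega) hw.2 hw
    have h3 : (P : ℝ) ^ 2 ≤ ‖resultant (derivative v) v d d‖ := by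
      rw [Int.norm_eq_abs]
      exact_mod_cast Int.le_of_dvd (abs_pos.2 hne') ((dvd_abs _ _).2 h2)
    have hKL : K₁ + 2 < L + 1 := by
      refine lt_of_pow_lt_pow_left₀ (d + 1) (by positivity) ((Nat.le_ceil _).trans_lt ?_)
      exact_mod_cast (by omega : ⌈(K₁ + 2) ^ (d + 1)⌉₊ < (L + 1) ^ (d + 1))
    have l1 : (1 : ℝ) ≤ L := by linarith
    have d1 : (1 : ℝ) ≤ d := by exact_mod_cast hd
    have h4 : ‖resultant (derivative v) v d d‖ ≤ K₁ * L ^ (2 * d + 1) := by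
      refine (norm_resultant_le _ _ _ _).trans ?_
      have a1 : ((d + d).factorial : ℝ) ≤ (2 * d + 1).factorial := by
        exact_mod_cast Nat.factorial_le (by omega)
      have a2 : (derivative v).supNorm ≤ d * v.supNorm := sup_derivative_le v hv.1.le
      have a3 := (derivative v).supNorm_nonneg
      calc _ ≤ (2 * d + 1).factorial * (d * v.supNorm) ^ d * v.supNorm ^ d := by gcongr
        _ = (2 * d + 1).factorial * d ^ d * v.supNorm ^ (2 * d) := by rw [mul_pow]; ring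
        _ ≤ (2 * d + 1).factorial * d ^ (d + 1) * v.supNorm ^ (2 * d + 1) := by gcongr <;> omega
        _ ≤ (2 * d + 1).factorial * d ^ (d + 1) * (K₀ * L) ^ (2 * d + 1) := by gcongr
        _ = _ := by rw [hK₁, mul_pow]; ring
    have h5 : (L : ℝ) * L ^ (2 * d + 1) ≤ (P : ℝ) ^ 2 := by
      calc _ = ((L : ℝ) ^ (d + 1)) ^ 2 := by ring
        _ ≤ _ := by gcongr
    have h6 : K₁ * L ^ (2 * d + 1) < (L : ℝ) * L ^ (2 * d + 1) :=
      mul_lt_mul_of_pos_right (by linarith) (by positivity)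
    linarith
  have hz : ∀ z : ℂ, aeval z v = 0 → aeval z f ≠ 0 := by
    intro z h1 h2
    have u : ∀ g : ℤ[X], aeval z (up ℚ g) = aeval z g := fun g => by
      rw [up, ← algebraMap_int_eq, aeval_map_algebraMap]
    have h3 := hi.dvd_of_root (K := ℂ) (z := z) ((u f).trans h2) ((u v).trans h1)
    have inj : Function.Injective (Int.castRingHom ℚ) := RingHom.injective_int _
    have h4 := natDegree_le_of_dvd h3 ((Polynomial.map_ne_zero_iff inj).2 hv.2.1.ne_zero)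
    rw [natDegree_map_eq_of_injective inj, natDegree_map_eq_of_injective inj, hn, hv.1] at h4
    omega
  by_cases h2 : (P : ℤ) ^ 2 ∣ v.eval r
  · obtain ⟨k, hk⟩ := binomExpansion v r (P : ℤ)
    obtain ⟨k', hk'⟩ := binomExpansion f r (P : ℤ)
    refine ⟨⟨f, v, P, r + P⟩, rfl, rfl, ⟨hv, hm, hn, hP, by show d < P; omega, ?_,
      fun h3 => hnw ⟨h2, ?_⟩, ⟨?_, ?_⟩, hz⟩, hsz⟩
    · show (P : ℤ) ∣ v.eval (r + P)
      rw [hk]
      exact (vr.add (dvd_mul_left _ _)).add (Dvd.intro_left (k * P) (by ring))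
    · change (P : ℤ) ^ 2 ∣ v.eval (r + P) at h3
      rw [hk] at h3
      have h4 : (P : ℤ) ^ 2 ∣ (derivative v).eval r * P := by
        have := (h3.sub (dvd_mul_left _ k)).sub h2
        simpa using this
      rw [pow_two] at h4
      exact (mul_dvd_mul_iff_right (by exact_mod_cast hP.ne_zero)).1 h4
    · show (P : ℤ) ^ 2 ∣ f.eval (r + P)
      rw [hk']
      refine (hf.1.add ?_).add (dvd_mul_left _ _)
      rw [pow_two]
      exact mul_dvd_mul hf.2 dvd_rfl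
    · show (P : ℤ) ∣ (derivative f).eval (r + P)
      have := sub_dvd_eval_sub (r + P) r (derivative f)
      rw [add_sub_cancel_left] at this
      simpa using this.add hf.2
  · exact ⟨⟨f, v, P, r⟩, rfl, rfl, ⟨hv, hm, hn, hP, by show d < P; omega, vr, h2, hf, hz⟩, hsz⟩

end Pool.Agent.VW
end

-- part Pool.Agent.P.MP_b0ea37_nt.WMnumA
section

namespace Pool.Agent.VW

open Polynomial

theorem numA_mu (n : ℕ) (hn : 5 ≤ n) : (n : ℝ) / 2 - 5 / 8 - 1 / 1000 ≤ muL n := by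
  have h : (5 : ℝ) ≤ n := by exact_mod_cast hn
  unfold muL
  have : (n : ℝ) / 2 - 5 / 8 ≤ n * (n - 2) / (2 * (n - 1)) := by
    rw [le_div_iff₀ (by linarith)]; nlinarith
  linarith

theorem numA_low (n d : ℕ) {c T s H P G u W A : ℝ} (hc : 0 < c) (hc1 : c ≤ 1) (hT : 0 < T)
    (hs : 0 < s) (hH : s * s = H) (hP : 0 < P) (hG : 0 < G) (hu : 0 < u) (hA : 1 ≤ A)
    (h1 : T ^ (d + 1) ≤ A * P) (h2 : H ^ d * s ^ n ≤ 2 * W * P)
    (h3 : H ^ d * s ^ n * s ≤ W * (G * P * u)) :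
    T ^ (n + d + 1) * H ^ d / ((c * (T / s)) ^ n * P ^ 2) * (1 + c * (T / s) * H / T / (u * G)) ≤
      3 * A ^ 3 / c ^ n * W := by
  have hH0 : 0 < H := hH ▸ mul_pos hs hs
  have e : T ^ (n + d + 1) * H ^ d / ((c * (T / s)) ^ n * P ^ 2) *
      (1 + c * (T / s) * H / T / (u * G)) =
      T ^ (d + 1) / P / c ^ n * (H ^ d * s ^ n / P + c * (H ^ d * s ^ n * s / (G * P * u))) := by
    rw [mul_pow, div_pow, ← hH]
    field_simp
    ring
  have a1 : T ^ (d + 1) / P ≤ A ^ 3 :=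
    ((div_le_iff₀ hP).2 h1).trans (le_self_pow₀ hA (by norm_num))
  have a2 : H ^ d * s ^ n / P ≤ 2 * W := (div_le_iff₀ hP).2 h2
  have a3 : H ^ d * s ^ n * s / (G * P * u) ≤ W := (div_le_iff₀ (by positivity)).2 h3
  rw [e]
  calc _ ≤ A ^ 3 / c ^ n * (2 * W + 1 * W) := by gcongr
    _ = _ := by ring

theorem numA_high (d : ℕ) {c T H P G u W A : ℝ} (hc : 0 < c) (hc1 : c ≤ 1) (hT : 0 < T)
    (hH : 0 < H) (hP : 0 < P) (hG : 1 ≤ G) (hu : 0 < u) (hW : 0 ≤ W) (hA : 1 ≤ A)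
    (h1 : T ^ (d + 1) ≤ A * P) (h2 : T * H ^ d ≤ A * W) (h3 : H ^ d * H ≤ W * u) :
    T ^ (d + 2 + d + 1) * H ^ d / (c ^ (d + 2) * P ^ 2) * (1 + c * H / T / (u * G)) ≤
      3 * A ^ 3 / c ^ (d + 2) * W := by
  have hG0 : 0 < G := by linarith
  have e : T ^ (d + 2 + d + 1) * H ^ d / (c ^ (d + 2) * P ^ 2) * (1 + c * H / T / (u * G)) =
      (T ^ (d + 1) / P) ^ 2 / c ^ (d + 2) * (T * H ^ d + c * (H ^ d * H / u / G)) := by
    field_simp
    ring
  have a1 : T ^ (d + 1) / P ≤ A := (div_le_iff₀ hP).2 h1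
  have a2 : H ^ d * H / u / G ≤ 2 * A * W := by
    have b1 : H ^ d * H / u ≤ W := (div_le_iff₀ hu).2 h3
    have b2 : H ^ d * H / u / G ≤ H ^ d * H / u := div_le_self (by positivity) hG
    nlinarith
  rw [e]
  calc _ ≤ A ^ 2 / c ^ (d + 2) * (A * W + 1 * (2 * A * W)) := by gcongr
    _ = _ := by ring

theorem num_one (n d j : ℕ) (hn : n = d + 1 + j) (hj : j = 1) (hd : 3 ≤ d) (δ : ℝ) (hδ : 0 < δ) :
    ∃ c' : ℝ, 0 < c' ∧ ∀ c₁ A K : ℝ, 0 < c₁ → c₁ ≤ 1 → 1 ≤ A → 1 ≤ K → ∃ K' H₀ : ℝ, 1 ≤ K' ∧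
      ∀ H T P₀ G : ℝ, H₀ ≤ H → 1 ≤ T → T ^ (d + 1) ≤ A * P₀ → H ^ muL n / 2 ≤ P₀ →
        P₀ ≤ H ^ ((d : ℝ) + 1 - 1 / 25) → 1 ≤ G → (j = 1 → H ^ (((n : ℝ) - 1) / 2) ≤ G * P₀) →
        ∃ lam : ℝ, 0 < lam ∧ lam ≤ c₁ ∧ lam ^ 2 * H / T ^ 2 ≤ c₁ ^ 2 ∧
          K * (lam * H / T) ^ n * H ^ j < P₀ ^ 2 ∧
          T ^ (n + d + 1) * H ^ d / (lam ^ n * P₀ ^ 2) * mu j H (lam * H / T) (H ^ δ * G ^ 2) ≤
            K' * H ^ ((n : ℝ) - 1 - c') := by
  subst hj
  obtain rfl : n = d + 2 := hn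
  have hd' : (3 : ℝ) ≤ d := by exact_mod_cast hd
  have hmu := numA_mu (d + 2) (by omega)
  obtain ⟨e, he, he1, he2⟩ : ∃ e : ℝ, 0 < e ∧ e ≤ 1 / 100 ∧ ((d : ℝ) + 1) * e = 1 / 25 :=
    ⟨1 / (25 * (d + 1)), by positivity, one_div_le_one_div_of_le (by norm_num) (by linarith),
      by field_simp⟩
  obtain ⟨c', hc', hc1, hc2⟩ : ∃ c' : ℝ, 0 < c' ∧ c' ≤ δ / 2 ∧ c' ≤ e :=
    ⟨min (δ / 2) e, lt_min (by linarith) he, min_le_left _ _, min_le_right _ _⟩
  refine ⟨c', hc', fun c A K hc hc0 hA hK => ?_⟩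
  obtain ⟨H₀, hH₀⟩ := Filter.eventually_atTop.1
    ((tendsto_rpow_atTop (show (0 : ℝ) < 1 / 5 by norm_num)).eventually_gt_atTop (4 * K))
  refine ⟨3 * A ^ 3 / c ^ (d + 2), max 1 H₀, ?_, fun H T P G hH hT h1 h2 h3 hG h4 => ?_⟩
  · rw [le_div_iff₀ (by positivity), one_mul]
    have := one_le_pow₀ (n := 3) hA
    have := pow_le_one₀ (n := d + 2) hc.le hc0
    linarith
  have hH1 : 1 ≤ H := (le_max_left _ _).trans hH
  have hK5 := hH₀ H ((le_max_right _ _).trans hH)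
  have hH0 : 0 < H := by linarith
  have hT0 : 0 < T := by linarith
  have hP : 0 < P := lt_of_lt_of_le (by positivity) h2
  replace h4 := h4 rfl
  push_cast at hmu h4 ⊢
  obtain ⟨s, hs⟩ : ∃ s : ℝ, s = H ^ (1 / 2 : ℝ) := ⟨_, rfl⟩
  have hs0 : 0 < s := hs ▸ Real.rpow_pos_of_pos hH0 _
  have hss : s * s = H := by rw [hs, ← Real.rpow_add hH0]; norm_num
  have hsk : s ^ (d + 2) = H ^ (((d : ℝ) + 2) / 2) := by
    rw [hs, ← Real.rpow_natCast, ← Real.rpow_mul hH0.le]; push_cast; ring_nf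
  have hHd : H ^ d = H ^ (d : ℝ) := (Real.rpow_natCast H d).symm
  have key : ∀ a b : ℝ, a ≤ b → H ^ a ≤ H ^ b := fun a b h =>
    Real.rpow_le_rpow_of_exponent_le hH1 h
  have hsq : √(H ^ δ * G ^ 2) = H ^ (δ / 2) * G := by
    rw [Real.sqrt_eq_iff_mul_self_eq (by positivity) (by positivity), mul_mul_mul_comm,
      ← Real.rpow_add hH0, add_halves, sq]
  have hmu' : ∀ S : ℝ, mu 1 H S (H ^ δ * G ^ 2) = 1 + S / (H ^ (δ / 2) * G) := fun S => by
    rw [mu, if_neg (by norm_num), add_zero, pow_one, hsq]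
  have hW : 0 < H ^ ((d : ℝ) + 2 - 1 - c') := by positivity
  have hl : 0 < min 1 (T / s) := lt_min one_pos (by positivity)
  have hSg : c * min 1 (T / s) * H / T ≤ c * s := by
    calc _ ≤ c * (T / s) * H / T := by gcongr; exact min_le_right _ _
      _ = c * s := by rw [← hss]; field_simp
  refine ⟨c * min 1 (T / s), by positivity, mul_le_of_le_one_right hc.le (min_le_left _ _),
    ?_, ?_, ?_⟩
  · calc _ ≤ (c * (T / s)) ^ 2 * H / T ^ 2 := by gcongr; exact min_le_right _ _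
      _ = c ^ 2 := by rw [← hss]; field_simp
  · have a1 : (c * min 1 (T / s) * H / T) ^ (d + 2) ≤ s ^ (d + 2) :=
      pow_le_pow_left₀ (by positivity) (hSg.trans (mul_le_of_le_one_left hs0.le hc0)) _
    have a2 : H ^ (1 / 5 : ℝ) * (s ^ (d + 2) * H ^ (1 : ℝ)) ≤ H ^ muL (d + 2) * H ^ muL (d + 2) := by
      rw [hsk, ← Real.rpow_add hH0, ← Real.rpow_add hH0, ← Real.rpow_add hH0]
      exact key _ _ (by linarith)
    rw [Real.rpow_one] at a2
    have a3 : (H ^ muL (d + 2) / 2) ^ 2 ≤ P ^ 2 := pow_le_pow_left₀ (by positivity) h2 2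
    have a4 : 4 * K * (s ^ (d + 2) * H) < H ^ (1 / 5 : ℝ) * (s ^ (d + 2) * H) :=
      mul_lt_mul_of_pos_right hK5 (by positivity)
    calc _ ≤ K * s ^ (d + 2) * H ^ 1 := by gcongr
      _ < _ := by rw [pow_one]; nlinarith
  · rw [hmu']
    rcases le_total (T / s) 1 with h | h
    · rw [min_eq_right h]
      refine numA_low (d + 2) d hc hc0 hT0 hs0 hss hP (by linarith) (by positivity) hA h1 ?_ ?_
      · have a1 : H ^ d * s ^ (d + 2) ≤ H ^ ((d : ℝ) + 2 - 1 - c') * H ^ muL (d + 2) := by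
          rw [hsk, hHd, ← Real.rpow_add hH0, ← Real.rpow_add hH0]
          exact key _ _ (by linarith)
        have a2 := mul_le_mul_of_nonneg_left h2 hW.le
        linarith
      · have a1 : H ^ d * s ^ (d + 2) * s ≤
            H ^ ((d : ℝ) + 2 - 1 - c') * (H ^ (((d : ℝ) + 2 - 1) / 2) * H ^ (δ / 2)) := by
          rw [hsk, hHd, hs, ← Real.rpow_add hH0, ← Real.rpow_add hH0, ← Real.rpow_add hH0,
            ← Real.rpow_add hH0]
          exact key _ _ (by linarith)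
        exact a1.trans (by gcongr)
    · rw [min_eq_left h, mul_one]
      refine numA_high d hc hc0 hT0 hH0 hP hG (by positivity) hW.le hA h1 ?_ ?_
      · have a1 : T ≤ A * H ^ (1 - e) := by
          refine le_of_pow_le_pow_left₀ (n := d + 1) (by omega) (by positivity) (h1.trans ?_)
          have b1 : (H ^ (1 - e)) ^ (d + 1) = H ^ ((d : ℝ) + 1 - 1 / 25) := by
            rw [← Real.rpow_natCast, ← Real.rpow_mul hH0.le, ← he2]; push_cast; ring_nf
          rw [mul_pow, b1]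
          exact mul_le_mul (le_self_pow₀ hA (by omega)) h3 hP.le (by positivity)
        have a2 : H ^ (1 - e) * H ^ d ≤ H ^ ((d : ℝ) + 2 - 1 - c') := by
          rw [hHd, ← Real.rpow_add hH0]
          exact key _ _ (by linarith)
        calc _ ≤ A * H ^ (1 - e) * H ^ d := by gcongr
          _ ≤ _ := by rw [mul_assoc]; gcongr
      · have a1 : H ^ d * H ^ (1 : ℝ) ≤ H ^ ((d : ℝ) + 2 - 1 - c') * H ^ (δ / 2) := by
          rw [hHd, ← Real.rpow_add hH0, ← Real.rpow_add hH0]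
          exact key _ _ (by linarith)
        rwa [Real.rpow_one] at a1

end Pool.Agent.VW
end

-- part Pool.Agent.P.MP_b0ea37_nt.WMnumB
section

namespace Pool.Agent.VW

open Polynomial

lemma WMnumB_mu {H Sg S om q : ℝ} (hH : 0 < H) (h0 : 0 ≤ Sg) (hS : Sg ≤ S) (hq : 0 < q)
    (hom : q ≤ √om) : mu 2 H Sg om ≤ 1 + S ^ 2 / q + (S + S ^ 4 / H) := by
  unfold mu
  rw [if_pos rfl]
  gcongr

lemma WMnumB_core (d : ℕ) {c A H T P s w q M om : ℝ} (hc : 0 < c) (hc1 : c ≤ 1) (hA : 1 ≤ A)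
    (hT : 1 ≤ T) (hP : 0 < P) (hs : 1 ≤ s) (hw : 1 ≤ w) (hsw : s * w = H)
    (hTP : T ^ (d + 1) ≤ A * P) (hwP : w ^ (d + 1) ≤ 2 * P) (hq : 0 < q) (hom : q ≤ √om)
    (h1 : w ^ 2 ≤ M) (h2 : H ^ 2 / q ≤ M) (h3 : w * H ≤ M) (h4 : s ^ 2 * H ≤ M)
    (h5 : T * H ≤ A * M) (h6 : T ^ 2 ≤ A ^ 2 * M) :
    T ^ (d + 1 + 2 + d + 1) * H ^ d / ((c * min 1 (T / w)) ^ (d + 1 + 2) * P ^ 2) *
      mu 2 H (c * min 1 (T / w) * H / T) om ≤ 8 * A ^ 4 / c ^ (d + 1 + 2) * (H ^ d * M) := by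
  have hs0 : 0 < s := by linarith
  have hw0 : 0 < w := by linarith
  have hT0 : 0 < T := by linarith
  have hA0 : 0 < A := by linarith
  have hH : 0 < H := by rw [← hsw]; positivity
  have hM : 0 ≤ M := le_trans (by positivity) h1
  have a1 : A ≤ A ^ 4 := by simpa using pow_le_pow_right₀ hA (show 1 ≤ 4 by norm_num)
  have a2 : 1 ≤ A ^ 2 := one_le_pow₀ hA
  have a3 : A ≤ A ^ 2 := by nlinarith
  rcases le_total T w with h | h
  · rw [min_eq_right ((div_le_one hw0).mpr h)]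
    have e1 : c * (T / w) * H / T = c * s := by rw [← hsw]; field_simp
    have m1 := WMnumB_mu (om := om) hH (by positivity : 0 ≤ c * s)
      (mul_le_of_le_one_left hs0.le hc1) hq hom
    have e2 : T ^ (d + 1 + 2 + d + 1) * H ^ d / ((c * (T / w)) ^ (d + 1 + 2) * P ^ 2) =
        T ^ (d + 1) / P * (w ^ (d + 1) / P) * (w ^ 2 * H ^ d / c ^ (d + 1 + 2)) := by
      rw [mul_pow, div_pow]; field_simp; ring
    have b1 : T ^ (d + 1) / P ≤ A := (div_le_iff₀ hP).mpr hTP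
    have b2 : w ^ (d + 1) / P ≤ 2 := (div_le_iff₀ hP).mpr hwP
    have b3 : w ^ 2 * (1 + s ^ 2 / q + (s + s ^ 4 / H)) ≤ 4 * M := by
      have : w ^ 2 * (1 + s ^ 2 / q + (s + s ^ 4 / H)) =
          w ^ 2 + H ^ 2 / q + w * H + s ^ 2 * H := by
        rw [← hsw]; field_simp; ring
      linarith
    rw [e1, e2]
    calc _ ≤ A * 2 * (w ^ 2 * H ^ d / c ^ (d + 1 + 2)) * (1 + s ^ 2 / q + (s + s ^ 4 / H)) := by
          have := (one_le_mu 2 (om := om) hH.le (by positivity : 0 ≤ c * s))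
          gcongr
      _ = 2 * A / c ^ (d + 1 + 2) * (H ^ d * (w ^ 2 * (1 + s ^ 2 / q + (s + s ^ 4 / H)))) := by
          ring
      _ ≤ 2 * A ^ 4 / c ^ (d + 1 + 2) * (H ^ d * (4 * M)) := by gcongr
      _ = _ := by ring
  · rw [min_eq_left ((one_le_div hw0).mpr h), mul_one]
    have m1 := WMnumB_mu (om := om) (S := H / T) hH (by positivity : 0 ≤ c * H / T)
      (by rw [mul_div_assoc]; exact mul_le_of_le_one_left (by positivity) hc1) hq hom
    have e2 : T ^ (d + 1 + 2 + d + 1) * H ^ d / (c ^ (d + 1 + 2) * P ^ 2) =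
        (T ^ (d + 1) / P) ^ 2 * (T ^ 2 * H ^ d / c ^ (d + 1 + 2)) := by
      field_simp; ring
    have b1 : T ^ (d + 1) / P ≤ A := (div_le_iff₀ hP).mpr hTP
    have b2 : H ^ 3 / T ^ 2 ≤ s ^ 2 * H := by
      calc H ^ 3 / T ^ 2 ≤ H ^ 3 / w ^ 2 := by gcongr
        _ = s ^ 2 * H := by rw [← hsw]; field_simp
    have b3 : T ^ 2 * (1 + (H / T) ^ 2 / q + (H / T + (H / T) ^ 4 / H)) ≤ 4 * A ^ 2 * M := by
      have : T ^ 2 * (1 + (H / T) ^ 2 / q + (H / T + (H / T) ^ 4 / H)) =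
          T ^ 2 + H ^ 2 / q + T * H + H ^ 3 / T ^ 2 := by
        field_simp; ring
      have c1 : M ≤ A ^ 2 * M := le_mul_of_one_le_left hM a2
      have c2 : A * M ≤ A ^ 2 * M := by gcongr
      linarith
    rw [e2]
    calc _ ≤ A ^ 2 * (T ^ 2 * H ^ d / c ^ (d + 1 + 2)) *
          (1 + (H / T) ^ 2 / q + (H / T + (H / T) ^ 4 / H)) := by
          have := (one_le_mu 2 (om := om) hH.le (by positivity : 0 ≤ c * H / T))
          gcongr
      _ = A ^ 2 / c ^ (d + 1 + 2) *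
          (H ^ d * (T ^ 2 * (1 + (H / T) ^ 2 / q + (H / T + (H / T) ^ 4 / H)))) := by ring
      _ ≤ A ^ 2 / c ^ (d + 1 + 2) * (H ^ d * (4 * A ^ 2 * M)) := by gcongr
      _ = 4 * A ^ 4 / c ^ (d + 1 + 2) * (H ^ d * M) := by ring
      _ ≤ _ := by gcongr; norm_num

theorem num_two (n d j : ℕ) (hn : n = d + 1 + j) (hj : j = 2) (hd : 3 ≤ d) (δ : ℝ) (hδ : 0 < δ) :
    ∃ c' : ℝ, 0 < c' ∧ ∀ c₁ A K : ℝ, 0 < c₁ → c₁ ≤ 1 → 1 ≤ A → 1 ≤ K → ∃ K' H₀ : ℝ, 1 ≤ K' ∧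
      ∀ H T P₀ G : ℝ, H₀ ≤ H → 1 ≤ T → T ^ (d + 1) ≤ A * P₀ → H ^ muL n / 2 ≤ P₀ →
        P₀ ≤ H ^ ((d : ℝ) + 1 - 1 / 25) → 1 ≤ G → (j = 1 → H ^ (((n : ℝ) - 1) / 2) ≤ G * P₀) →
        ∃ lam : ℝ, 0 < lam ∧ lam ≤ c₁ ∧ lam ^ 2 * H / T ^ 2 ≤ c₁ ^ 2 ∧
          K * (lam * H / T) ^ n * H ^ j < P₀ ^ 2 ∧
          T ^ (n + d + 1) * H ^ d / (lam ^ n * P₀ ^ 2) * mu j H (lam * H / T) (H ^ δ * G ^ 2) ≤
            K' * H ^ ((n : ℝ) - 1 - c') := by
  subst hj
  have hd' : (3 : ℝ) ≤ d := by exact_mod_cast hd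
  have hN : (n : ℝ) = d + 3 := by rw [hn]; push_cast; ring
  obtain ⟨x, hx⟩ : ∃ x : ℝ, x = 1 / ((d : ℝ) + 3) := ⟨_, rfl⟩
  have x0 : 0 < x := by rw [hx]; positivity
  have x1 : x * (d + 3) = 1 := by rw [hx]; field_simp
  have x2 : x ≤ 1 / 6 := by nlinarith
  have hmu : ((d : ℝ) + 2) / 2 - 1 / 10 - 1 / 1000 ≤ muL n := by
    unfold muL
    rw [hN]
    have : ((d : ℝ) + 2) / 2 - 1 / 10 ≤ (d + 3) * (d + 3 - 2) / (2 * (d + 3 - 1)) := by
      rw [le_div_iff₀ (by linarith)]; nlinarith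
    linarith
  obtain ⟨c', hc'⟩ : ∃ c' : ℝ, c' = min (δ / 2) (x / 25) := ⟨_, rfl⟩
  have c0 : 0 < c' := by rw [hc']; exact lt_min (by linarith) (by linarith)
  have c1 : c' ≤ δ / 2 := hc' ▸ min_le_left _ _
  have c2 : c' ≤ x / 25 := hc' ▸ min_le_right _ _
  refine ⟨c', c0, fun c A K hc hc1 hA hK => ?_⟩
  obtain ⟨H₁, hH₁⟩ := Filter.eventually_atTop.mp
    ((tendsto_rpow_atTop (by norm_num : (0 : ℝ) < 1 / 25)).eventually_gt_atTop (4 * K))
  refine ⟨8 * A ^ 4 / c ^ n, max 1 H₁, ?_, fun H T P G hH hT hTP hP1 hP2 hG _ => ?_⟩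
  · rw [le_div_iff₀ (by positivity)]
    have := pow_le_one₀ (n := n) hc.le hc1
    have := one_le_pow₀ (n := 4) hA
    linarith
  have hH1 : 1 ≤ H := (le_max_left _ _).trans hH
  have hK1 := hH₁ H ((le_max_right _ _).trans hH)
  have hH0 : 0 < H := by linarith
  have hT0 : 0 < T := by linarith
  have hP0 : 0 < P := lt_of_lt_of_le (by positivity) hP1
  have mono : ∀ {a b : ℝ}, a ≤ b → H ^ a ≤ H ^ b := fun h => Real.rpow_le_rpow_of_exponent_le hH1 h
  have pw : ∀ (a : ℝ) (m : ℕ), (H ^ a) ^ m = H ^ (a * m) := fun a m =>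
    (Real.rpow_mul_natCast hH0.le a m).symm
  have ad : ∀ a : ℝ, H ^ a * H = H ^ (a + 1) := fun a => (Real.rpow_add_one hH0.ne' a).symm
  obtain ⟨s, hs⟩ : ∃ s : ℝ, s = H ^ (1 / 2 - x / 4) := ⟨_, rfl⟩
  obtain ⟨w, hw⟩ : ∃ w : ℝ, w = H ^ (1 / 2 + x / 4) := ⟨_, rfl⟩
  have s1 : 1 ≤ s := hs ▸ Real.one_le_rpow hH1 (by linarith)
  have w1 : 1 ≤ w := hw ▸ Real.one_le_rpow hH1 (by linarith)
  have sw : s * w = H := by
    rw [hs, hw, ← Real.rpow_add hH0]
    norm_num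
  have w0 : 0 < w := by linarith
  have w2 : H ≤ w ^ 2 := by
    rw [hw, pw]
    calc H = H ^ (1 : ℝ) := (Real.rpow_one H).symm
      _ ≤ _ := mono (by push_cast; linarith)
  have l1 : min 1 (T / w) ≤ T / w := min_le_right _ _
  have l0 : 0 < min 1 (T / w) := lt_min one_pos (by positivity)
  refine ⟨c * min 1 (T / w), by positivity, mul_le_of_le_one_right hc.le (min_le_left _ _),
    ?_, ?_, ?_⟩
  · calc _ ≤ (c * (T / w)) ^ 2 * w ^ 2 / T ^ 2 := by gcongr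
      _ = c ^ 2 := by field_simp
  · have e1 : c * min 1 (T / w) * H / T ≤ s := by
      calc _ ≤ 1 * (T / w) * H / T := by gcongr
        _ = s := by rw [← sw]; field_simp
    have e2 : s ^ n * H ^ 2 * H ^ (1 / 25 : ℝ) ≤ (H ^ muL n) ^ 2 := by
      rw [hs, pw, pw, ← Real.rpow_natCast H 2, ← Real.rpow_add hH0, ← Real.rpow_add hH0]
      refine mono ?_
      rw [hN]
      push_cast
      nlinarith
    have e3 : (H ^ muL n / 2) ^ 2 ≤ P ^ 2 := by gcongr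
    have e4 : 0 < s ^ n * H ^ 2 := by positivity
    calc _ ≤ K * s ^ n * H ^ 2 := by gcongr
      _ = s ^ n * H ^ 2 * (4 * K) / 4 := by ring
      _ < s ^ n * H ^ 2 * H ^ (1 / 25 : ℝ) / 4 := by gcongr
      _ ≤ (H ^ muL n / 2) ^ 2 := by rw [div_pow]; linarith
      _ ≤ _ := e3
  · have eM : H ^ ((n : ℝ) - 1 - c') = H ^ d * H ^ (2 - c') := by
      rw [← Real.rpow_natCast H d, ← Real.rpow_add hH0, hN]
      congr 1; ring
    have hTt : T ≤ A * H ^ (1 - c') := by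
      refine le_of_pow_le_pow_left₀ (n := d + 1) (by omega) (by positivity) ?_
      rw [mul_pow, pw]
      have f1 : A ≤ A ^ (d + 1) := le_self_pow₀ hA (by omega)
      have f2 : P ≤ H ^ ((1 - c') * ((d + 1 : ℕ) : ℝ)) := by
        refine hP2.trans (mono ?_)
        push_cast
        nlinarith
      exact hTP.trans (by gcongr)
    have h5 : T * H ≤ A * H ^ (2 - c') := by
      calc T * H ≤ A * H ^ (1 - c') * H := by gcongr
        _ = _ := by rw [mul_assoc, ad]; congr 2; ring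
    rw [eM, hn]
    refine WMnumB_core d (s := s) (q := H ^ (δ / 2)) hc hc1 hA hT hP0 s1 w1 sw hTP ?_
      (by positivity) ?_ ?_ ?_ ?_ ?_ h5 ?_
    · have : w ^ (d + 1) ≤ H ^ muL n := by
        rw [hw, pw]
        refine mono ?_
        push_cast
        nlinarith
      linarith
    · refine Real.le_sqrt_of_sq_le ?_
      rw [pw]
      have : H ^ (δ / 2 * ((2 : ℕ) : ℝ)) = H ^ δ := by congr 1; push_cast; ring
      rw [this]
      exact le_mul_of_one_le_right (by positivity) (one_le_pow₀ hG)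
    · rw [hw, pw]; exact mono (by push_cast; linarith)
    · rw [← Real.rpow_natCast H 2, ← Real.rpow_sub hH0]; exact mono (by push_cast; linarith)
    · rw [hw, ad]; exact mono (by linarith)
    · rw [hs, pw, ad]; exact mono (by push_cast; linarith)
    · calc T ^ 2 ≤ (A * H ^ (1 - c')) ^ 2 := by gcongr
        _ = A ^ 2 * H ^ ((1 - c') * ((2 : ℕ) : ℝ)) := by rw [mul_pow, pw]
        _ ≤ _ := by
          have := mono (a := (1 - c') * ((2 : ℕ) : ℝ)) (b := 2 - c') (by push_cast; linarith)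
          gcongr

end Pool.Agent.VW
end

-- part Pool.Agent.P.MP_b0ea37_nt.WMtop
section

namespace Pool.Agent.VW

open Polynomial

/-- the exceptional case of a dyadic class is an exceptional polynomial -/
theorem WMtop_exc {n d j : ℕ} (hn : n = d + 1 + j) {δ K A₁ A H T P₀ G : ℝ} {f : ℤ[X]}
    (hf : Irr f) (hH : 1 ≤ H) (hT : 1 ≤ T) (hK : 1 ≤ K) (hKA : K ≤ A) (h2 : 2 ≤ A)
    (hA : 2 ^ n * A₁ ≤ A) (hP : 0 < P₀) (hTP : T ^ (d + 1) ≤ 2 * A₁ * P₀)
    (hmu : H ^ muL n / 2 ≤ P₀)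
    (hG : G = 1 ∨ (j = 1 ∧ 1 ≤ G ∧ G = H ^ (((n : ℝ) - 1) / 2) / P₀))
    (h : Exc n j K H T (H ^ δ * G ^ 2) f) : Exq n δ A H f := by
  have hH0 : 0 < H := by linarith
  have hd : 0 < H ^ δ := Real.rpow_pos_of_pos hH0 _
  rcases hG with rfl | ⟨rfl, hG1, hG⟩
  · refine Or.inl (h.1.mono ?_)
    rw [one_pow, mul_one]
    gcongr
  · have hs : √(H ^ δ * G ^ 2) = H ^ (δ / 2) * G := by
      rw [Real.sqrt_mul hd.le, Real.sqrt_sq (by linarith), Real.sqrt_eq_rpow,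
        ← Real.rpow_mul hH0.le, mul_one_div]
    have hm : 0 < H ^ muL n := Real.rpow_pos_of_pos hH0 _
    have he : 0 < H ^ (((n : ℝ) - 1) / 2) := Real.rpow_pos_of_pos hH0 _
    have hh : 0 < H ^ (δ / 2) := Real.rpow_pos_of_pos hH0 _
    refine Or.inr ⟨hf, G, 2 * T, hG1, ?_, by linarith, ?_,
      (h.2 rfl).mono' (by gcongr) le_rfl ?_ ?_⟩
    · rw [hG, Real.rpow_sub hH0, div_le_iff₀ hP]
      calc H ^ (((n : ℝ) - 1) / 2)
          = 2 * (H ^ (((n : ℝ) - 1) / 2) / H ^ muL n) * (H ^ muL n / 2) := by field_simp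
        _ ≤ _ := by gcongr
    · have e : n - 1 = d + 1 := by omega
      have e2 : (2 : ℝ) ^ n = 2 ^ (d + 1) * 2 := by rw [hn, pow_succ]
      rw [e, hG, mul_pow, ← mul_div_assoc, div_le_iff₀ hP]
      calc 2 ^ (d + 1) * T ^ (d + 1) * H ^ (((n : ℝ) - 1) / 2)
          ≤ 2 ^ (d + 1) * (2 * A₁ * P₀) * H ^ (((n : ℝ) - 1) / 2) := by gcongr
        _ = 2 ^ n * A₁ * H ^ (((n : ℝ) - 1) / 2) * P₀ := by rw [e2]; ring
        _ ≤ _ := by gcongr
    · rw [hs]
      gcongr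
      linarith
    · gcongr
      linarith

theorem WMtop_muL {n : ℕ} (hn : 5 ≤ n) : 0 < muL n := by
  have h : (5 : ℝ) ≤ n := by exact_mod_cast hn
  unfold muL
  rw [sub_pos, lt_div_iff₀ (by linarith)]
  nlinarith

theorem ps_top (n d j g : ℕ) (hd : d = 2 * g + 3) (hn : n = d + 1 + j) (hj : j = 1 ∨ j = 2)
    (δ : ℝ) (hδ : 0 < δ) : ∃ A : ℝ, PS n fun H f => (Irr f ∧ Prim f ∧ ∃ (P : ℕ) (r : ℤ), P.Prime ∧
      H ^ muL n < P ∧ (P : ℝ) ≤ H ^ ((d : ℝ) + 1 - 1 / 25) ∧ Wk P r f) ∧ ¬ Exq n δ A H f := by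
  have hd3 : 3 ≤ d := by omega
  have hn5 : 5 ≤ n := by omega
  obtain ⟨c', hc', hnum⟩ := hj.elim (fun h => num_one n d j hn h hd3 δ hδ)
    (fun h => num_two n d j hn h hd3 δ hδ)
  have hε : 0 < c' / 4 := by positivity
  have hn0 : (0 : ℝ) < n := by exact_mod_cast (by omega : 0 < n)
  obtain ⟨c₁, hc₁, hc₁', K, hK, hty⟩ := ty_all n d j g hd hn hj hn5 _ hε
  obtain ⟨A₁, P₁, hA₁, hdat⟩ := exists_dat n d (by omega) (by omega)
  obtain ⟨K', H₀, hK', hnum⟩ := hnum c₁ (2 * A₁) K hc₁ hc₁' (by linarith) hK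
  obtain ⟨C₁, hC₁, hdy₁⟩ := cnt_dyadic _ hε
  obtain ⟨C₂, hC₂, hdy₂⟩ := cnt_dyadic _ (div_pos hε hn0)
  obtain ⟨H₁, hH₁, hP₁⟩ := exists_pow_ge P₁ _ (WMtop_muL hn5)
  have hpw : (0 : ℝ) ≤ 2 ^ n * A₁ := by positivity
  refine ⟨K + 2 ^ n * A₁ + 2, PS.of_lt ((n : ℝ) - 1 - c' / 4)
    (C₁ * A₁ ^ (c' / 4) * C₂ * (K * A₁ ^ (c' / 4) * K')) (max H₀ H₁) (by linarith) fun H hH => ?_⟩
  have hH0 : H₀ ≤ H := (le_max_left _ _).trans hH
  have hH1 : H₁ ≤ H := (le_max_right _ _).trans hH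
  have h1 : 1 ≤ H := hH₁.trans hH1
  have hp : 0 < H := by linarith
  have hZ : H ≤ A₁ * H := le_mul_of_one_le_left hp.le hA₁
  obtain ⟨R, hR⟩ : ∃ R : ℤ[X] → Prop, ∀ f, R f ↔ Box n H f ∧ (Irr f ∧ Prim f ∧
      ∃ (P : ℕ) (r : ℤ), P.Prime ∧ H ^ muL n < P ∧ (P : ℝ) ≤ H ^ ((d : ℝ) + 1 - 1 / 25) ∧
        Wk P r f) ∧ ¬ Exq n δ (K + 2 ^ n * A₁ + 2) H f := ⟨_, fun _ => Iff.rfl⟩
  have hex : ∀ f, R f → ∃ D : Dat, D.f = f ∧ Ok n d D ∧ D.v.supNorm ^ (d + 1) ≤ A₁ * D.P ∧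
      H ^ muL n < D.P ∧ (D.P : ℝ) ≤ H ^ ((d : ℝ) + 1 - 1 / 25) := by
    intro f hf
    obtain ⟨hb, ⟨hi, -, P, r, hP, hl, hu, hw⟩, -⟩ := (hR f).1 hf
    obtain ⟨D, e1, e2, e3, e4⟩ := hdat f P r hb.1 hb.2.1 hi hP
      (by exact_mod_cast (hP₁ H hH1).trans hl.le) hw
    exact ⟨D, e1, e3, e2 ▸ e4, e2 ▸ hl, e2 ▸ hu⟩
  have _ : Nonempty Dat := ⟨⟨0, 0, 0, 0⟩⟩
  choose! sec hsec using hex
  have hup : H ^ ((d : ℝ) + 1 - 1 / 25) ≤ H ^ (d + 1) := by
    rw [← Real.rpow_natCast]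
    exact Real.rpow_le_rpow_of_exponent_le h1 (by push_cast; linarith)
  have hB : 0 ≤ K * (A₁ * H) ^ (c' / 4) * (K' * H ^ ((n : ℝ) - 1 - c')) := by positivity
  have hQ := Cnt.prod (Q := fun (_ : ℕ) (b : ℕ) => (2 : ℝ) ^ b ≤ H ^ n) (hdy₁ _ (h1.trans hZ))
    (by positivity) fun _ _ => hdy₂ (H ^ n) (one_le_pow₀ h1)
  refine (Cnt.fibre (P := fun (y : ℕ × ℕ) (f : ℤ[X]) => R f ∧ (2 : ℝ) ^ y.1 ≤ (sec f).v.supNorm ∧
    (sec f).v.supNorm < 2 * 2 ^ y.1 ∧ (2 : ℝ) ^ y.2 ≤ (sec f).P ∧ ((sec f).P : ℝ) < 2 * 2 ^ y.2)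
    hQ hB ?_).mono (fun f hf => ?_) (le_of_eq ?_)
  · rintro ⟨a, b⟩ ⟨ha, -⟩
    refine Cnt.of_mem hB ?_
    rintro f₀ ⟨hf₀, i1, -, i3, i4⟩
    obtain ⟨-, -, j1, j2, j3⟩ := hsec f₀ hf₀
    have hT : (1 : ℝ) ≤ 2 ^ a := one_le_pow₀ one_le_two
    have hP : (1 : ℝ) ≤ 2 ^ b := one_le_pow₀ one_le_two
    have hP' : (0 : ℝ) < 2 ^ b := by positivity
    have k1 : ((2 : ℝ) ^ a) ^ (d + 1) ≤ 2 * A₁ * 2 ^ b :=
      calc ((2 : ℝ) ^ a) ^ (d + 1) ≤ (sec f₀).v.supNorm ^ (d + 1) := by gcongr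
        _ ≤ A₁ * (2 * 2 ^ b) := j1.trans (by gcongr)
        _ = _ := by ring
    have k2 : H ^ muL n / 2 ≤ 2 ^ b := by linarith
    obtain ⟨G, hG1, hG2, hG3⟩ : ∃ G : ℝ, 1 ≤ G ∧
        (j = 1 → H ^ (((n : ℝ) - 1) / 2) ≤ G * 2 ^ b) ∧
        (G = 1 ∨ (j = 1 ∧ 1 ≤ G ∧ G = H ^ (((n : ℝ) - 1) / 2) / 2 ^ b)) := by
      by_cases hj1 : j = 1
      · rcases le_total (H ^ (((n : ℝ) - 1) / 2) / 2 ^ b) 1 with h | h
        · exact ⟨1, le_rfl, fun _ => (div_le_iff₀ hP').1 h, Or.inl rfl⟩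
        · exact ⟨_, h, fun _ => (div_mul_cancel₀ _ hP'.ne').ge, Or.inr ⟨hj1, h, rfl⟩⟩
      · exact ⟨1, le_rfl, fun h => absurd h hj1, Or.inl rfl⟩
    obtain ⟨lam, l1, l2, l3, l4, l5⟩ := hnum H (2 ^ a) (2 ^ b) G hH0 hT k1 k2 (i3.trans j3) hG1 hG2
    have hom : 1 ≤ H ^ δ * G ^ 2 :=
      one_le_mul_of_one_le_of_one_le (Real.one_le_rpow h1 hδ.le) (one_le_pow₀ hG1)
    have hc := hty (A₁ * H) H (2 ^ a) (2 ^ b) lam (H ^ δ * G ^ 2)
      (fun D => ∃ f, (R f ∧ (2 : ℝ) ^ a ≤ (sec f).v.supNorm ∧ (sec f).v.supNorm < 2 * 2 ^ a ∧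
        (2 : ℝ) ^ b ≤ (sec f).P ∧ ((sec f).P : ℝ) < 2 * 2 ^ b) ∧ sec f = D)
      h1 hZ hT ha hP l1 l2 hom l3 l4 (by
        rintro _ ⟨f, ⟨hf, m1, m2, m3, -⟩, rfl⟩
        obtain ⟨e1, e2, -⟩ := hsec f hf
        obtain ⟨hb, ⟨hi, hpr, -⟩, hne⟩ := (hR f).1 hf
        refine ⟨e2, ?_, ?_, ?_, m1, m2.le, m3, ?_⟩ <;> rw [e1]
        · exact hi
        · exact hpr.nq hb.1 (by rw [hb.2.1]; omega) hi
        · exact hb
        · exact fun h => hne (WMtop_exc hn hi h1 hT hK (by linarith) (by linarith) (by linarith)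
            hP' k1 k2 hG3 h)) (by
        rintro _ _ ⟨f, hf, rfl⟩ ⟨f', hf', rfl⟩ e
        rw [(hsec f hf.1).1, (hsec f' hf'.1).1] at e
        rw [e])
    refine (hc.inj sec (fun f hf => ⟨f, hf, rfl⟩) fun f f' hf hf' e => ?_).mono (fun _ h => h) ?_
    · rw [← (hsec f hf.1).1, ← (hsec f' hf'.1).1, e]
    · rw [mul_assoc]
      exact mul_le_mul_of_nonneg_left l5 (by positivity)
  · have hf' := (hR f).2 hf
    obtain ⟨-, e2, j1, -, j3⟩ := hsec f hf'
    have hv : 1 ≤ (sec f).v.supNorm := one_le_sup (leadingCoeff_ne_zero.1 e2.1.2.2.1.ne')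
    have hP : (1 : ℝ) ≤ (sec f).P := by exact_mod_cast e2.2.2.2.1.one_le
    obtain ⟨a, a1, a2⟩ := exists_dyadic _ hv
    obtain ⟨b, b1, b2⟩ := exists_dyadic _ hP
    refine ⟨(a, b), ⟨a1.trans ?_, b1.trans (j3.trans (hup.trans ?_))⟩, hf', a1, a2, b1, b2⟩
    · refine le_of_pow_le_pow_left₀ (Nat.succ_ne_zero d) (by positivity) (j1.trans ?_)
      rw [mul_pow]
      exact mul_le_mul (le_self_pow₀ hA₁ (Nat.succ_ne_zero d)) (j3.trans hup) (by positivity)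
        (by positivity)
    · exact pow_le_pow_right₀ h1 (by omega)
  · have e1 : (H ^ n) ^ (c' / 4 / n) = H ^ (c' / 4) := by
      rw [← Real.rpow_natCast, ← Real.rpow_mul hp.le, mul_div_cancel₀ _ hn0.ne']
    have e2 : H ^ ((n : ℝ) - 1 - c' / 4) =
        H ^ (c' / 4) * H ^ (c' / 4) * H ^ (c' / 4) * H ^ ((n : ℝ) - 1 - c') := by
      rw [← Real.rpow_add hp, ← Real.rpow_add hp, ← Real.rpow_add hp]
      congr 1
      ring
    rw [e1, e2, Real.mul_rpow (by linarith) hp.le]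
    ring

end Pool.Agent.VW
end

-- part Pool.Agent.P.MP_b0ea37_nt.WMcc1
section

namespace Pool.Agent.VW

open Polynomial

theorem cc1_res_prod {S : Type} [CommRing S] [Nontrivial S] {n : ℕ} (θ : Fin n → S) (G : S[X])
    (m : ℕ) (hm : G.natDegree ≤ m) :
    resultant (∏ i, (X - C (θ i))) G n m = ∏ i, G.eval (θ i) := by
  have h1 : (∏ i : Fin n, (X - C (θ i))).natDegree = n := by
    rw [natDegree_prod_of_monic _ _ (fun i _ => monic_X_sub_C (θ i))]
    simp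
  have h2 := resultant_prod_left Finset.univ (fun i : Fin n => X - C (θ i)) G m (by simp) hm
  rw [h1] at h2
  rw [h2]
  refine Finset.prod_congr rfl fun i _ => ?_
  rw [natDegree_X_sub_C, resultant_X_sub_C_left _ _ _ hm]

/-- the coefficients of the characteristic polynomial of `a + s q` are rational polynomials in `s` -/
theorem cc1_res {n : ℕ} {f : ℤ[X]} {θ : Fin n → ℂ} (h : Roots (up ℂ f) θ) (a q : ℚ[X]) :
    ∃ P : ℚ[X][X], ∀ (s : ℂ) (j : ℕ),
      (∏ i, (X - C (aeval (θ i) a + s * aeval (θ i) q))).coeff j = aeval s (P.coeff j) := by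
  let ι : ℚ →+* ℚ[X][X] := (C : ℚ[X] →+* ℚ[X][X]).comp C
  let G : ℚ[X][X][X] := C X - a.map ι - C (C X) * q.map ι
  refine ⟨resultant (up ℚ[X][X] f) G n G.natDegree, fun s j => ?_⟩
  let ψ : ℚ[X] →+* ℂ := (aeval s : ℚ[X] →ₐ[ℚ] ℂ).toRingHom
  let φ : ℚ[X][X] →+* ℂ[X] := mapRingHom ψ
  have e1 : (up ℚ[X][X] f).map φ = ∏ i, (X - C (C (θ i))) := by
    have : (up ℚ[X][X] f).map φ = (up ℂ f).map C := by
      simp only [up, Polynomial.map_map]
      congr 1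
      exact Subsingleton.elim _ _
    rw [this, h, Polynomial.map_prod]
    simp
  have e2 : ∀ (b : ℚ[X]) (z : ℂ), ((b.map ι).map φ).eval (C z) = C (aeval z b) := by
    intro b z
    have : φ.comp ι = (C : ℂ →+* ℂ[X]).comp (algebraMap ℚ ℂ) := Subsingleton.elim _ _
    rw [Polynomial.map_map, this, ← Polynomial.map_map, eval_map, eval₂_hom, eval_map_algebraMap]
  have e3 : φ (resultant (up ℚ[X][X] f) G n G.natDegree) =
      ∏ i, (X - C (aeval (θ i) a + s * aeval (θ i) q)) := by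
    rw [← resultant_map_map, e1, cc1_res_prod _ _ _ natDegree_map_le]
    refine Finset.prod_congr rfl fun i _ => ?_
    simp only [G, Polynomial.map_sub, Polynomial.map_mul, map_C, eval_sub, eval_mul, eval_C, e2]
    simp [φ, ψ]
    ring
  rw [← e3]
  simp [φ, ψ]

theorem cc1_int {ι : Type} (s : Finset ι) (u : ι → ℂ) (hu : ∀ i ∈ s, IsIntegral ℤ (u i)) (j : ℕ) :
    IsIntegral ℤ ((∏ i ∈ s, (X - C (u i))).coeff j) := by
  classical
  induction s using Finset.induction_on generalizing j with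
  | empty =>
    simp only [Finset.prod_empty, coeff_one]
    split_ifs
    · exact isIntegral_one
    · exact isIntegral_zero
  | insert a s ha ih =>
    rw [Finset.prod_insert ha, coeff_mul]
    refine IsIntegral.sum _ fun x _ => IsIntegral.mul ?_ (ih (fun i hi => hu i (by simp [hi])) _)
    rw [coeff_sub, coeff_X, coeff_C]
    refine IsIntegral.sub ?_ ?_
    · split_ifs
      · exact isIntegral_one
      · exact isIntegral_zero
    · split_ifs
      · exact hu a (by simp)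
      · exact isIntegral_zero

theorem cc1_int_of_rat (r : ℚ) (h : IsIntegral ℤ (r : ℂ)) : ∃ z : ℤ, (z : ℂ) = r := by
  have h1 : IsIntegral ℤ r := by
    have : IsIntegral ℤ (algebraMap ℚ ℂ r) := by simpa using h
    exact (isIntegral_algebraMap_iff (algebraMap ℚ ℂ).injective).1 this
  obtain ⟨z, hz⟩ := (IsIntegrallyClosed.isIntegral_iff (R := ℤ) (K := ℚ)).1 h1
  exact ⟨z, by rw [← hz]; simp⟩

theorem cc1_pm (P : ℚ[X]) (s : ℂ) (D : ℤ) (hs : s ^ 2 = D) :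
    ∃ a b : ℚ, aeval s P = a + b * s ∧ aeval (-s) P = a - b * s := by
  induction P using Polynomial.induction_on' with
  | add p q hp hq =>
    obtain ⟨a, b, h1, h2⟩ := hp
    obtain ⟨a', b', h1', h2'⟩ := hq
    refine ⟨a + a', b + b', ?_, ?_⟩
    · rw [map_add, h1, h1']; push_cast; ring
    · rw [map_add, h2, h2']; push_cast; ring
  | monomial k c =>
    have hk : ∃ a b : ℚ, s ^ k = a + b * s ∧ (-s) ^ k = a - b * s := by
      induction k with
      | zero => exact ⟨1, 0, by simp, by simp⟩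
      | succ k ih =>
        obtain ⟨a, b, h1, h2⟩ := ih
        refine ⟨b * D, a, ?_, ?_⟩
        · rw [pow_succ, h1]; push_cast; rw [← hs]; ring
        · rw [pow_succ, h2]; push_cast; rw [← hs]; ring
    obtain ⟨a, b, h1, h2⟩ := hk
    refine ⟨c * a, c * b, ?_, ?_⟩
    · rw [aeval_monomial, h1]; push_cast; simp; ring
    · rw [aeval_monomial, h2]; push_cast; simp; ring

theorem cc1_reflect {ι : Type} (s : Finset ι) (u w : ι → ℂ) (D : ℂ) (h : ∀ i ∈ s, u i * w i = D) :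
    reflect s.card ((∏ i ∈ s, (X - C (w i))).comp (C D * X)) =
      C (∏ i ∈ s, (-w i)) * ∏ i ∈ s, (X - C (u i)) := by
  classical
  induction s using Finset.induction_on with
  | empty => simp
  | insert a s ha ih =>
    have hd : ((∏ i ∈ s, (X - C (w i))).comp (C D * X)).natDegree ≤ s.card := by
      refine natDegree_comp_le.trans ?_
      rw [natDegree_prod_of_monic _ _ (fun i _ => monic_X_sub_C (w i))]
      have : (C D * X : ℂ[X]).natDegree ≤ 1 := by compute_degree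
      simpa using Nat.mul_le_mul_left s.card this
    have hd1 : ((X - C (w a)).comp (C D * X) : ℂ[X]).natDegree ≤ 1 := by
      simp only [sub_comp, X_comp, C_comp]
      compute_degree
    rw [Finset.prod_insert ha, Finset.prod_insert ha, Finset.prod_insert ha, mul_comp,
      Finset.card_insert_of_notMem ha, add_comm, reflect_mul _ _ hd1 hd,
      ih fun i hi => h i (by simp [hi])]
    have : reflect 1 ((X - C (w a)).comp (C D * X) : ℂ[X]) = C (-w a) * (X - C (u a)) := by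
      simp only [sub_comp, X_comp, C_comp, reflect_sub, reflect_C_mul, reflect_one_X, reflect_C]
      rw [← h a (by simp)]
      simp only [map_mul, map_neg]
      ring
    rw [this, map_mul]
    ring

/-- low coefficients of one product from the high coefficients of the other -/
theorem cc1_sym {n : ℕ} (u w : Fin n → ℂ) (D : ℂ) (h : ∀ i, u i * w i = D) (j : ℕ) (hj : j ≤ n) :
    (∏ i, (X - C (w i))).coeff 0 * (∏ i, (X - C (u i))).coeff j =
      (∏ i, (X - C (w i))).coeff (n - j) * D ^ (n - j) := by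
  have h1 := congrArg (fun p => coeff p j) (cc1_reflect Finset.univ u w D fun i _ => h i)
  simp only [Finset.card_univ, Fintype.card_fin, coeff_reflect, revAt_le hj, coeff_C_mul,
    comp_C_mul_X_coeff] at h1
  rw [h1, coeff_zero_prod]
  simp

theorem cc1_transfer {n : ℕ} (u u' : Fin n → ℂ)
    (h : ∏ i, (X - C (u i)) = ∏ i, (X - C (u' i))) (φ : ℂ → ℂ) :
    ∏ i, (X - C (φ (u i))) = ∏ i, (X - C (φ (u' i))) := by
  have key : ∀ v : Fin n → ℂ, ∏ i, (X - C (φ (v i))) =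
      (((∏ i, (X - C (v i))).roots).map fun z => X - C (φ z)).prod := by
    intro v
    have : (∏ i, (X - C (v i))) = ((Finset.univ.val.map v).map fun a => X - C a).prod := by
      rw [Multiset.map_map]; rfl
    rw [this, roots_multiset_prod_X_sub_C, Multiset.map_map]
    rfl
  rw [key, key, h]

end Pool.Agent.VW
end

-- part Pool.Agent.P.MP_b0ea37_nt.WMcc2
section

namespace Pool.Agent.VW

open Polynomial

theorem cc2_near (a : ℤ) (z : ℂ) (R : ℝ) (h : ‖(a : ℂ) - z‖ ≤ R) : |(a : ℝ) - z.re| ≤ R := by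
  have := Complex.abs_re_le_norm ((a : ℂ) - z)
  simp only [Complex.sub_re, Complex.intCast_re] at this
  exact this.trans h

theorem cc2_pair (s : ℂ) (S T₁ T₂ : ℝ) (hs : s ≠ 0) (hS : ‖s‖ ≤ S) (hS1 : 1 ≤ S) (h₁ : 1 ≤ T₁)
    (h₂ : 1 ≤ T₂) :
    Cnt (fun z : ℤ × ℤ => ∃ e e' : ℂ, ‖e‖ ≤ T₁ ∧ ‖e'‖ ≤ T₂ ∧ (z.1 : ℂ) = s * (e - e') ∧
      (z.2 : ℂ) = e + e') (25 * S * (T₁ * T₂)) := by
  have hb : Cnt (fun b : ℤ => |(b : ℝ)| ≤ S * (T₁ + T₂)) (2 * (S * (T₁ + T₂)) + 1) :=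
    cnt_int_abs _ (by positivity)
  have hz : ∀ (z : ℤ × ℤ) (e e' : ℂ), ‖e‖ ≤ T₁ → ‖e'‖ ≤ T₂ → (z.1 : ℂ) = s * (e - e') →
      |(z.1 : ℝ)| ≤ S * (T₁ + T₂) := by
    intro z e e' he he' h
    rw [← Complex.norm_intCast, h, norm_mul]
    exact mul_le_mul hS ((norm_sub_le _ _).trans (add_le_add he he')) (norm_nonneg _) (by linarith)
  rcases le_total T₁ T₂ with h | h
  · refine (hb.prod (Q := fun b a : ℤ => |(a : ℝ) - (-(b : ℂ) / s).re| ≤ 2 * T₁)
      (B' := 2 * (2 * T₁) + 1) (by positivity)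
      fun b _ => cnt_int_near _ _ (by positivity)).mono ?_ ?_
    · rintro z ⟨e, e', he, he', h1, h2⟩
      refine ⟨hz z e e' he he' h1, cc2_near _ _ _ ?_⟩
      have : (z.2 : ℂ) - -(z.1 : ℂ) / s = 2 * e := by rw [h1, h2]; field_simp; ring
      rw [this, norm_mul]
      simp only [Complex.norm_ofNat]
      linarith
    · have a1 : 2 * (S * (T₁ + T₂)) + 1 ≤ 5 * (S * T₂) := by nlinarith
      have a2 : 2 * (2 * T₁) + 1 ≤ 5 * T₁ := by linarith
      calc _ ≤ (5 * (S * T₂)) * (5 * T₁) := mul_le_mul a1 a2 (by positivity) (by positivity)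
        _ = _ := by ring
  · refine (hb.prod (Q := fun b a : ℤ => |(a : ℝ) - ((b : ℂ) / s).re| ≤ 2 * T₂)
      (B' := 2 * (2 * T₂) + 1) (by positivity)
      fun b _ => cnt_int_near _ _ (by positivity)).mono ?_ ?_
    · rintro z ⟨e, e', he, he', h1, h2⟩
      refine ⟨hz z e e' he he' h1, cc2_near _ _ _ ?_⟩
      have : (z.2 : ℂ) - (z.1 : ℂ) / s = 2 * e' := by rw [h1, h2]; field_simp; ring
      rw [this, norm_mul]
      simp only [Complex.norm_ofNat]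
      linarith
    · have a1 : 2 * (S * (T₁ + T₂)) + 1 ≤ 5 * (S * T₁) := by nlinarith
      have a2 : 2 * (2 * T₂) + 1 ≤ 5 * T₂ := by linarith
      calc _ ≤ (5 * (S * T₁)) * (5 * T₂) := mul_le_mul a1 a2 (by positivity) (by positivity)
        _ = _ := by ring

theorem cc2_root {n : ℕ} {f : ℤ[X]} {θ : Fin n → ℂ} (h : Roots (up ℂ f) θ) (i : Fin n) :
    aeval (θ i) f = 0 := by
  have := (h.eval_eq_zero_iff (θ i)).2 ⟨i, rfl⟩
  rwa [up, ← algebraMap_int_eq, eval_map_algebraMap] at this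

theorem cc2_up (z : ℂ) (g : ℤ[X]) : aeval z (up ℚ g) = aeval z g := by
  rw [up, ← algebraMap_int_eq, aeval_map_algebraMap]

theorem cc2_sq {n : ℕ} {f c : ℤ[X]} {θ : Fin n → ℂ} (h : Roots (up ℂ f) θ) {q : ℚ[X]}
    (hq : up ℚ f ∣ q ^ 2 + up ℚ c) (i : Fin n) : (aeval (θ i) q) ^ 2 = -aeval (θ i) c := by
  obtain ⟨g, hg⟩ := hq
  have := congrArg (aeval (θ i)) hg
  rw [map_add, map_mul, map_pow, cc2_up, cc2_up, cc2_root h, zero_mul] at this
  linear_combination this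

theorem cc2_coeff_le {n : ℕ} (u : Fin n → ℂ) (j : ℕ) :
    ‖(∏ i, (X - C (u i))).coeff j‖ ≤ 2 ^ n * ∏ i, max 1 ‖u i‖ := by
  have := sup_prod_X_sub_C Finset.univ u
  rw [Finset.card_univ, Fintype.card_fin] at this
  exact (le_supNorm _ j).trans this

theorem cc2_one_le {n : ℕ} (u : Fin n → ℂ) : 1 ≤ ∏ i, max 1 ‖u i‖ :=
  Finset.one_le_prod fun _ _ => le_max_left _ _

theorem cc2_coeff_abs (c : ℤ[X]) (j : ℕ) : ‖((c.coeff j : ℤ) : ℂ)‖ ≤ c.supNorm := by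
  rw [Complex.norm_intCast, ← Int.norm_eq_abs]
  exact le_supNorm _ j

theorem cc2_up_inj {f f' : ℤ[X]} (h : up ℂ f = up ℂ f') : f = f' :=
  Polynomial.map_injective _ (RingHom.injective_int _) h

/-- the linear case -/
theorem cc2_lin (n : ℕ) (c : ℤ[X]) (hc : c.natDegree = 1) (om H : ℝ) (hom : 1 ≤ om)
    (hcom : c.supNorm ≤ om) (hH : 1 ≤ H) :
    Cnt (fun f : ℤ[X] => f.Monic ∧ f.natDegree = n ∧ f.supNorm ≤ H ∧
      ∃ q : ℚ[X], up ℚ f ∣ q ^ 2 + up ℚ c)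
      ((2 * (2 ^ n * ((2 * om) ^ n * (n + 1) * √H)) + 1) ^ n) := by
  set T : ℝ := 2 ^ n * ((2 * om) ^ n * (n + 1) * √H) with hT
  have hc1 : ((c.coeff 1 : ℤ) : ℂ) ≠ 0 := by
    have : c ≠ 0 := by rintro rfl; simp at hc
    have h2 := leadingCoeff_ne_zero.2 this
    rw [leadingCoeff, hc] at h2
    exact_mod_cast h2
  have hev : ∀ z : ℂ, aeval z c = c.coeff 0 + c.coeff 1 * z := by
    intro z
    rw [aeval_eq_sum_range' (n := 2) (by omega)]
    simp [Finset.sum_range_succ]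
  have hpi := Cnt.pi (ι := Fin n) (P := fun _ (t : ℤ) => |(t : ℝ)| ≤ T) (B := fun _ => 2 * T + 1)
    fun _ => cnt_int_abs T (by positivity)
  rw [Finset.prod_const, Finset.card_univ, Fintype.card_fin] at hpi
  refine hpi.rel (fun f z => ∃ β : Fin n → ℂ,
    up ℂ f = ∏ i, (X - C ((fun b : ℂ => -(b ^ 2 + (c.coeff 0 : ℤ)) / (c.coeff 1 : ℤ)) (β i))) ∧
      ∀ j : Fin n, (∏ i, (X - C (β i))).coeff j = ((z j : ℤ) : ℂ)) ?_ ?_
  · rintro f ⟨hm, hn, hf, q, hq⟩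
    obtain ⟨θ, hθ⟩ := exists_roots (up ℂ f) (hm.map _) (by rw [hm.natDegree_map, hn])
    have hβ := cc2_sq hθ hq
    obtain ⟨P, hP⟩ := cc1_res hθ q 0
    have hint : ∀ j : Fin n, ∃ z : ℤ, (∏ i, (X - C (aeval (θ i) q))).coeff j = (z : ℂ) := by
      intro j
      have h0 := hP 0 j
      simp only [zero_mul, add_zero] at h0
      have h1 : IsIntegral ℤ ((∏ i, (X - C (aeval (θ i) q))).coeff j) := by
        refine cc1_int _ _ (fun i _ => ?_) _
        have hθi : IsIntegral ℤ (θ i) := ⟨f, hm, cc2_root hθ i⟩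
        refine IsIntegral.of_pow (n := 2) (by norm_num) ?_
        rw [hβ i, hev]
        exact ((isIntegral_algebraMap (x := c.coeff 0)).add
          ((isIntegral_algebraMap (x := c.coeff 1)).mul hθi)).neg
      have h2 : aeval (0 : ℂ) (P.coeff j) = (((P.coeff j).coeff 0 : ℚ) : ℂ) := by
        rw [← coeff_zero_eq_aeval_zero']; simp
      rw [h0, h2] at h1 ⊢
      obtain ⟨z, hz⟩ := cc1_int_of_rat _ h1
      exact ⟨z, hz.symm⟩
    choose z hz using hint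
    refine ⟨z, fun j => ?_, fun i => aeval (θ i) q, ?_, hz⟩
    · rw [← Complex.norm_intCast, ← hz j]
      refine (cc2_coeff_le _ _).trans (mul_le_mul_of_nonneg_left ?_ (by positivity))
      have h1 : (∏ i, max 1 ‖aeval (θ i) q‖) ^ 2 ≤ (2 * om) ^ n * ((n + 1) * H) := by
        rw [← Finset.prod_pow]
        calc _ ≤ ∏ i, (2 * om * max 1 ‖θ i‖) := by
              refine Finset.prod_le_prod (fun i _ => by positivity) fun i _ => ?_
              have m1 := le_max_left 1 ‖θ i‖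
              have m2 := le_max_right 1 ‖θ i‖
              rcases le_total 1 ‖aeval (θ i) q‖ with h | h
              · rw [max_eq_right h, ← norm_pow, hβ i, norm_neg, hev]
                have b0 := (cc2_coeff_abs c 0).trans hcom
                have b1 := (cc2_coeff_abs c 1).trans hcom
                refine (norm_add_le _ _).trans ?_
                rw [norm_mul]
                have : ‖((c.coeff 1 : ℤ) : ℂ)‖ * ‖θ i‖ ≤ om * max 1 ‖θ i‖ :=
                  mul_le_mul b1 m2 (norm_nonneg _) (by linarith)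
                nlinarith
              · rw [max_eq_left h]; nlinarith
          _ = (2 * om) ^ n * ∏ i, max 1 ‖θ i‖ := by
              rw [Finset.prod_mul_distrib, Finset.prod_const, Finset.card_univ, Fintype.card_fin]
          _ ≤ _ := by
              refine mul_le_mul_of_nonneg_left (hθ.prod_max_le.trans ?_) (by positivity)
              exact mul_le_mul_of_nonneg_left hf (by positivity)
      refine abs_le_of_sq_le_sq' (h1.trans ?_) (by positivity) |>.2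
      have a1 : (1 : ℝ) ≤ (2 * om) ^ n * (n + 1) :=
        one_le_mul_of_one_le_of_one_le (one_le_pow₀ (by linarith)) (by linarith [Nat.cast_nonneg (α := ℝ) n])
      rw [mul_pow _ √H, Real.sq_sqrt (by linarith), ← mul_assoc]
      exact mul_le_mul_of_nonneg_right (by nlinarith) (by linarith)
    · rw [hθ]
      refine Finset.prod_congr rfl fun i _ => ?_
      congr 2
      simp only
      rw [hβ i, hev]
      field_simp
      ring
  · rintro f f' z ⟨hm, hn, -⟩ ⟨hm', hn', -⟩ ⟨β, h1, h2⟩ ⟨β', h1', h2'⟩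
    apply cc2_up_inj
    rw [h1, h1']
    refine cc1_transfer β β' ?_ (fun b : ℂ => -(b ^ 2 + (c.coeff 0 : ℤ)) / (c.coeff 1 : ℤ))
    have md : ∀ b : Fin n → ℂ, (∏ i, (X - C (b i))).Monic ∧ (∏ i, (X - C (b i))).natDegree = n :=
      fun b => ⟨monic_prod_of_monic _ _ fun i _ => monic_X_sub_C _, by
        rw [natDegree_prod_of_monic _ _ (fun i _ => monic_X_sub_C (b i))]; simp⟩
    ext j
    rcases lt_trichotomy j n with hj | hj | hj
    · rw [h2 ⟨j, hj⟩, h2' ⟨j, hj⟩]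
    · have e1 := (md β).1.coeff_natDegree
      have e2 := (md β').1.coeff_natDegree
      rw [(md _).2] at e1 e2
      rw [hj, e1, e2]
    · rw [coeff_eq_zero_of_natDegree_lt (by rw [(md _).2]; exact hj),
        coeff_eq_zero_of_natDegree_lt (by rw [(md _).2]; exact hj)]

end Pool.Agent.VW
end

-- part Pool.Agent.P.MP_b0ea37_nt.WMcc3
section

namespace Pool.Agent.VW

open Polynomial

theorem cc3_disc {c : ℤ[X]} (hc : c.natDegree = 2) (hs : Squarefree (up ℚ c)) :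
    c.coeff 2 ≠ 0 ∧ c.coeff 1 ^ 2 - 4 * c.coeff 2 * c.coeff 0 ≠ 0 := by
  have hc0 : c ≠ 0 := by rintro rfl; simp at hc
  have h2 : c.coeff 2 ≠ 0 := by
    have h2 := leadingCoeff_ne_zero.2 hc0
    rwa [leadingCoeff, hc] at h2
  refine ⟨h2, fun h => ?_⟩
  have h2' : ((c.coeff 2 : ℤ) : ℚ) ≠ 0 := by exact_mod_cast h2
  have h' : ((c.coeff 1 : ℤ) : ℚ) ^ 2 - 4 * (c.coeff 2 : ℤ) * (c.coeff 0 : ℤ) = 0 := by
    exact_mod_cast h
  set r : ℚ := -((c.coeff 1 : ℤ) : ℚ) / (2 * (c.coeff 2 : ℤ)) with hr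
  have e : up ℚ c = C ((c.coeff 0 : ℤ) : ℚ) + C ((c.coeff 1 : ℤ) : ℚ) * X +
      C ((c.coeff 2 : ℤ) : ℚ) * X ^ 2 := by
    conv_lhs => rw [c.as_sum_range_C_mul_X_pow' (n := 3) (by omega)]
    simp [up, Finset.sum_range_succ]
  have e1 : ((c.coeff 1 : ℤ) : ℚ) = -2 * (c.coeff 2 : ℤ) * r := by rw [hr]; field_simp
  have e0 : ((c.coeff 0 : ℤ) : ℚ) = (c.coeff 2 : ℤ) * r ^ 2 := by
    rw [e1] at h'
    apply mul_left_cancel₀ (mul_ne_zero (four_ne_zero) h2')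
    linear_combination -h'
  have : (X - C r) * (X - C r) ∣ up ℚ c := by
    refine ⟨C ((c.coeff 2 : ℤ) : ℚ), ?_⟩
    rw [e, e0, e1]
    simp only [map_mul, map_pow, map_neg, map_ofNat]
    ring
  exact not_isUnit_X_sub_C r (hs _ this)

theorem cc3_max (u w x t : ℂ) (D : ℂ) (om : ℝ) (hom : 1 ≤ om) (h1 : u * w = D) (h2 : u + w = 2 * x)
    (hD : ‖D‖ ≤ 5 * om ^ 2) (hx : ‖x‖ ≤ 3 * om * max 1 ‖t‖) :
    max 1 ‖u‖ * max 1 ‖w‖ ≤ 12 * om ^ 2 * max 1 ‖t‖ := by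
  have m1 := le_max_left 1 ‖t‖
  set m := max 1 ‖t‖
  have a0 : om ≤ om ^ 2 := by nlinarith
  have a1 : om ^ 2 ≤ om ^ 2 * m := by nlinarith
  have a2 : om * m ≤ om ^ 2 * m := by nlinarith
  have hu : ‖u‖ ≤ 2 * ‖x‖ + ‖w‖ := by
    have : u = 2 * x - w := by linear_combination h2
    rw [this]
    simpa using norm_sub_le (2 * x) w
  have hw : ‖w‖ ≤ 2 * ‖x‖ + ‖u‖ := by
    have : w = 2 * x - u := by linear_combination h2
    rw [this]
    simpa using norm_sub_le (2 * x) u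
  rcases le_total 1 ‖u‖ with a | a <;> rcases le_total 1 ‖w‖ with b | b
  · rw [max_eq_right a, max_eq_right b, ← norm_mul, h1]; nlinarith
  · rw [max_eq_right a, max_eq_left b]; nlinarith
  · rw [max_eq_left a, max_eq_right b]; nlinarith
  · rw [max_eq_left a, max_eq_left b]; nlinarith

theorem cc3_md {n : ℕ} (b : Fin n → ℂ) :
    (∏ i, (X - C (b i))).coeff n = 1 ∧ ∀ j, n < j → (∏ i, (X - C (b i))).coeff j = 0 := by
  have h1 : (∏ i, (X - C (b i))).Monic := monic_prod_of_monic _ _ fun i _ => monic_X_sub_C _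
  have h2 : (∏ i, (X - C (b i))).natDegree = n := by
    rw [natDegree_prod_of_monic _ _ (fun i _ => monic_X_sub_C (b i))]; simp
  refine ⟨?_, fun j hj => coeff_eq_zero_of_natDegree_lt (by rw [h2]; exact hj)⟩
  have := h1.coeff_natDegree
  rwa [h2] at this

/-- the coefficients that fix the product -/
theorem cc3_uniq {n : ℕ} (u w u' w' : Fin n → ℂ) (D : ℂ) (hD : D ≠ 0) (h : ∀ i, u i * w i = D)
    (h' : ∀ i, u' i * w' i = D)
    (he : ∀ i : Fin (n / 2 + 1),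
      (∏ l, (X - C (u l))).coeff (if i.1 = 0 then 0 else n - i) =
        (∏ l, (X - C (u' l))).coeff (if i.1 = 0 then 0 else n - i) ∧
      (∏ l, (X - C (w l))).coeff (if i.1 = 0 then 0 else n - i) =
        (∏ l, (X - C (w' l))).coeff (if i.1 = 0 then 0 else n - i)) :
    ∏ l, (X - C (u l)) = ∏ l, (X - C (u' l)) := by
  have h0 := he ⟨0, by omega⟩
  simp only [if_true] at h0
  ext j
  rcases lt_trichotomy j n with hj | hj | hj
  · rcases Nat.eq_zero_or_pos j with rfl | hj0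
    · exact h0.1
    by_cases hh : n - j ≤ n / 2
    · have := (he ⟨n - j, by omega⟩).1
      simp only [show ¬ (n - j = 0) by omega, if_false, show n - (n - j) = j by omega] at this
      exact this
    · have := (he ⟨j, by omega⟩).2
      simp only [show ¬ (j = 0) by omega, if_false] at this
      have s1 := cc1_sym u w D h j hj.le
      have s2 := cc1_sym u' w' D h' j hj.le
      rw [this, ← s2, h0.2] at s1
      refine mul_left_cancel₀ ?_ s1
      rw [coeff_zero_prod]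
      refine Finset.prod_ne_zero_iff.2 fun i _ => ?_
      have : w' i ≠ 0 := fun e => hD (by rw [← h' i, e, mul_zero])
      simpa using this
  · rw [hj, (cc3_md u).1, (cc3_md u').1]
  · rw [(cc3_md u).2 j hj, (cc3_md u').2 j hj]

/-- the quadratic case -/
theorem cc3_quad (n : ℕ) (c : ℤ[X]) (hc : c.natDegree = 2) (hsq : Squarefree (up ℚ c)) (om H : ℝ)
    (hom : 1 ≤ om) (hcom : c.supNorm ≤ om) (hH : 1 ≤ H) (K : ℝ)
    (hK : Cnt (fun k : ℕ => (2 : ℝ) ^ k ≤ (12 * om ^ 2) ^ n * ((n + 1) * H)) K) :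
    Cnt (fun f : ℤ[X] => f.Monic ∧ f.natDegree = n ∧ f.supNorm ≤ H ∧
      ∃ q : ℚ[X], up ℚ f ∣ q ^ 2 + up ℚ c)
      (K * (100 * om * 4 ^ n * ((12 * om ^ 2) ^ n * ((n + 1) * H))) ^ (n / 2 + 1)) := by
  set T : ℝ := (12 * om ^ 2) ^ n * ((n + 1) * H) with hT
  have hT0 : 0 < T := by positivity
  obtain ⟨h2, hD⟩ := cc3_disc hc hsq
  set D : ℤ := c.coeff 1 ^ 2 - 4 * c.coeff 2 * c.coeff 0 with hDdef
  have h2' : ((c.coeff 2 : ℤ) : ℂ) ≠ 0 := by exact_mod_cast h2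
  have hD' : (D : ℂ) ≠ 0 := by exact_mod_cast hD
  obtain ⟨s, hs⟩ := IsAlgClosed.exists_pow_nat_eq ((-4 * c.coeff 2 : ℤ) : ℂ) (n := 2) (by norm_num)
  have b0 := (cc2_coeff_abs c 0).trans hcom
  have b1 := (cc2_coeff_abs c 1).trans hcom
  have b2 := (cc2_coeff_abs c 2).trans hcom
  have hs0 : s ≠ 0 := by
    rintro rfl
    apply h2'
    push_cast at hs
    linear_combination (1 / 4 : ℂ) * hs
  have hsn : ‖s‖ ≤ 2 * om := by
    refine (abs_le_of_sq_le_sq' ?_ (by positivity)).2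
    rw [← norm_pow, hs]
    push_cast
    rw [norm_mul]
    simp only [norm_neg, Complex.norm_ofNat]
    nlinarith
  have hev : ∀ z : ℂ, aeval z c = c.coeff 0 + c.coeff 1 * z + c.coeff 2 * z ^ 2 := by
    intro z
    rw [aeval_eq_sum_range' (n := 3) (by omega)]
    simp [Finset.sum_range_succ]
  let φ : ℂ → ℂ := fun u => ((u + D / u) / 2 - (c.coeff 1 : ℤ)) / (2 * (c.coeff 2 : ℤ))
  refine (hK.fibre (P := fun (k : ℕ) (f : ℤ[X]) => ∃ u w : Fin n → ℂ, (∀ i, u i * w i = D) ∧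
      up ℂ f = ∏ i, (X - C (φ (u i))) ∧ ∀ j, ∃ z : ℤ × ℤ,
        ‖(∏ i, (X - C (u i))).coeff j‖ ≤ 2 ^ n * (2 * 2 ^ k) ∧
        ‖(∏ i, (X - C (w i))).coeff j‖ ≤ 2 ^ n * (T / 2 ^ k) ∧
        (z.1 : ℂ) = s * ((∏ i, (X - C (u i))).coeff j - (∏ i, (X - C (w i))).coeff j) ∧
        (z.2 : ℂ) = (∏ i, (X - C (u i))).coeff j + (∏ i, (X - C (w i))).coeff j)
      (B' := (100 * om * 4 ^ n * T) ^ (n / 2 + 1)) (by positivity) fun k hk => ?_).mono ?_ le_rfl
  · have p2 : (1 : ℝ) ≤ 2 ^ n := one_le_pow₀ (by norm_num)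
    have pk : (1 : ℝ) ≤ 2 ^ k := one_le_pow₀ (by norm_num)
    have hp := cc2_pair s (2 * om) (2 ^ n * (2 * 2 ^ k)) (2 ^ n * (T / 2 ^ k)) hs0 hsn (by linarith)
      (one_le_mul_of_one_le_of_one_le p2 (by linarith))
      (one_le_mul_of_one_le_of_one_le p2 ((one_le_div (by positivity)).2 hk))
    have e : 25 * (2 * om) * (2 ^ n * (2 * 2 ^ k) * (2 ^ n * (T / 2 ^ k))) =
        100 * om * 4 ^ n * T := by
      rw [show (4 : ℝ) = 2 * 2 by norm_num, mul_pow]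
      field_simp
      ring
    rw [e] at hp
    have hpi := Cnt.pi (ι := Fin (n / 2 + 1)) (B := fun _ => 100 * om * 4 ^ n * T) fun _ => hp
    rw [Finset.prod_const, Finset.card_univ, Fintype.card_fin] at hpi
    refine hpi.rel (fun f z => ∃ u w : Fin n → ℂ, (∀ i, u i * w i = D) ∧
      up ℂ f = ∏ i, (X - C (φ (u i))) ∧ ∀ i : Fin (n / 2 + 1),
        ((z i).1 : ℂ) = s * ((∏ l, (X - C (u l))).coeff (if i.1 = 0 then 0 else n - i) -
          (∏ l, (X - C (w l))).coeff (if i.1 = 0 then 0 else n - i)) ∧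
        ((z i).2 : ℂ) = (∏ l, (X - C (u l))).coeff (if i.1 = 0 then 0 else n - i) +
          (∏ l, (X - C (w l))).coeff (if i.1 = 0 then 0 else n - i)) ?_ ?_
    · rintro f ⟨u, w, huw, hf, hz⟩
      choose z hz using hz
      exact ⟨fun i => z (if i.1 = 0 then 0 else n - i),
        fun i => ⟨_, _, (hz _).1, (hz _).2.1, (hz _).2.2.1, (hz _).2.2.2⟩,
        u, w, huw, hf, fun i => (hz _).2.2⟩
    · rintro f f' z - - ⟨u, w, huw, hf, hz⟩ ⟨u', w', huw', hf', hz'⟩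
      apply cc2_up_inj
      rw [hf, hf']
      refine cc1_transfer u u' (cc3_uniq u w u' w' D hD' huw huw' fun i => ?_) φ
      have e1 := mul_left_cancel₀ hs0 ((hz i).1.symm.trans (hz' i).1)
      have e2 := (hz i).2.symm.trans (hz' i).2
      constructor
      · linear_combination (1 / 2 : ℂ) * e1 + (1 / 2 : ℂ) * e2
      · linear_combination (-1 / 2 : ℂ) * e1 + (1 / 2 : ℂ) * e2
  · rintro f ⟨hm, hn, hf, q, hq⟩
    obtain ⟨θ, hθ⟩ := exists_roots (up ℂ f) (hm.map _) (by rw [hm.natDegree_map, hn])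
    have hβ := cc2_sq hθ hq
    let a : ℚ[X] := C ((2 * c.coeff 2 : ℤ) : ℚ) * X + C ((c.coeff 1 : ℤ) : ℚ)
    have ha : ∀ z : ℂ, aeval z a = 2 * (c.coeff 2 : ℤ) * z + (c.coeff 1 : ℤ) := by
      intro z; simp [a]
    obtain ⟨P, hP⟩ := cc1_res hθ a q
    set u : Fin n → ℂ := fun i => aeval (θ i) a + s * aeval (θ i) q with hu
    set w : Fin n → ℂ := fun i => aeval (θ i) a + -s * aeval (θ i) q with hw
    have hsq2 : ∀ i, (s * aeval (θ i) q) ^ 2 = (aeval (θ i) a) ^ 2 - D := by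
      intro i
      rw [mul_pow, hs, hβ i, hev, ha, hDdef]
      push_cast
      ring
    have huw : ∀ i, u i * w i = D := by
      intro i
      simp only [hu, hw]
      linear_combination -hsq2 i
    have hMM : (∏ i, max 1 ‖u i‖) * ∏ i, max 1 ‖w i‖ ≤ T := by
      rw [← Finset.prod_mul_distrib]
      calc _ ≤ ∏ i, (12 * om ^ 2 * max 1 ‖θ i‖) := by
            refine Finset.prod_le_prod (fun i _ => by positivity) fun i _ => ?_
            refine cc3_max _ _ (aeval (θ i) a) _ D om hom (huw i) (by simp only [hu, hw]; ring) ?_ ?_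
            · rw [hDdef]
              push_cast
              refine (norm_sub_le _ _).trans ?_
              simp only [norm_mul, norm_pow, Complex.norm_ofNat]
              have n0 := norm_nonneg ((c.coeff 0 : ℤ) : ℂ)
              have n1 := norm_nonneg ((c.coeff 1 : ℤ) : ℂ)
              have n2 := norm_nonneg ((c.coeff 2 : ℤ) : ℂ)
              have := mul_le_mul b2 b0 n0 (by linarith)
              nlinarith
            · rw [ha]
              refine (norm_add_le _ _).trans ?_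
              simp only [norm_mul, Complex.norm_ofNat]
              have m1 := le_max_left 1 ‖θ i‖
              have := mul_le_mul b2 (le_max_right 1 ‖θ i‖) (norm_nonneg _) (by linarith)
              nlinarith
        _ = (12 * om ^ 2) ^ n * ∏ i, max 1 ‖θ i‖ := by
            rw [Finset.prod_mul_distrib, Finset.prod_const, Finset.card_univ, Fintype.card_fin]
        _ ≤ _ := by
            refine mul_le_mul_of_nonneg_left (hθ.prod_max_le.trans ?_) (by positivity)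
            exact mul_le_mul_of_nonneg_left hf (by positivity)
    have o1 := cc2_one_le u
    have o2 := cc2_one_le w
    obtain ⟨k, hk1, hk2⟩ := exists_dyadic _ o1
    refine ⟨k, by nlinarith, u, w, huw, ?_, fun j => ?_⟩
    · rw [hθ]
      refine Finset.prod_congr rfl fun i _ => ?_
      congr 2
      have hu0 : u i ≠ 0 := fun e => hD' (by rw [← huw i, e, zero_mul])
      have : (D : ℂ) / u i = w i := by rw [← huw i]; field_simp
      simp only [φ, this]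
      simp only [hu, hw, ha]
      field_simp
      ring
    · have hai : ∀ i, IsIntegral ℤ (aeval (θ i) a) := by
        intro i
        have hθi : IsIntegral ℤ (θ i) := ⟨f, hm, cc2_root hθ i⟩
        have e : aeval (θ i) a = algebraMap ℤ ℂ (2 * c.coeff 2) * θ i + algebraMap ℤ ℂ (c.coeff 1) := by
          rw [ha]; simp
        rw [e]
        exact (isIntegral_algebraMap.mul hθi).add isIntegral_algebraMap
      have hbi : ∀ i, IsIntegral ℤ (s * aeval (θ i) q) := by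
        intro i
        refine IsIntegral.of_pow (n := 2) (by norm_num) ?_
        rw [hsq2 i]
        exact ((hai i).pow 2).sub (isIntegral_algebraMap (x := D))
      have hsi : IsIntegral ℤ s := by
        refine IsIntegral.of_pow (n := 2) (by norm_num) ?_
        rw [hs]
        exact isIntegral_algebraMap (x := -4 * c.coeff 2)
      have iu : IsIntegral ℤ ((∏ i, (X - C (u i))).coeff j) :=
        cc1_int _ _ (fun i _ => (hai i).add (hbi i)) j
      have iw : IsIntegral ℤ ((∏ i, (X - C (w i))).coeff j) := by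
        refine cc1_int _ _ (fun i _ => ?_) j
        have : w i = aeval (θ i) a - s * aeval (θ i) q := by simp only [hw]; ring
        rw [this]
        exact (hai i).sub (hbi i)
      obtain ⟨x, y, hx, hy⟩ := cc1_pm (P.coeff j) s _ hs
      rw [← hP s j] at hx
      rw [← hP (-s) j] at hy
      have r1 : s * ((∏ i, (X - C (u i))).coeff j - (∏ i, (X - C (w i))).coeff j) =
          ((2 * y * (-4 * c.coeff 2 : ℤ) : ℚ) : ℂ) := by
        rw [hx, hy]
        push_cast at hs ⊢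
        linear_combination 2 * (y : ℂ) * hs
      have r2 : (∏ i, (X - C (u i))).coeff j + (∏ i, (X - C (w i))).coeff j = ((2 * x : ℚ) : ℂ) := by
        rw [hx, hy]
        push_cast
        ring
      obtain ⟨z1, hz1⟩ := cc1_int_of_rat _ (r1 ▸ hsi.mul (iu.sub iw))
      obtain ⟨z2, hz2⟩ := cc1_int_of_rat _ (r2 ▸ iu.add iw)
      refine ⟨(z1, z2), ?_, ?_, hz1.trans r1.symm, hz2.trans r2.symm⟩
      · exact (cc2_coeff_le u j).trans (mul_le_mul_of_nonneg_left hk2.le (by positivity))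
      · refine (cc2_coeff_le w j).trans (mul_le_mul_of_nonneg_left ?_ (by positivity))
        rw [le_div_iff₀ (by positivity)]
        nlinarith

end Pool.Agent.VW
end

-- part Pool.Agent.P.MP_b0ea37_nt.WMcc
section

namespace Pool.Agent.VW

open Polynomial

theorem cnt_cc (n : ℕ) (hn : 5 ≤ n) : ∃ (K : ℝ) (a : ℕ), 0 ≤ K ∧ ∀ om H : ℝ, 1 ≤ om → 1 ≤ H →
    Cnt (fun f : ℤ[X] => f.Monic ∧ f.natDegree = n ∧ f.supNorm ≤ H ∧ CC om f)
      (K * om ^ a * (H ^ (n - 2) * H ^ (1 / 4 : ℝ))) := by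
  obtain ⟨Cd, hCd, hdy⟩ := cnt_dyadic (1 / 4) (by norm_num)
  set K₀ : ℝ := 100 * 4 ^ n * 12 ^ n * (n + 1) with hK₀
  refine ⟨(1 + Cd) * K₀ ^ (n + 4), (2 * n + 1) * (n + 4), by positivity, fun om H hom hH => ?_⟩
  set W : ℝ := K₀ * om ^ (2 * n + 1) with hW
  have n1 : (1 : ℝ) ≤ n + 1 := by linarith [Nat.cast_nonneg (α := ℝ) n]
  have p4 : (1 : ℝ) ≤ 4 ^ n := one_le_pow₀ (by norm_num)
  have p12 : (1 : ℝ) ≤ (12 * om ^ 2) ^ n := one_le_pow₀ (by nlinarith)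
  have eW : W = 100 * om * 4 ^ n * ((12 * om ^ 2) ^ n * (n + 1)) := by
    rw [hW, hK₀, mul_pow, ← pow_mul]; ring
  have q1 : (1 : ℝ) ≤ (12 * om ^ 2) ^ n * (n + 1) := one_le_mul_of_one_le_of_one_le p12 n1
  have q2 : (1 : ℝ) ≤ 4 ^ n * ((12 * om ^ 2) ^ n * (n + 1)) := one_le_mul_of_one_le_of_one_le p4 q1
  have w1 : 100 * om ≤ W := by rw [eW, mul_assoc (100 * om)]; nlinarith
  have hW1 : 1 ≤ W := by linarith
  have w2 : (12 * om ^ 2) ^ n * (n + 1) ≤ W := by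
    rw [eW]
    exact le_mul_of_one_le_left (by positivity) (one_le_mul_of_one_le_of_one_le (by linarith) p4)
  have w3 : 3 * (2 ^ n * ((2 * om) ^ n * (n + 1))) ≤ W := by
    rw [eW]
    have a1 : (2 : ℝ) ^ n ≤ 4 ^ n := pow_le_pow_left₀ (by norm_num) (by norm_num) n
    have a2 : (2 * om) ^ n ≤ (12 * om ^ 2) ^ n := pow_le_pow_left₀ (by positivity) (by nlinarith) n
    rw [mul_assoc (100 * om)]
    gcongr
    linarith
  have hs1 : 1 ≤ √H := Real.one_le_sqrt.2 hH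
  have h4 : 1 ≤ H ^ (1 / 4 : ℝ) := Real.one_le_rpow hH (by norm_num)
  set G : ℝ := H ^ (n - 2) * H ^ (1 / 4 : ℝ) with hG
  have hG0 : 0 ≤ G := by positivity
  have hc := cnt_poly 3 om (by linarith)
  refine (hc.fibre (P := fun (c f : ℤ[X]) => (c.natDegree = 1 ∨ c.natDegree = 2) ∧
      Squarefree (up ℚ c) ∧ f.Monic ∧ f.natDegree = n ∧ f.supNorm ≤ H ∧
      ∃ q : ℚ[X], up ℚ f ∣ q ^ 2 + up ℚ c) (B' := (1 + Cd) * W ^ (n + 1) * G)
      (by positivity) fun c hc => ?_).mono ?_ ?_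
  · refine Cnt.of_mem (by positivity) ?_
    rintro f₀ ⟨hd | hd, hsq, -⟩
    · refine (cc2_lin n c hd om H hom hc.2 hH).mono (fun f hf => hf.2.2) ?_
      have a1 : 2 * (2 ^ n * ((2 * om) ^ n * (n + 1) * √H)) + 1 ≤ W * √H := by
        have b1 : (1 : ℝ) ≤ 2 ^ n * ((2 * om) ^ n * (n + 1)) :=
          one_le_mul_of_one_le_of_one_le (one_le_pow₀ (by norm_num))
            (one_le_mul_of_one_le_of_one_le (one_le_pow₀ (by linarith)) n1)
        have b2 := mul_le_mul_of_nonneg_right w3 (by linarith : 0 ≤ √H)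
        have b3 := one_le_mul_of_one_le_of_one_le b1 hs1
        nlinarith
      have a2 : √H ^ n ≤ H ^ (n - 2) := by
        calc √H ^ n ≤ √H ^ (2 * (n - 2)) := pow_le_pow_right₀ hs1 (by omega)
          _ = _ := by rw [pow_mul, Real.sq_sqrt (by linarith)]
      calc _ ≤ (W * √H) ^ n := pow_le_pow_left₀ (by positivity) a1 n
        _ = 1 * W ^ n * (√H ^ n * 1) := by rw [mul_pow]; ring
        _ ≤ _ := by
          rw [hG]
          gcongr
          · linarith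
          · omega
    · have hT : 1 ≤ (12 * om ^ 2) ^ n * ((n + 1) * H) :=
        one_le_mul_of_one_le_of_one_le p12 (one_le_mul_of_one_le_of_one_le n1 hH)
      refine (cc3_quad n c hd hsq om H hom hc.2 hH _ (hdy _ hT)).mono (fun f hf => hf.2.2) ?_
      have a1 : ((12 * om ^ 2) ^ n * ((n + 1) * H)) ^ (1 / 4 : ℝ) ≤ W * H ^ (1 / 4 : ℝ) := by
        rw [← mul_assoc, Real.mul_rpow (by positivity) (by linarith)]
        refine mul_le_mul_of_nonneg_right (le_trans ?_ w2) (by positivity)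
        exact Real.rpow_le_self_of_one_le q1 (by norm_num)
      have a2 : 100 * om * 4 ^ n * ((12 * om ^ 2) ^ n * ((n + 1) * H)) = W * H := by
        rw [eW]; ring
      rw [a2]
      calc _ ≤ Cd * (W * H ^ (1 / 4 : ℝ)) * (W * H) ^ (n - 2) := by
            gcongr
            · exact one_le_mul_of_one_le_of_one_le hW1 hH
            · omega
        _ = Cd * W ^ (n - 2 + 1) * G := by rw [hG, mul_pow]; ring
        _ ≤ _ := by
          gcongr
          · linarith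
          · omega
  · rintro f ⟨hm, hn', hf, c, hd, hsq, hcom, hq⟩
    refine ⟨c, ⟨?_, hcom⟩, hd, hsq, hm, hn', hf, hq⟩
    refine lt_of_le_of_lt degree_le_natDegree ?_
    exact_mod_cast (by omega : c.natDegree < 3)
  · have a1 : (2 * om + 1) ^ 3 ≤ W ^ 3 := pow_le_pow_left₀ (by positivity) (by linarith) 3
    calc _ ≤ W ^ 3 * ((1 + Cd) * W ^ (n + 1) * G) := by gcongr
      _ = (1 + Cd) * W ^ (n + 4) * G := by ring
      _ = _ := by rw [hW, mul_pow, ← pow_mul]; ring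

theorem ps_cc (n : ℕ) (hn : 5 ≤ n) : ∃ δ : ℝ, 0 < δ ∧ δ ≤ 1 / 1000 ∧
    ∀ A : ℝ, PS n fun H f => CC (A * H ^ δ) f := by
  obtain ⟨K, a, hK, h⟩ := cnt_cc n hn
  have ha : (1 : ℝ) ≤ a + 1 := by linarith [Nat.cast_nonneg (α := ℝ) a]
  refine ⟨1 / (1000 * (a + 1)), by positivity,
    one_div_le_one_div_of_le (by norm_num) (by linarith), fun A => ?_⟩
  set δ : ℝ := 1 / (1000 * (a + 1)) with hδ
  have hδ0 : 0 < δ := by positivity
  refine PS.of_lt ((n : ℝ) - 2 + 1 / 2) (K * max A 1 ^ a) 1 (by linarith) fun H hH => ?_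
  have h1 : 1 ≤ H ^ δ := Real.one_le_rpow hH hδ0.le
  have hA : 1 ≤ max A 1 := le_max_right _ _
  refine (h (max A 1 * H ^ δ) H (one_le_mul_of_one_le_of_one_le hA h1) hH).mono ?_ ?_
  · rintro f ⟨⟨hm, hn', -, hf⟩, c, hd, hsq, hc, hq⟩
    exact ⟨hm, hn', hf, c, hd, hsq,
      hc.trans (mul_le_mul_of_nonneg_right (le_max_left _ _) (by linarith)), hq⟩
  · have hH0 : 0 < H := by linarith
    have e1 : (H ^ δ) ^ a * (H ^ (n - 2) * H ^ (1 / 4 : ℝ)) =
        H ^ (δ * a + (((n - 2 : ℕ) : ℝ) + 1 / 4)) := by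
      rw [Real.rpow_add hH0, Real.rpow_add hH0, Real.rpow_natCast, Real.rpow_mul hH0.le,
        Real.rpow_natCast]
    have e2 : δ * a ≤ 1 / 4 := by
      rw [hδ, div_mul_eq_mul_div, div_le_div_iff₀ (by positivity) (by norm_num)]
      linarith [Nat.cast_nonneg (α := ℝ) a]
    rw [mul_pow, mul_assoc, mul_assoc, e1, ← mul_assoc]
    refine mul_le_mul_of_nonneg_left (Real.rpow_le_rpow_of_exponent_le hH ?_) (by positivity)
    rw [Nat.cast_sub (by omega)]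
    push_cast
    linarith

end Pool.Agent.VW
end

-- part Pool.Agent.P.MP_b0ea37_nt.WMwa
section

namespace Pool.Agent.VW

open Polynomial

theorem win_gcd (k v : ℤ[X]) (hv : v ≠ 0) : ∃ G k' v' : ℤ[X], k = G * k' ∧ v = G * v' ∧
    IsCoprime (up ℚ k') (up ℚ v') := by
  classical
  have hinj : Function.Injective (Int.castRingHom ℚ) := RingHom.injective_int _
  have hv' : up ℚ v ≠ 0 := (Polynomial.map_ne_zero_iff hinj).2 hv
  obtain ⟨q, hq⟩ : ∃ q : ℚ[X], q = EuclideanDomain.gcd (up ℚ k) (up ℚ v) := ⟨_, rfl⟩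
  have hq0 : q ≠ 0 := by
    rw [hq]
    exact fun h => hv' (EuclideanDomain.gcd_eq_zero_iff.1 h).2
  obtain ⟨b, hb, hb2⟩ := IsLocalization.integerNormalization_spec (nonZeroDivisors ℤ) q
  obtain ⟨G0, hG0⟩ : ∃ G0 : ℤ[X], G0 = IsLocalization.integerNormalization (nonZeroDivisors ℤ) q :=
    ⟨_, rfl⟩
  rw [← hG0] at hb2
  have hb0 : (b : ℚ) ≠ 0 := by exact_mod_cast nonZeroDivisors.ne_zero hb
  have h1 : C (G0.content : ℚ) * up ℚ G0.primPart = C (b : ℚ) * q := by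
    have h2 : up ℚ G0 = C (G0.content : ℚ) * up ℚ G0.primPart := by
      conv_lhs => rw [G0.eq_C_content_mul_primPart]
      simp [up]
    rw [← h2]
    have h3 : up ℚ G0 = b • q := hb2
    rw [h3, zsmul_eq_mul]
    simp
  have hc0 : (G0.content : ℚ) ≠ 0 := by
    intro h
    rw [h, C_0, zero_mul] at h1
    exact mul_ne_zero (C_ne_zero.2 hb0) hq0 h1.symm
  have h4 : q = up ℚ G0.primPart * C ((G0.content : ℚ) / b) := by
    apply mul_left_cancel₀ (C_ne_zero.2 hb0)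
    rw [← h1, mul_left_comm, ← C_mul, mul_div_cancel₀ _ hb0, mul_comm]
  have hp := G0.isPrimitive_primPart
  have hd : ∀ u : ℤ[X], q ∣ up ℚ u → G0.primPart ∣ u := fun u hu =>
    (IsPrimitive.Int.dvd_iff_map_cast_dvd_map_cast _ u hp).2 ((Dvd.intro _ h4.symm).trans hu)
  obtain ⟨k', hk'⟩ := hd k (by rw [hq]; exact EuclideanDomain.gcd_dvd_left _ _)
  obtain ⟨v', hv2⟩ := hd v (by rw [hq]; exact EuclideanDomain.gcd_dvd_right _ _)
  refine ⟨_, k', v', hk', hv2, ?_⟩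
  have hG : up ℚ G0.primPart ≠ 0 := (Polynomial.map_ne_zero_iff hinj).2 hp.ne_zero
  have h5 := EuclideanDomain.gcd_eq_gcd_ab (up ℚ k) (up ℚ v)
  rw [← hq] at h5
  generalize EuclideanDomain.gcdA (up ℚ k) (up ℚ v) = a at h5
  generalize EuclideanDomain.gcdB (up ℚ k) (up ℚ v) = a' at h5
  have h6 : up ℚ k = up ℚ G0.primPart * up ℚ k' := by
    conv_lhs => rw [hk']
    simp [up]
  have h7 : up ℚ v = up ℚ G0.primPart * up ℚ v' := by
    conv_lhs => rw [hv2]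
    simp [up]
  have h8 : C ((G0.content : ℚ) / b) = up ℚ k' * a + up ℚ v' * a' := by
    apply mul_left_cancel₀ hG
    rw [← h4, h5, h6, h7]
    ring
  refine ⟨C ((b : ℚ) / G0.content) * a, C ((b : ℚ) / G0.content) * a', ?_⟩
  have h9 : C ((b : ℚ) / G0.content) * C ((G0.content : ℚ) / b) = 1 := by
    rw [← C_mul, ← C_1]
    congr 1
    field_simp
  rw [← h9, h8]
  ring

theorem win_ne {k v w : ℤ[X]} (hc : IsCoprime (up ℚ k) (up ℚ v)) (hw : Squarefree (up ℚ w))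
    (hd : 0 < w.natDegree) : k ^ 2 + v ^ 2 * w ≠ 0 := by
  intro h
  have hinj : Function.Injective (Int.castRingHom ℚ) := RingHom.injective_int _
  have h1 : up ℚ v * up ℚ v * up ℚ w = -(up ℚ k * up ℚ k) := by
    have := congrArg (up ℚ) h
    simp only [up, Polynomial.map_add, Polynomial.map_mul, Polynomial.map_pow,
      Polynomial.map_zero] at this
    simp only [up]
    linear_combination this
  have h2 : up ℚ k * up ℚ k ∣ up ℚ w := by
    refine IsCoprime.dvd_of_dvd_mul_left (y := up ℚ v * up ℚ v)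
      ((hc.mul_right hc).mul_left (hc.mul_right hc)) ?_
    rw [h1]
    exact dvd_neg.2 dvd_rfl
  have h3 : IsUnit (up ℚ k) := hw _ h2
  have h4 : IsUnit (up ℚ w) := by
    have : IsUnit (up ℚ v * up ℚ v * up ℚ w) := by
      rw [h1]
      exact (h3.mul h3).neg
    exact isUnit_of_mul_isUnit_right this
  have h5 := natDegree_eq_zero_of_isUnit h4
  rw [natDegree_map_eq_of_injective hinj] at h5
  omega

/-- removal of the common factor of `k` and `v` -/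
theorem win_red {n : ℕ} {f E k v w : ℤ[X]} (hm : f.Monic) (hn : f.natDegree = n) (hi : Irr f)
    (he : f * E = k ^ 2 + v ^ 2 * w) (hv : v ≠ 0) (hE : E.natDegree + 2 ≤ n)
    (hk : k.natDegree < n) (hvn : v.natDegree < n) (hw : 0 < w.natDegree)
    (hs : Squarefree (up ℚ w)) : ∃ E' k' v' : ℤ[X], f * E' = k' ^ 2 + v' ^ 2 * w ∧ E' ≠ 0 ∧ v' ≠ 0 ∧
      IsCoprime (up ℚ k') (up ℚ v') ∧ E'.natDegree + 2 ≤ n ∧ k'.natDegree < n ∧
      E'.supNorm ≤ 4 ^ n * E.supNorm ∧ k'.supNorm ≤ 4 ^ n * k.supNorm ∧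
      v'.supNorm ≤ 4 ^ n * v.supNorm := by
  obtain ⟨G, k', v', hk', hv', hc⟩ := win_gcd k v hv
  have hG : G ≠ 0 := by
    rintro rfl
    exact hv (by rw [hv', zero_mul])
  have hv0 : v' ≠ 0 := by
    rintro rfl
    exact hv (by rw [hv', mul_zero])
  have hp : Prime f :=
    ((IsPrimitive.Int.irreducible_iff_irreducible_map_cast hm.isPrimitive).2 hi).prime
  have h1 : f * E = G ^ 2 * (k' ^ 2 + v' ^ 2 * w) := by
    rw [he, hk', hv']
    ring
  have hGn : G.natDegree < n := (natDegree_le_of_dvd ⟨v', hv'⟩ hv).trans_lt hvn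
  have h2 : f ∣ k' ^ 2 + v' ^ 2 * w := by
    rcases hp.dvd_or_dvd (Dvd.intro _ h1) with h | h
    · have := natDegree_le_of_dvd (hp.dvd_of_dvd_pow h) hG
      omega
    · exact h
  obtain ⟨E', hE'⟩ := h2
  have hE0 : E' ≠ 0 := by
    rintro rfl
    exact win_ne hc hs hw (by rw [hE', mul_zero])
  have h3 : E = G ^ 2 * E' := by
    apply mul_left_cancel₀ hm.ne_zero
    rw [h1, hE']
    ring
  have hE1 : E ≠ 0 := by
    rw [h3]
    exact mul_ne_zero (pow_ne_zero _ hG) hE0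
  have hdE : E' ∣ E := Dvd.intro_left _ h3.symm
  have hdv : v' ∣ v := Dvd.intro_left _ hv'.symm
  have hdk : k' ∣ k := Dvd.intro_left _ hk'.symm
  refine ⟨E', k', v', hE'.symm, hE0, hv0, hc, ?_, ?_, sup_le_of_dvd hE1 hdE (by omega), ?_,
    sup_le_of_dvd hv hdv hvn.le⟩
  · have := natDegree_le_of_dvd hdE hE1
    omega
  · by_cases h0 : k' = 0
    · rw [h0, natDegree_zero]
      omega
    · exact (natDegree_le_of_dvd hdk (by rw [hk']; exact mul_ne_zero hG h0)).trans_lt hk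
  · by_cases h0 : k' = 0
    · rw [h0, supNorm_zero]
      exact mul_nonneg (by positivity) (supNorm_nonneg _)
    · exact sup_le_of_dvd (by rw [hk']; exact mul_ne_zero hG h0) hdk hk.le

/-- equal values at all roots of `E` give a congruence modulo `E` -/
theorem win_loc {E k k' v w : ℂ[X]} (hE : E ≠ 0) (hc : IsCoprime k v) (hw : Squarefree w)
    (h1 : E ∣ k ^ 2 + v ^ 2 * w) (h2 : E ∣ k' ^ 2 + v ^ 2 * w)
    (h : ∀ z, E.eval z = 0 → k.eval z = k'.eval z) : E ∣ k - k' := by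
  classical
  by_cases h0 : k - k' = 0
  · rw [h0]
    exact dvd_zero _
  refine (IsAlgClosed.splits E).dvd_of_roots_le_roots hE (Multiset.le_iff_count.2 fun z => ?_)
  rw [count_roots, count_roots, le_rootMultiplicity_iff h0]
  have hμ := pow_rootMultiplicity_dvd E z
  generalize rootMultiplicity z E = μ at hμ
  rcases μ with _ | μ
  · simp
  have hz : E.eval z = 0 := dvd_iff_isRoot.1 ((dvd_pow_self _ μ.succ_ne_zero).trans hμ)
  have hkk := h z hz
  have hirr := irreducible_X_sub_C z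
  by_cases hk : k.eval z = 0
  · have hvz : ¬ (X - C z) ∣ v := fun hd =>
      hirr.not_isUnit (hc.isUnit_of_dvd' (dvd_iff_isRoot.2 hk) hd)
    rcases μ with _ | μ
    · rw [zero_add, pow_one, dvd_iff_isRoot, IsRoot, eval_sub, hkk, sub_self]
    exfalso
    have h3 : (X - C z) ^ 2 ∣ v ^ 2 * w :=
      (dvd_add_right (pow_dvd_pow_of_dvd (dvd_iff_isRoot.2 hk) 2)).1
        (((pow_dvd_pow _ (by omega)).trans hμ).trans h1)
    have h4 : (X - C z) ^ 2 ∣ w :=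
      ((hirr.coprime_iff_not_dvd.2 hvz).pow (m := 2) (n := 2)).dvd_of_dvd_mul_left h3
    exact hirr.not_isUnit (hw _ (by rwa [sq] at h4))
  · have hs : ¬ (X - C z) ∣ k + k' := by
      rw [dvd_iff_isRoot, IsRoot, eval_add, ← hkk, ← two_mul]
      exact mul_ne_zero two_ne_zero hk
    have h3 : E ∣ (k + k') * (k - k') := by
      have := dvd_sub h1 h2
      rwa [show k ^ 2 + v ^ 2 * w - (k' ^ 2 + v ^ 2 * w) = (k + k') * (k - k') by ring] at this
    exact ((hirr.coprime_iff_not_dvd.2 hs).pow_left).dvd_of_dvd_mul_left (hμ.trans h3)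

theorem win_sq (a c : ℂ) (ha : a ≠ 0) : Cnt (fun z : ℂ => a * z ^ 2 = c) 2 := by
  have hd : (C a * X ^ 2 - C c : ℂ[X]).natDegree = 2 := by
    rw [natDegree_sub_C, natDegree_C_mul_X_pow _ _ ha]
  have h := cnt_roots (C a * X ^ 2 - C c : ℂ[X]) (by
    intro h0
    rw [h0] at hd
    simp at hd)
  refine h.mono (fun z hz => ?_) (by rw [hd]; norm_num)
  simp [hz]

/-- the number of `k` for given `E`, `v`, `w` -/
theorem win_k (E v w : ℤ[X]) (e t : ℕ) (T : ℝ) (hT : 0 ≤ T) (P : ℤ[X] → Prop)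
    (h1 : ∀ k, P k → E ≠ 0 ∧ E.natDegree = e ∧ Squarefree (up ℚ w) ∧
      IsCoprime (up ℚ k) (up ℚ v) ∧ E ∣ k ^ 2 + v ^ 2 * w ∧ k.supNorm ≤ T)
    (h2 : ∀ k k', P k → P k' → (k - k').degree < t) :
    Cnt P (2 ^ e * (2 * T + 1) ^ (t - e)) := by
  refine Cnt.of_mem (by positivity) fun a ha => ?_
  obtain ⟨hE, he, hw, -, -, -⟩ := h1 a ha
  have hinj : Function.Injective (Int.castRingHom ℂ) := RingHom.injective_int _
  have hE' : up ℂ E ≠ 0 := (Polynomial.map_ne_zero_iff hinj).2 hE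
  have he' : (up ℂ E).natDegree = e := by rw [natDegree_map_eq_of_injective hinj, he]
  have hup : ∀ u : ℤ[X], (up ℚ u).map (algebraMap ℚ ℂ) = up ℂ u := fun u => by
    rw [Polynomial.map_map]
    congr 1
  have hw' : Squarefree (up ℂ w) := by
    rw [← hup]
    exact ((PerfectField.separable_iff_squarefree.2 hw).map).squarefree
  obtain ⟨θ, hθ⟩ := exists_roots' (up ℂ E) he'
  have hr : ∀ z, (up ℂ E).eval z = 0 ↔ ∃ i, z = θ i := fun z => by
    rw [hθ, eval_mul, eval_C, mul_eq_zero, eval_prod, Finset.prod_eq_zero_iff]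
    simp only [leadingCoeff_eq_zero, hE', false_or, Finset.mem_univ, true_and, eval_sub, eval_X,
      eval_C, sub_eq_zero]
  have hdv : ∀ k, P k → up ℂ E ∣ up ℂ k ^ 2 + up ℂ v ^ 2 * up ℂ w := fun k hk => by
    have := Polynomial.map_dvd (Int.castRingHom ℂ) (h1 k hk).2.2.2.2.1
    simpa only [Polynomial.map_add, Polynomial.map_mul, Polynomial.map_pow] using this
  have hA := Cnt.pi (ι := Fin e) (P := fun i (z : ℂ) =>
    1 * z ^ 2 = -((up ℂ v ^ 2 * up ℂ w).eval (θ i))) (B := fun _ => 2)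
    (fun i => win_sq 1 _ one_ne_zero)
  have hB := Cnt.pi (ι := Fin (t - e)) (P := fun _ (z : ℤ) => |(z : ℝ)| ≤ T)
    (B := fun _ => 2 * T + 1) (fun _ => cnt_int_abs T hT)
  have hC := Cnt.prod (Q := fun _ (z : Fin (t - e) → ℤ) => ∀ i, |(z i : ℝ)| ≤ T) hA hB.nonneg
    (fun _ _ => hB)
  simp only [Finset.prod_const, Finset.card_univ, Fintype.card_fin] at hC
  refine hC.inj (fun k => (fun i => (up ℂ k).eval (θ i), fun j => k.coeff (e + j))) ?_ ?_
  · intro k hk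
    refine ⟨fun i => ?_, fun j => ?_⟩
    · have := eval_eq_zero_of_dvd_of_eval_eq_zero (hdv k hk) ((hr _).2 ⟨i, rfl⟩)
      rw [eval_add, eval_pow] at this
      linear_combination this
    · have := sup_le_iff.1 (h1 k hk).2.2.2.2.2 (e + j)
      simpa [Int.norm_eq_abs] using this
  · intro k k' hk hk' h
    simp only [Prod.mk.injEq] at h
    have hc : IsCoprime (up ℂ k) (up ℂ v) := by
      rw [← hup, ← hup]
      exact (h1 k hk).2.2.2.1.map (mapRingHom (algebraMap ℚ ℂ))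
    have h3 := win_loc hE' hc hw' (hdv k hk) (hdv k' hk') (fun z hz => by
      obtain ⟨i, rfl⟩ := (hr z).1 hz
      exact congrFun h.1 i)
    have h4 : (k - k').degree < e := by
      rw [degree_lt_iff_coeff_zero]
      intro m hm
      by_cases hmt : m < t
      · have := congrFun h.2 ⟨m - e, by omega⟩
        simp only [show e + (m - e) = m by omega] at this
        rw [coeff_sub, this, sub_self]
      · exact (degree_lt_iff_coeff_zero _ _).1 (h2 k k' hk hk') m (by omega)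
    have h5 : up ℂ (k - k') = 0 := by
      refine eq_zero_of_dvd_of_degree_lt (p := up ℂ E) (by simpa [up] using h3) ?_
      rw [degree_map_eq_of_injective hinj, degree_eq_natDegree hE', he']
      exact h4
    exact sub_eq_zero.1 ((Polynomial.map_eq_zero_iff hinj).1 h5)

end Pool.Agent.VW
end

-- part Pool.Agent.P.MP_b0ea37_nt.WMwb
section

namespace Pool.Agent.VW

open Polynomial

/-- the reduced window data -/
def WD (n e : ℕ) (T : ℝ) (E w v k : ℤ[X]) : Prop :=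
  E ≠ 0 ∧ E.natDegree = e ∧ Squarefree (up ℚ w) ∧ IsCoprime (up ℚ k) (up ℚ v) ∧
    (∃ f : ℤ[X], f.Monic ∧ f.natDegree = n ∧ f * E = k ^ 2 + v ^ 2 * w) ∧ k.supNorm ≤ T

theorem WD.base {n e : ℕ} {T : ℝ} {E w v k : ℤ[X]} (h : WD n e T E w v k) :
    E ≠ 0 ∧ E.natDegree = e ∧ Squarefree (up ℚ w) ∧
      IsCoprime (up ℚ k) (up ℚ v) ∧ E ∣ k ^ 2 + v ^ 2 * w ∧ k.supNorm ≤ T := by
  obtain ⟨h1, h2, h3, h4, ⟨f, -, -, h5⟩, h6⟩ := h
  exact ⟨h1, h2, h3, h4, Dvd.intro_left _ h5, h6⟩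

theorem win_top {n e κ : ℕ} {T : ℝ} {E w v k k' : ℤ[X]} (h : WD n e T E w v k)
    (h' : WD n e T E w v k') (hk : k.natDegree = κ) (hk' : k'.natDegree = κ) (hκ : κ < n)
    (hl : k.leadingCoeff + k'.leadingCoeff ≠ 0) : (k - k').degree < ((n + e - κ : ℕ) : WithBot ℕ) := by
  obtain ⟨hE, he, -, -, ⟨f, hm, hn, h5⟩, -⟩ := h
  obtain ⟨-, -, -, -, ⟨f', hm', hn', h5'⟩, -⟩ := h'
  by_cases h0 : k - k' = 0
  · rw [h0, degree_zero]
    exact WithBot.bot_lt_coe _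
  have hc : (k + k').coeff κ ≠ 0 := by
    rw [coeff_add]
    rw [leadingCoeff, leadingCoeff, hk, hk'] at hl
    exact hl
  have h1 : k + k' ≠ 0 := fun h => hc (by rw [h, coeff_zero])
  have h2 : κ ≤ (k + k').natDegree := le_natDegree_of_ne_zero hc
  have h3 : (k - k') * (k + k') = (f - f') * E := by linear_combination h5' - h5
  have h4 : f - f' ≠ 0 := fun h => mul_ne_zero h0 h1 (by rw [h3, h, zero_mul])
  have h6 : (f - f').natDegree < n := by
    rw [natDegree_lt_iff_degree_lt h4, ← hn, ← degree_eq_natDegree hm.ne_zero]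
    exact degree_sub_lt_left (by rw [degree_eq_natDegree hm.ne_zero, degree_eq_natDegree hm'.ne_zero,
      hn, hn']) hm.ne_zero (by rw [hm.leadingCoeff, hm'.leadingCoeff])
  have h7 := congrArg natDegree h3
  rw [natDegree_mul h0 h1, natDegree_mul h4 hE] at h7
  rw [← natDegree_lt_iff_degree_lt h0]
  omega

theorem win_k1 (n e κ : ℕ) (hκ : κ < n) (T : ℝ) (hT : 0 ≤ T) (E w v : ℤ[X]) :
    Cnt (fun k => WD n e T E w v k ∧ k ≠ 0 ∧ k.natDegree = κ)
      (2 * (2 ^ e * (2 * T + 1) ^ (n - κ))) := by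
  have h1 := win_k E v w e (n + e - κ) T hT
    (fun k => (WD n e T E w v k ∧ k.natDegree = κ) ∧ 0 < k.leadingCoeff) (fun k hk => hk.1.1.base)
    (fun k k' hk hk' => win_top hk.1.1 hk'.1.1 hk.1.2 hk'.1.2 hκ (add_pos hk.2 hk'.2).ne')
  have h2 := win_k E v w e (n + e - κ) T hT
    (fun k => (WD n e T E w v k ∧ k.natDegree = κ) ∧ k.leadingCoeff < 0) (fun k hk => hk.1.1.base)
    (fun k k' hk hk' => win_top hk.1.1 hk'.1.1 hk.1.2 hk'.1.2 hκ (add_neg hk.2 hk'.2).ne)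
  refine (h1.or h2).mono ?_ (le_of_eq ?_)
  · rintro k ⟨hk, h0, hd⟩
    rcases lt_or_gt_of_ne (leadingCoeff_ne_zero.2 h0) with h | h
    · exact Or.inr ⟨⟨hk, hd⟩, h⟩
    · exact Or.inl ⟨⟨hk, hd⟩, h⟩
  · rw [show n + e - κ - e = n - κ by omega]
    ring

theorem win_k2 (n e a : ℕ) (T : ℝ) (hT : 0 ≤ T) (E w v : ℤ[X]) :
    Cnt (fun k => WD n e T E w v k ∧ k.natDegree ≤ a)
      (2 * (2 ^ e * (2 * T + 1) ^ (a + 1 - e))) := by
  have h1 := win_k E v w e (a + 1) T hT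
    (fun k => WD n e T E w v k ∧ k.natDegree ≤ a) (fun k hk => hk.1.base)
    (fun k k' hk hk' => by
      have : (k - k').natDegree ≤ a := (natDegree_sub_le _ _).trans (max_le hk.2 hk'.2)
      exact degree_le_natDegree.trans_lt (by exact_mod_cast Nat.lt_succ_of_le this))
  exact h1.mono (fun _ h => h) (by linarith [h1.nonneg])

theorem win_v2 (a N : ℕ) (B : ℝ) (hB : 0 ≤ B) (E w : ℤ[X]) :
    Cnt (fun v : ℤ[X] => w ≠ 0 ∧ v.natDegree ≤ a ∧ 2 * v.natDegree + w.natDegree = N ∧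
      w.leadingCoeff * v.leadingCoeff ^ 2 = E.leadingCoeff ∧ v.supNorm ≤ B)
      (2 * (2 * B + 1) ^ a) := by
  refine Cnt.of_mem (by positivity) fun v₀ hv₀ => ?_
  have hw : ((w.leadingCoeff : ℤ) : ℂ) ≠ 0 := by exact_mod_cast leadingCoeff_ne_zero.2 hv₀.1
  have h3 := cnt_poly a B hB
  have h4 := Cnt.prod (Q := fun (_ : ℂ) (g : ℤ[X]) => g.degree < a ∧ g.supNorm ≤ B)
    (win_sq _ (E.leadingCoeff : ℂ) hw) h3.nonneg (fun _ _ => h3)
  refine h4.inj (fun v => ((v.leadingCoeff : ℂ), v.eraseLead)) ?_ ?_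
  · rintro v ⟨-, hm, -, hl, hs⟩
    refine ⟨?_, ?_, ?_⟩
    · show (w.leadingCoeff : ℂ) * (v.leadingCoeff : ℂ) ^ 2 = E.leadingCoeff
      exact_mod_cast hl
    · by_cases hv : v = 0
      · subst hv
        simp
      · exact (degree_eraseLead_lt hv).trans_le (natDegree_le_iff_degree_le.1 hm)
    · show v.eraseLead.supNorm ≤ B
      rw [sup_le_iff] at hs ⊢
      intro i
      rw [eraseLead_coeff]
      split_ifs
      · simpa using hB
      · exact hs i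
  · intro u v hu hv h
    simp only [Prod.mk.injEq, Int.cast_inj] at h
    rw [← eraseLead_add_monomial_natDegree_leadingCoeff u,
      ← eraseLead_add_monomial_natDegree_leadingCoeff v, h.2]
    congr 1
    rw [h.1, show u.natDegree = v.natDegree by have := hu.2.2.1; have := hv.2.2.1; omega]

theorem win_comb (e : ℕ) (BE Tw BV BK : ℝ) (hE : 0 ≤ BE) (hw : 0 ≤ Tw)
    (V : ℤ[X] → ℤ[X] → ℤ[X] → Prop) (K : ℤ[X] → ℤ[X] → ℤ[X] → ℤ[X] → Prop)
    (hV : ∀ E w, Cnt (V E w) BV) (hK : ∀ E w v, Cnt (K E w v) BK) :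
    Cnt (fun f : ℤ[X] => ∃ E, (E.degree < ((e + 1 : ℕ) : WithBot ℕ) ∧ E.supNorm ≤ BE) ∧
      ∃ w, (w.degree < ((3 : ℕ) : WithBot ℕ) ∧ w.supNorm ≤ Tw) ∧ ∃ v, V E w v ∧ ∃ k, K E w v k ∧
        (E ≠ 0 ∧ f * E = k ^ 2 + v ^ 2 * w))
      ((2 * BE + 1) ^ (e + 1) * ((2 * Tw + 1) ^ 3 * (BV * (BK * 1)))) := by
  have b1 := (hV 0 0).nonneg
  have b2 := (hK 0 0 0).nonneg
  refine Cnt.fibre (cnt_poly (e + 1) BE hE) (by positivity) fun E _ => ?_
  refine Cnt.fibre (cnt_poly 3 Tw hw) (by positivity) fun w _ => ?_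
  refine Cnt.fibre (hV E w) (by positivity) fun v _ => ?_
  refine Cnt.fibre (hK E w v) zero_le_one fun k _ => Cnt.one fun f f' h h' => ?_
  exact mul_right_cancel₀ h.1 (h.2.trans h'.2.symm)

theorem win_size (n e p q : ℕ) (Tw Xm Om E0 : ℝ) (hw : 1 ≤ Tw) (hX : 1 ≤ Xm) (hO : 1 ≤ Om)
    (hE : Om ≤ E0) (h1 : p + q ≤ n) (h2 : q + e + 1 ≤ n) (h3 : 1 ≤ q) :
    (2 * (4 ^ n * E0) + 1) ^ (e + 1) * ((2 * Tw + 1) ^ 3 * ((2 * (2 * (4 ^ n * Xm) + 1) ^ p) *
      ((2 * (2 ^ e * (2 * (4 ^ n * (Om * Xm)) + 1) ^ q)) * 1))) ≤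
      (108 * 2 ^ n * (3 * 4 ^ n) ^ n * (3 * 4 ^ n) ^ n) * (Tw ^ 3 * Xm ^ n * Om * E0 ^ (n - 1)) := by
  have h4 : (1 : ℝ) ≤ 4 ^ n := one_le_pow₀ (by norm_num)
  have hE1 : 1 ≤ E0 := hO.trans hE
  obtain ⟨D, hD⟩ : ∃ D : ℝ, D = 3 * 4 ^ n := ⟨_, rfl⟩
  have hD1 : 1 ≤ D := by linarith
  have hb : ∀ y : ℝ, 1 ≤ y → 2 * (4 ^ n * y) + 1 ≤ D * y := fun y hy => by
    have : 1 ≤ 4 ^ n * y := one_le_mul_of_one_le_of_one_le h4 hy
    rw [hD]
    linarith
  have hOX : 1 ≤ Om * Xm := one_le_mul_of_one_le_of_one_le hO hX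
  obtain ⟨r, rfl⟩ : ∃ r, q = r + 1 := ⟨q - 1, by omega⟩
  have a1 : Om ^ r * E0 ^ (e + 1) ≤ E0 ^ (n - 1) := by
    calc Om ^ r * E0 ^ (e + 1) ≤ E0 ^ r * E0 ^ (e + 1) := by gcongr
      _ = E0 ^ (r + (e + 1)) := by rw [← pow_add]
      _ ≤ _ := pow_le_pow_right₀ hE1 (by omega)
  have a2 : Xm ^ (p + (r + 1)) ≤ Xm ^ n := pow_le_pow_right₀ hX h1
  have a3 : D ^ (p + (r + 1)) ≤ D ^ n := pow_le_pow_right₀ hD1 h1
  have a4 : D ^ (e + 1) ≤ D ^ n := pow_le_pow_right₀ hD1 (by omega)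
  have a5 : (2 : ℝ) ^ e ≤ 2 ^ n := pow_le_pow_right₀ (by norm_num) (by omega)
  rw [← hD]
  calc _ ≤ (D * E0) ^ (e + 1) * ((3 * Tw) ^ 3 * ((2 * (D * Xm) ^ p) *
        ((2 * (2 ^ e * (D * (Om * Xm)) ^ (r + 1))) * 1))) := by
        have := hb _ hE1
        have := hb _ hX
        have := hb _ hOX
        have : 2 * Tw + 1 ≤ 3 * Tw := by linarith
        gcongr
    _ = (108 * 2 ^ e * D ^ (e + 1) * D ^ (p + (r + 1))) *
        (Tw ^ 3 * Xm ^ (p + (r + 1)) * Om * (Om ^ r * E0 ^ (e + 1))) := by ring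
    _ ≤ _ := by gcongr

theorem win_cnt (n : ℕ) : ∃ C : ℝ, 1 ≤ C ∧ ∀ Tw Xm Om E0 : ℝ, 1 ≤ Tw → 1 ≤ Xm → 1 ≤ Om → Om ≤ E0 →
    Cnt (fun f : ℤ[X] => f.Monic ∧ f.natDegree = n ∧ ∃ E k v w : ℤ[X],
      f * E = k ^ 2 + v ^ 2 * w ∧ E ≠ 0 ∧ v ≠ 0 ∧ IsCoprime (up ℚ k) (up ℚ v) ∧
      E.natDegree + 2 ≤ n ∧ k.natDegree < n ∧ (w.natDegree = 1 ∨ w.natDegree = 2) ∧
      Squarefree (up ℚ w) ∧ w.supNorm ≤ Tw ∧ E.supNorm ≤ 4 ^ n * E0 ∧
      k.supNorm ≤ 4 ^ n * (Om * Xm) ∧ v.supNorm ≤ 4 ^ n * Xm)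
      (C * Tw ^ 3 * Xm ^ n * Om * E0 ^ (n - 1)) := by
  obtain ⟨C, hC⟩ : ∃ C : ℝ, C = 108 * 2 ^ n * (3 * 4 ^ n) ^ n * (3 * 4 ^ n) ^ n := ⟨_, rfl⟩
  have hC0 : 0 ≤ C := by rw [hC]; positivity
  refine ⟨n * (n * C + C) + 1, by have : 0 ≤ n * (n * C + C) := by positivity
                                  linarith, fun Tw Xm Om E0 hw hX hO hE => ?_⟩
  obtain ⟨M, hM⟩ : ∃ M : ℝ, M = Tw ^ 3 * Xm ^ n * Om * E0 ^ (n - 1) := ⟨_, rfl⟩
  have hE1 : 1 ≤ E0 := hO.trans hE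
  have hM0 : 0 ≤ M := by rw [hM]; positivity
  have p1 : (0 : ℝ) ≤ 4 ^ n * E0 := by positivity
  have p2 : (0 : ℝ) ≤ 4 ^ n * Xm := by positivity
  have p3 : (0 : ℝ) ≤ 4 ^ n * (Om * Xm) := by positivity
  have c1 := fun (e κ : ℕ) (h1 : e + 2 ≤ n) (h2 : κ < n) (h3 : n + e ≤ 2 * κ) =>
    (win_comb e (4 ^ n * E0) Tw _ _ p1 (by linarith)
      (fun _ _ v => v.degree < κ ∧ v.supNorm ≤ 4 ^ n * Xm)
      (fun E w v k => WD n e (4 ^ n * (Om * Xm)) E w v k ∧ k ≠ 0 ∧ k.natDegree = κ)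
      (fun _ _ => (cnt_poly κ _ p2).mono (B' := 2 * (2 * (4 ^ n * Xm) + 1) ^ κ) (fun _ h => h)
        (by linarith [(cnt_poly κ _ p2).nonneg]))
      (fun E w v => win_k1 n e κ h2 _ p3 E w v)).mono (fun _ h => h)
      (win_size n e κ (n - κ) Tw Xm Om E0 hw hX hO hE (by omega) (by omega) (by omega))
  have c2 := fun (e : ℕ) (h1 : e + 2 ≤ n) =>
    (win_comb e (4 ^ n * E0) Tw _ _ p1 (by linarith) _
      (fun E w v k => WD n e (4 ^ n * (Om * Xm)) E w v k ∧ k.natDegree ≤ (n + e - 1) / 2)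
      (fun E w => win_v2 ((n + e - 1) / 2) (n + e) _ p2 E w)
      (fun E w v => win_k2 n e _ _ p3 E w v)).mono (fun _ h => h)
      (win_size n e _ ((n + e - 1) / 2 + 1 - e) Tw Xm Om E0 hw hX hO hE (by omega) (by omega)
        (by omega))
  rw [← hC, ← hM] at c1 c2
  have hr : Cnt (fun i : ℕ => i ∈ Finset.range n) n := by
    simpa using Cnt.finset (Finset.range n)
  have c3 := fun (e : ℕ) (h1 : e + 2 ≤ n) =>
    (Cnt.fibre (hr.mono (P := fun κ => κ < n ∧ n + e ≤ 2 * κ) (fun _ h => Finset.mem_range.2 h.1)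
      le_rfl) (mul_nonneg hC0 hM0) (fun κ h => c1 e κ h1 h.1 h.2)).or (c2 e h1)
  have c4 := Cnt.fibre (hr.mono (P := fun e => e + 2 ≤ n)
    (fun _ h => Finset.mem_range.2 (by omega)) le_rfl) (by positivity) c3
  refine c4.mono ?_ ?_
  · rintro f ⟨hm, hn, E, k, v, w, he, hE0, hv, hc, hEn, hk, hw, hs, s1, s2, s3, s4⟩
    have hw0 : w ≠ 0 := by
      rintro rfl
      simp at hw
    have hW : WD n E.natDegree (4 ^ n * (Om * Xm)) E w v k :=
      ⟨hE0, rfl, hs, hc, ⟨f, hm, hn, he⟩, s3⟩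
    have d1 : E.degree < ((E.natDegree + 1 : ℕ) : WithBot ℕ) :=
      (natDegree_lt_iff_degree_lt hE0).1 (Nat.lt_succ_self _)
    have d2 : w.degree < ((3 : ℕ) : WithBot ℕ) := (natDegree_lt_iff_degree_lt hw0).1 (by omega)
    have d3 : (f * E).natDegree = n + E.natDegree := by rw [natDegree_mul hm.ne_zero hE0, hn]
    have d4 : (v ^ 2 * w).natDegree = 2 * v.natDegree + w.natDegree := by
      rw [natDegree_mul (pow_ne_zero _ hv) hw0, natDegree_pow]
    have d5 : (k ^ 2).natDegree = 2 * k.natDegree := natDegree_pow _ _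
    have e2 : v ^ 2 * w = f * E - k ^ 2 := by rw [he]; ring
    refine ⟨E.natDegree, hEn, ?_⟩
    by_cases hκ : n + E.natDegree ≤ 2 * k.natDegree
    · refine Or.inl ⟨k.natDegree, ⟨hk, hκ⟩, E, ⟨d1, s2⟩, w, ⟨d2, s1⟩, v, ⟨?_, s4⟩, k,
        ⟨hW, ?_, rfl⟩, hE0, he⟩
      · have := natDegree_sub_le (f * E) (k ^ 2)
        rw [← e2, d3, d4, d5] at this
        exact (natDegree_lt_iff_degree_lt hv).1 (by omega)
      · rintro rfl
        simp only [natDegree_zero] at hκ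
        omega
    · have d6 : (k ^ 2).degree < (f * E).degree := degree_lt_degree (by omega)
      have d7 := natDegree_sub_eq_left_of_natDegree_lt (p := f * E) (q := k ^ 2) (by omega)
      have d8 := leadingCoeff_sub_of_degree_lt d6
      rw [← e2] at d7 d8
      rw [leadingCoeff_mul, leadingCoeff_mul, leadingCoeff_pow, hm.leadingCoeff, one_mul] at d8
      exact Or.inr ⟨E, ⟨d1, s2⟩, w, ⟨d2, s1⟩, v, ⟨hw0, by omega, by omega, by rw [← d8]; ring, s4⟩,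
        k, ⟨hW, by omega⟩, hE0, he⟩
  · calc (n : ℝ) * (n * (C * M) + C * M) = n * (n * C + C) * M := by ring
      _ ≤ (n * (n * C + C) + 1) * M := by nlinarith
      _ = _ := by rw [hM]; ring

end Pool.Agent.VW
end

-- part Pool.Agent.P.MP_b0ea37_nt.WMwin
section

namespace Pool.Agent.VW

open Polynomial

theorem cnt_win (n : ℕ) : ∃ C : ℝ, 1 ≤ C ∧ ∀ Tw Xm Om E0 : ℝ, 1 ≤ Tw → 1 ≤ Xm → 1 ≤ Om → Om ≤ E0 →
    Cnt (fun f : ℤ[X] => f.Monic ∧ f.natDegree = n ∧ Irr f ∧ CW n Tw Xm (Om * Xm) E0 f)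
      (C * Tw ^ 3 * Xm ^ n * Om * E0 ^ (n - 1)) := by
  obtain ⟨C, hC, h⟩ := win_cnt n
  refine ⟨C, hC, fun Tw Xm Om E0 hw hX hO hE => (h Tw Xm Om E0 hw hX hO hE).mono ?_ le_rfl⟩
  rintro f ⟨hm, hn, hi, E, k, v, w, he, hv, hEn, hk, hvn, hd, hs, s1, s2, s3, s4⟩
  obtain ⟨E', k', v', a1, a2, a3, a4, a5, a6, a7, a8, a9⟩ :=
    win_red hm hn hi he hv hEn hk hvn (by omega) hs
  have h4 : (0 : ℝ) ≤ 4 ^ n := by positivity
  exact ⟨hm, hn, E', k', v', w, a1, a2, a3, a4, a5, a6, hd, hs, s1,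
    a7.trans (mul_le_mul_of_nonneg_left s4 h4), a8.trans (mul_le_mul_of_nonneg_left s3 h4),
    a9.trans (mul_le_mul_of_nonneg_left s2 h4)⟩

theorem CW.mono {n : ℕ} {a b c d a' b' c' d' : ℝ} {f : ℤ[X]} (h : CW n a b c d f) (ha : a ≤ a')
    (hb : b ≤ b') (hc : c ≤ c') (hd : d ≤ d') : CW n a' b' c' d' f := by
  obtain ⟨E, k, v, w, he, hv, hEn, hk, hvn, hw, hs, s1, s2, s3, s4⟩ := h
  exact ⟨E, k, v, w, he, hv, hEn, hk, hvn, hw, hs, s1.trans ha, s2.trans hb, s3.trans hc,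
    s4.trans hd⟩

theorem win_prod (r : ℕ) (A d s u t : ℝ) (hu : u ≠ 0) :
    (A * d ^ 2 * (t * u) ^ (2 * (r + 1))) ^ 3 * (A * s / u) ^ (r + 2) * (A * d * (t * u) ^ (r + 1)) *
      (A * d ^ 2 * (t * u) ^ (2 * (r + 1)) * A ^ 2 / u ^ 2) ^ (r + 1) =
    A ^ (4 * r + 9) * t ^ (2 * r ^ 2 + 11 * r + 9) * d ^ (2 * r + 9) * s ^ (r + 2) *
      u ^ (2 * r ^ 2 + 8 * r + 5) := by
  have h1 : A * d ^ 2 * (t * u) ^ (2 * (r + 1)) * A ^ 2 / u ^ 2 =
      A ^ 3 * d ^ 2 * t ^ (2 * (r + 1)) * u ^ (2 * r) := by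
    field_simp
    ring
  rw [h1, div_pow, ← mul_div_assoc, div_mul_eq_mul_div, div_mul_eq_mul_div,
    div_eq_iff (pow_ne_zero _ hu)]
  ring

theorem win_exp (r : ℝ) (hr : 3 ≤ r) (δ : ℝ) (hδ' : δ ≤ 1 / 1000) (γ : ℝ)
    (hγ : γ * (r + 1) = (r + 2 - 1) / 2 - ((r + 2) * (r + 2 - 2) / (2 * (r + 2 - 1)) - 1 / 1000)) :
    0 ≤ γ ∧ γ ≤ 1 / 2 ∧ γ * (1 / 1000) + (δ / 2 * (2 * r + 9) + 1 / 2 * (r + 2) +
      γ * (2 * r ^ 2 + 8 * r + 5)) < r + 2 - 1 := by
  have h0 : 0 < r + 1 := by linarith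
  obtain ⟨s, hs⟩ : ∃ s : ℝ, s = 1 / (r + 1) := ⟨_, rfl⟩
  have hs1 : s * (r + 1) = 1 := by rw [hs]; field_simp
  have hs0 : 0 < s := by rw [hs]; positivity
  have hs4 : s ≤ 1 / 4 := by nlinarith
  have h1 : γ * (r + 1) = s / 2 + 1 / 1000 := by
    rw [hγ, hs, show r + 2 - 1 = r + 1 by ring]
    field_simp
    ring
  have h2 : γ = (s / 2 + 1 / 1000) * s := by
    rw [← h1, mul_assoc, mul_comm (r + 1), hs1, mul_one]
  have h3 : γ * (2 * r ^ 2 + 8 * r + 5) = (s / 2 + 1 / 1000) * (2 * (r + 1) + 4) - γ := by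
    rw [← h1]
    ring
  have h4 : (s / 2 + 1 / 1000) * (2 * (r + 1) + 4) = 1 + 2 * s + (2 * (r + 1) + 4) / 1000 := by
    linear_combination hs1
  have h5 : s ^ 2 / 2 ≤ γ := by nlinarith
  have h6 : γ ≤ 1 / 2 := by nlinarith
  have h7 : δ / 2 * (2 * r + 9) ≤ 1 / 1000 / 2 * (2 * r + 9) := by gcongr
  refine ⟨by nlinarith, h6, ?_⟩
  rw [h3, h4]
  nlinarith [mul_nonneg (sub_nonneg.2 hs4) (show 0 ≤ 15 / 4 - s by linarith)]

/-- all moduli of the window at once; `G` stands for `H ^ ((n - 1) / 2) / P₀` -/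
theorem ps_win (n : ℕ) (hn : 5 ≤ n) (δ : ℝ) (hδ : 0 ≤ δ) (hδ' : δ ≤ 1 / 1000) (A : ℝ) :
    PS n fun H f => Irr f ∧ ∃ G Xm : ℝ, 1 ≤ G ∧ G ≤ A * H ^ (((n : ℝ) - 1) / 2 - muL n) ∧ 0 ≤ Xm ∧
      Xm ^ (n - 1) * G ≤ A * H ^ (((n : ℝ) - 1) / 2) ∧
      CW n (A * (H ^ δ * G ^ 2)) Xm (A * (H ^ (δ / 2) * G) * Xm) (A * (H ^ δ * G ^ 2) * Xm ^ 2 / H) f := by
  obtain ⟨C, hC, hcnt⟩ := cnt_win n
  obtain ⟨C', hC', hdy⟩ := cnt_dyadic (1 / 1000) (by norm_num)
  obtain ⟨r, rfl⟩ : ∃ r, n = r + 2 := ⟨n - 2, by omega⟩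
  have hr : (3 : ℝ) ≤ r := by exact_mod_cast (show 3 ≤ r by omega)
  obtain ⟨γ, hγ⟩ : ∃ γ : ℝ, γ * (r + 1) = (((r + 2 : ℕ) : ℝ) - 1) / 2 - muL (r + 2) :=
    ⟨_ / (r + 1), div_mul_cancel₀ _ (by positivity)⟩
  obtain ⟨hγ0, hγ1, hγ2⟩ := win_exp r hr δ hδ' γ (by rw [hγ, muL]; push_cast; rfl)
  obtain ⟨B, hB1, hB⟩ : ∃ B : ℝ, 1 ≤ B ∧ A ≤ B := ⟨max 1 A, le_max_left _ _, le_max_right _ _⟩
  have hB0 : 0 < B := by linarith
  refine PS.of_lt (γ * (1 / 1000) + (δ / 2 * (2 * r + 9) + 1 / 2 * (r + 2) +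
      γ * (2 * r ^ 2 + 8 * r + 5)))
    (C' * B ^ (1 / 1000 : ℝ) * (C * (B ^ (4 * r + 9) * 2 ^ (2 * r ^ 2 + 11 * r + 9) *
      B ^ (2 * r ^ 2 + 8 * r + 5)))) 1 (by push_cast; exact hγ2) fun H hH => ?_
  have hH0 : 0 < H := by linarith
  obtain ⟨d, hd⟩ : ∃ d : ℝ, d = H ^ (δ / 2) := ⟨_, rfl⟩
  obtain ⟨s, hs⟩ : ∃ s : ℝ, s = H ^ (1 / 2 : ℝ) := ⟨_, rfl⟩
  obtain ⟨g, hg⟩ : ∃ g : ℝ, g = H ^ γ := ⟨_, rfl⟩
  have hd1 : 1 ≤ d := by rw [hd]; exact Real.one_le_rpow hH (by linarith)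
  have hs1 : 1 ≤ s := by rw [hs]; exact Real.one_le_rpow hH (by norm_num)
  have hg1 : 1 ≤ g := by rw [hg]; exact Real.one_le_rpow hH hγ0
  have hgs : g ≤ s := by rw [hg, hs]; exact Real.rpow_le_rpow_of_exponent_le hH hγ1
  have hpw : ∀ (x : ℝ) (k : ℕ), (H ^ x) ^ k = H ^ (x * k) := fun x k => by
    rw [Real.rpow_mul hH0.le, Real.rpow_natCast]
  have hd2 : H ^ δ = d ^ 2 := by rw [hd, hpw]; congr 1; push_cast; ring
  have hs2 : s ^ 2 = H := by rw [hs, hpw]; norm_num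
  have hsm : H ^ ((((r + 2 : ℕ) : ℝ) - 1) / 2) = s ^ (r + 1) := by
    rw [hs, hpw]; congr 1; push_cast; ring
  have hgm : H ^ ((((r + 2 : ℕ) : ℝ) - 1) / 2 - muL (r + 2)) = g ^ (r + 1) := by
    rw [hg, hpw, ← hγ]; congr 1; push_cast; ring
  have hBm : B ≤ B ^ (r + 1) := le_self_pow₀ hB1 r.succ_ne_zero
  have key : ∀ j : ℕ, (2 : ℝ) ^ j ≤ B * g → Cnt (fun f : ℤ[X] => f.Monic ∧ f.natDegree = r + 2 ∧
      Irr f ∧ CW (r + 2) (B * d ^ 2 * (2 * 2 ^ j) ^ (2 * (r + 1))) (B * s / 2 ^ j)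
        (B * d * (2 * 2 ^ j) ^ (r + 1) * (B * s / 2 ^ j))
        (B * d ^ 2 * (2 * 2 ^ j) ^ (2 * (r + 1)) * B ^ 2 / (2 ^ j) ^ 2) f)
      (C * (B ^ (4 * r + 9) * 2 ^ (2 * r ^ 2 + 11 * r + 9) * B ^ (2 * r ^ 2 + 8 * r + 5)) *
        (d ^ (2 * r + 9) * s ^ (r + 2) * g ^ (2 * r ^ 2 + 8 * r + 5))) := by
    intro j hj
    have hu1 : (1 : ℝ) ≤ 2 ^ j := one_le_pow₀ (by norm_num)
    generalize (2 : ℝ) ^ j = u at hj hu1
    have hu0 : 0 < u := by linarith
    have b1 : 1 ≤ (2 * u) ^ (r + 1) := one_le_pow₀ (by linarith)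
    have b2 : 1 ≤ B * d := one_le_mul_of_one_le_of_one_le hB1 hd1
    have b3 : 1 ≤ B * d * (2 * u) ^ (r + 1) := one_le_mul_of_one_le_of_one_le b2 b1
    have b4 : u ^ 2 ≤ d * (2 * u) ^ (r + 1) * B ^ 2 := by
      calc u ^ 2 ≤ (2 * u) ^ 2 := by gcongr; linarith
        _ ≤ (2 * u) ^ (r + 1) := pow_le_pow_right₀ (by linarith) (by omega)
        _ = 1 * (2 * u) ^ (r + 1) * 1 := by ring
        _ ≤ _ := by gcongr; exact one_le_pow₀ hB1
    refine (hcnt _ _ _ _ ?_ ?_ b3 ?_).mono (fun _ h => h) ?_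
    · exact one_le_mul_of_one_le_of_one_le
        (one_le_mul_of_one_le_of_one_le hB1 (one_le_pow₀ hd1)) (one_le_pow₀ (by linarith))
    · rw [le_div_iff₀ hu0, one_mul]
      exact hj.trans (by gcongr)
    · rw [le_div_iff₀ (by positivity)]
      calc B * d * (2 * u) ^ (r + 1) * u ^ 2
          ≤ B * d * (2 * u) ^ (r + 1) * (d * (2 * u) ^ (r + 1) * B ^ 2) := by gcongr
        _ = _ := by ring
    · have e := win_prod r B d s u 2 hu0.ne'
      rw [show r + 2 - 1 = r + 1 from rfl, mul_assoc C, mul_assoc C, mul_assoc C, e, mul_assoc C]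
      calc _ ≤ C * (B ^ (4 * r + 9) * 2 ^ (2 * r ^ 2 + 11 * r + 9) * d ^ (2 * r + 9) * s ^ (r + 2) *
          (B * g) ^ (2 * r ^ 2 + 8 * r + 5)) := by gcongr
        _ = _ := by rw [mul_pow]; ring
  have h := Cnt.fibre (hdy (B * g) (one_le_mul_of_one_le_of_one_le hB1 hg1)) (by positivity) key
  refine h.mono ?_ (le_of_eq ?_)
  · rintro f ⟨⟨hm, hf, -, -⟩, hi, G, Xm, hG1, hG2, hX0, hX, hW⟩
    rw [hgm] at hG2
    rw [hsm, show r + 2 - 1 = r + 1 from rfl] at hX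
    rw [hd2, ← hd] at hW
    have hG0 : 0 < G := by linarith
    have hA : 0 ≤ A := by
      by_contra hA
      have : A * g ^ (r + 1) ≤ 0 := mul_nonpos_of_nonpos_of_nonneg (by linarith) (by positivity)
      linarith
    have hy : (G ^ (((r + 1 : ℕ) : ℝ)⁻¹)) ^ (r + 1) = G :=
      Real.rpow_inv_natCast_pow hG0.le r.succ_ne_zero
    obtain ⟨j, hj1, hj2⟩ := exists_dyadic (G ^ (((r + 1 : ℕ) : ℝ)⁻¹))
      (Real.one_le_rpow hG1 (by positivity))
    have hu1 : (1 : ℝ) ≤ 2 ^ j := one_le_pow₀ (by norm_num)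
    have hy0 : 0 ≤ G ^ (((r + 1 : ℕ) : ℝ)⁻¹) := by positivity
    have g1 : ((2 : ℝ) ^ j) ^ (r + 1) ≤ G := by rw [← hy]; gcongr
    have g2 : G ≤ (2 * (2 : ℝ) ^ j) ^ (r + 1) := by
      conv_lhs => rw [← hy]
      gcongr
    refine ⟨j, ?_, hm, hf, hi, ?_⟩
    · refine le_of_pow_le_pow_left₀ r.succ_ne_zero (by positivity) (g1.trans (hG2.trans ?_))
      rw [mul_pow]
      gcongr
      exact hB.trans hBm
    generalize (2 : ℝ) ^ j = u at g1 g2 hu1
    have hu0 : 0 < u := by linarith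
    have g3 : Xm ≤ B * s / u := by
      rw [le_div_iff₀ hu0]
      refine le_of_pow_le_pow_left₀ r.succ_ne_zero (by positivity) ?_
      calc (Xm * u) ^ (r + 1) = Xm ^ (r + 1) * u ^ (r + 1) := mul_pow _ _ _
        _ ≤ Xm ^ (r + 1) * G := by gcongr
        _ ≤ A * s ^ (r + 1) := hX
        _ ≤ B ^ (r + 1) * s ^ (r + 1) := by gcongr; exact hB.trans hBm
        _ = _ := (mul_pow _ _ _).symm
    have g4 : A * (d ^ 2 * G ^ 2) ≤ B * d ^ 2 * (2 * u) ^ (2 * (r + 1)) := by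
      rw [mul_comm 2 (r + 1), pow_mul, mul_assoc]
      gcongr
    refine hW.mono g4 g3 ?_ ?_
    · rw [mul_assoc B d]
      gcongr
    · calc A * (d ^ 2 * G ^ 2) * Xm ^ 2 / H
          ≤ B * d ^ 2 * (2 * u) ^ (2 * (r + 1)) * (B * s / u) ^ 2 / H := by gcongr
        _ = _ := by
          rw [← hs2]
          field_simp
  · rw [Real.mul_rpow hB0.le (by linarith), hd, hs, hg, hpw, hpw, hpw, ← Real.rpow_mul hH0.le,
      Real.rpow_add hH0, Real.rpow_add hH0, Real.rpow_add hH0]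
    push_cast
    ring

end Pool.Agent.VW
end

-- part Pool.Agent.P.MP_b0ea37_nt.WMid
section

namespace Pool.Agent.VW

open Polynomial

/-- section 5 -/
theorem ps_mid (n : ℕ) (hn : 5 ≤ n) : PS n fun H f => Irr f ∧ Prim f ∧
    ∃ (P : ℕ) (r : ℤ), P.Prime ∧ H ^ muL n < P ∧ (P : ℝ) ≤ H ^ ((n : ℝ) - 1 - cF n) ∧ Wk P r f := by
  obtain ⟨δ, hδ, hδ', hcc⟩ := ps_cc n hn
  obtain ⟨d, j, g, hd, hnd, hj, he⟩ : ∃ d j g : ℕ, d = 2 * g + 3 ∧ n = d + 1 + j ∧
      (j = 1 ∨ j = 2) ∧ (n : ℝ) - 1 - cF n ≤ (d : ℝ) + 1 - 1 / 25 := by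
    rcases Nat.even_or_odd' n with ⟨k, hk | hk⟩
    · refine ⟨2 * (k - 3) + 3, 2, k - 3, rfl, by omega, Or.inr rfl, ?_⟩
      have h1 : n = 2 * (k - 3) + 3 + 3 := by omega
      have h2 : (n : ℝ) = ((2 * (k - 3) + 3 : ℕ) : ℝ) + 3 := by exact_mod_cast h1
      rw [cF, if_neg (by omega), h2]; linarith
    · refine ⟨2 * (k - 2) + 3, 1, k - 2, rfl, by omega, Or.inl rfl, ?_⟩
      have h1 : n = 2 * (k - 2) + 3 + 2 := by omega
      have h2 : (n : ℝ) = ((2 * (k - 2) + 3 : ℕ) : ℝ) + 2 := by exact_mod_cast h1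
      rw [cF, h2]; split_ifs <;> linarith
  obtain ⟨A, hA⟩ := ps_top n d j g hd hnd hj δ hδ
  refine (hA.or ((hcc A).or (ps_win n hn δ hδ.le hδ' A))).mono 1 fun H hH f _ hf => ?_
  by_cases hE : Exq n δ A H f
  · exact Or.inr hE
  · obtain ⟨h1, h2, P, r, h3, h4, h5, h6⟩ := hf
    exact Or.inl ⟨⟨h1, h2, P, r, h3, h4, h5.trans (Real.rpow_le_rpow_of_exponent_le hH he), h6⟩, hE⟩

end Pool.Agent.VW
end

-- part Pool.Agent.P.MP_b0ea37_nt.WCd
section

namespace Pool.Agent.VW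

open Polynomial

/-- the discriminant is almost a square `y ^ 2` and `y` divides all `Phi` -/
def Core (n : ℕ) (η H : ℝ) (f : ℤ[X]) : Prop :=
  ∃ q y : ℤ, Dv n f = q * y ^ 2 ∧ |(q : ℝ)| ≤ H ^ η ∧ H ^ ((n : ℝ) - 1 - η) ≤ |(y : ℝ)| ∧
    ∀ k : ℕ, y ∣ Phi n k f

end Pool.Agent.VW
end

-- part Pool.Agent.P.MP_b0ea37_nt.VTRes
section

/-! Resultants of coprime polynomials over a factorial ring; small integer kernels. -/

open Polynomial Finset

namespace Pool.Agent.VT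

theorem res_ne_zero {R : Type} [CommRing R] [IsDomain R] [UniqueFactorizationMonoid R]
    {A B : R[X]} (hA : Irreducible A) (hd : A.natDegree ≠ 0) (hB : ¬ A ∣ B) :
    resultant A B ≠ 0 := by
  classical
  let : NormalizedGCDMonoid R := Classical.choice inferInstance
  let K := FractionRing R
  have hp : A.IsPrimitive := hA.isPrimitive hd
  have h1 : Irreducible (A.map (algebraMap R K)) :=
    (hp.irreducible_iff_irreducible_map_fraction_map).1 hA
  have h2 := resultant_ne_zero _ _ (h1.coprime_iff_not_dvd.2 fun h =>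
    hB (hp.dvd_of_fraction_map_dvd_fraction_map (K := K) h))
  have hi := IsFractionRing.injective R K
  rw [natDegree_map_eq_of_injective hi, natDegree_map_eq_of_injective hi, resultant_map_map] at h2
  exact fun h => h2 (by rw [h, map_zero])

theorem biv_monomial (m : Fin 2 →₀ ℕ) (c : ℚ) :
    (Bivariate.equivMvPolynomial ℚ).symm (MvPolynomial.monomial m c) =
      monomial (m 1) (monomial (m 0) c) := by
  rw [MvPolynomial.monomial_eq, Finsupp.prod_fintype _ _ (by simp), Fin.prod_univ_two]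
  simp only [map_mul, map_pow, Bivariate.equivMvPolynomial_symm_X_0,
    Bivariate.equivMvPolynomial_symm_X_1, Bivariate.equivMvPolynomial_symm_C,
    ← C_mul_X_pow_eq_monomial]
  ring

theorem biv_deg {A : MvPolynomial (Fin 2) ℚ} {E : ℕ} (hA : A.totalDegree ≤ E) :
    ((Bivariate.equivMvPolynomial ℚ).symm A).natDegree ≤ E ∧
      ∀ i, (((Bivariate.equivMvPolynomial ℚ).symm A).coeff i).natDegree ≤ E := by
  have h : ∀ m ∈ A.support, ∀ i, m i ≤ E := fun m hm i =>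
    (MvPolynomial.monomial_le_degreeOf i hm).trans ((MvPolynomial.degreeOf_le_totalDegree A i).trans hA)
  rw [A.as_sum, map_sum]
  simp only [biv_monomial]
  refine ⟨natDegree_sum_le_of_forall_le _ _ fun m hm => (natDegree_monomial_le _).trans (h m hm 1),
    fun i => ?_⟩
  rw [finsetSum_coeff]
  refine natDegree_sum_le_of_forall_le _ _ fun m hm => ?_
  rw [coeff_monomial]
  split_ifs
  · exact (natDegree_monomial_le _).trans (h m hm 0)
  · simp

theorem biv_eval (z : Fin 2 → ℚ) (A : MvPolynomial (Fin 2) ℚ) :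
    ((Bivariate.equivMvPolynomial ℚ).symm A).evalEval (z 0) (z 1) = MvPolynomial.eval z A := by
  induction A using MvPolynomial.induction_on with
  | C c => simp [evalEval_C]
  | add p q hp hq => simp only [map_add, evalEval_add, hp, hq]
  | mul_X p i hp =>
    simp only [map_mul, evalEval_mul, hp]
    fin_cases i <;> simp [evalEval_C]

theorem ker {κ ι : Type} [Fintype κ] (M : ι → κ → ℤ) {B : ℝ} (hB : 1 ≤ B)
    (hM : ∀ j i, |(M j i : ℝ)| ≤ B) (v : κ → ℚ) (hv : v ≠ 0)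
    (h0 : ∀ j, ∑ i, (M j i : ℚ) * v i = 0) :
    ∃ w : κ → ℤ, w ≠ 0 ∧ (∀ j, ∑ i, M j i * w i = 0) ∧
      ∀ i, |(w i : ℝ)| ≤ (Fintype.card κ * B) ^ Fintype.card κ := by
  classical
  let u : ι → κ → ℚ := fun j i => M j i
  obtain ⟨κ', a, -, hs, hi⟩ := exists_linearIndependent' ℚ u
  have : Finite κ' := hi.finite
  let := Fintype.ofFinite κ'
  let f : (κ → ℚ) → (κ → ℚ) →ₗ[ℚ] ℚ := fun w => dotProductBilin ℚ ℚ w
  have hf : ∀ w y, f w y = ∑ i, y i * w i := fun w y => by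
    simp [f, dotProduct, mul_comm]
  have hlt : Fintype.card κ' < Fintype.card κ := by
    have h1 : Submodule.span ℚ (Set.range u) ≤ LinearMap.ker (f v) :=
      Submodule.span_le.2 (by rintro _ ⟨j, rfl⟩; simpa [hf] using h0 j)
    have h2 : LinearMap.ker (f v) ≠ ⊤ := fun h => hv (funext fun i => by
      have : f v (Pi.single i 1) = 0 := (h ▸ Submodule.mem_top : _ ∈ LinearMap.ker (f v))
      simpa [hf, Pi.single_apply] using this)
    have h3 := Submodule.finrank_lt h2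
    have h4 := Submodule.finrank_mono h1
    rw [← hs, finrank_span_eq_card hi] at h4
    rw [Module.finrank_fintype_fun_eq_card] at h3
    omega
  have hn : (1 : ℝ) ≤ Fintype.card κ * B :=
    one_le_mul_of_one_le_of_one_le (by exact_mod_cast (by omega : 1 ≤ Fintype.card κ)) hB
  have key : ∃ w : κ → ℤ, w ≠ 0 ∧ (∀ j, ∑ i, M (a j) i * w i = 0) ∧
      ∀ i, |(w i : ℝ)| ≤ (Fintype.card κ * B) ^ Fintype.card κ := by
    rcases Nat.eq_zero_or_pos (Fintype.card κ') with h | h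
    · have := Fintype.card_eq_zero_iff.1 h
      obtain ⟨i⟩ := Fintype.card_pos_iff.1 (Nat.zero_lt_of_lt hlt)
      exact ⟨1, fun h => by simpa using congrFun h i, fun j => isEmptyElim j,
        fun _ => by simpa using one_le_pow₀ hn⟩
    · let := Matrix.normedAddCommGroup (m := κ') (n := κ) (α := ℤ)
      obtain ⟨t, ht, h1, h2⟩ :=
        Int.Matrix.exists_ne_zero_int_vec_norm_le (Matrix.of fun j i => M (a j) i) hlt h
      refine ⟨t, ht, fun j => congrFun h1 j, fun i => ?_⟩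
      have h3 : ‖(Matrix.of fun j i => M (a j) i : Matrix κ' κ ℤ)‖ ≤ B :=
        (Matrix.norm_le_iff (by linarith)).2 fun j i => hM _ _
      have h4 : (Fintype.card κ' : ℝ) + 1 ≤ Fintype.card κ := by exact_mod_cast hlt
      calc |(t i : ℝ)| ≤ ‖t‖ := norm_le_pi_norm t i
        _ ≤ _ := h2
        _ ≤ (Fintype.card κ * B) ^ ((Fintype.card κ' : ℝ) / (Fintype.card κ - Fintype.card κ')) := by
          gcongr
          · exact div_nonneg (Nat.cast_nonneg _) (by linarith)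
          · exact max_le hB h3
        _ ≤ (Fintype.card κ * B) ^ (Fintype.card κ : ℝ) :=
          Real.rpow_le_rpow_of_exponent_le hn
            ((div_le_self (Nat.cast_nonneg _) (by linarith)).trans (by linarith))
        _ = _ := Real.rpow_natCast _ _
  obtain ⟨w, hw, h1, h2⟩ := key
  refine ⟨w, hw, fun j => ?_, h2⟩
  have h3 : Submodule.span ℚ (Set.range (u ∘ a)) ≤ LinearMap.ker (f fun i => w i) :=
    Submodule.span_le.2 (by
      rintro _ ⟨j, rfl⟩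
      have := congrArg (Int.cast : ℤ → ℚ) (h1 j)
      simpa [hf, u] using this)
  have h4 := h3 (hs ▸ Submodule.subset_span ⟨j, rfl⟩ : u j ∈ _)
  rw [LinearMap.mem_ker, hf] at h4
  simp only [u] at h4
  exact_mod_cast h4

end Pool.Agent.VT
end

-- part Pool.Agent.P.MP_b0ea37_nt.WBez
section

namespace Pool.Agent.VW

open Polynomial

/-- value of a plane polynomial at an integer point -/
noncomputable abbrev ev2 (x : Fin 2 → ℤ) (A : MvPolynomial (Fin 2) ℚ) : ℚ :=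
  MvPolynomial.eval (fun i => (x i : ℚ)) A

theorem bez_zero {E : ℕ} {A B : MvPolynomial (Fin 2) ℚ} (hA : Irreducible A) (hB : ¬ A ∣ B)
    (h1 : A.totalDegree ≤ E) (h2 : B.totalDegree ≤ E) : ∃ r : ℚ[X], r ≠ 0 ∧
      r.natDegree ≤ (E + E + 1) * E ∧ ∀ z : Fin 2 → ℚ, MvPolynomial.eval z A = 0 →
        MvPolynomial.eval z B = 0 → r.eval (z 0) = 0 := by
  obtain ⟨a1, a2⟩ := VT.biv_deg h1
  obtain ⟨b1, b2⟩ := VT.biv_deg h2
  have ea := fun z => VT.biv_eval z A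
  have eb := fun z => VT.biv_eval z B
  have hp := (MulEquiv.irreducible_iff (Bivariate.equivMvPolynomial ℚ).symm).2 hA
  have hq := fun h => hB ((map_dvd_iff (Bivariate.equivMvPolynomial ℚ).symm).1 h)
  generalize (Bivariate.equivMvPolynomial ℚ).symm A = p at *
  generalize (Bivariate.equivMvPolynomial ℚ).symm B = q at *
  by_cases hd : p.natDegree = 0
  · refine ⟨p.coeff 0, fun h => hp.ne_zero ?_, (a2 0).trans (by nlinarith), fun z hz _ => ?_⟩
    · rw [eq_C_of_natDegree_eq_zero hd, h, map_zero]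
    · rw [← ea, eq_C_of_natDegree_eq_zero hd, evalEval_C] at hz
      exact hz
  · refine ⟨resultant p q, VT.res_ne_zero hp hd hq,
      (natDegree_resultant_le p q _ _ E a2 b2).trans (Nat.mul_le_mul_right _ (by omega)), fun z hz hz' => ?_⟩
    obtain ⟨u, v, -, -, e⟩ := exists_mul_add_mul_eq_C_resultant p q le_rfl le_rfl (Or.inl hd)
    rw [← evalEval_C _ (z 1), ← e, evalEval_add, evalEval_mul, evalEval_mul, ea, eb, hz, hz']
    simp

theorem bez_cnt {r : ℚ[X]} (hr : r ≠ 0) {N : ℕ} (hN : r.natDegree ≤ N) :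
    Cnt (fun t : ℤ => r.eval (t : ℚ) = 0) N :=
  ((cnt_roots r hr).inj (fun t : ℤ => (t : ℚ)) (fun _ h => h)
    fun _ _ _ _ h => Int.cast_injective h).mono (fun _ h => h) (by exact_mod_cast hN)

theorem bezout (E : ℕ) : ∃ C : ℝ, 1 ≤ C ∧ ∀ A B : MvPolynomial (Fin 2) ℚ, Irreducible A → ¬ A ∣ B →
    A.totalDegree ≤ E → B.totalDegree ≤ E →
    Cnt (fun x : Fin 2 → ℤ => ev2 x A = 0 ∧ ev2 x B = 0) C := by
  refine ⟨(((E + E + 1) * E : ℕ) : ℝ) ^ 2 + 1, le_add_of_nonneg_left (sq_nonneg _), fun A B hA hB h1 h2 => ?_⟩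
  let s := MvPolynomial.renameEquiv ℚ (Equiv.swap (0 : Fin 2) 1)
  obtain ⟨r, hr, hd, h⟩ := bez_zero hA hB h1 h2
  obtain ⟨r', hr', hd', h'⟩ := bez_zero (A := s A) (B := s B) ((MulEquiv.irreducible_iff s).2 hA)
    (fun h => hB ((map_dvd_iff s).1 h)) ((MvPolynomial.totalDegree_rename_le _ _).trans h1)
    ((MvPolynomial.totalDegree_rename_le _ _).trans h2)
  have hc := Cnt.pi (P := fun (i : Fin 2) (t : ℤ) => (![r, r'] i).eval (t : ℚ) = 0)
    (B := fun _ => (((E + E + 1) * E : ℕ) : ℝ)) fun i => by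
      fin_cases i
      exacts [bez_cnt hr hd, bez_cnt hr' hd']
  refine hc.mono (fun x hx i => ?_) (by simp)
  have e : ∀ G : MvPolynomial (Fin 2) ℚ,
      MvPolynomial.eval (fun i => (x (Equiv.swap 0 1 i) : ℚ)) (s G) = ev2 x G := fun G => by
    simp [s, MvPolynomial.eval_rename, Function.comp_def]
  fin_cases i
  · exact h _ hx.1 hx.2
  · simpa using h' _ ((e A).trans hx.1) ((e B).trans hx.2)

theorem bez_deg {A : MvPolynomial (Fin 2) ℚ} (hA : Irreducible A) : 1 ≤ A.totalDegree := by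
  by_contra h
  have h1 := MvPolynomial.totalDegree_eq_zero_iff_eq_C.1 (by omega : A.totalDegree = 0)
  refine hA.not_isUnit (h1 ▸ IsUnit.map _ (Ne.isUnit fun h0 => hA.ne_zero ?_))
  rw [h1, h0, map_zero]

/-- a zero of `G` is a zero of one of at most `deg G` irreducible factors -/
theorem exists_factors (G : MvPolynomial (Fin 2) ℚ) (hG : G ≠ 0) :
    ∃ T : Finset (MvPolynomial (Fin 2) ℚ), T.card ≤ G.totalDegree ∧
      (∀ A ∈ T, Irreducible A ∧ 1 ≤ A.totalDegree ∧ A.totalDegree ≤ G.totalDegree) ∧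
      ∀ x : Fin 2 → ℤ, ev2 x G = 0 → ∃ A ∈ T, ev2 x A = 0 := by
  classical
  induction G using UniqueFactorizationMonoid.induction_on_prime with
  | h₁ => exact absurd rfl hG
  | h₂ u hu =>
    exact ⟨∅, by simp, by simp, fun x hx => absurd hx (hu.map (MvPolynomial.eval _)).ne_zero⟩
  | h₃ a p ha hp ih =>
    obtain ⟨T, h1, h2, h3⟩ := ih ha
    have h4 := bez_deg hp.irreducible
    rw [MvPolynomial.totalDegree_mul_of_isDomain hp.ne_zero ha]
    refine ⟨insert p T, (Finset.card_insert_le _ _).trans (by omega), fun A hA => ?_, fun x hx => ?_⟩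
    · rcases Finset.mem_insert.1 hA with rfl | hA
      · exact ⟨hp.irreducible, h4, by omega⟩
      · exact ⟨(h2 A hA).1, (h2 A hA).2.1, (h2 A hA).2.2.trans (by omega)⟩
    · rcases mul_eq_zero.1 ((map_mul _ _ _).symm.trans hx) with h | h
      · exact ⟨p, Finset.mem_insert_self _ _, h⟩
      · obtain ⟨A, hA, h⟩ := h3 x h
        exact ⟨A, Finset.mem_insert_of_mem hA, h⟩

end Pool.Agent.VW
end

-- part Pool.Agent.P.MP_b0ea37_nt.WSDefs
section

namespace Pool.Agent.VW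

open Polynomial

abbrev Z2 : Type := MvPolynomial (Fin 2) ℤ

abbrev Q2 : Type := MvPolynomial (Fin 2) ℚ

/-- a point of the plane with a square root -/
abbrev Pt : Type := (Fin 2 → ℤ) × ℤ

noncomputable abbrev toQ (A : Z2) : Q2 := MvPolynomial.map (Int.castRingHom ℚ) A

noncomputable abbrev evz (x : Fin 2 → ℤ) (A : Z2) : ℤ := MvPolynomial.eval x A

/-- restriction to the line through `a` in direction `w` -/
noncomputable def onLine (a w : Fin 2 → ℚ) : Q2 →ₐ[ℚ] ℚ[X] :=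
  MvPolynomial.aeval fun i => C (a i) + C (w i) * X

/-- odd degree on every rational line through `x` -/
def OddAt (D : Z2) (x : Fin 2 → ℤ) : Prop :=
  ∀ w : Fin 2 → ℚ, w ≠ 0 → Odd (onLine (fun i => (x i : ℚ)) w (toQ D)).natDegree

def Cong (M : ℕ) (z z' : Pt) : Prop :=
  (∀ i, z.1 i ≡ z'.1 i [ZMOD M]) ∧ z.2 ≡ z'.2 [ZMOD M]

/-- no prime of `M` divides `N` -/
def Cop (M : ℕ) (N : ℤ) : Prop := ∀ l : ℕ, l.Prime → l ∣ M → ¬ (l : ℤ) ∣ N

/-- points of the double cover in a box -/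
def On (D : Z2) (q : ℤ) (H : ℝ) (a : ℕ) (z : Pt) : Prop :=
  (∀ i, |(z.1 i : ℝ)| ≤ H) ∧ evz z.1 D = q * z.2 ^ 2 ∧ evz z.1 D ≠ 0 ∧
    |(evz z.1 D : ℝ)| ≤ H ^ a ∧ OddAt D z.1

/-- every class to a large squarefree modulus lies on a curve -/
def Aux (D : Z2) (T : Pt → Prop) (R : ℝ) (E : ℕ) : Prop :=
  ∀ (M : ℕ) (z₀ : Pt), Squarefree M → R ≤ M → ∃ G : Q2, G ≠ 0 ∧ G.totalDegree ≤ E ∧
    ∀ z, T z → Cong M z z₀ → Cop M (2 * evz z.1 D) → ev2 z.1 G = 0

/-- independence modulo `D` -/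
def Ind {N : ℕ} (D Φ : Z2) (v : Fin N → Fin 2) (Ψ : Fin N → Z2) : Prop :=
  ∀ (k J : ℕ) (u : ℕ → Fin N → ℚ), toQ D ∣ toQ Φ ^ k * ∑ j ∈ Finset.Icc 2 J, ∑ i,
      MvPolynomial.C (u j i) * (MvPolynomial.X (v i) ^ j * toQ (Ψ i)) →
    ∀ j ∈ Finset.Icc 2 J, ∀ i, u j i = 0

/-- `N / y` is an integer of size at most `B` -/
def Quo (B : ℝ) (y N : ℤ) : Prop := ∃ c : ℤ, N = y * c ∧ |(c : ℝ)| ≤ B

noncomputable def wr {R : Type} [CommRing R] (a b : R[X]) : R[X] :=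
  derivative a * b - a * derivative b

noncomputable def g1 (n : ℕ) : ℤ[X] :=
  X ^ (n - 2) + C (2 * ((n : ℤ) - 2 - (n % 2 : ℕ))) * X ^ (1 - n % 2)

noncomputable def g2 (n : ℕ) : ℤ[X] := X ^ (n % 2)

/-- the member of the plane with coordinates `x` -/
noncomputable def mem (n : ℕ) (f₀ : ℤ[X]) (x : Fin 2 → ℤ) : ℤ[X] :=
  f₀ + C (x 0) * g1 n + C (x 1) * g2 n

/-- the general member of the plane -/
noncomputable def fam (n : ℕ) (f₀ : ℤ[X]) : Z2[X] :=
  up Z2 f₀ + C (MvPolynomial.X 0) * up Z2 (g1 n) + C (MvPolynomial.X 1) * up Z2 (g2 n)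

noncomputable def DD (n : ℕ) (f₀ : ℤ[X]) : Z2 := Dv n (fam n f₀)

noncomputable def PP (n k : ℕ) (f₀ : ℤ[X]) : Z2 := Phi n k (fam n f₀)

def crd (n : ℕ) (f : ℤ[X]) : Fin 2 → ℤ := ![f.coeff (n - 2), f.coeff (n % 2)]

noncomputable def base (n : ℕ) (f : ℤ[X]) : ℤ[X] :=
  f - C (f.coeff (n - 2)) * g1 n - C (f.coeff (n % 2)) * g2 n

def vv (n : ℕ) (i : Fin (2 * (n - 3) + 3)) : Fin 2 := if (i : ℕ) < n - 3 + n % 2 then 0 else 1

def ix (n : ℕ) (i : Fin (2 * (n - 3) + 3)) : ℕ :=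
  if (i : ℕ) < n - 3 + n % 2 then i else i - (n - 3 + n % 2)

def Tri (W : ℕ) : Finset (ℕ × ℕ) :=
  (Finset.range (W + 1) ×ˢ Finset.range (W + 1)).filter fun p => p.1 + p.2 ≤ W

def Lev (m W : ℕ) : Finset (ℕ × ℕ) :=
  (Finset.range (W + 1) ×ˢ Finset.range (W + 1)).filter fun p => 2 ≤ p.2 ∧ (p.1 + 1) * m + p.2 ≤ W

/-- the index set of the functions on the surface -/
abbrev Idx (m W : ℕ) : Type := Tri W ⊕ Tri (W - (m + 2)) ⊕ Lev m W × Fin (2 * m + 3)

def wt (m W : ℕ) : Idx m W → ℕ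
  | .inl p => p.1.1 + p.1.2
  | .inr (.inl p) => p.1.1 + p.1.2 + (m + 2)
  | .inr (.inr p) => (p.1.1.1 + 1) * m + p.1.1.2

theorem ev2_toQ (x : Fin 2 → ℤ) (A : Z2) : ev2 x (toQ A) = (evz x A : ℚ) := by
  induction A using MvPolynomial.induction_on with
  | C c => simp
  | add p q hp hq => simp only [map_add, hp, hq, Int.cast_add]
  | mul_X p i hp => simp only [map_mul, hp, MvPolynomial.map_X, MvPolynomial.eval_X, Int.cast_mul]

theorem toQ_injective : Function.Injective (toQ : Z2 → Q2) :=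
  MvPolynomial.map_injective _ Int.cast_injective

theorem deg_toQ (A : Z2) : (toQ A).totalDegree = A.totalDegree := by
  unfold MvPolynomial.totalDegree
  rw [MvPolynomial.support_map_of_injective _ Int.cast_injective]

theorem Cong.refl (M : ℕ) (z : Pt) : Cong M z z := ⟨fun _ => rfl, rfl⟩

theorem Cong.symm {M : ℕ} {z z' : Pt} (h : Cong M z z') : Cong M z' z :=
  ⟨fun i => (h.1 i).symm, h.2.symm⟩

theorem Cong.trans {M : ℕ} {z z' z'' : Pt} (h : Cong M z z') (h' : Cong M z' z'') : Cong M z z'' :=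
  ⟨fun i => (h.1 i).trans (h'.1 i), h.2.trans h'.2⟩

theorem Cong.of_dvd {M M' : ℕ} {z z' : Pt} (h : Cong M' z z') (hM : M ∣ M') : Cong M z z' :=
  ⟨fun i => (h.1 i).of_dvd (Int.natCast_dvd_natCast.2 hM), h.2.of_dvd (Int.natCast_dvd_natCast.2 hM)⟩

theorem Cop.of_dvd {M M' : ℕ} {N : ℤ} (h : Cop M' N) (hM : M ∣ M') : Cop M N :=
  fun l hl hd => h l hl (hd.trans hM)

theorem Cop.of_dvd_right {M : ℕ} {N N' : ℤ} (h : Cop M N) (hN : N' ∣ N) : Cop M N' :=
  fun l hl hd e => h l hl hd (e.trans hN)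

end Pool.Agent.VW
end

-- part Pool.Agent.P.MP_b0ea37_nt.WSCls
section

namespace Pool.Agent.VW

open Polynomial

theorem cnt_two (q N : ℤ) (hN : N ≠ 0) : Cnt (fun y : ℤ => N = q * y ^ 2) 2 := by
  have h0 : (C q * X ^ 2 - C N : ℤ[X]) ≠ 0 := fun h => by
    have h1 := congrArg (eval 0) h
    simp at h1
    exact hN h1
  have h2 : (C q * X ^ 2 - C N : ℤ[X]).natDegree ≤ 2 := by compute_degree
  refine (cnt_roots _ h0).mono (fun y hy => ?_) (by exact_mod_cast h2)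
  simp [hy]

theorem cnt_lift (D : Z2) (q : ℤ) {T : Pt → Prop} {P : (Fin 2 → ℤ) → Prop} {B : ℝ}
    (hT : ∀ z, T z → P z.1 ∧ evz z.1 D = q * z.2 ^ 2 ∧ evz z.1 D ≠ 0) (h : Cnt P B) :
    Cnt T (B * 2) := by
  refine (Cnt.prod (Q := fun x y => evz x D = q * y ^ 2 ∧ evz x D ≠ 0) h zero_le_two
    fun x _ => ?_).mono hT le_rfl
  by_cases h0 : evz x D = 0
  · exact Cnt.empty (fun y hy => hy.2 h0) zero_le_two
  · exact (cnt_two q _ h0).mono (fun y hy => hy.1) le_rfl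

theorem WSCls_cop {M : ℕ} {N N' : ℤ} (h : Cop M N) (e : N ≡ N' [ZMOD M]) : Cop M N' :=
  fun l hl hd hN => h l hl hd (by
    have h1 : (l : ℤ) ∣ N' - N := (Int.natCast_dvd_natCast.2 hd).trans e.dvd
    have h2 := dvd_sub hN h1
    rwa [sub_sub_cancel] at h2)

theorem WSCls_sq (q N : ℤ) (M : ℕ) (hM : Squarefree M) :
    Cnt (fun c : ℤ => 0 ≤ c ∧ c < M ∧ Cop M N ∧ (M : ℤ) ∣ q * c ^ 2 - N)
      (2 ^ M.primeFactors.card) := by
  by_cases hc : Cop M N
  · have h2 : (C q * X ^ 2 - C N : ℤ[X]).natDegree ≤ 2 := by compute_degree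
    have h := cnt_roots_mod M hM (C q * X ^ 2 - C N) 2 h2 fun l hl hd hg => hc l hl hd (by
      have h1 := eval_dvd (x := 0) hg
      simpa using h1)
    refine h.mono (fun c hc' => ⟨hc'.1, hc'.2.1, ?_⟩) (by norm_num)
    simpa using hc'.2.2.2
  · exact Cnt.empty (fun c h => hc h.2.2.1) (by positivity)

theorem WSCls_cover (D : Z2) (q : ℤ) (M : ℕ) (hM : Squarefree M) {T : Pt → Prop} {A B : ℝ}
    (hB : 0 ≤ B) (hT : ∀ z, T z → evz z.1 D = q * z.2 ^ 2 ∧ Cop M (2 * evz z.1 D))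
    (h : ∀ z₀, T z₀ → Cnt (fun z => T z ∧ Cong M z z₀) B) {P : (Fin 2 → ℤ) → Prop}
    (hP : Cnt P A) (hTP : ∀ z, T z → P fun i => z.1 i % M) :
    Cnt T (A * 2 ^ M.primeFactors.card * B) := by
  have hM0 : (0 : ℤ) < M := by exact_mod_cast Nat.pos_of_ne_zero hM.ne_zero
  have hQ := Cnt.prod (Q := fun x (c : ℤ) => 0 ≤ c ∧ c < M ∧ Cop M (evz x D) ∧
    (M : ℤ) ∣ q * c ^ 2 - evz x D) (B' := 2 ^ M.primeFactors.card) hP (by positivity)
    fun x _ => WSCls_sq q (evz x D) M hM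
  refine (Cnt.fibre (P := fun (y : Pt) (z : Pt) => T z ∧ (fun i => z.1 i % M) = y.1 ∧
    z.2 % M = y.2) hQ hB fun y _ => ?_).mono (fun z hz => ?_) le_rfl
  · refine Cnt.of_mem hB fun a ha => (h a ha.1).mono (fun z hz => ⟨hz.1, fun i => ?_, ?_⟩) le_rfl
    · exact congrFun (hz.2.1.trans ha.2.1.symm) i
    · exact hz.2.2.trans ha.2.2.symm
  · have e : evz z.1 D ≡ evz (fun i => z.1 i % M) D [ZMOD M] :=
      VT.eval_modEq (fun i => (Int.mod_modEq _ _).symm) D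
    refine ⟨(fun i => z.1 i % M, z.2 % M), ⟨hTP z hz, Int.emod_nonneg _ hM0.ne',
      Int.emod_lt_of_pos _ hM0, ?_, ?_⟩, hz, rfl, rfl⟩
    · exact WSCls_cop ((hT z hz).2.of_dvd_right (Dvd.intro_left 2 rfl)) e
    · have e2 : q * z.2 ^ 2 ≡ q * (z.2 % M) ^ 2 [ZMOD M] :=
        ((Int.mod_modEq _ _).symm.pow 2).mul_left q
      rw [← (hT z hz).1] at e2
      exact (e.symm.trans e2).dvd

/-- classes on the double cover -/
theorem cover_plane (D : Z2) (q : ℤ) (M : ℕ) (hM : Squarefree M) {T : Pt → Prop} {B : ℝ}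
    (hB : 0 ≤ B) (hT : ∀ z, T z → evz z.1 D = q * z.2 ^ 2 ∧ Cop M (2 * evz z.1 D))
    (h : ∀ z₀, T z₀ → Cnt (fun z => T z ∧ Cong M z z₀) B) :
    Cnt T ((M : ℝ) ^ 2 * 2 ^ M.primeFactors.card * B) := by
  have hM0 : (0 : ℤ) < M := by exact_mod_cast Nat.pos_of_ne_zero hM.ne_zero
  have hP := Cnt.pi (ι := Fin 2) (P := fun _ (r : ℤ) => 0 ≤ r ∧ r < M) (B := fun _ => (M : ℝ))
    fun _ => cnt_res M
  rw [Finset.prod_const, Finset.card_univ, Fintype.card_fin] at hP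
  exact WSCls_cover D q M hM hB hT h hP fun z _ i =>
    ⟨Int.emod_nonneg _ hM0.ne', Int.emod_lt_of_pos _ hM0⟩

/-- the polynomial in the coordinate `j` -/
noncomputable def WSCls_g (j : Fin 2) (a : ℤ) : Z2 →ₐ[ℤ] ℤ[X] :=
  MvPolynomial.aeval fun k => if k = j then X else C a

theorem WSCls_g_eval (j : Fin 2) (a : ℤ) (x : Fin 2 → ℤ) (hx : ∀ k, k ≠ j → x k = a) (A : Z2) :
    (WSCls_g j a A).eval (x j) = evz x A ∧
      (derivative (WSCls_g j a A)).eval (x j) = evz x (MvPolynomial.pderiv j A) := by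
  induction A using MvPolynomial.induction_on with
  | C c => simp [WSCls_g]
  | add p q hp hq => simp only [map_add, eval_add, hp.1, hp.2, hq.1, hq.2, and_self]
  | mul_X p k hp =>
    have h1 : WSCls_g j a (MvPolynomial.X k) = if k = j then X else C a := by simp [WSCls_g]
    rw [map_mul, h1, Derivation.leibniz, derivative_mul, eval_add, eval_mul, eval_mul, eval_mul,
      hp.1, hp.2]
    by_cases hk : k = j
    · subst hk
      simp [mul_comm, add_comm]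
    · simp [hk, hx k hk, MvPolynomial.pderiv_X_of_ne hk, mul_comm]

theorem WSCls_g_deg (j : Fin 2) (a : ℤ) (A : Z2) {E : ℕ} (hE : A.totalDegree ≤ E) :
    (WSCls_g j a A).natDegree ≤ E := by
  have h := MvPolynomial.aeval_natDegree_le (n := 1) A hE
    (fun k => if k = j then (X : ℤ[X]) else C a) fun k => by
      split_ifs <;> simp
  rwa [mul_one] at h

/-- finer classes on a curve -/
theorem cover_curve (D A : Z2) (q : ℤ) (j : Fin 2) (E : ℕ) (hE : A.totalDegree ≤ E) (M M' : ℕ)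
    (hM' : Squarefree M') (hMM : M ∣ M') {T : Pt → Prop} {B : ℝ} (hB : 0 ≤ B)
    (hT : ∀ z, T z → evz z.1 D = q * z.2 ^ 2 ∧ Cop M' (2 * evz z.1 D) ∧ evz z.1 A = 0 ∧
      Cop M' (evz z.1 (MvPolynomial.pderiv j A)))
    (hc : ∀ z z', T z → T z' → Cong M z z')
    (h : ∀ z₀, T z₀ → Cnt (fun z => T z ∧ Cong M' z z₀) B) :
    Cnt T (2 * (M' : ℝ) / M * (2 * E) ^ M'.primeFactors.card * B) := by
  refine Cnt.of_mem (by positivity) fun z₀ hz₀ => ?_
  have hM'0 : 0 < M' := Nat.pos_of_ne_zero hM'.ne_zero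
  have hM0 : 0 < M := Nat.pos_of_dvd_of_pos hMM hM'0
  have hZ : (0 : ℤ) < M' := by exact_mod_cast hM'0
  have hR : (0 : ℝ) < M := by exact_mod_cast hM0
  have hle : (M : ℝ) ≤ M' := by exact_mod_cast Nat.le_of_dvd hM'0 hMM
  obtain ⟨i, hi⟩ : ∃ i : Fin 2, ∀ k, k ≠ j → k = i :=
    ⟨j.rev, (by decide : ∀ j k : Fin 2, k ≠ j → k = j.rev) j⟩
  have h1 : Cnt (fun a : ℤ => 0 ≤ a ∧ a < M' ∧ (M : ℤ) ∣ a - z₀.1 i) (2 * (M' : ℝ) / M) := by
    refine (cnt_class M hM0 (z₀.1 i) ((M' : ℝ) / 2) ((M' : ℝ) / 2) (by positivity)).mono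
      (fun a ha => ⟨?_, ha.2.2⟩) ?_
    · have h2 : (0 : ℝ) ≤ a := by exact_mod_cast ha.1
      have h3 : (a : ℝ) < M' := by exact_mod_cast ha.2.1
      rw [abs_le]
      constructor <;> linarith
    · have h2 : (1 : ℝ) ≤ M' / M := (one_le_div hR).2 hle
      have h3 : 2 * ((M' : ℝ) / 2) / M = M' / M := by ring
      have h4 : 2 * (M' : ℝ) / M = M' / M + M' / M := by ring
      rw [h3, h4]
      linarith
  have h2 : ∀ a : ℤ, Cnt (fun b : ℤ => 0 ≤ b ∧ b < M' ∧ (M' : ℤ) ∣ (WSCls_g j a A).eval b ∧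
      Cop M' ((derivative (WSCls_g j a A)).eval b)) ((E : ℝ) ^ M'.primeFactors.card) := fun a => by
    refine Cnt.of_mem (by positivity) fun b₀ hb₀ => ?_
    refine (cnt_roots_mod M' hM' (WSCls_g j a A) E (WSCls_g_deg j a A hE)
      fun l hl hd hg => hb₀.2.2.2 l hl hd ?_).mono (fun b hb => ⟨hb.1, hb.2.1, hb.2.2.1⟩) le_rfl
    obtain ⟨u, hu⟩ := hg
    rw [hu, derivative_C_mul, eval_mul, eval_C]
    exact Dvd.intro _ rfl
  have h3 := Cnt.prod h1 (by positivity) fun a _ => h2 a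
  have h4 : Cnt (fun x : Fin 2 → ℤ => (0 ≤ x i ∧ x i < M' ∧ (M : ℤ) ∣ x i - z₀.1 i) ∧ 0 ≤ x j ∧
      x j < M' ∧ (M' : ℤ) ∣ evz x A ∧ Cop M' (evz x (MvPolynomial.pderiv j A)))
      (2 * (M' : ℝ) / M * (E : ℝ) ^ M'.primeFactors.card) := by
    refine h3.inj (fun x => (x i, x j)) (fun x hx => ?_) fun x y _ _ e => ?_
    · have h5 := WSCls_g_eval j (x i) x (fun k hk => by rw [hi k hk]) A
      exact ⟨hx.1, hx.2.1, hx.2.2.1, by rw [h5.1]; exact hx.2.2.2.1, by rw [h5.2]; exact hx.2.2.2.2⟩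
    · funext k
      by_cases hk : k = j
      · rw [hk]; exact congrArg Prod.snd e
      · rw [hi k hk]; exact congrArg Prod.fst e
  refine (WSCls_cover D q M' hM' hB (fun z hz => ⟨(hT z hz).1, (hT z hz).2.1⟩) h h4
    fun z hz => ?_).mono (fun _ hz => hz) (le_of_eq (by rw [mul_pow]; ring))
  have e : ∀ G : Z2, evz z.1 G ≡ evz (fun k => z.1 k % M') G [ZMOD M'] := fun G =>
    VT.eval_modEq (fun k => (Int.mod_modEq _ _).symm) G
  refine ⟨⟨Int.emod_nonneg _ hZ.ne', Int.emod_lt_of_pos _ hZ, ?_⟩, Int.emod_nonneg _ hZ.ne',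
    Int.emod_lt_of_pos _ hZ, ?_, WSCls_cop (hT z hz).2.2.2 (e _)⟩
  · exact (((hc z₀ z hz₀ hz).1 i).trans
      ((Int.mod_modEq _ _).symm.of_dvd (Int.natCast_dvd_natCast.2 hMM))).dvd
  · have h5 := (e A).dvd
    rwa [(hT z hz).2.2.1, sub_zero] at h5

end Pool.Agent.VW
end

-- part Pool.Agent.P.MP_b0ea37_nt.WSApx
section

namespace Pool.Agent.VW

open Polynomial

open Pool.Agent.VT

variable {ι σ : Type} {M : ℕ} {x : ι → σ → ℤ}

theorem apx_of_dvd {l : ℕ} {F : ι → ℤ} (h : Apx M x F) (hl : l ∣ M) : Apx l x F :=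
  fun K => (h K).imp fun _ hP j =>
    (pow_dvd_pow_of_dvd (Int.natCast_dvd_natCast.2 hl) K).trans (hP j)

theorem WSApx_mul {a b : ℕ} {F : ι → ℤ} (hab : Nat.Coprime a b) (ha : Apx a x F)
    (hb : Apx b x F) : Apx (a * b) x F := fun K => by
  obtain ⟨P, hP⟩ := ha K
  obtain ⟨Q, hQ⟩ := hb K
  obtain ⟨u, v, e⟩ := (Nat.isCoprime_iff_coprime.2 hab).pow (m := K) (n := K)
  refine ⟨MvPolynomial.C (v * (b : ℤ) ^ K) * P + MvPolynomial.C (u * (a : ℤ) ^ K) * Q, fun j => ?_⟩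
  obtain ⟨s, hs⟩ := hP j
  obtain ⟨t, ht⟩ := hQ j
  refine ⟨v * s + u * t, ?_⟩
  rw [map_add, MvPolynomial.eval_mul, MvPolynomial.eval_mul, MvPolynomial.eval_C,
    MvPolynomial.eval_C, Nat.cast_mul, mul_pow]
  linear_combination (v * (b : ℤ) ^ K) * hs + (u * (a : ℤ) ^ K) * ht - F j * e

theorem apx_sqfree (hM : Squarefree M) {F : ι → ℤ}
    (h : ∀ l : ℕ, l.Prime → l ∣ M → Apx l x F) : Apx M x F := by
  have key : ∀ T : Finset ℕ, (∀ p ∈ T, p.Prime ∧ Apx p x F) → Apx (∏ p ∈ T, p) x F := by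
    intro T
    induction T using Finset.induction_on with
    | empty => exact fun _ K => ⟨0, fun j => by simp⟩
    | insert p T hp ih =>
      intro hT
      rw [Finset.prod_insert hp]
      have h1 := hT p (Finset.mem_insert_self _ _)
      refine WSApx_mul (Nat.Coprime.prod_right fun r hr => ?_) h1.2
        (ih fun r hr => hT r (Finset.mem_insert_of_mem hr))
      exact (Nat.coprime_primes h1.1 (hT r (Finset.mem_insert_of_mem hr)).1).2
        fun e => hp (e ▸ hr)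
  rw [← Nat.prod_primeFactors_of_squarefree hM]
  exact key _ fun p hp => ⟨Nat.prime_of_mem_primeFactors hp,
    h p (Nat.prime_of_mem_primeFactors hp) (Nat.dvd_of_mem_primeFactors hp)⟩

theorem apx_root (hM : Squarefree M) (hx : ∀ a b k, x a k ≡ x b k [ZMOD M]) {N y : ι → ℤ} {q : ℤ}
    (hN : Apx M x N) (hy : ∀ a, N a = q * y a ^ 2) (hc : ∀ a, Cop M (2 * N a))
    (hyy : ∀ a b, y a ≡ y b [ZMOD M]) : Apx M x y := by
  refine apx_sqfree hM fun l hl hd => ?_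
  have hd' : (l : ℤ) ∣ M := Int.natCast_dvd_natCast.2 hd
  refine Apx.hensel hl (fun a b k => (hx a b k).of_dvd hd') (D := 2)
    (c := fun a => C q * X ^ 2 - C (N a) * 1) (fun a => by compute_degree!) (fun n => ?_)
    (fun a => by simp [hy a]) (fun a b => (hyy a b).of_dvd hd') fun a e => hc a l hl hd ?_
  · exact ((Apx.const ((C q * X ^ 2 : ℤ[X]).coeff n)).sub
      ((apx_of_dvd hN hd).mul (Apx.const ((1 : ℤ[X]).coeff n)))).congr fun a => by
        rw [coeff_sub, coeff_C_mul 1]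
  · have e' : (l : ℤ) ∣ q * (2 * y a) := by simpa using e
    exact (e'.mul_right (y a)).trans (dvd_of_eq (by rw [hy a]; ring))

theorem apx_div (hM : Squarefree M) (hx : ∀ a b k, x a k ≡ x b k [ZMOD M]) {y G : ι → ℤ}
    (hy : Apx M x y) (hu : ∀ a, Cop M (y a)) (hG : Apx M x fun a => y a * G a) : Apx M x G :=
  apx_sqfree hM fun l hl hd =>
    Apx.div hl (fun a b k => (hx a b k).of_dvd (Int.natCast_dvd_natCast.2 hd)) (apx_of_dvd hy hd)
      (fun a => hu a l hl hd) (apx_of_dvd hG hd)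

/-- a plane polynomial as a polynomial in the variable `j` -/
noncomputable def WSApx_uni (j : Fin 2) : Z2 →+* (MvPolynomial (Fin 1) ℤ)[X] :=
  MvPolynomial.eval₂Hom (Int.castRingHom _) fun k => if k = j then X else C (MvPolynomial.X 0)

theorem WSApx_two {i j : Fin 2} (hij : i ≠ j) (k : Fin 2) : k = j ∨ k = i := by
  revert i j k
  decide

theorem WSApx_eval {i j : Fin 2} (hij : i ≠ j) (v : Fin 2 → ℤ) (A : Z2) :
    ((WSApx_uni j A).map (MvPolynomial.eval fun _ => v i)).eval (v j) = evz v A ∧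
    (derivative ((WSApx_uni j A).map (MvPolynomial.eval fun _ => v i))).eval (v j) =
      evz v (MvPolynomial.pderiv j A) := by
  induction A using MvPolynomial.induction_on with
  | C c => simp [WSApx_uni]
  | add p q hp hq =>
    simp only [map_add, Polynomial.map_add, eval_add, hp.1, hp.2, hq.1, hq.2, and_self]
  | mul_X p k hp =>
    have hX : WSApx_uni j (MvPolynomial.X k) = if k = j then X else C (MvPolynomial.X 0) := by
      simp [WSApx_uni]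
    rw [map_mul, Polynomial.map_mul, derivative_mul, MvPolynomial.pderiv_mul, eval_add, eval_mul,
      eval_mul, eval_mul, hp.1, hp.2, hX]
    rcases WSApx_two hij k with rfl | rfl
    · simp
    · simp [hij, MvPolynomial.pderiv_X_of_ne hij]

/-- on a curve everything is a function of one coordinate -/
theorem apx_curve (hM : Squarefree M) (A : Z2) {i j : Fin 2} (hij : i ≠ j) {u : ι → Fin 2 → ℤ}
    (hu : ∀ a b k, u a k ≡ u b k [ZMOD M]) (hA : ∀ a, evz (u a) A = 0)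
    (hc : ∀ a, Cop M (evz (u a) (MvPolynomial.pderiv j A))) (P : Z2) :
    Apx M (fun a (_ : Fin 1) => u a i) fun a => evz (u a) P := by
  have hj : Apx M (fun a (_ : Fin 1) => u a i) fun a => u a j := by
    refine apx_sqfree hM fun l hl hd => ?_
    have hd' : (l : ℤ) ∣ M := Int.natCast_dvd_natCast.2 hd
    refine Apx.hensel hl (fun a b _ => (hu a b i).of_dvd hd') (D := (WSApx_uni j A).natDegree)
      (c := fun a => (WSApx_uni j A).map (MvPolynomial.eval fun _ => u a i))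
      (fun a => natDegree_map_le) (fun n => ?_) (fun a => ?_)
      (fun a b => (hu a b j).of_dvd hd') fun a => ?_
    · exact (Apx.poly ((WSApx_uni j A).coeff n)).congr fun a => by rw [coeff_map]
    · rw [(WSApx_eval hij (u a) A).1, hA a]
    · rw [(WSApx_eval hij (u a) A).2]
      exact hc a l hl hd
  induction P using MvPolynomial.induction_on with
  | C c => exact (Apx.const c).congr fun a => by simp
  | add p q hp hq => exact (hp.add hq).congr fun a => by simp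
  | mul_X p k hp =>
    rcases WSApx_two hij k with rfl | rfl
    · exact (hp.mul hj).congr fun a => by simp
    · exact (hp.mul (Apx.coord 0)).congr fun a => by simp

theorem WSApx_sum (W : ℕ) :
    ((∑ t ∈ Finset.range (2 * W), (2 * W - (t + 1).choose 1) : ℕ) : ℝ) = W * (2 * W - 1) := by
  have h1 : ∑ t ∈ Finset.range (2 * W), (2 * W - (t + 1).choose 1) =
      ∑ t ∈ Finset.range (2 * W), t := by
    rw [← Finset.sum_range_reflect (fun t => t) (2 * W)]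
    refine Finset.sum_congr rfl fun t _ => ?_
    rw [Nat.choose_one_right]
    omega
  have h2 : ∀ m : ℕ, ((∑ t ∈ Finset.range m, t : ℕ) : ℝ) = m * (m - 1) / 2 := by
    intro m
    induction m with
    | zero => simp
    | succ m ih =>
      rw [Finset.sum_range_succ, Nat.cast_add, ih]
      push_cast
      ring
  rw [h1, h2]
  push_cast
  ring

theorem WSApx_sum' (W b : ℕ) :
    ((∑ p : Fin W × Fin 2, ((p.1 : ℕ) + b) : ℕ) : ℝ) = W * (W - 1) + 2 * W * b := by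
  have h2 : ∀ m : ℕ, ((∑ t ∈ Finset.range m, 2 * (t + b) : ℕ) : ℝ) = m * (m - 1) + 2 * m * b := by
    intro m
    induction m with
    | zero => simp
    | succ m ih =>
      rw [Finset.sum_range_succ, Nat.cast_add, ih]
      push_cast
      ring
  rw [← h2, Fintype.sum_prod_type, ← Fin.sum_univ_eq_sum_range (fun t => 2 * (t + b))]
  simp

/-- the numerical inequality of slope two -/
theorem slope_two (b : ℕ) (ε : ℝ) (hε : 0 < ε) : ∃ (W : ℕ) (H₀ : ℝ), 1 ≤ H₀ ∧ ∀ H : ℝ, H₀ ≤ H →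
    ∀ M : ℕ, H ^ (1 / 2 + ε) ≤ M →
    ((Fintype.card (Fin W × Fin 2)).factorial : ℝ) * ∏ p : Fin W × Fin 2, H ^ ((p.1 : ℕ) + b) <
      (M : ℝ) ^ (∑ t ∈ Finset.range (2 * W), (Fintype.card (Fin W × Fin 2) - (t + 1).choose 1)) := by
  obtain ⟨V, hV⟩ := exists_nat_ge (2 * b / ε)
  rw [div_le_iff₀ hε] at hV
  obtain ⟨H₀, hH₀, hp⟩ := exists_pow_ge (((2 * (V + 1)).factorial : ℝ) + 1) (1 / 2) (by norm_num)
  refine ⟨V + 1, H₀, hH₀, fun H hH M hM => ?_⟩
  have hH1 : 1 ≤ H := hH₀.trans hH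
  have hH0 : 0 < H := by linarith
  have hc : Fintype.card (Fin (V + 1) × Fin 2) = 2 * (V + 1) := by simp [mul_comm]
  rw [hc, Finset.prod_pow_eq_pow_sum, ← Real.rpow_natCast H, WSApx_sum']
  refine lt_of_lt_of_le ?_ (pow_le_pow_left₀ (by positivity) hM _)
  rw [← Real.rpow_mul_natCast hH0.le, WSApx_sum]
  refine (mul_lt_mul_of_pos_right ((lt_add_one _).trans_le (hp H hH)) (by positivity)).trans_le ?_
  rw [← Real.rpow_add hH0]
  refine Real.rpow_le_rpow_of_exponent_le hH1 ?_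
  have hV0 : (0 : ℝ) ≤ V := Nat.cast_nonneg _
  have h1 : 2 * (b : ℝ) ≤ ε * (2 * (V + 1) - 1) := by nlinarith [mul_nonneg hV0 hε.le]
  have h2 := mul_le_mul_of_nonneg_left h1 (by positivity : (0 : ℝ) ≤ V + 1)
  push_cast
  nlinarith

end Pool.Agent.VW
end

-- part Pool.Agent.P.MP_b0ea37_nt.WSOne
section

namespace Pool.Agent.VW

open Polynomial

theorem wsone_key (A : Q2) (hA : A ≠ 0) (a b : ℕ × Fin 2 → ℕ)
    (hi : ∀ p q, a p = a q → b p = b q → p = q) (hd : ∀ p, a p + b p ≤ p.1 + 1)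
    (hl : ∀ p, a p < MonomialOrder.degLex.degree A 0 ∨ b p < MonomialOrder.degLex.degree A 1) :
    ∃ μ : ℕ × Fin 2 → (Fin 2 →₀ ℕ),
    (∀ p, μ p 0 + μ p 1 ≤ p.1 + 1) ∧ ∀ (W : ℕ) (c : Fin W × Fin 2 → ℚ), c ≠ 0 →
      ¬ A ∣ ∑ p : Fin W × Fin 2, MvPolynomial.monomial (μ (p.1, p.2)) (c p) := by
  obtain ⟨μ, h0, h1⟩ : ∃ μ : ℕ × Fin 2 → (Fin 2 →₀ ℕ), (∀ p, μ p 0 = a p) ∧ ∀ p, μ p 1 = b p :=
    ⟨fun p => Finsupp.single 0 (a p) + Finsupp.single 1 (b p), fun p => by simp, fun p => by simp⟩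
  refine ⟨μ, fun p => by rw [h0, h1]; exact hd p, ?_⟩
  rintro W c hc ⟨B, hB⟩
  obtain ⟨p, hp⟩ := Function.ne_iff.1 hc
  have hG : A * B ≠ 0 := by
    intro e
    have e1 := congrArg (MvPolynomial.coeff (μ (p.1, p.2))) (hB.trans e)
    rw [MvPolynomial.coeff_sum, Finset.sum_eq_single p, MvPolynomial.coeff_monomial,
      if_pos rfl] at e1
    · exact hp e1
    · intro q _ hq
      rw [MvPolynomial.coeff_monomial, if_neg]
      intro e2
      have e3 := hi (q.1, q.2) (p.1, p.2) (by rw [← h0, ← h0, e2]) (by rw [← h1, ← h1, e2])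
      exact hq (Prod.ext (Fin.ext (Prod.ext_iff.1 e3).1) (Prod.ext_iff.1 e3).2)
    · simp
  have h2 := MonomialOrder.degLex.degree_mem_support hG
  rw [MonomialOrder.degree_mul hA (right_ne_zero_of_mul hG), MvPolynomial.mem_support_iff, ← hB,
    MvPolynomial.coeff_sum] at h2
  obtain ⟨q, -, hq⟩ := Finset.exists_ne_zero_of_sum_ne_zero h2
  rw [MvPolynomial.coeff_monomial] at hq
  have e := (ite_ne_right_iff.1 hq).1
  have e0 := h0 (q.1, q.2)
  have e1 := h1 (q.1, q.2)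
  rw [e, Finsupp.add_apply] at e0 e1
  have := hl (q.1, q.2)
  omega

/-- two monomials in each degree, no combination of which is a multiple of `A` -/
theorem exists_monos (A : Q2) (hA : 2 ≤ A.totalDegree) : ∃ μ : ℕ × Fin 2 → (Fin 2 →₀ ℕ),
    (∀ p, μ p 0 + μ p 1 ≤ p.1 + 1) ∧ ∀ (W : ℕ) (c : Fin W × Fin 2 → ℚ), c ≠ 0 →
      ¬ A ∣ ∑ p : Fin W × Fin 2, MvPolynomial.monomial (μ (p.1, p.2)) (c p) := by
  have h0 : A ≠ 0 := by
    rintro rfl
    simp at hA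
  have h1 := MvPolynomial.degree_degLexDegree (f := A)
  rw [Finsupp.degree_eq_sum, Fin.sum_univ_two] at h1
  by_cases c0 : 2 ≤ MonomialOrder.degLex.degree A 0
  · refine wsone_key A h0 (fun p => p.2) (fun p => p.1) (fun p q e e' => Prod.ext e' (Fin.ext e))
      (fun p => ?_) fun p => Or.inl (p.2.2.trans_le c0)
    have := p.2.2
    omega
  by_cases c1 : 2 ≤ MonomialOrder.degLex.degree A 1
  · refine wsone_key A h0 (fun p => p.1) (fun p => p.2) (fun p q e e' => Prod.ext e (Fin.ext e'))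
      (fun p => ?_) fun p => Or.inr (p.2.2.trans_le c1)
    have := p.2.2
    omega
  refine wsone_key A h0 (fun p => if p.2 = 0 then p.1 + 1 else 0)
    (fun p => if p.2 = 0 then 0 else p.1) ?_ (fun p => ?_) fun p => ?_
  · rintro ⟨k, s⟩ ⟨l, t⟩ e e'
    fin_cases s <;> fin_cases t <;> simp_all
  · split_ifs <;> omega
  · split_ifs <;> omega

/-- one class on a curve of degree at least two -/
theorem one_curve (ε : ℝ) (hε : 0 < ε) : ∃ (E' : ℕ) (H₀ : ℝ), ∀ H : ℝ, H₀ ≤ H →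
    ∀ (M : ℕ) (A : Z2) (j : Fin 2) (T : Pt → Prop), Squarefree M → H ^ (1 / 2 + ε) ≤ M →
    2 ≤ A.totalDegree → (∀ z, T z → (∀ i, |(z.1 i : ℝ)| ≤ H) ∧ evz z.1 A = 0 ∧
      Cop M (evz z.1 (MvPolynomial.pderiv j A))) → (∀ z z', T z → T z' → Cong M z z') →
    ∃ G : Q2, ¬ toQ A ∣ G ∧ G.totalDegree ≤ E' ∧ ∀ z, T z → ev2 z.1 G = 0 := by
  obtain ⟨W, H₀, h1, hs⟩ := slope_two 1 ε hε
  refine ⟨W, H₀, fun H hH M A j T hM hHM hA hT hc => ?_⟩
  obtain ⟨μ, hμ, hd⟩ := exists_monos (toQ A) (by rwa [deg_toQ])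
  have hij : j.rev ≠ j := (by decide : ∀ j : Fin 2, j.rev ≠ j) j
  have hH1 : 1 ≤ H := h1.trans hH
  obtain ⟨c, hc0, hc1⟩ := VT.rel (l := M) (k := 1) (κ := Fin W × Fin 2) (2 * W)
    (x := fun (z : {z // T z}) (_ : Fin 1) => z.1.1 j.rev)
    (fun z z' _ => (hc _ _ z.2 z'.2).1 _)
    (F := fun p z => evz z.1.1 (MvPolynomial.monomial (μ (p.1, p.2)) 1))
    (fun p => apx_curve hM A hij (u := fun z : {z // T z} => z.1.1)
      (fun z z' k => (hc _ _ z.2 z'.2).1 k) (fun z => (hT _ z.2).2.1) (fun z => (hT _ z.2).2.2) _)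
    (fun p => H ^ ((p.1 : ℕ) + 1))
    (fun p z => by
      have a0 := (hT _ z.2).1 0
      have a1 := (hT _ z.2).1 1
      rw [evz, MvPolynomial.eval_monomial, one_mul, Finsupp.prod_fintype _ _ (by simp),
        Fin.prod_univ_two]
      push_cast
      rw [abs_mul, abs_pow, abs_pow]
      refine le_trans ?_ (pow_le_pow_right₀ hH1 (hμ (p.1, p.2)))
      rw [pow_add]
      gcongr)
    (hs H hH M hHM)
  refine ⟨_, hd W (fun p => c p) (fun e => hc0 (funext fun p => ?_)), ?_, fun z hz => ?_⟩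
  · exact Int.cast_eq_zero.1 (congrFun e p)
  · refine MvPolynomial.totalDegree_finsetSum_le fun p _ =>
      (MvPolynomial.totalDegree_monomial_le _ _).trans ?_
    rw [Finsupp.sum_fintype _ _ (by simp), Fin.sum_univ_two]
    exact (hμ (p.1, p.2)).trans p.1.2
  · have e : ((∑ p : Fin W × Fin 2, c p * evz z.1 (MvPolynomial.monomial (μ (p.1, p.2)) 1) : ℤ) : ℚ)
        = 0 := by rw [hc1 ⟨z, hz⟩, Int.cast_zero]
    rw [← e, ev2, map_sum, Int.cast_sum]
    refine Finset.sum_congr rfl fun p _ => ?_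
    rw [Int.cast_mul, ← ev2_toQ]
    simp [MvPolynomial.eval_monomial]

end Pool.Agent.VW
end

-- part Pool.Agent.P.MP_b0ea37_nt.WSFac
section

namespace Pool.Agent.VW

open Polynomial

theorem WSFac_deg_pos {A : Q2} (h : Irreducible A) : 1 ≤ A.totalDegree := by
  by_contra c
  have h0 : A.totalDegree = 0 := by omega
  refine h.not_isUnit (MvPolynomial.isUnit_iff_totalDegree_of_isReduced.2 ⟨?_, h0⟩)
  refine IsUnit.mk0 _ fun e => h.ne_zero ?_
  rw [MvPolynomial.totalDegree_eq_zero_iff_eq_C.1 h0, e, map_zero]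

theorem WSFac_card (s : Multiset Q2) (hs : ∀ A ∈ s, Irreducible A) :
    s.card ≤ s.prod.totalDegree := by
  induction s using Multiset.induction_on with
  | empty => simp
  | cons a s ih =>
    have ha := hs a (Multiset.mem_cons_self a s)
    have hs' : ∀ A ∈ s, Irreducible A := fun A hA => hs A (Multiset.mem_cons_of_mem hA)
    have h0 : s.prod ≠ 0 := Multiset.prod_ne_zero fun h => (hs' 0 h).ne_zero rfl
    rw [Multiset.card_cons, Multiset.prod_cons,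
      MvPolynomial.totalDegree_mul_of_isDomain ha.ne_zero h0]
    have := ih hs'
    have := WSFac_deg_pos ha
    omega

/-- a coherent choice of irreducible factors -/
theorem exists_fac : ∃ fac : Q2 → Finset Q2, (∀ G, G ≠ 0 → (fac G).card ≤ G.totalDegree) ∧
    (∀ G, G ≠ 0 → ∀ A ∈ fac G, Irreducible A ∧ A ∣ G ∧ A.totalDegree ≤ G.totalDegree) ∧
    (∀ G, G ≠ 0 → ∀ x : Fin 2 → ℤ, ev2 x G = 0 → ∃ A ∈ fac G, ev2 x A = 0) ∧
    ∀ G G' A, G ≠ 0 → G' ≠ 0 → A ∈ fac G → A ∣ G' → A ∈ fac G' := by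
  classical
  refine ⟨fun G => (UniqueFactorizationMonoid.factors G).toFinset.image
    fun A => Quot.out (Associates.mk A), fun G hG => ?_, fun G hG A hA => ?_,
    fun G hG x hx => ?_, fun G G' A hG hG' hA hd => ?_⟩
  · refine Finset.card_image_le.trans ((Multiset.toFinset_card_le _).trans ?_)
    exact (WSFac_card _ UniqueFactorizationMonoid.irreducible_of_factor).trans
      (MvPolynomial.totalDegree_le_of_dvd_of_isDomain
        (UniqueFactorizationMonoid.factors_prod hG).dvd hG)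
  · obtain ⟨a, ha, rfl⟩ := Finset.mem_image.1 hA
    have ha' := Multiset.mem_toFinset.1 ha
    have h1 := Associates.mk_quot_out a
    have h2 := h1.dvd.trans (UniqueFactorizationMonoid.dvd_of_mem_factors ha')
    exact ⟨h1.symm.irreducible (UniqueFactorizationMonoid.irreducible_of_factor a ha'), h2,
      MvPolynomial.totalDegree_le_of_dvd_of_isDomain h2 hG⟩
  · obtain ⟨u, hu⟩ := (UniqueFactorizationMonoid.factors_prod hG).symm.dvd
    have h1 : ev2 x (UniqueFactorizationMonoid.factors G).prod = 0 := by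
      rw [hu, ev2, map_mul]
      exact mul_eq_zero_of_left hx _
    rw [ev2, map_multiset_prod, Multiset.prod_eq_zero_iff] at h1
    obtain ⟨a, ha, e⟩ := Multiset.mem_map.1 h1
    refine ⟨_, Finset.mem_image_of_mem _ (Multiset.mem_toFinset.2 ha), ?_⟩
    obtain ⟨v, hv⟩ := (Associates.mk_quot_out a).symm.dvd
    rw [hv, ev2, map_mul, e, zero_mul]
  · obtain ⟨a, ha, rfl⟩ := Finset.mem_image.1 hA
    have h1 := Associates.mk_quot_out a
    obtain ⟨b, hb, e⟩ := UniqueFactorizationMonoid.exists_mem_factors_of_dvd hG'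
      (h1.symm.irreducible (UniqueFactorizationMonoid.irreducible_of_factor a
        (Multiset.mem_toFinset.1 ha))) hd
    refine Finset.mem_image.2 ⟨b, Multiset.mem_toFinset.2 hb, ?_⟩
    rw [Associates.mk_eq_mk_iff_associated.2 (h1.symm.trans e)]

/-- exchange one element at a time -/
theorem swap_chain (S : Finset ℕ) (r : ℕ) (P : Finset ℕ → Prop)
    (h : ∀ Q Q' : Finset ℕ, Q ⊆ S → Q' ⊆ S → Q.card = r → Q'.card = r → (Q ∪ Q').card ≤ r + 1 →
      P Q → P Q') {Q Q' : Finset ℕ} (hQ : Q ⊆ S) (hQ' : Q' ⊆ S) (hc : Q.card = r)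
    (hc' : Q'.card = r) (hP : P Q) : P Q' := by
  obtain ⟨d, hd⟩ : ∃ d, (Q' \ Q).card = d := ⟨_, rfl⟩
  induction d generalizing Q with
  | zero =>
    have h1 : Q' ⊆ Q := Finset.sdiff_eq_empty_iff_subset.1 (Finset.card_eq_zero.1 hd)
    rwa [Finset.eq_of_subset_of_card_le h1 (by omega)]
  | succ d ih =>
    obtain ⟨b, hb⟩ := Finset.card_pos.1 (show 0 < (Q' \ Q).card by omega)
    have h1 : (Q \ Q').card = (Q' \ Q).card := Finset.card_sdiff_comm (by omega)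
    obtain ⟨a, ha⟩ := Finset.card_pos.1 (show 0 < (Q \ Q').card by omega)
    obtain ⟨hb1, hb2⟩ := Finset.mem_sdiff.1 hb
    obtain ⟨ha1, ha2⟩ := Finset.mem_sdiff.1 ha
    have h2 : insert b (Q.erase a) ⊆ S :=
      Finset.insert_subset (hQ' hb1) ((Finset.erase_subset a Q).trans hQ)
    have h3 : (insert b (Q.erase a)).card = r := by
      rw [Finset.card_insert_of_notMem fun e => hb2 (Finset.mem_of_mem_erase e),
        Finset.card_erase_add_one ha1, hc]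
    have h4 : Q ∪ insert b (Q.erase a) ⊆ insert b Q :=
      Finset.union_subset (Finset.subset_insert b Q)
        (Finset.insert_subset_insert b (Finset.erase_subset a Q))
    refine ih h2 h3 (h Q _ hQ h2 hc h3 ((Finset.card_le_card h4).trans
      (hc ▸ Finset.card_insert_le b Q)) hP) ?_
    have h5 : Q' \ insert b (Q.erase a) = (Q' \ Q).erase b := by
      ext y
      simp only [Finset.mem_sdiff, Finset.mem_insert, Finset.mem_erase, not_or, not_and]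
      constructor
      · rintro ⟨y1, y2, y3⟩
        exact ⟨y2, y1, y3 fun e => ha2 (e ▸ y1)⟩
      · rintro ⟨y1, y2, y3⟩
        exact ⟨y2, y1, fun _ => y3⟩
    rw [h5, Finset.card_erase_of_mem hb, hd]
    rfl

theorem onLine_eval (a w : Fin 2 → ℚ) (A : Q2) (τ : ℚ) :
    (onLine a w A).eval τ = MvPolynomial.eval (fun i => a i + w i * τ) A := by
  induction A using MvPolynomial.induction_on with
  | C c => simp [onLine]
  | add p q hp hq => simp only [map_add, eval_add, hp, hq]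
  | mul_X p i hp =>
    rw [map_mul, eval_mul, hp, map_mul]
    simp [onLine]

theorem odd_not_sq {B E O : ℚ[X]} {c : ℚ} (hB : Odd B.natDegree) (e : B * O ^ 2 = C c * E ^ 2) :
    O = 0 := by
  by_contra hO
  have hB0 : B ≠ 0 := by
    rintro rfl
    simp at hB
  have h1 : B * O ^ 2 ≠ 0 := mul_ne_zero hB0 (pow_ne_zero 2 hO)
  have hc : c ≠ 0 := by
    rintro rfl
    exact h1 (by simpa using e)
  have h2 := congrArg natDegree e
  rw [natDegree_mul hB0 (pow_ne_zero 2 hO), natDegree_C_mul hc, natDegree_pow, natDegree_pow] at h2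
  obtain ⟨k, hk⟩ := hB
  omega

theorem OddAt.not_sq {D : Z2} {x : Fin 2 → ℤ} (h : OddAt D x) (E O : Q2) (c : ℚ)
    (e : toQ D * O ^ 2 = MvPolynomial.C c * E ^ 2) : O = 0 := by
  by_contra hO
  have h1 : (MvPolynomial.X 0 - MvPolynomial.C (x 0 : ℚ) : Q2) ≠ 0 := by
    intro e1
    have := congrArg (MvPolynomial.eval fun _ => (x 0 : ℚ) + 1) e1
    simp at this
  obtain ⟨y, hy⟩ : ∃ y : Fin 2 → ℚ,
      MvPolynomial.eval y (O * (MvPolynomial.X 0 - MvPolynomial.C (x 0 : ℚ))) ≠ 0 := by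
    by_contra c1
    refine mul_ne_zero hO h1 (MvPolynomial.funext fun y => ?_)
    rw [map_zero]
    exact not_not.1 fun c2 => c1 ⟨y, c2⟩
  rw [map_mul] at hy
  have hw : (fun i => y i - (x i : ℚ)) ≠ 0 := by
    intro e1
    refine right_ne_zero_of_mul hy ?_
    simpa using congrFun e1 0
  have h2 := congrArg (onLine (fun i => (x i : ℚ)) fun i => y i - (x i : ℚ)) e
  rw [map_mul, map_mul, map_pow, map_pow] at h2
  have h3 : onLine (fun i => (x i : ℚ)) (fun i => y i - (x i : ℚ)) (MvPolynomial.C c) = C c := by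
    simp [onLine]
  rw [h3] at h2
  have h4 := congrArg (eval 1) (odd_not_sq (h _ hw) h2)
  rw [onLine_eval, eval_zero] at h4
  refine left_ne_zero_of_mul hy ?_
  simpa using h4

theorem WSFac_supp {R : Type} [CommSemiring R] {A : MvPolynomial (Fin 2) R} {j : Fin 2}
    {d : Fin 2 →₀ ℕ} (h : d ∈ (MvPolynomial.pderiv j A).support) :
    d 0 + d 1 + 1 ≤ A.totalDegree := by
  rw [MvPolynomial.mem_support_iff, MvPolynomial.coeff_pderiv] at h
  have h1 := MvPolynomial.le_totalDegree (MvPolynomial.mem_support_iff.2 (left_ne_zero_of_mul h))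
  rw [Finsupp.sum_fintype _ _ fun _ => rfl, Fin.sum_univ_two] at h1
  fin_cases j <;> simp at h1 <;> omega

theorem eval_growth (E c : ℕ) (C₀ : ℝ) : ∃ (a : ℕ) (H₀ : ℝ), ∀ H : ℝ, H₀ ≤ H → ∀ A : Z2,
    A.totalDegree ≤ E → (∀ m, |((A.coeff m : ℤ) : ℝ)| ≤ C₀ * H ^ c) → ∀ x : Fin 2 → ℤ,
    (∀ i, |(x i : ℝ)| ≤ H) → ∀ j, |(evz x (MvPolynomial.pderiv j A) : ℝ)| ≤ H ^ a := by
  classical
  refine ⟨c + E + 1, max 1 ((E + 1) ^ 2 * (|C₀| * (E + 1))), fun H hH A hA hc x hx j => ?_⟩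
  have h1 : 1 ≤ H := (le_max_left _ _).trans hH
  have h2 := (le_max_right _ _).trans hH
  have hcard : ((MvPolynomial.pderiv j A).support.card : ℝ) ≤ (E + 1) ^ 2 := by
    have h3 : (MvPolynomial.pderiv j A).support.card ≤
        (Finset.range (E + 1) ×ˢ Finset.range (E + 1)).card := by
      refine Finset.card_le_card_of_injOn (fun d => (d 0, d 1)) (fun d hd => ?_)
        fun d _ d' _ e => ?_
      · have := WSFac_supp (Finset.mem_coe.1 hd)
        simp only [Finset.coe_product, Finset.coe_range, Set.mem_prod, Set.mem_Iio]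
        omega
      · ext i
        fin_cases i
        · exact congrArg Prod.fst e
        · exact congrArg Prod.snd e
    rw [Finset.card_product, Finset.card_range, ← sq] at h3
    exact_mod_cast h3
  have hterm : ∀ d ∈ (MvPolynomial.pderiv j A).support,
      |(((MvPolynomial.pderiv j A).coeff d * ∏ i, x i ^ d i : ℤ) : ℝ)| ≤
        |C₀| * (E + 1) * H ^ (c + E) := by
    intro d hd
    have h3 := WSFac_supp hd
    have h4 : ((d j : ℝ) + 1) ≤ E + 1 := by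
      have : d j ≤ E := by fin_cases j <;> simp <;> omega
      exact_mod_cast Nat.succ_le_succ this
    have h5 : |(x 0 : ℝ)| ^ d 0 * |(x 1 : ℝ)| ^ d 1 ≤ H ^ E := by
      calc |(x 0 : ℝ)| ^ d 0 * |(x 1 : ℝ)| ^ d 1 ≤ H ^ d 0 * H ^ d 1 := by
            have := hx 0
            have := hx 1
            gcongr
        _ ≤ H ^ E := by
            rw [← pow_add]
            exact pow_le_pow_right₀ h1 (by omega)
    have h6 := (hc (d + Finsupp.single j 1)).trans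
      (mul_le_mul_of_nonneg_right (le_abs_self C₀) (by positivity))
    rw [MvPolynomial.coeff_pderiv, Fin.prod_univ_two]
    push_cast
    rw [abs_mul, abs_mul, abs_mul, abs_pow, abs_pow,
      abs_of_nonneg (show (0 : ℝ) ≤ d j + 1 by positivity)]
    calc _ ≤ |C₀| * H ^ c * (E + 1) * H ^ E := by gcongr
      _ = _ := by ring
  rw [evz, MvPolynomial.eval_eq', Int.cast_sum]
  refine (Finset.abs_sum_le_sum_abs _ _).trans ((Finset.sum_le_card_nsmul _ _ _ hterm).trans ?_)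
  rw [nsmul_eq_mul]
  calc _ ≤ (E + 1) ^ 2 * (|C₀| * (E + 1) * H ^ (c + E)) := by gcongr
    _ = (E + 1) ^ 2 * (|C₀| * (E + 1)) * H ^ (c + E) := by ring
    _ ≤ H * H ^ (c + E) := by gcongr
    _ = _ := by ring

/-- singular points -/
theorem cnt_sing (E : ℕ) : ∃ C : ℝ, 1 ≤ C ∧ ∀ A : Q2, Irreducible A → A.totalDegree ≤ E →
    Cnt (fun x : Fin 2 → ℤ => ev2 x A = 0 ∧ ∀ j, ev2 x (MvPolynomial.pderiv j A) = 0) C := by
  obtain ⟨C₀, hC, h⟩ := bezout E
  refine ⟨C₀, hC, fun A hA hE => ?_⟩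
  have h1 := WSFac_deg_pos hA
  obtain ⟨m, hm, j, hj⟩ : ∃ m ∈ A.support, ∃ j, m j ≠ 0 := by
    by_contra c
    have h2 : A.totalDegree = 0 := (MvPolynomial.totalDegree_eq_zero_iff _ A).2
      fun m hm j => not_not.1 fun c2 => c ⟨m, hm, j, c2⟩
    omega
  have h2 : MvPolynomial.pderiv j A ≠ 0 := by
    intro e
    have h3 := MvPolynomial.coeff_pderiv (i := j) A (m - Finsupp.single j 1)
    rw [e, MvPolynomial.coeff_zero, Finsupp.sub_add_single_one_cancel hj] at h3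
    exact mul_ne_zero (MvPolynomial.mem_support_iff.1 hm) (by positivity) h3.symm
  have h3 : (MvPolynomial.pderiv j A).totalDegree < A.totalDegree := by
    refine (Finset.sup_lt_iff (show ⊥ < A.totalDegree from h1)).2 fun d hd => ?_
    rw [Finsupp.sum_fintype _ _ fun _ => rfl, Fin.sum_univ_two]
    exact WSFac_supp hd
  exact (h A _ hA (fun hd => absurd (MvPolynomial.totalDegree_le_of_dvd_of_isDomain hd h2)
    (by omega)) hE (by omega)).mono (fun x hx => ⟨hx.1, hx.2 j⟩) le_rfl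

end Pool.Agent.VW
end

-- part Pool.Agent.P.MP_b0ea37_nt.WSOneB
section

namespace Pool.Agent.VW

open Polynomial

theorem wsoneb_shape0 (A : Z2) (hA : A.totalDegree ≤ 1) : ∃ g b c : ℤ, A = MvPolynomial.C g +
    MvPolynomial.C b * MvPolynomial.X 0 + MvPolynomial.C c * MvPolynomial.X 1 := by
  rw [A.as_sum]
  refine Finset.sum_induction _ (fun B : Z2 => ∃ g b c : ℤ, B = MvPolynomial.C g +
    MvPolynomial.C b * MvPolynomial.X 0 + MvPolynomial.C c * MvPolynomial.X 1) ?_ ?_ ?_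
  · rintro _ _ ⟨g, b, c, rfl⟩ ⟨g', b', c', rfl⟩
    exact ⟨g + g', b + b', c + c', by simp only [map_add]; ring⟩
  · exact ⟨0, 0, 0, by simp⟩
  · intro m hm
    have h1 := (MvPolynomial.le_totalDegree hm).trans hA
    rw [Finsupp.sum_fintype _ _ (fun _ => rfl), Fin.sum_univ_two] at h1
    rw [MvPolynomial.monomial_eq, Finsupp.prod_fintype _ _ (fun _ => pow_zero _),
      Fin.prod_univ_two]
    generalize A.coeff m = d
    have h2 : (m 0 = 0 ∧ m 1 = 0) ∨ (m 0 = 1 ∧ m 1 = 0) ∨ (m 0 = 0 ∧ m 1 = 1) := by omega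
    rcases h2 with ⟨e0, e1⟩ | ⟨e0, e1⟩ | ⟨e0, e1⟩ <;> rw [e0, e1]
    · exact ⟨d, 0, 0, by simp⟩
    · exact ⟨0, d, 0, by simp⟩
    · exact ⟨0, 0, d, by simp⟩

theorem wsoneb_shape (A : Z2) (hA : A.totalDegree ≤ 1) (j : Fin 2) : ∃ i : Fin 2, i ≠ j ∧
    ∃ g b c : ℤ, A = MvPolynomial.C g +
      MvPolynomial.C b * MvPolynomial.X i + MvPolynomial.C c * MvPolynomial.X j := by
  obtain ⟨g, b, c, h⟩ := wsoneb_shape0 A hA
  fin_cases j
  · exact ⟨1, by decide, g, c, b, by rw [h]; simp only [Fin.zero_eta]; ring⟩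
  · exact ⟨0, by decide, g, b, c, by rw [h]; simp only [Fin.mk_one]⟩

theorem wsoneb_ind {W : ℕ} (c : Fin W → ℚ) (r : ℚ)
    (h : ∑ k : Fin W, C (c k) * (C r + C 1 * X : ℚ[X]) ^ (k : ℕ) = 0) (k : Fin W) : c k = 0 := by
  have h1 := congrArg (fun p : ℚ[X] => (p.comp (X - C r)).coeff k) h
  simp only [sum_comp, mul_comp, C_comp, pow_comp, add_comp, X_comp, C_1, one_mul,
    add_sub_cancel, zero_comp, finsetSum_coeff, coeff_C_mul, coeff_X_pow, coeff_zero] at h1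
  rw [Finset.sum_eq_single k (fun l _ hl => by
    rw [if_neg (fun e => hl (Fin.ext e.symm)), mul_zero]) (by simp)] at h1
  simpa using h1

/-- a polynomial in one coordinate -/
noncomputable def wsoneb_pol {W : ℕ} (i : Fin 2) (c : Fin W → ℤ) : Q2 :=
  ∑ k : Fin W, MvPolynomial.C (c k : ℚ) * MvPolynomial.X i ^ (k : ℕ)

theorem wsoneb_deg {W : ℕ} (i : Fin 2) (c : Fin W → ℤ) : (wsoneb_pol i c).totalDegree ≤ W := by
  refine MvPolynomial.totalDegree_finsetSum_le fun k _ => ?_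
  refine (MvPolynomial.totalDegree_mul _ _).trans ?_
  rw [MvPolynomial.totalDegree_C, MvPolynomial.totalDegree_X_pow]
  omega

theorem wsoneb_ev {W : ℕ} (i : Fin 2) (c : Fin W → ℤ) (x : Fin 2 → ℤ) :
    ev2 x (wsoneb_pol i c) = ((∑ k : Fin W, c k * x i ^ (k : ℕ) : ℤ) : ℚ) := by
  simp [wsoneb_pol]

theorem wsoneb_line {W : ℕ} (i : Fin 2) (c : Fin W → ℤ) (a w : Fin 2 → ℚ) (hw : w i = 1)
    (h : onLine a w (wsoneb_pol i c) = 0) (k : Fin W) : c k = 0 := by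
  have h1 : ∑ k : Fin W, C (c k : ℚ) * (C (a i) + C 1 * X : ℚ[X]) ^ (k : ℕ) = 0 := by
    rw [← h, wsoneb_pol, map_sum]
    refine Finset.sum_congr rfl fun k _ => ?_
    rw [map_mul, map_pow, onLine, MvPolynomial.aeval_C, MvPolynomial.aeval_X, hw]
    rfl
  exact_mod_cast wsoneb_ind (fun k => (c k : ℚ)) (a i) h1 k

theorem wsoneb_not_dvd {W : ℕ} {i j : Fin 2} (hij : i ≠ j) {g b c q : ℤ} (hc : c ≠ 0)
    (hq : q ≠ 0) {D : Z2} {x : Fin 2 → ℤ} (hx : g + b * x i + c * x j = 0) (hD : OddAt D x)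
    (e o : Fin W → ℤ)
    (h : toQ (MvPolynomial.C g + MvPolynomial.C b * MvPolynomial.X i +
      MvPolynomial.C c * MvPolynomial.X j) ∣
        MvPolynomial.C (q : ℚ) * wsoneb_pol i e ^ 2 - toQ D * wsoneb_pol i o ^ 2) (k : Fin W) :
    e k = 0 ∧ o k = 0 := by
  set w : Fin 2 → ℚ := fun k => if k = j then -(b : ℚ) / c else 1 with hw
  have hwi : w i = 1 := if_neg hij
  have hwj : w j = -(b : ℚ) / c := if_pos rfl
  have hw0 : w ≠ 0 := fun h0 => by
    rw [h0] at hwi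
    simp at hwi
  have hA : onLine (fun i => (x i : ℚ)) w (toQ (MvPolynomial.C g +
      MvPolynomial.C b * MvPolynomial.X i + MvPolynomial.C c * MvPolynomial.X j)) = 0 := by
    apply Polynomial.funext
    intro τ
    rw [onLine_eval]
    have hc' : (c : ℚ) ≠ 0 := by exact_mod_cast hc
    have hx' : (g : ℚ) + b * x i + c * x j = 0 := by exact_mod_cast hx
    simp only [map_add, map_mul, MvPolynomial.map_X,
      MvPolynomial.eval_X, hwi, hwj, eval_zero, eq_intCast, map_intCast]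
    field_simp
    linear_combination hx'
  have h1 := map_dvd (onLine (fun i => (x i : ℚ)) w) h
  rw [hA, zero_dvd_iff, map_sub, map_mul, map_mul, map_pow, map_pow, sub_eq_zero] at h1
  have h2 : onLine (fun i => (x i : ℚ)) w (MvPolynomial.C (q : ℚ)) = C (q : ℚ) := by
    rw [onLine, MvPolynomial.aeval_C]
    rfl
  rw [h2] at h1
  have h3 := odd_not_sq (hD w hw0) h1.symm
  have hq' : (C (q : ℚ) : ℚ[X]) ≠ 0 := C_ne_zero.2 (by exact_mod_cast hq)
  rw [h3, zero_pow two_ne_zero, mul_zero, mul_eq_zero, pow_eq_zero_iff two_ne_zero] at h1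
  exact ⟨wsoneb_line i e _ w hwi (h1.resolve_left hq') k, wsoneb_line i o _ w hwi h3 k⟩

/-- one class on a line -/
theorem one_line (E a : ℕ) (ε : ℝ) (hε : 0 < ε) : ∃ (E' : ℕ) (H₀ : ℝ), ∀ H : ℝ, H₀ ≤ H →
    ∀ (M : ℕ) (A D : Z2) (q : ℤ) (j : Fin 2) (T : Pt → Prop), Squarefree M → H ^ (1 / 2 + ε) ≤ M →
    Irreducible (toQ A) → A.totalDegree ≤ 1 → D.totalDegree ≤ E →
    (∀ z, T z → On D q H a z ∧ Cop M (2 * evz z.1 D) ∧ evz z.1 A = 0 ∧
      Cop M (evz z.1 (MvPolynomial.pderiv j A))) → (∀ z z', T z → T z' → Cong M z z') →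
    ∃ G : Q2, ¬ toQ A ∣ G ∧ G.totalDegree ≤ E' ∧ ∀ z, T z → ev2 z.1 G = 0 := by
  obtain ⟨W, H₀, h1, hW⟩ := slope_two a ε hε
  refine ⟨E + 2 * W, max H₀ 2, fun H hH M A D q j T hM hHM hA hA1 hD hT hc => ?_⟩
  have hH0 : H₀ ≤ H := le_trans (le_max_left _ _) hH
  have hH2 : 2 ≤ H := le_trans (le_max_right _ _) hH
  by_cases hne : ∃ z, T z
  swap
  · exact ⟨1, fun h => hA.not_isUnit (isUnit_of_dvd_one h), by simp,
      fun z hz => (hne ⟨z, hz⟩).elim⟩
  obtain ⟨z₀, hz₀⟩ := hne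
  have hM1 : M ≠ 1 := by
    have : (1 : ℝ) < H ^ (1 / 2 + ε) := Real.one_lt_rpow (by linarith) (by linarith)
    rintro rfl
    rw [Nat.cast_one] at hHM
    linarith
  obtain ⟨l, hl, hlM⟩ := Nat.exists_prime_and_dvd hM1
  obtain ⟨i, hij, g, b, c, hsh⟩ := wsoneb_shape A hA1 j
  have hc0 : c ≠ 0 := by
    intro h0
    apply (hT z₀ hz₀).2.2.2 l hl hlM
    rw [hsh, h0]
    simp [MvPolynomial.pderiv_X, hij]
  have hq : q ≠ 0 := by
    intro h0
    obtain ⟨-, e1, e2, -⟩ := (hT z₀ hz₀).1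
    rw [h0, zero_mul] at e1
    exact e2 e1
  have hx₀ : g + b * z₀.1 i + c * z₀.1 j = 0 := by
    have := (hT z₀ hz₀).2.2.1
    rw [hsh] at this
    simpa using this
  have hu : ∀ (s t : {z // T z}) (k : Fin 2), s.1.1 k ≡ t.1.1 k [ZMOD M] :=
    fun s t k => (hc _ _ s.2 t.2).1 k
  have hx : ∀ (s t : {z // T z}) (k : Fin 1), (fun (s : {z // T z}) (_ : Fin 1) => s.1.1 i) s k ≡
      (fun (s : {z // T z}) (_ : Fin 1) => s.1.1 i) t k [ZMOD M] := fun s t _ => hu s t i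
  have hDa : VT.Apx M (fun (s : {z // T z}) (_ : Fin 1) => s.1.1 i) fun s => evz s.1.1 D :=
    apx_curve hM A hij (u := fun s : {z // T z} => s.1.1) hu (fun s => (hT _ s.2).2.2.1)
      (fun s => (hT _ s.2).2.2.2) D
  have hy : VT.Apx M (fun (s : {z // T z}) (_ : Fin 1) => s.1.1 i) fun s => s.1.2 :=
    apx_root hM hx hDa (q := q) (fun s => (hT _ s.2).1.2.1) (fun s => (hT _ s.2).2.1)
      fun s t => (hc _ _ s.2 t.2).2
  have hF : ∀ p : Fin W × Fin 2, VT.Apx M (fun (s : {z // T z}) (_ : Fin 1) => s.1.1 i)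
      fun s => s.1.1 i ^ (p.1 : ℕ) * s.1.2 ^ (p.2 : ℕ) := fun p =>
    ((VT.Apx.coord (x := fun (s : {z // T z}) (_ : Fin 1) => s.1.1 i) 0).pow _).mul (hy.pow _)
  have hB : ∀ (p : Fin W × Fin 2) (s : {z // T z}),
      |((s.1.1 i ^ (p.1 : ℕ) * s.1.2 ^ (p.2 : ℕ) : ℤ) : ℝ)| ≤ H ^ ((p.1 : ℕ) + a) := by
    rintro ⟨k, t⟩ s
    obtain ⟨e0, e1, e2, e3, -⟩ := (hT _ s.2).1
    have hy1 : |(s.1.2 : ℝ)| ≤ H ^ a := by
      refine le_trans ?_ e3
      have : |s.1.2| ≤ |evz s.1.1 D| :=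
        Int.le_of_dvd (abs_pos.2 e2) ((abs_dvd_abs _ _).2 ⟨q * s.1.2, by rw [e1]; ring⟩)
      exact_mod_cast this
    have hy2 : |(s.1.2 : ℝ)| ^ (t : ℕ) ≤ H ^ a := by
      fin_cases t
      · simpa using one_le_pow₀ (n := a) (show (1 : ℝ) ≤ H by linarith)
      · simpa using hy1
    push_cast
    rw [abs_mul, abs_pow, abs_pow, pow_add]
    exact mul_le_mul (pow_le_pow_left₀ (abs_nonneg _) (e0 i) _) hy2 (by positivity)
      (by positivity)
  obtain ⟨cf, hcf, hrel⟩ := VT.rel (2 * W) hx hF _ hB (hW H hH0 M hHM)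
  refine ⟨MvPolynomial.C (q : ℚ) * wsoneb_pol i (fun k => cf (k, 0)) ^ 2 -
    toQ D * wsoneb_pol i (fun k => cf (k, 1)) ^ 2, fun h => hcf ?_, ?_, fun z hz => ?_⟩
  · rw [hsh] at h
    funext p
    obtain ⟨k, t⟩ := p
    have := wsoneb_not_dvd hij hc0 hq hx₀ (hT z₀ hz₀).1.2.2.2.2 _ _ h k
    fin_cases t
    · exact this.1
    · exact this.2
  · have d2 : ∀ e : Fin W → ℤ, (wsoneb_pol i e ^ 2).totalDegree ≤ 2 * W := fun e =>
      (MvPolynomial.totalDegree_pow _ _).trans (Nat.mul_le_mul_left 2 (wsoneb_deg i e))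
    refine (MvPolynomial.totalDegree_sub _ _).trans (max_le ?_ ?_)
    · refine (MvPolynomial.totalDegree_mul _ _).trans ?_
      rw [MvPolynomial.totalDegree_C]
      exact add_le_add (Nat.zero_le _) (d2 _)
    · refine (MvPolynomial.totalDegree_mul _ _).trans ?_
      rw [deg_toQ]
      exact add_le_add hD (d2 _)
  · have r := hrel ⟨z, hz⟩
    rw [Fintype.sum_prod_type] at r
    simp only [Fin.sum_univ_two, Fin.val_zero, Fin.val_one, pow_zero, pow_one, mul_one,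
      Finset.sum_add_distrib, ← mul_assoc, ← Finset.sum_mul] at r
    have e1 := (hT z hz).1.2.1
    rw [ev2, map_sub, map_mul, map_mul, map_pow, map_pow, MvPolynomial.eval_C]
    have a1 := wsoneb_ev i (fun k => cf (k, 0)) z.1
    have a2 := wsoneb_ev i (fun k => cf (k, 1)) z.1
    have a3 := ev2_toQ z.1 D
    simp only [ev2] at a1 a2 a3
    rw [a1, a2, a3, e1, eq_neg_of_add_eq_zero_left r]
    push_cast
    ring

end Pool.Agent.VW
end

-- part Pool.Agent.P.MP_b0ea37_nt.WSChA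
section

namespace Pool.Agent.VW

open Polynomial

/-- points of one class on a curve that is smooth to a larger modulus -/
theorem on_curve (E a : ℕ) (ε : ℝ) (hε : 0 < ε) : ∃ C H₀ : ℝ, 0 ≤ C ∧ ∀ H : ℝ, H₀ ≤ H →
    ∀ (M M' : ℕ) (A D : Z2) (q : ℤ) (j : Fin 2) (T : Pt → Prop), Squarefree M' → M ∣ M' →
    H ^ (1 / 2 + ε) ≤ M' → Irreducible (toQ A) → A.totalDegree ≤ E → D.totalDegree ≤ E →
    (∀ z, T z → On D q H a z ∧ Cop M' (2 * evz z.1 D) ∧ evz z.1 A = 0 ∧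
      Cop M' (evz z.1 (MvPolynomial.pderiv j A))) → (∀ z z', T z → T z' → Cong M z z') →
    Cnt T (2 * (M' : ℝ) / M * (2 * E) ^ M'.primeFactors.card * C) := by
  obtain ⟨E₁, H₁, h1⟩ := one_curve ε hε
  obtain ⟨E₂, H₂, h2⟩ := one_line E a ε hε
  obtain ⟨C, hC, hb⟩ := bezout (E + E₁ + E₂)
  refine ⟨C * 2, max H₁ H₂, by linarith, ?_⟩
  intro H hH M M' A D q j T hM' hMM hsz hA hE hD hT hc
  refine cover_curve D A q j E hE M M' hM' hMM (by linarith)
    (fun z hz => ⟨(hT z hz).1.2.1, (hT z hz).2⟩) hc fun z₀ _ => ?_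
  have hcong : ∀ z z', T z ∧ Cong M' z z₀ → T z' ∧ Cong M' z' z₀ → Cong M' z z' :=
    fun z z' h h' => h.2.trans h'.2.symm
  obtain ⟨G, hG, hdeg, hz⟩ : ∃ G : Q2, ¬ toQ A ∣ G ∧ G.totalDegree ≤ E + E₁ + E₂ ∧
      ∀ z, T z ∧ Cong M' z z₀ → ev2 z.1 G = 0 := by
    rcases le_or_gt 2 A.totalDegree with h | h
    · obtain ⟨G, a1, a2, a3⟩ := h1 H ((le_max_left _ _).trans hH) M' A j
        (fun z => T z ∧ Cong M' z z₀) hM' hsz h
        (fun z hz => ⟨(hT z hz.1).1.1, (hT z hz.1).2.2⟩) hcong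
      exact ⟨G, a1, by omega, a3⟩
    · obtain ⟨G, a1, a2, a3⟩ := h2 H ((le_max_right _ _).trans hH) M' A D q j
        (fun z => T z ∧ Cong M' z z₀) hM' hsz hA (by omega) hD (fun z hz => hT z hz.1) hcong
      exact ⟨G, a1, by omega, a3⟩
  refine cnt_lift D q (fun z h => ⟨⟨?_, hz z h⟩, (hT z h.1).1.2.1, (hT z h.1).1.2.2.1⟩)
    (hb (toQ A) G hA hG (by rw [deg_toQ]; omega) hdeg)
  rw [ev2_toQ, (hT z h.1).2.2.1, Int.cast_zero]

end Pool.Agent.VW
end

-- part Pool.Agent.P.MP_b0ea37_nt.WKer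
section

namespace Pool.Agent.VW

open Polynomial

theorem small_ker {σ ι : Type} [Fintype σ] (T : ι → Prop) (φ : σ → ι → ℤ) (B : ℝ) (hB : 1 ≤ B)
    (hφ : ∀ i j, T j → |(φ i j : ℝ)| ≤ B) (c : σ → ℚ) (hc : c ≠ 0)
    (h : ∀ j, T j → ∑ i, c i * φ i j = 0) :
    ∃ c' : σ → ℤ, c' ≠ 0 ∧ (∀ i, |(c' i : ℝ)| ≤ (Fintype.card σ * B) ^ Fintype.card σ) ∧
      ∀ j, T j → ∑ i, c' i * φ i j = 0 := by
  obtain ⟨w, h1, h2, h3⟩ := VT.ker (fun (j : {j // T j}) i => φ i j) hB (fun j i => hφ i j j.2) c hc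
    fun j => by simpa only [mul_comm] using h j j.2
  exact ⟨w, h1, h3, fun j hj => by simpa only [mul_comm] using h2 ⟨j, hj⟩⟩

theorem ker_mono {k : ℕ} {x : Fin k → ℤ} {L : ℝ} (hx : ∀ i, |(x i : ℝ)| ≤ L) (m : Fin k → ℕ) :
    |((∏ i, x i ^ m i : ℤ) : ℝ)| ≤ L ^ ∑ i, m i := by
  push_cast
  rw [Finset.abs_prod, ← Finset.prod_pow_eq_pow_sum]
  exact Finset.prod_le_prod (fun _ _ => abs_nonneg _) fun i _ => by
    rw [abs_pow]
    exact pow_le_pow_left₀ (abs_nonneg _) (hx i) _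

theorem ker_deg {k : ℕ} {R : Type} [CommRing R] {A : MvPolynomial (Fin k) R} {m : Fin k →₀ ℕ}
    (hm : m ∈ A.support) : ∑ i, m i ≤ A.totalDegree := by
  have := MvPolynomial.le_totalDegree hm
  rwa [Finsupp.sum_fintype _ _ fun _ => rfl] at this

/-- the polynomial with given monomials and coefficients -/
theorem ker_comb {k : ℕ} {σ : Type} [Fintype σ] (μ : σ → (Fin k →₀ ℕ))
    (hμ : Function.Injective μ) (c : σ → ℤ) : ∃ P : MvPolynomial (Fin k) ℤ,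
      (∀ i, P.coeff (μ i) = c i) ∧ (∀ m ∈ P.support, ∃ i, μ i = m) ∧
      ∀ x, MvPolynomial.eval x P = ∑ i, c i * ∏ a, x a ^ μ i a := by
  classical
  refine ⟨∑ i, MvPolynomial.monomial (μ i) (c i), fun i => ?_, fun m hm => ?_, fun x => ?_⟩
  · simp [MvPolynomial.coeff_sum, MvPolynomial.coeff_monomial, hμ.eq_iff]
  · by_contra h
    push Not at h
    simp [MvPolynomial.coeff_sum, MvPolynomial.coeff_monomial, h] at hm
  · simp [MvPolynomial.eval_monomial, Finsupp.prod_fintype]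

theorem ker_ev {k : ℕ} (x : Fin k → ℤ) (P : MvPolynomial (Fin k) ℤ) :
    MvPolynomial.eval (fun i => (x i : ℚ)) (MvPolynomial.map (Int.castRingHom ℚ) P) =
      (MvPolynomial.eval x P : ℤ) := by
  induction P using MvPolynomial.induction_on with
  | C c => simp
  | add p q hp hq => simp only [map_add, hp, hq, Int.cast_add]
  | mul_X p i hp =>
    simp only [map_mul, hp]
    simp

/-- a curve with many points in a box has small height -/
theorem small_height (E : ℕ) : ∃ (C : ℝ) (a : ℕ), 1 ≤ C ∧ ∀ L : ℝ, 1 ≤ L →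
    ∀ A : MvPolynomial (Fin 2) ℚ, Irreducible A → A.totalDegree ≤ E →
    Cnt (fun x : Fin 2 → ℤ => (∀ i, |(x i : ℝ)| ≤ L) ∧ ev2 x A = 0) C ∨
    ∃ (A' : MvPolynomial (Fin 2) ℤ) (c : ℚ), c ≠ 0 ∧
      MvPolynomial.map (Int.castRingHom ℚ) A' = MvPolynomial.C c * A ∧
      (∀ m, |((A'.coeff m : ℤ) : ℝ)| ≤ C * L ^ a) := by
  classical
  obtain ⟨C, hC, hb⟩ := bezout E
  obtain ⟨N, hN⟩ : ∃ N, N = (E + 2).choose 2 := ⟨_, rfl⟩
  refine ⟨C + N ^ N, E * N, le_add_of_le_of_nonneg hC (by positivity), fun L hL A hA hE => ?_⟩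
  have hn : Fintype.card A.support ≤ N := by
    rw [Fintype.card_coe, hN]
    exact VT.card_deg_le _ fun m hm => (ker_deg hm).trans hE
  obtain ⟨m0, hm0⟩ := MvPolynomial.support_nonempty.2 hA.ne_zero
  have hn1 : 1 ≤ Fintype.card A.support := Fintype.card_pos_iff.2 ⟨⟨m0, hm0⟩⟩
  have hLE : 1 ≤ L ^ E := one_le_pow₀ hL
  obtain ⟨c, hc, h1, h2⟩ := small_ker (fun x : Fin 2 → ℤ => (∀ i, |(x i : ℝ)| ≤ L) ∧ ev2 x A = 0)
    (fun (m : A.support) x => ∏ i, x i ^ m.1 i) (L ^ E) hLE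
    (fun m x hx => (ker_mono hx.1 _).trans (pow_le_pow_right₀ hL ((ker_deg m.2).trans hE)))
    (fun m => A.coeff m)
    (fun h => MvPolynomial.mem_support_iff.1 hm0 (congrFun h ⟨m0, hm0⟩)) fun x hx => by
      have := hx.2
      rw [ev2, MvPolynomial.eval_eq', ← Finset.sum_coe_sort] at this
      exact_mod_cast this
  obtain ⟨P, p1, p2, p3⟩ := ker_comb (fun m : A.support => m.1) Subtype.val_injective c
  have hs : (MvPolynomial.map (Int.castRingHom ℚ) P).support ⊆ A.support := fun m hm => by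
    obtain ⟨i, rfl⟩ := p2 m (MvPolynomial.support_map_subset _ _ hm)
    exact i.2
  have hd := MvPolynomial.totalDegree_le_of_support_subset hs
  by_cases hdv : A ∣ MvPolynomial.map (Int.castRingHom ℚ) P
  · right
    obtain ⟨B, hB⟩ := hdv
    have hB0 : B ≠ 0 := by
      rintro rfl
      refine hc (funext fun i => ?_)
      have := congrArg (MvPolynomial.coeff i.1) hB
      simpa [MvPolynomial.coeff_map, p1] using this
    rw [hB, MvPolynomial.totalDegree_mul_of_isDomain hA.ne_zero hB0] at hd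
    have h3 := MvPolynomial.totalDegree_eq_zero_iff_eq_C.1 (by omega : B.totalDegree = 0)
    refine ⟨P, B.coeff 0, fun h => hB0 (by rw [h3, h, map_zero]), by rw [← h3, hB, mul_comm],
      fun m => ?_⟩
    by_cases hm : m ∈ P.support
    · obtain ⟨i, rfl⟩ := p2 m hm
      rw [p1]
      have h4 : (1 : ℝ) ≤ N * L ^ E :=
        one_le_mul_of_one_le_of_one_le (by exact_mod_cast hn1.trans hn) hLE
      calc _ ≤ _ := h1 i
        _ ≤ ((N : ℝ) * L ^ E) ^ Fintype.card A.support := by gcongr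
        _ ≤ ((N : ℝ) * L ^ E) ^ N := pow_le_pow_right₀ h4 hn
        _ = N ^ N * L ^ (E * N) := by rw [mul_pow, pow_mul]
        _ ≤ _ := by gcongr; linarith
    · rw [MvPolynomial.notMem_support_iff.1 hm]
      simp only [Int.cast_zero, abs_zero]
      positivity
  · refine Or.inl ((hb A _ hA hdv hE (hd.trans hE)).mono (fun x hx => ⟨hx.2, ?_⟩) ?_)
    · rw [ev2, ker_ev, p3, h2 x hx, Int.cast_zero]
    · exact le_add_of_nonneg_right (by positivity)

end Pool.Agent.VW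
end

-- part Pool.Agent.P.MP_b0ea37_nt.WSChain
section

namespace Pool.Agent.VW

open Polynomial

def chMod (Q : Finset ℕ) : ℕ := ∏ l ∈ Q, l

def chRed (M : ℕ) (z : Pt) : Pt := (fun i => z.1 i % M, z.2 % M)

theorem ch_sqfree {Q : Finset ℕ} (h : ∀ l ∈ Q, l.Prime) : Squarefree (chMod Q) :=
  Finset.squarefree_prod_of_pairwise_isCoprime
    (fun p hp q hq e => Nat.coprime_iff_isRelPrime.1
      ((Nat.coprime_primes (h p hp) (h q hq)).2 e)) fun p hp => (h p hp).squarefree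

theorem ch_card {Q : Finset ℕ} (h : ∀ l ∈ Q, l.Prime) : (chMod Q).primeFactors.card = Q.card := by
  rw [chMod, Nat.primeFactors_prod h]

theorem ch_dvd {Q Q' : Finset ℕ} (h : Q ⊆ Q') : chMod Q ∣ chMod Q' :=
  Finset.prod_dvd_prod_of_subset _ _ _ h

theorem ch_cop {Q : Finset ℕ} (h : ∀ l ∈ Q, l.Prime) {N : ℤ} (hN : ∀ l ∈ Q, ¬ (l : ℤ) ∣ N) :
    Cop (chMod Q) N := fun l hl hd => by
  obtain ⟨p, hp, e⟩ := (Prime.dvd_finsetProd_iff hl.prime _).1 hd
  exact hN l (((Nat.prime_dvd_prime_iff_eq hl (h p hp)).1 e).symm ▸ hp)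

theorem ch_ge {Q : Finset ℕ} {Z : ℝ} (hZ : 0 ≤ Z) (h : ∀ l ∈ Q, Z < l) :
    Z ^ Q.card ≤ chMod Q := by
  rw [chMod, Nat.cast_prod, ← Finset.prod_const]
  exact Finset.prod_le_prod (fun _ _ => hZ) fun l hl => (h l hl).le

theorem ch_le {Q : Finset ℕ} {L : ℝ} (h : ∀ l ∈ Q, (l : ℝ) ≤ L) : (chMod Q : ℝ) ≤ L ^ Q.card := by
  rw [chMod, Nat.cast_prod, ← Finset.prod_const]
  exact Finset.prod_le_prod (fun _ _ => Nat.cast_nonneg _) h

theorem ch_red_cong (M : ℕ) (z : Pt) : Cong M z (chRed M z) :=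
  ⟨fun _ => (Int.mod_modEq _ _).symm, (Int.mod_modEq _ _).symm⟩

theorem ch_red_eq {M : ℕ} {z z' : Pt} (h : Cong M z z') : chRed M z = chRed M z' :=
  Prod.ext (funext fun i => h.1 i) h.2

/-- few primes of the pool divide a given number -/
theorem ch_good (S : Finset ℕ) {Z : ℝ} (hZ : 1 < Z) (hS : ∀ l ∈ S, l.Prime ∧ Z < l) {N : ℤ}
    (hN : N ≠ 0) {b : ℕ} (h : |(N : ℝ)| ≤ Z ^ b) :
    S.card ≤ (S.filter fun l : ℕ => ¬ (l : ℤ) ∣ N).card + b := by
  have h1 := cnt_large_primes N hN Z hZ b h (S.filter fun l : ℕ => (l : ℤ) ∣ N) fun l hl => by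
    rw [Finset.mem_filter] at hl
    exact ⟨(hS l hl.1).1, (hS l hl.1).2.le, hl.2⟩
  have h2 := Finset.card_filter_add_card_filter_not (s := S) fun l : ℕ => (l : ℤ) ∣ N
  have h3 : (S.filter fun l : ℕ => (l : ℤ) ∣ N).card ≤ b := by exact_mod_cast h1
  omega

theorem ch_union {α β : Type} (F : Finset β) {P : β → α → Prop} {B : ℝ} {E : ℕ} (hB : 0 ≤ B)
    (hF : F.card ≤ E) (h : ∀ y ∈ F, Cnt (P y) B) : Cnt (fun x => ∃ y ∈ F, P y x) (E * B) :=
  (Cnt.fibre (Cnt.finset F) hB h).mono (fun _ hx => hx)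
    (mul_le_mul_of_nonneg_right (by exact_mod_cast hF) hB)

theorem ch_ev2_C_mul (x : Fin 2 → ℤ) (c : ℚ) (A : Q2) :
    ev2 x (MvPolynomial.C c * A) = c * ev2 x A := by simp [ev2]

/-- the chain of moduli -/
theorem chain (E a r : ℕ) : ∃ C H₀ : ℝ, 0 ≤ C ∧ ∀ H : ℝ, H₀ ≤ H → ∀ (D : Z2) (q : ℤ) (T : Pt → Prop),
    D.totalDegree ≤ E → (∀ z, T z → On D q H a z) → Aux D T (H ^ ((r : ℝ) / (2 * r + 3))) E →
    Cnt T (C * H ^ (1 - 1 / (2 * (r : ℝ) + 3))) := by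
  classical
  obtain ⟨C1, hC1, hbez⟩ := bezout E
  obtain ⟨C2, a2, hC2, hht⟩ := small_height E
  obtain ⟨C3, hC3, hsing⟩ := cnt_sing E
  obtain ⟨a3, H1, hgr⟩ := eval_growth E a2 C2
  have hr : (0 : ℝ) < 2 * r + 3 := by positivity
  set γ : ℝ := 1 / (2 * (r : ℝ) + 3) with hγ
  have hγ0 : 0 < γ := by positivity
  obtain ⟨C4, H2, hC4, hcur⟩ := on_curve E a (γ / 2) (by positivity)
  obtain ⟨fac, hf1, hf2, hf3, hf4⟩ := exists_fac
  set J := (a + 1) * (2 * r + 3) + a3 * (2 * r + 3) + (r + 2) with hJ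
  set K1 : ℝ := 2 ^ (r + 1) * (E * (C1 * 2)) with hK1
  set K2 : ℝ := 2 ^ r * (E * (C2 * 2 + C3 * 2 + 2 * (2 * (2 * E) ^ (r + 2) * C4))) with hK2
  have hK10 : 0 ≤ K1 := by positivity
  have hK20 : 0 ≤ K2 := by positivity
  refine ⟨(2 ^ J * 2 ^ J : ℕ) * (K1 + K2) * (2 ^ (J + 1)) ^ (2 * r + 2), max 2 (max H1 H2),
    by positivity, fun H hH D q T hD hT hA => ?_⟩
  simp only [max_le_iff] at hH
  obtain ⟨hH2, hH1, hH2'⟩ := hH
  have hH0 : 0 < H := by linarith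
  set Z := H ^ γ with hZ
  have hZ1 : 1 < Z := Real.one_lt_rpow (by linarith) hγ0
  have hZp : ∀ k : ℕ, Z ^ k = H ^ (γ * k) := fun k => by
    rw [hZ, Real.rpow_mul hH0.le, Real.rpow_natCast]
  have hZb : ∀ k : ℕ, Z ^ (k * (2 * r + 3)) = H ^ k := fun k => by
    rw [hZp, ← Real.rpow_natCast]
    congr 1
    rw [hγ]; push_cast; field_simp
  obtain ⟨S, hSc, hS, -⟩ := exists_primes J Z hZ1.le
  set L := 2 ^ (J + 1) * Z with hL
  have hL1 : 1 ≤ L := one_le_mul_of_one_le_of_one_le (one_le_pow₀ one_le_two) hZ1.le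
  have hG0 : ∀ (M : ℕ) (z₀ : Pt), ∃ G : Q2, Squarefree M → H ^ ((r : ℝ) / (2 * r + 3)) ≤ M →
      G ≠ 0 ∧ G.totalDegree ≤ E ∧
        ∀ z, T z → Cong M z z₀ → Cop M (2 * evz z.1 D) → ev2 z.1 G = 0 := fun M z₀ => by
    by_cases h : Squarefree M ∧ H ^ ((r : ℝ) / (2 * r + 3)) ≤ M
    · obtain ⟨G, hG⟩ := hA M z₀ h.1 h.2
      exact ⟨G, fun _ _ => hG⟩
    · exact ⟨0, fun h1 h2 => absurd ⟨h1, h2⟩ h⟩
  choose G₀ hG₀ using hG0
  let G : Finset ℕ → Pt → Q2 := fun Q z => G₀ (chMod Q) (chRed (chMod Q) z)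
  have hpr : ∀ {Q : Finset ℕ}, Q ⊆ S → ∀ l ∈ Q, l.Prime := fun h l hl => (hS l (h hl)).1
  have hG : ∀ Q ⊆ S, Q.card = r → ∀ z, G Q z ≠ 0 ∧ (G Q z).totalDegree ≤ E ∧
      (T z → Cop (chMod Q) (2 * evz z.1 D) → ev2 z.1 (G Q z) = 0) := fun Q hQ hc z => by
    have h1 := ch_ge (Q := Q) (by linarith : 0 ≤ Z) fun l hl => (hS l (hQ hl)).2.1
    rw [hc, hZp, show γ * r = r / (2 * r + 3) by rw [hγ]; ring] at h1
    obtain ⟨h2, h3, h4⟩ := hG₀ _ (chRed (chMod Q) z) (ch_sqfree (hpr hQ)) h1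
    exact ⟨h2, h3, fun hz hc => h4 z hz (ch_red_cong _ _) hc⟩
  have hGc : ∀ {Q Q' : Finset ℕ} {z z' : Pt}, Q ⊆ Q' → Cong (chMod Q') z z' → G Q z = G Q z' :=
    fun h hz => congrArg (G₀ _) (ch_red_eq (hz.of_dvd (ch_dvd h)))
  let Few : Q2 → Prop := fun A =>
    Cnt (fun x : Fin 2 → ℤ => (∀ i, |(x i : ℝ)| ≤ H) ∧ ev2 x A = 0) C2
  have hm0 : ∀ A : Q2, ∃ A' : Z2, Irreducible A → A.totalDegree ≤ E → ¬ Few A → ∃ c : ℚ, c ≠ 0 ∧
      toQ A' = MvPolynomial.C c * A ∧ ∀ m, |((A'.coeff m : ℤ) : ℝ)| ≤ C2 * H ^ a2 := fun A => by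
    by_cases h : Irreducible A ∧ A.totalDegree ≤ E ∧ ¬ Few A
    · obtain ⟨A', c, h1⟩ := (hht H (by linarith) A h.1 h.2.1).resolve_left h.2.2
      exact ⟨A', fun _ _ _ => ⟨c, h1⟩⟩
    · exact ⟨0, fun h1 h2 h3 => absurd ⟨h1, h2, h3⟩ h⟩
  choose md hmd using hm0
  have hmdeg : ∀ (A : Q2) (c : ℚ), c ≠ 0 → toQ (md A) = MvPolynomial.C c * A →
      A.totalDegree ≤ E → (md A).totalDegree ≤ E := fun A c _ e h => by
    rw [← deg_toQ, e]
    exact (MvPolynomial.totalDegree_mul _ _).trans (by simpa using h)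
  let T1 : Finset ℕ × Finset ℕ → Pt → Prop := fun p z => p.1.card = r ∧ p.2.card = r ∧
    (p.1 ∪ p.2).card ≤ r + 1 ∧ T z ∧ Cop (chMod (p.1 ∪ p.2)) (2 * evz z.1 D) ∧
      ∃ A ∈ fac (G p.1 z), ev2 z.1 A = 0 ∧ ¬ A ∣ G p.2 z
  let T2 : Finset ℕ × Finset ℕ → Pt → Prop := fun p z => p.1.card = r ∧ p.2.card = r + 2 ∧
    p.1 ⊆ p.2 ∧ T z ∧ Cop (chMod p.2) (2 * evz z.1 D) ∧ ∃ A ∈ fac (G p.1 z), ev2 z.1 A = 0 ∧
      (Few A ∨ (∀ j, ev2 z.1 (MvPolynomial.pderiv j A) = 0) ∨ (¬ Few A ∧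
        ∃ j, Cop (chMod p.2) (evz z.1 (MvPolynomial.pderiv j (md A)))))
  have c1 : ∀ p : Finset ℕ × Finset ℕ, p.1 ⊆ S → p.2 ⊆ S → Cnt (T1 p) (K1 * L ^ (2 * r + 2)) := by
    rintro ⟨Q, Q'⟩ hQ hQ'
    refine Cnt.of_mem (by positivity) fun z₁ hz₁ => ?_
    obtain ⟨e1, e2, e3, -⟩ := hz₁
    have hU : Q ∪ Q' ⊆ S := Finset.union_subset hQ hQ'
    refine (cover_plane D q _ (ch_sqfree (hpr hU)) (B := E * (C1 * 2)) (by positivity)
      (fun z hz => ⟨(hT z hz.2.2.2.1).2.1, hz.2.2.2.2.1⟩) fun z₀ _ => ?_).mono (fun _ h => h) ?_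
    · obtain ⟨g1, g2, -⟩ := hG Q hQ e1 z₀
      obtain ⟨-, g4, -⟩ := hG Q' hQ' e2 z₀
      refine (ch_union (fac (G Q z₀)) (P := fun A z => ¬ A ∣ G Q' z₀ ∧ T z ∧ ev2 z.1 A = 0 ∧
        ev2 z.1 (G Q' z₀) = 0) (by positivity) ((hf1 _ g1).trans g2) fun A hA => ?_).mono
        (fun z hz => ?_) le_rfl
      · refine Cnt.of_mem (by positivity) fun _ h => ?_
        exact cnt_lift D q (fun z hz => ⟨hz.2.2, (hT z hz.2.1).2.1, (hT z hz.2.1).2.2.1⟩)
          (hbez A _ (hf2 _ g1 A hA).1 h.1 ((hf2 _ g1 A hA).2.2.trans g2) g4)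
      · obtain ⟨⟨-, -, -, t1, t2, A, t3, t4, t5⟩, hc⟩ := hz
        rw [hGc Finset.subset_union_left hc] at t3
        rw [hGc Finset.subset_union_right hc] at t5
        refine ⟨A, t3, t5, t1, t4, ?_⟩
        rw [← hGc Finset.subset_union_right hc]
        exact (hG Q' hQ' e2 z).2.2 t1 (t2.of_dvd (ch_dvd Finset.subset_union_right))
    · rw [ch_card (hpr hU), hK1]
      have h1 : (chMod (Q ∪ Q') : ℝ) ≤ L ^ (r + 1) :=
        (ch_le fun l hl => (hS l (hU hl)).2.2).trans (pow_le_pow_right₀ hL1 e3)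
      have h2 : (2 : ℝ) ^ (Q ∪ Q').card ≤ 2 ^ (r + 1) := pow_le_pow_right₀ one_le_two e3
      calc _ ≤ (L ^ (r + 1)) ^ 2 * 2 ^ (r + 1) * (E * (C1 * 2)) := by gcongr
        _ = _ := by ring
  have c2 : ∀ p : Finset ℕ × Finset ℕ, p.1 ⊆ S → p.2 ⊆ S → Cnt (T2 p) (K2 * L ^ (2 * r + 2)) := by
    rintro ⟨Q, Q'⟩ hQ hQ'
    refine Cnt.of_mem (by positivity) fun z₁ hz₁ => ?_
    obtain ⟨e1, e2, e3, -⟩ := hz₁
    dsimp only at e1 e2 e3
    have hM1 : (1 : ℝ) ≤ chMod Q := by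
      exact_mod_cast Nat.one_le_iff_ne_zero.2 (ch_sqfree (hpr hQ)).ne_zero
    have hMM : (chMod Q : ℝ) ≤ chMod Q' := by
      exact_mod_cast Nat.le_of_dvd (Nat.pos_of_ne_zero (ch_sqfree (hpr hQ')).ne_zero) (ch_dvd e3)
    set B4 : ℝ := 2 * (chMod Q' : ℝ) / chMod Q * (2 * E) ^ (r + 2) * C4 with hB4
    have hB40 : 0 ≤ B4 := by positivity
    refine (cover_plane D q _ (ch_sqfree (hpr hQ)) (B := E * (C2 * 2 + C3 * 2 + (2 : ℕ) * B4))
      (by positivity) (fun z hz => ⟨(hT z hz.2.2.2.1).2.1, hz.2.2.2.2.1.of_dvd (ch_dvd e3)⟩)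
      fun z₀ _ => ?_).mono (fun _ h => h) ?_
    · obtain ⟨g1, g2, -⟩ := hG Q hQ e1 z₀
      refine (ch_union (fac (G Q z₀)) (P := fun A z => (((Few A ∧ T z ∧ ev2 z.1 A = 0) ∨
        (T z ∧ ev2 z.1 A = 0 ∧ ∀ j, ev2 z.1 (MvPolynomial.pderiv j A) = 0)) ∨
        ∃ j ∈ (Finset.univ : Finset (Fin 2)), ¬ Few A ∧ T z ∧ ev2 z.1 A = 0 ∧
          Cong (chMod Q) z z₀ ∧ Cop (chMod Q') (2 * evz z.1 D) ∧
          Cop (chMod Q') (evz z.1 (MvPolynomial.pderiv j (md A))))) (by positivity)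
        ((hf1 _ g1).trans g2) fun A hA => ?_).mono (fun z hz => ?_) le_rfl
      · obtain ⟨i1, -, i3⟩ := hf2 _ g1 A hA
        refine (Cnt.or ?_ ?_).or (ch_union _ hB40 (by simp) fun j _ => ?_)
        · refine Cnt.of_mem (by positivity) fun _ h => ?_
          exact cnt_lift D q (fun z hz => ⟨⟨(hT z hz.2.1).1, hz.2.2⟩, (hT z hz.2.1).2.1,
            (hT z hz.2.1).2.2.1⟩) h.1
        · exact cnt_lift D q (fun z hz => ⟨hz.2, (hT z hz.1).2.1, (hT z hz.1).2.2.1⟩)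
            (hsing A i1 (i3.trans g2))
        · refine Cnt.of_mem hB40 fun _ h => ?_
          obtain ⟨c, hc, e, -⟩ := hmd A i1 (i3.trans g2) h.1
          have h1 := ch_ge (Q := Q') (by linarith : 0 ≤ Z) fun l hl => (hS l (hQ' hl)).2.1
          rw [e2, hZp, show γ * ((r + 2 : ℕ) : ℝ) = 1 / 2 + γ / 2 by
            rw [hγ]; push_cast; field_simp; ring] at h1
          have h2 := hcur H hH2' (chMod Q) (chMod Q') (md A) D q j
            (fun z => ¬ Few A ∧ T z ∧ ev2 z.1 A = 0 ∧ Cong (chMod Q) z z₀ ∧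
              Cop (chMod Q') (2 * evz z.1 D) ∧
              Cop (chMod Q') (evz z.1 (MvPolynomial.pderiv j (md A))))
            (ch_sqfree (hpr hQ')) (ch_dvd e3) h1
            (by rw [e]; exact (irreducible_isUnit_mul ((IsUnit.mk0 c hc).map MvPolynomial.C)).2 i1)
            (hmdeg A c hc e (i3.trans g2)) hD
            (fun z hz => ⟨hT z hz.2.1, hz.2.2.2.2.1, by
              have := ev2_toQ z.1 (md A)
              rw [e, ch_ev2_C_mul, hz.2.2.1, mul_zero] at this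
              exact_mod_cast this.symm, hz.2.2.2.2.2⟩)
            fun z z' hz hz' => hz.2.2.2.1.trans hz'.2.2.2.1.symm
          rwa [ch_card (hpr hQ'), e2] at h2
      · obtain ⟨⟨-, -, -, t1, t2, A, t3, t4, t5⟩, hc⟩ := hz
        rw [hGc (Finset.Subset.refl Q) hc] at t3
        refine ⟨A, t3, ?_⟩
        rcases t5 with t5 | t5 | ⟨t5, j, t6⟩
        · exact Or.inl (Or.inl ⟨t5, t1, t4⟩)
        · exact Or.inl (Or.inr ⟨t1, t4, t5⟩)
        · exact Or.inr ⟨j, Finset.mem_univ j, t5, t1, t4, hc, t2, t6⟩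
    · rw [ch_card (hpr hQ), e1, hK2]
      have h1 : (chMod Q : ℝ) ≤ L ^ r := e1 ▸ ch_le fun l hl => (hS l (hQ hl)).2.2
      have h2 : (chMod Q' : ℝ) ≤ L ^ (r + 2) := e2 ▸ ch_le fun l hl => (hS l (hQ' hl)).2.2
      have h3 : (chMod Q : ℝ) * chMod Q' ≤ L ^ (2 * r + 2) := by
        calc _ ≤ L ^ r * L ^ (r + 2) := by gcongr
          _ = _ := by ring
      have h4 : (chMod Q : ℝ) ^ 2 ≤ L ^ (2 * r + 2) := by nlinarith
      have h5 : (chMod Q : ℝ) ^ 2 * B4 = chMod Q * chMod Q' * (2 * (2 * E) ^ (r + 2) * C4) := by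
        rw [hB4]; field_simp
      calc _ = 2 ^ r * (E * ((chMod Q : ℝ) ^ 2 * (C2 * 2 + C3 * 2) + 2 * (chMod Q ^ 2 * B4))) := by
            push_cast; ring
        _ ≤ 2 ^ r * (E * (L ^ (2 * r + 2) * (C2 * 2 + C3 * 2) +
              2 * (L ^ (2 * r + 2) * (2 * (2 * E) ^ (r + 2) * C4)))) := by rw [h5]; gcongr
        _ = _ := by ring
  have hex : ∀ z, T z → ∃ p ∈ S.powerset ×ˢ S.powerset, T1 p z ∨ T2 p z := fun z hz => by
    obtain ⟨o1, -, o3, o4, -⟩ := hT z hz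
    set P := S.filter fun l : ℕ => ¬ (l : ℤ) ∣ 2 * evz z.1 D with hP
    have hPS : P ⊆ S := Finset.filter_subset _ _
    have hPc : ∀ {Q : Finset ℕ}, Q ⊆ P → Cop (chMod Q) (2 * evz z.1 D) := fun h =>
      ch_cop (hpr (h.trans hPS)) fun l hl => (Finset.mem_filter.1 (h hl)).2
    have h1 := ch_good S hZ1 (fun l hl => ⟨(hS l hl).1, (hS l hl).2.1⟩)
      (mul_ne_zero two_ne_zero o3) (b := (a + 1) * (2 * r + 3)) (by
        rw [hZb, pow_succ]; push_cast; rw [abs_mul, abs_two]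
        nlinarith [abs_nonneg ((evz z.1 D : ℤ) : ℝ)])
    rw [← hP, hSc] at h1
    by_contra hcon
    simp only [not_exists, not_and, not_or, Finset.mem_product, Finset.mem_powerset, and_imp,
      Prod.forall] at hcon
    obtain ⟨Q₀, hQ₀, hc₀⟩ := Finset.exists_subset_card_eq (s := P) (n := r) (by omega)
    obtain ⟨g1, g2, g3⟩ := hG Q₀ (hQ₀.trans hPS) hc₀ z
    obtain ⟨A, hA, hAz⟩ := hf3 _ g1 z.1 (g3 hz (hPc hQ₀))
    obtain ⟨i1, -, i3⟩ := hf2 _ g1 A hA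
    have hall : ∀ Q ⊆ P, Q.card = r → A ∈ fac (G Q z) := fun Q hQ hc =>
      swap_chain P r (fun Q => A ∈ fac (G Q z)) (fun Q Q' h h' e e' eu hin => by
        refine hf4 _ _ A (hG Q (h.trans hPS) e z).1 (hG Q' (h'.trans hPS) e' z).1 hin ?_
        by_contra hnd
        exact (hcon Q Q' (h.trans hPS) (h'.trans hPS)).1
          ⟨e, e', eu, hz, hPc (Finset.union_subset h h'), A, hin, hAz, hnd⟩) hQ₀ hQ hc₀ hc hA
    have fin : ∀ Q' ⊆ P, Q'.card = r + 2 → ¬ (Few A ∨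
        (∀ j, ev2 z.1 (MvPolynomial.pderiv j A) = 0) ∨ (¬ Few A ∧
        ∃ j, Cop (chMod Q') (evz z.1 (MvPolynomial.pderiv j (md A))))) := fun Q' hQ' e h => by
      obtain ⟨Q, hQ, hc⟩ := Finset.exists_subset_card_eq (s := Q') (n := r) (by omega)
      exact (hcon Q Q' ((hQ.trans hQ').trans hPS) (hQ'.trans hPS)).2
        ⟨hc, e, hQ, hz, hPc hQ', A, hall Q (hQ.trans hQ') hc, hAz, h⟩
    obtain ⟨Q₁, hQ₁, hc₁⟩ := Finset.exists_subset_card_eq (s := P) (n := r + 2) (by omega)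
    have h2 := fin Q₁ hQ₁ hc₁
    rw [not_or, not_or, not_forall] at h2
    obtain ⟨hfew, ⟨j, hj⟩, -⟩ := h2
    obtain ⟨c, hc, e, hht'⟩ := hmd A i1 (i3.trans g2) hfew
    have hN : evz z.1 (MvPolynomial.pderiv j (md A)) ≠ 0 := fun h0 => by
      have := ev2_toQ z.1 (MvPolynomial.pderiv j (md A))
      rw [h0, toQ, ← MvPolynomial.pderiv_map, show MvPolynomial.map _ (md A) = _ from e,
        MvPolynomial.pderiv_C_mul, ch_ev2_C_mul, Int.cast_zero] at this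
      exact hj ((mul_eq_zero.1 this).resolve_left hc)
    have h3 := ch_good P hZ1 (fun l hl => ⟨(hS l (hPS hl)).1, (hS l (hPS hl)).2.1⟩) hN
      (b := a3 * (2 * r + 3))
      (by rw [hZb]; exact hgr H hH1 _ (hmdeg A c hc e (i3.trans g2)) hht' z.1 o1 j)
    obtain ⟨Q₂, hQ₂, hc₂⟩ := Finset.exists_subset_card_eq
      (s := P.filter fun l : ℕ => ¬ (l : ℤ) ∣ evz z.1 (MvPolynomial.pderiv j (md A))) (n := r + 2)
      (by omega)
    have hQP : Q₂ ⊆ P := hQ₂.trans (Finset.filter_subset _ _)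
    exact fin Q₂ hQP hc₂ (Or.inr (Or.inr ⟨hfew, j,
      ch_cop (hpr (hQP.trans hPS)) fun l hl => (Finset.mem_filter.1 (hQ₂ hl)).2⟩))
  refine (ch_union (S.powerset ×ˢ S.powerset) (E := 2 ^ J * 2 ^ J)
    (B := K1 * L ^ (2 * r + 2) + K2 * L ^ (2 * r + 2)) (by positivity)
    (by rw [Finset.card_product, Finset.card_powerset, hSc]) fun p hp => ?_).mono hex
    (le_of_eq ?_)
  · rw [Finset.mem_product, Finset.mem_powerset, Finset.mem_powerset] at hp
    exact (c1 p hp.1 hp.2).or (c2 p hp.1 hp.2)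
  · rw [hL, mul_pow, hZp, show γ * ((2 * r + 2 : ℕ) : ℝ) = 1 - γ by
      rw [hγ]; push_cast; field_simp; ring]
    ring

end Pool.Agent.VW
end

-- part Pool.Agent.P.MP_b0ea37_nt.WSAlg
section

namespace Pool.Agent.VW

open Polynomial

theorem desc_zero {R : Type} [CommRing R] [IsDomain R] (Z : R) (hZ : Z ≠ 0) (p : ℕ → R) (K : ℕ)
    (hp : ∀ j, 1 ≤ j → Z ∣ p j → p j = 0) (h : ∑ j ∈ Finset.range (K + 1), p j * Z ^ (K - j) = 0) :
    ∀ j ≤ K, p j = 0 := by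
  induction K with
  | zero =>
    intro j hj
    obtain rfl : j = 0 := by omega
    simpa using h
  | succ K ih =>
    have e : ∑ j ∈ Finset.range (K + 1), p j * Z ^ (K + 1 - j)
        = Z * ∑ j ∈ Finset.range (K + 1), p j * Z ^ (K - j) := by
      rw [Finset.mul_sum]
      refine Finset.sum_congr rfl fun j hj => ?_
      have := Finset.mem_range.1 hj
      rw [show K + 1 - j = K - j + 1 by omega, pow_succ]
      ring
    rw [Finset.sum_range_succ, e, Nat.sub_self, pow_zero, mul_one] at h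
    have h1 : p (K + 1) = 0 := hp _ (by omega) ⟨-_, by rw [mul_neg, eq_neg_iff_add_eq_zero, add_comm, h]⟩
    rw [h1, add_zero, mul_eq_zero, or_iff_right hZ] at h
    intro j hj
    rcases Nat.lt_or_ge K j with hl | hl
    · obtain rfl : j = K + 1 := by omega
      exact h1
    · exact ih h j hl

theorem WSAlg_pair {R : Type} [AddCommMonoid R] (f : ℕ → R) (n : ℕ) :
    ∑ k ∈ Finset.range (2 * n), f k = ∑ j ∈ Finset.range n, (f (2 * j) + f (2 * j + 1)) := by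
  induction n with
  | zero => simp
  | succ n ih =>
    rw [mul_add, mul_one, Finset.sum_range_succ, Finset.sum_range_succ, ih, Finset.sum_range_succ,
      add_assoc]

theorem WSAlg_deg (p : ℕ → Q2) (Z : Q2) (K E : ℕ) (hp : ∀ j, (p j).totalDegree ≤ E)
    (hZ : Z.totalDegree ≤ E) :
    ((∑ j ∈ Finset.range (K + 1), p j * Z ^ (K - j)) ^ 2).totalDegree ≤ 2 * ((K + 1) * E) := by
  refine (MvPolynomial.totalDegree_pow _ _).trans (Nat.mul_le_mul_left _ ?_)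
  refine MvPolynomial.totalDegree_finsetSum_le fun j _ => ?_
  refine (MvPolynomial.totalDegree_mul _ _).trans ?_
  have h1 := (MvPolynomial.totalDegree_pow Z (K - j)).trans
    (Nat.mul_le_mul (Nat.sub_le K j) hZ)
  have h2 := hp j
  rw [add_mul, one_mul]
  omega

/-- from a linear relation to a plane curve -/
theorem alg_rel {κ : Type} [Fintype κ] (D : Z2) (q : ℤ) (hq : q ≠ 0) (K E : ℕ) (lev : κ → ℕ)
    (pol : κ → Z2) (hlev : ∀ i, lev i ≤ K) (hD : D.totalDegree ≤ E)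
    (hpol : ∀ i, (pol i).totalDegree ≤ E)
    (hsq : ∀ (A O : Q2) (c : ℚ), toQ D * O ^ 2 = MvPolynomial.C c * A ^ 2 → O = 0)
    (hlow : ∀ (k : ℕ) (c : κ → ℚ), k ≤ 1 →
      ∑ i ∈ Finset.univ.filter (fun i => lev i = k), MvPolynomial.C (c i) * toQ (pol i) = 0 →
      ∀ i, lev i = k → c i = 0)
    (hind : ∀ (k : ℕ) (c : κ → ℚ), 2 ≤ k →
      toQ D ∣ ∑ i ∈ Finset.univ.filter (fun i => lev i = k), MvPolynomial.C (c i) * toQ (pol i) →
      ∀ i, lev i = k → c i = 0) (c : κ → ℤ) (hc : c ≠ 0) :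
    ∃ G : Q2, G ≠ 0 ∧ G.totalDegree ≤ (2 * K + 3) * E ∧ ∀ (x : Fin 2 → ℤ) (y : ℤ) (F : κ → ℤ),
      evz x D = q * y ^ 2 → y ≠ 0 → (∀ i, F i * y ^ lev i = y * evz x (pol i)) →
      ∑ i, c i * F i = 0 → ev2 x G = 0 := by
  have hq' : (q : ℚ) ≠ 0 := Int.cast_ne_zero.2 hq
  obtain ⟨P, hP⟩ : ∃ P : ℕ → Q2, ∀ k, P k = ∑ i ∈ Finset.univ.filter (fun i => lev i = k),
    MvPolynomial.C (c i : ℚ) * toQ (pol i) := ⟨_, fun _ => rfl⟩
  obtain ⟨Z, hZ⟩ : ∃ Z : Q2, Z = MvPolynomial.C (q : ℚ)⁻¹ * toQ D := ⟨_, rfl⟩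
  have hC : ∀ (a : ℚ) (A : Q2) (n : ℕ), A.totalDegree ≤ n →
      (MvPolynomial.C a * A).totalDegree ≤ n := fun a A n h =>
    (MvPolynomial.totalDegree_mul _ _).trans (by rwa [MvPolynomial.totalDegree_C, zero_add])
  have hD' : (toQ D).totalDegree ≤ E := (deg_toQ D).trans_le hD
  have hPd : ∀ k, (P k).totalDegree ≤ E := fun k => hP k ▸
    MvPolynomial.totalDegree_finsetSum_le fun i _ => hC _ _ _ ((deg_toQ _).trans_le (hpol i))
  have hZd : Z.totalDegree ≤ E := hZ ▸ hC _ _ _ hD'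
  refine ⟨MvPolynomial.C (q : ℚ) * (∑ j ∈ Finset.range (K + 1), P (2 * j + 1) * Z ^ (K - j)) ^ 2 -
    toQ D * (∑ j ∈ Finset.range (K + 1), P (2 * j) * Z ^ (K - j)) ^ 2, fun hG => hc ?_, ?_,
    fun x y F h1 _ h2 h3 => ?_⟩
  · have hO := hsq _ _ _ (sub_eq_zero.1 hG).symm
    rw [hO, zero_pow two_ne_zero, mul_zero, sub_zero, mul_eq_zero,
      or_iff_right (MvPolynomial.C_ne_zero.2 hq'), pow_eq_zero_iff two_ne_zero] at hG
    have hZ0 : Z ≠ 0 := hZ ▸ mul_ne_zero (MvPolynomial.C_ne_zero.2 (inv_ne_zero hq')) fun h =>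
      one_ne_zero (hsq 0 1 0 (by simp [h]))
    have hp : ∀ k, 2 ≤ k → Z ∣ P k → P k = 0 := fun k hk h => by
      have := hind k (fun i => c i) hk (hP k ▸ (hZ ▸ dvd_mul_left _ _ : toQ D ∣ Z).trans h)
      rw [hP]
      exact Finset.sum_eq_zero fun i hi => by
        rw [this i (Finset.mem_filter.1 hi).2, map_zero, zero_mul]
    have e0 := desc_zero Z hZ0 (fun j => P (2 * j)) K (fun j hj => hp _ (by omega)) hO
    have e1 := desc_zero Z hZ0 (fun j => P (2 * j + 1)) K (fun j hj => hp _ (by omega)) hG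
    funext i
    have hi := hlev i
    have e : P (lev i) = 0 := by
      rcases Nat.even_or_odd' (lev i) with ⟨j, h | h⟩
      · exact h ▸ e0 j (by omega)
      · exact h ▸ e1 j (by omega)
    rw [hP] at e
    rcases Nat.lt_or_ge 1 (lev i) with h | h
    · exact Int.cast_eq_zero.1 (hind _ (fun i => c i) h (e ▸ dvd_zero _) i rfl)
    · exact Int.cast_eq_zero.1 (hlow _ (fun i => c i) h e i rfl)
  · have d1 := hC (q : ℚ) _ _ (WSAlg_deg (fun j => P (2 * j + 1)) Z K E (fun _ => hPd _) hZd)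
    have d2 := (MvPolynomial.totalDegree_mul _ _).trans (add_le_add hD'
      (WSAlg_deg (fun j => P (2 * j)) Z K E (fun _ => hPd _) hZd))
    have e : (2 * K + 3) * E = E + 2 * ((K + 1) * E) := by ring
    exact (MvPolynomial.totalDegree_sub _ _).trans (max_le (by omega) (by omega))
  · obtain ⟨φ, hφ0, hφC, hφ⟩ : ∃ φ : Q2 →+* ℚ, (∀ A, ev2 x A = φ A) ∧
        (∀ a, φ (MvPolynomial.C a) = a) ∧ ∀ A, φ (toQ A) = evz x A :=
      ⟨MvPolynomial.eval fun i => (x i : ℚ), fun _ => rfl, MvPolynomial.eval_C, ev2_toQ x⟩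
    have eD : φ (toQ D) = q * (y : ℚ) ^ 2 := by rw [hφ, h1]; push_cast; rfl
    have eZ : φ Z = (y : ℚ) ^ 2 := by
      rw [hZ, map_mul, hφC, eD, inv_mul_cancel_left₀ hq']
    have e1 : ∑ k ∈ Finset.range (2 * (K + 1)), φ (P k) * (y : ℚ) ^ (2 * K + 1 - k) = 0 := by
      have := congrArg (fun t : ℤ => (t : ℚ) * (y : ℚ) ^ (2 * K)) h3
      simp only [Int.cast_zero, zero_mul, Int.cast_sum, Finset.sum_mul] at this
      rw [← this, ← Finset.sum_fiberwise_of_maps_to (g := lev) (t := Finset.range (2 * (K + 1)))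
        fun i _ => Finset.mem_range.2 (by have := hlev i; omega)]
      refine Finset.sum_congr rfl fun k _ => ?_
      rw [hP, map_sum, Finset.sum_mul]
      refine Finset.sum_congr rfl fun i hi => ?_
      obtain rfl := (Finset.mem_filter.1 hi).2
      have h4 := congrArg (Int.cast : ℤ → ℚ) (h2 i)
      have h5 := hlev i
      push_cast at h4 ⊢
      rw [map_mul, hφC, hφ,
        show 2 * K + 1 - lev i = 2 * K - lev i + 1 by omega, pow_succ,
        ← pow_sub_mul_pow (y : ℚ) (show lev i ≤ 2 * K by omega)]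
      linear_combination -((c i : ℚ) * (y : ℚ) ^ (2 * K - lev i)) * h4
    have e2 : φ (∑ j ∈ Finset.range (K + 1), P (2 * j + 1) * Z ^ (K - j))
        + y * φ (∑ j ∈ Finset.range (K + 1), P (2 * j) * Z ^ (K - j)) = 0 := by
      rw [← e1, WSAlg_pair, map_sum, map_sum, Finset.mul_sum, ← Finset.sum_add_distrib]
      refine Finset.sum_congr rfl fun j hj => ?_
      have := Finset.mem_range.1 hj
      rw [map_mul, map_mul, map_pow, eZ, ← pow_mul,
        show 2 * K + 1 - 2 * j = 2 * (K - j) + 1 by omega,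
        show 2 * K + 1 - (2 * j + 1) = 2 * (K - j) by omega]
      ring
    rw [hφ0, map_sub, map_mul, map_mul, map_pow, map_pow, hφC, eD,
      eq_neg_of_add_eq_zero_left e2]
    ring

end Pool.Agent.VW
end

-- part Pool.Agent.P.MP_b0ea37_nt.WSNum
section

namespace Pool.Agent.VW

open Polynomial

theorem WSNum_s1 (x : ℤ) (n : ℕ) :
    2 * ∑ b ∈ Finset.range n, (x - b) = n * (2 * x - n + 1) := by
  induction n with
  | zero => simp
  | succ n ih => rw [Finset.sum_range_succ, mul_add, ih]; push_cast; ring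

theorem WSNum_s2 (x : ℤ) (n : ℕ) :
    3 * ∑ a ∈ Finset.range n, (x - a) * (x - a + 1) =
      x * (x + 1) * (x + 2) - (x - n) * (x - n + 1) * (x - n + 2) := by
  induction n with
  | zero => simp
  | succ n ih => rw [Finset.sum_range_succ, mul_add, ih]; push_cast; ring

theorem WSNum_s3 (m y : ℤ) (n : ℕ) :
    6 * ∑ k ∈ Finset.range n, ((m * (y - k)) ^ 2 - 3 * (m * (y - k))) =
      m ^ 2 * (y * (y + 1) * (2 * y + 1) - (y - n) * (y - n + 1) * (2 * (y - n) + 1)) -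
        9 * m * (n * (2 * y - n + 1)) := by
  induction n with
  | zero => simp
  | succ n ih => rw [Finset.sum_range_succ, mul_add, ih]; push_cast; ring

theorem WSNum_s4 (n : ℕ) :
    6 * ∑ t ∈ Finset.range n, (((t + 2).choose 2 : ℕ) : ℤ) = n * (n + 1) * (n + 2) := by
  induction n with
  | zero => simp
  | succ n ih =>
    have h : 2 * (((n + 2).choose 2 : ℕ) : ℤ) = (n + 2) * (n + 1) := by
      have h1 := Nat.add_one_mul_choose_eq (n + 1) 1
      rw [Nat.choose_one_right] at h1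
      have h2 : (((n + 1 + 1) * (n + 1) : ℕ) : ℤ) = (((n + 1 + 1).choose (1 + 1) * (1 + 1) : ℕ) : ℤ) :=
        congrArg _ h1
      push_cast at h2
      linarith
    rw [Finset.sum_range_succ, mul_add, ih]
    push_cast
    linarith

theorem WSNum_tri (V : ℕ) :
    6 * ∑ p ∈ Tri V, ((V : ℤ) - p.1 - p.2) = V * (V + 1) * (V + 2) := by
  have h1 : ∑ p ∈ Tri V, ((V : ℤ) - p.1 - p.2) =
      ∑ a ∈ Finset.range (V + 1), ∑ b ∈ Finset.range (V + 1 - a), (((V : ℤ) - a) - b) := by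
    unfold Tri
    rw [Finset.sum_filter, Finset.sum_product]
    refine Finset.sum_congr rfl fun a ha => ?_
    rw [← Finset.sum_filter]
    refine Finset.sum_congr ?_ fun _ _ => rfl
    ext b
    simp only [Finset.mem_filter, Finset.mem_range] at ha ⊢
    omega
  have h2 : ∀ a ∈ Finset.range (V + 1), 2 * ∑ b ∈ Finset.range (V + 1 - a), (((V : ℤ) - a) - b) =
      ((V : ℤ) - a) * ((V : ℤ) - a + 1) := by
    intro a ha
    have ha' : a ≤ V + 1 := (Finset.mem_range.1 ha).le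
    rw [WSNum_s1, Nat.cast_sub ha']
    push_cast
    ring
  have h3 := WSNum_s2 V (V + 1)
  rw [← Finset.sum_congr rfl h2, ← Finset.mul_sum, ← h1] at h3
  push_cast at h3
  linarith

theorem WSNum_row (W c : ℕ) (hc : c ≤ W) :
    ((W : ℤ) - c) ^ 2 - 3 * ((W : ℤ) - c) ≤
      2 * ∑ j ∈ Finset.range (W + 1), if 2 ≤ j ∧ c + j ≤ W then (W : ℤ) - c - j else 0 := by
  obtain ⟨X, rfl⟩ := Nat.exists_eq_add_of_le hc
  have e : ((c + X : ℕ) : ℤ) - c = X := by push_cast; ring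
  rw [e]
  have h1 : ∑ j ∈ Finset.range (X + 1), (if 2 ≤ j then (X : ℤ) - j else 0) ≤
      ∑ j ∈ Finset.range (c + X + 1), if 2 ≤ j ∧ c + j ≤ c + X then (X : ℤ) - j else 0 := by
    rw [← Finset.sum_filter, ← Finset.sum_filter]
    refine le_of_eq (Finset.sum_congr ?_ fun _ _ => rfl)
    ext j
    simp only [Finset.mem_filter, Finset.mem_range]
    omega
  rcases Nat.eq_zero_or_pos X with rfl | hX
  · simp at h1 ⊢
    simpa using h1
  obtain ⟨Y, rfl⟩ := Nat.exists_eq_add_of_le' hX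
  have h2 := WSNum_s1 ((Y : ℤ) - 1) Y
  have h3 : ∑ j ∈ Finset.range (Y + 1 + 1), (if 2 ≤ j then (((Y + 1 : ℕ) : ℤ)) - j else 0) =
      ∑ b ∈ Finset.range Y, ((Y : ℤ) - 1 - b) := by
    rw [Finset.sum_range_succ', Finset.sum_range_succ']
    simp only [Nat.le_add_left, add_assoc, Nat.reduceAdd, if_true]
    push_cast
    simp only [add_zero]
    exact Finset.sum_congr rfl fun b _ => by ring
  rw [h3] at h1
  push_cast at h1 ⊢
  nlinarith

theorem WSNum_lev (m U : ℕ) (hm : 1 ≤ m) :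
    (m : ℤ) ^ 2 * ((U - 1) * U * (2 * U - 1)) - 9 * m * (U * (U - 1)) ≤
      12 * ∑ p ∈ Lev m (m * U), (((m * U : ℕ) : ℤ) - ((p.1 + 1) * m + p.2 : ℕ)) := by
  have h1 : ∑ p ∈ Lev m (m * U), (((m * U : ℕ) : ℤ) - ((p.1 + 1) * m + p.2 : ℕ)) =
      ∑ k ∈ Finset.range (m * U + 1), ∑ j ∈ Finset.range (m * U + 1),
        if 2 ≤ j ∧ (k + 1) * m + j ≤ m * U then
          ((m * U : ℕ) : ℤ) - ((k + 1) * m : ℕ) - j else 0 := by
    unfold Lev
    rw [Finset.sum_filter, Finset.sum_product]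
    refine Finset.sum_congr rfl fun k _ => Finset.sum_congr rfl fun j _ => ?_
    split_ifs
    · push_cast; ring
    · rfl
  have hU : U ≤ m * U + 1 := (Nat.le_mul_of_pos_left U hm).trans (Nat.le_succ _)
  have h2 : ∑ k ∈ Finset.range U, (∑ j ∈ Finset.range (m * U + 1),
        if 2 ≤ j ∧ (k + 1) * m + j ≤ m * U then
          ((m * U : ℕ) : ℤ) - ((k + 1) * m : ℕ) - j else 0) ≤
      ∑ k ∈ Finset.range (m * U + 1), ∑ j ∈ Finset.range (m * U + 1),
        if 2 ≤ j ∧ (k + 1) * m + j ≤ m * U then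
          ((m * U : ℕ) : ℤ) - ((k + 1) * m : ℕ) - j else 0 := by
    refine Finset.sum_le_sum_of_subset_of_nonneg (Finset.range_subset_range.2 hU) fun k _ _ => ?_
    refine Finset.sum_nonneg fun j _ => ?_
    split_ifs with h
    · have : (((k + 1) * m + j : ℕ) : ℤ) ≤ ((m * U : ℕ) : ℤ) := Nat.cast_le.2 h.2
      rw [Nat.cast_add] at this
      linarith
    · exact le_rfl
  have h3 : ∀ k ∈ Finset.range U,
      ((m : ℤ) * ((U - 1) - k)) ^ 2 - 3 * ((m : ℤ) * ((U - 1) - k)) ≤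
        2 * ∑ j ∈ Finset.range (m * U + 1), if 2 ≤ j ∧ (k + 1) * m + j ≤ m * U then
          ((m * U : ℕ) : ℤ) - ((k + 1) * m : ℕ) - j else 0 := by
    intro k hk
    have hk' : (k + 1) * m ≤ m * U := by
      rw [mul_comm]; exact Nat.mul_le_mul_left m (Finset.mem_range.1 hk)
    have e : (m : ℤ) * ((U - 1) - k) = ((m * U : ℕ) : ℤ) - ((k + 1) * m : ℕ) := by
      push_cast; ring
    rw [e]
    exact WSNum_row (m * U) ((k + 1) * m) hk'
  have h4 := Finset.sum_le_sum h3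
  rw [← Finset.mul_sum] at h4
  have h5 := WSNum_s3 m ((U : ℤ) - 1) U
  rw [h1]
  linarith

theorem WSNum_sum (m W : ℕ) (h : m + 2 ≤ W) :
    ∑ i : Idx m W, ((W : ℤ) - wt m W i) = ∑ p ∈ Tri W, ((W : ℤ) - p.1 - p.2) +
      (∑ p ∈ Tri (W - (m + 2)), (((W - (m + 2) : ℕ) : ℤ) - p.1 - p.2) +
        (2 * m + 3) * ∑ p ∈ Lev m W, ((W : ℤ) - ((p.1 + 1) * m + p.2 : ℕ))) := by
  rw [Fintype.sum_sum_type, Fintype.sum_sum_type, Fintype.sum_prod_type]
  simp only [wt, Finset.sum_const, Finset.card_univ, Fintype.card_fin, nsmul_eq_mul]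
  rw [← Finset.mul_sum, Finset.sum_coe_sort (Tri W) fun p => (W : ℤ) - (p.1 + p.2 : ℕ),
    Finset.sum_coe_sort (Tri (W - (m + 2))) fun p => (W : ℤ) - (p.1 + p.2 + (m + 2) : ℕ),
    Finset.sum_coe_sort (Lev m W) fun p => (W : ℤ) - ((p.1 + 1) * m + p.2 : ℕ), Nat.cast_sub h]
  congr 1
  · exact Finset.sum_congr rfl fun p _ => by push_cast; ring
  · refine congrArg₂ (· + ·) (Finset.sum_congr rfl fun p _ => by push_cast; ring) ?_
    rw [Nat.cast_add (2 * m), Nat.cast_mul 2 m, Nat.cast_ofNat, Nat.cast_ofNat]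

/-- more than four times the plane -/
theorem surf_num (m : ℕ) (hm : 2 ≤ m) : ∃ W : ℕ, 2 * ∑ i : Idx m W, wt m W i <
    ∑ t ∈ Finset.range (2 * W), (Fintype.card (Idx m W) - (t + 2).choose 2) := by
  refine ⟨m * (10 * m), ?_⟩
  have hW : m + 2 ≤ m * (10 * m) := by nlinarith
  have h1 := WSNum_sum m (m * (10 * m)) hW
  have h2 := WSNum_tri (m * (10 * m))
  have h3 := WSNum_tri (m * (10 * m) - (m + 2))
  have h4 := WSNum_lev m (10 * m) (by omega)
  have h5 := WSNum_s4 (2 * (m * (10 * m)))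
  have h6 : ∑ t ∈ Finset.range (2 * (m * (10 * m))),
      ((Fintype.card (Idx m (m * (10 * m))) : ℤ) - (((t + 2).choose 2 : ℕ) : ℤ)) ≤
      ∑ t ∈ Finset.range (2 * (m * (10 * m))),
        ((Fintype.card (Idx m (m * (10 * m))) - (t + 2).choose 2 : ℕ) : ℤ) :=
    Finset.sum_le_sum fun t _ => by omega
  rw [Finset.sum_sub_distrib, Finset.sum_const, Finset.card_range, nsmul_eq_mul] at h6
  rw [Finset.sum_sub_distrib, Finset.sum_const, Finset.card_univ, nsmul_eq_mul] at h1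
  rw [← Nat.cast_lt (α := ℤ), Nat.cast_mul, Nat.cast_sum, Nat.cast_sum]
  generalize ∑ t ∈ Finset.range (2 * (m * (10 * m))),
    ((Fintype.card (Idx m (m * (10 * m))) - (t + 2).choose 2 : ℕ) : ℤ) = R at *
  generalize ∑ t ∈ Finset.range (2 * (m * (10 * m))), (((t + 2).choose 2 : ℕ) : ℤ) = Cc at *
  generalize ∑ i : Idx m (m * (10 * m)), ((wt m (m * (10 * m)) i : ℕ) : ℤ) = S at *
  generalize (Fintype.card (Idx m (m * (10 * m))) : ℤ) = N at *
  generalize ∑ p ∈ Tri (m * (10 * m)), (((m * (10 * m) : ℕ) : ℤ) - p.1 - p.2) = A₁ at *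
  generalize ∑ p ∈ Tri (m * (10 * m) - (m + 2)),
    (((m * (10 * m) - (m + 2) : ℕ) : ℤ) - p.1 - p.2) = A₂ at *
  generalize ∑ p ∈ Lev m (m * (10 * m)),
    (((m * (10 * m) : ℕ) : ℤ) - ((p.1 + 1) * m + p.2 : ℕ)) = L at *
  rw [Nat.cast_sub hW] at h3
  obtain ⟨s, rfl⟩ := Nat.exists_eq_add_of_le' hm
  push_cast at *
  have hs : (0 : ℤ) ≤ s := Int.natCast_nonneg s
  have h7 := mul_le_mul_of_nonneg_left h4 (show (0 : ℤ) ≤ 2 * (s + 2) + 3 by positivity)
  have h8 : (0 : ℤ) < 4800 * ((s : ℤ) + 2) ^ 5 - 3820 * (s + 2) ^ 4 - 2372 * (s + 2) ^ 3 +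
      304 * (s + 2) ^ 2 - 4 * (s + 2) := by
    ring_nf
    positivity
  linarith

end Pool.Agent.VW
end

-- part Pool.Agent.P.MP_b0ea37_nt.WSSurf
section

namespace Pool.Agent.VW

open Polynomial

open Pool.Agent.VT

def surfLev (m W : ℕ) : Idx m W → ℕ
  | .inl _ => 1
  | .inr (.inl _) => 0
  | .inr (.inr p) => p.1.1.1 + 2

noncomputable def surfPol (m W : ℕ) (Φ : Z2) (v : Fin (2 * m + 3) → Fin 2)
    (Ψ : Fin (2 * m + 3) → Z2) : Idx m W → Z2
  | .inl p => MvPolynomial.X 0 ^ p.1.1 * MvPolynomial.X 1 ^ p.1.2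
  | .inr (.inl p) => MvPolynomial.X 0 ^ p.1.1 * MvPolynomial.X 1 ^ p.1.2
  | .inr (.inr p) => Φ ^ p.1.1.1 * (MvPolynomial.X (v p.2) ^ p.1.1.2 * Ψ p.2)

def surfF (m W : ℕ) (v : Fin (2 * m + 3) → Fin 2) (x : Fin 2 → ℤ) (y c₀ : ℤ)
    (c : Fin (2 * m + 3) → ℤ) : Idx m W → ℤ
  | .inl p => x 0 ^ p.1.1 * x 1 ^ p.1.2
  | .inr (.inl p) => y * (x 0 ^ p.1.1 * x 1 ^ p.1.2)
  | .inr (.inr p) => c₀ ^ p.1.1.1 * (x (v p.2) ^ p.1.1.2 * c p.2)

noncomputable def surfMon (p : ℕ × ℕ) : Fin 2 →₀ ℕ := Finsupp.single 0 p.1 + Finsupp.single 1 p.2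

noncomputable def surfMu (m W : ℕ) : Idx m W → Fin 2 →₀ ℕ
  | .inl p => surfMon p.1
  | .inr (.inl p) => surfMon p.1
  | .inr (.inr _) => 0

def surfE (m W : ℕ) : Idx m W → ℕ × Fin (2 * m + 3)
  | .inl _ => (0, 0)
  | .inr (.inl _) => (0, 0)
  | .inr (.inr p) => (p.1.1.2, p.2)

theorem surf_tri {W : ℕ} (p : Tri W) : p.1.1 + p.1.2 ≤ W := (Finset.mem_filter.1 p.2).2

theorem surf_lev {m W : ℕ} (p : Lev m W) : p.1.1 ≤ W ∧ 2 ≤ p.1.2 ∧ p.1.2 ≤ W := by
  obtain ⟨h1, h2, h3⟩ := Finset.mem_filter.1 p.2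
  have h4 := Finset.mem_range.1 (Finset.mem_product.1 h1).1
  omega

theorem surf_mon_inj : Function.Injective surfMon := by
  intro p q h
  have h0 := congrArg (fun s : Fin 2 →₀ ℕ => s 0) h
  have h1 := congrArg (fun s : Fin 2 →₀ ℕ => s 1) h
  simp [surfMon] at h0 h1
  exact Prod.ext h0 h1

theorem surf_mon_eq (p : ℕ × ℕ) :
    toQ (MvPolynomial.X 0 ^ p.1 * MvPolynomial.X 1 ^ p.2) = MvPolynomial.monomial (surfMon p) 1 := by
  simp only [map_mul, map_pow, MvPolynomial.map_X]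
  rw [MvPolynomial.X_pow_eq_monomial, MvPolynomial.X_pow_eq_monomial, MvPolynomial.monomial_mul,
    one_mul, surfMon]

theorem surf_mono_indep {κ : Type} (S : Finset κ) (μ : κ → Fin 2 →₀ ℕ) (hμ : Set.InjOn μ S)
    (c : κ → ℚ) (h : ∑ i ∈ S, MvPolynomial.C (c i) * (MvPolynomial.monomial (μ i) 1 : Q2) = 0) :
    ∀ i ∈ S, c i = 0 := by
  classical
  intro i hi
  have h1 := congrArg (MvPolynomial.coeff (μ i)) h
  rw [MvPolynomial.coeff_sum, Finset.sum_eq_single_of_mem i hi] at h1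
  · simpa [MvPolynomial.C_mul_monomial] using h1
  · intro j hj hne
    rw [MvPolynomial.C_mul_monomial, MvPolynomial.coeff_monomial, if_neg fun e => hne (hμ hj hi e)]

theorem surf_low (m W : ℕ) (Φ : Z2) (v : Fin (2 * m + 3) → Fin 2) (Ψ : Fin (2 * m + 3) → Z2)
    (k : ℕ) (c : Idx m W → ℚ) (hk : k ≤ 1)
    (h : ∑ i ∈ Finset.univ.filter (fun i => surfLev m W i = k),
      MvPolynomial.C (c i) * toQ (surfPol m W Φ v Ψ i) = 0) : ∀ i, surfLev m W i = k → c i = 0 := by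
  intro i hi
  refine surf_mono_indep (Finset.univ.filter fun i => surfLev m W i = k) (surfMu m W) ?_ c ?_ i
    (Finset.mem_filter.2 ⟨Finset.mem_univ _, hi⟩)
  · intro a ha b hb e
    have ha' := (Finset.mem_filter.1 ha).2
    have hb' := (Finset.mem_filter.1 hb).2
    rcases a with a | a | a <;> rcases b with b | b | b <;> simp only [surfLev] at ha' hb' <;>
      try omega
    · exact congrArg _ (Subtype.ext (surf_mon_inj e))
    · exact congrArg _ (congrArg _ (Subtype.ext (surf_mon_inj e)))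
  · refine Eq.trans (Finset.sum_congr rfl fun a ha => ?_) h
    have ha' := (Finset.mem_filter.1 ha).2
    rcases a with a | a | a
    · exact congrArg _ (surf_mon_eq a.1).symm
    · exact congrArg _ (surf_mon_eq a.1).symm
    · simp only [surfLev] at ha'
      omega

theorem surf_ind (m W : ℕ) (D Φ : Z2) (v : Fin (2 * m + 3) → Fin 2) (Ψ : Fin (2 * m + 3) → Z2)
    (hI : Ind D Φ v Ψ) (k : ℕ) (c : Idx m W → ℚ) (hk : 2 ≤ k)
    (h : toQ D ∣ ∑ i ∈ Finset.univ.filter (fun i => surfLev m W i = k),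
      MvPolynomial.C (c i) * toQ (surfPol m W Φ v Ψ i)) : ∀ i, surfLev m W i = k → c i = 0 := by
  obtain ⟨k, rfl⟩ : ∃ k', k = k' + 2 := ⟨k - 2, by omega⟩
  let u : ℕ → Fin (2 * m + 3) → ℚ := fun j i =>
    if h : (k, j) ∈ Lev m W then c (.inr (.inr (⟨(k, j), h⟩, i))) else 0
  have hu : ∀ (p : Lev m W) (i : Fin (2 * m + 3)), p.1.1 = k →
      u p.1.2 i = c (.inr (.inr (p, i))) := by
    rintro ⟨⟨a, b⟩, hp⟩ i rfl
    exact dif_pos hp
  have e : ∑ i ∈ Finset.univ.filter (fun i => surfLev m W i = k + 2),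
      MvPolynomial.C (c i) * toQ (surfPol m W Φ v Ψ i) =
      ∑ z ∈ Finset.Icc 2 W ×ˢ (Finset.univ : Finset (Fin (2 * m + 3))), toQ Φ ^ k *
        (MvPolynomial.C (u z.1 z.2) * (MvPolynomial.X (v z.2) ^ z.1 * toQ (Ψ z.2))) := by
    refine Finset.sum_of_injOn (surfE m W) ?_ ?_ ?_ ?_
    · intro a ha b hb e
      have ha' := (Finset.mem_filter.1 ha).2
      have hb' := (Finset.mem_filter.1 hb).2
      rcases a with a | a | a <;> rcases b with b | b | b <;> simp only [surfLev] at ha' hb' <;>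
        try omega
      simp only [surfE, Prod.mk.injEq] at e
      exact congrArg _ (congrArg _ (Prod.ext (Subtype.ext (Prod.ext (by omega) e.1)) e.2))
    · intro a ha
      have ha' := (Finset.mem_filter.1 ha).2
      rcases a with a | a | a <;> simp only [surfLev] at ha' <;> try omega
      exact Finset.mem_coe.2 (Finset.mem_product.2
        ⟨Finset.mem_Icc.2 (surf_lev a.1).2, Finset.mem_univ _⟩)
    · rintro ⟨j, i⟩ - hz
      have : u j i = 0 := dif_neg fun hj => hz ⟨.inr (.inr (⟨(k, j), hj⟩, i)),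
        Finset.mem_coe.2 (Finset.mem_filter.2 ⟨Finset.mem_univ _, rfl⟩), rfl⟩
      simp [this]
    · intro a ha
      have ha' := (Finset.mem_filter.1 ha).2
      rcases a with a | a | a <;> simp only [surfLev] at ha' <;> try omega
      have hk' : a.1.1.1 = k := by omega
      simp only [surfE, surfPol, hu a.1 a.2 hk', hk', map_mul, map_pow, MvPolynomial.map_X]
      ring
  rw [e, ← Finset.mul_sum, Finset.sum_product] at h
  have h2 := hI k W u h
  intro a ha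
  rcases a with a | a | a <;> simp only [surfLev] at ha <;> try omega
  have hk' : a.1.1.1 = k := by omega
  rw [← h2 a.1.1.2 (Finset.mem_Icc.2 (surf_lev a.1).2) a.2, hu a.1 a.2 hk']

theorem surf_deg (m W E : ℕ) (Φ : Z2) (v : Fin (2 * m + 3) → Fin 2) (Ψ : Fin (2 * m + 3) → Z2)
    (hΦ : Φ.totalDegree ≤ E) (hΨ : ∀ i, (Ψ i).totalDegree ≤ E) (i : Idx m W) :
    (surfPol m W Φ v Ψ i).totalDegree ≤ (W + 1) * E + W := by
  have hm : ∀ a b : ℕ, (MvPolynomial.X 0 ^ a * MvPolynomial.X 1 ^ b : Z2).totalDegree ≤ a + b :=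
    fun a b => (MvPolynomial.totalDegree_mul _ _).trans
      (by rw [MvPolynomial.totalDegree_X_pow, MvPolynomial.totalDegree_X_pow])
  rcases i with p | p | p
  · have := surf_tri p
    exact (hm _ _).trans (by omega)
  · have := surf_tri p
    exact (hm _ _).trans (by omega)
  · obtain ⟨h1, -, h3⟩ := surf_lev p.1
    have e1 := MvPolynomial.totalDegree_mul (Φ ^ p.1.1.1)
      (MvPolynomial.X (v p.2) ^ p.1.1.2 * Ψ p.2)
    have e2 := MvPolynomial.totalDegree_mul (MvPolynomial.X (v p.2) ^ p.1.1.2) (Ψ p.2)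
    have e3 := MvPolynomial.totalDegree_pow Φ p.1.1.1
    have e4 : p.1.1.1 * Φ.totalDegree ≤ W * E := Nat.mul_le_mul h1 hΦ
    have e5 := hΨ p.2
    rw [MvPolynomial.totalDegree_X_pow] at e2
    simp only [surfPol]
    rw [Nat.add_mul, Nat.one_mul]
    omega

theorem surf_eq (m W : ℕ) (Φ : Z2) (v : Fin (2 * m + 3) → Fin 2) (Ψ : Fin (2 * m + 3) → Z2)
    (x : Fin 2 → ℤ) (y c₀ : ℤ) (c : Fin (2 * m + 3) → ℤ) (h₀ : evz x Φ = y * c₀)
    (h : ∀ i, evz x (Ψ i) = y * c i) (i : Idx m W) :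
    surfF m W v x y c₀ c i * y ^ surfLev m W i = y * evz x (surfPol m W Φ v Ψ i) := by
  rcases i with p | p | p <;>
    simp only [surfF, surfLev, surfPol, map_mul, map_pow, MvPolynomial.eval_X]
  · ring
  · ring
  · rw [show MvPolynomial.eval x Φ = y * c₀ from h₀,
      show MvPolynomial.eval x (Ψ p.2) = y * c p.2 from h p.2]
    ring

theorem surf_bound (m W : ℕ) (hm : 2 ≤ m) (v : Fin (2 * m + 3) → Fin 2) {H η : ℝ} (hH : 1 ≤ H)
    (hη : 0 < η) (x : Fin 2 → ℤ) (y c₀ : ℤ) (c : Fin (2 * m + 3) → ℤ) (hx : ∀ i, |(x i : ℝ)| ≤ H)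
    (hy : |(y : ℝ)| ≤ H ^ ((m : ℝ) + 2 + η)) (h₀ : |(c₀ : ℝ)| ≤ H ^ ((m : ℝ) + η))
    (h : ∀ i, |(c i : ℝ)| ≤ H ^ ((m : ℝ) + η)) (i : Idx m W) :
    |(surfF m W v x y c₀ c i : ℝ)| ≤ H ^ ((1 + η) * wt m W i) := by
  have hH0 : 0 < H := by linarith
  have hp : ∀ (i : Fin 2) (a : ℕ), |(x i : ℝ)| ^ a ≤ H ^ (a : ℝ) := fun i a => by
    rw [Real.rpow_natCast]
    exact pow_le_pow_left₀ (abs_nonneg _) (hx i) a
  have hm' : (2 : ℝ) ≤ m := by exact_mod_cast hm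
  rcases i with p | p | p <;> simp only [surfF, wt] <;> push_cast <;>
    simp only [abs_mul, abs_pow]
  · have a0 : (0 : ℝ) ≤ p.1.1 := Nat.cast_nonneg _
    have b0 : (0 : ℝ) ≤ p.1.2 := Nat.cast_nonneg _
    refine (mul_le_mul (hp 0 _) (hp 1 _) (by positivity) (by positivity)).trans ?_
    rw [← Real.rpow_add hH0]
    exact Real.rpow_le_rpow_of_exponent_le hH (by nlinarith)
  · have a0 : (0 : ℝ) ≤ p.1.1 := Nat.cast_nonneg _
    have b0 : (0 : ℝ) ≤ p.1.2 := Nat.cast_nonneg _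
    refine (mul_le_mul hy (mul_le_mul (hp 0 _) (hp 1 _) (by positivity) (by positivity))
      (by positivity) (by positivity)).trans ?_
    rw [← Real.rpow_add hH0, ← Real.rpow_add hH0]
    exact Real.rpow_le_rpow_of_exponent_le hH (by nlinarith)
  · have a0 : (0 : ℝ) ≤ p.1.1.1 := Nat.cast_nonneg _
    have b0 : (0 : ℝ) ≤ p.1.1.2 := Nat.cast_nonneg _
    have e : |(c₀ : ℝ)| ^ p.1.1.1 ≤ H ^ (((m : ℝ) + η) * p.1.1.1) := by
      rw [Real.rpow_mul_natCast hH0.le]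
      exact pow_le_pow_left₀ (abs_nonneg _) h₀ _
    refine (mul_le_mul e (mul_le_mul (hp _ _) (h _) (by positivity) (by positivity))
      (by positivity) (by positivity)).trans ?_
    rw [← Real.rpow_add hH0, ← Real.rpow_add hH0]
    refine Real.rpow_le_rpow_of_exponent_le hH ?_
    have e1 : 0 ≤ η * (((p.1.1.1 : ℝ) + 1) * (m - 1)) :=
      mul_nonneg hη.le (mul_nonneg (by linarith) (by linarith))
    have e2 : 0 ≤ η * p.1.1.2 := mul_nonneg hη.le b0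
    nlinarith

theorem surf_ineq (s ν N : ℕ) (h : 2 * s < ν) : ∃ H₀ : ℝ, 1 ≤ H₀ ∧ ∀ H : ℝ, H₀ ≤ H → ∀ M : ℕ,
    H ^ (((6 * ν : ℕ) : ℝ) / (2 * ((6 * ν : ℕ) : ℝ) + 3)) ≤ M →
    (N : ℝ) * H ^ ((1 + 1 / (8 * ((s : ℝ) + 1))) * s) < (M : ℝ) ^ ν := by
  obtain ⟨H₀, h1, h2⟩ := exists_pow_ge ((N : ℝ) + 1) (1 / 4) (by norm_num)
  refine ⟨H₀, h1, fun H hH M hM => ?_⟩
  have hH1 : 1 ≤ H := h1.trans hH
  have hH0 : 0 < H := by linarith
  have hs : (0 : ℝ) ≤ s := Nat.cast_nonneg _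
  have hν : 2 * (s : ℝ) + 1 ≤ ν := by exact_mod_cast h
  have e1 : (1 + 1 / (8 * ((s : ℝ) + 1))) * s ≤ s + 1 / 8 := by
    have : 1 / (8 * ((s : ℝ) + 1)) * s ≤ 1 / 8 := by
      rw [div_mul_eq_mul_div, div_le_div_iff₀ (by positivity) (by norm_num)]
      linarith
    linarith
  have e2 : (s : ℝ) + 3 / 8 ≤ ((6 * ν : ℕ) : ℝ) / (2 * ((6 * ν : ℕ) : ℝ) + 3) * ν := by
    push_cast
    rw [div_mul_eq_mul_div, le_div_iff₀ (by linarith)]
    nlinarith
  calc (N : ℝ) * H ^ ((1 + 1 / (8 * ((s : ℝ) + 1))) * s)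
      < H ^ (1 / 4 : ℝ) * H ^ ((1 + 1 / (8 * ((s : ℝ) + 1))) * s) :=
        mul_lt_mul_of_pos_right (by linarith [h2 H hH]) (Real.rpow_pos_of_pos hH0 _)
    _ ≤ H ^ (((6 * ν : ℕ) : ℝ) / (2 * ((6 * ν : ℕ) : ℝ) + 3) * ν) := by
        rw [← Real.rpow_add hH0]
        exact Real.rpow_le_rpow_of_exponent_le hH1 (by linarith)
    _ ≤ (M : ℝ) ^ ν := by
        rw [Real.rpow_mul_natCast hH0.le]
        exact pow_le_pow_left₀ (by positivity) hM _

/-- the determinant on the double cover -/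
theorem surf (m E a : ℕ) (hm : 2 ≤ m) : ∃ (r E' : ℕ) (η H₀ : ℝ), 0 < η ∧ ∀ H : ℝ, H₀ ≤ H →
    ∀ (D Φ : Z2) (v : Fin (2 * m + 3) → Fin 2) (Ψ : Fin (2 * m + 3) → Z2) (q : ℤ) (T : Pt → Prop),
    D.totalDegree ≤ E → Φ.totalDegree ≤ E → (∀ i, (Ψ i).totalDegree ≤ E) → Ind D Φ v Ψ →
    (∀ z, T z → On D q H a z ∧ |(z.2 : ℝ)| ≤ H ^ ((m : ℝ) + 2 + η) ∧
      Quo (H ^ ((m : ℝ) + η)) z.2 (evz z.1 Φ) ∧ ∀ i, Quo (H ^ ((m : ℝ) + η)) z.2 (evz z.1 (Ψ i))) →
    Aux D T (H ^ ((r : ℝ) / (2 * r + 3))) E' := by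
  obtain ⟨W, hW⟩ := surf_num m hm
  obtain ⟨H₀, h1, h2⟩ := surf_ineq _ _ (Fintype.card (Idx m W)).factorial hW
  refine ⟨6 * ∑ t ∈ Finset.range (2 * W), (Fintype.card (Idx m W) - (t + 2).choose 2),
    (2 * (W + 2) + 3) * ((W + 1) * E + W), 1 / (8 * (((∑ i : Idx m W, wt m W i : ℕ) : ℝ) + 1)), H₀,
    by positivity, ?_⟩
  intro H hH D Φ v Ψ q T hD hΦ hΨ hI hT M z₀ hM hR
  have hH1 : 1 ≤ H := h1.trans hH
  have hH0 : 0 < H := by linarith
  by_cases hex : ∃ z, T z ∧ Cong M z z₀ ∧ Cop M (2 * evz z.1 D)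
  swap
  · exact ⟨1, one_ne_zero, by simp, fun z a b c => (hex ⟨z, a, b, c⟩).elim⟩
  obtain ⟨z₁, hz₁, -, -⟩ := hex
  have hq : q ≠ 0 := fun e => (hT z₁ hz₁).1.2.2.1 (by rw [(hT z₁ hz₁).1.2.1, e, zero_mul])
  let ι : Type := {z : Pt // T z ∧ Cong M z z₀ ∧ Cop M (2 * evz z.1 D)}
  choose c₀ hc₀ hb₀ using fun z : ι => (hT z.1 z.2.1).2.2.1
  choose c hc hb using fun (z : ι) i => (hT z.1 z.2.1).2.2.2 i
  have hcong : ∀ z w : ι, Cong M z.1 w.1 := fun z w => z.2.2.1.trans w.2.2.1.symm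
  have hx : ∀ (z w : ι) k, z.1.1 k ≡ w.1.1 k [ZMOD M] := fun z w => (hcong z w).1
  have hy : Apx M (fun z : ι => z.1.1) fun z => z.1.2 :=
    apx_root hM hx (Apx.poly D) (fun z => (hT z.1 z.2.1).1.2.1) (fun z => z.2.2.2)
      fun z w => (hcong z w).2
  have hu : ∀ z : ι, Cop M z.1.2 := fun z => z.2.2.2.of_dvd_right
    ⟨2 * q * z.1.2, by rw [(hT z.1 z.2.1).1.2.1]; ring⟩
  have ha₀ : Apx M (fun z : ι => z.1.1) c₀ := apx_div hM hx hy hu ((Apx.poly Φ).congr hc₀)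
  have ha : ∀ i, Apx M (fun z : ι => z.1.1) fun z => c z i := fun i =>
    apx_div hM hx hy hu ((Apx.poly (Ψ i)).congr fun z => hc z i)
  have hF : ∀ i : Idx m W, Apx M (fun z : ι => z.1.1)
      fun z => surfF m W v z.1.1 z.1.2 (c₀ z) (c z) i := by
    rintro (p | p | p)
    · exact ((Apx.coord 0).pow _).mul ((Apx.coord 1).pow _)
    · exact hy.mul (((Apx.coord 0).pow _).mul ((Apx.coord 1).pow _))
    · exact (ha₀.pow _).mul (((Apx.coord (v p.2)).pow _).mul (ha p.2))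
  obtain ⟨d, hd, hrel⟩ := rel (2 * W) hx hF
    (fun i => H ^ ((1 + 1 / (8 * (((∑ i : Idx m W, wt m W i : ℕ) : ℝ) + 1))) * wt m W i))
    (fun i z => surf_bound m W hm v hH1 (by positivity) _ _ _ _ (hT z.1 z.2.1).1.1
      (hT z.1 z.2.1).2.1 (hb₀ z) (hb z) i)
    (by
      rw [← Real.rpow_sum_of_pos hH0, ← Finset.mul_sum, ← Nat.cast_sum]
      exact h2 H hH M hR)
  obtain ⟨G, hG, hdeg, hev⟩ := alg_rel D q hq (W + 2) ((W + 1) * E + W) (surfLev m W)
    (surfPol m W Φ v Ψ)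
    (by
      rintro (p | p | p) <;> simp only [surfLev]
      · omega
      · omega
      · have := (surf_lev p.1).1
        omega)
    (hD.trans (by nlinarith)) (surf_deg m W E Φ v Ψ hΦ hΨ)
    (hT z₁ hz₁).1.2.2.2.2.not_sq (surf_low m W Φ v Ψ) (surf_ind m W D Φ v Ψ hI) d hd
  refine ⟨G, hG, hdeg, fun z a b e => ?_⟩
  refine hev z.1 z.2 _ (hT z a).1.2.1 (fun e0 => (hT z a).1.2.2.1 ?_)
    (surf_eq m W Φ v Ψ z.1 z.2 _ _ (hc₀ ⟨z, a, b, e⟩) (hc ⟨z, a, b, e⟩)) (hrel ⟨z, a, b, e⟩)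
  rw [(hT z a).1.2.1, e0]
  ring

end Pool.Agent.VW
end

-- part Pool.Agent.P.MP_b0ea37_nt.WSPl
section

namespace Pool.Agent.VW

open Polynomial

theorem WSPl_up_map {R S : Type} [CommRing R] [CommRing S] (φ : R →+* S) (f : ℤ[X]) :
    (up R f).map φ = up S f := by
  rw [Polynomial.map_map, Subsingleton.elim (φ.comp (Int.castRingHom R)) (Int.castRingHom S)]

theorem map_fam {R : Type} [CommRing R] (n : ℕ) (f₀ : ℤ[X]) (φ : Z2 →+* R) :
    (fam n f₀).map φ = up R f₀ + C (φ (MvPolynomial.X 0)) * up R (g1 n) +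
      C (φ (MvPolynomial.X 1)) * up R (g2 n) := by
  rw [fam, Polynomial.map_add, Polynomial.map_add, Polynomial.map_mul, Polynomial.map_mul,
    map_C, map_C, WSPl_up_map, WSPl_up_map, WSPl_up_map]

theorem WSPl_up_int (f : ℤ[X]) : up ℤ f = f := by
  ext i
  simp

theorem WSPl_map_eval (n : ℕ) (f₀ : ℤ[X]) (x : Fin 2 → ℤ) :
    (fam n f₀).map (MvPolynomial.eval x) = mem n f₀ x := by
  rw [map_fam, WSPl_up_int, WSPl_up_int, WSPl_up_int, MvPolynomial.eval_X, MvPolynomial.eval_X, mem]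

theorem evz_DD (n : ℕ) (f₀ : ℤ[X]) (x : Fin 2 → ℤ) : evz x (DD n f₀) = Dv n (mem n f₀ x) := by
  rw [← WSPl_map_eval, Dv_map, DD]

theorem evz_PP (n k : ℕ) (f₀ : ℤ[X]) (x : Fin 2 → ℤ) :
    evz x (PP n k f₀) = Phi n k (mem n f₀ x) := by
  rw [← WSPl_map_eval, Phi_map, PP]

theorem WSPl_deg_eval {σ : Type} (P : MvPolynomial σ ℤ) : ∃ E : ℕ, ∀ a : σ → Z2,
    (∀ i, (a i).totalDegree ≤ 1) →
      (MvPolynomial.eval₂ (Int.castRingHom Z2) a P).totalDegree ≤ E := by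
  induction P using MvPolynomial.induction_on with
  | C c =>
    refine ⟨0, fun a _ => ?_⟩
    rw [MvPolynomial.eval₂_C, ← Subsingleton.elim (MvPolynomial.C : ℤ →+* Z2) (Int.castRingHom Z2),
      MvPolynomial.totalDegree_C]
  | add p q hp hq =>
    obtain ⟨E, hE⟩ := hp
    obtain ⟨E', hE'⟩ := hq
    refine ⟨max E E', fun a ha => ?_⟩
    rw [MvPolynomial.eval₂_add]
    exact (MvPolynomial.totalDegree_add _ _).trans (max_le_max (hE a ha) (hE' a ha))
  | mul_X p i hp =>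
    obtain ⟨E, hE⟩ := hp
    refine ⟨E + 1, fun a ha => ?_⟩
    rw [MvPolynomial.eval₂_mul, MvPolynomial.eval₂_X]
    exact (MvPolynomial.totalDegree_mul _ _).trans (add_le_add (hE a ha) (ha i))

theorem WSPl_deg_det (ι : Type) [Fintype ι] [DecidableEq ι] : ∃ E : ℕ, ∀ M : Matrix ι ι Z2,
    (∀ i j, (M i j).totalDegree ≤ 1) → M.det.totalDegree ≤ E := by
  obtain ⟨E, hE⟩ := WSPl_deg_eval
    (Matrix.of fun i j : ι => (MvPolynomial.X (i, j) : MvPolynomial (ι × ι) ℤ)).det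
  refine ⟨E, fun M hM => ?_⟩
  have h := hE (fun p => M p.1 p.2) fun p => hM p.1 p.2
  rw [← MvPolynomial.coe_eval₂Hom, RingHom.map_det] at h
  have e : (MvPolynomial.eval₂Hom (Int.castRingHom Z2) fun p : ι × ι => M p.1 p.2).mapMatrix
      (Matrix.of fun i j : ι => (MvPolynomial.X (i, j) : MvPolynomial (ι × ι) ℤ)) = M := by
    ext1 i j
    simp
  rwa [e] at h

theorem WSPl_deg_mul (A : Z2) (c : ℤ) : (A * (c : Z2)).totalDegree ≤ A.totalDegree := by
  have e : ((c : ℤ) : Z2) = MvPolynomial.C c := by simp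
  rw [e]
  exact (MvPolynomial.totalDegree_mul A (MvPolynomial.C c)).trans
    (by rw [MvPolynomial.totalDegree_C, add_zero])

theorem WSPl_deg_coeff (n : ℕ) (f₀ : ℤ[X]) (i : ℕ) : ((fam n f₀).coeff i).totalDegree ≤ 1 := by
  have e : (fam n f₀).coeff i = 1 * ((f₀.coeff i : ℤ) : Z2) +
      MvPolynomial.X 0 * (((g1 n).coeff i : ℤ) : Z2) +
      MvPolynomial.X 1 * (((g2 n).coeff i : ℤ) : Z2) := by
    simp [fam]
  rw [e]
  refine (MvPolynomial.totalDegree_add _ _).trans (max_le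
    ((MvPolynomial.totalDegree_add _ _).trans (max_le ?_ ?_)) ?_)
  · exact (WSPl_deg_mul _ _).trans (by simp)
  · exact (WSPl_deg_mul _ _).trans (by simp)
  · exact (WSPl_deg_mul _ _).trans (by simp)

theorem WSPl_deg_der (n : ℕ) (f₀ : ℤ[X]) (i : ℕ) :
    ((derivative (fam n f₀)).coeff i).totalDegree ≤ 1 := by
  rw [coeff_derivative]
  have e : ((i : Z2) + 1) = (((i : ℤ) + 1 : ℤ) : Z2) := by push_cast; rfl
  rw [e]
  exact (WSPl_deg_mul _ _).trans (WSPl_deg_coeff n f₀ _)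

theorem deg_DD_PP (n : ℕ) : ∃ E : ℕ, ∀ f₀ : ℤ[X], (DD n f₀).totalDegree ≤ E ∧
    ∀ k ≤ n, (PP n k f₀).totalDegree ≤ E := by
  obtain ⟨E, hE⟩ := WSPl_deg_det (Fin (n + (n - 1)))
  choose F hF using fun k => WSPl_deg_eval (phiP n k)
  refine ⟨max E ((Finset.range (n + 1)).sup F), fun f₀ => ⟨le_max_of_le_left (hE _ ?_),
    fun k hk => le_max_of_le_right ((hF k _ fun i => WSPl_deg_coeff n f₀ i).trans
      (Finset.le_sup (f := F) (Finset.mem_range.2 (Nat.lt_succ_of_le hk))))⟩⟩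
  intro i j
  rw [sylvester, Matrix.of_apply]
  induction j using Fin.addCases with
  | left j =>
    rw [Fin.addCases_left]
    split_ifs
    · exact WSPl_deg_der n f₀ _
    · simp
  | right j =>
    rw [Fin.addCases_right]
    split_ifs
    · exact WSPl_deg_coeff n f₀ _
    · simp

theorem mem_base (n : ℕ) (f : ℤ[X]) : mem n (base n f) (crd n f) = f := by
  simp only [mem, base, crd, Matrix.cons_val_zero, Matrix.cons_val_one]
  ring

theorem WSPl_g1_coeff (n i : ℕ) : (g1 n).coeff i = (if i = n - 2 then 1 else 0) +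
    2 * ((n : ℤ) - 2 - (n % 2 : ℕ)) * (if i = 1 - n % 2 then 1 else 0) := by
  rw [g1, coeff_add, coeff_C_mul, coeff_X_pow, coeff_X_pow]

theorem WSPl_g2_coeff (n i : ℕ) : (g2 n).coeff i = if i = n % 2 then 1 else 0 := by
  rw [g2, coeff_X_pow]

theorem g1_monic {n : ℕ} (hn : 5 ≤ n) : (g1 n).Monic ∧ (g1 n).natDegree = n - 2 := by
  have h : (C (2 * ((n : ℤ) - 2 - (n % 2 : ℕ))) * X ^ (1 - n % 2) : ℤ[X]).degree <
      (X ^ (n - 2) : ℤ[X]).degree := by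
    rw [degree_X_pow]
    exact (degree_C_mul_X_pow_le _ _).trans_lt (by exact_mod_cast (by omega))
  refine ⟨(monic_X_pow _).add_of_left h, ?_⟩
  rw [g1, natDegree_add_eq_left_of_degree_lt h, natDegree_X_pow]

theorem g2_monic (n : ℕ) : (g2 n).Monic ∧ (g2 n).natDegree = n % 2 :=
  ⟨monic_X_pow _, natDegree_X_pow _⟩

theorem g_indep {n : ℕ} (hn : 5 ≤ n) : Indep (g1 n) (g2 n) := by
  intro a b h
  have h1 := congrArg (fun p : ℤ[X] => p.coeff (n - 2)) h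
  have h2 := congrArg (fun p : ℤ[X] => p.coeff (n % 2)) h
  simp only [coeff_add, coeff_C_mul, WSPl_g1_coeff, WSPl_g2_coeff, coeff_zero] at h1 h2
  rw [if_pos trivial, if_neg (by omega), if_neg (by omega)] at h1
  rw [if_neg (by omega), if_neg (by omega), if_pos trivial] at h2
  exact ⟨by simpa using h1, by simpa using h2⟩

theorem WSPl_eis (v : ℕ) (hv : 1 ≤ v) (c k : ℤ) (hc : c = 2 ∨ c = -2) (hk : k ≠ 0) :
    Irr (C k * (X ^ v + C c)) ∧ (C k * (X ^ v + C c) : ℤ[X]).natDegree = v := by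
  have hm : (X ^ v + C c : ℤ[X]).Monic := monic_X_pow_add_C c (by omega)
  have hd : (X ^ v + C c : ℤ[X]).degree = v := degree_X_pow_add_C (by omega) c
  have h1 : Irreducible (X ^ v + C c : ℤ[X]) := by
    refine irreducible_of_eisenstein_criterion (P := Ideal.span {(2 : ℤ)})
      ((Ideal.span_singleton_prime two_ne_zero).2 Int.prime_two) ?_ ?_ ?_ ?_ hm.isPrimitive
    · rw [hm.leadingCoeff, Ideal.mem_span_singleton]
      decide
    · intro m hlt
      rw [hd] at hlt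
      have hlt' : m < v := by exact_mod_cast hlt
      rw [coeff_add, coeff_X_pow, if_neg hlt'.ne, zero_add, coeff_C, Ideal.mem_span_singleton]
      split_ifs
      · rcases hc with rfl | rfl <;> decide
      · exact dvd_zero _
    · rw [hd]
      exact_mod_cast hv
    · rw [coeff_add, coeff_X_pow, if_neg (by omega), zero_add, coeff_C_zero,
        Ideal.span_singleton_pow, Ideal.mem_span_singleton]
      rcases hc with rfl | rfl <;> decide
  refine ⟨?_, ?_⟩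
  · have h2 := (IsPrimitive.Int.irreducible_iff_irreducible_map_cast hm.isPrimitive).1 h1
    unfold Irr up
    rw [Polynomial.map_mul, map_C]
    refine (irreducible_isUnit_mul (isUnit_C.2 (IsUnit.mk0 _ ?_))).2 h2
    simpa using hk
  · rw [natDegree_C_mul hk, natDegree_eq_of_degree_eq_some hd]

theorem wr_g {n : ℕ} (hn : 5 ≤ n) : Irr (wr (g1 n) (g2 n)) ∧
    (wr (g1 n) (g2 n)).natDegree = n - 3 + n % 2 := by
  obtain ⟨m, rfl⟩ : ∃ m, n = m + 3 := ⟨n - 3, by omega⟩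
  have e1 : m + 3 - 2 = m + 1 := by omega
  have e2 : m + 3 - 3 = m := by omega
  rcases Nat.mod_two_eq_zero_or_one (m + 3) with h | h
  · have e : wr (g1 (m + 3)) (g2 (m + 3)) = C ((m : ℤ) + 1) * (X ^ m + C 2) := by
      simp only [wr, g1, g2, h, e1, derivative_add, derivative_C_mul, derivative_X_pow_succ,
        Nat.sub_zero, pow_zero, pow_one, derivative_X, derivative_one]
      simp only [map_mul, map_sub, map_add, map_natCast, map_ofNat, map_one, Nat.cast_add,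
        Nat.cast_ofNat, Nat.cast_zero, map_zero]
      ring
    rw [e, h, e2]
    exact WSPl_eis m (by omega) 2 _ (Or.inl rfl) (by omega)
  · have e : wr (g1 (m + 3)) (g2 (m + 3)) = C (m : ℤ) * (X ^ (m + 1) + C (-2)) := by
      simp only [wr, g1, g2, h, e1, derivative_add, derivative_C_mul, derivative_X_pow_succ,
        Nat.sub_self, pow_zero, pow_one, derivative_X, derivative_one]
      simp only [map_mul, map_sub, map_add, map_natCast, map_ofNat, map_one, Nat.cast_add,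
        Nat.cast_ofNat, Nat.cast_one, map_neg]
      ring
    rw [e, h, e2]
    exact WSPl_eis (m + 1) (by omega) (-2) _ (Or.inr rfl) (by omega)

theorem WSPl_abs_coeff {f : ℤ[X]} {H : ℝ} (h : f.supNorm ≤ H) (i : ℕ) :
    |((f.coeff i : ℤ) : ℝ)| ≤ H := (f.le_supNorm i).trans h

theorem WSPl_base_coeff (n : ℕ) (f : ℤ[X]) (i : ℕ) : (base n f).coeff i =
    f.coeff i - f.coeff (n - 2) * ((if i = n - 2 then 1 else 0) +
      2 * ((n : ℤ) - 2 - (n % 2 : ℕ)) * (if i = 1 - n % 2 then 1 else 0)) -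
      f.coeff (n % 2) * (if i = n % 2 then 1 else 0) := by
  rw [base, coeff_sub, coeff_sub, coeff_C_mul, coeff_C_mul, WSPl_g1_coeff, WSPl_g2_coeff]

theorem WSPl_top {n : ℕ} {f f' : ℤ[X]} (hm : f.Monic) (hd : f.natDegree = n) (hm' : f'.Monic)
    (hd' : f'.natDegree = n) {i : ℕ} (hi : n ≤ i) : f.coeff i = f'.coeff i := by
  rcases hi.eq_or_lt with rfl | hi
  · rw [← hd, hm.coeff_natDegree, hd, ← hd', hm'.coeff_natDegree]
  · rw [coeff_eq_zero_of_natDegree_lt (hd ▸ hi), coeff_eq_zero_of_natDegree_lt (hd' ▸ hi)]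

/-- number of planes -/
theorem cnt_base (n : ℕ) (hn : 5 ≤ n) : ∃ C : ℝ, 0 ≤ C ∧ ∀ H : ℝ, 1 ≤ H →
    Cnt (fun f₀ : ℤ[X] => ∃ f : ℤ[X], f.Monic ∧ f.natDegree = n ∧ f.supNorm ≤ H ∧ f₀ = base n f)
      (C * H ^ (n - 2)) := by
  refine ⟨(4 * n + 3) ^ (n - 2), by positivity, fun H hH => ?_⟩
  obtain ⟨T, hT⟩ : ∃ T : Finset ℕ, T = ((Finset.range n).erase (n - 2)).erase (n % 2) := ⟨_, rfl⟩
  have hmem : ∀ i, i ∈ T ↔ i ≠ n % 2 ∧ i ≠ n - 2 ∧ i < n := fun i => by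
    rw [hT, Finset.mem_erase, Finset.mem_erase, Finset.mem_range]
  have hcard : T.card = n - 2 := by
    rw [hT, Finset.card_erase_of_mem, Finset.card_erase_of_mem, Finset.card_range]
    · omega
    · rw [Finset.mem_range]; omega
    · rw [Finset.mem_erase, Finset.mem_range]; omega
  have hn' : (5 : ℝ) ≤ n := by exact_mod_cast hn
  have h0 : (0 : ℝ) ≤ (2 * n + 1) * H := by positivity
  refine ((Cnt.pi (ι := T) (P := fun _ (t : ℤ) => |(t : ℝ)| ≤ (2 * n + 1) * H)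
    (B := fun _ => 2 * ((2 * n + 1) * H) + 1) fun _ => cnt_int_abs _ h0).inj
    (fun g i => g.coeff i) ?_ ?_).mono (fun _ h => h) ?_
  · rintro _ ⟨f, -, -, hf, rfl⟩ ⟨i, hi⟩
    obtain ⟨h1, h2, -⟩ := (hmem i).1 hi
    have a1 := abs_le.1 (WSPl_abs_coeff hf i)
    have a2 := abs_le.1 (WSPl_abs_coeff hf (n - 2))
    show |(((base n f).coeff i : ℤ) : ℝ)| ≤ _
    rw [WSPl_base_coeff, if_neg h1, if_neg h2]
    have hd : ((n % 2 : ℕ) : ℝ) ≤ 1 := by exact_mod_cast (by omega : n % 2 ≤ 1)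
    have hd0 : (0 : ℝ) ≤ ((n % 2 : ℕ) : ℝ) := Nat.cast_nonneg _
    generalize n % 2 = d at hd hd0
    have k0 : (0 : ℝ) ≤ n - 2 - d := by linarith
    have k1 := mul_le_mul_of_nonneg_left a2.1 k0
    have k2 := mul_le_mul_of_nonneg_left a2.2 k0
    have k3 : (n - 2 - d) * H ≤ n * H := mul_le_mul_of_nonneg_right (by linarith) (by linarith)
    have k4 : (0 : ℝ) ≤ n * H := by positivity
    split_ifs <;> push_cast <;> rw [abs_le] <;> constructor <;> linarith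
  · rintro _ _ ⟨f, hm, hd, -, rfl⟩ ⟨f', hm', hd', -, rfl⟩ e
    ext i
    by_cases hi : i ∈ T
    · exact congrFun e ⟨i, hi⟩
    · rw [hmem] at hi
      rw [WSPl_base_coeff, WSPl_base_coeff]
      by_cases h1 : i = n % 2
      · rw [if_pos h1, if_neg (by omega), if_neg (by omega), h1]
        ring
      · by_cases h2 : i = n - 2
        · rw [if_pos h2, if_neg (by omega), if_neg h1, h2]
          ring
        · rw [if_neg h2, if_neg (by omega), if_neg h1, WSPl_top hm hd hm' hd' (by omega)]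
          ring
  · rw [Finset.prod_const, Finset.card_univ, Fintype.card_coe, hcard, ← mul_pow]
    exact pow_le_pow_left₀ (by positivity) (by linarith) _

theorem WSPl_wr_coeff (n : ℕ) (h : ℤ[X]) (i : ℕ) : (wr (g2 n) h).coeff i =
    h.coeff (i + 1 - n % 2) * (2 * ((n % 2 : ℕ) : ℤ) - 1 - i) := by
  rcases Nat.mod_two_eq_zero_or_one n with e | e
  · simp only [wr, g2, e, pow_zero, derivative_one, zero_mul, one_mul, zero_sub, coeff_neg,
      coeff_derivative, Nat.sub_zero]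
    push_cast
    ring
  · simp only [wr, g2, e, pow_one, derivative_X, one_mul, coeff_sub, Nat.add_sub_cancel]
    rcases i with _ | i
    · simp
    · rw [coeff_X_mul, coeff_derivative]
      push_cast
      ring

/-- the exceptional planes -/
theorem cnt_special (n : ℕ) (hn : 5 ≤ n) (H : ℝ) (hH : 0 ≤ H) :
    Cnt (fun f : ℤ[X] => f.Monic ∧ f.natDegree = n ∧ f.supNorm ≤ H ∧
      up ℚ (wr (g1 n) (g2 n)) ∣ up ℚ (wr (g2 n) f)) ((2 * H + 1) ^ 3) := by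
  refine ((Cnt.pi (ι := Fin 3) (P := fun _ (t : ℤ) => |(t : ℝ)| ≤ H)
    (B := fun _ => 2 * H + 1) fun _ => cnt_int_abs _ hH).inj
    (fun g j => g.coeff (![n - 1, n - 2, n % 2] j))
    (fun f hf j => WSPl_abs_coeff hf.2.2.1 _) ?_).mono (fun _ h => h) (by simp)
  rintro f f' ⟨hm, hd, -, hv⟩ ⟨hm', hd', -, hv'⟩ e
  have e0 : f.coeff (n - 1) = f'.coeff (n - 1) := congrFun e 0
  have e1 : f.coeff (n - 2) = f'.coeff (n - 2) := congrFun e 1
  have e2 : f.coeff (n % 2) = f'.coeff (n % 2) := congrFun e 2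
  have htop : ∀ i, n - 2 ≤ i → (f - f').coeff i = 0 := by
    intro i hi
    rw [coeff_sub, sub_eq_zero]
    rcases (by omega : i = n - 2 ∨ i = n - 1 ∨ n ≤ i) with rfl | rfl | h
    · exact e1
    · exact e0
    · exact WSPl_top hm hd hm' hd' h
  have hsub : wr (g2 n) (f - f') = wr (g2 n) f - wr (g2 n) f' := by
    simp only [wr, derivative_sub]
    ring
  have hdvd : up ℚ (wr (g1 n) (g2 n)) ∣ up ℚ (wr (g2 n) (f - f')) := by
    rw [hsub]
    unfold up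
    rw [Polynomial.map_sub]
    exact dvd_sub hv hv'
  have hinj : Function.Injective (Int.castRingHom ℚ) := Int.cast_injective
  have hz : up ℚ (wr (g2 n) (f - f')) = 0 := by
    refine eq_zero_of_dvd_of_degree_lt hdvd ?_
    rw [degree_eq_natDegree (wr_g hn).1.ne_zero, natDegree_map_eq_of_injective hinj, (wr_g hn).2,
      degree_lt_iff_coeff_zero]
    intro m hmn
    rw [coeff_map, WSPl_wr_coeff, htop _ (by omega), zero_mul, map_zero]
  have hz' : wr (g2 n) (f - f') = 0 := (Polynomial.map_eq_zero_iff hinj).1 hz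
  rw [← sub_eq_zero]
  ext i
  rw [coeff_zero]
  by_cases hi : i = n % 2
  · rw [hi, coeff_sub, e2, sub_self]
  · have h1 := WSPl_wr_coeff n (f - f') (i + n % 2 - 1)
    rw [hz', coeff_zero, (by omega : i + n % 2 - 1 + 1 - n % 2 = i)] at h1
    exact (mul_eq_zero.1 h1.symm).resolve_right (by omega)

end Pool.Agent.VW
end

-- part Pool.Agent.P.MP_b0ea37_nt.WSOdd
section

namespace Pool.Agent.VW

open Polynomial

theorem wsodd_swap {n : ℕ} (T h : ℂ[X]) (hT : T.Monic) (hn : T.natDegree = n) :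
    (T.roots.map h.eval).prod =
      (-1) ^ (n * h.natDegree) * h.leadingCoeff ^ n * (h.roots.map T.eval).prod := by
  have h1 := resultant_eq_prod_eval T h h.natDegree le_rfl (IsAlgClosed.splits T)
  have h2 := resultant_eq_prod_eval h T n hn.le (IsAlgClosed.splits h)
  rw [hT.leadingCoeff, one_pow, one_mul, resultant_comm, hn, h2] at h1
  rw [← h1, mul_assoc]

theorem wsodd_wr {n : ℕ} (F g : ℂ[X]) (hF : F.Monic) (hn : F.natDegree = n) (hg : g ≠ 0)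
    (hlt : g.natDegree < n) : wr F g ≠ 0 ∧ (wr F g).natDegree = n + g.natDegree - 1 := by
  obtain ⟨m, rfl⟩ : ∃ m, n = m + 1 := ⟨n - 1, by omega⟩
  have hF' : (derivative F).natDegree ≤ m := by
    have := natDegree_derivative_le F
    omega
  have hFc : F.coeff (m + 1) = 1 := hn ▸ hF.coeff_natDegree
  have hlc : g.coeff g.natDegree ≠ 0 := leadingCoeff_ne_zero.2 hg
  have c1 : (derivative F * g).coeff (m + g.natDegree) = (m + 1) * g.coeff g.natDegree := by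
    rw [coeff_mul_add_eq_of_natDegree_le hF' le_rfl, coeff_derivative, hFc, one_mul]
  have d1 : (derivative F * g).natDegree ≤ m + g.natDegree :=
    natDegree_mul_le.trans (Nat.add_le_add_right hF' _)
  have h2 : (F * derivative g).coeff (m + g.natDegree) = g.natDegree * g.coeff g.natDegree ∧
      (F * derivative g).natDegree ≤ m + g.natDegree := by
    rcases Nat.eq_zero_or_eq_succ_pred g.natDegree with h0 | h0
    · rw [derivative_of_natDegree_zero h0, h0]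
      simp
    · obtain ⟨e, he⟩ : ∃ e, g.natDegree = e + 1 := ⟨_, h0⟩
      have hg' : (derivative g).natDegree ≤ e := by
        have := natDegree_derivative_le g
        omega
      rw [he, show m + (e + 1) = m + 1 + e by omega]
      refine ⟨?_, natDegree_mul_le.trans (Nat.add_le_add hn.le hg')⟩
      rw [coeff_mul_add_eq_of_natDegree_le hn.le hg', coeff_derivative, hFc]
      push_cast
      ring
  have c3 : (wr F g).coeff (m + g.natDegree) ≠ 0 := by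
    rw [wr, coeff_sub, c1, h2.1, ← sub_mul]
    refine mul_ne_zero (sub_ne_zero.2 ?_) hlc
    exact_mod_cast hlt.ne'
  refine ⟨fun h => c3 (by rw [h, coeff_zero]), ?_⟩
  rw [show m + 1 + g.natDegree - 1 = m + g.natDegree by omega]
  exact natDegree_eq_of_le_of_coeff_ne_zero ((natDegree_sub_le _ _).trans (max_le d1 h2.2)) c3

theorem wsodd_eval {n : ℕ} (F g : ℂ[X]) (τ : ℂ) :
    (Dv n (F.map C + C X * g.map C)).eval τ = Dv n (F + C τ * g) := by
  have h := Dv_map (evalRingHom τ) n (F.map C + C X * g.map C)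
  have hc : (evalRingHom τ).comp C = RingHom.id ℂ := RingHom.ext fun z => by simp
  rw [coe_evalRingHom] at h
  rw [← h]
  simp [Polynomial.map_map, hc]

/-- degree of the discriminant along a line -/
theorem deg_line {n : ℕ} (F g : ℂ[X]) (hF : F.Monic) (hn : F.natDegree = n) (hg : g ≠ 0)
    (hlt : g.natDegree < n) (h1 : ∀ z, g.eval z = 0 → F.eval z ≠ 0 ∧ (derivative g).eval z ≠ 0) :
    (Dv n (F.map C + C X * g.map C)).natDegree = n + g.natDegree - 1 := by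
  obtain ⟨hW0, hWd⟩ := wsodd_wr F g hF hn hg hlt
  have hc1 : (-1) ^ (n * g.natDegree) * g.leadingCoeff ^ n * (g.roots.map F.eval).prod ≠ 0 := by
    refine mul_ne_zero (mul_ne_zero (pow_ne_zero _ (by norm_num))
      (pow_ne_zero _ (leadingCoeff_ne_zero.2 hg))) (Multiset.prod_ne_zero fun h => ?_)
    obtain ⟨z, hz, e⟩ := Multiset.mem_map.1 h
    exact (h1 z (isRoot_of_mem_roots hz)).1 e
  have hc2 : (-1) ^ (n * (wr F g).natDegree) * (wr F g).leadingCoeff ^ n ≠ 0 :=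
    mul_ne_zero (pow_ne_zero _ (by norm_num)) (pow_ne_zero _ (leadingCoeff_ne_zero.2 hW0))
  have key : Dv n (F.map C + C X * g.map C) *
      C ((-1) ^ (n * g.natDegree) * g.leadingCoeff ^ n * (g.roots.map F.eval).prod) =
      C ((-1) ^ (n * (wr F g).natDegree) * (wr F g).leadingCoeff ^ n) *
        ((wr F g).roots.map fun ρ => C (g.eval ρ) * X + C (F.eval ρ)).prod := by
    refine Polynomial.funext fun τ => ?_
    have hl : (C τ * g).natDegree < F.natDegree := by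
      rw [hn]
      exact lt_of_le_of_lt (natDegree_C_mul_le _ _) hlt
    have hT : (F + C τ * g).Monic := hF.add_of_left (degree_lt_degree hl)
    have hTd : (F + C τ * g).natDegree = n := by
      rw [natDegree_add_eq_left_of_natDegree_lt hl, hn]
    have e1 : Dv n (F + C τ * g) =
        ((F + C τ * g).roots.map (derivative (F + C τ * g)).eval).prod := by
      have h := resultant_eq_prod_eval (F + C τ * g) (derivative (F + C τ * g)) (n - 1)
        (hTd ▸ natDegree_derivative_le _) (IsAlgClosed.splits _)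
      rwa [hT.leadingCoeff, one_pow, one_mul, hTd] at h
    have e2 := wsodd_swap (F + C τ * g) g hT hTd
    have e3 := wsodd_swap (F + C τ * g) (wr F g) hT hTd
    have e4 : g.roots.map (F + C τ * g).eval = g.roots.map F.eval := by
      refine Multiset.map_congr rfl fun z hz => ?_
      rw [eval_add, eval_mul, (isRoot_of_mem_roots hz).eq_zero, mul_zero, add_zero]
    have e5 : (F + C τ * g).roots.map (wr F g).eval = (F + C τ * g).roots.map
        fun z => (derivative (F + C τ * g)).eval z * g.eval z := by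
      refine Multiset.map_congr rfl fun z hz => ?_
      have h0 := (isRoot_of_mem_roots hz).eq_zero
      simp only [wr, derivative_add, derivative_C_mul, eval_add, eval_sub, eval_mul,
        eval_C] at h0 ⊢
      linear_combination (-(derivative g).eval z) * h0
    have e6 : ((wr F g).roots.map fun ρ => C (g.eval ρ) * X + C (F.eval ρ)).map (eval τ)
        = (wr F g).roots.map (F + C τ * g).eval := by
      rw [Multiset.map_map]
      refine Multiset.map_congr rfl fun z _ => ?_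
      simp only [Function.comp_apply, eval_add, eval_mul, eval_C, eval_X]
      ring
    rw [eval_mul, eval_mul, eval_C, eval_C, wsodd_eval, eval_multiset_prod, e6, ← e3, e5,
      Multiset.prod_map_mul, ← e4, ← e2, e1]
  have hρ : ∀ ρ ∈ (wr F g).roots, g.eval ρ ≠ 0 := by
    intro ρ hρ h0
    have h := (isRoot_of_mem_roots hρ).eq_zero
    rw [wr, eval_sub, eval_mul, eval_mul, h0, mul_zero, zero_sub, neg_eq_zero] at h
    exact mul_ne_zero (h1 ρ h0).1 (h1 ρ h0).2 h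
  have hd := congrArg natDegree key
  rw [natDegree_mul_C hc1, natDegree_C_mul hc2, natDegree_multiset_prod] at hd
  · have e : (wr F g).roots.map (natDegree ∘ fun ρ => C (g.eval ρ) * X + C (F.eval ρ))
        = (wr F g).roots.map fun _ => 1 :=
      Multiset.map_congr rfl fun ρ h => natDegree_linear (hρ ρ h)
    rw [hd, Multiset.map_map, e]
    rw [Multiset.map_const', Multiset.sum_replicate, smul_eq_mul, mul_one,
      ← (IsAlgClosed.splits _).natDegree_eq_card_roots, hWd]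
  · intro h
    obtain ⟨ρ, h2, e⟩ := Multiset.mem_map.1 h
    have h3 := natDegree_linear (b := F.eval ρ) (hρ ρ h2)
    rw [e, natDegree_zero] at h3
    omega

/-- rational members of the pencil of directions -/
theorem dir_sep {n : ℕ} (hn : 5 ≤ n) (w : Fin 2 → ℚ) (hw : w ≠ 0) :
    (C (w 0) * up ℚ (g1 n) + C (w 1) * up ℚ (g2 n)).Separable ∧
    (C (w 0) * up ℚ (g1 n) + C (w 1) * up ℚ (g2 n)).natDegree + 2 ≤ n ∧
    Even (n + (C (w 0) * up ℚ (g1 n) + C (w 1) * up ℚ (g2 n)).natDegree) := by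
  have h2 : n % 2 < 2 := Nat.mod_lt _ (by norm_num)
  have d1 : (up ℚ (g1 n)).natDegree = n - 2 := by
    rw [(g1_monic hn).1.natDegree_map, (g1_monic hn).2]
  have d2 : (up ℚ (g2 n)).natDegree = n % 2 := by
    rw [(g2_monic n).1.natDegree_map, (g2_monic n).2]
  by_cases h0 : w 0 = 0
  · have h1 : w 1 ≠ 0 := fun h => hw (funext fun i => by fin_cases i <;> assumption)
    rw [h0, C_0, zero_mul, zero_add, natDegree_C_mul h1, d2]
    refine ⟨separable_X.of_dvd ⟨C (w 1)⁻¹ * X ^ (1 - n % 2), ?_⟩, by omega,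
      Nat.even_iff.2 (by omega)⟩
    rw [g2, up, Polynomial.map_pow, map_X, mul_mul_mul_comm, ← C_mul, mul_inv_cancel₀ h1, C_1,
      one_mul, ← pow_add, Nat.add_sub_cancel' (by omega), pow_one]
  · have dG : (C (w 0) * up ℚ (g1 n) + C (w 1) * up ℚ (g2 n)).natDegree = n - 2 := by
      rw [natDegree_add_eq_left_of_natDegree_lt, natDegree_C_mul h0, d1]
      rw [natDegree_C_mul h0, d1]
      exact lt_of_le_of_lt (natDegree_C_mul_le _ _) (by omega)
    refine ⟨?_, by omega, Nat.even_iff.2 (by omega)⟩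
    obtain ⟨hV, hv⟩ := wr_g hn
    have dV : (up ℚ (wr (g1 n) (g2 n))).natDegree = n - 3 + n % 2 := by
      rw [natDegree_map_eq_of_injective (RingHom.injective_int _), hv]
    have eV : derivative (C (w 0) * up ℚ (g1 n) + C (w 1) * up ℚ (g2 n)) * up ℚ (g2 n) -
        (C (w 0) * up ℚ (g1 n) + C (w 1) * up ℚ (g2 n)) * derivative (up ℚ (g2 n)) =
        C (w 0) * up ℚ (wr (g1 n) (g2 n)) := by
      simp only [wr, up, derivative_add, derivative_C_mul, Polynomial.map_sub, Polynomial.map_mul,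
        derivative_map]
      ring
    unfold Irr at hV
    generalize up ℚ (wr (g1 n) (g2 n)) = V at hV dV eV
    generalize C (w 0) * up ℚ (g1 n) + C (w 1) * up ℚ (g2 n) = G at dG eV ⊢
    have hG0 : G ≠ 0 := fun h => by
      rw [h, natDegree_zero] at dG
      omega
    refine isCoprime_of_irreducible_dvd (fun h => hG0 h.1) fun z hz z1 z2 => ?_
    have z3 : z ∣ C (w 0) * V := eV ▸ dvd_sub (z2.mul_right _) (z1.mul_right _)
    have z4 : V ∣ z :=
      (hz.associated_of_dvd hV (((isUnit_C.2 (IsUnit.mk0 _ h0)).dvd_mul_left).1 z3)).symm.dvd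
    obtain ⟨k, rfl⟩ := z4.trans z1
    have z5 : V ∣ derivative V * k := by
      have h := z4.trans z2
      rw [derivative_mul] at h
      exact (dvd_add_left (dvd_mul_right _ _)).1 h
    have z6 : V ∣ k := IsCoprime.dvd_of_dvd_mul_left hV.separable z5
    have hk : k ≠ 0 := right_ne_zero_of_mul hG0
    have z7 := natDegree_le_of_dvd z6 hk
    rw [natDegree_mul hV.ne_zero hk] at dG
    omega

theorem oddAt {n : ℕ} (hn : 5 ≤ n) (f₀ : ℤ[X]) (x : Fin 2 → ℤ) (hm : (mem n f₀ x).Monic)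
    (hd : (mem n f₀ x).natDegree = n) (hi : Irr (mem n f₀ x)) : OddAt (DD n f₀) x := by
  intro w hw
  obtain ⟨hs, hd2, hev⟩ := dir_sep hn w hw
  obtain ⟨G, hG⟩ : ∃ G, G = C (w 0) * up ℚ (g1 n) + C (w 1) * up ℚ (g2 n) := ⟨_, rfl⟩
  rw [← hG] at hs hd2 hev
  have hinj : Function.Injective (algebraMap ℚ ℂ) := (algebraMap ℚ ℂ).injective
  have dg : (G.map (algebraMap ℚ ℂ)).natDegree = G.natDegree :=
    natDegree_map_eq_of_injective hinj G
  have hq : ∀ p : ℤ[X], (up ℚ p).map (algebraMap ℚ ℂ) = up ℂ p := fun p => by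
    rw [up, up, Polynomial.map_map]
    exact congrArg (fun φ => p.map φ) (RingHom.ext_int _ _)
  have hC : ∀ p : ℤ[X], (up ℂ p).map C = up ℂ[X] p := fun p => by
    rw [up, up, Polynomial.map_map]
    exact congrArg (fun φ => p.map φ) (RingHom.ext_int _ _)
  have hl := deg_line (n := n) (up ℂ (mem n f₀ x)) (G.map (algebraMap ℚ ℂ)) (hm.map _)
    (by rw [hm.natDegree_map, hd]) ((Polynomial.map_ne_zero_iff hinj).2 hs.ne_zero)
    (by omega) (by
      intro z hz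
      rw [eval_map_algebraMap] at hz
      refine ⟨fun h0 => ?_, ?_⟩
      · rw [← hq, eval_map_algebraMap] at h0
        have h := natDegree_le_of_dvd (hi.dvd_of_root h0 hz) hs.ne_zero
        rw [hm.natDegree_map, hd] at h
        omega
      · rw [derivative_map, eval_map_algebraMap]
        exact hs.aeval_derivative_ne_zero hz)
  obtain ⟨ψ, hψ⟩ : ∃ ψ : Z2 →+* ℂ[X], ∀ A, ψ A =
      (onLine (fun i => (x i : ℚ)) w (toQ A)).map (algebraMap ℚ ℂ) :=
    ⟨(mapRingHom (algebraMap ℚ ℂ)).comp ((onLine (fun i => (x i : ℚ)) w).toRingHom.comp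
      (MvPolynomial.map (Int.castRingHom ℚ))), fun _ => rfl⟩
  have hX : ∀ i, ψ (MvPolynomial.X i) = C (x i : ℂ) + C (algebraMap ℚ ℂ (w i)) * X := fun i => by
    rw [hψ, toQ, MvPolynomial.map_X, onLine, MvPolynomial.aeval_X, Polynomial.map_add,
      Polynomial.map_mul, map_C, map_C, map_X, map_intCast]
  have e : (fam n f₀).map ψ =
      (up ℂ (mem n f₀ x)).map C + C X * (G.map (algebraMap ℚ ℂ)).map C := by
    have em : up ℂ (mem n f₀ x) =
        up ℂ f₀ + C (x 0 : ℂ) * up ℂ (g1 n) + C (x 1 : ℂ) * up ℂ (g2 n) := by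
      rw [mem, up, Polynomial.map_add, Polynomial.map_add, Polynomial.map_mul, Polynomial.map_mul,
        map_C, map_C]
      rfl
    rw [map_fam, hX, hX, em, hG]
    simp only [Polynomial.map_add, Polynomial.map_mul, map_C, hq, hC, C_add, C_mul]
    ring
  rw [← natDegree_map_eq_of_injective hinj, ← hψ, DD, ← Dv_map, e, hl, dg]
  obtain ⟨k, hk⟩ := hev
  exact ⟨k - 1, by omega⟩

end Pool.Agent.VW
end

-- part Pool.Agent.P.MP_b0ea37_nt.WSInd
section

namespace Pool.Agent.VW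

open Polynomial

theorem wsind_deg {K : Type} [Field K] {p q : K[X]} {a c D : ℕ} (hp : p.degree < a)
    (hq : q.natDegree ≤ c) (h : a + c ≤ D) : (p * q).degree < D := by
  by_cases hp0 : p = 0
  · rw [hp0, zero_mul, degree_zero]; exact WithBot.bot_lt_coe _
  by_cases hq0 : q = 0
  · rw [hq0, mul_zero, degree_zero]; exact WithBot.bot_lt_coe _
  have h1 : p.natDegree < a := (natDegree_lt_iff_degree_lt hp0).2 hp
  rw [← natDegree_lt_iff_degree_lt (mul_ne_zero hp0 hq0), natDegree_mul hp0 hq0]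
  omega

theorem wsind_pow {K : Type} [Field K] {S V : K[X]} {s v : ℕ} (hS : S.natDegree ≤ s)
    (hV : V.natDegree = v) (j k : ℕ) : (S ^ j * V ^ k).natDegree ≤ j * s + k * v := by
  refine natDegree_mul_le.trans (add_le_add ?_ ?_)
  · exact natDegree_pow_le.trans (Nat.mul_le_mul_left _ hS)
  · exact natDegree_pow_le.trans (Nat.mul_le_mul_left _ hV.le)

/-- independence on the rational curve -/
theorem ind_poly {K : Type} [Field K] (V S T : K[X]) (v b : ℕ) (hV : V ≠ 0) (hv : V.natDegree = v)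
    (hS : S.natDegree ≤ v + 2) (hT0 : T ≠ 0) (hT : T.natDegree = v + b) (hb : v + 4 ≤ 2 * b)
    (hc : IsCoprime V S) (u w : ℕ → K[X]) (hu : ∀ j, (u j).degree < v) (hw : ∀ j, (w j).degree < b)
    (J : ℕ) (h : ∑ j ∈ Finset.Icc 2 J, (u j * S ^ j + w j * T ^ j) * V ^ (J - j) = 0) :
    ∀ j ∈ Finset.Icc 2 J, u j = 0 ∧ w j = 0 := by
  induction J with
  | zero => intro j hj; simp at hj
  | succ J ih =>
    by_cases hJ : J + 1 < 2
    · intro j hj
      have := Finset.mem_Icc.1 hj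
      omega
    have hJ2 : 2 ≤ J + 1 := not_lt.1 hJ
    rw [Finset.sum_Icc_succ_top hJ2, Nat.sub_self, pow_zero, mul_one] at h
    have hA : ∀ j, j ≤ J + 1 →
        (u j * (S ^ j * V ^ (J + 1 - j))).degree < ((J + 1) * (v + b) : ℕ) := by
      intro j hj
      refine wsind_deg (hu j) (wsind_pow hS hv j _) ?_
      obtain ⟨k, hk⟩ := Nat.exists_eq_add_of_le hj
      obtain ⟨m, hm⟩ := Nat.exists_eq_add_of_le hJ2
      obtain ⟨b', rfl⟩ : ∃ b', b = b' + 2 := ⟨b - 2, by omega⟩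
      have e : J + 1 - j = k := by omega
      have h1 : 2 * b' ≤ (j + k) * b' := Nat.mul_le_mul_right _ (by omega)
      rw [e, hk]
      nlinarith
    have hB : ∀ j, j ≤ J →
        (w j * (T ^ j * V ^ (J + 1 - j))).degree < ((J + 1) * (v + b) : ℕ) := by
      intro j hj
      refine wsind_deg (hw j) (wsind_pow hT.le hv j _) ?_
      obtain ⟨k, hk⟩ := Nat.exists_eq_add_of_le hj
      have e : J + 1 - j = k + 1 := by omega
      rw [e, hk]
      nlinarith [Nat.zero_le (k * b)]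
    have hw0 : w (J + 1) = 0 := by
      by_contra hne
      have e : w (J + 1) * T ^ (J + 1) =
          -(∑ j ∈ Finset.Icc 2 J, (u j * S ^ j + w j * T ^ j) * V ^ (J + 1 - j) +
            u (J + 1) * S ^ (J + 1)) := by linear_combination h
      have hlt : (w (J + 1) * T ^ (J + 1)).degree < ((J + 1) * (v + b) : ℕ) := by
        rw [e, degree_neg]
        refine (degree_add_le _ _).trans_lt (max_lt ?_ ?_)
        · refine (degree_sum_le _ _).trans_lt ((Finset.sup_lt_iff (WithBot.bot_lt_coe _)).2 ?_)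
          intro j hj
          have hj' := (Finset.mem_Icc.1 hj).2
          rw [add_mul, mul_assoc, mul_assoc]
          exact (degree_add_le _ _).trans_lt (max_lt (hA j (by omega)) (hB j hj'))
        · have := hA (J + 1) le_rfl
          rwa [Nat.sub_self, pow_zero, mul_one] at this
      rw [← natDegree_lt_iff_degree_lt (mul_ne_zero hne (pow_ne_zero _ hT0)),
        natDegree_mul hne (pow_ne_zero _ hT0), natDegree_pow, hT] at hlt
      omega
    have hs : ∑ j ∈ Finset.Icc 2 J, (u j * S ^ j + w j * T ^ j) * V ^ (J + 1 - j) =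
        V * ∑ j ∈ Finset.Icc 2 J, (u j * S ^ j + w j * T ^ j) * V ^ (J - j) := by
      rw [Finset.mul_sum]
      refine Finset.sum_congr rfl fun j hj => ?_
      have hj' := (Finset.mem_Icc.1 hj).2
      have e : J + 1 - j = J - j + 1 := by omega
      rw [e, pow_succ]
      ring
    rw [hs, hw0, zero_mul, add_zero] at h
    have hu0 : u (J + 1) = 0 := by
      have hd : V ∣ u (J + 1) * S ^ (J + 1) :=
        ⟨-∑ j ∈ Finset.Icc 2 J, (u j * S ^ j + w j * T ^ j) * V ^ (J - j), by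
          linear_combination h⟩
      refine eq_zero_of_dvd_of_degree_lt (hc.pow_right.dvd_of_dvd_mul_right hd) ?_
      rw [degree_eq_natDegree hV, hv]
      exact hu _
    rw [hu0, zero_mul, add_zero] at h
    have ih' := ih ((mul_eq_zero.1 h).resolve_left hV)
    intro j hj
    rcases Nat.lt_or_ge j (J + 1) with hlt | hge
    · exact ih' j (Finset.mem_Icc.2 ⟨(Finset.mem_Icc.1 hj).1, by omega⟩)
    · have e : j = J + 1 := le_antisymm (Finset.mem_Icc.1 hj).2 hge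
      rw [e]
      exact ⟨hu0, hw0⟩

/-- clearing denominators -/
theorem homog (V S T : ℂ[X]) (p : Z2) : ∃ (N : ℕ) (P : ℂ[X]), ∀ r : ℂ, V.eval r ≠ 0 →
    MvPolynomial.eval₂ (Int.castRingHom ℂ) ![S.eval r / V.eval r, T.eval r / V.eval r] p *
      V.eval r ^ N = P.eval r := by
  induction p using MvPolynomial.induction_on with
  | C a => exact ⟨0, C (a : ℂ), fun r _ => by
      rw [MvPolynomial.eval₂_C, pow_zero, mul_one, eval_C, eq_intCast]⟩
  | add p q hp hq =>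
    obtain ⟨N, P, hP⟩ := hp
    obtain ⟨M, Q, hQ⟩ := hq
    refine ⟨N + M, P * V ^ M + Q * V ^ N, fun r hr => ?_⟩
    rw [MvPolynomial.eval₂_add, eval_add, eval_mul, eval_mul, eval_pow, eval_pow, ← hP r hr,
      ← hQ r hr]
    ring
  | mul_X p i hp =>
    obtain ⟨N, P, hP⟩ := hp
    refine ⟨N + 1, P * ![S, T] i, fun r hr => ?_⟩
    rw [MvPolynomial.eval₂_mul, MvPolynomial.eval₂_X, eval_mul, ← hP r hr]
    have e : ![S.eval r / V.eval r, T.eval r / V.eval r] i * V.eval r = (![S, T] i).eval r := by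
      fin_cases i
      · exact div_mul_cancel₀ _ hr
      · exact div_mul_cancel₀ _ hr
    rw [← e]
    ring

/-- members of a plane with a double root -/
theorem double_iff {K : Type} [Field K] (f a b : K[X]) (r s t : K) (hV : (wr a b).eval r ≠ 0) :
    ((f + C s * a + C t * b).eval r = 0 ∧ (derivative (f + C s * a + C t * b)).eval r = 0) ↔
      (s = (wr b f).eval r / (wr a b).eval r ∧ t = (wr f a).eval r / (wr a b).eval r) := by
  rw [eq_div_iff hV, eq_div_iff hV]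
  simp only [wr, derivative_add, derivative_mul, derivative_C, zero_mul, zero_add, eval_add,
    eval_mul, eval_sub, eval_C] at hV ⊢
  constructor
  · rintro ⟨h, h'⟩
    exact ⟨by linear_combination (eval r b) * h' - (eval r (derivative b)) * h,
      by linear_combination (eval r (derivative a)) * h - (eval r a) * h'⟩
  · rintro ⟨h, h'⟩
    exact ⟨mul_left_cancel₀ hV (by linear_combination (eval r a) * h + (eval r b) * h'),
      mul_left_cancel₀ hV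
        (by linear_combination (eval r (derivative a)) * h + (eval r (derivative b)) * h')⟩

theorem double_wr {K : Type} [Field K] (f a b : K[X]) (r s t : K)
    (h : (f + C s * a + C t * b).eval r = 0) (h' : (derivative (f + C s * a + C t * b)).eval r = 0) :
    s * (wr a b).eval r = (wr b f).eval r := by
  simp only [wr, derivative_add, derivative_mul, derivative_C, zero_mul, zero_add, eval_add,
    eval_mul, eval_sub, eval_C] at h h' ⊢
  linear_combination (eval r b) * h' - (eval r (derivative b)) * h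

end Pool.Agent.VW
end

-- part Pool.Agent.P.MP_b0ea37_nt.WSCurve
section

namespace Pool.Agent.VW

open Polynomial

theorem WSCurve_wr_map {R S : Type} [CommRing R] [CommRing S] (φ : R →+* S) (a b : R[X]) :
    (wr a b).map φ = wr (a.map φ) (b.map φ) := by
  simp [wr, Polynomial.map_sub, Polynomial.map_mul, derivative_map]

theorem WSCurve_up_up (f : ℤ[X]) : (up ℚ f).map (algebraMap ℚ ℂ) = up ℂ f := by
  rw [Polynomial.map_map, RingHom.ext_int ((algebraMap ℚ ℂ).comp _) (Int.castRingHom ℂ)]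

theorem WSCurve_up_mem {R : Type} [CommRing R] (n : ℕ) (f₀ : ℤ[X]) (x : Fin 2 → ℤ) :
    up R (mem n f₀ x) = up R f₀ + C (x 0 : R) * up R (g1 n) + C (x 1 : R) * up R (g2 n) := by
  simp [mem, Polynomial.map_add, Polynomial.map_mul]

/-- adding lower terms keeps monic polynomials monic -/
theorem WSCurve_monic_add {R : Type} [CommRing R] [Nontrivial R] {n : ℕ} (F A B : R[X]) (s t : R)
    (hF : F.Monic) (hd : F.natDegree = n) (hA : A.natDegree < n) (hB : B.natDegree < n) :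
    (F + C s * A + C t * B).Monic ∧ (F + C s * A + C t * B).natDegree = n := by
  have h1 : (C s * A + C t * B).natDegree < F.natDegree := by
    rw [hd]
    refine lt_of_le_of_lt (natDegree_add_le _ _) (max_lt ?_ ?_)
    · exact lt_of_le_of_lt (natDegree_C_mul_le _ _) hA
    · exact lt_of_le_of_lt (natDegree_C_mul_le _ _) hB
  rw [add_assoc]
  exact ⟨hF.add_of_left (degree_lt_degree h1), by rw [natDegree_add_eq_left_of_natDegree_lt h1, hd]⟩

theorem WSCurve_base {n : ℕ} (hn : 5 ≤ n) (f₀ : ℤ[X]) (x : Fin 2 → ℤ) (hm : (mem n f₀ x).Monic)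
    (hd : (mem n f₀ x).natDegree = n) : f₀.Monic ∧ f₀.natDegree = n := by
  have h1 := (g1_monic hn).2
  have h2 := (g2_monic n).2
  have h := WSCurve_monic_add (mem n f₀ x) (g1 n) (g2 n) (-x 0) (-x 1) hm hd (by omega) (by omega)
  have e : mem n f₀ x + C (-x 0) * g1 n + C (-x 1) * g2 n = f₀ := by
    simp only [mem, map_neg]
    ring
  rwa [e] at h

theorem WSCurve_deg_le {K : Type} [Field K] (a b : K[X]) (p q : ℕ) (ha : a.natDegree = p)
    (hb : b.natDegree = q) (hq : 1 ≤ q) : (wr a b).natDegree ≤ p + q - 1 := by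
  unfold wr
  refine le_trans (natDegree_sub_le _ _) (max_le ?_ ?_)
  · rcases Nat.eq_zero_or_pos p with h | h
    · have : derivative a = 0 := by
        rw [eq_C_of_natDegree_eq_zero (ha.trans h)]
        simp
      simp [this]
    · refine le_trans natDegree_mul_le ?_
      have := natDegree_derivative_le a
      omega
  · refine le_trans natDegree_mul_le ?_
    have := natDegree_derivative_le b
    omega

theorem WSCurve_deg_eq {K : Type} [Field K] [CharZero K] (a b : K[X]) (q : ℕ) (ha : a.Monic)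
    (hb : b.Monic) (hp : a.natDegree = q + 3) (hq : b.natDegree = q + 1) :
    wr a b ≠ 0 ∧ (wr a b).natDegree = 2 * q + 3 := by
  have hle := WSCurve_deg_le a b (q + 3) (q + 1) hp hq (by omega)
  have ca : a.coeff (q + 3) = 1 := by rw [← hp]; exact ha.coeff_natDegree
  have cb : b.coeff (q + 1) = 1 := by rw [← hq]; exact hb.coeff_natDegree
  have da : (derivative a).natDegree ≤ q + 2 := by
    have := natDegree_derivative_le a
    omega
  have db : (derivative b).natDegree ≤ q := by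
    have := natDegree_derivative_le b
    omega
  have e1 : (derivative a * b).coeff (2 * q + 3) = (q : K) + 3 := by
    have := coeff_mul_add_eq_of_natDegree_le da hq.le
    rw [show q + 2 + (q + 1) = 2 * q + 3 by ring] at this
    rw [this, coeff_derivative, ca, cb]
    push_cast
    ring
  have e2 : (a * derivative b).coeff (2 * q + 3) = (q : K) + 1 := by
    have := coeff_mul_add_eq_of_natDegree_le hp.le db
    rw [show q + 3 + q = 2 * q + 3 by ring] at this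
    rw [this, coeff_derivative, ca, cb]
    ring
  have e : (wr a b).coeff (2 * q + 3) ≠ 0 := by
    rw [wr, coeff_sub, e1, e2]
    norm_num
  refine ⟨fun h => e (by simp [h]), le_antisymm (by omega) (le_natDegree_of_ne_zero e)⟩

/-- the values at a monic polynomial with a double root -/
theorem WSCurve_double {n : ℕ} (M : ℂ[X]) (hM : M.Monic) (hd : M.natDegree = n) (r : ℂ)
    (h : M.eval r = 0) (h' : (derivative M).eval r = 0) (k : ℕ) :
    Phi n k M = r ^ k * Phi n 0 M := by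
  have hr : 1 < rootMultiplicity r M := (one_lt_rootMultiplicity_iff_isRoot hM.ne_zero).2 ⟨h, h'⟩
  obtain ⟨G, hG⟩ := (le_rootMultiplicity_iff hM.ne_zero).1 (show 2 ≤ rootMultiplicity r M from hr)
  have hq : ((X - C r) ^ 2 : ℂ[X]).Monic := (monic_X_sub_C r).pow 2
  have hGm : G.Monic := hq.of_mul_monic_left (hG ▸ hM)
  have hGd : G.natDegree + 2 = n := by
    rw [← hd, hG, hq.natDegree_mul hGm, natDegree_pow, natDegree_X_sub_C]
    omega
  rw [hG, ← hGd, Phi_double k r G hGm rfl, Phi_double 0 r G hGm rfl]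
  ring

/-- evaluation at a complex point of the plane -/
theorem WSCurve_ev (n k : ℕ) (f₀ : ℤ[X]) (s t : ℂ) :
    MvPolynomial.eval₂ (Int.castRingHom ℂ) ![s, t] (DD n f₀) =
      Dv n (up ℂ f₀ + C s * up ℂ (g1 n) + C t * up ℂ (g2 n)) ∧
    MvPolynomial.eval₂ (Int.castRingHom ℂ) ![s, t] (PP n k f₀) =
      Phi n k (up ℂ f₀ + C s * up ℂ (g1 n) + C t * up ℂ (g2 n)) := by
  have h := map_fam n f₀ (MvPolynomial.eval₂Hom (Int.castRingHom ℂ) ![s, t])
  simp only [MvPolynomial.eval₂Hom_X', Matrix.cons_val_zero, Matrix.cons_val_one] at h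
  rw [← h, Dv_map, Phi_map]
  exact ⟨rfl, rfl⟩

theorem WSCurve_ev_toQ (p : Fin 2 → ℂ) (A : Z2) :
    MvPolynomial.eval₂Hom (algebraMap ℚ ℂ) p (toQ A) =
      MvPolynomial.eval₂ (Int.castRingHom ℂ) p A := by
  rw [MvPolynomial.coe_eval₂Hom, MvPolynomial.eval₂_map,
    RingHom.ext_int ((algebraMap ℚ ℂ).comp _) (Int.castRingHom ℂ)]

theorem WSCurve_deg_sum {N : ℕ} (c : Fin N → ℂ) (e : Fin N → ℕ) (P : Fin N → Prop) [DecidablePred P]
    (d : ℕ) (h : ∀ i, P i → e i < d) :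
    (∑ i, if P i then monomial (e i) (c i) else 0 : ℂ[X]).degree < d := by
  refine lt_of_le_of_lt (degree_sum_le _ _) ?_
  refine (Finset.sup_lt_iff (WithBot.bot_lt_coe d)).2 fun i _ => ?_
  split_ifs with hi
  · exact lt_of_le_of_lt (degree_monomial_le _ _) (WithBot.coe_lt_coe.2 (h i hi))
  · exact WithBot.bot_lt_coe d

theorem WSCurve_coeff_sum {N : ℕ} (c : Fin N → ℂ) (e : Fin N → ℕ) (P : Fin N → Prop)
    [DecidablePred P] (h : ∀ i j, P i → P j → e i = e j → i = j)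
    (h0 : (∑ i, if P i then monomial (e i) (c i) else 0 : ℂ[X]) = 0) (i : Fin N) (hi : P i) :
    c i = 0 := by
  have := congrArg (fun p : ℂ[X] => p.coeff (e i)) h0
  simp only [finsetSum_coeff, coeff_zero] at this
  rw [Finset.sum_eq_single i] at this
  · simpa [hi] using this
  · intro j _ hj
    split_ifs with hP
    · rw [coeff_monomial, if_neg fun e' => hj (h j i hP hi e')]
    · simp
  · simp

theorem ind_plane {n : ℕ} (hn : 5 ≤ n) (f₀ : ℤ[X]) (x : Fin 2 → ℤ) (hm : (mem n f₀ x).Monic)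
    (hd : (mem n f₀ x).natDegree = n) (hi : Irr (mem n f₀ x)) (hp : Prim (mem n f₀ x))
    (hV : ¬ up ℚ (wr (g1 n) (g2 n)) ∣ up ℚ (wr (g2 n) (mem n f₀ x))) :
    Ind (DD n f₀) (PP n 0 f₀) (vv n) fun i => PP n (ix n i) f₀ := by
  obtain ⟨hf, hfd⟩ := WSCurve_base hn f₀ x hm hd
  obtain ⟨h1m, h1d⟩ := g1_monic hn
  obtain ⟨h2m, h2d⟩ := g2_monic n
  obtain ⟨hVi, hVd⟩ := wr_g hn
  have inj : Function.Injective (Int.castRingHom ℂ) := Int.cast_injective
  set F := up ℂ f₀ with hF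
  set A := up ℂ (g1 n) with hA
  set B := up ℂ (g2 n) with hB
  have hFm : F.Monic := hf.map _
  have hAm : A.Monic := h1m.map _
  have hFd : F.natDegree = n := by rw [hF, natDegree_map_eq_of_injective inj, hfd]
  have hAd : A.natDegree = n - 2 := by rw [hA, natDegree_map_eq_of_injective inj, h1d]
  have hBd : B.natDegree = n % 2 := by rw [hB, natDegree_map_eq_of_injective inj, h2d]
  have hVv : (wr A B).natDegree = n - 3 + n % 2 := by
    rw [hA, hB, ← WSCurve_wr_map, natDegree_map_eq_of_injective inj, hVd]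
  have hV0 : wr A B ≠ 0 := by
    intro h
    rw [h, natDegree_zero] at hVv
    omega
  have hc : IsCoprime (wr A B) (wr B F) := by
    have h1 : ¬ up ℚ (wr (g1 n) (g2 n)) ∣ up ℚ (wr (g2 n) f₀) := by
      intro h
      apply hV
      have e : wr (g2 n) (mem n f₀ x) = wr (g2 n) f₀ - C (x 0) * wr (g1 n) (g2 n) := by
        simp only [wr, mem, derivative_add, derivative_mul, derivative_C]
        ring
      rw [e]
      simp only [up, Polynomial.map_sub, Polynomial.map_mul]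
      exact dvd_sub h (Dvd.intro_left _ rfl)
    have h2 := ((Irreducible.coprime_iff_not_dvd hVi).2 h1).map
      (Polynomial.mapRingHom (algebraMap ℚ ℂ))
    simp only [coe_mapRingHom, WSCurve_up_up] at h2
    rwa [up, up, WSCurve_wr_map, WSCurve_wr_map] at h2
  have hS : (wr B F).natDegree ≤ n - 3 + n % 2 + 2 := by
    have := WSCurve_deg_le B F _ _ hBd hFd (by omega)
    omega
  obtain ⟨hT0, hT⟩ := WSCurve_deg_eq F A (n - 3) hFm hAm (by omega) (by omega)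
  have hmon : ∀ s t : ℂ, (F + C s * A + C t * B).Monic ∧ (F + C s * A + C t * B).natDegree = n :=
    fun s t => WSCurve_monic_add F A B s t hFm hFd (by omega) (by omega)
  obtain ⟨N, Ph, hPh⟩ := homog (wr A B) (wr B F) (wr F A) (PP n 0 f₀)
  have hPh0 : Ph ≠ 0 := by
    obtain ⟨K, hK⟩ := exists_good n hn
    obtain ⟨c, -, τ, hD, hP⟩ := hK (mem n f₀ x) (g1 n) (g2 n) hm hd hi hp (by omega) (by omega)
      (g_indep hn)
    have e : up ℂ (mem n f₀ x) + C τ * up ℂ (g1 n + C (c : ℤ) * g2 n) =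
        F + C ((x 0 : ℂ) + τ) * A + C ((x 1 : ℂ) + τ * c) * B := by
      rw [WSCurve_up_mem, up, up, up, up, Polynomial.map_add, Polynomial.map_mul, map_C]
      simp only [map_add, map_mul, map_natCast]
      ring
    rw [e] at hD hP
    obtain ⟨r, hr, hr'⟩ := (Dv_eq_zero_iff_double _ (hmon _ _).1 (hmon _ _).2).1 hD
    have hVr : (wr A B).eval r ≠ 0 := by
      intro h
      have h3 := double_wr F A B r _ _ hr hr'
      rw [h, mul_zero] at h3
      obtain ⟨a, b, hab⟩ := hc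
      have := congrArg (eval r) hab
      simp [h, ← h3] at this
    obtain ⟨hs, ht⟩ := (double_iff F A B r _ _ hVr).1 ⟨hr, hr'⟩
    intro h
    have h4 := hPh r hVr
    rw [← hs, ← ht, (WSCurve_ev n 0 f₀ _ _).2, h, eval_zero] at h4
    exact mul_ne_zero hP (pow_ne_zero _ hVr) h4
  intro k J u hdvd
  set v := n - 3 + n % 2 with hv
  let uu : ℕ → ℂ[X] := fun j => ∑ i : Fin (2 * (n - 3) + 3),
    if (i : ℕ) < v then monomial (ix n i) (u j i : ℂ) else 0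
  let ww : ℕ → ℂ[X] := fun j => ∑ i : Fin (2 * (n - 3) + 3),
    if ¬ (i : ℕ) < v then monomial (ix n i) (u j i : ℂ) else 0
  have hR : ∑ j ∈ Finset.Icc 2 J, (uu j * wr B F ^ j + ww j * wr F A ^ j) * wr A B ^ (J - j) = 0 := by
    have key : (∑ j ∈ Finset.Icc 2 J, (uu j * wr B F ^ j + ww j * wr F A ^ j) * wr A B ^ (J - j)) *
        (Ph * wr A B) = 0 := by
      apply Polynomial.funext
      intro r
      rw [eval_mul, eval_mul, eval_zero]
      by_cases hVr : (wr A B).eval r = 0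
      · simp [hVr]
      by_cases hPr : Ph.eval r = 0
      · simp [hPr]
      set s := (wr B F).eval r / (wr A B).eval r with hs
      set t := (wr F A).eval r / (wr A B).eval r with ht
      obtain ⟨hr, hr'⟩ := (double_iff F A B r s t hVr).2 ⟨hs, ht⟩
      have hD : Dv n (F + C s * A + C t * B) = 0 :=
        (Dv_eq_zero_iff_double _ (hmon _ _).1 (hmon _ _).2).2 ⟨r, hr, hr'⟩
      have hP : Phi n 0 (F + C s * A + C t * B) ≠ 0 := by
        intro h
        have h4 := hPh r hVr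
        rw [(WSCurve_ev n 0 f₀ _ _).2, h, zero_mul] at h4
        exact hPr h4.symm
      have h5 := map_dvd (MvPolynomial.eval₂Hom (algebraMap ℚ ℂ) ![s, t]) hdvd
      simp only [map_mul, map_pow, map_sum, WSCurve_ev_toQ, MvPolynomial.eval₂Hom_C,
        MvPolynomial.eval₂Hom_X'] at h5
      rw [(WSCurve_ev n 0 f₀ s t).1, (WSCurve_ev n 0 f₀ s t).2, hD, zero_dvd_iff] at h5
      have h6 := (mul_eq_zero.1 h5).resolve_left (pow_ne_zero _ hP)
      have h7 : ∀ i, MvPolynomial.eval₂ (Int.castRingHom ℂ) ![s, t] (PP n (ix n i) f₀) =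
          r ^ ix n i * Phi n 0 (F + C s * A + C t * B) := fun i => by
        rw [(WSCurve_ev n _ f₀ s t).2]
        exact WSCurve_double _ (hmon _ _).1 (hmon _ _).2 r hr hr' _
      simp only [h7] at h6
      have h8 : eval r (∑ j ∈ Finset.Icc 2 J,
          (uu j * wr B F ^ j + ww j * wr F A ^ j) * wr A B ^ (J - j)) *
          Phi n 0 (F + C s * A + C t * B) = (wr A B).eval r ^ J * 0 := by
        rw [← h6, eval_finsetSum, Finset.sum_mul, Finset.mul_sum]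
        refine Finset.sum_congr rfl fun j hj => ?_
        have hjJ : j ≤ J := (Finset.mem_Icc.1 hj).2
        have eS : (wr B F).eval r = s * (wr A B).eval r := by rw [hs, div_mul_cancel₀ _ hVr]
        have eT : (wr F A).eval r = t * (wr A B).eval r := by rw [ht, div_mul_cancel₀ _ hVr]
        have eJ : (wr A B).eval r ^ J = (wr A B).eval r ^ j * (wr A B).eval r ^ (J - j) := by
          rw [← pow_add, Nat.add_sub_cancel' hjJ]
        simp only [uu, ww, eval_mul, eval_add, eval_pow, eval_finsetSum, eS, eT, eJ, Finset.sum_mul,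
          Finset.mul_sum, ← Finset.sum_add_distrib]
        refine Finset.sum_congr rfl fun i _ => ?_
        by_cases hi : (i : ℕ) < v
        · have : vv n i = 0 := if_pos hi
          simp only [hi, this, if_true, not_true, if_false, eval_monomial, eval_zero,
            Matrix.cons_val_zero, eq_ratCast]
          ring
        · have : vv n i = 1 := if_neg hi
          simp only [hi, this, if_true, not_false_eq_true, if_false, eval_monomial, eval_zero,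
            Matrix.cons_val_one, Matrix.cons_val_zero, eq_ratCast]
          ring
      rw [mul_zero] at h8
      rw [(mul_eq_zero.1 h8).resolve_right hP, zero_mul]
    exact (mul_eq_zero.1 key).resolve_right (mul_ne_zero hPh0 hV0)
  have hu : ∀ j, (uu j).degree < v := fun j =>
    WSCurve_deg_sum _ _ _ _ fun i hi => by rw [ix, if_pos hi]; exact hi
  have hw : ∀ j, (ww j).degree < (n - n % 2 : ℕ) := fun j =>
    WSCurve_deg_sum _ _ _ _ fun i hi => by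
      have := i.2
      rw [ix, if_neg hi]
      omega
  have hz := ind_poly (wr A B) (wr B F) (wr F A) v (n - n % 2) hV0 hVv hS hT0 (by omega) (by omega)
    hc uu ww hu hw J hR
  intro j hj i
  have : ((u j i : ℚ) : ℂ) = 0 := by
    by_cases hi : (i : ℕ) < v
    · refine WSCurve_coeff_sum (fun i => (u j i : ℂ)) (ix n) (fun i => (i : ℕ) < v) ?_ (hz j hj).1 i hi
      intro a b ha hb e
      rw [ix, ix, if_pos ha, if_pos hb] at e
      exact Fin.ext e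
    · refine WSCurve_coeff_sum (fun i => (u j i : ℂ)) (ix n) (fun i => ¬ (i : ℕ) < v) ?_
        (hz j hj).2 i hi
      intro a b ha hb e
      rw [ix, ix, if_neg ha, if_neg hb] at e
      exact Fin.ext (by omega)
  exact_mod_cast this

end Pool.Agent.VW
end

-- part Pool.Agent.P.MP_b0ea37_nt.WStr
section

namespace Pool.Agent.VW

open Polynomial

theorem Aux.mono {D : Z2} {T : Pt → Prop} {R : ℝ} {E E' : ℕ} (h : Aux D T R E) (hE : E ≤ E') :
    Aux D T R E' := fun M z₀ h1 h2 => (h M z₀ h1 h2).imp fun _ g => ⟨g.1, g.2.1.trans hE, g.2.2⟩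

/-- points of one plane with a given cofactor -/
theorem str_plane (n : ℕ) (hn : 5 ≤ n) : ∃ η γ C H₀ : ℝ, 0 < η ∧ 0 < γ ∧ 0 ≤ C ∧ ∀ H : ℝ, H₀ ≤ H →
    ∀ (f₀ : ℤ[X]) (q : ℤ), Cnt (fun f : ℤ[X] => f₀ = base n f ∧ Box n H f ∧ Bad n f ∧
      ¬ up ℚ (wr (g1 n) (g2 n)) ∣ up ℚ (wr (g2 n) f) ∧ ∃ y : ℤ, Dv n f = q * y ^ 2 ∧
        H ^ ((n : ℝ) - 1 - η) ≤ |(y : ℝ)| ∧ ∀ k : ℕ, y ∣ Phi n k f) (C * H ^ (1 - γ)) := by
  obtain ⟨E, hE⟩ := deg_DD_PP n
  obtain ⟨r, E', η, H1, hη, hs⟩ := surf (n - 3) E (2 * n) (by omega)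
  obtain ⟨C, H2, hC, hch⟩ := chain (max E E') (2 * n) r
  obtain ⟨C1, hC1, hDv⟩ := abs_Dv_le n
  obtain ⟨C2, hC2, hPhi⟩ := abs_Phi_le n
  obtain ⟨H3, hH3, h3⟩ := exists_pow_ge (max C1 C2) (min 1 (η / 2)) (by positivity)
  refine ⟨η / 2, 1 / (2 * (r : ℝ) + 3), C, max H1 (max H2 H3), by positivity, by positivity, hC,
    fun H hH f₀ q => ?_⟩
  simp only [max_le_iff] at hH
  have hH1 : 1 ≤ H := hH3.trans hH.2.2
  have hH0 : 0 < H := by linarith
  have k1 := h3 H hH.2.2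
  have k2 : max C1 C2 ≤ H := k1.trans ((Real.rpow_le_rpow_of_exponent_le hH1
    (min_le_left _ _)).trans (Real.rpow_one H).le)
  have k3 : max C1 C2 ≤ H ^ (η / 2) :=
    k1.trans (Real.rpow_le_rpow_of_exponent_le hH1 (min_le_right _ _))
  rw [max_le_iff] at k2 k3
  have hm : ((n - 3 : ℕ) : ℝ) = n - 3 := by rw [Nat.cast_sub (by omega)]; norm_num
  refine Cnt.of_mem (by positivity) fun f₁ hf₁ => ?_
  obtain ⟨e₁, -, b₁, v₁, -⟩ := hf₁
  have e₂ : mem n f₀ (crd n f₁) = f₁ := by rw [e₁, mem_base]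
  have hind := ind_plane hn f₀ (crd n f₁) (e₂.symm ▸ b₁.1) (e₂.symm ▸ b₁.2.1)
    (e₂.symm ▸ b₁.2.2.1) (e₂.symm ▸ b₁.2.2.2.1) (e₂.symm ▸ v₁)
  let T : Pt → Prop := fun z => (∀ i, |(z.1 i : ℝ)| ≤ H) ∧ Box n H (mem n f₀ z.1) ∧
    Bad n (mem n f₀ z.1) ∧ Dv n (mem n f₀ z.1) = q * z.2 ^ 2 ∧
      H ^ ((n : ℝ) - 1 - η / 2) ≤ |(z.2 : ℝ)| ∧ ∀ k : ℕ, z.2 ∣ Phi n k (mem n f₀ z.1)
  have hD : ∀ z, T z → |((Dv n (mem n f₀ z.1) : ℤ) : ℝ)| ≤ C1 * H ^ (2 * n - 2) := fun z hz =>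
    (hDv _ hz.2.1.1 hz.2.1.2.1).trans (by
      have := hz.2.1.2.2.2
      have := supNorm_nonneg (mem n f₀ z.1)
      gcongr)
  have hOn : ∀ z, T z → On (DD n f₀) q H (2 * n) z := fun z hz => by
    refine ⟨hz.1, ?_, ?_, ?_, oddAt hn f₀ z.1 hz.2.1.1 hz.2.1.2.1 hz.2.2.1.2.2.1⟩ <;> rw [evz_DD]
    · exact hz.2.2.2.1
    · exact hz.2.2.1.2.2.1.Dv_ne_zero hz.2.1.1 hz.2.1.2.1
    · refine (hD z hz).trans ?_
      calc _ ≤ H ^ 2 * H ^ (2 * n - 2) := by gcongr; nlinarith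
        _ = _ := by rw [← pow_add]; congr 1; omega
  have hQ : ∀ z, T z → ∀ k ≤ 2 * n - 4,
      Quo (H ^ (((n - 3 : ℕ) : ℝ) + η)) z.2 (evz z.1 (PP n k f₀)) := fun z hz k hk => by
    obtain ⟨c, hc⟩ := hz.2.2.2.2.2 k
    refine ⟨c, by rw [evz_PP, hc], ?_⟩
    have h1 : |((Phi n k (mem n f₀ z.1) : ℤ) : ℝ)| ≤ H ^ (η / 2) * H ^ (2 * n - 4) :=
      (hPhi k hk _ hz.2.1.1 hz.2.1.2.1).trans (by
        have := hz.2.1.2.2.2
        have := supNorm_nonneg (mem n f₀ z.1)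
        have := k3.2
        gcongr)
    rw [hc, Int.cast_mul, abs_mul] at h1
    have h2 : H ^ (η / 2) * H ^ (2 * n - 4)
        = H ^ ((n : ℝ) - 1 - η / 2) * H ^ (((n - 3 : ℕ) : ℝ) + η) := by
      rw [← Real.rpow_natCast, ← Real.rpow_add hH0, ← Real.rpow_add hH0, hm,
        Nat.cast_sub (by omega)]
      congr 1; push_cast; ring
    have h4 : 0 < H ^ ((n : ℝ) - 1 - η / 2) := by positivity
    refine le_of_mul_le_mul_left ?_ h4
    rw [← h2]
    exact (mul_le_mul_of_nonneg_right hz.2.2.2.2.1 (abs_nonneg _)).trans h1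
  have hy : ∀ z, T z → |(z.2 : ℝ)| ≤ H ^ (((n - 3 : ℕ) : ℝ) + 2 + η) := fun z hz => by
    have h1 := hD z hz
    have hq : q ≠ 0 := fun h0 => (hOn z hz).2.2.1 (by rw [(hOn z hz).2.1, h0, zero_mul])
    have h2 : (1 : ℝ) ≤ |(q : ℝ)| := by exact_mod_cast Int.one_le_abs hq
    rw [hz.2.2.2.1, Int.cast_mul, Int.cast_pow, abs_mul, abs_pow] at h1
    refine (pow_le_pow_iff_left₀ (abs_nonneg _) (by positivity) two_ne_zero).1 ?_
    have h5 : (H ^ (((n - 3 : ℕ) : ℝ) + 2 + η)) ^ 2 = H ^ (2 * η) * H ^ (2 * n - 2) := by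
      rw [← Real.rpow_natCast, ← Real.rpow_mul hH0.le, ← Real.rpow_natCast H (2 * n - 2),
        ← Real.rpow_add hH0, hm, Nat.cast_sub (by omega)]
      congr 1; push_cast; ring
    have h6 : C1 ≤ H ^ (2 * η) := k3.1.trans (Real.rpow_le_rpow_of_exponent_le hH1 (by linarith))
    rw [h5]
    calc _ ≤ |(q : ℝ)| * |(z.2 : ℝ)| ^ 2 := le_mul_of_one_le_left (by positivity) h2
      _ ≤ _ := h1.trans (by gcongr)
  have hix : ∀ i, ix n i ≤ n - 1 := fun i => by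
    have := i.2
    unfold ix
    split_ifs <;> omega
  have hA := hs H hH.1 (DD n f₀) (PP n 0 f₀) (vv n) (fun i => PP n (ix n i) f₀) q T (hE f₀).1
    ((hE f₀).2 0 (by omega)) (fun i => (hE f₀).2 _ ((hix i).trans (by omega))) hind
    fun z hz => ⟨hOn z hz, hy z hz, hQ z hz 0 (by omega),
      fun i => hQ z hz _ ((hix i).trans (by omega))⟩
  refine ((hch H hH.2.1 (DD n f₀) q T ((hE f₀).1.trans (le_max_left _ _)) hOn
    (hA.mono (le_max_right _ _))).image fun z => mem n f₀ z.1).mono (fun f hf => ?_) le_rfl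
  obtain ⟨e, hb, hbad, -, y, h1, h2, h3⟩ := hf
  have e' : mem n f₀ (crd n f) = f := by rw [e, mem_base]
  refine ⟨(crd n f, y), ⟨fun i => ?_, ?_⟩, e'⟩
  · have h4 : ∀ k, |((f.coeff k : ℤ) : ℝ)| ≤ H := fun k => by
      simpa [Int.norm_eq_abs] using sup_le_iff.1 hb.2.2.2 k
    fin_cases i <;> exact h4 _
  · rw [e']
    exact ⟨hb, hbad, h1, h2, h3⟩

/-- PLANE, SURF, CLASS1, CHAIN -/
theorem ps_core (n : ℕ) (hn : 5 ≤ n) : ∃ η : ℝ, 0 < η ∧
    PS n fun H f => Bad n f ∧ Core n η H f := by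
  obtain ⟨η, γ, C, H1, hη, hγ, hC, hpl⟩ := str_plane n hn
  obtain ⟨C1, hC1, hb⟩ := cnt_base n hn
  refine ⟨min η (γ / 2), by positivity, ?_⟩
  have hn' : (5 : ℝ) ≤ n := by exact_mod_cast hn
  have p1 : PS n fun _ f => up ℚ (wr (g1 n) (g2 n)) ∣ up ℚ (wr (g2 n) f) :=
    PS.of_lt 3 27 1 (by linarith) fun H hH => (cnt_special n hn H (by linarith)).mono
      (fun f hf => ⟨hf.1.1, hf.1.2.1, hf.1.2.2.2, hf.2⟩) (by
        rw [show (3 : ℝ) = (3 : ℕ) by norm_num, Real.rpow_natCast]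
        calc _ ≤ (3 * H) ^ 3 := by gcongr; linarith
          _ = _ := by ring)
  have p2 : PS n fun H f => Bad n f ∧ Core n (min η (γ / 2)) H f ∧
      ¬ up ℚ (wr (g1 n) (g2 n)) ∣ up ℚ (wr (g2 n) f) := by
    refine PS.of_lt ((n : ℝ) - 1 - γ / 2) (C1 * 3 * C) (max 1 H1) (by linarith) fun H hH => ?_
    rw [max_le_iff] at hH
    have hH0 : 0 < H := by linarith
    have h1 : 1 ≤ H ^ (γ / 2) := Real.one_le_rpow hH.1 (by positivity)
    refine (Cnt.fibre ((hb H hH.1).prod (by positivity) fun _ _ =>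
      cnt_int_abs (H ^ (γ / 2)) (by positivity)) (by positivity)
      fun p _ => hpl H hH.2 p.1 p.2).mono (fun f hf => ?_) ?_
    · obtain ⟨hx, hbad, ⟨q, y, e1, e2, e3, e4⟩, hv⟩ := hf
      exact ⟨(base n f, q), ⟨⟨f, hx.1, hx.2.1, hx.2.2.2, rfl⟩,
        e2.trans (Real.rpow_le_rpow_of_exponent_le hH.1 (min_le_right _ _))⟩, rfl, hx, hbad, hv, y,
        e1, (Real.rpow_le_rpow_of_exponent_le hH.1 (by linarith [min_le_left η (γ / 2)])).trans e3,
        e4⟩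
    · have h2 : H ^ ((n : ℝ) - 1 - γ / 2) = H ^ (n - 2) * H ^ (γ / 2) * H ^ (1 - γ) := by
        rw [← Real.rpow_natCast, ← Real.rpow_add hH0, ← Real.rpow_add hH0, Nat.cast_sub (by omega)]
        congr 1; push_cast; ring
      rw [h2]
      calc _ ≤ C1 * H ^ (n - 2) * (3 * H ^ (γ / 2)) * (C * H ^ (1 - γ)) := by gcongr; linarith
        _ = _ := by ring
  exact (p1.or p2).mono 0 fun H _ f _ hf => (em _).imp id fun h => ⟨hf.1, hf.2, h⟩

end Pool.Agent.VW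
end

-- part Pool.Agent.P.MP_b0ea37_nt.WC1
section

namespace Pool.Agent.VW

open Polynomial

/-- LL0 in the dyadic box with directions of height at most `T` -/
theorem lf0 (n : ℕ) (hn : 5 ≤ n) : ∃ K : ℕ, ∀ ε : ℝ, 0 < ε → ∃ C₀ : ℝ, 1 ≤ C₀ ∧
    ∀ (H δ T B : ℝ) (g₁ g₂ : ℤ[X]) (P Q : ℤ[X] → Prop), 0 ≤ δ → δ ≤ 1 → 1 ≤ T → T ≤ H →
    g₁.natDegree < n → g₂.natDegree < n → Indep g₁ g₂ → g₁.supNorm ≤ T → g₂.supNorm ≤ T →
    (∀ f, P f → Box n H f ∧ Bad n f ∧ Tiny δ H f) →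
    (∀ f, P f → ∀ s t : ℤ, |(s : ℝ)| * T ≤ K * H → |(t : ℝ)| * T ≤ K * H →
      Q (f + C s * g₁ + C t * g₂)) → Cnt Q B →
    Cnt P (C₀ * H ^ (δ + ε) * B * T / H) := by
  obtain ⟨K, hK⟩ := ll_tiny n hn
  refine ⟨2 * (K + 1), fun ε hε => ?_⟩
  obtain ⟨C₀, hC₀, h⟩ := hK ε hε
  have h2 : (1 : ℝ) ≤ 2 ^ ε := Real.one_le_rpow (by norm_num) hε.le
  refine ⟨C₀ * 2 ^ ε, one_le_mul_of_one_le_of_one_le hC₀ h2, ?_⟩
  intro H δ T B g₁ g₂ P Q hδ0 hδ1 hT hTH hg1 hg2 hind hs1 hs2 hP hQ hB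
  have hT0 : 0 < T := by linarith
  have hH1 : 1 ≤ H := hT.trans hTH
  have hH0 : 0 < H := by linarith
  have hq1 : 1 ≤ H / T := (one_le_div hT0).mpr hTH
  have hqH : H / T ≤ H := div_le_self hH0.le hT
  set L : ℕ := ⌈H / T⌉₊ with hL
  have hLlo : H / T ≤ L := Nat.le_ceil _
  have hLhi : (L : ℝ) ≤ 2 * (H / T) := by
    have := Nat.ceil_lt_add_one (show 0 ≤ H / T by linarith)
    linarith
  have hL1 : 1 ≤ L := by exact_mod_cast hq1.trans hLlo
  have hLT : (L : ℝ) * T ≤ 2 * H := by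
    have : 2 * (H / T) * T = 2 * H := by field_simp
    nlinarith
  have hY1 : 1 ≤ H ^ δ := Real.one_le_rpow hH1 hδ0
  have hYH : H ^ δ ≤ H := by
    simpa using Real.rpow_le_rpow_of_exponent_le hH1 hδ1
  have hK0 : (0 : ℝ) ≤ K := Nat.cast_nonneg K
  have key := h (2 * H) (H ^ δ) B L g₁ g₂ P Q hY1 (by linarith) hL1 (by linarith) hg1 hg2 hind
    (by linarith) (by linarith)
    (fun f hf => ⟨(hP f hf).2.1, by linarith [(hP f hf).1.2.2.2], (hP f hf).2.2⟩)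
    (fun f hf s t hs ht => by
      have hs' : |(s : ℝ)| ≤ L := by exact_mod_cast hs
      have ht' : |(t : ℝ)| ≤ K * L := by exact_mod_cast ht
      refine hQ f hf s t ?_ ?_
      · push_cast
        have := mul_le_mul_of_nonneg_right hs' hT0.le
        nlinarith
      · push_cast
        have h3 := mul_le_mul_of_nonneg_right ht' hT0.le
        have h4 := mul_le_mul_of_nonneg_left hLT hK0
        nlinarith) hB
  refine key.mono (fun _ hx => hx) ?_
  have hB0 := hB.nonneg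
  have hL0 : (0 : ℝ) < L := by linarith
  have hinv : 1 / (L : ℝ) ≤ T / H := by
    rw [div_le_div_iff₀ hL0 hH0]
    have := (div_le_iff₀ hT0).mp hLlo
    linarith
  have hA : 0 ≤ C₀ * 2 ^ ε * H ^ (δ + ε) * B := by positivity
  calc C₀ * (2 * H) ^ ε * H ^ δ * B / L = C₀ * 2 ^ ε * H ^ (δ + ε) * B * (1 / L) := by
        rw [Real.mul_rpow (by norm_num) hH0.le, Real.rpow_add hH0]
        ring
    _ ≤ C₀ * 2 ^ ε * H ^ (δ + ε) * B * (T / H) := mul_le_mul_of_nonneg_left hinv hA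
    _ = C₀ * 2 ^ ε * H ^ (δ + ε) * B * T / H := by ring

theorem monic_add_line {n : ℕ} {f g₁ g₂ : ℤ[X]} (hm : f.Monic) (hf : f.natDegree = n)
    (h1 : g₁.natDegree < n) (h2 : g₂.natDegree < n) (s t : ℤ) :
    (f + C s * g₁ + C t * g₂).Monic ∧ (f + C s * g₁ + C t * g₂).natDegree = n := by
  have hlt : (C s * g₁ + C t * g₂).natDegree < f.natDegree := by
    rw [hf]
    refine lt_of_le_of_lt (natDegree_add_le _ _) (max_lt ?_ ?_)
    · exact lt_of_le_of_lt (natDegree_C_mul_le _ _) h1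
    · exact lt_of_le_of_lt (natDegree_C_mul_le _ _) h2
  rw [add_assoc]
  exact ⟨hm.add_of_left (degree_lt_degree hlt), by rw [natDegree_add_eq_left_of_natDegree_lt hlt, hf]⟩

theorem sup_add_line {f g₁ g₂ : ℤ[X]} {H T U : ℝ} {s t : ℤ} (hf : f.supNorm ≤ H)
    (h1 : g₁.supNorm ≤ T) (h2 : g₂.supNorm ≤ T) (hs : |(s : ℝ)| * T ≤ U) (ht : |(t : ℝ)| * T ≤ U) :
    (f + C s * g₁ + C t * g₂).supNorm ≤ H + 2 * U := by
  have a1 := sup_add_le (f + C s * g₁) (C t * g₂)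
  have a2 := sup_add_le f (C s * g₁)
  have a3 := sup_C_mul_int s g₁
  have a4 := sup_C_mul_int t g₂
  have a5 := mul_le_mul_of_nonneg_left h1 (abs_nonneg (s : ℝ))
  have a6 := mul_le_mul_of_nonneg_left h2 (abs_nonneg (t : ℝ))
  linarith

theorem indep_one_X : Indep 1 X := by
  intro a b h
  have h0 := congrArg (fun g : ℤ[X] => g.coeff 0) h
  have h1 := congrArg (fun g : ℤ[X] => g.coeff 1) h
  simp only [coeff_add, coeff_C_mul, coeff_one, coeff_X, coeff_zero] at h0 h1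
  exact ⟨by simpa using h0, by simpa using h1⟩

theorem Tiny.mono {δ δ' H : ℝ} {f : ℤ[X]} (h : Tiny δ H f) (hδ : δ ≤ δ') (hH : 1 ≤ H) :
    Tiny δ' H f := by
  obtain ⟨m, h1, h2, h3⟩ := h
  exact ⟨m, h1, h2.trans (Real.rpow_le_rpow_of_exponent_le hH hδ), h3⟩

theorem c1_cnt (n : ℕ) (hn : 1 ≤ n) (R S : ℝ) (hR : 1 ≤ R) (hS : 1 ≤ S) :
    Cnt (fun h : ℤ[X] => h.Monic ∧ h.natDegree = n ∧ h.supNorm ≤ R ∧
      |((h.coeff (n - 1) : ℤ) : ℝ)| ≤ S) ((3 * R) ^ (n - 1) * (3 * S)) := by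
  obtain ⟨k, rfl⟩ : ∃ k, n = k + 1 := ⟨n - 1, by omega⟩
  have hc := cnt_poly_coeff (k + 1)
    (P := fun i (a : ℤ) => |(a : ℝ)| ≤ if i = k then S else R)
    (B := fun i => 2 * (if i = k then S else R) + 1)
    (fun i => cnt_int_abs _ (by split_ifs <;> linarith))
  have h2 := hc.inj (P := fun h : ℤ[X] => h.Monic ∧ h.natDegree = k + 1 ∧ h.supNorm ≤ R ∧
      |((h.coeff (k + 1 - 1) : ℤ) : ℝ)| ≤ S) (fun h => h - X ^ (k + 1))
    (by
      rintro h ⟨hm, hd, hs, hk⟩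
      refine ⟨?_, fun i hi => ?_⟩
      · have hdeg : h.degree = ((k + 1 : ℕ) : WithBot ℕ) := by
          rw [degree_eq_natDegree hm.ne_zero, hd]
        rw [← hdeg]
        refine degree_sub_lt_left ?_ hm.ne_zero ?_
        · rw [hdeg, degree_X_pow]
        · rw [hm.leadingCoeff, leadingCoeff_X_pow]
      · have hi' : i ≠ k + 1 := by omega
        rw [coeff_sub, coeff_X_pow, if_neg hi', sub_zero]
        split_ifs with hik
        · subst hik
          simpa using hk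
        · have := sup_le_iff.mp hs i
          rwa [Int.norm_eq_abs] at this)
    (fun x y _ _ hxy => sub_left_injective hxy)
  refine h2.mono (fun _ hx => hx) ?_
  rw [Finset.prod_range_succ, if_pos rfl, Nat.add_sub_cancel]
  have hp : ∏ i ∈ Finset.range k, (2 * (if i = k then S else R) + 1) = (2 * R + 1) ^ k := by
    rw [Finset.prod_congr rfl (g := fun _ => 2 * R + 1), Finset.prod_const, Finset.card_range]
    intro i hi
    rw [if_neg (Finset.mem_range.mp hi).ne]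
  rw [hp]
  exact mul_le_mul (pow_le_pow_left₀ (by linarith) (by linarith) k) (by linarith) (by linarith)
    (by positivity)

/-- 6.1 -/
theorem ps_c1 (n : ℕ) (hn : 5 ≤ n) (κ : ℝ) (hκ : 0 < κ) (hκ1 : κ ≤ 1) :
    PS n fun H f => Bad n f ∧ Tiny (κ / 2) H f ∧ |((f.coeff (n - 1) : ℤ) : ℝ)| < H ^ (1 - κ) := by
  obtain ⟨K, hK⟩ := lf0 n hn
  obtain ⟨C₀, hC₀, h⟩ := hK (κ / 4) (by linarith)
  refine PS.of_lt ((n : ℝ) - 1 - κ / 4) (C₀ * (3 * (1 + 2 * K)) ^ (n - 1) * 3) 1 (by linarith) ?_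
  intro H hH
  have hH0 : 0 < H := by linarith
  have hK0 : (0 : ℝ) ≤ K := Nat.cast_nonneg K
  have hS : 1 ≤ H ^ (1 - κ) := Real.one_le_rpow hH (by linarith)
  have hR : 1 ≤ (1 + 2 * K) * H := by nlinarith
  have hc := c1_cnt n (by omega) _ _ hR hS
  have d1 : (1 : ℤ[X]).natDegree < n := by rw [natDegree_one]; omega
  have d2 : (X : ℤ[X]).natDegree < n := by rw [natDegree_X]; omega
  have s1 : (1 : ℤ[X]).supNorm ≤ 1 := by
    refine sup_le_iff.mpr fun i => ?_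
    rw [coeff_one]
    split_ifs <;> simp
  have s2 : (X : ℤ[X]).supNorm ≤ 1 := by
    refine sup_le_iff.mpr fun i => ?_
    rw [coeff_X]
    split_ifs <;> simp
  have key := h H (κ / 2) 1 _ 1 X
    (fun f => Box n H f ∧ Bad n f ∧ Tiny (κ / 2) H f ∧
      |((f.coeff (n - 1) : ℤ) : ℝ)| < H ^ (1 - κ)) _
    (by linarith) (by linarith) le_rfl hH d1 d2 indep_one_X s1 s2
    (fun f hf => ⟨hf.1, hf.2.1, hf.2.2.1⟩)
    (fun f hf s t hs ht => by
      obtain ⟨⟨hm, hd, -, hsup⟩, -, -, hco⟩ := hf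
      obtain ⟨e1, e2⟩ := monic_add_line hm hd d1 d2 s t
      refine ⟨e1, e2, ?_, ?_⟩
      · have := sup_add_line hsup s1 s2 hs ht
        linarith
      · have n1 : n - 1 ≠ 0 := by omega
        have n2 : 1 ≠ n - 1 := by omega
        rw [coeff_add, coeff_add, coeff_C_mul, coeff_C_mul, coeff_one, coeff_X, if_neg n1,
          if_neg n2]
        simpa using hco.le) hc
  refine key.mono (fun _ hx => hx) (le_of_eq ?_)
  have e1 : H ^ ((n : ℝ) - 1 - κ / 4) =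
      H ^ (κ / 2 + κ / 4) * (H ^ (n - 1) * H ^ (1 - κ)) / H := by
    rw [← Real.rpow_natCast, ← Real.rpow_add hH0, ← Real.rpow_add hH0, ← Real.rpow_sub_one hH0.ne']
    congr 1
    rw [Nat.cast_sub (by omega)]
    push_cast
    ring
  rw [e1, ← mul_assoc 3, mul_pow]
  ring

end Pool.Agent.VW
end

-- part Pool.Agent.P.MP_b0ea37_nt.WClam
section

namespace Pool.Agent.VW

open Polynomial

/-- `c` divides `g` modulo `Y` -/
def Lam (Y : ℕ) (c g : ℤ[X]) : Prop := ∃ u v : ℤ[X], g = c * u + C (Y : ℤ) * v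

/-- a `k`-th power of a monic polynomial of degree `e` divides `f` modulo `Y` -/
def Pw (Y e k : ℕ) (f : ℤ[X]) : Prop :=
  ∃ q : ℤ[X], q.Monic ∧ q.natDegree = e ∧ Lam Y (q ^ k) f

/-- reduced monic representatives modulo `Y` -/
def Red (Y e : ℕ) (q : ℤ[X]) : Prop :=
  q.Monic ∧ q.natDegree = e ∧ ∀ i < e, 0 ≤ q.coeff i ∧ q.coeff i < Y

variable {Y Y' e k : ℕ} {c c' g h f : ℤ[X]}

theorem Lam.add (hg : Lam Y c g) (hh : Lam Y c h) : Lam Y c (g + h) := by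
  obtain ⟨u, v, rfl⟩ := hg
  obtain ⟨u', v', rfl⟩ := hh
  exact ⟨u + u', v + v', by ring⟩

theorem Lam.sub (hg : Lam Y c g) (hh : Lam Y c h) : Lam Y c (g - h) := by
  obtain ⟨u, v, rfl⟩ := hg
  obtain ⟨u', v', rfl⟩ := hh
  exact ⟨u - u', v - v', by ring⟩

theorem Lam.mul_left (hg : Lam Y c g) (w : ℤ[X]) : Lam Y c (w * g) := by
  obtain ⟨u, v, rfl⟩ := hg
  exact ⟨w * u, w * v, by ring⟩

theorem Lam.of_dvd (hg : Lam Y c g) (hY : Y' ∣ Y) : Lam Y' c g := by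
  obtain ⟨u, v, rfl⟩ := hg
  obtain ⟨m, rfl⟩ := hY
  exact ⟨u, C (m : ℤ) * v, by rw [Nat.cast_mul, C_mul, mul_assoc]⟩

theorem lam_of_C_dvd (hg : C (Y : ℤ) ∣ g) : Lam Y c g := by
  obtain ⟨v, rfl⟩ := hg
  exact ⟨0, v, by ring⟩

theorem Lam.congr (hg : Lam Y c g) (hc : C (Y : ℤ) ∣ c - c') : Lam Y c' g := by
  obtain ⟨u, v, rfl⟩ := hg
  obtain ⟨w, hw⟩ := hc
  exact ⟨u, v + w * u, by rw [sub_eq_iff_eq_add.1 hw]; ring⟩

theorem Lam.dvd_of_lt (hg : Lam Y c g) (hc : c.Monic) (hd : g.degree < c.degree) :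
    C (Y : ℤ) ∣ g := by
  obtain ⟨u, v, e⟩ := hg
  refine ⟨v %ₘ c, ?_⟩
  rw [← (modByMonic_eq_self_iff hc).2 hd, e, add_modByMonic, ← smul_eq_C_mul, ← smul_eq_C_mul,
    smul_modByMonic, (modByMonic_eq_zero_iff_dvd hc).2 (dvd_mul_right _ _), zero_add]

theorem Lam.natDegree_le (hf : Lam Y c f) (hY : 2 ≤ Y) (hc : c.Monic) (hm : f.Monic) :
    c.natDegree ≤ f.natDegree := by
  by_contra hlt
  have h1 := (C_dvd_iff_dvd_coeff _ _).1
    (hf.dvd_of_lt hc (degree_lt_degree (not_le.1 hlt))) f.natDegree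
  rw [hm.coeff_natDegree] at h1
  have h2 := Int.le_of_dvd one_pos h1
  omega

theorem lam_iff : Lam Y c g ↔ up (ZMod Y) c ∣ up (ZMod Y) g := by
  constructor
  · rintro ⟨u, v, rfl⟩
    refine ⟨up (ZMod Y) u, ?_⟩
    simp [up, Polynomial.map_add, Polynomial.map_mul]
  · rintro ⟨w, hw⟩
    obtain ⟨u, rfl⟩ := map_surjective (Int.castRingHom (ZMod Y)) ZMod.intCast_surjective w
    have h1 : C (Y : ℤ) ∣ g - c * u := by
      refine (C_dvd_iff_dvd_coeff _ _).2 fun i => (ZMod.intCast_zmod_eq_zero_iff_dvd _ _).1 ?_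
      have h2 : up (ZMod Y) (g - c * u) = 0 := by
        rw [up, Polynomial.map_sub, Polynomial.map_mul]
        exact sub_eq_zero.2 hw
      have h3 := coeff_map (Int.castRingHom (ZMod Y)) (p := g - c * u) i
      rw [up] at h2
      rw [h2, coeff_zero] at h3
      exact h3.symm
    obtain ⟨v, hv⟩ := h1
    exact ⟨u, v, by rw [← hv]; ring⟩

theorem Pw.one (e k : ℕ) (f : ℤ[X]) : Pw 1 e k f :=
  ⟨X ^ e, monic_X_pow e, natDegree_X_pow e, 0, f, by simp⟩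

theorem Pw.of_dvd (hf : Pw Y e k f) (hY : Y' ∣ Y) : Pw Y' e k f := by
  obtain ⟨q, h1, h2, h3⟩ := hf
  exact ⟨q, h1, h2, h3.of_dvd hY⟩

theorem clam_pow {q q' : ℤ[X]} (hf : Lam Y (q ^ k) f) (hq : C (Y : ℤ) ∣ q - q') :
    Lam Y (q' ^ k) f :=
  hf.congr (hq.trans (sub_dvd_pow_sub_pow _ _ _))

theorem Pw.mul (hf : Pw Y e k f) (hf' : Pw Y' e k f) (hY : Nat.Coprime Y Y') :
    Pw (Y * Y') e k f := by
  obtain ⟨q₁, m₁, d₁, l₁⟩ := hf
  obtain ⟨q₂, m₂, d₂, l₂⟩ := hf'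
  obtain ⟨u, v, huv⟩ := Nat.isCoprime_iff_coprime.2 hY
  have hC : (C u * C (Y : ℤ) + C v * C (Y' : ℤ) : ℤ[X]) = 1 := by
    rw [← C_mul, ← C_mul, ← C_add, huv, C_1]
  have hdeg : ((u * Y) • (q₁ - q₂)).degree < q₁.degree :=
    (degree_smul_le _ _).trans_lt (degree_sub_lt_left
      (by rw [degree_eq_natDegree m₁.ne_zero, degree_eq_natDegree m₂.ne_zero, d₁, d₂])
      m₁.ne_zero (by rw [m₁, m₂]))
  refine ⟨q₁ - (u * Y) • (q₁ - q₂), m₁.sub_of_left hdeg,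
    (natDegree_eq_of_degree_eq (degree_sub_eq_left_of_degree_lt hdeg)).trans d₁, ?_⟩
  obtain ⟨a, b, e₁⟩ := clam_pow (q' := q₁ - (u * Y) • (q₁ - q₂)) l₁
    ⟨C u * (q₁ - q₂), by rw [smul_eq_C_mul, C_mul]; ring⟩
  obtain ⟨a', b', e₂⟩ := clam_pow (q' := q₁ - (u * Y) • (q₁ - q₂)) l₂
    ⟨C v * (q₂ - q₁), by
      rw [smul_eq_C_mul, C_mul]; linear_combination (q₁ - q₂) * hC⟩
  refine ⟨C u * C (Y : ℤ) * a' + C v * C (Y' : ℤ) * a, C u * b' + C v * b, ?_⟩
  rw [Nat.cast_mul, C_mul]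
  linear_combination (C u * C (Y : ℤ)) * e₂ + (C v * C (Y' : ℤ)) * e₁ - f * hC

theorem Pw.prod (T : Finset ℕ) (hT : ∀ p ∈ T, p.Prime) (γ : ℕ → ℕ)
    (hf : ∀ p ∈ T, Pw (p ^ γ p) e k f) : Pw (∏ p ∈ T, p ^ γ p) e k f := by
  induction T using Finset.induction_on with
  | empty => simpa using Pw.one e k f
  | insert a T ha ih =>
    rw [Finset.prod_insert ha]
    refine (hf a (Finset.mem_insert_self _ _)).mul
      (ih (fun p hp => hT p (Finset.mem_insert_of_mem hp))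
        fun p hp => hf p (Finset.mem_insert_of_mem hp)) ?_
    refine Nat.Coprime.prod_right fun p hp => ?_
    exact Nat.coprime_pow_primes _ _ (hT a (Finset.mem_insert_self _ _))
      (hT p (Finset.mem_insert_of_mem hp)) fun hap => ha (hap ▸ hp)

theorem Pw.red (hf : Pw Y e k f) (hY : 1 ≤ Y) : ∃ q : ℤ[X], Red Y e q ∧ Lam Y (q ^ k) f := by
  obtain ⟨q, hm, hd, hl⟩ := hf
  have hY' : (0 : ℤ) < Y := by exact_mod_cast hY
  obtain ⟨r, hr⟩ : ∃ r : ℤ[X], r = ∑ i ∈ Finset.range e, monomial i (q.coeff i % Y) := ⟨_, rfl⟩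
  have hco : ∀ i, r.coeff i = if i < e then q.coeff i % Y else 0 := by
    intro i
    rw [hr, finsetSum_coeff]
    simp only [coeff_monomial]
    rw [Finset.sum_ite_eq' (Finset.range e) i fun j => q.coeff j % Y]
    simp
  have hdeg : r.degree < (X ^ e : ℤ[X]).degree := by
    rw [degree_X_pow]
    exact (degree_lt_iff_coeff_zero _ _).2 fun i hi => by rw [hco, if_neg (not_lt.2 hi)]
  refine ⟨X ^ e + r, ⟨(monic_X_pow e).add_of_left hdeg,
    (natDegree_eq_of_degree_eq (degree_add_eq_left_of_degree_lt hdeg)).trans (natDegree_X_pow e),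
    fun i hi => ?_⟩, clam_pow hl ((C_dvd_iff_dvd_coeff _ _).2 fun i => ?_)⟩
  · rw [coeff_add, coeff_X_pow, if_neg hi.ne, hco, if_pos hi, zero_add]
    exact ⟨Int.emod_nonneg _ hY'.ne', Int.emod_lt_of_pos _ hY'⟩
  · rw [coeff_sub, coeff_add, coeff_X_pow, hco]
    rcases lt_trichotomy i e with hi | hi | hi
    · rw [if_neg hi.ne, if_pos hi, zero_add]
      exact Int.dvd_self_sub_emod
    · rw [if_pos hi, if_neg hi.not_lt, hi, ← hd, hm.coeff_natDegree]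
      simp
    · rw [if_neg hi.ne', if_neg hi.not_gt, coeff_eq_zero_of_natDegree_lt (hd ▸ hi)]
      simp

theorem cnt_red (Y e : ℕ) : Cnt (Red Y e) ((Y : ℝ) ^ e) := by
  refine (cnt_poly_coeff e (P := fun _ r => 0 ≤ r ∧ r < Y) (B := fun _ => (Y : ℝ))
    fun _ => cnt_res Y).inj (fun g => g - X ^ e) (fun g hg => ⟨?_, fun i hi => ?_⟩)
    (fun g g' _ _ e => sub_left_injective e) |>.mono (fun _ h => h) (by simp)
  · have e' : g.degree = (e : ℕ) := by rw [degree_eq_natDegree hg.1.ne_zero, hg.2.1]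
    rw [← e']
    exact degree_sub_lt_left (by rw [e', degree_X_pow]) hg.1.ne_zero (by rw [hg.1, leadingCoeff_X_pow])
  · rw [coeff_sub, coeff_X_pow, if_neg hi.ne, sub_zero]
    exact hg.2.2 i hi

theorem clam_top {n d : ℕ} (hg : g.Monic) (hgn : g.natDegree = n) (hh : h.Monic)
    (hhn : h.natDegree = n) (ht : ∀ i : Fin (n - d), g.coeff (d + i) = h.coeff (d + i)) (i : ℕ)
    (hi : d ≤ i) : g.coeff i = h.coeff i := by
  rcases lt_trichotomy i n with hn | hn | hn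
  · have := ht ⟨i - d, by omega⟩
    rwa [Nat.add_sub_cancel' hi] at this
  · have e1 := hg.coeff_natDegree
    have e2 := hh.coeff_natDegree
    rw [hgn] at e1
    rw [hhn] at e2
    rw [hn, e1, e2]
  · rw [coeff_eq_zero_of_natDegree_lt (hgn ▸ hn), coeff_eq_zero_of_natDegree_lt (hhn ▸ hn)]

/-- points of a coset in a box -/
theorem cnt_lam (n : ℕ) (hY : 1 ≤ Y) (hc : c.Monic) (hd : c.natDegree ≤ n) (R : ℝ) (hR : 0 ≤ R) :
    Cnt (fun h : ℤ[X] => h.Monic ∧ h.natDegree = n ∧ h.supNorm ≤ R ∧ Lam Y c h)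
      ((2 * R + 1) ^ (n - c.natDegree) * (2 * R / Y + 1) ^ c.natDegree) := by
  have _ := hd
  have h1 := Cnt.pi (ι := Fin (n - c.natDegree)) (P := fun _ (t : ℤ) => |(t : ℝ)| ≤ R)
    (B := fun _ => 2 * R + 1) fun _ => cnt_int_abs R hR
  have hB : (0 : ℝ) ≤ (2 * R / Y + 1) ^ c.natDegree := by positivity
  refine (Cnt.fibre (P := fun y (h : ℤ[X]) =>
    (h.Monic ∧ h.natDegree = n ∧ h.supNorm ≤ R ∧ Lam Y c h) ∧
      ∀ i : Fin (n - c.natDegree), h.coeff (c.natDegree + i) = y i) h1 hB fun y _ => ?_).mono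
    (fun h hh => ⟨fun i => h.coeff (c.natDegree + i),
      fun i => (h.le_supNorm _).trans hh.2.2.1, hh, fun _ => rfl⟩) (by simp)
  refine Cnt.of_mem hB fun h₀ hh₀ => ?_
  have h2 := Cnt.pi (ι := Fin c.natDegree)
    (P := fun i (t : ℤ) => |(t : ℝ) - 0| ≤ R ∧ (Y : ℤ) ∣ t - h₀.coeff i)
    (B := fun _ => 2 * R / Y + 1) fun i => cnt_class Y hY _ 0 R hR
  refine (h2.inj (fun (h : ℤ[X]) i => h.coeff i) (fun h hh i => ⟨?_, ?_⟩)
    fun h h' hh hh' e => ?_).mono (fun _ h => h) (by simp)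
  · rw [sub_zero]
    exact (h.le_supNorm _).trans hh.1.2.2.1
  · have h3 : (h - h₀).degree < c.degree := by
      rw [degree_eq_natDegree hc.ne_zero]
      refine (degree_lt_iff_coeff_zero _ _).2 fun j hj => ?_
      rw [coeff_sub, clam_top hh.1.1 hh.1.2.1 hh₀.1.1 hh₀.1.2.1
        (fun i => (hh.2 i).trans (hh₀.2 i).symm) j hj, sub_self]
    have h4 := (C_dvd_iff_dvd_coeff _ _).1 ((hh.1.2.2.2.sub hh₀.1.2.2.2).dvd_of_lt hc h3) i
    rwa [coeff_sub] at h4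
  · ext j
    by_cases hj : j < c.natDegree
    · exact congrFun e ⟨j, hj⟩
    · exact clam_top hh.1.1 hh.1.2.1 hh'.1.1 hh'.1.2.1
        (fun i => (hh.2 i).trans (hh'.2 i).symm) j (not_lt.1 hj)

end Pool.Agent.VW
end

-- part Pool.Agent.P.MP_b0ea37_nt.WCsv
section

namespace Pool.Agent.VW

open Polynomial

/-- many points of small diameter do not lie on a line -/
theorem two_indep (S : Finset ℤ[X]) (T T₁ : ℝ) (hT : 0 ≤ T) (hT₁ : 0 < T₁)
    (h1 : ∀ x ∈ S, ∀ y ∈ S, (x - y).supNorm ≤ T)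
    (h2 : ∀ x ∈ S, ∀ y ∈ S, x ≠ y → T₁ ≤ (x - y).supNorm) (hS : 1 + 2 * T / T₁ < S.card) :
    ∃ x ∈ S, ∃ y ∈ S, ∃ z ∈ S, Indep (y - x) (z - x) := by
  by_contra hno
  have hc : 1 < S.card := by
    have : (0 : ℝ) ≤ 2 * T / T₁ := by positivity
    have h : (1 : ℝ) < S.card := by linarith
    exact_mod_cast h
  obtain ⟨x₀, hx₀, x₁, hx₁, hne⟩ := Finset.one_lt_card.1 hc
  have hg : x₁ - x₀ ≠ 0 := sub_ne_zero.2 hne.symm
  obtain ⟨i, hi⟩ := (x₁ - x₀).exists_eq_supNorm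
  have hgi : 0 < ‖(x₁ - x₀).coeff i‖ := hi ▸ lt_of_lt_of_le one_pos (one_le_sup hg)
  have hA : ∀ y ∈ S, ∀ j, (x₁ - x₀).coeff i * (y - x₀).coeff j =
      (x₁ - x₀).coeff j * (y - x₀).coeff i := by
    intro y hy j
    have hI : ¬ Indep (x₁ - x₀) (y - x₀) := fun h => hno ⟨x₀, hx₀, x₁, hx₁, y, hy, h⟩
    unfold Indep at hI
    push Not at hI
    obtain ⟨a, b, hab, hz⟩ := hI
    have hb : b ≠ 0 := by
      rintro rfl
      rw [map_zero, zero_mul, add_zero, mul_eq_zero, C_eq_zero] at hab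
      exact hz (hab.resolve_right hg) rfl
    have e1 := congrArg (fun q => q.coeff i) hab
    have e2 := congrArg (fun q => q.coeff j) hab
    simp only [coeff_add, coeff_C_mul, coeff_zero] at e1 e2
    apply mul_left_cancel₀ hb
    linear_combination (x₁ - x₀).coeff i * e2 - (x₁ - x₀).coeff j * e1
  have hB : ∀ y ∈ S, ∀ y' ∈ S, (y - y').supNorm ≤ ‖(y - y').coeff i‖ := by
    intro y hy y' hy'
    refine sup_le_iff.2 fun j => ?_
    have e : (x₁ - x₀).coeff i * (y - y').coeff j = (x₁ - x₀).coeff j * (y - y').coeff i := by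
      have e1 := hA y hy j
      have e2 := hA y' hy' j
      simp only [coeff_sub] at e1 e2 ⊢
      linear_combination e1 - e2
    have e' := congrArg (fun t : ℤ => ‖t‖) e
    simp only [norm_mul] at e'
    have h3 : ‖(x₁ - x₀).coeff j‖ ≤ ‖(x₁ - x₀).coeff i‖ := hi ▸ (x₁ - x₀).le_supNorm j
    refine le_of_mul_le_mul_left ?_ hgi
    rw [e']
    exact mul_le_mul_of_nonneg_right h3 (norm_nonneg _)
  have hC : ∀ y y' : ℤ[X], normSeminorm ℝ ℝ ((y.coeff i : ℝ) - (y'.coeff i : ℝ)) =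
      ‖(y - y').coeff i‖ := by
    intro y y'
    rw [coe_normSeminorm, coeff_sub, ← Int.cast_sub, Int.norm_cast_real]
  have := pack_semi (normSeminorm ℝ ℝ) (⊤ : Submodule ℝ ℝ) 1 (by simp) T T₁ hT hT₁ S
    (fun y => (y.coeff i : ℝ)) (fun _ _ _ _ => Submodule.mem_top)
    (fun y hy y' hy' => (hC y y').le.trans (((y - y').le_supNorm i).trans (h1 y hy y' hy')))
    (fun y hy y' hy' hne => ((h2 y hy y' hy' hne).trans (hB y hy y' hy')).trans (hC y y').ge)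
  rw [pow_one] at this
  linarith

/-- pigeonhole in the box of polynomials with coefficients in `[0, T]` -/
theorem short_pair {β : Type} (n T : ℕ) (φ : ℤ[X] → β) (Q : β → Prop) (B T₁ : ℝ) (hQ : Cnt Q B)
    (hT₁ : 0 < T₁) (hφ : ∀ g : ℤ[X], g.degree < n → g.supNorm ≤ T → Q (φ g))
    (hsep : ∀ g g' : ℤ[X], g.degree < n → g'.degree < n → g ≠ g' → φ g = φ g' →
      T₁ ≤ (g - g').supNorm)
    (h : B * (1 + 2 * T / T₁) < ((T : ℝ) + 1) ^ n) :
    ∃ x y z : ℤ[X], x.degree < n ∧ y.degree < n ∧ z.degree < n ∧ φ y = φ x ∧ φ z = φ x ∧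
      Indep (y - x) (z - x) ∧ (y - x).supNorm ≤ T ∧ (z - x).supNorm ≤ T := by
  classical
  set S₀ : Finset ℤ[X] :=
    (Fintype.piFinset fun _ : Fin n => Finset.Icc (0 : ℤ) T).image (ofFn n) with hS₀
  have hcard : (S₀.card : ℝ) = ((T : ℝ) + 1) ^ n := by
    rw [hS₀, Finset.card_image_of_injective _ (injective_ofFn n), Fintype.card_piFinset]
    simp
  have hmem : ∀ g ∈ S₀, g.degree < n ∧ ∀ j, 0 ≤ g.coeff j ∧ g.coeff j ≤ T := by
    intro g hg
    obtain ⟨v, hv, rfl⟩ := Finset.mem_image.1 hg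
    refine ⟨ofFn_degree_lt v, fun j => ?_⟩
    rcases lt_or_ge j n with hj | hj
    · rw [ofFn_coeff_eq_val_of_lt v hj]
      exact Finset.mem_Icc.1 (Fintype.mem_piFinset.1 hv ⟨j, hj⟩)
    · rw [ofFn_coeff_eq_zero_of_ge v hj]
      exact ⟨le_rfl, Int.natCast_nonneg T⟩
  have hnorm : ∀ t : ℤ, |t| ≤ T → ‖t‖ ≤ (T : ℝ) := by
    intro t ht
    rw [Int.norm_eq_abs]
    exact_mod_cast ht
  have hdiff : ∀ g ∈ S₀, ∀ g' ∈ S₀, (g - g').supNorm ≤ T := by
    intro g hg g' hg'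
    refine sup_le_iff.2 fun j => hnorm _ ?_
    have a1 := (hmem g hg).2 j
    have a2 := (hmem g' hg').2 j
    rw [coeff_sub, abs_le]
    constructor <;> linarith [a1.1, a1.2, a2.1, a2.2]
  obtain ⟨U, hU, hK, hφU⟩ := pigeon S₀ φ hQ (K := 1 + 2 * T / T₁)
    (fun g hg => hφ g (hmem g hg).1 (sup_le_iff.2 fun j => hnorm _ (by
      rw [abs_of_nonneg ((hmem g hg).2 j).1]
      exact ((hmem g hg).2 j).2)))
    (by positivity) (by rwa [hcard])
  obtain ⟨x, hx, y, hy, z, hz, hI⟩ := two_indep U T T₁ (Nat.cast_nonneg T) hT₁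
    (fun x hx y hy => hdiff x (hU hx) y (hU hy))
    (fun x hx y hy hne => hsep x y (hmem x (hU hx)).1 (hmem y (hU hy)).1 hne (hφU x hx y hy)) hK
  exact ⟨x, y, z, (hmem x (hU hx)).1, (hmem y (hU hy)).1, (hmem z (hU hz)).1, hφU y hy x hx,
    hφU z hz x hx, hI, hdiff y (hU hy) x (hU hx), hdiff z (hU hz) x (hU hx)⟩

/-- two short independent vectors in a congruence lattice -/
theorem lam_short (n Y T : ℕ) (hn : 1 ≤ n) (hY : 1 ≤ Y) (c : ℤ[X]) (hc : c.Monic) (T₁ : ℝ)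
    (hT₁ : 0 < T₁) (hsep : ∀ g : ℤ[X], g ≠ 0 → g.degree < n → Lam Y c g → T₁ ≤ g.supNorm)
    (h : (Y : ℝ) ^ c.natDegree * (1 + 2 * T / T₁) < ((T : ℝ) + 1) ^ n) :
    ∃ g₁ g₂ : ℤ[X], g₁.natDegree < n ∧ g₂.natDegree < n ∧ Indep g₁ g₂ ∧ g₁.supNorm ≤ T ∧
      g₂.supNorm ≤ T ∧ Lam Y c g₁ ∧ Lam Y c g₂ := by
  have : NeZero Y := ⟨by omega⟩
  set φ : ℤ[X] → Fin c.natDegree → ZMod Y := fun g i => ((g %ₘ c).coeff i : ZMod Y) with hφ
  have hL : ∀ g g' : ℤ[X], φ g = φ g' → Lam Y c (g - g') := by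
    intro g g' he
    have hd : C (Y : ℤ) ∣ g %ₘ c - g' %ₘ c := by
      refine (C_dvd_iff_dvd_coeff _ _).2 fun j => ?_
      rcases lt_or_ge j c.natDegree with hj | hj
      · have := congrFun he ⟨j, hj⟩
        rw [coeff_sub, ← ZMod.intCast_zmod_eq_zero_iff_dvd, Int.cast_sub, sub_eq_zero]
        exact this
      · have hz : ∀ u : ℤ[X], (u %ₘ c).coeff j = 0 := fun u =>
          coeff_eq_zero_of_degree_lt (((degree_modByMonic_lt u hc).trans_le degree_le_natDegree).trans_le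
            (by exact_mod_cast hj))
        rw [coeff_sub, hz, hz, sub_zero]
        exact dvd_zero _
    obtain ⟨v, hv⟩ := hd
    refine ⟨g /ₘ c - g' /ₘ c, v, ?_⟩
    have e1 := modByMonic_add_div g c
    have e2 := modByMonic_add_div g' c
    linear_combination hv - e1 + e2
  have hlt : ∀ g g' : ℤ[X], g.degree < n → g'.degree < n → (g - g').degree < n :=
    fun g g' h1 h2 => (degree_sub_le g g').trans_lt (max_lt h1 h2)
  have hnat : ∀ g : ℤ[X], g.degree < n → g.natDegree < n := by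
    intro g hg
    rcases eq_or_ne g 0 with rfl | h0
    · exact natDegree_zero (R := ℤ) ▸ hn
    · exact (natDegree_lt_iff_degree_lt h0).2 hg
  obtain ⟨x, y, z, hx, hy, hz, e1, e2, hI, h1, h2⟩ := short_pair n T φ (fun _ => True) _ T₁
    (Cnt.fintype _) hT₁ (fun _ _ _ => trivial)
    (fun g g' hg hg' hne he => hsep _ (sub_ne_zero.2 hne) (hlt g g' hg hg') (hL g g' he))
    (by simpa using h)
  exact ⟨y - x, z - x, hnat _ (hlt y x hy hx), hnat _ (hlt z x hz hx), hI, h1, h2, hL y x e1,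
    hL z x e2⟩

end Pool.Agent.VW
end

-- part Pool.Agent.P.MP_b0ea37_nt.WCnr
section

namespace Pool.Agent.VW

open Polynomial

theorem cnr_floor {x c a : ℝ} (hc : 0 < c) (ha : 1 ≤ a) (h : |x| ≤ a * c) :
    |((⌊x / c⌋ : ℤ) : ℝ)| ≤ 2 * a := by
  have h1 : |x / c| ≤ a := by rwa [abs_div, abs_of_pos hc, div_le_iff₀ hc]
  have h2 := abs_le.1 h1
  have h3 := Int.floor_le (x / c)
  have h4 := Int.lt_floor_add_one (x / c)
  exact abs_le.2 ⟨by linarith, by linarith⟩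

theorem cnr_close {x y c : ℝ} (hc : 0 < c) (h : ⌊x / c⌋ = ⌊y / c⌋) : |x - y| ≤ c := by
  have h1 := Int.abs_sub_lt_one_of_floor_eq_floor h
  rw [← sub_div, abs_div, abs_of_pos hc, div_lt_one hc] at h1
  exact h1.le

theorem cnr_deg {n : ℕ} (hn : 1 ≤ n) {x y : ℤ[X]} (hx : x.degree < n) (hy : y.degree < n) :
    (y - x).natDegree < n := by
  rcases eq_or_ne (y - x) 0 with h | h
  · rw [h, natDegree_zero]
    exact hn
  · exact (natDegree_lt_iff_degree_lt h).2 ((degree_sub_le _ _).trans_lt (max_lt hy hx))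

theorem cnr_eval {n : ℕ} (g : ℂ[X]) (hg : g.natDegree ≤ n) {ρ : ℂ} {V T : ℝ} (hV : 1 ≤ V)
    (hρ : ‖ρ‖ ≤ V) (hT : g.supNorm ≤ T) : |(g.eval ρ).re| ≤ (n + 1) * T * V ^ n := by
  have h0 : 0 ≤ g.supNorm := g.supNorm_nonneg
  refine (Complex.abs_re_le_norm _).trans ((norm_eval_le g hg ρ).trans ?_)
  have h1 : max 1 ‖ρ‖ ≤ V := max_le hV hρ
  have h2 : 0 ≤ T := h0.trans hT
  gcongr

/-- two short independent polynomials that are small to second order at a complex point -/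
theorem near_short (n T : ℕ) (hn : 1 ≤ n) (ρ : ℂ) (V s : ℝ) (hV : 1 ≤ V) (hρ : ‖ρ‖ ≤ V)
    (hs : 0 < s) (hs1 : s ≤ 1) (hT : 1 ≤ T)
    (h : 50 * ((n : ℝ) + 1) ^ 3 * V ^ (2 * n) ≤ s ^ 3 * (T : ℝ) ^ (n - 1)) :
    ∃ g₁ g₂ : ℤ[X], g₁.natDegree < n ∧ g₂.natDegree < n ∧ Indep g₁ g₂ ∧ g₁.supNorm ≤ T ∧
      g₂.supNorm ≤ T ∧ |((up ℂ g₁).eval ρ).re| ≤ T * s ^ 2 ∧ |((up ℂ g₂).eval ρ).re| ≤ T * s ^ 2 ∧
      |((derivative (up ℂ g₁)).eval ρ).re| ≤ T * s ∧
      |((derivative (up ℂ g₂)).eval ρ).re| ≤ T * s := by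
  have hT0 : (1 : ℝ) ≤ T := by exact_mod_cast hT
  have hn0 : (1 : ℝ) ≤ n := by exact_mod_cast hn
  have hVn : 1 ≤ V ^ n := one_le_pow₀ hV
  have c1 : 0 < T * s ^ 2 := by positivity
  have c2 : 0 < T * s := by positivity
  obtain ⟨a, ha⟩ : ∃ a : ℝ, a = (n + 1) * V ^ n / s ^ 2 := ⟨_, rfl⟩
  obtain ⟨b, hb⟩ : ∃ b : ℝ, b = (n + 1) ^ 2 * V ^ n / s := ⟨_, rfl⟩
  have a1 : 1 ≤ a := by
    rw [ha, one_le_div (by positivity)]
    nlinarith [pow_le_one₀ (n := 2) hs.le hs1]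
  have b1 : 1 ≤ b := by
    rw [hb, one_le_div hs]
    nlinarith [mul_nonneg (sq_nonneg ((n : ℝ) + 1)) (sub_nonneg.2 hVn)]
  have hQ := Cnt.prod (Q := fun (_ t : ℤ) => |(t : ℝ)| ≤ 2 * b) (cnt_int_abs (2 * a) (by linarith))
    (by linarith : 0 ≤ 2 * (2 * b) + 1) fun _ _ => cnt_int_abs (2 * b) (by linarith)
  obtain ⟨x, y, z, hx, hy, hz, e1, e2, hi, s1, s2⟩ := short_pair n T
    (fun g => (⌊((up ℂ g).eval ρ).re / (T * s ^ 2)⌋,
      ⌊((derivative (up ℂ g)).eval ρ).re / (T * s)⌋)) _ _ 1 hQ one_pos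
    (fun g hg hgT => by
      have d1 : (up ℂ g).natDegree ≤ n :=
        natDegree_map_le.trans (natDegree_le_iff_degree_le.2 hg.le)
      have t1 : (up ℂ g).supNorm ≤ T := (sup_up_complex g).trans_le hgT
      refine ⟨cnr_floor c1 a1 ((cnr_eval _ d1 hV hρ t1).trans_eq ?_),
        cnr_floor c2 b1 ((cnr_eval (T := (n + 1) * T) _ ((natDegree_derivative_le _).trans
          ((Nat.sub_le _ _).trans d1)) hV hρ ((sup_derivative_le _ d1).trans ?_)).trans_eq ?_)⟩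
      · rw [ha]
        field_simp
      · have := (up ℂ g).supNorm_nonneg
        nlinarith
      · rw [hb]
        field_simp)
    (fun g g' _ _ hne _ => one_le_sup (sub_ne_zero.2 hne))
    (by
      have e : a * b = (n + 1) ^ 3 * V ^ (2 * n) / s ^ 3 := by
        rw [ha, hb]
        field_simp
        ring
      have h1 : 50 * (a * b) ≤ (T : ℝ) ^ (n - 1) := by
        rw [e, ← mul_div_assoc, div_le_iff₀ (by positivity)]
        linarith
      have h2 : (T : ℝ) ^ (n - 1) ≤ (T + 1) ^ (n - 1) := by gcongr; linarith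
      have h3 : ((T : ℝ) + 1) ^ n = (T + 1) ^ (n - 1) * (T + 1) := by
        rw [← pow_succ, Nat.sub_add_cancel hn]
      have h4 : (2 * (2 * a) + 1) * (2 * (2 * b) + 1) ≤ 25 * (a * b) := by
        nlinarith [mul_nonneg (sub_nonneg.2 a1) (sub_nonneg.2 b1)]
      have h5 : 0 < a * b := by positivity
      rw [h3, div_one]
      calc (2 * (2 * a) + 1) * (2 * (2 * b) + 1) * (1 + 2 * (T : ℝ))
          ≤ 25 * (a * b) * (1 + 2 * T) := by gcongr
        _ < 50 * (a * b) * (T + 1) := by nlinarith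
        _ ≤ (T + 1) ^ (n - 1) * (T + 1) := by gcongr; linarith)
  have k1 := Prod.ext_iff.1 e1
  have k2 := Prod.ext_iff.1 e2
  refine ⟨y - x, z - x, cnr_deg hn hx hy, cnr_deg hn hx hz, hi, s1, s2, ?_, ?_, ?_, ?_⟩
  · simpa [up] using cnr_close c1 k1.1
  · simpa [up] using cnr_close c1 k2.1
  · simpa [up] using cnr_close c2 k1.2
  · simpa [up] using cnr_close c2 k2.2

/-- monic polynomials that are small to second order at a complex point -/
theorem cnt_near (n : ℕ) (hn : 2 ≤ n) (ρ : ℂ) (R A A' : ℝ) (hR : 0 ≤ R) (hA : 0 ≤ A)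
    (hA' : 0 ≤ A') :
    Cnt (fun h : ℤ[X] => h.Monic ∧ h.natDegree = n ∧ h.supNorm ≤ R ∧
      |((up ℂ h).eval ρ).re| ≤ A ∧ |((derivative (up ℂ h)).eval ρ).re| ≤ A')
      ((2 * R + 1) ^ (n - 2) * (2 * A' + 1) * (2 * A + 1)) := by
  have h1 := Cnt.pi (ι := Fin (n - 2)) (P := fun _ (t : ℤ) => |(t : ℝ)| ≤ R)
    (B := fun _ => 2 * R + 1) fun _ => cnt_int_abs R hR
  have hB : 0 ≤ (2 * A' + 1) * (2 * A + 1) := by positivity
  refine (Cnt.fibre (P := fun (z : Fin (n - 2) → ℤ) (h : ℤ[X]) => (h.Monic ∧ h.natDegree = n ∧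
      |((up ℂ h).eval ρ).re| ≤ A ∧ |((derivative (up ℂ h)).eval ρ).re| ≤ A') ∧
      ∀ i : Fin (n - 2), h.coeff (i + 2) = z i) h1 hB fun z _ => Cnt.of_mem hB fun g hg => ?_).mono
    (fun h hh => ⟨fun i => h.coeff (i + 2), fun i => (h.le_supNorm _).trans hh.2.2.1,
      ⟨hh.1, hh.2.1, hh.2.2.2⟩, fun _ => rfl⟩) (by simp [mul_assoc])
  have key : ∀ h : ℤ[X], h.Monic → h.natDegree = n → (∀ i : Fin (n - 2), h.coeff (i + 2) = z i) →
      h = g + (C ((h - g).coeff 1) * X + C ((h - g).coeff 0)) := by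
    intro h hm hd hz
    rw [← eq_X_add_C_of_natDegree_le_one, add_sub_cancel]
    refine natDegree_le_iff_coeff_eq_zero.2 fun N hN => ?_
    rw [coeff_sub, sub_eq_zero]
    rcases lt_trichotomy N n with h2 | h2 | h2
    · obtain ⟨j, rfl⟩ : ∃ j, N = j + 2 := ⟨N - 2, by omega⟩
      exact (hz ⟨j, by omega⟩).trans (hg.2 ⟨j, by omega⟩).symm
    · have e1 := hm.coeff_natDegree
      have e2 := hg.1.1.coeff_natDegree
      rw [hd] at e1
      rw [hg.1.2.1] at e2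
      rw [h2, e1, e2]
    · rw [coeff_eq_zero_of_natDegree_lt (hd.trans_lt h2),
        coeff_eq_zero_of_natDegree_lt (hg.1.2.1.trans_lt h2)]
  refine (Cnt.prod (Q := fun (a t : ℤ) => |(t : ℝ) - (-((up ℂ g).eval ρ).re - a * ρ.re)| ≤ A)
    (cnt_int_near (-((derivative (up ℂ g)).eval ρ).re) A' hA') (by positivity)
    fun a _ => cnt_int_near _ A hA).inj (fun h => ((h - g).coeff 1, (h - g).coeff 0))
    (fun h hh => ?_) fun h h' hh hh' e => ?_
  · obtain ⟨⟨a1, a2, a3, a4⟩, a5⟩ := hh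
    have e := key h a1 a2 a5
    generalize (h - g).coeff 1 = a, (h - g).coeff 0 = b at e ⊢
    subst e
    constructor
    · refine le_of_eq_of_le (congrArg _ ?_) a4
      simp [up]
      ring
    · refine le_of_eq_of_le (congrArg _ ?_) a3
      simp [up]
      ring
  · have k := Prod.ext_iff.1 e
    rw [key h hh.1.1 hh.1.2.1 hh.2, key h' hh'.1.1 hh'.1.2.1 hh'.2]
    exact congrArg₂ (fun a b => g + (C a * X + C b)) k.1 k.2

end Pool.Agent.VW
end

-- part Pool.Agent.P.MP_b0ea37_nt.WC2a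
section

namespace Pool.Agent.VW

open Polynomial

theorem wc2a_sub {n : ℕ} (θ : Fin n → ℂ) {S T : Finset (Fin n)} (h : S ⊆ T) :
    ∏ i ∈ S, max 1 ‖θ i‖ ≤ ∏ i ∈ T, max 1 ‖θ i‖ := by
  rw [← Finset.prod_sdiff h]
  exact le_mul_of_one_le_left (Finset.prod_nonneg fun i _ => by positivity)
    (le_of_eq_of_le Finset.prod_const_one.symm
      (Finset.prod_le_prod (fun _ _ => zero_le_one) fun i _ => le_max_left _ _))

/-- one large root, the others small -/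
theorem wc2a_big {n : ℕ} (hn : 0 < n) (θ : Fin n → ℂ) {H W : ℝ} (hW : 1 ≤ W) (hH : 0 < H)
    (h1 : H / W ≤ ‖∑ i, θ i‖) (h2 : ∏ i, max 1 ‖θ i‖ ≤ (n + 1) * H) :
    ∃ i₀, H / (n * W) ≤ ‖θ i₀‖ ∧ ∀ j, j ≠ i₀ → ‖θ j‖ ≤ n * (n + 1) * W := by
  have hn' : (0 : ℝ) < n := by exact_mod_cast hn
  have hW0 : 0 < W := by linarith
  obtain ⟨i₀, -, hi⟩ := Finset.exists_max_image Finset.univ (fun i => ‖θ i‖)
    ⟨⟨0, hn⟩, Finset.mem_univ _⟩
  have h3 : H / (n * W) ≤ ‖θ i₀‖ := by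
    have h4 := h1.trans ((norm_sum_le _ _).trans (Finset.sum_le_card_nsmul _ _ _ hi))
    rw [Finset.card_univ, Fintype.card_fin, nsmul_eq_mul, div_le_iff₀ hW0] at h4
    rw [div_le_iff₀ (by positivity)]
    linarith
  refine ⟨i₀, h3, fun j hj => ?_⟩
  have h5 := wc2a_sub θ (Finset.subset_univ {j, i₀})
  rw [Finset.prod_pair hj] at h5
  have h6 : ‖θ j‖ * (H / (n * W)) ≤ (n + 1) * H :=
    (mul_le_mul (le_max_right _ _) (h3.trans (le_max_right _ _)) (by positivity)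
      (by positivity)).trans (h5.trans h2)
  rw [← mul_div_assoc, div_le_iff₀ (by positivity)] at h6
  refine le_of_mul_le_mul_right ?_ hH
  linarith

theorem wc2a_low {n : ℕ} (θ : Fin n → ℂ) (i₀ : Fin n) {u s : ℝ} (hu : 0 ≤ u) (hs : 0 < s)
    (hs1 : s ≤ 1) (h1 : ∀ j, j ≠ i₀ → u ≤ ‖θ i₀ - θ j‖)
    (h2 : ∀ i j, i ≠ i₀ → j ≠ i₀ → j ≠ i → s ≤ ‖θ i - θ j‖) :
    u ^ (2 * n - 2) * s ^ (n ^ 2) ≤ ‖∏ i, ∏ j ∈ Finset.univ.erase i, (θ i - θ j)‖ := by
  have hc : ∀ i : Fin n, (Finset.univ.erase i).card = n - 1 := fun i => by simp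
  simp only [norm_prod]
  rw [← Finset.mul_prod_erase _ _ (Finset.mem_univ i₀)]
  have a1 : u ^ (n - 1) ≤ ∏ j ∈ Finset.univ.erase i₀, ‖θ i₀ - θ j‖ := by
    rw [← hc i₀, ← Finset.prod_const]
    exact Finset.prod_le_prod (fun _ _ => hu) fun j hj => h1 j (Finset.ne_of_mem_erase hj)
  have a2 : (u * s ^ n) ^ (n - 1) ≤
      ∏ i ∈ Finset.univ.erase i₀, ∏ j ∈ Finset.univ.erase i, ‖θ i - θ j‖ := by
    rw [← hc i₀, ← Finset.prod_const]
    refine Finset.prod_le_prod (fun _ _ => by positivity) fun i hi => ?_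
    have hi' := Finset.ne_of_mem_erase hi
    rw [← Finset.mul_prod_erase _ _ (Finset.mem_erase.2 ⟨hi'.symm, Finset.mem_univ i₀⟩)]
    refine mul_le_mul (by rw [norm_sub_rev]; exact h1 i hi') ?_ (by positivity) (norm_nonneg _)
    refine (pow_le_pow_of_le_one hs.le hs1 (n := n)
      (m := ((Finset.univ.erase i).erase i₀).card) ((Finset.card_le_univ _).trans (Fintype.card_fin n).le)).trans ?_
    rw [← Finset.prod_const]
    exact Finset.prod_le_prod (fun _ _ => hs.le) fun j hj => h2 i j hi' (Finset.ne_of_mem_erase hj)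
      (Finset.ne_of_mem_erase (Finset.mem_of_mem_erase hj))
  refine le_trans ?_ (mul_le_mul a1 a2 (by positivity) (Finset.prod_nonneg fun _ _ => norm_nonneg _))
  rw [mul_pow, ← mul_assoc, ← pow_add, ← pow_mul, show n - 1 + (n - 1) = 2 * n - 2 by omega]
  refine mul_le_mul_of_nonneg_left (pow_le_pow_of_le_one hs.le hs1 ?_) (by positivity)
  rw [sq]
  exact Nat.mul_le_mul_left _ (Nat.sub_le _ _)

theorem wc2a_grid (z : ℂ) {s : ℝ} (hs : 0 < s) : ∃ a b : ℤ, |(a : ℝ)| ≤ ‖z‖ / s + 1 ∧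
    |(b : ℝ)| ≤ ‖z‖ / s + 1 ∧ ‖(s : ℂ) * (a + b * Complex.I) - z‖ ≤ s := by
  have key : ∀ x : ℝ, |x| ≤ ‖z‖ → |(round (x / s) : ℝ)| ≤ ‖z‖ / s + 1 ∧
      |s * round (x / s) - x| ≤ s / 2 := fun x hx => by
    have h1 := abs_sub_round (x / s)
    have h2 : |x / s| ≤ ‖z‖ / s := by
      rw [abs_div, abs_of_pos hs]
      exact div_le_div_of_nonneg_right hx hs.le
    refine ⟨?_, ?_⟩
    · have := abs_sub (x / s) (x / s - round (x / s))
      rw [sub_sub_cancel] at this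
      linarith
    · have e : s * round (x / s) - x = -(s * (x / s - round (x / s))) := by
        field_simp
        ring
      rw [e, abs_neg, abs_mul, abs_of_pos hs]
      nlinarith
  obtain ⟨a1, a2⟩ := key z.re (Complex.abs_re_le_norm z)
  obtain ⟨b1, b2⟩ := key z.im (Complex.abs_im_le_norm z)
  refine ⟨_, _, a1, b1, (Complex.norm_le_abs_re_add_abs_im _).trans ?_⟩
  simp only [Complex.sub_re, Complex.mul_re, Complex.ofReal_re, Complex.add_re, Complex.intCast_re,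
    Complex.I_re, Complex.intCast_im, Complex.I_im, Complex.ofReal_im, Complex.add_im,
    Complex.mul_im, Complex.sub_im, mul_zero, zero_mul, sub_zero, add_zero, mul_one, zero_add]
  linarith

theorem wc2a_eval {n : ℕ} (θ : Fin n → ℂ) {i j : Fin n} (hij : j ≠ i) {ρ : ℂ} {s R M : ℝ}
    (hs : 0 ≤ s) (hs1 : s ≤ 1) (hi : ‖ρ - θ i‖ ≤ s) (hj : ‖ρ - θ j‖ ≤ 2 * s) (hR : max 1 ‖ρ‖ ≤ R)
    (hM : ∏ i, max 1 ‖θ i‖ ≤ M) :
    ‖(∏ i, (X - C (θ i))).eval ρ‖ ≤ (3 + 2 * n) * ((n + 1) * (2 ^ n * M) * R ^ n) * s ^ 2 ∧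
      ‖(derivative (∏ i, (X - C (θ i)))).eval ρ‖ ≤
        (3 + 2 * n) * ((n + 1) * (2 ^ n * M) * R ^ n) * s := by
  set G : ℂ[X] := ∏ k ∈ (Finset.univ.erase i).erase j, (X - C (θ k)) with hG
  have hcard : ((Finset.univ.erase i).erase j).card ≤ n :=
    (Finset.card_le_univ _).trans (Fintype.card_fin n).le
  have e : ∏ i, (X - C (θ i)) = (X - C (θ i)) * ((X - C (θ j)) * G) := by
    rw [hG, Finset.mul_prod_erase _ (fun k => X - C (θ k)) (Finset.mem_erase.2 ⟨hij, Finset.mem_univ j⟩),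
      Finset.mul_prod_erase _ (fun k => X - C (θ k)) (Finset.mem_univ i)]
  have hd : G.natDegree ≤ n := by
    rw [hG, natDegree_finsetProd_X_sub_C_eq_card]
    exact hcard
  have hM0 : 0 ≤ M := (Finset.prod_nonneg fun _ _ => by positivity).trans hM
  have hG1 : G.supNorm ≤ 2 ^ n * M :=
    (sup_prod_X_sub_C _ θ).trans (mul_le_mul (pow_le_pow_right₀ one_le_two hcard)
      ((wc2a_sub θ (Finset.subset_univ _)).trans hM) (Finset.prod_nonneg fun _ _ => by positivity)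
      (by positivity))
  have hRn : (max 1 ‖ρ‖) ^ n ≤ R ^ n := pow_le_pow_left₀ (by positivity) hR n
  have hR0 : 0 ≤ R := le_trans (by positivity) hR
  set c : ℝ := (n + 1) * (2 ^ n * M) * R ^ n with hc
  have hc0 : 0 ≤ c := by positivity
  have b1 : ‖G.eval ρ‖ ≤ c := (norm_eval_le G hd ρ).trans (by rw [hc]; gcongr)
  have b2 : ‖(derivative G).eval ρ‖ ≤ n * c := by
    refine (norm_eval_le _ ((natDegree_derivative_le G).trans ((Nat.sub_le _ _).trans hd)) ρ).trans ?_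
    have h1 := (sup_derivative_le G hd).trans (mul_le_mul_of_nonneg_left hG1 (Nat.cast_nonneg n))
    calc _ ≤ (n + 1) * (n * (2 ^ n * M)) * R ^ n := by gcongr
      _ = n * c := by rw [hc]; ring
  have hn0 : (0 : ℝ) ≤ n := Nat.cast_nonneg n
  have hnc : 0 ≤ n * c := by positivity
  rw [e]
  refine ⟨?_, ?_⟩
  · simp only [eval_mul, eval_sub, eval_X, eval_C, norm_mul]
    calc _ ≤ s * (2 * s * c) := by gcongr
      _ ≤ _ := by nlinarith [mul_nonneg hc0 (sq_nonneg s), mul_nonneg hnc (sq_nonneg s)]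
  · simp only [derivative_mul, derivative_X_sub_C, eval_add, eval_mul, eval_sub, eval_X, eval_C,
      one_mul]
    refine (norm_add_le _ _).trans ?_
    rw [norm_mul, norm_mul]
    have b3 : ‖G.eval ρ + (ρ - θ j) * (derivative G).eval ρ‖ ≤ c + 2 * (n * c) := by
      refine (norm_add_le _ _).trans (add_le_add b1 ?_)
      rw [norm_mul]
      exact mul_le_mul (by linarith) b2 (norm_nonneg _) zero_le_two
    calc _ ≤ 2 * s * c + s * (c + 2 * (n * c)) := by gcongr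
      _ = _ := by ring

/-- a small discriminant gives a grid point where `f` is small to second order -/
theorem close_roots (n : ℕ) (hn : 5 ≤ n) : ∃ C₀ : ℝ, 1 ≤ C₀ ∧ ∀ (H W s : ℝ) (f : ℤ[X]),
    f.Monic → f.natDegree = n → f.supNorm ≤ H → 1 ≤ W → C₀ * W ^ 2 ≤ H → 0 < s → s ≤ 1 →
    H / W ≤ |((f.coeff (n - 1) : ℤ) : ℝ)| →
    C₀ * W ^ (2 * n) * |((Dv n f : ℤ) : ℝ)| < H ^ (2 * n - 2) * s ^ (n ^ 2) →
    ∃ a b : ℤ, |(a : ℝ)| ≤ C₀ * W / s ∧ |(b : ℝ)| ≤ C₀ * W / s ∧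
      ‖(s : ℂ) * (a + b * Complex.I)‖ ≤ C₀ * W ∧
      ‖(up ℂ f).eval ((s : ℂ) * (a + b * Complex.I))‖ ≤ C₀ * s ^ 2 * H * W ^ n ∧
      ‖(derivative (up ℂ f)).eval ((s : ℂ) * (a + b * Complex.I))‖ ≤ C₀ * s * H * W ^ n := by
  have hn' : (5 : ℝ) ≤ n := by exact_mod_cast hn
  set c1 : ℝ := (2 * n) ^ (2 * n) with hc1
  set c2 : ℝ := 2 * n ^ 2 * (n + 1) with hc2
  set c3 : ℝ := n * (n + 1) + 1 with hc3
  set c4 : ℝ := (3 + 2 * n) * ((n + 1) * (2 ^ n * (n + 1)) * c3 ^ n) with hc4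
  have p1 : 0 ≤ c1 := by positivity
  have p2 : 0 ≤ c2 := by positivity
  have p3 : 1 ≤ c3 := by nlinarith
  have p4 : 0 ≤ c4 := by positivity
  refine ⟨c1 + c2 + c3 + c4, by linarith, fun H W s f hm hd hH hW hWH hs hs1 hco hD => ?_⟩
  have hW0 : 0 < W := by linarith
  have hH2 : c2 * W ^ 2 ≤ H := le_trans (by gcongr; linarith) hWH
  have hH0 : 0 < H := lt_of_lt_of_le (by positivity) hH2
  obtain ⟨θ, hθ⟩ := exists_roots (n := n) (up ℂ f) (hm.map _) (by rw [hm.natDegree_map, hd])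
  have hM : ∏ i, max 1 ‖θ i‖ ≤ (n + 1) * H := hθ.prod_max_le.trans (by gcongr)
  have e : up ℂ f = ∏ i, (X - C (θ i)) := hθ
  have hsum : H / W ≤ ‖∑ i, θ i‖ := by
    have h1 := prod_X_sub_C_coeff_card_pred Finset.univ θ (by simp; omega)
    rw [← e, Finset.card_univ, Fintype.card_fin, coeff_map, eq_intCast] at h1
    rw [← norm_neg, ← h1, Complex.norm_intCast]
    exact hco
  obtain ⟨i₀, hi₀, hsm⟩ := wc2a_big (by omega) θ hW hH0 hsum hM
  have hfar : ∀ j, j ≠ i₀ → H / (2 * n * W) ≤ ‖θ i₀ - θ j‖ := fun j hj => by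
    have h1 := norm_sub_norm_le (θ i₀) (θ j)
    have h2 : (n : ℝ) * (n + 1) * W ≤ H / (2 * n * W) := by
      rw [le_div_iff₀ (by positivity)]
      linarith
    have h3 : H / (n * W) = 2 * (H / (2 * n * W)) := by field_simp
    linarith [hsm j hj]
  obtain ⟨i, j, hi, hj, hij, hd⟩ : ∃ i j, i ≠ i₀ ∧ j ≠ i₀ ∧ j ≠ i ∧ ‖θ i - θ j‖ < s := by
    by_contra hc
    push Not at hc
    have h1 := wc2a_low θ i₀ (by positivity) hs hs1 hfar hc
    rw [← Dv_roots, ← e, Dv_map, eq_intCast, Complex.norm_intCast] at h1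
    have h2 : (2 * n * W) ^ (2 * n - 2) ≤ (c1 + c2 + c3 + c4) * W ^ (2 * n) := by
      refine (pow_le_pow_right₀ (by nlinarith) (Nat.sub_le _ _)).trans ?_
      rw [mul_pow]
      gcongr
      linarith
    have h3 := mul_le_mul h2 h1 (by positivity) (by positivity)
    rw [← mul_assoc, ← mul_pow, mul_div_cancel₀ _ (by positivity)] at h3
    linarith
  obtain ⟨a, b, ha, hb, hρ⟩ := wc2a_grid (θ i) hs
  set ρ : ℂ := (s : ℂ) * (a + b * Complex.I) with hρ'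
  have hθi := hsm i hi
  have hab : ‖θ i‖ / s + 1 ≤ (c1 + c2 + c3 + c4) * W / s := by
    rw [div_add_one hs.ne']
    refine div_le_div_of_nonneg_right ?_ hs.le
    nlinarith [mul_nonneg p1 hW0.le, mul_nonneg p2 hW0.le, mul_nonneg p4 hW0.le]
  have hρn : ‖ρ‖ ≤ c3 * W := by
    have := norm_le_norm_add_norm_sub' ρ (θ i)
    nlinarith
  have hρj : ‖ρ - θ j‖ ≤ 2 * s := by
    have := norm_sub_le_norm_sub_add_norm_sub ρ (θ i) (θ j)
    linarith
  obtain ⟨e1, e2⟩ := wc2a_eval θ hij hs.le hs1 hρ hρj (R := c3 * W)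
    (max_le (by nlinarith) hρn) hM
  have e3 : (3 + 2 * n) * ((n + 1) * (2 ^ n * ((n + 1) * H)) * (c3 * W) ^ n) = c4 * (H * W ^ n) := by
    rw [hc4, mul_pow]
    ring
  rw [← e, e3] at e1 e2
  have e4 : c4 * (H * W ^ n) ≤ (c1 + c2 + c3 + c4) * (H * W ^ n) := by
    gcongr
    linarith
  refine ⟨a, b, ha.trans hab, hb.trans hab, hρn.trans (by gcongr; linarith), e1.trans ?_,
    e2.trans ?_⟩
  · exact (mul_le_mul_of_nonneg_right e4 (sq_nonneg s)).trans (le_of_eq (by ring))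
  · exact (mul_le_mul_of_nonneg_right e4 hs.le).trans (le_of_eq (by ring))

end Pool.Agent.VW
end

-- part Pool.Agent.P.MP_b0ea37_nt.WC2b
section

namespace Pool.Agent.VW

open Polynomial

theorem c2b_line (f g₁ g₂ : ℤ[X]) (ρ : ℂ) (s t : ℤ) :
    ((up ℂ (f + C s * g₁ + C t * g₂)).eval ρ).re = ((up ℂ f).eval ρ).re +
      s * ((up ℂ g₁).eval ρ).re + t * ((up ℂ g₂).eval ρ).re ∧
    ((derivative (up ℂ (f + C s * g₁ + C t * g₂))).eval ρ).re =
      ((derivative (up ℂ f)).eval ρ).re + s * ((derivative (up ℂ g₁)).eval ρ).re +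
        t * ((derivative (up ℂ g₂)).eval ρ).re := by
  have e : up ℂ (f + C s * g₁ + C t * g₂)
      = up ℂ f + C (s : ℂ) * up ℂ g₁ + C (t : ℂ) * up ℂ g₂ := by
    rw [up, Polynomial.map_add, Polynomial.map_add, Polynomial.map_mul, Polynomial.map_mul,
      map_C, map_C]
    rfl
  rw [e, derivative_add, derivative_add, derivative_C_mul, derivative_C_mul]
  simp only [eval_add, eval_mul, eval_C, Complex.add_re, Complex.mul_re, Complex.intCast_re,
    Complex.intCast_im, zero_mul, sub_zero, and_self]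

theorem c2b_abs {x y z s t T U r P : ℝ} (hx : |x| ≤ P) (hy : |y| ≤ T * r) (hz : |z| ≤ T * r)
    (hs : |s| * T ≤ U) (ht : |t| * T ≤ U) (hr : 0 ≤ r) :
    |x + s * y + t * z| ≤ P + 2 * U * r := by
  have h : ∀ {c w : ℝ}, |w| ≤ T * r → |c| * T ≤ U → |c * w| ≤ U * r := by
    intro c w hw hc
    rw [abs_mul]
    calc |c| * |w| ≤ |c| * (T * r) := mul_le_mul_of_nonneg_left hw (abs_nonneg c)
      _ = |c| * T * r := by ring
      _ ≤ U * r := mul_le_mul_of_nonneg_right hc hr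
  have h1 := h hy hs
  have h2 := h hz ht
  have h3 := abs_add_three x (s * y) (t * z)
  linarith

theorem c2b_T {G u T : ℝ} {k : ℕ} (hG : 1 ≤ G) (hu : 1 ≤ u) (hT : G * u ^ 3 ≤ T) (hk : 4 ≤ k) :
    G ≤ (1 / u ^ 4) ^ 3 * T ^ k := by
  have hu3 : 1 ≤ u ^ 3 := one_le_pow₀ hu
  have h1 : 1 ≤ G * u ^ 3 := one_le_mul_of_one_le_of_one_le hG hu3
  have h2 : (G * u ^ 3) ^ 4 ≤ T ^ k :=
    (pow_le_pow_left₀ (by positivity) hT 4).trans (pow_le_pow_right₀ (h1.trans hT) hk)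
  have h3 : G ≤ G ^ 4 := le_self_pow₀ hG (by norm_num)
  have h4 : (1 / u ^ 4) ^ 3 * (G * u ^ 3) ^ 4 = G ^ 4 := by field_simp
  calc G ≤ (1 / u ^ 4) ^ 3 * (G * u ^ 3) ^ 4 := by rw [h4]; exact h3
    _ ≤ _ := mul_le_mul_of_nonneg_left h2 (by positivity)

theorem c2b_A {W x C₀ k : ℝ} {n : ℕ} (hW : 3 ≤ W) (hC : C₀ ≤ W) (hk : 2 * k ≤ W) (hx : 1 ≤ x) :
    C₀ * x * W ^ n + 2 * k * x ≤ W ^ (n + 2) * x ∧
      2 * (W ^ (n + 2) * x) + 1 ≤ W ^ (n + 3) * x := by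
  have h1 : 1 ≤ W ^ n := one_le_pow₀ (by linarith)
  rw [pow_add, pow_add]
  generalize W ^ n = w at h1
  have h2 : C₀ * w ≤ W * w := mul_le_mul_of_nonneg_right hC (by linarith)
  have h3 : W ≤ W * w := le_mul_of_one_le_right (by linarith) h1
  have h4 : 2 * (W * w) ≤ W * (W * w) := mul_le_mul_of_nonneg_right (by linarith) (by linarith)
  have h5 : C₀ * w + 2 * k ≤ w * W ^ 2 := by nlinarith
  have h6 : 1 ≤ w * W ^ 2 * x :=
    one_le_mul_of_one_le_of_one_le (by nlinarith) hx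
  have h7 : 3 * (w * W ^ 2 * x) ≤ W * (w * W ^ 2 * x) :=
    mul_le_mul_of_nonneg_right hW (by linarith)
  have h8 := mul_le_mul_of_nonneg_right h5 (show 0 ≤ x by linarith)
  constructor
  · linarith
  · linarith

/-- the count for one grid point -/
theorem c2b_rho {n K : ℕ} (hn : 5 ≤ n) {C₀ C₁ H W u : ℝ} {P₀ : ℤ[X] → Prop}
    (hlf : ∀ (T B : ℝ) (g₁ g₂ : ℤ[X]) (P Q : ℤ[X] → Prop), 1 ≤ T → T ≤ H →
      g₁.natDegree < n → g₂.natDegree < n → Indep g₁ g₂ → g₁.supNorm ≤ T → g₂.supNorm ≤ T →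
      (∀ f, P f → P₀ f) →
      (∀ f, P f → ∀ s t : ℤ, |(s : ℝ)| * T ≤ K * H → |(t : ℝ)| * T ≤ K * H →
        Q (f + C s * g₁ + C t * g₂)) → Cnt Q B → Cnt P (C₁ * W ^ 2 * B * T / H))
    (hP₀ : ∀ f, P₀ f → Box n H f) (hC₁ : 0 ≤ C₁) (hC₀ : 1 ≤ C₀) (hCW : C₀ ≤ W)
    (hnW : 50 * ((n : ℝ) + 1) ^ 3 ≤ W) (hKW : 4 * K + 3 ≤ W) (hu : 1 ≤ u)
    (h1 : W ^ (4 * n + 2) * u ^ 3 ≤ H) (h2 : u ^ 8 ≤ H) (ρ : ℂ) (hρ : ‖ρ‖ ≤ C₀ * W) :
    Cnt (fun f => P₀ f ∧ ‖(up ℂ f).eval ρ‖ ≤ C₀ * (1 / u ^ 4) ^ 2 * H * W ^ n ∧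
      ‖(derivative (up ℂ f)).eval ρ‖ ≤ C₀ * (1 / u ^ 4) * H * W ^ n)
      (C₁ * W ^ 2 * (W ^ n * H ^ (n - 2) * (W ^ (n + 3) * (1 / u ^ 4 * H)) *
        (W ^ (n + 3) * ((1 / u ^ 4) ^ 2 * H))) * (W ^ (4 * n + 2) * u ^ 3) / H) := by
  have hK0 : (0 : ℝ) ≤ K := Nat.cast_nonneg K
  have hW3 : 3 ≤ W := by linarith
  have hW1 : 1 ≤ W := by linarith
  have hH1 : 1 ≤ H := (one_le_pow₀ hu).trans h2
  have hu4 : 1 ≤ u ^ 4 := one_le_pow₀ hu
  have hs0 : 0 < 1 / u ^ 4 := by positivity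
  have hs1 : 1 / u ^ 4 ≤ 1 := (div_le_one (by positivity)).2 hu4
  have hx2 : 1 ≤ (1 / u ^ 4) ^ 2 * H := by
    have e : (1 / u ^ 4) ^ 2 * u ^ 8 = 1 := by field_simp
    rw [← e]
    exact mul_le_mul_of_nonneg_left h2 (by positivity) |>.trans (le_of_eq (by rw [e]))
  have hx1 : 1 ≤ 1 / u ^ 4 * H := by
    refine hx2.trans (mul_le_mul_of_nonneg_right ?_ (by linarith))
    exact pow_le_of_le_one hs0.le hs1 two_ne_zero
  have hG : 1 ≤ W ^ (4 * n + 1) := one_le_pow₀ hW1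
  have hGu : 1 ≤ W ^ (4 * n + 1) * u ^ 3 := one_le_mul_of_one_le_of_one_le hG (one_le_pow₀ hu)
  obtain ⟨T, hT1, hT2⟩ : ∃ T : ℕ, W ^ (4 * n + 1) * u ^ 3 ≤ T ∧
      (T : ℝ) ≤ W ^ (4 * n + 2) * u ^ 3 := by
    refine ⟨⌈W ^ (4 * n + 1) * u ^ 3⌉₊, Nat.le_ceil _, ?_⟩
    have h3 := (Nat.ceil_lt_add_one (show 0 ≤ W ^ (4 * n + 1) * u ^ 3 by linarith)).le
    have h4 := mul_le_mul_of_nonneg_right hW3 (show 0 ≤ W ^ (4 * n + 1) * u ^ 3 by linarith)
    have e : W ^ (4 * n + 2) * u ^ 3 = W * (W ^ (4 * n + 1) * u ^ 3) := by ring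
    rw [e]
    linarith
  have hT0 : (1 : ℝ) ≤ T := hGu.trans hT1
  have hV : 50 * ((n : ℝ) + 1) ^ 3 * (C₀ * W) ^ (2 * n) ≤ W ^ (4 * n + 1) := by
    have h3 : (C₀ * W) ^ (2 * n) ≤ (W * W) ^ (2 * n) :=
      pow_le_pow_left₀ (by positivity) (mul_le_mul_of_nonneg_right hCW (by linarith)) _
    calc _ ≤ W * (W * W) ^ (2 * n) := mul_le_mul hnW h3 (by positivity) (by linarith)
      _ = W ^ (4 * n + 1) := by ring
  obtain ⟨g₁, g₂, d1, d2, hi, n1, n2, e1, e2, e3, e4⟩ := near_short n T (by omega) ρ (C₀ * W)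
    (1 / u ^ 4) (one_le_mul_of_one_le_of_one_le hC₀ hW1) hρ hs0 hs1 (by exact_mod_cast hT0)
    (hV.trans (c2b_T hG hu hT1 (by omega)))
  generalize 1 / u ^ 4 = s at *
  obtain ⟨a1, a2⟩ := c2b_A (n := n) (k := K) hW3 hCW (by linarith) hx1
  obtain ⟨b1, b2⟩ := c2b_A (n := n) (k := K) hW3 hCW (by linarith) hx2
  have hQ := cnt_near n (by omega) ρ (H + 2 * (K * H)) (W ^ (n + 2) * (s ^ 2 * H))
    (W ^ (n + 2) * (s * H)) (by positivity) (by positivity) (by positivity)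
  have hR : (2 * (H + 2 * (K * H)) + 1) ^ (n - 2) ≤ W ^ n * H ^ (n - 2) := by
    have h3 := mul_le_mul_of_nonneg_right hKW (show 0 ≤ H by linarith)
    calc _ ≤ (W * H) ^ (n - 2) := pow_le_pow_left₀ (by positivity) (by linarith) _
      _ = W ^ (n - 2) * H ^ (n - 2) := mul_pow _ _ _
      _ ≤ _ := mul_le_mul_of_nonneg_right (pow_le_pow_right₀ hW1 (Nat.sub_le _ _))
        (by positivity)
  refine (hlf T _ g₁ g₂ _ _ hT0 (hT2.trans h1) d1 d2 hi n1 n2 (fun f hf => hf.1) ?_ hQ).mono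
    (fun _ h => h) ?_
  · rintro f ⟨hf, f1, f2⟩ c t hc ht
    obtain ⟨hm, hd, -, hs⟩ := hP₀ f hf
    obtain ⟨m1, m2⟩ := monic_add_line hm hd d1 d2 c t
    obtain ⟨l1, l2⟩ := c2b_line f g₁ g₂ ρ c t
    refine ⟨m1, m2, sup_add_line hs n1 n2 hc ht, ?_, ?_⟩
    · rw [l1]
      refine (c2b_abs ((Complex.abs_re_le_norm _).trans f1) e1 e2 hc ht (by positivity)).trans ?_
      linarith
    · rw [l2]
      refine (c2b_abs ((Complex.abs_re_le_norm _).trans f2) e3 e4 hc ht hs0.le).trans ?_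
      linarith
  · gcongr

/-- 6.2 -/
theorem ps_c2 (n : ℕ) (hn : 5 ≤ n) (η : ℝ) (hη : 0 < η) : ∃ κ : ℝ, 0 < κ ∧ κ ≤ η ∧ κ ≤ 1 ∧
    PS n fun H f => Bad n f ∧ Tiny κ H f ∧ H ^ (1 - κ) ≤ |((f.coeff (n - 1) : ℤ) : ℝ)| ∧
      |((Dv n f : ℤ) : ℝ)| < H ^ (2 * (n : ℝ) - 2 - η) := by
  obtain ⟨K, hK⟩ := lf0 n hn
  obtain ⟨C₀, hC₀, hcr⟩ := close_roots n hn
  obtain ⟨E, hE⟩ : ∃ E : ℕ, E = 1 + 2 * n + (7 * n + 17) * 4 * n ^ 2 := ⟨_, rfl⟩
  have hE1 : (1 : ℝ) ≤ E := by exact_mod_cast (show 1 ≤ E by omega)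
  have hmin : 0 < min 1 η := lt_min one_pos hη
  obtain ⟨a, ha0, haE⟩ : ∃ a : ℝ, 0 < a ∧ a * E = min 1 η :=
    ⟨min 1 η / E, by positivity, by field_simp⟩
  have ha : a ≤ min 1 η := haE ▸ le_mul_of_one_le_right ha0.le hE1
  obtain ⟨C₁, hC₁, hlf⟩ := hK a ha0
  obtain ⟨H₀, hH₀, hbig⟩ := exists_pow_ge (C₀ + 50 * ((n : ℝ) + 1) ^ 3 + (4 * K + 3)) a ha0
  refine ⟨a, ha0, ha.trans (min_le_right _ _), ha.trans (min_le_left _ _),
    PS.of_lt (n - 1 - a) C₁ H₀ (by linarith) fun H hH => ?_⟩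
  have hH1 : 1 ≤ H := hH₀.trans hH
  have hH0 : 0 < H := by linarith
  obtain ⟨W, hW⟩ : ∃ W, W = H ^ a := ⟨_, rfl⟩
  have hb := hbig H hH
  rw [← hW] at hb
  have hn3 : 0 ≤ 50 * ((n : ℝ) + 1) ^ 3 := by positivity
  have hK0 : (0 : ℝ) ≤ K := Nat.cast_nonneg K
  have hCW : C₀ ≤ W := by linarith
  have hW3 : 3 ≤ W := by linarith
  have hW1 : 1 ≤ W := by linarith
  have hWE : W ^ E = H ^ min 1 η := by
    rw [hW, ← Real.rpow_natCast, ← Real.rpow_mul hH0.le, haE]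
  have hWH : W ^ E ≤ H := by
    rw [hWE]
    exact (Real.rpow_le_rpow_of_exponent_le hH1 (min_le_left _ _)).trans_eq (Real.rpow_one H)
  have hWη : W ^ E ≤ H ^ η := hWE ▸ Real.rpow_le_rpow_of_exponent_le hH1 (min_le_right _ _)
  have hle : ∀ k : ℕ, k ≤ E → W ^ k ≤ H := fun k hk => (pow_le_pow_right₀ hW1 hk).trans hWH
  have hn2 : 25 ≤ n ^ 2 := by nlinarith
  have hEn : (7 * n + 17) * 4 * 25 ≤ E := by
    have := Nat.mul_le_mul_left ((7 * n + 17) * 4) hn2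
    omega
  have r1 : H ^ (1 - a) = H / W := by rw [Real.rpow_sub hH0, Real.rpow_one, hW]
  have r2 : H ^ (a + a) = W ^ 2 := by rw [Real.rpow_add hH0, hW, sq]
  have r3 : H ^ ((n : ℝ) - 1 - a) = H ^ (n - 2) * H / W := by
    have e : (n : ℝ) - 1 = ((n - 2 + 1 : ℕ) : ℝ) := by
      rw [Nat.cast_add, Nat.cast_sub (by omega)]
      push_cast
      ring
    rw [Real.rpow_sub hH0, e, Real.rpow_natCast, pow_succ, hW]
  have r4 : H ^ (2 * (n : ℝ) - 2 - η) = H ^ (2 * n - 2) / H ^ η := by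
    have e : 2 * (n : ℝ) - 2 = ((2 * n - 2 : ℕ) : ℝ) := by
      rw [Nat.cast_sub (by omega)]
      push_cast
      ring
    rw [Real.rpow_sub hH0, e, Real.rpow_natCast]
  obtain ⟨u, hu⟩ : ∃ u, u = W ^ (7 * n + 17) := ⟨_, rfl⟩
  have hu1 : 1 ≤ u := hu ▸ one_le_pow₀ hW1
  have h1 : W ^ (4 * n + 2) * u ^ 3 ≤ H := by
    rw [hu, ← pow_mul, ← pow_add]
    exact hle _ (by omega)
  have h2 : u ^ 8 ≤ H := by
    rw [hu, ← pow_mul]
    exact hle _ (by omega)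
  have h3 : C₀ * W ^ 2 ≤ H := by
    refine (mul_le_mul_of_nonneg_right hCW (by positivity)).trans ?_
    rw [← pow_succ']
    exact hle _ (by omega)
  have h4 : C₀ * W ^ (2 * n) * (u ^ 4) ^ (n ^ 2) ≤ H ^ η := by
    refine le_trans ?_ hWη
    rw [hE, pow_add, pow_add, pow_one, hu, ← pow_mul, ← pow_mul, ← mul_assoc (7 * n + 17)]
    gcongr
  have hs0 : 0 < 1 / u ^ 4 := by positivity
  have hs1 : 1 / u ^ 4 ≤ 1 := (div_le_one (by positivity)).2 (one_le_pow₀ hu1)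
  have hrho := c2b_rho (K := K) (C₁ := C₁) (P₀ := fun f => Box n H f ∧ Bad n f ∧ Tiny a H f) hn
    (fun T B g₁ g₂ P Q t1 t2 d1 d2 hi n1 n2 p1 p2 p3 => r2 ▸ hlf H a T B g₁ g₂ P Q ha0.le
      (ha.trans (min_le_left _ _)) t1 t2 d1 d2 hi n1 n2 p1 p2 p3)
    (fun _ hf => hf.1) (by linarith) hC₀ hCW (by linarith) (by linarith) hu1 h1 h2
  have hR0 : 0 ≤ C₀ * W / (1 / u ^ 4) := by positivity
  have hI : Cnt (fun t : ℤ => |(t : ℝ)| ≤ C₀ * W / (1 / u ^ 4)) (W ^ 3 * u ^ 4) := by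
    refine (cnt_int_abs _ hR0).mono (fun _ h => h) ?_
    rw [div_div_eq_mul_div, div_one]
    have h5 : C₀ * W * u ^ 4 ≤ W * W * u ^ 4 := by gcongr
    have h6 : 1 ≤ W * W * u ^ 4 :=
      one_le_mul_of_one_le_of_one_le (one_le_mul_of_one_le_of_one_le hW1 hW1) (one_le_pow₀ hu1)
    have h7 := mul_le_mul_of_nonneg_right hW3 (show 0 ≤ W * W * u ^ 4 by linarith)
    have e : W ^ 3 * u ^ 4 = W * (W * W * u ^ 4) := by ring
    rw [e]
    linarith
  have hZ : Cnt (fun z : ℤ × ℤ => (|(z.1 : ℝ)| ≤ C₀ * W / (1 / u ^ 4) ∧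
      |(z.2 : ℝ)| ≤ C₀ * W / (1 / u ^ 4)) ∧
      ‖((1 / u ^ 4 : ℝ) : ℂ) * (z.1 + z.2 * Complex.I)‖ ≤ C₀ * W)
      (W ^ 3 * u ^ 4 * (W ^ 3 * u ^ 4)) :=
    (hI.prod hI.nonneg fun _ _ => hI).mono (fun _ h => h.1) le_rfl
  refine (hZ.fibre (by positivity) fun z hz => hrho _ hz.2).mono ?_ (le_of_eq ?_)
  · rintro f ⟨hB, hbad, hti, hc, hD⟩
    rw [r1] at hc
    rw [r4, lt_div_iff₀ (by positivity)] at hD
    have h5 : C₀ * W ^ (2 * n) * |((Dv n f : ℤ) : ℝ)| < H ^ (2 * n - 2) * (1 / u ^ 4) ^ n ^ 2 := by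
      rw [one_div, inv_pow, ← div_eq_mul_inv, lt_div_iff₀ (by positivity)]
      have h6 := mul_le_mul_of_nonneg_left h4 (abs_nonneg ((Dv n f : ℤ) : ℝ))
      linarith
    obtain ⟨x, y, c1, c2, c3, c4, c5⟩ := hcr H W (1 / u ^ 4) f hB.1 hB.2.1 hB.2.2.2 hW1 h3 hs0
      hs1 hc h5
    exact ⟨(x, y), ⟨⟨c1, c2⟩, c3⟩, ⟨hB, hbad, hti⟩, c4, c5⟩
  · have e1 : u = (W ^ n) ^ 7 * W ^ 17 := by rw [hu]; ring
    have e2 : W ^ (4 * n + 2) = (W ^ n) ^ 4 * W ^ 2 := by ring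
    have hw : 0 < W ^ n := by positivity
    rw [r3, e2, pow_add W n 3]
    generalize W ^ n = w at e1 hw
    generalize H ^ (n - 2) = p
    have e3 : W ^ 3 * u ^ 4 * (W ^ 3 * u ^ 4) * (C₁ * W ^ 2 * (w * p * (w * W ^ 3 *
        (1 / u ^ 4 * H)) * (w * W ^ 3 * ((1 / u ^ 4) ^ 2 * H))) * (w ^ 4 * W ^ 2 * u ^ 3) / H)
        = C₁ * p * H * (w ^ 7 * W ^ 16) / u := by field_simp
    rw [e3, e1]
    field_simp

end Pool.Agent.VW
end

-- part Pool.Agent.P.MP_b0ea37_nt.WClf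
section

namespace Pool.Agent.VW

open Polynomial

theorem clf_cnt (n Y : ℕ) (c : ℤ[X]) (M H : ℝ) (hM : 1 ≤ M) (hH : 1 ≤ H) (hY : 1 ≤ Y)
    (hYH : (Y : ℝ) ≤ 2 * H) (hc : c.Monic) (hd : c.natDegree ≤ n) :
    Cnt (fun h : ℤ[X] => h.Monic ∧ h.natDegree = n ∧ h.supNorm ≤ M * H ∧ Lam Y c h)
      ((2 * M + 2) ^ n * H ^ n / (Y : ℝ) ^ c.natDegree) := by
  have hY' : (0 : ℝ) < Y := by exact_mod_cast hY
  have hMH : 0 ≤ M * H := by positivity
  refine (cnt_lam n hY hc hd (M * H) hMH).mono (fun _ h => h) ?_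
  have h1 : 2 * (M * H) + 1 ≤ (2 * M + 2) * H := by nlinarith
  have h2 : 2 * (M * H) / Y + 1 ≤ (2 * M + 2) * H / Y := by
    have : (1 : ℝ) ≤ 2 * H / Y := by rw [le_div_iff₀ hY']; linarith
    have e : (2 * M + 2) * H / Y = 2 * (M * H) / Y + 2 * H / Y := by ring
    rw [e]; linarith
  calc (2 * (M * H) + 1) ^ (n - c.natDegree) * (2 * (M * H) / Y + 1) ^ c.natDegree
      ≤ ((2 * M + 2) * H) ^ (n - c.natDegree) * ((2 * M + 2) * H / Y) ^ c.natDegree := by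
        gcongr
    _ = (2 * M + 2) ^ n * H ^ n / (Y : ℝ) ^ c.natDegree := by
        rw [div_pow, ← mul_div_assoc, ← pow_add, Nat.sub_add_cancel hd, mul_pow]

theorem clf_rpow (n : ℕ) (H a : ℝ) (hH : 1 ≤ H) :
    H ^ ((n : ℝ) - 1 + a) = H ^ a * H ^ n / H := by
  have h0 : 0 < H := by linarith
  rw [Real.rpow_add h0, Real.rpow_sub_one h0.ne', Real.rpow_natCast]
  ring

/-- LF -/
theorem lf (n : ℕ) (hn : 5 ≤ n) (ε : ℝ) (hε : 0 < ε) : ∃ C₀ : ℝ, 1 ≤ C₀ ∧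
    ∀ (H δ T : ℝ) (Y : ℕ) (c g₁ g₂ : ℤ[X]), 1 ≤ H → 0 ≤ δ → δ ≤ 1 → 1 ≤ Y → (Y : ℝ) ≤ 2 * H →
    c.Monic → c.natDegree ≤ n → 1 ≤ T → g₁.natDegree < n → g₂.natDegree < n → Indep g₁ g₂ →
    g₁.supNorm ≤ T → g₂.supNorm ≤ T → Lam Y c g₁ → Lam Y c g₂ →
    Cnt (fun f => Box n H f ∧ Bad n f ∧ Tiny δ H f ∧ Lam Y c f)
      (C₀ * H ^ ((n : ℝ) - 1 + δ + ε) * T / (Y : ℝ) ^ c.natDegree) := by
  obtain ⟨K, hK⟩ := lf0 n hn
  obtain ⟨C₁, hC₁, h0⟩ := hK ε hε
  have hK0 : (0 : ℝ) ≤ K := Nat.cast_nonneg K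
  have hM : (1 : ℝ) ≤ 1 + 2 * K := by linarith
  have hA : (1 : ℝ) ≤ (2 * (1 + 2 * K) + 2) ^ n := one_le_pow₀ (by linarith)
  refine ⟨C₁ * (2 * (1 + 2 * K) + 2) ^ n, one_le_mul_of_one_le_of_one_le hC₁ hA, ?_⟩
  intro H δ T Y c g₁ g₂ hH hδ hδ1 hY hYH hc hd hT h1 h2 hI s1 s2 l1 l2
  have hY' : (0 : ℝ) < Y := by exact_mod_cast hY
  have hH0 : 0 < H := by linarith
  have hQ := clf_cnt n Y c (1 + 2 * K) H hM hH hY hYH hc hd
  rw [add_assoc ((n : ℝ) - 1), clf_rpow n H (δ + ε) hH]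
  generalize (2 * (1 + 2 * (K : ℝ)) + 2) ^ n = A at hA hQ ⊢
  rcases le_or_gt T H with hTH | hTH
  · refine (h0 H δ T _ g₁ g₂ (fun f => Box n H f ∧ Bad n f ∧ Tiny δ H f ∧ Lam Y c f) _ hδ hδ1 hT
      hTH h1 h2 hI s1 s2 (fun f hf => ⟨hf.1, hf.2.1, hf.2.2.1⟩) ?_ hQ).mono (fun _ h => h)
      (le_of_eq (by ring))
    intro f hf s t hs ht
    obtain ⟨hm, hdeg⟩ := monic_add_line hf.1.1 hf.1.2.1 h1 h2 s t
    refine ⟨hm, hdeg, ?_, (hf.2.2.2.add (l1.mul_left _)).add (l2.mul_left _)⟩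
    exact (sup_add_line hf.1.2.2.2 s1 s2 hs ht).trans (le_of_eq (by ring))
  · refine hQ.mono (fun f hf => ⟨hf.1.1, hf.1.2.1, hf.1.2.2.2.trans ?_, hf.2.2.2⟩) ?_
    · nlinarith
    · have e1 : 1 ≤ H ^ (δ + ε) := Real.one_le_rpow hH (by linarith)
      have e2 : 1 ≤ T / H := by rw [le_div_iff₀ hH0]; linarith
      have e3 : 1 ≤ C₁ * H ^ (δ + ε) * (T / H) :=
        one_le_mul_of_one_le_of_one_le (one_le_mul_of_one_le_of_one_le hC₁ e1) e2
      have e4 : 0 ≤ A * H ^ n / (Y : ℝ) ^ c.natDegree := by positivity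
      calc A * H ^ n / (Y : ℝ) ^ c.natDegree
          ≤ (C₁ * H ^ (δ + ε) * (T / H)) * (A * H ^ n / (Y : ℝ) ^ c.natDegree) :=
            le_mul_of_one_le_left e4 e3
        _ = _ := by ring

theorem clf_box (n d : ℕ) (hn : 5 ≤ n) (Y b T : ℝ) (hY : 1 ≤ Y) (hb : (d : ℝ) ≤ b * (n - 1))
    (hT : 3 * Y ^ b ≤ T) : Y ^ d * (1 + 2 * T / 1) < (T + 1) ^ n := by
  obtain ⟨m, rfl⟩ : ∃ m, n = m + 1 := ⟨n - 1, by omega⟩
  have hY0 : 0 < Y := by linarith
  have hYb : 0 < Y ^ b := Real.rpow_pos_of_pos hY0 b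
  have hT0 : 0 < T := by linarith
  have h1 : Y ^ d ≤ (Y ^ b) ^ m := by
    rw [← Real.rpow_natCast, ← Real.rpow_natCast, ← Real.rpow_mul hY0.le]
    refine Real.rpow_le_rpow_of_exponent_le hY ?_
    push_cast at hb
    linarith
  have h2 : (2 : ℝ) ≤ 3 ^ m := by
    calc (2 : ℝ) ≤ 3 ^ 1 := by norm_num
      _ ≤ 3 ^ m := pow_le_pow_right₀ (by norm_num) (by omega)
  have h3 : (3 * Y ^ b) ^ m ≤ (T + 1) ^ m := pow_le_pow_left₀ (by positivity) (by linarith) m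
  have h4 : 2 * Y ^ d ≤ (T + 1) ^ m := by
    refine le_trans ?_ h3
    rw [mul_pow]
    exact mul_le_mul h2 h1 (by positivity) (by positivity)
  have h5 : 0 < Y ^ d := by positivity
  rw [pow_succ, div_one]
  calc Y ^ d * (1 + 2 * T) < Y ^ d * (2 * (T + 1)) := by
        refine mul_lt_mul_of_pos_left (by linarith) h5
    _ = (2 * Y ^ d) * (T + 1) := by ring
    _ ≤ (T + 1) ^ m * (T + 1) := mul_le_mul_of_nonneg_right h4 (by linarith)

/-- all `q` for one modulus -/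
theorem fam_cnt (n : ℕ) (hn : 5 ≤ n) (ε : ℝ) (hε : 0 < ε) : ∃ C₀ : ℝ, 1 ≤ C₀ ∧
    ∀ (H δ b : ℝ) (Y e k : ℕ), 1 ≤ H → 0 ≤ δ → δ ≤ 1 → 1 ≤ Y → (Y : ℝ) ≤ 2 * H → k * e ≤ n →
    (k : ℝ) * e ≤ b * (n - 1) →
    Cnt (fun f => Box n H f ∧ Bad n f ∧ Tiny δ H f ∧ Pw Y e k f)
      (C₀ * H ^ ((n : ℝ) - 1 + δ + ε) * (Y : ℝ) ^ ((e : ℝ) - k * e + b)) := by
  obtain ⟨C₁, hC₁, h0⟩ := lf n hn ε hε
  refine ⟨4 * C₁, by linarith, ?_⟩
  intro H δ b Y e k hH hδ hδ1 hY hYH hke hb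
  have hY1 : (1 : ℝ) ≤ Y := by exact_mod_cast hY
  have hY0 : (0 : ℝ) < Y := by linarith
  have hH0 : 0 < H := by linarith
  have hn' : (5 : ℝ) ≤ n := by exact_mod_cast hn
  have hb0 : 0 ≤ b := by
    by_contra hneg
    have h1 : b * ((n : ℝ) - 1) < 0 := mul_neg_of_neg_of_pos (not_le.1 hneg) (by linarith)
    have h2 : (0 : ℝ) ≤ (k : ℝ) * e := by positivity
    linarith
  have hYb : 1 ≤ (Y : ℝ) ^ b := Real.one_le_rpow hY1 hb0
  obtain ⟨T, hT1, hT2⟩ : ∃ T : ℕ, 3 * (Y : ℝ) ^ b ≤ T ∧ (T : ℝ) ≤ 4 * (Y : ℝ) ^ b :=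
    ⟨⌈3 * (Y : ℝ) ^ b⌉₊, Nat.le_ceil _, by
      have := Nat.ceil_lt_add_one (show (0 : ℝ) ≤ 3 * (Y : ℝ) ^ b by linarith)
      linarith⟩
  have hW : 0 < H ^ ((n : ℝ) - 1 + δ + ε) := Real.rpow_pos_of_pos hH0 _
  have key : ∀ q : ℤ[X], Red Y e q →
      Cnt (fun f => Box n H f ∧ Bad n f ∧ Tiny δ H f ∧ Lam Y (q ^ k) f)
        (C₁ * H ^ ((n : ℝ) - 1 + δ + ε) * (4 * (Y : ℝ) ^ b) / (Y : ℝ) ^ (k * e)) := by
    intro q hq
    have hc : (q ^ k).Monic := hq.1.pow k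
    have hd : (q ^ k).natDegree = k * e := by rw [hq.1.natDegree_pow, hq.2.1]
    obtain ⟨g₁, g₂, h1, h2, hI, s1, s2, l1, l2⟩ := lam_short n Y T (by omega) hY (q ^ k) hc 1
      one_pos (fun g hg _ _ => one_le_sup hg)
      (clf_box n _ hn Y b T hY1 (by rw [hd]; push_cast; exact hb) hT1)
    refine (h0 H δ T Y (q ^ k) g₁ g₂ hH hδ hδ1 hY hYH hc (hd ▸ hke) (by linarith) h1 h2 hI s1 s2
      l1 l2).mono (fun _ h => h) ?_
    rw [hd]
    have hC0 : 0 ≤ C₁ := by linarith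
    gcongr
  have hC0 : 0 < C₁ := by linarith
  refine (Cnt.fibre (cnt_red Y e) (by positivity) key).mono (fun f hf => ?_) (le_of_eq ?_)
  · obtain ⟨q, hq, hl⟩ := hf.2.2.2.red hY
    exact ⟨q, hq, hf.1, hf.2.1, hf.2.2.1, hl⟩
  · rw [Real.rpow_add hY0 ((e : ℝ) - k * e), Real.rpow_sub hY0, Real.rpow_natCast,
      ← Nat.cast_mul, Real.rpow_natCast]
    ring

end Pool.Agent.VW
end

-- part Pool.Agent.P.MP_b0ea37_nt.WCsq
section

namespace Pool.Agent.VW

open Polynomial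

section aux

variable {p : ℕ} [Fact p.Prime]

/-- all coefficients are small -/
def csqSm (ε : ℝ) (a : (PadicAlgCl p)[X]) : Prop := ∀ i, ‖a.coeff i‖ ≤ ε

theorem csq_add {x y : PadicAlgCl p} {B : ℝ} (hx : ‖x‖ ≤ B) (hy : ‖y‖ ≤ B) : ‖x + y‖ ≤ B :=
  (IsUltrametricDist.norm_add_le_max x y).trans (max_le hx hy)

theorem csqSm.add {ε : ℝ} {a b : (PadicAlgCl p)[X]} (ha : csqSm ε a) (hb : csqSm ε b) :
    csqSm ε (a + b) := fun i => by
  rw [coeff_add]; exact csq_add (ha i) (hb i)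

theorem csqSm.mul {ε : ℝ} {a b : (PadicAlgCl p)[X]} (ha : csqSm 1 a) (hb : csqSm ε b) :
    csqSm ε (a * b) := fun i => by
  rw [coeff_mul]
  refine IsUltrametricDist.norm_sum_le_of_forall_le_of_nonneg
    ((norm_nonneg _).trans (hb 0)) fun x _ => ?_
  rw [norm_mul]
  exact (mul_le_of_le_one_left (norm_nonneg _) (ha _)).trans (hb _)

theorem csqSm_one : csqSm 1 (1 : (PadicAlgCl p)[X]) := fun i => by
  rw [coeff_one]; split_ifs <;> simp

theorem csqSm.pow {a : (PadicAlgCl p)[X]} (ha : csqSm 1 a) (k : ℕ) : csqSm 1 (a ^ k) := by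
  induction k with
  | zero => rw [pow_zero]; exact csqSm_one
  | succ k ih => rw [pow_succ]; exact ih.mul ha

theorem csqSm_prod {ι : Type} (s : Finset ι) (a : ι → (PadicAlgCl p)[X])
    (h : ∀ i ∈ s, csqSm 1 (a i)) : csqSm 1 (∏ i ∈ s, a i) :=
  Finset.prod_induction a (csqSm 1) (fun _ _ ha hb => ha.mul hb) csqSm_one h

theorem csqSm_C {ε : ℝ} {z : PadicAlgCl p} (hz : ‖z‖ ≤ ε) : csqSm ε (C z) := fun i => by
  rw [coeff_C]
  split_ifs
  · exact hz
  · rw [norm_zero]; exact (norm_nonneg _).trans hz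

theorem csqSm_lin {z : PadicAlgCl p} (hz : ‖z‖ ≤ 1) : csqSm 1 (X - C z) := by
  have e : (X - C z : (PadicAlgCl p)[X]) = X + C (-z) := by rw [C_neg]; ring
  rw [e]
  refine csqSm.add (fun i => ?_) (csqSm_C (by rwa [norm_neg]))
  rw [coeff_X]; split_ifs <;> simp

theorem csqSm_up (f : ℤ[X]) : csqSm 1 (up (PadicAlgCl p) f) := fun i => by
  rw [coeff_map]; exact pn_int_le _

theorem csqSm_sub_prod {ι : Type} (s : Finset ι) (θ μ : ι → PadicAlgCl p) {ε : ℝ} (hε : 0 ≤ ε)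
    (hθ : ∀ i, ‖θ i‖ ≤ 1) (hμ : ∀ i, ‖μ i‖ ≤ 1) (h : ∀ i, ‖μ i - θ i‖ ≤ ε) :
    csqSm ε (∏ i ∈ s, (X - C (θ i)) - ∏ i ∈ s, (X - C (μ i))) := by
  classical
  induction s using Finset.induction_on with
  | empty => intro i; simpa using hε
  | insert a s ha ih =>
    rw [Finset.prod_insert ha, Finset.prod_insert ha]
    have e : (X - C (θ a)) * ∏ i ∈ s, (X - C (θ i)) - (X - C (μ a)) * ∏ i ∈ s, (X - C (μ i)) =
        (X - C (θ a)) * (∏ i ∈ s, (X - C (θ i)) - ∏ i ∈ s, (X - C (μ i))) +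
          (∏ i ∈ s, (X - C (μ i))) * C (μ a - θ a) := by
      rw [C_sub]; ring
    rw [e]
    exact ((csqSm_lin (hθ a)).mul ih).add
      ((csqSm_prod s _ fun i _ => csqSm_lin (hμ i)).mul (csqSm_C (h a)))

/-- fixed by all automorphisms -/
def csqFix (a : (PadicAlgCl p)[X]) : Prop :=
  ∀ σ : PadicAlgCl p ≃ₐ[ℚ_[p]] PadicAlgCl p, a.map (σ : PadicAlgCl p →+* PadicAlgCl p) = a

theorem csq_approx {a : (PadicAlgCl p)[X]} (hf : csqFix a) (hs : csqSm 1 a) (N γ : ℕ)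
    (hN : a.degree < N) : ∃ b : ℤ[X], b.degree < N ∧
      csqSm ((p : ℝ)⁻¹ ^ γ) (a - up (PadicAlgCl p) b) := by
  have h1 : ∀ i, ∃ r : ℤ, ‖a.coeff i - r‖ ≤ (p : ℝ)⁻¹ ^ γ := fun i =>
    exists_int_near (fun σ => by
      have h2 := congrArg (fun u => u.coeff i) (hf σ)
      simpa using h2) (hs i) γ
  choose r hr using h1
  have hc : ∀ i, (∑ j ∈ Finset.range N, monomial j (r j) : ℤ[X]).coeff i =
      if i < N then r i else 0 := fun i => by
    rw [finsetSum_coeff]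
    simp only [coeff_monomial]
    rw [Finset.sum_ite_eq' (Finset.range N) i r]
    simp only [Finset.mem_range]
  refine ⟨∑ j ∈ Finset.range N, monomial j (r j), ?_, fun i => ?_⟩
  · rw [degree_lt_iff_coeff_zero]
    intro m hm
    rw [hc, if_neg (not_lt.2 hm)]
  · rw [coeff_sub, coeff_map, hc]
    split_ifs with hi
    · exact hr i
    · rw [(degree_lt_iff_coeff_zero a N).1 hN i (not_lt.1 hi)]
      simp

/-- an equivariant family with a repeated value gives a square factor -/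
theorem csq_factor {n : ℕ} (μ : Fin n → PadicAlgCl p) (hμ : ∀ i, ‖μ i‖ ≤ 1)
    (heq : ∀ σ : PadicAlgCl p ≃ₐ[ℚ_[p]] PadicAlgCl p, ∃ π : Equiv.Perm (Fin n),
      ∀ i, σ (μ i) = μ (π i)) {i₀ j₀ : Fin n} (hij : j₀ ≠ i₀) (h₀ : μ j₀ = μ i₀) :
    ∃ qq hh : (PadicAlgCl p)[X], qq.Monic ∧ 1 ≤ qq.natDegree ∧ 2 * qq.natDegree ≤ n ∧
      csqSm 1 qq ∧ csqSm 1 hh ∧ csqFix qq ∧ csqFix hh ∧
      ∏ i, (X - C (μ i)) = qq ^ 2 * hh := by
  classical
  obtain ⟨T, hT⟩ : ∃ T : Finset (PadicAlgCl p),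
      ∀ z, z ∈ T ↔ ∃ i j, j ≠ i ∧ μ j = μ i ∧ μ i = z := by
    refine ⟨(Finset.univ.filter fun i => ∃ j, j ≠ i ∧ μ j = μ i).image μ, fun z => ?_⟩
    simp only [Finset.mem_image, Finset.mem_filter, Finset.mem_univ, true_and]
    exact ⟨fun ⟨i, ⟨j, h1, h2⟩, h3⟩ => ⟨i, j, h1, h2, h3⟩,
      fun ⟨i, j, h1, h2, h3⟩ => ⟨i, ⟨j, h1, h2⟩, h3⟩⟩
  have hsub : T ⊆ Finset.univ.image μ := fun z hz => by
    obtain ⟨i, _, _, _, h3⟩ := (hT z).1 hz
    exact Finset.mem_image.2 ⟨i, Finset.mem_univ _, h3⟩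
  have hI : ∀ z ∈ Finset.univ.image μ, ‖z‖ ≤ 1 := fun z hz => by
    obtain ⟨i, _, h3⟩ := Finset.mem_image.1 hz
    rw [← h3]; exact hμ i
  have hc : ∀ z ∈ T, 2 ≤ (Finset.univ.filter fun i => μ i = z).card := fun z hz => by
    obtain ⟨i, j, h1, h2, h3⟩ := (hT z).1 hz
    refine Finset.one_lt_card.2 ⟨j, ?_, i, ?_, h1⟩
    · exact Finset.mem_filter.2 ⟨Finset.mem_univ _, h2.trans h3⟩
    · exact Finset.mem_filter.2 ⟨Finset.mem_univ _, h3⟩
  have hmon : (∏ z ∈ T, (X - C z) : (PadicAlgCl p)[X]).Monic :=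
    monic_prod_of_monic _ _ fun z _ => monic_X_sub_C z
  have hdeg : (∏ z ∈ T, (X - C z) : (PadicAlgCl p)[X]).natDegree = T.card :=
    natDegree_finsetProd_X_sub_C_eq_card T fun z => z
  have hfac : ∏ i, (X - C (μ i)) = (∏ z ∈ T, (X - C z)) ^ 2 *
      ((∏ z ∈ Finset.univ.image μ \ T, (X - C z) ^ (Finset.univ.filter fun i => μ i = z).card) *
        ∏ z ∈ T, (X - C z) ^ ((Finset.univ.filter fun i => μ i = z).card - 2)) := by
    rw [Finset.prod_comp (fun z => (X - C z : (PadicAlgCl p)[X])) μ, ← Finset.prod_sdiff hsub,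
      mul_left_comm, ← Finset.prod_pow, ← Finset.prod_mul_distrib]
    refine congrArg _ (Finset.prod_congr rfl fun z hz => ?_)
    rw [← pow_add, Nat.add_sub_cancel' (hc z hz)]
  have hgm : (∏ i, (X - C (μ i)) : (PadicAlgCl p)[X]).Monic :=
    monic_prod_of_monic _ _ fun i _ => monic_X_sub_C _
  have hq : csqFix (∏ z ∈ T, (X - C z) : (PadicAlgCl p)[X]) := fun σ => by
    obtain ⟨π, hπ⟩ := heq σ
    have him : T.image σ = T := by
      refine Finset.eq_of_subset_of_card_le (fun z hz => ?_)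
        (Finset.card_image_of_injective T σ.injective).ge
      obtain ⟨y, hy, rfl⟩ := Finset.mem_image.1 hz
      obtain ⟨i, j, h1, h2, h3⟩ := (hT y).1 hy
      exact (hT _).2 ⟨π i, π j, π.injective.ne h1, by rw [← hπ, ← hπ, h2], by rw [← hπ, h3]⟩
    rw [Polynomial.map_prod]
    conv_rhs => rw [← him, Finset.prod_image fun x _ y _ h => σ.injective h]
    refine Finset.prod_congr rfl fun z _ => ?_
    simp
  have hg : csqFix (∏ i, (X - C (μ i)) : (PadicAlgCl p)[X]) := fun σ => by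
    obtain ⟨π, hπ⟩ := heq σ
    rw [Polynomial.map_prod, ← Equiv.prod_comp π fun i => (X - C (μ i) : (PadicAlgCl p)[X])]
    refine Finset.prod_congr rfl fun i _ => ?_
    simp [hπ]
  refine ⟨_, _, hmon, ?_, ?_, csqSm_prod _ _ fun z hz => csqSm_lin (hI z (hsub hz)), ?_, hq,
    fun σ => ?_, hfac⟩
  · rw [hdeg]
    exact Finset.card_pos.2 ⟨μ i₀, (hT _).2 ⟨i₀, j₀, hij, h₀, rfl⟩⟩
  · have h1 := natDegree_le_of_dvd (Dvd.intro _ hfac.symm) hgm.ne_zero
    rw [natDegree_pow, natDegree_finsetProd_X_sub_C_eq_card Finset.univ μ, Finset.card_univ,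
      Fintype.card_fin] at h1
    exact h1
  · exact (csqSm_prod _ _ fun z hz =>
      (csqSm_lin (hI z (Finset.mem_sdiff.1 hz).1)).pow _).mul
      (csqSm_prod _ _ fun z hz => (csqSm_lin (hI z (hsub hz))).pow _)
  · have h1 := hg σ
    rw [hfac, Polynomial.map_mul, Polynomial.map_pow, hq σ] at h1
    exact mul_left_cancel₀ (pow_ne_zero 2 hmon.ne_zero) h1

/-- means of the clusters -/
theorem csq_mean {n : ℕ} (θ : Fin n → PadicAlgCl p)
    (heq : ∀ σ : PadicAlgCl p ≃ₐ[ℚ_[p]] PadicAlgCl p, ∃ π : Equiv.Perm (Fin n),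
      ∀ i, σ (θ i) = θ (π i)) (γ : ℕ) :
    ∃ μ : Fin n → PadicAlgCl p, (∀ i, ‖μ i - θ i‖ ≤ (p : ℝ)⁻¹ ^ γ) ∧
      (∀ σ : PadicAlgCl p ≃ₐ[ℚ_[p]] PadicAlgCl p, ∃ π : Equiv.Perm (Fin n),
        ∀ i, σ (μ i) = μ (π i)) ∧
      ∀ i j, ‖θ i - θ j‖ ≤ (p : ℝ)⁻¹ ^ (γ + n) → μ j = μ i := by
  classical
  have hp : p.Prime := Fact.out
  obtain ⟨cl, hcl⟩ : ∃ cl : Fin n → Finset (Fin n),
      ∀ i j, j ∈ cl i ↔ ‖θ i - θ j‖ ≤ (p : ℝ)⁻¹ ^ (γ + n) :=
    ⟨fun i => Finset.univ.filter fun j => ‖θ i - θ j‖ ≤ (p : ℝ)⁻¹ ^ (γ + n), fun i j => by simp⟩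
  refine ⟨fun i => (∑ j ∈ cl i, θ j) / ((cl i).card : PadicAlgCl p), fun i => ?_, fun σ => ?_,
    fun i j hij => ?_⟩
  · have hi : i ∈ cl i := (hcl i i).2 (by rw [sub_self, norm_zero]; positivity)
    have hk0 : 0 < (cl i).card := Finset.card_pos.2 ⟨i, hi⟩
    have hkn : (cl i).card ≤ n := by simpa using Finset.card_le_univ (cl i)
    have hk : ((cl i).card : PadicAlgCl p) ≠ 0 := Nat.cast_ne_zero.2 hk0.ne'
    have hlow : (p : ℝ)⁻¹ ^ n ≤ ‖((cl i).card : PadicAlgCl p)‖ := by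
      by_contra hlt
      have h1 := (pn_int_le_iff (p := p) ((cl i).card : ℤ) n).1
        (by rw [Int.cast_natCast]; exact (not_le.1 hlt).le)
      have h2 : p ^ n ∣ (cl i).card := by exact_mod_cast h1
      have h3 := Nat.le_of_dvd hk0 h2
      have h4 : n < p ^ n := Nat.lt_pow_self hp.one_lt
      omega
    have e : (∑ j ∈ cl i, θ j) / ((cl i).card : PadicAlgCl p) - θ i =
        (∑ j ∈ cl i, (θ j - θ i)) / ((cl i).card : PadicAlgCl p) := by
      rw [Finset.sum_sub_distrib, Finset.sum_const, nsmul_eq_mul]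
      field_simp
    have h5 : ‖∑ j ∈ cl i, (θ j - θ i)‖ ≤ (p : ℝ)⁻¹ ^ (γ + n) :=
      IsUltrametricDist.norm_sum_le_of_forall_le_of_nonneg (by positivity) fun j hj => by
        rw [norm_sub_rev]; exact (hcl i j).1 hj
    show ‖(∑ j ∈ cl i, θ j) / ((cl i).card : PadicAlgCl p) - θ i‖ ≤ _
    rw [e, norm_div, div_le_iff₀ (norm_pos_iff.2 hk)]
    refine h5.trans ?_
    rw [pow_add]
    exact mul_le_mul_of_nonneg_left hlow (by positivity)
  · obtain ⟨π, hπ⟩ := heq σ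
    refine ⟨π, fun i => ?_⟩
    have hmem : ∀ j, j ∈ cl i ↔ π j ∈ cl (π i) := fun j => by
      rw [hcl, hcl, ← hπ, ← hπ, ← map_sub, pn_gal]
    show σ ((∑ j ∈ cl i, θ j) / ((cl i).card : PadicAlgCl p)) =
      (∑ j ∈ cl (π i), θ j) / ((cl (π i)).card : PadicAlgCl p)
    rw [map_div₀, map_natCast, map_sum, Finset.card_equiv π hmem,
      Finset.sum_equiv π hmem (g := θ) fun j _ => hπ j]
  · have h1 : cl j = cl i := by
      ext k
      rw [hcl, hcl]
      constructor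
      · intro h
        have e : θ i - θ k = (θ i - θ j) + (θ j - θ k) := by ring
        rw [e]; exact csq_add hij h
      · intro h
        have e : θ j - θ k = (θ j - θ i) + (θ i - θ k) := by ring
        rw [e]; exact csq_add (by rw [norm_sub_rev]; exact hij) h
    show (∑ k ∈ cl j, θ k) / ((cl j).card : PadicAlgCl p) =
      (∑ k ∈ cl i, θ k) / ((cl i).card : PadicAlgCl p)
    rw [h1]

/-- two close roots -/
theorem csq_close {n v w : ℕ} (hn : 1 ≤ n) (hw : 1 ≤ w) (hv : n ^ 2 * w ≤ v)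
    (θ : Fin n → PadicAlgCl p)
    (h : ‖∏ i, ∏ j ∈ Finset.univ.erase i, (θ i - θ j)‖ ≤ (p : ℝ)⁻¹ ^ v) :
    ∃ i j, j ≠ i ∧ ‖θ i - θ j‖ ≤ (p : ℝ)⁻¹ ^ w := by
  have hp : p.Prime := Fact.out
  have hp1 : (1 : ℝ) < p := by exact_mod_cast hp.one_lt
  have ht0 : (0 : ℝ) < (p : ℝ)⁻¹ := by positivity
  have ht1 : (p : ℝ)⁻¹ < 1 := inv_lt_one_of_one_lt₀ hp1
  by_contra hne
  have hall : ∀ i j, j ≠ i → (p : ℝ)⁻¹ ^ w ≤ ‖θ i - θ j‖ := fun i j hij => by
    by_contra hlt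
    exact hne ⟨i, j, hij, (not_le.1 hlt).le⟩
  have h1 : ∀ i, ((p : ℝ)⁻¹ ^ w) ^ (n - 1) ≤ ‖∏ j ∈ Finset.univ.erase i, (θ i - θ j)‖ := fun i => by
    have h2 : (Finset.univ.erase i).card = n - 1 := by simp
    rw [norm_prod, ← h2, ← Finset.prod_const]
    exact Finset.prod_le_prod (fun _ _ => by positivity)
      fun j hj => hall i j (Finset.ne_of_mem_erase hj)
  have h3 : (((p : ℝ)⁻¹ ^ w) ^ (n - 1)) ^ n ≤ ‖∏ i, ∏ j ∈ Finset.univ.erase i, (θ i - θ j)‖ := by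
    have h4 : (((p : ℝ)⁻¹ ^ w) ^ (n - 1)) ^ n = ∏ _i : Fin n, ((p : ℝ)⁻¹ ^ w) ^ (n - 1) := by simp
    rw [norm_prod, h4]
    exact Finset.prod_le_prod (fun _ _ => by positivity) fun i _ => h1 i
  have h5 := h3.trans h
  rw [← pow_mul, ← pow_mul, pow_le_pow_iff_right_of_lt_one₀ ht0 ht1] at h5
  obtain ⟨m, rfl⟩ : ∃ m, n = m + 1 := ⟨n - 1, by omega⟩
  rw [Nat.add_sub_cancel] at h5
  nlinarith

end aux

/-- SQ -/
theorem sq_type {n p v : ℕ} (hn : 2 ≤ n) (hp : p.Prime) {f : ℤ[X]} (hm : f.Monic)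
    (hf : f.natDegree = n) (hi : Irr f) (hv : (p : ℤ) ^ v ∣ Dv n f) :
    ∃ γ e : ℕ, 1 ≤ e ∧ 2 * e ≤ n ∧ v ≤ n ^ 2 * (γ + n + 1) ∧ Pw (p ^ γ) e 2 f := by
  by_cases hsm : v ≤ n ^ 2 * (0 + n + 1)
  · exact ⟨0, 1, le_rfl, by omega, hsm, by rw [pow_zero]; exact Pw.one 1 2 f⟩
  have : Fact p.Prime := ⟨hp⟩
  have hn2 : 0 < n ^ 2 := by positivity
  obtain ⟨γ, hγ⟩ : ∃ γ, v / n ^ 2 = γ + n := by
    have h1 : n ≤ v / n ^ 2 := by
      rw [Nat.le_div_iff_mul_le hn2]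
      nlinarith
    exact ⟨v / n ^ 2 - n, by omega⟩
  have hv1 : n ^ 2 * (γ + n) ≤ v := by rw [← hγ]; exact Nat.mul_div_le v _
  have hv2 : v ≤ n ^ 2 * (γ + n + 1) := by
    rw [← hγ]; exact (Nat.lt_mul_div_succ v hn2).le
  have hmu : (up (PadicAlgCl p) f).Monic := hm.map _
  obtain ⟨θ, hθ⟩ := exists_roots (n := n) (up (PadicAlgCl p) f) hmu
    (by rw [hm.natDegree_map, hf])
  have hθ1 : ∀ i, ‖θ i‖ ≤ 1 := fun i =>
    pn_root_le _ (csqSm_up f) (by rw [hmu.leadingCoeff, norm_one])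
      ((hθ.eval_eq_zero_iff _).2 ⟨i, rfl⟩)
  have hθ' : up (PadicAlgCl p) f = ∏ i, (X - C (θ i)) := hθ
  have hD : ‖∏ i, ∏ j ∈ Finset.univ.erase i, (θ i - θ j)‖ ≤ (p : ℝ)⁻¹ ^ v := by
    rw [← Dv_roots, ← hθ', Dv_map]
    exact (pn_int_le_iff _ v).2 hv
  obtain ⟨i₀, j₀, hij, hd⟩ := csq_close (by omega) (by omega) hv1 θ hD
  obtain ⟨μ, hμ1, hμ2, hμ3⟩ := csq_mean θ (fun σ => gal_perm hθ (hθ.injective hi) σ) γ
  have hε1 : (p : ℝ)⁻¹ ^ γ ≤ 1 :=
    pow_le_one₀ (by positivity) (inv_le_one_of_one_le₀ (by exact_mod_cast hp.one_le))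
  have hμ0 : ∀ i, ‖μ i‖ ≤ 1 := fun i => by
    have e : μ i = (μ i - θ i) + θ i := by ring
    rw [e]; exact csq_add ((hμ1 i).trans hε1) (hθ1 i)
  obtain ⟨qq, hh, hq1, hq2, hq3, hq4, hh1, hq5, hh2, hfac⟩ :=
    csq_factor μ hμ0 hμ2 hij (hμ3 i₀ j₀ hd)
  have hX : csqSm 1 (-(X : (PadicAlgCl p)[X]) ^ qq.natDegree) := fun i => by
    rw [coeff_neg, norm_neg, coeff_X_pow]; split_ifs <;> simp
  obtain ⟨b, hb1, hb2⟩ := csq_approx (a := qq - X ^ qq.natDegree)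
    (fun σ => by rw [Polynomial.map_sub, hq5 σ, Polynomial.map_pow, map_X])
    (by rw [sub_eq_add_neg]; exact hq4.add hX) qq.natDegree γ
    (by
      have h1 := degree_sub_lt_left (p := qq) (q := X ^ qq.natDegree)
        (by rw [degree_X_pow, degree_eq_natDegree hq1.ne_zero]) hq1.ne_zero
        (by rw [hq1.leadingCoeff, leadingCoeff_X_pow])
      rwa [degree_eq_natDegree hq1.ne_zero] at h1)
  obtain ⟨c, _, hc2⟩ := csq_approx hh2 hh1 (hh.natDegree + 1) γ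
    (lt_of_le_of_lt degree_le_natDegree (by exact_mod_cast Nat.lt_succ_self _))
  have hqm : (X ^ qq.natDegree + b : ℤ[X]).Monic := monic_X_pow_add hb1
  refine ⟨γ, qq.natDegree, hq2, hq3, hv2, X ^ qq.natDegree + b, hqm, ?_, ?_⟩
  · refine natDegree_eq_of_degree_eq_some ?_
    rw [degree_add_eq_left_of_degree_lt (by rwa [degree_X_pow]), degree_X_pow]
  · obtain ⟨q, hq⟩ : ∃ q : ℤ[X], q = X ^ qq.natDegree + b := ⟨_, rfl⟩
    rw [← hq]
    have hb3 : csqSm ((p : ℝ)⁻¹ ^ γ) (qq - up (PadicAlgCl p) q) := by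
      have e : qq - up (PadicAlgCl p) q = qq - X ^ qq.natDegree - up (PadicAlgCl p) b := by
        rw [hq]
        simp only [up, Polynomial.map_add, Polynomial.map_pow, map_X]
        ring
      rw [e]; exact hb2
    have hs := csqSm_sub_prod Finset.univ θ μ (by positivity) hθ1 hμ0 hμ1
    rw [← hθ', hfac] at hs
    have e : up (PadicAlgCl p) (f - q ^ 2 * c) = (up (PadicAlgCl p) f - qq ^ 2 * hh) +
        (((qq + up (PadicAlgCl p) q) * hh) * (qq - up (PadicAlgCl p) q) +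
          up (PadicAlgCl p) q ^ 2 * (hh - up (PadicAlgCl p) c)) := by
      simp only [up, Polynomial.map_sub, Polynomial.map_mul, Polynomial.map_pow]
      ring
    have hall : csqSm ((p : ℝ)⁻¹ ^ γ) (up (PadicAlgCl p) (f - q ^ 2 * c)) := by
      rw [e]
      exact hs.add ((((hq4.add (csqSm_up q)).mul hh1).mul hb3).add (((csqSm_up q).pow 2).mul hc2))
    obtain ⟨u, hu⟩ : C ((p ^ γ : ℕ) : ℤ) ∣ f - q ^ 2 * c := by
      rw [C_dvd_iff_dvd_coeff]
      intro i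
      have h1 := hall i
      rw [coeff_map] at h1
      rw [Nat.cast_pow]
      exact (pn_int_le_iff _ γ).1 h1
    exact ⟨c, u, by rw [← hu]; ring⟩

end Pool.Agent.VW
end
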