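import Pool.Agent.K.MP_b0ea37_nt.C2
import Pool.Agent.K.MP_b0ea37_nt.C0
import Pool.Agent.K.MP_b0ea37_nt.C1
import Pool.Agent.P.MP_b0ea37_nt.Defs

-- part Pool.Agent.P.MP_b0ea37_nt.WC4
section

namespace Pool.Agent.VW

open Polynomial

theorem c4_rad_le {q R : ℕ} (hR : R ≠ 0) (hp : ∀ p : ℕ, p.Prime → p ∣ q → p ∣ R) :
    ∏ p ∈ q.primeFactors, p ≤ R :=
  Nat.le_of_dvd (Nat.pos_of_ne_zero hR) (Finset.prod_primes_dvd R
    (fun _ h => (Nat.prime_of_mem_primeFactors h).prime)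
    fun p h => hp p (Nat.prime_of_mem_primeFactors h) (Nat.dvd_of_mem_primeFactors h))

/-- one type of repeated factor carries a large modulus -/
theorem exists_pw {n : ℕ} (hn : 2 ≤ n) {f : ℤ[X]} (hm : f.Monic) (hf : f.natDegree = n)
    (hi : Irr f) {q R : ℕ} (hq : (q : ℤ) ∣ Dv n f) (hR : R ≠ 0)
    (hp : ∀ p : ℕ, p.Prime → p ∣ q → p ∣ R) :
    ∃ e Q : ℕ, 1 ≤ e ∧ 2 * e ≤ n ∧ Q ≠ 0 ∧ (∀ p : ℕ, p.Prime → p ∣ Q → p ∣ R) ∧ Pw Q e 2 f ∧
      q ≤ (Q ^ n * R ^ (n + 1)) ^ n ^ 2 := by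
  have hq0 : q ≠ 0 := by
    rintro rfl
    exact Irr.Dv_ne_zero hm hf hi (by simpa using hq)
  have h1 : ∀ p : ℕ, ∃ γ e : ℕ, p.Prime → 1 ≤ e ∧ 2 * e ≤ n ∧
      q.factorization p ≤ n ^ 2 * (γ + n + 1) ∧ Pw (p ^ γ) e 2 f := by
    intro p
    by_cases hpp : p.Prime
    · obtain ⟨γ, e, h⟩ := sq_type (v := q.factorization p) hn hpp hm hf hi
        (Dvd.dvd.trans (by exact_mod_cast Nat.ordProj_dvd q p) hq)
      exact ⟨γ, e, fun _ => h⟩
    · exact ⟨0, 0, fun h => absurd h hpp⟩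
  choose γ e he using h1
  set Qe : ℕ → ℕ := fun j => ∏ p ∈ q.primeFactors.filter (fun p => e p = j), p ^ γ p with hQe
  obtain ⟨j, hj, hmax⟩ := Finset.exists_max_image (Finset.Icc 1 (n / 2)) Qe
    ⟨1, Finset.mem_Icc.mpr ⟨le_rfl, by omega⟩⟩
  rw [Finset.mem_Icc] at hj
  have hpr : ∀ p ∈ q.primeFactors.filter (fun p => e p = j), p.Prime :=
    fun p h => Nat.prime_of_mem_primeFactors (Finset.mem_filter.mp h).1
  have hQ0 : Qe j ≠ 0 := Finset.prod_ne_zero_iff.mpr fun p h => pow_ne_zero _ (hpr p h).ne_zero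
  refine ⟨j, Qe j, hj.1, by omega, hQ0, ?_, ?_, ?_⟩
  · intro p hpp hd
    obtain ⟨r, hr, hpr'⟩ := (Prime.dvd_finsetProd_iff hpp.prime _).mp hd
    have := (Nat.prime_dvd_prime_iff_eq hpp (hpr r hr)).mp (hpp.dvd_of_dvd_pow hpr')
    rw [this]
    exact hp r (hpr r hr) (Nat.dvd_of_mem_primeFactors (Finset.mem_filter.mp hr).1)
  · refine Pw.prod _ hpr γ fun p h => ?_
    rw [← (Finset.mem_filter.mp h).2]
    exact (he p (hpr p h)).2.2.2
  · have h2 : ∏ p ∈ q.primeFactors, p ^ γ p ≤ Qe j ^ n := by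
      rw [← Finset.prod_fiberwise_of_maps_to (t := Finset.Icc 1 (n / 2)) (g := e)]
      · refine (Finset.prod_le_pow_card _ _ (Qe j) hmax).trans ?_
        refine Nat.pow_le_pow_right (Nat.pos_of_ne_zero hQ0) ?_
        rw [Nat.card_Icc]
        omega
      · intro p h
        have := he p (Nat.prime_of_mem_primeFactors h)
        rw [Finset.mem_Icc]
        omega
    calc q = ∏ p ∈ q.primeFactors, p ^ q.factorization p :=
          Nat.prod_primeFactors_pow_factorization hq0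
      _ ≤ ∏ p ∈ q.primeFactors, (p ^ γ p * p ^ (n + 1)) ^ n ^ 2 := by
          refine Finset.prod_le_prod' fun p h => ?_
          have hpp := Nat.prime_of_mem_primeFactors h
          rw [← pow_add, ← pow_mul]
          refine Nat.pow_le_pow_right hpp.pos ?_
          rw [mul_comm, ← add_assoc]
          exact (he p hpp).2.2.1
      _ = ((∏ p ∈ q.primeFactors, p ^ γ p) * (∏ p ∈ q.primeFactors, p) ^ (n + 1)) ^ n ^ 2 := by
          rw [Finset.prod_pow, Finset.prod_mul_distrib, Finset.prod_pow]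
      _ ≤ (Qe j ^ n * R ^ (n + 1)) ^ n ^ 2 :=
          Nat.pow_le_pow_left (Nat.mul_le_mul h2 (Nat.pow_le_pow_left (c4_rad_le hR hp) _)) _

theorem c4_mod {n : ℕ} (hn : 5 ≤ n) {η a H : ℝ} (ha : 0 < a)
    (haη : a * ((n : ℝ) ^ 2 * (12 * n + 2)) ≤ η) (hH : 1 ≤ H)
    (hfac : ((n.factorial : ℕ) : ℝ) ≤ H ^ a) {f : ℤ[X]} (hf : Bad n f) (hT : Tiny a H f) {q : ℕ}
    (hq : (q : ℤ) ∣ Dv n f) (hq' : H ^ η < q)
    (hp : ∀ p : ℕ, p.Prime → p ∣ q → p ≤ n ∨ Weak p f) :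
    ∃ e Q : ℕ, 1 ≤ e ∧ 2 * e ≤ n ∧ H ^ (10 * a) < Q ∧ (Q : ℝ) ≤ H ^ (12 * a) ∧
      ((∏ p ∈ Q.primeFactors, p : ℕ) : ℝ) ≤ H ^ (2 * a) ∧ Pw Q e 2 f := by
  have hH0 : 0 < H := by linarith
  obtain ⟨m, hm1, hm2, hm3⟩ := hT
  have hR0 : n.factorial * m ≠ 0 := mul_ne_zero (Nat.factorial_ne_zero n) (by omega)
  have hR : ((n.factorial * m : ℕ) : ℝ) ≤ H ^ (2 * a) := by
    rw [Nat.cast_mul, two_mul, Real.rpow_add hH0]
    exact mul_le_mul hfac hm2 (Nat.cast_nonneg _) (by positivity)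
  obtain ⟨e, Q, he1, he2, hQ0, hQR, hPw, hle⟩ := exists_pw (R := n.factorial * m) (by omega)
    hf.1 hf.2.1 hf.2.2.1 hq hR0 (fun p hpp hd => (hp p hpp hd).elim
      (fun h => Dvd.dvd.mul_right ((hpp.dvd_factorial).mpr h) _)
      fun h => Dvd.dvd.mul_left (hm3 p hpp h) _)
  have hQ : H ^ (10 * a) < Q := by
    by_contra hc
    rw [not_lt] at hc
    refine absurd hq' (not_lt.mpr ?_)
    calc (q : ℝ) ≤ ((Q : ℝ) ^ n * ((n.factorial * m : ℕ) : ℝ) ^ (n + 1)) ^ n ^ 2 := by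
          exact_mod_cast hle
      _ ≤ ((H ^ (10 * a)) ^ n * (H ^ (2 * a)) ^ (n + 1)) ^ n ^ 2 := by gcongr
      _ = H ^ (a * ((n : ℝ) ^ 2 * (12 * n + 2))) := by
          rw [← Real.rpow_mul_natCast hH0.le, ← Real.rpow_mul_natCast hH0.le,
            ← Real.rpow_add hH0, ← Real.rpow_mul_natCast hH0.le]
          congr 1
          push_cast
          ring
      _ ≤ H ^ η := Real.rpow_le_rpow_of_exponent_le hH haη
  have hs : ((Q.primeFactorsList : Multiset ℕ)).prod = Q := by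
    rw [Multiset.prod_coe, Nat.prod_primeFactorsList hQ0]
  obtain ⟨t, ht, h1, h2⟩ := exists_subprod (Q.primeFactorsList : Multiset ℕ) (H ^ (10 * a))
    (H ^ (2 * a)) (Real.one_le_rpow hH (by positivity)) (Real.one_le_rpow hH (by positivity))
    (fun p h => by
      rw [Multiset.mem_coe] at h
      have hpp := Nat.prime_of_mem_primeFactorsList h
      refine ⟨hpp.one_le, le_trans ?_ hR⟩
      exact_mod_cast Nat.le_of_dvd (Nat.pos_of_ne_zero hR0)
        (hQR p hpp (Nat.dvd_of_mem_primeFactorsList h))) (by rw [hs]; exact hQ)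
  have hd : t.prod ∣ Q := hs ▸ Multiset.prod_dvd_prod_of_le ht
  refine ⟨e, t.prod, he1, he2, h1, ?_, le_trans ?_ hR, hPw.of_dvd hd⟩
  · refine h2.trans (le_of_eq ?_)
    rw [← Real.rpow_add hH0]
    congr 1
    ring
  · exact_mod_cast c4_rad_le hR0 fun p hpp h => hQR p hpp (h.trans hd)

/-- 6.4 -/
theorem ps_c4 (n : ℕ) (hn : 5 ≤ n) (η : ℝ) (hη : 0 < η) : ∃ δ : ℝ, 0 < δ ∧
    PS n fun H f => Bad n f ∧ Tiny δ H f ∧ ∃ q : ℕ, (q : ℤ) ∣ Dv n f ∧ H ^ η < q ∧
      ∀ p : ℕ, p.Prime → p ∣ q → p ≤ n ∨ Weak p f := by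
  have hn' : (5 : ℝ) ≤ n := by exact_mod_cast hn
  have hW : (12 : ℝ) ≤ (n : ℝ) ^ 2 * (12 * n + 2) := by nlinarith
  obtain ⟨a, ha, haη, ha1⟩ : ∃ a : ℝ, 0 < a ∧ a * ((n : ℝ) ^ 2 * (12 * n + 2)) ≤ η ∧
      12 * a ≤ 1 := by
    have h0 : (0 : ℝ) < (n : ℝ) ^ 2 * (12 * n + 2) := by linarith
    have h1 : 0 < min 1 η := lt_min one_pos hη
    refine ⟨min 1 η / ((n : ℝ) ^ 2 * (12 * n + 2)), div_pos h1 h0, ?_, ?_⟩
    · rw [div_mul_cancel₀ _ h0.ne']
      exact min_le_right _ _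
    · rw [← mul_div_assoc, div_le_one h0]
      nlinarith [min_le_left 1 η]
  obtain ⟨H₀, hH₀, hfac⟩ := exists_pow_ge (n.factorial : ℕ) a ha
  obtain ⟨C₀, hC₀, hfam⟩ := fam_cnt n hn (a / 2) (by positivity)
  obtain ⟨C₁, hC₁, hrad⟩ := cnt_small_rad (a / 2) (by positivity)
  refine ⟨a, ha, PS.of_lt ((n : ℝ) - 1 - a) ((n + 1) * (C₁ * C₀)) H₀ (by linarith) ?_⟩
  intro H hH
  have hH1 : 1 ≤ H := hH₀.trans hH
  have hH0 : 0 < H := by linarith
  have hpow : ∀ x : ℝ, x ≤ 1 → H ^ x ≤ H := fun x hx => by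
    simpa using Real.rpow_le_rpow_of_exponent_le hH1 hx
  have c1 : Cnt (fun e : ℕ => 1 ≤ e ∧ 2 * e ≤ n) ((n : ℝ) + 1) :=
    (cnt_nat_le n (Nat.cast_nonneg _)).mono (fun e h => by exact_mod_cast (by omega : e ≤ n)) le_rfl
  have c2 : Cnt (fun Q : ℕ => H ^ (10 * a) < Q ∧ (Q : ℝ) ≤ H ^ (12 * a) ∧
      ((∏ p ∈ Q.primeFactors, p : ℕ) : ℝ) ≤ H ^ (2 * a)) (C₁ * H ^ (a / 2) * H ^ (2 * a)) := by
    refine (hrad H (H ^ (2 * a)) (Real.one_le_rpow hH1 (by positivity))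
      (hpow _ (by linarith))).mono (fun Q h => ⟨?_, h.2.1.trans (hpow _ ha1), h.2.2⟩) le_rfl
    rintro rfl
    exact absurd h.1 (not_lt.mpr (by rw [Nat.cast_zero]; positivity))
  have c3 : ∀ e : ℕ, 1 ≤ e ∧ 2 * e ≤ n → ∀ Q : ℕ, H ^ (10 * a) < Q ∧ (Q : ℝ) ≤ H ^ (12 * a) ∧
      ((∏ p ∈ Q.primeFactors, p : ℕ) : ℝ) ≤ H ^ (2 * a) →
      Cnt (fun f => Box n H f ∧ Bad n f ∧ Tiny a H f ∧ Pw Q e 2 f)
        (C₀ * H ^ ((n : ℝ) - 1 + a + a / 2) * H ^ (-(5 * a))) := by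
    intro e he Q hQ
    have hQ1 : (1 : ℝ) ≤ Q := (Real.one_le_rpow hH1 (by positivity)).trans hQ.1.le
    have he1 : (1 : ℝ) ≤ e := by exact_mod_cast he.1
    refine (hfam H a ((e : ℝ) / 2) Q e 2 hH1 ha.le (by linarith) (by exact_mod_cast hQ1)
      (by linarith [hQ.2.1.trans (hpow _ ha1)]) he.2 (by push_cast; nlinarith)).mono
      (fun _ h => h) ?_
    refine mul_le_mul_of_nonneg_left ?_ (by positivity)
    calc (Q : ℝ) ^ ((e : ℝ) - ((2 : ℕ) : ℝ) * e + e / 2) ≤ (Q : ℝ) ^ (-(1 / 2) : ℝ) :=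
          Real.rpow_le_rpow_of_exponent_le hQ1 (by push_cast; linarith)
      _ ≤ (H ^ (10 * a)) ^ (-(1 / 2) : ℝ) :=
          Real.rpow_le_rpow_of_nonpos (by positivity) hQ.1.le (by norm_num)
      _ = H ^ (-(5 * a)) := by
          rw [← Real.rpow_mul hH0.le]
          congr 1
          ring
  refine (c1.fibre (by positivity) fun e he => c2.fibre (by positivity) (c3 e he)).mono ?_
    (le_of_eq ?_)
  · rintro f ⟨hB, hf, hT, q, h1, h2, h3⟩
    obtain ⟨e, Q, k1, k2, k3, k4, k5, k6⟩ := c4_mod hn ha haη hH1 (hfac H hH) hf hT h1 h2 h3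
    exact ⟨e, ⟨k1, k2⟩, Q, ⟨k3, k4, k5⟩, hB, hf, hT, k6⟩
  · have e : H ^ ((n : ℝ) - 1 - a) = H ^ (a / 2) * H ^ (2 * a) *
        (H ^ ((n : ℝ) - 1 + a + a / 2) * H ^ (-(5 * a))) := by
      rw [← Real.rpow_add hH0, ← Real.rpow_add hH0, ← Real.rpow_add hH0]
      congr 1
      ring
    rw [e]
    ring

end Pool.Agent.VW
end

-- part Pool.Agent.P.MP_b0ea37_nt.WCa
section

namespace Pool.Agent.VW

open Polynomial

/-- C1, C2: small discriminant -/
theorem ps_smallD (n : ℕ) (hn : 5 ≤ n) (η : ℝ) (hη : 0 < η) : ∃ δ : ℝ, 0 < δ ∧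
    PS n fun H f => Bad n f ∧ Tiny δ H f ∧
      |((Dv n f : ℤ) : ℝ)| < H ^ (2 * (n : ℝ) - 2 - η) := by
  obtain ⟨κ, hκ, -, hκ1, h2⟩ := ps_c2 n hn η hη
  refine ⟨κ / 2, by linarith, ((ps_c1 n hn κ hκ hκ1).or h2).mono 1 fun H hH f _ ⟨hb, ht, hc⟩ => ?_⟩
  by_cases c1 : |((f.coeff (n - 1) : ℤ) : ℝ)| < H ^ (1 - κ)
  · exact Or.inl ⟨hb, ht, c1⟩
  · exact Or.inr ⟨hb, ht.mono (by linarith) hH, not_lt.1 c1, hc⟩

/-- C4: a large part of the discriminant on weak or small primes -/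
theorem ps_weakpart (n : ℕ) (hn : 5 ≤ n) (η : ℝ) (hη : 0 < η) : ∃ δ : ℝ, 0 < δ ∧
    PS n fun H f => Bad n f ∧ Tiny δ H f ∧ ∃ q : ℕ, (q : ℤ) ∣ Dv n f ∧ H ^ η < q ∧
      ∀ p : ℕ, p.Prime → p ∣ q → p ≤ n ∨ Weak p f := ps_c4 n hn η hη

end Pool.Agent.VW
end

-- part Pool.Agent.P.MP_b0ea37_nt.WOa
section

namespace Pool.Agent.VW

open Polynomial

theorem WOa_card_pow {Q : Type} [AddCommGroup Q] [Finite Q] {p : ℕ} (hp : p.Prime)
    (h : ∀ x : Q, p • x = 0) : ∃ k : ℕ, Nat.card Q = p ^ k := by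
  refine ⟨_, Nat.eq_prime_pow_of_unique_prime_dvd Nat.card_pos.ne' fun {d} hd hdvd => ?_⟩
  have := Fact.mk hd
  obtain ⟨x, hx⟩ := exists_prime_addOrderOf_dvd_card' d hdvd
  have h1 := addOrderOf_dvd_of_nsmul_eq_zero (h x)
  rw [hx] at h1
  exact (Nat.prime_dvd_prime_iff_eq hd hp).1 h1

/-- the chain_j of ideals generated by the powers of `p` in a finite ring -/
theorem chain_j {J : Type} [CommRing J] [Finite J] {p : ℕ} (hp : p.Prime) :
    ∃ (e : ℕ) (I : ℕ → Ideal J) (k : ℕ → ℕ) (D : ℕ),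
      (∀ i z, z ∈ I i ↔ (p : J) ^ (i + 1) ∣ (p : J) ^ i * z) ∧
      (∀ i, Nat.card (J ⧸ I i) = p ^ k i) ∧ (∀ i, k (i + 1) ≤ k i) ∧ (∀ i < e, k i ≠ 0) ∧
      Nat.card J = p ^ (∑ i ∈ Finset.range e, k i) * D ∧ ¬ p ∣ D ∧ (p : J) ^ e * (D : J) = 0 := by
  classical
  obtain ⟨S, hS⟩ : ∃ S : ℕ → Ideal J, ∀ i, S i = Ideal.span {(p : J) ^ i} := ⟨_, fun _ => rfl⟩
  obtain ⟨I, hI⟩ : ∃ I : ℕ → Ideal J, ∀ i z, z ∈ I i ↔ (p : J) ^ (i + 1) ∣ (p : J) ^ i * z :=
    ⟨fun i => Submodule.comap (LinearMap.mulLeft J ((p : J) ^ i)) (Ideal.span {(p : J) ^ (i + 1)}),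
      fun i z => by simp [Ideal.mem_span_singleton]⟩
  have hS' : ∀ i z, z ∈ (S i).toAddSubgroup ↔ (p : J) ^ i ∣ z := fun i z => by
    rw [hS]; exact Ideal.mem_span_singleton
  have hk : ∀ i, ∃ k : ℕ, Nat.card (J ⧸ I i) = p ^ k := fun i => by
    have : Finite (J ⧸ I i) := Finite.of_surjective _ Ideal.Quotient.mk_surjective
    refine WOa_card_pow hp fun x => ?_
    obtain ⟨x, rfl⟩ := Ideal.Quotient.mk_surjective x
    rw [← map_nsmul, Ideal.Quotient.eq_zero_iff_mem, hI, nsmul_eq_mul]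
    exact ⟨x, by ring⟩
  choose k hk using hk
  have hk' : ∀ i, (I i).toAddSubgroup.index = p ^ k i := hk
  have hstep : ∀ i, (S (i + 1)).toAddSubgroup.index = p ^ k i * (S i).toAddSubgroup.index := by
    intro i
    have h1 : (S (i + 1)).toAddSubgroup ≤ (S i).toAddSubgroup := fun z hz =>
      (hS' i z).2 ((pow_dvd_pow _ (Nat.le_succ i)).trans ((hS' _ z).1 hz))
    have h2 : (AddMonoidHom.mulLeft ((p : J) ^ i)).range = (S i).toAddSubgroup := by
      ext z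
      rw [hS']
      exact ⟨fun ⟨y, hy⟩ => ⟨y, hy.symm⟩, fun ⟨y, hy⟩ => ⟨y, hy.symm⟩⟩
    have h3 : (S (i + 1)).toAddSubgroup.comap (AddMonoidHom.mulLeft ((p : J) ^ i)) =
        (I i).toAddSubgroup := by
      ext z
      rw [AddSubgroup.mem_comap, hS']
      exact (hI i z).symm
    rw [← AddSubgroup.relIndex_mul_index h1, ← hk', ← h3, AddSubgroup.index_comap, h2]
  have hidx : ∀ i, (S i).toAddSubgroup.index = p ^ (∑ l ∈ Finset.range i, k l) := by
    intro i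
    induction i with
    | zero =>
      rw [Finset.sum_range_zero, pow_zero, AddSubgroup.index_eq_one, eq_top_iff]
      intro z _
      rw [hS']
      simp
    | succ i ih => rw [hstep, ih, Finset.sum_range_succ, pow_add, mul_comm]
  have hex : ∃ e, k e = 0 := by
    by_contra hno
    have h1 : Nat.card J ≤ ∑ l ∈ Finset.range (Nat.card J), k l := by
      calc Nat.card J = ∑ _l ∈ Finset.range (Nat.card J), 1 := by simp
        _ ≤ _ := Finset.sum_le_sum fun l _ => Nat.one_le_iff_ne_zero.2 fun h => hno ⟨l, h⟩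
    have h2 := Nat.le_of_dvd Nat.card_pos (S (Nat.card J)).toAddSubgroup.index_dvd_card
    rw [hidx] at h2
    have h3 := Nat.lt_pow_self (n := ∑ l ∈ Finset.range (Nat.card J), k l) hp.one_lt
    omega
  have he := Nat.find_spec hex
  refine ⟨Nat.find hex, I, k, Nat.card (S (Nat.find hex)).toAddSubgroup, hI, hk, fun i => ?_,
    fun i hi => Nat.find_min hex hi, ?_, fun hd => ?_, ?_⟩
  · have h1 : (I i).toAddSubgroup ≤ (I (i + 1)).toAddSubgroup := fun z hz => by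
      obtain ⟨y, hy⟩ := (hI i z).1 hz
      exact (hI (i + 1) z).2 ⟨y, by linear_combination (p : J) * hy⟩
    have h2 := AddSubgroup.index_dvd_of_le h1
    rw [hk', hk'] at h2
    exact (Nat.pow_dvd_pow_iff_le_right hp.one_lt).1 h2
  · rw [← hidx, AddSubgroup.index_mul_card]
  · have := Fact.mk hp
    obtain ⟨x, hx⟩ := exists_prime_addOrderOf_dvd_card' p hd
    have h1 := hk' (Nat.find hex)
    rw [he, pow_zero, AddSubgroup.index_eq_one] at h1
    have h2 : (1 : J) ∈ (I (Nat.find hex)).toAddSubgroup := by rw [h1]; trivial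
    obtain ⟨u, hu⟩ := (hI _ 1).1 h2
    obtain ⟨y, hy⟩ := (hS' _ x.1).1 x.2
    have h3 : (p : J) * x.1 = 0 := by
      have h4 := congrArg Subtype.val (addOrderOf_nsmul_eq_zero x)
      rw [hx] at h4
      simpa using h4
    have h5 : x = 0 := Subtype.ext (by
      show x.1 = 0
      rw [hy] at h3 ⊢
      linear_combination y * hu + u * h3)
    rw [h5, addOrderOf_zero] at hx
    exact hp.one_lt.ne hx
  · have h1 := congrArg Subtype.val (card_nsmul_eq_zero'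
      (x := (⟨(p : J) ^ Nat.find hex, (hS' _ _).2 dvd_rfl⟩ : (S (Nat.find hex)).toAddSubgroup)))
    rw [mul_comm]
    simpa using h1

/-- a quotient with `p` elements gives a map to the prime field -/
theorem exists_hom_zmod {J : Type} [CommRing J] {p : ℕ} (hp : p.Prime) (I : Ideal J)
    (h : Nat.card (J ⧸ I) = p) : ∃ φ : J →+* ZMod p, ∀ z ∈ I, φ z = 0 := by
  have : Finite (J ⧸ I) := Nat.finite_of_card_ne_zero (h ▸ hp.ne_zero)
  have := Fintype.ofFinite (J ⧸ I)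
  rw [Nat.card_eq_fintype_card] at h
  refine ⟨(ZMod.ringEquivOfPrime (J ⧸ I) hp h).symm.toRingHom.comp (Ideal.Quotient.mk I),
    fun z hz => ?_⟩
  rw [RingHom.comp_apply, Ideal.Quotient.eq_zero_iff_mem.2 hz, map_zero]

end Pool.Agent.VW
end

-- part Pool.Agent.P.MP_b0ea37_nt.WOb
section

namespace Pool.Agent.VW

open Polynomial

theorem WOb_mod {n : ℕ} {f : ℤ[X]} (hm : f.Monic) (hn : f.natDegree = n) (h : ℤ[X]) :
    (h %ₘ f).degree < n := by
  rw [← hn, ← degree_eq_natDegree hm.ne_zero]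
  exact degree_modByMonic_lt h hm

theorem WOb_ker {n m : ℕ} {f g h : ℤ[X]} (hm : f.Monic) (hn : f.natDegree = n)
    (hg : g.natDegree ≤ m) (hh : h.degree < (n + m : ℕ))
    (hI : h ∈ (Ideal.span {f, g} : Ideal ℤ[X])) :
    ∃ p q : ℤ[X], p.degree < n ∧ q.degree < m ∧ f * q + g * p = h := by
  obtain ⟨a, b, e⟩ := Ideal.mem_span_pair.1 hI
  have hp := WOb_mod hm hn b
  have e2 : f * (a + g * (b /ₘ f)) + g * (b %ₘ f) = h := by
    rw [← e]
    conv_rhs => rw [← modByMonic_add_div b f]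
    ring
  refine ⟨b %ₘ f, a + g * (b /ₘ f), hp, ?_, e2⟩
  have h1 : (g * (b %ₘ f)).degree < (n + m : ℕ) := by
    by_cases hg' : g = 0
    · rw [hg', zero_mul, degree_zero]
      exact WithBot.bot_lt_coe _
    · exact (degree_mul_le _ _).trans_lt ((WithBot.add_lt_add_of_le_of_lt (by simpa)
        (degree_le_of_natDegree_le hg) hp).trans_eq (by rw [add_comm]; rfl))
  have h2 : (f * (a + g * (b /ₘ f))).degree < (n + m : ℕ) := by
    rw [eq_sub_of_add_eq e2]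
    exact (degree_sub_le _ _).trans_lt (max_lt hh h1)
  rw [mul_comm, hm.degree_mul, degree_eq_natDegree hm.ne_zero, hn, add_comm n m, Nat.cast_add]
    at h2
  exact WithBot.add_lt_add_iff_right (WithBot.natCast_ne_bot n) |>.1 h2

/-- the index of the ideal `(f, g)` is the resultant -/
theorem card_quot_res {n m : ℕ} {f g : ℤ[X]} (hm : f.Monic) (hn : f.natDegree = n)
    (hg : g.natDegree ≤ m) (h0 : resultant f g n m ≠ 0) :
    Nat.card (ℤ[X] ⧸ (Ideal.span {f, g} : Ideal ℤ[X])) = (resultant f g n m).natAbs := by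
  let S := sylvesterMap f g hn.le hg
  let b₁ := ((degreeLT.basis ℤ n).prod (degreeLT.basis ℤ m)).reindex finSumFinEquiv
  let b₂ := degreeLT.basis ℤ (n + m)
  have hS : Function.Injective S := by
    rw [injective_iff_map_eq_zero]
    intro x hx
    have h1 : adjSylvester f g (S x) = resultant f g n m • x :=
      LinearMap.congr_fun (adjSylvester_comp_sylveserMap f g hn.le hg) x
    rw [hx, map_zero] at h1
    exact (smul_eq_zero.1 h1.symm).resolve_left h0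
  have : Module.Free ℤ (degreeLT ℤ (n + m)) := Module.Free.of_basis b₂
  have : Module.Finite ℤ (degreeLT ℤ (n + m)) := Module.Finite.of_basis b₂
  have h1 := Submodule.natAbs_det_basis_change b₂ (LinearMap.range S)
    (b₁.map (LinearEquiv.ofInjective S hS))
  have h2 : b₂.det ((↑) ∘ b₁.map (LinearEquiv.ofInjective S hS)) = resultant f g n m := by
    rw [Module.Basis.det_apply, resultant, ← toMatrix_sylvesterMap' f g hn.le hg]
    congr 1
    ext i j
    rw [Module.Basis.toMatrix_apply, LinearMap.toMatrix_apply]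
    rfl
  rw [← h2, h1]
  let φ : degreeLT ℤ (n + m) →ₗ[ℤ] ℤ[X] ⧸ (Ideal.span {f, g} : Ideal ℤ[X]) :=
    (Ideal.Quotient.mk (Ideal.span {f, g} : Ideal ℤ[X])).toAddMonoidHom.toIntLinearMap ∘ₗ
      (degreeLT ℤ (n + m)).subtype
  have hφ : ∀ x, φ x = Ideal.Quotient.mk (Ideal.span {f, g} : Ideal ℤ[X]) x.1 := fun _ => rfl
  have hs : Function.Surjective φ := fun y => by
    obtain ⟨h, rfl⟩ := Ideal.Quotient.mk_surjective y
    refine ⟨⟨h %ₘ f, mem_degreeLT.2 ((WOb_mod hm hn h).trans_le ?_)⟩, ?_⟩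
    · exact_mod_cast Nat.le_add_right n m
    · rw [hφ, Ideal.Quotient.eq]
      exact Ideal.mem_span_pair.2 ⟨-(h /ₘ f), 0, by
        change _ = h %ₘ f - h
        rw [modByMonic_eq_sub_mul_div h f]
        ring⟩
  have hk : LinearMap.ker φ = LinearMap.range S := by
    ext x
    rw [LinearMap.mem_ker, hφ, Ideal.Quotient.eq_zero_iff_mem, LinearMap.mem_range]
    constructor
    · intro hI
      obtain ⟨p, q, hp, hq, e⟩ := WOb_ker hm hn hg (mem_degreeLT.1 x.2) hI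
      exact ⟨(⟨p, mem_degreeLT.2 hp⟩, ⟨q, mem_degreeLT.2 hq⟩), Subtype.ext e⟩
    · rintro ⟨y, rfl⟩
      exact Ideal.mem_span_pair.2 ⟨y.2, y.1, by
        rw [mul_comm, mul_comm y.1.1]
        rfl⟩
  rw [← hk]
  exact (Nat.card_congr (φ.quotKerEquivOfSurjective hs).toEquiv).symm

end Pool.Agent.VW
end

-- part Pool.Agent.P.MP_b0ea37_nt.WOc
section

namespace Pool.Agent.VW

open Polynomial

theorem WOc_split {R : Type} [CommRing R] {n : ℕ} (θ : Fin n → R) (i : Fin n) :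
    ∏ j, ∏ l ∈ Finset.univ.erase j, (θ j - θ l) =
      (-1) ^ (n - 1) * (∏ j ∈ Finset.univ.erase i, (θ i - θ j)) ^ 2 *
        ∏ j ∈ Finset.univ.erase i, ∏ l ∈ (Finset.univ.erase i).erase j, (θ j - θ l) := by
  rw [← Finset.mul_prod_erase _ _ (Finset.mem_univ i)]
  have h1 : ∀ j ∈ Finset.univ.erase i, ∏ l ∈ Finset.univ.erase j, (θ j - θ l) =
      (-1) * (θ i - θ j) * ∏ l ∈ (Finset.univ.erase i).erase j, (θ j - θ l) := by
    intro j hj
    have hi : i ∈ Finset.univ.erase j :=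
      Finset.mem_erase.2 ⟨(Finset.mem_erase.1 hj).1.symm, Finset.mem_univ _⟩
    rw [← Finset.mul_prod_erase _ _ hi, Finset.erase_right_comm]
    ring
  rw [Finset.prod_congr rfl h1, Finset.prod_mul_distrib, Finset.prod_mul_distrib,
    Finset.prod_const, Finset.card_erase_of_mem (Finset.mem_univ i), Finset.card_univ,
    Fintype.card_fin]
  ring

theorem WOc_der {K : Type} [Field K] {n : ℕ} (θ : Fin n → K) (i : Fin n) :
    (derivative (∏ j, (X - C (θ j)))).eval (θ i) = ∏ j ∈ Finset.univ.erase i, (θ i - θ j) := by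
  have h := Lagrange.eval_nodal_derivative_eval_node_eq (s := Finset.univ) (v := θ)
    (Finset.mem_univ i)
  rw [Lagrange.eval_nodal] at h
  exact h

/-- if `Dv / s` lies in the ideal `(f, f')` then `s` divides every `Phi` -/
theorem dvd_Phi_of_mem {n : ℕ} (h1 : 1 ≤ n) {f : ℤ[X]} (hm : f.Monic) (hn : f.natDegree = n)
    (h0 : Dv n f ≠ 0) {s c : ℤ} (hD : Dv n f = s * c)
    (hc : C c ∈ (Ideal.span {f, derivative f} : Ideal ℤ[X])) (k : ℕ) : s ∣ Phi n k f := by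
  obtain ⟨θ, hθ⟩ := exists_roots (up ℂ f) (hm.map _) ((hm.natDegree_map _).trans hn)
  have hθ' : f.map (Int.castRingHom ℂ) = ∏ i, (X - C (θ i)) := hθ
  have hDC : ((Dv n f : ℤ) : ℂ) = Dv n (∏ i, (X - C (θ i))) := by
    rw [← hθ', Dv_map]; rfl
  have hinj : Function.Injective θ := by
    by_contra hni
    have := (Dv_eq_zero_iff θ).2 hni
    rw [← hDC] at this
    exact h0 (by exact_mod_cast this)
  obtain ⟨u, w, huw⟩ := Ideal.mem_span_pair.1 hc
  have hroot : ∀ i, (f.map (Int.castRingHom ℂ)).eval (θ i) = 0 := by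
    intro i
    rw [hθ', eval_prod]
    exact Finset.prod_eq_zero (Finset.mem_univ i) (by simp)
  have hd : ∀ i, ∏ j ∈ Finset.univ.erase i, (θ i - θ j) ≠ 0 := fun i =>
    Finset.prod_ne_zero_iff.2 fun j hj =>
      sub_ne_zero.2 fun h => (Finset.mem_erase.1 hj).1 (hinj h).symm
  have hw : ∀ i, (w.map (Int.castRingHom ℂ)).eval (θ i) *
      ∏ j ∈ Finset.univ.erase i, (θ i - θ j) = (c : ℂ) := by
    intro i
    have h2 := congrArg (fun p : ℤ[X] => (p.map (Int.castRingHom ℂ)).eval (θ i)) huw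
    simp only [Polynomial.map_add, Polynomial.map_mul, eval_add, eval_mul, hroot, mul_zero,
      zero_add, map_C, eval_C, ← derivative_map] at h2
    rw [hθ', WOc_der] at h2
    simpa using h2
  have hc0 : (c : ℂ) ≠ 0 := by
    have : c ≠ 0 := fun h => h0 (by rw [hD, h, mul_zero])
    exact_mod_cast this
  have heta : ∀ i, ∏ j ∈ Finset.univ.erase i, ∏ l ∈ (Finset.univ.erase i).erase j, (θ j - θ l) =
      (-1) ^ (n - 1) * (s : ℂ) * ((w.map (Int.castRingHom ℂ)).eval (θ i) /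
        ∏ j ∈ Finset.univ.erase i, (θ i - θ j)) := by
    intro i
    have h3 := WOc_split θ i
    rw [← Dv_roots, ← hDC, hD, Int.cast_mul, ← hw i] at h3
    have h4 : ((-1 : ℂ) ^ (n - 1)) * (-1) ^ (n - 1) = 1 := by
      rw [← mul_pow]; simp
    have h5 := hd i
    generalize ∏ j ∈ Finset.univ.erase i, (θ i - θ j) = d at h3 h5
    generalize ∏ j ∈ Finset.univ.erase i, ∏ l ∈ (Finset.univ.erase i).erase j, (θ j - θ l) = e
      at h3
    generalize (w.map (Int.castRingHom ℂ)).eval (θ i) = a at h3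
    generalize (-1 : ℂ) ^ (n - 1) = σ at h3 h4
    field_simp
    have h6 : d * (e * d - σ * s * a) = 0 := by
      linear_combination (-σ) * h3 - (d ^ 2 * e) * h4
    have h7 := (mul_eq_zero.1 h6).resolve_left h5
    linear_combination h7
  have hg : ((X ^ k * w) %ₘ f).degree < n := by
    have := degree_modByMonic_lt (X ^ k * w) hm
    rwa [degree_eq_natDegree hm.ne_zero, hn] at this
  have hgv : ∀ i, (((X ^ k * w) %ₘ f).map (Int.castRingHom ℂ)).eval (θ i) =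
      θ i ^ k * (w.map (Int.castRingHom ℂ)).eval (θ i) := by
    intro i
    have h2 := congrArg (fun p : ℤ[X] => (p.map (Int.castRingHom ℂ)).eval (θ i))
      (modByMonic_add_div (X ^ k * w) f)
    simpa [hroot] using h2
  have hL := Lagrange.coeff_eq_sum (s := Finset.univ) (v := θ) hinj.injOn
    (P := ((X ^ k * w) %ₘ f).map (Int.castRingHom ℂ))
    (by simpa using lt_of_le_of_lt degree_map_le hg)
  rw [Finset.card_univ, Fintype.card_fin, coeff_map] at hL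
  refine ⟨(-1) ^ (n - 1) * ((X ^ k * w) %ₘ f).coeff (n - 1), ?_⟩
  have hP : ((Phi n k f : ℤ) : ℂ) = Phi n k (∏ i, (X - C (θ i))) := by
    rw [← hθ', Phi_map]; rfl
  have hE : ((Phi n k f : ℤ) : ℂ) =
      (s : ℂ) * ((-1) ^ (n - 1) * ((((X ^ k * w) %ₘ f).coeff (n - 1) : ℤ) : ℂ)) := by
    rw [hP, Phi_roots]
    have h8 : ((((X ^ k * w) %ₘ f).coeff (n - 1) : ℤ) : ℂ) = _ := hL
    rw [h8, Finset.mul_sum, Finset.mul_sum]
    refine Finset.sum_congr rfl fun i _ => ?_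
    rw [heta i, hgv i]
    ring
  exact_mod_cast hE

end Pool.Agent.VW
end

-- part Pool.Agent.P.MP_b0ea37_nt.WOd
section

namespace Pool.Agent.VW

open Polynomial

theorem WOd_lift {p : ℕ} (G : (ZMod p)[X]) : ∃ g : ℤ[X], up (ZMod p) g = G :=
  map_surjective _ (ZMod.ringHom_surjective _) G

theorem WOd_ker {p : ℕ} {g : ℤ[X]} (h : up (ZMod p) g = 0) : ∃ u : ℤ[X], g = C (p : ℤ) * u := by
  have : C (p : ℤ) ∣ g := by
    rw [C_dvd_iff_dvd_coeff]
    intro i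
    have h2 := congrArg (fun q => coeff q i) h
    simp only [coeff_map, coeff_zero, eq_intCast] at h2
    exact (ZMod.intCast_zmod_eq_zero_iff_dvd _ _).1 h2
  exact this

theorem WOd_eval {p : ℕ} (g : ℤ[X]) (r : ℤ) :
    (up (ZMod p) g).eval (r : ZMod p) = ((g.eval r : ℤ) : ZMod p) := by
  simp

/-- at a rational multiple root that is not weak, `p` times a unit lies in `(f, f')` -/
theorem exists_unit_mul {n p : ℕ} (hp : p.Prime) (hnp : n < p) {f : ℤ[X]} (hm : f.Monic)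
    (hn : f.natDegree = n) {r : ℤ} (h1 : (p : ℤ) ∣ f.eval r) (h2 : (p : ℤ) ∣ (derivative f).eval r)
    (h3 : ¬ (p : ℤ) ^ 2 ∣ f.eval r) :
    ∃ z : ℤ[X], ¬ (p : ℤ) ∣ z.eval r ∧
      C (p : ℤ) * z ∈ (Ideal.span {f, derivative f} : Ideal ℤ[X]) := by
  have _ := h2
  have : Fact p.Prime := ⟨hp⟩
  have hF : (up (ZMod p) f).Monic := hm.map _
  have hF0 : up (ZMod p) f ≠ 0 := hF.ne_zero
  have hdeg : (up (ZMod p) f).natDegree = n := by rw [hm.natDegree_map, hn]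
  have hroot : (up (ZMod p) f).IsRoot (r : ZMod p) := by
    rw [IsRoot, WOd_eval, ZMod.intCast_zmod_eq_zero_iff_dvd]; exact h1
  have hpos : 0 < rootMultiplicity (r : ZMod p) (up (ZMod p) f) :=
    (rootMultiplicity_pos hF0).2 hroot
  have hle : rootMultiplicity (r : ZMod p) (up (ZMod p) f) ≤ n := by
    have := natDegree_le_of_dvd (pow_rootMultiplicity_dvd (up (ZMod p) f) (r : ZMod p)) hF0
    rwa [natDegree_pow, natDegree_X_sub_C, mul_one, hdeg] at this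
  obtain ⟨Hb, hHb, hnd⟩ := exists_eq_pow_rootMultiplicity_mul_and_not_dvd _ hF0 (r : ZMod p)
  obtain ⟨a, ha⟩ : ∃ a, rootMultiplicity (r : ZMod p) (up (ZMod p) f) = a + 1 :=
    ⟨_, (Nat.succ_pred_eq_of_pos hpos).symm⟩
  rw [ha] at hHb hle
  obtain ⟨h, rfl⟩ := WOd_lift Hb
  have hz : up (ZMod p) (f - (X - C r) ^ (a + 1) * h) = 0 := by
    have : up (ZMod p) (f - (X - C r) ^ (a + 1) * h) =
        up (ZMod p) f - (X - C (r : ZMod p)) ^ (a + 1) * up (ZMod p) h := by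
      simp [up, Polynomial.map_sub, Polynomial.map_mul, Polynomial.map_pow]
    rw [this, sub_eq_zero]; exact hHb
  obtain ⟨u, hu⟩ := WOd_ker hz
  have hf : f = (X - C r) ^ (a + 1) * h + C (p : ℤ) * u := by rw [← hu]; ring
  have hf' : derivative f = C ((a : ℤ) + 1) * (X - C r) ^ a * h +
      (X - C r) ^ (a + 1) * derivative h + C (p : ℤ) * derivative u := by
    rw [hf, derivative_add, derivative_mul, derivative_X_sub_C_pow, derivative_C_mul]
    simp
  have hfr : f.eval r = p * u.eval r := by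
    rw [hf]; simp
  have hpz : Prime (p : ℤ) := Nat.prime_iff_prime_int.1 hp
  refine ⟨u * (C ((a : ℤ) + 1) * h + (X - C r) * derivative h) -
    (X - C r) * h * derivative u, ?_, ?_⟩
  · have : eval r (u * (C ((a : ℤ) + 1) * h + (X - C r) * derivative h) -
        (X - C r) * h * derivative u) = u.eval r * (((a : ℤ) + 1) * h.eval r) := by simp
    rw [this]
    intro hd
    rcases hpz.dvd_or_dvd hd with h4 | h4
    · apply h3
      rw [hfr, sq]; exact mul_dvd_mul_left _ h4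
    · rcases hpz.dvd_or_dvd h4 with h5 | h5
      · have h6 : p ∣ a + 1 := by exact_mod_cast h5
        have := Nat.le_of_dvd (Nat.succ_pos a) h6
        omega
      · apply hnd
        rw [dvd_iff_isRoot, IsRoot, WOd_eval, ZMod.intCast_zmod_eq_zero_iff_dvd]; exact h5
  · rw [Ideal.mem_span_pair]
    refine ⟨C ((a : ℤ) + 1) * h + (X - C r) * derivative h, -((X - C r) * h), ?_⟩
    rw [hf']
    nth_rewrite 1 [hf]
    ring

theorem WOd_mult {K : Type} [Field K] {n p : ℕ} [CharP K p] (hnp : n < p) {F d a b : K[X]}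
    (hF0 : F ≠ 0) (hdeg : F.natDegree = n) (h1 : d ∣ F) (h2 : d ∣ derivative F)
    (h3 : d = F * a + derivative F * b) (t : K) :
    rootMultiplicity t d = rootMultiplicity t F - 1 := by
  have hd0 : d ≠ 0 := by
    rintro rfl
    exact hF0 (zero_dvd_iff.1 h1)
  apply le_antisymm
  · by_cases ht : F.IsRoot t
    · have hpos : 0 < rootMultiplicity t F := (rootMultiplicity_pos hF0).2 ht
      have hle : rootMultiplicity t F ≤ n := by
        have := natDegree_le_of_dvd (pow_rootMultiplicity_dvd F t) hF0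
        rwa [natDegree_pow, natDegree_X_sub_C, mul_one, hdeg] at this
      have hne : ((rootMultiplicity t F : ℕ) : K) ≠ 0 := by
        intro h
        have := Nat.le_of_dvd hpos ((CharP.cast_eq_zero_iff K p _).1 h)
        omega
      have hnK : ((n : ℕ) : K) ≠ 0 := by
        intro h
        have := Nat.le_of_dvd (by omega) ((CharP.cast_eq_zero_iff K p _).1 h)
        omega
      have hF' : derivative F ≠ 0 := by
        intro h
        have h4 := congrArg (fun q => coeff q (n - 1)) h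
        simp only [coeff_derivative, coeff_zero] at h4
        have h5 : n - 1 + 1 = n := by omega
        have h6 : ((n - 1 : ℕ) : K) + 1 = (n : K) := by
          rw [← Nat.cast_succ, Nat.succ_eq_add_one, h5]
        rw [h5, h6] at h4
        rcases mul_eq_zero.1 h4 with h7 | h7
        · rw [← hdeg] at h7
          exact hF0 (leadingCoeff_eq_zero.1 h7)
        · exact hnK h7
      rw [← derivative_rootMultiplicity_of_root_of_mem_nonZeroDivisors ht
        (mem_nonZeroDivisors_of_ne_zero hne), le_rootMultiplicity_iff hF']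
      exact (pow_rootMultiplicity_dvd d t).trans h2
    · have : ¬ d.IsRoot t := fun h => ht (h.dvd h1)
      rw [rootMultiplicity_eq_zero this]
      exact Nat.zero_le _
  · rw [le_rootMultiplicity_iff hd0, h3]
    refine dvd_add (Dvd.dvd.mul_right ?_ _) (Dvd.dvd.mul_right ?_ _)
    · exact (pow_dvd_pow _ (Nat.sub_le _ _)).trans (pow_rootMultiplicity_dvd F t)
    · exact pow_sub_one_dvd_derivative_of_pow_dvd (pow_rootMultiplicity_dvd F t)

theorem WOd_deg {K : Type} [Field K] [DecidableEq K] {n p : ℕ} [CharP K p] (hnp : n < p)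
    {F d a b : K[X]} {θ : Fin n → K} (hθ : Roots F θ) (h1 : d ∣ F) (h2 : d ∣ derivative F)
    (h3 : d = F * a + derivative F * b) :
    d.natDegree = n - (Finset.univ.image θ).card := by
  have hmon : F.Monic := by
    rw [hθ]; exact monic_prod_of_monic _ _ fun i _ => monic_X_sub_C _
  have hF0 : F ≠ 0 := hmon.ne_zero
  have hdeg : F.natDegree = n := by
    rw [hθ, natDegree_prod_of_monic _ _ fun i _ => monic_X_sub_C _]
    simp
  have hs : F.Splits := by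
    rw [hθ]; exact Splits.prod fun i _ => Splits.X_sub_C _
  have hd0 : d ≠ 0 := by
    rintro rfl
    exact hF0 (zero_dvd_iff.1 h1)
  have hsd : d.Splits := hs.of_dvd hF0 h1
  have himg : F.roots.toFinset = Finset.univ.image θ := by
    ext t
    rw [Multiset.mem_toFinset, mem_roots hF0, hθ, IsRoot, eval_prod, Finset.prod_eq_zero_iff]
    simp [sub_eq_zero, eq_comm]
  have e1 : ∑ t ∈ F.roots.toFinset, d.roots.count t = d.roots.card :=
    Multiset.sum_count_eq_card fun t ht => by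
      rw [Multiset.mem_toFinset, mem_roots hF0]
      exact ((mem_roots hd0).1 ht).dvd h1
  have e2 : ∑ t ∈ F.roots.toFinset, F.roots.count t = F.roots.card :=
    Multiset.toFinset_sum_count_eq _
  have e3 : ∑ t ∈ F.roots.toFinset, F.roots.count t =
      ∑ t ∈ F.roots.toFinset, (d.roots.count t + 1) := by
    refine Finset.sum_congr rfl fun t ht => ?_
    rw [Multiset.mem_toFinset, mem_roots hF0] at ht
    have := (rootMultiplicity_pos hF0).2 ht
    rw [count_roots, count_roots, WOd_mult hnp hF0 hdeg h1 h2 h3 t]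
    omega
  rw [Finset.sum_add_distrib, e1, e2, ← hs.natDegree_eq_card_roots, ← hsd.natDegree_eq_card_roots,
    hdeg, himg] at e3
  simp only [Finset.sum_const, smul_eq_mul, mul_one] at e3
  omega

/-- the size of the quotient by `(f, f', p)` counts the repeated roots -/
theorem card_mod_p {n p : ℕ} (hp : p.Prime) (hnp : n < p) {f : ℤ[X]} (hm : f.Monic)
    (hn : f.natDegree = n) {K : Type} [Field K] [DecidableEq K] [CharP K p] {θ : Fin n → K}
    (hθ : Roots (up K f) θ) (I : Ideal (ℤ[X] ⧸ (Ideal.span {f, derivative f} : Ideal ℤ[X])))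
    (hI : ∀ z, z ∈ I ↔ (p : ℤ[X] ⧸ (Ideal.span {f, derivative f} : Ideal ℤ[X])) ∣ z) :
    Nat.card ((ℤ[X] ⧸ (Ideal.span {f, derivative f} : Ideal ℤ[X])) ⧸ I) =
      p ^ (n - (Finset.univ.image θ).card) := by
  classical
  have _ := hn
  have : Fact p.Prime := ⟨hp⟩
  have hF0 : up (ZMod p) f ≠ 0 := (hm.map _).ne_zero
  obtain ⟨d, hd⟩ : ∃ d, d = EuclideanDomain.gcd (up (ZMod p) f) (derivative (up (ZMod p) f)) :=
    ⟨_, rfl⟩
  have h1 : d ∣ up (ZMod p) f := hd ▸ EuclideanDomain.gcd_dvd_left _ _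
  have h2 : d ∣ derivative (up (ZMod p) f) := hd ▸ EuclideanDomain.gcd_dvd_right _ _
  obtain ⟨a, b, h3⟩ : ∃ a b, d = up (ZMod p) f * a + derivative (up (ZMod p) f) * b :=
    ⟨_, _, hd.trans (EuclideanDomain.gcd_eq_gcd_ab _ _)⟩
  have hd0 : d ≠ 0 := by
    rintro rfl
    exact hF0 (zero_dvd_iff.1 h1)
  have hmapf : (up (ZMod p) f).map (ZMod.castHom (dvd_refl p) K) = up K f := by
    rw [up, up, map_map, Subsingleton.elim ((ZMod.castHom (dvd_refl p) K).comp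
      (Int.castRingHom (ZMod p))) (Int.castRingHom K)]
  have hdeg : d.natDegree = n - (Finset.univ.image θ).card := by
    rw [← natDegree_map (ZMod.castHom (dvd_refl p) K)]
    refine WOd_deg hnp hθ (a := a.map (ZMod.castHom (dvd_refl p) K))
      (b := b.map (ZMod.castHom (dvd_refl p) K)) ?_ ?_ ?_
    · rw [← hmapf]; exact Polynomial.map_dvd _ h1
    · rw [← hmapf, derivative_map]; exact Polynomial.map_dvd _ h2
    · rw [← hmapf, derivative_map, ← Polynomial.map_mul, ← Polynomial.map_mul,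
        ← Polynomial.map_add, ← h3]
  let ψ : ℤ[X] →+* AdjoinRoot d := (AdjoinRoot.mk d).comp (mapRingHom (Int.castRingHom (ZMod p)))
  have hψ : ∀ g, ψ g = AdjoinRoot.mk d (up (ZMod p) g) := fun g => rfl
  have hkill : ∀ g ∈ (Ideal.span {f, derivative f} : Ideal ℤ[X]), ψ g = 0 := by
    intro g hg
    obtain ⟨u, w, rfl⟩ := Ideal.mem_span_pair.1 hg
    have e1 : ψ f = 0 := by rw [hψ, AdjoinRoot.mk_eq_zero]; exact h1
    have e2 : ψ (derivative f) = 0 := by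
      rw [hψ, AdjoinRoot.mk_eq_zero, up, ← derivative_map]; exact h2
    rw [map_add, map_mul, map_mul, e1, e2]; simp
  let φ := Ideal.Quotient.lift (Ideal.span {f, derivative f} : Ideal ℤ[X]) ψ hkill
  have hφ : ∀ g, φ (Ideal.Quotient.mk _ g) = ψ g := fun g => rfl
  have hsurj : Function.Surjective φ := by
    intro y
    obtain ⟨G, rfl⟩ := AdjoinRoot.mk_surjective y
    obtain ⟨g, rfl⟩ := WOd_lift G
    exact ⟨Ideal.Quotient.mk _ g, rfl⟩
  have hker : RingHom.ker φ = I := by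
    ext z
    rw [RingHom.mem_ker, hI]
    constructor
    · intro hz
      obtain ⟨g, rfl⟩ := Ideal.Quotient.mk_surjective z
      rw [hφ, hψ, AdjoinRoot.mk_eq_zero] at hz
      obtain ⟨c, hc⟩ := hz
      obtain ⟨a', ha'⟩ := WOd_lift (a * c)
      obtain ⟨b', hb'⟩ := WOd_lift (b * c)
      have hz : up (ZMod p) (g - (a' * f + b' * derivative f)) = 0 := by
        have : up (ZMod p) (g - (a' * f + b' * derivative f)) = up (ZMod p) g -
            (up (ZMod p) a' * up (ZMod p) f + up (ZMod p) b' * derivative (up (ZMod p) f)) := by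
          simp only [up, Polynomial.map_sub, Polynomial.map_add, Polynomial.map_mul,
            derivative_map]
        rw [this, ha', hb', hc, h3]; ring
      obtain ⟨u, hu⟩ := WOd_ker hz
      refine ⟨Ideal.Quotient.mk _ u, ?_⟩
      have : (p : ℤ[X] ⧸ (Ideal.span {f, derivative f} : Ideal ℤ[X])) =
          Ideal.Quotient.mk _ (C (p : ℤ)) := by simp
      rw [this, ← map_mul, Ideal.Quotient.eq, Ideal.mem_span_pair]
      exact ⟨a', b', by rw [← hu]; ring⟩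
    · rintro ⟨w, rfl⟩
      have : φ (p : ℤ[X] ⧸ (Ideal.span {f, derivative f} : Ideal ℤ[X])) = 0 := by
        rw [map_natCast, ← map_natCast (AdjoinRoot.of d), ZMod.natCast_self, map_zero]
      rw [map_mul, this, zero_mul]
  rw [← hker, Nat.card_congr (RingHom.quotientKerEquivOfSurjective hsurj).toEquiv]
  have := (AdjoinRoot.powerBasis hd0).finite
  rw [Module.natCard_eq_pow_finrank (K := ZMod p), Nat.card_zmod,
    (AdjoinRoot.powerBasis hd0).finrank, AdjoinRoot.powerBasis_dim, hdeg]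

end Pool.Agent.VW
end

-- part Pool.Agent.P.MP_b0ea37_nt.WXa
section

namespace Pool.Agent.VW

open Polynomial

/-- the integer point `a` lies on one of the parametrised sets over a field of characteristic `p` -/
def OnV {m N k : ℕ} (P : Fin m → Fin N → MvPolynomial (Fin k) ℤ) (p : ℕ) (a : Fin N → ℤ) : Prop :=
  ∃ (K : Type) (_ : Field K) (_ : CharP K p) (φ : Fin m) (z : Fin k → K),
    ∀ i, (a i : K) = MvPolynomial.eval₂ (Int.castRingHom K) z (P φ i)

/-- projection along the direction `(1, v)` -/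
def shr {N : ℕ} (v : Fin N → ℤ) (a : Fin (N + 1) → ℤ) : Fin N → ℤ :=
  fun i => a i.succ - v i * a 0

theorem OnV.congr {m N k : ℕ} {P : Fin m → Fin N → MvPolynomial (Fin k) ℤ} {p : ℕ}
    {a b : Fin N → ℤ} (h : OnV P p a) (hab : ∀ i, (p : ℤ) ∣ b i - a i) : OnV P p b := by
  obtain ⟨K, hK, hp, φ, z, hz⟩ := h
  refine ⟨K, hK, hp, φ, z, fun i => ?_⟩
  have := (CharP.intCast_eq_zero_iff K p _).2 (hab i)
  rw [Int.cast_sub, sub_eq_zero] at this
  rw [this, hz]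

theorem wxa_rel {N k : ℕ} (hk : k < N) (P : Fin N → MvPolynomial (Fin k) ℤ) :
    ∃ R : MvPolynomial (Fin N) ℤ, R ≠ 0 ∧ MvPolynomial.aeval P R = 0 := by
  by_contra h
  push Not at h
  have hi : AlgebraicIndependent ℤ P :=
    algebraicIndependent_iff.2 fun R hR => by_contra fun h0 => h R h0 hR
  have := hi.cardinalMk_le_trdeg
  rw [MvPolynomial.trdeg_of_isDomain] at this
  simp only [Cardinal.mk_fintype, Fintype.card_fin, Cardinal.lift_natCast, Nat.cast_le] at this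
  omega

/-- more polynomials than variables satisfy a relation -/
theorem exists_rel {m N k : ℕ} (hk : k < N) (P : Fin m → Fin N → MvPolynomial (Fin k) ℤ) :
    ∃ R : MvPolynomial (Fin N) ℤ, R ≠ 0 ∧ ∀ φ, MvPolynomial.aeval (P φ) R = 0 := by
  choose R h0 hR using fun φ => wxa_rel hk (P φ)
  refine ⟨∏ φ, R φ, Finset.prod_ne_zero_iff.2 fun φ _ => h0 φ, fun φ => ?_⟩
  rw [map_prod]
  exact Finset.prod_eq_zero (Finset.mem_univ φ) (hR φ)

theorem wxa_prod {ι : Type} (s : Finset ι) (l : ι → ℤ[X]) (hl : ∀ i, (l i).natDegree ≤ 1)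
    (e : ι → ℕ) : (∏ i ∈ s, l i ^ e i).natDegree ≤ ∑ i ∈ s, e i ∧
      (∏ i ∈ s, l i ^ e i).coeff (∑ i ∈ s, e i) = ∏ i ∈ s, (l i).coeff 1 ^ e i := by
  classical
  induction s using Finset.induction_on with
  | empty => simp
  | insert a s ha ih =>
    have h1 : (l a ^ e a).natDegree ≤ e a := by
      simpa using natDegree_pow_le_of_le (e a) (hl a)
    have h2 : (l a ^ e a).coeff (e a) = (l a).coeff 1 ^ e a := by
      simpa using coeff_pow_of_natDegree_le (m := e a) (hl a)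
    rw [Finset.prod_insert ha, Finset.prod_insert ha, Finset.sum_insert ha]
    exact ⟨natDegree_mul_le_of_le h1 ih.1, by
      rw [coeff_mul_add_eq_of_natDegree_le h1 ih.1, h2, ih.2]⟩

theorem wxa_top {N : ℕ} (R : MvPolynomial (Fin (N + 1)) ℤ) (hR : R ≠ 0) :
    ∃ (E : ℕ) (v : Fin N → ℤ), (∀ m ∈ R.support, ∑ i, m i ≤ E) ∧
      ∑ m ∈ R.support with ∑ i, m i = E, R.coeff m * ∏ i, v i ^ m i.succ ≠ 0 := by
  classical
  obtain ⟨m₀, hm₀, hmax⟩ := Finset.exists_max_image R.support (fun m => ∑ i, m i)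
    (MvPolynomial.support_nonempty.2 hR)
  by_contra h
  push Not at h
  have hT : (∑ m ∈ R.support with ∑ i, m i = ∑ i, m₀ i,
      MvPolynomial.monomial m.tail (R.coeff m) : MvPolynomial (Fin N) ℤ) = 0 := by
    refine MvPolynomial.funext fun v => ?_
    rw [map_sum, map_zero, ← h _ v hmax]
    refine Finset.sum_congr rfl fun m _ => ?_
    rw [MvPolynomial.eval_monomial, Finsupp.prod_fintype _ _ fun i => pow_zero _]
    simp only [Finsupp.tail_apply]
  have := congrArg (MvPolynomial.coeff m₀.tail) hT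
  rw [MvPolynomial.coeff_sum, MvPolynomial.coeff_zero, Finset.sum_eq_single m₀] at this
  · rw [MvPolynomial.coeff_monomial, if_pos rfl] at this
    exact MvPolynomial.mem_support_iff.1 hm₀ this
  · intro m hm hne
    rw [MvPolynomial.coeff_monomial, if_neg]
    intro ht
    have h1 : ∀ i : Fin N, m i.succ = m₀ i.succ := fun i => by
      simpa only [Finsupp.tail_apply] using DFunLike.congr_fun ht i
    have h2 := (Finset.mem_filter.1 hm).2
    rw [Fin.sum_univ_succ, Fin.sum_univ_succ, Finset.sum_congr rfl fun i _ => h1 i] at h2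
    exact hne (Finsupp.ext fun i => Fin.cases (by omega) h1 i)
  · intro hn
    exact (hn (Finset.mem_filter.2 ⟨hm₀, rfl⟩)).elim

/-- after a shear the relation has a constant leading coefficient in the first coordinate -/
theorem exists_shear {N : ℕ} (R : MvPolynomial (Fin (N + 1)) ℤ) (hR : R ≠ 0) :
    ∃ (v : Fin N → ℤ) (c : ℤ) (E : ℕ), c ≠ 0 ∧ ∀ b : Fin N → ℤ, ∃ g : ℤ[X],
      g.natDegree ≤ E ∧ g.coeff E = c ∧
      ∀ a : Fin (N + 1) → ℤ, shr v a = b → g.eval (a 0) = MvPolynomial.eval a R := by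
  classical
  obtain ⟨E, v, hE, hc⟩ := wxa_top R hR
  refine ⟨v, _, E, hc, fun b => ?_⟩
  let l : Fin (N + 1) → ℤ[X] := Fin.cons X fun i => C (b i) + C (v i) * X
  have hl : ∀ i, (l i).natDegree ≤ 1 := fun i => by
    refine Fin.cases ?_ (fun i => ?_) i
    · exact natDegree_X_le
    · show (C (b i) + C (v i) * X).natDegree ≤ 1
      compute_degree
  have h0 : (l 0).coeff 1 = 1 := coeff_X_one
  have h1 : ∀ i : Fin N, (l i.succ).coeff 1 = v i := fun i => by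
    show (C (b i) + C (v i) * X).coeff 1 = v i
    rw [coeff_add, coeff_C_mul, coeff_X_one, coeff_C_succ, zero_add, mul_one]
  refine ⟨∑ m ∈ R.support, C (R.coeff m) * ∏ i, l i ^ m i, ?_, ?_, fun a ha => ?_⟩
  · exact natDegree_sum_le_of_forall_le _ _ fun m hm =>
      (natDegree_C_mul_le _ _).trans ((wxa_prod _ l hl m).1.trans (hE m hm))
  · rw [finsetSum_coeff, Finset.sum_filter]
    refine Finset.sum_congr rfl fun m hm => ?_
    rw [coeff_C_mul]
    split_ifs with h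
    · rw [← h, (wxa_prod _ l hl m).2, Fin.prod_univ_succ, h0, one_pow, one_mul]
      simp only [h1]
    · rw [coeff_eq_zero_of_natDegree_lt
        ((wxa_prod _ l hl m).1.trans_lt (lt_of_le_of_ne (hE m hm) h)), mul_zero]
  · have h2 : ∀ i, (l i).eval (a 0) = a i := fun i => by
      refine Fin.cases ?_ (fun i => ?_) i
      · exact eval_X
      · show (C (b i) + C (v i) * X).eval (a 0) = a i.succ
        rw [← ha, eval_add, eval_mul, eval_C, eval_C, eval_X, shr, sub_add_cancel]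
    rw [MvPolynomial.eval_eq', eval_finsetSum]
    simp only [eval_mul, eval_C, eval_prod, eval_pow, h2]

/-- one step of the elimination -/
theorem exists_step {m N k : ℕ} (hk : k ≤ N) (P : Fin m → Fin (N + 1) → MvPolynomial (Fin k) ℤ) :
    ∃ (P' : Fin m → Fin N → MvPolynomial (Fin k) ℤ) (R : MvPolynomial (Fin (N + 1)) ℤ)
      (v : Fin N → ℤ) (c : ℤ) (E : ℕ), c ≠ 0 ∧
      (∀ p a, OnV P p a → OnV P' p (shr v a) ∧ (p : ℤ) ∣ MvPolynomial.eval a R) ∧
      ∀ b : Fin N → ℤ, ∃ g : ℤ[X], g.natDegree ≤ E ∧ g.coeff E = c ∧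
        ∀ a : Fin (N + 1) → ℤ, shr v a = b → g.eval (a 0) = MvPolynomial.eval a R := by
  obtain ⟨R, hR, hP⟩ := exists_rel (Nat.lt_succ_of_le hk) P
  obtain ⟨v, c, E, hc, hg⟩ := exists_shear R hR
  refine ⟨fun φ i => P φ i.succ - MvPolynomial.C (v i) * P φ 0, R, v, c, E, hc, ?_, hg⟩
  rintro p a ⟨K, hK, hp, φ, z, hz⟩
  refine ⟨⟨K, hK, hp, φ, z, fun i => ?_⟩, (CharP.intCast_eq_zero_iff K p _).1 ?_⟩
  · rw [MvPolynomial.eval₂_sub, MvPolynomial.eval₂_mul, MvPolynomial.eval₂_C, ← hz, ← hz, shr]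
    simp
  · have e : ∀ Q : MvPolynomial (Fin (N + 1)) ℤ, ((MvPolynomial.eval a Q : ℤ) : K) =
        MvPolynomial.eval₂ (Int.castRingHom K) z (MvPolynomial.aeval (P φ) Q) := fun Q => by
      induction Q using MvPolynomial.induction_on with
      | C t =>
        rw [MvPolynomial.eval_C, MvPolynomial.aeval_C, MvPolynomial.algebraMap_eq,
          MvPolynomial.eval₂_C, eq_intCast]
      | add f g hf hg => simp only [map_add, Int.cast_add, MvPolynomial.eval₂_add, hf, hg]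
      | mul_X f i hf =>
        simp only [map_mul, Int.cast_mul, MvPolynomial.eval₂_mul, hf, MvPolynomial.eval_X,
          MvPolynomial.aeval_X, hz]
    rw [e, hP, MvPolynomial.eval₂_zero]

end Pool.Agent.VW
end

-- part Pool.Agent.P.MP_b0ea37_nt.WOe
section

namespace Pool.Agent.VW

open Polynomial

/-- the chain_j for the ring of `(f, f')` at a prime that is not weak -/
theorem WOe_data {n p : ℕ} {f : ℤ[X]} (hm : f.Monic) (hn : f.natDegree = n)
    (h0 : Dv n f ≠ 0) (hp : p.Prime) (hnp : n < p) (hw : ¬ Weak p f) :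
    ∃ (e D : ℕ) (k : ℕ → ℕ), (Dv n f).natAbs = p ^ (∑ i ∈ Finset.range e, k i) * D ∧
      padicValInt p (Dv n f) = ∑ i ∈ Finset.range e, k i ∧
      C ((p : ℤ) ^ e * D) ∈ (Ideal.span {f, derivative f} : Ideal ℤ[X]) ∧
      (∀ i, k (i + 1) ≤ k i) ∧ (∀ i < e, k i ≠ 0) ∧ (∀ i, k (i + 1) ≠ 1) ∧
      ∀ (K : Type) [Field K] [DecidableEq K] [CharP K p] (θ : Fin n → K), Roots (up K f) θ →
        k 0 = n - (Finset.univ.image θ).card := by
  have hcard := card_quot_res hm hn (g := derivative f) (m := n - 1)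
    (hn ▸ natDegree_derivative_le f) h0
  have : Finite (ℤ[X] ⧸ (Ideal.span {f, derivative f} : Ideal ℤ[X])) :=
    Nat.finite_of_card_ne_zero (by rw [hcard]; exact Int.natAbs_ne_zero.2 h0)
  obtain ⟨e, I, k, D, hI, hk, hanti, hpos, hc, hD, hz⟩ :=
    chain_j (J := ℤ[X] ⧸ (Ideal.span {f, derivative f} : Ideal ℤ[X])) hp
  have hD0 : D ≠ 0 := fun h => hD (h ▸ dvd_zero p)
  have habs : (Dv n f).natAbs = p ^ (∑ i ∈ Finset.range e, k i) * D := by rw [← hc, hcard]; rfl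
  have := Fact.mk hp
  refine ⟨e, D, k, habs, ?_, ?_, hanti, hpos, fun i hi => ?_, fun K _ _ _ θ hθ => ?_⟩
  · rw [padicValInt, habs, padicValNat.mul (pow_ne_zero _ hp.ne_zero) hD0, padicValNat.prime_pow,
      padicValNat.eq_zero_of_not_dvd hD, add_zero]
  · rw [← Ideal.Quotient.eq_zero_iff_mem, ← hz]
    simp
  · have h2 := hk (i + 1)
    rw [hi, pow_one] at h2
    obtain ⟨φ, hφ⟩ := exists_hom_zmod hp _ h2
    obtain ⟨r, hr⟩ := ZMod.intCast_surjective (φ (Ideal.Quotient.mk _ X))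
    have hev : ∀ g : ℤ[X], φ (Ideal.Quotient.mk _ g) = ((g.eval r : ℤ) : ZMod p) := by
      intro g
      have h3 : φ.comp (Ideal.Quotient.mk _) = (Int.castRingHom (ZMod p)).comp (evalRingHom r) :=
        Polynomial.ringHom_ext' (RingHom.ext_int _ _) (by simpa using hr.symm)
      exact RingHom.congr_fun h3 g
    have hmem : ∀ g ∈ (Ideal.span {f, derivative f} : Ideal ℤ[X]), (p : ℤ) ∣ g.eval r := by
      intro g hg
      rw [← ZMod.intCast_zmod_eq_zero_iff_dvd, ← hev, Ideal.Quotient.eq_zero_iff_mem.2 hg, map_zero]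
    have h3 := hmem f (Ideal.subset_span (by simp))
    have h4 := hmem (derivative f) (Ideal.subset_span (by simp))
    obtain ⟨z, hz1, hz2⟩ := exists_unit_mul hp hnp hm hn h3 h4 fun h => hw ⟨r, h, h4⟩
    refine hz1 ?_
    rw [← ZMod.intCast_zmod_eq_zero_iff_dvd, ← hev]
    refine hφ _ ((hI _ _).2 ?_)
    have h5 := Ideal.Quotient.eq_zero_iff_mem.2 hz2
    rw [map_mul] at h5
    have h6 : Ideal.Quotient.mk (Ideal.span {f, derivative f} : Ideal ℤ[X]) (C (p : ℤ)) = p := by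
      simp
    rw [h6] at h5
    rw [pow_succ _ i, mul_assoc, h5, mul_zero]
    exact dvd_zero _
  · have h2 := card_mod_p hp hnp hm hn hθ (I 0) fun z => by simpa using hI 0 z
    rw [hk] at h2
    exact Nat.pow_right_injective hp.two_le h2

theorem loc_dvd' {n p : ℕ} (hn : 5 ≤ n) {f : ℤ[X]} (hf : Bad n f) (hp : p.Prime) (hnp : n < p)
    (hw : ¬ Weak p f) (k : ℕ) : (p : ℤ) ^ (padicValInt p (Dv n f) / 2) ∣ Phi n k f := by
  obtain ⟨hm, hd, hi, -, -⟩ := hf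
  have h0 := Irr.Dv_ne_zero hm hd hi
  obtain ⟨e, D, κ, habs, hv, hmem, -, hpos, hne, -⟩ := WOe_data hm hd h0 hp hnp hw
  obtain ⟨v, hv'⟩ : ∃ v, v = ∑ i ∈ Finset.range e, κ i := ⟨_, rfl⟩
  rw [← hv'] at habs hv
  have h2 : 2 * e ≤ v + 1 := by
    rw [hv']
    clear hv' habs hv hmem
    induction e with
    | zero => omega
    | succ e ih =>
      have h3 := ih fun i hi => hpos i (by omega)
      have h4 := hpos e (by omega)
      rw [Finset.sum_range_succ]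
      rcases e with _ | e
      · omega
      · have := hne e
        omega
  rw [hv]
  refine dvd_Phi_of_mem (by omega) hm hd h0
    (c := (Dv n f).sign * (p : ℤ) ^ (v - v / 2 - e) * ((p : ℤ) ^ e * D)) ?_ ?_ k
  · have h3 : (p : ℤ) ^ v = p ^ (v / 2) * (p ^ (v - v / 2 - e) * p ^ e) := by
      rw [← pow_add, ← pow_add]
      congr 1
      omega
    have h4 := Int.sign_mul_natAbs (Dv n f)
    rw [habs] at h4
    push_cast at h4
    rw [h3] at h4
    linear_combination -h4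
  · rw [C_mul]
    exact Ideal.mul_mem_left _ _ hmem

theorem loc_odd {n p : ℕ} (hn : 5 ≤ n) {f : ℤ[X]} (hf : Bad n f) (hp : p.Prime) (hnp : n < p)
    (hw : ¬ Weak p f) (ho : Odd (padicValInt p (Dv n f))) {K : Type} [Field K] [DecidableEq K]
    [CharP K p] {θ : Fin n → K} (hθ : Roots (up K f) θ) :
    (Finset.univ.image θ).card + 3 ≤ n := by
  obtain ⟨hm, hd, hi, -, hA⟩ := hf
  have h0 := Irr.Dv_ne_zero hm hd hi
  obtain ⟨e, D, κ, -, hv, -, hanti, -, hne, hk⟩ := WOe_data hm hd h0 hp hnp hw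
  have hk0 := hk K θ hθ
  have hle : ∀ i, κ i ≤ κ 0 := fun i => antitone_nat_of_succ_le hanti (Nat.zero_le i)
  by_contra hlt
  by_cases h1 : κ 0 = 1
  · have := Fact.mk hp
    have hdv : (p : ℤ) ∣ Dv n f := by
      by_contra h
      rw [padicValInt.eq_zero_of_not_dvd h] at ho
      exact absurd ho (by decide)
    refine hw (hA p hp hdv fun h => ?_).1
    have h2 : (2 : K) ≠ 0 := fun h2 => by
      have h3 := Nat.le_of_dvd two_pos ((CharP.cast_eq_zero_iff K p 2).1 (by exact_mod_cast h2))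
      omega
    have h3 := Phi_ne_zero h2 θ (by omega)
    rw [← show up K f = _ from hθ, Phi_map] at h3
    exact h3 ((CharP.intCast_eq_zero_iff K p _).2 h)
  · rw [hv] at ho
    refine Nat.not_even_iff_odd.2 ho (Finset.even_sum _ fun i _ => ?_)
    have h2 := hle i
    have h3 : κ i ≠ 1 := by
      rcases i with _ | i
      · exact h1
      · exact hne i
    have h4 : κ i = 0 ∨ κ i = 2 := by omega
    rcases h4 with h4 | h4 <;> rw [h4] <;> decide

/-- the polynomials with three repeated roots lie on a parametrised family -/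
theorem exists_family (n : ℕ) (hn : 5 ≤ n) :
    ∃ (m : ℕ) (P : Fin m → Fin n → MvPolynomial (Fin (n - 3)) ℤ), ∀ (f : ℤ[X]) (p : ℕ), Bad n f →
      p.Prime → n < p → ¬ Weak p f → Odd (padicValInt p (Dv n f)) →
      OnV P p fun i => f.coeff i := by
  classical
  obtain ⟨eq⟩ : Nonempty ((Fin n → Fin (n - 3)) ≃ Fin (Fintype.card (Fin n → Fin (n - 3)))) :=
    ⟨Fintype.equivFin _⟩
  refine ⟨_, fun φ i => (∏ j : Fin n, (X - C (MvPolynomial.X (eq.symm φ j))) :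
    (MvPolynomial (Fin (n - 3)) ℤ)[X]).coeff i, fun f p hf hp hnp hw ho => ?_⟩
  have := Fact.mk hp
  obtain ⟨θ, hθ⟩ := exists_roots (n := n) (up (AlgebraicClosure (ZMod p)) f) (hf.1.map _)
    (by rw [hf.1.natDegree_map, hf.2.1])
  have h1 := loc_odd hn hf hp hnp hw ho hθ
  obtain ⟨ι⟩ : Nonempty (↥(Finset.univ.image θ) ↪ Fin (n - 3)) :=
    Function.Embedding.nonempty_of_card_le (by rw [Fintype.card_coe, Fintype.card_fin]; omega)
  obtain ⟨ψ, hψ⟩ : ∃ ψ : Fin n → ↥(Finset.univ.image θ), ∀ j, (ψ j).1 = θ j :=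
    ⟨fun j => ⟨θ j, Finset.mem_image_of_mem _ (Finset.mem_univ j)⟩, fun _ => rfl⟩
  obtain ⟨z, hz⟩ : ∃ z : Fin (n - 3) → AlgebraicClosure (ZMod p), ∀ t, z (ι t) = t.1 :=
    ⟨Function.extend ι Subtype.val fun _ => 0, fun t => ι.injective.extend_apply _ _ t⟩
  refine ⟨AlgebraicClosure (ZMod p), inferInstance, inferInstance, eq fun j => ι (ψ j), z,
    fun i => ?_⟩
  have h2 : (∏ j : Fin n, (X - C (MvPolynomial.X (ι (ψ j)))) :
      (MvPolynomial (Fin (n - 3)) ℤ)[X]).map (MvPolynomial.eval₂Hom (Int.castRingHom _) z) =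
      up (AlgebraicClosure (ZMod p)) f := by
    rw [show up (AlgebraicClosure (ZMod p)) f = _ from hθ, Polynomial.map_prod]
    refine Finset.prod_congr rfl fun j _ => ?_
    simp [hz, hψ]
  have h3 := congrArg (fun g => coeff g i) h2
  simp only [coeff_map, Equiv.symm_apply_apply] at h3 ⊢
  exact h3.symm

end Pool.Agent.VW
end

-- part Pool.Agent.P.MP_b0ea37_nt.WXb
section

namespace Pool.Agent.VW

open Polynomial

/-- a squarefree number all of whose primes divide `z` divides `z` -/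
theorem WXb_sqf_dvd {Y : ℕ} (hY : Squarefree Y) {z : ℤ}
    (h : ∀ p : ℕ, p.Prime → p ∣ Y → (p : ℤ) ∣ z) : (Y : ℤ) ∣ z := by
  rw [Int.natCast_dvd]
  have h1 : (∏ p ∈ Y.primeFactors, p) ∣ z.natAbs :=
    Finset.prod_primes_dvd _ (fun p hp => (Nat.prime_of_mem_primeFactors hp).prime)
      fun p hp => Int.natCast_dvd.1
        (h p (Nat.prime_of_mem_primeFactors hp) (Nat.dvd_of_mem_primeFactors hp))
  rwa [Nat.prod_primeFactors_of_squarefree hY] at h1

/-- the count in one fibre -/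
theorem WXb_line {c : ℤ} (hc : c ≠ 0) {E : ℕ} (g : ℤ[X]) (hg : g.natDegree ≤ E)
    (hgc : g.coeff E = c) {B H : ℝ} (hB : 1 ≤ B) {Y : ℕ} (hY : Squarefree Y) (hH : (Y : ℝ) ≤ H) :
    Cnt (fun t : ℤ => |(t : ℝ)| ≤ B * H ∧ ∀ p : ℕ, p.Prime → p ∣ Y → (p : ℤ) ∣ g.eval t)
      ((max (E : ℝ) 1) ^ Y.primeFactors.card * ((2 * B * |(c : ℝ)| + 1) * H / Y)) := by
  have hY0 : Y ≠ 0 := hY.ne_zero
  have hYr : (1 : ℝ) ≤ Y := by exact_mod_cast Nat.one_le_iff_ne_zero.2 hY0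
  have hc0 : c.natAbs ≠ 0 := Int.natAbs_ne_zero.2 hc
  obtain ⟨Y1, hY1⟩ : ∃ Y1 : ℕ, Y1 = Y / Nat.gcd Y c.natAbs := ⟨_, rfl⟩
  have hmul : Y1 * Nat.gcd Y c.natAbs = Y := by
    rw [hY1]; exact Nat.div_mul_cancel (Nat.gcd_dvd_left _ _)
  have hdvd : Y1 ∣ Y := Dvd.intro _ hmul
  have hsq : Squarefree Y1 := hY.squarefree_of_dvd hdvd
  have hco : Nat.Coprime Y1 c.natAbs := by
    rw [hY1]; exact Nat.coprime_div_gcd_of_squarefree hY hc0
  have h10 : 1 ≤ Y1 := Nat.one_le_iff_ne_zero.2 hsq.ne_zero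
  have h1r : (1 : ℝ) ≤ Y1 := by exact_mod_cast h10
  have hle : (Y : ℝ) ≤ Y1 * |(c : ℝ)| := by
    have h2 : Y ≤ Y1 * c.natAbs := by
      conv_lhs => rw [← hmul]
      exact Nat.mul_le_mul_left _ (Nat.gcd_le_right _ (Nat.pos_of_ne_zero hc0))
    have h3 : ((c.natAbs : ℕ) : ℝ) = |(c : ℝ)| := by
      rw [← Int.cast_abs, ← Int.cast_natCast, Int.natCast_natAbs]
    rw [← h3]
    exact_mod_cast h2
  have hH1 : 1 ≤ H := hYr.trans hH
  have hBH : 0 ≤ B * H := by positivity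
  have hroots := cnt_roots_mod Y1 hsq g E hg (by
    intro p hp hpd hC
    have h2 : (p : ℤ) ∣ c := by
      rw [← hgc]; exact (C_dvd_iff_dvd_coeff _ _).1 hC E
    have h3 : p ∣ Nat.gcd Y1 c.natAbs := Nat.dvd_gcd hpd (Int.natCast_dvd.1 h2)
    rw [hco] at h3
    exact hp.one_lt.ne' (Nat.dvd_one.1 h3))
  have hf := Cnt.fibre (P := fun (r t : ℤ) => |(t : ℝ) - 0| ≤ B * H ∧ (Y1 : ℤ) ∣ t - r) hroots
    (by positivity : (0 : ℝ) ≤ 2 * (B * H) / Y1 + 1) fun r _ => cnt_class Y1 h10 r 0 (B * H) hBH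
  refine hf.mono (fun t ht => ?_) ?_
  · have hz : (0 : ℤ) < Y1 := by exact_mod_cast h10
    have hd : (Y1 : ℤ) ∣ t - t % Y1 := ⟨t / Y1, by rw [Int.emod_def]; ring⟩
    refine ⟨t % Y1, ⟨Int.emod_nonneg _ hz.ne', Int.emod_lt_of_pos _ hz, ?_⟩, by simpa using ht.1, hd⟩
    have h2 : (Y1 : ℤ) ∣ g.eval t := WXb_sqf_dvd hsq fun p hp hpd => ht.2 p hp (hpd.trans hdvd)
    have h3 := hd.trans (sub_dvd_eval_sub t (t % Y1) g)
    simpa using h2.sub h3
  · refine mul_le_mul ?_ ?_ (by positivity) (by positivity)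
    · exact (pow_le_pow_left₀ (Nat.cast_nonneg _) (le_max_left _ _) _).trans
        (pow_le_pow_right₀ (le_max_right _ _)
          (Finset.card_le_card (Nat.primeFactors_mono hdvd hY0)))
    · have h2 : 2 * (B * H) / Y1 ≤ 2 * B * |(c : ℝ)| * H / Y := by
        rw [div_le_div_iff₀ (by linarith) (by linarith)]
        have := mul_le_mul_of_nonneg_left hle (by positivity : 0 ≤ 2 * (B * H))
        linarith
      have h3 : 1 ≤ H / Y := (one_le_div (by linarith)).2 hH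
      have e : (2 * B * |(c : ℝ)| + 1) * H / Y = 2 * B * |(c : ℝ)| * H / Y + H / Y := by ring
      linarith

/-- points on the sets modulo all primes of a squarefree number -/
theorem ek_small (k j : ℕ) : ∀ N m : ℕ, k + j ≤ N →
    ∀ (P : Fin m → Fin N → MvPolynomial (Fin k) ℤ) (B : ℝ), 1 ≤ B → ∃ C A : ℝ, 1 ≤ C ∧ 1 ≤ A ∧
    ∀ (H : ℝ) (Y : ℕ), Squarefree Y → (Y : ℝ) ≤ H →
      Cnt (fun a : Fin N → ℤ => (∀ i, |(a i : ℝ)| ≤ B * H) ∧
        ∀ p : ℕ, p.Prime → p ∣ Y → OnV P p a)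
        (C * A ^ Y.primeFactors.card * H ^ N / (Y : ℝ) ^ j) := by
  induction j with
  | zero =>
    intro N m _ P B hB
    refine ⟨(3 * B) ^ N, 1, one_le_pow₀ (by linarith), le_rfl, fun H Y hY hH => ?_⟩
    have hYr : (1 : ℝ) ≤ Y := by exact_mod_cast Nat.one_le_iff_ne_zero.2 hY.ne_zero
    have hH1 : 1 ≤ H := hYr.trans hH
    have hBH : 1 ≤ B * H := one_le_mul_of_one_le_of_one_le hB hH1
    refine (Cnt.pi (ι := Fin N) (P := fun _ (t : ℤ) => |(t : ℝ)| ≤ B * H)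
      (B := fun _ => 2 * (B * H) + 1) fun _ => cnt_int_abs _ (by linarith)).mono
      (fun a ha => ha.1) ?_
    rw [Finset.prod_const, Finset.card_univ, Fintype.card_fin, one_pow, mul_one, pow_zero, div_one,
      ← mul_pow]
    exact pow_le_pow_left₀ (by linarith) (by linarith) _
  | succ j ih =>
    intro N m hN P B hB
    obtain ⟨N, rfl⟩ : ∃ N', N = N' + 1 := ⟨N - 1, by omega⟩
    obtain ⟨P', R, v, c, E, hc, hP, hg⟩ := exists_step (by omega : k ≤ N) P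
    have hs : (0 : ℝ) ≤ ∑ i, |(v i : ℝ)| := Finset.sum_nonneg fun i _ => abs_nonneg _
    obtain ⟨C, A, hC, hA, h⟩ := ih N m (by omega) P' (B * (1 + ∑ i, |(v i : ℝ)|))
      (one_le_mul_of_one_le_of_one_le hB (by linarith))
    have hcB : 0 ≤ 2 * B * |(c : ℝ)| := by positivity
    refine ⟨C * (2 * B * |(c : ℝ)| + 1), A * max (E : ℝ) 1,
      one_le_mul_of_one_le_of_one_le hC (by linarith),
      one_le_mul_of_one_le_of_one_le hA (le_max_right _ _), fun H Y hY hH => ?_⟩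
    have hYr : (1 : ℝ) ≤ Y := by exact_mod_cast Nat.one_le_iff_ne_zero.2 hY.ne_zero
    have hH1 : 1 ≤ H := hYr.trans hH
    have hf := Cnt.fibre (P := fun (b : Fin N → ℤ) (a : Fin (N + 1) → ℤ) => shr v a = b ∧
        |(a 0 : ℝ)| ≤ B * H ∧ ∀ p : ℕ, p.Prime → p ∣ Y → (p : ℤ) ∣ MvPolynomial.eval a R)
      (B' := (max (E : ℝ) 1) ^ Y.primeFactors.card * ((2 * B * |(c : ℝ)| + 1) * H / Y))
      (h H Y hY hH) (by positivity) (by
        intro b _
        obtain ⟨g, hg1, hg2, hg3⟩ := hg b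
        refine (WXb_line hc g hg1 hg2 hB hY hH).inj (fun a => a 0)
          (fun a ha => ⟨ha.2.1, fun p hp hpd => ?_⟩) fun a a' ha ha' e => ?_
        · rw [hg3 a ha.1]; exact ha.2.2 p hp hpd
        · have e0 : a 0 = a' 0 := e
          funext i
          refine Fin.cases e0 (fun i => ?_) i
          have e1 := congrFun (ha.1.trans ha'.1.symm) i
          simp only [shr] at e1
          rw [e0] at e1
          linarith)
    refine hf.mono (fun a ha => ⟨shr v a, ⟨fun i => ?_, fun p hp hpd =>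
      (hP p a (ha.2 p hp hpd)).1⟩, rfl, ha.1 0, fun p hp hpd => (hP p a (ha.2 p hp hpd)).2⟩)
      (le_of_eq ?_)
    · have h1 : |(v i : ℝ)| ≤ ∑ i, |(v i : ℝ)| :=
        Finset.single_le_sum (f := fun i => |(v i : ℝ)|) (fun i _ => abs_nonneg _)
          (Finset.mem_univ i)
      have h2 : |((shr v a i : ℤ) : ℝ)| ≤ |(a i.succ : ℝ)| + |(v i : ℝ)| * |(a 0 : ℝ)| := by
        simp only [shr]
        push_cast
        rw [← abs_mul]
        exact abs_sub _ _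
      have h3 : |(v i : ℝ)| * |(a 0 : ℝ)| ≤ (∑ i, |(v i : ℝ)|) * (B * H) :=
        mul_le_mul h1 (ha.1 0) (abs_nonneg _) hs
      have h4 := ha.1 i.succ
      linarith
    · have hY0 : (Y : ℝ) ≠ 0 := by linarith
      rw [mul_pow, pow_succ, pow_succ]
      field_simp

end Pool.Agent.VW
end

-- part Pool.Agent.P.MP_b0ea37_nt.WXc
section

namespace Pool.Agent.VW

open Polynomial

theorem WXc_eval {σ : Type} (R : MvPolynomial σ ℤ) : ∃ (C : ℝ) (d : ℕ), 0 ≤ C ∧ ∀ W : ℝ, 1 ≤ W →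
    ∀ a : σ → ℤ, (∀ i, |(a i : ℝ)| ≤ W) → |((MvPolynomial.eval a R : ℤ) : ℝ)| ≤ C * W ^ d := by
  induction R using MvPolynomial.induction_on with
  | C x => exact ⟨|(x : ℝ)|, 0, abs_nonneg _, fun W _ a _ => by simp⟩
  | add p q hp hq =>
    obtain ⟨C, d, hC, hp⟩ := hp
    obtain ⟨C', d', hC', hq⟩ := hq
    refine ⟨C + C', d + d', by positivity, fun W hW a ha => ?_⟩
    rw [map_add, Int.cast_add, add_mul]
    refine (abs_add_le _ _).trans (add_le_add ((hp W hW a ha).trans ?_) ((hq W hW a ha).trans ?_))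
    · exact mul_le_mul_of_nonneg_left (pow_le_pow_right₀ hW (by omega)) hC
    · exact mul_le_mul_of_nonneg_left (pow_le_pow_right₀ hW (by omega)) hC'
  | mul_X p i hp =>
    obtain ⟨C, d, hC, hp⟩ := hp
    refine ⟨C, d + 1, hC, fun W hW a ha => ?_⟩
    rw [map_mul, MvPolynomial.eval_X, Int.cast_mul, abs_mul, pow_succ, ← mul_assoc]
    exact mul_le_mul (hp W hW a ha) (ha i) (abs_nonneg _) (by positivity)

theorem WXc_inj {N : ℕ} {v : Fin N → ℤ} {a a' : Fin (N + 1) → ℤ} (h : shr v a = shr v a')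
    (h0 : a 0 = a' 0) : a = a' := by
  funext i
  refine Fin.cases h0 (fun i => ?_) i
  have := congrFun h i
  simp only [shr] at this
  rw [h0] at this
  linarith

theorem WXc_box {N : ℕ} (v : Fin N → ℤ) {a : Fin (N + 1) → ℤ} {B H : ℝ}
    (h : ∀ i, |(a i : ℝ)| ≤ B * H) (i : Fin N) :
    |(shr v a i : ℝ)| ≤ B * (1 + ∑ i, |(v i : ℝ)|) * H := by
  have h1 : |(v i : ℝ)| ≤ ∑ i, |(v i : ℝ)| :=
    Finset.single_le_sum (f := fun i => |(v i : ℝ)|) (fun _ _ => abs_nonneg _) (Finset.mem_univ i)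
  have h2 := mul_le_mul h1 (h 0) (abs_nonneg _) ((abs_nonneg _).trans h1)
  have h3 := h i.succ
  simp only [shr]
  push_cast
  refine (abs_sub _ _).trans ?_
  rw [abs_mul]
  linarith

theorem WXc_roots (p : ℕ) (hp : p.Prime) (g : ℤ[X]) (E : ℕ) (hE : g.natDegree ≤ E)
    (hg : ¬ C (p : ℤ) ∣ g) {B H : ℝ} (hB : 0 ≤ B) (hH : 0 ≤ H) (h : H < p) :
    Cnt (fun t : ℤ => |(t : ℝ)| ≤ B * H ∧ (p : ℤ) ∣ g.eval t) (E * (2 * B + 1)) := by
  have hp0 : (0 : ℝ) < p := by exact_mod_cast hp.pos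
  have hz : (0 : ℤ) < p := by exact_mod_cast hp.pos
  have h1 := cnt_roots_mod p hp.squarefree g E hE fun q hq hqp => by
    rwa [(Nat.prime_dvd_prime_iff_eq hq hp).1 hqp]
  rw [hp.primeFactors, Finset.card_singleton, pow_one] at h1
  have h2 : 2 * (B * H) / p + 1 ≤ 2 * B + 1 := by
    rw [add_le_add_iff_right, div_le_iff₀ hp0]
    nlinarith [mul_le_mul_of_nonneg_left h.le hB]
  refine (Cnt.fibre (P := fun r t : ℤ => |(t : ℝ) - 0| ≤ B * H ∧ (p : ℤ) ∣ t - r) h1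
    (by positivity) fun r _ => (cnt_class p hp.pos r 0 _ (by positivity)).mono (fun _ h => h)
      h2).mono (fun t ht => ?_) le_rfl
  have h3 : (p : ℤ) ∣ t - t % p := Int.dvd_self_sub_emod
  refine ⟨t % p, ⟨Int.emod_nonneg _ hz.ne', Int.emod_lt_of_pos _ hz, ?_⟩, by simpa using ht.1, h3⟩
  exact (dvd_iff_dvd_of_dvd_sub (h3.trans (sub_dvd_eval_sub _ _ g))).1 ht.2

/-- points on the sets modulo a large prime: an exceptional set and pairs -/
theorem ek_pairs (k j : ℕ) : ∀ N m : ℕ, k + j ≤ N →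
    ∀ (P : Fin m → Fin N → MvPolynomial (Fin k) ℤ) (B : ℝ), 1 ≤ B → ∃ C H₀ : ℝ, 1 ≤ C ∧ 1 ≤ H₀ ∧
    ∃ Z : (Fin N → ℤ) → Prop, ∀ H : ℝ, H₀ ≤ H →
      Cnt (fun a : Fin N → ℤ => (∀ i, |(a i : ℝ)| ≤ B * H) ∧ Z a) (C * H ^ (N - j)) ∧
      Cnt (fun z : (Fin N → ℤ) × ℕ => (∀ i, |(z.1 i : ℝ)| ≤ B * H) ∧ ¬ Z z.1 ∧ z.2.Prime ∧
        H < z.2 ∧ OnV P z.2 z.1) (C * H ^ (N + 1 - j)) := by
  induction j with
  | zero =>
    intro N m _ P B hB
    refine ⟨(3 * B) ^ N, 1, one_le_pow₀ (by linarith), le_rfl, fun _ => True, fun H hH =>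
      ⟨?_, Cnt.empty (fun z hz => hz.2.1 trivial) (by positivity)⟩⟩
    have h1 : 1 ≤ B * H := one_le_mul_of_one_le_of_one_le hB hH
    refine (Cnt.pi (ι := Fin N) (P := fun _ (t : ℤ) => |(t : ℝ)| ≤ B * H)
      fun _ => cnt_int_abs _ (by linarith)).mono (fun a ha => ha.1) ?_
    rw [Finset.prod_const, Finset.card_univ, Fintype.card_fin, Nat.sub_zero, ← mul_pow]
    exact pow_le_pow_left₀ (by linarith) (by linarith) _
  | succ j ih =>
    intro N m hN P B hB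
    obtain ⟨N, rfl⟩ : ∃ N', N = N' + 1 := ⟨N - 1, by omega⟩
    obtain ⟨P', R, v, c, E, hc, hP, hg⟩ := exists_step (show k ≤ N by omega) P
    have hv : 0 ≤ ∑ i, |(v i : ℝ)| := Finset.sum_nonneg fun _ _ => abs_nonneg _
    obtain ⟨C₁, H₀, hC, hH₀, Z, hZ⟩ := ih N m (by omega) P' (B * (1 + ∑ i, |(v i : ℝ)|))
      (one_le_mul_of_one_le_of_one_le hB (by linarith))
    obtain ⟨C₂, d, hC₂, hR⟩ := WXc_eval R
    have hB0 : 0 ≤ B := by linarith
    have hE : (0 : ℝ) ≤ E := Nat.cast_nonneg _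
    have hd : (0 : ℝ) ≤ d := Nat.cast_nonneg _
    have hEB : 0 ≤ E * B := mul_nonneg hE hB0
    have hdB : 0 ≤ B * d := mul_nonneg hB0 hd
    have hCB : 0 ≤ C₂ * B ^ d := by positivity
    have hca : 0 ≤ |(c : ℝ)| := abs_nonneg _
    refine ⟨C₁ * (E * (2 * B + 1) + 3 * B * (d + 1)), H₀ + 1 + |(c : ℝ)| + C₂ * B ^ d,
      one_le_mul_of_one_le_of_one_le hC (by linarith), by linarith,
      fun a => Z (shr v a) ∧ MvPolynomial.eval a R = 0, fun H hH => ?_⟩
    obtain ⟨h1, h2⟩ := hZ H (by linarith)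
    have hH1 : 1 < H := by linarith
    have hBH : 1 ≤ B * H := one_le_mul_of_one_le_of_one_le hB hH1.le
    rw [Nat.add_sub_add_right, Nat.add_sub_add_right]
    have hW : 0 ≤ C₁ * H ^ (N - j) := by positivity
    constructor
    · refine (Cnt.fibre (P := fun b (a : Fin (N + 1) → ℤ) =>
        shr v a = b ∧ MvPolynomial.eval a R = 0) h1 hE fun b _ => ?_).mono
        (fun a ha => ⟨shr v a, ⟨WXc_box v ha.1, ha.2.1⟩, rfl, ha.2.2⟩) ?_
      · obtain ⟨g, g1, g2, g3⟩ := hg b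
        have g0 : g ≠ 0 := fun e => hc (by rw [← g2, e, coeff_zero])
        exact ((cnt_roots g g0).inj (fun a => a 0) (fun a ha => (g3 a ha.1).trans ha.2)
          fun a a' ha ha' e => WXc_inj (ha.1.trans ha'.1.symm) e).mono (fun _ h => h)
          (Nat.cast_le.2 g1)
      · rw [mul_right_comm C₁ _ (H ^ (N - j))]
        exact mul_le_mul_of_nonneg_left (by linarith) hW
    · have hA := Cnt.fibre (P := fun (y : (Fin N → ℤ) × ℕ) (z : (Fin (N + 1) → ℤ) × ℕ) =>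
          z.2 = y.2 ∧ shr v z.1 = y.1 ∧ |(z.1 0 : ℝ)| ≤ B * H ∧
            (y.2 : ℤ) ∣ MvPolynomial.eval z.1 R) h2 (B' := E * (2 * B + 1)) (by positivity)
        fun y hy => by
          obtain ⟨g, g1, g2, g3⟩ := hg y.1
          have g0 : ¬ C (y.2 : ℤ) ∣ g := fun e => by
            have e1 := Int.le_abs_of_dvd hc (g2 ▸ (C_dvd_iff_dvd_coeff _ _).1 e E)
            have e2 : (y.2 : ℝ) ≤ |(c : ℝ)| := by exact_mod_cast e1
            linarith [hy.2.2.2.1]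
          exact (WXc_roots y.2 hy.2.2.1 g E g1 g0 hB0 (by linarith) hy.2.2.2.1).inj
            (fun z => z.1 0) (fun z hz => ⟨hz.2.2.1, g3 z.1 hz.2.1 ▸ hz.2.2.2⟩)
            fun z z' hz hz' e => Prod.ext (WXc_inj (hz.2.1.trans hz'.2.1.symm) e)
              (hz.1.trans hz'.1.symm)
      have hB1 : Cnt (fun a : Fin (N + 1) → ℤ => (∀ i, |(a i : ℝ)| ≤ B * H) ∧ Z (shr v a) ∧
          MvPolynomial.eval a R ≠ 0) (C₁ * H ^ (N - j) * (3 * B * H)) :=
        (Cnt.fibre (P := fun b (a : Fin (N + 1) → ℤ) => shr v a = b ∧ |(a 0 : ℝ)| ≤ B * H) h1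
          (by positivity) fun b _ => ((cnt_int_abs (B * H) (by linarith)).inj (fun a => a 0)
            (fun a ha => ha.2) fun a a' ha ha' e => WXc_inj (ha.1.trans ha'.1.symm) e).mono
            (fun _ h => h) (by linarith)).mono
          (fun a ha => ⟨shr v a, ⟨WXc_box v ha.1, ha.2.1⟩, rfl, ha.1 0⟩) le_rfl
      have hB2 := Cnt.prod (Q := fun a (p : ℕ) => p.Prime ∧ H ≤ p ∧
          (p : ℤ) ∣ MvPolynomial.eval a R) hB1 (B' := (d + 1 : ℕ)) (Nat.cast_nonneg _)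
        fun a ha => cnt_large_primes _ ha.2.2 H hH1 (d + 1) ((hR _ hBH a ha.1).trans (by
          rw [mul_pow, ← mul_assoc, pow_succ']
          exact mul_le_mul_of_nonneg_right (by linarith) (by positivity)))
      refine (hA.or hB2).mono (fun z hz => ?_) (le_of_eq ?_)
      · obtain ⟨z1, z2, z3, z4, z5⟩ := hz
        obtain ⟨z6, z7⟩ := hP _ _ z5
        by_cases h : Z (shr v z.1)
        · exact Or.inr ⟨⟨z1, h, fun e => z2 ⟨h, e⟩⟩, z3, z4.le, z7⟩
        · exact Or.inl ⟨(shr v z.1, z.2), ⟨WXc_box v z1, h, z3, z4, z6⟩, rfl, rfl, z1 0, z7⟩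
      · rw [show N + 1 - j = N - j + 1 by omega]
        push_cast
        ring

theorem ek_big (k j N m : ℕ) (h : k + j ≤ N) (P : Fin m → Fin N → MvPolynomial (Fin k) ℤ) :
    ∃ C H₀ : ℝ, ∀ H : ℝ, H₀ ≤ H →
      Cnt (fun a : Fin N → ℤ => (∀ i, |(a i : ℝ)| ≤ H) ∧
        ∃ p : ℕ, p.Prime ∧ H < p ∧ OnV P p a) (C * H ^ (N + 1 - j)) := by
  obtain ⟨C, H₀, hC, hH₀, Z, hZ⟩ := ek_pairs k j N m h P 1 le_rfl
  refine ⟨2 * C, H₀, fun H hH => ?_⟩
  obtain ⟨h1, h2⟩ := hZ H hH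
  simp only [one_mul] at h1 h2
  refine (h1.or (h2.image Prod.fst)).mono (fun a ha => ?_) ?_
  · obtain ⟨a1, p, a2⟩ := ha
    by_cases hz : Z a
    · exact Or.inl ⟨a1, hz⟩
    · exact Or.inr ⟨(a, p), ⟨a1, hz, a2⟩, rfl⟩
  · have := mul_le_mul_of_nonneg_left (pow_le_pow_right₀ (hH₀.trans hH)
      (show N - j ≤ N + 1 - j by omega)) (zero_le_one.trans hC)
    linarith

end Pool.Agent.VW
end

-- part Pool.Agent.P.MP_b0ea37_nt.WXd
section

namespace Pool.Agent.VW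

open Polynomial

theorem xd_coef {n : ℕ} {Q : (Fin n → ℤ) → Prop} {B : ℝ} (h : Cnt Q B) :
    Cnt (fun f : ℤ[X] => f.Monic ∧ f.natDegree = n ∧ Q fun i => f.coeff i) B := by
  refine h.inj (fun f i => f.coeff i) (fun f hf => hf.2.2) fun f g hf hg e => ?_
  ext i
  rcases lt_trichotomy i n with h | h | h
  · exact congrFun e ⟨i, h⟩
  · have h1 : f.coeff i = 1 := by rw [h, ← hf.2.1]; exact hf.1.coeff_natDegree
    have h2 : g.coeff i = 1 := by rw [h, ← hg.2.1]; exact hg.1.coeff_natDegree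
    rw [h1, h2]
  · rw [coeff_eq_zero_of_natDegree_lt (hf.2.1 ▸ h), coeff_eq_zero_of_natDegree_lt (hg.2.1 ▸ h)]

theorem xd_abs (f : ℤ[X]) (i : ℕ) : |(f.coeff i : ℝ)| ≤ f.supNorm := f.le_supNorm i

theorem xd_sub (H W : ℝ) (hW : 1 ≤ W) (hWH : W * W ≤ H) (Y : ℕ) (hY : Squarefree Y) (h : W < Y)
    (hp : ∀ p : ℕ, p.Prime → p ∣ Y → (p : ℝ) ≤ H) :
    ∃ Y' : ℕ, Squarefree Y' ∧ Y' ∣ Y ∧ W < Y' ∧ (Y' : ℝ) ≤ H := by
  by_cases hex : ∃ p : ℕ, p.Prime ∧ p ∣ Y ∧ W < p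
  · obtain ⟨p, h1, h2, h3⟩ := hex
    exact ⟨p, h1.prime.squarefree, h2, h3, hp p h1 h2⟩
  · have e : (Y.primeFactorsList : Multiset ℕ).prod = Y := by
      rw [Multiset.prod_coe, Nat.prod_primeFactorsList hY.ne_zero]
    obtain ⟨t, h1, h2, h3⟩ := exists_subprod (Y.primeFactorsList : Multiset ℕ) W W hW hW
      (fun p hp' => by
        have h4 := (Nat.mem_primeFactorsList hY.ne_zero).1 (Multiset.mem_coe.1 hp')
        exact ⟨h4.1.one_le, not_lt.1 fun h5 => hex ⟨p, h4.1, h4.2, h5⟩⟩) (by rwa [e])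
    have hd : t.prod ∣ Y := e ▸ Multiset.prod_dvd_prod_of_le h1
    exact ⟨t.prod, hY.squarefree_of_dvd hd, hd, h2, h3.trans hWH⟩

theorem xd_indep (Y : ℤ) (hY : Y ≠ 0) : Indep (C Y) (C Y * X) := by
  intro a b h
  have h0 := congrArg (fun q : ℤ[X] => q.coeff 0) h
  have h1 := congrArg (fun q : ℤ[X] => q.coeff 1) h
  simp only [coeff_add, coeff_C_mul, coeff_C_zero, coeff_X_zero, coeff_X_one, mul_zero, add_zero,
    coeff_zero, mul_one, coeff_C_succ (n := 0), zero_add] at h0 h1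
  exact ⟨(mul_eq_zero.1 h0).resolve_right hY, (mul_eq_zero.1 h1).resolve_right hY⟩

/-- one squarefree modulus of size at most `H` -/
theorem xd_one (n : ℕ) (hn : 5 ≤ n) (m : ℕ) (P : Fin m → Fin n → MvPolynomial (Fin (n - 3)) ℤ)
    (ε : ℝ) (hε : 0 < ε) (hε1 : ε ≤ 1) : ∃ C₀ : ℝ, 0 ≤ C₀ ∧ ∀ (H : ℝ) (Y : ℕ), 1 ≤ H →
    Squarefree Y → (Y : ℝ) ≤ H →
    Cnt (fun f : ℤ[X] => f.supNorm ≤ H ∧ Bad n f ∧ Tiny ε H f ∧
      ∀ p : ℕ, p.Prime → p ∣ Y → OnV P p fun i => f.coeff i)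
      (C₀ * (H ^ ε) ^ 3 * H ^ n / (H * (Y : ℝ) ^ 2)) := by
  obtain ⟨K, hK⟩ := ll_tiny n hn
  obtain ⟨C₀, h0, hK⟩ := hK ε hε
  have hK0 : (0 : ℝ) ≤ K := Nat.cast_nonneg K
  obtain ⟨C₁, A, h1, hA, hek⟩ := ek_small (n - 3) 3 n m (by omega) P (K + 2) (by linarith)
  obtain ⟨C₂, h2, hom⟩ := pow_omega_le A hA ε hε
  refine ⟨2 * C₀ * C₁ * C₂, by positivity, fun H Y hH hY hYH => ?_⟩
  have hY1 : (1 : ℝ) ≤ Y := by exact_mod_cast Nat.one_le_iff_ne_zero.2 hY.ne_zero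
  have hY0 : (0 : ℝ) < Y := by linarith
  have hu : 1 ≤ H ^ ε := Real.one_le_rpow hH hε.le
  have huH : H ^ ε ≤ H := Real.rpow_le_self_of_one_le hH hε1
  have hq : 1 ≤ H / Y := (one_le_div hY0).2 hYH
  obtain ⟨L, hL⟩ : ∃ L, L = ⌊H / Y⌋₊ := ⟨_, rfl⟩
  have hL1 : 1 ≤ L := hL ▸ Nat.le_floor (by exact_mod_cast hq)
  have hL1' : (1 : ℝ) ≤ L := by exact_mod_cast hL1
  have hL2 : (L : ℝ) * Y ≤ H := (le_div_iff₀ hY0).1 (hL ▸ Nat.floor_le (by linarith))
  have hL3 : H ≤ 2 * L * Y := by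
    have : H / Y < L + 1 := hL ▸ Nat.lt_floor_add_one _
    rw [div_lt_iff₀ hY0] at this
    nlinarith
  have s1 : (C (Y : ℤ)).supNorm = Y := by rw [supNorm_C]; simp
  have s2 : (C (Y : ℤ) * X : ℤ[X]).supNorm = (Y : ℝ) := by rw [sup_C_mul_int, supNorm_X]; simp
  have d2 : (C (Y : ℤ) * X).natDegree ≤ 1 := (natDegree_C_mul_le _ _).trans natDegree_X_le
  refine (hK H (H ^ ε) _ L (C (Y : ℤ)) (C (Y : ℤ) * X) (fun f : ℤ[X] => f.supNorm ≤ H ∧ Bad n f ∧
    Tiny ε H f ∧ ∀ p : ℕ, p.Prime → p ∣ Y → OnV P p fun i => f.coeff i) _ hu huH hL1 (by nlinarith)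
    (by rw [natDegree_C]; omega) (by omega) (xd_indep _ (by exact_mod_cast hY.ne_zero))
    (s1 ▸ hYH) (s2 ▸ hYH) (fun f hf => ⟨hf.2.1, hf.1, hf.2.2.1⟩) ?_
    (xd_coef (hek H Y hY hYH))).mono (fun _ h => h) ?_
  · intro f hf s t hs ht
    have hm := hf.2.1.1
    have hd := hf.2.1.2.1
    have e : f + C s * C (Y : ℤ) + C t * (C (Y : ℤ) * X) = f + C (Y : ℤ) * (C t * X + C s) := by
      ring
    have hlt : (C (Y : ℤ) * (C t * X + C s)).natDegree < f.natDegree :=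
      ((natDegree_C_mul_le _ _).trans natDegree_linear_le).trans_lt (by omega)
    refine ⟨e ▸ hm.add_of_left (degree_lt_degree hlt),
      by rw [e, natDegree_add_eq_left_of_natDegree_lt hlt, hd], fun i => ?_, fun p hp hpY => ?_⟩
    · refine (xd_abs _ _).trans ?_
      have a1 := sup_add_le (f + C s * C (Y : ℤ)) (C t * (C (Y : ℤ) * X))
      have a2 := sup_add_le f (C s * C (Y : ℤ))
      rw [sup_C_mul_int, s2] at a1
      rw [sup_C_mul_int, s1] at a2
      have a3 : |(s : ℝ)| ≤ L := by exact_mod_cast hs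
      have a4 : |(t : ℝ)| ≤ K * L := by exact_mod_cast ht
      have a5 := mul_le_mul_of_nonneg_right a3 hY0.le
      have a6 := mul_le_mul_of_nonneg_right a4 hY0.le
      have a7 := mul_le_mul_of_nonneg_left hL2 hK0
      have a8 := hf.1
      nlinarith
    · refine (hf.2.2.2 p hp hpY).congr fun i => ?_
      rw [e, coeff_add, add_sub_cancel_left, coeff_C_mul]
      exact (Int.natCast_dvd_natCast.2 hpY).mul_right _
  · have a1 : A ^ Y.primeFactors.card ≤ C₂ * H ^ ε := (hom Y hY.ne_zero).trans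
      (mul_le_mul_of_nonneg_left (Real.rpow_le_rpow hY0.le hYH hε.le) (by linarith))
    have hH0 : 0 < H := by linarith
    have a2 : H / (2 * Y) ≤ L := by rw [div_le_iff₀ (by positivity)]; linarith
    calc _ ≤ C₀ * H ^ ε * H ^ ε * (C₁ * (C₂ * H ^ ε) * H ^ n / (Y : ℝ) ^ 3) / (H / (2 * Y)) := by
          gcongr
      _ = _ := by field_simp

/-- C3 for a parametrised family of codimension three -/
theorem ps_family (n : ℕ) (hn : 5 ≤ n) (m : ℕ)
    (P : Fin m → Fin n → MvPolynomial (Fin (n - 3)) ℤ) (η : ℝ) (hη : 0 < η) : ∃ δ : ℝ, 0 < δ ∧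
    PS n fun H f => Bad n f ∧ Tiny δ H f ∧ ∃ Y : ℕ, Squarefree Y ∧ H ^ η < Y ∧
      ∀ p : ℕ, p.Prime → p ∣ Y → OnV P p fun i => f.coeff i := by
  obtain ⟨ε, hε, hε1, hεη⟩ : ∃ ε : ℝ, 0 < ε ∧ 16 * ε ≤ 1 ∧ 8 * ε ≤ η := by
    have a1 := min_le_left η 1
    have a2 := min_le_right η 1
    have a3 := lt_min hη one_pos
    exact ⟨min η 1 / 16, by linarith, by linarith, by linarith⟩
  have hpow : ∀ (H : ℝ) (k : ℕ), 1 ≤ H → (H ^ ε) ^ k = H ^ (k * ε) := fun H k hH => by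
    rw [mul_comm, Real.rpow_mul (by linarith), Real.rpow_natCast]
  refine ⟨ε, hε, ?_⟩
  have big : PS n fun H f => ∃ p : ℕ, p.Prime ∧ H < p ∧ OnV P p fun i => f.coeff i := by
    obtain ⟨C₀, H₀, h⟩ := ek_big (n - 3) 3 n m (by omega) P
    refine PS.of_lt ((n + 1 - 3 : ℕ) : ℝ) C₀ H₀ ?_ fun H hH => ?_
    · have : ((n + 1 - 3 : ℕ) : ℝ) + 2 = n := by exact_mod_cast (by omega : n + 1 - 3 + 2 = n)
      linarith
    · rw [Real.rpow_natCast]
      exact (xd_coef (h H hH)).mono (fun f hf =>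
        ⟨hf.1.1, hf.1.2.1, fun i => (xd_abs f i).trans hf.1.2.2.2, hf.2⟩) le_rfl
  have small : PS n fun H f => ∃ Y ∈ Finset.Icc 1 ⌊H⌋₊, Squarefree Y ∧ (H ^ ε) ^ 8 < (Y : ℝ) ∧
      f.supNorm ≤ H ∧ Bad n f ∧ Tiny ε H f ∧
      ∀ p : ℕ, p.Prime → p ∣ Y → OnV P p fun i => f.coeff i := by
    obtain ⟨C₀, h0, h⟩ := xd_one n hn m P ε hε (by linarith)
    obtain ⟨C₁, h1, hs⟩ := sum_inv_le ε hε
    refine ⟨4 * ε, by linarith, C₀ * C₁, 1, fun H hH => ?_⟩
    have hH0 : 0 < H := by linarith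
    have hu : 1 ≤ H ^ ε := Real.one_le_rpow hH hε.le
    refine (Cnt.sum (Finset.Icc 1 ⌊H⌋₊)
      (B := fun Y => C₀ * H ^ n / (H * (H ^ ε) ^ 5) * (1 / (Y : ℝ))) fun Y hY => ?_).mono
      (fun f hf => hf.2) ?_
    · have hY1 : (1 : ℝ) ≤ Y := by exact_mod_cast (Finset.mem_Icc.1 hY).1
      have hYH : (Y : ℝ) ≤ H := (Nat.le_floor_iff hH0.le).1 (Finset.mem_Icc.1 hY).2
      refine Cnt.of_mem (by positivity) fun f₀ hf₀ => ?_
      refine (h H Y hH hf₀.1 hYH).mono (fun f hf => hf.2.2) ?_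
      have a1 := hf₀.2.1.le
      calc _ = C₀ * (H ^ ε) ^ 3 * H ^ n / (H * ((Y : ℝ) * Y)) := by rw [sq (Y : ℝ)]
        _ ≤ C₀ * (H ^ ε) ^ 3 * H ^ n / (H * ((H ^ ε) ^ 8 * Y)) := by gcongr
        _ = _ := by field_simp
    · rw [← Finset.mul_sum]
      have a1 : ∑ Y ∈ Finset.Icc 1 ⌊H⌋₊, (1 : ℝ) / Y ≤ C₁ * H ^ ε := (hs _).trans
        (mul_le_mul_of_nonneg_left
          (Real.rpow_le_rpow (Nat.cast_nonneg _) (Nat.floor_le hH0.le) hε.le) (by linarith))
      have a2 : H ^ ((n : ℝ) - 1 - 4 * ε) = H ^ n / (H * (H ^ ε) ^ 4) := by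
        rw [hpow H 4 hH, Real.rpow_sub hH0, Real.rpow_sub hH0, Real.rpow_natCast, Real.rpow_one,
          div_div, Nat.cast_ofNat]
      rw [a2]
      calc _ ≤ C₀ * H ^ n / (H * (H ^ ε) ^ 5) * (C₁ * H ^ ε) := by gcongr
        _ = _ := by field_simp
  refine (big.or small).mono 1 ?_
  rintro H hH f hb ⟨h1, h2, Y, h3, h4, h5⟩
  by_cases hex : ∃ p : ℕ, p.Prime ∧ p ∣ Y ∧ H < p
  · obtain ⟨p, a1, a2, a3⟩ := hex
    exact Or.inl ⟨p, a1, a3, h5 p a1 a2⟩
  · have hu : 1 ≤ H ^ ε := Real.one_le_rpow hH hε.le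
    obtain ⟨Y', a1, a2, a3, a4⟩ := xd_sub H ((H ^ ε) ^ 8) (one_le_pow₀ hu) (by
        rw [← pow_add, hpow H _ hH]
        exact Real.rpow_le_self_of_one_le hH (by push_cast; linarith)) Y h3
      (lt_of_le_of_lt (by
        rw [hpow H _ hH]
        exact Real.rpow_le_rpow_of_exponent_le hH (by push_cast; linarith)) h4)
      fun p hp hd => not_lt.1 fun h => hex ⟨p, hp, hd, h⟩
    exact Or.inr ⟨Y', Finset.mem_Icc.2 ⟨Nat.one_le_iff_ne_zero.2 a1.ne_zero, Nat.le_floor a4⟩, a1,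
      a3, hb.2.2.2, h1, h2, fun p hp hd => h5 p hp (hd.trans a2)⟩

end Pool.Agent.VW
end

-- part Pool.Agent.P.MP_b0ea37_nt.WCb
section

namespace Pool.Agent.VW

open Polynomial

/-- LOC, part L1 -/
theorem loc_dvd {n p : ℕ} (hn : 5 ≤ n) {f : ℤ[X]} (hf : Bad n f) (hp : p.Prime) (hnp : n < p)
    (hw : ¬ Weak p f) (k : ℕ) : (p : ℤ) ^ (padicValInt p (Dv n f) / 2) ∣ Phi n k f :=
  loc_dvd' hn hf hp hnp hw k

/-- C3: many primes with odd exponent that are not weak -/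
theorem ps_odd (n : ℕ) (hn : 5 ≤ n) (η : ℝ) (hη : 0 < η) : ∃ δ : ℝ, 0 < δ ∧
    PS n fun H f => Bad n f ∧ Tiny δ H f ∧ ∃ Y : ℕ, Squarefree Y ∧ H ^ η < Y ∧
      ∀ p : ℕ, p.Prime → p ∣ Y → n < p ∧ ¬ Weak p f ∧ Odd (padicValInt p (Dv n f)) := by
  obtain ⟨m, P, hP⟩ := exists_family n hn
  obtain ⟨δ, hδ, h⟩ := ps_family n hn m P η hη
  refine ⟨δ, hδ, h.mono 0 ?_⟩
  rintro H - f - ⟨h1, h2, Y, h3, h4, h5⟩
  exact ⟨h1, h2, Y, h3, h4, fun p hp hd =>
    hP f p h1 hp (h5 p hp hd).1 (h5 p hp hd).2.1 (h5 p hp hd).2.2⟩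

end Pool.Agent.VW
end

-- part Pool.Agent.P.MP_b0ea37_nt.WCore
section

namespace Pool.Agent.VW

open Polynomial

theorem WCore_split (N : ℕ) (hN : N ≠ 0) (G : ℕ → Prop) : ∃ q Y y : ℕ, N = q * Y * y ^ 2 ∧
    (∀ p : ℕ, p.Prime → p ∣ q → ¬ G p) ∧ Squarefree Y ∧
    (∀ p : ℕ, p.Prime → p ∣ Y → G p ∧ Odd (N.factorization p)) ∧
    ∀ z : ℤ, (∀ p : ℕ, p.Prime → G p → (p : ℤ) ^ (N.factorization p / 2) ∣ z) → (y : ℤ) ∣ z := by
  classical
  refine ⟨∏ p ∈ N.primeFactors.filter (fun p => ¬ G p), p ^ N.factorization p,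
    ∏ p ∈ (N.primeFactors.filter G).filter (fun p => Odd (N.factorization p)), p,
    ∏ p ∈ N.primeFactors.filter G, p ^ (N.factorization p / 2), ?_, ?_, ?_, ?_, ?_⟩
  · have h1 : ∏ p ∈ N.primeFactors.filter G, p ^ N.factorization p =
        (∏ p ∈ (N.primeFactors.filter G).filter (fun p => Odd (N.factorization p)), p) *
          (∏ p ∈ N.primeFactors.filter G, p ^ (N.factorization p / 2)) ^ 2 := by
      rw [Finset.prod_filter (fun p => Odd (N.factorization p)), ← Finset.prod_pow,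
        ← Finset.prod_mul_distrib]
      refine Finset.prod_congr rfl fun p _ => ?_
      rw [← pow_mul]
      split_ifs with h
      · rw [← pow_succ']
        obtain ⟨k, hk⟩ := h
        congr 1
        omega
      · rw [one_mul]
        obtain ⟨k, hk⟩ := Nat.not_odd_iff_even.mp h
        congr 1
        omega
    rw [mul_assoc, ← h1, mul_comm, Finset.prod_filter_mul_prod_filter_not]
    exact Nat.prod_primeFactors_pow_factorization hN
  · intro p hp hd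
    obtain ⟨r, hr, hpr⟩ := (Prime.dvd_finsetProd_iff hp.prime _).mp hd
    obtain ⟨hr1, hr2⟩ := Finset.mem_filter.mp hr
    have := (Nat.prime_dvd_prime_iff_eq hp (Nat.prime_of_mem_primeFactors hr1)).mp
      (hp.dvd_of_dvd_pow hpr)
    rwa [this]
  · refine Finset.squarefree_prod_of_pairwise_isCoprime ?_ ?_
    · intro a ha b hb hab
      have ha' := Nat.prime_of_mem_primeFactors
        (Finset.mem_filter.mp (Finset.mem_filter.mp (Finset.mem_coe.mp ha)).1).1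
      have hb' := Nat.prime_of_mem_primeFactors
        (Finset.mem_filter.mp (Finset.mem_filter.mp (Finset.mem_coe.mp hb)).1).1
      exact Nat.coprime_iff_isRelPrime.mp ((Nat.coprime_primes ha' hb').mpr hab)
    · intro a ha
      exact (Nat.prime_of_mem_primeFactors
        (Finset.mem_filter.mp (Finset.mem_filter.mp ha).1).1).prime.squarefree
  · intro p hp hd
    obtain ⟨r, hr, hpr⟩ := (Prime.dvd_finsetProd_iff hp.prime _).mp hd
    obtain ⟨hr1, hr2⟩ := Finset.mem_filter.mp hr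
    obtain ⟨hr3, hr4⟩ := Finset.mem_filter.mp hr1
    have := (Nat.prime_dvd_prime_iff_eq hp (Nat.prime_of_mem_primeFactors hr3)).mp hpr
    rw [this]
    exact ⟨hr4, hr2⟩
  · intro z hz
    rw [Nat.cast_prod]
    refine Finset.prod_dvd_of_coprime ?_ ?_
    · intro a ha b hb hab
      have ha' := Nat.prime_of_mem_primeFactors (Finset.mem_filter.mp (Finset.mem_coe.mp ha)).1
      have hb' := Nat.prime_of_mem_primeFactors (Finset.mem_filter.mp (Finset.mem_coe.mp hb)).1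
      exact Nat.isCoprime_iff_coprime.mpr
        (Nat.Coprime.pow _ _ ((Nat.coprime_primes ha' hb').mpr hab))
    · intro a ha
      obtain ⟨h1, h2⟩ := Finset.mem_filter.mp ha
      rw [Nat.cast_pow]
      exact hz a (Nat.prime_of_mem_primeFactors h1) h2

theorem WCore_tiny {δ δ' H : ℝ} (hH : 1 ≤ H) (h : δ ≤ δ') {f : ℤ[X]} (hf : Tiny δ H f) :
    Tiny δ' H f := by
  obtain ⟨m, h1, h2, h3⟩ := hf
  exact ⟨m, h1, h2.trans (Real.rpow_le_rpow_of_exponent_le hH h), h3⟩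

theorem WCore_core {n : ℕ} (hn : 5 ≤ n) {η H : ℝ} (hη : 0 < η) (hH : 1 ≤ H) {f : ℤ[X]}
    (hf : Bad n f) (h1 : H ^ (2 * (n : ℝ) - 2 - η / 2) ≤ |((Dv n f : ℤ) : ℝ)|)
    (h2 : ∀ q : ℕ, (q : ℤ) ∣ Dv n f → (∀ p : ℕ, p.Prime → p ∣ q → p ≤ n ∨ Weak p f) →
      (q : ℝ) ≤ H ^ (η / 2))
    (h3 : ∀ Y : ℕ, Squarefree Y → (∀ p : ℕ, p.Prime → p ∣ Y →
      n < p ∧ ¬ Weak p f ∧ Odd (padicValInt p (Dv n f))) → (Y : ℝ) ≤ H ^ (η / 2)) :
    Core n η H f := by
  have hH0 : 0 < H := by linarith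
  have hD : Dv n f ≠ 0 := Irr.Dv_ne_zero hf.1 hf.2.1 hf.2.2.1
  obtain ⟨q, Y, y, hN, hq, hY, hY', hy⟩ :=
    WCore_split (Dv n f).natAbs (Int.natAbs_ne_zero.mpr hD) fun p => n < p ∧ ¬ Weak p f
  have hv : ∀ p : ℕ, p.Prime → (Dv n f).natAbs.factorization p = padicValInt p (Dv n f) :=
    fun p hp => Nat.factorization_def _ hp
  have hq' : (q : ℝ) ≤ H ^ (η / 2) := by
    refine h2 q ?_ fun p hp hd => ?_
    · rw [Int.natCast_dvd, hN, mul_assoc]
      exact Dvd.intro _ rfl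
    · have := hq p hp hd
      by_contra hc
      push Not at hc
      exact this hc
  have hY2 : (Y : ℝ) ≤ H ^ (η / 2) := by
    refine h3 Y hY fun p hp hd => ?_
    obtain ⟨⟨a, b⟩, c⟩ := hY' p hp hd
    exact ⟨a, b, hv p hp ▸ c⟩
  have hqY : (q : ℝ) * Y ≤ H ^ η := by
    calc (q : ℝ) * Y ≤ H ^ (η / 2) * H ^ (η / 2) :=
          mul_le_mul hq' hY2 (Nat.cast_nonneg _) (by positivity)
      _ = H ^ η := by rw [← Real.rpow_add hH0, add_halves]
  have habs : |((Dv n f : ℤ) : ℝ)| = q * Y * (y : ℝ) ^ 2 := by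
    rw [← Int.cast_abs, Int.abs_eq_natAbs, hN]
    push_cast
    ring
  refine ⟨(Dv n f).sign * (q * Y), y, ?_, ?_, ?_, fun k => hy _ fun p hp hG => ?_⟩
  · have e : ((Dv n f).natAbs : ℤ) = q * Y * (y : ℤ) ^ 2 := by
      rw [hN]
      push_cast
      ring
    rw [mul_assoc, ← e, Int.sign_mul_natAbs]
  · have e : |(((Dv n f).sign : ℤ) : ℝ)| = 1 := by
      rw [← Int.cast_abs, Int.abs_sign_of_ne_zero hD, Int.cast_one]
    push_cast
    rw [abs_mul, e, one_mul, abs_of_nonneg (by positivity)]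
    exact hqY
  · rw [Int.cast_natCast, Nat.abs_cast]
    refine (pow_le_pow_iff_left₀ (by positivity) (Nat.cast_nonneg _) two_ne_zero).mp ?_
    have e : (H ^ ((n : ℝ) - 1 - η)) ^ 2 * H ^ η = H ^ (2 * (n : ℝ) - 2 - η) := by
      rw [sq, ← Real.rpow_add hH0, ← Real.rpow_add hH0]
      congr 1
      ring
    refine le_of_mul_le_mul_right ?_ (Real.rpow_pos_of_pos hH0 η)
    calc (H ^ ((n : ℝ) - 1 - η)) ^ 2 * H ^ η = H ^ (2 * (n : ℝ) - 2 - η) := e
      _ ≤ H ^ (2 * (n : ℝ) - 2 - η / 2) := Real.rpow_le_rpow_of_exponent_le hH (by linarith)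
      _ ≤ q * Y * (y : ℝ) ^ 2 := habs ▸ h1
      _ ≤ H ^ η * (y : ℝ) ^ 2 := mul_le_mul_of_nonneg_right hqY (by positivity)
      _ = (y : ℝ) ^ 2 * H ^ η := mul_comm _ _
  · rw [hv p hp]
    exact loc_dvd hn hf hp hG.1 hG.2 k

theorem ps_not_core (n : ℕ) (hn : 5 ≤ n) (η : ℝ) (hη : 0 < η) : ∃ δ : ℝ, 0 < δ ∧
    PS n fun H f => Bad n f ∧ Tiny δ H f ∧ ¬ Core n η H f := by
  obtain ⟨a, ha, hA⟩ := ps_smallD n hn (η / 2) (by positivity)
  obtain ⟨b, hb, hB⟩ := ps_weakpart n hn (η / 2) (by positivity)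
  obtain ⟨c, hc, hC⟩ := ps_odd n hn (η / 2) (by positivity)
  refine ⟨min a (min b c), by positivity, (hA.or (hB.or hC)).mono 1 ?_⟩
  rintro H hH f - ⟨hf, hT, hcore⟩
  by_contra hcon
  refine hcore (WCore_core hn hη hH hf ?_ ?_ ?_)
  · by_contra h
    exact hcon (Or.inl ⟨hf, WCore_tiny hH (min_le_left _ _) hT, not_le.mp h⟩)
  · intro q h1 h2
    by_contra h
    exact hcon (Or.inr (Or.inl ⟨hf, WCore_tiny hH
      ((min_le_right _ _).trans (min_le_left _ _)) hT, q, h1, not_le.mp h, h2⟩))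
  · intro Y h1 h2
    by_contra h
    exact hcon (Or.inr (Or.inr ⟨hf, WCore_tiny hH
      ((min_le_right _ _).trans (min_le_right _ _)) hT, Y, h1, not_le.mp h, h2⟩))

end Pool.Agent.VW
end

-- part Pool.Agent.P.MP_b0ea37_nt.WMain
section

namespace Pool.Agent.VW

open Polynomial

theorem WMain_muL {n : ℕ} (hn : 5 ≤ n) : (9 / 10 : ℝ) + 9 / 10 ≤ muL n := by
  have h : (5 : ℝ) ≤ n := by exact_mod_cast hn
  unfold muL
  have h1 : (1801 / 1000 : ℝ) ≤ n * (n - 2) / (2 * (n - 1)) := by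
    rw [le_div_iff₀ (by linarith)]
    nlinarith
  linarith

theorem WMain_sqfree (T : Finset ℕ) (hT : ∀ p ∈ T, p.Prime) : Squarefree (∏ p ∈ T, p) := by
  refine Finset.squarefree_prod_of_pairwise_isCoprime ?_ fun p hp => (hT p hp).squarefree
  intro p hp q hq hne
  exact Nat.coprime_iff_isRelPrime.1 ((Nat.coprime_primes (hT p hp) (hT q hq)).2 hne)

/-- the product of all weak primes -/
theorem WMain_weak {n : ℕ} {f : ℤ[X]} (hf : Bad n f) : ∃ T : Finset ℕ,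
    (∀ p ∈ T, p.Prime ∧ Weak p f) ∧ WkIn (∏ p ∈ T, p) f := by
  classical
  obtain ⟨hm, hd, hi, -, -⟩ := hf
  refine ⟨(Dv n f).natAbs.primeFactors.filter fun p => Weak p f, fun p hp => ?_, fun p hp hw => ?_⟩
  · obtain ⟨h1, h2⟩ := Finset.mem_filter.1 hp
    exact ⟨Nat.prime_of_mem_primeFactors h1, h2⟩
  · refine Finset.dvd_prod_of_mem (fun p => p) (Finset.mem_filter.2 ⟨?_, hw⟩)
    exact Nat.mem_primeFactors.2 ⟨hp, Int.natCast_dvd.1 (hw.dvd_Dv hp hm hd),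
      Int.natAbs_ne_zero.2 (hi.Dv_ne_zero hm hd)⟩

theorem ps_bad (n : ℕ) (hn : 5 ≤ n) : PS n fun _ f => Bad n f := by
  classical
  obtain ⟨η, hη, h₁⟩ := ps_core n hn
  obtain ⟨δ, hδ, h₂⟩ := ps_not_core n hn η hη
  have hall := (h₁.or h₂).or (((ps_latA n hn _ hδ).or (ps_latB n hn)).or
    ((ps_mid n hn).or (ps_field n hn)))
  refine hall.mono 1 fun H hH f _ hf => ?_
  obtain ⟨T, hT, hW⟩ := WMain_weak hf
  have hTp : ∀ p ∈ T, p.Prime := fun p hp => (hT p hp).1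
  obtain ⟨r, hr⟩ := Wk.crt T hTp fun p hp => (hT p hp).2
  have hsq := WMain_sqfree T hTp
  have hM1 : 1 ≤ ∏ p ∈ T, p := Nat.one_le_iff_ne_zero.2 hsq.ne_zero
  by_cases c1 : ((∏ p ∈ T, p : ℕ) : ℝ) ≤ H ^ δ
  · have ht : Tiny δ H f := ⟨_, hM1, c1, hW⟩
    by_cases c : Core n η H f
    · exact Or.inl (Or.inl ⟨hf, c⟩)
    · exact Or.inl (Or.inr ⟨hf, ht, c⟩)
  right
  by_cases c2 : ((∏ p ∈ T, p : ℕ) : ℝ) ≤ H ^ (9 / 10 : ℝ)
  · exact Or.inl (Or.inl ⟨hf, _, r, hsq, not_le.1 c1, c2, hW, hr⟩)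
  have hH0 : 0 < H := by linarith
  by_cases c3 : ∃ p ∈ T, H ^ (9 / 10 : ℝ) < p
  · obtain ⟨p, hp, hp1⟩ := c3
    obtain ⟨hpp, s, hs⟩ := hT p hp
    by_cases c4 : (p : ℝ) ≤ H ^ muL n
    · exact Or.inl (Or.inr ⟨hf, p, s, hpp.squarefree, hp1, c4, hs⟩)
    right
    rcases le_total (p : ℝ) (H ^ ((n : ℝ) - 1 - cF n)) with c5 | c5
    · exact Or.inl ⟨hf.2.2.1, hf.2.2.2.1, p, s, hpp, not_le.1 c4, c5, hs⟩
    · exact Or.inr ⟨hf.2.2.1, hf.2.2.2.1, p, s, c5, hs⟩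
  · have h9 : 1 ≤ H ^ (9 / 10 : ℝ) := Real.one_le_rpow hH (by norm_num)
    have e : T.val.prod = ∏ p ∈ T, p := by simp
    obtain ⟨t, ht, h3, h4⟩ := exists_subprod T.val _ _ h9 h9
      (fun p hp => ⟨(hTp p hp).one_le, not_lt.1 fun h => c3 ⟨p, hp, h⟩⟩) (e ▸ not_le.1 c2)
    have hdv : t.prod ∣ ∏ p ∈ T, p := e ▸ Multiset.prod_dvd_prod_of_le ht
    refine Or.inl (Or.inr ⟨hf, t.prod, r, hsq.squarefree_of_dvd hdv, h3, h4.trans ?_,
      hr.of_dvd hdv⟩)
    rw [← Real.rpow_add hH0]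
    exact Real.rpow_le_rpow_of_exponent_le hH (WMain_muL hn)

/-- from dyadic boxes to the full box -/
theorem WMain_full {n : ℕ} (hn : 5 ≤ n) {P : ℤ[X] → Prop} (h : PS n fun _ f => P f) :
    ∃ c : ℝ, 0 < c ∧ ∃ C : ℝ, ∀ H : ℝ, 1 ≤ H →
      Cnt (fun f : ℤ[X] => f.Monic ∧ f.natDegree = n ∧ f.supNorm ≤ H ∧ P f)
        (C * H ^ ((n : ℝ) - 1 - c)) := by
  obtain ⟨c, hc, C, H₀, h⟩ := h
  have h5 : (5 : ℝ) ≤ n := by exact_mod_cast hn
  obtain ⟨e, he⟩ : ∃ e : ℝ, e = (n : ℝ) - 1 - min c 1 := ⟨_, rfl⟩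
  have he1 : 1 ≤ e := by have := min_le_right c 1; linarith
  have hec : (n : ℝ) - 1 - c ≤ e := by have := min_le_left c 1; linarith
  obtain ⟨H₁, hH₁⟩ : ∃ H₁ : ℝ, H₁ = max 1 H₀ := ⟨_, rfl⟩
  have h11 : 1 ≤ H₁ := hH₁ ▸ le_max_left _ _
  have h10 : H₀ ≤ H₁ := hH₁ ▸ le_max_right _ _
  refine ⟨min c 1, lt_min hc one_pos, (2 * H₁ + 1) ^ n + 2 * |C|, fun H hH => ?_⟩
  rw [← he]
  have hH0 : 0 < H := by linarith
  have hHe : 1 ≤ H ^ e := Real.one_le_rpow hH (by linarith)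
  have hk : ∀ k ∈ Finset.range (⌈H⌉₊ + 1), Cnt
      (fun f => H₁ ≤ H / 2 ^ k ∧ Box n (H / 2 ^ k) f ∧ P f) (|C| * H ^ e * (1 / 2) ^ k) := by
    intro k _
    by_cases c1 : H₁ ≤ H / 2 ^ k
    · refine (h _ (h10.trans c1)).mono (fun f hf => hf.2) ?_
      have h2 : (1 : ℝ) ≤ 2 ^ k := one_le_pow₀ one_le_two
      have h3 : (H / 2 ^ k) ^ ((n : ℝ) - 1 - c) ≤ (H / 2 ^ k) ^ e :=
        Real.rpow_le_rpow_of_exponent_le (h11.trans c1) hec
      have h4 : (H / 2 ^ k) ^ e ≤ H ^ e * (1 / 2) ^ k := by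
        rw [Real.div_rpow hH0.le (by positivity), one_div, inv_pow, ← div_eq_mul_inv]
        refine div_le_div_of_nonneg_left (by positivity) (by positivity) ?_
        simpa using Real.rpow_le_rpow_of_exponent_le h2 he1
      calc C * (H / 2 ^ k) ^ ((n : ℝ) - 1 - c) ≤ |C| * (H / 2 ^ k) ^ ((n : ℝ) - 1 - c) :=
            mul_le_mul_of_nonneg_right (le_abs_self C) (by positivity)
        _ ≤ |C| * (H ^ e * (1 / 2) ^ k) :=
            mul_le_mul_of_nonneg_left (h3.trans h4) (abs_nonneg C)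
        _ = _ := by ring
    · exact Cnt.empty (fun f hf => c1 hf.1) (by positivity)
  refine ((cnt_monic n H₁ (by linarith)).or (Cnt.sum _ hk)).mono ?_ ?_
  · rintro f ⟨hm, hd, hs, hP⟩
    by_cases c1 : f.supNorm ≤ H₁
    · exact Or.inl ⟨hm, hd, c1⟩
    have c2 : H₁ < f.supNorm := not_le.1 c1
    have hs0 : 0 < f.supNorm := by linarith
    obtain ⟨k, k1, k2⟩ := exists_dyadic (H / f.supNorm) ((one_le_div hs0).2 hs)
    have h2 : (0 : ℝ) < 2 ^ k := by positivity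
    rw [le_div_iff₀ hs0] at k1
    rw [div_lt_iff₀ hs0] at k2
    have k3 : f.supNorm ≤ H / 2 ^ k := by rw [le_div_iff₀ h2]; linarith
    refine Or.inr ⟨k, ?_, c2.le.trans k3, ⟨hm, hd, ?_, k3⟩, hP⟩
    · have k4 : (k : ℝ) < 2 ^ k := by exact_mod_cast Nat.lt_two_pow_self
      have k5 : (k : ℝ) ≤ ⌈H⌉₊ := by nlinarith [Nat.le_ceil H]
      exact Finset.mem_range.2 (Nat.lt_succ_of_le (by exact_mod_cast k5))
    · rw [div_div, div_lt_iff₀ (by positivity)]
      linarith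
  · rw [← Finset.mul_sum, add_mul]
    have h1 := sum_geometric_two_le (⌈H⌉₊ + 1)
    have h2 : (0 : ℝ) ≤ (2 * H₁ + 1) ^ n := by positivity
    have h3 : 0 ≤ |C| * H ^ e := by positivity
    nlinarith

/-- the integer polynomial with coefficient vector `a` -/
noncomputable def WMain_F {n : ℕ} (a : Fin n → ℤ) : ℤ[X] :=
  X ^ n + ∑ i : Fin n, C (a i) * X ^ (n - 1 - (i : ℕ))

theorem WMain_F_up {n : ℕ} (a : Fin n → ℤ) : up ℚ (WMain_F a) = Pool.Agent.VDW.poly a := by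
  simp [WMain_F, Pool.Agent.VDW.poly, Polynomial.map_sum]

theorem WMain_F_low {n : ℕ} (a : Fin n → ℤ) :
    (∑ i : Fin n, C (a i) * X ^ (n - 1 - (i : ℕ)) : ℤ[X]).degree < n := by
  refine (degree_sum_le _ _).trans_lt ((Finset.sup_lt_iff (WithBot.bot_lt_coe n)).2 fun i _ => ?_)
  refine (degree_C_mul_X_pow_le _ _).trans_lt ?_
  have := i.2
  exact Nat.cast_lt.2 (by omega : n - 1 - (i : ℕ) < n)

theorem WMain_F_coeff {n : ℕ} (a : Fin n → ℤ) (i : Fin n) :
    (WMain_F a).coeff (n - 1 - (i : ℕ)) = a i := by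
  have hi := i.2
  rw [WMain_F, coeff_add, coeff_X_pow, if_neg (by omega), zero_add, finsetSum_coeff,
    Finset.sum_eq_single i]
  · simp
  · intro j _ hj
    have := j.2
    rw [coeff_C_mul, coeff_X_pow, if_neg, mul_zero]
    exact fun h => hj (Fin.ext (by omega))
  · simp

theorem WMain_F_monic {n : ℕ} (a : Fin n → ℤ) :
    (WMain_F a).Monic ∧ (WMain_F a).natDegree = n := by
  refine ⟨monic_X_pow_add (WMain_F_low a), natDegree_eq_of_degree_eq_some ?_⟩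
  rw [WMain_F, degree_add_eq_left_of_degree_lt, degree_X_pow]
  rw [degree_X_pow]
  exact WMain_F_low a

theorem WMain_F_sup {n : ℕ} (a : Fin n → ℤ) {H : ℝ} (hH : 1 ≤ H) (ha : ∀ i, |(a i : ℝ)| ≤ H) :
    (WMain_F a).supNorm ≤ H := by
  obtain ⟨j, hj⟩ := (WMain_F a).exists_eq_supNorm
  obtain ⟨hm, hd⟩ := WMain_F_monic a
  rw [hj]
  rcases lt_trichotomy j n with c | c | c
  · have e := WMain_F_coeff a ⟨n - 1 - j, by omega⟩
    rw [show n - 1 - ((⟨n - 1 - j, by omega⟩ : Fin n) : ℕ) = j by simp only; omega] at e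
    rw [e]
    exact ha _
  · have e : (WMain_F a).coeff j = 1 := by rw [c, ← hm.leadingCoeff, leadingCoeff, hd]
    rw [e, norm_one]
    exact hH
  · rw [coeff_eq_zero_of_natDegree_lt (by omega), norm_zero]
    linarith

theorem main (n : ℕ) (hn : 5 ≤ n) : ∃ c : ℝ, 0 < c ∧ ∃ C : ℝ, ∀ H : ℝ, 1 ≤ H →
    (Pool.Agent.VDW.N n H : ℝ) ≤ C * H ^ ((n : ℝ) - 1 - c) := by
  have h1 : PS n fun _ f => Irr f ∧ ¬ Nonempty ((up ℚ f).Gal ≃* Equiv.Perm (Fin n)) := by
    refine ((ps_bad n hn).or (ps_imprim n hn)).mono 1 fun H _ f hb hf => ?_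
    by_cases c : Prim f
    · exact Or.inl (bad_of_gal hn hb.1 hb.2.1 hf.1 c hf.2)
    · exact Or.inr ⟨hf.1, c⟩
  obtain ⟨c, hc, C, h⟩ := WMain_full hn h1
  refine ⟨c, hc, C, fun H hH => ?_⟩
  refine Cnt.ncard_le ((h H hH).inj WMain_F (fun a ha => ?_) fun a b _ _ e => ?_)
  · refine ⟨(WMain_F_monic a).1, (WMain_F_monic a).2, WMain_F_sup a hH ha.1, ?_⟩
    unfold Irr
    rw [WMain_F_up]
    exact ha.2
  · funext i
    rw [← WMain_F_coeff a i, e, WMain_F_coeff]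

end Pool.Agent.VW
end
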