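import Mathlib

-- part Pool.Agent.P.MP_b0ea37_nt.Base
section

namespace Pool.Agent.VDW

open Polynomial Finset
open scoped BigOperators

/-- the number of elements, as a real number -/
abbrev Q (F : Type) [Fintype F] : ℝ := (Fintype.card F : ℝ)

/-- indicator of a proposition -/
noncomputable def ind (P : Prop) : ℝ := by classical exact if P then 1 else 0

section Ind

lemma ind_pos {P : Prop} (h : P) : ind P = 1 := by simp [ind, h]
lemma ind_neg {P : Prop} (h : ¬ P) : ind P = 0 := by simp [ind, h]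
lemma ind_nonneg (P : Prop) : 0 ≤ ind P := by unfold ind; split_ifs <;> norm_num
lemma ind_le_one (P : Prop) : ind P ≤ 1 := by unfold ind; split_ifs <;> norm_num
lemma abs_ind_le_one (P : Prop) : |ind P| ≤ 1 := by
  rw [abs_of_nonneg (ind_nonneg P)]; exact ind_le_one P
lemma ind_mono {P R : Prop} (h : P → R) : ind P ≤ ind R := by
  by_cases hP : P
  · rw [ind_pos hP, ind_pos (h hP)]
  · rw [ind_neg hP]; exact ind_nonneg R
lemma ind_congr {P R : Prop} (h : P ↔ R) : ind P = ind R := by rw [propext h]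
lemma ind_and (P R : Prop) : ind (P ∧ R) = ind P * ind R := by
  by_cases hP : P <;> by_cases hR : R <;> simp [ind, hP, hR]
lemma ind_mul_self (P : Prop) : ind P * ind P = ind P := by
  by_cases hP : P <;> simp [ind, hP]
lemma ind_eq_ite (P : Prop) [Decidable P] : ind P = if P then 1 else 0 := by
  by_cases hP : P <;> simp [ind, hP]
lemma of_ind_ne_zero {P : Prop} (h : ind P ≠ 0) : P := by
  by_contra hP; exact h (ind_neg hP)
lemma sum_ind {ι : Type*} (s : Finset ι) (P : ι → Prop) [DecidablePred P] :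
    ∑ i ∈ s, ind (P i) = ((s.filter P).card : ℝ) := by
  simp only [ind_eq_ite]; rw [Finset.sum_boole]
lemma expect_ind {ι : Type*} (s : Finset ι) (P : ι → Prop) [DecidablePred P] :
    𝔼 i ∈ s, ind (P i) = ((s.filter P).card : ℝ) / s.card := by
  rw [expect_eq_sum_div_card, sum_ind]

end Ind

section Avg

variable {ι κ : Type*}

lemma expect_le' {s : Finset ι} {f : ι → ℝ} {a : ℝ} (ha : 0 ≤ a) (h : ∀ x ∈ s, f x ≤ a) :
    𝔼 i ∈ s, f i ≤ a := by
  rcases s.eq_empty_or_nonempty with rfl | hs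
  · simpa using ha
  · exact expect_le hs h

lemma expect_ind_nonneg (s : Finset ι) (P : ι → Prop) : 0 ≤ 𝔼 i ∈ s, ind (P i) :=
  expect_nonneg fun _ _ => ind_nonneg _

lemma expect_ind_le_one (s : Finset ι) (P : ι → Prop) : 𝔼 i ∈ s, ind (P i) ≤ 1 :=
  expect_le' zero_le_one fun _ _ => ind_le_one _

lemma abs_expect_le' {s : Finset ι} {f : ι → ℝ} {a : ℝ} (ha : 0 ≤ a) (h : ∀ x ∈ s, |f x| ≤ a) :
    |𝔼 i ∈ s, f i| ≤ a := (abs_expect_le s f).trans (expect_le' ha h)

lemma ofReal_expect (s : Finset ι) (f : ι → ℝ) :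
    ((𝔼 i ∈ s, f i : ℝ) : ℂ) = 𝔼 i ∈ s, (f i : ℂ) := by
  simp [expect_eq_sum_div_card]

lemma re_expect (s : Finset ι) (f : ι → ℂ) : (𝔼 i ∈ s, f i).re = 𝔼 i ∈ s, (f i).re := by
  simp only [expect_eq_sum_div_card]
  rw [← Complex.ofReal_natCast, Complex.div_ofReal_re, Complex.re_sum]

lemma im_expect (s : Finset ι) (f : ι → ℂ) : (𝔼 i ∈ s, f i).im = 𝔼 i ∈ s, (f i).im := by
  simp only [expect_eq_sum_div_card]
  rw [← Complex.ofReal_natCast, Complex.div_ofReal_im, Complex.im_sum]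

lemma conj_expect (s : Finset ι) (f : ι → ℂ) :
    (starRingEnd ℂ) (𝔼 i ∈ s, f i) = 𝔼 i ∈ s, (starRingEnd ℂ) (f i) := by
  simp [expect_eq_sum_div_card]

lemma norm_expect_le (s : Finset ι) (f : ι → ℂ) : ‖𝔼 i ∈ s, f i‖ ≤ 𝔼 i ∈ s, ‖f i‖ := by
  simp only [expect_eq_sum_div_card, norm_div, Complex.norm_natCast]
  gcongr
  exact norm_sum_le _ _

lemma norm_expect_le' {s : Finset ι} {f : ι → ℂ} {a : ℝ} (ha : 0 ≤ a) (h : ∀ x ∈ s, ‖f x‖ ≤ a) :
    ‖𝔼 i ∈ s, f i‖ ≤ a := (norm_expect_le s f).trans (expect_le' ha h)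

/-- the square of an average is at most the average of the squares -/
lemma sq_expect_le (s : Finset ι) (f : ι → ℝ) : (𝔼 i ∈ s, f i) ^ 2 ≤ 𝔼 i ∈ s, f i ^ 2 := by
  have h := expect_mul_sq_le_sq_mul_sq s f (fun _ => (1 : ℝ))
  simp only [mul_one, one_pow] at h
  refine h.trans ?_
  have h1 : 𝔼 _i ∈ s, (1 : ℝ) ≤ 1 := expect_le' zero_le_one fun _ _ => le_rfl
  have h0 : 0 ≤ 𝔼 i ∈ s, f i ^ 2 := expect_nonneg fun _ _ => sq_nonneg _
  nlinarith

/-- Cauchy-Schwarz with a bounded weight -/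
lemma cs_bdd (s : Finset ι) (f g : ι → ℂ) (K : ℝ) (hf : ∀ i ∈ s, ‖f i‖ ≤ K) :
    ‖𝔼 i ∈ s, f i * g i‖ ^ 2 ≤ K ^ 2 * 𝔼 i ∈ s, ‖g i‖ ^ 2 := by
  have h1 : ‖𝔼 i ∈ s, f i * g i‖ ≤ |K| * 𝔼 i ∈ s, ‖g i‖ := by
    refine (norm_expect_le _ _).trans ?_
    rw [mul_expect]
    refine expect_le_expect fun i hi => ?_
    rw [norm_mul]
    exact mul_le_mul_of_nonneg_right ((hf i hi).trans (le_abs_self K)) (norm_nonneg _)
  calc _ ≤ (|K| * 𝔼 i ∈ s, ‖g i‖) ^ 2 := by gcongr
    _ = K ^ 2 * (𝔼 i ∈ s, ‖g i‖) ^ 2 := by rw [mul_pow, sq_abs]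
    _ ≤ _ := by gcongr; exact sq_expect_le _ _

/-- opening a square -/
lemma norm_sq_expect (s : Finset ι) (g : ι → ℂ) :
    ((‖𝔼 i ∈ s, g i‖ ^ 2 : ℝ) : ℂ) = 𝔼 i ∈ s, 𝔼 j ∈ s, g i * (starRingEnd ℂ) (g j) := by
  rw [← Complex.normSq_eq_norm_sq, ← Complex.mul_conj, conj_expect, expect_mul_expect]

lemma sq_expect (s : Finset ι) (g : ι → ℝ) :
    (𝔼 i ∈ s, g i) ^ 2 = 𝔼 i ∈ s, 𝔼 j ∈ s, g i * g j := by
  rw [sq, expect_mul_expect]

/-- popularity principle -/
lemma popular (s : Finset ι) (f : ι → ℝ) (δ : ℝ) (h1 : ∀ i ∈ s, f i ≤ 1) (hδ : 0 ≤ δ)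
    (h : δ ≤ 𝔼 i ∈ s, f i) : δ / 2 ≤ 𝔼 i ∈ s, ind (δ / 2 ≤ f i) := by
  have h2 : 𝔼 i ∈ s, f i ≤ 𝔼 i ∈ s, (δ / 2 + ind (δ / 2 ≤ f i)) := by
    refine expect_le_expect fun i hi => ?_
    by_cases hc : δ / 2 ≤ f i
    · rw [ind_pos hc]; linarith [h1 i hi]
    · rw [ind_neg hc]; push Not at hc; linarith
  rw [expect_add_distrib] at h2
  have h3 : 𝔼 _i ∈ s, δ / 2 ≤ δ / 2 := expect_le' (by linarith) fun _ _ => le_rfl
  linarith

/-- union bound -/
lemma ind_exists_le (S : Finset κ) (P : κ → Prop) : ind (∃ c ∈ S, P c) ≤ ∑ c ∈ S, ind (P c) := by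
  by_cases h : ∃ c ∈ S, P c
  · obtain ⟨c, hc, hP⟩ := h
    refine (ind_le_one _).trans ?_
    rw [← ind_pos hP]
    exact single_le_sum (f := fun c => ind (P c)) (fun _ _ => ind_nonneg _) hc
  · rw [ind_neg h]; exact sum_nonneg fun _ _ => ind_nonneg _

/-- pigeonhole principle -/
lemma pigeon (s : Finset ι) (S : Finset κ) (P : κ → ι → Prop) (δ N : ℝ) (hδ : 0 < δ)
    (hN : (S.card : ℝ) ≤ N) (h : δ ≤ 𝔼 i ∈ s, ind (∃ c ∈ S, P c i)) :
    ∃ c ∈ S, δ / N ≤ 𝔼 i ∈ s, ind (P c i) := by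
  have h2 : δ ≤ ∑ c ∈ S, 𝔼 i ∈ s, ind (P c i) := by
    rw [← expect_sum_comm]
    exact h.trans (expect_le_expect fun i _ => ind_exists_le S fun c => P c i)
  have hS : S.Nonempty := by
    rcases S.eq_empty_or_nonempty with rfl | hS
    · simp at h2; linarith
    · exact hS
  have hc : (0 : ℝ) < S.card := by exact_mod_cast hS.card_pos
  have h3 : ∑ _c ∈ S, δ / N ≤ ∑ c ∈ S, 𝔼 i ∈ s, ind (P c i) := by
    refine le_trans ?_ h2
    rw [sum_const, nsmul_eq_mul, mul_div_assoc', div_le_iff₀ (by linarith)]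
    nlinarith
  exact exists_le_of_sum_le hS h3

end Avg

section Defs

variable (F : Type) [Field F] [Fintype F] [DecidableEq F]

/-- polynomials of degree less than `k` -/
noncomputable def V (k : ℕ) : Finset F[X] := Finset.univ.map ⟨ofFn k, injective_ofFn k⟩

/-- monic polynomials of degree `k` -/
noncomputable def M (k : ℕ) : Finset F[X] := (V F k).map (addLeftEmbedding (X ^ k))

variable {F}

/-- the functional `g ↦ L (b g)` vanishes in degree less than `k` -/
def Kills (L : F[X] →ₗ[F] F) (b : F[X]) (k : ℕ) : Prop := ∀ g ∈ V F k, L (b * g) = 0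

/-- Moebius function -/
noncomputable def mu (b : F[X]) : ℝ := ((UniqueFactorizationMonoid.moebius b : ℤ) : ℝ)

/-- on monic polynomials of degree `j`, the function `g` depends only on the class modulo `B`
and on the top `k` coefficients -/
def Per (B : F[X]) (k j : ℕ) (g : F[X] → ℝ) : Prop :=
  ∀ b ∈ M F j, ∀ c ∈ V F (j - k), B ∣ c → g (b + c) = g b

/-- normalised indicator of the irreducible polynomials of degree `l` -/
noncomputable def alpha (l : ℕ) (a : F[X]) : ℝ :=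
  ind (Irreducible a) / 𝔼 a' ∈ M F l, ind (Irreducible a')

noncomputable def beta (n : ℕ) (b : F[X]) : ℝ := 1 + (-1) ^ n * mu b

/-- the test function -/
noncomputable def phi (l m : ℕ) (f : F[X]) : ℝ :=
  1 - ∑ a ∈ M F l, ∑ b ∈ M F m, ind (a * b = f) * (alpha l a * beta (l + m) b)

/-- eighth power of the third Gowers norm, on monic polynomials of degree `n` -/
noncomputable def PU3 (n : ℕ) (φ : F[X] → ℝ) : ℝ :=
  𝔼 h ∈ V F n, 𝔼 h' ∈ V F n,
    (𝔼 f ∈ M F n, φ f * φ (f + h) * (φ (f + h') * φ (f + h' + h))) ^ 2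

/-- Fourier coefficient of a multiplicative derivative -/
noncomputable def T (ψ : AddChar F ℂ) (n : ℕ) (φ : F[X] → ℝ) (h : F[X]) (L : F[X] →ₗ[F] F) : ℂ :=
  𝔼 f ∈ M F n, ((φ f * φ (f + h) : ℝ) : ℂ) * ψ (L f)

/-- `φ = 1 - α * β` in the weak sense -/
def Conv (l m : ℕ) (α β φ : F[X] → ℝ) : Prop :=
  ∀ G : F[X] → ℂ, 𝔼 f ∈ M F (l + m), (φ f : ℂ) * G f =
    𝔼 f ∈ M F (l + m), G f - 𝔼 a ∈ M F l, 𝔼 b ∈ M F m, ((α a * β b : ℝ) : ℂ) * G (a * b)

end Defs

/-- eighth power of the third Gowers norm on a finite abelian group -/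
noncomputable def U3 {G : Type} [AddCommGroup G] [Fintype G] (Φ : G → ℝ) : ℝ :=
  𝔼 h, 𝔼 h', (𝔼 v, Φ v * Φ (v + h) * (Φ (v + h') * Φ (v + h' + h))) ^ 2

/-- the monic polynomial `X^n + ∑ v_i X^i` -/
noncomputable def mon {R : Type} [CommRing R] {n : ℕ} (v : Fin n → R) : R[X] :=
  X ^ n + ∑ i : Fin n, C (v i) * X ^ (i : ℕ)

/-- the integer vector read in the ring `R` -/
def red (R : Type) [CommRing R] {n : ℕ} (a : Fin n → ℤ) : Fin n → R := fun i => (a i : R)

/-- Gaussian weight -/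
noncomputable def gw {n : ℕ} (H : ℝ) (v : Fin n → ℤ) : ℝ := ∏ i, Real.exp (-((v i : ℝ) / H) ^ 2)

/-- majorant of the shifted Gaussian weight -/
noncomputable def gW {n : ℕ} (H : ℝ) (v : Fin n → ℤ) : ℝ :=
  ∏ i, Real.exp (-((v i : ℝ) / H) ^ 2 + 6 * |(v i : ℝ)| / H)

instance factPrimes (p : Nat.Primes) : Fact (p : ℕ).Prime := ⟨p.2⟩

section API

variable {F : Type} [Field F] [Fintype F] [DecidableEq F]

lemma two_le_Q : (2 : ℝ) ≤ Q F := by
  have : 1 < Fintype.card F := Fintype.one_lt_card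
  exact_mod_cast this

lemma one_le_Q : (1 : ℝ) ≤ Q F := by linarith [two_le_Q (F := F)]
lemma Q_pos : (0 : ℝ) < Q F := by linarith [two_le_Q (F := F)]

lemma mem_V {k : ℕ} {g : F[X]} : g ∈ V F k ↔ g.degree < k := by
  constructor
  · intro h
    obtain ⟨v, -, rfl⟩ := Finset.mem_map.1 h
    exact ofFn_degree_lt v
  · intro h
    refine Finset.mem_map.2 ⟨toFn k g, mem_univ _, ?_⟩
    ext i
    by_cases hi : i < k
    · simp [hi, toFn]
    · have : g.coeff i = 0 := coeff_eq_zero_of_degree_lt (h.trans_le (by exact_mod_cast not_lt.1 hi))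
      simp [not_lt.1 hi, this]

lemma mem_V_iff {k : ℕ} {g : F[X]} : g ∈ V F k ↔ g = 0 ∨ g.natDegree < k := by
  rw [mem_V]
  by_cases h : g = 0
  · simp [h]
  · simp [h, natDegree_lt_iff_degree_lt h]

lemma mem_M' {k : ℕ} {g : F[X]} : g ∈ M F k ↔ g - X ^ k ∈ V F k := by
  simp only [M, Finset.mem_map, addLeftEmbedding_apply]
  constructor
  · rintro ⟨v, hv, rfl⟩; simpa using hv
  · intro h; exact ⟨_, h, by ring⟩

lemma mem_M {k : ℕ} {g : F[X]} : g ∈ M F k ↔ g.Monic ∧ g.natDegree = k := by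
  rw [mem_M', mem_V]
  constructor
  · intro h
    have e : g = X ^ k + (g - X ^ k) := by ring
    have hd : (g - X ^ k).degree < (X ^ k : F[X]).degree := by rwa [degree_X_pow]
    refine ⟨e ▸ (monic_X_pow k).add_of_left hd, ?_⟩
    rw [e]
    apply natDegree_eq_of_degree_eq_some
    rw [degree_add_eq_left_of_degree_lt hd, degree_X_pow]
  · rintro ⟨hm, rfl⟩
    have := degree_sub_lt (p := g) (q := X ^ g.natDegree)
      (by rw [degree_X_pow, degree_eq_natDegree hm.ne_zero]) hm.ne_zero (by simp [hm.leadingCoeff])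
    rwa [degree_eq_natDegree hm.ne_zero] at this

lemma card_V (k : ℕ) : (V F k).card = Fintype.card F ^ k := by simp [V]
lemma card_M (k : ℕ) : (M F k).card = Fintype.card F ^ k := by simp [M, card_V]
lemma card_V_real (k : ℕ) : ((V F k).card : ℝ) = Q F ^ k := by simp [card_V]
lemma card_M_real (k : ℕ) : ((M F k).card : ℝ) = Q F ^ k := by simp [card_M]

lemma zero_mem_V (k : ℕ) : (0 : F[X]) ∈ V F k := mem_V_iff.2 (Or.inl rfl)
lemma X_pow_mem_M (k : ℕ) : (X ^ k : F[X]) ∈ M F k := mem_M'.2 (by simpa using zero_mem_V k)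
lemma V_nonempty (k : ℕ) : (V F k).Nonempty := ⟨0, zero_mem_V k⟩
lemma M_nonempty (k : ℕ) : (M F k).Nonempty := ⟨_, X_pow_mem_M k⟩
lemma M_zero : M F 0 = {1} := by
  ext g; rw [mem_M, mem_singleton]
  constructor
  · rintro ⟨h1, h2⟩; exact h1.natDegree_eq_zero.1 h2
  · rintro rfl; simp

lemma V_mono {k k' : ℕ} (h : k ≤ k') {g : F[X]} (hg : g ∈ V F k) : g ∈ V F k' :=
  mem_V.2 ((mem_V.1 hg).trans_le (by exact_mod_cast h))
lemma X_pow_mem_V {i k : ℕ} (h : i < k) : (X ^ i : F[X]) ∈ V F k :=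
  mem_V_iff.2 (Or.inr (by simpa using h))
lemma M_mem_V {k k' : ℕ} (h : k < k') {g : F[X]} (hg : g ∈ M F k) : g ∈ V F k' :=
  mem_V_iff.2 (Or.inr (by rw [(mem_M.1 hg).2]; exact h))
lemma V_add {k : ℕ} {g h : F[X]} (hg : g ∈ V F k) (hh : h ∈ V F k) : g + h ∈ V F k :=
  mem_V.2 ((degree_add_le g h).trans_lt (max_lt (mem_V.1 hg) (mem_V.1 hh)))
lemma V_neg {k : ℕ} {g : F[X]} (hg : g ∈ V F k) : -g ∈ V F k :=
  mem_V.2 (by rw [degree_neg]; exact mem_V.1 hg)
lemma V_sub {k : ℕ} {g h : F[X]} (hg : g ∈ V F k) (hh : h ∈ V F k) : g - h ∈ V F k := by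
  rw [sub_eq_add_neg]; exact V_add hg (V_neg hh)
lemma V_smul {k : ℕ} (c : F) {g : F[X]} (hg : g ∈ V F k) : c • g ∈ V F k :=
  mem_V.2 ((degree_smul_le c g).trans_lt (mem_V.1 hg))
lemma M_add_V {k : ℕ} {g h : F[X]} (hg : g ∈ M F k) (hh : h ∈ V F k) : g + h ∈ M F k := by
  rw [mem_M'] at hg ⊢
  have := V_add hg hh
  rwa [show g - X ^ k + h = g + h - X ^ k by ring] at this
lemma M_sub_V {k : ℕ} {g h : F[X]} (hg : g ∈ M F k) (hh : h ∈ V F k) : g - h ∈ M F k := by
  rw [sub_eq_add_neg]; exact M_add_V hg (V_neg hh)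
lemma M_sub_M {k : ℕ} {g h : F[X]} (hg : g ∈ M F k) (hh : h ∈ M F k) : g - h ∈ V F k := by
  rw [mem_M'] at hg hh
  have := V_sub hg hh
  rwa [show g - X ^ k - (h - X ^ k) = g - h by ring] at this
lemma M_mul_M {k j : ℕ} {g h : F[X]} (hg : g ∈ M F k) (hh : h ∈ M F j) : g * h ∈ M F (k + j) := by
  rw [mem_M] at hg hh ⊢
  exact ⟨hg.1.mul hh.1, by rw [hg.1.natDegree_mul hh.1, hg.2, hh.2]⟩
/-- a polynomial of degree at most `k` times one of degree less than `j` -/
lemma mul_mem_V {k j : ℕ} {g h : F[X]} (hg : g.natDegree ≤ k) (hh : h ∈ V F j) :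
    g * h ∈ V F (k + j) := by
  rw [mem_V_iff] at hh ⊢
  rcases hh with rfl | hh
  · simp
  · right; exact natDegree_mul_le.trans_lt (by omega)
lemma natDegree_le_of_mem_V {k : ℕ} {g : F[X]} (hg : g ∈ V F (k + 1)) : g.natDegree ≤ k := by
  rcases mem_V_iff.1 hg with rfl | h
  · simp
  · omega
lemma mem_V_of_natDegree_le {k : ℕ} {g : F[X]} (hg : g.natDegree ≤ k) : g ∈ V F (k + 1) :=
  mem_V_iff.2 (Or.inr (by omega))
lemma M_mul_V {k j : ℕ} {g h : F[X]} (hg : g ∈ M F k) (hh : h ∈ V F j) : g * h ∈ V F (k + j) :=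
  mul_mem_V (mem_M.1 hg).2.le hh
lemma V_mul_M {k j : ℕ} {g h : F[X]} (hg : g ∈ V F k) (hh : h ∈ M F j) : g * h ∈ V F (k + j) := by
  rw [mul_comm, add_comm]; exact M_mul_V hh hg
lemma V_mul_V {k j : ℕ} {g h : F[X]} (hg : g ∈ V F k) (hh : h ∈ V F j) : g * h ∈ V F (k + j) := by
  rcases mem_V_iff.1 hg with rfl | h1
  · simpa using zero_mem_V _
  · exact mul_mem_V h1.le hh

lemma Kills.mono {L : F[X] →ₗ[F] F} {b : F[X]} {k k' : ℕ} (h : Kills L b k) (hk : k' ≤ k) :
    Kills L b k' := fun g hg => h g (V_mono hk hg)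
lemma Kills.mul {L : F[X] →ₗ[F] F} {b c : F[X]} {k k' j : ℕ} (h : Kills L b k)
    (hc : c.natDegree ≤ j) (hk : j + k' ≤ k) : Kills L (b * c) k' := fun g hg => by
  rw [mul_assoc]; exact h _ (V_mono hk (mul_mem_V hc hg))
lemma kills_comp {L : F[X] →ₗ[F] F} {u w : F[X]} {k : ℕ} :
    Kills (L ∘ₗ LinearMap.mulLeft F u) w k ↔ Kills L (u * w) k := by
  simp [Kills, mul_assoc]

variable {E : Type*} [AddCommMonoid E] [Module ℚ≥0 E]

lemma expect_V_fn (k : ℕ) (f : F[X] → E) :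
    𝔼 g ∈ V F k, f g = 𝔼 v : Fin k → F, f (ofFn k v) := by
  simp [V, expect]

lemma expect_V_add {k : ℕ} {h : F[X]} (hh : h ∈ V F k) (f : F[X] → E) :
    𝔼 g ∈ V F k, f (g + h) = 𝔼 g ∈ V F k, f g :=
  expect_nbij' (fun g => g + h) (fun g => g - h) (fun _ hg => V_add hg hh)
    (fun _ hg => V_sub hg hh) (by simp) (by simp) (fun _ _ => rfl)

lemma expect_V_sub {k : ℕ} {h : F[X]} (hh : h ∈ V F k) (f : F[X] → E) :
    𝔼 g ∈ V F k, f (g - h) = 𝔼 g ∈ V F k, f g := by
  simp only [sub_eq_add_neg]; exact expect_V_add (V_neg hh) f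

lemma expect_V_sub' {k : ℕ} {h : F[X]} (hh : h ∈ V F k) (f : F[X] → E) :
    𝔼 g ∈ V F k, f (h - g) = 𝔼 g ∈ V F k, f g :=
  expect_nbij' (fun g => h - g) (fun g => h - g) (fun _ hg => V_sub hh hg)
    (fun _ hg => V_sub hh hg) (by simp) (by simp) (fun _ _ => rfl)

lemma expect_M_add {k : ℕ} {h : F[X]} (hh : h ∈ V F k) (f : F[X] → E) :
    𝔼 g ∈ M F k, f (g + h) = 𝔼 g ∈ M F k, f g :=
  expect_nbij' (fun g => g + h) (fun g => g - h) (fun _ hg => M_add_V hg hh)
    (fun _ hg => M_sub_V hg hh) (by simp) (by simp) (fun _ _ => rfl)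

lemma expect_M_sub {k : ℕ} {h : F[X]} (hh : h ∈ V F k) (f : F[X] → E) :
    𝔼 g ∈ M F k, f (g - h) = 𝔼 g ∈ M F k, f g := by
  simp only [sub_eq_add_neg]; exact expect_M_add (V_neg hh) f

/-- monic polynomials are a translate of `V` by any base point -/
lemma expect_M_base {k : ℕ} {b : F[X]} (hb : b ∈ M F k) (f : F[X] → E) :
    𝔼 g ∈ M F k, f g = 𝔼 v ∈ V F k, f (b + v) :=
  (expect_nbij' (fun v => b + v) (fun g => g - b) (fun _ hv => M_add_V hb hv)
    (fun _ hg => M_sub_M hg hb) (by simp) (by simp) (fun _ _ => rfl)).symm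

lemma expect_M_base' {k : ℕ} {b : F[X]} (hb : b ∈ M F k) (f : F[X] → E) :
    𝔼 g ∈ M F k, f g = 𝔼 v ∈ V F k, f (b - v) :=
  (expect_nbij' (fun v => b - v) (fun g => b - g) (fun _ hv => M_sub_V hb hv)
    (fun _ hg => M_sub_M hb hg) (by simp) (by simp) (fun _ _ => rfl)).symm

/-- pairs of monic polynomials: a base point and a difference -/
lemma expect_M_pair (k : ℕ) (f : F[X] → F[X] → E) :
    𝔼 a ∈ M F k, 𝔼 a' ∈ M F k, f a a' = 𝔼 a ∈ M F k, 𝔼 x ∈ V F k, f a (a + x) :=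
  expect_congr rfl fun _ ha => expect_M_base ha _

lemma mon_eq {n : ℕ} (v : Fin n → F) : mon v = X ^ n + ofFn n v := by
  rw [mon, ofFn_eq_sum_monomial]
  simp only [C_mul_X_pow_eq_monomial]

lemma U3_eq_PU3 (n : ℕ) (φ : F[X] → ℝ) : U3 (fun v : Fin n → F => φ (mon v)) = PU3 n φ := by
  unfold U3 PU3
  rw [expect_V_fn]
  refine expect_congr rfl fun h _ => ?_
  rw [expect_V_fn]
  refine expect_congr rfl fun h' _ => ?_
  rw [expect_M_base (X_pow_mem_M n), expect_V_fn]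
  simp only [mon_eq, map_add, add_assoc]

lemma norm_psi (ψ : AddChar F ℂ) (x : F) : ‖ψ x‖ = 1 := ψ.norm_apply x

lemma conj_psi (ψ : AddChar F ℂ) (x : F) : (starRingEnd ℂ) (ψ x) = ψ (-x) := by
  rw [AddChar.map_neg_eq_conj]

/-- orthogonality -/
lemma orth_V {ψ : AddChar F ℂ} (hψ : ψ ≠ 1) {L : F[X] →ₗ[F] F} {k : ℕ}
    (h : ¬ ∀ g ∈ V F k, L g = 0) : 𝔼 g ∈ V F k, ψ (L g) = 0 := by
  push Not at h
  obtain ⟨g0, hg0, hL⟩ := h
  obtain ⟨x, hx⟩ := AddChar.ne_one_iff.1 hψ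
  have h1 := expect_V_add (V_smul (x / L g0) hg0) (fun g => ψ (L g))
  simp only [map_add, map_smul, smul_eq_mul, div_mul_cancel₀ x hL, AddChar.map_add_eq_mul] at h1
  rw [← expect_mul] at h1
  by_contra hne
  exact hx (mul_left_cancel₀ hne (h1.trans (mul_one _).symm))

lemma orth_M {ψ : AddChar F ℂ} (hψ : ψ ≠ 1) {L : F[X] →ₗ[F] F} {k : ℕ}
    (h : ¬ ∀ g ∈ V F k, L g = 0) : 𝔼 g ∈ M F k, ψ (L g) = 0 := by
  rw [expect_M_base (X_pow_mem_M k)]
  simp only [map_add, AddChar.map_add_eq_mul]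
  rw [← mul_expect, orth_V hψ h, mul_zero]

lemma norm_orth_M {ψ : AddChar F ℂ} (hψ : ψ ≠ 1) (L : F[X] →ₗ[F] F) (k : ℕ) :
    ‖𝔼 g ∈ M F k, ψ (L g)‖ ≤ ind (∀ g ∈ V F k, L g = 0) := by
  by_cases h : ∀ g ∈ V F k, L g = 0
  · rw [ind_pos h]; exact norm_expect_le' zero_le_one fun g _ => (norm_psi ψ _).le
  · rw [ind_neg h, orth_M hψ h, norm_zero]

lemma Per.mul {B a : F[X]} {k i j : ℕ} {g : F[X] → ℝ} (h : Per B k (i + j) g) (ha : a ∈ M F i) :
    Per B k j (fun b => g (a * b)) := by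
  intro b hb c hc hB
  simp only [mul_add]
  refine h _ (M_mul_M ha hb) _ ?_ (hB.mul_left a)
  rcases mem_V_iff.1 hc with rfl | h1
  · simpa using zero_mem_V _
  · exact V_mono (by omega) (M_mul_V ha hc)

lemma abs_mu_le_one (b : F[X]) : |mu b| ≤ 1 := by
  unfold mu UniqueFactorizationMonoid.moebius
  split_ifs <;> simp

end API

end Pool.Agent.VDW
end

-- part Pool.Agent.P.MP_b0ea37_nt.Mu
section

namespace Pool.Agent.VDW

open Polynomial Finset
open scoped BigOperators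

variable {F : Type} [Field F] [Fintype F] [DecidableEq F]

theorem equi {B c : F[X]} (hB : B ≠ 0) (hc : c ≠ 0) (hcop : IsCoprime c B) {i k : ℕ}
    (hi : B.natDegree + k ≤ i) (g : F[X] → ℝ)
    (hg : ∀ w ∈ V F (c.natDegree + i), ∀ y ∈ V F (c.natDegree + i - k), B ∣ y → g (w + y) = g w) :
    𝔼 w ∈ V F (c.natDegree + i), g w = 𝔼 u ∈ V F i, g (c * u) := by
  have key : ∀ w ∈ V F (c.natDegree + i), ∃ u ∈ V F i, ∃ y ∈ V F (c.natDegree + i - k),
      B ∣ y ∧ w = c * u + y := fun w hw => by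
    obtain ⟨a, b, hab⟩ := hcop
    have h1 : w * b % c ∈ V F c.natDegree :=
      mem_V.2 (by rw [← degree_eq_natDegree hc]; exact degree_mod_lt _ hc)
    have h2 : B * (w * b % c) ∈ V F (c.natDegree + i - k) :=
      V_mono (by omega) (mul_mem_V le_rfl h1)
    have e : w = c * (a * w + B * (w * b / c)) + B * (w * b % c) := by
      linear_combination (-B) * EuclideanDomain.div_add_mod (w * b) c - w * hab
    refine ⟨_, ?_, _, h2, dvd_mul_right _ _, e⟩
    have h3 := V_sub hw (V_mono (Nat.sub_le _ _) h2)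
    rw [sub_eq_of_eq_add e] at h3
    generalize a * w + B * (w * b / c) = u at h3
    by_cases hu : u = 0
    · exact mem_V_iff.2 (Or.inl hu)
    · have := (mem_V_iff.1 h3).resolve_left (mul_ne_zero hc hu)
      rw [natDegree_mul hc hu] at this
      exact mem_V_iff.2 (Or.inr (by omega))
  calc _ = 𝔼 u ∈ V F i, 𝔼 w ∈ V F (c.natDegree + i), g (w + c * u) := by
        rw [expect_congr rfl fun u hu => expect_V_add (mul_mem_V le_rfl hu) g,
          expect_const (V_nonempty _)]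
    _ = 𝔼 _w ∈ V F (c.natDegree + i), 𝔼 u ∈ V F i, g (c * u) := by
        rw [expect_comm]
        refine expect_congr rfl fun w hw => ?_
        obtain ⟨u0, h0, y, hy, hBy, rfl⟩ := key w hw
        rw [← expect_V_add h0 fun u => g (c * u)]
        refine expect_congr rfl fun u hu => ?_
        rw [← hg _ (mul_mem_V le_rfl (V_add hu h0)) y hy hBy]
        exact congrArg g (by ring)
    _ = _ := expect_const (V_nonempty _) _

theorem equi_M {B c : F[X]} (hB : B ≠ 0) {d i k : ℕ} (hc : c ∈ M F d) (hcop : IsCoprime c B)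
    (hi : B.natDegree + k ≤ i) (g : F[X] → ℝ) (hg : Per B k (d + i) g) :
    𝔼 b ∈ M F (d + i), g b = 𝔼 a ∈ M F i, g (c * a) := by
  have hb := M_mul_M hc (X_pow_mem_M i)
  obtain ⟨c1, rfl⟩ := mem_M.1 hc
  rw [expect_M_base hb, expect_M_base (X_pow_mem_M i),
    equi hB c1.ne_zero hcop hi (fun w => g (c * X ^ i + w)) fun w hw y hy hBy => by
      rw [← add_assoc, hg _ (M_add_V hb hw) y hy hBy]]
  simp only [mul_add]

/-- few translates of `B` meet `B` -/
theorem card_not_coprime {B : F[X]} (hB : B ≠ 0) (x : F) :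
    𝔼 y : F, ind (¬ IsCoprime (taylor y B) (taylor x B)) ≤ (B.natDegree : ℝ) ^ 2 / Q F := by
  classical
  have q0 := Q_pos (F := F)
  set K := AlgebraicClosure F
  set R := (B.aroots K).toFinset with hR
  have hc : R.card ≤ B.natDegree :=
    (Multiset.toFinset_card_le _).trans ((card_roots' _).trans natDegree_map_le)
  have root : ∀ (t : F) (z : K), aeval z (taylor t B) = 0 → z + algebraMap F K t ∈ R :=
    fun t z h => by
      rw [hR, Multiset.mem_toFinset, mem_aroots]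
      exact ⟨hB, by simpa [taylor_apply, aeval_comp] using h⟩
  have h1 : (univ.filter fun y : F => ¬ IsCoprime (taylor y B) (taylor x B)).card ≤
      ((R ×ˢ R).image fun p => p.1 - p.2 + algebraMap F K x).card := by
    refine card_le_card_of_injOn (algebraMap F K) (fun y hy => ?_) (algebraMap F K).injective.injOn
    have h2 := (mem_filter.1 (mem_coe.1 hy)).2
    rw [isCoprime_iff_aeval_ne_zero_of_isAlgClosed F K] at h2
    push Not at h2
    obtain ⟨z, h3, h4⟩ := h2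
    exact mem_coe.2 (mem_image.2 ⟨(_, _), mem_product.2 ⟨root y z h3, root x z h4⟩, by ring⟩)
  have h5 := h1.trans (card_image_le.trans ((card_product R R).le.trans (Nat.mul_le_mul hc hc)))
  rw [expect_ind, card_univ, sq]
  gcongr
  exact_mod_cast h5

end Pool.Agent.VDW

namespace Pool.Agent.VDW

open Polynomial Finset
open scoped BigOperators

variable {F : Type} [Field F] [Fintype F] [DecidableEq F]

theorem mu_one : mu (1 : F[X]) = 1 := by
  unfold mu
  rw [UniqueFactorizationMonoid.moebius_one]; simp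

theorem mubase_irr_mul {P : F[X]} (hP : Irreducible P) {c : F[X]} (h : ¬ P ∣ c) :
    mu (P * c) = - mu c := by
  unfold mu
  rw [(hP.isRelPrime_iff_not_dvd.2 h).moebius_mul, hP.moebius_eq]
  push_cast; ring

theorem mubase_irr_mul_of_dvd {P : F[X]} (hP : Irreducible P) {c : F[X]} (h : P ∣ c) :
    mu (P * c) = 0 := by
  unfold mu
  rw [UniqueFactorizationMonoid.moebius_of_not_squarefree]
  · simp
  · intro hs
    exact hP.not_isUnit (hs P (mul_dvd_mul_left P h))

theorem mu_mulEquiv (e : F[X] ≃* F[X]) (b : F[X]) : mu (e b) = mu b := by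
  induction b using UniqueFactorizationMonoid.induction_on_prime with
  | h₁ => rw [map_zero]
  | h₂ x hx =>
    unfold mu
    rw [hx.moebius_eq, (hx.map e).moebius_eq]
  | h₃ a p _ hp ih =>
    have hp1 : Irreducible p := hp.irreducible
    have hp2 : Irreducible (e p) := (MulEquiv.irreducible_iff e).2 hp1
    have hiff : e p ∣ e a ↔ p ∣ a := by
      constructor
      · rintro ⟨c, hc⟩
        refine ⟨e.symm c, e.injective ?_⟩
        rw [e.map_mul, e.apply_symm_apply, hc]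
      · rintro ⟨c, rfl⟩
        exact ⟨e c, e.map_mul p c⟩
    rw [e.map_mul]
    by_cases hd : p ∣ a
    · rw [mubase_irr_mul_of_dvd hp1 hd, mubase_irr_mul_of_dvd hp2 (hiff.2 hd)]
    · rw [mubase_irr_mul hp1 hd, mubase_irr_mul hp2 (fun h => hd (hiff.1 h)), ih]

theorem mu_C_mul {c : F} (hc : c ≠ 0) (b : F[X]) : mu (C c * b) = mu b := by
  unfold mu
  rw [(associated_unit_mul_left b (C c) (isUnit_C.2 (IsUnit.mk0 c hc))).moebius_eq]

theorem mu_irr_mul {P : F[X]} (hP : Irreducible P) {c : F[X]} (h : ¬ P ∣ c) :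
    mu (P * c) = - mu c := mubase_irr_mul hP h

theorem mu_irr_mul_of_dvd {P : F[X]} (hP : Irreducible P) {c : F[X]} (h : P ∣ c) :
    mu (P * c) = 0 := mubase_irr_mul_of_dvd hP h

/-- grouping pairs of monic polynomials by their product -/
theorem expect_conv (l m : ℕ) (u : F[X] → F[X] → ℝ) (G : F[X] → ℂ) :
    𝔼 f ∈ M F (l + m), ((∑ a ∈ M F l, ∑ b ∈ M F m, ind (a * b = f) * u a b : ℝ) : ℂ) * G f =
      𝔼 a ∈ M F l, 𝔼 b ∈ M F m, (u a b : ℂ) * G (a * b) := by
  have key : ∑ f ∈ M F (l + m),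
      ((∑ a ∈ M F l, ∑ b ∈ M F m, ind (a * b = f) * u a b : ℝ) : ℂ) * G f =
      ∑ a ∈ M F l, ∑ b ∈ M F m, (u a b : ℂ) * G (a * b) := by
    simp only [Complex.ofReal_sum, sum_mul]
    rw [sum_comm]
    refine sum_congr rfl fun a ha => ?_
    rw [sum_comm]
    refine sum_congr rfl fun b hb => ?_
    rw [sum_eq_single (a * b)]
    · rw [ind_pos rfl, one_mul]
    · intro f _ hf
      rw [ind_neg (fun h => hf h.symm)]; simp
    · intro h; exact absurd (M_mul_M ha hb) h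
  simp only [expect_eq_sum_div_card]
  rw [key, ← sum_div, div_div, card_M, card_M, card_M, pow_add]
  push_cast
  rw [mul_comm ((Fintype.card F : ℂ) ^ m)]

theorem mubase_conv_real (l m : ℕ) (u : F[X] → F[X] → ℝ) (G : F[X] → ℝ) :
    𝔼 a ∈ M F l, 𝔼 b ∈ M F m, u a b * G (a * b) =
      𝔼 f ∈ M F (l + m), (∑ a ∈ M F l, ∑ b ∈ M F m, ind (a * b = f) * u a b) * G f := by
  have h := expect_conv l m u (fun f => (G f : ℂ))
  apply Complex.ofReal_injective
  simp only [ofReal_expect, Complex.ofReal_mul]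
  exact h.symm

theorem mubase_cofactor {l m : ℕ} {f b : F[X]} (hf : f ∈ M F (l + m)) (hb : b ∈ M F m) :
    ∑ a ∈ M F l, ind (a * b = f) = ind (b ∣ f) := by
  obtain ⟨hf1, hf2⟩ := mem_M.1 hf
  obtain ⟨hb1, hb2⟩ := mem_M.1 hb
  by_cases hd : b ∣ f
  · obtain ⟨a, rfl⟩ := hd
    have ha : a.Monic := hb1.of_mul_monic_left hf1
    have hdeg : a.natDegree = l := by
      rw [hb1.natDegree_mul ha] at hf2; omega
    rw [ind_pos (dvd_mul_right b a), sum_eq_single a]
    · exact ind_pos (mul_comm a b)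
    · intro a' _ hne
      refine ind_neg fun h => hne ?_
      rw [mul_comm b a] at h
      exact mul_right_cancel₀ hb1.ne_zero h
    · intro h; exact absurd (mem_M.2 ⟨ha, hdeg⟩) h
  · rw [ind_neg hd]
    exact sum_eq_zero fun a _ => ind_neg fun h => hd (h ▸ dvd_mul_left b a)

theorem mubase_div_sum {i : ℕ} (hi : i ≠ 0) {f : F[X]} (hf : f ∈ M F i) :
    ∑ b ∈ (V F (i + 1)).filter (fun b => b.Monic), ind (b ∣ f) * mu b = 0 := by
  classical
  obtain ⟨hf1, hf2⟩ := mem_M.1 hf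
  have hnu : ¬ IsUnit f := fun h => hi (hf2 ▸ natDegree_eq_zero_of_isUnit h)
  obtain ⟨P, hPm, hP, hPf⟩ := exists_monic_irreducible_factor f hnu
  set D : Finset F[X] := ((V F (i + 1)).filter (fun b => b.Monic)).filter (fun b => b ∣ f) with hD
  have memD : ∀ b, b ∈ D ↔ b.Monic ∧ b ∣ f := by
    intro b
    simp only [hD, mem_filter]
    constructor
    · rintro ⟨⟨-, h1⟩, h2⟩; exact ⟨h1, h2⟩
    · rintro ⟨h1, h2⟩
      exact ⟨⟨mem_V_of_natDegree_le (hf2 ▸ natDegree_le_of_dvd h2 hf1.ne_zero), h1⟩, h2⟩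
  have e1 : ∑ b ∈ (V F (i + 1)).filter (fun b => b.Monic), ind (b ∣ f) * mu b =
      ∑ b ∈ D, mu b := by
    rw [hD, sum_filter (fun b => b ∣ f)]
    refine sum_congr rfl fun b _ => ?_
    rw [ind_eq_ite]; split_ifs <;> simp
  have e2 : ∑ b ∈ D.filter (fun b => P ∣ b), mu b =
      ∑ c ∈ D.filter (fun b => ¬ P ∣ b), mu (P * c) := by
    rw [← sum_image (s := D.filter (fun b => ¬ P ∣ b)) (g := fun c => P * c) (f := mu)
      (fun x _ y _ h => mul_left_cancel₀ hPm.ne_zero h)]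
    symm
    refine sum_subset ?_ ?_
    · intro b hb
      obtain ⟨c, hc, rfl⟩ := mem_image.1 hb
      obtain ⟨hc1, hc2⟩ := mem_filter.1 hc
      obtain ⟨hc3, hc4⟩ := (memD c).1 hc1
      refine mem_filter.2 ⟨(memD _).2 ⟨hPm.mul hc3, ?_⟩, dvd_mul_right P c⟩
      exact (hP.isRelPrime_iff_not_dvd.2 hc2).mul_dvd hPf hc4
    · intro b hb hnb
      obtain ⟨hb1, c, rfl⟩ := mem_filter.1 hb
      obtain ⟨hb3, hb4⟩ := (memD _).1 hb1
      by_cases hc : P ∣ c
      · exact mubase_irr_mul_of_dvd hP hc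
      · exact absurd (mem_image.2 ⟨c, mem_filter.2 ⟨(memD c).2
          ⟨hPm.of_mul_monic_left hb3, (dvd_mul_left c P).trans hb4⟩, hc⟩, rfl⟩) hnb
  rw [e1, ← sum_filter_add_sum_filter_not D (fun b => P ∣ b), e2, ← sum_add_distrib]
  refine sum_eq_zero fun c hc => ?_
  rw [mubase_irr_mul hP (mem_filter.1 hc).2]; ring

theorem mubase_anti (i : ℕ) (g : ℕ → ℝ) :
    ∑ p ∈ antidiagonal i, g p.2 = ∑ t ∈ range (i + 1), g t := by
  rw [← Finset.Nat.sum_antidiagonal_swap]
  exact Finset.Nat.sum_antidiagonal_eq_sum_range_succ (fun a _ => g a) i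

theorem mubase_sum_deg (i : ℕ) (g : F[X] → ℝ) :
    ∑ p ∈ antidiagonal i, ∑ b ∈ M F p.2, g b =
      ∑ b ∈ (V F (i + 1)).filter (fun b => b.Monic), g b := by
  classical
  rw [mubase_anti i (fun a => ∑ b ∈ M F a, g b),
    ← sum_fiberwise_of_maps_to (s := (V F (i + 1)).filter (fun b => b.Monic))
      (t := range (i + 1)) (g := fun b => b.natDegree)]
  · refine sum_congr rfl fun m hm => sum_congr ?_ fun _ _ => rfl
    ext b
    simp only [mem_M, mem_filter]
    constructor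
    · rintro ⟨h1, h2⟩
      have := mem_range.1 hm
      exact ⟨⟨mem_V_of_natDegree_le (by omega), h1⟩, h2⟩
    · rintro ⟨⟨-, h1⟩, h2⟩; exact ⟨h1, h2⟩
  · intro b hb
    have := natDegree_le_of_mem_V (mem_filter.1 hb).1
    exact mem_range.2 (by omega)

/-- the convolution of `1` and `mu` is the unit -/
theorem mu_conv (G : F[X] → ℝ) (i : ℕ) :
    ∑ p ∈ antidiagonal i, 𝔼 a ∈ M F p.1, 𝔼 b ∈ M F p.2, mu b * G (a * b) =
      if i = 0 then G 1 else 0 := by
  split_ifs with hi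
  · subst hi
    simp [M_zero, mu_one]
  · have e : ∀ p ∈ antidiagonal i, 𝔼 a ∈ M F p.1, 𝔼 b ∈ M F p.2, mu b * G (a * b) =
        𝔼 f ∈ M F i, (∑ b ∈ M F p.2, ind (b ∣ f) * mu b) * G f := by
      intro p hp
      have hp' := mem_antidiagonal.1 hp
      rw [mubase_conv_real p.1 p.2 (fun _ b => mu b) G, hp']
      refine expect_congr rfl fun f hf => ?_
      rw [sum_comm]
      refine congrArg (· * G f) (sum_congr rfl fun b hb => ?_)
      rw [← sum_mul, mubase_cofactor (hp' ▸ hf) hb]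
    rw [sum_congr rfl e, ← expect_sum_comm]
    refine expect_eq_zero fun f hf => ?_
    rw [← sum_mul, mubase_sum_deg i (fun b => ind (b ∣ f) * mu b), mubase_div_sum hi hf, zero_mul]

theorem expect_mu {j : ℕ} (hj : 2 ≤ j) : 𝔼 b ∈ M F j, mu b = 0 := by
  have h : ∀ i : ℕ, i ≠ 0 → ∑ t ∈ range (i + 1), 𝔼 b ∈ M F t, mu b = 0 := by
    intro i hi
    have h1 := mu_conv (F := F) (fun _ => 1) i
    rw [if_neg hi] at h1
    simp only [mul_one] at h1
    rw [sum_congr rfl fun p _ => expect_const (M_nonempty p.1) _] at h1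
    rw [← h1, mubase_anti i (fun a => 𝔼 b ∈ M F a, mu b)]
  obtain ⟨k, rfl⟩ : ∃ k, j = k + 1 := ⟨j - 1, by omega⟩
  have h1 := h (k + 1) (by omega)
  rw [sum_range_succ, h k (by omega), zero_add] at h1
  exact h1

end Pool.Agent.VDW

namespace Pool.Agent.VDW

open Polynomial Finset
open scoped BigOperators

variable {F : Type} [Field F] [Fintype F] [DecidableEq F]

lemma muA_taylor_M {j : ℕ} (x : F) {b : F[X]} (hb : b ∈ M F j) : taylor x b ∈ M F j := by
  rw [mem_M] at hb ⊢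
  refine ⟨?_, by rw [natDegree_taylor, hb.2]⟩
  unfold Monic
  rw [leadingCoeff_taylor, hb.1.leadingCoeff]

lemma muA_taylor_V {j : ℕ} (x : F) {b : F[X]} (hb : b ∈ V F j) : taylor x b ∈ V F j := by
  rw [mem_V] at hb ⊢
  rwa [degree_taylor]

omit [Fintype F] [DecidableEq F] in
lemma muA_cancel (x : F) (b : F[X]) : taylor (-x) (taylor x b) = b := by
  rw [taylor_taylor]; simp

omit [Fintype F] [DecidableEq F] in
lemma muA_cancel' (x : F) (b : F[X]) : taylor x (taylor (-x) b) = b := by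
  rw [taylor_taylor]; simp

lemma muA_expect_M (j : ℕ) (x : F) (f : F[X] → ℝ) :
    𝔼 b ∈ M F j, f (taylor x b) = 𝔼 b ∈ M F j, f b :=
  expect_nbij' (fun b => taylor x b) (fun b => taylor (-x) b) (fun _ hb => muA_taylor_M x hb)
    (fun _ hb => muA_taylor_M (-x) hb) (fun b _ => muA_cancel x b) (fun b _ => muA_cancel' x b)
    (fun _ _ => rfl)

lemma muA_expect_V (j : ℕ) (x : F) (f : F[X] → ℝ) :
    𝔼 b ∈ V F j, f (taylor x b) = 𝔼 b ∈ V F j, f b :=
  expect_nbij' (fun b => taylor x b) (fun b => taylor (-x) b) (fun _ hb => muA_taylor_V x hb)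
    (fun _ hb => muA_taylor_V (-x) hb) (fun b _ => muA_cancel x b) (fun b _ => muA_cancel' x b)
    (fun _ _ => rfl)

lemma muA_mu (x : F) (b : F[X]) : mu (taylor x b) = mu b :=
  mu_mulEquiv (taylorEquiv x).toMulEquiv b

lemma muA_per {B : F[X]} {k j : ℕ} {g : F[X] → ℝ} (hg : Per B k j g) (x : F) :
    Per (taylor x B) k j (fun b => g (taylor (-x) b)) := by
  intro b hb c hc hB
  simp only [map_add]
  refine hg _ (muA_taylor_M _ hb) _ (muA_taylor_V _ hc) ?_
  obtain ⟨d, rfl⟩ := hB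
  rw [taylor_mul, muA_cancel]
  exact dvd_mul_right _ _

lemma muA_pair {B1 B2 : F[X]} (h1 : B1 ≠ 0) (h2 : B2 ≠ 0) (hcop : IsCoprime B2 B1) {e k j : ℕ}
    (he1 : B1.natDegree ≤ e) (he2 : B2.natDegree ≤ e) (hj : k + 2 * e ≤ j)
    (g1 g2 : F[X] → ℝ) (hg1 : Per B1 k j g1) (hg2 : Per B2 k j g2)
    (hz : ∀ b ∈ M F j, 𝔼 v ∈ V F (j - k), g1 (b + v) = 0) :
    𝔼 b ∈ M F j, g1 b * g2 b = 0 := by
  set i := j - k - B2.natDegree with hi
  have hik : B2.natDegree + i = j - k := by omega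
  have hmem : ∀ u ∈ V F i, B2 * u ∈ V F (j - k) := fun u hu => hik ▸ mul_mem_V le_rfl hu
  have e1 : ∀ u ∈ V F i, 𝔼 b ∈ M F j, g1 b * g2 b = 𝔼 b ∈ M F j, g1 (b + B2 * u) * g2 b := by
    intro u hu
    rw [← expect_M_add (V_mono (Nat.sub_le j k) (hmem u hu)) (fun b => g1 b * g2 b)]
    refine expect_congr rfl fun b hb => ?_
    rw [hg2 b hb _ (hmem u hu) (dvd_mul_right _ _)]
  have e2 : 𝔼 b ∈ M F j, g1 b * g2 b = 𝔼 u ∈ V F i, 𝔼 b ∈ M F j, g1 (b + B2 * u) * g2 b := by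
    rw [← expect_congr rfl e1, expect_const (V_nonempty i)]
  rw [e2, expect_comm]
  refine expect_eq_zero fun b hb => ?_
  rw [← expect_mul]
  have e3 := equi h1 h2 hcop (i := i) (k := 0) (by omega) (fun w => g1 (b + w)) (by
    intro w hw y hy hB
    rw [hik] at hw
    rw [Nat.sub_zero, hik] at hy
    rw [← add_assoc]
    exact hg1 _ (M_add_V hb (V_mono (Nat.sub_le j k) hw)) _ hy hB)
  rw [← e3, hik, hz b hb, zero_mul]

/-- translation orbits: saving for functions of mean zero on short intervals -/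
theorem window0 {B : F[X]} (hB : B ≠ 0) {e k j : ℕ} (he : B.natDegree ≤ e) (hj : k + 2 * e ≤ j)
    (g : F[X] → ℝ) (hg : Per B k j g) (h2 : ∀ b ∈ M F j, |g b| ≤ 2)
    (hz : ∀ b ∈ M F j, 𝔼 v ∈ V F (j - k), g (b + v) = 0) :
    |𝔼 b ∈ M F j, mu b * g b| ≤ 2 * e / √(Q F) := by
  have hQ : (0 : ℝ) < Q F := Q_pos
  have e1 : ∀ x : F, 𝔼 b ∈ M F j, mu b * g b = 𝔼 b ∈ M F j, mu b * g (taylor (-x) b) := by
    intro x
    rw [← muA_expect_M j (-x) (fun b => mu b * g b)]
    simp only [muA_mu]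
  have e2 : 𝔼 b ∈ M F j, mu b * g b = 𝔼 b ∈ M F j, mu b * 𝔼 x : F, g (taylor (-x) b) := by
    simp only [mul_expect]
    rw [expect_comm, ← expect_congr rfl (fun x _ => e1 x), expect_const univ_nonempty]
  have hT : ∀ x : F, taylor x B ≠ 0 := fun x h => hB (by rw [← muA_cancel x B, h, map_zero])
  have e3 : ∀ x y : F, 𝔼 b ∈ M F j, g (taylor (-x) b) * g (taylor (-y) b) ≤
      4 * ind (¬ IsCoprime (taylor y B) (taylor x B)) := by
    intro x y
    by_cases hc : IsCoprime (taylor y B) (taylor x B)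
    · rw [ind_neg (not_not.2 hc), mul_zero]
      refine (muA_pair (hT x) (hT y) hc (by rwa [natDegree_taylor]) (by rwa [natDegree_taylor]) hj
        _ _ (muA_per hg x) (muA_per hg y) ?_).le
      intro b hb
      simp only [map_add]
      rw [muA_expect_V (j - k) (-x) (fun v => g (taylor (-x) b + v))]
      exact hz _ (muA_taylor_M _ hb)
    · rw [ind_pos hc, mul_one]
      refine expect_le' (by norm_num) fun b hb => ?_
      have a1 := h2 _ (muA_taylor_M (-x) hb)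
      have a2 := h2 _ (muA_taylor_M (-y) hb)
      refine (le_abs_self _).trans ?_
      rw [abs_mul]
      nlinarith [abs_nonneg (g (taylor (-x) b)), abs_nonneg (g (taylor (-y) b))]
  have e4 : (𝔼 b ∈ M F j, mu b * g b) ^ 2 ≤ 4 * ((e : ℝ) ^ 2 / Q F) := by
    rw [e2]
    refine (sq_expect_le _ _).trans ?_
    calc 𝔼 b ∈ M F j, (mu b * 𝔼 x : F, g (taylor (-x) b)) ^ 2
        ≤ 𝔼 b ∈ M F j, (𝔼 x : F, g (taylor (-x) b)) ^ 2 := by
          refine expect_le_expect fun b _ => ?_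
          rw [mul_pow]
          have : mu b ^ 2 ≤ 1 := by
            rw [← sq_abs]; exact pow_le_one₀ (abs_nonneg _) (abs_mu_le_one b)
          nlinarith [sq_nonneg (𝔼 x : F, g (taylor (-x) b))]
      _ = 𝔼 x : F, 𝔼 y : F, 𝔼 b ∈ M F j, g (taylor (-x) b) * g (taylor (-y) b) := by
          simp only [sq_expect]
          rw [expect_comm]
          refine expect_congr rfl fun x _ => ?_
          rw [expect_comm]
      _ ≤ 4 * ((e : ℝ) ^ 2 / Q F) := by
          refine expect_le' (by positivity) fun x _ => ?_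
          refine (expect_le_expect fun y _ => e3 x y).trans ?_
          rw [← mul_expect]
          have := card_not_coprime hB x
          have he' : (B.natDegree : ℝ) ≤ e := by exact_mod_cast he
          refine mul_le_mul_of_nonneg_left (this.trans ?_) (by norm_num)
          gcongr
  refine abs_le_of_sq_le_sq ?_ (by positivity)
  rw [div_pow, Real.sq_sqrt hQ.le]
  refine e4.trans (le_of_eq ?_)
  ring

end Pool.Agent.VDW

namespace Pool.Agent.VDW

open Polynomial Finset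
open scoped BigOperators

variable {F : Type} [Field F] [Fintype F] [DecidableEq F]

/-- the normalised mirror image -/
noncomputable def muwI (b : F[X]) : F[X] := C (trailingCoeff b)⁻¹ * mirror b

lemma muw_mem {j : ℕ} {b : F[X]} (hb : b ∈ M F j) : muwI b ∈ M F j := by
  obtain ⟨h1, h2⟩ := mem_M.1 hb
  have h0 : trailingCoeff b ≠ 0 := trailingCoeff_nonzero_iff_nonzero.2 h1.ne_zero
  refine mem_M.2 ⟨?_, ?_⟩
  · rw [Monic, muwI, leadingCoeff_mul, leadingCoeff_C, mirror_leadingCoeff, inv_mul_cancel₀ h0]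
  · rw [muwI, natDegree_C_mul (inv_ne_zero h0), mirror_natDegree, h2]

lemma muw_inv {j : ℕ} {b : F[X]} (hb : b ∈ M F j) : muwI (muwI b) = b := by
  obtain ⟨h1, -⟩ := mem_M.1 hb
  have h0 : trailingCoeff b ≠ 0 := trailingCoeff_nonzero_iff_nonzero.2 h1.ne_zero
  have e : mirror (muwI b) = C (trailingCoeff b)⁻¹ * b := by
    rw [muwI, mirror_mul_of_domain, mirror_C, mirror_mirror]
  rw [muwI, ← mirror_leadingCoeff (muwI b), e, leadingCoeff_mul, leadingCoeff_C, h1.leadingCoeff,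
    mul_one, ← mul_assoc, ← C_mul, inv_mul_cancel₀ (inv_ne_zero h0), C_1, one_mul]

lemma muw_mu {j : ℕ} {b : F[X]} (hb : b ∈ M F j) : mu (muwI b) = mu b := by
  have h0 : trailingCoeff b ≠ 0 := trailingCoeff_nonzero_iff_nonzero.2 (mem_M.1 hb).1.ne_zero
  rw [muwI, mu_C_mul (inv_ne_zero h0)]
  exact mu_mulEquiv ⟨⟨mirror, mirror, mirror_mirror, mirror_mirror⟩,
    fun p q => mirror_mul_of_domain p q⟩ b

lemma muw_sub {j k : ℕ} {b c : F[X]} (hb : b ∈ M F j) (hc : c ∈ V F j) (hX : X ^ (k + 1) ∣ c)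
    (h0 : b.coeff 0 ≠ 0) : muwI (b + c) - muwI b ∈ V F (j - k) := by
  rw [X_pow_dvd_iff] at hX
  have e0 : (b + c).coeff 0 = b.coeff 0 := by rw [coeff_add, hX 0 (by omega), add_zero]
  have t1 : b.natTrailingDegree = 0 := natTrailingDegree_eq_zero.2 (Or.inr h0)
  have t2 : (b + c).natTrailingDegree = 0 := natTrailingDegree_eq_zero.2 (Or.inr (e0 ▸ h0))
  rw [mem_V, degree_lt_iff_coeff_zero]
  intro i hi
  rw [muwI, muwI, trailingCoeff, trailingCoeff, t1, t2, e0, ← mul_sub, coeff_C_mul, coeff_sub,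
    coeff_mirror, coeff_mirror, t1, t2, (mem_M.1 hb).2, (mem_M.1 (M_add_V hb hc)).2, coeff_add,
    add_sub_cancel_left, add_zero]
  rcases le_or_gt i j with h | h
  · rw [revAt_le h, hX _ (by omega), mul_zero]
  · rw [revAt_eq_self_of_lt h, coeff_eq_zero_of_degree_lt ((mem_V.1 hc).trans (by exact_mod_cast h)),
      mul_zero]

lemma muw_prob {j : ℕ} (hj : 0 < j) : 𝔼 b ∈ M F j, ind (b.coeff 0 = 0) = 1 / Q F := by
  have h1 : ∀ x : F, 𝔼 b ∈ M F j, ind (b.coeff 0 = 0) = 𝔼 b ∈ M F j, ind ((b + C x).coeff 0 = 0) :=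
    fun x => (expect_M_add (V_mono hj (mem_V_of_natDegree_le (natDegree_C x).le))
      fun b => ind (b.coeff 0 = 0)).symm
  rw [← expect_const (univ_nonempty (α := F)) (𝔼 b ∈ M F j, ind (b.coeff 0 = 0)),
    expect_congr rfl fun x _ => h1 x, expect_comm, ← expect_const (M_nonempty (F := F) j) (1 / Q F)]
  refine expect_congr rfl fun b _ => ?_
  rw [expect_ind]
  simp [add_eq_zero_iff_neg_eq, filter_eq]

theorem window {B : F[X]} (hB : B ≠ 0) {e k j : ℕ} (he : B.natDegree ≤ e)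
    (hj : 2 * e + 2 * k + 2 ≤ j) (g : F[X] → ℝ) (hg : Per B k j g)
    (h1 : ∀ b ∈ M F j, |g b| ≤ 1) :
    |𝔼 b ∈ M F j, mu b * g b| ≤ (2 * e + 2 * k + 3) / √(Q F) := by
  set gb : F[X] → ℝ := fun b => 𝔼 v ∈ V F (j - k), g (b + v) with hgb
  have inv : ∀ b, ∀ c ∈ V F (j - k), gb (b + c) = gb b := fun b c hc => by
    simp only [hgb, add_assoc, add_comm c]
    exact expect_V_add hc fun v => g (b + v)
  have gb1 : ∀ b ∈ M F j, |gb b| ≤ 1 := fun b hb =>
    abs_expect_le' zero_le_one fun v hv => h1 _ (M_add_V hb (V_mono (by omega) hv))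
  have a1 := window0 hB he (by omega : k + 2 * e ≤ j) (fun b => g b - gb b)
    (fun b hb c hc hBc => by simp only [hg b hb c hc hBc, inv b c hc])
    (fun b hb => (abs_sub _ _).trans (by linarith [h1 b hb, gb1 b hb]))
    fun b _ => by
      rw [expect_sub_distrib, expect_congr rfl fun v hv => inv b v hv, expect_const (V_nonempty _)]
      exact sub_self _
  set g2 : F[X] → ℝ := fun b => ind (b.coeff 0 ≠ 0) * gb (muwI b) with hg2
  have g21 : ∀ b ∈ M F j, |g2 b| ≤ 1 := fun b hb => by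
    rw [hg2, abs_mul]
    exact mul_le_one₀ (abs_ind_le_one _) (abs_nonneg _) (gb1 _ (muw_mem hb))
  set m := 𝔼 b ∈ M F j, g2 b with hm
  have m1 : |m| ≤ 1 := abs_expect_le' zero_le_one g21
  have a2 := window0 (B := X ^ (k + 1)) (pow_ne_zero _ X_ne_zero) (e := k + 1) (k := 0) (j := j)
    (natDegree_X_pow _).le (by omega) (fun b => g2 b - m)
    (fun b hb c hc hX => by
      have e0 : (b + c).coeff 0 = b.coeff 0 := by
        rw [coeff_add, X_pow_dvd_iff.1 hX 0 (by omega), add_zero]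
      simp only [hg2, e0, sub_left_inj]
      by_cases h0 : b.coeff 0 ≠ 0
      · rw [← inv (muwI b) _ (muw_sub hb hc hX h0), add_sub_cancel]
      · simp [ind_neg h0])
    (fun b hb => (abs_sub _ _).trans (by linarith [g21 b hb]))
    fun b hb => by
      rw [expect_sub_distrib, Nat.sub_zero, ← expect_M_base hb g2, expect_const (V_nonempty _)]
      exact sub_self _
  have a3 : |𝔼 b ∈ M F j, mu b * (gb (muwI b) - g2 b)| ≤ 1 / √(Q F) := by
    refine ((abs_expect_le _ _).trans (expect_le_expect (g := fun b => ind (b.coeff 0 = 0))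
      fun b hb => ?_)).trans ?_
    · by_cases h0 : b.coeff 0 = 0
      · simp only [hg2, ind_pos h0, ind_neg (not_not.2 h0), zero_mul, sub_zero, abs_mul]
        exact mul_le_one₀ (abs_mu_le_one _) (abs_nonneg _) (gb1 _ (muw_mem hb))
      · simp [hg2, ind_pos (show b.coeff 0 ≠ 0 from h0), ind_neg h0]
    · rw [muw_prob (by omega)]
      exact one_div_le_one_div_of_le (Real.sqrt_pos.2 Q_pos)
        (Real.sqrt_le_self_iff.2 (Or.inr one_le_Q))
  have a4 : 𝔼 b ∈ M F j, mu b * gb b = 𝔼 b ∈ M F j, mu b * gb (muwI b) :=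
    expect_nbij' muwI muwI (fun _ => muw_mem) (fun _ => muw_mem) (fun _ => muw_inv)
      (fun _ => muw_inv) fun b hb => by rw [muw_mu hb, muw_inv hb]
  have e : 𝔼 b ∈ M F j, mu b * g b = 𝔼 b ∈ M F j, mu b * (g b - gb b) +
      𝔼 b ∈ M F j, mu b * (g2 b - m) + 𝔼 b ∈ M F j, mu b * (gb (muwI b) - g2 b) := by
    simp only [mul_sub, expect_sub_distrib, ← expect_mul, expect_mu (by omega : 2 ≤ j), a4]
    ring
  rw [e]
  refine (abs_add_three _ _ _).trans ((add_le_add_three a1 a2 a3).trans_eq ?_)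
  push_cast
  ring

end Pool.Agent.VDW

namespace Pool.Agent.VDW

open Polynomial Finset
open scoped BigOperators

variable {F : Type} [Field F] [Fintype F] [DecidableEq F]

private lemma amp_comb (j M0 J R : ℕ) (w : ℕ → ℕ → ℝ) (S τ : ℝ) (hτ : 0 ≤ τ) (hM : 0 < M0)
    (hj : R + M0 + J ≤ j)
    (h1 : ∀ a, a ≤ j → ∑ b ∈ range (j + 1), w a b = if a = j then S else 0)
    (h2 : ∀ b, b < j → ∑ a ∈ range (j + 1), w a b = 0)
    (h3 : ∀ a b, a + b + J ≤ j → w a b = 0) (h3' : ∀ a b, j < a + b → w a b = 0)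
    (h4 : ∀ a b, M0 ≤ a → R ≤ b → |w a b| ≤ τ) : |S| ≤ (J : ℝ) ^ 2 * τ := by
  have hS : S = ∑ b ∈ range (j + 1), ∑ a ∈ Ico M0 (j + 1), w a b := by
    rw [sum_comm]
    have e : ∀ a ∈ Ico M0 (j + 1), ∑ b ∈ range (j + 1), w a b = if a = j then S else 0 := by
      intro a ha
      exact h1 a (by have := (mem_Ico.1 ha).2; omega)
    rw [sum_congr rfl e, sum_ite_eq' (Ico M0 (j + 1)) j (fun _ => S), if_pos]
    exact mem_Ico.2 ⟨by omega, by omega⟩
  have hb : ∀ b ∈ range (j + 1), |∑ a ∈ Ico M0 (j + 1), w a b| ≤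
      if b ∈ Ico (j + 1 - M0 - J) (j + 1 - M0) then (J : ℝ) * τ else 0 := by
    intro b _
    split_ifs with hb
    · obtain ⟨hb1, hb2⟩ := mem_Ico.1 hb
      have hsub : Ico M0 (j - b + 1) ⊆ Ico M0 (j + 1) := Ico_subset_Ico_right (by omega)
      rw [← sum_subset hsub (fun a ha hna => h3' a b (by
        have := (mem_Ico.1 ha).1
        by_contra hc
        exact hna (mem_Ico.2 ⟨this, by omega⟩)))]
      refine (abs_sum_le_sum_abs _ _).trans ?_
      refine (sum_le_card_nsmul _ _ τ (fun a ha => h4 a b (mem_Ico.1 ha).1 (by omega))).trans ?_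
      rw [Nat.card_Ico, nsmul_eq_mul]
      have : j - b + 1 - M0 ≤ J := by omega
      exact mul_le_mul_of_nonneg_right (by exact_mod_cast this) hτ
    · rw [mem_Ico, not_and_or] at hb
      rcases hb with hb | hb
      · have e := h2 b (by omega)
        rw [range_eq_Ico, ← sum_Ico_consecutive (fun a => w a b) (Nat.zero_le M0)
          (by omega : M0 ≤ j + 1)] at e
        have e0 : ∑ a ∈ Ico 0 M0, w a b = 0 :=
          sum_eq_zero fun a ha => h3 a b (by have := (mem_Ico.1 ha).2; omega)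
        rw [e0, zero_add] at e
        rw [e, abs_zero]
      · have e0 : ∑ a ∈ Ico M0 (j + 1), w a b = 0 :=
          sum_eq_zero fun a ha => h3' a b (by have := (mem_Ico.1 ha).1; omega)
        rw [e0, abs_zero]
  rw [hS]
  refine (abs_sum_le_sum_abs _ _).trans ((sum_le_sum hb).trans ?_)
  rw [← sum_filter, sum_const, nsmul_eq_mul]
  have hc : ((range (j + 1)).filter (fun b => b ∈ Ico (j + 1 - M0 - J) (j + 1 - M0))).card ≤ J := by
    refine (card_le_card (fun b hb => (mem_filter.1 hb).2)).trans ?_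
    rw [Nat.card_Ico]; omega
  have hc' : (((range (j + 1)).filter
      (fun b => b ∈ Ico (j + 1 - M0 - J) (j + 1 - M0))).card : ℝ) ≤ J := by exact_mod_cast hc
  calc _ ≤ (J : ℝ) * ((J : ℝ) * τ) := mul_le_mul_of_nonneg_right hc' (by positivity)
    _ = _ := by ring

private lemma amp_conv (G : F[X] → ℝ) (i n : ℕ) (h : i ≤ n) :
    ∑ b ∈ range (n + 1), 𝔼 c ∈ M F b, mu c * (if b ≤ i then 𝔼 a ∈ M F (i - b), G (c * a) else 0) =
      if i = 0 then G 1 else 0 := by
  rw [← mu_conv G i, ← Finset.Nat.sum_antidiagonal_swap,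
    Finset.Nat.sum_antidiagonal_eq_sum_range_succ_mk]
  have hsub : range (i + 1) ⊆ range (n + 1) := range_subset_range.2 (by omega)
  rw [← sum_subset hsub (fun b _ hb => by
    have : ¬ b ≤ i := fun hc => hb (mem_range.2 (by omega))
    simp [this])]
  refine sum_congr rfl fun b hb => ?_
  have hbi : b ≤ i := by have := mem_range.1 hb; omega
  simp only [if_pos hbi, Prod.fst_swap, Prod.snd_swap]
  rw [expect_comm]
  refine expect_congr rfl fun c _ => ?_
  rw [mul_expect]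
  exact expect_congr rfl fun a _ => by rw [mul_comm c a]

private lemma amp_window {B : F[X]} (hB : B ≠ 0) {e k j : ℕ} (he : B.natDegree ≤ e)
    (hj : 2 * e + 2 * k + 2 ≤ j) (g : F[X] → ℝ) (hg : Per B k j g) (K : ℝ) (hK : 0 ≤ K)
    (h1 : ∀ b ∈ M F j, |g b| ≤ K) :
    |𝔼 b ∈ M F j, mu b * g b| ≤ (2 * e + 2 * k + 3) / √(Q F) * K := by
  rcases hK.eq_or_lt with rfl | hK
  · rw [mul_zero]
    refine abs_expect_le' le_rfl fun b hb => ?_
    rw [abs_nonpos_iff.1 (h1 b hb), mul_zero, abs_zero]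
  · have h := window hB he hj (fun b => g b / K) (fun b hb c hc hBc => by
      simp only [hg b hb c hc hBc]) (fun b hb => by
      rw [abs_div, abs_of_pos hK, div_le_one hK]; exact h1 b hb)
    have e1 : 𝔼 b ∈ M F j, mu b * g b = (𝔼 b ∈ M F j, mu b * (g b / K)) * K := by
      rw [expect_mul]
      exact expect_congr rfl fun b _ => by field_simp
    rw [e1, abs_mul, abs_of_pos hK]
    exact mul_le_mul_of_nonneg_right h hK.le

/-- amplification of the window bound -/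
theorem amp {B : F[X]} (hB : B ≠ 0) {e k : ℕ} (he : B.natDegree ≤ e) (r j : ℕ)
    (hj : r * (3 * e + 3 * k + 2) ≤ j) (g : F[X] → ℝ) (hg : Per B k j g)
    (h1 : ∀ b ∈ M F j, |g b| ≤ 1)
    (hZ : ∀ d i, d + i = j → e + k ≤ i → ∀ c ∈ M F d, 𝔼 a ∈ M F i, g (c * a) = 0) :
    |𝔼 b ∈ M F j, mu b * g b| ≤ (((e : ℝ) + k) ^ 2 * (2 * e + 2 * k + 3) / √(Q F)) ^ r := by
  induction r generalizing j g with
  | zero =>
    rw [pow_zero]
    refine abs_expect_le' zero_le_one fun b hb => ?_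
    rw [abs_mul]
    exact mul_le_one₀ (abs_mu_le_one b) (abs_nonneg _) (h1 b hb)
  | succ r ih =>
    have hq : 0 < √(Q F) := Real.sqrt_pos.2 Q_pos
    set η : ℝ := (2 * e + 2 * k + 3) / √(Q F) with hη
    set K : ℝ := (((e : ℝ) + k) ^ 2 * (2 * e + 2 * k + 3) / √(Q F)) ^ r with hK
    have hη0 : 0 ≤ η := by positivity
    have hK0 : 0 ≤ K := by positivity
    let w : ℕ → ℕ → ℝ := fun a b => 𝔼 x ∈ M F a, mu x * 𝔼 y ∈ M F b, mu y *
      (if a + b ≤ j then 𝔼 z ∈ M F (j - (a + b)), g (x * y * z) else 0)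
    have hsymm : ∀ a b, w a b = w b a := by
      intro a b
      simp only [w, mul_expect]
      rw [expect_comm]
      refine expect_congr rfl fun y _ => expect_congr rfl fun x _ => ?_
      rw [add_comm b a, mul_comm y x]
      ring
    have hrow : ∀ a, a ≤ j → ∑ b ∈ range (j + 1), w a b =
        if a = j then 𝔼 b ∈ M F j, mu b * g b else 0 := by
      intro a ha
      simp only [w]
      rw [← expect_sum_comm]
      have e1 : ∀ x ∈ M F a, ∑ b ∈ range (j + 1), mu x * 𝔼 y ∈ M F b, mu y *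
          (if a + b ≤ j then 𝔼 z ∈ M F (j - (a + b)), g (x * y * z) else 0) =
          mu x * if j - a = 0 then g x else 0 := by
        intro x _
        rw [← mul_sum]
        congr 1
        have := amp_conv (fun u => g (x * u)) (j - a) j (by omega)
        simp only [mul_one] at this
        rw [← this]
        refine sum_congr rfl fun b _ => expect_congr rfl fun y _ => ?_
        congr 1
        by_cases hab : a + b ≤ j
        · rw [if_pos hab, if_pos (by omega), Nat.sub_sub]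
          exact expect_congr rfl fun z _ => by rw [mul_assoc]
        · rw [if_neg hab, if_neg (by omega)]
      rw [expect_congr rfl e1]
      by_cases haj : a = j
      · subst haj
        simp
      · have : ¬ j - a = 0 := by omega
        simp [haj, this]
    have key := amp_comb j (2 * e + 2 * k + 2) (e + k) (r * (3 * e + 3 * k + 2)) w
      (𝔼 b ∈ M F j, mu b * g b) (η * K) (mul_nonneg hη0 hK0) (by omega)
      (by rw [Nat.succ_mul] at hj; omega) hrow
      (fun b hb => by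
        rw [sum_congr rfl (fun a _ => hsymm a b), hrow b hb.le, if_neg hb.ne])
      (fun a b hab => by
        refine expect_eq_zero fun x hx => ?_
        rw [expect_eq_zero, mul_zero]
        intro y hy
        rw [if_pos (by omega), hZ (a + b) (j - (a + b)) (by omega) (by omega) _ (M_mul_M hx hy),
          mul_zero])
      (fun a b hab => by
        have : ¬ a + b ≤ j := by omega
        simp [w, this])
      (fun a b ha hb => by
        by_cases hab : a + b ≤ j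
        swap
        · simp only [w, if_neg hab, mul_zero, expect_const_zero, abs_zero]
          exact mul_nonneg hη0 hK0
        simp only [w, if_pos hab]
        obtain ⟨i, rfl⟩ : ∃ i, j = a + b + i := ⟨j - (a + b), by omega⟩
        rw [Nat.add_sub_cancel_left]
        refine amp_window hB he ha _ ?_ K hK0 ?_
        · intro x hx c hc hBc
          refine expect_congr rfl fun y hy => ?_
          congr 1
          refine expect_congr rfl fun z hz => ?_
          have hp : Per B k a (fun u => g (y * z * u)) :=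
            Per.mul (i := b + i) (by rwa [show b + i + a = a + b + i by ring]) (M_mul_M hy hz)
          have := hp x hx c hc hBc
          simp only at this
          rw [show (x + c) * y * z = y * z * (x + c) by ring, this]
          congr 1; ring
        · intro x hx
          simp only [mul_expect]
          rw [expect_comm]
          refine abs_expect_le' hK0 fun z hz => ?_
          have hxz : x * z ∈ M F (a + i) := M_mul_M hx hz
          have := ih b hb (fun u => g (x * z * u))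
            (Per.mul (i := a + i) (by rwa [show a + i + b = a + b + i by ring]) hxz)
            (fun u hu => h1 _ (by
              rw [show a + b + i = a + i + b by ring]; exact M_mul_M hxz hu))
            (fun d i' hd hi' c hc => by
              have := hZ (a + i + d) i' (by omega) hi' _ (M_mul_M hxz hc)
              simpa only [mul_assoc] using this)
          refine le_of_eq_of_le ?_ this
          congr 1
          exact expect_congr rfl fun y _ => by rw [mul_right_comm x y z])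
    refine key.trans (le_of_eq ?_)
    rw [pow_succ _ r, ← hK, hη]
    push_cast
    ring

end Pool.Agent.VDW

namespace Pool.Agent.VDW

open Polynomial Finset
open scoped BigOperators

variable {F : Type} [Field F] [Fintype F] [DecidableEq F]

omit [Fintype F] [DecidableEq F] in
lemma peel_cop {P : F[X]} (hP : Irreducible P) (b D : F[X]) :
    IsCoprime b (D * P) ↔ IsCoprime b D ∧ ¬ P ∣ b := by
  rw [IsCoprime.mul_right_iff, isCoprime_comm (x := b) (y := P), hP.coprime_iff_not_dvd]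

omit [Fintype F] [DecidableEq F] in
lemma peel_cop_dvd {P D : F[X]} (h : P ∣ D) (b : F[X]) : IsCoprime b (D * P) ↔ IsCoprime b D := by
  rw [IsCoprime.mul_right_iff]
  exact ⟨fun h => h.1, fun h' => ⟨h', h'.of_isCoprime_of_dvd_right h⟩⟩

lemma peel_dvd {P : F[X]} {d : ℕ} (hm : P ∈ M F d) (i : ℕ) (f : F[X] → ℝ) :
    ∑ b ∈ M F (d + i), ind (P ∣ b) * f b = ∑ c ∈ M F i, f (P * c) := by
  classical
  have h0 := (mem_M.1 hm).1
  simp only [ind_eq_ite, ite_mul, one_mul, zero_mul]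
  rw [← sum_filter]
  refine (sum_bij (fun c _ => P * c) (fun c hc => mem_filter.2 ⟨M_mul_M hm hc, dvd_mul_right _ _⟩)
    (fun a _ b _ h => mul_left_cancel₀ h0.ne_zero h) (fun b hb => ?_) fun _ _ => rfl).symm
  obtain ⟨hb, c, rfl⟩ := mem_filter.1 hb
  obtain ⟨h1, h2⟩ := mem_M.1 hb
  have h3 := h0.of_mul_monic_left h1
  refine ⟨c, mem_M.2 ⟨h3, ?_⟩, rfl⟩
  rw [h0.natDegree_mul h3, (mem_M.1 hm).2] at h2
  omega

lemma peel_split {P : F[X]} (hP : Irreducible P) (D : F[X]) (j : ℕ) (g : F[X] → ℝ) :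
    ∑ b ∈ M F j, ind (IsCoprime b D) * mu b * g b =
      ∑ b ∈ M F j, ind (IsCoprime b (D * P)) * mu b * g b +
        ∑ b ∈ M F j, ind (P ∣ b) * (ind (IsCoprime b D) * mu b * g b) := by
  rw [← sum_add_distrib]
  refine sum_congr rfl fun b _ => ?_
  rw [ind_congr (peel_cop hP b D), ind_and]
  by_cases h : P ∣ b
  · rw [ind_pos h, ind_neg (not_not.2 h)]; ring
  · rw [ind_neg h, ind_pos h]; ring

lemma peel_big {P D : F[X]} {d : ℕ} (hP : Irreducible P) (hm : P ∈ M F d) (hD : ¬ P ∣ D) (i : ℕ)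
    (g : F[X] → ℝ) :
    ∑ b ∈ M F (d + i), ind (IsCoprime b D) * mu b * g b =
      ∑ b ∈ M F (d + i), ind (IsCoprime b (D * P)) * mu b * g b -
        ∑ c ∈ M F i, ind (IsCoprime c (D * P)) * mu c * g (P * c) := by
  rw [peel_split hP, peel_dvd hm, sub_eq_add_neg, ← sum_neg_distrib]
  congr 1
  refine sum_congr rfl fun c _ => ?_
  by_cases h : P ∣ c
  · rw [mu_irr_mul_of_dvd hP h, ind_neg (P := IsCoprime c (D * P))
      fun h' => ((peel_cop hP c D).1 h').2 h]
    ring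
  · rw [mu_irr_mul hP h, ind_congr (P := IsCoprime (P * c) D) (R := IsCoprime c (D * P)) (by
      rw [peel_cop hP, IsCoprime.mul_left_iff, hP.coprime_iff_not_dvd]; tauto)]
    ring

lemma peel_small {P : F[X]} (hP : Irreducible P) (D : F[X]) {j : ℕ} (hj : j < P.natDegree)
    (g : F[X] → ℝ) :
    ∑ b ∈ M F j, ind (IsCoprime b D) * mu b * g b =
      ∑ b ∈ M F j, ind (IsCoprime b (D * P)) * mu b * g b := by
  rw [peel_split hP, sum_eq_zero (s := M F j) (f := fun b => ind (P ∣ b) * _), add_zero]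
  intro b hb
  obtain ⟨h1, h2⟩ := mem_M.1 hb
  rw [ind_neg fun h => by have := natDegree_le_of_dvd h h1.ne_zero; omega, zero_mul]

omit [Fintype F] [DecidableEq F] in
lemma peel_ind {p : F[X] → Prop} (h0 : ∀ D, IsUnit D → p D)
    (h1 : ∀ D P : F[X], D ≠ 0 → Irreducible P → P.Monic → p D → p (D * P)) {D : F[X]}
    (hD : D ≠ 0) : p D := by
  induction hn : D.natDegree using Nat.strong_induction_on generalizing D with
  | _ n ih =>
    by_cases hu : IsUnit D
    · exact h0 D hu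
    obtain ⟨P, hm, hP, E, rfl⟩ := exists_monic_irreducible_factor D hu
    have hE : E ≠ 0 := right_ne_zero_of_mul hD
    rw [mul_comm]
    refine h1 E P hE hP hm (ih E.natDegree ?_ hE rfl)
    have := hP.natDegree_pos
    rw [natDegree_mul hm.ne_zero hE] at hn
    omega

lemma peel_sum_mu (j : ℕ) : |∑ b ∈ M F j, mu b| ≤ Q F := by
  rcases le_or_gt 2 j with h | h
  · have := expect_mu (F := F) h
    rw [expect_eq_sum_div_card, card_M_real, div_eq_zero_iff] at this
    rw [this.resolve_right (pow_pos Q_pos j).ne', abs_zero]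
    exact Q_pos.le
  refine (abs_sum_le_sum_abs _ _).trans
    ((sum_le_card_nsmul _ _ 1 fun b _ => abs_mu_le_one b).trans ?_)
  rw [nsmul_eq_mul, mul_one, card_M_real]
  exact (pow_le_pow_right₀ one_le_Q (by omega : j ≤ 1)).trans_eq (pow_one _)

/-- the principal character -/
theorem principal {D : F[X]} (hD : D ≠ 0) (j : ℕ) :
    |∑ b ∈ M F j, ind (IsCoprime b D) * mu b| ≤ ((j : ℝ) + 1) ^ D.natDegree * Q F := by
  revert j
  refine peel_ind (p := fun D => ∀ j : ℕ, |∑ b ∈ M F j, ind (IsCoprime b D) * mu b| ≤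
    ((j : ℝ) + 1) ^ D.natDegree * Q F) (fun D hu j => ?_) (fun D P hD hP hm ih => ?_) hD
  · have hc : ∀ b : F[X], IsCoprime b D := fun b => by
      simpa using (isCoprime_mul_unit_right_right hu b 1).2 isCoprime_one_right
    simp only [natDegree_eq_zero_of_isUnit hu, pow_zero, one_mul, ind_pos (hc _)]
    exact peel_sum_mu j
  have hd := hP.natDegree_pos
  have hq := Q_pos (F := F)
  have one : ∀ j : ℕ, (1 : ℝ) ≤ j + 1 := fun j => by
    have : (0 : ℝ) ≤ j := j.cast_nonneg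
    linarith
  suffices h : ∀ j : ℕ, |∑ b ∈ M F j, ind (IsCoprime b (D * P)) * mu b| ≤
      ((j : ℝ) + 1) ^ (D.natDegree + 1) * Q F by
    intro j
    refine (h j).trans ?_
    rw [natDegree_mul hD hm.ne_zero]
    gcongr
    · exact one j
    · exact hd
  have mono : ∀ j : ℕ, ((j : ℝ) + 1) ^ D.natDegree * Q F ≤
      ((j : ℝ) + 1) ^ (D.natDegree + 1) * Q F := fun j => by
    gcongr
    · exact one j
    · omega
  by_cases hPD : P ∣ D
  · intro j
    simp only [peel_cop_dvd hPD]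
    exact (ih j).trans (mono j)
  intro j
  induction j using Nat.strong_induction_on with
  | _ j ihj =>
    rcases lt_or_ge j P.natDegree with hj | hj
    · have := peel_small hP D hj fun _ => 1
      simp only [mul_one] at this
      rw [← this]
      exact (ih j).trans (mono j)
    obtain ⟨i, rfl⟩ := Nat.exists_eq_add_of_le hj
    have := peel_big hP (mem_M.2 ⟨hm, rfl⟩) hPD i fun _ => 1
    simp only [mul_one] at this
    rw [eq_sub_iff_add_eq] at this
    rw [← this]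
    refine (abs_add_le _ _).trans ((add_le_add (ih _) (ihj i (by omega))).trans ?_)
    have h1 : (i : ℝ) + 1 ≤ ((P.natDegree + i : ℕ) : ℝ) := by
      exact_mod_cast (by omega : i + 1 ≤ P.natDegree + i)
    generalize ((P.natDegree + i : ℕ) : ℝ) = t at h1 ⊢
    have h2 := one i
    have h3 : 0 ≤ t + 1 := by linarith
    calc _ ≤ (t + 1) ^ D.natDegree * Q F + (t + 1) ^ D.natDegree * t * Q F := by
          rw [pow_succ]
          gcongr
          linarith
      _ = _ := by ring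

/-- removing a coprimality condition -/
theorem uncop {B : F[X]} (hB : B ≠ 0) (k j₀ j₁ : ℕ) (τ : ℝ) (hτ : 0 ≤ τ)
    (h : ∀ j, j₀ ≤ j → j ≤ j₁ → ∀ g : F[X] → ℝ, Per B k j g → (∀ b ∈ M F j, |g b| ≤ 1) →
      |𝔼 b ∈ M F j, ind (IsCoprime b B) * mu b * g b| ≤ τ)
    (j : ℕ) (hj₀ : j₀ + B.natDegree ≤ j) (hj₁ : j ≤ j₁) (g : F[X] → ℝ) (hg : Per B k j g)
    (h1 : ∀ b ∈ M F j, |g b| ≤ 1) :
    |𝔼 b ∈ M F j, mu b * g b| ≤ 2 ^ B.natDegree * τ := by
  have hq := Q_pos (F := F)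
  have key : ∀ D, D * B = B → ∀ j, j₀ + B.natDegree ≤ j → j ≤ j₁ → ∀ g : F[X] → ℝ, Per B k j g →
      (∀ b ∈ M F j, |g b| ≤ 1) →
      |∑ b ∈ M F j, ind (IsCoprime b D) * mu b * g b| ≤ 2 ^ B.natDegree * τ * Q F ^ j := by
    refine peel_ind (p := fun E => ∀ D, D * E = B → ∀ j, j₀ + E.natDegree ≤ j → j ≤ j₁ →
      ∀ g : F[X] → ℝ, Per B k j g → (∀ b ∈ M F j, |g b| ≤ 1) →
      |∑ b ∈ M F j, ind (IsCoprime b D) * mu b * g b| ≤ 2 ^ E.natDegree * τ * Q F ^ j)
      (fun E hu D hD j a b g hg h1 => ?_) (fun E P hE hP hm ih D hD j a b g hg h1 => ?_) hB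
    · have := h j (by omega) b g hg h1
      rw [expect_eq_sum_div_card, card_M_real, abs_div, abs_of_pos (pow_pos hq j),
        div_le_iff₀ (pow_pos hq j)] at this
      rw [natDegree_eq_zero_of_isUnit hu, pow_zero, one_mul]
      simpa only [← hD, isCoprime_mul_unit_right_right hu] using this
    have hd := hP.natDegree_pos
    rw [natDegree_mul hE hm.ne_zero] at a ⊢
    have ih' := ih (D * P) (by rw [← hD]; ring)
    have h2 := ih' j (by omega) b g hg h1
    by_cases hPD : P ∣ D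
    · simp only [peel_cop_dvd hPD] at h2
      refine h2.trans ?_
      gcongr
      · norm_num
      · omega
    obtain ⟨i, rfl⟩ := Nat.exists_eq_add_of_le (show P.natDegree ≤ j by omega)
    have hPM : P ∈ M F P.natDegree := mem_M.2 ⟨hm, rfl⟩
    have h3 := ih' i (by omega) (by omega) (fun c => g (P * c)) (hg.mul hPM)
      fun c hc => h1 _ (M_mul_M hPM hc)
    rw [peel_big hP hPM hPD]
    refine (abs_sub _ _).trans ((add_le_add h2 h3).trans ?_)
    calc _ ≤ 2 ^ E.natDegree * τ * Q F ^ (P.natDegree + i) +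
          2 ^ E.natDegree * τ * Q F ^ (P.natDegree + i) := by
          gcongr
          · exact one_le_Q
          · omega
      _ = 2 ^ (E.natDegree + 1) * τ * Q F ^ (P.natDegree + i) := by ring
      _ ≤ _ := by
          gcongr
          · norm_num
          · exact hd
  have := key 1 (one_mul B) j hj₀ hj₁ g hg h1
  simp only [ind_pos isCoprime_one_right, one_mul] at this
  rwa [expect_eq_sum_div_card, card_M_real, abs_div, abs_of_pos (pow_pos hq j),
    div_le_iff₀ (pow_pos hq j)]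

end Pool.Agent.VDW

namespace Pool.Agent.VDW

open Polynomial Finset
open scoped BigOperators

variable {F : Type} [Field F] [Fintype F] [DecidableEq F]

lemma major_princ {B : F[X]} (hB : B ≠ 0) {e R j m : ℕ} (he : B.natDegree ≤ e) (hR : R + 1 ≤ j)
    (hm : j ≤ m) :
    |𝔼 b ∈ M F j, ind (IsCoprime b B) * mu b| ≤ ((m : ℝ) + 1) ^ e / Q F ^ R := by
  have hq : (0 : ℝ) < Q F := Q_pos
  have hq1 : (1 : ℝ) ≤ Q F := one_le_Q
  rw [expect_eq_sum_div_card, card_M_real, abs_div, abs_of_pos (pow_pos hq j)]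
  have h1 := principal hB j
  have h2 : ((j : ℝ) + 1) ^ B.natDegree ≤ ((m : ℝ) + 1) ^ e := by
    have hjm : (j : ℝ) + 1 ≤ (m : ℝ) + 1 := by
      have : (j : ℝ) ≤ m := by exact_mod_cast hm
      linarith
    have h0 : (1 : ℝ) ≤ (m : ℝ) + 1 := by
      have : (0 : ℝ) ≤ m := Nat.cast_nonneg m
      linarith
    calc ((j : ℝ) + 1) ^ B.natDegree ≤ ((m : ℝ) + 1) ^ B.natDegree :=
          pow_le_pow_left₀ (by positivity) hjm _
      _ ≤ _ := pow_le_pow_right₀ h0 he
  have h3 : Q F ^ R * Q F ≤ Q F ^ j := by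
    rw [← pow_succ]; exact pow_le_pow_right₀ hq1 hR
  rw [div_le_div_iff₀ (pow_pos hq j) (pow_pos hq R)]
  have h4 : (0 : ℝ) ≤ ((m : ℝ) + 1) ^ e := by positivity
  calc |∑ b ∈ M F j, ind (IsCoprime b B) * mu b| * Q F ^ R
      ≤ (((m : ℝ) + 1) ^ e * Q F) * Q F ^ R := by
        refine mul_le_mul_of_nonneg_right (h1.trans ?_) (pow_pos hq R).le
        exact mul_le_mul_of_nonneg_right h2 hq.le
    _ = ((m : ℝ) + 1) ^ e * (Q F ^ R * Q F) := by ring
    _ ≤ _ := mul_le_mul_of_nonneg_left h3 h4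

lemma major_cop {B : F[X]} (hB : B ≠ 0) {e k R j m : ℕ} (he : B.natDegree ≤ e) (hR : R + 1 ≤ j)
    (hm : j ≤ m) (hj : 2 * R * (3 * e + 3 * k + 2) ≤ j) (g : F[X] → ℝ) (hg : Per B k j g)
    (h1 : ∀ b ∈ M F j, |g b| ≤ 1) :
    |𝔼 b ∈ M F j, ind (IsCoprime b B) * mu b * g b| ≤
      (2 * (((e : ℝ) + k) ^ 2 * (2 * e + 2 * k + 3)) ^ (2 * R) + ((m : ℝ) + 1) ^ e) / Q F ^ R := by
  have hq : (0 : ℝ) < Q F := Q_pos
  obtain ⟨c, hc1, hc⟩ : ∃ c : ℝ, |c| ≤ 1 ∧
      𝔼 b ∈ M F j, ind (IsCoprime b B) * g b = c * 𝔼 b ∈ M F j, ind (IsCoprime b B) := by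
    have hs : |𝔼 b ∈ M F j, ind (IsCoprime b B) * g b| ≤ 𝔼 b ∈ M F j, ind (IsCoprime b B) := by
      refine (abs_expect_le _ _).trans (expect_le_expect fun b hb => ?_)
      rw [abs_mul, abs_of_nonneg (ind_nonneg _)]
      exact mul_le_of_le_one_right (ind_nonneg _) (h1 b hb)
    have hp : 0 ≤ 𝔼 b ∈ M F j, ind (IsCoprime b B) := expect_ind_nonneg _ _
    rcases hp.eq_or_lt with h0 | h0
    · refine ⟨0, by simp, ?_⟩
      rw [← h0] at hs
      rw [zero_mul]; exact abs_nonpos_iff.1 hs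
    · refine ⟨(𝔼 b ∈ M F j, ind (IsCoprime b B) * g b) / 𝔼 b ∈ M F j, ind (IsCoprime b B), ?_, ?_⟩
      · rw [abs_div, abs_of_pos h0, div_le_one h0]; exact hs
      · rw [div_mul_cancel₀ _ h0.ne']
  set g0 : F[X] → ℝ := fun b => (1 / 2) * (ind (IsCoprime b B) * g b) -
    (c / 2) * ind (IsCoprime b B) with hg0
  have hper : Per B k j g0 := by
    intro b hb y hy hBy
    have h2 := hg b hb y hy hBy
    obtain ⟨t, rfl⟩ := hBy
    simp only [hg0]
    rw [h2, ind_congr (IsCoprime.add_mul_left_left_iff (x := b) (y := B) (z := t))]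
  have hbd : ∀ b ∈ M F j, |g0 b| ≤ 1 := by
    intro b hb
    have h2 := abs_le.1 (h1 b hb)
    have h3 := abs_le.1 hc1
    simp only [hg0]
    by_cases hcb : IsCoprime b B
    · rw [ind_pos hcb, abs_le]; constructor <;> linarith [h2.1, h2.2, h3.1, h3.2]
    · rw [ind_neg hcb]; simp
  have hmean : 𝔼 b ∈ M F j, g0 b = 0 := by
    simp only [hg0]
    rw [expect_sub_distrib, ← mul_expect, ← mul_expect, hc]; ring
  have hZ : ∀ d i, d + i = j → e + k ≤ i → ∀ c' ∈ M F d, 𝔼 a ∈ M F i, g0 (c' * a) = 0 := by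
    intro d i hdi hi c' hc'
    subst hdi
    by_cases hcop : IsCoprime c' B
    · rw [← equi_M hB hc' hcop (by omega) g0 hper]; exact hmean
    · refine expect_eq_zero fun a _ => ?_
      simp only [hg0]
      rw [ind_neg fun h => hcop h.of_mul_left_left]; ring
  have hamp := amp hB he (2 * R) j hj g0 hper hbd hZ
  have hsq : √(Q F) ^ (2 * R) = Q F ^ R := by rw [pow_mul, Real.sq_sqrt hq.le]
  rw [div_pow, hsq] at hamp
  have hpr := major_princ hB he hR hm
  have hsplit : 𝔼 b ∈ M F j, ind (IsCoprime b B) * mu b * g b =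
      2 * (𝔼 b ∈ M F j, mu b * g0 b) + c * 𝔼 b ∈ M F j, ind (IsCoprime b B) * mu b := by
    rw [mul_expect, mul_expect, ← expect_add_distrib]
    refine expect_congr rfl fun b _ => ?_
    simp only [hg0]; ring
  rw [hsplit, add_div, mul_div_assoc]
  refine (abs_add_le _ _).trans (add_le_add ?_ ?_)
  · rw [abs_mul, abs_two]; linarith
  · rw [abs_mul]
    exact (mul_le_of_le_one_left (abs_nonneg _) hc1).trans hpr

omit [Field F] [Fintype F] [DecidableEq F] in
/-- major arcs for the Moebius function -/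
theorem major (e k R : ℕ) : ∃ m₀ : ℕ, ∀ m, m₀ ≤ m → ∃ A : ℝ, 0 ≤ A ∧
    ∀ (F : Type) [Field F] [Fintype F] [DecidableEq F] (B : F[X]), B ≠ 0 → B.natDegree ≤ e →
      ∀ g : F[X] → ℝ, Per B k m g → (∀ b ∈ M F m, |g b| ≤ 1) →
        |𝔼 b ∈ M F m, mu b * g b| ≤ A / Q F ^ R := by
  refine ⟨2 * e + R + 1 + 2 * R * (3 * e + 3 * k + 2), fun m hm => ?_⟩
  refine ⟨2 ^ e * (2 * (((e : ℝ) + k) ^ 2 * (2 * e + 2 * k + 3)) ^ (2 * R) + ((m : ℝ) + 1) ^ e),
    by positivity, ?_⟩
  intro F _ _ _ B hB he g hg h1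
  have hq : (0 : ℝ) < Q F := Q_pos
  have hτ : 0 ≤ (2 * (((e : ℝ) + k) ^ 2 * (2 * e + 2 * k + 3)) ^ (2 * R) + ((m : ℝ) + 1) ^ e) /
      Q F ^ R := by positivity
  have h := uncop hB k (m - e) m _ hτ
    (fun j hj0 hj1 g' hg' h1' => major_cop hB he (by omega) hj1 (by omega) g' hg' h1')
    m (by omega) le_rfl g hg h1
  refine h.trans ?_
  rw [mul_div_assoc]
  exact mul_le_mul_of_nonneg_right (pow_le_pow_right₀ one_le_two he) hτ

end Pool.Agent.VDW
end

-- part Pool.Agent.P.MP_b0ea37_nt.Unif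
section

namespace Pool.Agent.VDW

open Polynomial Finset
open scoped BigOperators

variable {F : Type} [Field F] [Fintype F] [DecidableEq F]

/-- the functional with coefficient vector `c` -/
noncomputable def fourXi {n : ℕ} (c : Fin n → F) : F[X] →ₗ[F] F :=
  ∑ i : Fin n, c i • lcoeff F (i : ℕ)

omit [Fintype F] [DecidableEq F] in
lemma four_xi_add {n : ℕ} (c c' : Fin n → F) (v : F[X]) :
    fourXi (c + c') v = fourXi c v + fourXi c' v := by
  simp [fourXi, LinearMap.sum_apply, add_mul, sum_add_distrib]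

omit [Fintype F] [DecidableEq F] in
lemma four_xi_single {n : ℕ} (i : Fin n) (x : F) (v : F[X]) :
    fourXi (Pi.single i x : Fin n → F) v = x * v.coeff i := by
  simp only [fourXi, LinearMap.sum_apply, LinearMap.smul_apply, lcoeff_apply, smul_eq_mul]
  rw [Finset.sum_eq_single i]
  · simp
  · intro j _ hj
    simp [Pi.single_eq_of_ne hj]
  · simp

lemma four_orth {ψ : AddChar F ℂ} (hψ : ψ ≠ 1) {n : ℕ} {v : F[X]} (hv : v ∈ V F n) (h0 : v ≠ 0) :
    𝔼 c : Fin n → F, ψ (fourXi c v) = 0 := by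
  obtain ⟨x, hx⟩ := AddChar.ne_one_iff.1 hψ
  have hd : v.natDegree < n := by
    rcases mem_V_iff.1 hv with h | h
    · exact absurd h h0
    · exact h
  have hc : v.coeff v.natDegree ≠ 0 := leadingCoeff_ne_zero.2 h0
  have h1 : 𝔼 c : Fin n → F, ψ (fourXi (c + Pi.single ⟨_, hd⟩ (x / v.coeff v.natDegree)) v) =
      𝔼 c : Fin n → F, ψ (fourXi c v) :=
    Fintype.expect_equiv (Equiv.addRight _) _ _ fun _ => rfl
  simp only [four_xi_add, four_xi_single, div_mul_cancel₀ x hc, AddChar.map_add_eq_mul] at h1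
  rw [← expect_mul] at h1
  by_contra hne
  exact hx (mul_left_cancel₀ hne (h1.trans (mul_one _).symm))

lemma four_parseval {ψ : AddChar F ℂ} {n : ℕ} (ξ : (Fin n → F) → F[X] →ₗ[F] F)
    (hξ : ∀ v ∈ V F n, v ≠ 0 → 𝔼 c : Fin n → F, ψ (ξ c v) = 0)
    (S : Finset F[X]) (hS : ∀ a ∈ S, ∀ b ∈ S, a - b ∈ V F n) (u : F[X] → ℂ) :
    𝔼 c : Fin n → F, ‖𝔼 w ∈ S, u w * ψ (ξ c w)‖ ^ 2 = (𝔼 w ∈ S, ‖u w‖ ^ 2) / S.card := by
  apply Complex.ofReal_injective
  rw [ofReal_expect]
  simp only [norm_sq_expect]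
  have e1 : ∀ (c : Fin n → F) (w w' : F[X]),
      u w * ψ (ξ c w) * (starRingEnd ℂ) (u w' * ψ (ξ c w')) =
        u w * (starRingEnd ℂ) (u w') * ψ (ξ c (w - w')) := by
    intro c w w'
    rw [map_mul, conj_psi, map_sub, sub_eq_add_neg, AddChar.map_add_eq_mul]
    ring
  simp only [e1]
  rw [expect_comm]
  push_cast
  rw [expect_div]
  refine expect_congr rfl fun w hw => ?_
  rw [expect_comm]
  have e2 : ∀ w' ∈ S, 𝔼 c : Fin n → F, u w * (starRingEnd ℂ) (u w') * ψ (ξ c (w - w')) =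
      if w' = w then u w * (starRingEnd ℂ) (u w) else 0 := by
    intro w' hw'
    rw [← mul_expect]
    split_ifs with h
    · subst h
      simp
    · rw [hξ _ (hS w hw w' hw') (sub_ne_zero.2 (Ne.symm h)), mul_zero]
  rw [expect_congr rfl e2, expect_eq_sum_div_card, sum_ite_eq' S w, if_pos hw, Complex.mul_conj,
    Complex.normSq_eq_norm_sq]
  push_cast
  rfl

/-- Parseval bound for a correlation -/
theorem cor {ψ : AddChar F ℂ} (hψ : ψ ≠ 1) (n : ℕ) (g₁ g₂ : F[X] → ℂ) (ε : ℝ)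
    (h : ∀ L : F[X] →ₗ[F] F, ‖𝔼 f ∈ M F n, g₂ f * ψ (L f)‖ ≤ ε) :
    𝔼 w ∈ V F n, ‖𝔼 f ∈ M F n, g₁ f * g₂ (f + w)‖ ^ 2 ≤ ε ^ 2 * 𝔼 f ∈ M F n, ‖g₁ f‖ ^ 2 := by
  have p1 := four_parseval (ψ := ψ) (n := n) fourXi (fun v hv h0 => four_orth hψ hv h0) (V F n)
    (fun a ha b hb => V_sub ha hb) (fun w => 𝔼 f ∈ M F n, g₁ f * g₂ (f + w))
  have p2 := four_parseval (ψ := ψ) (n := n) (fun c => -fourXi c)
    (fun v hv h0 => by
      have := four_orth hψ (V_neg hv) (neg_ne_zero.2 h0)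
      simpa only [map_neg, LinearMap.neg_apply] using this) (M F n)
    (fun a ha b hb => M_sub_M ha hb) g₁
  have key : ∀ c : Fin n → F,
      𝔼 w ∈ V F n, (𝔼 f ∈ M F n, g₁ f * g₂ (f + w)) * ψ (fourXi c w) =
        (𝔼 f ∈ M F n, g₁ f * ψ ((-fourXi c) f)) * 𝔼 g ∈ M F n, g₂ g * ψ (fourXi c g) := by
    intro c
    simp only [expect_mul]
    rw [expect_comm]
    refine expect_congr rfl fun f hf => ?_
    rw [expect_M_base hf, mul_expect]
    refine expect_congr rfl fun w _ => ?_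
    have : ψ ((-fourXi c) f) * ψ (fourXi c (f + w)) = ψ (fourXi c w) := by
      rw [← AddChar.map_add_eq_mul, (fourXi c).map_add, LinearMap.neg_apply, neg_add_cancel_left]
    rw [← this]
    ring
  simp only [key] at p1
  have hq : (0 : ℝ) < Q F ^ n := pow_pos Q_pos n
  rw [card_V_real] at p1
  rw [card_M_real] at p2
  have hle : 𝔼 c : Fin n → F, ‖(𝔼 f ∈ M F n, g₁ f * ψ ((-fourXi c) f)) *
      𝔼 g ∈ M F n, g₂ g * ψ (fourXi c g)‖ ^ 2 ≤
      ε ^ 2 * 𝔼 c : Fin n → F, ‖𝔼 f ∈ M F n, g₁ f * ψ ((-fourXi c) f)‖ ^ 2 := by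
    rw [mul_expect]
    refine expect_le_expect fun c _ => ?_
    rw [norm_mul, mul_pow, mul_comm]
    gcongr
    exact h _
  rw [p1, p2, ← mul_div_assoc] at hle
  exact (div_le_div_iff_of_pos_right hq).1 hle

end Pool.Agent.VDW

namespace Pool.Agent.VDW

open Polynomial Finset
open scoped BigOperators

variable {F : Type} [Field F] [Fintype F] [DecidableEq F]

lemma hankel_count {L : F[X] →ₗ[F] F} {ρ D s E j : ℕ} {B : F[X]}
    (h : 1 / Q F ^ ρ ≤ 𝔼 w ∈ V F D, ind (Kills L w s)) (hB : ∀ g ∈ V F E, B * g ∈ V F D)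
    (hj : ∀ g ∈ V F E, Kills L (B * g) s → g ∈ V F j) : E ≤ j + ρ := by
  classical
  have hq := two_le_Q (F := F)
  have hm : (X ^ j : F[X]).Monic := monic_X_pow j
  have hc : (V F E ×ˢ (V F D).filter fun w => Kills L w s).card ≤ (V F D ×ˢ V F j).card := by
    refine card_le_card_of_injOn (fun p => (B * p.1 + p.2, p.1 %ₘ X ^ j)) ?_ ?_
    · rintro ⟨g, w⟩ hp
      simp only [coe_product, Set.mem_prod, mem_coe, mem_filter] at hp ⊢
      exact ⟨V_add (hB g hp.1) hp.2.1, mem_V.2 (by simpa using degree_modByMonic_lt g hm)⟩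
    · rintro ⟨g, w⟩ hp ⟨g', w'⟩ hp' e
      simp only [coe_product, Set.mem_prod, mem_coe, mem_filter, Prod.mk.injEq] at hp hp' e ⊢
      have h1 : B * (g - g') = w' - w := by linear_combination e.1
      have h2 : g - g' ∈ V F j := hj _ (V_sub hp.1 hp'.1) fun u hu => by
        rw [h1, sub_mul, map_sub, hp.2.2 u hu, hp'.2.2 u hu, sub_zero]
      have h3 : (g - g') %ₘ X ^ j = g - g' :=
        (modByMonic_eq_self_iff hm).2 (by simpa using mem_V.1 h2)
      rw [sub_modByMonic, e.2, sub_self] at h3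
      rw [← h3, mul_zero] at h1
      exact ⟨sub_eq_zero.1 h3.symm, (sub_eq_zero.1 h1.symm).symm⟩
  rw [expect_ind, card_V_real, div_le_div_iff₀ (by positivity) (by positivity), one_mul] at h
  rw [card_product, card_product, ← Nat.cast_le (α := ℝ)] at hc
  push_cast at hc
  rw [card_V_real, card_V_real, card_V_real] at hc
  have h1 : Q F ^ E * Q F ^ D ≤ Q F ^ (j + ρ) * Q F ^ D :=
    calc _ ≤ Q F ^ E * (_ * Q F ^ ρ) := by gcongr
      _ = Q F ^ E * _ * Q F ^ ρ := (mul_assoc _ _ _).symm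
      _ ≤ Q F ^ D * Q F ^ j * Q F ^ ρ := by gcongr
      _ = _ := by ring
  exact (pow_le_pow_iff_right₀ (by linarith)).1 (le_of_mul_le_mul_right h1 (by positivity))

lemma hankel_top {L : F[X] →ₗ[F] F} {B g : F[X]} {k : ℕ} (h : Kills L B k) (hg : g ∈ V F (k + 1)) :
    L (B * g) = g.coeff k * L (B * X ^ k) := by
  have h1 : g - g.coeff k • X ^ k ∈ V F k := by
    rw [mem_V, degree_lt_iff_coeff_zero]
    intro m hm
    rcases eq_or_lt_of_le hm with rfl | hm
    · simp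
    · have := natDegree_le_of_mem_V hg
      simp [coeff_eq_zero_of_natDegree_lt (this.trans_lt hm), coeff_X_pow, hm.ne']
  have := h _ h1
  rwa [mul_sub, map_sub, mul_smul_comm, map_smul, smul_eq_mul, sub_eq_zero] at this

theorem hankel (L : F[X] →ₗ[F] F) (ρ D s : ℕ) (hD : ρ < D) (hs : ρ < s)
    (h : 1 / Q F ^ ρ ≤ 𝔼 w ∈ V F D, ind (Kills L w s)) :
    ∃ B : F[X], B ≠ 0 ∧ B.natDegree ≤ ρ ∧ ∀ k, k + 2 * ρ + 1 ≤ D + s → Kills L B k := by
  obtain ⟨B, hB, hK, h0⟩ : ∃ B ∈ V F (ρ + 1), Kills L B s ∧ B ≠ 0 := by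
    by_contra hn
    push Not at hn
    have := hankel_count (B := 1) (E := ρ + 1) (j := 0) h
      (fun g hg => by rw [one_mul]; exact V_mono hD hg)
      fun g hg hk => by rw [hn g hg (by rwa [one_mul] at hk)]; exact zero_mem_V 0
    omega
  have hd := natDegree_le_of_mem_V hB
  refine ⟨B, h0, hd, fun k => ?_⟩
  induction k with
  | zero => exact fun _ => hK.mono s.zero_le
  | succ k ih =>
    intro hk
    rcases lt_or_ge k s with h1 | h1
    · exact hK.mono h1
    have ih := ih (by omega)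
    by_cases hL : L (B * X ^ k) = 0
    · intro g hg; rw [hankel_top ih hg, hL, mul_zero]
    have := hankel_count (B := B) (E := min (k + 1) (D - ρ)) (j := k - s + 1) h
      (fun g hg => V_mono (by omega) (mul_mem_V hd hg)) fun g hg hk => by
        by_contra hn
        rw [mem_V_iff, not_or] at hn
        have h2 : g.natDegree ≤ k := natDegree_le_of_mem_V (V_mono (min_le_left _ _) hg)
        have h3 := hk _ (X_pow_mem_V (i := k - g.natDegree) (by omega))
        have h4 : (g * X ^ (k - g.natDegree)).coeff k = g.leadingCoeff := by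
          have := coeff_mul_X_pow g (k - g.natDegree) g.natDegree
          rwa [Nat.add_sub_cancel' h2] at this
        rw [mul_assoc, hankel_top ih (mem_V_of_natDegree_le (natDegree_mul_le.trans
          (by rw [natDegree_X_pow]; omega))), h4] at h3
        exact mul_ne_zero (leadingCoeff_ne_zero.2 hn.1) hL h3
    omega

end Pool.Agent.VDW

namespace Pool.Agent.VDW

open Polynomial Finset
open scoped BigOperators

variable {F : Type} [Field F] [Fintype F] [DecidableEq F]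

theorem dioph (L : F[X] →ₗ[F] F) (ρ D s : ℕ) (hD : 3 * ρ + 2 ≤ D) (hs : ρ < s)
    (h : 2 / Q F ^ ρ ≤ 𝔼 u ∈ V F D, 𝔼 w ∈ V F D, ind (Kills L (u * w) s)) :
    ∃ B : F[X], B ≠ 0 ∧ B.natDegree ≤ 3 * ρ + 1 ∧
      ∀ k, k + 6 * ρ + 4 ≤ 2 * D + s → Kills L B k := by
  have hq : (0 : ℝ) < Q F := Q_pos
  have hqρ : (0 : ℝ) < Q F ^ ρ := pow_pos hq ρ
  have h1 := popular (V F D) (fun u => 𝔼 w ∈ V F D, ind (Kills L (u * w) s)) (2 / Q F ^ ρ)
    (fun u _ => expect_ind_le_one _ _) (by positivity) h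
  have e1 : 2 / Q F ^ ρ / 2 = 1 / Q F ^ ρ := by ring
  rw [e1] at h1
  obtain ⟨k1, hk1⟩ : ∃ k1, k1 + 2 * ρ + 1 = D + s := ⟨D + s - (2 * ρ + 1), by omega⟩
  have h2 : 1 / Q F ^ ρ ≤
      𝔼 u ∈ V F D, ind (∃ c ∈ (V F (ρ + 1)).erase 0, Kills L (c * u) k1) := by
    refine h1.trans (expect_le_expect fun u _ => ind_mono fun hu => ?_)
    have hu' : 1 / Q F ^ ρ ≤ 𝔼 w ∈ V F D, ind (Kills (L ∘ₗ LinearMap.mulLeft F u) w s) := by
      simpa only [kills_comp] using hu
    obtain ⟨B, hB0, hBd, hB⟩ := hankel _ ρ D s (by omega) hs hu'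
    refine ⟨B, mem_erase.2 ⟨hB0, mem_V_of_natDegree_le hBd⟩, ?_⟩
    rw [mul_comm]
    exact kills_comp.1 (hB k1 hk1.le)
  have hc : (((V F (ρ + 1)).erase 0).card : ℝ) ≤ Q F ^ (ρ + 1) := by
    rw [← card_V_real]
    exact_mod_cast card_erase_le
  obtain ⟨B1, hB1, h3⟩ := pigeon (V F D) ((V F (ρ + 1)).erase 0)
    (fun c u => Kills L (c * u) k1) _ _ (by positivity) hc h2
  have e2 : 1 / Q F ^ ρ / Q F ^ (ρ + 1) = 1 / Q F ^ (2 * ρ + 1) := by
    rw [div_div, ← pow_add]; congr 2; ring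
  rw [e2] at h3
  have h4 : 1 / Q F ^ (2 * ρ + 1) ≤
      𝔼 w ∈ V F D, ind (Kills (L ∘ₗ LinearMap.mulLeft F B1) w k1) := by
    simpa only [kills_comp] using h3
  obtain ⟨B2, hB20, hB2d, hB2⟩ := hankel _ (2 * ρ + 1) D k1 (by omega) (by omega) h4
  obtain ⟨hB10, hB1V⟩ := mem_erase.1 hB1
  have hB1d := natDegree_le_of_mem_V hB1V
  refine ⟨B1 * B2, mul_ne_zero hB10 hB20, natDegree_mul_le.trans (by omega), fun k hk => ?_⟩
  exact kills_comp.1 (hB2 k (by omega))

lemma dioph_step (Δ : F[X] →ₗ[F] F) (m : ℕ) (h : ∀ v ∈ V F m, Δ v = 0) (w : F[X])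
    (hw : w ∈ V F (m + 1)) (hwc : w.coeff m ≠ 0) (hw0 : Δ w = 0) :
    ∀ v ∈ V F (m + 1), Δ v = 0 := by
  intro v hv
  have hu : v - (v.coeff m / w.coeff m) • w ∈ V F m := by
    rw [mem_V, degree_lt_iff_coeff_zero]
    intro j hj
    rcases hj.eq_or_lt with rfl | hlt
    · rw [coeff_sub, coeff_smul, smul_eq_mul, div_mul_cancel₀ _ hwc, sub_self]
    · have a1 : v.coeff j = 0 :=
        coeff_eq_zero_of_natDegree_lt ((natDegree_le_of_mem_V hv).trans_lt hlt)
      have a2 : w.coeff j = 0 :=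
        coeff_eq_zero_of_natDegree_lt ((natDegree_le_of_mem_V hw).trans_lt hlt)
      rw [coeff_sub, coeff_smul, a1, a2, smul_zero, sub_self]
  have := h _ hu
  rwa [map_sub, map_smul, hw0, smul_zero, sub_zero] at this

lemma dioph_unique (n k : ℕ) (Δ : F[X] →ₗ[F] F) (B : F[X]) (hB0 : B ≠ 0)
    (hk : k + B.natDegree ≤ n) (hK : Kills Δ B k)
    (hX : ∀ i : Fin (n - k),
      Δ (X ^ (if (i : ℕ) < B.natDegree then (i : ℕ) else (i : ℕ) + k)) = 0) :
    ∀ v ∈ V F n, Δ v = 0 := by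
  have key : ∀ m, m ≤ n → ∀ v ∈ V F m, Δ v = 0 := by
    intro m
    induction m with
    | zero =>
      intro _ v hv
      rcases mem_V_iff.1 hv with rfl | h1
      · exact map_zero _
      · omega
    | succ m ih =>
      intro hm
      have ih' := ih (by omega)
      by_cases c1 : m < B.natDegree
      · refine dioph_step Δ m ih' (X ^ m) (X_pow_mem_V (by omega)) (by simp) ?_
        have := hX ⟨m, by omega⟩
        simpa only [if_pos c1] using this
      · by_cases c2 : B.natDegree + k ≤ m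
        · refine dioph_step Δ m ih' (X ^ m) (X_pow_mem_V (by omega)) (by simp) ?_
          have := hX ⟨m - k, by omega⟩
          have c3 : ¬ (m - k < B.natDegree) := by omega
          have c4 : m - k + k = m := by omega
          simpa only [if_neg c3, c4] using this
        · obtain ⟨t, rfl⟩ : ∃ t, m = B.natDegree + t := ⟨m - B.natDegree, by omega⟩
          refine dioph_step Δ _ ih' (B * X ^ t) ?_ ?_ (hK _ (X_pow_mem_V (by omega)))
          · exact mul_mem_V (k := B.natDegree) (j := t + 1) le_rfl (X_pow_mem_V (Nat.lt_succ_self t))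
          · rw [coeff_mul_X_pow]
            exact leadingCoeff_ne_zero.2 hB0
  exact key n le_rfl

theorem few (n r k : ℕ) (hk : k + r ≤ n) :
    ∃ S : Finset (F[X] →ₗ[F] F), (S.card : ℝ) ≤ Q F ^ (r + 1 + (n - k)) ∧
      ∀ (L : F[X] →ₗ[F] F) (B : F[X]), B ≠ 0 → B.natDegree ≤ r → Kills L B k →
        ∃ L' ∈ S, ∀ v ∈ V F n, L v = L' v := by
  classical
  let P : F[X] × (Fin (n - k) → F) → (F[X] →ₗ[F] F) → Prop := fun x L0 =>
    Kills L0 x.1 k ∧ ∀ i : Fin (n - k),
      L0 (X ^ (if (i : ℕ) < x.1.natDegree then (i : ℕ) else (i : ℕ) + k)) = x.2 i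
  let g : F[X] × (Fin (n - k) → F) → (F[X] →ₗ[F] F) := fun x =>
    if h : ∃ L0, P x L0 then h.choose else 0
  refine ⟨(V F (r + 1) ×ˢ (univ : Finset (Fin (n - k) → F))).image g, ?_, ?_⟩
  · have h1 : ((V F (r + 1) ×ˢ (univ : Finset (Fin (n - k) → F))).image g).card ≤
        Fintype.card F ^ (r + 1 + (n - k)) := by
      refine card_image_le.trans ?_
      rw [card_product, card_V, card_univ, Fintype.card_fun, Fintype.card_fin, ← pow_add]
    exact_mod_cast h1
  · intro L B hB0 hBd hK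
    let x : F[X] × (Fin (n - k) → F) :=
      (B, fun i => L (X ^ (if (i : ℕ) < B.natDegree then (i : ℕ) else (i : ℕ) + k)))
    have hx : ∃ L0, P x L0 := ⟨L, hK, fun _ => rfl⟩
    have hg : P x (g x) := by
      simp only [g, dif_pos hx]
      exact hx.choose_spec
    refine ⟨g x, mem_image_of_mem g (mem_product.2 ⟨mem_V_of_natDegree_le hBd, mem_univ _⟩), ?_⟩
    have := dioph_unique n k (L - g x) B hB0 (by omega)
      (fun v hv => by rw [LinearMap.sub_apply, hK v hv, hg.1 v hv, sub_self])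
      (fun i => by rw [LinearMap.sub_apply, hg.2 i, sub_self])
    intro v hv
    exact sub_eq_zero.1 (this v hv)

end Pool.Agent.VDW

namespace Pool.Agent.VDW

open Polynomial Finset
open scoped BigOperators

variable {F : Type} [Field F] [Fintype F] [DecidableEq F]

lemma div_card_divisors (w : F[X]) : w ≠ 0 → ∀ S : Finset F[X], (∀ y ∈ S, y ∣ w) →
    S.card ≤ Fintype.card F * 2 ^ w.natDegree := by
  classical
  induction w using UniqueFactorizationMonoid.induction_on_prime with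
  | h₁ => intro h; exact absurd rfl h
  | h₂ u hu =>
    intro _ S hS
    have h1 : S ⊆ univ.image (fun c : F => (C c : F[X])) := by
      intro y hy
      have hyu : IsUnit y := isUnit_of_dvd_unit (hS y hy) hu
      exact mem_image.2 ⟨y.coeff 0, mem_univ _,
        (eq_C_of_natDegree_eq_zero (natDegree_eq_zero_of_isUnit hyu)).symm⟩
    calc S.card ≤ _ := card_le_card h1
      _ ≤ Fintype.card F := card_image_le.trans (by rw [card_univ])
      _ ≤ _ := Nat.le_mul_of_pos_right _ (by positivity)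
  | h₃ b p hb hp ih =>
    intro _ S hS
    have h1 := ih hb (S.filter (fun y => y ∣ b)) (fun y hy => (mem_filter.1 hy).2)
    have hdiv : ∀ y ∈ S.filter (fun y => ¬ y ∣ b), p * (y / p) = y := by
      intro y hy
      obtain ⟨hy1, hy2⟩ := mem_filter.1 hy
      have hpy : p ∣ y := by
        by_contra hn
        have hc : IsCoprime y p := (hp.irreducible.coprime_iff_not_dvd.2 hn).symm
        exact hy2 (hc.dvd_of_dvd_mul_left (hS y hy1))
      exact EuclideanDomain.mul_div_cancel' hp.ne_zero hpy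
    have h2 := ih hb ((S.filter (fun y => ¬ y ∣ b)).image (fun y => y / p)) (by
      intro z hz
      obtain ⟨y, hy, rfl⟩ := mem_image.1 hz
      have h3 := hS y (mem_filter.1 hy).1
      rw [← hdiv y hy] at h3
      exact (mul_dvd_mul_iff_left hp.ne_zero).1 h3)
    rw [card_image_of_injOn (by
      intro y hy z hz hyz
      have hyz' : y / p = z / p := hyz
      rw [← hdiv y hy, ← hdiv z hz, hyz'])] at h2
    have h3 := card_filter_add_card_filter_not (s := S) (fun y => y ∣ b)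
    have h4 : b.natDegree + 1 ≤ (p * b).natDegree := by
      rw [natDegree_mul hp.ne_zero hb]
      have := hp.irreducible.natDegree_pos
      omega
    calc S.card ≤ Fintype.card F * 2 ^ (b.natDegree + 1) := by rw [pow_succ, ← mul_assoc]; omega
      _ ≤ _ := Nat.mul_le_mul_left _ (Nat.pow_le_pow_right (by norm_num) h4)

lemma div_ind_zero (l : ℕ) : 𝔼 x ∈ V F l, ind (x = 0) = 1 / Q F ^ l := by
  classical
  rw [expect_ind, card_V_real, filter_eq', if_pos (zero_mem_V l)]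
  simp

lemma div_pairs (l m : ℕ) {w : F[X]} (hw : w ∈ V F (l + m)) (hw0 : w ≠ 0) :
    𝔼 x ∈ V F l, 𝔼 y ∈ V F m, ind (x * y = w) ≤ Q F * 2 ^ (l + m) / Q F ^ (l + m) := by
  classical
  rw [← expect_product', expect_ind, card_product]
  push_cast
  rw [card_V_real, card_V_real, ← pow_add]
  have hQ := Q_pos (F := F)
  gcongr
  set S := (V F l ×ˢ V F m).filter (fun p => p.1 * p.2 = w) with hS
  have h1 := div_card_divisors w hw0 (S.image Prod.snd) (by
    intro y hy
    obtain ⟨p, hp, rfl⟩ := mem_image.1 hy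
    exact Dvd.intro_left _ (mem_filter.1 hp).2)
  rw [card_image_of_injOn (by
    intro p hp p' hp' h
    have e1 := (mem_filter.1 hp).2
    have e2 := (mem_filter.1 hp').2
    have hne : p.2 ≠ 0 := fun h0 => hw0 (by rw [← e1, h0, mul_zero])
    refine Prod.ext ?_ h
    rw [← h] at e2
    exact mul_right_cancel₀ hne (e1.trans e2.symm))] at h1
  have h2 : w.natDegree ≤ l + m := by
    rcases mem_V_iff.1 hw with h | h
    · exact absurd h hw0
    · exact h.le
  have h3 : S.card ≤ Fintype.card F * 2 ^ (l + m) :=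
    h1.trans (Nat.mul_le_mul_left _ (Nat.pow_le_pow_right (by norm_num) h2))
  exact_mod_cast h3

/-- products `x y` are spread out: divisor bound -/
theorem div_bound (l m : ℕ) (hml : m ≤ l) (G : F[X] → ℝ) (K : ℝ)
    (h0 : ∀ w ∈ V F (l + m), 0 ≤ G w) (hK : ∀ w ∈ V F (l + m), G w ≤ K)
    (h : F[X]) (hh : h ∈ V F (l + m)) :
    𝔼 x ∈ V F l, 𝔼 y ∈ V F m, G (h - x * y) ≤
      2 * K / Q F ^ m + Q F * 2 ^ (l + m) * 𝔼 w ∈ V F (l + m), G w := by
  classical
  have hK0 : 0 ≤ K := (h0 0 (zero_mem_V _)).trans (hK 0 (zero_mem_V _))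
  have hQ := Q_pos (F := F)
  have hpt : ∀ x ∈ V F l, ∀ y ∈ V F m, G (h - x * y) ≤ K * ind (x = 0) + K * ind (y = 0) +
      ∑ w ∈ (V F (l + m)).erase 0, ind (x * y = w) * G (h - w) := by
    intro x hx y hy
    have hxy := V_mul_V hx hy
    have hs : 0 ≤ ∑ w ∈ (V F (l + m)).erase 0, ind (x * y = w) * G (h - w) :=
      sum_nonneg fun w hw => mul_nonneg (ind_nonneg _) (h0 _ (V_sub hh (mem_of_mem_erase hw)))
    have a1 := mul_nonneg hK0 (ind_nonneg (x = 0))
    have a2 := mul_nonneg hK0 (ind_nonneg (y = 0))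
    have a3 := hK _ (V_sub hh hxy)
    by_cases hx0 : x = 0
    · rw [ind_pos hx0]; linarith
    by_cases hy0 : y = 0
    · rw [ind_pos hy0]; linarith
    have h1 : ind (x * y = x * y) * G (h - x * y) ≤
        ∑ w ∈ (V F (l + m)).erase 0, ind (x * y = w) * G (h - w) :=
      single_le_sum (f := fun w => ind (x * y = w) * G (h - w))
        (fun w hw => mul_nonneg (ind_nonneg _) (h0 _ (V_sub hh (mem_of_mem_erase hw))))
        (mem_erase.2 ⟨mul_ne_zero hx0 hy0, hxy⟩)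
    rw [ind_pos rfl, one_mul] at h1
    linarith
  refine (expect_le_expect fun x hx => expect_le_expect fun y hy => hpt x hx y hy).trans ?_
  simp only [expect_add_distrib, expect_const (V_nonempty _), ← mul_expect, div_ind_zero,
    expect_sum_comm, ← expect_mul]
  have b1 : K * (1 / Q F ^ l) ≤ K * (1 / Q F ^ m) := by
    gcongr
    exact one_le_Q
  have b2 : ∑ w ∈ (V F (l + m)).erase 0, (𝔼 x ∈ V F l, 𝔼 y ∈ V F m, ind (x * y = w)) * G (h - w) ≤
      ∑ w ∈ V F (l + m), Q F * 2 ^ (l + m) / Q F ^ (l + m) * G (h - w) := by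
    refine (sum_le_sum fun w hw => mul_le_mul_of_nonneg_right
      (div_pairs l m (mem_of_mem_erase hw) (ne_of_mem_erase hw))
      (h0 _ (V_sub hh (mem_of_mem_erase hw)))).trans ?_
    exact sum_le_sum_of_subset_of_nonneg (erase_subset _ _) fun w hw _ =>
      mul_nonneg (by positivity) (h0 _ (V_sub hh hw))
  have b3 : ∑ w ∈ V F (l + m), Q F * 2 ^ (l + m) / Q F ^ (l + m) * G (h - w) =
      Q F * 2 ^ (l + m) * 𝔼 w ∈ V F (l + m), G w := by
    rw [← expect_V_sub' hh G, expect_eq_sum_div_card, card_V_real, ← mul_sum]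
    ring
  have b4 : 2 * K / Q F ^ m = K * (1 / Q F ^ m) + K * (1 / Q F ^ m) := by ring
  linarith

end Pool.Agent.VDW

namespace Pool.Agent.VDW

open Polynomial Finset
open scoped BigOperators

variable {F : Type} [Field F] [Fintype F] [DecidableEq F]

lemma u3a_cs2 {ι κ : Type*} (s : Finset ι) (t : Finset κ) (f g : ι → κ → ℂ) (K : ℝ)
    (hf : ∀ i ∈ s, ∀ j ∈ t, ‖f i j‖ ≤ K) :
    ‖𝔼 i ∈ s, 𝔼 j ∈ t, f i j * g i j‖ ^ 2 ≤ K ^ 2 * 𝔼 i ∈ s, 𝔼 j ∈ t, ‖g i j‖ ^ 2 := by
  have h := cs_bdd (s ×ˢ t) (fun p => f p.1 p.2) (fun p => g p.1 p.2) K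
    (fun p hp => hf _ (mem_product.1 hp).1 _ (mem_product.1 hp).2)
  rwa [expect_product' s t (fun i j => f i j * g i j),
    expect_product' s t (fun i j => ‖g i j‖ ^ 2)] at h

/-- orthogonality in the variable `a` -/
lemma u3a_orth {ψ : AddChar F ℂ} (hψ : ψ ≠ 1) {P : Type*} (S : Finset P) (l : ℕ) (u : P → ℂ)
    (B : P → Prop) (hu : ∀ p ∈ S, ‖u p‖ ≤ ind (B p)) (D : P → (F[X] →ₗ[F] F)) :
    𝔼 a ∈ M F l, ‖𝔼 p ∈ S, u p * ψ (D p a)‖ ^ 2 ≤
      𝔼 p' ∈ S, 𝔼 p ∈ S, ind (B p ∧ ∀ a ∈ V F l, D p a = D p' a) := by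
  have h1 : ((𝔼 a ∈ M F l, ‖𝔼 p ∈ S, u p * ψ (D p a)‖ ^ 2 : ℝ) : ℂ) =
      𝔼 p' ∈ S, 𝔼 p ∈ S, u p * (starRingEnd ℂ) (u p') * 𝔼 a ∈ M F l, ψ ((D p - D p') a) := by
    rw [ofReal_expect]
    simp only [norm_sq_expect]
    rw [expect_comm (s := S) (t := S), expect_comm (s := M F l)]
    refine expect_congr rfl fun p _ => ?_
    rw [expect_comm (s := M F l)]
    refine expect_congr rfl fun p' _ => ?_
    rw [mul_expect]
    refine expect_congr rfl fun a _ => ?_
    rw [map_mul, conj_psi, LinearMap.sub_apply, sub_eq_add_neg, AddChar.map_add_eq_mul]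
    ring
  have h0 : 0 ≤ 𝔼 a ∈ M F l, ‖𝔼 p ∈ S, u p * ψ (D p a)‖ ^ 2 :=
    expect_nonneg fun _ _ => sq_nonneg _
  rw [← abs_of_nonneg h0, ← Real.norm_eq_abs, ← Complex.norm_real, h1]
  refine (norm_expect_le _ _).trans (expect_le_expect fun p' hp' => ?_)
  refine (norm_expect_le _ _).trans (expect_le_expect fun p hp => ?_)
  rw [norm_mul, norm_mul, Complex.norm_conj, ind_and]
  have h2 := norm_orth_M hψ (D p - D p') l
  have h3 : ind (∀ g ∈ V F l, (D p - D p') g = 0) = ind (∀ a ∈ V F l, D p a = D p' a) :=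
    ind_congr (by simp only [LinearMap.sub_apply, sub_eq_zero])
  rw [h3] at h2
  have h4 : ‖u p'‖ ≤ 1 := (hu p' hp').trans (ind_le_one _)
  have h5 : ‖u p‖ * ‖u p'‖ ≤ ind (B p) := by
    nlinarith [hu p hp, norm_nonneg (u p), norm_nonneg (u p')]
  exact mul_le_mul h5 h2 (norm_nonneg _) (ind_nonneg _)

/-- second Cauchy-Schwarz and the choice of the best second point -/
lemma u3a_second {ψ : AddChar F ℂ} (hψ : ψ ≠ 1) {P : Type*} (S : Finset P) (hS : S.Nonempty)
    (l : ℕ) (w : F[X] → F[X] → ℂ) (K : ℝ) (hw : ∀ x ∈ V F l, ∀ a ∈ M F l, ‖w x a‖ ≤ K)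
    (u : F[X] → P → ℂ) (B : F[X] → P → Prop) (hu : ∀ x, ∀ p ∈ S, ‖u x p‖ ≤ ind (B x p))
    (D : F[X] → P → (F[X] →ₗ[F] F)) :
    ∃ ζ : F[X] → (F[X] →ₗ[F] F),
      ‖𝔼 x ∈ V F l, 𝔼 a ∈ M F l, w x a * 𝔼 p ∈ S, u x p * ψ (D x p a)‖ ^ 2 ≤
        K ^ 2 * 𝔼 x ∈ V F l, 𝔼 p ∈ S, ind (B x p ∧ ∀ a ∈ V F l, D x p a = ζ x a) := by
  have hch : ∀ x, ∃ p' ∈ S, 𝔼 p' ∈ S, 𝔼 p ∈ S, ind (B x p ∧ ∀ a ∈ V F l, D x p a = D x p' a) ≤
      𝔼 p ∈ S, ind (B x p ∧ ∀ a ∈ V F l, D x p a = D x p' a) := fun x =>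
    exists_le_of_le_expect hS le_rfl
  choose p' _ hp' using hch
  refine ⟨fun x => D x (p' x), (u3a_cs2 _ _ _ _ K hw).trans ?_⟩
  refine mul_le_mul_of_nonneg_left (expect_le_expect fun x _ => ?_) (sq_nonneg _)
  exact (u3a_orth hψ S l (u x) (B x) (hu x) (D x)).trans (hp' x)

/-- first Cauchy-Schwarz -/
lemma u3a_first (ψ : AddChar F ℂ) (l m : ℕ) (α β φ : F[X] → ℝ) (K : ℝ) (hK : 1 ≤ K)
    (hβ : ∀ b ∈ M F m, |β b| ≤ K) (hφ : ∀ f ∈ M F (l + m), |φ f| ≤ K)
    (θ : F[X] → ℂ) (ξ : F[X] → (F[X] →ₗ[F] F)) :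
    ‖𝔼 h ∈ V F (l + m), θ h * 𝔼 a ∈ M F l, 𝔼 b ∈ M F m,
        ((α a * β b : ℝ) : ℂ) * ((φ (a * b + h) : ℂ) * ψ (ξ h (a * b)))‖ ^ 2 ≤
      (K ^ 2) ^ 2 * ‖𝔼 x ∈ V F l, 𝔼 a ∈ M F l, ((α a * α (a + x) : ℝ) : ℂ) *
        𝔼 p ∈ V F (l + m) ×ˢ M F m,
          (θ p.1 * (starRingEnd ℂ) (θ (p.1 - x * p.2)) * ψ (-ξ (p.1 - x * p.2) (x * p.2))) *
            ψ (((ξ p.1 - ξ (p.1 - x * p.2)) ∘ₗ LinearMap.mulLeft F p.2) a)‖ := by
  set W : F[X] → F[X] → F[X] → ℂ := fun a b g =>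
    (α a : ℂ) * (θ (g - a * b) * ψ (ξ (g - a * b) (a * b))) with hW
  have e1 : 𝔼 h ∈ V F (l + m), θ h * 𝔼 a ∈ M F l, 𝔼 b ∈ M F m,
        ((α a * β b : ℝ) : ℂ) * ((φ (a * b + h) : ℂ) * ψ (ξ h (a * b))) =
      𝔼 b ∈ M F m, 𝔼 g ∈ M F (l + m), ((β b * φ g : ℝ) : ℂ) * 𝔼 a ∈ M F l, W a b g := by
    simp only [mul_expect]
    rw [expect_comm (s := V F (l + m))]
    have : ∀ a ∈ M F l, 𝔼 h ∈ V F (l + m), 𝔼 b ∈ M F m,
        θ h * (((α a * β b : ℝ) : ℂ) * ((φ (a * b + h) : ℂ) * ψ (ξ h (a * b)))) =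
        𝔼 b ∈ M F m, 𝔼 g ∈ M F (l + m), ((β b * φ g : ℝ) : ℂ) * W a b g := by
      intro a ha
      rw [expect_comm]
      refine expect_congr rfl fun b hb => ?_
      rw [expect_M_base (M_mul_M ha hb)]
      refine expect_congr rfl fun h _ => ?_
      simp only [hW, add_sub_cancel_left]
      push_cast
      ring
    rw [expect_congr rfl this, expect_comm]
    refine expect_congr rfl fun b _ => ?_
    rw [expect_comm]
  rw [e1]
  refine (u3a_cs2 _ _ _ _ (K ^ 2) fun b hb g hg => ?_).trans ?_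
  · rw [Complex.norm_real, Real.norm_eq_abs, abs_mul, sq]
    exact mul_le_mul (hβ b hb) (hφ g hg) (abs_nonneg _) (by linarith)
  refine mul_le_mul_of_nonneg_left ?_ (sq_nonneg _)
  have h0 : 0 ≤ 𝔼 b ∈ M F m, 𝔼 g ∈ M F (l + m), ‖𝔼 a ∈ M F l, W a b g‖ ^ 2 :=
    expect_nonneg fun _ _ => expect_nonneg fun _ _ => sq_nonneg _
  rw [← abs_of_nonneg h0, ← Real.norm_eq_abs, ← Complex.norm_real]
  refine le_of_eq (congrArg _ ?_)
  simp only [ofReal_expect, norm_sq_expect]
  have e2 : ∀ b ∈ M F m, 𝔼 g ∈ M F (l + m), 𝔼 a ∈ M F l, 𝔼 a' ∈ M F l,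
      W a b g * (starRingEnd ℂ) (W a' b g) =
      𝔼 x ∈ V F l, 𝔼 a ∈ M F l, 𝔼 h ∈ V F (l + m), ((α a * α (a + x) : ℝ) : ℂ) *
        ((θ h * (starRingEnd ℂ) (θ (h - x * b)) * ψ (-ξ (h - x * b) (x * b))) *
          ψ (((ξ h - ξ (h - x * b)) ∘ₗ LinearMap.mulLeft F b) a)) := by
    intro b hb
    have : ∀ g ∈ M F (l + m), 𝔼 a ∈ M F l, 𝔼 a' ∈ M F l, W a b g * (starRingEnd ℂ) (W a' b g) =
        𝔼 a ∈ M F l, 𝔼 x ∈ V F l, W a b g * (starRingEnd ℂ) (W (a + x) b g) := fun g _ =>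
      expect_M_pair l fun a a' => W a b g * (starRingEnd ℂ) (W a' b g)
    rw [expect_congr rfl this, expect_comm, expect_comm (s := V F l)]
    refine expect_congr rfl fun a ha => ?_
    rw [expect_comm]
    refine expect_congr rfl fun x _ => ?_
    rw [expect_M_base (M_mul_M ha hb)]
    refine expect_congr rfl fun h _ => ?_
    have e3 : a * b + h - (a + x) * b = h - x * b := by ring
    simp only [hW, add_sub_cancel_left, e3, map_mul, conj_psi, Complex.conj_ofReal,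
      LinearMap.comp_apply, LinearMap.mulLeft_apply, LinearMap.sub_apply]
    rw [add_mul, map_add, neg_add, AddChar.map_add_eq_mul, mul_comm b a, sub_eq_add_neg (ξ h _),
      AddChar.map_add_eq_mul]
    push_cast
    ring
  rw [expect_congr rfl e2, expect_comm]
  refine expect_congr rfl fun x _ => ?_
  rw [expect_comm]
  refine expect_congr rfl fun a _ => ?_
  rw [expect_comm, mul_expect, expect_product]

/-- many shifts have a large Fourier coefficient -/
lemma u3a_dens {ψ : AddChar F ℂ} (hψ : ψ ≠ 1) (n : ℕ) (φ : F[X] → ℝ) (K : ℝ) (hK : 1 ≤ K)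
    (hq : 16 * K ^ 12 ≤ Q F) (hφ : ∀ f ∈ M F n, |φ f| ≤ K) (h : 1 / Q F ^ 40 ≤ PU3 n φ) :
    1 / Q F ^ 41 ≤ 𝔼 h ∈ V F n, ind (∃ L, 1 / Q F ^ 21 ≤ ‖T ψ n φ h L‖) := by
  have hQ := Q_pos (F := F)
  have hK0 : 0 ≤ K := by linarith
  have hb : ∀ h ∈ V F n, ∀ f ∈ M F n, |φ f * φ (f + h)| ≤ K ^ 2 := fun h hh f hf => by
    rw [abs_mul, sq]
    exact mul_le_mul (hφ f hf) (hφ _ (M_add_V hf hh)) (abs_nonneg _) hK0
  have key : ∀ h ∈ V F n, 𝔼 h' ∈ V F n,
      (𝔼 f ∈ M F n, φ f * φ (f + h) * (φ (f + h') * φ (f + h' + h))) ^ 2 ≤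
      K ^ 4 / Q F ^ 42 + K ^ 8 * ind (∃ L, 1 / Q F ^ 21 ≤ ‖T ψ n φ h L‖) := by
    intro h hh
    by_cases hA : ∃ L, 1 / Q F ^ 21 ≤ ‖T ψ n φ h L‖
    · rw [ind_pos hA]
      refine le_trans (expect_le' (a := K ^ 8) (by positivity) fun h' hh' => ?_) ?_
      · have : |𝔼 f ∈ M F n, φ f * φ (f + h) * (φ (f + h') * φ (f + h' + h))| ≤ K ^ 4 := by
          refine abs_expect_le' (by positivity) fun f hf => ?_
          rw [abs_mul, show K ^ 4 = K ^ 2 * K ^ 2 by ring]
          exact mul_le_mul (hb h hh f hf) (hb h hh _ (M_add_V hf hh')) (abs_nonneg _)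
            (by positivity)
        rw [← sq_abs, show K ^ 8 = (K ^ 4) ^ 2 by ring]
        gcongr
      · have : 0 ≤ K ^ 4 / Q F ^ 42 := by positivity
        linarith
    · rw [ind_neg hA, mul_zero, add_zero]
      push Not at hA
      have h1 := cor hψ n (fun f => ((φ f * φ (f + h) : ℝ) : ℂ))
        (fun f => ((φ f * φ (f + h) : ℝ) : ℂ)) (1 / Q F ^ 21) fun L => (hA L).le
      have h2 : 𝔼 f ∈ M F n, ‖((φ f * φ (f + h) : ℝ) : ℂ)‖ ^ 2 ≤ K ^ 4 := by
        refine expect_le' (by positivity) fun f hf => ?_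
        rw [Complex.norm_real, Real.norm_eq_abs, show K ^ 4 = (K ^ 2) ^ 2 by ring]
        have := hb h hh f hf
        gcongr
      calc _ = 𝔼 w ∈ V F n, ‖𝔼 f ∈ M F n, ((φ f * φ (f + h) : ℝ) : ℂ) *
              ((φ (f + w) * φ (f + w + h) : ℝ) : ℂ)‖ ^ 2 := by
            refine expect_congr rfl fun w _ => ?_
            simp only [← Complex.ofReal_mul]
            rw [← ofReal_expect, Complex.norm_real, Real.norm_eq_abs, sq_abs]
        _ ≤ _ := h1
        _ ≤ (1 / Q F ^ 21) ^ 2 * K ^ 4 := by gcongr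
        _ = _ := by field_simp
  have h3 := h.trans (expect_le_expect key)
  rw [expect_add_distrib, ← mul_expect, expect_const (V_nonempty n)] at h3
  set p := 𝔼 h ∈ V F n, ind (∃ L, 1 / Q F ^ 21 ≤ ‖T ψ n φ h L‖)
  have hp : 0 ≤ p := expect_ind_nonneg _ _
  have h8 : K ^ 8 ≤ K ^ 12 := pow_le_pow_right₀ hK (by norm_num)
  have h4 : K ^ 4 ≤ K ^ 12 := pow_le_pow_right₀ hK (by norm_num)
  have hQ1 := one_le_Q (F := F)
  set q := Q F
  have hy : 0 < q ^ 40 := by positivity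
  rw [show q ^ 42 = q ^ 40 * q ^ 2 by ring] at h3
  rw [show q ^ 41 = q ^ 40 * q by ring]
  set y := q ^ 40
  have h5 : K ^ 4 / (y * q ^ 2) ≤ 1 / (2 * y) := by
    rw [div_le_div_iff₀ (by positivity) (by positivity)]
    have : 2 * K ^ 4 ≤ q ^ 2 := by nlinarith [pow_pos (by linarith : 0 < K) 12]
    nlinarith
  have h6 : 1 / y = 1 / (2 * y) + 1 / (2 * y) := by field_simp; ring
  have h7 : 1 / (2 * y) ≤ K ^ 8 * p := by linarith
  rw [div_le_iff₀ (by positivity)] at h7 ⊢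
  have h9 : 2 * K ^ 8 ≤ q := by nlinarith [pow_pos (by linarith : 0 < K) 12]
  have h10 : 0 ≤ p * y := by positivity
  nlinarith

/-- first step of the degree lowering -/
theorem u3a {ψ : AddChar F ℂ} (hψ : ψ ≠ 1) (l m : ℕ) (α β φ : F[X] → ℝ) (K : ℝ) (hK : 1 ≤ K)
    (hq : 16 * K ^ 12 ≤ Q F) (hα : ∀ a ∈ M F l, |α a| ≤ K) (hβ : ∀ b ∈ M F m, |β b| ≤ K)
    (hφ : ∀ f ∈ M F (l + m), |φ f| ≤ K) (hc : Conv l m α β φ)
    (hε : ∀ L : F[X] →ₗ[F] F, ‖𝔼 f ∈ M F (l + m), (φ f : ℂ) * ψ (L f)‖ ≤ 1 / Q F ^ 63)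
    (h : 1 / Q F ^ 40 ≤ PU3 (l + m) φ) :
    ∃ ξ ζ : F[X] → (F[X] →ₗ[F] F), 1 / Q F ^ 249 ≤
      𝔼 x ∈ V F l, 𝔼 g ∈ V F (l + m), 𝔼 b ∈ M F m,
        ind (1 / Q F ^ 21 ≤ ‖T ψ (l + m) φ (g - x * b) (ξ (g - x * b))‖ ∧
          ∀ a ∈ V F l, ξ g (b * a) - ξ (g - x * b) (b * a) = ζ x a) := by
  have hQ := Q_pos (F := F)
  have hK0 : 0 ≤ K := by linarith
  have hd := u3a_dens hψ (l + m) φ K hK hq hφ h
  have hch : ∀ h : F[X], ∃ L0 : F[X] →ₗ[F] F, (∃ L, 1 / Q F ^ 21 ≤ ‖T ψ (l + m) φ h L‖) →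
      1 / Q F ^ 21 ≤ ‖T ψ (l + m) φ h L0‖ := by
    intro h
    by_cases hA : ∃ L, 1 / Q F ^ 21 ≤ ‖T ψ (l + m) φ h L‖
    · obtain ⟨L, hL⟩ := hA
      exact ⟨L, fun _ => hL⟩
    · exact ⟨0, fun h' => absurd h' hA⟩
  choose ξ hξ using hch
  set A : F[X] → Prop := fun h => 1 / Q F ^ 21 ≤ ‖T ψ (l + m) φ h (ξ h)‖ with hA
  set θ : F[X] → ℂ := fun h => (ind (A h) : ℂ) *
    ((starRingEnd ℂ) (T ψ (l + m) φ h (ξ h)) / (‖T ψ (l + m) φ h (ξ h)‖ : ℂ)) with hθ
  have hθn : ∀ h, ‖θ h‖ ≤ ind (A h) := by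
    intro h
    simp only [hθ, norm_mul, norm_div, Complex.norm_real, Real.norm_eq_abs, Complex.norm_conj,
      abs_norm, abs_of_nonneg (ind_nonneg _)]
    exact mul_le_of_le_one_right (ind_nonneg _) (div_self_le_one _)
  have hθT : ∀ h, θ h * T ψ (l + m) φ h (ξ h) =
      ((ind (A h) * ‖T ψ (l + m) φ h (ξ h)‖ : ℝ) : ℂ) := by
    intro h
    simp only [hθ]
    by_cases h0 : T ψ (l + m) φ h (ξ h) = 0
    · simp [h0]
    · have : (‖T ψ (l + m) φ h (ξ h)‖ : ℂ) ≠ 0 := by simpa using h0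
      rw [mul_assoc, div_mul_eq_mul_div, Complex.conj_mul']
      push_cast
      field_simp
  have h1 : 1 / Q F ^ 62 ≤ ‖𝔼 h ∈ V F (l + m), θ h * T ψ (l + m) φ h (ξ h)‖ := by
    simp only [hθT]
    rw [← ofReal_expect, Complex.norm_real, Real.norm_eq_abs]
    refine le_trans ?_ (le_abs_self _)
    calc 1 / Q F ^ 62 = 1 / Q F ^ 41 * (1 / Q F ^ 21) := by field_simp
      _ ≤ (𝔼 h ∈ V F (l + m), ind (∃ L, 1 / Q F ^ 21 ≤ ‖T ψ (l + m) φ h L‖)) *
          (1 / Q F ^ 21) := by gcongr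
      _ ≤ _ := by
        rw [expect_mul]
        refine expect_le_expect fun h _ => ?_
        by_cases hh : ∃ L, 1 / Q F ^ 21 ≤ ‖T ψ (l + m) φ h L‖
        · rw [ind_pos hh, ind_pos (show A h from hξ h hh), one_mul, one_mul]
          exact hξ h hh
        · rw [ind_neg hh, zero_mul]
          exact mul_nonneg (ind_nonneg _) (norm_nonneg _)
  have h2 : ∀ h, T ψ (l + m) φ h (ξ h) =
      𝔼 f ∈ M F (l + m), (φ (f + h) : ℂ) * ψ (ξ h f) - 𝔼 a ∈ M F l, 𝔼 b ∈ M F m,
        ((α a * β b : ℝ) : ℂ) * ((φ (a * b + h) : ℂ) * ψ (ξ h (a * b))) := by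
    intro h
    rw [← hc fun f => (φ (f + h) : ℂ) * ψ (ξ h f)]
    unfold T
    refine expect_congr rfl fun f _ => ?_
    push_cast
    ring
  have h3 : ‖𝔼 h ∈ V F (l + m), θ h * 𝔼 f ∈ M F (l + m), (φ (f + h) : ℂ) * ψ (ξ h f)‖ ≤
      1 / Q F ^ 63 := by
    refine norm_expect_le' (by positivity) fun h hh => ?_
    have e : 𝔼 f ∈ M F (l + m), (φ (f + h) : ℂ) * ψ (ξ h f) =
        (𝔼 f ∈ M F (l + m), (φ f : ℂ) * ψ (ξ h f)) * ψ (-ξ h h) := by
      rw [← expect_M_add hh fun f => (φ f : ℂ) * ψ (ξ h f), expect_mul]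
      refine expect_congr rfl fun f _ => ?_
      rw [mul_assoc, ← AddChar.map_add_eq_mul, map_add (ξ h), add_neg_cancel_right]
    rw [e, ← mul_assoc, norm_mul, norm_psi, mul_one, norm_mul (θ h)]
    have := (hθn h).trans (ind_le_one _)
    nlinarith [hε (ξ h), norm_nonneg (θ h),
      norm_nonneg (𝔼 f ∈ M F (l + m), (φ f : ℂ) * ψ (ξ h f))]
  have h4 := u3a_first ψ l m α β φ K hK hβ hφ θ ξ
  obtain ⟨ζ, h5⟩ := u3a_second hψ (V F (l + m) ×ˢ M F m) ((V_nonempty _).product (M_nonempty _))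
    l (fun x a => ((α a * α (a + x) : ℝ) : ℂ)) (K ^ 2)
    (fun x hx a ha => by
      rw [Complex.norm_real, Real.norm_eq_abs, abs_mul, sq]
      exact mul_le_mul (hα a ha) (hα _ (M_add_V ha hx)) (abs_nonneg _) hK0)
    (fun x p => θ p.1 * (starRingEnd ℂ) (θ (p.1 - x * p.2)) * ψ (-ξ (p.1 - x * p.2) (x * p.2)))
    (fun x p => A (p.1 - x * p.2))
    (fun x p _ => by
      rw [norm_mul, norm_mul, norm_psi, mul_one, Complex.norm_conj]
      have := (hθn p.1).trans (ind_le_one _)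
      nlinarith [hθn (p.1 - x * p.2), norm_nonneg (θ p.1), norm_nonneg (θ (p.1 - x * p.2))])
    (fun x p => (ξ p.1 - ξ (p.1 - x * p.2)) ∘ₗ LinearMap.mulLeft F p.2)
  refine ⟨ξ, ζ, ?_⟩
  simp only [expect_product, LinearMap.comp_apply, LinearMap.mulLeft_apply,
    LinearMap.sub_apply, hA] at h4 h5
  simp only [h2, mul_sub, expect_sub_distrib] at h1
  set p := 𝔼 x ∈ V F l, 𝔼 g ∈ V F (l + m), 𝔼 b ∈ M F m,
        ind (1 / Q F ^ 21 ≤ ‖T ψ (l + m) φ (g - x * b) (ξ (g - x * b))‖ ∧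
          ∀ a ∈ V F l, ξ g (b * a) - ξ (g - x * b) (b * a) = ζ x a)
  have h6 := (h1.trans (norm_sub_le _ _))
  set X₀ := ‖𝔼 h ∈ V F (l + m), θ h * 𝔼 a ∈ M F l, 𝔼 b ∈ M F m,
        ((α a * β b : ℝ) : ℂ) * ((φ (a * b + h) : ℂ) * ψ (ξ h (a * b)))‖
  have hp : 0 ≤ p := expect_nonneg fun _ _ => expect_nonneg fun _ _ => expect_ind_nonneg _ _
  have hQ2 := two_le_Q (F := F)
  have h7 : 1 / (2 * Q F ^ 62) ≤ X₀ := by
    have e1 : 1 / Q F ^ 63 ≤ 1 / (2 * Q F ^ 62) := by
      rw [show Q F ^ 63 = Q F * Q F ^ 62 by ring]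
      gcongr
    have e2 : 1 / Q F ^ 62 = 1 / (2 * Q F ^ 62) + 1 / (2 * Q F ^ 62) := by field_simp; ring
    linarith
  have h8 : (X₀ ^ 2) ^ 2 ≤ K ^ 12 * p := by
    refine le_trans (pow_le_pow_left₀ (sq_nonneg _) h4 2) ?_
    rw [mul_pow, show K ^ 12 * p = ((K ^ 2) ^ 2) ^ 2 * ((K ^ 2) ^ 2 * p) by ring]
    gcongr
  have h9 : ((1 / (2 * Q F ^ 62)) ^ 2) ^ 2 ≤ K ^ 12 * p := le_trans (by gcongr) h8
  rw [show ((1 / (2 * Q F ^ 62)) ^ 2) ^ 2 = 1 / (16 * Q F ^ 248) by field_simp; ring,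
    div_le_iff₀ (by positivity)] at h9
  rw [div_le_iff₀ (by positivity), show Q F ^ 249 = Q F * Q F ^ 248 by ring]
  have h10 : 0 ≤ p * Q F ^ 248 := by positivity
  nlinarith

end Pool.Agent.VDW

namespace Pool.Agent.VDW

open Polynomial Finset
open scoped BigOperators

variable {F : Type} [Field F] [Fintype F] [DecidableEq F]

lemma u3b_inj {s : Finset F[X]} {m : ℕ} (hs : (s.card : ℝ) = Q F ^ m) (φ : F[X] → F[X])
    (hφ : Function.Injective φ) (ht : ∀ i ∈ s, φ i ∈ V F (m + 1)) (G : F[X] → ℝ)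
    (hG : ∀ j, 0 ≤ G j) : 𝔼 i ∈ s, G (φ i) ≤ Q F * 𝔼 j ∈ V F (m + 1), G j := by
  classical
  have q0 := Q_pos (F := F)
  have h1 : ∑ i ∈ s, G (φ i) ≤ ∑ j ∈ V F (m + 1), G j := by
    rw [← sum_image (f := G) hφ.injOn]
    exact sum_le_sum_of_subset_of_nonneg (image_subset_iff.2 ht) fun j _ _ => hG j
  rw [expect_eq_sum_div_card, expect_eq_sum_div_card, hs, card_V_real, pow_succ,
    show ∀ a : ℝ, Q F * (a / (Q F ^ m * Q F)) = a / Q F ^ m from fun a => by field_simp]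
  gcongr

lemma u3b_quad (h2 : (2 : F) ≠ 0) (L μ : F[X] →ₗ[F] F) {m : ℕ} (s : ℕ) {y : F[X]}
    (hy : y ∈ V F m) : (𝔼 b ∈ M F m, ind (∀ a ∈ V F s, L (b * (b + y) * a) = μ a)) ^ 2 ≤
      Q F ^ 2 * 𝔼 u ∈ V F (m + 1), 𝔼 w ∈ V F (m + 1), ind (Kills L (u * w) s) := by
  have q0 := Q_pos (F := F)
  have h3 : (2 : F[X]) ≠ 0 := fun h => h2 (C_eq_zero.1 (by rw [← h]; rfl))
  rw [sq_expect, expect_M_pair, expect_comm, sq, mul_assoc]
  refine le_trans (expect_le_expect fun u hu => ?_) (le_trans (le_of_eq (mul_expect _ _ _).symm)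
    (mul_le_mul_of_nonneg_left (u3b_inj (card_V_real m) id Function.injective_id
      (fun i hi => V_mono m.le_succ hi) (fun u => 𝔼 w ∈ V F (m + 1), ind (Kills L (u * w) s))
      fun _ => expect_ind_nonneg _ _) q0.le))
  refine le_trans (expect_le_expect fun b _ => ?_) (u3b_inj (card_M_real m)
    (fun b => 2 * b + (u + y)) (fun a b h => mul_left_cancel₀ h3 (add_right_cancel h))
    (fun b hb => ?_) (fun w => ind (Kills L (u * w) s)) fun _ => ind_nonneg _)
  · rw [← ind_and]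
    refine ind_mono fun h a ha => ?_
    rw [show u * (2 * b + (u + y)) * a = (b + u) * (b + u + y) * a - b * (b + y) * a by ring,
      map_sub, h.1 a ha, h.2 a ha, sub_self]
  · have h4 := M_mem_V m.lt_succ_self hb
    rw [two_mul]
    exact V_add (V_add h4 h4) (V_mono m.le_succ (V_add hu hy))

/-- second step of the degree lowering: the frequency is often constant -/
theorem u3b (h2 : (2 : F) ≠ 0) (hq : 8 ≤ Q F) (d l m : ℕ) (hm : 12 * d + 10 ≤ m)
    (hl : m + 4 * d + 4 ≤ l) (A : F[X] → Prop) (ξ ζ : F[X] → (F[X] →ₗ[F] F))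
    (h : 1 / Q F ^ d ≤ 𝔼 x ∈ V F l, 𝔼 g ∈ V F (l + m), 𝔼 b ∈ M F m,
        ind (A (g - x * b) ∧ ∀ a ∈ V F l, ξ g (b * a) - ξ (g - x * b) (b * a) = ζ x a)) :
    ∃ h ∈ V F (l + m), ∃ ξ₀ : F[X] →ₗ[F] F, 1 / Q F ^ (38 * d + 32) ≤
      𝔼 x ∈ V F l, 𝔼 y ∈ V F m,
        ind (A (h - x * y) ∧ ∀ v ∈ V F (l + m), ξ (h - x * y) v = ξ₀ v) := by
  have q0 := Q_pos (F := F)
  obtain ⟨s, rfl⟩ : ∃ s, l = m + s := ⟨l - m, by omega⟩
  obtain ⟨k, hk⟩ : ∃ k, m + s + m = k + (24 * d + 20) := ⟨m + s + m - (24 * d + 20), by omega⟩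
  obtain ⟨S, hS, hS2⟩ := few (F := F) (m + s + m) (3 * (4 * d + 3) + 1) k (by omega)
  rw [show 3 * (4 * d + 3) + 1 + 1 + (m + s + m - k) = 36 * d + 31 by omega] at hS
  set δ : ℝ := 1 / Q F ^ d with hδ
  have δ0 : 0 < δ := by positivity
  let R : F[X] → F[X] → F[X] → F[X] → Prop := fun x h y b => A (h - x * y) ∧ ∀ a ∈ V F s,
    (ξ (h - x * y) - ξ h) (b * (b + y) * a) = (ζ x ∘ₗ LinearMap.mulLeft F y) a
  let W : F[X] → (F[X] →ₗ[F] F) → F[X] × F[X] → Prop := fun h L p => A (h - p.1 * p.2) ∧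
    ∀ v ∈ V F (m + s + m), ξ (h - p.1 * p.2) v = (ξ h + L) v
  have h1 : δ ^ 2 ≤ 𝔼 x ∈ V F (m + s), 𝔼 h ∈ V F (m + s + m), 𝔼 y ∈ V F m, 𝔼 b ∈ M F m,
      ind (R x h y b) := by
    refine ((pow_le_pow_left₀ δ0.le h 2).trans (sq_expect_le _ _)).trans
      (expect_le_expect fun x hx => (sq_expect_le _ _).trans ?_)
    simp only [sq_expect, expect_M_pair, ← ind_and]
    simp only [expect_comm (V F m) (M F m)]
    rw [expect_comm, expect_comm _ (M F m)]
    refine expect_le_expect fun b hb => ?_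
    rw [← expect_V_add (V_mul_M hx hb)]
    refine expect_le_expect fun h _ => expect_le_expect fun y hy => ind_mono ?_
    rw [show h + x * b - x * b = h by ring, show h + x * b - x * (b + y) = h - x * y by ring]
    rintro ⟨⟨-, a1⟩, a2, a3⟩
    refine ⟨a2, fun a ha => ?_⟩
    have e1 := a1 _ (M_mul_V (M_add_V hb hy) ha)
    have e2 := a3 _ (M_mul_V hb ha)
    rw [← mul_assoc, add_mul b y a, map_add] at e1
    rw [← mul_assoc, mul_comm (b + y) b] at e2
    simp only [LinearMap.sub_apply, LinearMap.comp_apply, LinearMap.mulLeft_apply]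
    linear_combination e1 - e2
  have h3 : ∀ x h, ∀ y ∈ V F m, 𝔼 b ∈ M F m, ind (R x h y b) ≤
      δ ^ 2 / 2 + ind (∃ L ∈ S, W h L (x, y)) := fun x h y hy => by
    by_cases hc : 𝔼 b ∈ M F m, ind (R x h y b) ≤ δ ^ 2 / 2
    · linarith [ind_nonneg (∃ L ∈ S, W h L (x, y))]
    push Not at hc
    have hA : A (h - x * y) := by
      by_contra hA
      have : 𝔼 b ∈ M F m, ind (R x h y b) ≤ 0 :=
        expect_le' le_rfl fun b _ => (ind_neg fun hR => hA hR.1).le
      linarith [sq_pos_of_pos δ0]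
    have h4 := (pow_le_pow_left₀ (by positivity) (hc.le.trans
      (expect_le_expect fun b _ => ind_mono fun hR => hR.2)) 2).trans (u3b_quad h2 _ _ s hy)
    obtain ⟨B, B0, B1, B2⟩ := dioph (ξ (h - x * y) - ξ h) (4 * d + 3) (m + 1) s (by omega)
      (by omega) (by
        refine le_of_mul_le_mul_left (le_trans ?_ h4) (pow_pos q0 2)
        have e : (δ ^ 2 / 2) ^ 2 = Q F ^ 2 * (Q F / 4 / Q F ^ (4 * d + 3)) := by
          rw [hδ]; field_simp; ring
        rw [e]
        gcongr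
        linarith)
    obtain ⟨L, hL, hL2⟩ := hS2 _ B B0 B1 (B2 k (by omega))
    rw [ind_pos (P := ∃ L ∈ S, W h L (x, y)) ⟨L, hL, hA, fun v hv => by
      rw [LinearMap.add_apply, ← hL2 v hv, LinearMap.sub_apply, add_sub_cancel]⟩]
    linarith [expect_ind_le_one (M F m) (R x h y), sq_pos_of_pos δ0]
  have h5 : δ ^ 2 / 2 ≤ 𝔼 h ∈ V F (m + s + m), 𝔼 p ∈ V F (m + s) ×ˢ V F m,
      ind (∃ L ∈ S, W h L p) := by
    have := h1.trans (expect_le_expect fun x _ => expect_le_expect fun h _ =>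
      expect_le_expect fun y hy => h3 x h y hy)
    simp only [expect_add_distrib, expect_const (V_nonempty _)] at this
    simp only [expect_product]
    rw [expect_comm]
    linarith
  obtain ⟨h, hh, h6⟩ := exists_le_of_le_expect (V_nonempty _) h5
  obtain ⟨L, -, h7⟩ := pigeon _ S (W h) _ _ (by positivity) hS h6
  rw [expect_product] at h7
  refine ⟨h, hh, ξ h + L, le_trans ?_ h7⟩
  have e : δ ^ 2 / 2 / Q F ^ (36 * d + 31) = Q F / 2 / Q F ^ (38 * d + 32) := by
    rw [hδ]; field_simp; ring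
  rw [e]
  gcongr
  linarith

end Pool.Agent.VDW

namespace Pool.Agent.VDW

open Polynomial Finset
open scoped BigOperators

variable {F : Type} [Field F] [Fintype F] [DecidableEq F]

lemma u3c_norm_T (ψ : AddChar F ℂ) (n : ℕ) (φ : F[X] → ℝ) (w : F[X]) {L L' : F[X] →ₗ[F] F}
    (h : ∀ v ∈ V F n, L v = L' v) : ‖T ψ n φ w L‖ = ‖T ψ n φ w L'‖ := by
  have key : ∀ L : F[X] →ₗ[F] F, ‖T ψ n φ w L‖ =
      ‖𝔼 v ∈ V F n, ((φ (X ^ n + v) * φ (X ^ n + v + w) : ℝ) : ℂ) * ψ (L v)‖ := by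
    intro L
    have e : T ψ n φ w L = ψ (L (X ^ n)) *
        𝔼 v ∈ V F n, ((φ (X ^ n + v) * φ (X ^ n + v + w) : ℝ) : ℂ) * ψ (L v) := by
      rw [T, expect_M_base (X_pow_mem_M n), mul_expect]
      refine expect_congr rfl fun v _ => ?_
      rw [map_add, AddChar.map_add_eq_mul]
      ring
    rw [e, norm_mul, norm_psi, one_mul]
  rw [key, key]
  congr 1
  exact expect_congr rfl fun v hv => by rw [h v hv]

lemma u3c_T_le (ψ : AddChar F ℂ) (n : ℕ) (φ : F[X] → ℝ) (K : ℝ) (hK : 1 ≤ K)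
    (hφ : ∀ f ∈ M F n, |φ f| ≤ K) {w : F[X]} (hw : w ∈ V F n) (L : F[X] →ₗ[F] F) :
    ‖T ψ n φ w L‖ ^ 2 ≤ K ^ 4 := by
  have h : ‖T ψ n φ w L‖ ≤ K ^ 2 := by
    refine norm_expect_le' (by positivity) fun f hf => ?_
    rw [norm_mul, norm_psi, mul_one, Complex.norm_real, Real.norm_eq_abs, abs_mul, sq]
    exact mul_le_mul (hφ f hf) (hφ _ (M_add_V hf hw)) (abs_nonneg _) (by linarith)
  calc _ ≤ (K ^ 2) ^ 2 := by gcongr
    _ = K ^ 4 := by ring

lemma u3c_mean {ψ : AddChar F ℂ} (hψ : ψ ≠ 1) (n : ℕ) (φ : F[X] → ℝ) (K ε : ℝ) (hK : 1 ≤ K)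
    (hφ : ∀ f ∈ M F n, |φ f| ≤ K)
    (hε : ∀ L : F[X] →ₗ[F] F, ‖𝔼 f ∈ M F n, (φ f : ℂ) * ψ (L f)‖ ≤ ε) (L : F[X] →ₗ[F] F) :
    𝔼 w ∈ V F n, ‖T ψ n φ w L‖ ^ 2 ≤ ε ^ 2 * K ^ 2 := by
  have h := cor hψ n (fun f => (φ f : ℂ) * ψ (L f)) (fun f => (φ f : ℂ)) ε hε
  have e : 𝔼 w ∈ V F n, ‖T ψ n φ w L‖ ^ 2 =
      𝔼 w ∈ V F n, ‖𝔼 f ∈ M F n, (φ f : ℂ) * ψ (L f) * (φ (f + w) : ℂ)‖ ^ 2 := by
    refine expect_congr rfl fun w _ => ?_
    congr 2
    refine expect_congr rfl fun f _ => ?_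
    push_cast
    ring
  rw [e]
  refine h.trans (mul_le_mul_of_nonneg_left (expect_le' (by positivity) fun f hf => ?_)
    (sq_nonneg _))
  rw [norm_mul, norm_psi, mul_one, Complex.norm_real, Real.norm_eq_abs]
  exact pow_le_pow_left₀ (abs_nonneg _) (hφ f hf) 2

lemma u3c_num {q K t : ℝ} {a b c m : ℕ} (hK : 1 ≤ K) (hq : 16 * K ^ 12 ≤ q) (ht0 : 0 ≤ t)
    (ht : t ≤ q) (hm : a + b + 3 ≤ m) (hc : a + b + 5 ≤ 2 * c) :
    2 * K ^ 4 / q ^ m + q * t * ((1 / q ^ c) ^ 2 * K ^ 2) < 1 / q ^ b * (1 / q ^ a) := by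
  have h12 : 1 ≤ K ^ 12 := one_le_pow₀ hK
  have h4 : K ^ 4 ≤ K ^ 12 := pow_le_pow_right₀ hK (by norm_num)
  have h2 : K ^ 2 ≤ K ^ 12 := pow_le_pow_right₀ hK (by norm_num)
  have hq1 : 1 ≤ q := by linarith
  have hq0 : 0 < q := by linarith
  have hy : 0 < q ^ (a + b) := by positivity
  have e1 : 2 * K ^ 4 / q ^ m ≤ 1 / (q ^ 2 * q ^ (a + b)) := by
    rw [div_le_div_iff₀ (by positivity) (by positivity), one_mul]
    calc 2 * K ^ 4 * (q ^ 2 * q ^ (a + b)) ≤ q * (q ^ 2 * q ^ (a + b)) := by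
          gcongr
          linarith
      _ = q ^ (a + b + 3) := by ring
      _ ≤ q ^ m := pow_le_pow_right₀ hq1 hm
  have e2 : q * t * ((1 / q ^ c) ^ 2 * K ^ 2) ≤ 1 / (q ^ 2 * q ^ (a + b)) := by
    have e : q * t * ((1 / q ^ c) ^ 2 * K ^ 2) = q * t * K ^ 2 / q ^ (2 * c) := by
      rw [div_pow, one_pow, ← pow_mul, mul_comm c 2]
      ring
    rw [e, div_le_div_iff₀ (by positivity) (by positivity), one_mul]
    calc q * t * K ^ 2 * (q ^ 2 * q ^ (a + b)) ≤ q * q * q * (q ^ 2 * q ^ (a + b)) := by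
          gcongr
          linarith
      _ = q ^ (a + b + 5) := by ring
      _ ≤ q ^ (2 * c) := pow_le_pow_right₀ hq1 hc
  have e3 : 1 / q ^ b * (1 / q ^ a) = 1 / q ^ (a + b) := by
    rw [div_mul_div_comm, one_mul, ← pow_add, add_comm]
  have e4 : 2 * (1 / (q ^ 2 * q ^ (a + b))) < 1 / q ^ (a + b) := by
    rw [mul_one_div, div_lt_div_iff₀ (by positivity) hy, one_mul]
    have : 2 < q ^ 2 := by nlinarith
    exact mul_lt_mul_of_pos_right this hy
  rw [e3]
  linarith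

theorem u3 {ψ : AddChar F ℂ} (hψ : ψ ≠ 1) (h2 : (2 : F) ≠ 0) (l m : ℕ) (hm : 10000 ≤ m)
    (hl : m + 1000 ≤ l) (α β φ : F[X] → ℝ) (K : ℝ) (hK : 1 ≤ K)
    (hq : 16 * K ^ 12 ≤ Q F) (hn : (2 : ℝ) ^ (l + m) ≤ Q F)
    (hα : ∀ a ∈ M F l, |α a| ≤ K) (hβ : ∀ b ∈ M F m, |β b| ≤ K)
    (hφ : ∀ f ∈ M F (l + m), |φ f| ≤ K) (hc : Conv l m α β φ)
    (hε : ∀ L : F[X] →ₗ[F] F, ‖𝔼 f ∈ M F (l + m), (φ f : ℂ) * ψ (L f)‖ ≤ 1 / Q F ^ 5000) :
    PU3 (l + m) φ ≤ 1 / Q F ^ 40 := by
  by_contra hcon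
  have h12 : 1 ≤ K ^ 12 := one_le_pow₀ hK
  have hq0 : (0 : ℝ) < Q F := Q_pos
  obtain ⟨ξ, ζ, h1⟩ := u3a hψ l m α β φ K hK hq hα hβ hφ hc (fun L => (hε L).trans
    (one_div_le_one_div_of_le (by positivity) (pow_le_pow_right₀ one_le_Q (by norm_num))))
    (not_le.1 hcon).le
  obtain ⟨h, hh, ξ₀, h3⟩ := u3b h2 (by linarith) 249 l m (by omega) (by omega)
    (fun h => 1 / Q F ^ 21 ≤ ‖T ψ (l + m) φ h (ξ h)‖) ξ ζ h1
  have h4 := div_bound l m (by omega) (fun w => ‖T ψ (l + m) φ w ξ₀‖ ^ 2) (K ^ 4)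
    (fun w _ => sq_nonneg _) (fun w hw => u3c_T_le ψ _ φ K hK hφ hw ξ₀) h hh
  have h5 := u3c_mean hψ (l + m) φ K _ hK hφ hε ξ₀
  have h6 : 1 / Q F ^ 42 * (1 / Q F ^ (38 * 249 + 32)) ≤
      𝔼 x ∈ V F l, 𝔼 y ∈ V F m, ‖T ψ (l + m) φ (h - x * y) ξ₀‖ ^ 2 := by
    refine (mul_le_mul_of_nonneg_left h3 (by positivity)).trans ?_
    rw [mul_expect]
    refine expect_le_expect fun x _ => ?_
    rw [mul_expect]
    refine expect_le_expect fun y _ => ?_
    by_cases hP : 1 / Q F ^ 21 ≤ ‖T ψ (l + m) φ (h - x * y) (ξ (h - x * y))‖ ∧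
        ∀ v ∈ V F (l + m), ξ (h - x * y) v = ξ₀ v
    · rw [ind_pos hP, mul_one, ← u3c_norm_T ψ _ φ _ hP.2]
      refine le_trans (le_of_eq ?_) (pow_le_pow_left₀ (by positivity) hP.1 2)
      rw [div_pow, one_pow, ← pow_mul]
    · rw [ind_neg hP, mul_zero]
      exact sq_nonneg _
  have h7 := u3c_num (a := 38 * 249 + 32) (b := 42) (c := 5000) (m := m) hK hq (by positivity) hn
    (by omega) (by omega)
  have h8 := mul_le_mul_of_nonneg_left h5 (by positivity : 0 ≤ Q F * 2 ^ (l + m))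
  exact absurd (h6.trans (h4.trans (add_le_add le_rfl h8))) (not_le.2 h7)

end Pool.Agent.VDW
end

-- part Pool.Agent.P.MP_b0ea37_nt.Gal
section

namespace Pool.Agent.VDW

open Polynomial Finset
open scoped BigOperators

open scoped Pointwise in
/-- two elements of prime order `p` generate conjugate subgroups when `p ^ 2` does not divide
the order of the group -/
lemma jordan_sylow {H : Type} [Group H] [Finite H] {p : ℕ} (hp : p.Prime)
    (hH : ¬ p ^ 2 ∣ Nat.card H) (a b : H) (ha : orderOf a = p) (hb : orderOf b = p) :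
    ∃ y : H, ∃ i : ℤ, y * b * y⁻¹ = a ^ i := by
  have : Fact p.Prime := ⟨hp⟩
  have hne : Nat.card H ≠ 0 := Nat.card_pos.ne'
  have h1 : p ∣ Nat.card H := ha ▸ orderOf_dvd_natCard a
  have hf : (Nat.card H).factorization p = 1 := by
    have h2 : 1 ≤ (Nat.card H).factorization p :=
      (hp.dvd_iff_one_le_factorization hne).1 h1
    have h3 : ¬ 2 ≤ (Nat.card H).factorization p := fun h =>
      hH ((hp.pow_dvd_iff_le_factorization hne).2 h)
    omega
  have ca : Nat.card (Subgroup.zpowers a) = p ^ (Nat.card H).factorization p := by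
    rw [hf, pow_one, Nat.card_zpowers, ha]
  have cb : Nat.card (Subgroup.zpowers b) = p ^ (Nat.card H).factorization p := by
    rw [hf, pow_one, Nat.card_zpowers, hb]
  obtain ⟨y, hy⟩ := MulAction.exists_smul_eq H (Sylow.ofCard _ cb) (Sylow.ofCard _ ca)
  have hy' : (MulAut.conj y) • (Subgroup.zpowers b) = Subgroup.zpowers a := by
    have := congrArg (fun P : Sylow p H => (P : Subgroup H)) hy
    simpa only [Sylow.coe_subgroup_smul, Sylow.coe_ofCard] using this
  have hm : (MulAut.conj y) • b ∈ Subgroup.zpowers a := by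
    rw [← hy']
    exact Subgroup.smul_mem_pointwise_smul _ _ _ (Subgroup.mem_zpowers b)
  obtain ⟨i, hi⟩ := Subgroup.mem_zpowers_iff.1 hm
  refine ⟨y, i, ?_⟩
  rw [hi]
  rfl

lemma jordan_not_sq_dvd {p : ℕ} (hp : p.Prime) : ¬ p ^ 2 ∣ p.factorial := by
  intro h
  obtain ⟨q, rfl⟩ : ∃ q, p = q + 1 := ⟨p - 1, by have := hp.pos; omega⟩
  rw [Nat.factorial_succ, sq] at h
  have h2 : (q + 1) ∣ q.factorial := Nat.dvd_of_mul_dvd_mul_left (Nat.succ_pos q) h
  have := (hp.dvd_factorial).1 h2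
  omega

section

variable {α : Type} [Fintype α] [DecidableEq α]

/-- every permutation is matched, on the fixed points of the cycle, by an element of `G` -/
lemma jordan_trans (G : Subgroup (Equiv.Perm α))
    (hG : MulAction.IsPreprimitive G α) {g : Equiv.Perm α} (hg : g ∈ G) (hc : g.IsCycle)
    (hp : g.support.card.Prime) (h3 : g.support.card + 3 ≤ Fintype.card α) (u : Equiv.Perm α) :
    ∃ x ∈ G, ∀ s, g s = s → x s = u s := by
  classical
  obtain ⟨n, hn⟩ : ∃ n, Fintype.card α = g.support.card + (n + 1) :=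
    ⟨Fintype.card α - g.support.card - 1, by omega⟩
  have h2 := hp.two_le
  have hsc : Set.ncard ((g.support : Set α)ᶜ) = n + 1 := by
    have := Set.ncard_add_ncard_compl (g.support : Set α)
    rw [Set.ncard_coe_finset, Nat.card_eq_fintype_card, hn] at this
    omega
  have hlt : n + 2 < Nat.card α := by
    rw [Nat.card_eq_fintype_card, hn]; omega
  have hpre := Equiv.Perm.isPretransitive_of_isCycle_mem hc hg
  have hcard : Nat.card (SubMulAction.ofFixingSubgroup G (g.support : Set α)ᶜ)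
      = g.support.card := by
    rw [Nat.card_eq_fintype_card, Fintype.card_subtype]
    apply congr_arg
    ext x
    simp [SubMulAction.mem_ofFixingSubgroup_iff]
  have hprim : MulAction.IsPreprimitive (fixingSubgroup G (g.support : Set α)ᶜ)
      (SubMulAction.ofFixingSubgroup G (g.support : Set α)ᶜ) :=
    MulAction.IsPreprimitive.of_prime_card (by rw [hcard]; exact hp)
  have hmp : MulAction.IsMultiplyPreprimitive G α (n + 2) :=
    hG.isMultiplyPreprimitive hsc hlt hprim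
  have hmt : MulAction.IsMultiplyPretransitive G α (n + 2) :=
    MulAction.IsMultiplyPreprimitive.isMultiplyPretransitive ..
  have hmt' : MulAction.IsMultiplyPretransitive G α (n + 1) :=
    MulAction.isMultiplyPretransitive_of_le (n := n + 2) (by omega) hlt.le
  have hS : (g.supportᶜ).card = n + 1 := by
    rw [Finset.card_compl, hn]; omega
  let e : Fin (n + 1) ≃ (g.supportᶜ : Finset α) := (Finset.equivFinOfCardEq hS).symm
  let e1 : Fin (n + 1) ↪ α := e.toEmbedding.trans (Function.Embedding.subtype _)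
  let e2 : Fin (n + 1) ↪ α := e1.trans u.toEmbedding
  obtain ⟨x, hx⟩ := MulAction.exists_smul_eq G e1 e2
  refine ⟨x, x.2, fun s hs => ?_⟩
  have hs' : s ∈ g.supportᶜ := by
    rw [Finset.mem_compl, Equiv.Perm.notMem_support]; exact hs
  have h1 : e1 (e.symm ⟨s, hs'⟩) = s := by simp [e1]
  have h4 := congrArg (fun f : Fin (n + 1) ↪ α => f (e.symm ⟨s, hs'⟩)) hx
  simp only [Function.Embedding.smul_apply, e2, Function.Embedding.trans_apply, h1] at h4
  exact h4

/-- the matching element can be taken in the normaliser of the cyclic group -/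
lemma jordan_norm (G : Subgroup (Equiv.Perm α))
    (hG : MulAction.IsPreprimitive G α) {g : Equiv.Perm α} (hg : g ∈ G) (hc : g.IsCycle)
    (hp : g.support.card.Prime) (h3 : g.support.card + 3 ≤ Fintype.card α) (u : Equiv.Perm α)
    (hu : ∀ s, g s ≠ s → u s = s) :
    ∃ z ∈ G, (∀ s, g s = s → z s = u s) ∧ ∃ i : ℤ, z * g * z⁻¹ = g ^ i := by
  classical
  obtain ⟨x, hxG, hx⟩ := jordan_trans G hG hg hc hp h3 u
  have hufix : ∀ s, g s = s → g (u s) = u s := by
    intro s hs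
    by_contra h
    have h1 := hu (u s) h
    have h2 : u s = s := u.injective h1
    rw [h2] at h
    exact h hs
  have hufix' : ∀ s, g s = s → g (u⁻¹ s) = u⁻¹ s := by
    intro s hs
    by_contra h
    have h1 := hu (u⁻¹ s) h
    have h2 : s = u⁻¹ s := by simpa using h1
    rw [← h2] at h
    exact h hs
  let K : Subgroup (Equiv.Perm α) :=
    (Equiv.Perm.ofSubtype : Equiv.Perm {a // a ∈ g.support} →* Equiv.Perm α).range
  have hK : ∀ k : Equiv.Perm α, k ∈ K ↔ ∀ s, g s = s → k s = s := by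
    intro k
    rw [Equiv.Perm.mem_range_ofSubtype_iff]
    constructor
    · intro h s hs
      by_contra hk
      have h1 : s ∈ (k.support : Set α) := by simpa using hk
      have h2 := h h1
      simp only [Set.mem_ofPred_eq, Equiv.Perm.mem_support] at h2
      exact h2 hs
    · intro h s hs
      simp only [Set.mem_ofPred_eq, Equiv.Perm.mem_support]
      intro h1
      have h2 : k s ≠ s := by simpa using hs
      exact h2 (h s h1)
  have hKc : Nat.card K = g.support.card.factorial := by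
    have h1 : Nat.card K = Nat.card (Equiv.Perm {a // a ∈ g.support}) :=
      (Nat.card_congr (MonoidHom.ofInjective Equiv.Perm.ofSubtype_injective).toEquiv).symm
    rw [h1, Nat.card_perm, Nat.card_eq_fintype_card, Fintype.card_coe]
  have hHc : ¬ g.support.card ^ 2 ∣ Nat.card (G ⊓ K : Subgroup (Equiv.Perm α)) := by
    intro h
    apply jordan_not_sq_dvd hp
    rw [← hKc]
    exact h.trans (Subgroup.card_dvd_of_le inf_le_right)
  have hgH : g ∈ G ⊓ K := ⟨hg, (hK g).2 fun s hs => hs⟩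
  have hg'H : x * g * x⁻¹ ∈ G ⊓ K := by
    refine ⟨G.mul_mem (G.mul_mem hxG hg) (G.inv_mem hxG), (hK _).2 fun s hs => ?_⟩
    have h1 : x (u⁻¹ s) = s := by rw [hx _ (hufix' s hs)]; simp
    have h2 : x⁻¹ s = u⁻¹ s := by rw [Equiv.Perm.inv_eq_iff_eq]; exact h1.symm
    rw [Equiv.Perm.mul_apply, Equiv.Perm.mul_apply, h2, hufix' s hs, h1]
  have ho1 : orderOf (⟨g, hgH⟩ : (G ⊓ K : Subgroup (Equiv.Perm α))) = g.support.card := by
    rw [Subgroup.orderOf_mk, hc.orderOf]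
  have ho2 : orderOf (⟨x * g * x⁻¹, hg'H⟩ : (G ⊓ K : Subgroup (Equiv.Perm α)))
      = g.support.card := by
    rw [Subgroup.orderOf_mk, ← hc.orderOf]
    exact (MulAut.conj x).orderOf_eq g
  obtain ⟨y, i, hy⟩ := jordan_sylow hp hHc _ _ ho1 ho2
  have hy' : (y : Equiv.Perm α) * (x * g * x⁻¹) * (y : Equiv.Perm α)⁻¹ = g ^ i := by
    have := congrArg (fun t : (G ⊓ K : Subgroup (Equiv.Perm α)) => (t : Equiv.Perm α)) hy
    simpa using this
  refine ⟨(y : Equiv.Perm α) * x, G.mul_mem y.2.1 hxG, fun s hs => ?_, i, ?_⟩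
  · rw [Equiv.Perm.mul_apply, hx s hs]
    exact (hK _).1 y.2.2 _ (hufix s hs)
  · rw [← hy']; group

end

/-- Jordan: a primitive group with a cycle of prime length fixing at least three points -/
theorem jordan {α : Type} [Fintype α] [DecidableEq α] (G : Subgroup (Equiv.Perm α))
    (hG : MulAction.IsPreprimitive G α) {g : Equiv.Perm α} (hg : g ∈ G) (hc : g.IsCycle)
    (hp : g.support.card.Prime) (h3 : g.support.card + 3 ≤ Fintype.card α) :
    alternatingGroup α ≤ G := by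
  have hS : 2 < (g.supportᶜ).card := by
    rw [Finset.card_compl]; omega
  obtain ⟨a, b, c, ha, hb, hcc, hab, hac, hbc⟩ := Finset.two_lt_card_iff.1 hS
  rw [Finset.mem_compl, Equiv.Perm.notMem_support] at ha hb hcc
  have hsw : ∀ d e : α, g d = d → g e = e → ∀ s, g s ≠ s → Equiv.swap d e s = s := by
    intro d e hd he s hs
    apply Equiv.swap_apply_of_ne_of_ne
    · rintro rfl; exact hs hd
    · rintro rfl; exact hs he
  have hsw' : ∀ d e : α, g d = d → g e = e → ∀ s, g s = s →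
      g (Equiv.swap d e s) = Equiv.swap d e s := by
    intro d e hd he s hs
    rw [Equiv.swap_apply_def]
    split_ifs
    · exact he
    · exact hd
    · exact hs
  obtain ⟨z, hzG, hz, i, hi⟩ := jordan_norm G hG hg hc hp h3 (Equiv.swap a b) (hsw a b ha hb)
  obtain ⟨t, htG, ht, j, hj⟩ := jordan_norm G hG hg hc hp h3 (Equiv.swap a c) (hsw a c ha hcc)
  have e1 : (z * t) * g * (z * t)⁻¹ = g ^ (i * j) := by
    have : (z * t) * g * (z * t)⁻¹ = z * (t * g * t⁻¹) * z⁻¹ := by group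
    rw [this, hj, ← conj_zpow, hi, ← zpow_mul]
  have e2 : (t * z) * g * (t * z)⁻¹ = g ^ (i * j) := by
    have : (t * z) * g * (t * z)⁻¹ = t * (z * g * z⁻¹) * t⁻¹ := by group
    rw [this, hi, ← conj_zpow, hj, ← zpow_mul, mul_comm j i]
  set w : Equiv.Perm α := (t * z)⁻¹ * (z * t) with hw
  have hwG : w ∈ G := G.mul_mem (G.inv_mem (G.mul_mem htG hzG)) (G.mul_mem hzG htG)
  have hwg : w * g = g * w := by
    have h1 : w * g = (t * z)⁻¹ * ((z * t) * g * (z * t)⁻¹) * (z * t) := by rw [hw]; group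
    rw [h1, e1, ← e2, hw]; group
  have hcomm : Commute w g := hwg
  have hwfix : ∀ s, g s = s → g (w s) = w s := by
    intro s hs
    rw [← Equiv.Perm.mul_apply, ← hwg, Equiv.Perm.mul_apply, hs]
  have hwS : ∀ s, g s = s → w s =
      (Equiv.swap a b * Equiv.swap a c * (Equiv.swap a b * Equiv.swap a c)) s := by
    intro s hs
    have h1 : t (z (w s)) = z (t s) := by
      have h0 : (t * z) (w s) = (z * t) s := by
        rw [← Equiv.Perm.mul_apply, hw, mul_inv_cancel_left]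
      exact h0
    rw [hz _ (hwfix s hs),
      ht _ (hsw' a b ha hb _ (hwfix s hs)), ht s hs, hz _ (hsw' a c ha hcc s hs)] at h1
    simp only [Equiv.Perm.mul_apply]
    rw [← h1, Equiv.swap_apply_self, Equiv.swap_apply_self]
  obtain ⟨x0, hx0, hcyc⟩ := hc
  have hwx0 : g (w x0) ≠ w x0 := by
    intro h
    rw [← Equiv.Perm.mul_apply, ← hwg, Equiv.Perm.mul_apply] at h
    exact hx0 (w.injective h)
  obtain ⟨k, hk⟩ := hcyc hwx0
  have hwT : ∀ y, g y ≠ y → w y = (g ^ k) y := by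
    intro y hy
    obtain ⟨l, hl⟩ := hcyc hy
    rw [← hl, ← Equiv.Perm.mul_apply, (hcomm.zpow_right l).eq, Equiv.Perm.mul_apply, ← hk,
      ← Equiv.Perm.mul_apply, ← Equiv.Perm.mul_apply, zpow_mul_comm]
  have hτ : (g ^ k)⁻¹ * w =
      Equiv.swap a b * Equiv.swap a c * (Equiv.swap a b * Equiv.swap a c) := by
    ext s
    by_cases hs : g s = s
    · rw [Equiv.Perm.mul_apply, ← hwS s hs, Equiv.Perm.inv_eq_iff_eq]
      exact (Equiv.Perm.zpow_apply_eq_self_of_apply_eq_self (hwfix s hs) k).symm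
    · rw [Equiv.Perm.mul_apply, hwT s hs]
      simp only [Equiv.Perm.mul_apply, hsw a c ha hcc s hs, hsw a b ha hb s hs]
      simp
  refine Equiv.Perm.alternatingGroup_le_of_isPreprimitive_of_isThreeCycle_mem hG
    (Equiv.Perm.isThreeCycle_swap_mul_swap_same hab hac hbc).isThreeCycle_sq ?_
  rw [← hτ]
  exact G.mul_mem (G.inv_mem (G.zpow_mem hg k)) hwG

end Pool.Agent.VDW

namespace Pool.Agent.VDW

open Polynomial Finset
open scoped BigOperators

theorem prim {α : Type} [Fintype α] [DecidableEq α] (G : Subgroup (Equiv.Perm α))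
    (hG : MulAction.IsPretransitive G α) {g : Equiv.Perm α} (hg : g ∈ G) (hc : g.IsCycle)
    (hp : g.support.card.Prime) (h2 : Fintype.card α < 2 * g.support.card) :
    MulAction.IsPreprimitive G α := by
  have h1 := Equiv.Perm.isPretransitive_of_isCycle_mem hc hg
  have hcard : Nat.card (SubMulAction.ofFixingSubgroup G ((g.support : Set α)ᶜ))
      = g.support.card := by
    classical
    rw [Nat.card_eq_fintype_card, Fintype.card_subtype]
    apply congr_arg
    ext x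
    simp [SubMulAction.mem_ofFixingSubgroup_iff]
  have h3 : MulAction.IsPreprimitive (fixingSubgroup G ((g.support : Set α)ᶜ))
      (SubMulAction.ofFixingSubgroup G ((g.support : Set α)ᶜ)) :=
    MulAction.IsPreprimitive.of_prime_card (by rw [hcard]; exact hp)
  refine MulAction.IsPreprimitive.of_card_lt
    (f := SubMulAction.ofFixingSubgroup_equivariantMap G ((g.support : Set α)ᶜ)) ?_
  have hr : (Set.range (SubMulAction.ofFixingSubgroup_equivariantMap G
      ((g.support : Set α)ᶜ))).ncard = g.support.card := by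
    rw [Set.ncard_range_of_injective SubMulAction.ofFixingSubgroup_equivariantMap_injective, hcard]
  rw [hr, Nat.card_eq_fintype_card]
  exact h2

theorem top_of_cycle {α : Type} [Fintype α] [DecidableEq α] (G : Subgroup (Equiv.Perm α))
    (hG : MulAction.IsPretransitive G α) {g s : Equiv.Perm α} (hg : g ∈ G) (hc : g.IsCycle)
    (hp : g.support.card.Prime) (h2 : Fintype.card α < 2 * g.support.card)
    (h3 : g.support.card + 3 ≤ Fintype.card α) (hs : s ∈ G) (hodd : Equiv.Perm.sign s = -1) :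
    G = ⊤ := by
  have hA := jordan G (prim G hG hg hc hp h2) hg hc hp h3
  rw [eq_top_iff]
  intro t _
  rcases Int.units_eq_one_or (Equiv.Perm.sign t) with ht | ht
  · exact hA (Equiv.Perm.mem_alternatingGroup.mpr ht)
  · have h4 : t * s⁻¹ ∈ alternatingGroup α := by
      rw [Equiv.Perm.mem_alternatingGroup, map_mul, map_inv, ht, hodd]
      simp
    have h5 := G.mul_mem (hA h4) hs
    simpa using h5

end Pool.Agent.VDW

namespace Pool.Agent.VDW

open Polynomial Finset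
open scoped BigOperators

variable {F : Type} [Field F] [Fintype F] [DecidableEq F]

namespace FrobS

omit [DecidableEq F] in
/-- two roots of a monic irreducible polynomial are conjugate under a power of Frobenius -/
lemma conj_roots {k : Type} [Field k] [Finite k] [Algebra F k] {a : F[X]} (hm : a.Monic)
    (ha : Irreducible a) {x y : k} (hx : aeval x a = 0) (hy : aeval y a = 0) :
    ∃ n : ℕ, y = x ^ (Fintype.card F ^ n) := by
  have h1 : a = minpoly F x := minpoly.eq_of_irreducible_of_monic ha hx hm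
  have h2 : a = minpoly F y := minpoly.eq_of_irreducible_of_monic ha hy hm
  obtain ⟨σ, hσ⟩ := (Normal.minpoly_eq_iff_mem_orbit k).mp (h2.symm.trans h1)
  obtain ⟨n, hn⟩ := (FiniteField.bijective_frobeniusAlgEquivOfAlgebraic_pow F k).2 σ
  refine ⟨n.1, ?_⟩
  have h3 : σ x = y := hσ
  rw [← h3, ← hn]
  simp only [AlgEquiv.coe_pow]
  rw [FiniteField.coe_frobeniusAlgEquivOfAlgebraic_iterate]

/-- a permutation with one orbit -/
lemma sign_one_orbit {α : Type} [Fintype α] [DecidableEq α] (π : Equiv.Perm α)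
    (h0 : 0 < Fintype.card α) (h : ∀ x y, ∃ n : ℕ, (π ^ n) x = y) :
    ((Equiv.Perm.sign π : ℤˣ) : ℤ) = -(-1) ^ Fintype.card α := by
  by_cases h1 : Fintype.card α = 1
  · have : Subsingleton α := Fintype.card_le_one_iff_subsingleton.1 h1.le
    rw [h1, Subsingleton.elim π 1]
    simp
  · have hnt : Nontrivial α := Fintype.one_lt_card_iff_nontrivial.1 (by omega)
    have hfix : ∀ x, π x ≠ x := by
      intro x hx
      obtain ⟨y, hy⟩ := exists_ne x
      obtain ⟨n, hn⟩ := h x y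
      rw [Equiv.Perm.pow_apply_eq_self_of_apply_eq_self hx n] at hn
      exact hy hn.symm
    obtain ⟨x0⟩ : Nonempty α := inferInstance
    have hc : π.IsCycle := by
      refine ⟨x0, hfix x0, fun y _ => ?_⟩
      obtain ⟨n, hn⟩ := h x0 y
      exact ⟨(n : ℤ), by simpa using hn⟩
    have hs : π.support = univ := by
      ext x; simp [hfix x]
    rw [hc.sign, hs, card_univ]
    simp

/-- splitting along an invariant predicate -/
lemma sign_split {α : Type} [Fintype α] [DecidableEq α] (π : Equiv.Perm α) (p : α → Prop)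
    [DecidablePred p] (h : ∀ x, p (π x) ↔ p x) (h' : ∀ x, ¬ p (π x) ↔ ¬ p x) :
    Equiv.Perm.sign π = Equiv.Perm.sign (π.subtypePerm h) *
      Equiv.Perm.sign (π.subtypePerm (p := fun x => ¬ p x) h') := by
  rw [← Equiv.Perm.sign_subtypeCongr]
  congr 1
  ext x
  by_cases hx : p x
  · rw [Equiv.Perm.subtypeCongr.left_apply _ _ hx]; rfl
  · rw [Equiv.Perm.subtypeCongr.right_apply _ _ hx]; rfl

omit [Fintype F] [DecidableEq F] in
lemma card_roots_le {k : Type} [Field k] [Algebra F k] {a : F[X]} (ha : a ≠ 0) {α : Type}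
    [Fintype α] (e : α → k) (he : Function.Injective e) (hr : ∀ x, aeval (e x) a = 0) :
    Fintype.card α ≤ a.natDegree := by
  classical
  have h1 : (univ.image e).card = Fintype.card α := by
    rw [card_image_of_injective _ he, card_univ]
  have h2 : (univ.image e).val ⊆ (a.map (algebraMap F k)).roots := by
    intro y hy
    have hy' : y ∈ univ.image e := hy
    obtain ⟨x, -, rfl⟩ := mem_image.1 hy'
    rw [mem_roots (map_ne_zero ha), IsRoot, eval_map_algebraMap]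
    exact hr x
  have h3 := card_le_degree_of_subset_roots h2
  rwa [h1, natDegree_map] at h3

omit [DecidableEq F] in
lemma aeval_frob {k : Type} [Field k] [Algebra F k] (a : F[X]) (x : k) :
    aeval (x ^ Fintype.card F) a = (aeval x a) ^ Fintype.card F :=
  aeval_algHom_apply (FiniteField.frobeniusAlgHom F k) x a

omit [DecidableEq F] in
lemma main {k : Type} [Field k] [Finite k] [Algebra F k] (d : ℕ) : ∀ {f : F[X]} (_ : f.Monic)
    (_ : Squarefree f) (_ : f.natDegree = d) {α : Type} [Fintype α] [DecidableEq α]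
    (_ : Fintype.card α = f.natDegree) (e : α → k) (_ : Function.Injective e)
    (_ : ∀ x, aeval (e x) f = 0) (π : Equiv.Perm α)
    (_ : ∀ x, e (π x) = e x ^ Fintype.card F),
    ((Equiv.Perm.sign π : ℤˣ) : ℤ) = (-1) ^ f.natDegree * UniqueFactorizationMonoid.moebius f := by
  induction d using Nat.strong_induction_on with
  | _ d ih =>
  intro f hm hf hd α _ _ hn e he hr π hπ
  classical
  by_cases h0 : f.natDegree = 0
  · have h1 : f = 1 := hm.natDegree_eq_zero.1 h0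
    have : Subsingleton α := Fintype.card_le_one_iff_subsingleton.1 (by omega)
    rw [Subsingleton.elim π 1, h0, h1, UniqueFactorizationMonoid.moebius_one]
    simp
  have hu : ¬ IsUnit f := fun hu => h0 (natDegree_eq_zero_of_isUnit hu)
  obtain ⟨a, ham, hai, b, hab⟩ := exists_monic_irreducible_factor f hu
  have hbm : b.Monic := ham.of_mul_monic_left (hab ▸ hm)
  have hsq := squarefree_mul_iff.1 (hab ▸ hf)
  have hdeg : f.natDegree = a.natDegree + b.natDegree := by rw [hab, ham.natDegree_mul hbm]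
  have hapos : 0 < a.natDegree := hai.natDegree_pos
  have hq : Fintype.card F ≠ 0 := Fintype.card_ne_zero
  have hinv : ∀ x, aeval (e (π x)) a = 0 ↔ aeval (e x) a = 0 := by
    intro x
    rw [hπ, aeval_frob, pow_eq_zero_iff hq]
  have hinv' : ∀ x, ¬ aeval (e (π x)) a = 0 ↔ ¬ aeval (e x) a = 0 := fun x => not_congr (hinv x)
  have hrb : ∀ x : {x // ¬ aeval (e x) a = 0}, aeval (e x.1) b = 0 := by
    intro x
    have h1 := hr x.1
    rw [hab, map_mul] at h1
    exact (mul_eq_zero.1 h1).resolve_left x.2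
  have hca : Fintype.card {x // aeval (e x) a = 0} ≤ a.natDegree :=
    card_roots_le ham.ne_zero (fun x => e x.1) (he.comp Subtype.val_injective) (fun x => x.2)
  have hcb : Fintype.card {x // ¬ aeval (e x) a = 0} ≤ b.natDegree :=
    card_roots_le hbm.ne_zero (fun x => e x.1) (he.comp Subtype.val_injective) hrb
  have hsum : Fintype.card {x // ¬ aeval (e x) a = 0} =
      Fintype.card α - Fintype.card {x // aeval (e x) a = 0} := Fintype.card_subtype_compl _
  have hca' : Fintype.card {x // aeval (e x) a = 0} = a.natDegree := by omega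
  have hcb' : Fintype.card {x // ¬ aeval (e x) a = 0} = b.natDegree := by omega
  have hB := ih b.natDegree (by omega) hbm hsq.2.2 rfl hcb' (fun x => e x.1)
    (he.comp Subtype.val_injective) hrb
    (π.subtypePerm (p := fun x => ¬ aeval (e x) a = 0) hinv') (fun x => hπ x.1)
  have hpow : ∀ (n : ℕ) x, e ((π ^ n) x) = e x ^ (Fintype.card F ^ n) := by
    intro n
    induction n with
    | zero => intro x; simp
    | succ n ihn =>
      intro x
      rw [pow_succ', Equiv.Perm.mul_apply, hπ, ihn, ← pow_mul, ← pow_succ]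
  have hA := sign_one_orbit (π.subtypePerm (p := fun x => aeval (e x) a = 0) hinv)
    (by omega) (by
      intro x y
      obtain ⟨n, hn⟩ := conj_roots ham hai x.2 y.2
      refine ⟨n, Subtype.ext (he ?_)⟩
      rw [Equiv.Perm.subtypePerm_pow, Equiv.Perm.subtypePerm_apply, hpow, hn])
  rw [sign_split π (fun x => aeval (e x) a = 0) hinv hinv', Units.val_mul, hA, hB, hca', hdeg, hab,
    hsq.1.moebius_mul, hai.moebius_eq]
  ring

end FrobS

/-- sign of the Frobenius permutation of the roots of a squarefree polynomial -/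
theorem frob_sign {k : Type} [Field k] [Finite k] [Algebra F k] {f : F[X]} (hm : f.Monic)
    (hf : Squarefree f) {α : Type} [Fintype α] [DecidableEq α]
    (hn : Fintype.card α = f.natDegree) (e : α → k) (he : Function.Injective e)
    (hr : ∀ x, aeval (e x) f = 0) (π : Equiv.Perm α)
    (hπ : ∀ x, e (π x) = e x ^ Fintype.card F) :
    (((Equiv.Perm.sign π : ℤˣ) : ℤ) : ℝ) = (-1) ^ f.natDegree * mu f := by
  rw [FrobS.main f.natDegree hm hf rfl hn e he hr π hπ, mu]
  push_cast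
  ring

end Pool.Agent.VDW

namespace Pool.Agent.VDW

open Polynomial Finset
open scoped BigOperators

variable {F : Type} [Field F] [Fintype F] [DecidableEq F]

omit [DecidableEq F] in
/-- a root of an irreducible polynomial is fixed by the `n`-th Frobenius power exactly when the
degree divides `n` -/
lemma frobC_fixed_iff {k : Type} [Field k] [Algebra F k] {g : F[X]} (hg : Irreducible g)
    {y : k} (hy : aeval y g = 0) (n : ℕ) :
    y ^ (Fintype.card F ^ n) = y ↔ g.natDegree ∣ n := by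
  rw [hg.natDegree_dvd_iff_dvd_X_pow_card_pow_sub_X, Nat.card_eq_fintype_card]
  constructor
  · intro h
    have h0 : aeval y (X ^ Fintype.card F ^ n - X : F[X]) = 0 := by simp [h]
    by_contra hnd
    have hc : IsCoprime g (X ^ Fintype.card F ^ n - X : F[X]) :=
      (hg.coprime_iff_not_dvd).2 hnd
    obtain ⟨u, v, huv⟩ := hc
    have := congrArg (aeval y) huv
    rw [map_add, map_mul, map_mul, hy, h0] at this
    simp at this
  · rintro ⟨c, hc⟩
    have := congrArg (aeval y) hc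
    rw [map_mul, hy, zero_mul] at this
    simpa [sub_eq_zero] using this

omit [DecidableEq F] in
lemma frobC_pow {k : Type} [Field k] {α : Type} (e : α → k) (π : Equiv.Perm α)
    (hπ : ∀ x, e (π x) = e x ^ Fintype.card F) (n : ℕ) (x : α) :
    e ((π ^ n) x) = e x ^ (Fintype.card F ^ n) := by
  induction n with
  | zero => simp
  | succ n ih =>
    rw [pow_succ', Equiv.Perm.mul_apply, hπ, ih, ← pow_mul, pow_succ]

/-- a large irreducible factor of prime degree gives a cycle -/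
theorem frob_cycle {k : Type} [Field k] [Finite k] [Algebra F k] {f a : F[X]} (hm : f.Monic)
    {α : Type} [Fintype α] [DecidableEq α]
    (hn : Fintype.card α = f.natDegree) (e : α → k) (he : Function.Injective e)
    (hr : ∀ x, aeval (e x) f = 0) (π : Equiv.Perm α)
    (hπ : ∀ x, e (π x) = e x ^ Fintype.card F)
    (ha : Irreducible a) (haf : a ∣ f) (hp : a.natDegree.Prime)
    (h2 : f.natDegree < 2 * a.natDegree) :
    ∃ N : ℕ, (π ^ N).IsCycle ∧ (π ^ N).support.card = a.natDegree := by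
  classical
  obtain ⟨b, hb⟩ := haf
  have hf0 : f ≠ 0 := hm.ne_zero
  have hb0 : b ≠ 0 := by
    rintro rfl
    exact hf0 (by simpa using hb)
  have hdeg : f.natDegree = a.natDegree + b.natDegree := by
    rw [hb, natDegree_mul ha.ne_zero hb0]
  have hlt : b.natDegree < a.natDegree := by omega
  have hfix : ∀ (g : F[X]), Irreducible g → ∀ x, aeval (e x) g = 0 → ∀ n,
      ((π ^ n) x = x ↔ g.natDegree ∣ n) := by
    intro g hg x hx n
    rw [← frobC_fixed_iff hg hx n, ← frobC_pow e π hπ n x]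
    exact ⟨fun h => by rw [h], fun h => he h⟩
  -- points that are not roots of `a` are fixed by the factorial power
  have hoff : ∀ x, aeval (e x) a ≠ 0 → (π ^ b.natDegree.factorial) x = x := by
    intro x hx
    have hbx : aeval (e x) b = 0 := by
      have := hr x
      rw [hb, map_mul] at this
      exact (mul_eq_zero.1 this).resolve_left hx
    have hint : IsIntegral F (e x) := ⟨f, hm, by simpa [aeval_def] using hr x⟩
    have hirr := minpoly.irreducible hint
    rw [hfix _ hirr x (minpoly.aeval F (e x))]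
    exact Nat.dvd_factorial (minpoly.natDegree_pos hint)
      (natDegree_le_of_dvd (minpoly.dvd F (e x) hbx) hb0)
  -- there is a root of `a`
  have hex : ∃ x, aeval (e x) a = 0 := by
    by_contra hno
    push Not at hno
    have hsub : (Finset.univ.image e) ⊆ (b.aroots k).toFinset := by
      intro y hy
      obtain ⟨x, -, rfl⟩ := Finset.mem_image.1 hy
      have hbx : aeval (e x) b = 0 := by
        have := hr x
        rw [hb, map_mul] at this
        exact (mul_eq_zero.1 this).resolve_left (hno x)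
      rw [Multiset.mem_toFinset, mem_aroots]
      exact ⟨hb0, hbx⟩
    have h1 := Finset.card_le_card hsub
    rw [Finset.card_image_of_injective _ he, Finset.card_univ] at h1
    have h3 : (b.aroots k).toFinset.card ≤ b.natDegree :=
      (Multiset.toFinset_card_le _).trans
        ((card_roots' _).trans (natDegree_map_le))
    have := hp.pos
    omega
  obtain ⟨x0, hx0⟩ := hex
  have hne : π ^ b.natDegree.factorial ≠ 1 := by
    intro h
    have h1 : (π ^ b.natDegree.factorial) x0 = x0 := by rw [h]; rfl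
    rw [hfix a ha x0 hx0, hp.dvd_factorial] at h1
    omega
  have hpow : (π ^ b.natDegree.factorial) ^ a.natDegree = 1 := by
    ext x
    by_cases hx : aeval (e x) a = 0
    · rw [← pow_mul, Equiv.Perm.one_apply, hfix a ha x hx]
      exact Dvd.intro_left _ rfl
    · rw [Equiv.Perm.one_apply]
      exact Equiv.Perm.pow_apply_eq_self_of_apply_eq_self (hoff x hx) _
  haveI : Fact a.natDegree.Prime := ⟨hp⟩
  have hord : orderOf (π ^ b.natDegree.factorial) = a.natDegree := orderOf_eq_prime hpow hne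
  have hcyc : (π ^ b.natDegree.factorial).IsCycle :=
    Equiv.Perm.isCycle_of_prime_order' (by rw [hord]; exact hp) (by rw [hord, hn]; exact h2)
  exact ⟨_, hcyc, by rw [← hcyc.orderOf, hord]⟩

end Pool.Agent.VDW

namespace Pool.Agent.VDW

open Polynomial Finset
open scoped BigOperators

private lemma ded_degree_lt {R : Type} [CommRing R] [Nontrivial R] {n : ℕ} (v : Fin n → R) :
    (∑ i : Fin n, C (v i) * X ^ (i : ℕ)).degree < (X ^ n : R[X]).degree := by
  rw [degree_X_pow]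
  exact degree_sum_fin_lt v

private lemma ded_monic {R : Type} [CommRing R] [Nontrivial R] {n : ℕ} (v : Fin n → R) :
    (mon v).Monic := (monic_X_pow n).add_of_left (ded_degree_lt v)

private lemma ded_natDegree {R : Type} [CommRing R] [Nontrivial R] {n : ℕ} (v : Fin n → R) :
    (mon v).natDegree = n := by
  unfold mon
  rw [natDegree_eq_of_degree_eq (degree_add_eq_left_of_degree_lt (ded_degree_lt v)),
    natDegree_X_pow]

private lemma ded_map (R : Type) [CommRing R] {n : ℕ} (a : Fin n → ℤ) :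
    (mon a).map (Int.castRingHom R) = mon (red R a) := by
  unfold mon red
  rw [Polynomial.map_add, Polynomial.map_pow, map_X, Polynomial.map_sum]
  congr 1
  refine Finset.sum_congr rfl fun i _ => ?_
  rw [Polynomial.map_mul, Polynomial.map_pow, map_X, map_C]
  rfl

private lemma ded_prod {K : Type} [Field K] {n : ℕ} (f : K[X]) (hf : f.Monic)
    (hn : f.natDegree = n) (r : Fin n → K) (hr : Function.Injective r)
    (h0 : ∀ i, f.IsRoot (r i)) : f = ∏ i, (X - C (r i)) := by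
  have hd : (∏ i, (X - C (r i))) ∣ f :=
    Finset.prod_dvd_of_coprime
      (fun i _ j _ hij => pairwise_coprime_X_sub_C hr hij)
      (fun i _ => dvd_iff_isRoot.2 (h0 i))
  have hm : (∏ i, (X - C (r i))).Monic := monic_prod_of_monic _ _ fun i _ => monic_X_sub_C _
  refine eq_of_monic_of_dvd_of_natDegree_le hm hf hd ?_
  rw [natDegree_prod_of_monic _ _ fun i _ => monic_X_sub_C _, hn]
  simp

open NumberField in
private lemma ded_frob {K : Type} [Field K] [NumberField K] [IsGalois ℚ K] {n : ℕ}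
    (f : ℤ[X]) (hf : f.Monic) (hn : f.natDegree = n) (r : Fin n → K)
    (hr : Function.Injective r) (h0 : ∀ i, aeval (r i) f = 0) (p : ℕ) [hp : Fact p.Prime]
    (hsq : Squarefree (f.map (Int.castRingHom (ZMod p)))) :
    ∃ τ : K ≃ₐ[ℚ] K, ∃ (k : Type) (_ : Field k) (_ : Finite k) (_ : Algebra (ZMod p) k)
      (e : Fin n → k), Function.Injective e ∧
        (∀ x, aeval (e x) (f.map (Int.castRingHom (ZMod p))) = 0) ∧
        ∀ x y, τ (r x) = r y → e y = e x ^ p := by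
  classical
  have hint : ∀ i, IsIntegral ℤ (r i) := fun i => ⟨f, hf, by rw [← aeval_def]; exact h0 i⟩
  let ρ : Fin n → 𝓞 K := fun i => ⟨r i, hint i⟩
  have hK : f.map (algebraMap ℤ K) = ∏ i, (X - C (r i)) := by
    refine ded_prod _ (hf.map _) (by rw [hf.natDegree_map, hn]) r hr fun i => ?_
    rw [IsRoot.def, eval_map_algebraMap]
    exact h0 i
  have hO : f.map (algebraMap ℤ (𝓞 K)) = ∏ i, (X - C (ρ i)) := by
    apply Polynomial.map_injective (algebraMap (𝓞 K) K) (RingOfIntegers.coe_injective)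
    rw [Polynomial.map_map, ← IsScalarTower.algebraMap_eq, hK, Polynomial.map_prod]
    refine Finset.prod_congr rfl fun i _ => ?_
    rw [Polynomial.map_sub, map_X, map_C]
    rfl
  have hpZ : Prime (p : ℤ) := Nat.prime_iff_prime_int.mp hp.out
  have hPmax : (Ideal.span {(p : ℤ)}).IsMaximal :=
    ((Ideal.span_singleton_prime hpZ.ne_zero).2 hpZ).isMaximal
      (by rw [Ne, Ideal.span_singleton_eq_bot]; exact hpZ.ne_zero)
  obtain ⟨Q, hQmax, hQ⟩ := Ideal.exists_ideal_over_maximal_of_isIntegral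
    (S := 𝓞 K) (Ideal.span {(p : ℤ)})
    (by
      rw [(RingHom.injective_iff_ker_eq_bot _).1 (algebraMap ℤ (𝓞 K)).injective_int]
      exact bot_le)
  have hpQ : (p : 𝓞 K) ∈ Q := by
    have h1 : (p : ℤ) ∈ Q.comap (algebraMap ℤ (𝓞 K)) := by
      rw [hQ]; exact Ideal.mem_span_singleton_self _
    simpa using h1
  have hQne : Q ≠ ⊥ := by
    intro h
    rw [h, Ideal.mem_bot] at hpQ
    exact hp.out.ne_zero (by exact_mod_cast hpQ)
  haveI : Finite (𝓞 K ⧸ Q) := Ideal.finiteQuotientOfFreeOfNeBot Q hQne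
  letI : Field (𝓞 K ⧸ Q) := Ideal.Quotient.field Q
  haveI : CharP (𝓞 K ⧸ Q) p := by
    refine (CharP.charP_iff_prime_eq_zero hp.out).2 ?_
    rw [← map_natCast (Ideal.Quotient.mk Q)]
    exact Ideal.Quotient.eq_zero_iff_mem.2 hpQ
  letI : Algebra (ZMod p) (𝓞 K ⧸ Q) := ZMod.algebra _ p
  obtain ⟨τ, hτ⟩ := IsArithFrobAt.exists_of_isInvariant ℤ (K ≃ₐ[ℚ] K) Q
  have hcard : Nat.card (ℤ ⧸ Q.under ℤ) = p := by
    have h1 : Q.under ℤ = Ideal.span {(p : ℤ)} := hQ
    rw [h1, Nat.card_congr (Int.quotientSpanNatEquivZMod p).toEquiv, Nat.card_zmod]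
  have hk : (f.map (Int.castRingHom (ZMod p))).map (algebraMap (ZMod p) (𝓞 K ⧸ Q))
      = ∏ i, (X - C (Ideal.Quotient.mk Q (ρ i))) := by
    have h1 : (algebraMap (ZMod p) (𝓞 K ⧸ Q)).comp (Int.castRingHom (ZMod p))
        = (Ideal.Quotient.mk Q).comp (algebraMap ℤ (𝓞 K)) := RingHom.ext_int _ _
    rw [Polynomial.map_map, h1, ← Polynomial.map_map, hO, Polynomial.map_prod]
    refine Finset.prod_congr rfl fun i _ => ?_
    rw [Polynomial.map_sub, map_X, map_C]
  refine ⟨τ, 𝓞 K ⧸ Q, inferInstance, inferInstance, inferInstance,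
    fun i => Ideal.Quotient.mk Q (ρ i), ?_, ?_, ?_⟩
  · have h1 := (PerfectField.separable_iff_squarefree.2 hsq).map
      (f := algebraMap (ZMod p) (𝓞 K ⧸ Q))
    rw [hk] at h1
    exact separable_prod_X_sub_C_iff.1 h1
  · intro x
    rw [← eval_map_algebraMap, hk, eval_prod]
    exact Finset.prod_eq_zero (Finset.mem_univ x) (by simp)
  · intro x y hxy
    have h1 := AlgHom.IsArithFrobAt.mk_apply hτ (ρ x)
    rw [hcard] at h1
    have h2 : MulSemiringAction.toAlgHom ℤ (𝓞 K) τ (ρ x) = ρ y := by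
      apply RingOfIntegers.coe_injective
      exact hxy
    rw [h2] at h1
    exact h1

private lemma ded_frob' {K : Type} [Field K] [CharZero K] [inst : Algebra ℚ K]
    [FiniteDimensional ℚ K] [IsGalois ℚ K] {n : ℕ}
    (f : ℤ[X]) (hf : f.Monic) (hn : f.natDegree = n) (r : Fin n → K)
    (hr : Function.Injective r) (h0 : ∀ i, aeval (r i) (f.map (Int.castRingHom ℚ)) = 0)
    (p : ℕ) [hp : Fact p.Prime]
    (hsq : Squarefree (f.map (Int.castRingHom (ZMod p)))) :
    ∃ τ : K ≃ₐ[ℚ] K, ∃ (k : Type) (_ : Field k) (_ : Finite k) (_ : Algebra (ZMod p) k)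
      (e : Fin n → k), Function.Injective e ∧
        (∀ x, aeval (e x) (f.map (Int.castRingHom (ZMod p))) = 0) ∧
        ∀ x y, τ (r x) = r y → e y = e x ^ p := by
  obtain rfl : inst = DivisionRing.toRatAlgebra := Subsingleton.elim _ _
  haveI : NumberField K := ⟨⟩
  refine ded_frob f hf hn r hr (fun i => ?_) p hsq
  have h1 := h0 i
  rw [← algebraMap_int_eq, aeval_map_algebraMap] at h1
  exact h1

private lemma ded_perm {F : Type} [Field F] {n : ℕ} (f : F[X]) (hirr : Irreducible f)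
    (hsep : f.Separable) (hdeg : f.natDegree = n) :
    ∃ (r : Fin n → f.SplittingField) (φ : f.Gal →* Equiv.Perm (Fin n)),
      Function.Injective r ∧ (∀ i, aeval (r i) f = 0) ∧ Function.Injective φ ∧
      (∀ (g : f.Gal) (i : Fin n), r (φ g i) = g (r i)) ∧ (∀ x y, ∃ g, φ g x = y) ∧
      IsGalois F f.SplittingField ∧ FiniteDimensional F f.SplittingField := by
  classical
  have hcard : Fintype.card (f.rootSet f.SplittingField) = n := by
    rw [card_rootSet_eq_natDegree hsep (SplittingField.splits f), hdeg]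
  let ε : f.rootSet f.SplittingField ≃ Fin n := Fintype.equivFinOfCardEq hcard
  let r : Fin n → f.SplittingField := fun i => (ε.symm i).1
  have hr : Function.Injective r := fun i j h => ε.symm.injective (Subtype.ext h)
  let φ0 : f.Gal →* Equiv.Perm (f.rootSet f.SplittingField) :=
    @MulAction.toPermHom _ _ _ (Gal.galActionAux f)
  have hφ0 : ∀ (g : f.Gal) (x : f.rootSet f.SplittingField), (φ0 g x).1 = g x.1 :=
    fun g x => rfl
  let φ : f.Gal →* Equiv.Perm (Fin n) := (ε.permCongrHom.toMonoidHom).comp φ0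
  have hφ : ∀ (g : f.Gal) (i : Fin n), r (φ g i) = g (r i) := by
    intro g i
    have h1 : φ g i = ε (φ0 g (ε.symm i)) := rfl
    simp only [r, h1, Equiv.symm_apply_apply, hφ0]
  have hinj : Function.Injective φ := by
    intro g h hgh
    refine Gal.ext f fun x hx => ?_
    have h1 := hφ g (ε ⟨x, hx⟩)
    have h2 := hφ h (ε ⟨x, hx⟩)
    rw [hgh, h2] at h1
    simpa only [r, Equiv.symm_apply_apply] using h1.symm
  have hroot : ∀ i, aeval (r i) f = 0 := fun i => (mem_rootSet.mp (ε.symm i).2).2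
  refine ⟨r, φ, hr, hroot, hinj, hφ, fun x y => ?_,
    IsGalois.of_separable_splitting_field hsep, inferInstance⟩
  have hx := minpoly.eq_of_irreducible hirr (hroot x)
  have hy := minpoly.eq_of_irreducible hirr (hroot y)
  obtain ⟨g, hg⟩ := (Normal.minpoly_eq_iff_mem_orbit f.SplittingField).mp (hy.symm.trans hx)
  exact ⟨g, hr ((hφ g x).trans hg)⟩

private lemma ded_main {n : ℕ} (f0 : ℤ[X]) (hm : f0.Monic) (hn : f0.natDegree = n)
    (hirr : Irreducible (f0.map (Int.castRingHom ℚ))) :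
    ∃ G : Subgroup (Equiv.Perm (Fin n)), Nonempty ((f0.map (Int.castRingHom ℚ)).Gal ≃* G) ∧
      MulAction.IsPretransitive G (Fin n) ∧
      ∀ (p : ℕ) [Fact p.Prime], Squarefree (f0.map (Int.castRingHom (ZMod p))) →
        ∃ σ ∈ G, ∃ (k : Type) (_ : Field k) (_ : Finite k) (_ : Algebra (ZMod p) k)
          (e : Fin n → k), Function.Injective e ∧
            (∀ x, aeval (e x) (f0.map (Int.castRingHom (ZMod p))) = 0) ∧
            ∀ x, e (σ x) = e x ^ p := by
  obtain ⟨r, φ, hr, hroot, hinj, hφ, htr, hgal, hfd⟩ :=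
    ded_perm (n := n) _ hirr hirr.separable (by rw [hm.natDegree_map, hn])
  refine ⟨φ.range, ⟨MonoidHom.ofInjective hinj⟩, ⟨fun x y => ?_⟩, ?_⟩
  · obtain ⟨g, hg⟩ := htr x y
    exact ⟨⟨φ g, g, rfl⟩, hg⟩
  · intro p _ hsq
    obtain ⟨τ, k, i1, i2, i3, e, he, he0, heτ⟩ :=
      @ded_frob' _ _ _ (_) hfd hgal n f0 hm hn r hr hroot p _ hsq
    exact ⟨φ τ, ⟨τ, rfl⟩, k, i1, i2, i3, e, he, he0, fun x => heτ x _ (hφ τ x).symm⟩

/-- Dedekind: the Galois group as a transitive permutation group with its Frobenius elements -/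
theorem ded {n : ℕ} (a : Fin n → ℤ) (hirr : Irreducible (mon (red ℚ a))) :
    ∃ G : Subgroup (Equiv.Perm (Fin n)), Nonempty ((mon (red ℚ a)).Gal ≃* G) ∧
      MulAction.IsPretransitive G (Fin n) ∧
      ∀ (p : ℕ) [Fact p.Prime], Squarefree (mon (red (ZMod p) a)) →
        ∃ σ ∈ G, ∃ (k : Type) (_ : Field k) (_ : Finite k) (_ : Algebra (ZMod p) k)
          (e : Fin n → k), Function.Injective e ∧
            (∀ x, aeval (e x) (mon (red (ZMod p) a)) = 0) ∧ ∀ x, e (σ x) = e x ^ p := by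
  rw [← ded_map ℚ a] at hirr ⊢
  obtain ⟨G, h1, h2, h3⟩ := ded_main (mon a) (ded_monic a) (ded_natDegree a) hirr
  refine ⟨G, h1, h2, fun p _ hsq => ?_⟩
  rw [← ded_map] at hsq ⊢
  exact h3 p hsq

end Pool.Agent.VDW

namespace Pool.Agent.VDW

open Polynomial Finset
open scoped BigOperators

lemma disc_coeff {R : Type} [CommRing R] {n : ℕ} (v : Fin n → R) (k : ℕ) :
    (mon v).coeff k = if h : k < n then v ⟨k, h⟩ else if k = n then 1 else 0 := by
  simp only [mon, coeff_add, coeff_X_pow, finsetSum_coeff, coeff_C_mul]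
  by_cases h : k < n
  · rw [dif_pos h, if_neg h.ne, zero_add, sum_eq_single (⟨k, h⟩ : Fin n)] <;>
      simp +contextual [Fin.ext_iff, eq_comm]
  · rw [dif_neg h, sum_eq_zero fun i _ => by rw [if_neg (by omega), mul_zero], add_zero]

lemma disc_natDegree_le {R : Type} [CommRing R] {n : ℕ} (v : Fin n → R) :
    (mon v).natDegree ≤ n :=
  natDegree_le_iff_coeff_eq_zero.2 fun k hk => by
    rw [disc_coeff, dif_neg (by omega), if_neg (by omega)]

lemma disc_map (R : Type) [CommRing R] {n : ℕ} (a : Fin n → ℤ) :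
    (mon a).map (Int.castRingHom R) = mon (red R a) := by
  simp [mon, red, Polynomial.map_sum]

lemma disc_res (R : Type) [CommRing R] {n : ℕ} (a : Fin n → ℤ) :
    ((resultant (mon a) (derivative (mon a)) n n : ℤ) : R) =
      resultant (mon (red R a)) (derivative (mon (red R a))) n n := by
  rw [← disc_map, derivative_map, resultant_map_map]; rfl

/-- the discriminant: nonzero, bounded, and divisible by all inseparable primes -/
theorem disc (n : ℕ) : ∃ A : ℝ, 1 ≤ A ∧ ∀ H : ℝ, 1 ≤ H → ∀ a : Fin n → ℤ, (∀ i, |(a i : ℝ)| ≤ H) →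
    Irreducible (mon (red ℚ a)) → ∃ D : ℤ, D ≠ 0 ∧ |(D : ℝ)| ≤ A * H ^ (2 * n) ∧
      ∀ (p : ℕ) [Fact p.Prime], ¬ (p : ℤ) ∣ D → Squarefree (mon (red (ZMod p) a)) := by
  have n0 : (0 : ℝ) ≤ n := n.cast_nonneg
  refine ⟨(n + n).factorial * (n + 1) ^ (2 * n), one_le_mul_of_one_le_of_one_le
    (by exact_mod_cast (n + n).factorial_pos) (one_le_pow₀ (by linarith)), fun H hH a ha hirr =>
    ⟨resultant (mon a) (derivative (mon a)) n n, fun h0 => ?_, ?_, fun p _ hp => ?_⟩⟩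
  · have c1 : (mon (red ℚ a)).coeff n = 1 := by simp [disc_coeff]
    have d1 : (mon (red ℚ a)).natDegree = n :=
      natDegree_eq_of_le_of_coeff_ne_zero (disc_natDegree_le _) (by simp [c1])
    obtain ⟨k, hk⟩ := Nat.exists_eq_add_of_le
      (((natDegree_derivative_le (mon (red ℚ a))).trans (Nat.sub_le _ _)).trans d1.le)
    have e := resultant_add_right_deg (mon (red ℚ a)) (derivative (mon (red ℚ a))) n _ k le_rfl
    rw [← hk, ← disc_res, h0, c1, one_pow, one_mul] at e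
    have := resultant_ne_zero _ _ ((separable_def _).1 hirr.separable)
    rw [d1, ← e] at this
    simp at this
  · have b1 : ∀ k, |(mon (red ℝ a)).coeff k| ≤ H := fun k => by
      rw [disc_coeff]
      split_ifs
      exacts [ha _, by simpa using hH, by simpa using zero_le_one.trans hH]
    have b2 : ∀ k, |(mon (red ℝ a)).coeff k| ≤ (n + 1) * H := fun k => by nlinarith [b1 k]
    have b3 : ∀ k, |(derivative (mon (red ℝ a))).coeff k| ≤ (n + 1) * H := fun k => by
      rw [coeff_derivative, abs_mul]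
      by_cases hk : k ≤ n
      · have : (k : ℝ) ≤ n := by exact_mod_cast hk
        rw [mul_comm, abs_of_nonneg (by positivity : (0 : ℝ) ≤ k + 1)]
        exact mul_le_mul (by linarith) (b1 _) (abs_nonneg _) (by linarith)
      · rw [disc_coeff, dif_neg (by omega), if_neg (by omega), abs_zero, zero_mul]
        positivity
    have := Matrix.det_le (A := sylvester (mon (red ℝ a)) (derivative (mon (red ℝ a))) n n)
      (abv := AbsoluteValue.abs) (x := (n + 1) * H) fun i j => by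
        induction j using Fin.addCases <;>
          simp only [sylvester, Matrix.of_apply, Fin.addCases_left, Fin.addCases_right,
            AbsoluteValue.abs_apply] <;> split_ifs
        exacts [b3 _, by rw [abs_zero]; positivity, b2 _, by rw [abs_zero]; positivity]
    rw [disc_res, mul_assoc, ← mul_pow, two_mul]
    simpa [resultant] using this
  · have hn : n ≠ 0 := by
      rintro rfl
      exact hirr.ne_one (by simp [mon])
    obtain ⟨u, w, -, -, e⟩ := exists_mul_add_mul_eq_C_resultant (mon (red (ZMod p) a))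
      (derivative (mon (red (ZMod p) a))) (disc_natDegree_le _)
      (((natDegree_derivative_le _).trans (Nat.sub_le _ _)).trans (disc_natDegree_le _))
      (Or.inl hn)
    rw [← disc_res] at e
    have h0 := mt (ZMod.intCast_zmod_eq_zero_iff_dvd _ p).1 hp
    obtain ⟨d, hd⟩ := (Ne.isUnit h0).exists_left_inv
    refine Separable.squarefree ⟨C d * u, C d * w, ?_⟩
    rw [mul_assoc, mul_assoc, ← mul_add, mul_comm u, mul_comm w, e, ← C_mul, hd, C_1]

/-- few large primes divide a given integer -/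
theorem pow_card_le (D : ℤ) (hD : D ≠ 0) (S : Finset Nat.Primes) (y : ℝ) (hy : 0 ≤ y)
    (hS : ∀ p ∈ S, y ≤ ((p : ℕ) : ℝ) ∧ ((p : ℕ) : ℤ) ∣ D) : y ^ S.card ≤ |(D : ℝ)| := by
  have h1 : (∏ p ∈ S, ((p : ℕ) : ℤ)) ∣ D :=
    prod_dvd_of_coprime (fun p _ q _ h => Nat.isCoprime_iff_coprime.2
      ((Nat.coprime_primes p.2 q.2).2 fun e => h (Subtype.ext e))) fun p hp => (hS p hp).2
  have h2 : ((∏ p ∈ S, ((p : ℕ) : ℤ) : ℤ) : ℝ) ≤ ((|D| : ℤ) : ℝ) :=
    Int.cast_le.2 (Int.le_of_dvd (abs_pos.2 hD) ((dvd_abs _ _).2 h1))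
  push_cast at h2
  refine le_trans ?_ h2
  rw [← prod_const]
  exact prod_le_prod (fun _ _ => hy) fun p hp => (hS p hp).1

end Pool.Agent.VDW
end

-- part Pool.Agent.P.MP_b0ea37_nt.Sieve
section

namespace Pool.Agent.VDW

open Polynomial Finset
open scoped BigOperators

section
variable {G : Type} [AddCommGroup G] [Fintype G]

theorem gvn_cs (a : G → G → ℝ) (ha : ∀ i j, |a i j| ≤ 1) (F : G → G → G → ℝ) :
    (𝔼 i, 𝔼 j, 𝔼 x, a i j * F i j x) ^ 2 ≤ 𝔼 h, 𝔼 i, 𝔼 j, 𝔼 x, F i j x * F i j (x + h) := by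
  refine le_of_le_of_eq ?_ (expect_comm _ _ _)
  refine (sq_expect_le _ _).trans (expect_le_expect fun i _ => ?_)
  refine le_of_le_of_eq ?_ (expect_comm _ _ _)
  refine (sq_expect_le _ _).trans (expect_le_expect fun j _ => ?_)
  refine le_of_le_of_eq ?_ (expect_comm _ _ _)
  rw [← mul_expect, mul_pow]
  refine (mul_le_of_le_one_left (sq_nonneg _) ((sq_le_one_iff_abs_le_one _).2 (ha i j))).trans_eq ?_
  rw [sq_expect]
  refine expect_congr rfl fun x _ => ?_
  exact (Fintype.expect_equiv (Equiv.addLeft x) _ _ fun h => rfl).symm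

theorem gvn_mul {s t : ℝ} (hs : |s| ≤ 1) (ht : |t| ≤ 1) : |s * t| ≤ 1 := by
  rw [abs_mul]
  exact mul_le_one₀ hs (abs_nonneg _) ht

theorem gvn_one (ψ : G → ℝ) (C : G → G → ℝ) (hC : ∀ x y, |C x y| ≤ 1) (v : G) :
    (𝔼 x, 𝔼 y, 𝔼 z, ψ (v + x + y + z) * C x y) ^ 2 ≤ (𝔼 w, ψ w) ^ 2 := by
  refine (sq_expect_le _ _).trans (expect_le univ_nonempty fun x _ => ?_)
  refine (sq_expect_le _ _).trans (expect_le univ_nonempty fun y _ => ?_)
  rw [← expect_mul, mul_pow,
    Fintype.expect_equiv (Equiv.addLeft (v + x + y)) (fun z => ψ (v + x + y + z)) ψ fun _ => rfl]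
  exact mul_le_of_le_one_right (sq_nonneg _) ((sq_le_one_iff_abs_le_one _).2 (hC x y))

theorem gvn_two (ψ : G → ℝ) (B C : G → G → ℝ) (hB : ∀ x y, |B x y| ≤ 1) (hC : ∀ x y, |C x y| ≤ 1)
    (v : G) : (𝔼 x, 𝔼 y, 𝔼 z, ψ (v + x + y + z) * (B x z * C x y)) ^ 4 ≤
      𝔼 h, (𝔼 w, ψ w * ψ (w + h)) ^ 2 := by
  have h1 := gvn_cs B hB fun x z y => ψ (v + x + y + z) * C x y
  have e1 : (𝔼 x, 𝔼 y, 𝔼 z, ψ (v + x + y + z) * (B x z * C x y)) =
      𝔼 x, 𝔼 z, 𝔼 y, B x z * (ψ (v + x + y + z) * C x y) := by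
    refine expect_congr rfl fun x _ => ?_
    rw [expect_comm]
    exact expect_congr rfl fun z _ => expect_congr rfl fun y _ => by ring
  rw [e1, show 4 = 2 * 2 from rfl, pow_mul]
  refine (pow_le_pow_left₀ (sq_nonneg _) h1 2).trans
    ((sq_expect_le _ _).trans (expect_le_expect fun h _ => ?_))
  refine le_of_eq_of_le ?_ (gvn_one (fun w => ψ w * ψ (w + h)) (fun x y => C x y * C x (y + h))
    (fun x y => gvn_mul (hC _ _) (hC _ _)) v)
  congr 1
  refine expect_congr rfl fun x _ => ?_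
  rw [expect_comm]
  refine expect_congr rfl fun y _ => expect_congr rfl fun z _ => ?_
  rw [show v + x + (y + h) + z = v + x + y + z + h by abel]
  ring

theorem gvn_three (Φ : G → ℝ) (A B C : G → G → ℝ) (hA : ∀ x y, |A x y| ≤ 1)
    (hB : ∀ x y, |B x y| ≤ 1) (hC : ∀ x y, |C x y| ≤ 1) (v : G) :
    (𝔼 x, 𝔼 y, 𝔼 z, Φ (v + x + y + z) * (A y z * B x z * C x y)) ^ 8 ≤ U3 Φ := by
  have h1 := gvn_cs A hA fun y z x => Φ (v + x + y + z) * (B x z * C x y)
  have e1 : (𝔼 x, 𝔼 y, 𝔼 z, Φ (v + x + y + z) * (A y z * B x z * C x y)) =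
      𝔼 y, 𝔼 z, 𝔼 x, A y z * (Φ (v + x + y + z) * (B x z * C x y)) := by
    rw [expect_comm]
    refine expect_congr rfl fun y _ => ?_
    rw [expect_comm]
    exact expect_congr rfl fun z _ => expect_congr rfl fun x _ => by ring
  rw [e1, show 8 = 2 * (2 * 2) from rfl, pow_mul]
  refine (pow_le_pow_left₀ (sq_nonneg _) h1 _).trans ?_
  rw [pow_mul]
  refine (pow_le_pow_left₀ (sq_nonneg _) (sq_expect_le _ _) 2).trans
    ((sq_expect_le _ _).trans (expect_le_expect fun h _ => ?_))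
  rw [← pow_mul]
  refine le_of_eq_of_le ?_ (gvn_two (fun w => Φ w * Φ (w + h)) (fun x z => B x z * B (x + h) z)
    (fun x y => C x y * C (x + h) y) (fun x y => gvn_mul (hB _ _) (hB _ _))
    (fun x y => gvn_mul (hC _ _) (hC _ _)) v)
  congr 1
  rw [expect_comm (f := fun x y => 𝔼 z, Φ (v + x + y + z) * Φ (v + x + y + z + h) *
    (B x z * B (x + h) z * (C x y * C (x + h) y)))]
  refine expect_congr rfl fun y _ => ?_
  rw [expect_comm]
  refine expect_congr rfl fun x _ => expect_congr rfl fun z _ => ?_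
  rw [show v + (x + h) + y + z = v + x + y + z + h by abel]
  ring

end

/-- generalised von Neumann inequality -/
theorem gvn {G : Type} [AddCommGroup G] [Fintype G] (Φ : G → ℝ) (A B C : G → G → ℝ)
    (hA : ∀ x y, |A x y| ≤ 1) (hB : ∀ x y, |B x y| ≤ 1) (hC : ∀ x y, |C x y| ≤ 1)
    (e₁ e₂ e₃ : G ≃ G) (v : G) :
    (𝔼 x, 𝔼 y, 𝔼 z, Φ (v + e₁ x + e₂ y + e₃ z) * (A y z * B x z * C x y)) ^ 8 ≤ U3 Φ := by
  refine le_of_eq_of_le ?_ (gvn_three Φ (fun y z => A (e₂.symm y) (e₃.symm z))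
    (fun x z => B (e₁.symm x) (e₃.symm z)) (fun x y => C (e₁.symm x) (e₂.symm y))
    (fun _ _ => hA _ _) (fun _ _ => hB _ _) (fun _ _ => hC _ _) v)
  congr 1
  refine Fintype.expect_equiv e₁ _ _ fun x => Fintype.expect_equiv e₂ _ _ fun y =>
    Fintype.expect_equiv e₃ _ _ fun z => ?_
  simp only [Equiv.symm_apply_apply]

end Pool.Agent.VDW

namespace Pool.Agent.VDW

open Polynomial Finset
open scoped BigOperators

theorem gw_pos {n : ℕ} (H : ℝ) (v : Fin n → ℤ) : 0 < gw H v :=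
  prod_pos fun _ _ => Real.exp_pos _

theorem gw_le_gW {n : ℕ} {H : ℝ} (hH : 1 ≤ H) (v : Fin n → ℤ) : gw H v ≤ gW H v :=
  prod_le_prod (fun _ _ => (Real.exp_pos _).le) fun _ _ =>
    Real.exp_le_exp.2 (le_add_of_nonneg_right (by positivity))

theorem le_gw {n : ℕ} {H : ℝ} (hH : 1 ≤ H) (v : Fin n → ℤ) (hv : ∀ i, |(v i : ℝ)| ≤ H) :
    Real.exp (-(n : ℝ)) ≤ gw H v := by
  rw [gw, ← Real.exp_sum, Real.exp_le_exp]
  refine le_of_eq_of_le (by simp) (sum_le_sum (f := fun _ => (-1 : ℝ)) fun i _ => neg_le_neg ?_)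
  rw [div_pow, div_le_one (by positivity), sq_le_sq, abs_of_pos (by linarith : 0 < H)]
  exact hv i

lemma gauss_one {H : ℝ} (hH : 1 ≤ H) (T : Finset ℤ) :
    ∑ t ∈ T, Real.exp (-((t : ℝ) / H) ^ 2 + 6 * |(t : ℝ)| / H) ≤ 4 * Real.exp 13 * H := by
  have H0 : 0 < H := by linarith
  set r := Real.exp (-H⁻¹) with hr
  have r0 : 0 ≤ r := (Real.exp_pos _).le
  have i0 : 0 < H⁻¹ := by positivity
  have i1 : H⁻¹ ≤ 1 := inv_le_one_of_one_le₀ hH
  have r1 : r ≤ 1 - H⁻¹ / 2 := by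
    rw [hr, Real.exp_neg, inv_le_comm₀ (Real.exp_pos _) (by linarith)]
    refine le_trans ?_ (Real.add_one_le_exp _)
    rw [inv_le_iff_one_le_mul₀ (by linarith)]
    nlinarith
  have g := hasSum_geometric_of_lt_one r0 (by linarith : r < 1)
  have g2 : HasSum (fun t : ℤ => r ^ t.natAbs) ((1 - r)⁻¹ + r * (1 - r)⁻¹) :=
    HasSum.of_nat_of_neg_add_one (by simpa using g) (by
      simpa only [show ∀ n : ℕ, (-((n : ℤ) + 1)).natAbs = n + 1 from fun n => by omega, pow_succ']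
        using g.mul_left r)
  have h1 : (1 - r)⁻¹ ≤ 2 * H := by
    rw [inv_le_comm₀ (by linarith) (by positivity), mul_inv]; linarith
  have h2 : r * (1 - r)⁻¹ ≤ 2 * H :=
    (mul_le_of_le_one_left (inv_nonneg.2 (by linarith)) (by linarith)).trans h1
  calc _ ≤ ∑ t ∈ T, Real.exp 13 * r ^ t.natAbs := sum_le_sum fun t _ => by
        rw [hr, ← Real.exp_nat_mul, ← Real.exp_add, Real.exp_le_exp, Nat.cast_natAbs, Int.cast_abs,
          div_pow, ← sq_abs (t : ℝ), ← div_pow, mul_div_assoc, mul_neg, ← div_eq_mul_inv]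
        nlinarith [sq_nonneg (|(t : ℝ)| / H - 7 / 2)]
    _ ≤ Real.exp 13 * ((1 - r)⁻¹ + r * (1 - r)⁻¹) := by
        rw [← mul_sum]
        exact mul_le_mul_of_nonneg_left (sum_le_hasSum T (fun _ _ => by positivity) g2)
          (Real.exp_pos _).le
    _ ≤ _ := by nlinarith [Real.exp_pos 13]

theorem gW_sum : ∃ A : ℝ, 1 ≤ A ∧ ∀ (n : ℕ) (H : ℝ), 1 ≤ H →
    Summable (gW (n := n) H) ∧ ∑' v : Fin n → ℤ, gW H v ≤ (A * H) ^ n := by
  refine ⟨4 * Real.exp 13, by linarith [Real.add_one_le_exp 13], fun n H hH => ?_⟩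
  have h0 : ∀ v : Fin n → ℤ, 0 ≤ gW H v := fun v => prod_nonneg fun _ _ => (Real.exp_pos _).le
  have h : ∀ S : Finset (Fin n → ℤ), ∑ v ∈ S, gW H v ≤ (4 * Real.exp 13 * H) ^ n := fun S => by
    refine (sum_le_sum_of_subset_of_nonneg
      (t := Fintype.piFinset fun i => S.image fun v => v i)
      (fun v hv => Fintype.mem_piFinset.2 fun i => mem_image_of_mem _ hv) fun v _ _ => h0 v).trans ?_
    simp only [gW]
    rw [← prod_univ_sum (fun i => S.image fun v => v i)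
      fun _ (t : ℤ) => Real.exp (-((t : ℝ) / H) ^ 2 + 6 * |(t : ℝ)| / H)]
    exact (prod_le_prod (fun _ _ => sum_nonneg fun _ _ => (Real.exp_pos _).le)
      fun _ _ => gauss_one hH _).trans_eq (by simp)
  exact ⟨summable_of_sum_le h0 h, Real.tsum_le_of_sum_le h0 h⟩

/-- the shifted Gaussian is a product of functions of two shifts -/
theorem gw_split {n : ℕ} {H : ℝ} (hH : 1 ≤ H) (f : Fin n → ℤ) :
    ∃ A B C : (Fin n → ℤ) → (Fin n → ℤ) → ℝ, ∀ a b c : Fin n → ℤ,
      (∀ i, 0 ≤ a i ∧ (a i : ℝ) ≤ H) → (∀ i, 0 ≤ b i ∧ (b i : ℝ) ≤ H) →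
      (∀ i, 0 ≤ c i ∧ (c i : ℝ) ≤ H) →
      |A b c| ≤ 1 ∧ |B a c| ≤ 1 ∧ |C a b| ≤ 1 ∧
        gw H (f + a + b + c) = gW H f * (A b c * B a c * C a b) := by
  have H0 : 0 < H := by linarith
  let E : (Fin n → ℤ) → (Fin n → ℤ) → ℝ := fun b c =>
    ∏ i, Real.exp (-(2 * f i * b i + (b i : ℝ) ^ 2 + 2 * b i * c i) / H ^ 2 - 2 * |(f i : ℝ)| / H)
  have hE : ∀ b c : Fin n → ℤ, (∀ i, 0 ≤ b i ∧ (b i : ℝ) ≤ H) → (∀ i, 0 ≤ c i ∧ (c i : ℝ) ≤ H) →
      |E b c| ≤ 1 := fun b c hb hc => by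
    rw [abs_of_nonneg (prod_nonneg fun _ _ => (Real.exp_pos _).le)]
    refine prod_le_one (fun _ _ => (Real.exp_pos _).le) fun i _ => Real.exp_le_one_iff.2 ?_
    have b0 : (0 : ℝ) ≤ b i := by exact_mod_cast (hb i).1
    have c0 : (0 : ℝ) ≤ c i := by exact_mod_cast (hc i).1
    rw [sub_nonpos, div_le_div_iff₀ (by positivity) H0]
    have h1 := mul_le_mul (neg_le_abs (f i : ℝ)) (hb i).2 b0 (abs_nonneg _)
    have h2 := mul_nonneg b0 c0
    have h3 : -(2 * f i * b i + (b i : ℝ) ^ 2 + 2 * b i * c i) ≤ 2 * |(f i : ℝ)| * H := by nlinarith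
    nlinarith
  refine ⟨E, fun a c => E c a, E, fun a b c ha hb hc => ⟨hE b c hb hc, hE c a hc ha, hE a b ha hb, ?_⟩⟩
  simp only [gw, gW, E, ← prod_mul_distrib, ← Real.exp_add, Pi.add_apply, Int.cast_add]
  refine prod_congr rfl fun i _ => congrArg _ ?_
  field_simp
  ring

end Pool.Agent.VDW

namespace Pool.Agent.VDW

open Polynomial Finset
open scoped BigOperators

theorem tuple_hasSum {α β : Type} [Fintype α] [Nonempty α] {f : α → β → ℝ} {S : ℝ}
    (h : ∀ a, HasSum (f a) S) : HasSum (fun b => 𝔼 a, f a b) S := by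
  have h1 := (hasSum_sum (s := (univ : Finset α)) fun a _ => h a).div_const (Fintype.card α : ℝ)
  have h2 : (Fintype.card α : ℝ) ≠ 0 := Nat.cast_ne_zero.2 Fintype.card_ne_zero
  rw [sum_const, card_univ, nsmul_eq_mul, mul_div_cancel_left₀ _ h2] at h1
  simpa only [Fintype.expect_eq_sum_div_card] using h1

/-- integer lift of a vector of residues, scaled by `r` -/
def tupleLift {n p : ℕ} (r : ℕ) (x : Fin n → ZMod p) : Fin n → ℤ :=
  (r : ℤ) • fun i => ((x i).val : ℤ)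

theorem tuple_lift_bd {n p : ℕ} [Fact p.Prime] {r : ℕ} {H : ℝ} (h : ((r * p : ℕ) : ℝ) ≤ H)
    (x : Fin n → ZMod p) (i : Fin n) : 0 ≤ tupleLift r x i ∧ (tupleLift r x i : ℝ) ≤ H := by
  have h1 : (((r * (x i).val : ℕ)) : ℝ) ≤ ((r * p : ℕ) : ℝ) :=
    Nat.cast_le.2 (Nat.mul_le_mul_left r (ZMod.val_lt (x i)).le)
  have h2 : tupleLift r x i = ((r * (x i).val : ℕ) : ℤ) := by
    simp only [tupleLift, Pi.smul_apply, smul_eq_mul, Nat.cast_mul]
  rw [h2, Int.cast_natCast]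
  exact ⟨Int.natCast_nonneg _, h1.trans h⟩

/-- one prime against three periodic functions -/
theorem tuple {n : ℕ} {H : ℝ} (hH : 1 ≤ H) (hs : Summable (gW (n := n) H)) (p : ℕ) [Fact p.Prime]
    (Φ : (Fin n → ZMod p) → ℝ) (τ : ℝ) (hτ : 0 ≤ τ) (hU : U3 Φ ≤ τ ^ 8)
    (r : Fin 3 → ℕ) (hr : ∀ j, ¬ p ∣ r j) (hrH : ∀ j, ((r j * p : ℕ) : ℝ) ≤ H)
    (Ψ : Fin 3 → (Fin n → ℤ) → ℝ) (h1 : ∀ j v, |Ψ j v| ≤ 1)
    (hper : ∀ j v u, Ψ j (v + (r j : ℤ) • u) = Ψ j v) :
    |∑' v : Fin n → ℤ, gw H v * (Φ (red (ZMod p) v) * (Ψ 0 v * Ψ 1 v * Ψ 2 v))| ≤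
      τ * ∑' v : Fin n → ℤ, gW H v := by
  obtain ⟨T, hT⟩ : ∃ T : (Fin n → ℤ) → ℝ,
      ∀ v, T v = gw H v * (Φ (red (ZMod p) v) * (Ψ 0 v * Ψ 1 v * Ψ 2 v)) := ⟨_, fun _ => rfl⟩
  simp only [← hT]
  have hTs : Summable T := by
    refine Summable.of_norm_bounded (hs.mul_right (∑ x, |Φ x|)) fun v => ?_
    have a1 : |Φ (red (ZMod p) v)| ≤ ∑ x, |Φ x| :=
      single_le_sum (f := fun x => |Φ x|) (fun x _ => abs_nonneg _) (mem_univ _)
    have a2 : |Ψ 0 v| * |Ψ 1 v| * |Ψ 2 v| ≤ 1 :=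
      mul_le_one₀ (mul_le_one₀ (h1 0 v) (abs_nonneg _) (h1 1 v)) (abs_nonneg _) (h1 2 v)
    rw [hT, Real.norm_eq_abs, abs_mul, abs_mul, abs_mul, abs_mul, abs_of_pos (gw_pos H v)]
    exact mul_le_mul (gw_le_gW hH v) ((mul_le_of_le_one_right (abs_nonneg _) a2).trans a1)
      (by positivity) ((gw_pos H v).le.trans (gw_le_gW hH v))
  have hsh : ∀ x y z : Fin n → ZMod p, HasSum (fun v => T (v + tupleLift (r 0) x +
      tupleLift (r 1) y + tupleLift (r 2) z)) (∑' v, T v) := by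
    intro x y z
    have := (Equiv.addRight (tupleLift (r 0) x + tupleLift (r 1) y +
      tupleLift (r 2) z)).hasSum_iff.2 hTs.hasSum
    simpa only [Function.comp_def, Equiv.coe_addRight, add_assoc] using this
  have hE := tuple_hasSum fun x => tuple_hasSum fun y => tuple_hasSum fun z => hsh x y z
  rw [← hE.tsum_eq, ← Real.norm_eq_abs]
  refine tsum_of_norm_bounded (hs.hasSum.mul_left τ) fun f => ?_
  obtain ⟨A, B, C, hABC⟩ := gw_split hH f
  have hs3 := fun x y z : Fin n → ZMod p => hABC _ _ _ (tuple_lift_bd (hrH 0) x)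
    (tuple_lift_bd (hrH 1) y) (tuple_lift_bd (hrH 2) z)
  have hne : ∀ j, (r j : ZMod p) ≠ 0 := fun j h => hr j ((ZMod.natCast_eq_zero_iff _ _).1 h)
  let e : Fin 3 → (Fin n → ZMod p) ≃ (Fin n → ZMod p) := fun j =>
    Equiv.piCongrRight fun _ => Equiv.mulLeft₀ (r j : ZMod p) (hne j)
  have hb : ∀ {s t : ℝ}, |s| ≤ 1 → |t| ≤ 1 → |s * t| ≤ 1 := fun hs ht => by
    rw [abs_mul]
    exact mul_le_one₀ hs (abs_nonneg _) ht
  have hg := gvn Φ
    (fun y z => A (tupleLift (r 1) y) (tupleLift (r 2) z) *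
      Ψ 0 (f + tupleLift (r 1) y + tupleLift (r 2) z))
    (fun x z => B (tupleLift (r 0) x) (tupleLift (r 2) z) *
      Ψ 1 (f + tupleLift (r 0) x + tupleLift (r 2) z))
    (fun x y => C (tupleLift (r 0) x) (tupleLift (r 1) y) *
      Ψ 2 (f + tupleLift (r 0) x + tupleLift (r 1) y))
    (fun y z => hb (hs3 0 y z).1 (h1 _ _)) (fun x z => hb (hs3 x 0 z).2.1 (h1 _ _))
    (fun x y => hb (hs3 x y 0).2.2.1 (h1 _ _)) (e 0) (e 1) (e 2) (red (ZMod p) f)
  have hτ' := hg.trans hU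
  rw [← Even.pow_abs (by decide : Even 8)] at hτ'
  have h8 := (pow_le_pow_iff_left₀ (abs_nonneg _) hτ (by norm_num)).1 hτ'
  have hW : 0 ≤ gW H f := (gw_pos H f).le.trans (gw_le_gW hH f)
  refine le_of_eq_of_le ?_ ((mul_le_mul_of_nonneg_left h8 hW).trans_eq (mul_comm _ _))
  rw [Real.norm_eq_abs, ← abs_of_nonneg hW, ← abs_mul]
  congr 1
  simp only [mul_expect]
  refine expect_congr rfl fun x _ => expect_congr rfl fun y _ => expect_congr rfl fun z _ => ?_
  have e0 : Ψ 0 (f + tupleLift (r 0) x + tupleLift (r 1) y + tupleLift (r 2) z) =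
      Ψ 0 (f + tupleLift (r 1) y + tupleLift (r 2) z) := by
    rw [← hper 0 (f + tupleLift (r 1) y + tupleLift (r 2) z) fun i => ((x i).val : ℤ)]
    congr 1
    change _ = _ + tupleLift (r 0) x
    abel
  have e1 : Ψ 1 (f + tupleLift (r 0) x + tupleLift (r 1) y + tupleLift (r 2) z) =
      Ψ 1 (f + tupleLift (r 0) x + tupleLift (r 2) z) := by
    rw [← hper 1 (f + tupleLift (r 0) x + tupleLift (r 2) z) fun i => ((y i).val : ℤ)]
    congr 1
    change _ = _ + tupleLift (r 1) y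
    abel
  have e2 : Ψ 2 (f + tupleLift (r 0) x + tupleLift (r 1) y + tupleLift (r 2) z) =
      Ψ 2 (f + tupleLift (r 0) x + tupleLift (r 1) y) :=
    hper 2 (f + tupleLift (r 0) x + tupleLift (r 1) y) fun i => ((z i).val : ℤ)
  have e3 : red (ZMod p) (f + tupleLift (r 0) x + tupleLift (r 1) y + tupleLift (r 2) z) =
      red (ZMod p) f + e 0 x + e 1 y + e 2 z := by
    funext i
    simp [red, tupleLift, e]
  rw [hT, (hs3 x y z).2.2.2, e0, e1, e2, e3]
  ring

end Pool.Agent.VDW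

namespace Pool.Agent.VDW

open Polynomial Finset
open scoped BigOperators

lemma moment_red {n p r : ℕ} (h : p ∣ r) (v u : Fin n → ℤ) :
    red (ZMod p) (v + (r : ℤ) • u) = red (ZMod p) v := by
  funext i
  have : ((r : ℕ) : ZMod p) = 0 := (ZMod.natCast_eq_zero_iff r p).2 h
  simp [red, this]

lemma moment_summable {n : ℕ} {H : ℝ} (hH : 1 ≤ H) (hs : Summable (gW (n := n) H))
    {f : (Fin n → ℤ) → ℝ} {B : ℝ} (hf : ∀ v, |f v| ≤ B) : Summable fun v => gw H v * f v := by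
  refine Summable.of_norm_bounded (hs.mul_right B) fun v => ?_
  rw [Real.norm_eq_abs, abs_mul, abs_of_pos (gw_pos H v)]
  exact mul_le_mul (gw_le_gW hH v) (hf v) (abs_nonneg _) ((gw_pos H v).le.trans (gw_le_gW hH v))

lemma moment_triv {n : ℕ} {H : ℝ} (hH : 1 ≤ H) (hs : Summable (gW (n := n) H))
    {f : (Fin n → ℤ) → ℝ} {B : ℝ} (hf : ∀ v, |f v| ≤ B) :
    ∑' v, gw H v * f v ≤ B * ∑' v : Fin n → ℤ, gW H v := by
  rw [← tsum_mul_left]
  refine (moment_summable hH hs hf).tsum_le_tsum (fun v => ?_) (hs.mul_left B)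
  rw [mul_comm B]
  refine (mul_le_mul_of_nonneg_left ((le_abs_self _).trans (hf v)) (gw_pos H v).le).trans ?_
  exact mul_le_mul_of_nonneg_right (gw_le_gW hH v) ((abs_nonneg _).trans (hf v))

lemma moment_prod_le {n : ℕ} {K : ℝ} (Φ : (p : Nat.Primes) → (Fin n → ZMod p) → ℝ)
    (hΦ : ∀ p v, |Φ p v| ≤ K) (t : Fin 10 → Nat.Primes) (v : Fin n → ℤ) :
    |∏ i, Φ (t i) (red (ZMod (t i)) v)| ≤ K ^ 10 := by
  rw [Finset.abs_prod]
  refine (Finset.prod_le_prod (fun i _ => abs_nonneg _) fun i _ => hΦ _ _).trans ?_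
  simp

lemma moment_count {α : Type} [DecidableEq α] (PP : Finset α) (hP : PP.Nonempty) :
    𝔼 t ∈ Fintype.piFinset fun _ : Fin 10 => PP, ind (∀ i, ∃ j, j ≠ i ∧ t j = t i) ≤
      5 ^ 10 / (PP.card : ℝ) ^ 5 := by
  classical
  have hc : (0 : ℝ) < PP.card := by exact_mod_cast hP.card_pos
  rw [expect_ind, Fintype.card_piFinset_const]
  have hsub : ((Fintype.piFinset fun _ : Fin 10 => PP).filter
      fun t => ∀ i, ∃ j, j ≠ i ∧ t j = t i) ⊆
      ((Fintype.piFinset fun _ : Fin 5 => PP) ×ˢ (univ : Finset (Fin 10 → Fin 5))).image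
        fun x => x.1 ∘ x.2 := by
    intro t ht
    rw [mem_filter, Fintype.mem_piFinset] at ht
    have h2 : 2 * (univ.image t).card ≤ (univ : Finset (Fin 10)).card := by
      refine Finset.mul_card_image_le_card _ _ fun a ha => ?_
      obtain ⟨i, -, rfl⟩ := mem_image.1 ha
      obtain ⟨j, hj, hji⟩ := ht.2 i
      exact Finset.one_lt_card.2 ⟨j, by simp [hji], i, by simp, hj⟩
    have h5 : Fintype.card (univ.image t) ≤ Fintype.card (Fin 5) := by
      simp only [card_univ, Fintype.card_fin, Fintype.card_coe] at h2 ⊢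
      omega
    obtain ⟨e⟩ := Function.Embedding.nonempty_of_card_le h5
    have hne : Nonempty (univ.image t) := ⟨⟨t 0, by simp⟩⟩
    refine mem_image.2 ⟨(fun j => (Function.invFun e j : univ.image t).1,
      fun i => e ⟨t i, by simp⟩), ?_, ?_⟩
    · simp only [mem_product, Fintype.mem_piFinset, mem_univ, and_true]
      intro j
      obtain ⟨i, -, hi⟩ := mem_image.1 (Function.invFun e j : univ.image t).2
      rw [← hi]
      exact ht.1 i
    · funext i
      simp only [Function.comp_apply]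
      rw [Function.leftInverse_invFun e.injective]
  have hcard := (card_le_card hsub).trans card_image_le
  rw [card_product, Fintype.card_piFinset_const, card_univ, Fintype.card_fun,
    Fintype.card_fin, Fintype.card_fin] at hcard
  have hcard' : ((((Fintype.piFinset fun _ : Fin 10 => PP).filter
      fun t => ∀ i, ∃ j, j ≠ i ∧ t j = t i).card : ℕ) : ℝ) ≤ (PP.card : ℝ) ^ 5 * 5 ^ 10 := by
    exact_mod_cast hcard
  rw [div_le_div_iff₀ (by positivity) (by positivity)]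
  push_cast
  calc _ ≤ ((PP.card : ℝ) ^ 5 * 5 ^ 10) * (PP.card : ℝ) ^ 5 :=
        mul_le_mul_of_nonneg_right hcard' (by positivity)
    _ = _ := by ring

lemma moment_single {n : ℕ} {K H : ℝ} (hK : 1 ≤ K) (hH : 1 ≤ H)
    (hs : Summable (gW (n := n) H)) {P : ℕ} (hPH : (P : ℝ) ^ 4 ≤ H)
    (Φ : (p : Nat.Primes) → (Fin n → ZMod p) → ℝ) (hΦ : ∀ p v, |Φ p v| ≤ K)
    {τ : ℝ} (hτ : 0 ≤ τ) (t : Fin 10 → Nat.Primes) (ht : ∀ i, (t i : ℕ) ≤ P) (i0 : Fin 10)
    (hU : U3 (Φ (t i0)) ≤ τ ^ 8) (h0 : ∀ j, j ≠ i0 → t j ≠ t i0) :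
    ∑' v, gw H v * ∏ i, Φ (t i) (red (ZMod (t i)) v) ≤
      K ^ 9 * (τ * ∑' v : Fin n → ℤ, gW H v) := by
  have hK0 : 0 < K := by linarith
  let q : Fin 3 → Fin 3 → Nat.Primes := fun j i =>
    t (i0.succAbove ⟨3 * j + i, by omega⟩)
  let r : Fin 3 → ℕ := fun j => q j 0 * q j 1 * q j 2
  let Ψ : Fin 3 → (Fin n → ℤ) → ℝ := fun j v =>
    Φ (q j 0) (red (ZMod (q j 0)) v) * Φ (q j 1) (red (ZMod (q j 1)) v) *
      Φ (q j 2) (red (ZMod (q j 2)) v) / K ^ 3
  have hq : ∀ j i, ¬ (t i0 : ℕ) ∣ q j i := fun j i h =>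
    h0 _ (Fin.succAbove_ne i0 _)
      (Subtype.ext ((Nat.prime_dvd_prime_iff_eq (t i0).2 (q j i).2).1 h).symm)
  have hr : ∀ j, ¬ (t i0 : ℕ) ∣ r j := fun j h => by
    rcases (Nat.Prime.dvd_mul (t i0).2).1 h with h | h
    · rcases (Nat.Prime.dvd_mul (t i0).2).1 h with h | h
      exacts [hq j 0 h, hq j 1 h]
    · exact hq j 2 h
  have hqP : ∀ j i, (q j i : ℕ) ≤ P := fun j i => ht _
  have hrH : ∀ j, ((r j * (t i0 : ℕ) : ℕ) : ℝ) ≤ H := fun j => by
    refine le_trans ?_ hPH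
    have : r j * (t i0 : ℕ) ≤ P ^ 4 := by
      rw [show P ^ 4 = P * P * P * P by ring]
      exact Nat.mul_le_mul (Nat.mul_le_mul (Nat.mul_le_mul (hqP j 0) (hqP j 1)) (hqP j 2)) (ht i0)
    exact_mod_cast this
  have h1 : ∀ j v, |Ψ j v| ≤ 1 := fun j v => by
    simp only [Ψ]
    rw [abs_div, abs_of_pos (pow_pos hK0 3), div_le_one (pow_pos hK0 3), abs_mul, abs_mul,
      show K ^ 3 = K * K * K by ring]
    exact mul_le_mul (mul_le_mul (hΦ _ _) (hΦ _ _) (abs_nonneg _) hK0.le) (hΦ _ _) (abs_nonneg _)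
      (by positivity)
  have hper : ∀ j v u, Ψ j (v + (r j : ℤ) • u) = Ψ j v := fun j v u => by
    simp only [Ψ]
    rw [moment_red (p := q j 0) (dvd_mul_of_dvd_left (dvd_mul_right _ _) _),
      moment_red (p := q j 1) (dvd_mul_of_dvd_left (dvd_mul_left _ _) _),
      moment_red (p := q j 2) (dvd_mul_left _ _)]
  have key := tuple hH hs (t i0) (Φ (t i0)) τ hτ hU r hr hrH Ψ h1 hper
  have e : ∀ v, gw H v * ∏ i, Φ (t i) (red (ZMod (t i)) v) =
      K ^ 9 * (gw H v * (Φ (t i0) (red (ZMod (t i0)) v) * (Ψ 0 v * Ψ 1 v * Ψ 2 v))) := fun v => by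
    rw [Fin.prod_univ_succAbove _ i0]
    have : ∏ k : Fin 9, Φ (t (i0.succAbove k)) (red (ZMod (t (i0.succAbove k))) v) =
        K ^ 9 * (Ψ 0 v * Ψ 1 v * Ψ 2 v) := by
      have g : ∀ f : Fin 9 → ℝ, ∏ k, f k =
          K ^ 9 * (f 0 * f 1 * f 2 / K ^ 3 * (f 3 * f 4 * f 5 / K ^ 3) *
            (f 6 * f 7 * f 8 / K ^ 3)) := fun f => by
        rw [Fin.prod_univ_succ, Fin.prod_univ_eight]
        field_simp
        rfl
      exact g _
    rw [this]; ring
  simp only [e]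
  rw [tsum_mul_left]
  exact mul_le_mul_of_nonneg_left ((le_abs_self _).trans key) (by positivity)

/-- the tenth moment sieve -/
theorem moment (n : ℕ) (K : ℝ) (hK : 1 ≤ K) : ∃ A : ℝ, 0 ≤ A ∧ ∀ H : ℝ, 1 ≤ H →
    ∀ (PP : Finset Nat.Primes) (P : ℕ), PP.Nonempty → (∀ p ∈ PP, (p : ℕ) ≤ P) → (P : ℝ) ^ 4 ≤ H →
    ∀ (Φ : (p : Nat.Primes) → (Fin n → ZMod p) → ℝ), (∀ p v, |Φ p v| ≤ K) →
    ∀ τ : ℝ, 0 ≤ τ → (∀ p ∈ PP, U3 (Φ p) ≤ τ ^ 8) →
    ∀ S : Finset (Fin n → ℤ), (∀ a ∈ S, ∀ i, |(a i : ℝ)| ≤ H) →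
      (∀ a ∈ S, 1 / 2 ≤ 𝔼 p ∈ PP, Φ p (red (ZMod p) a)) →
      (S.card : ℝ) ≤ A * H ^ n * (1 / (PP.card : ℝ) ^ 5 + τ) := by
  classical
  obtain ⟨A0, hA0, hW⟩ := gW_sum
  have hK0 : 0 < K := by linarith
  refine ⟨Real.exp n * 2 ^ 10 * A0 ^ n * (5 ^ 10 * K ^ 10), by positivity, ?_⟩
  intro H hH PP P hne hP hPH Φ hΦ τ hτ hU S hS hE
  obtain ⟨hs, hWle⟩ := hW n H hH
  set W := ∑' v : Fin n → ℤ, gW H v with hWdef
  have hW0 : 0 ≤ W := tsum_nonneg fun v => (gw_pos H v).le.trans (gw_le_gW hH v)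
  have hc : (0 : ℝ) < PP.card := by exact_mod_cast hne.card_pos
  set T := Fintype.piFinset fun _ : Fin 10 => PP with hT
  have hTne : T.Nonempty := Fintype.piFinset_nonempty.2 fun _ => hne
  let G : (Fin n → ℤ) → ℝ := fun v => (𝔼 p ∈ PP, Φ p (red (ZMod p) v)) ^ 10
  have hG0 : ∀ v, 0 ≤ G v := fun v => Even.pow_nonneg (by decide) _
  have hGK : ∀ v, |G v| ≤ K ^ 10 := fun v => by
    simp only [G]
    rw [abs_pow]
    exact pow_le_pow_left₀ (abs_nonneg _) (abs_expect_le' hK0.le fun p _ => hΦ _ _) _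
  have s1 : (S.card : ℝ) * (Real.exp (-(n : ℝ)) * (1 / 2) ^ 10) ≤ ∑' v, gw H v * G v := by
    refine le_trans ?_ ((moment_summable hH hs hGK).sum_le_tsum S
      fun v _ => mul_nonneg (gw_pos H v).le (hG0 v))
    rw [← nsmul_eq_mul]
    refine Finset.card_nsmul_le_sum _ _ _ fun a ha => ?_
    exact mul_le_mul (le_gw hH a (hS a ha)) (pow_le_pow_left₀ (by norm_num) (hE a ha) _)
      (by positivity) (gw_pos H a).le
  have s2 : ∑' v, gw H v * G v =
      𝔼 t ∈ T, ∑' v, gw H v * ∏ i, Φ (t i) (red (ZMod (t i)) v) := by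
    rw [expect_eq_sum_div_card, ← Summable.tsum_finsetSum
      fun t _ => moment_summable hH hs (moment_prod_le Φ hΦ t), ← tsum_div_const]
    refine tsum_congr fun v => ?_
    simp only [G]
    rw [expect_pow, expect_eq_sum_div_card, ← Finset.mul_sum, mul_div_assoc]
  have s3 : ∀ t ∈ T, ∑' v, gw H v * ∏ i, Φ (t i) (red (ZMod (t i)) v) ≤
      K ^ 9 * (τ * W) + K ^ 10 * W * ind (∀ i, ∃ j, j ≠ i ∧ t j = t i) := fun t ht => by
    have ht' := Fintype.mem_piFinset.1 ht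
    by_cases h : ∀ i, ∃ j, j ≠ i ∧ t j = t i
    · rw [ind_pos h, mul_one]
      exact (moment_triv hH hs (moment_prod_le Φ hΦ t)).trans
        (le_add_of_nonneg_left (by positivity))
    · rw [ind_neg h, mul_zero, add_zero]
      push Not at h
      obtain ⟨i0, h0⟩ := h
      exact moment_single hK hH hs hPH Φ hΦ hτ t (fun i => hP _ (ht' i)) i0 (hU _ (ht' i0)) h0
  have s4 : ∑' v, gw H v * G v ≤ K ^ 9 * (τ * W) + K ^ 10 * W * (5 ^ 10 / (PP.card : ℝ) ^ 5) := by
    rw [s2]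
    refine (expect_le_expect s3).trans ?_
    rw [expect_add_distrib, expect_const hTne, ← mul_expect]
    exact add_le_add le_rfl (mul_le_mul_of_nonneg_left (moment_count PP hne) (by positivity))
  have s5 : K ^ 9 * (τ * W) + K ^ 10 * W * (5 ^ 10 / (PP.card : ℝ) ^ 5) ≤
      W * (5 ^ 10 * K ^ 10) * (1 / (PP.card : ℝ) ^ 5 + τ) := by
    have h9 : K ^ 9 ≤ 5 ^ 10 * K ^ 10 :=
      (pow_le_pow_right₀ hK (by norm_num)).trans (le_mul_of_one_le_left (by positivity)
        (by norm_num))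
    have := mul_le_mul_of_nonneg_right h9 (mul_nonneg hτ hW0)
    calc _ ≤ 5 ^ 10 * K ^ 10 * (τ * W) + K ^ 10 * W * (5 ^ 10 / (PP.card : ℝ) ^ 5) := by linarith
      _ = _ := by ring
  have s6 : W * (5 ^ 10 * K ^ 10) * (1 / (PP.card : ℝ) ^ 5 + τ) ≤
      (A0 * H) ^ n * (5 ^ 10 * K ^ 10) * (1 / (PP.card : ℝ) ^ 5 + τ) := by gcongr
  have s7 := s1.trans (s4.trans (s5.trans s6))
  have he : Real.exp (-(n : ℝ)) * (1 / 2) ^ 10 * (Real.exp n * 2 ^ 10) = 1 := by
    rw [Real.exp_neg]; field_simp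
  calc (S.card : ℝ) = S.card * (Real.exp (-(n : ℝ)) * (1 / 2) ^ 10) * (Real.exp n * 2 ^ 10) := by
        rw [mul_assoc, he, mul_one]
    _ ≤ (A0 * H) ^ n * (5 ^ 10 * K ^ 10) * (1 / (PP.card : ℝ) ^ 5 + τ) * (Real.exp n * 2 ^ 10) :=
        mul_le_mul_of_nonneg_right s7 (by positivity)
    _ = _ := by rw [mul_pow]; ring

end Pool.Agent.VDW

namespace Pool.Agent.VDW

open Polynomial Finset
open scoped BigOperators

theorem primeL_bound (c N : ℕ) (hN : 2 < N) (h : ∀ p : ℕ, p.Prime → N + c < p → 2 * N < p) :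
    N.centralBinom ≤ (2 * N) ^ ((2 * N).sqrt + c) * 4 ^ (2 * N / 3) := by
  classical
  have h2 : 0 < 2 * N := by omega
  set A := Ioc 0 (2 * N).sqrt ∪ Ioc N (N + c) with hA
  rw [← N.prod_pow_factorization_centralBinom]
  calc ∏ p ∈ range (2 * N + 1), p ^ N.centralBinom.factorization p
      ≤ ∏ p ∈ range (2 * N + 1), ((if p ∈ A then 2 * N else 1) *
          if p ∈ (range (2 * N / 3 + 1)).filter Nat.Prime then p else 1) := by
        refine prod_le_prod' fun p hp => ?_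
        by_cases hpp : p.Prime
        swap
        · rw [Nat.factorization_eq_zero_of_not_prime _ hpp, pow_zero, if_neg (c := p ∈ filter _ _)
            (by simp [hpp]), mul_one]
          split_ifs <;> omega
        have h1 := hpp.one_lt
        by_cases ha : p ∈ A
        · rw [if_pos ha]
          refine (Nat.pow_factorization_choose_le h2).trans (Nat.le_mul_of_pos_right _ ?_)
          split_ifs <;> omega
        rw [if_neg ha, one_mul]
        simp only [hA, mem_union, mem_Ioc, mem_range, not_or, not_and, not_le] at ha hp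
        split_ifs with hb
        · refine (pow_right_mono₀ h1.le ?_).trans (pow_one p).le
          exact Nat.factorization_choose_le_one (Nat.sqrt_lt'.mp (ha.1 (by omega)))
        · simp only [mem_filter, mem_range, hpp, and_true] at hb
          have h3 : p ≤ N := by
            by_contra h4
            have := h p hpp (ha.2 (by omega))
            omega
          rw [Nat.factorization_centralBinom_of_two_mul_self_lt_three_mul hN h3 (by omega),
            pow_zero]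
    _ ≤ _ := by
        rw [prod_mul_distrib, prod_ite_mem, prod_ite_mem, prod_const]
        refine mul_le_mul' (pow_right_mono₀ h2 ?_) (le_trans ?_ (primorial_le_four_pow _))
        · refine (card_le_card inter_subset_right).trans ((card_union_le _ _).trans ?_)
          simp
        · exact prod_le_prod_of_subset_of_one_le' inter_subset_right
            fun p hp _ => (mem_filter.1 hp).2.one_lt.le

theorem primeL_pow (t : ℕ) (ht : 4 ≤ t) : 24 * (t + 1) ≤ 4 ^ t := by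
  induction t, ht using Nat.le_induction with
  | base => norm_num
  | succ t _ ih => rw [pow_succ]; omega

theorem primeL_ineq (c N : ℕ) (hN : (96 + c) ^ 2 ≤ 2 * N) :
    N * ((2 * N) ^ ((2 * N).sqrt + c) * 4 ^ (2 * N / 3)) ≤ 4 ^ N := by
  have h1 : 96 + c ≤ (2 * N).sqrt := Nat.le_sqrt'.2 hN
  have h2 := Nat.sqrt_le' (2 * N)
  have h3 := Nat.lt_succ_sqrt' (2 * N)
  generalize (2 * N).sqrt = s at h1 h2 h3
  have h4 := primeL_pow (s / 24) (by omega)
  have h5 : s + 1 ≤ 4 ^ (s / 24) := by omega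
  have h6 : 24 * (s / 24) * s ≤ s ^ 2 := by
    rw [sq]; exact Nat.mul_le_mul_right _ (Nat.mul_div_le s 24)
  have h0 : 1 ≤ 2 * N := by nlinarith
  calc N * ((2 * N) ^ (s + c) * 4 ^ (2 * N / 3))
      ≤ (2 * N) ^ (s + c + 1) * 4 ^ (2 * N / 3) := by
        rw [pow_succ, ← mul_assoc, mul_comm N]
        gcongr
        omega
    _ ≤ ((4 ^ (s / 24)) ^ 2) ^ (2 * s) * 4 ^ (2 * N / 3) := by
        refine Nat.mul_le_mul_right _ ((pow_right_mono₀ h0 (by omega : s + c + 1 ≤ 2 * s)).trans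
          (Nat.pow_le_pow_left (h3.le.trans (Nat.pow_le_pow_left h5 2)) _))
    _ ≤ 4 ^ N := by
        rw [← pow_mul, ← pow_mul, ← pow_add]
        refine pow_right_mono₀ (by norm_num) ?_
        have : s / 24 * (2 * (2 * s)) * 6 = 24 * (s / 24) * s := by ring
        omega

/-- a prime well inside the Bertrand range -/
theorem primeL (c : ℕ) : ∃ n₀ : ℕ, ∀ n, n₀ ≤ n →
    ∃ l m : ℕ, l.Prime ∧ n = l + m ∧ c ≤ m ∧ m + c ≤ l := by
  refine ⟨(96 + c) ^ 2 + c + 1, fun n hn => ?_⟩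
  have h0 : 96 ^ 2 ≤ (96 + c) ^ 2 := Nat.pow_le_pow_left (by omega) 2
  by_contra h
  have h1 := primeL_bound c ((n - c) / 2) (by omega) fun p hp h1 => by
    by_contra h2
    exact h ⟨p, n - p, hp, by omega, by omega, by omega⟩
  have h2 := primeL_ineq c ((n - c) / 2) (by omega)
  have h3 := Nat.four_pow_lt_mul_centralBinom ((n - c) / 2) (by omega)
  exact absurd (h3.trans_le ((Nat.mul_le_mul_left _ h1).trans h2)) (lt_irrefl _)

end Pool.Agent.VDW

namespace Pool.Agent.VDW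

open Polynomial Finset
open scoped BigOperators

theorem primeP_sum (P : ℕ) : Chebyshev.theta P - Chebyshev.theta (P / 4 : ℕ) ≤
    ((Nat.primesLE P \ Nat.primesLE (P / 4)).card : ℝ) * Real.log P := by
  have hs : Nat.primesLE (P / 4) ⊆ Nat.primesLE P := fun p hp => by
    rw [Nat.mem_primesLE] at hp ⊢
    exact ⟨by omega, hp.2⟩
  rw [Chebyshev.theta_eq_sum_primesLE_log, Chebyshev.theta_eq_sum_primesLE_log, ← sum_sdiff hs,
    add_sub_cancel_right, ← nsmul_eq_mul]
  refine sum_le_card_nsmul _ _ _ fun p hp => ?_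
  obtain ⟨h1, h2⟩ := Nat.mem_primesLE.1 (mem_sdiff.1 hp).1
  exact Real.log_le_log (by exact_mod_cast h2.pos) (by exact_mod_cast h1)

theorem primeP_card {P : ℕ} (hP : 2000 ^ 100 ≤ P) :
    (P : ℝ) ^ (49 / 50 : ℝ) ≤ ((Nat.primesLE P \ Nat.primesLE (P / 4)).card : ℝ) := by
  have hP' : (2000 : ℝ) ^ 100 ≤ P := by exact_mod_cast hP
  have h2 : (2 : ℝ) ≤ P := le_trans (by norm_num) hP'
  have h0 : (0 : ℝ) < P := by linarith
  obtain ⟨u, hu⟩ : ∃ u : ℝ, u = (P : ℝ) ^ (1 / 100 : ℝ) := ⟨_, rfl⟩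
  have hu0 : 0 < u := hu ▸ Real.rpow_pos_of_pos h0 _
  have hpow : ∀ n : ℕ, u ^ n = (P : ℝ) ^ ((n : ℝ) / 100) := fun n => by
    rw [hu, ← Real.rpow_natCast, ← Real.rpow_mul h0.le]
    congr 1
    ring
  have e1 : u ^ 100 = P := by rw [hpow]; norm_num
  have e2 : u ^ 98 = (P : ℝ) ^ (49 / 50 : ℝ) := by rw [hpow]; norm_num
  have e3 : u ^ 50 = √P := by rw [hpow, Real.sqrt_eq_rpow]; norm_num
  have hu1 : 2000 ≤ u := le_of_pow_le_pow_left₀ (n := 100) (by norm_num) hu0.le (hP'.trans e1.ge)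
  have hL : Real.log P ≤ 100 * u := by
    have := Real.log_le_rpow_div h0.le (show (0 : ℝ) < 1 / 100 by norm_num)
    rw [← hu] at this
    linarith
  have hL0 : 0 < Real.log P := Real.log_pos (by linarith)
  have hL1 : Real.log (P + 1) ≤ 2 * Real.log P := by
    have : Real.log ((P : ℝ) ^ 2) = 2 * Real.log P := by rw [Real.log_pow]; norm_num
    rw [← this]
    exact Real.log_le_log (by linarith) (by nlinarith)
  have t1 := Chebyshev.theta_ge P
  have t2 := Chebyshev.theta_le_log4_mul_x (x := ((P / 4 : ℕ) : ℝ)) (Nat.cast_nonneg _)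
  have t3 : ((P / 4 : ℕ) : ℝ) ≤ P / 4 := by
    exact_mod_cast Nat.cast_div_le (α := ℝ) (m := P) (n := 4)
  have l4 : Real.log 4 = 2 * Real.log 2 := by
    rw [show (4 : ℝ) = 2 ^ 2 by norm_num, Real.log_pow]; norm_num
  have l2 : 1 / 2 ≤ Real.log 2 := by linarith [Real.log_two_gt_d9]
  have t4 := primeP_sum P
  have t5 : Real.log 4 * ((P / 4 : ℕ) : ℝ) ≤ P * Real.log 2 / 2 := by
    rw [l4]
    nlinarith
  have t6 : (P : ℝ) / 4 ≤ P * Real.log 2 / 2 := by nlinarith
  have p1 : 1 ≤ u ^ 98 := one_le_pow₀ (by linarith)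
  have p2 : u ^ 50 ≤ u ^ 98 := pow_le_pow_right₀ (by linarith) (by norm_num)
  have p3 : 5 * u ^ 98 * Real.log P ≤ P / 4 := by
    have a1 : 5 * u ^ 98 * Real.log P ≤ 5 * u ^ 98 * (100 * u) := by gcongr
    have a2 : 5 * u ^ 98 * (100 * u) = u ^ 99 * 2000 / 4 := by ring
    have a3 : u ^ 99 * 2000 ≤ u ^ 99 * u := by gcongr
    have a4 : u ^ 99 * u = P := by rw [← e1]; ring
    linarith
  rw [← e3] at t1
  rw [← e2]
  refine le_of_mul_le_mul_right ?_ hL0
  have p4 : u ^ 50 * Real.log P ≤ u ^ 98 * Real.log P := by gcongr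
  have p5 : 1 * Real.log P ≤ u ^ 98 * Real.log P := by gcongr
  linarith

/-- many primes between `P / 4` and `P` -/
theorem primeP : ∃ P₀ : ℕ, ∀ P : ℕ, P₀ ≤ P → ∃ S : Finset Nat.Primes,
    (P : ℝ) ^ (49 / 50 : ℝ) ≤ S.card ∧ ∀ p ∈ S, (p : ℕ) ≤ P ∧ P < 4 * (p : ℕ) := by
  refine ⟨2000 ^ 100, fun P hP => ?_⟩
  refine ⟨(Nat.primesLE P \ Nat.primesLE (P / 4)).subtype Nat.Prime, ?_, fun p hp => ?_⟩
  · refine (primeP_card hP).trans (le_of_eq ?_)
    congr 1
    refine ((card_subtype _ _).trans ?_).symm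
    rw [filter_true_of_mem fun p hp => (Nat.mem_primesLE.1 (mem_sdiff.1 hp).1).2]
  · obtain ⟨h1, h2⟩ := mem_sdiff.1 (mem_subtype.1 hp)
    rw [Nat.mem_primesLE] at h1 h2
    have h3 : ¬ (p : ℕ) ≤ P / 4 := fun h => h2 ⟨h, h1.2⟩
    exact ⟨h1.1, by omega⟩

end Pool.Agent.VDW
end
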