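import Pool.Agent.P.MP_b0ea37_nt.Defs
import Pool.Agent.K.MP_b0ea37_nt.C4

namespace Pool.Agent.VDW

open Polynomial Finset
open scoped BigOperators

variable {F : Type} [Field F] [Fintype F] [DecidableEq F]

omit [DecidableEq F] in
theorem test_count {l : ℕ} (hl : l.Prime) (I : Finset F[X])
    (hI : ∀ a : F[X], a.Monic → a.natDegree = l → Irreducible a → a ∈ I)
    (hd : ∀ a ∈ I, a.natDegree ≤ l) :
    Fintype.card F ^ l ≤ Fintype.card F + I.card * l := by
  classical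
  obtain ⟨p, hp⟩ := CharP.exists F
  obtain ⟨_, hpp, -⟩ := FiniteField.card F p
  have : Fact p.Prime := ⟨hpp⟩
  have : NeZero l := ⟨hl.ne_zero⟩
  have := Fintype.ofFinite (FiniteField.Extension F p l)
  have hc : Fintype.card (FiniteField.Extension F p l) = Fintype.card F ^ l := by
    rw [Fintype.card_eq_nat_card, FiniteField.natCard_extension, Fintype.card_eq_nat_card]
  have hs : (univ : Finset (FiniteField.Extension F p l)) ⊆
      univ.image (algebraMap F _) ∪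
        I.biUnion fun a => (a.aroots (FiniteField.Extension F p l)).toFinset := by
    intro x _
    have hx : IsIntegral F x := Algebra.IsIntegral.isIntegral x
    have h1 := minpoly.degree_dvd hx
    rw [FiniteField.finrank_extension] at h1
    rcases (Nat.dvd_prime hl).1 h1 with h2 | h2
    · obtain ⟨y, hy⟩ := minpoly.natDegree_eq_one_iff.1 h2
      exact mem_union_left _ (mem_image.2 ⟨y, mem_univ _, hy⟩)
    · refine mem_union_right _ (mem_biUnion.2 ⟨minpoly F x,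
        hI _ (minpoly.monic hx) h2 (minpoly.irreducible hx), ?_⟩)
      rw [Multiset.mem_toFinset, mem_aroots]
      exact ⟨minpoly.ne_zero hx, minpoly.aeval F x⟩
  have h3 := card_le_card hs
  rw [card_univ, hc] at h3
  refine h3.trans ((card_union_le _ _).trans (add_le_add (card_image_le.trans card_univ.le) ?_))
  refine card_biUnion_le_card_mul _ _ _ fun a ha => ?_
  exact (Multiset.toFinset_card_le _).trans ((card_roots' _).trans
    (natDegree_map_le.trans (hd a ha)))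

theorem irr_density {l : ℕ} (hl : l.Prime) :
    1 / (2 * (l : ℝ)) ≤ 𝔼 a ∈ M F l, ind (Irreducible a) := by
  classical
  rw [expect_ind, card_M_real]
  have h := test_count hl ((M F l).filter fun a => Irreducible a)
    (fun a h1 h2 h3 => mem_filter.2 ⟨mem_M.2 ⟨h1, h2⟩, h3⟩)
    (fun a ha => (mem_M.1 (mem_filter.1 ha).1).2.le)
  have h' : Q F ^ l ≤ Q F + (((M F l).filter fun a => Irreducible a).card : ℝ) * l := by
    exact_mod_cast h
  have h2 : Q F ^ 2 ≤ Q F ^ l := pow_le_pow_right₀ one_le_Q hl.two_le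
  have h3 := two_le_Q (F := F)
  have hl0 : (0 : ℝ) < l := by exact_mod_cast hl.pos
  rw [div_le_div_iff₀ (by positivity) (pow_pos Q_pos _)]
  nlinarith

theorem alpha_nonneg (l : ℕ) (a : F[X]) : 0 ≤ alpha l a := by
  exact div_nonneg (ind_nonneg _) (expect_ind_nonneg _ _)

theorem alpha_le {l : ℕ} (hl : l.Prime) (a : F[X]) : alpha l a ≤ 2 * l := by
  have hl0 : (0 : ℝ) < l := by exact_mod_cast hl.pos
  have h := irr_density (F := F) hl
  have h0 : (0 : ℝ) < 1 / (2 * (l : ℝ)) := by positivity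
  unfold alpha
  rw [div_le_iff₀ (h0.trans_le h)]
  rw [div_le_iff₀ (by positivity)] at h
  linarith [ind_le_one (Irreducible a)]

theorem irr_of_alpha {l : ℕ} {a : F[X]} (h : alpha l a ≠ 0) : Irreducible a := by
  refine of_ind_ne_zero fun h0 => h ?_
  rw [alpha, h0, zero_div]

theorem expect_alpha {l : ℕ} (hl : l.Prime) : 𝔼 a ∈ M F l, alpha l a = 1 := by
  have hl0 : (0 : ℝ) < l := by exact_mod_cast hl.pos
  have h0 : (0 : ℝ) < 1 / (2 * (l : ℝ)) := by positivity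
  unfold alpha
  rw [← expect_div]
  exact div_self (h0.trans_le (irr_density hl)).ne'

theorem abs_beta_le (n : ℕ) (b : F[X]) : |beta n b| ≤ 2 := by
  unfold beta
  refine (abs_add_le _ _).trans ?_
  rw [abs_mul, abs_pow, abs_neg, abs_one, one_pow, one_mul]
  linarith [abs_mu_le_one b]

theorem abs_phi_le {l m : ℕ} (hl : l.Prime) (hm : m < l) (f : F[X]) :
    |phi l m f| ≤ 1 + 4 * l := by
  have hl0 : (0 : ℝ) ≤ l := Nat.cast_nonneg l
  unfold phi
  refine (abs_sub _ _).trans ?_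
  rw [abs_one]
  refine add_le_add le_rfl ?_
  by_cases h : ∃ a ∈ M F l, ∃ b ∈ M F m, a * b = f ∧ Irreducible a
  · obtain ⟨a, ha, b, hb, hab, hi⟩ := h
    rw [sum_eq_single a, sum_eq_single b]
    · rw [ind_pos hab, one_mul, abs_mul, abs_of_nonneg (alpha_nonneg l a)]
      have h1 := alpha_le hl a
      have h2 := abs_beta_le (l + m) b
      have h3 := alpha_nonneg l a
      have h4 := abs_nonneg (beta (l + m) b)
      nlinarith
    · intro b' _ hne
      rw [ind_neg, zero_mul]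
      intro h1
      exact hne (mul_left_cancel₀ hi.ne_zero (h1.trans hab.symm))
    · exact fun h1 => absurd hb h1
    · intro a' ha' hne
      refine sum_eq_zero fun b' _ => ?_
      by_contra h0
      have h1 : a' * b' = f := of_ind_ne_zero (left_ne_zero_of_mul h0)
      have h2 : Irreducible a' := irr_of_alpha (left_ne_zero_of_mul (right_ne_zero_of_mul h0))
      have h3 : a' ∣ a * b := ⟨b', hab.trans h1.symm⟩
      obtain ⟨m1, d1⟩ := mem_M.1 ha
      obtain ⟨m2, d2⟩ := mem_M.1 ha'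
      obtain ⟨m3, d3⟩ := mem_M.1 hb
      rcases h2.prime.dvd_or_dvd h3 with h4 | h4
      · exact hne (eq_of_monic_of_dvd_of_natDegree_le m2 m1 h4 (by omega)).symm
      · have := natDegree_le_of_dvd h4 m3.ne_zero
        omega
    · exact fun h1 => absurd ha h1
  · rw [sum_eq_zero, abs_zero]
    · positivity
    · intro a ha
      refine sum_eq_zero fun b hb => ?_
      by_contra h0
      exact h ⟨a, ha, b, hb, of_ind_ne_zero (left_ne_zero_of_mul h0),
        irr_of_alpha (left_ne_zero_of_mul (right_ne_zero_of_mul h0))⟩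

theorem conv_phi (l m : ℕ) : Conv l m (alpha l) (beta (l + m)) (phi (F := F) l m) := by
  intro G
  rw [← expect_conv l m (fun a b => alpha l a * beta (l + m) b) G, ← expect_sub_distrib]
  refine expect_congr rfl fun f _ => ?_
  rw [phi, Complex.ofReal_sub, Complex.ofReal_one, sub_mul, one_mul]

/-- if the test function is not `1` there is a large irreducible factor and `mu` has the odd sign -/
theorem of_phi_ne_one {l m : ℕ} {f : F[X]} (hf : Squarefree f) (h : phi l m f ≠ 1) :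
    mu f = (-1) ^ (l + m + 1) ∧ ∃ a : F[X], Irreducible a ∧ a.natDegree = l ∧ a ∣ f := by
  have h0 : ∑ a ∈ M F l, ∑ b ∈ M F m, ind (a * b = f) * (alpha l a * beta (l + m) b) ≠ 0 :=
    fun h1 => h (by rw [phi, h1, sub_zero])
  obtain ⟨a, ha, h1⟩ := exists_ne_zero_of_sum_ne_zero h0
  obtain ⟨b, -, h2⟩ := exists_ne_zero_of_sum_ne_zero h1
  have hab : a * b = f := of_ind_ne_zero (left_ne_zero_of_mul h2)
  have hi : Irreducible a := irr_of_alpha (left_ne_zero_of_mul (right_ne_zero_of_mul h2))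
  have hb : beta (l + m) b ≠ 0 := right_ne_zero_of_mul (right_ne_zero_of_mul h2)
  subst hab
  refine ⟨?_, a, hi, (mem_M.1 ha).2, dvd_mul_right a b⟩
  have hn : ¬ a ∣ b := fun h3 => hi.not_isUnit (hf a (mul_dvd_mul_left a h3))
  rw [mu_irr_mul hi hn, pow_succ]
  have hm : mu b = (-1) ^ (UniqueFactorizationMonoid.factors b).card := by
    rw [mu, hf.of_mul_right.moebius_eq]
    push_cast
    rfl
  unfold beta at hb
  rcases neg_one_pow_eq_or ℝ (UniqueFactorizationMonoid.factors b).card with h3 | h3 <;>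
    rcases neg_one_pow_eq_or ℝ (l + m) with h4 | h4 <;> rw [hm, h3, h4] at hb ⊢ <;> simp at hb ⊢

end Pool.Agent.VDW

namespace Pool.Agent.VDW

open Polynomial Finset
open scoped BigOperators

variable {F : Type} [Field F] [Fintype F] [DecidableEq F]

lemma u2_zero {l m : ℕ} (hm : 2 ≤ m) (ψ : AddChar F ℂ) (α : F[X] → ℝ) (σ : ℝ)
    (hα : 𝔼 a ∈ M F l, α a = 1) (L : F[X] →ₗ[F] F) (hL : ∀ g ∈ V F (l + m), L g = 0) :
    𝔼 f ∈ M F (l + m), ψ (L f) =
      𝔼 a ∈ M F l, 𝔼 b ∈ M F m, ((α a * (1 + σ * mu b) : ℝ) : ℂ) * ψ (L (a * b)) := by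
  have hc : ∀ f ∈ M F (l + m), L f = L (X ^ (l + m)) := fun f hf => by
    have := hL _ (mem_M'.1 hf)
    rwa [map_sub, sub_eq_zero] at this
  have h1 : 𝔼 f ∈ M F (l + m), ψ (L f) = ψ (L (X ^ (l + m))) := by
    rw [expect_congr rfl fun f hf => by rw [hc f hf]]
    exact expect_const (M_nonempty _) _
  have h2 : 𝔼 b ∈ M F m, (1 + σ * mu b) = 1 := by
    rw [expect_add_distrib, ← mul_expect, expect_mu hm, expect_const (M_nonempty _)]
    simp
  have h3 : ∀ a ∈ M F l,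
      𝔼 b ∈ M F m, ((α a * (1 + σ * mu b) : ℝ) : ℂ) * ψ (L (a * b)) =
        (α a : ℂ) * ψ (L (X ^ (l + m))) := fun a ha => by
    rw [expect_congr rfl fun b hb => by rw [hc _ (M_mul_M ha hb)], ← expect_mul,
      ← ofReal_expect, ← mul_expect, h2, mul_one]
  rw [h1, expect_congr rfl h3, ← expect_mul, ← ofReal_expect, hα]
  simp

lemma u2_beta {σ : ℝ} (hσ : |σ| ≤ 1) (b : F[X]) : |1 + σ * mu b| ≤ 2 := by
  have h1 : |σ * mu b| ≤ 1 := by
    rw [abs_mul]
    exact mul_le_one₀ hσ (abs_nonneg _) (abs_mu_le_one b)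
  have := abs_add_le 1 (σ * mu b)
  rw [abs_one] at this
  linarith

lemma u2_minor_sq {l m : ℕ} {ψ : AddChar F ℂ} (hψ : ψ ≠ 1) (β : F[X] → ℝ) (hβ : ∀ b, |β b| ≤ 2)
    (L : F[X] →ₗ[F] F) :
    𝔼 a ∈ M F l, ‖𝔼 b ∈ M F m, (β b : ℂ) * ψ (L (a * b))‖ ^ 2 ≤
      4 * 𝔼 y ∈ V F m, ind (Kills L y l) := by
  have h1 : ((𝔼 a ∈ M F l, ‖𝔼 b ∈ M F m, (β b : ℂ) * ψ (L (a * b))‖ ^ 2 : ℝ) : ℂ) =
      𝔼 b ∈ M F m, 𝔼 y ∈ V F m, ((β b * β (b - y) : ℝ) : ℂ) *
        𝔼 a ∈ M F l, ψ ((L ∘ₗ LinearMap.mulLeft F y) a) := by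
    rw [ofReal_expect, expect_congr rfl fun a _ => norm_sq_expect _ _, expect_comm]
    refine expect_congr rfl fun b hb => ?_
    rw [expect_comm, expect_M_base' hb]
    refine expect_congr rfl fun y _ => ?_
    rw [mul_expect]
    refine expect_congr rfl fun a _ => ?_
    rw [map_mul (starRingEnd ℂ), Complex.conj_ofReal, conj_psi]
    have e : (L ∘ₗ LinearMap.mulLeft F y) a = L (a * b) + -L (a * (b - y)) := by
      rw [← map_neg, ← map_add]
      simp only [LinearMap.comp_apply, LinearMap.mulLeft_apply]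
      congr 1
      ring
    rw [e, AddChar.map_add_eq_mul]
    push_cast
    ring
  have h0 : 0 ≤ 𝔼 a ∈ M F l, ‖𝔼 b ∈ M F m, (β b : ℂ) * ψ (L (a * b))‖ ^ 2 :=
    expect_nonneg fun _ _ => sq_nonneg _
  rw [← abs_of_nonneg h0, ← Real.norm_eq_abs, ← Complex.norm_real, h1]
  refine norm_expect_le' (mul_nonneg (by norm_num) (expect_ind_nonneg _ _)) fun b _ => ?_
  refine (norm_expect_le _ _).trans ?_
  rw [mul_expect]
  refine expect_le_expect fun y _ => ?_
  rw [norm_mul, Complex.norm_real, Real.norm_eq_abs, abs_mul]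
  have h2 := norm_orth_M hψ (L ∘ₗ LinearMap.mulLeft F y) l
  have h3 : |β b| * |β (b - y)| ≤ 4 := by
    have := mul_le_mul (hβ b) (hβ (b - y)) (abs_nonneg _) (by norm_num)
    linarith
  exact mul_le_mul h3 h2 (norm_nonneg _) (by norm_num)

lemma u2_minor {l m R : ℕ} {ψ : AddChar F ℂ} (hψ : ψ ≠ 1) (α β : F[X] → ℝ) (κ : ℝ) (hκ : 0 ≤ κ)
    (hα : ∀ a ∈ M F l, |α a| ≤ κ) (hβ : ∀ b, |β b| ≤ 2) (L : F[X] →ₗ[F] F)
    (h : 𝔼 y ∈ V F m, ind (Kills L y l) ≤ 1 / Q F ^ (2 * R)) :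
    ‖𝔼 a ∈ M F l, 𝔼 b ∈ M F m, ((α a * β b : ℝ) : ℂ) * ψ (L (a * b))‖ ≤ 2 * κ / Q F ^ R := by
  have hq : 0 < Q F ^ R := pow_pos Q_pos _
  have h1 : 𝔼 a ∈ M F l, 𝔼 b ∈ M F m, ((α a * β b : ℝ) : ℂ) * ψ (L (a * b)) =
      𝔼 a ∈ M F l, (α a : ℂ) * 𝔼 b ∈ M F m, (β b : ℂ) * ψ (L (a * b)) := by
    refine expect_congr rfl fun a _ => ?_
    rw [mul_expect]
    refine expect_congr rfl fun b _ => ?_
    push_cast
    ring
  rw [h1]
  have h2 := cs_bdd (M F l) (fun a => (α a : ℂ))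
    (fun a => 𝔼 b ∈ M F m, (β b : ℂ) * ψ (L (a * b))) κ
    (fun a ha => by rw [Complex.norm_real, Real.norm_eq_abs]; exact hα a ha)
  have h3 := u2_minor_sq (l := l) (m := m) hψ β hβ L
  refine le_of_sq_le_sq (h2.trans ?_) (by positivity)
  calc _ ≤ κ ^ 2 * (4 * (1 / Q F ^ (2 * R))) := by
        gcongr
        exact h3.trans (by gcongr)
    _ = _ := by
        rw [mul_comm 2 R, pow_mul]
        field_simp
        ring

lemma u2_span {l m : ℕ} {a B : F[X]} (ha : a ∈ M F l) (hirr : Irreducible a) (hB : B ≠ 0)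
    (hBl : B.natDegree < l) (hBm : B.natDegree ≤ m) (L : F[X] →ₗ[F] F) (h1 : Kills L a m)
    (h2 : Kills L B l) : ∀ g ∈ V F (l + m), L g = 0 := by
  intro f hf
  obtain ⟨hmon, hdeg⟩ := mem_M.1 ha
  have hcop : IsCoprime a B := by
    rw [hirr.coprime_iff_not_dvd]
    intro hd
    have := natDegree_le_of_dvd hd hB
    omega
  obtain ⟨u, v, huv⟩ := hcop
  have hy : (f * v) %ₘ a ∈ V F l := by
    rw [mem_V]
    have := degree_modByMonic_lt (f * v) hmon
    rwa [degree_eq_natDegree hmon.ne_zero, hdeg] at this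
  have e0 := modByMonic_add_div (f * v) a
  have e : f = a * (f * u + B * ((f * v) /ₘ a)) + B * ((f * v) %ₘ a) := by
    linear_combination (-f) * huv - B * e0
  have hx : f * u + B * ((f * v) /ₘ a) ∈ V F m := by
    have h3 : a * (f * u + B * ((f * v) /ₘ a)) ∈ V F (l + m) := by
      rw [eq_sub_of_add_eq e.symm]
      exact V_sub hf (V_mono (by omega) (mul_mem_V hBm hy))
    rw [mem_V_iff] at h3 ⊢
    by_cases hx0 : f * u + B * ((f * v) /ₘ a) = 0
    · exact Or.inl hx0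
    · right
      rcases h3 with h3 | h3
      · exact absurd h3 (mul_ne_zero hmon.ne_zero hx0)
      · rw [natDegree_mul hmon.ne_zero hx0] at h3
        omega
  rw [e, map_add, h1 _ hx, h2 _ hy, add_zero]

lemma u2_per {l m k : ℕ} {a B : F[X]} (ha : a ∈ M F l) (hB : B ≠ 0) (hk : k ≤ m)
    (L : F[X] →ₗ[F] F) (h : Kills L B (l + m - k)) (G : F → ℝ) :
    Per B k m (fun b => G (L (a * b))) := by
  rintro b _ c hc ⟨c', rfl⟩
  have hc' : c' ∈ V F (m - k) := by
    rw [mem_V_iff] at hc ⊢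
    by_cases h0 : c' = 0
    · exact Or.inl h0
    · right
      rcases hc with hc | hc
      · exact absurd hc (mul_ne_zero hB h0)
      · rw [natDegree_mul hB h0] at hc
        omega
  have h1 : L (B * (a * c')) = 0 := h _ (V_mono (by omega) (M_mul_V ha hc'))
  have e : a * (b + B * c') = a * b + B * (a * c') := by ring
  simp only [e, map_add, h1, add_zero]

omit [Field F] [Fintype F] [DecidableEq F] in
/-- all Fourier coefficients of the test function are small -/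
theorem u2 (R : ℕ) : ∃ m₀ : ℕ, ∀ m, m₀ ≤ m → ∃ A : ℝ, 0 ≤ A ∧ ∀ l, m ≤ l →
    ∀ (F : Type) [Field F] [Fintype F] [DecidableEq F] (ψ : AddChar F ℂ), ψ ≠ 1 →
      ∀ (α : F[X] → ℝ) (κ σ : ℝ), (∀ a ∈ M F l, 0 ≤ α a) → (∀ a ∈ M F l, α a ≤ κ) →
        (∀ a ∈ M F l, α a ≠ 0 → Irreducible a) → 𝔼 a ∈ M F l, α a = 1 → |σ| ≤ 1 →
        ∀ L : F[X] →ₗ[F] F,
          ‖𝔼 f ∈ M F (l + m), ψ (L f) -
            𝔼 a ∈ M F l, 𝔼 b ∈ M F m, ((α a * (1 + σ * mu b) : ℝ) : ℂ) * ψ (L (a * b))‖ ≤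
            A * κ / Q F ^ R := by
  obtain ⟨m₁, hm₁⟩ := major (2 * R) (4 * R + 1) R
  refine ⟨max m₁ (4 * R + 2), fun m hm => ?_⟩
  obtain ⟨A₁, hA₁, hmaj⟩ := hm₁ m (le_of_max_le_left hm)
  have hm2 : 4 * R + 2 ≤ m := le_of_max_le_right hm
  refine ⟨2 + 2 * A₁, by positivity, fun l hl F _ _ _ ψ hψ α κ σ hα0 hακ hirr hα hσ L => ?_⟩
  have hq : 0 < Q F ^ R := pow_pos Q_pos _
  have hκ : 1 ≤ κ := by
    rw [← hα]
    exact expect_le (M_nonempty l) hακ
  by_cases hL : ∀ g ∈ V F (l + m), L g = 0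
  · rw [u2_zero (by omega) ψ α σ hα L hL, sub_self, norm_zero]
    positivity
  rw [orth_M hψ hL, zero_sub, norm_neg]
  by_cases hd : 𝔼 y ∈ V F m, ind (Kills L y l) ≤ 1 / Q F ^ (2 * R)
  · refine (u2_minor hψ α (fun b => 1 + σ * mu b) κ (by linarith)
      (fun a ha => by rw [abs_of_nonneg (hα0 a ha)]; exact hακ a ha) (u2_beta hσ) L hd).trans ?_
    gcongr
    linarith
  obtain ⟨B, hB, hBd, hK⟩ := hankel L (2 * R) m l (by omega) (by omega) (not_le.1 hd).le
  have hmu : ∀ a ∈ M F l, ‖𝔼 b ∈ M F m, (mu b : ℂ) * ψ (L (a * b))‖ ≤ 2 * A₁ / Q F ^ R := by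
    intro a ha
    have hk : Kills L B (l + m - (4 * R + 1)) := hK _ (by omega)
    have h1 := hmaj F B hB hBd _ (u2_per ha hB (by omega) L hk fun x => (ψ x).re)
      (fun b _ => (Complex.abs_re_le_norm _).trans (norm_psi ψ _).le)
    have h2 := hmaj F B hB hBd _ (u2_per ha hB (by omega) L hk fun x => (ψ x).im)
      (fun b _ => (Complex.abs_im_le_norm _).trans (norm_psi ψ _).le)
    refine (Complex.norm_le_abs_re_add_abs_im _).trans ?_
    rw [re_expect, im_expect]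
    simp only [Complex.re_ofReal_mul, Complex.im_ofReal_mul]
    rw [two_mul, add_div]
    exact add_le_add h1 h2
  have hone : ∀ a ∈ M F l, (α a : ℂ) * 𝔼 b ∈ M F m, ψ (L (a * b)) = 0 := by
    intro a ha
    by_cases h0 : α a = 0
    · simp [h0]
    · have h1 : ¬ ∀ g ∈ V F m, (L ∘ₗ LinearMap.mulLeft F a) g = 0 := fun h =>
        hL (u2_span ha (hirr a ha h0) hB (by omega) (by omega) L h (hK _ (by omega)))
      have h2 := orth_M hψ h1
      simp only [LinearMap.comp_apply, LinearMap.mulLeft_apply] at h2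
      rw [h2, mul_zero]
  have hsplit : ∀ a ∈ M F l,
      𝔼 b ∈ M F m, ((α a * (1 + σ * mu b) : ℝ) : ℂ) * ψ (L (a * b)) =
        ((α a * σ : ℝ) : ℂ) * 𝔼 b ∈ M F m, (mu b : ℂ) * ψ (L (a * b)) := by
    intro a ha
    rw [← zero_add (_ * 𝔼 b ∈ M F m, _), ← hone a ha, mul_expect, mul_expect,
      ← expect_add_distrib]
    refine expect_congr rfl fun b _ => ?_
    push_cast
    ring
  rw [expect_congr rfl hsplit]
  refine (norm_expect_le _ _).trans ?_
  calc _ ≤ 𝔼 a ∈ M F l, α a * (2 * A₁ / Q F ^ R) := by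
        refine expect_le_expect fun a ha => ?_
        rw [norm_mul, Complex.norm_real, Real.norm_eq_abs, abs_mul, abs_of_nonneg (hα0 a ha)]
        exact mul_le_mul (mul_le_of_le_one_right (hα0 a ha) hσ) (hmu a ha) (norm_nonneg _)
          (hα0 a ha)
    _ = 2 * A₁ / Q F ^ R := by rw [← expect_mul, hα, one_mul]
    _ ≤ _ := div_le_div_of_nonneg_right (by nlinarith) hq.le

end Pool.Agent.VDW

namespace Pool.Agent.VDW

open Polynomial Finset
open scoped BigOperators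

theorem bad {l m : ℕ} (hl : l.Prime) (hm : 3 ≤ m) (hml : m < l) (a : Fin (l + m) → ℤ)
    (hirr : Irreducible (mon (red ℚ a)))
    (hG : ¬ Nonempty ((mon (red ℚ a)).Gal ≃* Equiv.Perm (Fin (l + m))))
    (p : ℕ) [Fact p.Prime] (hsq : Squarefree (mon (red (ZMod p) a))) :
    phi l m (mon (red (ZMod p) a)) = 1 := by
  by_contra hne
  obtain ⟨hmu, b, hb, hbl, hbf⟩ := of_phi_ne_one hsq hne
  obtain ⟨G, ⟨eG⟩, htr, hfr⟩ := ded a hirr
  obtain ⟨σ, hσ, k, _, _, _, e, he, hr, hπ⟩ := hfr p hsq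
  have hM : mon (red (ZMod p) a) ∈ M (ZMod p) (l + m) := by
    rw [mem_M', mon_eq, add_sub_cancel_left, mem_V]
    exact ofFn_degree_lt _
  obtain ⟨hmon, hdeg⟩ := mem_M.1 hM
  have hcard : Fintype.card (Fin (l + m)) = (mon (red (ZMod p) a)).natDegree := by
    rw [hdeg, Fintype.card_fin]
  have hπ' : ∀ x, e (σ x) = e x ^ Fintype.card (ZMod p) := by rw [ZMod.card]; exact hπ
  have hsign := frob_sign hmon hsq hcard e he hr σ hπ'
  obtain ⟨N, hN1, hN2⟩ := frob_cycle hmon hcard e he hr σ hπ' hb hbf (hbl ▸ hl)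
    (by rw [hdeg, hbl]; omega)
  rw [hbl] at hN2
  have hodd : Equiv.Perm.sign σ = -1 := by
    rw [hmu, hdeg, ← pow_add, show l + m + (l + m + 1) = 2 * (l + m) + 1 by ring, pow_succ,
      pow_mul] at hsign
    rcases Int.units_eq_one_or (Equiv.Perm.sign σ) with h | h
    · rw [h] at hsign; norm_num at hsign
    · exact h
  have htop := top_of_cycle G htr (G.pow_mem hσ N) hN1 (by rw [hN2]; exact hl)
    (by rw [hN2, Fintype.card_fin]; omega) (by rw [hN2, Fintype.card_fin]; omega) hσ hodd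
  subst htop
  exact hG ⟨eG.trans Subgroup.topEquiv⟩

end Pool.Agent.VDW

namespace Pool.Agent.VDW

open Polynomial Finset
open scoped BigOperators

/-- the local input: the test function has small third Gowers norm modulo every large prime -/
theorem loc : ∃ n₀ : ℕ, ∀ n, n₀ ≤ n → ∃ l m : ℕ, l.Prime ∧ n = l + m ∧ 3 ≤ m ∧ m < l ∧
    ∃ p₀ : ℕ, ∀ (p : ℕ) [Fact p.Prime], p₀ ≤ p →
      U3 (fun v : Fin (l + m) → ZMod p => phi l m (mon v)) ≤ (1 / (p : ℝ) ^ 5) ^ 8 := by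
  obtain ⟨m₀, hm₀⟩ := u2 5001
  obtain ⟨n₀, hn₀⟩ := primeL (max m₀ 10000)
  refine ⟨n₀, fun n hn => ?_⟩
  obtain ⟨l, m, hl, rfl, hm, hml⟩ := hn₀ n hn
  have hm1 : m₀ ≤ m := (le_max_left _ _).trans hm
  have hm2 : 10000 ≤ m := (le_max_right _ _).trans hm
  have hl2 : m + 10000 ≤ l := le_trans (Nat.add_le_add_left (le_max_right _ _) m) hml
  obtain ⟨A, hA0, hA⟩ := hm₀ m hm1
  refine ⟨l, m, hl, rfl, by omega, by omega, ?_⟩
  obtain ⟨p₀, hp₀⟩ := exists_nat_ge
    (16 * (1 + 4 * (l : ℝ)) ^ 12 + 2 ^ (l + m) + A * (2 * l) + 3)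
  refine ⟨p₀, fun p _ hp => ?_⟩
  have hQ : Q (ZMod p) = p := by simp [Q]
  have hp' : (p₀ : ℝ) ≤ p := by exact_mod_cast hp
  have hl0 : (0 : ℝ) ≤ l := Nat.cast_nonneg l
  have e1 : (0 : ℝ) ≤ 16 * (1 + 4 * (l : ℝ)) ^ 12 := by positivity
  have e2 : (0 : ℝ) ≤ 2 ^ (l + m) := by positivity
  have e3 : (0 : ℝ) ≤ A * (2 * l) := by positivity
  have hp3 : (3 : ℝ) ≤ p := by linarith
  have hψ : (ZMod.stdAddChar : AddChar (ZMod p) ℂ) ≠ 1 := by
    intro h
    have h1 := (ZMod.isPrimitive_stdAddChar p) (a := 1) one_ne_zero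
    rw [AddChar.mulShift_one] at h1
    exact h1 h
  have h2 : (2 : ZMod p) ≠ 0 := by
    intro h
    have h3 : ((2 : ℕ) : ZMod p) = 0 := by exact_mod_cast h
    rw [ZMod.natCast_eq_zero_iff] at h3
    have := Nat.le_of_dvd two_pos h3
    have h4 : (p : ℝ) ≤ 2 := by exact_mod_cast this
    linarith
  rw [U3_eq_PU3, div_pow, one_pow, ← pow_mul, ← hQ]
  refine u3 hψ h2 l m hm2 (by omega) (alpha l) (beta (l + m)) (phi l m) (1 + 4 * l) (by linarith)
    (by rw [hQ]; linarith) (by rw [hQ]; linarith) (fun a _ => ?_) (fun b _ => ?_)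
    (fun f _ => abs_phi_le hl (by omega) f) (conv_phi l m) (fun L => ?_)
  · rw [abs_of_nonneg (alpha_nonneg l a)]
    linarith [alpha_le hl a]
  · have : (2 : ℝ) ≤ l := by exact_mod_cast hl.two_le
    linarith [abs_beta_le (l + m) b]
  · rw [conv_phi l m (fun f => ZMod.stdAddChar (L f))]
    have h5 := hA l (by omega) (ZMod p) ZMod.stdAddChar hψ (alpha l) (2 * l) ((-1) ^ (l + m))
      (fun a _ => alpha_nonneg l a) (fun a _ => alpha_le hl a) (fun a _ h => irr_of_alpha h)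
      (expect_alpha hl) (by rw [abs_pow]; simp) L
    refine h5.trans ?_
    have hq := Q_pos (F := ZMod p)
    rw [pow_succ, div_le_div_iff₀ (by positivity) (by positivity), one_mul, mul_comm]
    exact mul_le_mul_of_nonneg_left (by rw [hQ]; linarith) (by positivity)

end Pool.Agent.VDW

namespace Pool.Agent.VDW

open Polynomial Finset
open scoped BigOperators

lemma poly_eq {n : ℕ} (a : Fin n → ℤ) : poly a = mon (red ℚ (fun i => a (Fin.rev i))) := by
  unfold poly mon red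
  refine congrArg _ ?_
  refine (Fintype.sum_equiv Fin.revPerm _ _ fun i => ?_).symm
  have h : n - 1 - ((Fin.revPerm i : Fin n) : ℕ) = i := by
    have := i.2
    simp only [Fin.revPerm_apply, Fin.val_rev]; omega
  rw [h]; simp

lemma N_le (n : ℕ) (H : ℝ) (hH : 1 ≤ H) : ∃ S : Finset (Fin n → ℤ), (N n H : ℝ) ≤ S.card ∧
    (S.card : ℝ) ≤ (3 * H) ^ n ∧ ∀ a ∈ S, (∀ i, |(a i : ℝ)| ≤ H) ∧ Irreducible (mon (red ℚ a)) ∧
      ¬ Nonempty ((mon (red ℚ a)).Gal ≃* Equiv.Perm (Fin n)) := by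
  classical
  refine ⟨(Fintype.piFinset fun _ : Fin n => Finset.Icc (-⌊H⌋) ⌊H⌋).filter fun a =>
    (∀ i, |(a i : ℝ)| ≤ H) ∧ Irreducible (mon (red ℚ a)) ∧
      ¬ Nonempty ((mon (red ℚ a)).Gal ≃* Equiv.Perm (Fin n)), ?_, ?_, fun a ha => (mem_filter.1 ha).2⟩
  · rw [Nat.cast_le, ← Set.ncard_coe_finset]
    refine Set.ncard_le_ncard_of_injOn (fun a i => a (Fin.rev i)) ?_ ?_ (Finset.finite_toSet _)
    · rintro a ⟨h1, h2, h3⟩
      rw [poly_eq] at h2 h3
      refine mem_coe.2 (mem_filter.2 ⟨Fintype.mem_piFinset.2 fun i => ?_, fun i => h1 _, h2, h3⟩)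
      have := abs_le.1 (h1 (Fin.rev i))
      rw [Finset.mem_Icc, neg_le, Int.le_floor, Int.le_floor]
      push_cast
      constructor <;> linarith
    · intro a _ b _ h
      funext i
      simpa using congrFun h (Fin.rev i)
  · refine le_trans (Nat.cast_le.2 (card_filter_le _ _)) ?_
    rw [Fintype.card_piFinset_const, Nat.cast_pow]
    refine pow_le_pow_left₀ (Nat.cast_nonneg _) ?_ n
    have h0 : 0 ≤ ⌊H⌋ := Int.floor_nonneg.2 (by linarith)
    have h1 : ((Finset.Icc (-⌊H⌋) ⌊H⌋).card : ℤ) = 2 * ⌊H⌋ + 1 := by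
      rw [Int.card_Icc, Int.toNat_of_nonneg (by omega)]; ring
    have h2 : ((Finset.Icc (-⌊H⌋) ⌊H⌋).card : ℝ) = 2 * (⌊H⌋ : ℝ) + 1 := by exact_mod_cast h1
    rw [h2]
    linarith [Int.floor_le H]

/-- a function that is `1` off a small set has mean at least one half -/
lemma half_le_expect {ι : Type*} (s : Finset ι) (hs : s.Nonempty) (f : ι → ℝ) (P : ι → Prop)
    [DecidablePred P] (K : ℝ) (hK : 0 ≤ K) (h1 : ∀ i, |f i| ≤ K) (h2 : ∀ i ∈ s, ¬ P i → f i = 1)
    (h3 : 2 * (K + 1) * (s.filter P).card ≤ s.card) : 1 / 2 ≤ 𝔼 i ∈ s, f i := by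
  have hc : (0 : ℝ) < s.card := by exact_mod_cast hs.card_pos
  have h4 : 𝔼 i ∈ s, (1 - (K + 1) * ind (P i)) ≤ 𝔼 i ∈ s, f i := by
    refine expect_le_expect fun i hi => ?_
    by_cases h : P i
    · rw [ind_pos h]; linarith [(abs_le.1 (h1 i)).1]
    · rw [ind_neg h, h2 i hi h]; linarith
  rw [expect_sub_distrib, expect_const hs, ← mul_expect, expect_ind] at h4
  refine le_trans ?_ h4
  have : (K + 1) * (((s.filter P).card : ℝ) / s.card) ≤ 1 / 2 := by
    rw [← mul_div_assoc, div_le_iff₀ hc]; linarith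
  linarith

lemma exists_root4 (H : ℝ) (hH : 1 ≤ H) : ∃ P : ℕ, (P : ℝ) ^ 4 ≤ H ∧ H < ((P : ℝ) + 1) ^ 4 := by
  have h0 : 0 ≤ √(√H) := Real.sqrt_nonneg _
  have h4 : (√(√H)) ^ 4 = H := by
    rw [show (4 : ℕ) = 2 * 2 from rfl, pow_mul, Real.sq_sqrt (Real.sqrt_nonneg _),
      Real.sq_sqrt (by linarith)]
  refine ⟨⌊√(√H)⌋₊, ?_, ?_⟩
  · conv_rhs => rw [← h4]
    exact pow_le_pow_left₀ (Nat.cast_nonneg _) (Nat.floor_le h0) 4
  · conv_lhs => rw [← h4]
    exact pow_lt_pow_left₀ (Nat.lt_floor_add_one _) h0 (by norm_num)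

lemma final_pow {P H c : ℝ} (hP : 1 ≤ P) (hH : 1 ≤ H) (h : H ≤ 16 * P ^ 4)
    (hc : P ^ (49 / 50 : ℝ) ≤ c) : H ^ (6 / 5 : ℝ) * (1 / c ^ 5 + (4 / P) ^ 5) ≤ 256 * 1025 := by
  have hP0 : 0 < P := by linarith
  have h1 : H ^ (6 / 5 : ℝ) ≤ 256 * P ^ (49 / 10 : ℝ) := by
    calc H ^ (6 / 5 : ℝ) ≤ (16 * P ^ 4) ^ (6 / 5 : ℝ) :=
          Real.rpow_le_rpow (by linarith) h (by norm_num)
      _ = 16 ^ (6 / 5 : ℝ) * P ^ (24 / 5 : ℝ) := by
          rw [Real.mul_rpow (by norm_num) (by positivity), ← Real.rpow_natCast,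
            ← Real.rpow_mul hP0.le]
          norm_num
      _ ≤ 16 ^ (2 : ℝ) * P ^ (49 / 10 : ℝ) :=
          mul_le_mul (Real.rpow_le_rpow_of_exponent_le (by norm_num) (by norm_num))
            (Real.rpow_le_rpow_of_exponent_le hP (by norm_num)) (by positivity) (by positivity)
      _ = _ := by norm_num
  have hy : 0 < P ^ (49 / 10 : ℝ) := by positivity
  have h2 : P ^ (49 / 10 : ℝ) ≤ c ^ 5 := by
    calc P ^ (49 / 10 : ℝ) = (P ^ (49 / 50 : ℝ)) ^ 5 := by
          rw [← Real.rpow_natCast, ← Real.rpow_mul hP0.le]; norm_num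
      _ ≤ c ^ 5 := pow_le_pow_left₀ (by positivity) hc 5
  have h3 : P ^ (49 / 10 : ℝ) ≤ P ^ 5 := by
    rw [← Real.rpow_natCast]
    exact Real.rpow_le_rpow_of_exponent_le hP (by norm_num)
  have h4 : 1 / c ^ 5 ≤ 1 / P ^ (49 / 10 : ℝ) := one_div_le_one_div_of_le hy h2
  have h5 : (4 / P) ^ 5 ≤ 1024 / P ^ (49 / 10 : ℝ) := by
    rw [div_pow]
    exact div_le_div₀ (by norm_num) (by norm_num) hy h3
  calc _ ≤ (256 * P ^ (49 / 10 : ℝ)) * (1 / P ^ (49 / 10 : ℝ) + 1024 / P ^ (49 / 10 : ℝ)) := by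
        have : 0 < c := lt_of_lt_of_le (by positivity) hc
        exact mul_le_mul h1 (add_le_add h4 h5) (by positivity) (by positivity)
    _ = _ := by field_simp; norm_num

theorem main : ∃ n₀ : ℕ, ∀ n, n₀ ≤ n → ∃ C : ℝ, ∀ H : ℝ, 1 ≤ H →
    (N n H : ℝ) ≤ C * H ^ ((n : ℝ) - 6 / 5) := by
  classical
  obtain ⟨n₀, hn₀⟩ := loc
  refine ⟨n₀, fun n hn => ?_⟩
  obtain ⟨l, m, hl, rfl, hm, hml, p₀, hp₀⟩ := hn₀ n hn
  have hl0 : (0 : ℝ) ≤ l := Nat.cast_nonneg l
  obtain ⟨A₁, hA₁0, hA₁⟩ := moment (l + m) (1 + 4 * l) (by linarith)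
  obtain ⟨A₂, hA₂0, hA₂⟩ := disc (l + m)
  obtain ⟨P₀, hP₀⟩ := primeP
  set c : ℝ := 2 * (1 + 4 * l + 1) * (10 * (l + m : ℕ) + 1) with hc
  have hc0 : 0 ≤ c := by positivity
  obtain ⟨P₁, hP₁⟩ := exists_nat_ge ((P₀ : ℝ) + 4 * p₀ + 16384 + 4 * A₂ + c ^ 2)
  have hP₀0 : (0 : ℝ) ≤ P₀ := Nat.cast_nonneg _
  have hp₀0 : (0 : ℝ) ≤ p₀ := Nat.cast_nonneg _
  have hc2 : 0 ≤ c ^ 2 := sq_nonneg c
  refine ⟨(3 * ((P₁ : ℝ) + 1) ^ 4) ^ (l + m) + A₁ * (256 * 1025), fun H hH => ?_⟩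
  obtain ⟨S, hS1, hS2, hS3⟩ := N_le (l + m) H hH
  obtain ⟨P, hP1, hP2⟩ := exists_root4 H hH
  have hH0 : 0 < H := by linarith
  have hpow : 1 ≤ H ^ (((l + m : ℕ) : ℝ) - 6 / 5) := by
    refine Real.one_le_rpow hH ?_
    have : (3 : ℝ) ≤ (l + m : ℕ) := by exact_mod_cast (by omega : 3 ≤ l + m)
    linarith
  refine hS1.trans ?_
  rcases lt_or_ge P P₁ with hlt | hge
  · have h1 : H ≤ ((P₁ : ℝ) + 1) ^ 4 := by
      refine hP2.le.trans (pow_le_pow_left₀ (by positivity) ?_ 4)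
      have : (P : ℝ) ≤ P₁ := by exact_mod_cast hlt.le
      linarith
    have h2 : (S.card : ℝ) ≤ (3 * ((P₁ : ℝ) + 1) ^ 4) ^ (l + m) :=
      hS2.trans (pow_le_pow_left₀ (by positivity) (by linarith) _)
    have h3 : (0 : ℝ) ≤ (3 * ((P₁ : ℝ) + 1) ^ 4) ^ (l + m) := by positivity
    have h4 : 0 ≤ A₁ * (256 * 1025) := by positivity
    nlinarith
  · have hge' : (P₁ : ℝ) ≤ P := by exact_mod_cast hge
    have hPP₀ : P₀ ≤ P := by
      have : (P₀ : ℝ) ≤ P := by linarith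
      exact_mod_cast this
    obtain ⟨PP, hPP1, hPP2⟩ := hP₀ P hPP₀
    have hPbig : (16384 : ℝ) ≤ P := by linarith
    have hP0 : (0 : ℝ) < P := by linarith
    have hH16 : H ≤ 16 * (P : ℝ) ^ 4 := by
      refine hP2.le.trans ?_
      calc ((P : ℝ) + 1) ^ 4 ≤ (2 * P) ^ 4 := pow_le_pow_left₀ (by positivity) (by linarith) 4
        _ = _ := by ring
    have hcP : c ≤ PP.card := by
      refine le_trans ?_ hPP1
      calc c = (c ^ 2) ^ (1 / 2 : ℝ) := by
            rw [← Real.rpow_natCast, ← Real.rpow_mul hc0]; norm_num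
        _ ≤ (P : ℝ) ^ (1 / 2 : ℝ) := Real.rpow_le_rpow hc2 (by linarith) (by norm_num)
        _ ≤ _ := Real.rpow_le_rpow_of_exponent_le (by linarith) (by norm_num)
    have hne : PP.Nonempty := by
      rw [← card_pos]
      have : (0 : ℝ) < PP.card := lt_of_lt_of_le (by positivity) hPP1
      exact_mod_cast this
    have hy : ∀ p ∈ PP, (P : ℝ) / 4 ≤ ((p : ℕ) : ℝ) := fun p hp => by
      have : (P : ℝ) < 4 * ((p : ℕ) : ℝ) := by exact_mod_cast (hPP2 p hp).2
      linarith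
    have key := hA₁ H hH PP P hne (fun p hp => (hPP2 p hp).1) hP1
      (fun p v => phi l m (mon v)) (fun p v => abs_phi_le hl hml _) ((4 / P) ^ 5) (by positivity)
      (fun p hp => ?_) S (fun a ha => (hS3 a ha).1) (fun a ha => ?_)
    · refine key.trans ?_
      have h1 := final_pow (by linarith : (1 : ℝ) ≤ P) hH hH16 hPP1
      have h2 : H ^ (l + m) = H ^ (((l + m : ℕ) : ℝ) - 6 / 5) * H ^ (6 / 5 : ℝ) := by
        rw [← Real.rpow_add hH0, sub_add_cancel, Real.rpow_natCast]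
      have h3 : (0 : ℝ) ≤ (3 * ((P₁ : ℝ) + 1) ^ 4) ^ (l + m) := by positivity
      rw [h2]
      calc _ = A₁ * (H ^ (6 / 5 : ℝ) * (1 / (PP.card : ℝ) ^ 5 + (4 / P) ^ 5)) *
            H ^ (((l + m : ℕ) : ℝ) - 6 / 5) := by ring
        _ ≤ _ := by
          refine mul_le_mul_of_nonneg_right ?_ (by positivity)
          have := mul_le_mul_of_nonneg_left h1 hA₁0
          linarith
    · have h1 : p₀ ≤ (p : ℕ) := by
        have : (p₀ : ℝ) ≤ ((p : ℕ) : ℝ) := by linarith [hy p hp]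
        exact_mod_cast this
      refine (hp₀ p h1).trans (pow_le_pow_left₀ (by positivity) ?_ 8)
      rw [one_div, ← inv_pow]
      refine pow_le_pow_left₀ (by positivity) ?_ 5
      rw [← inv_div]
      exact inv_anti₀ (by positivity) (hy p hp)
    · obtain ⟨ha1, ha2, ha3⟩ := hS3 a ha
      obtain ⟨D, hD0, hD1, hD2⟩ := hA₂ H hH a ha1 ha2
      refine half_le_expect PP hne _ (fun p => ((p : ℕ) : ℤ) ∣ D) (1 + 4 * l) (by linarith)
        (fun p => abs_phi_le hl hml _) (fun p _ h => bad hl hm hml a ha2 ha3 p (hD2 p h)) ?_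
      refine le_trans ?_ hcP
      rw [hc]
      refine mul_le_mul_of_nonneg_left ?_ (by positivity)
      have h1 := pow_card_le D hD0 (PP.filter fun p => ((p : ℕ) : ℤ) ∣ D) (P / 4) (by positivity)
        (fun p hp => ⟨hy p (mem_filter.1 hp).1, (mem_filter.1 hp).2⟩)
      have h2 : H ≤ ((P : ℝ) / 4) ^ 5 := by
        refine hH16.trans ?_
        have : (0 : ℝ) ≤ (P : ℝ) ^ 4 := by positivity
        calc 16 * (P : ℝ) ^ 4 = 16384 * (P : ℝ) ^ 4 / 1024 := by ring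
          _ ≤ (P : ℝ) * (P : ℝ) ^ 4 / 1024 := by gcongr
          _ = _ := by ring
      have h3 : A₂ * H ^ (2 * (l + m)) ≤ ((P : ℝ) / 4) ^ (10 * (l + m) + 1) := by
        calc A₂ * H ^ (2 * (l + m)) ≤ (P / 4) * (((P : ℝ) / 4) ^ 5) ^ (2 * (l + m)) :=
              mul_le_mul (by linarith) (pow_le_pow_left₀ hH0.le h2 _) (by positivity)
                (by positivity)
          _ = _ := by rw [← pow_mul, ← pow_succ']; congr 1; ring
      have h4 := (pow_le_pow_iff_right₀ (by linarith : (1 : ℝ) < P / 4)).1 (h1.trans (hD1.trans h3))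
      exact_mod_cast h4

end Pool.Agent.VDW
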